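import Pool.Agent.MP_5f4cdd_gt.PL1

set_option autoImplicit false
open MeasureTheory ENNReal Set Filter Topology

namespace Pool.Agent.MP_5f4cdd_gt.PL

lemma hm_le_gm {a b P Q : ℝ} (ha : 0 < a) (hb : 0 < b) (hab : a + b = 1) (hP : 0 < P) (hQ : 0 < Q) :
    (a / P + b / Q)⁻¹ ≤ P ^ a * Q ^ b := by
  have h := Real.geom_mean_le_arith_mean2_weighted ha.le hb.le (inv_pos.2 hP).le
    (inv_pos.2 hQ).le hab
  rw [Real.inv_rpow hP.le, Real.inv_rpow hQ.le, ← mul_inv] at h
  rw [inv_le_comm₀ (by positivity) (by positivity)]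
  simpa only [div_eq_mul_inv] using h

lemma lintegral_inv_Ioi (f : ℝ → ℝ≥0∞) :
    ∫⁻ r in Ioi (0 : ℝ), f r = ∫⁻ u, (Ioi (0 : ℝ)).indicator
      (fun u => ENNReal.ofReal ((u ^ 2)⁻¹) * f u⁻¹) u := by
  have h1 : (fun u : ℝ => u⁻¹) '' Ioi 0 = Ioi 0 := by
    ext x
    constructor
    · rintro ⟨u, hu, rfl⟩; exact inv_pos.2 (mem_Ioi.1 hu)
    · intro hx; exact ⟨x⁻¹, inv_pos.2 (mem_Ioi.1 hx), inv_inv x⟩
  have h2 := lintegral_image_eq_lintegral_abs_deriv_mul (s := Ioi (0 : ℝ)) (f := fun u : ℝ => u⁻¹)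
    (f' := fun u => -(u ^ 2)⁻¹) measurableSet_Ioi
    (fun x hx => (hasDerivAt_inv (ne_of_gt hx)).hasDerivWithinAt)
    (fun x _ y _ h => inv_injective h) f
  rw [h1] at h2
  rw [h2, lintegral_indicator measurableSet_Ioi]
  refine lintegral_congr fun u => ?_
  rw [abs_neg, abs_of_nonneg (by positivity)]

/-- Ball's harmonic lemma on the half-line -/
theorem ball {α β : ℝ} (hα : 0 < α) (hβ : 0 < β) (hαβ : α + β = 1) {f g h : ℝ → ℝ≥0∞}
    (hf : Measurable f) (hg : Measurable g) (hh : Measurable h)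
    (H : ∀ r s a b : ℝ, 0 < r → 0 < s → 0 < a → 0 < b → a + b = 1 → a * β * r = b * α * s →
      f r ^ a * g s ^ b ≤ h (a * r + b * s)) :
    (∫⁻ x in Ioi (0 : ℝ), h x)⁻¹ ≤ ENNReal.ofReal α * (∫⁻ x in Ioi (0 : ℝ), f x)⁻¹ +
      ENNReal.ofReal β * (∫⁻ x in Ioi (0 : ℝ), g x)⁻¹ := by
  have hm : ∀ {f : ℝ → ℝ≥0∞}, Measurable f → Measurable ((Ioi (0 : ℝ)).indicator
      (fun u => ENNReal.ofReal ((u ^ 2)⁻¹) * f u⁻¹)) := fun hf =>
    Measurable.indicator (((measurable_id.pow_const 2).inv.ennreal_ofReal).mul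
      (hf.comp measurable_inv)) measurableSet_Ioi
  have hlow : ∀ {f : ℝ → ℝ≥0∞} {m : ℝ≥0∞} {M u : ℝ}, m ≠ 0 → 0 < M →
      m * ENNReal.ofReal M ≤ (Ioi (0 : ℝ)).indicator
        (fun u => ENNReal.ofReal ((u ^ 2)⁻¹) * f u⁻¹) u →
      0 < u ∧ m * ENNReal.ofReal ((√M * u) ^ 2) ≤ f u⁻¹ := by
    intro f m M u hm0 hM h1
    have hu : 0 < u := by
      by_contra hu
      rw [indicator_of_notMem (by simpa using hu)] at h1
      simp only [nonpos_iff_eq_zero, mul_eq_zero, ENNReal.ofReal_eq_zero] at h1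
      rcases h1 with h1 | h1
      · exact hm0 h1
      · linarith
    refine ⟨hu, ?_⟩
    rw [indicator_of_mem (mem_Ioi.2 hu)] at h1
    have h2 := mul_le_mul_left h1 (ENNReal.ofReal (u ^ 2))
    rw [mul_right_comm (ENNReal.ofReal _), ← ENNReal.ofReal_mul (by positivity),
      inv_mul_cancel₀ (by positivity), ENNReal.ofReal_one, one_mul, mul_assoc,
      ← ENNReal.ofReal_mul hM.le] at h2
    rwa [mul_pow, Real.sq_sqrt hM.le]
  rw [lintegral_inv_Ioi f, lintegral_inv_Ioi g, lintegral_inv_Ioi h]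
  refine inv_le_of_lt hα hβ fun A B hA0 hB0 hA hB => ?_
  refine bbl1 hα hβ (hm hf) (hm hg) (hm hh) (fun M N => ((α / √M + β / √N)⁻¹) ^ 2)
    (fun M N hM hN => by positivity)
    (fun M N hM hN m u v h1 h2 => ?_) hA0 hB0 hA hB (fun M N hM hN => ?_)
  · rcases eq_or_ne m 0 with rfl | hm0
    · simp
    obtain ⟨hu, h1⟩ := hlow hm0 hM h1
    obtain ⟨hv, h2⟩ := hlow hm0 hN h2
    set w := α * u + β * v with hw
    have hw0 : 0 < w := by positivity
    set a := α * u / w with ha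
    set b := β * v / w with hb
    have ha0 : 0 < a := by positivity
    have hb0 : 0 < b := by positivity
    have hab : a + b = 1 := by rw [ha, hb, ← add_div, div_self hw0.ne']
    have key := H u⁻¹ v⁻¹ a b (inv_pos.2 hu) (inv_pos.2 hv) ha0 hb0 hab (by
      rw [ha, hb]; field_simp)
    have e : a * u⁻¹ + b * v⁻¹ = w⁻¹ := by
      rw [ha, hb]; field_simp; linarith
    rw [e] at key
    rw [indicator_of_mem (mem_Ioi.2 hw0)]
    have key2 := (mul_le_mul' (ENNReal.rpow_le_rpow h1 ha0.le)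
      (ENNReal.rpow_le_rpow h2 hb0.le)).trans key
    have sM := Real.sqrt_pos.2 hM
    have sN := Real.sqrt_pos.2 hN
    rw [ENNReal.mul_rpow_of_nonneg _ _ ha0.le, ENNReal.mul_rpow_of_nonneg _ _ hb0.le,
      mul_mul_mul_comm, ← ENNReal.rpow_add_of_nonneg _ _ ha0.le hb0.le, hab, ENNReal.rpow_one,
      ENNReal.ofReal_rpow_of_pos (by positivity), ENNReal.ofReal_rpow_of_pos (by positivity),
      ← ENNReal.ofReal_mul (by positivity)] at key2
    refine le_trans ?_ (mul_le_mul_right key2 _)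
    rw [mul_left_comm, ← ENNReal.ofReal_mul (by positivity)]
    refine mul_le_mul_right (ENNReal.ofReal_le_ofReal ?_) _
    have g1 := hm_le_gm ha0 hb0 hab (P := √M * u / w) (Q := √N * v / w) (by positivity)
      (by positivity)
    have e1 : a / (√M * u / w) + b / (√N * v / w) = α / √M + β / √N := by
      rw [ha, hb]; field_simp
    rw [e1] at g1
    refine (pow_le_pow_left₀ (by positivity) g1 2).trans (le_of_eq ?_)
    have e2 : w ^ a * w ^ b = w := by rw [← Real.rpow_add hw0, hab, Real.rpow_one]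
    rw [Real.div_rpow (by positivity) hw0.le, Real.div_rpow (by positivity) hw0.le,
      div_mul_div_comm, e2, ← Real.rpow_natCast (√M * u), ← Real.rpow_natCast (√N * v),
      ← Real.rpow_mul (by positivity), ← Real.rpow_mul (by positivity), mul_comm _ a, mul_comm _ b,
      Real.rpow_mul (by positivity), Real.rpow_mul (by positivity), Real.rpow_natCast,
      Real.rpow_natCast]
    field_simp
  · have sM := Real.sqrt_pos.2 hM
    have sN := Real.sqrt_pos.2 hN
    have eM : A / M = A * (√M)⁻¹ ^ 2 := by rw [inv_pow, Real.sq_sqrt hM.le, div_eq_mul_inv]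
    have eN : B / N = B * (√N)⁻¹ ^ 2 := by rw [inv_pow, Real.sq_sqrt hN.le, div_eq_mul_inv]
    rw [eM, eN, div_eq_mul_inv α √M, div_eq_mul_inv β √N]
    have hx := inv_pos.2 sM
    have hy := inv_pos.2 sN
    generalize (√M)⁻¹ = x at hx ⊢
    generalize (√N)⁻¹ = y at hy ⊢
    rw [inv_pow, ← div_eq_mul_inv, le_div_iff₀ (by positivity), inv_mul_le_iff₀ (by positivity)]
    have : (α / A + β / B) * (α * (A * x ^ 2) + β * (B * y ^ 2)) - (α * x + β * y) ^ 2 =
        α * β * (A * x - B * y) ^ 2 / (A * B) := by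
      field_simp; ring
    have h2 : 0 ≤ α * β * (A * x - B * y) ^ 2 / (A * B) := by positivity
    linarith

lemma measurable_cons {m : ℕ} :
    Measurable fun q : ℝ × (Fin m → ℝ) => (Fin.cons q.1 q.2 : Fin (m + 1) → ℝ) := by
  refine measurable_pi_iff.2 fun j => ?_
  refine Fin.cases ?_ (fun i => ?_) j
  · simpa using measurable_fst
  · simp only [Fin.cons_succ]; fun_prop

lemma lintegral_cons {m : ℕ} {g : (Fin (m + 1) → ℝ) → ℝ≥0∞} (hg : Measurable g) :
    ∫⁻ Y, g Y = ∫⁻ a : ℝ, ∫⁻ X : Fin m → ℝ, g (Fin.cons a X) := by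
  have h := (volume_preserving_piFinSuccAbove (fun _ : Fin (m + 1) => ℝ) 0).symm
  rw [← h.lintegral_comp hg, Measure.volume_eq_prod, lintegral_prod]
  · refine lintegral_congr fun X => lintegral_congr fun a => ?_
    simp [MeasurableEquiv.piFinSuccAbove_symm_apply, Fin.insertNthEquiv, Fin.insertNth_zero']
  · exact (hg.comp (MeasurableEquiv.measurable _)).aemeasurable

lemma measurable_slice {m : ℕ} {g : (Fin (m + 1) → ℝ) → ℝ≥0∞} (hg : Measurable g) :
    Measurable fun a : ℝ => ∫⁻ X : Fin m → ℝ, g (Fin.cons a X) :=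
  Measurable.lintegral_prod_right' (f := fun q : ℝ × (Fin m → ℝ) => g (Fin.cons q.1 q.2))
    (hg.comp measurable_cons)

lemma measurable_cons' {m : ℕ} (a : ℝ) :
    Measurable fun X : Fin m → ℝ => (Fin.cons a X : Fin (m + 1) → ℝ) :=
  measurable_cons.comp (f := fun X : Fin m → ℝ => (a, X)) (by fun_prop)

lemma cons_combo {m : ℕ} (a b r s : ℝ) (X Y : Fin m → ℝ) :
    a • (Fin.cons r X : Fin (m + 1) → ℝ) + b • (Fin.cons s Y : Fin (m + 1) → ℝ) =
      Fin.cons (a * r + b * s) (a • X + b • Y) := by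
  ext j
  refine Fin.cases ?_ (fun i => ?_) j <;> simp

/-- The Prekopa-Leindler inequality on `Fin n → ℝ` -/
theorem pl {α β : ℝ} (hα : 0 < α) (hβ : 0 < β) (hαβ : α + β = 1) :
    ∀ (n : ℕ) {f g h : (Fin n → ℝ) → ℝ≥0∞}, Measurable f → Measurable g → Measurable h →
      (∀ x y, f x ^ α * g y ^ β ≤ h (α • x + β • y)) →
      (∫⁻ x, f x) ^ α * (∫⁻ x, g x) ^ β ≤ ∫⁻ x, h x := by
  intro n
  induction n with
  | zero =>
    intro f g h _ _ _ H
    have := H default default
    rw [Subsingleton.elim (α • default + β • default : Fin 0 → ℝ) default] at this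
    have e : ∀ F : (Fin 0 → ℝ) → ℝ≥0∞, ∫⁻ x, F x = F default := fun F => by
      simp only [lintegral_unique, volume_pi, Measure.pi_empty_univ, mul_one]
      exact congrArg F (Subsingleton.elim _ _)
    rw [e, e, e]
    exact this
  | succ m ih =>
    intro f g h hf hg hh H
    rw [lintegral_cons hf, lintegral_cons hg, lintegral_cons hh]
    refine pl1 hα hβ hαβ (measurable_slice hf) (measurable_slice hg) (measurable_slice hh) ?_
    intro r s
    refine ih (hf.comp (measurable_cons' r)) (hg.comp (measurable_cons' s))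
      (hh.comp (measurable_cons' _)) fun X Y => ?_
    have := H (Fin.cons r X) (Fin.cons s Y)
    rwa [cons_combo] at this

end Pool.Agent.MP_5f4cdd_gt.PL
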