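import Mathlib

set_option autoImplicit false
open Finset

namespace Pool.Agent.MP_5f4cdd_gt.AB

variable {n : ℕ}

lemma sum_erase_eq (H : Finset (Fin n) → ℝ) :
    ∑ I : Finset (Fin n), ∑ i ∈ I, H (I.erase i) =
      ∑ J : Finset (Fin n), ((n : ℝ) - J.card) * H J := by
  have h1 : ∀ J : Finset (Fin n), ((n : ℝ) - J.card) * H J = ∑ i ∈ Jᶜ, H J := by
    intro J
    rw [sum_const, card_compl, Fintype.card_fin, nsmul_eq_mul, Nat.cast_sub]
    simpa using card_le_univ J
  simp only [h1]
  rw [sum_sigma', sum_sigma']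
  refine sum_bij' (fun x _ => ⟨x.1.erase x.2, x.2⟩) (fun x _ => ⟨insert x.2 x.1, x.2⟩)
    ?_ ?_ ?_ ?_ ?_
  · intro x _; simp
  · intro x _; simp
  · rintro ⟨I, i⟩ hx
    simp only [mem_sigma, mem_univ, true_and] at hx
    simp [insert_erase hx]
  · rintro ⟨I, i⟩ hx
    simp only [mem_sigma, mem_univ, true_and, mem_compl] at hx
    simp [erase_insert hx]
  · intro x _; rfl

lemma sum_inv_choose : ∑ I : Finset (Fin n), ((n.choose I.card : ℝ))⁻¹ = n + 1 := by
  rw [← powerset_univ, sum_powerset_apply_card (f := fun k => ((n.choose k : ℝ))⁻¹)]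
  simp only [card_univ, Fintype.card_fin, nsmul_eq_mul]
  rw [sum_congr rfl (g := fun _ => (1 : ℝ))]
  · simp
  · intro k hk
    have : (n.choose k : ℝ) ≠ 0 := by
      exact_mod_cast (Nat.choose_pos (by simpa [Nat.lt_succ_iff] using hk)).ne'
    field_simp

lemma choose_pos' (I : Finset (Fin n)) : 0 < (n.choose I.card : ℝ) := by
  exact_mod_cast Nat.choose_pos (by simpa using card_le_univ I)

lemma exp_avg_le {ι : Type} (s : Finset ι) (w x : ι → ℝ) (hw : ∀ i ∈ s, 0 ≤ w i)
    (h1 : ∑ i ∈ s, w i = 1) :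
    Real.exp (∑ i ∈ s, w i * x i) ≤ ∑ i ∈ s, w i * Real.exp (x i) := by
  have := convexOn_exp.map_sum_le (t := s) (w := w) (p := x) hw h1 (fun _ _ => Set.mem_univ _)
  simpa using this

lemma two_term {l e m : ℝ} (hm : 0 < m) (h0 : m ≤ l) (h1 : m ≤ 1 - l) :
    1 + m ^ 3 * e ^ 2 / 2 ≤ l * Real.exp ((1 - l) * e) + (1 - l) * Real.exp (-(l * e)) := by
  have hl : 0 < l := hm.trans_le h0
  have hl' : 0 < 1 - l := hm.trans_le h1
  have he2 : 0 ≤ e ^ 2 := sq_nonneg e
  rcases le_total 0 e with he | he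
  · have a := Real.quadratic_le_exp_of_nonneg (mul_nonneg hl'.le he)
    have b := Real.add_one_le_exp (-(l * e))
    have c : m ^ 3 ≤ l * (1 - l) ^ 2 := by
      rw [pow_succ' m 2]; gcongr
    have d := mul_le_mul_of_nonneg_right c he2
    nlinarith [mul_le_mul_of_nonneg_left a hl.le, mul_le_mul_of_nonneg_left b hl'.le]
  · have a := Real.quadratic_le_exp_of_nonneg (x := -(l * e)) (by nlinarith)
    have b := Real.add_one_le_exp ((1 - l) * e)
    have c : m ^ 3 ≤ (1 - l) * l ^ 2 := by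
      rw [pow_succ' m 2]; gcongr
    have d := mul_le_mul_of_nonneg_right c he2
    nlinarith [mul_le_mul_of_nonneg_left a hl'.le, mul_le_mul_of_nonneg_left b hl.le]

/-- the average over the facets -/
noncomputable def av (h : Finset (Fin n) → ℝ) (I : Finset (Fin n)) : ℝ :=
  (I.card : ℝ)⁻¹ * ∑ i ∈ I, h (I.erase i)

lemma sum_av (h : Finset (Fin n) → ℝ) (u : ℕ → ℝ) :
    ∑ I : Finset (Fin n), (n.choose I.card : ℝ)⁻¹ * (u I.card * av h I) =
      ∑ J : Finset (Fin n), (n.choose J.card : ℝ)⁻¹ * (u (J.card + 1) * h J) -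
        u (n + 1) * h univ := by
  have h1 : ∀ I : Finset (Fin n), (n.choose I.card : ℝ)⁻¹ * (u I.card * av h I) =
      ∑ i ∈ I, (fun J : Finset (Fin n) => (n.choose (J.card + 1) : ℝ)⁻¹ *
        (u (J.card + 1) * (((J.card + 1 : ℕ) : ℝ)⁻¹ * h J))) (I.erase i) := by
    intro I
    rw [av, mul_sum, mul_sum, mul_sum]
    refine sum_congr rfl fun i hi => ?_
    simp only [card_erase_add_one hi]
  simp only [h1]
  rw [sum_erase_eq (fun J : Finset (Fin n) => (n.choose (J.card + 1) : ℝ)⁻¹ *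
        (u (J.card + 1) * (((J.card + 1 : ℕ) : ℝ)⁻¹ * h J))), eq_sub_iff_add_eq, ← sum_erase_add _ _ (mem_univ (univ : Finset (Fin n))),
    ← sum_erase_add (s := univ) _ (mem_univ (univ : Finset (Fin n)))]
  simp only [card_univ, Fintype.card_fin, sub_self, zero_mul, add_zero, Nat.choose_self,
    Nat.cast_one, inv_one, one_mul, add_left_inj]
  refine sum_congr rfl fun J hJ => ?_
  have hlt : J.card < n := by
    simpa using (card_lt_iff_ne_univ J).2 (ne_of_mem_erase hJ)
  have e := Nat.choose_succ_right_eq n J.card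
  have e' : (n.choose (J.card + 1) : ℝ) * ((J.card + 1 : ℕ) : ℝ) =
      (n.choose J.card : ℝ) * ((n : ℝ) - J.card) := by
    rw [← Nat.cast_sub hlt.le]; exact_mod_cast e
  have p1 : (0 : ℝ) < n.choose (J.card + 1) := by exact_mod_cast Nat.choose_pos hlt
  have p2 := choose_pos' J
  have p3 : (0 : ℝ) < ((J.card + 1 : ℕ) : ℝ) := by positivity
  have : ((n : ℝ) - J.card) * ((n.choose (J.card + 1) : ℝ)⁻¹ * ((J.card + 1 : ℕ) : ℝ)⁻¹) =
      (n.choose J.card : ℝ)⁻¹ := by
    field_simp
    linarith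
  rw [← this]; ring

lemma exp_av_le (h : Finset (Fin n) → ℝ) {I : Finset (Fin n)} (hI : I.Nonempty) :
    Real.exp (av h I) ≤ (I.card : ℝ)⁻¹ * ∑ i ∈ I, Real.exp (h (I.erase i)) := by
  have hk : (0 : ℝ) < I.card := by exact_mod_cast hI.card_pos
  rw [av, mul_sum, mul_sum]
  exact exp_avg_le I (fun _ => (I.card : ℝ)⁻¹) _ (fun _ _ => by positivity)
    (by rw [sum_const, nsmul_eq_mul, mul_inv_cancel₀ hk.ne'])

lemma av_add (h g : Finset (Fin n) → ℝ) (I : Finset (Fin n)) :
    av (fun J => h J + g J) I = av h I + av g I := by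
  simp only [av, sum_add_distrib, mul_add]

lemma step {Φ F : Finset (Fin n) → ℝ} (hΦ : ∀ I, 0 < Φ I) (hF : ∀ I, 0 < F I)
    {I : Finset (Fin n)} (hI : I.Nonempty)
    (h : ∑ i ∈ I, Φ (I.erase i) * (F (I.erase i) + F I) ≤ Φ I * F I)
    {α β : Finset (Fin n) → ℝ} (hα : ∀ J, Real.exp (α J) = Φ J / (n + 1) ^ J.card)
    (hβ : ∀ J, Real.exp (β J) = F J * n.choose J.card) :
    (I.card : ℝ) / (n + 1) * Real.exp (av α I - α I) +
      (1 - (I.card : ℝ) / (n + 1)) * Real.exp (av α I - α I + (av β I - β I)) ≤ 1 := by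
  obtain ⟨k, hk⟩ : ∃ k, I.card = k + 1 := ⟨I.card - 1, by have := hI.card_pos; omega⟩
  have hkn : k + 1 ≤ n := by simpa [hk] using card_le_univ I
  have hkn' : (k : ℝ) + 1 ≤ n := by exact_mod_cast hkn
  have hc : ∀ i ∈ I, (I.erase i).card = k := fun i hi => by
    have := card_erase_add_one hi; omega
  have h1 := exp_av_le α hI
  have h2 := exp_av_le (fun J => α J + β J) hI
  rw [av_add] at h2
  simp only [Real.exp_add] at h2
  have e1 : ∑ i ∈ I, Real.exp (α (I.erase i)) = (∑ i ∈ I, Φ (I.erase i)) / (n + 1) ^ k := by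
    rw [sum_div]; exact sum_congr rfl fun i hi => by rw [hα, hc i hi]
  have e2 : ∑ i ∈ I, Real.exp (α (I.erase i)) * Real.exp (β (I.erase i)) =
      (∑ i ∈ I, Φ (I.erase i) * F (I.erase i)) * (n.choose k / (n + 1) ^ k) := by
    rw [sum_mul]; exact sum_congr rfl fun i hi => by rw [hα, hβ, hc i hi]; ring
  have e3 : ∑ i ∈ I, Φ (I.erase i) * (F (I.erase i) + F I) =
      ∑ i ∈ I, Φ (I.erase i) * F (I.erase i) + (∑ i ∈ I, Φ (I.erase i)) * F I := by
    simp only [mul_add, sum_add_distrib, sum_mul]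
  rw [e1] at h1
  rw [e2] at h2
  rw [e3] at h
  have e : (n.choose (k + 1) : ℝ) * (k + 1) = (n.choose k : ℝ) * ((n : ℝ) - k) := by
    rw [← Nat.cast_sub (by omega : k ≤ n)]; exact_mod_cast Nat.choose_succ_right_eq n k
  have p1 : (0 : ℝ) < n.choose (k + 1) := by exact_mod_cast Nat.choose_pos hkn
  have pΦ := hΦ I
  have pF := hF I
  simp only [Real.exp_add, Real.exp_sub, hα I, hβ I, hk, Nat.cast_add, Nat.cast_one] at h1 h2 ⊢
  set A := ∑ i ∈ I, Φ (I.erase i)
  set B := ∑ i ∈ I, Φ (I.erase i) * F (I.erase i)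
  have l0 : 0 ≤ 1 - ((k : ℝ) + 1) / (n + 1) := by
    rw [sub_nonneg, div_le_one (by positivity)]; linarith
  have t1 : ((k : ℝ) + 1) / (n + 1) * (Real.exp (av α I) / (Φ I / (n + 1) ^ (k + 1))) ≤
      A / Φ I := by
    refine (mul_le_mul_of_nonneg_left (div_le_div_of_nonneg_right h1 (by positivity))
      (by positivity)).trans (le_of_eq ?_)
    field_simp
    ring
  have t2 : (1 - ((k : ℝ) + 1) / (n + 1)) * (Real.exp (av α I) / (Φ I / (n + 1) ^ (k + 1)) *
      (Real.exp (av β I) / (F I * n.choose (k + 1)))) ≤ B / (Φ I * F I) := by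
    rw [div_mul_div_comm]
    refine (mul_le_mul_of_nonneg_left (div_le_div_of_nonneg_right h2 (by positivity))
      l0).trans (le_of_eq ?_)
    field_simp
    linear_combination (-(B * ((n : ℝ) + 1) ^ (k + 1))) * e
  have t3 : A / Φ I + B / (Φ I * F I) ≤ 1 := by
    rw [div_add_div _ _ pΦ.ne' (by positivity), div_le_one (by positivity)]
    nlinarith
  linarith

theorem comb (n : ℕ) {ε : ℝ} (hε : 0 < ε) : ∃ c : ℝ, 0 < c ∧
    ∀ Φ F : Finset (Fin n) → ℝ, (∀ I, 0 < Φ I) → (∀ I, 0 < F I) → Φ ∅ = 1 → F ∅ = 1 →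
      (∀ I, I.Nonempty → ∑ i ∈ I, Φ (I.erase i) * (F (I.erase i) + F I) ≤ Φ I * F I) →
      Φ univ * ∑ I, F I < (1 + c) * (n + 1) ^ (n + 1) →
      1 - ε ≤ Φ univ * ∏ i, Φ (univ.erase i) / Φ univ := by
  set m : ℝ := 1 / (n + 1) with hm
  have m0 : 0 < m := by positivity
  set δ : ℝ := ε / (4 * n + 1) with hδ
  have δ0 : 0 < δ := by positivity
  set η : ℝ := min δ (Real.log (1 + m ^ 3 * δ ^ 2 / 2)) with hη
  have η0 : 0 < η := lt_min δ0 (Real.log_pos (by
    have : 0 < m ^ 3 * δ ^ 2 / 2 := by positivity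
    linarith))
  refine ⟨η / 2 ^ n, by positivity, fun Φ F hΦ hF hΦ0 hF0 h hT => ?_⟩
  set α : Finset (Fin n) → ℝ := fun J => Real.log (Φ J / (n + 1) ^ J.card) with hαd
  set β : Finset (Fin n) → ℝ := fun J => Real.log (F J * n.choose J.card) with hβd
  have hα : ∀ J, Real.exp (α J) = Φ J / (n + 1) ^ J.card := fun J =>
    Real.exp_log (div_pos (hΦ J) (by positivity))
  have hβ : ∀ J, Real.exp (β J) = F J * n.choose J.card := fun J =>
    Real.exp_log (mul_pos (hF J) (choose_pos' J))
  have α0 : α ∅ = 0 := by simp [hαd, hΦ0]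
  have β0 : β ∅ = 0 := by simp [hβd, hF0]
  set u : ℕ → ℝ := fun k => 1 - (k : ℝ) / (n + 1) with hu
  set s : Finset (Fin n) → ℝ := fun I => α I - av α I + u I.card * (β I - av β I) with hs
  have hcard : ∀ I : Finset (Fin n), (I.card : ℝ) ≤ n := fun I => by
    exact_mod_cast (by simpa using card_le_univ I)
  have u1 : ∀ I : Finset (Fin n), m ≤ u I.card := fun I => by
    have := hcard I
    simp only [hu, hm]
    rw [le_sub_iff_add_le, ← add_div, div_le_one (by positivity)]; linarith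
  have u2 : ∀ I : Finset (Fin n), u I.card ≤ 1 := fun I => by
    simp only [hu]; rw [sub_le_self_iff]; positivity
  have key : ∀ I, 1 + m ^ 3 * (β I - av β I) ^ 2 / 2 ≤ Real.exp (s I) := by
    intro I
    rcases I.eq_empty_or_nonempty with rfl | hI
    · simp [hs, α0, β0, av]
    have h1 := step hΦ hF hI (h I hI) hα hβ
    have h2 := two_term (l := (I.card : ℝ) / (n + 1)) (e := β I - av β I) m0 (by
      rw [hm]; gcongr; exact_mod_cast hI.card_pos) (u1 I)
    refine h2.trans ?_
    have h3 := mul_le_mul_of_nonneg_left h1 (Real.exp_pos (s I)).le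
    rw [mul_one] at h3
    refine le_trans (le_of_eq ?_) h3
    rw [mul_add, mul_left_comm, ← Real.exp_add, mul_left_comm (Real.exp (s I)), ← Real.exp_add]
    congr 3 <;> simp only [hs, hu] <;> ring
  have s0 : ∀ I, 0 ≤ s I := fun I => by
    have h1 := key I
    have : 0 ≤ m ^ 3 * (β I - av β I) ^ 2 / 2 := by positivity
    exact Real.one_le_exp_iff.1 (by linarith)
  have hsum : ∑ I : Finset (Fin n), (n.choose I.card : ℝ)⁻¹ * s I =
      α univ + ∑ I : Finset (Fin n), (m * (n.choose I.card : ℝ)⁻¹) * β I := by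
    have a1 := sum_av α (fun _ => 1)
    have a2 := sum_av β u
    have a3 : u (n + 1) = 0 := by
      simp only [hu]; push_cast; rw [div_self (by positivity), sub_self]
    have a4 : ∀ k, u (k + 1) = u k - m := fun k => by
      simp only [hu, hm]; push_cast; ring
    simp only [one_mul, a3, zero_mul, sub_zero] at a1 a2
    simp only [a4] at a2
    have a5 : ∀ I : Finset (Fin n), (n.choose I.card : ℝ)⁻¹ * s I =
        (n.choose I.card : ℝ)⁻¹ * α I - (n.choose I.card : ℝ)⁻¹ * av α I +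
        ((n.choose I.card : ℝ)⁻¹ * ((u I.card - m) * β I) -
          (n.choose I.card : ℝ)⁻¹ * (u I.card * av β I)) +
        (m * (n.choose I.card : ℝ)⁻¹) * β I := fun I => by simp only [hs]; ring
    simp only [a5, sum_add_distrib, sum_sub_distrib, a1, a2]
    ring
  have hexp : Real.exp (∑ I : Finset (Fin n), (n.choose I.card : ℝ)⁻¹ * s I) * (n + 1) ^ (n + 1) ≤
      Φ univ * ∑ I, F I := by
    have a1 := exp_avg_le univ (fun I : Finset (Fin n) => m * (n.choose I.card : ℝ)⁻¹) β
      (fun I _ => by have := choose_pos' I; positivity)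
      (by rw [← mul_sum, sum_inv_choose, hm]; field_simp)
    have a2 : ∑ I : Finset (Fin n), m * (n.choose I.card : ℝ)⁻¹ * Real.exp (β I) =
        m * ∑ I, F I := by
      rw [mul_sum]
      refine sum_congr rfl fun I _ => ?_
      have := choose_pos' I
      rw [hβ]; field_simp
    rw [a2] at a1
    rw [hsum, Real.exp_add, hα, card_univ, Fintype.card_fin]
    have := hΦ univ
    refine (mul_le_mul_of_nonneg_right (mul_le_mul_of_nonneg_left a1 (by positivity))
      (by positivity)).trans (le_of_eq ?_)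
    rw [hm]; field_simp; ring
  have hS : ∑ I : Finset (Fin n), (n.choose I.card : ℝ)⁻¹ * s I ≤ η / 2 ^ n := by
    have a1 := lt_of_mul_lt_mul_right (hexp.trans_lt hT) (by positivity)
    have a2 := Real.add_one_le_exp (∑ I : Finset (Fin n), (n.choose I.card : ℝ)⁻¹ * s I)
    linarith
  have s1 : ∀ I, s I ≤ η := fun I => by
    have a1 := (single_le_sum (f := fun I : Finset (Fin n) => (n.choose I.card : ℝ)⁻¹ * s I)
      (fun J _ => mul_nonneg (inv_nonneg.2 (choose_pos' J).le) (s0 J)) (mem_univ I)).trans hS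
    have a2 : (n.choose I.card : ℝ) ≤ 2 ^ n := by exact_mod_cast Nat.choose_le_two_pow n _
    have a3 := choose_pos' I
    rw [inv_mul_le_iff₀ a3] at a1
    refine a1.trans ?_
    rw [mul_div_assoc', div_le_iff₀ (by positivity), mul_comm]
    exact mul_le_mul_of_nonneg_left a2 η0.le
  have hD : ∀ I, |α I - av α I| ≤ 2 * δ := fun I => by
    have a1 : Real.exp (s I) ≤ 1 + m ^ 3 * δ ^ 2 / 2 := by
      rw [← Real.exp_log (x := 1 + m ^ 3 * δ ^ 2 / 2) (by positivity)]
      exact Real.exp_le_exp.2 ((s1 I).trans (min_le_right _ _))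
    have a2 : (β I - av β I) ^ 2 ≤ δ ^ 2 :=
      le_of_mul_le_mul_left (a := m ^ 3) (by linarith [key I]) (by positivity)
    have a3 := abs_le.1 (abs_le_of_sq_le_sq' a2 δ0.le |> abs_le.2)
    have a4 := (s1 I).trans (min_le_left _ _)
    have a5 := s0 I
    have a6 := m0.le.trans (u1 I)
    have a7 := u2 I
    simp only [hs] at a4 a5
    rw [abs_le]
    constructor <;> nlinarith [a3.1, a3.2]
  have hαb : ∀ I : Finset (Fin n), -(I.card * (2 * δ)) ≤ α I := by
    intro I
    induction I using Finset.strongInduction with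
    | H I ih =>
      rcases I.eq_empty_or_nonempty with rfl | hI
      · simp [α0]
      have hk : (0 : ℝ) < I.card := by exact_mod_cast hI.card_pos
      have a1 : -((I.card - 1) * (2 * δ)) ≤ av α I := by
        rw [av, le_inv_mul_iff₀ hk]
        have : ∑ i ∈ I, (-(((I.card : ℝ) - 1) * (2 * δ))) ≤ ∑ i ∈ I, α (I.erase i) := by
          refine sum_le_sum fun i hi => ?_
          have a2 := ih _ (erase_ssubset hi)
          have a3 : ((I.erase i).card : ℝ) = I.card - 1 := by
            rw [← card_erase_add_one hi]; push_cast; ring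
          rwa [a3] at a2
        simpa using this
      linarith [(abs_le.1 (hD I)).1]
  have hfin : Φ univ * ∏ i, Φ (univ.erase i) / Φ univ =
      Real.exp (α univ - n * (α univ - av α univ)) := by
    have a1 : (n : ℝ) * av α univ = ∑ i, α (univ.erase i) := by
      rcases Nat.eq_zero_or_pos n with rfl | hn
      · simp
      rw [av, card_univ, Fintype.card_fin, ← mul_assoc, mul_inv_cancel₀ (by positivity), one_mul]
    have a2 : α univ - n * (α univ - av α univ) = α univ + ∑ i, (α (univ.erase i) - α univ) := by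
      rw [sum_sub_distrib, ← a1]; simp; ring
    have a3 : ∀ i : Fin n, Real.exp (α (univ.erase i) - α univ) =
        (n + 1) * (Φ (univ.erase i) / Φ univ) := fun i => by
      have a4 := card_erase_add_one (mem_univ i)
      rw [Real.exp_sub, hα, hα, ← a4]
      have := hΦ univ
      field_simp
      ring
    rw [a2, Real.exp_add, Real.exp_sum]
    simp only [a3]
    rw [prod_mul_distrib, hα]
    simp only [prod_const, card_univ, Fintype.card_fin]
    field_simp
  rw [hfin]
  refine le_trans ?_ (Real.add_one_le_exp _)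
  have a1 := hαb univ
  have a2 := (abs_le.1 (hD univ)).2
  rw [card_univ, Fintype.card_fin] at a1
  have a3 : (4 * n + 1) * δ = ε := by rw [hδ]; field_simp
  have a4 : (0 : ℝ) ≤ n := by positivity
  nlinarith

end Pool.Agent.MP_5f4cdd_gt.AB
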