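import Pool.Agent.MP_5f4cdd_gt.DefsInf

set_option autoImplicit false
open MeasureTheory Filter Topology

namespace Pool.Agent.MP_5f4cdd_gt

/-- The smallest class of sets that contains the locally anti-blocking convex bodies and is closed
under affine bijections, fibre sums of two members with the same shadow, polarity about the
centroid and Hausdorff limits that are convex bodies. -/
inductive ABGen {n : ℕ} : Set (Fin n → ℝ) → Prop
  | lab (K : Set (Fin n → ℝ)) : Convex ℝ K → IsCompact K → (interior K).Nonempty →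
      (∀ x ∈ K, ∀ i, Function.update x i 0 ∈ K) → ABGen K
  | image (K : Set (Fin n → ℝ)) (e : AffineEquiv ℝ (Fin n → ℝ) (Fin n → ℝ)) :
      ABGen K → ABGen (e '' K)
  | fibre (K L : Set (Fin n → ℝ)) (i : Fin n) : ABGen K → ABGen L →
      (fun x => Function.update x i 0) '' K = (fun x => Function.update x i 0) '' L →
      ABGen {x | ∃ s t : ℝ, Function.update x i s ∈ K ∧ Function.update x i t ∈ L ∧ x i = s + t}
  | polar (K : Set (Fin n → ℝ)) : ABGen K → ∫ x in K, x = 0 →
      ABGen {y | ∀ x ∈ K, ∑ i, x i * y i ≤ 1}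
  | limit (K : Set (Fin n → ℝ)) (L : ℕ → Set (Fin n → ℝ)) : Convex ℝ K → IsCompact K →
      (interior K).Nonempty → (∀ j, ABGen (L j)) →
      Tendsto (fun j => Metric.hausdorffDist K (L j)) atTop (𝓝 0) → ABGen K

end Pool.Agent.MP_5f4cdd_gt
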