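import Pool.Agent.MP_5f4cdd_gt.Defs

set_option autoImplicit false
open MeasureTheory ENNReal

namespace Pool.Agent.MP_5f4cdd_gt

/-- The `L^p` Mahler volume for `p = ∞`. -/
noncomputable def mahlerInf {n : ℕ} (L : Set (Fin n → ℝ)) : ℝ≥0∞ :=
  volume L * ∫⁻ y : Fin n → ℝ, ENNReal.ofReal
    (Real.exp (-(sSup ((fun x : Fin n → ℝ => ∑ i, x i * y i) '' L))))

end Pool.Agent.MP_5f4cdd_gt
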