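import Pool.Agent.MP_5f4cdd_gt.UnifLap
import Pool.Agent.MP_5f4cdd_gt.DefsInf

set_option autoImplicit false
open MeasureTheory ENNReal Set Matrix Topology Filter

namespace Pool.Agent.MP_5f4cdd_gt

variable {n : ℕ}

/-- support function -/
noncomputable def supp (L : Set (E n)) (y : E n) : ℝ := sSup ((fun x : E n => x ⬝ᵥ y) '' L)

lemma mahlerInf_eq (L : Set (E n)) :
    mahlerInf L = volume L * ∫⁻ y : E n, ENNReal.ofReal (Real.exp (-supp L y)) := rfl

lemma continuous_dot_left (y : E n) : Continuous fun x : E n => x ⬝ᵥ y := by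
  unfold dotProduct; fun_prop

lemma le_supp {L : Set (E n)} (hL : IsCompact L) {x : E n} (hx : x ∈ L) (y : E n) :
    x ⬝ᵥ y ≤ supp L y :=
  le_csSup (hL.image (continuous_dot_left y)).bddAbove ⟨x, hx, rfl⟩

lemma exists_supp {L : Set (E n)} (hL : IsCompact L) (hne : L.Nonempty) (y : E n) :
    ∃ x ∈ L, x ⬝ᵥ y = supp L y :=
  (hL.image (continuous_dot_left y)).sSup_mem (hne.image _)

lemma continuous_supp {L : Set (E n)} (hL : IsCompact L) : Continuous (supp L) := by
  refine hL.continuous_sSup (f := fun (y : E n) (x : E n) => x ⬝ᵥ y) ?_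
  unfold Function.HasUncurry.uncurry Function.hasUncurryInduction Function.hasUncurryBase dotProduct
  simp only [id]
  fun_prop

lemma supp_smul {L : Set (E n)} (hL : IsCompact L) (hne : L.Nonempty) {c : ℝ} (hc : 0 ≤ c)
    (y : E n) : supp L (c • y) = c * supp L y := by
  obtain ⟨x, hx, he⟩ := exists_supp hL hne y
  obtain ⟨z, hz, he'⟩ := exists_supp hL hne (c • y)
  have h1 := le_supp hL hx (c • y)
  have h2 := mul_le_mul_of_nonneg_left (le_supp hL hz y) hc
  rw [dotProduct_smul, smul_eq_mul] at h1 he'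
  rw [he] at h1
  linarith

lemma supp_image_lin (T : E n →ₗ[ℝ] E n) (L : Set (E n)) (y : E n) :
    supp (T '' L) y = supp L (adj T y) := by
  simp only [supp, image_image, dot_adj]

lemma lintegral_comp_lin' (T : E n →ₗ[ℝ] E n) (hT : LinearMap.det T ≠ 0) (f : E n → ℝ≥0∞) :
    ∫⁻ x, f (T x) = ENNReal.ofReal |(LinearMap.det T)⁻¹| * ∫⁻ x, f x := by
  rw [← (measurableEmbedding_lin T hT).lintegral_map,
    Measure.map_linearMap_addHaar_eq_smul_addHaar volume hT, lintegral_smul_measure, smul_eq_mul]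

lemma mahlerInf_image_lin (T : E n →ₗ[ℝ] E n) (hT : LinearMap.det T ≠ 0) (L : Set (E n)) :
    mahlerInf (T '' L) = mahlerInf L := by
  have hd : 0 < |LinearMap.det T| := abs_pos.2 hT
  rw [mahlerInf_eq, mahlerInf_eq, Measure.addHaar_image_linearMap]
  simp only [supp_image_lin]
  rw [lintegral_comp_lin' (adj T) (by rwa [det_adj])
    (fun y => ENNReal.ofReal (Real.exp (-supp L y))), det_adj,
    mul_comm (ENNReal.ofReal _) (volume L), mul_assoc, ← mul_assoc (ENNReal.ofReal _),
    ← ENNReal.ofReal_mul hd.le, ← abs_mul, mul_inv_cancel₀ hT]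
  simp

lemma Lap_pos' (p : ℝ) (y : E n) {L : Set (E n)} (hL : IsCompact L) (h0 : volume L ≠ 0) :
    0 < Lap p L y := by
  have : NeZero (volume.restrict L) := ⟨by simpa using h0⟩
  exact integral_exp_pos ((continuous_exp_dot p y).continuousOn.integrableOn_compact hL)

lemma Lap_le_exp {p : ℝ} (hp : 0 ≤ p) {L : Set (E n)} (hL : IsCompact L) {y : E n} {h : ℝ}
    (hh : ∀ x ∈ L, x ⬝ᵥ y ≤ h) : Lap p L y ≤ (volume L).toReal * Real.exp (p * h) := by
  have := setIntegral_mono_on (μ := volume)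
    ((continuous_exp_dot p y).continuousOn.integrableOn_compact hL)
    (integrableOn_const (C := Real.exp (p * h)) hL.measure_lt_top.ne) hL.measurableSet
    fun x hx => Real.exp_le_exp.2 (mul_le_mul_of_nonneg_left (hh x hx) hp)
  rwa [setIntegral_const, smul_eq_mul] at this

lemma mahlerInf_le_mahler' {p : ℝ} (hp : 0 < p) {L : Set (E n)} (hL : IsCompact L)
    (h0 : volume L ≠ 0) : mahlerInf L ≤ mahler p L := by
  rw [mahlerInf_eq, mahler_eq]
  gcongr with y
  have hv : 0 < (volume L).toReal := ENNReal.toReal_pos h0 hL.measure_lt_top.ne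
  have h1 := Lap_le_exp hp.le hL (fun x hx => le_supp hL hx y)
  rw [← div_le_iff₀' hv] at h1
  have h2 := Real.rpow_le_rpow_of_nonpos (div_pos (Lap_pos' p y hL h0) hv) h1
    (z := -(1 / p)) (neg_nonpos.2 (by positivity))
  rw [← Real.exp_mul] at h2
  convert h2 using 2
  field_simp

lemma mahlerInf_le_mahler {p : ℝ} {K : Set (E n)} (hK : IsCompact K)
    (hi : (interior K).Nonempty) (hp : 0 < p) : mahlerInf K ≤ mahler p K :=
  mahlerInf_le_mahler' hp hK (Measure.measure_pos_of_nonempty_interior _ hi).ne'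

lemma Lap_ge_ball {p : ℝ} (hp : 0 ≤ p) {L : Set (E n)} (hL : IsCompact L) (hc : Convex ℝ L)
    {x₁ : E n} {ρ : ℝ} (hb : Metric.closedBall x₁ ρ ⊆ L) {t : ℝ} (ht0 : 0 < t) (ht1 : t ≤ 1)
    {x₀ : E n} (hx₀ : x₀ ∈ L) (y : E n) :
    (volume (Metric.closedBall (0 : E n) (t * ρ))).toReal / 2 *
      Real.exp (p * ((1 - t) * (x₀ ⬝ᵥ y) + t * (x₁ ⬝ᵥ y))) ≤ Lap p L y := by
  set x := (1 - t) • x₀ + t • x₁ with hx
  set A := Metric.closedBall x (t * ρ) ∩ {z | x ⬝ᵥ y ≤ z ⬝ᵥ y} with hA
  have hAm : MeasurableSet A :=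
    measurableSet_closedBall.inter (measurableSet_le measurable_const (continuous_dot_left y).measurable)
  have hAs : A ⊆ L := by
    intro w hw
    have h1 : x₁ + t⁻¹ • (w - x) ∈ L := hb (by
      have := hw.1
      rw [Metric.mem_closedBall, dist_eq_norm] at this ⊢
      rw [add_sub_cancel_left, norm_smul, Real.norm_eq_abs, abs_of_pos (inv_pos.2 ht0),
        inv_mul_le_iff₀ ht0]
      exact this)
    have h2 := hc hx₀ h1 (sub_nonneg.2 ht1) ht0.le (by ring)
    convert h2 using 1
    rw [smul_add, smul_smul, mul_inv_cancel₀ ht0.ne', one_smul, hx]; abel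
  have h1 : volume (Metric.closedBall (0 : E n) (t * ρ)) ≤ 2 * volume A := by
    rw [← Measure.addHaar_closedBall_center volume x]
    refine half_ball hAm fun z hz => ?_
    rcases le_total (x ⬝ᵥ y) (z ⬝ᵥ y) with h | h
    · exact Or.inl ⟨hz, h⟩
    · refine Or.inr ⟨?_, ?_⟩
      · rw [Metric.mem_closedBall, dist_eq_norm] at hz ⊢
        have : x + x - z - x = -(z - x) := by abel
        rwa [this, norm_neg]
      · simp only [mem_ofPred_eq, sub_dotProduct, add_dotProduct]; linarith
  have hAt : volume A ≠ ∞ := ne_top_of_le_ne_top hL.measure_lt_top.ne (measure_mono hAs)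
  have h2 : (volume (Metric.closedBall (0 : E n) (t * ρ))).toReal / 2 ≤ volume.real A := by
    have := ENNReal.toReal_mono (by finiteness) h1
    rw [ENNReal.toReal_mul] at this
    simp only [toReal_ofNat] at this
    rw [measureReal_def]; linarith
  have hI := (continuous_exp_dot p y).continuousOn.integrableOn_compact (μ := volume) hL
  have h3 : Real.exp (p * (x ⬝ᵥ y)) * volume.real A ≤ Lap p L y := by
    refine (setIntegral_ge_of_const_le_real hAm hAt (f := fun z => Real.exp (p * (z ⬝ᵥ y)))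
      (fun z hz => Real.exp_le_exp.2 (mul_le_mul_of_nonneg_left hz.2 hp))
      (hI.mono_set hAs)).trans ?_
    exact setIntegral_mono_set hI
      (Eventually.of_forall fun z => (Real.exp_pos _).le) hAs.eventuallyLE
  have h4 : x ⬝ᵥ y = (1 - t) * (x₀ ⬝ᵥ y) + t * (x₁ ⬝ᵥ y) := by
    simp [hx, add_dotProduct, smul_dotProduct]
  rw [← h4]
  nlinarith [Real.exp_pos (p * (x ⬝ᵥ y))]

lemma mahler_le_inf {L : Set (E n)} (hL : IsCompact L) (hc : Convex ℝ L)
    {x₁ : E n} (hx₁ : x₁ ∈ interior L) {η : ℝ} (hη : 0 < η) :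
    ∃ t : ℝ, ∀ᶠ p in atTop,
      mahler p ((fun z => z - t • x₁) '' L) ≤ ENNReal.ofReal (1 + η) * mahlerInf L := by
  obtain ⟨ρ, hρ, hb⟩ := Metric.nhds_basis_closedBall.mem_iff.1 (mem_interior_iff_mem_nhds.1 hx₁)
  have hne : L.Nonempty := ⟨x₁, interior_subset hx₁⟩
  have h0 : volume L ≠ 0 := (Measure.measure_pos_of_nonempty_interior _ ⟨x₁, hx₁⟩).ne'
  have hv : 0 < (volume L).toReal := ENNReal.toReal_pos h0 hL.measure_lt_top.ne
  have e1 : ∀ᶠ t in 𝓝[>] (0 : ℝ), ((1 - t) ^ n)⁻¹ < 1 + η := by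
    refine nhdsWithin_le_nhds ?_
    have : ContinuousAt (fun t : ℝ => ((1 - t) ^ n)⁻¹) 0 :=
      ContinuousAt.inv₀ (by fun_prop) (by simp)
    exact this.eventually (gt_mem_nhds (by simpa using hη))
  obtain ⟨t, h1, ht⟩ := (e1.and (Ioo_mem_nhdsGT one_pos)).exists
  have ht0 : 0 < t := ht.1
  have ht1 : 0 < 1 - t := sub_pos.2 ht.2
  set v := (volume (Metric.closedBall (0 : E n) (t * ρ))).toReal with hvdef
  have hv0 : 0 < v := ENNReal.toReal_pos
    (Metric.measure_closedBall_pos _ _ (by positivity)).ne' measure_closedBall_lt_top.ne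
  set C := v / 2 / (volume L).toReal with hC
  have hC0 : 0 < C := by positivity
  have e2 : Tendsto (fun p : ℝ => C ^ (-(1 / p)) * ((1 - t) ^ n)⁻¹) atTop
      (𝓝 (C ^ (-(0 : ℝ)) * ((1 - t) ^ n)⁻¹)) := by
    refine Tendsto.mul_const _ (Tendsto.rpow tendsto_const_nhds (Tendsto.neg ?_) (Or.inl hC0.ne'))
    exact (tendsto_inv_atTop_zero (𝕜 := ℝ)).congr fun p => (one_div p).symm
  rw [neg_zero, Real.rpow_zero, one_mul] at e2
  refine ⟨t, ?_⟩
  filter_upwards [e2.eventually (gt_mem_nhds h1), eventually_gt_atTop 0] with p hp1 hp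
  rw [mahler_eq, mahlerInf_eq, volume_image_sub, mul_left_comm]
  gcongr
  have hm : Measurable fun y : E n => ENNReal.ofReal (Real.exp (-supp L y)) :=
    (Real.continuous_exp.comp (continuous_supp hL).neg).measurable.ennreal_ofReal
  have h2 := lintegral_smul_E ht1 hm
  calc _ ≤ ∫⁻ y : E n, ENNReal.ofReal (C ^ (-(1 / p))) *
        ENNReal.ofReal (Real.exp (-supp L ((1 - t) • y))) := by
        refine lintegral_mono fun y => ?_
        rw [← ENNReal.ofReal_mul (by positivity)]
        refine ENNReal.ofReal_le_ofReal ?_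
        obtain ⟨x₀, hx₀, he⟩ := exists_supp hL hne y
        have h3 := Lap_ge_ball hp.le hL hc hb ht0 ht.2.le hx₀ y
        have h4 : C * Real.exp (p * ((1 - t) * supp L y)) ≤
            Lap p ((fun z => z - t • x₁) '' L) y / (volume L).toReal := by
          rw [Lap_image_sub, hC, div_mul_eq_mul_div, div_le_div_iff_of_pos_right hv]
          refine le_trans (le_of_eq ?_) (mul_le_mul_of_nonneg_right h3 (Real.exp_pos _).le)
          rw [mul_assoc, ← Real.exp_add, he, smul_dotProduct, smul_eq_mul, ← hvdef]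
          ring_nf
        refine (Real.rpow_le_rpow_of_nonpos (by positivity) h4
          (neg_nonpos.2 (by positivity))).trans (le_of_eq ?_)
        rw [Real.mul_rpow hC0.le (by positivity), ← Real.exp_mul, supp_smul hL hne ht1.le]
        congr 2
        field_simp
    _ = ENNReal.ofReal (C ^ (-(1 / p)) * ((1 - t) ^ n)⁻¹) *
        ∫⁻ y : E n, ENNReal.ofReal (Real.exp (-supp L y)) := by
        rw [lintegral_const_mul' _ _ ENNReal.ofReal_ne_top, h2, ← mul_assoc,
          ← ENNReal.ofReal_mul (by positivity), mul_assoc, inv_mul_cancel₀ (by positivity), mul_one]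
    _ ≤ _ := by gcongr

/-- lower bounds valid for all large `p` and all translates pass to `p = ∞` -/
lemma le_mahlerInf {L : Set (E n)} (hL : IsCompact L) (hc : Convex ℝ L)
    (hi : (interior L).Nonempty) {c : ℝ≥0∞}
    (h : ∀ᶠ p in atTop, ∀ a : E n, c ≤ mahler p ((fun z => z - a) '' L)) : c ≤ mahlerInf L := by
  obtain ⟨x₁, hx₁⟩ := hi
  have key : ∀ η : ℝ, 0 < η → c ≤ ENNReal.ofReal (1 + η) * mahlerInf L := by
    intro η hη
    obtain ⟨t, ht⟩ := mahler_le_inf hL hc hx₁ hη
    obtain ⟨p, h1, h2⟩ := (h.and ht).exists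
    exact (h1 _).trans h2
  have h1 : Tendsto (fun η : ℝ => ENNReal.ofReal (1 + η) * mahlerInf L) (𝓝[>] 0)
      (𝓝 (ENNReal.ofReal (1 + 0) * mahlerInf L)) := by
    refine ENNReal.Tendsto.mul_const (ENNReal.tendsto_ofReal ?_) (Or.inl (by simp))
    exact (tendsto_const_nhds.add tendsto_id).mono_left nhdsWithin_le_nhds
  simp only [add_zero, ENNReal.ofReal_one, one_mul] at h1
  exact ge_of_tendsto h1 (eventually_nhdsWithin_of_forall key)

lemma zero_mem_interior_cS {r : ℝ} (hr : 0 < r) : (0 : E n) ∈ interior (cS n r) :=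
  mem_interior_iff_mem_nhds.2 (cS_mem_nhds hr)

lemma mahler_cS_le_inf {η : ℝ} (hη : 0 < η) :
    ∀ᶠ p in atTop, mahler p (cS n 1) ≤ ENNReal.ofReal (1 + η) * mahlerInf (cS n 1) := by
  obtain ⟨t, ht⟩ := mahler_le_inf (isCompact_cS (n := n) zero_le_one) (convex_cS 1)
    (zero_mem_interior_cS one_pos) hη
  simpa using ht

lemma mahlerInf_cS_le_mahler {p : ℝ} (hp : 0 < p) : mahlerInf (cS n 1) ≤ mahler p (cS n 1) :=
  mahlerInf_le_mahler' hp (isCompact_cS zero_le_one) (volume_cS_pos one_pos).ne'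

lemma mahlerInf_cS_lt_top : mahlerInf (cS n 1) < ∞ :=
  (mahlerInf_cS_le_mahler one_pos).trans_lt (by rw [mahler_cS one_pos]; exact ofReal_lt_top)

lemma mahlerInf_cS_pos : 0 < mahlerInf (cS n 1) := by
  obtain ⟨p, h1, hp⟩ := ((mahler_cS_le_inf (n := n) one_pos).and (eventually_gt_atTop 0)).exists
  have h2 := (local_min n p hp).1.1
  rw [iInf_eq hp] at h2
  exact (ENNReal.mul_pos_iff.1 (h2.trans_le h1)).2

lemma tendsto_mahler_cS :
    Tendsto (fun p : ℝ => mahler p (cS n 1)) atTop (𝓝 (mahlerInf (cS n 1))) := by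
  refine tendsto_order.2 ⟨fun c hc => ?_, fun c hc => ?_⟩
  · filter_upwards [eventually_gt_atTop 0] with p hp using hc.trans_le (mahlerInf_cS_le_mahler hp)
  · have h1 : Tendsto (fun η : ℝ => ENNReal.ofReal (1 + η) * mahlerInf (cS n 1)) (𝓝[>] 0)
        (𝓝 (ENNReal.ofReal (1 + 0) * mahlerInf (cS n 1))) := by
      refine ENNReal.Tendsto.mul_const (ENNReal.tendsto_ofReal ?_) (Or.inl (by simp))
      exact (tendsto_const_nhds.add tendsto_id).mono_left nhdsWithin_le_nhds
    simp only [add_zero, ENNReal.ofReal_one, one_mul] at h1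
    obtain ⟨η, h2, hη⟩ := ((h1.eventually (gt_mem_nhds hc)).and self_mem_nhdsWithin).exists
    filter_upwards [mahler_cS_le_inf (n := n) hη] with p hp using hp.trans_lt h2

lemma isCompact_image_sub {L : Set (E n)} (hL : IsCompact L) (a : E n) :
    IsCompact ((fun z => z - a) '' L) := hL.image (by fun_prop)

lemma convex_image_sub {L : Set (E n)} (hL : Convex ℝ L) (a : E n) :
    Convex ℝ ((fun z => z - a) '' L) := by
  have := hL.translate (-a)
  have he : (fun z : E n => z - a) = fun x => -a + x := by ext z; simp [sub_eq_neg_add]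
  rwa [he]

lemma interior_image_sub {L : Set (E n)} (hL : (interior L).Nonempty) (a : E n) :
    (interior ((fun z => z - a) '' L)).Nonempty := by
  have := (Homeomorph.subRight a).image_interior L
  simp only [Homeomorph.coe_subRight] at this
  rw [← this]
  exact hL.image _

/-- translated form of `le_mahlerInf` -/
lemma le_mahlerInf' {L : Set (E n)} (hL : IsCompact L) (hc : Convex ℝ L)
    (hi : (interior L).Nonempty) {c : ℝ≥0∞}
    (h : ∀ᶠ p in atTop, ∀ a : E n, c ≤ mahler p ((fun z => z - a) '' L)) (a : E n) :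
    c ≤ mahlerInf ((fun z => z - a) '' L) := by
  refine le_mahlerInf (isCompact_image_sub hL a) (convex_image_sub hc a)
    (interior_image_sub hi a) ?_
  filter_upwards [h] with p hp b
  rw [image_image]
  simp only [sub_sub]
  exact hp _

lemma mahlerInf_cS_le (x : E n) :
    mahlerInf (cS n 1) ≤ mahlerInf ((fun z => z - x) '' stdS n) := by
  have h := le_mahlerInf' (isCompact_cS (n := n) zero_le_one) (convex_cS 1)
    ⟨0, zero_mem_interior_cS one_pos⟩ (c := mahlerInf (cS n 1)) (by
      filter_upwards [eventually_gt_atTop 0] with p hp a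
      refine (mahlerInf_cS_le_mahler hp).trans ((mahler_cS_le hp (cen n + a)).trans (le_of_eq ?_))
      rw [← image_sub_cen, image_image]
      simp only [sub_sub]) (x - cen n)
  convert h using 2
  rw [← image_sub_cen, image_image]
  simp

lemma iInfInf_eq :
    ⨅ x ∈ stdS n, mahlerInf ((fun z => z - x) '' stdS n) = mahlerInf (cS n 1) :=
  le_antisymm ((iInf₂_le (cen n) cen_mem_stdS).trans (by rw [image_sub_cen]))
    (le_iInf₂ fun x _ => mahlerInf_cS_le x)

end Pool.Agent.MP_5f4cdd_gt
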