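import Pool.Agent.MP_5f4cdd_gt.ShadowInf
import Pool.Agent.MP_5f4cdd_gt.Inf

set_option autoImplicit false
open MeasureTheory ENNReal Set Filter Topology Matrix

namespace Pool.Agent.MP_5f4cdd_gt.PL

variable {n : ℕ}

/-- `K'` is obtained from `K` by translating every chord parallel to `θ` -/
def Shift (θ : E n) (b : E n → ℝ) (t : ℝ) (K K' : Set (E n)) : Prop :=
  ∀ x, x ∈ K ↔ x + (t * b x) • θ ∈ K'

/-- the speed is constant on lines parallel to `θ` -/
def Inv (θ : E n) (b : E n → ℝ) : Prop := ∀ (x : E n) (s : ℝ), b (x + s • θ) = b x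

lemma exists_chords {θ : E n} (hθ : θ ≠ 0) : ∃ (m : ℕ) (c : ℝ≥0∞) (ψ : E m → E n), c ≠ ∞ ∧
    Measurable ψ ∧ ∀ F : E n → ℝ≥0∞, Measurable F →
      ∫⁻ z, F z = c * ∫⁻ X : E m, ∫⁻ s : ℝ, F (ψ X + s • θ) := by
  obtain rfl | ⟨m, rfl⟩ : n = 0 ∨ ∃ m, n = m + 1 := by
    cases n with
    | zero => exact Or.inl rfl
    | succ m => exact Or.inr ⟨m, rfl⟩
  · exact absurd (Subsingleton.elim _ _) hθ
  obtain ⟨T, hT⟩ := SeparatingDual.exists_continuousLinearEquiv_apply_eq (R := ℝ)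
    (x := (Pi.single 0 1 : E (m + 1))) (by simp) hθ
  set S : E (m + 1) →ₗ[ℝ] E (m + 1) := T.toLinearEquiv.toLinearMap with hS
  have hdet : LinearMap.det S ≠ 0 := T.toLinearEquiv.isUnit_det'.ne_zero
  have mT : Measurable T := T.continuous.measurable
  refine ⟨m, ENNReal.ofReal |LinearMap.det S|, fun X => T (Fin.cons 0 X), ENNReal.ofReal_ne_top,
    mT.comp (measurable_cons' 0), fun F hF => ?_⟩
  have h1 := lintegral_comp_lin S hdet hF
  have h2 := Pool.Agent.MP_5f4cdd_gt.lintegral_cons (g := fun z => F (S z)) (hF.comp mT)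
  have h3 : ∀ (X : E m) (s : ℝ), S (Fin.cons s X) = T (Fin.cons 0 X) + s • θ := by
    intro X s
    rw [← hT, ← map_smul, ← map_add]
    change T _ = _
    congr 1
    ext j
    refine Fin.cases ?_ (fun i => ?_) j <;> simp
  simp only [h3] at h2
  rw [← h2, h1, ← mul_assoc, ← ENNReal.ofReal_mul (abs_nonneg _), ← abs_mul,
    mul_inv_cancel₀ hdet]
  simp

lemma chord_eq {θ : E n} {b : E n → ℝ} (hb : Inv θ b) {t : ℝ} {K K' : Set (E n)}
    (h : Shift θ b t K K') (G : E n → ℝ≥0∞) (x : E n) :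
    ∫⁻ s : ℝ, K'.indicator G (x + s • θ) =
      ∫⁻ s : ℝ, K.indicator (fun z => G (z + (t * b x) • θ)) (x + s • θ) := by
  rw [← lintegral_add_right_eq_self (fun s : ℝ => K'.indicator G (x + s • θ)) (t * b x)]
  refine lintegral_congr fun s => ?_
  have e := h (x + s • θ)
  rw [hb, add_assoc, ← add_smul] at e
  by_cases hs : x + s • θ ∈ K
  · rw [indicator_of_mem hs, indicator_of_mem (e.1 hs), add_assoc, ← add_smul]
  · rw [indicator_of_notMem hs, indicator_of_notMem (fun h' => hs (e.2 h'))]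

lemma Shift.volume_eq {θ : E n} (hθ : θ ≠ 0) {b : E n → ℝ} (hb : Inv θ b) {t : ℝ}
    {K K' : Set (E n)} (h : Shift θ b t K K') (hK : MeasurableSet K) (hK' : MeasurableSet K') :
    volume K' = volume K := by
  obtain ⟨m, c, ψ, -, -, hc⟩ := exists_chords hθ
  rw [← lintegral_indicator_one hK, ← lintegral_indicator_one hK',
    hc _ (measurable_one.indicator hK), hc _ (measurable_one.indicator hK')]
  congr 1
  refine lintegral_congr fun X => ?_
  rw [chord_eq hb h]
  rfl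

/-- Laplace transform with values in `ℝ≥0∞` -/
noncomputable def LapE (p : ℝ) (L : Set (E n)) (y : E n) : ℝ≥0∞ :=
  ∫⁻ x in L, ENNReal.ofReal (Real.exp (p * (x ⬝ᵥ y)))

lemma measurable_expE (p : ℝ) (y : E n) :
    Measurable fun x : E n => ENNReal.ofReal (Real.exp (p * (x ⬝ᵥ y))) :=
  (continuous_exp_dot p y).measurable.ennreal_ofReal

lemma LapE_eq (p : ℝ) {L : Set (E n)} (hL : IsCompact L) (y : E n) :
    LapE p L y = ENNReal.ofReal (Lap p L y) :=
  (ofReal_integral_eq_lintegral_ofReal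
    ((continuous_exp_dot p y).continuousOn.integrableOn_compact hL)
    (Eventually.of_forall fun _ => (Real.exp_pos _).le)).symm

lemma LapE_holder {θ : E n} (hθ : θ ≠ 0) {b : E n → ℝ} (hb : Inv θ b) {t₀ t₁ : ℝ}
    {K K₀ K₁ : Set (E n)} (h₀ : Shift θ b t₀ K K₀) (h₁ : Shift θ b t₁ K K₁)
    (hK : MeasurableSet K) (hK₀ : MeasurableSet K₀) (hK₁ : MeasurableSet K₁) (p : ℝ)
    {y₀ y₁ : E n} {u v : ℝ} (hu : 0 < u) (hv : 0 < v) (huv : u + v = 1)
    (he : u * t₀ * (θ ⬝ᵥ y₀) + v * t₁ * (θ ⬝ᵥ y₁) = 0) :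
    LapE p K (u • y₀ + v • y₁) ≤ LapE p K₀ y₀ ^ u * LapE p K₁ y₁ ^ v := by
  obtain ⟨m, c, ψ, -, mψ, hc⟩ := exists_chords hθ
  have hm : ∀ {L : Set (E n)} (_ : MeasurableSet L) (y : E n), Measurable fun X : E m =>
      ∫⁻ s : ℝ, L.indicator (fun x => ENNReal.ofReal (Real.exp (p * (x ⬝ᵥ y)))) (ψ X + s • θ) := by
    intro L hL y
    refine Measurable.lintegral_prod_right' (f := fun q : E m × ℝ =>
      L.indicator (fun x => ENNReal.ofReal (Real.exp (p * (x ⬝ᵥ y)))) (ψ q.1 + q.2 • θ)) ?_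
    exact ((measurable_expE p y).indicator hL).comp
      ((mψ.comp measurable_fst).add (measurable_snd.smul_const θ))
  unfold LapE
  rw [← lintegral_indicator hK, ← lintegral_indicator hK₀, ← lintegral_indicator hK₁,
    hc _ ((measurable_expE p _).indicator hK), hc _ ((measurable_expE p _).indicator hK₀),
    hc _ ((measurable_expE p _).indicator hK₁), ENNReal.mul_rpow_of_nonneg _ _ hu.le,
    ENNReal.mul_rpow_of_nonneg _ _ hv.le, mul_mul_mul_comm,
    ← ENNReal.rpow_add_of_nonneg _ _ hu.le hv.le, huv, ENNReal.rpow_one]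
  refine mul_le_mul_right (le_trans (lintegral_mono fun X => ?_)
    (ENNReal.lintegral_mul_norm_pow_le (hm hK₀ y₀).aemeasurable (hm hK₁ y₁).aemeasurable hu.le
      hv.le huv)) _
  rw [chord_eq hb h₀, chord_eq hb h₁]
  have hm' : ∀ (y w : E n), Measurable fun s : ℝ => K.indicator
      (fun z => ENNReal.ofReal (Real.exp (p * ((z + w) ⬝ᵥ y)))) (ψ X + s • θ) := by
    intro y w
    exact (((measurable_expE p y).comp (measurable_id.add_const w)).indicator hK).comp
      (measurable_const.add (measurable_id.smul_const θ))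
  refine le_trans (lintegral_mono fun s => ?_)
    (ENNReal.lintegral_mul_norm_pow_le (hm' y₀ _).aemeasurable (hm' y₁ _).aemeasurable hu.le
      hv.le huv)
  by_cases hs : ψ X + s • θ ∈ K
  · simp only [indicator_of_mem hs]
    have := exp_combo (u := p * ((ψ X + s • θ + (t₀ * b (ψ X)) • θ) ⬝ᵥ y₀))
      (v := p * ((ψ X + s • θ + (t₁ * b (ψ X)) • θ) ⬝ᵥ y₁))
      (w := p * ((ψ X + s • θ) ⬝ᵥ (u • y₀ + v • y₁))) hu hv (by
        simp only [add_dotProduct, dotProduct_add, dotProduct_smul, smul_dotProduct, smul_eq_mul]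
        linear_combination (-(p * b (ψ X))) * he) 1 1
    simp only [one_mul, ENNReal.one_rpow] at this
    exact this.ge
  · simp [indicator_of_notMem hs]

/-- `exp (-h_{p,L})` -/
noncomputable def Fp (p : ℝ) (L : Set (E n)) (y : E n) : ℝ≥0∞ :=
  ENNReal.ofReal ((Lap p L y / (volume L).toReal) ^ (-(1 / p)))

/-- the `L^p` Mahler volume minimised over all positions of the origin -/
noncomputable def mstar (p : ℝ) (L : Set (E n)) : ℝ≥0∞ := ⨅ c : E n, mahler p ((fun z => z - c) '' L)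

lemma measurable_Fp (p : ℝ) (L : Set (E n)) : Measurable (Fp p L) :=
  (((measurable_Lap p L).div_const _).pow_const _).ennreal_ofReal

lemma vol_pos {L : Set (E n)} (hL : IsCompact L) (h0 : volume L ≠ 0) : 0 < (volume L).toReal :=
  ENNReal.toReal_pos h0 hL.measure_lt_top.ne

lemma Fp_ne_zero (p : ℝ) {L : Set (E n)} (hL : IsCompact L) (h0 : volume L ≠ 0) (y : E n) :
    Fp p L y ≠ 0 := by
  have := Real.rpow_pos_of_pos (div_pos (Lap_pos' p y hL h0) (vol_pos hL h0)) (-(1 / p))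
  simpa [Fp] using this

lemma mstar_eq {p : ℝ} (hp : 0 < p) {L : Set (E n)} (hL : IsCompact L) (h0 : volume L ≠ 0) :
    mstar p L = volume L * lstar (Fp p L) := by
  rw [lstar, ENNReal.mul_iInf (fun h => absurd h hL.measure_lt_top.ne)]
  refine iInf_congr fun c => ?_
  rw [mahler_eq, volume_image_sub]
  congr 1
  refine lintegral_congr fun y => ?_
  have h1 := div_pos (Lap_pos' p y hL h0) (vol_pos hL h0)
  rw [Fp, Lap_image_sub, ← ENNReal.ofReal_mul (Real.rpow_pos_of_pos h1 _).le, mul_div_right_comm,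
    Real.mul_rpow h1.le (Real.exp_pos _).le, ← Real.exp_mul]
  congr 3
  field_simp

lemma shadowHyp_Fp {θ : E n} (hθ : θ ≠ 0) {b : E n → ℝ} (hb : Inv θ b) {t₀ t₁ : ℝ}
    (ht₀ : t₀ < 0) (ht₁ : 0 < t₁) {K K₀ K₁ : Set (E n)} (h₀ : Shift θ b t₀ K K₀)
    (h₁ : Shift θ b t₁ K K₁) (hK : IsCompact K) (hK₀ : IsCompact K₀) (hK₁ : IsCompact K₁)
    (hv : volume K ≠ 0) {p : ℝ} (hp : 0 < p) :
    ShadowHyp θ (t₁ / (t₁ - t₀)) (-t₀ / (t₁ - t₀)) (Fp p K₀) (Fp p K₁) (Fp p K) := by
  intro y₀ y₁ u v hu hv' huv he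
  have hd : 0 < t₁ - t₀ := by linarith
  have v₀ := h₀.volume_eq hθ hb hK.measurableSet hK₀.measurableSet
  have v₁ := h₁.volume_eq hθ hb hK.measurableSet hK₁.measurableSet
  have key := LapE_holder hθ hb h₀ h₁ hK.measurableSet hK₀.measurableSet hK₁.measurableSet p
    (y₀ := y₀) (y₁ := y₁) hu hv' huv (by
      field_simp at he
      linear_combination -he)
  have p₀ := Lap_pos' p y₀ hK₀ (by rwa [v₀])
  have p₁ := Lap_pos' p y₁ hK₁ (by rwa [v₁])
  have p₂ := Lap_pos' p (u • y₀ + v • y₁) hK hv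
  have hV := vol_pos hK hv
  rw [LapE_eq p hK, LapE_eq p hK₀, LapE_eq p hK₁, ENNReal.ofReal_rpow_of_pos p₀,
    ENNReal.ofReal_rpow_of_pos p₁, ← ENNReal.ofReal_mul (by positivity),
    ENNReal.ofReal_le_ofReal_iff (by positivity)] at key
  unfold Fp
  rw [v₀, v₁, ENNReal.ofReal_rpow_of_pos (by positivity), ENNReal.ofReal_rpow_of_pos (by positivity),
    ← ENNReal.ofReal_mul (by positivity)]
  refine ENNReal.ofReal_le_ofReal ?_
  rw [← Real.rpow_mul (by positivity), ← Real.rpow_mul (by positivity), mul_comm _ u, mul_comm _ v,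
    Real.rpow_mul (by positivity), Real.rpow_mul (by positivity),
    ← Real.mul_rpow (by positivity) (by positivity)]
  refine Real.rpow_le_rpow_of_nonpos (by positivity) ?_ (by
    have : 0 < 1 / p := by positivity
    linarith)
  rw [Real.div_rpow p₀.le hV.le, Real.div_rpow p₁.le hV.le, div_mul_div_comm, ← Real.rpow_add hV,
    huv, Real.rpow_one]
  exact div_le_div_of_nonneg_right key hV.le

/-- quasi-concavity of the `L^p` Mahler volume along parallel chord movements -/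
theorem mstar_quasi {θ : E n} (hθ : θ ≠ 0) {b : E n → ℝ} (hb : Inv θ b) {t₀ t₁ : ℝ}
    (ht₀ : t₀ < 0) (ht₁ : 0 < t₁) {K K₀ K₁ : Set (E n)} (h₀ : Shift θ b t₀ K K₀)
    (h₁ : Shift θ b t₁ K K₁) (hK : IsCompact K) (hK₀ : IsCompact K₀) (hK₁ : IsCompact K₁)
    (hv : volume K ≠ 0) {p : ℝ} (hp : 0 < p) {m : ℝ≥0∞} (m₀ : m ≤ mstar p K₀)
    (m₁ : m ≤ mstar p K₁) : m ≤ mstar p K := by
  have hd : 0 < t₁ - t₀ := by linarith
  have v₀ := h₀.volume_eq hθ hb hK.measurableSet hK₀.measurableSet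
  have v₁ := h₁.volume_eq hθ hb hK.measurableSet hK₁.measurableSet
  have hα : 0 < t₁ / (t₁ - t₀) := div_pos ht₁ hd
  have hβ : 0 < -t₀ / (t₁ - t₀) := div_pos (neg_pos.2 ht₀) hd
  have hαβ : t₁ / (t₁ - t₀) + -t₀ / (t₁ - t₀) = 1 := by field_simp; ring
  have n₀ : volume K₀ ≠ 0 := by rwa [v₀]
  have n₁ : volume K₁ ≠ 0 := by rwa [v₁]
  rw [mstar_eq hp hK₀ n₀] at m₀
  rw [mstar_eq hp hK₁ n₁] at m₁
  rw [mstar_eq hp hK hv]
  refine quasi_aux (by simpa using hα)
    (lstar_ne_zero (measurable_Fp p _) (Fp_ne_zero p hK₀ n₀))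
    (lstar_ne_zero (measurable_Fp p _) (Fp_ne_zero p hK₁ n₁))
    (lstar_ne_zero (measurable_Fp p _) (Fp_ne_zero p hK hv))
    (lstar_inv_le hθ hα hβ hαβ (measurable_Fp p _) (measurable_Fp p _) (measurable_Fp p _)
      (Fp_ne_zero p hK₀ n₀) (Fp_ne_zero p hK₁ n₁)
      (shadowHyp_Fp hθ hb ht₀ ht₁ h₀ h₁ hK hK₀ hK₁ hv hp)) ?_ m₀ m₁
  rw [v₀, v₁, ← add_mul, ← ENNReal.ofReal_add hα.le hβ.le, hαβ, ENNReal.ofReal_one, one_mul]

lemma mstar_affine (p : ℝ) (e : E n ≃ᵃ[ℝ] E n) (L : Set (E n)) :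
    mstar p L ≤ mstar p (e '' L) := by
  refine le_iInf fun c => ?_
  refine (iInf_le _ (e.symm c)).trans (le_of_eq ?_)
  rw [← mahler_image_lin p (e.linear : E n →ₗ[ℝ] E n) e.linear.isUnit_det'.ne_zero, image_image,
    image_image]
  congr 1
  refine image_congr fun x _ => ?_
  have := e.toAffineMap.linearMap_vsub x (e.symm c)
  simpa using this

lemma mstar_stdS {p : ℝ} (hp : 0 < p) : mahler p (cS n 1) ≤ mstar p (stdS n) :=
  le_iInf fun x => mahler_cS_le hp x

/-- monotonicity under outer approximation -/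
lemma mahler_mono {p : ℝ} (hp : 0 < p) {K Q : Set (E n)} (hK : IsCompact K) (hQ : IsCompact Q)
    (hKQ : K ⊆ Q) (hv : volume K ≠ 0) :
    ENNReal.ofReal (((volume K).toReal / (volume Q).toReal) ^ (1 + 1 / p)) * mahler p Q ≤
      mahler p K := by
  have hvQ : volume Q ≠ 0 := fun h => hv (measure_mono_null hKQ h)
  have pK := vol_pos hK hv
  have pQ := vol_pos hQ hvQ
  rw [mahler_eq, mahler_eq, Real.rpow_add (by positivity), Real.rpow_one,
    ENNReal.ofReal_mul (by positivity), mul_mul_mul_comm,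
    ← lintegral_const_mul' _ _ ENNReal.ofReal_ne_top]
  refine mul_le_mul' (le_of_eq ?_) (lintegral_mono fun y => ?_)
  · rw [← ENNReal.ofReal_toReal hQ.measure_lt_top.ne, ENNReal.toReal_ofReal pQ.le,
      ← ENNReal.ofReal_mul (by positivity), div_mul_cancel₀ _ pQ.ne',
      ENNReal.ofReal_toReal hK.measure_lt_top.ne]
  · have lK := Lap_pos' p y hK hv
    have lQ := Lap_pos' p y hQ hvQ
    have hle : Lap p K y ≤ Lap p Q y :=
      setIntegral_mono_set ((continuous_exp_dot p y).continuousOn.integrableOn_compact hQ)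
        (Eventually.of_forall fun _ => (Real.exp_pos _).le) hKQ.eventuallyLE
    rw [← ENNReal.ofReal_mul (by positivity)]
    refine ENNReal.ofReal_le_ofReal ?_
    have e : ((volume K).toReal / (volume Q).toReal) ^ (1 / p) =
        ((volume Q).toReal / (volume K).toReal) ^ (-(1 / p)) := by
      rw [Real.rpow_neg (by positivity), ← Real.inv_rpow (by positivity), inv_div]
    rw [e, ← Real.mul_rpow (by positivity) (by positivity)]
    refine Real.rpow_le_rpow_of_nonpos (by positivity) ?_ (by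
      have : 0 < 1 / p := by positivity
      linarith)
    rw [div_mul_div_comm, mul_comm (volume K).toReal, mul_div_mul_left _ _ pQ.ne']
    exact div_le_div_of_nonneg_right hle pK.le

end Pool.Agent.MP_5f4cdd_gt.PL
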