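import Pool.Agent.MP_5f4cdd_gt.ABGlue
import Pool.Agent.MP_5f4cdd_gt.SumChord

set_option autoImplicit false
open MeasureTheory ENNReal Set Filter Topology Function Matrix Pointwise Bornology

namespace Pool.Agent.MP_5f4cdd_gt.AB

open PL EF

variable {n : ℕ}

lemma sandwich' {A B : Set (E n)} (hA : Convex ℝ A) (cA : IsCompact A) (hB : Convex ℝ B)
    (cB : IsCompact B) {c : E n} {r δ : ℝ} (hδ0 : 0 < δ) (hδ1 : δ ≤ 1)
    (hb : Metric.closedBall c r ⊆ A) (hAB : ∀ a ∈ A, ∃ b ∈ B, ‖a - b‖ ≤ δ * r)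
    (hBA : ∀ b ∈ B, ∃ a ∈ A, ‖b - a‖ ≤ δ * r) :
    AffineMap.homothety c (1 - δ) '' A ⊆ B ∧ B ⊆ AffineMap.homothety c (1 + δ) '' A := by
  have hm : ∀ v : E n, ‖v‖ ≤ δ * r → c + δ⁻¹ • v ∈ A := fun v hv => by
    refine hb ?_
    rw [Metric.mem_closedBall, dist_eq_norm, add_sub_cancel_left, norm_smul, Real.norm_eq_abs,
      abs_of_pos (inv_pos.2 hδ0), inv_mul_le_iff₀ hδ0]
    exact hv
  constructor
  · refine shrink_sub cA (subset_convexHull ℝ A) hB cB.isClosed hδ0.le hδ1 fun a ha => ?_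
    obtain ⟨b, hb', h⟩ := hAB a ha
    refine ⟨b, hb', _, hm _ h, ?_⟩
    rw [add_sub_cancel_left, smul_smul, mul_inv_cancel₀ hδ0.ne', one_smul]; abel
  · intro b hb'
    obtain ⟨a, ha, h⟩ := hBA b hb'
    have h1 : 0 < 1 + δ := by linarith
    refine ⟨_, hA ha (hm _ h) (a := 1 / (1 + δ)) (b := δ / (1 + δ))
      (by positivity) (by positivity) (by field_simp), ?_⟩
    ext j
    simp only [AffineMap.homothety_apply, vsub_eq_sub, vadd_eq_add, Pi.add_apply, Pi.smul_apply,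
      Pi.sub_apply, smul_eq_mul]
    field_simp
    ring

/-- convex bodies -/
structure Body (K : Set (E n)) : Prop where
  conv : Convex ℝ K
  comp : IsCompact K
  int : (interior K).Nonempty

/-- continuity of the volume product and of nearness in the Hausdorff metric -/
lemma Body.cont {A : Set (E n)} (hA : Body A) {ε ε' : ℝ} (hεε' : ε < ε') (hε' : ε' < 1)
    {μ v : ℝ≥0∞} (hv : v < μ) : ∃ η : ℝ, 0 < η ∧ ∀ B : Set (E n), Body B →
      (∀ a ∈ A, ∃ b ∈ B, ‖a - b‖ ≤ η) → (∀ b ∈ B, ∃ a ∈ A, ‖b - a‖ ≤ η) →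
      (EF.Near ε A → EF.Near ε' B) ∧ (EF.Near ε B → EF.Near ε' A) ∧
      (mstarInf A ≤ v → mstarInf B < μ) ∧ (mstarInf B ≤ v → mstarInf A < μ) := by
  have hε : ε < 1 := hεε'.trans hε'
  obtain ⟨c, hc⟩ := hA.int
  obtain ⟨r, hr, hb⟩ := Metric.nhds_basis_closedBall.mem_iff.1 (mem_interior_iff_mem_nhds.1 hc)
  have e1 : ∀ᶠ δ in 𝓝 (0 : ℝ), ENNReal.ofReal (((1 + δ) * (1 - δ)⁻¹) ^ n) * v < μ := by
    have : Tendsto (fun δ : ℝ => ENNReal.ofReal (((1 + δ) * (1 - δ)⁻¹) ^ n) * v) (𝓝 0)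
        (𝓝 (ENNReal.ofReal (((1 + 0) * (1 - 0)⁻¹) ^ n) * v)) :=
      ENNReal.Tendsto.mul_const (ENNReal.tendsto_ofReal (ContinuousAt.tendsto (by
        fun_prop (disch := simp)))) (Or.inr hv.ne_top)
    exact this.eventually_lt_const (by simpa using hv)
  have e2 : ∀ᶠ δ in 𝓝 (0 : ℝ), (1 - ε') * (1 + δ) ^ n < (1 - ε) * (1 - δ) ^ n :=
    ContinuousAt.eventually_lt (by fun_prop) (by fun_prop) (by simpa using hεε')
  have e3 : ∀ᶠ δ in 𝓝 (0 : ℝ), δ < 1 := eventually_lt_nhds one_pos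
  obtain ⟨δ, ⟨⟨d1, d2⟩, d3⟩, hδ⟩ := ((((e1.and e2).and e3).filter_mono nhdsWithin_le_nhds).and
    (self_mem_nhdsWithin (a := (0 : ℝ)) (s := Ioi 0))).exists
  have hδ0 : 0 < δ := hδ
  have h5 : 0 < 1 - δ := by linarith
  have h6 : 0 < 1 + δ := by linarith
  refine ⟨δ * r, by positivity, fun B hB hAB hBA => ?_⟩
  obtain ⟨h3, h4⟩ := sandwich' hA.conv hA.comp hB.conv hB.comp hδ0 d3.le hb hAB hBA
  have key : ∀ {P U : Set (E n)} {ρ σ : ℝ}, 0 < ρ → 0 < σ → Body P →
      AffineMap.homothety c σ '' P ⊆ U → U ⊆ AffineMap.homothety c ρ '' P →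
      mstarInf P ≤ ENNReal.ofReal ((ρ * σ⁻¹) ^ n) * mstarInf U := by
    intro P U ρ σ hρ hσ hP a1 a2
    rw [← mstarInf_affine (AffineEquiv.homothetyUnitsMulHom c (Units.mk0 σ hσ.ne')) P, coe_hom]
    refine mstarInf_sandwich (c := c) (by positivity)
      (hP.comp.image (AffineMap.homothety c σ).continuous_of_finiteDimensional)
      ((hP.int.mono interior_subset).image _) a1 (a2.trans (le_of_eq ?_))
    rw [image_image]
    refine image_congr fun x _ => ?_
    rw [← AffineMap.homothety_mul_apply, inv_mul_cancel_right₀ hσ.ne']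
  refine ⟨fun h => h.homothety h6 h5.le h4 h3 hB.comp.measure_lt_top.ne hε hε'.le d2.le,
    fun h => h.homothety (inv_pos.2 h5) (inv_pos.2 h6).le (homothety_inv_left h5.ne' h3)
      (homothety_inv_right h6.ne' h4) hA.comp.measure_lt_top.ne hε hε'.le ?_, fun h => ?_,
    fun h => ((key h6 h5 hA h3 h4).trans (mul_le_mul_right h _)).trans_lt d1⟩
  · rw [inv_pow, inv_pow, ← div_eq_mul_inv, ← div_eq_mul_inv,
      div_le_div_iff₀ (pow_pos h5 _) (pow_pos h6 _)]
    exact d2.le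
  · have := key (inv_pos.2 h5) (inv_pos.2 h6) hB (homothety_inv_right h6.ne' h4)
      (homothety_inv_left h5.ne' h3)
    rw [inv_inv, mul_comm (1 - δ)⁻¹] at this
    exact (this.trans (mul_le_mul_right h _)).trans_lt d1

lemma near_path {ε ε' : ℝ} {μ v : ℝ≥0∞} (hεε' : ε < ε') (hε' : ε' < 1) (hv : v < μ)
    (moat : ∀ K : Set (E n), Convex ℝ K → IsCompact K → (interior K).Nonempty →
      mstarInf K < μ → EF.Near ε' K → EF.Near ε K)
    {U : ℝ → Set (E n)} {R : ℝ} (hU : ∀ t ∈ Icc (0 : ℝ) 1, Body (U t))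
    (lip : ∀ t t', ∀ x ∈ U t, ∃ y ∈ U t', ‖x - y‖ ≤ R * |t - t'|)
    (hM : ∀ t, 0 < t → t ≤ 1 → mstarInf (U t) ≤ v) (hG : Good ε μ (U 0)) : EF.Near ε (U 1) := by
  have hc : ∀ t, ∀ η : ℝ, 0 < η → ∀ᶠ t' in 𝓝 t, (∀ a ∈ U t, ∃ b ∈ U t', ‖a - b‖ ≤ η) ∧
      ∀ b ∈ U t', ∃ a ∈ U t, ‖b - a‖ ≤ η := by
    intro t η hη
    have : ∀ᶠ t' in 𝓝 t, R * |t - t'| < η :=
      ContinuousAt.eventually_lt (by fun_prop) continuousAt_const (by simpa using hη)
    refine this.mono fun t' h => ⟨fun a ha => ?_, fun b hb => ?_⟩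
    · obtain ⟨y, hy, h'⟩ := lip t t' a ha
      exact ⟨y, hy, h'.trans h.le⟩
    · obtain ⟨y, hy, h'⟩ := lip t' t b hb
      exact ⟨y, hy, h'.trans (by rw [abs_sub_comm]; exact h.le)⟩
  have z0 : (0 : ℝ) ∈ Icc (0 : ℝ) 1 := left_mem_Icc.2 zero_le_one
  have hM0 : mstarInf (U 0) < μ := by
    obtain ⟨η, hη, h⟩ := (hU 0 z0).cont hεε' hε' hv
    obtain ⟨t, ⟨h1, h2⟩, h3⟩ := ((((hc 0 η hη).and (eventually_lt_nhds one_pos)).filter_mono
      nhdsWithin_le_nhds).and (self_mem_nhdsWithin (a := (0 : ℝ)) (s := Ioi 0))).exists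
    exact (h _ (hU t ⟨le_of_lt h3, h2.le⟩) h1.1 h1.2).2.2.2 (hM t h3 h2.le)
  have hM' : ∀ t ∈ Icc (0 : ℝ) 1, mstarInf (U t) < μ := fun t ht => by
    rcases ht.1.eq_or_lt with rfl | h
    · exact hM0
    · exact (hM t h ht.2).trans_lt hv
  have moat' : ∀ t ∈ Icc (0 : ℝ) 1, EF.Near ε' (U t) → EF.Near ε (U t) := fun t ht =>
    moat _ (hU t ht).conv (hU t ht).comp (hU t ht).int (hM' t ht)
  refine isPreconnected_Icc.induction₂' (fun t t' => EF.Near ε (U t) → EF.Near ε (U t'))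
    (fun t ht => ?_) (fun _ _ _ _ _ _ h h' h'' => h' (h h'')) z0 (right_mem_Icc.2 zero_le_one)
    (hG (hU 0 z0).int hM0)
  obtain ⟨η, hη, h⟩ := (hU t ht).cont hεε' hε' hv
  filter_upwards [(hc t η hη).filter_mono nhdsWithin_le_nhds, self_mem_nhdsWithin] with t' h1 ht'
  obtain ⟨h2, h3, -⟩ := h _ (hU t' ht') h1.1 h1.2
  exact ⟨fun h => moat' t' ht' (h2 h), fun h => moat' t ht (h3 h)⟩

theorem Good.lim {ε ε' : ℝ} {μ : ℝ≥0∞} (hεε' : ε < ε') (hε' : ε' < 1)
    (moat : ∀ K : Set (E n), Convex ℝ K → IsCompact K → (interior K).Nonempty →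
      mstarInf K < μ → EF.Near ε' K → EF.Near ε K)
    {K : Set (E n)} (hK : Body K) {L : ℕ → Set (E n)} (hL : ∀ j, Body (L j))
    (hG : ∀ j, Good ε μ (L j))
    (ht : Tendsto (fun j => Metric.hausdorffDist K (L j)) atTop (𝓝 0)) : Good ε μ K := by
  intro hi hM
  obtain ⟨η, hη, h⟩ := hK.cont hεε' hε' hM
  obtain ⟨j, hj⟩ := (ht.eventually_lt_const hη).exists
  have hne := Metric.hausdorffEDist_ne_top_of_nonempty_of_bounded (hi.mono interior_subset)
    ((hL j).int.mono interior_subset) hK.comp.isBounded (hL j).comp.isBounded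
  obtain ⟨-, h2, h3, -⟩ := h _ (hL j) (fun a ha => by
      obtain ⟨b, hb, h'⟩ := Metric.exists_dist_lt_of_hausdorffDist_lt ha hj hne
      exact ⟨b, hb, by rw [← dist_eq_norm]; exact h'.le⟩) (fun b hb => by
      obtain ⟨a, ha, h'⟩ := Metric.exists_dist_lt_of_hausdorffDist_lt' hb hj hne
      exact ⟨a, ha, by rw [← dist_eq_norm, dist_comm]; exact h'.le⟩)
  exact moat K hK.conv hK.comp hi hM (h2 (hG j (hL j).int (h3 le_rfl)))

lemma vol1 {A B : Set ℝ} (hA : Convex ℝ A) (cA : IsCompact A) (hB : Convex ℝ B) (cB : IsCompact B)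
    (hne : A.Nonempty ↔ B.Nonempty) {α β : ℝ} (hα : 0 ≤ α) (hβ : 0 ≤ β) (k : ℝ) :
    volume {s | ∃ a ∈ A, ∃ b ∈ B, s = k + α * a + β * b} =
      ENNReal.ofReal α * volume A + ENNReal.ofReal β * volume B := by
  rcases A.eq_empty_or_nonempty with rfl | nA
  · have : B = ∅ := not_nonempty_iff_eq_empty.1 fun h => by simpa using hne.2 h
    simp [this]
  have nB := hne.1 nA
  have eA := eq_Icc_of_connected_compact (hA.isConnected nA) cA
  have eB := eq_Icc_of_connected_compact (hB.isConnected nB) cB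
  generalize sInf A = a₀, sSup A = a₁ at eA
  generalize sInf B = b₀, sSup B = b₁ at eB
  subst eA eB
  have ha := nonempty_Icc.1 nA
  have hb := nonempty_Icc.1 nB
  have : {s | ∃ a ∈ Icc a₀ a₁, ∃ b ∈ Icc b₀ b₁, s = k + α * a + β * b} =
      Icc (k + α * a₀ + β * b₀) (k + α * a₁ + β * b₁) := by
    ext s
    constructor
    · rintro ⟨a, h1, b, h2, rfl⟩
      exact ⟨by gcongr; exacts [h1.1, h2.1], by gcongr; exacts [h1.2, h2.2]⟩
    · intro hs
      obtain ⟨l, l0, l1, hl⟩ := exists_ratio (sub_nonneg.2 hs.1) (sub_le_sub_right hs.2 _)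
      exact ⟨a₀ + l * (a₁ - a₀), ⟨by nlinarith, by nlinarith⟩, b₀ + l * (b₁ - b₀),
        ⟨by nlinarith, by nlinarith⟩, by linarith⟩
  rw [this, Real.volume_Icc, Real.volume_Icc, Real.volume_Icc, ← ENNReal.ofReal_mul hα,
    ← ENNReal.ofReal_mul hβ, ← ENNReal.ofReal_add (mul_nonneg hα (sub_nonneg.2 ha))
      (mul_nonneg hβ (sub_nonneg.2 hb))]
  congr 1; ring

/-- pairs of points on a common fibre -/
def Zs (i : Fin n) (K L : Set (E n)) : Set (E n × E n) :=
  (K ×ˢ L) ∩ {q | sc i 0 q.1 = sc i 0 q.2}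

/-- weighted sum along the fibre -/
noncomputable def φ (i : Fin n) (α β : ℝ) : E n × E n →ₗ[ℝ] E n :=
  (sc i α).comp (LinearMap.fst ℝ _ _) + (sc i β - sc i 0).comp (LinearMap.snd ℝ _ _)

lemma φ_apply (i : Fin n) (α β : ℝ) (q : E n × E n) :
    φ i α β q = update q.1 i (α * q.1 i + β * q.2 i) := by
  ext j
  rcases eq_or_ne j i with rfl | h
  · simp [φ, sc_apply]
  · simp [φ, sc_apply, h]

lemma sc_zero_eq_iff {i : Fin n} {x y : E n} : sc i 0 x = sc i 0 y ↔ ∀ j, j ≠ i → x j = y j := by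
  refine ⟨fun h j hj => by simpa [sc_apply, hj] using congrFun h j, fun h => ?_⟩
  ext j
  rcases eq_or_ne j i with rfl | hj
  · simp [sc_apply]
  · simp [sc_apply, hj, h j hj]

lemma mem_fib {i : Fin n} {K L : Set (E n)} {α β : ℝ} {x : E n} : x ∈ φ i α β '' Zs i K L ↔
    ∃ s t, update x i s ∈ K ∧ update x i t ∈ L ∧ x i = α * s + β * t := by
  constructor
  · rintro ⟨q, ⟨⟨h1, h2⟩, h3⟩, rfl⟩
    refine ⟨q.1 i, q.2 i, by simpa [φ_apply] using h1, ?_, by simp [φ_apply]⟩
    convert h2 using 1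
    ext j
    rcases eq_or_ne j i with rfl | hj
    · simp
    · simp [φ_apply, hj, sc_zero_eq_iff.1 h3 j hj]
  · rintro ⟨s, t, h1, h2, h3⟩
    refine ⟨(update x i s, update x i t), ⟨⟨h1, h2⟩, sc_zero_eq_iff.2 fun j hj => by simp [hj]⟩, ?_⟩
    simp [φ_apply, ← h3]

lemma isCompact_Zs (i : Fin n) {K L : Set (E n)} (cK : IsCompact K) (cL : IsCompact L) :
    IsCompact (Zs i K L) := (cK.prod cL).inter_right (isClosed_eq
      ((sc i 0).continuous_of_finiteDimensional.comp continuous_fst)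
      ((sc i 0).continuous_of_finiteDimensional.comp continuous_snd))

lemma convex_Zs (i : Fin n) {K L : Set (E n)} (hK : Convex ℝ K) (hL : Convex ℝ L) :
    Convex ℝ (Zs i K L) := by
  refine (hK.prod hL).inter fun x hx y hy a b _ _ _ => ?_
  simp only [mem_ofPred_eq, Prod.fst_add, Prod.smul_fst, Prod.snd_add, Prod.smul_snd, map_add,
    map_smul] at hx hy ⊢
  rw [hx, hy]

lemma volume_fib {i : Fin n} {K L : Set (E n)} (hK : Body K) (hL : Body L)
    (hs : sc i 0 '' K = sc i 0 '' L) {α β : ℝ} (hα : 0 ≤ α) (hβ : 0 ≤ β) :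
    volume (φ i α β '' Zs i K L) =
      ENNReal.ofReal α * volume K + ENNReal.ofReal β * volume L := by
  obtain ⟨m, c, ψ, -, mψ, hc⟩ := exists_chords (θ := (Pi.single i 1 : E n)) (by simp)
  have e : ∀ (z : E n) (s : ℝ), z + s • (Pi.single i 1 : E n) = update z i (z i + s) := by
    intro z s
    ext j
    rcases eq_or_ne j i with rfl | hj
    · simp
    · simp [hj]
  have hl : ∀ z : E n, Continuous fun s : ℝ => z + s • (Pi.single i 1 : E n) := fun z => by fun_prop
  have hv : ∀ S : Set (E n), IsCompact S → volume S =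
      c * ∫⁻ X, volume {s : ℝ | ψ X + s • (Pi.single i 1 : E n) ∈ S} := by
    intro S hS
    rw [← lintegral_indicator_one hS.measurableSet,
      hc _ (measurable_one.indicator hS.measurableSet)]
    congr 1
    refine lintegral_congr fun X => ?_
    exact lintegral_indicator_one ((hl (ψ X)).measurable hS.measurableSet)
  have hm : ∀ S : Set (E n), IsCompact S →
      Measurable fun X => volume {s : ℝ | ψ X + s • (Pi.single i 1 : E n) ∈ S} := fun S hS =>
    measurable_measure_prodMk_left (s := {q : E m × ℝ | ψ q.1 + q.2 • (Pi.single i 1 : E n) ∈ S})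
      (((mψ.comp measurable_fst).add (measurable_snd.smul_const _)) hS.measurableSet)
  have hcc : ∀ S : Set (E n), Body S → ∀ z : E n,
      Convex ℝ {s : ℝ | z + s • (Pi.single i 1 : E n) ∈ S} ∧
      IsCompact {s : ℝ | z + s • (Pi.single i 1 : E n) ∈ S} := by
    intro S hS z
    refine ⟨fun s hs t ht a b ha hb hab => ?_, ?_⟩
    · have := hS.conv hs ht ha hb hab
      rwa [smul_add, smul_add, add_add_add_comm, ← add_smul, hab, one_smul, smul_smul, smul_smul,
        ← add_smul] at this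
    · refine ((hS.comp.image (f := fun x : E n => x i - z i) (by fun_prop)).of_isClosed_subset
        (hS.comp.isClosed.preimage (hl z)) fun s hs => ⟨_, hs, by simp⟩)
  have hne : ∀ {S T : Set (E n)}, sc i 0 '' S = sc i 0 '' T → ∀ z : E n,
      {s : ℝ | z + s • (Pi.single i 1 : E n) ∈ S}.Nonempty →
      {s : ℝ | z + s • (Pi.single i 1 : E n) ∈ T}.Nonempty := by
    rintro S T h z ⟨s, hs⟩
    obtain ⟨y, hy, h'⟩ := h.le (mem_image_of_mem _ hs)
    refine ⟨y i - z i, ?_⟩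
    convert hy using 1
    simp only [mem_ofPred_eq, e, add_sub_cancel]
    rw [show update z i (y i) = y from ?_]
    ext j
    rcases eq_or_ne j i with rfl | hj
    · simp
    · simp [hj, sc_zero_eq_iff.1 h' j hj]
  rw [hv _ ((isCompact_Zs i hK.comp hL.comp).image (φ i α β).continuous_of_finiteDimensional),
    hv K hK.comp, hv L hL.comp, mul_left_comm, mul_left_comm _ c, ← mul_add,
    ← lintegral_const_mul _ (hm K hK.comp), ← lintegral_const_mul _ (hm L hL.comp),
    ← lintegral_add_left ((hm K hK.comp).const_mul _)]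
  congr 1
  refine lintegral_congr fun X => ?_
  rw [← vol1 (hcc K hK _).1 (hcc K hK _).2 (hcc L hL _).1 (hcc L hL _).2
    ⟨hne hs _, hne hs.symm _⟩ hα hβ ((α + β - 1) * ψ X i)]
  congr 1
  ext s
  simp only [mem_ofPred_eq, mem_fib, e, update_idem, update_self]
  constructor
  · rintro ⟨a, b, h1, h2, h3⟩
    exact ⟨a - ψ X i, by simpa using h1, b - ψ X i, by simpa using h2, by linarith⟩
  · rintro ⟨a, h1, b, h2, h3⟩
    exact ⟨_, _, h1, h2, by linarith⟩

lemma body_fib {i : Fin n} {K L : Set (E n)} (hK : Body K) (hL : Body L)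
    (hs : sc i 0 '' K = sc i 0 '' L) {α β : ℝ} (hα : 0 ≤ α) (hβ : 0 ≤ β) (h : 0 < α ∨ 0 < β) :
    Body (φ i α β '' Zs i K L) := by
  have hc := (convex_Zs i hK.conv hL.conv).linear_image (φ i α β)
  refine ⟨hc, (isCompact_Zs i hK.comp hL.comp).image (φ i α β).continuous_of_finiteDimensional, ?_⟩
  by_contra h0
  rw [not_nonempty_iff_eq_empty] at h0
  have h1 : volume (φ i α β '' Zs i K L) = 0 := measure_mono_null
    (t := frontier _) (fun x hx => And.intro (subset_closure hx) (by simp [h0]))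
    (hc.addHaar_frontier volume)
  rw [volume_fib hK hL hs hα hβ, add_eq_zero, mul_eq_zero, mul_eq_zero] at h1
  rcases h with h | h
  · exact h1.1.elim (by simpa using h) (Measure.measure_pos_of_nonempty_interior _ hK.int).ne'
  · exact h1.2.elim (by simpa using h) (Measure.measure_pos_of_nonempty_interior _ hL.int).ne'

theorem Good.fib {ε ε' : ℝ} {μ : ℝ≥0∞} (hεε' : ε < ε') (hε' : ε' < 1)
    (moat : ∀ K : Set (E n), Convex ℝ K → IsCompact K → (interior K).Nonempty →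
      mstarInf K < μ → EF.Near ε' K → EF.Near ε K)
    {i : Fin n} {K L : Set (E n)} (hK : Body K) (hL : Body L) (hs : sc i 0 '' K = sc i 0 '' L)
    (gK : Good ε μ K) (gL : Good ε μ L) : Good ε μ (φ i 1 1 '' Zs i K L) := by
  intro hi hM
  have cZ := isCompact_Zs i hK.comp hL.comp
  obtain ⟨R, hR, hZR⟩ := cZ.isBounded.subset_closedBall_lt 0 0
  have lip : ∀ α β α' β' : ℝ, ∀ x ∈ φ i α β '' Zs i K L, ∃ y ∈ φ i α' β' '' Zs i K L,
      ‖x - y‖ ≤ R * (|α - α'| + |β - β'|) := by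
    rintro α β α' β' _ ⟨q, hq, rfl⟩
    refine ⟨_, mem_image_of_mem _ hq, ?_⟩
    have h1 : ‖q‖ ≤ R := by simpa using hZR hq
    have h2 : |q.1 i| ≤ R := (norm_le_pi_norm q.1 i).trans ((norm_fst_le q).trans h1)
    have h3 : |q.2 i| ≤ R := (norm_le_pi_norm q.2 i).trans ((norm_snd_le q).trans h1)
    have : φ i α β q - φ i α' β' q = Pi.single i ((α - α') * q.1 i + (β - β') * q.2 i) := by
      ext j
      rcases eq_or_ne j i with rfl | hj
      · simp [φ_apply]; ring
      · simp [φ_apply, hj]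
    rw [this, Pi.norm_single, mul_add]
    refine (abs_add_le _ _).trans (add_le_add ?_ ?_) <;> rw [abs_mul, mul_comm] <;> gcongr
  have e1 : φ i 1 0 '' Zs i K L = K := by
    ext x
    rw [mem_fib]
    refine ⟨fun ⟨s, t, h1, _, h3⟩ => by simpa [show s = x i by linarith] using h1, fun hx => ?_⟩
    obtain ⟨y, hy, h'⟩ := hs.le (mem_image_of_mem _ hx)
    refine ⟨x i, y i, by simpa, ?_, by simp⟩
    convert hy using 1
    ext j
    rcases eq_or_ne j i with rfl | hj
    · simp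
    · simp [hj, sc_zero_eq_iff.1 h' j hj]
  have e2 : φ i 0 1 '' Zs i K L = L := by
    ext x
    rw [mem_fib]
    refine ⟨fun ⟨s, t, _, h1, h3⟩ => by simpa [show t = x i by linarith] using h1, fun hx => ?_⟩
    obtain ⟨y, hy, h'⟩ := hs.ge (mem_image_of_mem _ hx)
    refine ⟨y i, x i, ?_, by simpa, by simp⟩
    convert hy using 1
    ext j
    rcases eq_or_ne j i with rfl | hj
    · simp
    · simp [hj, sc_zero_eq_iff.1 h' j hj]
  have : Nonempty (Zs i K L) := ((hi.mono interior_subset).of_image).to_subtype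
  have hr : ∀ t : ℝ, range (shadowPts (fun q : Zs i K L => φ i 1 1 q) (fun q => q.1.1 i)
      (Pi.single i 1) t) = φ i (1 + t) 1 '' Zs i K L := by
    intro t
    rw [image_eq_range]
    congr 1
    ext q j
    rcases eq_or_ne j i with rfl | hj
    · simp [shadowPts, φ_apply]; ring
    · simp [shadowPts, φ_apply, hj]
  have hh : ∀ α : ℝ, convexHull ℝ (φ i α 1 '' Zs i K L) = φ i α 1 '' Zs i K L := fun α =>
    ((convex_Zs i hK.conv hL.conv).linear_image _).convexHull_eq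
  have hq : ∀ α β : ℝ, 0 < α → α < 1 → 1 < β →
      min (mstarInf (φ i α 1 '' Zs i K L)) (mstarInf (φ i β 1 '' Zs i K L)) ≤
        mstarInf (φ i 1 1 '' Zs i K L) := by
    intro α β a0 a1 b1
    have hd : 0 < β - α := by linarith
    have ha : 0 < (β - 1) / (β - α) := div_pos (by linarith) hd
    have hb : 0 < (1 - α) / (β - α) := div_pos (by linarith) hd
    have hab : (β - 1) / (β - α) + (1 - α) / (β - α) = 1 := by field_simp; ring
    have e0 : 1 + ((β - 1) / (β - α) * (α - 1) + (1 - α) / (β - α) * (β - 1)) = 1 := by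
      field_simp; ring
    have := mstarInf_quasi (fun q : Zs i K L => φ i 1 1 q) (fun q => q.1.1 i) (θ := Pi.single i 1)
      (by simp) (fun t => by
        rw [hr]; exact (cZ.image (φ i _ 1).continuous_of_finiteDimensional).isBounded) ha hb hab
      (α - 1) (β - 1)
    simp only [hr, e0, add_sub_cancel, hh] at this
    refine this (le_of_eq ?_)
    rw [volume_fib hK hL hs a0.le zero_le_one, volume_fib hK hL hs (by linarith) zero_le_one,
      volume_fib hK hL hs zero_le_one zero_le_one, ENNReal.ofReal_one, one_mul, one_mul,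
      mul_add, mul_add, add_add_add_comm, ← add_mul, ← mul_assoc, ← mul_assoc, ← add_mul,
      ← ENNReal.ofReal_add ha.le hb.le, hab, ENNReal.ofReal_one, one_mul,
      ← ENNReal.ofReal_mul ha.le, ← ENNReal.ofReal_mul hb.le,
      ← ENNReal.ofReal_add (by positivity) (by positivity)]
    have : (β - 1) / (β - α) * α + (1 - α) / (β - α) * β = 1 := by field_simp; ring
    rw [this, ENNReal.ofReal_one, one_mul]
  by_cases h : ∀ α : ℝ, 0 < α → α ≤ 1 →
      mstarInf (φ i α 1 '' Zs i K L) ≤ mstarInf (φ i 1 1 '' Zs i K L)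
  · exact near_path hεε' hε' hM moat (U := fun t => φ i t 1 '' Zs i K L) (R := R)
      (fun t ht => body_fib hK hL hs ht.1 zero_le_one (Or.inr one_pos))
      (fun t t' x hx => by simpa using lip t 1 t' 1 x hx) h (by rwa [e2])
  · push Not at h
    obtain ⟨α, a0, a1, hα⟩ := h
    have a2 : α < 1 := lt_of_le_of_ne a1 (by rintro rfl; exact hα.false)
    refine near_path hεε' hε' hM moat (U := fun t => φ i 1 t '' Zs i K L) (R := R)
      (fun t ht => body_fib hK hL hs zero_le_one ht.1 (Or.inl one_pos))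
      (fun t t' x hx => by simpa using lip 1 t 1 t' x hx) (fun β b0 b1 => ?_) (by rwa [e1])
    rcases b1.eq_or_lt with rfl | b2
    · exact le_rfl
    have h1 := (min_le_iff.1 (hq α β⁻¹ a0 a2 (one_lt_inv_iff₀.2 ⟨b0, b2⟩))).resolve_left
      (not_le.2 hα)
    refine le_trans (le_of_eq ?_) h1
    rw [← mstarInf_affine (dgE _ (sc_ne i b0.ne')) (φ i β⁻¹ 1 '' Zs i K L), image_image]
    congr 1
    refine image_congr fun q _ => ?_
    change _ = sc i _ _
    simp [φ_apply, sc_apply, mul_add, mul_inv_cancel_left₀ b0.ne']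

end Pool.Agent.MP_5f4cdd_gt.AB
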