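import Mathlib

set_option autoImplicit false
open MeasureTheory ENNReal Set Filter Topology Function

namespace Pool.Agent.MP_5f4cdd_gt.AB

variable {n : ℕ}

/-- integral over the coordinates in `I` -/
noncomputable def lm (I : Finset (Fin n)) (f : (Fin n → ℝ) → ℝ≥0∞) (x : Fin n → ℝ) : ℝ≥0∞ :=
  lmarginal (fun _ => volume) I f x

lemma lm_mono {I : Finset (Fin n)} {f g : (Fin n → ℝ) → ℝ≥0∞} {x : Fin n → ℝ}
    (h : ∀ z, (∀ j ∉ I, z j = x j) → f z ≤ g z) : lm I f x ≤ lm I g x :=
  lintegral_mono fun _ => h _ fun j hj => by simp [updateFinset, hj]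

lemma lm_shift {I : Finset (Fin n)} (f : (Fin n → ℝ) → ℝ≥0∞) (x : Fin n → ℝ) {v : Fin n → ℝ}
    (hv : ∀ j ∉ I, v j = 0) : lm I (fun z => f (z + v)) x = lm I f x := by
  have h := lintegral_add_right_eq_self (μ := Measure.pi fun _ : I => (volume : Measure ℝ))
    (fun y : I → ℝ => f (updateFinset x I y)) (fun j => v j)
  refine Eq.trans (lintegral_congr fun y => congrArg f ?_) h
  ext j
  by_cases hj : j ∈ I <;> simp [updateFinset, hj, hv]

lemma lm_const_mul (I : Finset (Fin n)) (f : (Fin n → ℝ) → ℝ≥0∞) (x : Fin n → ℝ) {c : ℝ≥0∞}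
    (hc : c ≠ ∞) : lm I (fun z => c * f z) x = c * lm I f x :=
  lintegral_const_mul' _ _ hc

lemma sum_lintegral_le {α ι : Type} [MeasurableSpace α] (μ : Measure α) (s : Finset ι)
    (f : ι → α → ℝ≥0∞) : ∑ i ∈ s, ∫⁻ a, f i a ∂μ ≤ ∫⁻ a, ∑ i ∈ s, f i a ∂μ := by
  classical
  induction s using Finset.induction_on with
  | empty => simp
  | insert i s hi ih =>
    simp only [Finset.sum_insert hi]
    exact (add_le_add_right ih _).trans (le_lintegral_add _ _)

lemma lm_add_sum_le {ι : Type} (I : Finset (Fin n)) (s : Finset ι) (f : (Fin n → ℝ) → ℝ≥0∞)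
    (g : ι → (Fin n → ℝ) → ℝ≥0∞) (x : Fin n → ℝ) :
    lm I f x + ∑ i ∈ s, lm I (g i) x ≤ lm I (fun z => f z + ∑ i ∈ s, g i z) x :=
  (add_le_add_right (sum_lintegral_le _ s fun i y => g i (updateFinset x I y)) _).trans
    (le_lintegral_add _ _)

/-- sublinear on the orthant -/
structure Subl (φ : (Fin n → ℝ) → ℝ) : Prop where
  cont : Continuous φ
  add : ∀ z w, 0 ≤ z → 0 ≤ w → φ (z + w) ≤ φ z + φ w
  smul : ∀ (t : ℝ) w, 0 < t → 0 ≤ w → φ (t • w) ≤ t * φ w
  zero : φ 0 = 0

noncomputable def pos (φ : (Fin n → ℝ) → ℝ) : (Fin n → ℝ) → ℝ≥0∞ :=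
  (Ici 0).indicator fun z => ENNReal.ofReal (Real.exp (-φ z))

noncomputable def A (φ : (Fin n → ℝ) → ℝ) (I : Finset (Fin n)) : ℝ≥0∞ := lm I (pos φ) 0

lemma measurable_pos {φ : (Fin n → ℝ) → ℝ} (h : Continuous φ) : Measurable (pos φ) :=
  Measurable.indicator (by fun_prop) measurableSet_Ici

lemma A_empty {φ : (Fin n → ℝ) → ℝ} (h : φ 0 = 0) : A φ ∅ = 1 := by
  simp [A, lm, pos, h]

lemma A_univ (φ : (Fin n → ℝ) → ℝ) : A φ Finset.univ = ∫⁻ z, pos φ z := by
  simp [A, lm, volume_pi]

lemma pos_shift {φ : (Fin n → ℝ) → ℝ} (h : Subl φ) {z w : Fin n → ℝ} (hw : 0 ≤ w) {C : ℝ}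
    (hC : φ w ≤ C) (hz : 0 ≤ z) :
    ENNReal.ofReal (Real.exp (-C)) * pos φ z ≤ pos φ (z + w) := by
  rw [pos, indicator_of_mem (mem_Ici.2 hz), indicator_of_mem (mem_Ici.2 (add_nonneg hz hw)),
    ← ENNReal.ofReal_mul (Real.exp_pos _).le, ← Real.exp_add]
  exact ENNReal.ofReal_le_ofReal (Real.exp_le_exp.2 (by linarith [h.add z w hz hw]))

lemma flux_eps {φ : (Fin n → ℝ) → ℝ} (h : Subl φ) (I : Finset (Fin n)) {v : Fin n → ℝ}
    (hv : 0 ≤ v) (hI : ∀ j ∉ I, v j = 0) {C : ℝ} (hC : ∀ w ∈ Icc 0 v, φ w ≤ C) :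
    ENNReal.ofReal (Real.exp (-φ v)) * A φ I + ∑ i ∈ I, ENNReal.ofReal (Real.exp (-C)) *
      (ENNReal.ofReal (v i) * A φ (I.erase i)) ≤ A φ I := by
  set S : Fin n → Set (Fin n → ℝ) := fun i => {z | z i < v i ∧ ∀ j, j ≠ i → v j ≤ z j} with hS
  have hSm : ∀ i, MeasurableSet (S i) := fun i => by
    simp only [hS]; measurability
  refine le_trans (add_le_add ?_ (Finset.sum_le_sum fun i hi => ?_))
    ((lm_add_sum_le I I ((Ici v).indicator (pos φ)) (fun i => (S i).indicator (pos φ)) 0).trans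
      (lm_mono fun z _ => ?_))
  · rw [← lm_shift ((Ici v).indicator (pos φ)) 0 hI, A, ← lm_const_mul _ _ _ ENNReal.ofReal_ne_top]
    refine lm_mono fun z _ => ?_
    by_cases hz : 0 ≤ z
    · rw [indicator_of_mem (mem_Ici.2 (le_add_of_nonneg_left hz))]
      exact pos_shift h hv le_rfl hz
    · simp [pos, hz]
  · have e := lmarginal_erase' (μ := fun _ => (volume : Measure ℝ)) ((S i).indicator (pos φ))
      ((measurable_pos h.cont).indicator (hSm i)) hi
    have hv' : ∀ j ∉ I.erase i, update v i 0 j = 0 := fun j hj => by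
      by_cases hji : j = i
      · simp [hji]
      · rw [update_of_ne hji]; exact hI j fun hj' => hj (Finset.mem_erase.2 ⟨hji, hj'⟩)
    change _ ≤ lmarginal _ I _ 0
    rw [e]
    change _ ≤ lm _ _ 0
    rw [← lm_shift _ 0 hv', A, ← lm_const_mul _ _ _ ENNReal.ofReal_ne_top,
      ← lm_const_mul _ _ _ ENNReal.ofReal_ne_top]
    refine lm_mono fun z hz0 => ?_
    by_cases hz : 0 ≤ z
    swap
    · simp [pos, hz]
    have hzi : z i = 0 := hz0 i (Finset.notMem_erase i I)
    have e2 : ENNReal.ofReal (Real.exp (-C)) * (ENNReal.ofReal (v i) * pos φ z) =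
        ∫⁻ _ in Ico 0 (v i), ENNReal.ofReal (Real.exp (-C)) * pos φ z := by
      rw [setLIntegral_const, Real.volume_Ico, sub_zero]; ring
    rw [e2, ← lintegral_indicator measurableSet_Ico]
    refine lintegral_mono fun t => ?_
    by_cases ht : t ∈ Ico 0 (v i)
    swap
    · simp [ht]
    have e3 : update (z + update v i 0) i t = z + update v i t := by
      ext j
      by_cases hji : j = i
      · simp [hji, hzi]
      · simp [hji]
    have w0 : 0 ≤ update v i t := fun j => by
      by_cases hji : j = i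
      · simpa [hji] using ht.1
      · simpa [hji] using hv j
    have w1 : update v i t ≤ v := fun j => by
      by_cases hji : j = i
      · simpa [hji] using ht.2.le
      · simp [hji]
    simp only [indicator_of_mem ht, e3]
    rw [indicator_of_mem]
    · exact pos_shift h w0 (hC _ ⟨w0, w1⟩) hz
    · refine ⟨by simpa [hzi] using ht.2, fun j hj => ?_⟩
      simpa [hj] using hz j
  · by_cases h1 : v ≤ z
    · rw [indicator_of_mem (mem_Ici.2 h1), Finset.sum_eq_zero, add_zero]
      exact fun i _ => indicator_of_notMem (fun h2 => (h1 i).not_gt h2.1) _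
    rw [indicator_of_notMem (s := Ici v) h1, zero_add]
    by_cases h2 : ∃ i, z ∈ S i
    · obtain ⟨i, hi⟩ := h2
      refine (Finset.sum_le_sum_of_subset (Finset.subset_univ I)).trans ?_
      rw [Finset.sum_eq_single i, indicator_of_mem hi]
      · exact fun j _ hj => indicator_of_notMem (fun h3 => (hi.2 j hj).not_gt h3.1) _
      · simp
    · rw [Finset.sum_eq_zero]
      · exact zero_le
      · exact fun i _ => indicator_of_notMem (fun h3 => h2 ⟨i, h3⟩) _

theorem flux {φ : (Fin n → ℝ) → ℝ} (h : Subl φ) (I : Finset (Fin n)) {u : Fin n → ℝ}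
    (hu : 0 ≤ u) (hI : ∀ j ∉ I, u j = 0) (hA : A φ I ≠ ∞) :
    ∑ i ∈ I, ENNReal.ofReal (u i) * A φ (I.erase i) ≤ ENNReal.ofReal (φ u) * A φ I := by
  obtain ⟨C, hC⟩ := (isCompact_Icc (a := (0 : Fin n → ℝ)) (b := u)).bddAbove_image
    h.cont.continuousOn
  set S := ∑ i ∈ I, ENNReal.ofReal (u i) * A φ (I.erase i) with hS
  have key : ∀ ε : ℝ, 0 < ε → ENNReal.ofReal (Real.exp (-(ε * φ u))) * A φ I +
      ENNReal.ofReal (Real.exp (-(ε * C)) * ε) * S ≤ A φ I := by
    intro ε hε
    have h1 := flux_eps h I (v := ε • u) (smul_nonneg hε.le hu) (fun j hj => by simp [hI j hj])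
      (C := ε * C) (fun w hw => by
        have e : w = ε • (ε⁻¹ • w) := by rw [smul_smul, mul_inv_cancel₀ hε.ne', one_smul]
        have w0 : 0 ≤ ε⁻¹ • w := smul_nonneg (inv_pos.2 hε).le hw.1
        have w1 : ε⁻¹ • w ≤ u := fun j => by
          have := hw.2 j
          simp only [Pi.smul_apply, smul_eq_mul] at this ⊢
          rwa [inv_mul_le_iff₀ hε]
        rw [e]
        exact (h.smul ε _ hε w0).trans
          (mul_le_mul_of_nonneg_left (hC (mem_image_of_mem _ ⟨w0, w1⟩)) hε.le))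
    refine le_trans (add_le_add (mul_le_mul_left (ENNReal.ofReal_le_ofReal
      (Real.exp_le_exp.2 (neg_le_neg (h.smul ε u hε hu)))) _) (le_of_eq ?_)) h1
    rw [hS, Finset.mul_sum]
    refine Finset.sum_congr rfl fun i _ => ?_
    rw [Pi.smul_apply, smul_eq_mul, ENNReal.ofReal_mul hε.le,
      ENNReal.ofReal_mul (Real.exp_pos _).le]
    ring
  have hSt : S ≠ ∞ := by
    intro hS'
    have h1 := key 1 one_pos
    rw [hS', ENNReal.mul_top (by simpa using Real.exp_pos _), add_top] at h1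
    exact hA (top_le_iff.1 h1)
  lift A φ I to NNReal using hA with a
  lift S to NNReal using hSt with s
  have key' : ∀ ε : ℝ, 0 < ε → Real.exp (-(ε * C)) * s ≤ φ u * a := by
    intro ε hε
    have h1 := key ε hε
    rw [← ENNReal.ofReal_coe_nnreal (p := a), ← ENNReal.ofReal_coe_nnreal (p := s),
      ← ENNReal.ofReal_mul (by positivity), ← ENNReal.ofReal_mul (by positivity),
      ← ENNReal.ofReal_add (by positivity) (by positivity),
      ENNReal.ofReal_le_ofReal_iff (by positivity)] at h1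
    have h2 := mul_le_mul_of_nonneg_right (Real.add_one_le_exp (-(ε * φ u))) a.2
    refine le_of_mul_le_mul_left ?_ hε
    simp only [NNReal.val_eq_coe] at h2
    nlinarith
  have lim : Tendsto (fun ε : ℝ => Real.exp (-(ε * C)) * s) (𝓝[>] 0) (𝓝 s) := by
    have : Continuous fun ε : ℝ => Real.exp (-(ε * C)) * s := by fun_prop
    simpa using (this.tendsto 0).mono_left nhdsWithin_le_nhds
  have h3 : (s : ℝ) ≤ φ u * a :=
    le_of_tendsto lim (eventually_nhdsWithin_of_forall fun ε hε => key' ε hε)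
  rw [← ENNReal.ofReal_coe_nnreal (p := a), ← ENNReal.ofReal_coe_nnreal (p := s),
    ← ENNReal.ofReal_mul' a.coe_nonneg]
  exact ENNReal.ofReal_le_ofReal h3

lemma lintegral_exp_Iio : ∫⁻ t in Iio (0 : ℝ), ENNReal.ofReal (Real.exp t) = 1 := by
  rw [setLIntegral_congr Iio_ae_eq_Iic, ← ofReal_integral_eq_lintegral_ofReal
    (integrableOn_exp_Iic 0) (Eventually.of_forall fun _ => (Real.exp_pos _).le),
    integral_exp_Iic_zero, ENNReal.ofReal_one]

lemma decomp_aux {G : (Fin n → ℝ) → ℝ≥0∞} (hG : Measurable G)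
    (h : ∀ x i t, x i = 0 → t < 0 → ENNReal.ofReal (Real.exp t) * G x ≤ G (update x i t))
    (J : Finset (Fin n)) : ∀ x : Fin n → ℝ, (∀ j ∈ J, x j = 0) →
      ∑ I ∈ J.powerset, lm I ({z | ∀ j ∈ J, 0 ≤ z j}.indicator G) x ≤ lm J G x := by
  induction J using Finset.induction_on with
  | empty => intro x _; simp
  | insert i J hi ih =>
    intro x hx
    have hm : Measurable ({z : Fin n → ℝ | ∀ j ∈ insert i J, 0 ≤ z j}.indicator G) :=
      hG.indicator (by measurability)
    rw [Finset.sum_powerset_insert hi, ← Finset.sum_add_distrib]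
    change _ ≤ lmarginal _ _ _ _
    rw [lmarginal_insert _ hG hi]
    refine le_trans ?_ (lintegral_mono fun t => ih (update x i t) fun j hj => by
      rw [update_of_ne (ne_of_mem_of_not_mem hj hi)]; exact hx j (Finset.mem_insert_of_mem hj))
    refine le_trans (Finset.sum_le_sum fun I hI => ?_) (sum_lintegral_le _ _ _)
    have hiI : i ∉ I := fun h' => hi (Finset.mem_powerset.1 hI h')
    have e1 : lm (insert i I) ({z : Fin n → ℝ | ∀ j ∈ insert i J, 0 ≤ z j}.indicator G) x =
        ∫⁻ t, lm I ({z : Fin n → ℝ | ∀ j ∈ insert i J, 0 ≤ z j}.indicator G) (update x i t) :=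
      lmarginal_insert _ hm hiI x
    have e2 : ∀ c : ℝ≥0∞, c = ∫⁻ t, (Iio (0 : ℝ)).indicator
        (fun t => ENNReal.ofReal (Real.exp t) * c) t := fun c => by
      rw [lintegral_indicator measurableSet_Iio, lintegral_mul_const _ (by fun_prop),
        lintegral_exp_Iio, one_mul]
    rw [e1, e2 (lm I _ x)]
    refine (le_lintegral_add _ _).trans (lintegral_mono fun t => ?_)
    by_cases ht : t < 0
    · have z0 : lm I ({z : Fin n → ℝ | ∀ j ∈ insert i J, 0 ≤ z j}.indicator G) (update x i t) ≤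
          lm I (fun _ => 0) (update x i t) := lm_mono fun z hz => by
        rw [indicator_of_notMem]
        intro h'
        have := h' i (Finset.mem_insert_self _ _)
        rw [hz i hiI, update_self] at this
        exact this.not_gt ht
      have z1 : lm I (fun _ => 0) (update x i t) = 0 := by simp [lm, lmarginal]
      simp only [indicator_of_mem (mem_Iio.2 ht), le_zero_iff.1 (z0.trans z1.le), add_zero]
      rw [← lm_const_mul _ _ _ ENNReal.ofReal_ne_top]
      refine lintegral_mono fun y => ?_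
      have e3 : updateFinset (update x i t) I y = update (updateFinset x I y) i t := by
        ext j
        by_cases hj : j = i
        · simp [updateFinset, hj, hiI]
        · simp [updateFinset, hj]
      simp only [e3]
      have e4 : updateFinset x I y i = 0 := by
        simp [updateFinset, hiI, hx i (Finset.mem_insert_self _ _)]
      by_cases hz : updateFinset x I y ∈ {z : Fin n → ℝ | ∀ j ∈ insert i J, 0 ≤ z j}
      · rw [indicator_of_mem hz, indicator_of_mem]
        · exact h _ i t e4 ht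
        · intro j hj
          rw [update_of_ne (ne_of_mem_of_not_mem hj hi)]
          exact hz j (Finset.mem_insert_of_mem hj)
      · rw [indicator_of_notMem hz, mul_zero]; exact zero_le
    · simp only [indicator_of_notMem (s := Iio (0 : ℝ)) ht, zero_add]
      have hsub : {z : Fin n → ℝ | ∀ j ∈ insert i J, 0 ≤ z j} ⊆ {z | ∀ j ∈ J, 0 ≤ z j} :=
        fun z hz j hj => hz j (Finset.mem_insert_of_mem hj)
      exact lm_mono fun z _ => indicator_le_indicator_of_subset hsub (fun _ => zero_le) z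

theorem decomp {φ : (Fin n → ℝ) → ℝ} (hφ : Continuous φ)
    (h : ∀ x i t, x i = 0 → t < 0 → φ (update x i t) ≤ φ x - t) :
    ∑ I, A φ I ≤ ∫⁻ y, ENNReal.ofReal (Real.exp (-φ y)) := by
  have h1 := decomp_aux (G := fun y => ENNReal.ofReal (Real.exp (-φ y))) (by fun_prop)
    (fun x i t hx ht => by
      rw [← ENNReal.ofReal_mul (Real.exp_pos _).le, ← Real.exp_add]
      exact ENNReal.ofReal_le_ofReal (Real.exp_le_exp.2 (by linarith [h x i t hx ht])))
    Finset.univ 0 (fun _ _ => rfl)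
  have e : {z : Fin n → ℝ | ∀ j ∈ Finset.univ, 0 ≤ z j} = Ici 0 := by
    ext z; simp [Pi.le_def]
  rw [e, Finset.powerset_univ] at h1
  refine h1.trans (le_of_eq ?_)
  simp [lm, volume_pi]

end Pool.Agent.MP_5f4cdd_gt.AB
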