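import Pool.Agent.MP_5f4cdd_gt.Linear

set_option autoImplicit false
open MeasureTheory ENNReal Set Matrix

namespace Pool.Agent.MP_5f4cdd_gt

variable {n : ℕ}

/-- centred barycentric coordinates -/
noncomputable def bet (n : ℕ) : E n →ₗ[ℝ] E (n + 1) where
  toFun z := Fin.cons (-∑ i, z i) z
  map_add' x y := by
    ext j
    refine Fin.cases ?_ (fun i => ?_) j
    · simp [Finset.sum_add_distrib]; ring
    · simp
  map_smul' a x := by
    ext j
    refine Fin.cases ?_ (fun i => ?_) j
    · simp [Finset.mul_sum]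
    · simp

@[simp] lemma bet_zero (z : E n) : bet n z 0 = -∑ i, z i := rfl
@[simp] lemma bet_succ (z : E n) (i : Fin n) : bet n z i.succ = z i := rfl

lemma sum_bet (z : E n) : ∑ j, bet n z j = 0 := by
  rw [Fin.sum_univ_succ]; simp

lemma continuous_bet : Continuous (bet n) := (bet n).continuous_of_finiteDimensional

lemma bet_injective : Function.Injective (bet n) := by
  intro x y h
  ext i
  simpa using congrFun h i.succ

lemma bet_tail {w : E (n + 1)} (hw : ∑ j, w j = 0) : bet n (fun i => w i.succ) = w := by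
  ext j
  refine Fin.cases ?_ (fun i => ?_) j
  · rw [Fin.sum_univ_succ] at hw
    simp only [bet_zero]; linarith
  · simp

/-- the symmetries of the centred simplex -/
noncomputable def Tp (σ : Equiv.Perm (Fin (n + 1))) : E n →ₗ[ℝ] E n where
  toFun z := fun i => bet n z (σ i.succ)
  map_add' x y := by ext i; simp
  map_smul' a x := by ext i; simp

lemma bet_Tp (σ : Equiv.Perm (Fin (n + 1))) (z : E n) : bet n (Tp σ z) = bet n z ∘ σ := by
  have : ∑ j, (bet n z ∘ σ) j = 0 := by
    simp only [Function.comp]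
    rw [Equiv.sum_comp σ (bet n z), sum_bet]
  exact bet_tail this

lemma bet_Tp_apply (σ : Equiv.Perm (Fin (n + 1))) (z : E n) (j : Fin (n + 1)) :
    bet n (Tp σ z) j = bet n z (σ j) := by rw [bet_Tp]; rfl

lemma Tp_Tp (σ τ : Equiv.Perm (Fin (n + 1))) (z : E n) : Tp σ (Tp τ z) = Tp (τ * σ) z := by
  apply bet_injective
  rw [bet_Tp, bet_Tp, bet_Tp]; rfl

lemma Tp_one (z : E n) : Tp 1 z = z := by
  apply bet_injective
  rw [bet_Tp]; rfl

lemma Tp_pow (σ : Equiv.Perm (Fin (n + 1))) (k : ℕ) : (Tp σ) ^ k = Tp (σ ^ k) := by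
  induction k with
  | zero => exact LinearMap.ext fun z => by simp [Tp_one]
  | succ k ih =>
    refine LinearMap.ext fun z => ?_
    rw [pow_succ, Module.End.mul_apply, ih, Tp_Tp, pow_succ']

lemma abs_det_Tp (σ : Equiv.Perm (Fin (n + 1))) : |LinearMap.det (Tp σ)| = 1 := by
  have h1 : (Tp σ) ^ (orderOf σ) = 1 := by
    rw [Tp_pow, pow_orderOf_eq_one]
    exact LinearMap.ext fun z => Tp_one z
  have h2 : (LinearMap.det (Tp σ)) ^ (orderOf σ) = 1 := by
    rw [← map_pow, h1, map_one]
  have h3 : |LinearMap.det (Tp σ)| ^ (orderOf σ) = 1 := by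
    rw [← abs_pow, h2, abs_one]
  exact (pow_eq_one_iff_of_nonneg (abs_nonneg _) (orderOf_pos σ).ne').1 h3

lemma measurePreserving_Tp (σ : Equiv.Perm (Fin (n + 1))) :
    MeasurePreserving (Tp σ) (volume : Measure (E n)) volume :=
  measurePreserving_lin _ (abs_det_Tp σ)

lemma det_Tp_ne (σ : Equiv.Perm (Fin (n + 1))) : LinearMap.det (Tp σ) ≠ 0 := by
  intro h; have := abs_det_Tp σ; rw [h] at this; simp at this

/-- centred simplex, dilated by `r` -/
def cS (n : ℕ) (r : ℝ) : Set (E n) := {z | ∀ j, -(r / (n + 1)) ≤ bet n z j}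

lemma Tp_mem_cS {r : ℝ} (σ : Equiv.Perm (Fin (n + 1))) {z : E n} :
    Tp σ z ∈ cS n r ↔ z ∈ cS n r := by
  constructor
  · intro h j
    have := h (σ.symm j)
    rwa [bet_Tp_apply, Equiv.apply_symm_apply] at this
  · intro h j
    rw [bet_Tp_apply]; exact h _

lemma isClosed_cS (r : ℝ) : IsClosed (cS n r) := by
  have : cS n r = ⋂ j, {z | -(r / (n + 1)) ≤ bet n z j} := by ext; simp [cS]
  rw [this]
  exact isClosed_iInter fun j =>
    isClosed_le continuous_const ((continuous_apply j).comp continuous_bet)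

lemma measurableSet_cS (r : ℝ) : MeasurableSet (cS n r) := (isClosed_cS r).measurableSet

lemma convex_cS (r : ℝ) : Convex ℝ (cS n r) := by
  intro x hx y hy a b ha hb hab j
  have h1 := mul_le_mul_of_nonneg_left (hx j) ha
  have h2 := mul_le_mul_of_nonneg_left (hy j) hb
  simp only [map_add, map_smul, Pi.add_apply, Pi.smul_apply, smul_eq_mul]
  have : -(r / (n + 1)) = a * -(r / (n + 1)) + b * -(r / (n + 1)) := by
    rw [← add_mul, hab, one_mul]
  linarith

lemma abs_bet_le {r : ℝ} (hr : 0 ≤ r) {z : E n} (hz : z ∈ cS n r) (j : Fin (n + 1)) :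
    |bet n z j| ≤ r := by
  have hn : (0 : ℝ) < n + 1 := by positivity
  have h0 : r / (n + 1) ≤ r := div_le_self hr (by linarith [(Nat.cast_nonneg n : (0:ℝ) ≤ n)])
  rw [abs_le]
  refine ⟨by linarith [hz j], ?_⟩
  have hs := sum_bet z
  rw [← Finset.add_sum_erase _ _ (Finset.mem_univ j)] at hs
  have h2 : ∑ i ∈ Finset.univ.erase j, (-(r / (n + 1))) ≤ ∑ i ∈ Finset.univ.erase j, bet n z i :=
    Finset.sum_le_sum fun i _ => hz i
  rw [Finset.sum_const, Finset.card_erase_of_mem (Finset.mem_univ j)] at h2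
  simp only [Finset.card_univ, Fintype.card_fin, add_tsub_cancel_right, nsmul_eq_mul] at h2
  have h3 : (n : ℝ) * (r / (n + 1)) ≤ r := by
    rw [← mul_div_assoc, div_le_iff₀ hn]; nlinarith
  linarith

lemma norm_le_of_mem_cS {r : ℝ} (hr : 0 ≤ r) {z : E n} (hz : z ∈ cS n r) : ‖z‖ ≤ r := by
  rw [pi_norm_le_iff_of_nonneg hr]
  intro i
  have := abs_bet_le hr hz i.succ
  simpa using this

lemma isCompact_cS {r : ℝ} (hr : 0 ≤ r) : IsCompact (cS n r) :=
  Metric.isCompact_of_isClosed_isBounded (isClosed_cS r)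
    ((Metric.isBounded_closedBall (x := (0 : E n)) (r := r)).subset fun z hz => by
      simpa using norm_le_of_mem_cS hr hz)

lemma cS_mono {r s : ℝ} (h : r ≤ s) : cS n r ⊆ cS n s := fun z hz j => by
  have hn : (0 : ℝ) < n + 1 := by positivity
  have := div_le_div_of_nonneg_right h hn.le
  linarith [hz j]

lemma smul_mem_cS {r a : ℝ} (ha : 0 < a) {z : E n} : a • z ∈ cS n (a * r) ↔ z ∈ cS n r := by
  simp only [cS, mem_ofPred_eq, map_smul, Pi.smul_apply, smul_eq_mul]
  refine forall_congr' fun j => ?_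
  rw [mul_div_assoc, ← mul_neg, mul_le_mul_iff_right₀ ha]

/-- a small cube lies in the centred simplex -/
lemma mem_cS_of_norm_le {r : ℝ} {z : E n} (hz : ‖z‖ ≤ r / (n + 1) ^ 2) : z ∈ cS n r := by
  have hn : (0 : ℝ) < n + 1 := by positivity
  have hr : 0 ≤ r / (n + 1) ^ 2 := (norm_nonneg _).trans hz
  have hi : ∀ i, |z i| ≤ r / (n + 1) ^ 2 := fun i => (norm_le_pi_norm z i).trans hz
  have hkey : (n + 1) * (r / (n + 1) ^ 2) = r / (n + 1) := by field_simp
  intro j
  refine Fin.cases ?_ (fun i => ?_) j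
  · have : ∑ i, z i ≤ ∑ _i : Fin n, r / (n + 1) ^ 2 :=
      Finset.sum_le_sum fun i _ => (le_abs_self _).trans (hi i)
    simp only [Finset.sum_const, Finset.card_univ, Fintype.card_fin, nsmul_eq_mul] at this
    simp only [bet_zero]
    nlinarith
  · have := (abs_le.1 (hi i)).1
    simp only [bet_succ]
    nlinarith [(Nat.cast_nonneg n : (0:ℝ) ≤ n)]

lemma add_mem_cS {r s : ℝ} {x y : E n} (hx : x ∈ cS n r) (hy : y ∈ cS n s) :
    x + y ∈ cS n (r + s) := fun j => by
  have h1 := hx j
  have h2 := hy j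
  simp only [map_add, Pi.add_apply, add_div]
  linarith

lemma volume_cS_pos {r : ℝ} (hr : 0 < r) : 0 < volume (cS n r) := by
  refine lt_of_lt_of_le (Metric.measure_closedBall_pos volume (0 : E n)
    (r := r / (n + 1) ^ 2) (by positivity)) (measure_mono fun z hz => ?_)
  exact mem_cS_of_norm_le (by simpa using hz)

lemma volume_cS_lt_top {r : ℝ} (hr : 0 ≤ r) : volume (cS n r) < ∞ :=
  (isCompact_cS hr).measure_lt_top

/-- the centroid of the standard simplex -/
noncomputable def cen (n : ℕ) : E n := fun _ => 1 / (n + 1)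

lemma mem_stdS_iff {x : E n} : x ∈ stdS n ↔ x - cen n ∈ cS n 1 := by
  have hn : (0 : ℝ) < n + 1 := by positivity
  have hs : ∑ i, (x - cen n) i = ∑ i, x i - n / (n + 1) := by
    simp [cen, Finset.sum_sub_distrib, div_eq_mul_inv]
  have hk : (n : ℝ) / (n + 1) + 1 / (n + 1) = 1 := by field_simp
  constructor
  · rintro ⟨h1, h2⟩ j
    refine Fin.cases ?_ (fun i => ?_) j
    · rw [bet_zero, hs]; linarith
    · simpa [cen] using h1 i
  · intro h
    refine ⟨fun i => ?_, ?_⟩
    · simpa [cen] using h i.succ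
    · have := h 0
      rw [bet_zero, hs] at this; linarith

lemma image_sub_cen : (fun z => z - cen n) '' stdS n = cS n 1 := by
  ext z
  constructor
  · rintro ⟨x, hx, rfl⟩; exact mem_stdS_iff.1 hx
  · intro hz
    exact ⟨z + cen n, mem_stdS_iff.2 (by simpa using hz), by simp⟩

lemma cen_mem_stdS : cen n ∈ stdS n := by
  rw [mem_stdS_iff, sub_self]
  exact mem_cS_of_norm_le (by simp; positivity)

end Pool.Agent.MP_5f4cdd_gt
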