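import Pool.Agent.MP_5f4cdd_gt.FlowDefs
import Pool.Agent.MP_5f4cdd_gt.DefsInf
import Pool.Agent.MP_5f4cdd_gt.Sym

set_option autoImplicit false
open MeasureTheory Set ENNReal

namespace Pool.Agent.MP_5f4cdd_gt

/-- Component (A) at `p = ∞`: local minimality of the simplex with a linear gain. -/
def StmtAinf (n : ℕ) : Prop :=
  ∃ ε κ : ℝ, 0 < ε ∧ 0 < κ ∧ ∀ K : Set (Fin n → ℝ),
    Convex ℝ K → IsCompact K → (interior K).Nonempty →
    ∀ e : AffineEquiv ℝ (Fin n → ℝ) (Fin n → ℝ), K ⊆ e '' stdS n →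
    (1 - ε) * (volume (e '' stdS n)).toReal ≤ (volume K).toReal →
    ∃ e' : AffineEquiv ℝ (Fin n → ℝ) (Fin n → ℝ), K ⊆ e' '' stdS n ∧
      ENNReal.ofReal (1 + κ * (1 - (volume K).toReal / (volume (e' '' stdS n)).toReal)) *
        mahlerInf (cS n 1) ≤ mahlerInf K

/-- Component (B): Meyer-Reisner convexity for shadow systems of polytopes, three-point form
with explicit centres. -/
def StmtB (n : ℕ) : Prop :=
  ∀ (ι : Type) [Finite ι] (x : ι → Fin n → ℝ) (a : ι → ℝ) (θ : Fin n → ℝ) (t₀ t₁ l : ℝ),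
    θ ≠ 0 → 0 < l → l < 1 →
    (interior (convexHull ℝ (range (shadowPts x a θ t₀)))).Nonempty →
    (interior (convexHull ℝ (range (shadowPts x a θ t₁)))).Nonempty →
    ∀ c ∈ interior (convexHull ℝ (range (shadowPts x a θ (l * t₀ + (1 - l) * t₁)))),
      ∃ c₀ ∈ interior (convexHull ℝ (range (shadowPts x a θ t₀))),
      ∃ c₁ ∈ interior (convexHull ℝ (range (shadowPts x a θ t₁))),
        (volume {w | ∀ i, (shadowPts x a θ (l * t₀ + (1 - l) * t₁) i - c) ⬝ᵥ w ≤ 1}).toReal⁻¹ ≤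
          l * (volume {w | ∀ i, (shadowPts x a θ t₀ i - c₀) ⬝ᵥ w ≤ 1}).toReal⁻¹ +
          (1 - l) * (volume {w | ∀ i, (shadowPts x a θ t₁ i - c₁) ⬝ᵥ w ≤ 1}).toReal⁻¹

/-- Two-sided version of `HasFlow`: there are more incidences at BOTH ends of the interval. -/
def HasFlow2 {n : ℕ} {ι κ : Type} (x : ι → Fin n → ℝ) (y : κ → Fin n → ℝ) : Prop :=
  ∃ (x' : ι → Fin n → ℝ) (a : ι → ℝ) (θ : Fin n → ℝ) (δ τ α β : ℝ),
    0 < δ ∧ 0 < τ ∧ θ ≠ 0 ∧ convexHull ℝ (range x') = convexHull ℝ (range x) ∧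
    ∀ t ∈ Icc (-δ) τ,
      (volume (convexHull ℝ (range (shadowPts x' a θ t)))).toReal = α + β * t ∧
      (interior (convexHull ℝ (range (shadowPts x' a θ t)))).Nonempty ∧
      ∀ c ∈ interior (convexHull ℝ (range (shadowPts x' a θ t))),
        ∃ y' : κ → Fin n → ℝ, DualPair (fun i => shadowPts x' a θ t i - c) y' ∧
          (t = τ ∨ t = -δ → nInc x y < nInc (fun i => shadowPts x' a θ t i - c) y')

/-- Components (C), (D), two-sided form. -/
def StmtCD2 : Prop :=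
  ∀ (ι κ : Type) [Finite ι] [Finite κ] (x : ι → Fin 3 → ℝ) (y : κ → Fin 3 → ℝ), DualPair x y →
    (∃ e : AffineEquiv ℝ (Fin 3 → ℝ) (Fin 3 → ℝ), convexHull ℝ (range x) = e '' stdS 3) ∨
      HasFlow2 x y ∨ HasFlow2 y x

/-- Components (C), (D), one-sided form. -/
def StmtCD : Prop :=
  ∀ (ι κ : Type) [Finite ι] [Finite κ] (x : ι → Fin 3 → ℝ) (y : κ → Fin 3 → ℝ), DualPair x y →
    (∃ e : AffineEquiv ℝ (Fin 3 → ℝ) (Fin 3 → ℝ), convexHull ℝ (range x) = e '' stdS 3) ∨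
      HasFlow x y ∨ HasFlow y x

end Pool.Agent.MP_5f4cdd_gt
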