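import Pool.Agent.MP_5f4cdd_gt.FlowMain
import Pool.Agent.MP_5f4cdd_gt.EFDefs

set_option autoImplicit false
open MeasureTheory Set Filter Topology
open scoped ENNReal

namespace Pool.Agent.MP_5f4cdd_gt

variable {n : ℕ} {ι κ : Type}
variable {x : ι → Fin n → ℝ} {y : κ → Fin n → ℝ} {θ : Fin n → ℝ} {a : ι → ℝ}
  {w : κ → Fin n → ℝ} {g : κ → ℝ}

theorem Adm.hasFlow2_of_both [Fintype ι] [Finite κ] [Nonempty κ] (h : Adm x y θ a w g)
    (ha : ¬ TrivSpeed x a) (hneg : ∃ i j, g j + w j ⬝ᵥ x i - a i * (y j ⬝ᵥ θ) < 0)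
    (hpos : ∃ i j, 0 < g j + w j ⬝ᵥ x i - a i * (y j ⬝ᵥ θ)) :
    HasFlow2 x y := by
  classical
  set σ : ι × κ → ℝ := fun p => g p.2 + w p.2 ⬝ᵥ x p.1 - a p.1 * (y p.2 ⬝ᵥ θ) with hσ
  set s : ι × κ → ℝ := fun p => 1 - y p.2 ⬝ᵥ x p.1 with hs
  have hs0 : ∀ p, 0 ≤ s p := fun p => sub_nonneg.mpr (h.dot_le p.1 p.2)
  have hsσ : ∀ p, s p = 0 → σ p = 0 := fun p hp => by
    have := h.hinc p.1 p.2 (by simp only [hs] at hp; linarith)
    simp only [hσ]; linarith
  have hspos : ∀ p, σ p ≠ 0 → 0 < s p := fun p hp =>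
    lt_of_le_of_ne (hs0 p) fun h0 => hp (hsσ p h0.symm)
  obtain ⟨p0, hp0, hmin⟩ := Set.exists_min_image {p | σ p < 0} (fun p => s p / -σ p)
    (toFinite _) (by obtain ⟨i, j, hij⟩ := hneg; exact ⟨(i, j), hij⟩)
  obtain ⟨p1, hp1, hmin1⟩ := Set.exists_min_image {p | 0 < σ p} (fun p => s p / σ p)
    (toFinite _) (by obtain ⟨i, j, hij⟩ := hpos; exact ⟨(i, j), hij⟩)
  have hp0' : σ p0 < 0 := hp0
  have hp1' : 0 < σ p1 := hp1
  set τ := s p0 / -σ p0 with hτ
  set δ := s p1 / σ p1 with hδdef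
  have hτpos : 0 < τ := div_pos (hspos _ hp0'.ne) (by linarith)
  have hδ : 0 < δ := div_pos (hspos _ hp1'.ne') hp1'
  have hslack : ∀ t ∈ Icc (-δ) τ, ∀ p, 0 ≤ s p + t * σ p := by
    intro t ht p
    rcases lt_trichotomy (σ p) 0 with hlt | heq | hgt
    · have e1 : τ ≤ s p / -σ p := hmin p hlt
      rw [le_div_iff₀ (by linarith)] at e1
      nlinarith [ht.2]
    · rw [heq]; simpa using hs0 p
    · have e1 : δ ≤ s p / σ p := hmin1 p hgt
      rw [le_div_iff₀ hgt] at e1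
      nlinarith [ht.1]
  have hgood : ∀ t ∈ Icc (-δ) τ, t ∈ goodT x y θ a w g := by
    intro t ht i j
    have e1 := h.slack t i j
    have e2 := hslack t ht (i, j)
    simp only [hs, hσ] at e2
    linarith
  have hsum : 0 < τ + δ := by linarith
  set V0 := (volume (movA x a θ (-δ))).toReal
  set V1 := (volume (movA x a θ τ)).toReal
  have hint0 : (interior (convexHull ℝ (range x))).Nonempty := by
    rw [h.hP]
    exact ⟨0, mem_interior_of_lt (b := fun _ => 1) fun j => by simp⟩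
  refine ⟨x, a, θ, δ, τ, V0 + δ * ((V1 - V0) / (τ + δ)), (V1 - V0) / (τ + δ), hδ, hτpos, h.hθ, rfl,
    fun t ht => ⟨?_, interior_shadow_nonempty hint0 ha θ t, fun c hc => ?_⟩⟩
  · have hp : 0 ≤ (τ - t) / (τ + δ) := div_nonneg (by linarith [ht.2]) hsum.le
    have hq : 0 ≤ (t + δ) / (τ + δ) := div_nonneg (by linarith [ht.1]) hsum.le
    have := h.volume_affine (hgood _ ⟨le_rfl, by linarith⟩) (hgood _ ⟨by linarith, le_rfl⟩)
      (hgood t ht) hp hq (by field_simp; ring) (by field_simp; ring)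
    change (volume (movA x a θ t)).toReal = _
    have f0 : volume (movA x a θ (-δ)) ≠ ⊤ := (isCompact_hull _).measure_lt_top.ne
    have f1 : volume (movA x a θ τ) ≠ ⊤ := (isCompact_hull _).measure_lt_top.ne
    rw [this, ENNReal.toReal_add (ENNReal.mul_ne_top ENNReal.ofReal_ne_top f0)
      (ENNReal.mul_ne_top ENNReal.ofReal_ne_top f1), ENNReal.toReal_mul, ENNReal.toReal_mul,
      ENNReal.toReal_ofReal hp, ENNReal.toReal_ofReal hq]
    change _ * V0 + _ * V1 = _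
    field_simp
    ring
  · have hopp : ∃ r : ℝ, 0 < r ∧ -(r * t) ∈ goodT x y θ a w g := by
      have hm : 0 < min δ τ := lt_min hδ hτpos
      refine ⟨min δ τ / (τ + δ), div_pos hm hsum, hgood _ ⟨?_, ?_⟩⟩
      · rw [neg_le_neg_iff, div_mul_eq_mul_div, div_le_iff₀ hsum]
        nlinarith [min_le_left δ τ, ht.2]
      · rw [neg_le, div_mul_eq_mul_div, le_div_iff₀ hsum]
        nlinarith [min_le_right δ τ, ht.1]
    have hAB := h.movA_eq_movB (hgood t ht) hopp ⟨c, hc⟩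
    obtain ⟨y', hy1, hy2⟩ := exists_dualPair_sub (x := shadowPts x a θ t)
      (y := fun j => y j - t • w j) (b := fun j => 1 + t * g j) hAB (h.nondeg t) hc
    refine ⟨y', hy1, fun htτ => ?_⟩
    have hiff : ∀ p : ι × κ, (shadowPts x a θ t p.1 - c) ⬝ᵥ y' p.2 = 1 ↔ s p + t * σ p = 0 := by
      intro p
      rw [hy2]
      have e1 := h.slack t p.1 p.2
      simp only [hs, hσ]
      constructor <;> intro e <;> linarith
    obtain ⟨q, hq1, hq2⟩ : ∃ q, s q + t * σ q = 0 ∧ σ q ≠ 0 := by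
      rcases htτ with e | e
      · refine ⟨p0, ?_, hp0'.ne⟩
        rw [e, hτ]
        have := hp0'.ne
        field_simp
        ring
      · refine ⟨p1, ?_, hp1'.ne'⟩
        rw [e, hδdef]
        have := hp1'.ne'
        field_simp
        ring
    unfold nInc
    refine Set.ncard_lt_ncard ⟨fun p hp => ?_, fun hsub => ?_⟩
    · rw [mem_ofPred_eq, hiff]
      have e1 : s p = 0 := by
        rw [mem_ofPred_eq, dotProduct_comm] at hp
        simp only [hs]; linarith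
      rw [e1, hsσ p e1]; simp
    · have e2 := hsub ((hiff q).mpr hq1)
      rw [mem_ofPred_eq, dotProduct_comm] at e2
      have e3 := hspos q hq2
      simp only [hs] at e3
      linarith

open Classical in
theorem Adm.add_dil (h : Adm x y θ a w g) {v : Fin n → ℝ} (hv : v ⬝ᵥ θ = 1) (c : ℝ) :
    Adm x y θ (fun i => a i + c * (v ⬝ᵥ x i))
      (fun j => w j + if y j ⬝ᵥ θ = 0 then 0 else c • ((y j ⬝ᵥ θ) • v - y j))
      (fun j => g j + if y j ⬝ᵥ θ = 0 then 0 else c) where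
  hP := h.hP
  hθ := h.hθ
  hw := fun j => by
    split_ifs with hj
    · simp [h.hw j]
    · simp [h.hw j, hv, sub_dotProduct]
  hinc := fun i j hij => by
    have := h.hinc i j hij
    split_ifs with hj
    · rw [hj] at this ⊢; simpa using this
    · simp only [add_dotProduct, smul_dotProduct, sub_dotProduct, smul_eq_mul, hij]
      linarith
  hpar := fun j hj => by simp [hj, h.hpar j hj]

theorem Adm.hasFlow2 [Finite ι] [Finite κ] [Nonempty κ] (h : Adm x y θ a w g)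
    (ha : ¬ TrivSpeed x a) : HasFlow2 x y := by
  classical
  have := Fintype.ofFinite ι
  obtain ⟨v, hv⟩ : ∃ v : Fin n → ℝ, v ⬝ᵥ θ = 1 := by
    have h3 : θ ⬝ᵥ θ ≠ 0 := fun h0 => h.hθ (dotProduct_self_eq_zero.mp h0)
    exact ⟨(θ ⬝ᵥ θ)⁻¹ • θ, by rw [smul_dotProduct, smul_eq_mul, inv_mul_cancel₀ h3]⟩
  set σ : ι × κ → ℝ := fun p => g p.2 + w p.2 ⬝ᵥ x p.1 - a p.1 * (y p.2 ⬝ᵥ θ) with hσ
  set s : ι × κ → ℝ := fun p => 1 - y p.2 ⬝ᵥ x p.1 with hs
  have hs0 : ∀ p, 0 ≤ s p := fun p => sub_nonneg.mpr (h.dot_le p.1 p.2)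
  have hsσ : ∀ p, s p = 0 → σ p = 0 := fun p hp => by
    have := h.hinc p.1 p.2 (by simp only [hs] at hp; linarith)
    simp only [hσ]; linarith
  have hnt : ∀ c : ℝ, ¬ TrivSpeed x (fun i => a i + c * (v ⬝ᵥ x i)) := by
    rintro c ⟨u, d, hu⟩
    refine ha ⟨u - c • v, d, fun i => ?_⟩
    have := hu i
    simp only [sub_dotProduct, smul_dotProduct, smul_eq_mul] at this ⊢
    linarith
  have hslope : ∀ (c : ℝ) (i : ι) (j : κ),
      (g j + if y j ⬝ᵥ θ = 0 then 0 else c) +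
        (w j + if y j ⬝ᵥ θ = 0 then 0 else c • ((y j ⬝ᵥ θ) • v - y j)) ⬝ᵥ x i -
        (a i + c * (v ⬝ᵥ x i)) * (y j ⬝ᵥ θ) =
      if y j ⬝ᵥ θ = 0 then 0 else σ (i, j) + c * s (i, j) := by
    intro c i j
    split_ifs with hj
    · simp [hj, (h.hpar j hj).1, (h.hpar j hj).2]
    · simp only [hσ, hs, add_dotProduct, smul_dotProduct, sub_dotProduct, smul_eq_mul]
      ring
  -- for every `c` there is a non-parallel, non-incident pair whose ratio is not `c`
  have hex : ∀ c : ℝ, ∃ p : ι × κ, y p.2 ⬝ᵥ θ ≠ 0 ∧ 0 < s p ∧ σ p / s p ≠ c := by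
    intro c
    obtain ⟨i, j, hij⟩ := (h.add_dil hv (-c)).exists_slope_ne (hnt _)
    rw [hslope] at hij
    split_ifs at hij with hj
    · exact absurd rfl hij
    · have hsp : 0 < s (i, j) := lt_of_le_of_ne (hs0 _) fun h0 => hij (by
        rw [← h0, hsσ _ h0.symm]; simp)
      refine ⟨(i, j), hj, hsp, fun e => hij ?_⟩
      rw [div_eq_iff hsp.ne'] at e
      linarith
  obtain ⟨p, hp1, hp2, -⟩ := hex 0
  obtain ⟨q, hq1, hq2, hq3⟩ := hex (σ p / s p)
  have key : ∀ p q : ι × κ, y p.2 ⬝ᵥ θ ≠ 0 → 0 < s p → y q.2 ⬝ᵥ θ ≠ 0 → 0 < s q →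
      σ p / s p < σ q / s q → HasFlow2 x y := by
    intro p q hp1 hp2 hq1 hq2 hlt
    refine (h.add_dil hv (-((σ p / s p + σ q / s q) / 2))).hasFlow2_of_both (hnt _)
      ⟨p.1, p.2, ?_⟩ ⟨q.1, q.2, ?_⟩
    · rw [hslope, if_neg hp1]
      have e : σ p = σ p / s p * s p := by field_simp
      change σ p + _ * s p < 0
      nlinarith
    · rw [hslope, if_neg hq1]
      have e : σ q = σ q / s q * s q := by field_simp
      change 0 < σ q + _ * s q
      nlinarith
  rcases lt_or_gt_of_ne hq3 with hlt | hgt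
  · exact key q p hq1 hq2 hp1 hp2 hlt
  · exact key p q hp1 hp2 hq1 hq2 hgt

theorem hasFlow2_of_admissible [Finite ι] [Finite κ] (h : DualPair x y) (hθ : θ ≠ 0)
    (hadm : ∀ j, y j ⬝ᵥ θ ≠ 0 → ∃ u : Fin n → ℝ, ∀ i, y j ⬝ᵥ x i = 1 → a i = u ⬝ᵥ x i)
    (ha : ¬ TrivSpeed x a) : HasFlow2 x y := by
  classical
  have := h.symm.nonempty_left
  choose! u hu using hadm
  refine Adm.hasFlow2 (θ := θ) (a := a)
    (w := fun j => if y j ⬝ᵥ θ = 0 then 0 else (y j ⬝ᵥ θ) • u j - (u j ⬝ᵥ θ) • y j)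
    (g := fun j => if y j ⬝ᵥ θ = 0 then 0 else u j ⬝ᵥ θ) ⟨h.1, hθ, ?_, ?_, ?_⟩ ha
  · intro j
    split_ifs with hj
    · simp
    · simp only [sub_dotProduct, smul_dotProduct, smul_eq_mul]; ring
  · intro i j hij
    split_ifs with hj
    · simp [hj]
    · simp only [sub_dotProduct, smul_dotProduct, smul_eq_mul, hij, hu j hj i hij]; ring
  · intro j hj
    simp [hj]

theorem HasFlow2.mono {x' : ι → Fin n → ℝ} {y' : κ → Fin n → ℝ} (h : HasFlow2 x' y')
    (hx : convexHull ℝ (range x') = convexHull ℝ (range x)) (hinc : nInc x y ≤ nInc x' y') :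
    HasFlow2 x y := by
  obtain ⟨x'', a, θ, δ, τ, α, β, h1, h2, h3, h4, h5⟩ := h
  refine ⟨x'', a, θ, δ, τ, α, β, h1, h2, h3, h4.trans hx, fun t ht => ⟨(h5 t ht).1, (h5 t ht).2.1,
    fun c hc => ?_⟩⟩
  obtain ⟨y'', e1, e2⟩ := (h5 t ht).2.2 c hc
  exact ⟨y'', e1, fun h => hinc.trans_lt (e2 h)⟩

theorem rigid_of_not_hasFlow2 [Finite ι] [Finite κ] (h : DualPair x y) (hno : ¬ HasFlow2 x y) :
    Rigid x y :=
  fun _ _ hθ hadm => by_contra fun ha => hno (hasFlow2_of_admissible h hθ hadm ha)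

theorem stmtCD : StmtCD := fun _ _ _ _ _ _ h => flow_or_simplex h

theorem stmtCD2 : StmtCD2 := by
  intro ι κ _ _ x y h
  obtain ⟨x', y', h', hx, hy, hinc, ex, ey⟩ := exists_extreme_pair h
  by_cases f1 : HasFlow2 x' y'
  · exact Or.inr (Or.inl (f1.mono hx hinc))
  by_cases f2 : HasFlow2 y' x'
  · exact Or.inr (Or.inr (f2.mono hy (by rwa [nInc_comm, nInc_comm x' y'])))
  left
  have r1 := rigid_of_not_hasFlow2 h' f1
  have r2 := rigid_of_not_hasFlow2 h'.symm f2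
  have := (finite_range x').fintype
  have := (finite_range y').fintype
  have e1 : range (Subtype.val : range x' → Fin 3 → ℝ) = range x' := Subtype.range_coe
  have e2 : range (Subtype.val : range y' → Fin 3 → ℝ) = range y' := Subtype.range_coe
  have hd : DualPair (Subtype.val : range x' → Fin 3 → ℝ) (Subtype.val : range y' → Fin 3 → ℝ) :=
    ((h'.of_hull_eq (by rw [e1])).symm.of_hull_eq (by rw [e2])).symm
  have hc := card_le_four hd Subtype.val_injective Subtype.val_injective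
    (by rintro ⟨_, i, rfl⟩; rw [e1]; exact ex i) (by rintro ⟨_, j, rfl⟩; rw [e2]; exact ey j)
    (Rigid.of_comp (f := rangeFactorization x') (g := rangeFactorization y')
      rangeFactorization_surjective r1)
    (Rigid.of_comp (f := rangeFactorization y') (g := rangeFactorization x')
      rangeFactorization_surjective r2)
  obtain ⟨e, he⟩ := simplex_of_card_le (n := 3) hc ⟨0, hd.zero_mem_interior⟩
  exact ⟨e, by rw [← hx, ← he, e1]⟩

end Pool.Agent.MP_5f4cdd_gt
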