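import Pool.Agent.MP_5f4cdd_gt.EFPolar
import Pool.Agent.MP_5f4cdd_gt.FlowTwo

set_option autoImplicit false
open MeasureTheory Set ENNReal Topology Filter Matrix Bornology

namespace Pool.Agent.MP_5f4cdd_gt.EF

open PL

variable {n : ℕ}

lemma mahlerInf_polar {L : Set (E n)} (hL : IsBounded L) (h0 : (0 : E n) ∈ L) :
    mahlerInf L = (n.factorial : ℝ≥0∞) * (volume L * volume (polarS L)) := by
  rw [PL.mahlerInf_eq, lintegral_expS hL h0, mul_left_comm]

lemma mem_interior_of_ne_top {K : Set (E n)} (hK : Convex ℝ K) (hb : IsBounded K)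
    (hi : (interior K).Nonempty) {c : E n} (h : mahlerInf ((fun z => z - c) '' K) ≠ ∞) :
    c ∈ interior K := by
  by_contra hc
  rw [PL.mahlerInf_eq, lintegral_expS_eq_top hK hb hi hc, volume_sub,
    ENNReal.mul_top (Measure.measure_pos_of_nonempty_interior _ hi).ne'] at h
  exact h rfl

lemma mahler_symm {ι κ : Type} [Finite ι] [Finite κ] {x : ι → E n} {y : κ → E n}
    (h : DualPair x y) :
    mahlerInf (convexHull ℝ (range y)) = mahlerInf (convexHull ℝ (range x)) := by
  rw [mahlerInf_polar (isCompact_hull x).isBounded (interior_subset h.zero_mem_interior),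
    mahlerInf_polar (isCompact_hull y).isBounded (interior_subset h.symm.zero_mem_interior),
    polarS, polarS, h.polar_eq, h.symm.polar_eq, mul_comm (volume _)]

lemma near_sub_iff {ε : ℝ} (hε : ε < 1) (K : Set (E n)) (c : E n) :
    Near ε ((fun z => z - c) '' K) ↔ Near ε K := by
  constructor
  · intro h
    have := h.image (AffineEquiv.constVAdd ℝ (E n) c) hε
    rw [image_image] at this
    simpa using this
  · intro h
    have := h.image (AffineEquiv.constVAdd ℝ (E n) (-c)) hε
    simp only [sub_eq_neg_add]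
    exact this

lemma convex_sub {K : Set (E n)} (hK : Convex ℝ K) (c : E n) :
    Convex ℝ ((fun z => z - c) '' K) := by
  simpa only [sub_eq_neg_add] using hK.translate (-c)

lemma step {ε ε' : ℝ} {μ : ℝ≥0∞} (hεε' : ε < ε') (hε' : ε' < 1)
    (moat : ∀ K : Set (E n), Convex ℝ K → IsCompact K → (interior K).Nonempty →
      mahlerInf K < μ → Near ε' K → Near ε K)
    {ι κ : Type} [Finite ι] [Finite κ] {x : ι → E n} {y : κ → E n} (h : DualPair x y)
    (hf : HasFlow2 x y) (hM : mahlerInf (convexHull ℝ (range x)) < μ)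
    (hN : ¬ Near ε' (convexHull ℝ (range x))) :
    ∃ (x' : ι → E n) (y' : κ → E n), DualPair x' y' ∧ mahlerInf (convexHull ℝ (range x')) < μ ∧
      ¬ Near ε' (convexHull ℝ (range x')) ∧ nInc x y < nInc x' y' := by
  obtain ⟨z, a, θ, δ, τ, α, β, hδ, hτ, hθ, hz, hfl⟩ := hf
  have := h.nonempty_left
  have hP0 : convexHull ℝ (range (shadowPts z a θ 0)) = convexHull ℝ (range x) := by
    rw [← hz]; congr 2; ext i; simp [shadowPts]
  have hM0 : mstarInf (convexHull ℝ (range (shadowPts z a θ 0))) < μ := by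
    refine lt_of_le_of_lt ((iInf_le _ 0).trans (le_of_eq ?_)) hM
    rw [hP0]; simp
  have key : ∀ T, (T = τ ∨ T = -δ) → T ∈ Icc (-δ) τ →
      (∀ t ∈ uIcc 0 T, mstarInf (convexHull ℝ (range (shadowPts z a θ t))) < μ) →
      ∃ (x' : ι → E n) (y' : κ → E n), DualPair x' y' ∧ mahlerInf (convexHull ℝ (range x')) < μ ∧
        ¬ Near ε' (convexHull ℝ (range x')) ∧ nInc x y < nInc x' y' := by
    intro T hT hT' hlt
    have hsub : uIcc 0 T ⊆ Icc (-δ) τ := uIcc_subset_Icc ⟨by linarith, hτ.le⟩ hT'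
    have hc : ∀ t ∈ uIcc 0 T, ∃ c ∈ interior (convexHull ℝ (range (shadowPts z a θ t))),
        mahlerInf ((fun w => w - c) '' convexHull ℝ (range (shadowPts z a θ t))) < μ := by
      intro t ht
      obtain ⟨c, hc⟩ := iInf_lt_iff.1 (hlt t ht)
      exact ⟨c, mem_interior_of_ne_top (convex_convexHull ℝ _) (isCompact_hull _).isBounded
        (hfl t (hsub ht)).2.1 hc.ne_top, hc⟩
    have hN' : ¬ Near ε' (convexHull ℝ (range (shadowPts z a θ T))) := fun hn => hN (by
      rw [← hP0]
      refine near_flow z a θ isPreconnected_uIcc (fun t ht => (hfl t (hsub ht)).2.1) hεε' hε'.le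
        (fun t ht h1 => ?_) right_mem_uIcc left_mem_uIcc hn
      obtain ⟨c, hc1, hc2⟩ := hc t ht
      rw [← near_sub_iff (hεε'.trans hε') _ c]
      exact moat _ (convex_sub (convex_convexHull ℝ _) c) ((isCompact_hull _).image (by fun_prop))
        ⟨0, zero_mem_interior_sub hc1⟩ hc2 ((near_sub_iff hε' _ c).2 h1))
    obtain ⟨c, hc1, hc2⟩ := hc T right_mem_uIcc
    obtain ⟨y', hy1, hy2⟩ := (hfl T hT').2.2 c hc1
    refine ⟨_, y', hy1, ?_, ?_, hy2 hT⟩
    · rwa [hull_sub]
    · rwa [hull_sub, near_sub_iff hε']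
  by_cases h1 : ∀ t ∈ uIcc 0 (-δ), mstarInf (convexHull ℝ (range (shadowPts z a θ t))) < μ
  · exact key _ (Or.inr rfl) ⟨le_rfl, by linarith⟩ h1
  · refine key _ (Or.inl rfl) ⟨by linarith, le_rfl⟩ fun t ht => ?_
    push Not at h1
    obtain ⟨s, hs, hs'⟩ := h1
    rw [uIcc_of_ge (by linarith)] at hs
    rw [uIcc_of_le hτ.le] at ht
    have hs0 : s < 0 := lt_of_le_of_ne hs.2 (by rintro rfl; exact absurd hM0 (not_lt.2 hs'))
    rcases ht.1.eq_or_lt with rfl | ht0
    · exact hM0
    refine lt_of_le_of_lt (flow_le z a hθ (δ := -s) (A := α) (B := β) (by linarith) ht0 ?_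
      hM0.ne_top ?_ le_rfl) hM0
    · intro r hr
      refine (hfl r ?_).1
      simp only [neg_neg, mem_insert_iff, mem_singleton_iff] at hr
      rcases hr with rfl | rfl | rfl
      · exact ⟨hs.1, by linarith⟩
      · exact ⟨by linarith, hτ.le⟩
      · exact ⟨by linarith, ht.2⟩
    · rw [neg_neg]; exact hM0.le.trans hs'

/-- every polytope of small volume product is close to a simplex -/
theorem descent {ε ε' : ℝ} {μ : ℝ≥0∞} (h0 : 0 ≤ ε') (hεε' : ε < ε') (hε' : ε' < 1)
    (moat : ∀ K : Set (E 3), Convex ℝ K → IsCompact K → (interior K).Nonempty →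
      mahlerInf K < μ → Near ε' K → Near ε K)
    (hpol : ∀ K : Set (E 3), Convex ℝ K → IsCompact K → 0 ∈ interior K →
      mahlerInf K < μ → Near ε K → Near ε' (polarS K))
    (k : ℕ) : ∀ (ι κ : Type) [Finite ι] [Finite κ] (x : ι → E 3) (y : κ → E 3),
      Nat.card ι * Nat.card κ - nInc x y = k → DualPair x y →
      mahlerInf (convexHull ℝ (range x)) < μ → Near ε' (convexHull ℝ (range x)) := by
  induction k using Nat.strong_induction_on with
  | _ k ih =>
    intro ι κ _ _ x y hk h hM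
    by_contra hN
    rcases stmtCD2 ι κ x y h with ⟨e, he⟩ | hf | hf
    · exact hN (he ▸ (near_simplex e).mono h0)
    · obtain ⟨x', y', a1, a2, a3, a4⟩ := step hεε' hε' moat h hf hM hN
      have := nInc_le x' y'
      exact a3 (ih _ (by omega) ι κ x' y' rfl a1 a2)
    · have hM' : mahlerInf (convexHull ℝ (range y)) < μ := by rwa [mahler_symm h]
      have hN' : ¬ Near ε' (convexHull ℝ (range y)) := fun hn => hN (by
        have := hpol _ (convex_convexHull ℝ _) (isCompact_hull y) h.symm.zero_mem_interior hM'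
          (moat _ (convex_convexHull ℝ _) (isCompact_hull y) ⟨0, h.symm.zero_mem_interior⟩ hM' hn)
        rwa [polarS, h.symm.polar_eq] at this)
      obtain ⟨y', x', a1, a2, a3, a4⟩ := step hεε' hε' moat h.symm hf hM' hN'
      have := nInc_le y' x'
      rw [nInc_comm x y] at a4
      refine a3 (ih _ ?_ κ ι y' x' rfl a1 a2)
      rw [mul_comm] at this ⊢
      omega

end Pool.Agent.MP_5f4cdd_gt.EF
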