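import Pool.Agent.MP_5f4cdd_gt.ABComb
import Pool.Agent.MP_5f4cdd_gt.ABFlux
import Pool.Agent.MP_5f4cdd_gt.EFDescent
import Pool.Agent.MP_5f4cdd_gt.Inf

set_option autoImplicit false
open MeasureTheory ENNReal Set Filter Topology Function Matrix Pointwise

namespace Pool.Agent.MP_5f4cdd_gt.AB

open PL EF

variable {n : ℕ}

/-- anti-blocking sets -/
structure AntiB (L : Set (E n)) : Prop where
  conv : Convex ℝ L
  comp : IsCompact L
  nonneg : ∀ x ∈ L, 0 ≤ x
  down : ∀ x ∈ L, ∀ y, 0 ≤ y → y ≤ x → y ∈ L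

lemma layer {g : E n → ℝ} (hg : Continuous g) (g0 : ∀ z, 0 ≤ z → 0 ≤ g z) {L : Set (E n)}
    (h : ∀ s : ℝ, 0 < s → {z | 0 ≤ z ∧ g z ≤ s} = s • L) :
    ∫⁻ z, pos g z = (n.factorial : ℝ≥0∞) * volume L := by
  have hm := hg.measurable
  have e0 : ∀ z, pos g z = ∫⁻ s in Ioi (0 : ℝ), {q : E n × ℝ | 0 ≤ q.1 ∧ g q.1 ≤ q.2}.indicator
      (fun q => ENNReal.ofReal (Real.exp (-q.2))) (z, s) := by
    intro z
    by_cases hz : 0 ≤ z
    · rw [pos, indicator_of_mem (mem_Ici.2 hz), exp_neg_eq (g0 z hz)]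
      simp only [indicator, mem_Ici, mem_ofPred_eq, hz, true_and]
    · simp [pos, indicator, hz]
  have hq : MeasurableSet {q : E n × ℝ | 0 ≤ q.1 ∧ g q.1 ≤ q.2} :=
    (measurableSet_le measurable_const measurable_fst).inter
      (measurableSet_le (hm.comp measurable_fst) measurable_snd)
  simp only [e0]
  rw [lintegral_lintegral_swap]
  · rw [← lintegral_gamma, ← lintegral_mul_const _ (by fun_prop)]
    refine setLIntegral_congr_fun measurableSet_Ioi fun s hs => ?_
    have hs' : 0 < s := hs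
    have e : ∀ y, {q : E n × ℝ | 0 ≤ q.1 ∧ g q.1 ≤ q.2}.indicator
        (fun q => ENNReal.ofReal (Real.exp (-q.2))) (y, s) =
        {y | 0 ≤ y ∧ g y ≤ s}.indicator (fun _ => ENNReal.ofReal (Real.exp (-s))) y := fun y => by
      simp only [indicator, mem_ofPred_eq]
    simp only [e]
    have hms : MeasurableSet {y : E n | 0 ≤ y ∧ g y ≤ s} :=
      (measurableSet_le measurable_const measurable_id).inter (measurableSet_le hm measurable_const)
    rw [lintegral_indicator hms, setLIntegral_const,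
      h s hs', Measure.addHaar_smul, ENNReal.ofReal_mul (Real.exp_pos _).le, mul_assoc]
    simp [abs_of_pos hs']
  · exact (Measurable.indicator (by fun_prop) hq).aemeasurable

lemma volume_simplex : (n.factorial : ℝ) * (volume (stdS n)).toReal = 1 := by
  have h := layer (g := fun z : E n => ∑ i, z i) (by fun_prop)
    (fun z hz => Finset.sum_nonneg fun i _ => hz i) (L := stdS n) (fun s hs => by
      ext z
      rw [mem_smul_set_iff_inv_smul_mem₀ hs.ne']
      simp only [stdS, mem_ofPred_eq, Pi.smul_apply, smul_eq_mul, ← Finset.mul_sum,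
        inv_mul_le_iff₀ hs, mul_one, mul_nonneg_iff_of_pos_left (inv_pos.2 hs), Pi.le_def,
        Pi.zero_apply])
  set f : ℝ → ℝ := (Ici (0 : ℝ)).indicator fun t => Real.exp (-t) with hf
  have fi : Integrable f := by
    rw [hf, integrable_indicator_iff measurableSet_Ici, integrableOn_Ici_iff_integrableOn_Ioi]
    exact integrableOn_exp_neg_Ioi 0
  have f1 : ∫ t, f t = 1 := by
    rw [hf, integral_indicator measurableSet_Ici, integral_Ici_eq_integral_Ioi,
      integral_exp_neg_Ioi_zero]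
  have f0 : ∀ t, 0 ≤ f t := fun t => indicator_nonneg (fun _ _ => (Real.exp_pos _).le) t
  have e : ∀ z : E n, pos (fun z : E n => ∑ i, z i) z = ENNReal.ofReal (∏ i, f (z i)) := by
    intro z
    by_cases hz : 0 ≤ z
    · rw [pos, indicator_of_mem (mem_Ici.2 hz), ← Finset.sum_neg_distrib, Real.exp_sum]
      congr 1
      exact Finset.prod_congr rfl fun i _ => by
        rw [hf, indicator_of_mem (s := Ici (0 : ℝ)) (hz i)]
    · obtain ⟨i, hi⟩ : ∃ i, ¬ 0 ≤ z i := by simpa [Pi.le_def] using hz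
      rw [pos, indicator_of_notMem (s := Ici 0) hz, Finset.prod_eq_zero (Finset.mem_univ i)
        (by rw [hf, indicator_of_notMem (s := Ici 0) hi]), ENNReal.ofReal_zero]
  simp only [e] at h
  rw [← ofReal_integral_eq_lintegral_ofReal
    (by rw [volume_pi]; exact Integrable.fintype_prod (f := fun _ => f) fun _ => fi)
    (Eventually.of_forall fun z => Finset.prod_nonneg fun i _ => f0 _),
    integral_fintype_prod_volume_eq_pow, f1, one_pow] at h
  have := congrArg ENNReal.toReal h
  simpa using this.symm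

lemma mahlerInf_cS_le : (n.factorial : ℝ) * (mahlerInf (cS n 1)).toReal ≤ (n + 1) ^ (n + 1) := by
  have h1 : ∑ i, cen n i = n / (n + 1) := by simp [cen, div_eq_mul_inv]
  have h2 : (0 : ℝ) < n + 1 := by positivity
  obtain ⟨g, hg, hv⟩ := polar_simplex (x := cen n) (fun i => by simp only [cen]; positivity)
    (by rw [h1, div_lt_one h2]; linarith)
  have hsub : polarS (cS n 1) ⊆ g '' stdS n := by
    intro w hw
    rw [← image_sub_cen] at hw
    refine (hg w).2 ⟨fun i => ?_, ?_⟩
    · have := hw _ (mem_image_of_mem _ (show Pi.single i 1 ∈ stdS n from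
        ⟨fun j => by rw [Pi.single_apply]; split_ifs <;> norm_num, by simp⟩))
      simpa [sub_dotProduct] using this
    · have := hw _ (mem_image_of_mem _ (show 0 ∈ stdS n from ⟨fun j => le_rfl, by simp⟩))
      simpa using this
  have hgt : volume (g '' stdS n) ≠ ∞ := by
    rw [volume_image_affine]
    exact ENNReal.mul_ne_top ENNReal.ofReal_ne_top volume_stdS_ne_top
  have h3 := ENNReal.toReal_mono hgt (measure_mono hsub)
  have h4 : (volume (g '' stdS n)).toReal = (n + 1) ^ (n + 1) * (volume (stdS n)).toReal := by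
    rw [← hv, h1]
    simp only [cen, Finset.prod_const, Finset.card_univ, Fintype.card_fin, one_div, inv_pow]
    field_simp
    ring
  rw [mahlerInf_polar (isCompact_cS zero_le_one).isBounded
    (interior_subset (zero_mem_interior_cS one_pos)), ← volume_stdS]
  simp only [ENNReal.toReal_mul, ENNReal.toReal_natCast]
  have h5 := volume_simplex (n := n)
  rw [h4] at h3
  calc (n.factorial : ℝ) * (n.factorial * ((volume (stdS n)).toReal *
        (volume (polarS (cS n 1))).toReal))
      = n.factorial * (volume (polarS (cS n 1))).toReal := by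
        rw [← mul_assoc (n.factorial : ℝ) (volume (stdS n)).toReal, h5, one_mul]
    _ ≤ n.factorial * ((n + 1) ^ (n + 1) * (volume (stdS n)).toReal) := by gcongr
    _ = _ := by rw [mul_left_comm, h5, mul_one]

/-- diagonal linear map -/
noncomputable def dg (d : E n) : E n →ₗ[ℝ] E n := Matrix.toLin' (diagonal d)

lemma dg_apply (d x : E n) (i : Fin n) : dg d x i = d i * x i := by
  simp [dg, Matrix.mulVec_diagonal]

lemma det_dg (d : E n) : LinearMap.det (dg d) = ∏ i, d i := by
  rw [dg, LinearMap.det_toLin', det_diagonal]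

lemma det_dg_ne {d : E n} (hd : ∀ i, d i ≠ 0) : LinearMap.det (dg d) ≠ 0 := by
  rw [det_dg]; exact Finset.prod_ne_zero_iff.2 fun i _ => hd i

lemma primal {L : Set (E n)} (h : AntiB L) (h1 : (fun _ => 1) ∈ L) :
    ∃ Φ : Finset (Fin n) → ℝ, (∀ I, 0 < Φ I) ∧ Φ ∅ = 1 ∧
      Φ Finset.univ = n.factorial * (volume L).toReal ∧
      ∀ I, ∀ x ∈ L, ∑ i ∈ I, x i * Φ (I.erase i) ≤ Φ I := by
  set Lt : Set (E n) := {x | x ⊔ 0 ∈ L} with hLt
  have hc : Convex ℝ Lt := fun x hx y hy a b ha hb hab =>
    h.down _ (h.conv hx hy ha hb hab) _ le_sup_right (sup_le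
      (add_le_add (smul_le_smul_of_nonneg_left le_sup_left ha)
        (smul_le_smul_of_nonneg_left le_sup_left hb))
      (add_nonneg (smul_nonneg ha le_sup_right) (smul_nonneg hb le_sup_right)))
  have h0 : Lt ∈ 𝓝 (0 : E n) := by
    refine mem_of_superset (Metric.closedBall_mem_nhds 0 one_pos) fun x hx => ?_
    refine h.down _ h1 _ le_sup_right (sup_le (fun i => ?_) fun i => zero_le_one)
    exact (le_abs_self _).trans ((norm_le_pi_norm x i).trans (by simpa using hx))
  have hcl : IsClosed Lt := h.comp.isClosed.preimage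
    (continuous_pi fun i => (continuous_apply i).max continuous_const)
  have hg : Subl (gauge Lt) := ⟨continuous_gauge hc h0,
    fun z w _ _ => gauge_add_le hc (absorbent_nhds_zero h0) z w,
    fun t w ht _ => (gauge_smul_of_nonneg ht.le w).le, gauge_zero⟩
  have hmem : ∀ x, 0 ≤ x → (gauge Lt x ≤ 1 ↔ x ∈ L) := fun x hx => by
    rw [gauge_le_one_iff_mem_closure hc h0, hcl.closure_eq, hLt, mem_ofPred_eq, sup_of_le_left hx]
  have hu : A (gauge Lt) Finset.univ = (n.factorial : ℝ≥0∞) * volume L := by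
    rw [A_univ]
    refine layer hg.cont (fun z _ => gauge_nonneg z) fun s hs => ?_
    ext z
    rw [mem_smul_set_iff_inv_smul_mem₀ hs.ne', mem_ofPred_eq]
    have e : gauge Lt (s⁻¹ • z) ≤ 1 ↔ gauge Lt z ≤ s := by
      rw [gauge_smul_of_nonneg (inv_pos.2 hs).le, smul_eq_mul, inv_mul_le_iff₀ hs, mul_one]
    constructor
    · rintro ⟨hz, hz'⟩
      exact (hmem _ (smul_nonneg (inv_pos.2 hs).le hz)).1 (e.2 hz')
    · intro hz
      have z0 := h.nonneg _ hz
      exact ⟨fun i => by simpa [mul_nonneg_iff_of_pos_left (inv_pos.2 hs)] using z0 i,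
        e.1 ((hmem _ z0).2 hz)⟩
  have hfl : ∀ I, A (gauge Lt) I ≠ ∞ → ∀ x ∈ L,
      ∑ i ∈ I, ENNReal.ofReal (x i) * A (gauge Lt) (I.erase i) ≤ A (gauge Lt) I := by
    intro I hI x hx
    have x0 := h.nonneg x hx
    set u : E n := fun j => if j ∈ I then x j else 0 with hu
    have u0 : 0 ≤ u := fun j => by simp only [hu]; split_ifs; exacts [x0 j, le_rfl]
    have u1 : u ≤ x := fun j => by simp only [hu]; split_ifs; exacts [le_rfl, x0 j]
    have h2 := flux hg I u0 (fun j hj => by simp [hu, hj]) hI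
    refine le_trans (le_of_eq (Finset.sum_congr rfl fun i hi => by simp [hu, hi])) (h2.trans ?_)
    exact mul_le_of_le_one_left' (ENNReal.ofReal_le_one.2 ((hmem u u0).2 (h.down x hx u u0 u1)))
  have her : ∀ I, A (gauge Lt) I ≠ ∞ → ∀ i ∈ I, A (gauge Lt) (I.erase i) ≤ A (gauge Lt) I := by
    intro I hI i hi
    refine le_trans ?_ (hfl I hI _ h1)
    simpa using Finset.single_le_sum (f := fun i => A (gauge Lt) (I.erase i))
      (fun _ _ => zero_le) hi
  have hfin' : ∀ S : Finset (Fin n), A (gauge Lt) Sᶜ ≠ ∞ := by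
    intro S
    induction S using Finset.induction_on with
    | empty =>
      rw [Finset.compl_empty, hu]
      exact ENNReal.mul_ne_top (ENNReal.natCast_ne_top _) h.comp.measure_lt_top.ne
    | insert i S hi ih =>
      rw [Finset.compl_insert]
      exact ne_top_of_le_ne_top ih (her _ ih i (Finset.mem_compl.2 hi))
  have hfin : ∀ I, A (gauge Lt) I ≠ ∞ := fun I => by simpa using hfin' Iᶜ
  have hone : ∀ I, 1 ≤ A (gauge Lt) I := by
    intro I
    induction I using Finset.induction_on with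
    | empty => exact (A_empty hg.zero).ge
    | insert i I hi ih =>
      have := her _ (hfin (insert i I)) i (Finset.mem_insert_self i I)
      rw [Finset.erase_insert hi] at this
      exact ih.trans this
  refine ⟨fun I => (A (gauge Lt) I).toReal, fun I => ENNReal.toReal_pos
    (zero_lt_one.trans_le (hone I)).ne' (hfin I), by simp [A_empty hg.zero], by simp [hu],
    fun I x hx => ?_⟩
  have h2 := ENNReal.toReal_mono (hfin I) (hfl I (hfin I) x hx)
  rw [ENNReal.toReal_sum fun i _ => ENNReal.mul_ne_top ENNReal.ofReal_ne_top (hfin _)] at h2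
  refine le_trans (le_of_eq (Finset.sum_congr rfl fun i _ => ?_)) h2
  rw [ENNReal.toReal_mul, ENNReal.toReal_ofReal (h.nonneg x hx i)]

lemma dual {L : Set (E n)} (h : AntiB L) (h1 : (fun _ => 1) ∈ L)
    (hP : ∫⁻ y, expS ((fun z => z - fun _ => 1) '' L) y ≠ ∞) :
    ∃ F : Finset (Fin n) → ℝ, (∀ I, 0 ≤ F I) ∧ F ∅ = 1 ∧
      ∑ I, F I ≤ (∫⁻ y, expS ((fun z => z - fun _ => 1) '' L) y).toReal ∧
      ∀ (I : Finset (Fin n)) (r : E n), 0 ≤ r → (∀ x ∈ L, ∑ i ∈ I, x i * r i ≤ 1) →
        ∑ i ∈ I, r i * F (I.erase i) ≤ (1 - ∑ i ∈ I, r i) * F I := by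
  set K := (fun z => z - fun _ => 1) '' L with hK
  have hb : Bornology.IsBounded K := isBounded_image_sub h.comp.isBounded _
  have hn : K.Nonempty := ⟨_, mem_image_of_mem _ h1⟩
  have hψ : Subl (suppF K) := ⟨continuous_suppF hb,
    fun z w _ _ => suppF_le hn fun x hx => by
      rw [dotProduct_add]; exact add_le_add (dot_le_suppF hb hx z) (dot_le_suppF hb hx w),
    fun t w ht _ => suppF_le hn fun x hx => by
      rw [dotProduct_smul, smul_eq_mul]
      exact mul_le_mul_of_nonneg_left (dot_le_suppF hb hx w) ht.le,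
    le_antisymm (suppF_le hn fun x _ => by simp)
      (by obtain ⟨x, hx⟩ := hn; simpa using dot_le_suppF hb hx 0)⟩
  have hd : ∑ I, A (suppF K) I ≤ ∫⁻ y, expS K y := decomp hψ.cont fun x i t hx ht =>
    suppF_le hn fun w hw => by
      have h2 := dot_le_suppF hb hw x
      obtain ⟨z, hz, rfl⟩ := hw
      have e : update x i t = x + Pi.single i t := by
        ext j
        by_cases hj : j = i
        · simp [hj, hx]
        · simp [hj]
      rw [e, dotProduct_add, dotProduct_single]
      have h3 : 0 ≤ z i := h.nonneg z hz i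
      simp only [Pi.sub_apply] at h2 ⊢
      nlinarith
  have hst : ∑ I, A (suppF K) I ≠ ∞ := ne_top_of_le_ne_top hP hd
  have hfin : ∀ I, A (suppF K) I ≠ ∞ := fun I => ne_top_of_le_ne_top hst
    (Finset.single_le_sum (f := fun I => A (suppF K) I) (fun _ _ => zero_le) (Finset.mem_univ I))
  refine ⟨fun I => (A (suppF K) I).toReal, fun I => ENNReal.toReal_nonneg,
    by simp [A_empty hψ.zero], ?_, fun I r r0 hr => ?_⟩
  · rw [← ENNReal.toReal_sum fun I _ => hfin I]
    exact ENNReal.toReal_mono hP hd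
  set u : E n := fun j => if j ∈ I then r j else 0 with hu
  have u0 : 0 ≤ u := fun j => by simp only [hu]; split_ifs; exacts [r0 j, le_rfl]
  have h2 := flux hψ I u0 (fun j hj => by simp [hu, hj]) (hfin I)
  have h3 : suppF K u ≤ 1 - ∑ i ∈ I, r i := suppF_le hn (by
    rintro _ ⟨z, hz, rfl⟩
    have := hr z hz
    simp only [dotProduct, hu, Pi.sub_apply, mul_ite, mul_zero, Finset.sum_ite_mem,
      Finset.univ_inter, sub_mul, one_mul, Finset.sum_sub_distrib]
    linarith)
  have h4 : 0 ≤ 1 - ∑ i ∈ I, r i := by simpa using hr _ h1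
  have h5 := ENNReal.toReal_mono (ENNReal.mul_ne_top ENNReal.ofReal_ne_top (hfin I))
    (h2.trans (mul_le_mul_left (ENNReal.ofReal_le_ofReal h3) _))
  rw [ENNReal.toReal_sum fun i _ => ENNReal.mul_ne_top ENNReal.ofReal_ne_top (hfin _),
    ENNReal.toReal_mul, ENNReal.toReal_ofReal h4] at h5
  refine le_trans (le_of_eq (Finset.sum_congr rfl fun i hi => ?_)) h5
  rw [ENNReal.toReal_mul, ENNReal.toReal_ofReal (u0 i)]
  simp [hu, hi]

theorem far_one (n : ℕ) {ε : ℝ} (hε : 0 < ε) : ∃ c : ℝ, 0 < c ∧ ∀ L : Set (E n), AntiB L →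
    (fun _ => 1) ∈ L → Near ε L ∨ ENNReal.ofReal (1 + c) * mahlerInf (cS n 1) ≤
      mahlerInf ((fun z => z - fun _ => 1) '' L) := by
  obtain ⟨c, hc, hcomb⟩ := comb n hε
  refine ⟨c, hc, fun L h h1 => ?_⟩
  obtain ⟨Φ, Φ0, Φe, Φu, hΦ⟩ := primal h h1
  have hf : (0 : ℝ) < n.factorial := by exact_mod_cast n.factorial_pos
  have hv : 0 < (volume L).toReal := 
    (mul_pos_iff_of_pos_left hf).1 (Φu ▸ Φ0 Finset.univ)
  have hv0 : volume L ≠ 0 := fun h0 => by simp [h0] at hv
  rw [PL.mahlerInf_eq ((fun z => z - fun _ => 1) '' L), volume_sub]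
  by_cases hP : ∫⁻ y, expS ((fun z => z - fun _ => 1) '' L) y = ∞
  · right; rw [hP, ENNReal.mul_top hv0]; exact le_top
  obtain ⟨F, F0, Fe, Fs, hF⟩ := dual h h1 hP
  have hr : ∀ I : Finset (Fin n), ∑ i ∈ I, Φ (I.erase i) / Φ I * F (I.erase i) ≤
      (1 - ∑ i ∈ I, Φ (I.erase i) / Φ I) * F I := fun I =>
    hF I (fun i => Φ (I.erase i) / Φ I) (fun i => (div_pos (Φ0 _) (Φ0 _)).le) fun x hx => by
      simp only [← mul_div_assoc, ← Finset.sum_div]
      exact (div_le_one (Φ0 I)).2 (hΦ I x hx)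
  have Fp : ∀ I, 0 < F I := by
    intro I
    induction I using Finset.induction_on with
    | empty => rw [Fe]; exact one_pos
    | insert i I hi ih =>
      refine (F0 _).lt_of_ne fun h0 => ?_
      have h2 := hr (insert i I)
      rw [← h0, mul_zero] at h2
      have h3 := Finset.single_le_sum
        (f := fun j => Φ ((insert i I).erase j) / Φ (insert i I) * F ((insert i I).erase j))
        (fun j _ => mul_nonneg (div_pos (Φ0 _) (Φ0 _)).le (F0 _)) (Finset.mem_insert_self i I)
      simp only [Finset.erase_insert hi] at h3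
      exact (mul_pos (div_pos (Φ0 I) (Φ0 _)) ih).not_ge (h3.trans h2)
  by_cases hT : Φ Finset.univ * ∑ I, F I < (1 + c) * (n + 1) ^ (n + 1)
  · left
    have h2 := hcomb Φ F Φ0 Fp Φe Fe (fun I _ => by
      have h3 := mul_le_mul_of_nonneg_left (hr I) (Φ0 I).le
      have h4 := (Φ0 I).ne'
      rw [Finset.mul_sum, sub_mul, mul_sub, Finset.sum_mul, Finset.mul_sum, one_mul,
        le_sub_iff_add_le, ← Finset.sum_add_distrib] at h3
      refine le_trans (le_of_eq (Finset.sum_congr rfl fun i _ => ?_)) h3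
      field_simp) hT
    set r : E n := fun i => Φ (Finset.univ.erase i) / Φ Finset.univ with hr'
    have r0 : ∀ i, 0 < r i := fun i => div_pos (Φ0 _) (Φ0 _)
    have hd : LinearMap.det (dg fun i => (r i)⁻¹) ≠ 0 := det_dg_ne fun i => (inv_pos.2 (r0 i)).ne'
    refine ⟨((dg fun i => (r i)⁻¹).equivOfDetNeZero hd).toAffineEquiv, fun x hx => ?_, ?_⟩
    · refine ⟨fun i => r i * x i, ⟨fun i => mul_nonneg (r0 i).le (h.nonneg x hx i), ?_⟩, ?_⟩
      · simp only [hr', div_mul_eq_mul_div, ← Finset.sum_div, mul_comm (Φ _)]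
        exact (div_le_one (Φ0 _)).2 (hΦ _ x hx)
      · ext i
        change dg _ _ i = _
        rw [dg_apply, inv_mul_cancel_left₀ (r0 i).ne']
    · change _ * (volume ((dg fun i => (r i)⁻¹) '' stdS n)).toReal ≤ _
      have hp : 0 < ∏ i, r i := Finset.prod_pos fun i _ => r0 i
      rw [Measure.addHaar_image_linearMap, det_dg, Finset.prod_inv_distrib,
        abs_of_pos (inv_pos.2 hp), ENNReal.toReal_mul, ENNReal.toReal_ofReal (inv_pos.2 hp).le]
      refine (mul_le_mul_of_nonneg_right h2 (by positivity)).trans (le_of_eq ?_)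
      rw [Φu]
      have := volume_simplex (n := n)
      field_simp
      linarith
  · right
    have h2 := mahlerInf_cS_le (n := n)
    have h3 := (not_lt.1 hT).trans (mul_le_mul_of_nonneg_left Fs (Φ0 _).le)
    rw [← ENNReal.ofReal_toReal (mahlerInf_cS_lt_top (n := n)).ne, ← ENNReal.ofReal_toReal hP,
      ← ENNReal.ofReal_toReal h.comp.measure_lt_top.ne, ← ENNReal.ofReal_mul (by positivity),
      ← ENNReal.ofReal_mul hv.le]
    refine ENNReal.ofReal_le_ofReal (le_of_mul_le_mul_left ?_ hf)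
    rw [Φu] at h3
    nlinarith [mul_le_mul_of_nonneg_left h2 (by positivity : 0 ≤ 1 + c)]

end Pool.Agent.MP_5f4cdd_gt.AB
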