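import Pool.Agent.MP_5f4cdd_gt.ABGeom

set_option autoImplicit false
open MeasureTheory ENNReal Set Filter Topology Function Matrix Pointwise Bornology

namespace Pool.Agent.MP_5f4cdd_gt.AB

open PL EF

variable {n : ℕ}

/-- small volume product forces closeness to a simplex -/
def Good (ε : ℝ) (μ : ℝ≥0∞) (K : Set (E n)) : Prop :=
  (interior K).Nonempty → mstarInf K < μ → EF.Near ε K

lemma mstarInf_affine_le (e : E n ≃ᵃ[ℝ] E n) (L : Set (E n)) :
    mstarInf L ≤ mstarInf (e '' L) := by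
  refine le_iInf fun c => ?_
  refine (iInf_le _ (e.symm c)).trans (le_of_eq ?_)
  rw [← mahlerInf_image_lin (e.linear : E n →ₗ[ℝ] E n) e.linear.isUnit_det'.ne_zero, image_image,
    image_image]
  congr 1
  refine image_congr fun x _ => ?_
  have := e.toAffineMap.linearMap_vsub x (e.symm c)
  simpa using this

lemma mstarInf_affine (e : E n ≃ᵃ[ℝ] E n) (L : Set (E n)) : mstarInf (e '' L) = mstarInf L := by
  refine le_antisymm ?_ (mstarInf_affine_le e L)
  have := mstarInf_affine_le e.symm (e '' L)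
  rwa [image_image, show (fun x => e.symm (e x)) = id from funext fun x => e.symm_apply_apply x,
    image_id] at this

lemma interior_affine (e : E n ≃ᵃ[ℝ] E n) (L : Set (E n)) :
    (interior (e '' L)).Nonempty ↔ (interior L).Nonempty := by
  have : e '' interior L = interior (e '' L) :=
    (AffineEquiv.toContinuousAffineEquiv e).toHomeomorph.image_interior L
  rw [← this, image_nonempty]

lemma Good.image {ε : ℝ} {μ : ℝ≥0∞} {K : Set (E n)} (h : Good ε μ K) (hε : ε < 1)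
    (e : E n ≃ᵃ[ℝ] E n) : Good ε μ (e '' K) := fun hi hM =>
  (h ((interior_affine e K).1 hi) (by rwa [mstarInf_affine] at hM)).image e hε

/-- diagonal map as an affine equivalence -/
noncomputable def dgE (d : E n) (hd : ∀ i, d i ≠ 0) : E n ≃ᵃ[ℝ] E n :=
  ((dg d).equivOfDetNeZero (det_dg_ne hd)).toAffineEquiv

lemma coe_dgE (d : E n) (hd : ∀ i, d i ≠ 0) : ⇑(dgE d hd) = dg d := rfl

lemma dg_dg (d d' x : E n) : dg d (dg d' x) = dg (d * d') x := by
  ext i; simp only [dg_apply, Pi.mul_apply, mul_assoc]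

lemma dg_one (x : E n) : dg 1 x = x := by
  ext i; simp only [dg_apply, Pi.one_apply, one_mul]

lemma Good.of_dg {ε : ℝ} {μ : ℝ≥0∞} {K : Set (E n)} {d : E n} (hd : ∀ i, d i ≠ 0)
    (h : Good ε μ (dg d '' K)) (hε : ε < 1) : Good ε μ K := by
  have := h.image hε (dgE d⁻¹ fun i => inv_ne_zero (hd i))
  rw [coe_dgE, image_image] at this
  convert this using 1
  refine (image_id K).symm.trans (image_congr fun x _ => ?_)
  rw [dg_dg, show d⁻¹ * d = 1 from funext fun i => inv_mul_cancel₀ (hd i), dg_one, id]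

lemma isCompact_dg (d : E n) {K : Set (E n)} (h : IsCompact K) : IsCompact (dg d '' K) :=
  h.image (dg d).continuous_of_finiteDimensional

theorem good_anti (n : ℕ) {ε : ℝ} (hε : 0 < ε) (hε1 : ε < 1) : ∃ c : ℝ, 0 < c ∧
    ∀ L : Set (E n), AntiB L → Good ε (ENNReal.ofReal (1 + c) * mahlerInf (cS n 1)) L := by
  obtain ⟨c, hc, h⟩ := far_one n hε
  refine ⟨c, hc, fun L hL hi hM => ?_⟩
  obtain ⟨a, ha⟩ := iInf_lt_iff.1 hM
  have hai := mem_interior_of_ne_top hL.conv hL.comp.isBounded hi ha.ne_top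
  have ha0 : ∀ i, 0 < a i := fun i => by
    have h1 : interior L ⊆ interior ((fun x : E n => x i) ⁻¹' Ici 0) :=
      interior_mono fun x hx => hL.nonneg x hx i
    have h2 := h1 hai
    rw [← (isOpenMap_eval i).preimage_interior_eq_interior_preimage (continuous_apply i),
      interior_Ici] at h2
    exact h2
  have hd : ∀ i, a⁻¹ i ≠ 0 := fun i => inv_ne_zero (ha0 i).ne'
  have h1 : dg a⁻¹ a = fun _ => 1 := by
    ext i; rw [dg_apply, Pi.inv_apply, inv_mul_cancel₀ (ha0 i).ne']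
  have hA : AntiB (dg a⁻¹ '' L) := by
    refine ⟨hL.conv.linear_image _, isCompact_dg _ hL.comp, ?_, ?_⟩
    · rintro _ ⟨x, hx, rfl⟩ i
      rw [dg_apply]
      exact mul_nonneg (inv_pos.2 (ha0 i)).le (hL.nonneg x hx i)
    · rintro _ ⟨x, hx, rfl⟩ y hy0 hy
      refine ⟨dg a y, hL.down x hx _ (fun i => ?_) fun i => ?_, ?_⟩
      · rw [dg_apply]; exact mul_nonneg (ha0 i).le (hy0 i)
      · have := hy i
        rw [dg_apply, Pi.inv_apply, le_inv_mul_iff₀ (ha0 i)] at this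
        rwa [dg_apply]
      · rw [dg_dg, show a⁻¹ * a = 1 from funext fun i => inv_mul_cancel₀ (ha0 i).ne', dg_one]
  have hG : Good ε ∞ (dg a⁻¹ '' L) := fun _ _ => by
    refine (h _ hA ⟨a, interior_subset hai, h1⟩).resolve_right fun h2 => ?_
    refine absurd ha (not_lt.2 (h2.trans (le_of_eq ?_)))
    rw [← mahlerInf_image_lin (dg a⁻¹) (det_dg_ne hd) ((fun z => z - a) '' L), image_image,
      image_image, ← h1]
    simp only [map_sub]
  exact hG.of_dg hd hε1 hi (hM.trans_le le_top)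

/-- scaling of one coordinate -/
noncomputable def sc (i : Fin n) (β : ℝ) : E n →ₗ[ℝ] E n := dg (update 1 i β)

lemma sc_apply (i : Fin n) (β : ℝ) (x : E n) : sc i β x = update x i (β * x i) := by
  ext j
  rw [sc, dg_apply]
  rcases eq_or_ne j i with rfl | h
  · simp
  · simp [h]

lemma sc_same (i : Fin n) (β : ℝ) (x : E n) : sc i β x i = β * x i := by simp [sc_apply]

lemma sc_sc (i : Fin n) (α β : ℝ) (x : E n) : sc i α (sc i β x) = sc i (α * β) x := by
  simp [sc_apply, mul_assoc]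

lemma sc_one (i : Fin n) (x : E n) : sc i 1 x = x := by simp [sc_apply]

lemma sc_ne (i : Fin n) {β : ℝ} (hβ : β ≠ 0) (j : Fin n) : update (1 : E n) i β j ≠ 0 := by
  rcases eq_or_ne j i with rfl | h
  · simpa
  · simp [h]

lemma volume_sc (i : Fin n) {β : ℝ} (hβ : 0 ≤ β) (S : Set (E n)) :
    volume (sc i β '' S) = ENNReal.ofReal β * volume S := by
  rw [Measure.addHaar_image_linearMap, sc, det_dg, Finset.prod_update_of_mem (Finset.mem_univ i)]
  simp [abs_of_nonneg hβ]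

lemma sc_mem {i : Fin n} {P : Set (E n)} (hP : Convex ℝ P) (h0 : ∀ x ∈ P, sc i 0 x ∈ P) {x : E n}
    (hx : x ∈ P) {l : ℝ} (l0 : 0 ≤ l) (l1 : l ≤ 1) : sc i l x ∈ P := by
  convert hP hx (h0 x hx) l0 (sub_nonneg.2 l1) (by ring) using 1
  ext j
  rcases eq_or_ne j i with rfl | h
  · simp [sc_apply]
  · simp only [sc_apply, update_of_ne h, Pi.add_apply, Pi.smul_apply, smul_eq_mul]; ring

lemma mix_mem {i : Fin n} {P Q : Set (E n)} (hP : Convex ℝ P) (h0 : ∀ x ∈ P, sc i 0 x ∈ P)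
    (hQ : ∀ x ∈ Q, sc i 0 x ∈ P) {x y : E n} (hx : x ∈ P) (hy : y ∈ Q) {a b : ℝ} (ha : 0 ≤ a)
    (hb : 0 ≤ b) (hab : a + b = 1) {l : ℝ} (l0 : 0 ≤ l) (l1 : l ≤ 1)
    (hl : a * x i + b * y i = l * (a * x i)) : a • x + b • y ∈ P := by
  convert sc_mem hP h0 (hP hx (hQ y hy) ha hb hab) l0 l1 using 1
  ext j
  rcases eq_or_ne j i with rfl | h
  · simp [sc_apply, hl]
  · simp [sc_apply, update_of_ne h]

lemma exists_ratio {u v : ℝ} (hu : 0 ≤ u) (huv : u ≤ v) : ∃ l, 0 ≤ l ∧ l ≤ 1 ∧ u = l * v := by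
  rcases (hu.trans huv).eq_or_lt with h | h
  · exact ⟨0, le_rfl, zero_le_one, by linarith⟩
  · exact ⟨u / v, by positivity, (div_le_one h).2 huv, by field_simp⟩

lemma convex_glue {i : Fin n} {P Q : Set (E n)} (hP : Convex ℝ P) (hQ : Convex ℝ Q)
    (P0 : ∀ x ∈ P, 0 ≤ x i) (Q0 : ∀ x ∈ Q, x i ≤ 0) (h0 : ∀ x ∈ P ∪ Q, sc i 0 x ∈ P ∩ Q) :
    Convex ℝ (P ∪ Q) := by
  have key : ∀ x ∈ P, ∀ y ∈ Q, ∀ a b : ℝ, 0 ≤ a → 0 ≤ b → a + b = 1 → a • x + b • y ∈ P ∪ Q := by
    intro x hx y hy a b ha hb hab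
    have h1 := mul_nonneg ha (P0 x hx)
    have h2 := mul_nonneg hb (neg_nonneg.2 (Q0 y hy))
    rcases le_total 0 (a * x i + b * y i) with h | h
    · obtain ⟨l, l0, l1, hl⟩ := exists_ratio h (v := a * x i) (by linarith)
      exact Or.inl (mix_mem hP (fun x hx => (h0 x (Or.inl hx)).1) (fun x hx => (h0 x (Or.inr hx)).1)
        hx hy ha hb hab l0 l1 hl)
    · obtain ⟨l, l0, l1, hl⟩ := exists_ratio (neg_nonneg.2 h) (v := -(b * y i)) (by linarith)
      rw [add_comm]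
      exact Or.inr (mix_mem hQ (fun x hx => (h0 x (Or.inr hx)).2) (fun x hx => (h0 x (Or.inl hx)).2)
        hy hx hb ha (by linarith) l0 l1 (by linarith))
  rintro x (hx | hx) y (hy | hy) a b ha hb hab
  · exact Or.inl (hP hx hy ha hb hab)
  · exact key x hx y hy a b ha hb hab
  · rw [add_comm]; exact key y hy x hx b a hb ha (by linarith)
  · exact Or.inr (hQ hx hy ha hb hab)

lemma Jstar_anti {A B : Set (E n)} (hAB : A ⊆ B) (hA : A.Nonempty) (hB : IsBounded B) :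
    Jstar B ≤ Jstar A := by
  refine iInf_mono fun c => lintegral_mono fun y => mul_le_mul_left ?_ _
  refine ENNReal.ofReal_le_ofReal (Real.exp_le_exp.2 (neg_le_neg ?_))
  exact suppF_le hA fun x hx => dot_le_suppF hB (hAB hx) y

lemma coe_hom (c : E n) {ρ : ℝ} (hρ : ρ ≠ 0) :
    ((AffineEquiv.homothetyUnitsMulHom c (Units.mk0 ρ hρ) : E n ≃ᵃ[ℝ] E n) : E n → E n) =
      AffineMap.homothety c ρ := by
  rw [AffineEquiv.coe_homothetyUnitsMulHom_apply]; rfl

lemma mstarInf_sandwich {P U : Set (E n)} {c : E n} {ρ : ℝ} (hρ : 0 < ρ) (hP : IsCompact P)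
    (hn : P.Nonempty) (h1 : P ⊆ U) (h2 : U ⊆ AffineMap.homothety c ρ '' P) :
    mstarInf P ≤ ENNReal.ofReal (ρ ^ n) * mstarInf U := by
  have hb : IsBounded (AffineMap.homothety c ρ '' P) :=
    (hP.image (AffineMap.homothety c ρ).continuous_of_finiteDimensional).isBounded
  rw [← mstarInf_affine (AffineEquiv.homothetyUnitsMulHom c (Units.mk0 ρ hρ.ne')) P, coe_hom,
    mstarInf_eq hb (hn.image _), mstarInf_eq (hb.subset h2) (hn.mono h1),
    Measure.addHaar_image_homothety, abs_of_nonneg (by positivity), mul_assoc]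
  simp only [Module.finrank_fintype_fun_eq_card, Fintype.card_fin]
  exact mul_le_mul_right (mul_le_mul' (measure_mono h1) (Jstar_anti h2 (hn.mono h1) hb)) _

lemma path {ε ε' : ℝ} {μ v : ℝ≥0∞} (hεε' : ε < ε') (hε' : ε' < 1) (hv : v < μ)
    (moat : ∀ K : Set (E n), Convex ℝ K → IsCompact K → (interior K).Nonempty →
      mstarInf K < μ → EF.Near ε' K → EF.Near ε K)
    {i : Fin n} {P Q : Set (E n)} (hP : Convex ℝ P) (hQ : Convex ℝ Q) (cP : IsCompact P)
    (cQ : IsCompact Q) (h0 : ∀ x ∈ P ∪ Q, sc i 0 x ∈ P ∩ Q) (hi : (interior P).Nonempty)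
    (hU : ∀ β, 0 < β → β ≤ 1 → Convex ℝ (P ∪ sc i β '' Q) ∧ mstarInf (P ∪ sc i β '' Q) ≤ v)
    (hG : Good ε μ P) : EF.Near ε (P ∪ Q) := by
  have hε : ε < 1 := hεε'.trans hε'
  obtain ⟨c, hc⟩ := hi
  obtain ⟨r, hr, hb⟩ := Metric.nhds_basis_closedBall.mem_iff.1 (mem_interior_iff_mem_nhds.1 hc)
  obtain ⟨R, hR, hQR⟩ := cQ.isBounded.subset_closedBall_lt 0 0
  have cU : ∀ β, IsCompact (P ∪ sc i β '' Q) := fun β => cP.union (isCompact_dg _ cQ)
  have moat' : ∀ β, 0 < β → β ≤ 1 → EF.Near ε' (P ∪ sc i β '' Q) → EF.Near ε (P ∪ sc i β '' Q) :=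
    fun β b0 b1 => moat _ (hU β b0 b1).1 (cU β) ⟨c, interior_mono subset_union_left hc⟩
      ((hU β b0 b1).2.trans_lt hv)
  have e1 : ∀ᶠ δ in 𝓝 (0 : ℝ), ENNReal.ofReal ((1 + δ) ^ n) * v < μ := by
    have : Tendsto (fun δ : ℝ => ENNReal.ofReal ((1 + δ) ^ n) * v) (𝓝 0)
        (𝓝 (ENNReal.ofReal ((1 + 0) ^ n) * v)) :=
      ENNReal.Tendsto.mul_const (ENNReal.tendsto_ofReal (Continuous.tendsto (by fun_prop) 0))
        (Or.inr hv.ne_top)
    exact this.eventually_lt_const (by simpa using hv)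
  have e2 : ∀ᶠ δ in 𝓝 (0 : ℝ), (1 - ε') * (1 + δ) ^ n < 1 - ε :=
    ContinuousAt.eventually_lt (by fun_prop) (by fun_prop) (by simpa using hεε')
  have e3 : ∀ᶠ δ in 𝓝 (0 : ℝ), (1 - ε') * (1 + δ) < 1 - ε :=
    ContinuousAt.eventually_lt (by fun_prop) (by fun_prop) (by simpa using hεε')
  obtain ⟨δ, ⟨⟨d1, d2⟩, d3⟩, hδ⟩ := ((((e1.and e2).and e3).filter_mono nhdsWithin_le_nhds).and
    (self_mem_nhdsWithin (a := (0 : ℝ)) (s := Ioi 0))).exists
  have hδ0 : 0 < δ := hδ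
  have hρ : 0 < 1 + δ := by linarith
  have hσ : (1 + δ)⁻¹ < 1 := inv_lt_one_of_one_lt₀ (by linarith)
  have p0 : ∀ k : ℕ, 0 < (1 + δ)⁻¹ ^ k := fun k => by positivity
  have p1 : ∀ k : ℕ, (1 + δ)⁻¹ ^ k ≤ 1 := fun k => pow_le_one₀ (by positivity) hσ.le
  obtain ⟨N, hN⟩ := exists_pow_lt_of_lt_one (x := δ * r / R) (by positivity) hσ
  have hsub : P ∪ sc i ((1 + δ)⁻¹ ^ N) '' Q ⊆ AffineMap.homothety c (1 + δ) '' P := by
    have key : ∀ w ∈ P, ∀ u : E n, ‖u‖ ≤ δ * r → w + u ∈ AffineMap.homothety c (1 + δ) '' P := by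
      intro w hw u hu
      refine ⟨_, hP hw (hb (a := c + δ⁻¹ • u) ?_) (a := 1 / (1 + δ)) (b := δ / (1 + δ))
        (by positivity) (by positivity) (by field_simp), ?_⟩
      · rw [Metric.mem_closedBall, dist_eq_norm, add_sub_cancel_left, norm_smul, Real.norm_eq_abs,
          abs_of_pos (inv_pos.2 hδ0), inv_mul_le_iff₀ hδ0]
        exact hu
      · ext j
        simp only [AffineMap.homothety_apply, vsub_eq_sub, vadd_eq_add, Pi.add_apply,
          Pi.smul_apply, Pi.sub_apply, smul_eq_mul]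
        field_simp
        ring
    rintro _ (hx | ⟨q, hq, rfl⟩)
    · simpa using key _ hx 0 (by simp; positivity)
    · have := key _ (h0 q (Or.inr hq)).1 (Pi.single i ((1 + δ)⁻¹ ^ N * q i)) (by
        rw [Pi.norm_single, norm_mul, Real.norm_of_nonneg (p0 N).le]
        have h1 : ‖q i‖ ≤ R := (norm_le_pi_norm q i).trans (by simpa using hQR hq)
        rw [lt_div_iff₀ hR] at hN
        nlinarith [p0 N])
      convert this using 1
      ext j
      rcases eq_or_ne j i with rfl | h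
      · simp [sc_apply]
      · simp [sc_apply, h]
  have hPN : EF.Near ε P := hG ⟨c, hc⟩ (lt_of_le_of_lt ((mstarInf_sandwich hρ cP
    ⟨c, interior_subset hc⟩ subset_union_left hsub).trans
      (mul_le_mul_right (hU _ (p0 N) (p1 N)).2 _)) d1)
  have hN' : EF.Near ε (P ∪ sc i ((1 + δ)⁻¹ ^ N) '' Q) :=
    moat' _ (p0 N) (p1 N) (hPN.homothety (σ := 1) hρ zero_le_one hsub (by simp)
      (cU _).measure_lt_top.ne hε hε'.le (by simpa using d2.le))
  have step : ∀ k : ℕ, EF.Near ε (P ∪ sc i ((1 + δ)⁻¹ ^ (k + 1)) '' Q) →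
      EF.Near ε (P ∪ sc i ((1 + δ)⁻¹ ^ k) '' Q) := by
    intro k h
    refine moat' _ (p0 k) (p1 k) (h.transfer (dgE _ (sc_ne i hρ.ne')) ?_ hε hε'.le ?_)
    · rintro _ (hx | ⟨q, hq, rfl⟩)
      · refine ⟨_, Or.inl (sc_mem hP (fun x hx => (h0 x (Or.inl hx)).1) hx (inv_pos.2 hρ).le hσ.le),
          ?_⟩
        change sc i _ _ = _
        rw [sc_sc, mul_inv_cancel₀ hρ.ne', sc_one]
      · refine ⟨_, Or.inr ⟨q, hq, rfl⟩, ?_⟩
        change sc i _ _ = _
        rw [sc_sc, pow_succ', mul_inv_cancel_left₀ hρ.ne']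
    · change _ * (volume (sc i _ '' _)).toReal ≤ _
      rw [volume_sc i hρ.le, ENNReal.toReal_mul, ENNReal.toReal_ofReal hρ.le, ← mul_assoc]
      refine mul_le_mul d3.le (ENNReal.toReal_mono (cU _).measure_lt_top.ne (measure_mono
        (union_subset_union_right _ ?_))) ENNReal.toReal_nonneg (by linarith)
      rintro _ ⟨q, hq, rfl⟩
      exact ⟨_, sc_mem hQ (fun x hx => (h0 x (Or.inr hx)).2) hq (inv_pos.2 hρ).le hσ.le, by
        rw [sc_sc, pow_succ]⟩
  have fin := Nat.decreasingInduction (motive := fun k _ =>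
    EF.Near ε (P ∪ sc i ((1 + δ)⁻¹ ^ k) '' Q)) (fun k _ h => step k h) hN' (Nat.zero_le N)
  simpa [sc_one] using fin

lemma interior_inter_nonempty {K O : Set (E n)} (hK : Convex ℝ K) (hi : (interior K).Nonempty)
    (hO : IsOpen O) {x : E n} (hx : x ∈ K) (hxO : x ∈ O) {O' : Set (E n)} (h : O ⊆ O') :
    (interior (K ∩ O')).Nonempty := by
  have h1 : x ∈ closure (interior K) := by
    rw [hK.closure_interior_eq_closure_of_nonempty_interior hi]; exact subset_closure hx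
  obtain ⟨y, hy1, hy2⟩ := mem_closure_iff.1 h1 O hO hxO
  exact ⟨y, by rw [interior_inter]; exact ⟨hy2, interior_maximal h hO hy1⟩⟩

theorem Good.glue {ε ε' : ℝ} {μ : ℝ≥0∞} (hεε' : ε < ε') (hε' : ε' < 1)
    (moat : ∀ K : Set (E n), Convex ℝ K → IsCompact K → (interior K).Nonempty →
      mstarInf K < μ → EF.Near ε' K → EF.Near ε K)
    {i : Fin n} {K : Set (E n)} (hK : Convex ℝ K) (cK : IsCompact K)
    (hK0 : ∀ x ∈ K, update x i 0 ∈ K) (gP : Good ε μ (K ∩ {x | 0 ≤ x i}))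
    (gQ : Good ε μ (K ∩ {x | x i ≤ 0})) : Good ε μ K := by
  intro hi hM
  by_cases c1 : ∀ x ∈ K, x i ≤ 0
  · rw [inter_eq_left.2 (show K ⊆ {x | x i ≤ 0} from c1)] at gQ; exact gQ hi hM
  by_cases c2 : ∀ x ∈ K, 0 ≤ x i
  · rw [inter_eq_left.2 (show K ⊆ {x | 0 ≤ x i} from c2)] at gP; exact gP hi hM
  push Not at c1 c2
  obtain ⟨x₁, hx₁, hx₁'⟩ := c1
  obtain ⟨x₂, hx₂, hx₂'⟩ := c2
  set P := K ∩ {x | 0 ≤ x i} with hPd
  set Q := K ∩ {x | x i ≤ 0} with hQd
  have iP : (interior P).Nonempty := interior_inter_nonempty hK hi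
    (isOpen_lt continuous_const (continuous_apply i)) hx₁ hx₁' fun x hx => le_of_lt (a := (0 : ℝ)) hx
  have iQ : (interior Q).Nonempty := interior_inter_nonempty hK hi
    (isOpen_lt (continuous_apply i) continuous_const) hx₂ hx₂' fun x hx => le_of_lt (b := (0 : ℝ)) hx
  have hP : Convex ℝ P := hK.inter (convex_halfSpace_ge (LinearMap.proj i : E n →ₗ[ℝ] ℝ).isLinear 0)
  have hQ : Convex ℝ Q := hK.inter (convex_halfSpace_le (LinearMap.proj i : E n →ₗ[ℝ] ℝ).isLinear 0)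
  have cP : IsCompact P := cK.inter_right (isClosed_le continuous_const (continuous_apply i))
  have cQ : IsCompact Q := cK.inter_right (isClosed_le (continuous_apply i) continuous_const)
  have hPQ : P ∪ Q = K := by
    rw [hPd, hQd, ← inter_union_distrib_left]
    exact inter_eq_left.2 fun x _ => le_total 0 (x i)
  have h0 : ∀ x ∈ P ∪ Q, sc i 0 x ∈ P ∩ Q := fun x hx => by
    have h1 : sc i 0 x ∈ K := by rw [sc_apply, zero_mul]; exact hK0 x (hPQ ▸ hx)
    have h2 : sc i 0 x i = 0 := by rw [sc_same, zero_mul]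
    exact ⟨⟨h1, h2.ge⟩, h1, h2.le⟩
  have hW : ∀ α β : ℝ, 0 ≤ α → 0 ≤ β → Convex ℝ (sc i α '' P ∪ sc i β '' Q) := by
    intro α β hα hβ
    refine convex_glue (i := i) (hP.linear_image _) (hQ.linear_image _) ?_ ?_ ?_
    · rintro _ ⟨x, hx, rfl⟩; rw [sc_same]; exact mul_nonneg hα hx.2
    · rintro _ ⟨x, hx, rfl⟩; rw [sc_same]; exact mul_nonpos_of_nonneg_of_nonpos hβ hx.2
    · have : ∀ x ∈ P ∪ Q, ∀ γ, sc i 0 (sc i γ x) ∈ sc i α '' P ∩ sc i β '' Q := fun x hx γ =>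
        ⟨⟨_, (h0 x hx).1, by simp [sc_sc]⟩, _, (h0 x hx).2, by simp [sc_sc]⟩
      rintro _ (⟨x, hx, rfl⟩ | ⟨x, hx, rfl⟩)
      · exact this x (Or.inl hx) _
      · exact this x (Or.inr hx) _
  have s1 : ∀ S : Set (E n), sc i 1 '' S = S := fun S => by simp [sc_one]
  have : Nonempty K := ⟨⟨x₁, hx₁⟩⟩
  have hr : ∀ t : ℝ, range (shadowPts (Subtype.val : K → E n) (fun x => max (x.1 i) 0)
      (Pi.single i 1) t) = sc i (1 + t) '' P ∪ Q := by
    intro t
    have e1 : ∀ x : K, 0 ≤ x.1 i → shadowPts (Subtype.val : K → E n) (fun x => max (x.1 i) 0)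
        (Pi.single i 1) t x = sc i (1 + t) x := fun x hx => by
      ext j
      rcases eq_or_ne j i with rfl | h
      · simp [shadowPts, sc_apply, hx, add_mul]
      · simp [shadowPts, sc_apply, h]
    have e2 : ∀ x : K, x.1 i ≤ 0 → shadowPts (Subtype.val : K → E n) (fun x => max (x.1 i) 0)
        (Pi.single i 1) t x = x := fun x hx => by simp [shadowPts, hx]
    ext z
    constructor
    · rintro ⟨x, rfl⟩
      rcases le_total 0 (x.1 i) with h | h
      · exact Or.inl ⟨x, ⟨x.2, h⟩, (e1 x h).symm⟩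
      · rw [e2 x h]; exact Or.inr ⟨x.2, h⟩
    · rintro (⟨x, hx, rfl⟩ | hz)
      · exact ⟨⟨x, hx.1⟩, e1 _ hx.2⟩
      · exact ⟨⟨z, hz.1⟩, e2 _ hz.2⟩
  have hh : ∀ α : ℝ, 0 ≤ α → convexHull ℝ (sc i α '' P ∪ Q) = sc i α '' P ∪ Q := fun α hα => by
    have := hW α 1 hα zero_le_one
    rw [s1] at this
    exact this.convexHull_eq
  have hv : ∀ α : ℝ, 0 ≤ α →
      volume (sc i α '' P ∪ Q) = ENNReal.ofReal α * volume P + volume Q := fun α hα => by
    rw [measure_union₀ cQ.measurableSet.nullMeasurableSet, volume_sc i hα]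
    refine measure_mono_null ?_ (volume_dot_zero (v := Pi.single i 1) (by simp))
    rintro _ ⟨⟨x, hx, rfl⟩, hz⟩
    have h1 : 0 ≤ sc i α x i := by rw [sc_same]; exact mul_nonneg hα hx.2
    simpa using le_antisymm hz.2 h1
  have hq : ∀ α β : ℝ, 0 < α → α < 1 → 1 < β →
      min (mstarInf (sc i α '' P ∪ Q)) (mstarInf (sc i β '' P ∪ Q)) ≤ mstarInf K := by
    intro α β a0 a1 b1
    have hd : 0 < β - α := by linarith
    have ha : 0 < (β - 1) / (β - α) := div_pos (by linarith) hd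
    have hb : 0 < (1 - α) / (β - α) := div_pos (by linarith) hd
    have hab : (β - 1) / (β - α) + (1 - α) / (β - α) = 1 := by field_simp; ring
    have e0 : 1 + ((β - 1) / (β - α) * (α - 1) + (1 - α) / (β - α) * (β - 1)) = 1 := by
      field_simp; ring
    have := mstarInf_quasi (Subtype.val : K → E n) (fun x => max (x.1 i) 0) (θ := Pi.single i 1)
      (by simp) (fun t => by rw [hr]; exact ((isCompact_dg _ cP).union cQ).isBounded) ha hb hab
      (α - 1) (β - 1)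
    simp only [hr, e0, add_sub_cancel, hh α a0.le, hh β (by linarith), hh 1 zero_le_one] at this
    rw [hv α a0.le, hv β (by linarith), hv 1 zero_le_one, s1, hPQ] at this
    refine this (le_of_eq ?_)
    rw [mul_add, mul_add, add_add_add_comm, ← add_mul, ← mul_assoc, ← mul_assoc, ← add_mul,
      ← ENNReal.ofReal_add ha.le hb.le, hab, ENNReal.ofReal_one, one_mul,
      ← ENNReal.ofReal_mul ha.le, ← ENNReal.ofReal_mul hb.le,
      ← ENNReal.ofReal_add (by positivity) (by positivity), one_mul]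
    have : (β - 1) / (β - α) * α + (1 - α) / (β - α) * β = 1 := by field_simp; ring
    rw [this, ENNReal.ofReal_one, one_mul]
  by_cases h : ∀ β : ℝ, 0 < β → β ≤ 1 → mstarInf (Q ∪ sc i β '' P) ≤ mstarInf K
  · rw [← hPQ, union_comm]
    refine path hεε' hε' hM moat hQ hP cQ cP (fun x hx => ?_) iQ (fun β b0 b1 => ⟨?_, h β b0 b1⟩) gQ
    · rw [union_comm] at hx; rw [inter_comm]; exact h0 x hx
    · rw [union_comm, ← hh β b0.le]; exact convex_convexHull ℝ _
  · push Not at h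
    obtain ⟨α, a0, a1, hα⟩ := h
    rw [union_comm] at hα
    have a2 : α < 1 := lt_of_le_of_ne a1 (by rintro rfl; rw [s1, hPQ] at hα; exact hα.false)
    rw [← hPQ]
    refine path hεε' hε' hM moat hP hQ cP cQ h0 iP (fun β b0 b1 => ⟨?_, ?_⟩) gP
    · have := hW 1 β zero_le_one b0.le
      rwa [s1] at this
    · rcases b1.eq_or_lt with rfl | b2
      · rw [s1, hPQ]
      have h1 := (min_le_iff.1 (hq α β⁻¹ a0 a2 (one_lt_inv_iff₀.2 ⟨b0, b2⟩))).resolve_left
        (not_le.2 hα)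
      refine le_trans (le_of_eq ?_) h1
      rw [← mstarInf_affine (dgE _ (sc_ne i b0.ne')) (sc i β⁻¹ '' P ∪ Q), image_union, image_image]
      congr 2
      refine (s1 P).symm.trans (image_congr fun x _ => ?_)
      change _ = sc i _ _
      rw [sc_sc, mul_inv_cancel₀ b0.ne']

end Pool.Agent.MP_5f4cdd_gt.AB
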