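import Pool.Agent.MP_5f4cdd_gt.EFDescent

set_option autoImplicit false
open MeasureTheory Set ENNReal Topology Filter Matrix Bornology

namespace Pool.Agent.MP_5f4cdd_gt.EF

open PL

variable {n : ℕ}

/-- Minkowski-Weyl -/
theorem exists_dual {ι : Type} [Finite ι] (x : ι → E n)
    (h0 : (0 : E n) ∈ interior (convexHull ℝ (range x))) :
    ∃ (κ : Type) (_ : Finite κ) (y : κ → E n), DualPair x y := by
  set Q : Set (E n) := {w | ∀ i, x i ⬝ᵥ w ≤ 1} with hQ
  have hQp : Q = polarS (convexHull ℝ (range x)) := by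
    have := polarS_hull_sub x 0
    simpa using this.symm
  have hQc : IsCompact Q := by
    rw [hQp]; exact Metric.isCompact_of_isClosed_isBounded (isClosed_polarS _) (isBounded_polarS h0)
  have hQv : Convex ℝ Q := by
    rw [hQ, ofPred_forall]
    exact convex_iInter fun i => Pool.Agent.MP_5f4cdd_gt.convex_dot_le (x i) 1
  have hfin : (Q.extremePoints ℝ).Finite := by
    refine Finite.of_finite_image (f := fun w => {i | x i ⬝ᵥ w = 1}) (toFinite _) ?_
    intro w hw w' hw' he
    have he' : ∀ i, x i ⬝ᵥ w = 1 ↔ x i ⬝ᵥ w' = 1 := fun i => Set.ext_iff.1 he i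
    have h1 : ∀ᶠ s in 𝓝[>] (0 : ℝ), ∀ i, x i ⬝ᵥ (w + s • (w - w')) ≤ 1 := by
      refine eventually_all.2 fun i => ?_
      rcases (hw.1 i).eq_or_lt with h | h
      · exact Eventually.of_forall fun s => by
          simp [dotProduct_add, dotProduct_smul, dotProduct_sub, h, (he' i).1 h]
      · have : ∀ᶠ s in 𝓝 (0 : ℝ), x i ⬝ᵥ (w + s • (w - w')) < 1 :=
          ContinuousAt.eventually_lt (by unfold dotProduct; fun_prop) continuousAt_const
            (by simpa using h)
        exact (this.filter_mono nhdsWithin_le_nhds).mono fun _ h => h.le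
    obtain ⟨s, hs1, hs2⟩ := (h1.and self_mem_nhdsWithin).exists
    have hs : 0 < s := hs2
    refine (hw.2 hw'.1 hs1 ⟨s / (1 + s), 1 / (1 + s), by positivity, by positivity,
      by field_simp; ring, ?_⟩).symm
    ext j
    simp only [Pi.add_apply, Pi.smul_apply, Pi.sub_apply, smul_eq_mul]
    field_simp
    ring
  have hhull : convexHull ℝ (Q.extremePoints ℝ) = Q := by
    rw [← (hfin.isClosed_convexHull ℝ).closure_eq]
    exact closure_convexHull_extremePoints hQc hQv
  have : Finite (Q.extremePoints ℝ) := hfin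
  have : Nonempty ι := by
    by_contra hne
    rw [not_nonempty_iff] at hne
    simp [range_eq_empty] at h0
  refine ⟨Q.extremePoints ℝ, hfin, Subtype.val, (dualPair_of_eq ?_).symm⟩
  rw [Subtype.range_coe, hhull]

lemma exists_polytope {K : Set (E n)} (hK : Convex ℝ K) (hc : IsCompact K) (h0 : 0 ∈ interior K)
    {η : ℝ} (hη : 0 < η) (hη1 : η ≤ 1) :
    ∃ (ι : Type) (_ : Finite ι) (x : ι → E n),
      AffineMap.homothety (0 : E n) (1 - η) '' K ⊆ convexHull ℝ (range x) ∧
      convexHull ℝ (range x) ⊆ K := by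
  obtain ⟨r, hr, hb⟩ := Metric.nhds_basis_closedBall.mem_iff.1 (mem_interior_iff_mem_nhds.1 h0)
  obtain ⟨t, ht, htf, hcov⟩ := finite_cover_balls_of_compact hc (mul_pos hη hr)
  refine ⟨t, htf, Subtype.val, ?_, ?_⟩
  · rw [Subtype.range_coe]
    refine shrink_sub hc (subset_convexHull ℝ K) (convex_convexHull ℝ _)
      (htf.isClosed_convexHull ℝ) hη.le hη1 fun a ha => ?_
    obtain ⟨w, hw, haw⟩ := mem_iUnion₂.1 (hcov ha)
    refine ⟨w, subset_convexHull ℝ _ hw, η⁻¹ • (a - w), hb ?_, ?_⟩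
    · rw [mem_closedBall_zero_iff, norm_smul, Real.norm_eq_abs, abs_of_pos (inv_pos.2 hη),
        inv_mul_le_iff₀ hη, ← dist_eq_norm]
      exact (Metric.mem_ball.1 haw).le
    · rw [sub_zero, smul_smul, mul_inv_cancel₀ hη.ne', one_smul]; abel
  · rw [Subtype.range_coe]; exact convexHull_min ht hK

lemma exists_eta {a b a' b' : ℝ} (h : a < b) (h' : a' < b') (n : ℕ) :
    ∃ η : ℝ, 0 < η ∧ η < 1 ∧ a ≤ b * (1 - η) ^ n ∧ a' ≤ b' * (1 - η) ^ n := by
  have h1 : ∀ᶠ η in 𝓝 (0 : ℝ), a < b * (1 - η) ^ n :=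
    ContinuousAt.eventually_lt (by fun_prop) (by fun_prop) (by simpa using h)
  have h1' : ∀ᶠ η in 𝓝 (0 : ℝ), a' < b' * (1 - η) ^ n :=
    ContinuousAt.eventually_lt (by fun_prop) (by fun_prop) (by simpa using h')
  have h2 : ∀ᶠ η in 𝓝 (0 : ℝ), η < 1 := eventually_lt_nhds one_pos
  obtain ⟨η, ⟨⟨h3, h3'⟩, h4⟩, h5⟩ := ((((h1.and h1').and h2).filter_mono nhdsWithin_le_nhds).and
    (self_mem_nhdsWithin (a := (0 : ℝ)) (s := Ioi 0))).exists
  exact ⟨η, h5, h4, h3.le, h3'.le⟩

lemma mahlerInf_cS_ne_top : mahlerInf (cS n 1) ≠ ∞ := by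
  have h0 : (0 : E n) ∈ interior (cS n 1) := mem_interior_iff_mem_nhds.2 (cS_mem_nhds one_pos)
  rw [mahlerInf_polar (isCompact_cS zero_le_one).isBounded (interior_subset h0)]
  exact ENNReal.mul_ne_top (by simp) (ENNReal.mul_ne_top (volume_cS_lt_top zero_le_one).ne
    (isBounded_polarS h0).measure_lt_top.ne)

/-- convex bodies in dimension three that are far from simplices have a volume product larger
than that of the simplex by a fixed factor -/
theorem far_of (hA : StmtAinf 3) {ε : ℝ} (hε : 0 < ε) : ∃ c : ℝ, 0 < c ∧ ∀ K : Set (E 3),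
    Convex ℝ K → IsCompact K → (interior K).Nonempty →
    (∀ e : AffineEquiv ℝ (E 3) (E 3), K ⊆ e '' stdS 3 →
      (volume K).toReal < (1 - ε) * (volume (e '' stdS 3)).toReal) →
    ENNReal.ofReal (1 + c) * mahlerInf (cS 3 1) ≤ mahlerInf K := by
  obtain ⟨εA, κ, hεA, hκ, hA⟩ := hA
  set m := mahlerInf (cS 3 1) with hm
  have hmt : m ≠ ∞ := mahlerInf_cS_ne_top
  set ε' := min εA (1 / 2) with hε'
  have hε'0 : 0 < ε' := by positivity
  have hε'1 : ε' < 1 := (min_le_right _ _).trans_lt (by norm_num)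
  obtain ⟨ε₁, hε₁, hpol⟩ := polar_near (n := 2) (C := (1 + κ) * m.toReal + 1) (by positivity)
    hε'0 hε'1
  set ε₂ := min ε (1 / 2) with hε₂
  have hε₂0 : 0 < ε₂ := by positivity
  have hε₂1 : ε₂ < 1 := (min_le_right _ _).trans_lt (by norm_num)
  set ε₃ := min (min (ε₂ / 2) (ε' / 2)) ε₁ with hε₃
  have hε₃0 : 0 < ε₃ := by positivity
  have h32 : ε₃ < ε₂ := ((min_le_left _ _).trans (min_le_left _ _)).trans_lt (by linarith)
  have h3' : ε₃ < ε' := ((min_le_left _ _).trans (min_le_right _ _)).trans_lt (by linarith)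
  have h31 : ε₃ ≤ ε₁ := min_le_right _ _
  have hκε : 0 < κ * ε₃ := mul_pos hκ hε₃0
  set μ := ENNReal.ofReal (1 + κ * ε₃) * m with hμ
  have moat : ∀ K : Set (E 3), Convex ℝ K → IsCompact K → (interior K).Nonempty →
      mahlerInf K < μ → Near ε' K → Near ε₃ K := by
    intro K hK hKc hKi hM hN
    obtain ⟨e, he1, he2⟩ := hN.mono (min_le_left _ _)
    obtain ⟨e', h1, h2⟩ := hA K hK hKc hKi e he1 he2
    refine ⟨e', h1, ?_⟩
    by_contra hc
    push Not at hc
    rw [← div_lt_iff₀ (toReal_simplex_pos e')] at hc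
    refine absurd hM (not_lt.2 (le_trans ?_ h2))
    exact mul_le_mul_left (ENNReal.ofReal_le_ofReal (by nlinarith)) _
  have hpol' : ∀ K : Set (E 3), Convex ℝ K → IsCompact K → 0 ∈ interior K →
      mahlerInf K < μ → Near ε₃ K → Near ε' (polarS K) := by
    intro K hK hKc hK0 hM hN
    refine hpol K hK hKc hK0 (hN.mono h31) ?_
    have h1 : volume K * volume (polarS K) ≤ ENNReal.ofReal (1 + κ) * m := by
      refine le_trans ?_ (hM.le.trans
        (mul_le_mul_left (ENNReal.ofReal_le_ofReal (by nlinarith)) _))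
      rw [mahlerInf_polar hKc.isBounded (interior_subset hK0)]
      exact le_mul_of_one_le_left' (by norm_num [Nat.factorial])
    have h2 := ENNReal.toReal_mono (ENNReal.mul_ne_top ENNReal.ofReal_ne_top hmt) h1
    rw [ENNReal.toReal_mul, ENNReal.toReal_mul, ENNReal.toReal_ofReal (by positivity)] at h2
    linarith
  obtain ⟨η, hη0, hη1, hη2, hη3⟩ := exists_eta (a := 1 - ε₂) (b := 1 - ε₃)
    (a' := 1 + κ * ε₃ / 2) (b' := 1 + κ * ε₃) (by linarith) (by linarith) 3
  have hs : 0 < 1 - η := by linarith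
  refine ⟨κ * ε₃ / 2, by positivity, fun K hK hKc hKi hfar => ?_⟩
  rcases eq_or_ne (mahlerInf K) ∞ with htop | htop
  · rw [htop]; exact le_top
  have hK0 : (0 : E 3) ∈ interior K :=
    mem_interior_of_ne_top hK hKc.isBounded hKi (by simpa using htop)
  obtain ⟨ι, _, x, hx1, hx2⟩ := exists_polytope hK hKc hK0 hη0 hη1.le
  have hP0 : (0 : E 3) ∈ interior (convexHull ℝ (range x)) := by
    rw [mem_interior_iff_mem_nhds] at hK0 ⊢
    have h1 : (fun z : E 3 => (1 - η)⁻¹ • z) ⁻¹' K ∈ 𝓝 (0 : E 3) :=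
      ContinuousAt.preimage_mem_nhds (by fun_prop) (by simpa using hK0)
    refine mem_of_superset h1 fun z hz => hx1 ⟨_, hz, ?_⟩
    simp [AffineMap.homothety_apply, smul_smul, mul_inv_cancel₀ hs.ne']
  obtain ⟨κ', _, y, hxy⟩ := exists_dual x hP0
  have hM : μ ≤ mahlerInf (convexHull ℝ (range x)) := by
    by_contra hlt
    push Not at hlt
    have h1 := moat _ (convex_convexHull ℝ _) (isCompact_hull x) ⟨0, hP0⟩ hlt
      (descent hε'0.le h3' hε'1 moat hpol' _ ι κ' x y rfl hxy hlt)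
    have h2 : Near ε₂ K := by
      refine h1.homothety (c := 0) (σ := 1) (inv_pos.2 hs) zero_le_one
        (homothety_inv_left hs.ne' hx1) (by simpa using hx2) hKc.measure_lt_top.ne
        (h32.trans hε₂1) hε₂1.le ?_
      rw [inv_pow, ← div_eq_mul_inv, div_le_iff₀ (pow_pos hs _), one_pow, mul_one]
      exact hη2
    obtain ⟨e, he1, he2⟩ := h2.mono (min_le_left _ _)
    exact absurd (hfar e he1) (not_lt.2 he2)
  have hv : ENNReal.ofReal ((1 - η) ^ 3) * volume (polarS (convexHull ℝ (range x))) ≤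
      volume (polarS K) := by
    have h1 := Measure.addHaar_smul_of_nonneg (volume : Measure (E 3)) hs.le
      (polarS (convexHull ℝ (range x)))
    simp only [Module.finrank_fintype_fun_eq_card, Fintype.card_fin] at h1
    rw [← h1]
    refine measure_mono ?_
    rintro _ ⟨w, hw, rfl⟩ z hz
    have := hw _ (hx1 (mem_image_of_mem _ hz))
    simpa [AffineMap.homothety_apply] using this
  calc ENNReal.ofReal (1 + κ * ε₃ / 2) * m
      ≤ ENNReal.ofReal ((1 - η) ^ 3) * μ := by
        rw [hμ, ← mul_assoc, ← ENNReal.ofReal_mul (pow_pos hs _).le]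
        exact mul_le_mul_left (ENNReal.ofReal_le_ofReal (by linarith)) _
    _ ≤ ENNReal.ofReal ((1 - η) ^ 3) * mahlerInf (convexHull ℝ (range x)) := mul_le_mul_right hM _
    _ ≤ mahlerInf K := by
        rw [mahlerInf_polar hKc.isBounded (interior_subset hK0),
          mahlerInf_polar (isCompact_hull x).isBounded (interior_subset hP0), mul_left_comm,
          mul_left_comm (ENNReal.ofReal _)]
        exact mul_le_mul_right (mul_le_mul' (measure_mono hx2) hv) _

end Pool.Agent.MP_5f4cdd_gt.EF
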