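import Pool.Agent.MP_5f4cdd_gt.Unif
import Pool.Agent.MP_5f4cdd_gt.EFMain

set_option autoImplicit false
open MeasureTheory ENNReal Set Filter Topology

namespace Pool.Agent.MP_5f4cdd_gt

lemma exists_simplex_superset {n : ℕ} {K : Set (E n)} (hK : IsCompact K) :
    ∃ e : AffineEquiv ℝ (E n) (E n), K ⊆ e '' stdS n := by
  obtain ⟨R, hR, hKR⟩ := hK.isBounded.subset_closedBall_lt 0 0
  have hr : 0 < R * (n + 1) ^ 2 := by positivity
  refine ⟨(AffineEquiv.constVAdd ℝ (E n) (-cen n)).trans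
    (LinearEquiv.smulOfNeZero ℝ (E n) _ hr.ne').toAffineEquiv, fun x hx => ?_⟩
  have h1 : x ∈ cS n (R * (n + 1) ^ 2) := mem_cS_of_norm_le (by
    rw [mul_div_cancel_right₀ _ (by positivity)]
    simpa using hKR hx)
  have h2 := (smul_mem_cS (inv_pos.2 hr)).2 h1
  rw [inv_mul_cancel₀ hr.ne'] at h2
  refine ⟨(R * (n + 1) ^ 2)⁻¹ • x + cen n, mem_stdS_iff.2 (by rwa [add_sub_cancel_right]), ?_⟩
  change (R * (n + 1) ^ 2) • (-cen n + ((R * (n + 1) ^ 2)⁻¹ • x + cen n)) = x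
  rw [add_comm (-cen n), add_neg_cancel_right, smul_smul, mul_inv_cancel₀ hr.ne', one_smul]

theorem dim3_main : ∃ p₀ κ : ℝ, 0 < p₀ ∧ 0 < κ ∧ ∀ K : Set (Fin 3 → ℝ),
    Convex ℝ K → IsCompact K → (interior K).Nonempty →
      ∃ e : AffineEquiv ℝ (Fin 3 → ℝ) (Fin 3 → ℝ), K ⊆ e '' stdS 3 ∧
        (∀ p : ℝ, p₀ ≤ p →
          ENNReal.ofReal (1 + κ * (1 - (volume K).toReal / (volume (e '' stdS 3)).toReal)) *
            (⨅ x ∈ stdS 3, mahler p ((fun z => z - x) '' stdS 3)) ≤ mahler p K) ∧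
        ENNReal.ofReal (1 + κ * (1 - (volume K).toReal / (volume (e '' stdS 3)).toReal)) *
          (⨅ x ∈ stdS 3, mahlerInf ((fun z => z - x) '' stdS 3)) ≤ mahlerInf K := by
  obtain ⟨p₁, ε, κ, hp₁, hε, hκ, h⟩ := local_unif_both 3
  obtain ⟨c, hc, hfar⟩ := EF.far_of (local_inf 3) hε
  obtain ⟨p₂, hp₂⟩ := eventually_atTop.1 (mahler_cS_le_inf (n := 3) (η := c / (2 + c))
    (by positivity))
  refine ⟨max p₁ p₂, min κ (c / 2), lt_max_of_lt_left hp₁, by positivity, fun K hKc hKk hKi => ?_⟩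
  rw [iInfInf_eq]
  have hw : ∀ e : AffineEquiv ℝ (E 3) (E 3), K ⊆ e '' stdS 3 →
      0 ≤ 1 - (volume K).toReal / (volume (e '' stdS 3)).toReal := by
    intro e he
    have hSt : volume (e '' stdS 3) ≠ ∞ := by
      rw [volume_image_affine, volume_stdS]
      exact ENNReal.mul_ne_top ENNReal.ofReal_ne_top (volume_cS_lt_top zero_le_one).ne
    exact sub_nonneg.2
      (div_le_one_of_le₀ (ENNReal.toReal_mono hSt (measure_mono he)) ENNReal.toReal_nonneg)
  by_cases hn : ∃ e : AffineEquiv ℝ (E 3) (E 3), K ⊆ e '' stdS 3 ∧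
      (1 - ε) * (volume (e '' stdS 3)).toReal ≤ (volume K).toReal
  · obtain ⟨e, hKe, hv⟩ := hn
    obtain ⟨e', h1, h2, h3⟩ := h K hKc hKk hKi e hKe hv
    have h4 : ENNReal.ofReal
        (1 + min κ (c / 2) * (1 - (volume K).toReal / (volume (e' '' stdS 3)).toReal)) ≤
        ENNReal.ofReal (1 + κ * (1 - (volume K).toReal / (volume (e' '' stdS 3)).toReal)) :=
      ENNReal.ofReal_le_ofReal (by
        linarith [mul_le_mul_of_nonneg_right (min_le_left κ (c / 2)) (hw e' h1)])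
    refine ⟨e', h1, fun p hp => ?_, (mul_le_mul_left h4 _).trans h3⟩
    have hp1 := (le_max_left _ _).trans hp
    rw [iInf_eq (hp₁.trans_le hp1)]
    exact (mul_le_mul_left h4 _).trans (h2 p hp1)
  · have h1 := hfar K hKc hKk hKi fun e he => not_le.1 fun h' => hn ⟨e, he, h'⟩
    obtain ⟨e, he⟩ := exists_simplex_superset hKk
    have h2 : 1 + min κ (c / 2) * (1 - (volume K).toReal / (volume (e '' stdS 3)).toReal) ≤
        1 + c / 2 := by
      have h3 : 0 ≤ (volume K).toReal / (volume (e '' stdS 3)).toReal := by positivity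
      nlinarith [mul_le_mul_of_nonneg_right (min_le_right κ (c / 2)) (hw e he)]
    refine ⟨e, he, fun p hp => ?_,
      (mul_le_mul_left (ENNReal.ofReal_le_ofReal (by linarith)) _).trans h1⟩
    have hp0 := hp₁.trans_le ((le_max_left _ _).trans hp)
    rw [iInf_eq hp0]
    refine le_trans (mul_le_mul' (ENNReal.ofReal_le_ofReal h2)
      (hp₂ p ((le_max_right _ _).trans hp))) (le_trans (le_of_eq ?_)
        (h1.trans (mahlerInf_le_mahler hKk hKi hp0)))
    rw [← mul_assoc, ← ENNReal.ofReal_mul (by positivity)]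
    congr 2
    field_simp
    ring

end Pool.Agent.MP_5f4cdd_gt
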