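import Pool.Agent.MP_5f4cdd_gt.ABPolar
import Pool.Agent.MP_5f4cdd_gt.ABDefs
import Pool.Agent.MP_5f4cdd_gt.Dim3Main

set_option autoImplicit false
open MeasureTheory ENNReal Set Filter Topology Function Matrix Pointwise Bornology

namespace Pool.Agent.MP_5f4cdd_gt.AB

open PL EF

variable {n : ℕ}

lemma antiB_of_lab {L : Set (E n)} (hL : Convex ℝ L) (cL : IsCompact L) (h0 : ∀ x ∈ L, 0 ≤ x)
    (hz : ∀ x ∈ L, ∀ i, update x i 0 ∈ L) : AntiB L := by
  refine ⟨hL, cL, h0, fun x hx y hy hyx => ?_⟩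
  have key : ∀ t : Finset (Fin n), t.piecewise y x ∈ L := by
    intro t
    induction t using Finset.induction_on with
    | empty => simpa using hx
    | insert i t hi ih =>
      obtain ⟨l, l0, l1, hl⟩ := exists_ratio (hy i) (hyx i)
      have := sc_mem (i := i) hL (fun z hz' => by rw [sc_apply, zero_mul]; exact hz z hz' i) ih l0 l1
      rwa [sc_apply, Finset.piecewise_eq_of_notMem _ _ _ hi, ← hl, ← Finset.piecewise_insert] at this
  simpa using key Finset.univ

theorem good_lab {ε ε' : ℝ} {μ : ℝ≥0∞} (hεε' : ε < ε') (hε' : ε' < 1)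
    (moat : ∀ K : Set (E n), Convex ℝ K → IsCompact K → (interior K).Nonempty →
      mstarInf K < μ → EF.Near ε' K → EF.Near ε K) (hA : ∀ L : Set (E n), AntiB L → Good ε μ L)
    (s : Finset (Fin n)) : ∀ K : Set (E n), Convex ℝ K → IsCompact K →
      (∀ x ∈ K, ∀ i, update x i 0 ∈ K) →
      (∀ i, i ∉ s → (∀ x ∈ K, 0 ≤ x i) ∨ ∀ x ∈ K, x i ≤ 0) → Good ε μ K := by
  classical
  induction s using Finset.induction_on with
  | empty =>
    intro K hK cK hz hs
    set d : E n := fun i => if ∀ x ∈ K, 0 ≤ x i then 1 else -1 with hd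
    refine Good.of_dg (d := d) (fun i => by simp only [hd]; split_ifs <;> simp) (hA _
      (antiB_of_lab (hK.linear_image _) (isCompact_dg _ cK) ?_ ?_)) (hεε'.trans hε')
    · rintro _ ⟨x, hx, rfl⟩ i
      rw [dg_apply]
      simp only [hd]
      split_ifs with h
      · simpa using h x hx
      · simpa using (hs i (Finset.notMem_empty i)).resolve_left h x hx
    · rintro _ ⟨x, hx, rfl⟩ i
      refine ⟨_, hz x hx i, ?_⟩
      ext j
      rcases eq_or_ne j i with rfl | hj
      · simp [dg_apply]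
      · simp [dg_apply, hj]
  | insert i s hi ih =>
    intro K hK cK hz hs
    refine Good.glue hεε' hε' moat (i := i) hK cK (fun x hx => hz x hx i) (ih _ ?_ ?_ ?_ ?_)
      (ih _ ?_ ?_ ?_ ?_)
    · exact hK.inter (convex_halfSpace_ge (LinearMap.proj i : E n →ₗ[ℝ] ℝ).isLinear 0)
    · exact cK.inter_right (isClosed_le continuous_const (continuous_apply i))
    · refine fun x hx j => ⟨hz x hx.1 j, ?_⟩
      rcases eq_or_ne i j with rfl | hj
      · simp
      · simpa [hj] using hx.2
    · intro j hj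
      rcases eq_or_ne j i with rfl | h
      · exact Or.inl fun x hx => hx.2
      · exact (hs j (by simp [h, hj])).imp (fun h x hx => h x hx.1) fun h x hx => h x hx.1
    · exact hK.inter (convex_halfSpace_le (LinearMap.proj i : E n →ₗ[ℝ] ℝ).isLinear 0)
    · exact cK.inter_right (isClosed_le (continuous_apply i) continuous_const)
    · refine fun x hx j => ⟨hz x hx.1 j, ?_⟩
      rcases eq_or_ne i j with rfl | hj
      · simp
      · simpa [hj] using hx.2
    · intro j hj
      rcases eq_or_ne j i with rfl | h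
      · exact Or.inr fun x hx => hx.2
      · exact (hs j (by simp [h, hj])).imp (fun h x hx => h x hx.1) fun h x hx => h x hx.1

lemma polar_near' (n : ℕ) {C ε' : ℝ} (hC : 0 < C) (h0 : 0 < ε') (h1 : ε' < 1) :
    ∃ ε > 0, ∀ K : Set (E n), Convex ℝ K → IsCompact K → 0 ∈ interior K → EF.Near ε K →
      (volume K).toReal * (volume (polarS K)).toReal ≤ C → EF.Near ε' (polarS K) := by
  cases n with
  | succ m => exact polar_near hC h0 h1
  | zero =>
    refine ⟨1, one_pos, fun K _ _ _ _ _ => ?_⟩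
    have := (near_simplex (AffineEquiv.refl ℝ (E 0))).mono h0.le
    convert this using 1
    ext x
    simp [polarS, stdS, dotProduct, Subsingleton.elim x 0]

theorem far_gen (n : ℕ) {ε : ℝ} (hε : 0 < ε) : ∃ c : ℝ, 0 < c ∧ ∀ K : Set (E n), ABGen K →
    Body K ∧ Good ε (ENNReal.ofReal (1 + c) * mahlerInf (cS n 1)) K := by
  obtain ⟨εA, κ, hεA, hκ, hA⟩ := local_inf n
  set m := mahlerInf (cS n 1) with hm
  have hmt : m ≠ ∞ := mahlerInf_cS_lt_top.ne
  set ε' := min εA (1 / 2) with hε'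
  have hε'0 : 0 < ε' := by positivity
  have hε'1 : ε' < 1 := (min_le_right _ _).trans_lt (by norm_num)
  obtain ⟨ε₁, hε₁, hpol⟩ := polar_near' n (C := (1 + κ) * m.toReal + 1) (by positivity) hε'0 hε'1
  set ε₃ := min (min ε (ε' / 2)) ε₁ with hε₃
  have hε₃0 : 0 < ε₃ := by positivity
  have h3' : ε₃ < ε' := ((min_le_left _ _).trans (min_le_right _ _)).trans_lt (by linarith)
  have h31 := h3'.trans hε'1
  obtain ⟨c₁, hc₁, hanti⟩ := good_anti n hε₃0 h31
  set c := min c₁ (κ * ε₃) with hc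
  have hc2 : c ≤ κ * ε₃ := min_le_right _ _
  set μ := ENNReal.ofReal (1 + c) * m with hμ
  have moat : ∀ K : Set (E n), Convex ℝ K → IsCompact K → (interior K).Nonempty →
      mstarInf K < μ → EF.Near ε' K → EF.Near ε₃ K := by
    intro K hK hKc hKi hM hN
    obtain ⟨a, ha⟩ := iInf_lt_iff.1 hM
    rw [← near_sub_iff h31 K a]
    rw [← near_sub_iff hε'1 K a] at hN
    obtain ⟨e, he1, he2⟩ := hN.mono (min_le_left _ _)
    obtain ⟨e', h1, h2⟩ := hA _ (convex_image_sub hK a) (isCompact_image_sub hKc a)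
      (interior_image_sub hKi a) e he1 he2
    refine ⟨e', h1, ?_⟩
    by_contra hc
    push Not at hc
    rw [← div_lt_iff₀ (toReal_simplex_pos e')] at hc
    refine absurd ha (not_lt.2 (le_trans ?_ h2))
    exact mul_le_mul_left (ENNReal.ofReal_le_ofReal (by nlinarith)) _
  suffices h : ∀ K : Set (E n), ABGen K → Body K ∧ Good ε₃ μ K from
    ⟨c, by positivity, fun K hK => ⟨(h K hK).1, fun hi hM => ((h K hK).2 hi hM).mono
      ((min_le_left _ _).trans (min_le_left _ _))⟩⟩
  intro K hK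
  induction hK with
  | lab K hK cK hi hz =>
    refine ⟨⟨hK, cK, hi⟩, good_lab h3' hε'1 moat (fun L hL hi hM => hanti L hL hi (hM.trans_le
      (mul_le_mul_left (ENNReal.ofReal_le_ofReal ?_) _))) Finset.univ K hK cK hz (by simp)⟩
    linarith [min_le_left c₁ (κ * ε₃)]
  | image K e _ ih =>
    exact ⟨⟨ih.1.conv.affine_image e.toAffineMap, ih.1.comp.image e.continuous_of_finiteDimensional,
      (interior_affine e K).2 ih.1.int⟩, ih.2.image h31 e⟩
  | fibre K L i _ _ hs ihK ihL =>
    have hs' : sc i 0 '' K = sc i 0 '' L := by simpa [sc_apply] using hs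
    have e : {x : E n | ∃ s t : ℝ, update x i s ∈ K ∧ update x i t ∈ L ∧ x i = s + t} =
        φ i 1 1 '' Zs i K L := by ext x; simp only [mem_fib, one_mul, mem_ofPred_eq]
    rw [e]
    exact ⟨body_fib ihK.1 ihL.1 hs' zero_le_one zero_le_one (Or.inl one_pos),
      Good.fib h3' hε'1 moat ihK.1 ihL.1 hs' ihK.2 ihL.2⟩
  | polar K _ hc ih =>
    have h0 := zero_mem_of_centroid ih.1 hc
    have hB := body_polar ih.1 h0
    refine ⟨hB, fun hi hM => moat _ hB.conv hB.comp hi hM ?_⟩
    have h1 := (mahlerInf_le_mstarInf_polar ih.1 hc).trans_lt hM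
    refine hpol K ih.1.conv ih.1.comp h0 ((ih.2 ih.1.int (lt_of_le_of_lt
      ((iInf_le _ 0).trans (by simp)) h1)).mono (min_le_right _ _)) ?_
    have h2 : volume K * volume (polarS K) ≤ ENNReal.ofReal (1 + κ) * m := by
      refine le_trans ?_ (h1.le.trans
        (mul_le_mul_left (ENNReal.ofReal_le_ofReal (by nlinarith)) _))
      rw [mahlerInf_polar ih.1.comp.isBounded (interior_subset h0)]
      exact le_mul_of_one_le_left' (by exact_mod_cast n.factorial_pos)
    have h3 := ENNReal.toReal_mono (ENNReal.mul_ne_top ENNReal.ofReal_ne_top hmt) h2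
    rw [ENNReal.toReal_mul, ENNReal.toReal_mul, ENNReal.toReal_ofReal (by positivity)] at h3
    linarith
  | limit K L hK cK hi _ ht ih =>
    exact ⟨⟨hK, cK, hi⟩, Good.lim h3' hε'1 moat ⟨hK, cK, hi⟩ (fun j => (ih j).1)
      (fun j => (ih j).2) ht⟩

theorem ab_main (n : ℕ) : ∃ p₀ κ : ℝ, 0 < p₀ ∧ 0 < κ ∧ ∀ K : Set (Fin n → ℝ), ABGen K →
      ∃ e : AffineEquiv ℝ (Fin n → ℝ) (Fin n → ℝ), K ⊆ e '' stdS n ∧
        (∀ p : ℝ, p₀ ≤ p →
          ENNReal.ofReal (1 + κ * (1 - (volume K).toReal / (volume (e '' stdS n)).toReal)) *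
            (⨅ x ∈ stdS n, mahler p ((fun z => z - x) '' stdS n)) ≤ mahler p K) ∧
        ENNReal.ofReal (1 + κ * (1 - (volume K).toReal / (volume (e '' stdS n)).toReal)) *
          (⨅ x ∈ stdS n, mahlerInf ((fun z => z - x) '' stdS n)) ≤ mahlerInf K := by
  obtain ⟨p₁, ε, κ, hp₁, hε, hκ, h⟩ := local_unif_both n
  obtain ⟨c, hc, hfar⟩ := far_gen n hε
  obtain ⟨p₂, hp₂⟩ := eventually_atTop.1 (mahler_cS_le_inf (n := n) (η := c / (2 + c))
    (by positivity))
  refine ⟨max p₁ p₂, min κ (c / 2), lt_max_of_lt_left hp₁, by positivity, fun K hK => ?_⟩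
  obtain ⟨⟨hKc, hKk, hKi⟩, hG⟩ := hfar K hK
  rw [iInfInf_eq]
  have hw : ∀ e : AffineEquiv ℝ (E n) (E n), K ⊆ e '' stdS n →
      0 ≤ 1 - (volume K).toReal / (volume (e '' stdS n)).toReal := by
    intro e he
    have hSt : volume (e '' stdS n) ≠ ∞ := by
      rw [volume_image_affine, volume_stdS]
      exact ENNReal.mul_ne_top ENNReal.ofReal_ne_top (volume_cS_lt_top zero_le_one).ne
    exact sub_nonneg.2
      (div_le_one_of_le₀ (ENNReal.toReal_mono hSt (measure_mono he)) ENNReal.toReal_nonneg)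
  by_cases hn : EF.Near ε K
  · obtain ⟨e, hKe, hv⟩ := hn
    obtain ⟨e', h1, h2, h3⟩ := h K hKc hKk hKi e hKe hv
    have h4 : ENNReal.ofReal
        (1 + min κ (c / 2) * (1 - (volume K).toReal / (volume (e' '' stdS n)).toReal)) ≤
        ENNReal.ofReal (1 + κ * (1 - (volume K).toReal / (volume (e' '' stdS n)).toReal)) :=
      ENNReal.ofReal_le_ofReal (by
        linarith [mul_le_mul_of_nonneg_right (min_le_left κ (c / 2)) (hw e' h1)])
    refine ⟨e', h1, fun p hp => ?_, (mul_le_mul_left h4 _).trans h3⟩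
    have hp1 := (le_max_left _ _).trans hp
    rw [iInf_eq (hp₁.trans_le hp1)]
    exact (mul_le_mul_left h4 _).trans (h2 p hp1)
  · have h1 : ENNReal.ofReal (1 + c) * mahlerInf (cS n 1) ≤ mahlerInf K :=
      (not_lt.1 fun hM => hn (hG hKi hM)).trans ((iInf_le _ 0).trans (by simp))
    obtain ⟨e, he⟩ := exists_simplex_superset hKk
    have h2 : 1 + min κ (c / 2) * (1 - (volume K).toReal / (volume (e '' stdS n)).toReal) ≤
        1 + c / 2 := by
      have h3 : 0 ≤ (volume K).toReal / (volume (e '' stdS n)).toReal := by positivity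
      nlinarith [mul_le_mul_of_nonneg_right (min_le_right κ (c / 2)) (hw e he)]
    refine ⟨e, he, fun p hp => ?_,
      (mul_le_mul_left (ENNReal.ofReal_le_ofReal (by linarith)) _).trans h1⟩
    have hp0 := hp₁.trans_le ((le_max_left _ _).trans hp)
    rw [iInf_eq hp0]
    refine le_trans (mul_le_mul' (ENNReal.ofReal_le_ofReal h2)
      (hp₂ p ((le_max_right _ _).trans hp))) (le_trans (le_of_eq ?_)
        (h1.trans (mahlerInf_le_mahler hKk hKi hp0)))
    rw [← mul_assoc, ← ENNReal.ofReal_mul (by positivity)]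
    congr 2
    field_simp
    ring

end Pool.Agent.MP_5f4cdd_gt.AB
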