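import Pool.Agent.MP_5f4cdd_gt.ABFib

set_option autoImplicit false
open MeasureTheory ENNReal Set Filter Topology Function Matrix Pointwise Bornology

namespace Pool.Agent.MP_5f4cdd_gt.AB

open PL EF

variable {n : ℕ}

lemma measurable_dotE (c : E n) : Measurable fun y : E n => ENNReal.ofReal (c ⬝ᵥ y) :=
  (measurable_dot c).ennreal_ofReal

lemma setLIntegral_smul_dot {P : Set (E n)} (hP : MeasurableSet P) (c : E n) {s : ℝ} (hs : 0 < s) :
    ∫⁻ y in s • P, ENNReal.ofReal (c ⬝ᵥ y) =
      ENNReal.ofReal (s ^ (n + 1)) * ∫⁻ y in P, ENNReal.ofReal (c ⬝ᵥ y) := by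
  have hd : LinearMap.det (s⁻¹ • LinearMap.id : E n →ₗ[ℝ] E n) = s⁻¹ ^ n := by
    simp [LinearMap.det_smul]
  have h := lintegral_comp_lin' (s⁻¹ • LinearMap.id : E n →ₗ[ℝ] E n) (by rw [hd]; positivity)
    (P.indicator fun y => ENNReal.ofReal (c ⬝ᵥ y))
  rw [hd, inv_pow, inv_inv, abs_of_pos (by positivity), lintegral_indicator hP] at h
  rw [pow_succ', ENNReal.ofReal_mul hs.le, mul_assoc, ← h, ← lintegral_indicator (hP.const_smul₀ s),
    ← lintegral_const_mul' _ _ ENNReal.ofReal_ne_top]
  refine lintegral_congr fun y => ?_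
  by_cases hy : s⁻¹ • y ∈ P
  · rw [indicator_of_mem ((mem_smul_set_iff_inv_smul_mem₀ hs.ne' _ _).2 hy)]
    simp only [LinearMap.smul_apply, LinearMap.id_apply, indicator_of_mem hy, dotProduct_smul,
      smul_eq_mul]
    rw [← ENNReal.ofReal_mul hs.le, mul_inv_cancel_left₀ hs.ne']
  · rw [indicator_of_notMem fun h => hy ((mem_smul_set_iff_inv_smul_mem₀ hs.ne' _ _).1 h)]
    simp [indicator_of_notMem hy]

lemma moment {L : Set (E n)} (hL : IsBounded L) (h0 : (0 : E n) ∈ L) (c : E n) :
    ∫⁻ y, expS L y * ENNReal.ofReal (c ⬝ᵥ y) =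
      ((n + 1).factorial : ℝ≥0∞) * ∫⁻ y in polarS L, ENNReal.ofReal (c ⬝ᵥ y) := by
  have hn : L.Nonempty := ⟨0, h0⟩
  have hpos : ∀ y, 0 ≤ suppF L y := fun y => by simpa using dot_le_suppF hL h0 y
  have hm := (continuous_suppF hL).measurable
  have hq : MeasurableSet {q : E n × ℝ | suppF L q.1 ≤ q.2} :=
    measurableSet_le (hm.comp measurable_fst) measurable_snd
  have e0 : ∀ y, expS L y * ENNReal.ofReal (c ⬝ᵥ y) = ∫⁻ s in Ioi (0 : ℝ),
      {q : E n × ℝ | suppF L q.1 ≤ q.2}.indicator
        (fun q => ENNReal.ofReal (Real.exp (-q.2)) * ENNReal.ofReal (c ⬝ᵥ q.1)) (y, s) := by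
    intro y
    rw [expS, exp_neg_eq (hpos _), ← lintegral_mul_const' _ _ ENNReal.ofReal_ne_top]
    refine lintegral_congr fun s => ?_
    simp only [indicator, mem_Ici, mem_ofPred_eq, ite_mul, zero_mul]
  simp only [e0]
  rw [lintegral_lintegral_swap]
  · rw [← lintegral_gamma, ← lintegral_mul_const _ (by fun_prop)]
    refine setLIntegral_congr_fun measurableSet_Ioi fun s hs => ?_
    have hs' : 0 < s := hs
    have e : ∀ y, {q : E n × ℝ | suppF L q.1 ≤ q.2}.indicator
        (fun q => ENNReal.ofReal (Real.exp (-q.2)) * ENNReal.ofReal (c ⬝ᵥ q.1)) (y, s) =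
        {y | suppF L y ≤ s}.indicator
          (fun y => ENNReal.ofReal (Real.exp (-s)) * ENNReal.ofReal (c ⬝ᵥ y)) y := fun y => by
      simp only [indicator, mem_ofPred_eq]
    simp only [e]
    rw [lintegral_indicator (measurableSet_le hm measurable_const),
      lintegral_const_mul' _ _ ENNReal.ofReal_ne_top, level_eq_smul hL hn hs',
      setLIntegral_smul_dot (isClosed_polarS L).measurableSet c hs',
      ENNReal.ofReal_mul (Real.exp_pos _).le, mul_assoc]
  · exact (Measurable.indicator (Measurable.mul (by fun_prop)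
      ((measurable_dotE c).comp measurable_fst)) hq).aemeasurable

lemma bipolar {L : Set (E n)} (hL : Convex ℝ L) (cL : IsClosed L) (h0 : (0 : E n) ∈ L) :
    polarS (polarS L) = L := by
  refine Subset.antisymm (fun x hx => ?_) fun x hx w hw => by rw [dotProduct_comm]; exact hw x hx
  by_contra hn
  obtain ⟨f, u, h1, h2⟩ := geometric_hahn_banach_closed_point hL cL hn
  obtain ⟨v, hv⟩ := PL.exists_dot_eq f
  have hu : 0 < u := by simpa using h1 0 h0
  have := hx (u⁻¹ • v) fun z hz => by
    rw [dotProduct_smul, smul_eq_mul, ← hv, inv_mul_le_iff₀ hu, mul_one]; exact (h1 z hz).le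
  rw [smul_dotProduct, dotProduct_comm, smul_eq_mul, ← hv, inv_mul_le_iff₀ hu, mul_one] at this
  exact this.not_gt h2

lemma convex_polarS (L : Set (E n)) : Convex ℝ (polarS L) := fun x hx y hy a b ha hb hab z hz => by
  rw [dotProduct_add, dotProduct_smul, dotProduct_smul, smul_eq_mul, smul_eq_mul]
  nlinarith [hx z hz, hy z hz]

lemma pos_eq_neg {L : Set (E n)} (cL : IsCompact L) (hc : ∫ x in L, x = 0) (c : E n) :
    ∫⁻ y in L, ENNReal.ofReal (c ⬝ᵥ y) = ∫⁻ y in L, ENNReal.ofReal (-c ⬝ᵥ y) ∧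
      ∫⁻ y in L, ENNReal.ofReal (c ⬝ᵥ y) ≠ ∞ := by
  have hi : IntegrableOn (fun y : E n => c ⬝ᵥ y) L :=
    (Continuous.continuousOn (by fun_prop)).integrableOn_compact cL
  have h1 : ∫ y in L, c ⬝ᵥ y = 0 := by
    have := ((dotProductBilin ℝ ℝ c).toContinuousLinearMap).integral_comp_comm
      (continuousOn_id.integrableOn_compact (μ := volume) cL)
    simpa [hc] using this
  rw [integral_eq_lintegral_pos_part_sub_lintegral_neg_part hi, sub_eq_zero] at h1
  have f1 := hi.lintegral_lt_top.ne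
  have f2 := hi.neg.lintegral_lt_top.ne
  simp only [neg_dotProduct]
  exact ⟨(ENNReal.toReal_eq_toReal_iff' f1 f2).1 h1, f1⟩

lemma zero_mem_of_centroid {L : Set (E n)} (hL : Body L) (hc : ∫ x in L, x = 0) :
    (0 : E n) ∈ interior L := by
  by_contra h0
  obtain ⟨v, hv, h⟩ := exists_sep hL.conv hL.int h0
  have h1 := (pos_eq_neg hL.comp hc v).1
  rw [setLIntegral_congr_fun hL.comp.measurableSet (g := fun _ => 0) (fun y hy => by
    simpa [dotProduct_comm] using h y hy), lintegral_zero, eq_comm,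
    lintegral_eq_zero_iff (measurable_dotE _), EventuallyEq,
    ae_restrict_iff' hL.comp.measurableSet] at h1
  refine (Measure.measure_pos_of_nonempty_interior volume hL.int).ne' (measure_mono_null
    (fun y hy => ?_) (measure_union_null (ae_iff.1 h1) (volume_dot_zero hv)))
  by_contra h2
  simp only [mem_union, mem_ofPred_eq, not_or, not_not] at h2
  have h3 := h y hy
  have h4 := h2.1 hy
  simp only [sub_zero, neg_dotProduct, Pi.zero_apply, ENNReal.ofReal_eq_zero, dotProduct_comm y]
    at h3 h4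
  exact h2.2 (by linarith)

lemma body_polar {L : Set (E n)} (hL : Body L) (h0 : (0 : E n) ∈ interior L) : Body (polarS L) :=
  ⟨convex_polarS L,
    Metric.isCompact_of_isClosed_isBounded (isClosed_polarS _) (isBounded_polarS h0),
    ⟨0, zero_mem_interior_polarS hL.comp.isBounded⟩⟩

/-- the polar body of a body with centroid at the origin has its Santalo point there -/
lemma mahlerInf_le_mstarInf_polar {L : Set (E n)} (hL : Body L) (hc : ∫ x in L, x = 0) :
    mahlerInf L ≤ mstarInf (polarS L) := by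
  have h0 := zero_mem_of_centroid hL hc
  have hK := body_polar hL h0
  have k0 : (0 : E n) ∈ polarS L := fun z _ => by simp
  have hb := bipolar hL.conv hL.comp.isClosed (interior_subset h0)
  have hJ := lintegral_expS hK.comp.isBounded k0
  rw [hb] at hJ
  rw [mstarInf_eq hK.comp.isBounded ⟨0, k0⟩, mahlerInf_polar hL.comp.isBounded (interior_subset h0),
    ← mul_assoc, ← hJ, mul_comm]
  refine mul_le_mul_right (le_iInf fun c => ?_) _
  obtain ⟨h1, h2⟩ := pos_eq_neg hL.comp hc c
  have m1 := moment hK.comp.isBounded k0 c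
  have m2 := moment hK.comp.isBounded k0 (-c)
  rw [hb] at m1 m2
  rw [← h1, ← m1] at m2
  have mE := measurable_expS hK.comp.isBounded
  refine ENNReal.le_of_add_le_add_right (a := ∫⁻ y, expS (polarS L) y * ENNReal.ofReal (c ⬝ᵥ y))
    (by rw [m1]; exact ENNReal.mul_ne_top (by simp) h2) ?_
  nth_rewrite 2 [← m2]
  rw [← lintegral_add_left mE, ← lintegral_add_right _ (mE.fun_mul (measurable_dotE _))]
  refine lintegral_mono fun y => ?_
  rw [← mul_add, ← mul_one_add]
  refine mul_le_mul_right ?_ _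
  have h3 := Real.add_one_le_exp (c ⬝ᵥ y)
  rw [neg_dotProduct]
  rcases le_total 0 (c ⬝ᵥ y) with h | h
  · rw [← ENNReal.ofReal_one, ← ENNReal.ofReal_add zero_le_one h]
    exact le_add_right (ENNReal.ofReal_le_ofReal (by linarith))
  · rw [ENNReal.ofReal_of_nonpos h, add_zero, ← ENNReal.ofReal_add (Real.exp_pos _).le (by linarith),
      ← ENNReal.ofReal_one]
    exact ENNReal.ofReal_le_ofReal (by linarith)

end Pool.Agent.MP_5f4cdd_gt.AB
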