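import Pool.Agent.MP_5f4cdd_gt.Radial

set_option autoImplicit false
open MeasureTheory ENNReal Set Matrix

namespace Pool.Agent.MP_5f4cdd_gt

variable {m : ℕ}

lemma ennreal_rearr {a b x y : ℝ≥0∞} (hab : a ≤ b) (hxy : x ≤ y) :
    a * y + b * x ≤ a * x + b * y := by
  obtain ⟨d, rfl⟩ := exists_add_of_le hab
  obtain ⟨e, rfl⟩ := exists_add_of_le hxy
  calc a * (x + e) + (a + d) * x ≤ a * (x + e) + (a + d) * x + d * e := le_self_add
    _ = a * x + (a + d) * (x + e) := by ring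

lemma ennreal_rearr_lt {a b x y : ℝ≥0∞} (hab : a < b) (hxy : x < y) (hb : b ≠ ∞) (hy : y ≠ ∞) :
    a * y + b * x < a * x + b * y := by
  lift b to NNReal using hb
  lift y to NNReal using hy
  lift a to NNReal using (hab.trans coe_lt_top).ne
  lift x to NNReal using (hxy.trans coe_lt_top).ne
  norm_cast at *
  exact mul_add_mul_lt_mul_add_mul hab hxy

lemma cheb {ν : Measure ℝ} [SFinite ν] {F G W : ℝ → ℝ≥0∞} (hFm : Measurable F)
    (hGm : Measurable G) (hWm : Measurable W) {D : Set ℝ} (hD : ∀ᵐ s ∂ν, s ∈ D)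
    (hF : MonotoneOn F D) (hGW : ∀ r ∈ D, ∀ s ∈ D, s ≤ r → G s * W r ≤ G r * W s) :
    (∫⁻ s, F s * W s ∂ν) * (∫⁻ s, G s ∂ν) ≤ (∫⁻ s, W s ∂ν) * (∫⁻ s, F s * G s ∂ν) := by
  have h1 := lintegral_prod_mul (μ := ν) (ν := ν) (hFm.mul hWm).aemeasurable hGm.aemeasurable
  have h2 := lintegral_prod_mul (μ := ν) (ν := ν) hGm.aemeasurable (hFm.mul hWm).aemeasurable
  have h3 := lintegral_prod_mul (μ := ν) (ν := ν) (hFm.mul hGm).aemeasurable hWm.aemeasurable
  have h4 := lintegral_prod_mul (μ := ν) (ν := ν) hWm.aemeasurable (hFm.mul hGm).aemeasurable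
  have key : ∫⁻ z : ℝ × ℝ, (F z.1 * W z.1 * G z.2 + G z.1 * (F z.2 * W z.2)) ∂ν.prod ν ≤
      ∫⁻ z : ℝ × ℝ, (F z.1 * G z.1 * W z.2 + W z.1 * (F z.2 * G z.2)) ∂ν.prod ν := by
    refine lintegral_mono_ae ?_
    filter_upwards [Measure.quasiMeasurePreserving_fst.ae hD,
      Measure.quasiMeasurePreserving_snd.ae hD] with z h1 h2
    rcases le_total z.1 z.2 with h | h
    · have := ennreal_rearr (hF h1 h2 h) (hGW _ h2 _ h1 h)
      calc _ = F z.1 * (G z.2 * W z.1) + F z.2 * (G z.1 * W z.2) := by ring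
        _ ≤ _ := this
        _ = _ := by ring
    · have := ennreal_rearr (hF h2 h1 h) (hGW _ h1 _ h2 h)
      calc _ = F z.2 * (G z.1 * W z.2) + F z.1 * (G z.2 * W z.1) := by ring
        _ ≤ _ := this
        _ = _ := by ring
  rw [lintegral_add_left (by fun_prop), lintegral_add_left (by fun_prop)] at key
  simp only [Pi.mul_apply] at h1 h2 h3 h4
  rw [h1, h2, h3, h4, mul_comm (∫⁻ s, G s ∂ν), mul_comm (∫⁻ s, F s * G s ∂ν), ← two_mul,
    ← two_mul] at key
  exact (ENNReal.mul_le_mul_iff_right two_ne_zero ofNat_ne_top).1 key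

/-- point at radius `s` towards the facet point `l` -/
noncomputable def Rs (s : ℝ) (l : E (m + 1)) : E (m + 2) :=
  uu (m + 1) + s • ((Fin.cons 0 l : E (m + 2)) - uu (m + 1))

lemma ray_mem {x : E (m + 1)} (hx : x ∈ stdSimplex ℝ (Fin (m + 1))) {s : ℝ} (h0 : 0 ≤ s)
    (h1 : s ≤ 1) : uu m + s • (x - uu m) ∈ stdSimplex ℝ (Fin (m + 1)) :=
  (convex_stdSimplex ℝ _).add_smul_sub_mem uu_mem hx ⟨h0, h1⟩

lemma cons_mem {k : ℕ} {l : E k} (hl : l ∈ stdSimplex ℝ (Fin k)) :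
    (Fin.cons 0 l : E (k + 1)) ∈ stdSimplex ℝ (Fin (k + 1)) := by
  refine ⟨fun j => ?_, ?_⟩
  · refine Fin.cases ?_ (fun i => ?_) j
    · simp
    · simpa using hl.1 i
  · rw [Fin.sum_univ_succ]; simpa using hl.2

lemma Rs_mem {l : E (m + 1)} (hl : l ∈ stdSimplex ℝ (Fin (m + 1))) {s : ℝ} (h0 : 0 ≤ s)
    (h1 : s ≤ 1) : Rs s l ∈ stdSimplex ℝ (Fin (m + 2)) := ray_mem (cons_mem hl) h0 h1

lemma measurable_Rs : Measurable fun q : ℝ × E (m + 1) => Rs q.1 q.2 := by
  have : Measurable fun q : ℝ × E (m + 1) => (Fin.cons 0 q.2 : E (m + 2)) :=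
    measurable_cons.comp (f := fun q : ℝ × E (m + 1) => ((0 : ℝ), q.2)) (by fun_prop)
  unfold Rs
  fun_prop

lemma measurable_Rs' (s : ℝ) : Measurable fun l : E (m + 1) => Rs s l :=
  measurable_Rs.comp (f := fun l : E (m + 1) => (s, l)) (by fun_prop)

lemma measurable_bar {H : E (m + 2) → ℝ≥0∞} (hH : Measurable H) :
    Measurable fun s : ℝ => ∫⁻ l, H (Rs s l) ∂mu m :=
  Measurable.lintegral_prod_right' (f := fun q : ℝ × E (m + 1) => H (Rs q.1 q.2))
    (hH.comp measurable_Rs)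

lemma lintegral_mu_succ {H : E (m + 2) → ℝ≥0∞} (hH : Measurable H)
    (hs : ∀ σ : Equiv.Perm (Fin (m + 2)), ∀ x ∈ stdSimplex ℝ (Fin (m + 2)), H (x ∘ σ) = H x) :
    ∫⁻ l, H l ∂mu (m + 1) = ((m + 2 : ℕ) * kap (m + 1)) * ∫⁻ s in Ioc (0 : ℝ) 1,
      ENNReal.ofReal (s ^ m) * ∫⁻ l, H (Rs s l) ∂mu m := by
  rw [lintegral_mu hH, ← lintegral_indicator (measurableSet_cS 1),
    lintegral_radial (h := (cS (m + 1) 1).indicator fun z => H (uu (m + 1) + bet (m + 1) z))
      ((hH.comp continuous_ubet.measurable).indicator (measurableSet_cS 1))]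
  have : ∀ j : Fin (m + 2), ∫⁻ s in Ioi (0 : ℝ), ENNReal.ofReal (s ^ m) *
      ∫⁻ l, (cS (m + 1) 1).indicator (fun z => H (uu (m + 1) + bet (m + 1) z))
        (s • Pj (m + 1) j l) ∂mu m = ∫⁻ s in Ioc (0 : ℝ) 1,
      ENNReal.ofReal (s ^ m) * ∫⁻ l, H (Rs s l) ∂mu m := by
    intro j
    rw [← lintegral_indicator measurableSet_Ioi, ← lintegral_indicator measurableSet_Ioc]
    refine lintegral_congr fun s => ?_
    by_cases h0 : 0 < s
    · rw [indicator_of_mem (by simpa using h0)]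
      by_cases h1 : s ≤ 1
      · rw [indicator_of_mem (by exact ⟨h0, h1⟩)]
        congr 1
        refine lintegral_congr_ae ?_
        filter_upwards [ae_mu] with l hl
        rw [indicator_of_mem ((smul_Pj_mem_cS j hl h0.le).2 h1), map_smul,
          bet_Pj j hl.2, ← hs (Equiv.swap 0 j) _ (Rs_mem hl h0.le h1)]
        rfl
      · rw [indicator_of_notMem (fun h => h1 h.2)]
        rw [lintegral_congr_ae (g := fun _ => 0), lintegral_zero, mul_zero]
        filter_upwards [ae_mu] with l hl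
        rw [indicator_of_notMem (fun h => h1 ((smul_Pj_mem_cS j hl h0.le).1 h))]
    · rw [indicator_of_notMem (by simpa using h0), indicator_of_notMem (fun h => h0 h.1)]
  simp_rw [this]
  rw [Finset.sum_const, Finset.card_univ, Fintype.card_fin, nsmul_eq_mul, mul_assoc]

/-- symmetric convex functions on the probability simplex -/
structure Good {k : ℕ} (f : E k → ℝ) : Prop where
  meas : Measurable f
  conv : ConvexOn ℝ (stdSimplex ℝ (Fin k)) f
  symm : ∀ σ : Equiv.Perm (Fin k), ∀ x ∈ stdSimplex ℝ (Fin k), f (x ∘ σ) = f x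

lemma perm_mem {k : ℕ} (σ : Equiv.Perm (Fin k)) {x : E k} (hx : x ∈ stdSimplex ℝ (Fin k)) :
    x ∘ σ ∈ stdSimplex ℝ (Fin k) :=
  ⟨fun i => hx.1 _, by simpa using (Equiv.sum_comp σ x).trans hx.2⟩

lemma Good.min {f : E (m + 1) → ℝ} (hf : Good f) {x : E (m + 1)}
    (hx : x ∈ stdSimplex ℝ (Fin (m + 1))) : f (uu m) ≤ f x := by
  have hm : (0 : ℝ) < m + 1 := by positivity
  have h1 : ∑ _k : Fin (m + 1), (1 / (m + 1) : ℝ) = 1 := by
    simp only [Finset.sum_const, Finset.card_univ, Fintype.card_fin, nsmul_eq_mul]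
    push_cast; field_simp
  have h2 := hf.conv.map_sum_le (t := Finset.univ) (w := fun _ => (1 / (m + 1) : ℝ))
    (p := fun k : Fin (m + 1) => x ∘ Equiv.addRight k) (fun _ _ => by positivity) h1
    (fun k _ => perm_mem _ hx)
  have h3 : ∑ k : Fin (m + 1), (1 / (m + 1) : ℝ) • (x ∘ Equiv.addRight k) = uu m := by
    ext i
    simp only [Finset.sum_apply, Pi.smul_apply, Function.comp_apply, Equiv.coe_addRight,
      smul_eq_mul, ← Finset.mul_sum, uu]
    have := Equiv.sum_comp (Equiv.addLeft i) x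
    simp only [Equiv.coe_addLeft] at this
    rw [this, hx.2, mul_one]
  rw [h3] at h2
  simp only [fun k : Fin (m + 1) => hf.symm (Equiv.addRight k) x hx, smul_eq_mul,
    ← Finset.sum_mul, h1, one_mul] at h2
  exact h2

lemma ray_split {x : E (m + 1)} {s r : ℝ} (hr : 0 < r) :
    uu m + s • (x - uu m) = (1 - s / r) • uu m + (s / r) • (uu m + r • (x - uu m)) := by
  ext i
  simp only [Pi.add_apply, Pi.smul_apply, Pi.sub_apply, smul_eq_mul]
  field_simp; ring

lemma ray_le {f : E (m + 1) → ℝ} (hf : ConvexOn ℝ (stdSimplex ℝ (Fin (m + 1))) f) {x : E (m + 1)}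
    (hx : x ∈ stdSimplex ℝ (Fin (m + 1))) {s r : ℝ} (hs : 0 ≤ s) (hsr : s ≤ r) (hr : 0 < r)
    (hr1 : r ≤ 1) :
    f (uu m + s • (x - uu m)) ≤ (1 - s / r) * f (uu m) + (s / r) * f (uu m + r • (x - uu m)) := by
  rw [ray_split hr]
  have h1 : s / r ≤ 1 := (div_le_one hr).2 hsr
  exact hf.2 uu_mem (ray_mem hx hr.le hr1) (by linarith) (by positivity) (by ring)

lemma Good.ray_mono {f : E (m + 1) → ℝ} (hf : Good f) {x : E (m + 1)}
    (hx : x ∈ stdSimplex ℝ (Fin (m + 1))) {s r : ℝ} (hs : 0 ≤ s) (hsr : s ≤ r) (hr1 : r ≤ 1) :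
    f (uu m + s • (x - uu m)) ≤ f (uu m + r • (x - uu m)) := by
  rcases (hs.trans hsr).eq_or_lt with hr | hr
  · have : s = r := by linarith
    rw [this]
  · have h1 := ray_le hf.conv hx hs hsr hr hr1
    have h2 := hf.min (ray_mem hx hr.le hr1)
    have h3 : s / r ≤ 1 := (div_le_one hr).2 hsr
    nlinarith

lemma Rs_combo (s : ℝ) (x y : E (m + 1)) {a b : ℝ} (hab : a + b = 1) :
    Rs s (a • x + b • y) = a • Rs s x + b • Rs s y := by
  obtain rfl : b = 1 - a := by linarith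
  ext j
  refine Fin.cases ?_ (fun i => ?_) j
  · simp [Rs]; ring
  · simp [Rs]; ring

lemma Good.restrict {f : E (m + 2) → ℝ} (hf : Good f) {s : ℝ} (h0 : 0 ≤ s) (h1 : s ≤ 1) :
    Good fun l : E (m + 1) => f (Rs s l) := by
  refine ⟨hf.meas.comp (measurable_Rs' s), ⟨convex_stdSimplex ℝ _, ?_⟩, ?_⟩
  · intro x hx y hy a b ha hb hab
    simp only [Rs_combo s x y hab]
    exact hf.conv.2 (Rs_mem hx h0 h1) (Rs_mem hy h0 h1) ha hb hab
  · intro σ x hx
    rw [← hf.symm (Equiv.Perm.decomposeFin.symm (0, σ)) _ (Rs_mem hx h0 h1)]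
    congr 1
    ext j
    refine Fin.cases ?_ (fun i => ?_) j
    · simp [Rs, uu]
    · simp [Rs, uu]

lemma ae_mu_zero : ∀ᵐ l ∂mu 0, l = uu 0 := by
  filter_upwards [ae_mu] with l hl
  ext i
  have := hl.2
  rw [Fin.sum_univ_succ] at this
  simp only [uu]
  rw [Fin.fin_one_eq_zero i]
  simpa using this

lemma mu_succ_univ : mu (m + 1) univ = ((m + 2 : ℕ) * kap (m + 1)) *
    ((∫⁻ s in Ioc (0 : ℝ) 1, ENNReal.ofReal (s ^ m)) * mu m univ) := by
  have := lintegral_mu_succ (m := m) (H := fun _ => 1) measurable_const (fun _ _ _ => rfl)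
  simp only [lintegral_const, one_mul] at this
  rw [this, lintegral_mul_const _ (by fun_prop)]

lemma Good.bar_mono {f : E (m + 2) → ℝ} (hf : Good f) :
    MonotoneOn (fun s => ∫⁻ l, ENNReal.ofReal (f (Rs s l)) ∂mu m) (Ioc 0 1) := by
  intro s hs r hr hsr
  refine lintegral_mono_ae ?_
  filter_upwards [ae_mu] with l hl
  exact ENNReal.ofReal_le_ofReal (hf.ray_mono (cons_mem hl) hs.1.le hsr hr.2)

theorem corr (m : ℕ) : ∀ (f g : E (m + 1) → ℝ), Good f → Good g →
    (∫⁻ l, ENNReal.ofReal (f l) ∂mu m) * (∫⁻ l, ENNReal.ofReal (g l) ∂mu m) ≤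
      mu m univ * ∫⁻ l, ENNReal.ofReal (f l) * ENNReal.ofReal (g l) ∂mu m := by
  induction m with
  | zero =>
    intro f g _ _
    rw [lintegral_congr_ae (g := fun _ => ENNReal.ofReal (f (uu 0))),
      lintegral_congr_ae (f := fun l => ENNReal.ofReal (g l))
        (g := fun _ => ENNReal.ofReal (g (uu 0))),
      lintegral_congr_ae (f := fun l => ENNReal.ofReal (f l) * ENNReal.ofReal (g l))
        (g := fun _ => ENNReal.ofReal (f (uu 0)) * ENNReal.ofReal (g (uu 0)))]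
    · simp only [lintegral_const]
      apply le_of_eq; ring
    all_goals filter_upwards [ae_mu_zero] with l hl; rw [hl]
  | succ m ih =>
    intro f g hf hg
    have hfm := hf.meas.ennreal_ofReal
    have hgm := hg.meas.ennreal_ofReal
    rw [lintegral_mu_succ hfm (fun σ x hx => by rw [hf.symm σ x hx]),
      lintegral_mu_succ hgm (fun σ x hx => by rw [hg.symm σ x hx]),
      lintegral_mu_succ (H := fun l => ENNReal.ofReal (f l) * ENNReal.ofReal (g l)) (hfm.mul hgm)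
        (fun σ x hx => by rw [hf.symm σ x hx, hg.symm σ x hx]), mu_succ_univ]
    set c : ℝ≥0∞ := ((m + 2 : ℕ) * kap (m + 1))
    set F : ℝ → ℝ≥0∞ := fun s => ∫⁻ l, ENNReal.ofReal (f (Rs s l)) ∂mu m with hF
    set G : ℝ → ℝ≥0∞ := fun s => ∫⁻ l, ENNReal.ofReal (g (Rs s l)) ∂mu m with hG
    have hFm : Measurable F := measurable_bar hfm
    have hGm : Measurable G := measurable_bar hgm
    have hW : Measurable fun s : ℝ => ENNReal.ofReal (s ^ m) := by fun_prop
    have h1 := cheb (ν := volume.restrict (Ioc (0 : ℝ) 1)) (F := F)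
      (G := fun s => ENNReal.ofReal (s ^ m) * G s) (W := fun s => ENNReal.ofReal (s ^ m))
      hFm (hW.mul hGm) hW (ae_restrict_mem measurableSet_Ioc) hf.bar_mono
      (fun r hr s hs hsr => by
        have := hg.bar_mono hs hr hsr
        calc _ = ENNReal.ofReal (s ^ m) * ENNReal.ofReal (r ^ m) * G s := by ring
          _ ≤ ENNReal.ofReal (s ^ m) * ENNReal.ofReal (r ^ m) * G r := by gcongr
          _ = _ := by ring)
    have h2 : ∫⁻ s in Ioc (0 : ℝ) 1, F s * (ENNReal.ofReal (s ^ m) * G s) ≤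
        mu m univ * ∫⁻ s in Ioc (0 : ℝ) 1, ENNReal.ofReal (s ^ m) *
          ∫⁻ l, ENNReal.ofReal (f (Rs s l)) * ENNReal.ofReal (g (Rs s l)) ∂mu m := by
      rw [← lintegral_const_mul' _ _ (measure_ne_top _ _)]
      refine setLIntegral_mono' measurableSet_Ioc fun s hs => ?_
      have := ih _ _ (hf.restrict hs.1.le hs.2) (hg.restrict hs.1.le hs.2)
      calc _ = ENNReal.ofReal (s ^ m) * (F s * G s) := by ring
        _ ≤ ENNReal.ofReal (s ^ m) * (mu m univ * _) := by gcongr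
        _ = _ := by ring
    simp_rw [mul_comm (F _) (ENNReal.ofReal _)] at h1
    calc _ = c * c * ((∫⁻ s in Ioc (0 : ℝ) 1, ENNReal.ofReal (s ^ m) * F s) *
            ∫⁻ s in Ioc (0 : ℝ) 1, ENNReal.ofReal (s ^ m) * G s) := by ring
      _ ≤ c * c * ((∫⁻ s in Ioc (0 : ℝ) 1, ENNReal.ofReal (s ^ m)) * (mu m univ * _)) :=
        mul_le_mul_right (h1.trans (mul_le_mul_right h2 _)) _
      _ = _ := by ring

/-- symmetrisation -/
noncomputable def symz {k : ℕ} (g : E k → ℝ) (x : E k) : ℝ := ∑ σ : Equiv.Perm (Fin k), g (x ∘ σ)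

lemma good_symz {k : ℕ} {g : E k → ℝ} (hm : Measurable g)
    (hc : ConvexOn ℝ (stdSimplex ℝ (Fin k)) g) : Good (symz g) := by
  refine ⟨Finset.measurable_sum _ fun σ _ => hm.comp (measurable_perm σ),
    ⟨convex_stdSimplex ℝ _, ?_⟩, ?_⟩
  · intro x hx y hy a b ha hb hab
    simp only [symz, smul_eq_mul, Finset.mul_sum, ← Finset.sum_add_distrib]
    exact Finset.sum_le_sum fun σ _ => hc.2 (perm_mem σ hx) (perm_mem σ hy) ha hb hab
  · intro τ x _
    exact Equiv.sum_comp (Equiv.mulLeft τ) (fun σ : Equiv.Perm (Fin k) => g (x ∘ σ))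

lemma lintegral_symz {f : E (m + 1) → ℝ≥0∞} {g : E (m + 1) → ℝ} (hf : Measurable f)
    (hs : ∀ σ : Equiv.Perm (Fin (m + 1)), ∀ x ∈ stdSimplex ℝ (Fin (m + 1)), f (x ∘ σ) = f x)
    (hm : Measurable g) (h0 : ∀ x ∈ stdSimplex ℝ (Fin (m + 1)), 0 ≤ g x) :
    ∫⁻ l, f l * ENNReal.ofReal (symz g l) ∂mu m =
      Fintype.card (Equiv.Perm (Fin (m + 1))) * ∫⁻ l, f l * ENNReal.ofReal (g l) ∂mu m := by
  have h1 : ∫⁻ l, f l * ENNReal.ofReal (symz g l) ∂mu m =
      ∫⁻ l, ∑ σ : Equiv.Perm (Fin (m + 1)), f (l ∘ σ) * ENNReal.ofReal (g (l ∘ σ)) ∂mu m := by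
    refine lintegral_congr_ae ?_
    filter_upwards [ae_mu] with l hl
    rw [symz, ENNReal.ofReal_sum_of_nonneg (fun σ _ => h0 _ (perm_mem σ hl)), Finset.mul_sum]
    exact Finset.sum_congr rfl fun σ _ => by rw [hs σ l hl]
  rw [h1, lintegral_finsetSum
    (f := fun (σ : Equiv.Perm (Fin (m + 1))) l => f (l ∘ σ) * ENNReal.ofReal (g (l ∘ σ))) _
    (fun σ _ => (hf.mul hm.ennreal_ofReal).comp (measurable_perm σ))]
  rw [Finset.sum_congr rfl fun σ _ => lintegral_mu_perm σ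
    (f := fun l => f l * ENNReal.ofReal (g l)) (hf.mul hm.ennreal_ofReal)]
  simp

lemma strict_cheb {F : ℝ → ℝ≥0∞} (hFm : Measurable F) (hF : StrictMonoOn F (Icc 0 1))
    (hfin : F 1 ≠ ∞) :
    (∫⁻ s in Ioc (0 : ℝ) 1, ENNReal.ofReal (s ^ m) * F s) *
      (∫⁻ s in Ioc (0 : ℝ) 1, ENNReal.ofReal (s ^ m) * ENNReal.ofReal s) <
    (∫⁻ s in Ioc (0 : ℝ) 1, ENNReal.ofReal (s ^ m)) *
      ∫⁻ s in Ioc (0 : ℝ) 1, F s * (ENNReal.ofReal (s ^ m) * ENNReal.ofReal s) := by
  set a := ∫⁻ s in Ioc (0 : ℝ) 1, ENNReal.ofReal (s ^ m) with ha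
  set b := ∫⁻ s in Ioc (0 : ℝ) 1, ENNReal.ofReal (s ^ m) * ENNReal.ofReal s with hb
  set A := ∫⁻ s in Ioc (0 : ℝ) 1, ENNReal.ofReal (s ^ m) * F s with hA
  set B := ∫⁻ s in Ioc (0 : ℝ) 1, F s * (ENNReal.ofReal (s ^ m) * ENNReal.ofReal s) with hB
  have hW : Measurable fun s : ℝ => ENNReal.ofReal (s ^ m) := by fun_prop
  have hw1 : ∀ s ∈ Ioc (0 : ℝ) 1, ENNReal.ofReal (s ^ m) ≤ 1 := fun s hs =>
    ENNReal.ofReal_le_one.2 (pow_le_one₀ hs.1.le hs.2)
  have ha1 : a ≤ 1 := by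
    calc a ≤ ∫⁻ _s in Ioc (0 : ℝ) 1, 1 := setLIntegral_mono' measurableSet_Ioc hw1
      _ = 1 := by simp
  have hba : b ≤ a := setLIntegral_mono' measurableSet_Ioc fun s hs =>
    mul_le_of_le_one_right' (ENNReal.ofReal_le_one.2 hs.2)
  have hat : a ≠ ∞ := ne_top_of_le_ne_top one_ne_top ha1
  have hbt : b ≠ ∞ := ne_top_of_le_ne_top hat hba
  have hne : (volume.restrict (Ioc (0 : ℝ) 1)) ≠ 0 := by simp
  have ha0 : a ≠ 0 := by
    have : ∫⁻ _s in Ioc (0 : ℝ) 1, 0 < a := by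
      refine lintegral_strict_mono hne hW.aemeasurable (by simp) ?_
      filter_upwards [ae_restrict_mem measurableSet_Ioc] with s hs
      exact ENNReal.ofReal_pos.2 (pow_pos hs.1 _)
    simpa using this.ne'
  set r : ℝ := b.toReal / a.toReal with hr
  have hapos : 0 < a.toReal := ENNReal.toReal_pos ha0 hat
  have hr0 : 0 ≤ r := by positivity
  have hr1 : r ≤ 1 := (div_le_one hapos).2 (ENNReal.toReal_mono hat hba)
  have hra : ENNReal.ofReal r * a = b := by
    rw [hr, ENNReal.ofReal_div_of_pos hapos, ENNReal.ofReal_toReal hbt, ENNReal.ofReal_toReal hat,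
      ENNReal.div_mul_cancel ha0 hat]
  have hFt : ∀ s ∈ Icc (0 : ℝ) 1, F s ≠ ∞ := fun s hs =>
    ne_top_of_le_ne_top hfin (hF.monotoneOn hs ⟨zero_le_one, le_rfl⟩ hs.2)
  have hAt : A ≠ ∞ := by
    have : A ≤ ∫⁻ _s in Ioc (0 : ℝ) 1, F 1 := setLIntegral_mono' measurableSet_Ioc fun s hs =>
      (mul_le_of_le_one_left' (hw1 s hs)).trans
        (hF.monotoneOn ⟨hs.1.le, hs.2⟩ ⟨zero_le_one, le_rfl⟩ hs.2)
    exact ne_top_of_le_ne_top (by simpa using hfin) this
  have hFr := hFt r ⟨hr0, hr1⟩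
  have e1 : ∫⁻ s in Ioc (0 : ℝ) 1, ENNReal.ofReal (s ^ m) *
      (F s * ENNReal.ofReal r + F r * ENNReal.ofReal s) = ENNReal.ofReal r * A + F r * b := by
    rw [hA, hb, ← lintegral_const_mul _ (by fun_prop), ← lintegral_const_mul _ (by fun_prop),
      ← lintegral_add_left (by fun_prop)]
    exact lintegral_congr fun s => by ring
  have e2 : ∫⁻ s in Ioc (0 : ℝ) 1, ENNReal.ofReal (s ^ m) *
      (F s * ENNReal.ofReal s + F r * ENNReal.ofReal r) = B + F r * b := by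
    rw [← hra, hB, ha, ← mul_assoc, ← lintegral_const_mul _ hW, ← lintegral_add_left (by fun_prop)]
    exact lintegral_congr fun s => by ring
  have key : ENNReal.ofReal r * A + F r * b < B + F r * b := by
    rw [← e1, ← e2]
    refine lintegral_strict_mono hne (by fun_prop) ?_ ?_
    · rw [e1]; finiteness
    · have h0 : ∀ᵐ s : ℝ, s ≠ r := by simp [ae_iff]
      filter_upwards [ae_restrict_mem measurableSet_Ioc, ae_restrict_of_ae h0] with s hs hsr
      refine ENNReal.mul_lt_mul_right (by simpa using pow_pos hs.1 _) ENNReal.ofReal_ne_top ?_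
      have hs' : s ∈ Icc (0 : ℝ) 1 := ⟨hs.1.le, hs.2⟩
      rcases lt_or_gt_of_ne hsr with h | h
      · exact ennreal_rearr_lt (hF hs' ⟨hr0, hr1⟩ h)
          ((ENNReal.ofReal_lt_ofReal_iff (hs.1.trans h)).2 h) hFr ENNReal.ofReal_ne_top
      · have := ennreal_rearr_lt (hF ⟨hr0, hr1⟩ hs' h)
          ((ENNReal.ofReal_lt_ofReal_iff hs.1).2 h) (hFt s hs') ENNReal.ofReal_ne_top
        rwa [add_comm, add_comm (F r * ENNReal.ofReal r)] at this
  have key2 : ENNReal.ofReal r * A < B := lt_of_add_lt_add_right key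
  calc A * b = a * (ENNReal.ofReal r * A) := by rw [← hra]; ring
    _ < a * B := ENNReal.mul_lt_mul_right ha0 hat key2

theorem strict_corr (m : ℕ) (f : E (m + 1) → ℝ) (hf : Good f)
    (hfin : ∃ B, ∀ x ∈ stdSimplex ℝ (Fin (m + 1)), f x ≤ B)
    (hpos : ∀ x ∈ stdSimplex ℝ (Fin (m + 1)), 0 < f x)
    (hstrict : ∀ x ∈ stdSimplex ℝ (Fin (m + 1)), x ≠ uu m →
      StrictMonoOn (fun t : ℝ => f (uu m + t • (x - uu m))) (Icc 0 1)) :
    ∃ κ : ℝ, 0 < κ ∧ ∀ g : E (m + 1) → ℝ, Measurable g →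
      ConvexOn ℝ (stdSimplex ℝ (Fin (m + 1))) g → (∀ x ∈ stdSimplex ℝ (Fin (m + 1)), 0 ≤ g x) →
      g (uu m) = 0 →
      ((∫⁻ l, ENNReal.ofReal (f l) ∂mu m) + ENNReal.ofReal κ) *
        (∫⁻ l, ENNReal.ofReal (g l) ∂mu m) ≤
      mu m univ * ∫⁻ l, ENNReal.ofReal (f l) * ENNReal.ofReal (g l) ∂mu m := by
  cases m with
  | zero =>
    refine ⟨1, one_pos, fun g _ _ _ hg0 => ?_⟩
    rw [lintegral_congr_ae (f := fun l => ENNReal.ofReal (g l)) (g := fun _ => 0)]
    · simp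
    · filter_upwards [ae_mu_zero] with l hl; rw [hl, hg0]; simp
  | succ m =>
    obtain ⟨Bd, hBd⟩ := hfin
    have hfm := hf.meas.ennreal_ofReal
    set c : ℝ≥0∞ := ((m + 2 : ℕ) * kap (m + 1)) with hc
    have hc0 : c ≠ 0 := mul_ne_zero (by simp) kap_ne_zero
    have hct : c ≠ ∞ := ENNReal.mul_ne_top (by simp) kap_ne_top
    set F : ℝ → ℝ≥0∞ := fun s => ∫⁻ l, ENNReal.ofReal (f (Rs s l)) ∂mu m with hF
    have hFm : Measurable F := measurable_bar hfm
    have hFt : ∀ s ∈ Icc (0 : ℝ) 1, F s ≠ ∞ := by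
      intro s hs
      have : F s ≤ ∫⁻ _l, ENNReal.ofReal Bd ∂mu m := by
        refine lintegral_mono_ae ?_
        filter_upwards [ae_mu] with l hl
        exact ENNReal.ofReal_le_ofReal (hBd _ (Rs_mem hl hs.1 hs.2))
      refine ne_top_of_le_ne_top ?_ this
      rw [lintegral_const]; finiteness
    have hFs : StrictMonoOn F (Icc 0 1) := by
      intro s hs r hr hsr
      refine lintegral_strict_mono mu_ne_zero (hfm.comp (measurable_Rs' r)).aemeasurable
        (hFt s hs) ?_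
      filter_upwards [ae_mu] with l hl
      refine (ENNReal.ofReal_lt_ofReal_iff (hpos _ (Rs_mem hl hr.1 hr.2))).2 ?_
      refine hstrict _ (cons_mem hl) (fun h => ?_) hs hr hsr
      have := congrFun h 0
      simp only [Fin.cons_zero, uu] at this
      have h2 : (0 : ℝ) < 1 / ((m + 1 : ℕ) + 1) := by positivity
      linarith
    have hsc := strict_cheb (m := m) hFm hFs (hFt 1 ⟨zero_le_one, le_rfl⟩)
    set a := ∫⁻ s in Ioc (0 : ℝ) 1, ENNReal.ofReal (s ^ m) with ha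
    set b := ∫⁻ s in Ioc (0 : ℝ) 1, ENNReal.ofReal (s ^ m) * ENNReal.ofReal s with hb
    set A := ∫⁻ s in Ioc (0 : ℝ) 1, ENNReal.ofReal (s ^ m) * F s with hA
    set B := ∫⁻ s in Ioc (0 : ℝ) 1, F s * (ENNReal.ofReal (s ^ m) * ENNReal.ofReal s) with hB
    have hb1 : b ≤ 1 := by
      calc b ≤ ∫⁻ _s in Ioc (0 : ℝ) 1, 1 := setLIntegral_mono' measurableSet_Ioc fun s hs =>
            mul_le_one' (ENNReal.ofReal_le_one.2 (pow_le_one₀ hs.1.le hs.2))
              (ENNReal.ofReal_le_one.2 hs.2)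
        _ = 1 := by simp
    have hb0 : b ≠ 0 := by
      have : ∫⁻ _s in Ioc (0 : ℝ) 1, 0 < b := by
        refine lintegral_strict_mono (by simp) (by fun_prop) (by simp) ?_
        filter_upwards [ae_restrict_mem measurableSet_Ioc] with s hs
        exact ENNReal.mul_pos (by simpa using pow_pos hs.1 _) (by simpa using hs.1)
      simpa using this.ne'
    obtain ⟨k, hk0, hk⟩ := ENNReal.lt_iff_exists_add_pos_lt.1
      (ENNReal.mul_lt_mul_right hc0 hct hsc)
    refine ⟨k, hk0, fun g hgm hgc hg0 hgu => ?_⟩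
    have hg := good_symz hgm hgc
    have hN0 : (Fintype.card (Equiv.Perm (Fin (m + 1 + 1))) : ℝ≥0∞) ≠ 0 := by
      simp [Fintype.card_ne_zero]
    have hNt : (Fintype.card (Equiv.Perm (Fin (m + 1 + 1))) : ℝ≥0∞) ≠ ∞ := by simp
    have s1 := lintegral_symz (f := fun _ => 1) measurable_const (fun _ _ _ => rfl) hgm hg0
    have s2 := lintegral_symz hfm (fun σ x hx => by rw [hf.symm σ x hx]) hgm hg0
    simp only [one_mul] at s1
    rw [← ENNReal.mul_le_mul_iff_right hN0 hNt, mul_left_comm, ← s1, mul_left_comm, ← s2]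
    have hgm' := hg.meas.ennreal_ofReal
    rw [lintegral_mu_succ hfm (fun σ x hx => by rw [hf.symm σ x hx]),
      lintegral_mu_succ hgm' (fun σ x hx => by rw [hg.symm σ x hx]),
      lintegral_mu_succ (H := fun l => ENNReal.ofReal (f l) * ENNReal.ofReal (symz g l))
        (hfm.mul hgm') (fun σ x hx => by rw [hf.symm σ x hx, hg.symm σ x hx]), mu_succ_univ]
    set G : ℝ → ℝ≥0∞ := fun s => ∫⁻ l, ENNReal.ofReal (symz g (Rs s l)) ∂mu m with hG
    have hGm : Measurable G := measurable_bar hgm'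
    have hW : Measurable fun s : ℝ => ENNReal.ofReal (s ^ m) := by fun_prop
    have hgu' : symz g (uu (m + 1)) = 0 := Finset.sum_eq_zero fun σ _ => hgu
    have h1 := cheb (ν := volume.restrict (Ioc (0 : ℝ) 1)) (F := F)
      (G := fun s => ENNReal.ofReal (s ^ m) * G s)
      (W := fun s => ENNReal.ofReal (s ^ m) * ENNReal.ofReal s)
      hFm (hW.mul hGm) (by fun_prop) (ae_restrict_mem measurableSet_Ioc) hf.bar_mono
      (fun r hr s hs hsr => by
        have : ENNReal.ofReal r * G s ≤ ENNReal.ofReal s * G r := by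
          rw [hG, ← lintegral_const_mul' _ _ ENNReal.ofReal_ne_top,
            ← lintegral_const_mul' _ _ ENNReal.ofReal_ne_top]
          refine lintegral_mono_ae ?_
          filter_upwards [ae_mu] with l hl
          rw [← ENNReal.ofReal_mul hr.1.le, ← ENNReal.ofReal_mul hs.1.le]
          refine ENNReal.ofReal_le_ofReal ?_
          have h3 := ray_le hg.conv (cons_mem hl) hs.1.le hsr hr.1 hr.2
          rw [hgu', mul_zero, zero_add, div_mul_eq_mul_div, le_div_iff₀ hr.1, mul_comm] at h3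
          exact h3
        calc _ = ENNReal.ofReal (s ^ m) * ENNReal.ofReal (r ^ m) * (ENNReal.ofReal r * G s) := by
              ring
          _ ≤ ENNReal.ofReal (s ^ m) * ENNReal.ofReal (r ^ m) * (ENNReal.ofReal s * G r) := by
              gcongr
          _ = _ := by ring)
    have h2 : ∫⁻ s in Ioc (0 : ℝ) 1, F s * (ENNReal.ofReal (s ^ m) * G s) ≤
        mu m univ * ∫⁻ s in Ioc (0 : ℝ) 1, ENNReal.ofReal (s ^ m) *
          ∫⁻ l, ENNReal.ofReal (f (Rs s l)) * ENNReal.ofReal (symz g (Rs s l)) ∂mu m := by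
      rw [← lintegral_const_mul' _ _ (measure_ne_top _ _)]
      refine setLIntegral_mono' measurableSet_Ioc fun s hs => ?_
      have := corr m _ _ (hf.restrict hs.1.le hs.2) (hg.restrict hs.1.le hs.2)
      calc _ = ENNReal.ofReal (s ^ m) * (F s * G s) := by ring
        _ ≤ ENNReal.ofReal (s ^ m) * (mu m univ * _) := by gcongr
        _ = _ := by ring
    set Γ := ∫⁻ s in Ioc (0 : ℝ) 1, ENNReal.ofReal (s ^ m) * G s with hΓ
    set X := ∫⁻ s in Ioc (0 : ℝ) 1, ENNReal.ofReal (s ^ m) *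
          ∫⁻ l, ENNReal.ofReal (f (Rs s l)) * ENNReal.ofReal (symz g (Rs s l)) ∂mu m with hX
    have h3 : B * Γ ≤ b * (mu m univ * X) := h1.trans (mul_le_mul_right h2 _)
    rw [← ENNReal.mul_le_mul_iff_right hb0 (ne_top_of_le_ne_top one_ne_top hb1),
      ENNReal.ofReal_coe_nnreal]
    calc b * ((c * A + k) * (c * Γ)) = (c * (A * b) + b * k) * (c * Γ) := by ring
      _ ≤ (c * (A * b) + k) * (c * Γ) := by gcongr; exact mul_le_of_le_one_left' hb1
      _ ≤ (c * (a * B)) * (c * Γ) := by gcongr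
      _ = c * c * a * (B * Γ) := by ring
      _ ≤ c * c * a * (b * (mu m univ * X)) := by gcongr
      _ = _ := by ring

end Pool.Agent.MP_5f4cdd_gt
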