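import Mathlib

set_option autoImplicit false
open Finset MeasureTheory
open scoped Pointwise ENNReal

namespace Pool.Agent.MP_5f4cdd_gt.DI51

theorem layer {α β : Type} (S : Finset α) (T : Finset β) (a : α → ℝ) (b : β → ℝ)
    (ha : ∀ x ∈ S, 0 ≤ a x) (hb0 : ∀ y ∈ T, 0 ≤ b y) (hb1 : ∀ y ∈ T, b y ≤ 1)
    (h : ∀ t : ℝ, 0 < t → t ≤ 1 → #(T.filter fun y => t ≤ b y) ≤ #(S.filter fun x => t ≤ a x)) :
    ∑ y ∈ T, b y ≤ ∑ x ∈ S, a x := by
  have key : ∀ c : ℝ, ∫⁻ t in Set.Ioc (0 : ℝ) 1, (Set.Iic c).indicator (1 : ℝ → ℝ≥0∞) t =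
      volume (Set.Iic c ∩ Set.Ioc (0 : ℝ) 1) := fun c => by
    rw [lintegral_indicator_one measurableSet_Iic, Measure.restrict_apply measurableSet_Iic]
  have hm : ∀ c : ℝ, Measurable ((Set.Iic c).indicator (1 : ℝ → ℝ≥0∞)) := fun c =>
    measurable_one.indicator measurableSet_Iic
  have cnt : ∀ {γ : Type} (U : Finset γ) (f : γ → ℝ) (t : ℝ),
      ∑ y ∈ U, (Set.Iic (f y)).indicator (1 : ℝ → ℝ≥0∞) t = (#(U.filter fun y => t ≤ f y) : ℝ≥0∞) := by
    intro γ U f t
    rw [card_filter]; push_cast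
    refine sum_congr rfl fun y _ => ?_
    by_cases hy : t ≤ f y <;> simp [Set.indicator, hy]
  have h1 : ENNReal.ofReal (∑ y ∈ T, b y) ≤ ENNReal.ofReal (∑ x ∈ S, a x) := by
    rw [ENNReal.ofReal_sum_of_nonneg hb0, ENNReal.ofReal_sum_of_nonneg ha]
    calc ∑ y ∈ T, ENNReal.ofReal (b y)
        ≤ ∑ y ∈ T, ∫⁻ t in Set.Ioc (0 : ℝ) 1, (Set.Iic (b y)).indicator (1 : ℝ → ℝ≥0∞) t := by
          refine sum_le_sum fun y hy => ?_
          rw [key]
          calc ENNReal.ofReal (b y) = volume (Set.Ioc (0 : ℝ) (b y)) := by simp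
            _ ≤ _ := measure_mono fun t ht =>
              Set.mem_inter ht.2 (Set.mem_Ioc.2 ⟨ht.1, ht.2.trans (hb1 y hy)⟩)
      _ = ∫⁻ t in Set.Ioc (0 : ℝ) 1, ∑ y ∈ T, (Set.Iic (b y)).indicator (1 : ℝ → ℝ≥0∞) t :=
          (lintegral_finsetSum _ fun y _ => hm _).symm
      _ ≤ ∫⁻ t in Set.Ioc (0 : ℝ) 1, ∑ x ∈ S, (Set.Iic (a x)).indicator (1 : ℝ → ℝ≥0∞) t := by
          refine setLIntegral_mono' measurableSet_Ioc fun t ht => ?_
          rw [cnt, cnt]; exact_mod_cast h t ht.1 ht.2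
      _ = ∑ x ∈ S, ∫⁻ t in Set.Ioc (0 : ℝ) 1, (Set.Iic (a x)).indicator (1 : ℝ → ℝ≥0∞) t :=
          lintegral_finsetSum _ fun y _ => hm _
      _ ≤ ∑ x ∈ S, ENNReal.ofReal (a x) := by
          refine sum_le_sum fun x _ => ?_
          rw [key]
          calc _ ≤ volume (Set.Ioc (0 : ℝ) (a x)) := measure_mono fun t ht => ⟨ht.2.1, ht.1⟩
            _ = _ := by simp
  exact (ENNReal.ofReal_le_ofReal_iff (sum_nonneg ha)).1 h1

variable {R : Type} [AddCommMonoid R] [LinearOrder R] [IsCancelAdd R] [AddLeftMono R]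
  [AddRightMono R]

theorem cd {I : Type} [DecidableEq I] (A : I → Finset R) (hA : ∀ k, (A k).Nonempty)
    (S : Finset R) (s : Finset I) : ∀ E : Finset R, E.Nonempty →
    (∀ z : I → R, (∀ k, z k ∈ A k) → ∀ e ∈ E, ∑ k ∈ s, z k + e ∈ S) →
    ∑ k ∈ s, #(A k) + #E ≤ #S + #s := by
  induction s using Finset.induction_on with
  | empty =>
    intro E _ h
    have : E ⊆ S := fun e he => by
      simpa using h (fun k => (hA k).choose) (fun k => (hA k).choose_spec) e he
    simpa using card_le_card this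
  | insert a s has ih =>
    intro E hE h
    have h1 := ih (A a + E) ((hA a).add hE) fun z hz e he => by
      obtain ⟨x, hx, e', he', rfl⟩ := mem_add.1 he
      have := h (Function.update z a x) (fun k => by
        by_cases hk : k = a
        · subst hk; simpa using hx
        · simpa [Function.update_of_ne hk] using hz k) e' he'
      rw [sum_insert has, Function.update_self, sum_update_of_notMem has] at this
      rwa [add_comm x, add_assoc] at this
    have h2 := cauchy_davenport_add_of_linearOrder_isCancelAdd (hA a) hE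
    have h3 := (hA a).card_pos
    rw [sum_insert has, card_insert_of_notMem has]
    omega

theorem one_dim {I : Type} [Fintype I] (A : I → Finset R) (hA : ∀ k, (A k).Nonempty)
    (p φ : I → R → ℝ) (hp0 : ∀ k, ∀ z ∈ A k, 0 ≤ p k z) (hp1 : ∀ k, ∑ z ∈ A k, p k z = 1)
    (θ : I → ℝ) (h0 : ∀ k, 0 ≤ θ k) (h1 : ∑ k, θ k = 1) (E : Finset R)
    (hE : Fintype.card I ≤ #E) (S : Finset R) (F : R → ℝ) (hF0 : ∀ t ∈ S, 0 ≤ F t)
    (hF : ∀ z : I → R, (∀ k, z k ∈ A k) → ∀ e ∈ E,
      ∑ k, z k + e ∈ S ∧ Real.exp (∑ k, φ k (z k)) ≤ F (∑ k, z k + e)) :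
    Real.exp (∑ k, (∑ z ∈ A k, p k z * φ k z +
      θ k * (∑ z ∈ A k, -(p k z * Real.log (p k z)) - Real.log (θ k)))) ≤ ∑ t ∈ S, F t := by
  classical
  obtain ⟨k0, hk0⟩ : ∃ k, 0 < θ k := by
    by_contra hc; push Not at hc
    have : ∑ k, θ k ≤ 0 := sum_nonpos fun k _ => hc k
    linarith
  have hEn : E.Nonempty := by
    have : 0 < Fintype.card I := Fintype.card_pos_iff.2 ⟨k0⟩
    exact card_pos.1 (by omega)
  choose x hx hmax using fun k => exists_max_image (A k) (φ k) (hA k)
  set m : I → R → ℝ := fun k z => if θ k = 0 then 0 else Real.exp ((φ k z - φ k (x k)) / θ k)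
    with hm
  have hm0 : ∀ k z, 0 ≤ m k z := fun k z => by
    simp only [hm]; split_ifs
    · exact le_rfl
    · exact (Real.exp_pos _).le
  set c : ℝ := Real.exp (∑ k, φ k (x k)) with hc
  have hc0 : 0 < c := Real.exp_pos _
  set Z : ℝ := ∑ k, ∑ z ∈ A k, m k z with hZ
  have hZ0 : 0 < Z := by
    refine sum_pos' (fun k _ => sum_nonneg fun z _ => hm0 k z) ⟨k0, mem_univ _, ?_⟩
    refine sum_pos (fun z _ => ?_) (hA k0)
    simp only [hm, if_neg hk0.ne']; exact Real.exp_pos _
  have hZF : Z ≤ ∑ t ∈ S, F t / c := by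
    have := layer S (univ.sigma A) (fun t => F t / c) (fun y => m y.1 y.2)
      (fun t ht => div_nonneg (hF0 t ht) hc0.le) (fun y _ => hm0 _ _) (fun y hy => by
        simp only [hm]; split_ifs with h
        · exact zero_le_one
        · exact Real.exp_le_one_iff.2 (div_nonpos_of_nonpos_of_nonneg
            (sub_nonpos.2 (hmax _ _ (mem_sigma.1 hy).2)) (h0 _))) fun t ht0 ht1 => by
        have hl : Real.log t ≤ 0 := Real.log_nonpos ht0.le ht1
        have h2 := cd (fun k => (A k).filter fun z => φ k (x k) + θ k * Real.log t ≤ φ k z)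
          (fun k => ⟨x k, mem_filter.2 ⟨hx k, by nlinarith [h0 k]⟩⟩)
          (S.filter fun u => t ≤ F u / c) univ E hEn fun z hz e he => by
            obtain ⟨h3, h4⟩ := hF z (fun k => (mem_filter.1 (hz k)).1) e he
            refine mem_filter.2 ⟨h3, (le_div_iff₀ hc0).2 (le_trans ?_ h4)⟩
            have h5 : ∑ k, (φ k (x k) + θ k * Real.log t) ≤ ∑ k, φ k (z k) :=
              sum_le_sum fun k _ => (mem_filter.1 (hz k)).2
            rw [sum_add_distrib, ← sum_mul, h1, one_mul] at h5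
            calc t * c = Real.exp (∑ k, φ k (x k) + Real.log t) := by
                  rw [Real.exp_add, Real.exp_log ht0, mul_comm]
              _ ≤ _ := Real.exp_le_exp.2 h5
        have h3 : #((univ.sigma A).filter fun y => t ≤ m y.1 y.2) ≤
            ∑ k, #((A k).filter fun z => φ k (x k) + θ k * Real.log t ≤ φ k z) := by
          rw [← card_sigma]
          refine card_le_card fun y hy => ?_
          obtain ⟨h6, h7⟩ := mem_filter.1 hy
          refine mem_sigma.2 ⟨mem_univ _, mem_filter.2 ⟨(mem_sigma.1 h6).2, ?_⟩⟩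
          simp only [hm] at h7
          split_ifs at h7 with h
          · linarith
          · have hθ : 0 < θ y.1 := lt_of_le_of_ne (h0 _) (Ne.symm h)
            have := (le_div_iff₀ hθ).1 ((Real.log_le_iff_le_exp ht0).2 h7)
            linarith
        rw [card_univ] at h2
        omega
    rwa [sum_sigma] at this
  have hpt : ∀ k, ∀ z ∈ A k, p k z * φ k z + θ k * -(p k z * Real.log (p k z)) -
      p k z * (θ k * Real.log (θ k)) ≤
      p k z * φ k (x k) + p k z * (θ k * Real.log Z) + m k z / Z - p k z * θ k := by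
    intro k z hz
    have hp := hp0 k z hz
    by_cases h : θ k = 0
    · have := mul_le_mul_of_nonneg_left (hmax k z hz) hp
      simp only [hm, h]; simpa using this
    have hθ : 0 < θ k := lt_of_le_of_ne (h0 _) (Ne.symm h)
    rcases hp.eq_or_lt with hp' | hp'
    · rw [← hp']; simpa using div_nonneg (hm0 k z) hZ0.le
    have hmk : m k z = Real.exp ((φ k z - φ k (x k)) / θ k) := by simp only [hm, if_neg h]
    have hq : 0 < θ k * p k z := mul_pos hθ hp'
    have h2 := Real.log_le_sub_one_of_pos (div_pos (hmk ▸ Real.exp_pos _ : 0 < m k z)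
      (mul_pos hq hZ0))
    rw [Real.log_div (hmk ▸ Real.exp_ne_zero _) (mul_pos hq hZ0).ne', Real.log_mul hq.ne' hZ0.ne',
      Real.log_mul h hp'.ne'] at h2
    have h3 : Real.log (m k z) = (φ k z - φ k (x k)) / θ k := by rw [hmk, Real.log_exp]
    rw [h3] at h2
    have h4 := mul_le_mul_of_nonneg_left h2 hq.le
    have h5 : θ k * p k z * ((φ k z - φ k (x k)) / θ k) = p k z * (φ k z - φ k (x k)) := by
      field_simp
    have h6 : θ k * p k z * (m k z / (θ k * p k z * Z)) = m k z / Z := by field_simp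
    rw [mul_sub, mul_sub (θ k * p k z) (m k z / _), h5, h6] at h4
    nlinarith
  have hsum : ∑ k, (∑ z ∈ A k, p k z * φ k z +
      θ k * (∑ z ∈ A k, -(p k z * Real.log (p k z)) - Real.log (θ k))) ≤
      ∑ k, φ k (x k) + Real.log Z := by
    have h2 : ∀ k, ∑ z ∈ A k, p k z * φ k z +
        θ k * (∑ z ∈ A k, -(p k z * Real.log (p k z)) - Real.log (θ k)) ≤
        φ k (x k) + θ k * Real.log Z + (∑ z ∈ A k, m k z) / Z - θ k := fun k => by
      have h3 := sum_le_sum (hpt k)
      simp only [sum_sub_distrib, sum_add_distrib, ← sum_mul, ← mul_sum, ← sum_div, hp1,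
        one_mul] at h3
      rw [mul_sub]; linarith
    have h3 := sum_le_sum fun k (_ : k ∈ (univ : Finset I)) => h2 k
    simp only [sum_sub_distrib, sum_add_distrib (f := fun k => φ k (x k) + θ k * Real.log Z),
      sum_add_distrib (f := fun k => φ k (x k)), ← sum_mul, ← sum_div, h1, one_mul] at h3
    rw [← hZ, div_self hZ0.ne'] at h3
    linarith
  calc _ ≤ Real.exp (∑ k, φ k (x k) + Real.log Z) := Real.exp_le_exp.2 hsum
    _ = Z * c := by rw [Real.exp_add, Real.exp_log hZ0, mul_comm]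
    _ ≤ _ := by rw [← le_div_iff₀ hc0, sum_div]; exact hZF

set_option linter.unusedSectionVars false

/-- the slice of `G` over the first coordinate `z` -/
def fib {N : ℕ} (G : Finset (Fin (N + 1) → R)) (z : R) : Finset (Fin N → R) :=
  (G.filter fun g => g 0 = z).image Fin.tail

theorem mem_fib {N : ℕ} {G : Finset (Fin (N + 1) → R)} {z : R} {g : Fin N → R} :
    g ∈ fib G z ↔ (Fin.cons z g : Fin (N + 1) → R) ∈ G := by
  simp only [fib, mem_image, mem_filter]
  constructor
  · rintro ⟨u, ⟨hu, rfl⟩, rfl⟩; rwa [Fin.cons_self_tail]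
  · intro h; exact ⟨_, ⟨h, rfl⟩, Fin.tail_cons _ _⟩

theorem fib_nonempty {N : ℕ} {G : Finset (Fin (N + 1) → R)} {z : R}
    (hz : z ∈ G.image fun g => g 0) : (fib G z).Nonempty := by
  obtain ⟨g, hg, rfl⟩ := mem_image.1 hz
  exact ⟨Fin.tail g, mem_fib.2 (by rwa [Fin.cons_self_tail])⟩

theorem sum_fib {N : ℕ} (G : Finset (Fin (N + 1) → R)) :
    ∑ z ∈ G.image fun g => g 0, (#(fib G z) : ℝ) = #G := by
  rw [card_eq_sum_card_image (fun g => g 0) G]; push_cast
  refine sum_congr rfl fun z _ => ?_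
  rw [fib, card_image_of_injOn]
  intro u hu v hv h
  rw [← Fin.cons_self_tail u, ← Fin.cons_self_tail v, h, (mem_filter.1 hu).2, (mem_filter.1 hv).2]

/-- conditional entropies of the coordinates of a uniform point of `G` -/
noncomputable def ent : (N : ℕ) → Finset (Fin N → R) → Fin N → ℝ
  | 0 => fun _ j => j.elim0
  | N + 1 => fun G => Fin.cons
      (∑ z ∈ G.image fun g => g 0, -((#(fib G z) / #G : ℝ) * Real.log (#(fib G z) / #G)))
      fun j => ∑ z ∈ G.image fun g => g 0, (#(fib G z) / #G : ℝ) * ent N (fib G z) j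

theorem sum_p {N : ℕ} {G : Finset (Fin (N + 1) → R)} (hG : G.Nonempty) :
    ∑ z ∈ G.image fun g => g 0, (#(fib G z) / #G : ℝ) = 1 := by
  rw [← sum_div, sum_fib, div_self (by exact_mod_cast hG.card_pos.ne')]

theorem sum_ent : ∀ (N : ℕ) (G : Finset (Fin N → R)), G.Nonempty →
    ∑ j, ent N G j = Real.log #G
  | 0, G, hG => by
    have : #G = 1 := le_antisymm (card_le_one.2 fun a _ b _ => Subsingleton.elim a b) hG.card_pos
    simp [this]
  | N + 1, G, hG => by
    have hc : (0 : ℝ) < #G := by exact_mod_cast hG.card_pos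
    rw [Fin.sum_univ_succ]
    simp only [ent, Fin.cons_zero, Fin.cons_succ]
    rw [sum_comm, ← sum_add_distrib, ← one_mul (Real.log #G), ← sum_p hG, sum_mul]
    refine sum_congr rfl fun z hz => ?_
    have hz' := fib_nonempty hz
    have hf : (0 : ℝ) < #(fib G z) := by exact_mod_cast hz'.card_pos
    rw [← mul_sum, sum_ent N _ hz', Real.log_div hf.ne' hc.ne']; ring

theorem ent_const : ∀ (N : ℕ) (G : Finset (Fin N → R)) (j : Fin N) (c : R),
    (∀ g ∈ G, g j = c) → ent N G j = 0
  | 0, _, j, _, _ => j.elim0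
  | N + 1, G, j, c, h => by
    refine Fin.cases (motive := fun j => (∀ g ∈ G, g j = c) → ent (N + 1) G j = 0)
      (fun h => ?_) (fun i h => ?_) j h
    · simp only [ent, Fin.cons_zero]
      refine sum_eq_zero fun z hz => ?_
      obtain ⟨g, hg, rfl⟩ := mem_image.1 hz
      have h1 : G.image (fun g => g 0) = {g 0} :=
        eq_singleton_iff_unique_mem.2 ⟨hz, fun u hu => by
          obtain ⟨v, hv, rfl⟩ := mem_image.1 hu; rw [h v hv, h g hg]⟩
      have h2 := sum_p ⟨g, hg⟩
      rw [h1, sum_singleton] at h2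
      rw [h2]; simp
    · simp only [ent, Fin.cons_succ]
      refine sum_eq_zero fun z _ => ?_
      rw [ent_const N _ i c fun g hg => by simpa using h _ (mem_fib.1 hg), mul_zero]

theorem knothe {I : Type} [Fintype I] (E : Finset R) (hE : Fintype.card I ≤ #E) :
    ∀ (N : ℕ) (G : I → Finset (Fin N → R)), (∀ k, (G k).Nonempty) →
    ∀ θ : Fin N → I → ℝ, (∀ j k, 0 ≤ θ j k) → (∀ j, ∑ k, θ j k = 1) →
    ∀ S : Finset (Fin N → R), (∀ g : I → Fin N → R, (∀ k, g k ∈ G k) →
      ∀ e : Fin N → R, (∀ j, e j ∈ E) → ∑ k, g k + e ∈ S) →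
    Real.exp (∑ j, ∑ k, θ j k * (ent N (G k) j - Real.log (θ j k))) ≤ #S
  | 0, G, hG, θ, _, _, S, hS => by
    have : S.Nonempty := ⟨_, hS (fun k => (hG k).choose) (fun k => (hG k).choose_spec)
      (fun j => j.elim0) fun j => j.elim0⟩
    simpa using this
  | N + 1, G, hG, θ, h0, h1, S, hS => by
    have h := one_dim (fun k => (G k).image fun g => g 0) (fun k => (hG k).image _)
      (fun k z => (#(fib (G k) z) / #(G k) : ℝ))
      (fun k z => ∑ j, θ j.succ k * (ent N (fib (G k) z) j - Real.log (θ j.succ k)))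
      (fun k z _ => by positivity) (fun k => sum_p (hG k)) (θ 0) (h0 0) (h1 0) E hE
      (S.image fun g => g 0) (fun t => (#(fib S t) : ℝ)) (fun t _ => by positivity)
      fun z hz e he => by
        have h2 := knothe E hE N (fun k => fib (G k) (z k)) (fun k => fib_nonempty (hz k))
          (fun j => θ j.succ) (fun j => h0 _) (fun j => h1 _) (fib S (∑ k, z k + e))
          fun g hg e' he' => by
            have h3 := hS (fun k => Fin.cons (z k) (g k)) (fun k => mem_fib.1 (hg k))
              (Fin.cons e e') fun j => Fin.cases (by simpa using he) (by simpa using he') j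
            refine mem_fib.2 ?_
            convert h3 using 1
            funext j
            refine Fin.cases ?_ (fun i => ?_) j <;> simp [Finset.sum_apply]
        rw [sum_comm] at h2
        refine ⟨?_, h2⟩
        have h4 : (fib S (∑ k, z k + e)).Nonempty := by
          have : (0 : ℝ) < #(fib S (∑ k, z k + e)) := (Real.exp_pos _).trans_le h2
          exact card_pos.1 (by exact_mod_cast this)
        obtain ⟨u, hu⟩ := h4
        exact mem_image.2 ⟨_, mem_fib.1 hu, rfl⟩
    rw [sum_fib] at h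
    refine le_trans (le_of_eq ?_) h
    congr 1
    rw [sum_comm]
    refine sum_congr rfl fun k _ => ?_
    rw [Fin.sum_univ_succ, add_comm]
    simp only [ent, Fin.cons_zero, Fin.cons_succ]
    congr 1
    simp only [mul_sum (s := univ)]
    rw [sum_comm]
    refine sum_congr rfl fun j _ => ?_
    have h5 : ∀ (q e : R → ℝ) (s : Finset R) (a l : ℝ), ∑ z ∈ s, q z = 1 →
        a * (∑ z ∈ s, q z * e z - l) = ∑ z ∈ s, q z * (a * (e z - l)) := fun q e s a l hq => by
      have : ∀ z, q z * (a * (e z - l)) = a * (q z * e z) - q z * (a * l) := fun z => by ring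
      simp only [this, sum_sub_distrib, ← mul_sum, ← sum_mul, hq]; ring
    exact h5 _ _ _ _ _ (sum_p (hG k))

/-- packaged form -/
theorem di : ∀ N : ℕ, ∃ h : Finset (Fin N → R) → Fin N → ℝ,
    (∀ G : Finset (Fin N → R), G.Nonempty → ∑ j, h G j = Real.log #G) ∧
    (∀ (G : Finset (Fin N → R)) (j : Fin N) (c : R), (∀ g ∈ G, g j = c) → h G j = 0) ∧
    ∀ (I : Type) [Fintype I] (E : Finset R), Fintype.card I ≤ #E →
      ∀ G : I → Finset (Fin N → R), (∀ k, (G k).Nonempty) →
      ∀ θ : Fin N → I → ℝ, (∀ j k, 0 ≤ θ j k) → (∀ j, ∑ k, θ j k = 1) →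
      ∀ S : Finset (Fin N → R), (∀ g : I → Fin N → R, (∀ k, g k ∈ G k) →
        ∀ e : Fin N → R, (∀ j, e j ∈ E) → ∑ k, g k + e ∈ S) →
      ∑ j, ∑ k, θ j k * (h (G k) j - Real.log (θ j k)) ≤ Real.log #S := fun N =>
  ⟨ent N, sum_ent N, ent_const N, fun _ _ E hE G hG θ h0 h1 S hS => by
    have h := knothe E hE N G hG θ h0 h1 S hS
    exact (Real.le_log_iff_exp_le ((Real.exp_pos _).trans_le h)).2 h⟩

end Pool.Agent.MP_5f4cdd_gt.DI51
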