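import Mathlib

set_option autoImplicit false
open MeasureTheory ENNReal

namespace Pool.Agent.MP_5f4cdd_gt

/-- The standard simplex. -/
def stdS (n : ℕ) : Set (Fin n → ℝ) := {z | (∀ i, 0 ≤ z i) ∧ ∑ i, z i ≤ 1}

/-- The `L^p` Mahler volume for finite `p`. -/
noncomputable def mahler {n : ℕ} (p : ℝ) (L : Set (Fin n → ℝ)) : ℝ≥0∞ :=
  volume L * ∫⁻ y : Fin n → ℝ, ENNReal.ofReal
    (((∫ x in L, Real.exp (p * ∑ i, x i * y i)) / (volume L).toReal) ^ (-(1 / p)))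

end Pool.Agent.MP_5f4cdd_gt
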