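import Pool.Agent.MP_5f4cdd_gt.Tangent

set_option autoImplicit false
open MeasureTheory ENNReal Set Matrix Topology Filter

namespace Pool.Agent.MP_5f4cdd_gt

variable {n : ℕ}

lemma volume_stdS : volume (stdS n) = volume (cS n 1) := by
  rw [← image_sub_cen, volume_image_sub]

lemma image_affine (e : E n ≃ᵃ[ℝ] E n) (S : Set (E n)) :
    e '' S = (fun z => z - (-e 0)) '' ((e.linear : E n →ₗ[ℝ] E n) '' S) := by
  rw [image_image]
  refine image_congr fun x _ => ?_
  have := e.map_vadd 0 x
  simp only [vadd_eq_add, add_zero] at this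
  simp [this]

lemma volume_image_affine (e : E n ≃ᵃ[ℝ] E n) (S : Set (E n)) :
    volume (e '' S) = ENNReal.ofReal |LinearMap.det (e.linear : E n →ₗ[ℝ] E n)| * volume S := by
  rw [image_affine, volume_image_sub, Measure.addHaar_image_linearMap]

lemma local_main {p : ℝ} (hp : 0 < p) :
    ∃ ε κ : ℝ, 0 < ε ∧ 0 < κ ∧ ∀ K : Set (E n), Convex ℝ K → IsCompact K → (interior K).Nonempty →
      ∀ e : E n ≃ᵃ[ℝ] E n, K ⊆ e '' stdS n →
      (1 - ε) * (volume (e '' stdS n)).toReal ≤ (volume K).toReal →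
      ∃ e' : E n ≃ᵃ[ℝ] E n, K ⊆ e' '' stdS n ∧
      ENNReal.ofReal (1 + κ * (1 - (volume K).toReal / (volume (e' '' stdS n)).toReal)) *
        mahler p (cS n 1) ≤ mahler p K := by
  cases n with
  | zero =>
    refine ⟨1, 1, one_pos, one_pos, fun K _ _ hKi e hKe _ => ⟨e, hKe, ?_⟩⟩
    have h1 : K = univ := by
      obtain ⟨x, hx⟩ := hKi
      exact eq_univ_of_forall fun y => by rw [Subsingleton.elim y x]; exact interior_subset hx
    have h2 : e '' stdS 0 = univ := univ_subset_iff.1 (h1 ▸ hKe)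
    have h3 : cS 0 1 = univ := eq_univ_of_forall fun y =>
      mem_cS_of_norm_le (by rw [Subsingleton.elim y 0, norm_zero]; positivity)
    have h4 : (volume (univ : Set (E 0))).toReal ≠ 0 := by
      rw [← h3]
      exact (ENNReal.toReal_pos (volume_cS_pos one_pos).ne'
        (volume_cS_lt_top zero_le_one).ne).ne'
    rw [h2, h3, h1, div_self h4]
    simp
  | succ m =>
    obtain ⟨ε, κ, hε, hκ, h⟩ := local_centred (m := m) hp
    refine ⟨min ε 1, κ, lt_min hε one_pos, hκ, fun K hKc hKk hKi e hKe hKv => ?_⟩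
    have hfin : volume (cS (m + 1) 1) ≠ ∞ := (volume_cS_lt_top zero_le_one).ne
    set V := (volume (cS (m + 1) 1)).toReal with hV
    have hV0 : 0 < V := ENNReal.toReal_pos (volume_cS_pos one_pos).ne' hfin
    set A := (e.linear : E (m + 1) →ₗ[ℝ] E (m + 1)) with hA
    set A' := (e.symm.linear : E (m + 1) →ₗ[ℝ] E (m + 1)) with hA'
    have hAA : LinearMap.det A * LinearMap.det A' = 1 := by
      rw [← LinearMap.det_comp]
      have : A ∘ₗ A' = LinearMap.id := by
        ext1 x; simp [hA, hA']
      rw [this, LinearMap.det_id]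
    have hA0 : 0 < |LinearMap.det A| := abs_pos.2 (left_ne_zero_of_mul_eq_one hAA)
    have hA'0 : 0 < |LinearMap.det A'| := abs_pos.2 (right_ne_zero_of_mul_eq_one hAA)
    obtain ⟨B, b, hB, hmax⟩ := exists_max hKi A' (e.symm 0 - cen (m + 1)) (by
      intro x hx
      obtain ⟨y, hy, rfl⟩ := hKe hx
      have h1 := e.symm.map_vadd 0 (e y)
      simp only [vadd_eq_add, add_zero, AffineEquiv.symm_apply_apply] at h1
      have h2 : A' (e y) + (e.symm 0 - cen (m + 1)) = y - cen (m + 1) := by
        rw [← add_sub_assoc]; congr 1; exact h1.symm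
      rw [h2]; exact mem_stdS_iff.1 hy)
    have hle : |LinearMap.det A'| ≤ |LinearMap.det B| := hmax A' (e.symm 0 - cen (m + 1)) (by
      intro x hx
      obtain ⟨y, hy, rfl⟩ := hKe hx
      have h1 := e.symm.map_vadd 0 (e y)
      simp only [vadd_eq_add, add_zero, AffineEquiv.symm_apply_apply] at h1
      have h2 : A' (e y) + (e.symm 0 - cen (m + 1)) = y - cen (m + 1) := by
        rw [← add_sub_assoc]; congr 1; exact h1.symm
      rw [h2]; exact mem_stdS_iff.1 hy)
    have hB0 : 0 < |LinearMap.det B| := hA'0.trans_le hle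
    have hBne : LinearMap.det B ≠ 0 := abs_pos.1 hB0
    set K' := (fun z => z - (-b)) '' (B '' K) with hK'
    have hK'mem : ∀ x ∈ K, B x + b ∈ K' := fun x hx => ⟨B x, ⟨x, hx, rfl⟩, by simp⟩
    have hK'c : Convex ℝ K' := by
      have := (hKc.linear_image B).translate b
      have he : (fun z : E (m + 1) => z - (-b)) = fun x => b + x := by ext z; simp [add_comm]
      rwa [hK', he]
    have hK'k : IsCompact K' :=
      (hKk.image B.continuous_of_finiteDimensional).image (by fun_prop)
    have hK's : K' ⊆ cS (m + 1) 1 := by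
      rintro _ ⟨_, ⟨x, hx, rfl⟩, rfl⟩
      simpa using hB x hx
    have hK'M : Maxi K' := by
      intro T c hT
      have := hmax (T ∘ₗ B) (T b + c) fun x hx => by
        have := hT _ (hK'mem x hx)
        simpa [add_assoc] using this
      rw [LinearMap.det_comp, abs_mul] at this
      exact le_of_mul_le_mul_right (by simpa using this) hB0
    have hK'v : (volume K').toReal = |LinearMap.det B| * (volume K).toReal := by
      rw [hK', volume_image_sub, Measure.addHaar_image_linearMap, ENNReal.toReal_mul,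
        ENNReal.toReal_ofReal hB0.le]
    have hev : (volume (e '' stdS (m + 1))).toReal = |LinearMap.det A| * V := by
      rw [volume_image_affine, volume_stdS, ENNReal.toReal_mul, ENNReal.toReal_ofReal hA0.le]
    have hAA' : |LinearMap.det A| * |LinearMap.det A'| = 1 := by rw [← abs_mul, hAA, abs_one]
    have hvol : (1 - ε) * V ≤ (volume K').toReal := by
      rw [hK'v]
      rw [hev] at hKv
      have h1 : 0 ≤ 1 - min ε 1 := sub_nonneg.2 (min_le_right _ _)
      have h2 : 1 - ε ≤ 1 - min ε 1 := by linarith [min_le_left ε 1]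
      have h3 : 0 ≤ (volume K).toReal := ENNReal.toReal_nonneg
      calc (1 - ε) * V ≤ (1 - min ε 1) * V := by gcongr
        _ = |LinearMap.det A'| * ((1 - min ε 1) * (|LinearMap.det A| * V)) := by
          linear_combination (-(1 - min ε 1) * V) * hAA'
        _ ≤ |LinearMap.det A'| * (volume K).toReal := by gcongr
        _ ≤ _ := by gcongr
    have key := h K' hK'c hK'k hK's hK'M hvol b
    have hback : (fun z => z - b) '' K' = B '' K := by
      rw [hK', image_image]; simp
    rw [hback, mahler_image_lin p B hBne] at key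
    set Be := LinearMap.equivOfDetNeZero B hBne with hBe
    set e' : E (m + 1) ≃ᵃ[ℝ] E (m + 1) :=
      (AffineEquiv.constVAdd ℝ (E (m + 1)) (-(cen (m + 1) + b))).trans Be.symm.toAffineEquiv with he'
    have hBe' : ∀ x, Be x = B x := fun x => rfl
    refine ⟨e', fun x hx => ⟨B x + b + cen (m + 1), mem_stdS_iff.2 (by simpa using hB x hx), ?_⟩, ?_⟩
    · simp only [he', AffineEquiv.trans_apply, AffineEquiv.constVAdd_apply, vadd_eq_add,
        LinearEquiv.coe_toAffineEquiv]
      rw [LinearEquiv.symm_apply_eq, hBe']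
      abel
    · have hdet : LinearMap.det (e'.linear : E (m + 1) →ₗ[ℝ] E (m + 1)) * LinearMap.det B = 1 := by
        rw [← LinearMap.det_comp]
        have : (e'.linear : E (m + 1) →ₗ[ℝ] E (m + 1)) ∘ₗ B = LinearMap.id := by
          refine LinearMap.ext fun x => ?_
          change Be.symm (B x) = x
          rw [LinearEquiv.symm_apply_eq, hBe']
        rw [this, LinearMap.det_id]
      have habs : |LinearMap.det (e'.linear : E (m + 1) →ₗ[ℝ] E (m + 1))| = |LinearMap.det B|⁻¹ := by
        apply eq_inv_of_mul_eq_one_left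
        rw [← abs_mul, hdet, abs_one]
      rw [volume_image_affine, volume_stdS, ENNReal.toReal_mul, ENNReal.toReal_ofReal (abs_nonneg _),
        habs, ← hV]
      rw [hK'v] at key
      convert key using 5
      field_simp

lemma convex_stdS : Convex ℝ (stdS n) := by
  intro x hx y hy a b ha hb hab
  refine ⟨fun i => add_nonneg (mul_nonneg ha (hx.1 i)) (mul_nonneg hb (hy.1 i)), ?_⟩
  simp only [Pi.add_apply, Pi.smul_apply, smul_eq_mul, Finset.sum_add_distrib, ← Finset.mul_sum]
  nlinarith [hx.2, hy.2]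

lemma mahler_cS_le {p : ℝ} (hp : 0 < p) (x : E n) :
    mahler p (cS n 1) ≤ mahler p ((fun z => z - x) '' stdS n) := by
  have h := tangent hp (measurableSet_cS (n := n) 1)
    (cS_mono (le_add_of_nonneg_right (by positivity))) (volume_cS_pos one_pos).ne' (x - cen n)
  rw [integral_Psi_cS hp, sub_self, mul_zero, add_zero, ← mahler_cS hp] at h
  convert h using 2
  rw [← image_sub_cen, image_image]
  simp

lemma iInf_eq {p : ℝ} (hp : 0 < p) :
    ⨅ x ∈ stdS n, mahler p ((fun z => z - x) '' stdS n) = mahler p (cS n 1) :=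
  le_antisymm ((iInf₂_le (cen n) cen_mem_stdS).trans (by rw [image_sub_cen]))
    (le_iInf₂ fun x _ => mahler_cS_le hp x)

theorem local_min (n : ℕ) (p : ℝ) (hp : 0 < p) :
    (0 < ⨅ x ∈ stdS n, mahler p ((fun z => z - x) '' stdS n) ∧
      ⨅ x ∈ stdS n, mahler p ((fun z => z - x) '' stdS n) < ∞) ∧
    ∃ ε κ : ℝ, 0 < ε ∧ 0 < κ ∧ ∀ K : Set (Fin n → ℝ),
      Convex ℝ K → IsCompact K → (interior K).Nonempty →
      ∀ e : (Fin n → ℝ) ≃ᵃ[ℝ] (Fin n → ℝ), K ⊆ e '' stdS n →
      (1 - ε) * (volume (e '' stdS n)).toReal ≤ (volume K).toReal →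
      ∃ e' : (Fin n → ℝ) ≃ᵃ[ℝ] (Fin n → ℝ), K ⊆ e' '' stdS n ∧
        ENNReal.ofReal (1 + κ * (1 - (volume K).toReal / (volume (e' '' stdS n)).toReal)) *
          (⨅ x ∈ stdS n, mahler p ((fun z => z - x) '' stdS n)) ≤ mahler p K := by
  rw [iInf_eq hp]
  refine ⟨⟨?_, ?_⟩, local_main hp⟩
  · rw [mahler_cS hp, ENNReal.ofReal_pos]
    have := ENNReal.toReal_pos (volume_cS_pos (n := n) one_pos).ne'
      (volume_cS_lt_top zero_le_one).ne
    have := Jp_pos (n := n) hp
    positivity
  · rw [mahler_cS hp]; exact ENNReal.ofReal_lt_top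

lemma volume_lt_of_ne {K S : Set (E n)} (hK : IsClosed K) (hKi : (interior K).Nonempty)
    (hS : Convex ℝ S) (hKS : K ⊆ S) (hne : K ≠ S) (hfin : volume K ≠ ∞) : volume K < volume S := by
  have h1 : (interior S \ K).Nonempty := by
    by_contra hc
    rw [not_nonempty_iff_eq_empty, sdiff_eq_empty] at hc
    have h2 := closure_minimal hc hK
    rw [hS.closure_interior_eq_closure_of_nonempty_interior (hKi.mono (interior_mono hKS))] at h2
    exact hne (hKS.antisymm (subset_closure.trans h2))
  have h3 : 0 < volume (interior S \ K) := (isOpen_interior.sdiff hK).measure_pos _ h1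
  calc volume K < volume K + volume (interior S \ K) := ENNReal.lt_add_right hfin h3.ne'
    _ = volume (K ∪ interior S \ K) :=
        (measure_union disjoint_sdiff_right (measurableSet_interior.diff hK.measurableSet)).symm
    _ ≤ volume S := measure_mono (union_subset hKS (sdiff_subset.trans interior_subset))

theorem local_min' (n : ℕ) (p : ℝ) (hp : 0 < p) :
    ∃ ε κ : ℝ, 0 < ε ∧ 0 < κ ∧ ∀ K : Set (Fin n → ℝ),
      Convex ℝ K → IsCompact K → (interior K).Nonempty →
      ∀ e : AffineEquiv ℝ (Fin n → ℝ) (Fin n → ℝ), K ⊆ e '' stdS n →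
      (1 - ε) * (volume (e '' stdS n)).toReal ≤ (volume K).toReal →
      ∃ e' : AffineEquiv ℝ (Fin n → ℝ) (Fin n → ℝ), K ⊆ e' '' stdS n ∧
        ENNReal.ofReal (1 + κ * (1 - (volume K).toReal / (volume (e' '' stdS n)).toReal)) *
          (⨅ x ∈ stdS n, mahler p ((fun z => z - x) '' stdS n)) ≤ mahler p K ∧
        (K ≠ e' '' stdS n →
          (⨅ x ∈ stdS n, mahler p ((fun z => z - x) '' stdS n)) < mahler p K) := by
  obtain ⟨⟨h0, ht⟩, ε, κ, hε, hκ, h⟩ := local_min n p hp
  refine ⟨ε, κ, hε, hκ, fun K hKc hKk hKi e hKe hKv => ?_⟩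
  obtain ⟨e', he', hle⟩ := h K hKc hKk hKi e hKe hKv
  refine ⟨e', he', hle, fun hne => lt_of_lt_of_le ?_ hle⟩
  have hSt : volume (e' '' stdS n) ≠ ∞ := by
    rw [volume_image_affine, volume_stdS]
    exact ENNReal.mul_ne_top ENNReal.ofReal_ne_top (volume_cS_lt_top zero_le_one).ne
  have h1 := volume_lt_of_ne hKk.isClosed hKi (convex_stdS.affine_image e'.toAffineMap) he' hne
    hKk.measure_lt_top.ne
  have h2 : (volume K).toReal < (volume (e' '' stdS n)).toReal :=
    (ENNReal.toReal_lt_toReal hKk.measure_lt_top.ne hSt).2 h1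
  have h3 : (volume K).toReal / (volume (e' '' stdS n)).toReal < 1 :=
    (div_lt_one (ENNReal.toReal_nonneg.trans_lt h2)).2 h2
  have h4 : 1 < ENNReal.ofReal (1 + κ * (1 - (volume K).toReal / (volume (e' '' stdS n)).toReal)) := by
    rw [ENNReal.one_lt_ofReal]
    nlinarith
  calc _ = 1 * _ := (one_mul _).symm
    _ < _ := ENNReal.mul_lt_mul_left h0.ne' ht.ne h4

end Pool.Agent.MP_5f4cdd_gt
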