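import Pool.Agent.MP_5f4cdd_gt.EFDefs
import Pool.Agent.MP_5f4cdd_gt.Local

set_option autoImplicit false
open MeasureTheory Set ENNReal Topology Filter

namespace Pool.Agent.MP_5f4cdd_gt.EF

variable {n : ℕ}

/-- `K` fills a simplex up to the fraction `ε` of its volume -/
def Near (ε : ℝ) (K : Set (E n)) : Prop :=
  ∃ e : E n ≃ᵃ[ℝ] E n, K ⊆ e '' stdS n ∧
    (1 - ε) * (volume (e '' stdS n)).toReal ≤ (volume K).toReal

lemma toReal_image_affine (f : E n ≃ᵃ[ℝ] E n) (S : Set (E n)) :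
    (volume (f '' S)).toReal =
      |LinearMap.det (f.linear : E n →ₗ[ℝ] E n)| * (volume S).toReal := by
  rw [volume_image_affine, ENNReal.toReal_mul, ENNReal.toReal_ofReal (abs_nonneg _)]

lemma det_linear_pos (f : E n ≃ᵃ[ℝ] E n) : 0 < |LinearMap.det (f.linear : E n →ₗ[ℝ] E n)| :=
  abs_pos.2 (LinearEquiv.isUnit_det' f.linear).ne_zero

lemma volume_stdS_ne_top : volume (stdS n) ≠ ∞ := by
  rw [volume_stdS]; exact (volume_cS_lt_top zero_le_one).ne

lemma toReal_stdS_pos : 0 < (volume (stdS n)).toReal := by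
  refine ENNReal.toReal_pos ?_ volume_stdS_ne_top
  rw [volume_stdS]; exact (volume_cS_pos one_pos).ne'

lemma toReal_simplex_pos (e : E n ≃ᵃ[ℝ] E n) : 0 < (volume (e '' stdS n)).toReal := by
  rw [toReal_image_affine]; exact mul_pos (det_linear_pos e) toReal_stdS_pos

lemma Near.mono {ε ε' : ℝ} {K : Set (E n)} (h : Near ε K) (hε : ε ≤ ε') : Near ε' K := by
  obtain ⟨e, h1, h2⟩ := h
  exact ⟨e, h1, le_trans (mul_le_mul_of_nonneg_right (by linarith) ENNReal.toReal_nonneg) h2⟩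

lemma near_simplex (e : E n ≃ᵃ[ℝ] E n) : Near 0 (e '' stdS n) := ⟨e, subset_rfl, by simp⟩

lemma Near.transfer {ε ε' : ℝ} {A C : Set (E n)} (hA : Near ε A) (f : E n ≃ᵃ[ℝ] E n)
    (hC : C ⊆ f '' A) (hε : ε < 1) (hε' : ε' ≤ 1)
    (hv : (1 - ε') * (volume (f '' A)).toReal ≤ (1 - ε) * (volume C).toReal) : Near ε' C := by
  obtain ⟨e, h1, h2⟩ := hA
  have he : (e.trans f) '' stdS n = f '' (e '' stdS n) := by
    rw [AffineEquiv.coe_trans, image_comp]
  refine ⟨e.trans f, by rw [he]; exact hC.trans (image_mono h1), ?_⟩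
  rw [he, toReal_image_affine]
  rw [toReal_image_affine] at hv
  have hd := det_linear_pos f
  refine le_of_mul_le_mul_left ?_ (sub_pos.2 hε)
  refine le_trans ?_ hv
  have := mul_le_mul_of_nonneg_left h2 (mul_nonneg (sub_nonneg.2 hε') hd.le)
  nlinarith

lemma Near.image {ε : ℝ} {A : Set (E n)} (hA : Near ε A) (f : E n ≃ᵃ[ℝ] E n) (hε : ε < 1) :
    Near ε (f '' A) := hA.transfer f subset_rfl hε hε.le le_rfl

lemma toReal_homothety (c : E n) {ρ : ℝ} (hρ : 0 ≤ ρ) (A : Set (E n)) :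
    (volume (AffineMap.homothety c ρ '' A)).toReal = ρ ^ n * (volume A).toReal := by
  rw [Measure.addHaar_image_homothety, ENNReal.toReal_mul, ENNReal.toReal_ofReal (abs_nonneg _),
    abs_of_nonneg (pow_nonneg hρ _)]
  simp

lemma Near.homothety {ε ε' ρ σ : ℝ} {A C : Set (E n)} {c : E n} (hA : Near ε A) (hρ : 0 < ρ)
    (hσ : 0 ≤ σ) (h1 : C ⊆ AffineMap.homothety c ρ '' A) (h2 : AffineMap.homothety c σ '' A ⊆ C)
    (hC : volume C ≠ ∞) (hε : ε < 1) (hε' : ε' ≤ 1)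
    (h : (1 - ε') * ρ ^ n ≤ (1 - ε) * σ ^ n) : Near ε' C := by
  have hf : ((AffineEquiv.homothetyUnitsMulHom c (Units.mk0 ρ hρ.ne') : E n ≃ᵃ[ℝ] E n) :
      E n → E n) = AffineMap.homothety c ρ := by
    rw [AffineEquiv.coe_homothetyUnitsMulHom_apply]; rfl
  refine hA.transfer (AffineEquiv.homothetyUnitsMulHom c (Units.mk0 ρ hρ.ne'))
    (by rwa [hf]) hε hε' ?_
  rw [hf, toReal_homothety c hρ.le]
  have h3 := ENNReal.toReal_mono hC (measure_mono h2)
  rw [toReal_homothety c hσ] at h3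
  have h4 := mul_le_mul_of_nonneg_right h (ENNReal.toReal_nonneg (a := volume A))
  have h5 := mul_le_mul_of_nonneg_left h3 (sub_pos.2 hε).le
  nlinarith

lemma homothety_inv_left {c : E n} {ρ : ℝ} (hρ : ρ ≠ 0) {A C : Set (E n)}
    (h : AffineMap.homothety c ρ '' A ⊆ C) : A ⊆ AffineMap.homothety c ρ⁻¹ '' C := by
  intro a ha
  refine ⟨_, h (mem_image_of_mem _ ha), ?_⟩
  rw [← AffineMap.homothety_mul_apply, inv_mul_cancel₀ hρ, AffineMap.homothety_one]; rfl

lemma homothety_inv_right {c : E n} {ρ : ℝ} (hρ : ρ ≠ 0) {A C : Set (E n)}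
    (h : C ⊆ AffineMap.homothety c ρ '' A) : AffineMap.homothety c ρ⁻¹ '' C ⊆ A := by
  rintro _ ⟨z, hz, rfl⟩
  obtain ⟨a, ha, rfl⟩ := h hz
  rw [← AffineMap.homothety_mul_apply, inv_mul_cancel₀ hρ, AffineMap.homothety_one]; exact ha

/-- cancellation lemma -/
lemma shrink_sub {A X C : Set (E n)} {c : E n} {l : ℝ} (hA : IsCompact A)
    (hX : A ⊆ convexHull ℝ X) (hC : Convex ℝ C) (hCc : IsClosed C) (hl0 : 0 ≤ l) (hl1 : l ≤ 1)
    (h : ∀ a ∈ X, ∃ w ∈ C, ∃ b ∈ A, a = w + l • (b - c)) :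
    AffineMap.homothety c (1 - l) '' A ⊆ C := by
  rintro _ ⟨a, ha, rfl⟩
  by_contra hz
  obtain ⟨f, u, h1, h2⟩ := geometric_hahn_banach_closed_point hC hCc hz
  obtain ⟨a', ha', hmax⟩ := hA.exists_isMaxOn ⟨a, ha⟩ f.continuous.continuousOn
  have h3 : X ⊆ {x | f x < u + l * (f a' - f c)} := by
    intro x hx
    obtain ⟨w, hw, b, hb, rfl⟩ := h x hx
    have := hmax hb
    simp only [mem_ofPred_eq, map_add, map_smul, map_sub, smul_eq_mul] at this ⊢
    nlinarith [h1 w hw]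
  have h4 := convexHull_min h3 (convex_halfSpace_lt f.toLinearMap.isLinear _) (hX ha')
  have h5 := hmax ha
  simp only [AffineMap.homothety_apply, vsub_eq_sub, vadd_eq_add, map_add, map_smul, map_sub,
    smul_eq_mul, mem_ofPred_eq] at h2 h4 h5
  nlinarith

lemma sandwich {ι : Type} [Finite ι] (p q : ι → E n) {c : E n} {r δ : ℝ} (hδ0 : 0 < δ)
    (hδ1 : δ ≤ 1) (hb : Metric.closedBall c r ⊆ convexHull ℝ (range p))
    (h : ∀ i, ‖p i - q i‖ ≤ δ * r) :
    AffineMap.homothety c (1 - δ) '' convexHull ℝ (range p) ⊆ convexHull ℝ (range q) ∧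
    convexHull ℝ (range q) ⊆ AffineMap.homothety c (1 + δ) '' convexHull ℝ (range p) := by
  have hm : ∀ v : E n, ‖v‖ ≤ δ * r → c + δ⁻¹ • v ∈ convexHull ℝ (range p) := fun v hv => by
    refine hb ?_
    rw [Metric.mem_closedBall, dist_eq_norm, add_sub_cancel_left, norm_smul, Real.norm_eq_abs,
      abs_of_pos (inv_pos.2 hδ0), inv_mul_le_iff₀ hδ0]
    exact hv
  constructor
  · refine shrink_sub ((finite_range p).isCompact_convexHull ℝ) subset_rfl (convex_convexHull ℝ _)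
      ((finite_range q).isCompact_convexHull ℝ).isClosed hδ0.le hδ1 ?_
    rintro _ ⟨i, rfl⟩
    refine ⟨q i, subset_convexHull ℝ _ (mem_range_self i), _, hm _ (h i), ?_⟩
    rw [add_sub_cancel_left, smul_smul, mul_inv_cancel₀ hδ0.ne', one_smul]; abel
  · refine convexHull_min ?_ ((convex_convexHull ℝ _).affine_image _)
    rintro _ ⟨i, rfl⟩
    have h1 : 0 < 1 + δ := by linarith
    refine ⟨_, convex_convexHull ℝ _ (subset_convexHull ℝ _ (mem_range_self i))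
      (hm (q i - p i) (by rw [norm_sub_rev]; exact h i)) (a := 1 / (1 + δ)) (b := δ / (1 + δ))
      (by positivity) (by positivity) (by field_simp), ?_⟩
    ext j
    simp only [AffineMap.homothety_apply, vsub_eq_sub, vadd_eq_add, Pi.add_apply, Pi.smul_apply,
      Pi.sub_apply, smul_eq_mul]
    field_simp
    ring

lemma exists_delta {ε ε' : ℝ} (h : ε < ε') (n : ℕ) :
    ∃ δ : ℝ, 0 < δ ∧ δ < 1 ∧ (1 - ε') * (1 + δ) ^ n ≤ (1 - ε) * (1 - δ) ^ n := by
  have h1 : ∀ᶠ δ in 𝓝 (0 : ℝ), (1 - ε') * (1 + δ) ^ n < (1 - ε) * (1 - δ) ^ n :=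
    ContinuousAt.eventually_lt (by fun_prop) (by fun_prop) (by simpa using h)
  have h2 : ∀ᶠ δ in 𝓝 (0 : ℝ), δ < 1 := eventually_lt_nhds one_pos
  obtain ⟨δ, ⟨h3, h4⟩, h5⟩ := (((h1.and h2).filter_mono nhdsWithin_le_nhds).and
    (self_mem_nhdsWithin (a := (0 : ℝ)) (s := Ioi 0))).exists
  exact ⟨δ, h5, h4, h3.le⟩

/-- nearness cannot jump over a moat along a shadow system -/
lemma near_flow {ι : Type} [Finite ι] (x : ι → E n) (a : ι → ℝ) (θ : E n) {s : Set ℝ}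
    (hs : IsPreconnected s)
    (hi : ∀ t ∈ s, (interior (convexHull ℝ (range (shadowPts x a θ t)))).Nonempty)
    {ε ε' : ℝ} (hεε' : ε < ε') (hε' : ε' ≤ 1)
    (moat : ∀ t ∈ s, Near ε' (convexHull ℝ (range (shadowPts x a θ t))) →
      Near ε (convexHull ℝ (range (shadowPts x a θ t))))
    {t₀ t₁ : ℝ} (h₀ : t₀ ∈ s) (h₁ : t₁ ∈ s) :
    Near ε' (convexHull ℝ (range (shadowPts x a θ t₀))) →
      Near ε' (convexHull ℝ (range (shadowPts x a θ t₁))) := by
  obtain ⟨δ, hδ0, hδ1, hδ⟩ := exists_delta hεε' n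
  have hε : ε < 1 := hεε'.trans_le hε'
  have hfin : ∀ t, volume (convexHull ℝ (range (shadowPts x a θ t))) ≠ ∞ := fun t =>
    ((finite_range _).isCompact_convexHull ℝ).measure_lt_top.ne
  refine hs.induction₂' (fun t t' => Near ε' (convexHull ℝ (range (shadowPts x a θ t))) →
      Near ε' (convexHull ℝ (range (shadowPts x a θ t')))) (fun t ht => ?_)
      (fun _ _ _ _ _ _ h h' h'' => h' (h h'')) h₀ h₁
  obtain ⟨c, hc⟩ := hi t ht
  obtain ⟨r, hr, hb⟩ := Metric.nhds_basis_closedBall.mem_iff.1 (mem_interior_iff_mem_nhds.1 hc)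
  have h1 : ∀ᶠ t' in 𝓝 t, ∀ i, ‖shadowPts x a θ t i - shadowPts x a θ t' i‖ ≤ δ * r := by
    refine eventually_all.2 fun i => ?_
    have : ∀ᶠ t' in 𝓝 t, ‖shadowPts x a θ t i - shadowPts x a θ t' i‖ < δ * r :=
      ContinuousAt.eventually_lt (by unfold shadowPts; fun_prop) continuousAt_const
        (by simpa using mul_pos hδ0 hr)
    exact this.mono fun _ h => h.le
  filter_upwards [h1.filter_mono nhdsWithin_le_nhds, self_mem_nhdsWithin] with t' h2 ht'
  obtain ⟨h3, h4⟩ := sandwich _ _ hδ0 hδ1.le hb h2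
  have h5 : 0 < 1 - δ := by linarith
  have h6 : 0 < 1 + δ := by linarith
  refine ⟨fun h => (moat t ht h).homothety h6 h5.le h4 h3 (hfin _) hε hε' hδ,
    fun h => (moat t' ht' h).homothety (inv_pos.2 h5) (inv_pos.2 h6).le
      (homothety_inv_left h5.ne' h3) (homothety_inv_right h6.ne' h4) (hfin _) hε hε' ?_⟩
  rw [inv_pow, inv_pow, ← div_eq_mul_inv, ← div_eq_mul_inv,
    div_le_div_iff₀ (pow_pos h5 _) (pow_pos h6 _)]
  exact hδ

end Pool.Agent.MP_5f4cdd_gt.EF
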