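import Pool.Agent.MP_5f4cdd_gt.ShadowInf

set_option autoImplicit false
open MeasureTheory ENNReal Set Filter Topology Matrix Bornology Pointwise

namespace Pool.Agent.MP_5f4cdd_gt.PL

variable {n : ℕ}

/-- polar set -/
def polarS (L : Set (E n)) : Set (E n) := {w | ∀ z ∈ L, z ⬝ᵥ w ≤ 1}

lemma isClosed_polarS (L : Set (E n)) : IsClosed (polarS L) := by
  have : polarS L = ⋂ z ∈ L, {w | z ⬝ᵥ w ≤ 1} := by ext w; simp [polarS]
  rw [this]
  exact isClosed_biInter fun z _ => isClosed_le (by fun_prop) continuous_const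

lemma suppF_le_iff {L : Set (E n)} (hL : IsBounded L) (hn : L.Nonempty) {y : E n} {C : ℝ} :
    suppF L y ≤ C ↔ ∀ x ∈ L, x ⬝ᵥ y ≤ C :=
  ⟨fun h _ hx => (dot_le_suppF hL hx y).trans h, suppF_le hn⟩

lemma level_eq_smul {L : Set (E n)} (hL : IsBounded L) (hn : L.Nonempty) {s : ℝ} (hs : 0 < s) :
    {y | suppF L y ≤ s} = s • polarS L := by
  ext y
  rw [mem_smul_set_iff_inv_smul_mem₀ hs.ne']
  simp only [mem_ofPred_eq, suppF_le_iff hL hn, polarS, dotProduct_smul, smul_eq_mul,
    inv_mul_le_iff₀ hs, mul_one]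

lemma lintegral_gamma (n : ℕ) :
    ∫⁻ s in Ioi (0 : ℝ), ENNReal.ofReal (Real.exp (-s) * s ^ n) = (n.factorial : ℝ≥0∞) := by
  have h0 : (0 : ℝ) < n + 1 := by positivity
  have h1 := Real.GammaIntegral_convergent h0
  have h2 := Real.Gamma_eq_integral h0
  rw [Real.Gamma_nat_eq_factorial] at h2
  simp only [add_sub_cancel_right, Real.rpow_natCast] at h1 h2
  rw [← ofReal_integral_eq_lintegral_ofReal h1, ← h2, ENNReal.ofReal_natCast]
  filter_upwards [ae_restrict_mem measurableSet_Ioi] with s hs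
  exact mul_nonneg (Real.exp_pos _).le (pow_nonneg (le_of_lt hs) _)

lemma exp_neg_eq {h : ℝ} (hh : 0 ≤ h) : ENNReal.ofReal (Real.exp (-h)) =
    ∫⁻ s in Ioi (0 : ℝ), (Ici h).indicator (fun s => ENNReal.ofReal (Real.exp (-s))) s := by
  rw [lintegral_indicator measurableSet_Ici, Measure.restrict_restrict measurableSet_Ici,
    ← integral_exp_neg_Ioi h, ofReal_integral_eq_lintegral_ofReal (integrableOn_exp_neg_Ioi h)
      (Eventually.of_forall fun s => (Real.exp_pos _).le)]
  refine setLIntegral_congr ?_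
  have : ∀ᵐ s : ℝ, s ≠ h := by simp [ae_iff]
  filter_upwards [this] with s hs
  refine propext ⟨fun h1 => ⟨le_of_lt h1, lt_of_le_of_lt hh h1⟩, fun h1 => ?_⟩
  exact lt_of_le_of_ne h1.1 hs.symm

/-- layer cake formula for the polar volume -/
theorem lintegral_expS {L : Set (E n)} (hL : IsBounded L) (h0 : (0 : E n) ∈ L) :
    ∫⁻ y, expS L y = (n.factorial : ℝ≥0∞) * volume (polarS L) := by
  have hn : L.Nonempty := ⟨0, h0⟩
  have hpos : ∀ y, 0 ≤ suppF L y := fun y => by simpa using dot_le_suppF hL h0 y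
  have hm := (continuous_suppF hL).measurable
  simp only [expS, exp_neg_eq (hpos _)]
  rw [lintegral_lintegral_swap]
  · rw [← lintegral_gamma, ← lintegral_mul_const _ (by fun_prop)]
    refine setLIntegral_congr_fun measurableSet_Ioi fun s hs => ?_
    have hs' : 0 < s := hs
    have e : ∀ y, (Ici (suppF L y)).indicator (fun s => ENNReal.ofReal (Real.exp (-s))) s =
        {y | suppF L y ≤ s}.indicator (fun _ => ENNReal.ofReal (Real.exp (-s))) y := fun y => by
      simp only [indicator, mem_Ici, mem_ofPred_eq]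
    simp only [e]
    rw [lintegral_indicator (measurableSet_le hm measurable_const), setLIntegral_const,
      level_eq_smul hL hn hs', Measure.addHaar_smul, ENNReal.ofReal_mul (Real.exp_pos _).le,
      mul_assoc]
    simp [abs_of_pos hs']
  · have e : (Function.uncurry fun (y : E n) (s : ℝ) =>
        (Ici (suppF L y)).indicator (fun s => ENNReal.ofReal (Real.exp (-s))) s) =
        {q : E n × ℝ | suppF L q.1 ≤ q.2}.indicator
          (fun q => ENNReal.ofReal (Real.exp (-q.2))) := by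
      ext q
      simp only [Function.uncurry, indicator, mem_Ici, mem_ofPred_eq]
    rw [e]
    exact (Measurable.indicator (by fun_prop)
      (measurableSet_le (hm.comp measurable_fst) measurable_snd)).aemeasurable

lemma isBounded_polarS {L : Set (E n)} (h0 : (0 : E n) ∈ interior L) : IsBounded (polarS L) := by
  obtain ⟨ε, hε, hb⟩ := Metric.mem_nhds_iff.1 (mem_interior_iff_mem_nhds.1 h0)
  refine (Metric.isBounded_closedBall (x := (0 : E n)) (r := 2 / ε)).subset fun w hw => ?_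
  rw [mem_closedBall_zero_iff, pi_norm_le_iff_of_nonneg (by positivity)]
  intro i
  have key : ∀ c : ℝ, |c| = ε / 2 → c * w i ≤ 1 := by
    intro c hc
    have := hw (Pi.single i c) (hb (by
      rw [mem_ball_zero_iff, Pi.norm_single, Real.norm_eq_abs, hc]; linarith))
    simpa using this
  have h1 := key (ε / 2) (abs_of_pos (by positivity))
  have h2 := key (-(ε / 2)) (by rw [abs_neg, abs_of_pos (by positivity)])
  rw [Real.norm_eq_abs, abs_le, le_div_iff₀ hε, neg_le, le_div_iff₀ hε]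
  constructor <;> linarith

lemma exists_ball_dot_le {L : Set (E n)} (hL : IsBounded L) :
    ∃ ε > 0, ∀ w ∈ Metric.ball (0 : E n) ε, ∀ z ∈ L, z ⬝ᵥ w ≤ 1 := by
  have hc := continuous_suppF hL
  rcases L.eq_empty_or_nonempty with rfl | hn
  · exact ⟨1, one_pos, by simp⟩
  have h0 : suppF L 0 < 1 := lt_of_le_of_lt (suppF_le hn (C := 0) (by simp)) one_pos
  obtain ⟨ε, hε, hb⟩ := Metric.mem_nhds_iff.1 ((isOpen_lt hc continuous_const).mem_nhds h0)
  exact ⟨ε, hε, fun w hw z hz => (dot_le_suppF hL hz w).trans (le_of_lt (hb hw))⟩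

lemma zero_mem_interior_polarS {L : Set (E n)} (hL : IsBounded L) :
    (0 : E n) ∈ interior (polarS L) := by
  obtain ⟨ε, hε, hb⟩ := exists_ball_dot_le hL
  exact mem_interior_iff_mem_nhds.2 (Metric.mem_nhds_iff.2 ⟨ε, hε, hb⟩)

lemma volume_polarS_ne_zero {L : Set (E n)} (hL : IsBounded L) : volume (polarS L) ≠ 0 :=
  (Measure.measure_pos_of_nonempty_interior volume ⟨0, zero_mem_interior_polarS hL⟩).ne'

lemma volume_polarS_eq_top {L : Set (E n)} (hL : IsBounded L) {v : E n} (hv : v ≠ 0)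
    (h : ∀ z ∈ L, z ⬝ᵥ v ≤ 0) : volume (polarS L) = ∞ := by
  obtain ⟨ε, hε, hb⟩ := exists_ball_dot_le hL
  have hv' : 0 < ‖v‖ := norm_pos_iff.2 hv
  set r := 2 * ε / ‖v‖ with hr
  have hr0 : 0 < r := by positivity
  have hsub : (⋃ k : ℕ, Metric.ball ((k * r) • v) ε) ⊆ polarS L := by
    refine iUnion_subset fun k w hw z hz => ?_
    have h1 := hb (w - (k * r) • v) (by rwa [mem_ball_zero_iff, ← dist_eq_norm]) z hz
    have h2 := mul_nonpos_of_nonneg_of_nonpos (by positivity : (0 : ℝ) ≤ k * r) (h z hz)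
    rw [dotProduct_sub, dotProduct_smul, smul_eq_mul] at h1
    linarith
  have hdis : Pairwise (Function.onFun Disjoint fun k : ℕ => Metric.ball ((k * r) • v) ε) := by
    intro k l hkl
    refine Metric.ball_disjoint_ball ?_
    rw [dist_eq_norm, ← sub_smul, norm_smul, ← sub_mul, Real.norm_eq_abs, abs_mul, abs_of_pos hr0,
      mul_assoc, hr, div_mul_cancel₀ _ hv'.ne']
    have : (1 : ℝ) ≤ |(k : ℝ) - l| := by
      have h1 : (1 : ℤ) ≤ |(k : ℤ) - l| := Int.one_le_abs (sub_ne_zero.2 (by exact_mod_cast hkl))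
      exact_mod_cast h1
    nlinarith
  refine top_le_iff.1 (le_trans (le_of_eq ?_) (measure_mono hsub))
  rw [measure_iUnion hdis fun _ => measurableSet_ball]
  simp only [Measure.addHaar_ball_center]
  exact (ENNReal.tsum_const_eq_top_of_ne_zero (Metric.measure_ball_pos volume _ hε).ne').symm

lemma volume_polarS_le {L : Set (E n)} (hn : L.Nonempty) :
    ENNReal.ofReal (Real.exp (-1)) * volume (polarS L) ≤ ∫⁻ y, expS L y := by
  rw [← setLIntegral_const]
  refine (setLIntegral_mono' (isClosed_polarS L).measurableSet fun y hy => ?_).trans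
    (setLIntegral_le_lintegral _ _)
  exact ENNReal.ofReal_le_ofReal (Real.exp_le_exp.2 (neg_le_neg (suppF_le hn hy)))

lemma exists_dot_eq (f : E n →L[ℝ] ℝ) : ∃ v : E n, ∀ z, f z = z ⬝ᵥ v := by
  refine ⟨fun i => f (Pi.single i 1), fun z => ?_⟩
  conv_lhs => rw [← Finset.univ_sum_single z]
  rw [map_sum, dotProduct]
  refine Finset.sum_congr rfl fun i _ => ?_
  rw [← smul_eq_mul, ← map_smul, ← Pi.single_smul', smul_eq_mul, mul_one]

lemma exists_sep {K : Set (E n)} (hK : Convex ℝ K) (hi : (interior K).Nonempty) {c : E n}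
    (hc : c ∉ interior K) : ∃ v : E n, v ≠ 0 ∧ ∀ z ∈ K, (z - c) ⬝ᵥ v ≤ 0 := by
  obtain ⟨f, hf, h⟩ := geometric_hahn_banach_of_nonempty_interior_point hK hc hi
  obtain ⟨v, hv⟩ := exists_dot_eq f
  refine ⟨v, fun h0 => hf ?_, fun z hz => ?_⟩
  · ext z; simp [hv, h0]
  · rw [sub_dotProduct, ← hv, ← hv]; linarith [h z hz]

/-- outside the interior the integral is infinite -/
theorem lintegral_expS_eq_top {K : Set (E n)} (hK : Convex ℝ K) (hb : IsBounded K)
    (hi : (interior K).Nonempty) {c : E n} (hc : c ∉ interior K) :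
    ∫⁻ y, expS ((fun z => z - c) '' K) y = ∞ := by
  obtain ⟨v, hv, h⟩ := exists_sep hK hi hc
  have h1 := volume_polarS_le ((hi.mono interior_subset).image (fun z => z - c))
  rw [volume_polarS_eq_top (isBounded_image_sub hb c) hv (by rintro _ ⟨z, hz, rfl⟩; exact h z hz),
    ENNReal.mul_top (by simpa using Real.exp_pos _)] at h1
  exact top_le_iff.1 h1

lemma zero_mem_interior_sub {K : Set (E n)} {c : E n} (hc : c ∈ interior K) :
    (0 : E n) ∈ interior ((fun z => z - c) '' K) := by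
  have := (Homeomorph.subRight c).image_interior K
  simp only [Homeomorph.coe_subRight] at this
  rw [← this]
  exact ⟨c, hc, sub_self c⟩

lemma lintegral_expS_sub {K : Set (E n)} (hb : IsBounded K) {c : E n} (hc : c ∈ K) :
    ∫⁻ y, expS ((fun z => z - c) '' K) y =
      (n.factorial : ℝ≥0∞) * volume (polarS ((fun z => z - c) '' K)) :=
  lintegral_expS (isBounded_image_sub hb c) ⟨c, hc, sub_self c⟩

lemma volume_polarS_sub_ne_top {K : Set (E n)} {c : E n} (hc : c ∈ interior K) :
    volume (polarS ((fun z => z - c) '' K)) ≠ ∞ :=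
  (isBounded_polarS (zero_mem_interior_sub hc)).measure_lt_top.ne

lemma lowerSemicontinuous_laplace {F : E n → ℝ≥0∞} (hF : Measurable F) :
    LowerSemicontinuous fun c : E n => ∫⁻ y, F y * ENNReal.ofReal (Real.exp (c ⬝ᵥ y)) := by
  rw [lowerSemicontinuous_iff_isClosed_preimage]
  intro K
  refine IsSeqClosed.isClosed fun s c hs hc => ?_
  refine fatou_mul hF (u := fun k y => ENNReal.ofReal (Real.exp (s k ⬝ᵥ y)))
    (fun k => (Real.measurable_exp.comp (measurable_dot _)).ennreal_ofReal)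
    (Eventually.of_forall fun y => ⟨?_, ?_⟩) hs
  · simpa using Real.exp_pos _
  · have : Continuous fun c : E n => Real.exp (c ⬝ᵥ y) := by fun_prop
    exact ENNReal.tendsto_ofReal (this.continuousAt.tendsto.comp hc)

/-- existence of a Santalo point -/
theorem exists_santalo {K : Set (E n)} (hK : Convex ℝ K) (hb : IsBounded K)
    (hi : (interior K).Nonempty) : ∃ c ∈ interior K,
      Jstar K = (n.factorial : ℝ≥0∞) * volume (polarS ((fun z => z - c) '' K)) := by
  have hn : K.Nonempty := hi.mono interior_subset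
  obtain ⟨c, -, hc⟩ := LowerSemicontinuousOn.exists_isMinOn hn.closure hb.isCompact_closure
    ((lowerSemicontinuous_laplace (measurable_expS hb)).lowerSemicontinuousOn _)
  have hc' : ∀ d ∈ closure K, ∫⁻ y, expS ((fun z => z - c) '' K) y ≤
      ∫⁻ y, expS ((fun z => z - d) '' K) y := by
    intro d hd
    simp only [expS_image_sub hb hn]
    exact hc hd
  have hci : c ∈ interior K := by
    by_contra h
    obtain ⟨d, hd⟩ := hi
    have := hc' d (subset_closure (interior_subset hd))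
    rw [lintegral_expS_eq_top hK hb ⟨d, hd⟩ h, lintegral_expS_sub hb (interior_subset hd)] at this
    exact ENNReal.mul_ne_top (ENNReal.natCast_ne_top _) (volume_polarS_sub_ne_top hd)
      (top_le_iff.1 this)
  refine ⟨c, hci, ?_⟩
  rw [← lintegral_expS_sub hb (interior_subset hci), Jstar_eq hb hn]
  refine le_antisymm (iInf_le _ c) (le_iInf fun d => ?_)
  by_cases hd : d ∈ interior K
  · exact hc' d (subset_closure (interior_subset hd))
  · rw [lintegral_expS_eq_top hK hb hi hd]; exact le_top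

lemma Jstar_le {K : Set (E n)} (hb : IsBounded K) {c : E n} (hc : c ∈ K) :
    Jstar K ≤ (n.factorial : ℝ≥0∞) * volume (polarS ((fun z => z - c) '' K)) := by
  rw [← lintegral_expS_sub hb hc, Jstar_eq hb ⟨c, hc⟩]
  exact iInf_le _ c

lemma polarS_hull_sub {ι : Type} (x : ι → E n) (c : E n) :
    polarS ((fun z => z - c) '' convexHull ℝ (range x)) = {w | ∀ i, (x i - c) ⬝ᵥ w ≤ 1} := by
  ext w
  constructor
  · intro h i
    exact h _ ⟨x i, subset_convexHull ℝ _ (mem_range_self i), rfl⟩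
  · rintro h _ ⟨z, hz, rfl⟩
    have : z ⬝ᵥ w ≤ 1 + c ⬝ᵥ w := by
      refine convexHull_min ?_ (convex_dot_le w _) hz
      rintro _ ⟨i, rfl⟩
      have := h i
      rw [sub_dotProduct] at this
      simp only [mem_ofPred_eq]
      linarith
    simp only [sub_dotProduct]
    linarith

/-- Meyer-Reisner with explicit centres and polar volumes -/
theorem meyer_reisner_polar {ι : Type} [Finite ι] (x : ι → E n) (a : ι → ℝ) (θ : E n)
    (t₀ t₁ l : ℝ) (hθ : θ ≠ 0) (hl0 : 0 < l) (hl1 : l < 1)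
    (h₀ : (interior (convexHull ℝ (range (shadowPts x a θ t₀)))).Nonempty)
    (h₁ : (interior (convexHull ℝ (range (shadowPts x a θ t₁)))).Nonempty)
    (c : E n) (hc : c ∈ interior (convexHull ℝ (range (shadowPts x a θ (l * t₀ + (1 - l) * t₁))))) :
    ∃ c₀ ∈ interior (convexHull ℝ (range (shadowPts x a θ t₀))),
    ∃ c₁ ∈ interior (convexHull ℝ (range (shadowPts x a θ t₁))),
      (volume {w | ∀ i, (shadowPts x a θ (l * t₀ + (1 - l) * t₁) i - c) ⬝ᵥ w ≤ 1}).toReal⁻¹ ≤
        l * (volume {w | ∀ i, (shadowPts x a θ t₀ i - c₀) ⬝ᵥ w ≤ 1}).toReal⁻¹ +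
        (1 - l) * (volume {w | ∀ i, (shadowPts x a θ t₁ i - c₁) ⬝ᵥ w ≤ 1}).toReal⁻¹ := by
  have hne : Nonempty ι := by
    by_contra h
    rw [not_nonempty_iff] at h
    simp [range_eq_empty] at h₀
  have hb : ∀ t, IsBounded (convexHull ℝ (range (shadowPts x a θ t))) := fun _ =>
    isBounded_convexHull.2 (finite_range _).isBounded
  obtain ⟨c₀, hc₀, e₀⟩ := exists_santalo (convex_convexHull ℝ _) (hb t₀) h₀
  obtain ⟨c₁, hc₁, e₁⟩ := exists_santalo (convex_convexHull ℝ _) (hb t₁) h₁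
  refine ⟨c₀, hc₀, c₁, hc₁, ?_⟩
  have key := (ENNReal.inv_le_inv.2 (Jstar_le (hb _) (interior_subset hc))).trans
    (meyer_reisner x a hθ hl0 (sub_pos.2 hl1) (by ring) t₀ t₁)
  have f0 : (n.factorial : ℝ≥0∞) ≠ 0 := by exact_mod_cast n.factorial_ne_zero
  have ft : (n.factorial : ℝ≥0∞) ≠ ∞ := ENNReal.natCast_ne_top _
  rw [e₀, e₁, ENNReal.mul_inv (Or.inl f0) (Or.inl ft), ENNReal.mul_inv (Or.inl f0) (Or.inl ft),
    ENNReal.mul_inv (Or.inl f0) (Or.inl ft), mul_left_comm, mul_left_comm (ENNReal.ofReal (1 - l)),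
    ← mul_add, ENNReal.mul_le_mul_iff_right (ENNReal.inv_ne_zero.2 ft)
      (ENNReal.inv_ne_top.2 f0)] at key
  have n₀ := ENNReal.inv_ne_top.2 (volume_polarS_ne_zero (isBounded_image_sub (hb t₀) c₀))
  have n₁ := ENNReal.inv_ne_top.2 (volume_polarS_ne_zero (isBounded_image_sub (hb t₁) c₁))
  have key2 := ENNReal.toReal_mono (ENNReal.add_ne_top.2
    ⟨ENNReal.mul_ne_top ENNReal.ofReal_ne_top n₀, ENNReal.mul_ne_top ENNReal.ofReal_ne_top n₁⟩) key
  rw [ENNReal.toReal_add (ENNReal.mul_ne_top ENNReal.ofReal_ne_top n₀)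
    (ENNReal.mul_ne_top ENNReal.ofReal_ne_top n₁), ENNReal.toReal_mul, ENNReal.toReal_mul,
    ENNReal.toReal_ofReal hl0.le, ENNReal.toReal_ofReal (sub_pos.2 hl1).le] at key2
  simpa only [ENNReal.toReal_inv, polarS_hull_sub] using key2

end Pool.Agent.MP_5f4cdd_gt.PL
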