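import Pool.Agent.MP_5f4cdd_gt.EFBasic
import Pool.Agent.MP_5f4cdd_gt.ShadowPolar

set_option autoImplicit false
open MeasureTheory Set ENNReal Topology Filter Matrix

namespace Pool.Agent.MP_5f4cdd_gt.EF

open PL

variable {n : ℕ}

lemma cap' {δ : ℝ} (hδ : 0 < δ) : ∃ ε > 0, ∀ K : Set (E n), Convex ℝ K → IsCompact K →
    K ⊆ stdS n → (1 - ε) * (volume (stdS n)).toReal ≤ (volume K).toReal →
    ∀ u : E n, (∀ i, δ ≤ u i) → ∑ i, u i ≤ 1 - δ → u ∈ K := by
  have hn : (0 : ℝ) < n + 1 := by positivity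
  set B := volume (Metric.closedBall (0 : E n) ((n + 1) * δ / (n + 1) ^ 2)) with hB
  have hB0 : B ≠ 0 := (Metric.measure_closedBall_pos volume _ (by positivity)).ne'
  have hBt : B ≠ ∞ := (isCompact_closedBall _ _).measure_lt_top.ne
  have hB1 : 0 < B.toReal := ENNReal.toReal_pos hB0 hBt
  have hV := toReal_stdS_pos (n := n)
  refine ⟨B.toReal / (4 * (volume (stdS n)).toReal), by positivity,
    fun K hK hKc hKs hv u h1 h2 => ?_⟩
  set K' := (fun z => z - cen n) '' K with hK'
  have hc : IsCompact K' := hKc.image (by fun_prop)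
  have hs : K' ⊆ cS n 1 := by rw [← image_sub_cen]; exact image_mono hKs
  have hconv : Convex ℝ K' := by
    simpa only [hK', sub_eq_neg_add] using hK.translate (-cen n)
  have hd : volume (cS n 1 \ K') = volume (stdS n) - volume K := by
    rw [measure_sdiff hs hc.measurableSet.nullMeasurableSet hc.measure_lt_top.ne, volume_stdS,
      hK', volume_image_sub]
  have h3 : cS n (1 - (n + 1) * δ) ⊆ K' := by
    refine cap hconv hc.measurableSet ?_
    rw [hd, ← hB, ← ENNReal.toReal_lt_toReal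
      (ENNReal.mul_ne_top (by simp) (ENNReal.sub_ne_top volume_stdS_ne_top)) hBt,
      ENNReal.toReal_mul, ENNReal.toReal_sub_of_le (measure_mono hKs) volume_stdS_ne_top]
    have : B.toReal / (4 * (volume (stdS n)).toReal) * (volume (stdS n)).toReal = B.toReal / 4 := by
      field_simp
    simp only [ENNReal.toReal_ofNat]
    nlinarith
  have h4 : u - cen n ∈ cS n (1 - (n + 1) * δ) := by
    have hs : ∑ i, (u - cen n) i = ∑ i, u i - n / (n + 1) := by
      simp [cen, Finset.sum_sub_distrib, div_eq_mul_inv]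
    have hk : (n : ℝ) / (n + 1) + 1 / (n + 1) = 1 := by field_simp
    have hk2 : (1 - (n + 1) * δ) / (n + 1) = 1 / (n + 1) - δ := by field_simp
    intro j
    rw [hk2]
    refine Fin.cases ?_ (fun i => ?_) j
    · rw [bet_zero, hs]; linarith
    · simp only [bet_succ, Pi.sub_apply, cen]; linarith [h1 i]
  obtain ⟨z, hz, he⟩ := h3 h4
  rwa [← sub_left_injective he]

/-- the polar body of a simplex is a simplex -/
lemma polar_simplex {x : E n} (h1 : ∀ i, 0 < x i) (h2 : ∑ i, x i < 1) :
    ∃ g : E n ≃ᵃ[ℝ] E n,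
      (∀ w, w ∈ g '' stdS n ↔ (∀ i, w i - x ⬝ᵥ w ≤ 1) ∧ -(x ⬝ᵥ w) ≤ 1) ∧
      (∏ i, x i) * (1 - ∑ i, x i) * (volume (g '' stdS n)).toReal = (volume (stdS n)).toReal := by
  set L : E n →ₗ[ℝ] E n := Matrix.toLin'
    (diagonal x * (1 + replicateCol Unit (fun _ => (-1 : ℝ)) * replicateRow Unit x)) with hL
  have hLa : ∀ w i, L w i = x i * (w i - x ⬝ᵥ w) := by
    intro w i
    rw [hL, Matrix.toLin'_apply, ← Matrix.mulVec_mulVec, Matrix.mulVec_diagonal,
      Matrix.add_mulVec, Matrix.one_mulVec, ← Matrix.mulVec_mulVec]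
    simp [Matrix.mulVec, dotProduct, sub_eq_add_neg, Matrix.mul_apply]
  have hdet : LinearMap.det L = (∏ i, x i) * (1 - ∑ i, x i) := by
    rw [hL, LinearMap.det_toLin', det_mul, det_diagonal, det_one_add_replicateCol_mul_replicateRow]
    simp [dotProduct, sub_eq_add_neg]
  have hpos : 0 < (∏ i, x i) * (1 - ∑ i, x i) :=
    mul_pos (Finset.prod_pos fun i _ => h1 i) (sub_pos.2 h2)
  have hne : LinearMap.det L ≠ 0 := by rw [hdet]; exact hpos.ne'
  set G := L.equivOfDetNeZero hne with hG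
  have hGL : ∀ w, G w = L w := fun w => rfl
  set g : E n ≃ᵃ[ℝ] E n := (AffineEquiv.constVSub ℝ x).trans G.symm.toAffineEquiv with hg
  have hga : ∀ u, g u = G.symm (x - u) := fun u => rfl
  have hmem : ∀ w, w ∈ g '' stdS n ↔ x - L w ∈ stdS n := by
    intro w
    constructor
    · rintro ⟨u, hu, rfl⟩
      rw [hga, ← hGL, G.apply_symm_apply, _root_.sub_sub_cancel]; exact hu
    · intro h
      exact ⟨_, h, by rw [hga, _root_.sub_sub_cancel, ← hGL, G.symm_apply_apply]⟩
  refine ⟨g, fun w => ?_, ?_⟩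
  · rw [hmem]
    have hs : ∑ i, (x - L w) i = 1 - (1 - ∑ i, x i) * (1 + x ⬝ᵥ w) := by
      simp only [Pi.sub_apply, hLa, mul_sub, Finset.sum_sub_distrib, ← Finset.sum_mul]
      change _ - (x ⬝ᵥ w - _) = _
      ring
    simp only [stdS, mem_ofPred_eq, hs]
    refine and_congr (forall_congr' fun i => ?_) ?_
    · rw [Pi.sub_apply, hLa, sub_nonneg]
      exact mul_le_iff_le_one_right (h1 i)
    · rw [sub_le_self_iff, mul_nonneg_iff_of_pos_left (sub_pos.2 h2)]
      constructor <;> intro h <;> linarith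
  · have h3 : L '' (g '' stdS n) = (fun u => x - u) ⁻¹' stdS n := by
      ext z
      constructor
      · rintro ⟨w, hw, rfl⟩; exact (hmem w).1 hw
      · intro h
        refine ⟨G.symm z, (hmem _).2 ?_, by rw [← hGL, G.apply_symm_apply]⟩
        rwa [← hGL, G.apply_symm_apply]
    have h4 : volume ((fun u => x - u) ⁻¹' stdS n) = volume (stdS n) := by
      refine (Measure.measurePreserving_sub_left volume x).measure_preimage ?_
      rw [← preimage_image_eq (stdS n) (sub_left_injective (b := cen n)), image_sub_cen]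
      exact ((isClosed_cS 1).preimage (by fun_prop)).measurableSet.nullMeasurableSet
    rw [← h4, ← h3, Measure.addHaar_image_linearMap, ENNReal.toReal_mul,
      ENNReal.toReal_ofReal (abs_nonneg _), hdet, abs_of_pos hpos]

lemma interior_stdS {x : E (n + 1)} (hx : x ∈ interior (stdS (n + 1))) :
    (∀ i, 0 < x i) ∧ ∑ i, x i < 1 := by
  obtain ⟨r, hr, hb⟩ := Metric.nhds_basis_closedBall.mem_iff.1 (mem_interior_iff_mem_nhds.1 hx)
  have h : ∀ c : ℝ, |c| ≤ r → (x + fun _ => c) ∈ stdS (n + 1) := fun c hc => hb (by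
    rw [Metric.mem_closedBall, dist_eq_norm, add_sub_cancel_left, pi_norm_const]; exact hc)
  refine ⟨fun i => ?_, ?_⟩
  · have := (h (-r) (by rw [abs_neg, abs_of_pos hr])).1 i
    simp only [Pi.add_apply] at this
    linarith
  · have := (h r (by rw [abs_of_pos hr])).2
    simp only [Pi.add_apply, Finset.sum_add_distrib, Finset.sum_const, Finset.card_univ,
      Fintype.card_fin, nsmul_eq_mul] at this
    have h2 : 0 < ((n + 1 : ℕ) : ℝ) * r := by positivity
    linarith

lemma polar_norm {C ε' : ℝ} (hC : 0 < C) (h0 : 0 < ε') (h1 : ε' ≤ 1) :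
    ∃ ε > 0, ∀ K : Set (E (n + 1)), Convex ℝ K → IsCompact K → K ⊆ stdS (n + 1) →
      ∀ x ∈ interior K, (1 - ε) * (volume (stdS (n + 1))).toReal ≤ (volume K).toReal →
      (volume K).toReal * (volume (polarS ((fun z => z - x) '' K))).toReal ≤ C →
      Near ε' (polarS ((fun z => z - x) '' K)) := by
  obtain ⟨δ, hδ0, hδ1, hδ⟩ := exists_delta h0 (n + 1)
  have hV := toReal_stdS_pos (n := n + 1)
  set V := (volume (stdS (n + 1))).toReal with hVd
  set l := V ^ 2 / (2 * C) with hl
  have hl0 : 0 < l := by positivity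
  obtain ⟨ε, hε, hcap⟩ := cap' (n := n + 1) (mul_pos hδ0 hl0)
  refine ⟨min ε (1 / 2), by positivity, fun K hK hKc hKs x hx hv hM => ?_⟩
  obtain ⟨hx1, hx2⟩ := interior_stdS (interior_mono hKs hx)
  obtain ⟨g, hg1, hg2⟩ := polar_simplex hx1 hx2
  have hfin := volume_polarS_sub_ne_top hx
  have hsub : g '' stdS (n + 1) ⊆ polarS ((fun z => z - x) '' K) := by
    rintro w hw _ ⟨u, hu, rfl⟩
    obtain ⟨a1, a2⟩ := (hg1 w).1 hw
    obtain ⟨b1, b2⟩ := hKs hu
    have e : (u - x) ⬝ᵥ w = ∑ i, u i * (w i - x ⬝ᵥ w) + (1 - ∑ i, u i) * -(x ⬝ᵥ w) := by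
      simp only [sub_dotProduct, mul_sub, Finset.sum_sub_distrib, ← Finset.sum_mul]
      change u ⬝ᵥ w - _ = u ⬝ᵥ w - _ + _
      ring
    have e1 : ∑ i, u i * (w i - x ⬝ᵥ w) ≤ ∑ i, u i :=
      Finset.sum_le_sum fun i _ => mul_le_of_le_one_right (b1 i) (a1 i)
    have e2 := mul_le_of_le_one_right (sub_nonneg.2 b2) a2
    rw [e]; linarith
  have hP0 : 0 < ∏ i, x i := Finset.prod_pos fun i _ => hx1 i
  have hs0 : 0 ≤ ∑ i, x i := Finset.sum_nonneg fun i _ => (hx1 i).le
  have hle1 : ∀ i, x i ≤ 1 := fun i =>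
    (Finset.single_le_sum (fun j _ => (hx1 j).le) (Finset.mem_univ i)).trans hx2.le
  have hP : l ≤ (∏ i, x i) * (1 - ∑ i, x i) := by
    have a1 := ENNReal.toReal_mono hfin (measure_mono hsub)
    have a2 : V / 2 ≤ (volume K).toReal := by
      nlinarith [min_le_right ε (1 / 2)]
    have a3 : V / 2 * (volume (g '' stdS (n + 1))).toReal ≤ C :=
      (mul_le_mul a2 a1 ENNReal.toReal_nonneg ENNReal.toReal_nonneg).trans hM
    have a4 := mul_le_mul_of_nonneg_left a3 (mul_pos hP0 (sub_pos.2 hx2)).le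
    rw [hl, div_le_iff₀ (by positivity)]
    nlinarith
  have hPi : ∀ i, ∏ j, x j ≤ x i := fun i => by
    rw [← Finset.mul_prod_erase _ _ (Finset.mem_univ i)]
    exact mul_le_of_le_one_right (hx1 i).le
      (Finset.prod_le_one (fun j _ => (hx1 j).le) fun j _ => hle1 j)
  have hxi : ∀ i, l ≤ x i := fun i =>
    hP.trans ((mul_le_of_le_one_right hP0.le (by linarith)).trans (hPi i))
  have hx0 : l ≤ 1 - ∑ i, x i :=
    hP.trans (mul_le_of_le_one_left (by linarith) ((hPi 0).trans (hle1 0)))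
  have hs : 0 < 1 - δ := by linarith
  have hin : ∀ v ∈ stdS (n + 1), (1 - δ) • v + δ • x ∈ K := by
    intro v hv'
    refine hcap K hK hKc hKs (le_trans (mul_le_mul_of_nonneg_right
      (by linarith [min_le_left ε (1 / 2)]) hV.le) hv) _ (fun i => ?_) ?_
    · simp only [Pi.add_apply, Pi.smul_apply, smul_eq_mul]
      nlinarith [hv'.1 i, hxi i]
    · simp only [Pi.add_apply, Pi.smul_apply, smul_eq_mul, Finset.sum_add_distrib,
        ← Finset.mul_sum]
      nlinarith [hv'.2]
  refine (near_simplex g).homothety (c := 0) (σ := 1) (inv_pos.2 hs) zero_le_one (fun w hw => ?_)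
    (by simpa using hsub) hfin one_pos h1 ?_
  · have key : ∀ v ∈ stdS (n + 1), (v - x) ⬝ᵥ ((1 - δ) • w) ≤ 1 := fun v hv' => by
      have := hw _ ⟨_, hin v hv', rfl⟩
      have e : (1 - δ) • v + δ • x - x = (1 - δ) • (v - x) := by module
      simp only [e, smul_dotProduct] at this
      rwa [dotProduct_smul]
    refine ⟨(1 - δ) • w, (hg1 _).2 ⟨fun i => ?_, ?_⟩, ?_⟩
    · have := key (Pi.single i 1) ⟨fun j => by
        rcases eq_or_ne j i with rfl | h
        · simp
        · simp [h], by simp⟩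
      rwa [sub_dotProduct, single_one_dotProduct] at this
    · have := key 0 ⟨fun j => le_rfl, by simp⟩
      rwa [zero_sub, neg_dotProduct] at this
    · simp [AffineMap.homothety_apply, smul_smul, inv_mul_cancel₀ hs.ne']
  · rw [inv_pow, ← div_eq_mul_inv, div_le_iff₀ (pow_pos hs _)]
    have : 1 ≤ (1 + δ) ^ (n + 1) := one_le_pow₀ (by linarith)
    simp only [sub_zero, one_mul, one_pow] at hδ ⊢
    nlinarith

/-- if a body of bounded volume product is close to a simplex, then so is its polar body -/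
theorem polar_near {C ε' : ℝ} (hC : 0 < C) (h0 : 0 < ε') (h1 : ε' < 1) :
    ∃ ε > 0, ∀ K : Set (E (n + 1)), Convex ℝ K → IsCompact K → 0 ∈ interior K → Near ε K →
      (volume K).toReal * (volume (polarS K)).toReal ≤ C → Near ε' (polarS K) := by
  obtain ⟨ε, hε, h⟩ := polar_norm (n := n) hC h0 h1.le
  refine ⟨ε, hε, fun K hK hKc hK0 ⟨e, he1, he2⟩ hM => ?_⟩
  set B := (e.symm.linear : E (n + 1) →ₗ[ℝ] E (n + 1)) with hB
  have hd : 0 < |LinearMap.det B| := det_linear_pos e.symm
  have hne : LinearMap.det (adj B) ≠ 0 := by rw [det_adj]; exact abs_pos.1 hd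
  set G := (adj B).equivOfDetNeZero hne with hG
  have hGB : ∀ w, G w = adj B w := fun w => rfl
  have hcont : Continuous e.symm := e.symm.toAffineMap.continuous_of_finiteDimensional
  have hcont' : Continuous e := e.toAffineMap.continuous_of_finiteDimensional
  have hsub : (fun z => z - e.symm 0) '' (e.symm '' K) = B '' K := by
    rw [image_image]
    refine image_congr fun z _ => ?_
    have := e.symm.map_vadd 0 z
    simp only [vadd_eq_add, add_zero] at this
    simp [this, hB]
  have hpol : polarS K = G.toAffineEquiv '' polarS (B '' K) := by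
    ext w
    constructor
    · intro hw
      refine ⟨G.symm w, ?_, G.apply_symm_apply w⟩
      rintro _ ⟨z, hz, rfl⟩
      rw [dot_adj, ← hGB, G.apply_symm_apply]
      exact hw z hz
    · rintro ⟨v, hv, rfl⟩ z hz
      have := hv _ (mem_image_of_mem _ hz)
      rwa [dot_adj] at this
  have hvol : (volume (polarS K)).toReal =
      |LinearMap.det B| * (volume (polarS (B '' K))).toReal := by
    rw [hpol, toReal_image_affine, ← det_adj B]; rfl
  have hvK : (volume (e.symm '' K)).toReal = |LinearMap.det B| * (volume K).toReal :=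
    toReal_image_affine _ _
  have hvS : (volume (stdS (n + 1))).toReal =
      |LinearMap.det B| * (volume (e '' stdS (n + 1))).toReal := by
    rw [← toReal_image_affine, image_image]; simp
  rw [hpol]
  refine Near.image ?_ _ h1
  rw [← hsub]
  refine h (e.symm '' K) (hK.affine_image e.symm.toAffineMap) (hKc.image hcont) ?_ _ ?_ ?_ ?_
  · rintro _ ⟨z, hz, rfl⟩
    obtain ⟨u, hu, rfl⟩ := he1 hz
    simpa using hu
  · rw [mem_interior_iff_mem_nhds] at hK0 ⊢
    have h2 : e ⁻¹' K ∈ 𝓝 (e.symm 0) := hcont'.continuousAt.preimage_mem_nhds (by simpa using hK0)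
    exact mem_of_superset h2 fun z hz => ⟨e z, hz, by simp⟩
  · rw [hvK, hvS, mul_left_comm]
    exact mul_le_mul_of_nonneg_left he2 hd.le
  · rw [hsub, hvK, mul_comm |_|, mul_assoc, ← hvol]; exact hM

end Pool.Agent.MP_5f4cdd_gt.EF
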