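import Pool.Agent.MP_5f4cdd_gt.FlowChord

set_option autoImplicit false
open MeasureTheory Set Filter Topology
open scoped ENNReal

namespace Pool.Agent.MP_5f4cdd_gt

variable {n : ℕ} {ι κ : Type}

/-- Speeds that are the restriction of one affine function. -/
def TrivSpeed (x : ι → Fin n → ℝ) (a : ι → ℝ) : Prop :=
  ∃ (u : Fin n → ℝ) (c : ℝ), ∀ i, a i = u ⬝ᵥ x i + c

theorem exists_hyperplane_of_interior_empty {S : Set (Fin n → ℝ)} (hS : Convex ℝ S)
    (hne : S.Nonempty) (h : ¬ (interior S).Nonempty) :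
    ∃ (v : Fin n → ℝ) (b : ℝ), v ≠ 0 ∧ ∀ z ∈ S, v ⬝ᵥ z = b := by
  rw [hS.interior_nonempty_iff_affineSpan_eq_top] at h
  obtain ⟨p, hp⟩ := hne
  have hdir : (affineSpan ℝ S).direction < ⊤ := by
    rw [lt_top_iff_ne_top]
    intro hd
    exact h ((AffineSubspace.direction_eq_top_iff_of_nonempty
      ⟨p, subset_affineSpan ℝ S hp⟩).mp hd)
  obtain ⟨f, hf0, hf⟩ := Submodule.exists_le_ker_of_lt_top _ hdir
  obtain ⟨v, hv⟩ := exists_dot_eq f
  refine ⟨v, v ⬝ᵥ p, ?_, fun z hz => ?_⟩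
  · rintro rfl
    exact hf0 (LinearMap.ext fun z => by simp [hv])
  · have := hf (AffineSubspace.vsub_mem_direction (subset_affineSpan ℝ S hz)
      (subset_affineSpan ℝ S hp))
    rw [LinearMap.mem_ker, hv, vsub_eq_sub, dotProduct_sub] at this
    linarith

theorem interior_shadow_nonempty {x : ι → Fin n → ℝ} {a : ι → ℝ}
    (hx : (interior (convexHull ℝ (range x))).Nonempty) (ha : ¬ TrivSpeed x a)
    (θ : Fin n → ℝ) (t : ℝ) : (interior (convexHull ℝ (range (shadowPts x a θ t)))).Nonempty := by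
  by_contra hcon
  obtain ⟨c, hc⟩ := hx
  have hι : Nonempty ι := by
    by_contra hne
    rw [not_nonempty_iff] at hne
    have := interior_subset hc
    rw [range_eq_empty, convexHull_empty] at this
    exact this
  obtain ⟨v, b, hv, hb⟩ := exists_hyperplane_of_interior_empty (convex_convexHull ℝ _)
    (convexHull_nonempty_iff.mpr (range_nonempty _)) hcon
  have hb' : ∀ i, v ⬝ᵥ x i + t * a i * (v ⬝ᵥ θ) = b := fun i => by
    have := hb _ (subset_convexHull ℝ _ (mem_range_self i))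
    simpa [shadowPts] using this
  by_cases h0 : t * (v ⬝ᵥ θ) = 0
  · have hb'' : ∀ i, v ⬝ᵥ x i = b := fun i => by
      have := hb' i
      rw [mul_right_comm, h0, zero_mul, add_zero] at this
      exact this
    have e1 := lt_of_mem_interior (v := v) (b := b)
      (fun z hz => dot_le_of_mem_hull (fun i => (hb'' i).le) hz) hc (Or.inl hv)
    have e2 := lt_of_mem_interior (v := -v) (b := -b)
      (fun z hz => dot_le_of_mem_hull (fun i => by simp [hb'' i]) hz) hc
      (Or.inl (neg_ne_zero.mpr hv))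
    rw [neg_dotProduct] at e2
    linarith
  · refine ha ⟨-(t * (v ⬝ᵥ θ))⁻¹ • v, (t * (v ⬝ᵥ θ))⁻¹ * b, fun i => ?_⟩
    rw [smul_dotProduct, smul_eq_mul, ← hb' i]
    have ht : t ≠ 0 := left_ne_zero_of_mul h0
    have hv : v ⬝ᵥ θ ≠ 0 := right_ne_zero_of_mul h0
    field_simp
    ring

variable {x : ι → Fin n → ℝ} {y : κ → Fin n → ℝ} {θ : Fin n → ℝ} {a : ι → ℝ}
  {w : κ → Fin n → ℝ} {g : κ → ℝ}

theorem Adm.exists_slope_ne [Finite ι] (h : Adm x y θ a w g) (ha : ¬ TrivSpeed x a) :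
    ∃ i j, g j + w j ⬝ᵥ x i - a i * (y j ⬝ᵥ θ) ≠ 0 := by
  by_contra hcon
  push Not at hcon
  have hj : ∃ j, y j ⬝ᵥ θ ≠ 0 := by
    by_contra hj
    push Not at hj
    refine h.hθ (eq_zero_of_ray_mem (isCompact_hull x).isBounded (z := 0) fun s _ => ?_)
    rw [h.hP]; intro j
    simp [hj j]
  obtain ⟨j, hj⟩ := hj
  refine ha ⟨(y j ⬝ᵥ θ)⁻¹ • w j, (y j ⬝ᵥ θ)⁻¹ * g j, fun i => ?_⟩
  rw [smul_dotProduct, smul_eq_mul]
  have := hcon i j
  field_simp
  linarith

theorem Adm.hasFlow_of_neg [Fintype ι] [Finite κ] [Nonempty κ] (h : Adm x y θ a w g)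
    (ha : ¬ TrivSpeed x a) (hneg : ∃ i j, g j + w j ⬝ᵥ x i - a i * (y j ⬝ᵥ θ) < 0) :
    HasFlow x y := by
  classical
  set σ : ι × κ → ℝ := fun p => g p.2 + w p.2 ⬝ᵥ x p.1 - a p.1 * (y p.2 ⬝ᵥ θ) with hσ
  set s : ι × κ → ℝ := fun p => 1 - y p.2 ⬝ᵥ x p.1 with hs
  have hs0 : ∀ p, 0 ≤ s p := fun p => sub_nonneg.mpr (h.dot_le p.1 p.2)
  have hsσ : ∀ p, s p = 0 → σ p = 0 := fun p hp => by
    have := h.hinc p.1 p.2 (by simp only [hs] at hp; linarith)
    simp only [hσ]; linarith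
  have hspos : ∀ p, σ p ≠ 0 → 0 < s p := fun p hp =>
    lt_of_le_of_ne (hs0 p) fun h0 => hp (hsσ p h0.symm)
  obtain ⟨p0, hp0, hmin⟩ := Set.exists_min_image {p | σ p < 0} (fun p => s p / -σ p)
    (toFinite _) (by obtain ⟨i, j, hij⟩ := hneg; exact ⟨(i, j), hij⟩)
  have hp0' : σ p0 < 0 := hp0
  set τ := s p0 / -σ p0 with hτ
  have hτpos : 0 < τ := div_pos (hspos _ hp0'.ne) (by linarith)
  have hev : ∀ᶠ δ in 𝓝[>] (0 : ℝ), ∀ p, 0 ≤ s p - δ * σ p := by
    rw [eventually_all]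
    intro p
    by_cases hp : σ p = 0
    · exact Eventually.of_forall fun δ => by simp [hp, hs0 p]
    · have hc : Continuous fun δ : ℝ => s p - δ * σ p := by fun_prop
      have hlt : 0 < s p - 0 * σ p := by simpa using hspos p hp
      exact ((hc.tendsto 0).eventually (lt_mem_nhds hlt)).filter_mono nhdsWithin_le_nhds
          |>.mono fun ε hε => hε.le
  obtain ⟨δ, hδ1, hδ2⟩ := (hev.and self_mem_nhdsWithin).exists
  have hδ : 0 < δ := hδ2
  have hslack : ∀ t ∈ Icc (-δ) τ, ∀ p, 0 ≤ s p + t * σ p := by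
    intro t ht p
    rcases lt_or_ge (σ p) 0 with hlt | hge
    · have e1 : τ ≤ s p / -σ p := hmin p hlt
      rw [le_div_iff₀ (by linarith)] at e1
      nlinarith [ht.2]
    · nlinarith [ht.1, hδ1 p]
  have hgood : ∀ t ∈ Icc (-δ) τ, t ∈ goodT x y θ a w g := by
    intro t ht i j
    have e1 := h.slack t i j
    have e2 := hslack t ht (i, j)
    simp only [hs, hσ] at e2
    linarith
  have hsum : 0 < τ + δ := by linarith
  set V0 := (volume (movA x a θ (-δ))).toReal
  set V1 := (volume (movA x a θ τ)).toReal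
  have hint0 : (interior (convexHull ℝ (range x))).Nonempty := by
    rw [h.hP]
    exact ⟨0, mem_interior_of_lt (b := fun _ => 1) fun j => by simp⟩
  refine ⟨x, a, θ, δ, τ, V0 + δ * ((V1 - V0) / (τ + δ)), (V1 - V0) / (τ + δ), hδ, hτpos, h.hθ, rfl,
    fun t ht => ⟨?_, interior_shadow_nonempty hint0 ha θ t, fun c hc => ?_⟩⟩
  · have hp : 0 ≤ (τ - t) / (τ + δ) := div_nonneg (by linarith [ht.2]) hsum.le
    have hq : 0 ≤ (t + δ) / (τ + δ) := div_nonneg (by linarith [ht.1]) hsum.le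
    have := h.volume_affine (hgood _ ⟨le_rfl, by linarith⟩) (hgood _ ⟨by linarith, le_rfl⟩)
      (hgood t ht) hp hq (by field_simp; ring) (by field_simp; ring)
    change (volume (movA x a θ t)).toReal = _
    have f0 : volume (movA x a θ (-δ)) ≠ ⊤ := (isCompact_hull _).measure_lt_top.ne
    have f1 : volume (movA x a θ τ) ≠ ⊤ := (isCompact_hull _).measure_lt_top.ne
    rw [this, ENNReal.toReal_add (ENNReal.mul_ne_top ENNReal.ofReal_ne_top f0)
      (ENNReal.mul_ne_top ENNReal.ofReal_ne_top f1), ENNReal.toReal_mul, ENNReal.toReal_mul,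
      ENNReal.toReal_ofReal hp, ENNReal.toReal_ofReal hq]
    change _ * V0 + _ * V1 = _
    field_simp
    ring
  · have hopp : ∃ r : ℝ, 0 < r ∧ -(r * t) ∈ goodT x y θ a w g := by
      have hm : 0 < min δ τ := lt_min hδ hτpos
      refine ⟨min δ τ / (τ + δ), div_pos hm hsum, hgood _ ⟨?_, ?_⟩⟩
      · rw [neg_le_neg_iff, div_mul_eq_mul_div, div_le_iff₀ hsum]
        nlinarith [min_le_left δ τ, ht.2]
      · rw [neg_le, div_mul_eq_mul_div, le_div_iff₀ hsum]
        nlinarith [min_le_right δ τ, ht.1]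
    have hAB := h.movA_eq_movB (hgood t ht) hopp ⟨c, hc⟩
    obtain ⟨y', hy1, hy2⟩ := exists_dualPair_sub (x := shadowPts x a θ t)
      (y := fun j => y j - t • w j) (b := fun j => 1 + t * g j) hAB (h.nondeg t) hc
    refine ⟨y', hy1, fun htτ => ?_⟩
    have hiff : ∀ p : ι × κ, (shadowPts x a θ t p.1 - c) ⬝ᵥ y' p.2 = 1 ↔ s p + t * σ p = 0 := by
      intro p
      rw [hy2]
      have e1 := h.slack t p.1 p.2
      simp only [hs, hσ]
      constructor <;> intro e <;> linarith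
    unfold nInc
    refine Set.ncard_lt_ncard ⟨fun p hp => ?_, fun hsub => ?_⟩
    · rw [mem_ofPred_eq, hiff]
      have e1 : s p = 0 := by
        rw [mem_ofPred_eq, dotProduct_comm] at hp
        simp only [hs]; linarith
      rw [e1, hsσ p e1]; simp
    · have e1 : s p0 + t * σ p0 = 0 := by
        rw [htτ, hτ]
        have := hp0'.ne
        field_simp
        ring
      have e2 := hsub ((hiff p0).mpr e1)
      rw [mem_ofPred_eq, dotProduct_comm] at e2
      have e3 := hspos p0 hp0'.ne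
      simp only [hs] at e3
      linarith

theorem Adm.hasFlow [Finite ι] [Finite κ] [Nonempty κ] (h : Adm x y θ a w g)
    (ha : ¬ TrivSpeed x a) : HasFlow x y := by
  have := Fintype.ofFinite ι
  obtain ⟨i, j, hij⟩ := h.exists_slope_ne ha
  rcases lt_or_gt_of_ne hij with hlt | hgt
  · exact h.hasFlow_of_neg ha ⟨i, j, hlt⟩
  · refine h.flip.hasFlow_of_neg ?_ ⟨i, j, ?_⟩
    · rintro ⟨u, c, hu⟩
      exact ha ⟨-u, -c, fun i => by
        have := hu i
        simp only [Pi.neg_apply, neg_dotProduct] at this ⊢; linarith⟩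
    · simp only [Pi.neg_apply, neg_dotProduct]; linarith

/-- Speeds that are linear on the points of every facet not parallel to `θ`, and not globally
affine, give a useful flow. -/
theorem hasFlow_of_admissible [Finite ι] [Finite κ] (h : DualPair x y) (hθ : θ ≠ 0)
    (hadm : ∀ j, y j ⬝ᵥ θ ≠ 0 → ∃ u : Fin n → ℝ, ∀ i, y j ⬝ᵥ x i = 1 → a i = u ⬝ᵥ x i)
    (ha : ¬ TrivSpeed x a) : HasFlow x y := by
  classical
  have := h.symm.nonempty_left
  choose! u hu using hadm
  refine Adm.hasFlow (θ := θ) (a := a)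
    (w := fun j => if y j ⬝ᵥ θ = 0 then 0 else (y j ⬝ᵥ θ) • u j - (u j ⬝ᵥ θ) • y j)
    (g := fun j => if y j ⬝ᵥ θ = 0 then 0 else u j ⬝ᵥ θ) ⟨h.1, hθ, ?_, ?_, ?_⟩ ha
  · intro j
    split_ifs with hj
    · simp
    · simp only [sub_dotProduct, smul_dotProduct, smul_eq_mul]; ring
  · intro i j hij
    split_ifs with hj
    · simp [hj]
    · simp only [sub_dotProduct, smul_dotProduct, smul_eq_mul, hij, hu j hj i hij]; ring
  · intro j hj
    simp [hj]

theorem HasFlow.mono {x' : ι → Fin n → ℝ} {y' : κ → Fin n → ℝ} (h : HasFlow x' y')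
    (hx : convexHull ℝ (range x') = convexHull ℝ (range x)) (hinc : nInc x y ≤ nInc x' y') :
    HasFlow x y := by
  obtain ⟨x'', a, θ, δ, τ, α, β, h1, h2, h3, h4, h5⟩ := h
  refine ⟨x'', a, θ, δ, τ, α, β, h1, h2, h3, h4.trans hx, fun t ht => ⟨(h5 t ht).1, (h5 t ht).2.1,
    fun c hc => ?_⟩⟩
  obtain ⟨y'', e1, e2⟩ := (h5 t ht).2.2 c hc
  exact ⟨y'', e1, fun h => hinc.trans_lt (e2 h)⟩

end Pool.Agent.MP_5f4cdd_gt
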