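import Pool.Agent.MP_5f4cdd_gt.FlowFubini

set_option autoImplicit false
open MeasureTheory Set Filter Topology
open scoped ENNReal

namespace Pool.Agent.MP_5f4cdd_gt

variable {n : ℕ} {ι κ : Type}

/-- Data of an admissible flow: the moving inequalities are
`(y j - t • w j) ⬝ᵥ z ≤ 1 + t * g j`. -/
structure Adm (x : ι → Fin n → ℝ) (y : κ → Fin n → ℝ) (θ : Fin n → ℝ) (a : ι → ℝ)
    (w : κ → Fin n → ℝ) (g : κ → ℝ) : Prop where
  hP : convexHull ℝ (range x) = {z | ∀ j, y j ⬝ᵥ z ≤ 1}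
  hθ : θ ≠ 0
  hw : ∀ j, w j ⬝ᵥ θ = 0
  hinc : ∀ i j, y j ⬝ᵥ x i = 1 → a i * (y j ⬝ᵥ θ) = w j ⬝ᵥ x i + g j
  hpar : ∀ j, y j ⬝ᵥ θ = 0 → w j = 0 ∧ g j = 0

/-- The polyhedron cut out by the moving inequalities. -/
def movB (y w : κ → Fin n → ℝ) (g : κ → ℝ) (t : ℝ) : Set (Fin n → ℝ) :=
  {z | ∀ j, (y j - t • w j) ⬝ᵥ z ≤ 1 + t * g j}

/-- The hull of the moving points. -/
def movA (x : ι → Fin n → ℝ) (a : ι → ℝ) (θ : Fin n → ℝ) (t : ℝ) : Set (Fin n → ℝ) :=
  convexHull ℝ (range (shadowPts x a θ t))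

variable {x : ι → Fin n → ℝ} {y : κ → Fin n → ℝ} {θ : Fin n → ℝ} {a : ι → ℝ}
  {w : κ → Fin n → ℝ} {g : κ → ℝ}

theorem shadowPts_neg (x : ι → Fin n → ℝ) (a : ι → ℝ) (θ : Fin n → ℝ) (t : ℝ) :
    shadowPts x (-a) (-θ) t = shadowPts x a θ t := by
  ext i k; simp [shadowPts]

theorem shadowPts_zero (x : ι → Fin n → ℝ) (a : ι → ℝ) (θ : Fin n → ℝ) :
    shadowPts x a θ 0 = x := by
  ext i k; simp [shadowPts]

theorem Adm.neg (h : Adm x y θ a w g) : Adm x y (-θ) (-a) w g where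
  hP := h.hP
  hθ := neg_ne_zero.mpr h.hθ
  hw := fun j => by simp [h.hw j]
  hinc := fun i j hij => by simpa using h.hinc i j hij
  hpar := fun j hj => h.hpar j (by simpa using hj)

theorem Adm.flip (h : Adm x y θ a w g) : Adm x y θ (-a) (-w) (-g) where
  hP := h.hP
  hθ := h.hθ
  hw := fun j => by simp [h.hw j]
  hinc := fun i j hij => by
    have := h.hinc i j hij
    simp only [Pi.neg_apply, neg_dotProduct]; linarith
  hpar := fun j hj => by simpa using h.hpar j hj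

theorem Adm.dot_le (h : Adm x y θ a w g) (i : ι) (j : κ) : y j ⬝ᵥ x i ≤ 1 := by
  have : x i ∈ convexHull ℝ (range x) := subset_convexHull ℝ _ (mem_range_self i)
  rw [h.hP] at this
  exact this j

theorem Adm.slack (h : Adm x y θ a w g) (t : ℝ) (i : ι) (j : κ) :
    1 + t * g j - (y j - t • w j) ⬝ᵥ shadowPts x a θ t i =
      (1 - y j ⬝ᵥ x i) + t * (g j + w j ⬝ᵥ x i - a i * (y j ⬝ᵥ θ)) := by
  simp only [shadowPts, sub_dotProduct, dotProduct_add, smul_dotProduct, dotProduct_smul,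
    smul_eq_mul, h.hw j]
  ring

theorem Adm.dot_θ (h : Adm x y θ a w g) (t : ℝ) (j : κ) : (y j - t • w j) ⬝ᵥ θ = y j ⬝ᵥ θ := by
  simp [sub_dotProduct, h.hw j]

theorem Adm.nondeg (h : Adm x y θ a w g) (t : ℝ) (j : κ) :
    y j - t • w j ≠ 0 ∨ 1 + t * g j ≠ 0 := by
  by_cases hj : y j ⬝ᵥ θ = 0
  · right; simp [(h.hpar j hj).2]
  · left; intro h0
    have := h.dot_θ t j
    rw [h0, zero_dotProduct] at this
    exact hj this.symm

theorem sum_shadowPts [Fintype ι] (l : ι → ℝ) (t : ℝ) :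
    ∑ i, l i • shadowPts x a θ t i = ∑ i, l i • x i + (t * ∑ i, l i * a i) • θ := by
  simp only [shadowPts, smul_add, Finset.sum_add_distrib, smul_smul, Finset.mul_sum,
    Finset.sum_smul]
  congr 1
  exact Finset.sum_congr rfl fun i _ => by congr 1; ring

theorem dot_eq_of_weight_ne [Fintype ι] {v : Fin n → ℝ} {b : ℝ} (hx : ∀ i, v ⬝ᵥ x i ≤ b)
    {l : ι → ℝ} (hl0 : ∀ i, 0 ≤ l i) (hl1 : ∑ i, l i = 1) (hb : v ⬝ᵥ ∑ i, l i • x i = b)
    (i : ι) (hi : l i ≠ 0) : v ⬝ᵥ x i = b := by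
  have h1 : ∑ i, l i * (b - v ⬝ᵥ x i) = 0 := by
    simp only [mul_sub, Finset.sum_sub_distrib, ← Finset.sum_mul, hl1]
    rw [dotProduct_sum] at hb
    simp only [dotProduct_smul, smul_eq_mul] at hb
    linarith
  rw [Finset.sum_eq_zero_iff_of_nonneg (fun i _ => mul_nonneg (hl0 i) (sub_nonneg.mpr (hx i)))]
    at h1
  have := h1 i (Finset.mem_univ i)
  rcases mul_eq_zero.mp this with h | h
  · exact absurd h hi
  · linarith

/-- The top point of a chord moves affinely. -/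
theorem Adm.top [Fintype ι] [Finite κ] (h : Adm x y θ a w g) {z : Fin n → ℝ}
    (hz : ∃ s : ℝ, z + s • θ ∈ convexHull ℝ (range x)) :
    ∃ hi l : ℝ, ∀ t, z + (hi + t * l) • θ ∈ movA x a θ t ∧
      ∀ s : ℝ, z + s • θ ∈ movB y w g t → s ≤ hi + t * l := by
  have hcont : Continuous fun s : ℝ => z + s • θ := by fun_prop
  have hS : IsCompact {s : ℝ | z + s • θ ∈ convexHull ℝ (range x)} := by
    refine Metric.isCompact_of_isClosed_isBounded
      ((isCompact_hull x).isClosed.preimage hcont) ?_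
    obtain ⟨R, hR⟩ := (isCompact_hull x).isBounded.exists_norm_le
    have hθpos : 0 < ‖θ‖ := norm_pos_iff.mpr h.hθ
    refine isBounded_iff_forall_norm_le.mpr ⟨(R + ‖z‖) / ‖θ‖, fun s hs => ?_⟩
    rw [le_div_iff₀ hθpos, ← norm_smul]
    calc ‖s • θ‖ = ‖(z + s • θ) - z‖ := by congr 1; abel
      _ ≤ ‖z + s • θ‖ + ‖z‖ := norm_sub_le _ _
      _ ≤ _ := by linarith [hR _ hs]
  obtain ⟨hi, hhi, hmax⟩ := hS.exists_isMaxOn hz continuousOn_id
  have hj : ∃ j, 0 < y j ⬝ᵥ θ ∧ y j ⬝ᵥ (z + hi • θ) = 1 := by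
    by_contra hcon
    push Not at hcon
    have hhi' : ∀ j, y j ⬝ᵥ (z + hi • θ) ≤ 1 := by
      have := hhi; rw [mem_ofPred_eq, h.hP] at this; exact this
    have hev : ∀ᶠ ε in 𝓝[>] (0 : ℝ), ∀ j, y j ⬝ᵥ (z + (hi + ε) • θ) ≤ 1 := by
      rw [eventually_all]
      intro j
      rcases lt_or_ge 0 (y j ⬝ᵥ θ) with hpos | hle
      · have hlt : y j ⬝ᵥ (z + (hi + 0) • θ) < 1 := by
          rw [add_zero]; exact lt_of_le_of_ne (hhi' j) (hcon j hpos)
        have hc : Continuous fun ε : ℝ => y j ⬝ᵥ (z + (hi + ε) • θ) :=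
          (continuous_dot _).comp (by fun_prop)
        exact ((hc.tendsto 0).eventually (gt_mem_nhds hlt)).filter_mono nhdsWithin_le_nhds
          |>.mono fun ε hε => hε.le
      · filter_upwards [self_mem_nhdsWithin] with ε hε
        have := hhi' j
        simp only [dotProduct_add, dotProduct_smul, smul_eq_mul] at this ⊢
        have hε' : 0 < ε := hε
        nlinarith
    obtain ⟨ε, hε1, hε2⟩ := (hev.and self_mem_nhdsWithin).exists
    have hmem : hi + ε ∈ {s : ℝ | z + s • θ ∈ convexHull ℝ (range x)} := by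
      rw [mem_ofPred_eq, h.hP]; exact hε1
    have := hmax hmem
    have hε' : 0 < ε := hε2
    simp only [id, mem_ofPred_eq] at this
    linarith
  obtain ⟨j, hjpos, hj1⟩ := hj
  obtain ⟨l, hl0, hl1, hl⟩ := (mem_hull_iff x _).mp hhi
  have hsupp := dot_eq_of_weight_ne (fun i => h.dot_le i j) hl0 hl1 (by rw [hl]; exact hj1)
  refine ⟨hi, ∑ i, l i * a i, fun t => ?_⟩
  have hpt : z + (hi + t * ∑ i, l i * a i) • θ = ∑ i, l i • shadowPts x a θ t i := by
    rw [sum_shadowPts, hl, add_smul, add_assoc]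
  refine ⟨?_, fun s hs => ?_⟩
  · rw [hpt]; exact (mem_hull_iff _ _).mpr ⟨l, hl0, hl1, rfl⟩
  · have h1 : (y j - t • w j) ⬝ᵥ (z + (hi + t * ∑ i, l i * a i) • θ) = 1 + t * g j := by
      rw [hpt, dotProduct_sum]
      have : ∀ i, (y j - t • w j) ⬝ᵥ l i • shadowPts x a θ t i = l i * (1 + t * g j) := by
        intro i
        rw [dotProduct_smul, smul_eq_mul]
        by_cases hi : l i = 0
        · simp [hi]
        · congr 1
          have e1 := h.slack t i j
          have e2 := hsupp i hi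
          have e3 := h.hinc i j e2
          rw [e2, e3] at e1
          linarith
      simp only [this, ← Finset.sum_mul, hl1, one_mul]
    have h2 := hs j
    rw [dotProduct_add, dotProduct_smul, h.dot_θ, smul_eq_mul] at h1 h2
    nlinarith

/-- The times at which all moving points satisfy all moving inequalities. -/
def goodT (x : ι → Fin n → ℝ) (y : κ → Fin n → ℝ) (θ : Fin n → ℝ) (a : ι → ℝ)
    (w : κ → Fin n → ℝ) (g : κ → ℝ) : Set ℝ :=
  {t | ∀ i j, (y j - t • w j) ⬝ᵥ shadowPts x a θ t i ≤ 1 + t * g j}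

theorem movA_subset_movB {t : ℝ} (ht : t ∈ goodT x y θ a w g) : movA x a θ t ⊆ movB y w g t :=
  fun _ hz j => dot_le_of_mem_hull (fun i => ht i j) hz

theorem Adm.chord [Fintype ι] [Finite κ] (h : Adm x y θ a w g) {z : Fin n → ℝ}
    (hz : ∃ s : ℝ, z + s • θ ∈ convexHull ℝ (range x)) :
    ∃ lo l1 hi l2 : ℝ, ∀ t ∈ goodT x y θ a w g, lo + t * l1 ≤ hi + t * l2 ∧
      {s : ℝ | z + s • θ ∈ movA x a θ t} = Icc (lo + t * l1) (hi + t * l2) ∧
      {s : ℝ | z + s • θ ∈ movB y w g t} = Icc (lo + t * l1) (hi + t * l2) := by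
  obtain ⟨hi, l2, htop⟩ := h.top hz
  obtain ⟨lo, l1, hbot⟩ := h.neg.top (z := z) (by
    obtain ⟨s, hs⟩ := hz
    exact ⟨-s, by simpa using hs⟩)
  refine ⟨-lo, -l1, hi, l2, fun t ht => ?_⟩
  have hb1 : z + (-lo + t * -l1) • θ ∈ movA x a θ t := by
    have := (hbot t).1
    rw [movA, shadowPts_neg] at this
    have e : z + (-lo + t * -l1) • θ = z + (lo + t * l1) • -θ := by
      rw [smul_neg, ← neg_smul]; congr 2; ring
    rw [e]; exact this
  have hb2 : ∀ s : ℝ, z + s • θ ∈ movB y w g t → -lo + t * -l1 ≤ s := by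
    intro s hs
    have := (hbot t).2 (-s) (by simpa using hs)
    linarith
  have hle : -lo + t * -l1 ≤ hi + t * l2 := (htop t).2 _ (movA_subset_movB ht hb1)
  have hBI : {s : ℝ | z + s • θ ∈ movB y w g t} ⊆ Icc (-lo + t * -l1) (hi + t * l2) :=
    fun s hs => ⟨hb2 s hs, (htop t).2 s hs⟩
  have hIA : Icc (-lo + t * -l1) (hi + t * l2) ⊆ {s : ℝ | z + s • θ ∈ movA x a θ t} := by
    have hconv : Convex ℝ {s : ℝ | z + s • θ ∈ movA x a θ t} := by
      intro s1 h1 s2 h2 p q hp hq hpq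
      have := convex_convexHull ℝ (range (shadowPts x a θ t)) h1 h2 hp hq hpq
      have e : z + (p • s1 + q • s2) • θ = p • (z + s1 • θ) + q • (z + s2 • θ) := by
        simp only [smul_add, smul_smul, smul_eq_mul, add_smul]
        have : z = p • z + q • z := by rw [← add_smul, hpq, one_smul]
        conv_lhs => rw [this]
        abel
      rw [mem_ofPred_eq, e]
      exact this
    exact hconv.ordConnected.out hb1 (htop t).1
  have hAB : {s : ℝ | z + s • θ ∈ movA x a θ t} ⊆ {s : ℝ | z + s • θ ∈ movB y w g t} :=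
    fun s hs => movA_subset_movB ht hs
  exact ⟨hle, Subset.antisymm (hAB.trans hBI) hIA, Subset.antisymm hBI (hIA.trans hAB)⟩

theorem cyl_of_mem_movA [Fintype ι] {z : Fin n → ℝ} {s t : ℝ}
    (hz : z + s • θ ∈ movA x a θ t) : ∃ s : ℝ, z + s • θ ∈ convexHull ℝ (range x) := by
  obtain ⟨l, hl0, hl1, hl⟩ := (mem_hull_iff _ _).mp hz
  rw [sum_shadowPts] at hl
  refine ⟨s - t * ∑ i, l i * a i, (mem_hull_iff _ _).mpr ⟨l, hl0, hl1, ?_⟩⟩
  rw [sub_smul, ← add_sub_assoc, ← hl]; abel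

theorem measurableSet_movA [Finite ι] (t : ℝ) : MeasurableSet (movA x a θ t) :=
  (isCompact_hull _).isClosed.measurableSet

/-- The volume is affine on the set of good times. -/
theorem Adm.volume_affine [Fintype ι] [Finite κ] (h : Adm x y θ a w g) {t0 t1 t p q : ℝ}
    (h0 : t0 ∈ goodT x y θ a w g) (h1 : t1 ∈ goodT x y θ a w g) (ht : t ∈ goodT x y θ a w g)
    (hp : 0 ≤ p) (hq : 0 ≤ q) (hpq : p + q = 1) (htpq : t = p * t0 + q * t1) :
    volume (movA x a θ t) =
      ENNReal.ofReal p * volume (movA x a θ t0) + ENNReal.ofReal q * volume (movA x a θ t1) := by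
  refine volume_eq_of_chords h.hθ (measurableSet_movA _) (measurableSet_movA _)
    (measurableSet_movA _) _ _ fun z => ?_
  by_cases hz : ∃ s : ℝ, z + s • θ ∈ convexHull ℝ (range x)
  · obtain ⟨lo, l1, hi, l2, hc⟩ := h.chord hz
    rw [(hc t0 h0).2.1, (hc t1 h1).2.1, (hc t ht).2.1, Real.volume_Icc, Real.volume_Icc,
      Real.volume_Icc, ← ENNReal.ofReal_mul hp, ← ENNReal.ofReal_mul hq,
      ← ENNReal.ofReal_add (mul_nonneg hp (sub_nonneg.mpr (hc t0 h0).1))
        (mul_nonneg hq (sub_nonneg.mpr (hc t1 h1).1))]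
    congr 1
    have hq' : q = 1 - p := by linarith
    subst hq' htpq
    ring
  · have hemp : ∀ t, {s : ℝ | z + s • θ ∈ movA x a θ t} = ∅ := fun t =>
      eq_empty_of_forall_notMem fun s hs => hz (cyl_of_mem_movA hs)
    simp [hemp]

theorem Adm.zero_mem_goodT (h : Adm x y θ a w g) : (0 : ℝ) ∈ goodT x y θ a w g := by
  intro i j
  simpa [shadowPts_zero] using h.dot_le i j

/-- A point of the moving hull where all moving inequalities are strict is an interior point. -/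
theorem Adm.mem_nhds [Fintype ι] [Finite κ] (h : Adm x y θ a w g) {t : ℝ}
    (ht : t ∈ goodT x y θ a w g) (hopp : ∃ r : ℝ, 0 < r ∧ -(r * t) ∈ goodT x y θ a w g)
    {p : Fin n → ℝ} (hp : p ∈ movA x a θ t)
    (hstrict : ∀ j, (y j - t • w j) ⬝ᵥ p < 1 + t * g j) : movA x a θ t ∈ 𝓝 p := by
  have hB : movB y w g t ∈ 𝓝 p :=
    mem_interior_iff_mem_nhds.mp (mem_interior_of_lt (y := fun j => y j - t • w j)
      (b := fun j => 1 + t * g j) hstrict)
  obtain ⟨lo, l1, hi, l2, hc⟩ := h.chord (z := p) (cyl_of_mem_movA (s := 0) (by simpa using hp))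
  -- the chord at time `t` has positive length
  have hlen : lo + t * l1 < hi + t * l2 := by
    have hcont : Continuous fun s : ℝ => p + s • θ := by fun_prop
    have hmem : {s : ℝ | p + s • θ ∈ movB y w g t} ∈ 𝓝 (0 : ℝ) :=
      hcont.continuousAt.preimage_mem_nhds (by simpa using hB)
    rw [(hc t ht).2.2] at hmem
    obtain ⟨ε, hε, hball⟩ := Metric.mem_nhds_iff.mp hmem
    have e1 := hball (show ε / 2 ∈ Metric.ball (0 : ℝ) ε by
      rw [Metric.mem_ball, dist_zero_right, Real.norm_of_nonneg (by positivity)]; linarith)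
    have e2 := hball (Metric.mem_ball_self hε)
    linarith [e1.2, e2.1]
  have hlen0 : lo < hi := by
    obtain ⟨r, hr, hrT⟩ := hopp
    have e1 := (hc _ hrT).1
    have e2 : 0 < (1 + r) * (hi - lo) := by nlinarith
    have e3 : 0 < 1 + r := by linarith
    have := (mul_pos_iff_of_pos_left e3).mp e2
    linarith
  have hc0 := (hc 0 h.zero_mem_goodT).2.1
  simp only [zero_mul, add_zero, movA, shadowPts_zero, h.hP] at hc0
  have hmemP : ∀ s ∈ Icc lo hi, ∀ j, y j ⬝ᵥ (p + s • θ) ≤ 1 := fun s hs => by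
    rw [← hc0] at hs; exact hs
  have hmid : ∀ j, y j ⬝ᵥ (p + ((lo + hi) / 2) • θ) < 1 := by
    intro j
    have e1 := hmemP lo ⟨le_rfl, hlen0.le⟩ j
    have e2 := hmemP hi ⟨hlen0.le, le_rfl⟩ j
    simp only [dotProduct_add, dotProduct_smul, smul_eq_mul] at e1 e2 ⊢
    rcases lt_trichotomy (y j ⬝ᵥ θ) 0 with hlt | heq | hgt
    · nlinarith
    · have e3 := hstrict j
      rw [(h.hpar j heq).1, (h.hpar j heq).2] at e3
      simp only [smul_zero, sub_zero, mul_zero, add_zero] at e3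
      rw [heq]; linarith
    · nlinarith
  have hPn : convexHull ℝ (range x) ∈ 𝓝 (p + ((lo + hi) / 2) • θ) := by
    rw [h.hP]
    exact mem_interior_iff_mem_nhds.mp (mem_interior_of_lt (b := fun _ => 1) hmid)
  have hcont : Continuous fun q : Fin n → ℝ => q + ((lo + hi) / 2) • θ := by fun_prop
  have hcyl := hcont.continuousAt.preimage_mem_nhds hPn
  filter_upwards [hB, hcyl] with q hqB hqC
  obtain ⟨lo', l1', hi', l2', hc'⟩ := h.chord (z := q) ⟨_, hqC⟩
  have : (0 : ℝ) ∈ {s : ℝ | q + s • θ ∈ movB y w g t} := by simpa using hqB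
  rw [(hc' t ht).2.2, ← (hc' t ht).2.1] at this
  simpa using this

theorem Adm.movA_eq_movB [Fintype ι] [Finite κ] (h : Adm x y θ a w g) {t : ℝ}
    (ht : t ∈ goodT x y θ a w g) (hopp : ∃ r : ℝ, 0 < r ∧ -(r * t) ∈ goodT x y θ a w g)
    (hint : (interior (movA x a θ t)).Nonempty) : movA x a θ t = movB y w g t := by
  refine Subset.antisymm (movA_subset_movB ht) fun q hq => ?_
  obtain ⟨z0, hz0⟩ := hint
  have hz0s : ∀ j, (y j - t • w j) ⬝ᵥ z0 < 1 + t * g j := fun j =>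
    lt_of_mem_interior (fun z hz => movA_subset_movB ht hz j) hz0 (h.nondeg t j)
  have hcont : Continuous fun r : ℝ => z0 + r • (q - z0) := by fun_prop
  have hsub : Icc (0 : ℝ) 1 ⊆ {r : ℝ | z0 + r • (q - z0) ∈ movA x a θ t} := by
    refine IsClosed.Icc_subset_of_forall_mem_nhdsWithin
      (((isCompact_hull _).isClosed.preimage hcont).inter isClosed_Icc)
      (by simpa using interior_subset hz0) ?_
    rintro r ⟨hr, hr0, hr1⟩
    refine nhdsWithin_le_nhds (hcont.continuousAt.preimage_mem_nhds (h.mem_nhds ht hopp hr ?_))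
    intro j
    have e1 := hz0s j
    have e2 := hq j
    simp only [dotProduct_add, dotProduct_smul, dotProduct_sub, smul_eq_mul]
    nlinarith
  simpa using hsub ⟨zero_le_one, le_rfl⟩

end Pool.Agent.MP_5f4cdd_gt
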