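import Pool.Agent.MP_5f4cdd_gt.FlowDual

set_option autoImplicit false
open Set

namespace Pool.Agent.MP_5f4cdd_gt

variable {ι κ : Type}

theorem dep3 {d1 d2 d3 l : Fin 3 → ℝ} (hl : l ≠ 0) (h1 : d1 ⬝ᵥ l = 0) (h2 : d2 ⬝ᵥ l = 0)
    (h3 : d3 ⬝ᵥ l = 0) :
    ∃ c1 c2 c3 : ℝ, (c1 ≠ 0 ∨ c2 ≠ 0 ∨ c3 ≠ 0) ∧ c1 • d1 + c2 • d2 + c3 • d3 = 0 := by
  let M : Matrix (Fin 3) (Fin 3) ℝ := Matrix.of ![d1, d2, d3]
  have hdet : M.det = 0 := by
    refine Matrix.exists_mulVec_eq_zero_iff.mp ⟨l, hl, ?_⟩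
    ext k
    fin_cases k
    · exact h1
    · exact h2
    · exact h3
  obtain ⟨c, hc0, hc⟩ := Matrix.exists_vecMul_eq_zero_iff.mpr hdet
  refine ⟨c 0, c 1, c 2, ?_, ?_⟩
  · by_contra hcon
    push Not at hcon
    refine hc0 (funext fun k => ?_)
    fin_cases k
    · exact hcon.1
    · exact hcon.2.1
    · exact hcon.2.2
  · ext k
    have := congrFun hc k
    simpa [M, Matrix.vecMul, dotProduct, Fin.sum_univ_three] using this

theorem exists_generic {n : ℕ} [Finite ι] {x : ι → Fin n → ℝ} (hx : Function.Injective x) :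
    ∃ l : Fin n → ℝ, Function.Injective fun i => l ⬝ᵥ x i := by
  obtain ⟨f, hf⟩ := Module.exists_dual_forall_apply_ne_zero (K := ℝ)
    (fun p : {p : ι × ι // p.1 ≠ p.2} => x p.1.1 - x p.1.2)
    (fun p => sub_ne_zero.mpr (hx.ne p.2))
  obtain ⟨l, hl⟩ := exists_dot_eq f
  refine ⟨l, fun i k hik => ?_⟩
  by_contra hne
  have := hf ⟨(i, k), hne⟩
  rw [hl, dotProduct_sub] at this
  exact this (sub_eq_zero.mpr hik)

/-- `i` is a middle vertex of the facet `j` for the height function `l`. -/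
def IsMid (x : ι → Fin 3 → ℝ) (y : κ → Fin 3 → ℝ) (l : Fin 3 → ℝ) (i : ι) (j : κ) : Prop :=
  y j ⬝ᵥ x i = 1 ∧ (∃ p, y j ⬝ᵥ x p = 1 ∧ l ⬝ᵥ x p < l ⬝ᵥ x i) ∧
    ∃ q, y j ⬝ᵥ x q = 1 ∧ l ⬝ᵥ x i < l ⬝ᵥ x q

variable {x : ι → Fin 3 → ℝ} {y : κ → Fin 3 → ℝ} {l : Fin 3 → ℝ}

theorem IsMid.exists_dir (h : DualPair x y) (hy : Function.Injective y) {i : ι}
    (hi : x i ∈ (convexHull ℝ (range x)).extremePoints ℝ) {j : κ} (hm : IsMid x y l i j) :
    ∃ d : Fin 3 → ℝ, d ⬝ᵥ l = 0 ∧ y j ⬝ᵥ d = 0 ∧ ∀ k, k ≠ j → y k ⬝ᵥ x i = 1 → y k ⬝ᵥ d < 0 := by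
  obtain ⟨hij, ⟨p, hp, hlp⟩, ⟨q, hq, hlq⟩⟩ := hm
  have hden : 0 < l ⬝ᵥ x q - l ⬝ᵥ x p := by linarith
  set s := (l ⬝ᵥ x q - l ⬝ᵥ x i) / (l ⬝ᵥ x q - l ⬝ᵥ x p) with hs
  set t := (l ⬝ᵥ x i - l ⬝ᵥ x p) / (l ⬝ᵥ x q - l ⬝ᵥ x p) with ht
  have hs0 : 0 < s := div_pos (by linarith) hden
  have ht0 : 0 < t := div_pos (by linarith) hden
  have hst : s + t = 1 := by rw [hs, ht]; field_simp; ring
  have hld : l ⬝ᵥ (s • x p + t • x q - x i) = 0 := by
    simp only [dotProduct_sub, dotProduct_add, dotProduct_smul, smul_eq_mul]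
    rw [hs, ht]; field_simp; ring
  have hjd : y j ⬝ᵥ (s • x p + t • x q - x i) = 0 := by
    simp only [dotProduct_sub, dotProduct_add, dotProduct_smul, smul_eq_mul, hij, hp, hq]
    linarith
  have hd : s • x p + t • x q - x i ≠ 0 := by
    intro h0
    have := (mem_extremePoints.mp hi).2 _ (subset_convexHull ℝ _ (mem_range_self p)) _
      (subset_convexHull ℝ _ (mem_range_self q)) ⟨s, t, hs0, ht0, hst, sub_eq_zero.mp h0⟩
    rw [this.1] at hlp
    exact lt_irrefl _ hlp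
  refine ⟨s • x p + t • x q - x i, by rw [dotProduct_comm]; exact hld, hjd, fun k hkj hki => ?_⟩
  have ep := h.dot_le p k
  have eq := h.dot_le q k
  have hval : y k ⬝ᵥ (s • x p + t • x q - x i) = s * (y k ⬝ᵥ x p - 1) + t * (y k ⬝ᵥ x q - 1) := by
    simp only [dotProduct_sub, dotProduct_add, dotProduct_smul, smul_eq_mul, hki]
    linarith
  have e1 : s * (y k ⬝ᵥ x p - 1) ≤ 0 := by nlinarith
  have e2 : t * (y k ⬝ᵥ x q - 1) ≤ 0 := by nlinarith
  refine lt_of_le_of_ne (by linarith) fun h0 => ?_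
  have hkp : y k ⬝ᵥ x p = 1 := by
    have : s * (y k ⬝ᵥ x p - 1) = 0 := by linarith
    rcases mul_eq_zero.mp this with h | h
    · exact absurd h hs0.ne'
    · linarith
  obtain ⟨c1, c2, c3, hc, hsum⟩ := dep3 hd hjd h0 hld
  have f1 := congrArg (· ⬝ᵥ x p) hsum
  have f2 := congrArg (· ⬝ᵥ x i) hsum
  simp only [add_dotProduct, smul_dotProduct, smul_eq_mul, zero_dotProduct, hp, hkp, hij, hki]
    at f1 f2
  have hc3 : c3 = 0 := by
    have : c3 * (l ⬝ᵥ x i - l ⬝ᵥ x p) = 0 := by linarith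
    rcases mul_eq_zero.mp this with h | h
    · exact h
    · linarith
  have hc2 : c2 = -c1 := by rw [hc3] at f1; linarith
  rw [hc3, hc2] at hsum hc
  have hc1 : c1 ≠ 0 := by
    rcases hc with h | h | h
    · exact h
    · exact neg_ne_zero.mp h
    · exact absurd rfl h
  have : c1 • (y j - y k) = 0 := by rw [← hsum]; module
  rcases smul_eq_zero.mp this with h | h
  · exact hc1 h
  · exact hkj (hy (sub_eq_zero.mp h)).symm

open Classical in
theorem card_mid_le_two [Fintype κ] (h : DualPair x y) (hy : Function.Injective y) {i : ι}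
    (hi : x i ∈ (convexHull ℝ (range x)).extremePoints ℝ) :
    (Finset.univ.filter fun j => IsMid x y l i j).card ≤ 2 := by
  by_contra hcon
  obtain ⟨j1, h1, j2, h2, j3, h3, n12, n13, n23⟩ := Finset.two_lt_card.mp (not_le.mp hcon)
  simp only [Finset.mem_filter, Finset.mem_univ, true_and] at h1 h2 h3
  have hl : l ≠ 0 := by
    rintro rfl
    obtain ⟨_, ⟨p, _, hp⟩, _⟩ := h1
    simp at hp
  obtain ⟨d1, a1, b1, e1⟩ := h1.exists_dir h hy hi
  obtain ⟨d2, a2, b2, e2⟩ := h2.exists_dir h hy hi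
  obtain ⟨d3, a3, b3, e3⟩ := h3.exists_dir h hy hi
  obtain ⟨c1, c2, c3, hc, hsum⟩ := dep3 hl a1 a2 a3
  have f1 := congrArg (y j1 ⬝ᵥ ·) hsum
  have f2 := congrArg (y j2 ⬝ᵥ ·) hsum
  have f3 := congrArg (y j3 ⬝ᵥ ·) hsum
  simp only [dotProduct_add, dotProduct_smul, smul_eq_mul, dotProduct_zero, b1, b2, b3,
    mul_zero, zero_add, add_zero] at f1 f2 f3
  have p12 := e2 j1 n12 h1.1
  have p13 := e3 j1 n13 h1.1
  have p21 := e1 j2 n12.symm h2.1
  have p23 := e3 j2 n23 h2.1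
  have p31 := e1 j3 n13.symm h3.1
  have p32 := e2 j3 n23.symm h3.1
  have key : ∀ {u v A B : ℝ}, A < 0 → B < 0 → u * A + v * B = 0 →
      (u = 0 ∧ v = 0) ∨ (0 < u ∧ v < 0) ∨ (u < 0 ∧ 0 < v) := by
    intro u v A B hA hB huv
    rcases lt_trichotomy u 0 with hu | hu | hu
    · right; right
      refine ⟨hu, ?_⟩
      by_contra hv
      nlinarith [mul_pos_of_neg_of_neg hu hA, mul_nonneg_of_nonpos_of_nonpos (not_lt.mp hv) hB.le]
    · left
      refine ⟨hu, ?_⟩
      rw [hu, zero_mul, zero_add] at huv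
      exact (mul_eq_zero.mp huv).resolve_right hB.ne
    · right; left
      refine ⟨hu, ?_⟩
      by_contra hv
      nlinarith [mul_neg_of_pos_of_neg hu hA, mul_nonpos_of_nonneg_of_nonpos (not_lt.mp hv) hB.le]
  rcases key p12 p13 f1 with g1 | g1 | g1 <;> rcases key p21 p23 f2 with g2 | g2 | g2 <;>
    rcases key p31 p32 f3 with g3 | g3 | g3 <;>
    first
      | (rcases hc with hc | hc | hc
         · exact hc g2.1
         · exact hc g1.1
         · exact hc g1.2)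
      | linarith [g1.1, g1.2, g2.1, g2.2, g3.1, g3.2]

open Classical in
theorem card_inc_le_mid [Fintype ι] (hl : Function.Injective fun i => l ⬝ᵥ x i) (j : κ) :
    (Finset.univ.filter fun i => y j ⬝ᵥ x i = 1).card ≤
      (Finset.univ.filter fun i => IsMid x y l i j).card + 2 := by
  set A := Finset.univ.filter fun i => y j ⬝ᵥ x i = 1 ∧ ∀ p, y j ⬝ᵥ x p = 1 → l ⬝ᵥ x i ≤ l ⬝ᵥ x p
  set B := Finset.univ.filter fun i => y j ⬝ᵥ x i = 1 ∧ ∀ p, y j ⬝ᵥ x p = 1 → l ⬝ᵥ x p ≤ l ⬝ᵥ x i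
  have hA : A.card ≤ 1 := Finset.card_le_one.mpr fun a ha b hb => by
    simp only [A, Finset.mem_filter, Finset.mem_univ, true_and] at ha hb
    exact hl (le_antisymm (ha.2 b hb.1) (hb.2 a ha.1))
  have hB : B.card ≤ 1 := Finset.card_le_one.mpr fun a ha b hb => by
    simp only [B, Finset.mem_filter, Finset.mem_univ, true_and] at ha hb
    exact hl (le_antisymm (hb.2 a ha.1) (ha.2 b hb.1))
  have hsub : (Finset.univ.filter fun i => y j ⬝ᵥ x i = 1) ⊆
      (Finset.univ.filter fun i => IsMid x y l i j) ∪ (A ∪ B) := by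
    intro i hi
    simp only [A, B, Finset.mem_filter, Finset.mem_univ, true_and, Finset.mem_union] at hi ⊢
    by_cases h1 : ∃ p, y j ⬝ᵥ x p = 1 ∧ l ⬝ᵥ x p < l ⬝ᵥ x i
    · by_cases h2 : ∃ q, y j ⬝ᵥ x q = 1 ∧ l ⬝ᵥ x i < l ⬝ᵥ x q
      · exact Or.inl ⟨hi, h1, h2⟩
      · push Not at h2
        exact Or.inr (Or.inr ⟨hi, h2⟩)
    · push Not at h1
      exact Or.inr (Or.inl ⟨hi, h1⟩)
  have := Finset.card_le_card hsub
  have h2 := Finset.card_union_le (Finset.univ.filter fun i => IsMid x y l i j) (A ∪ B)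
  have h3 := Finset.card_union_le A B
  omega

open Classical in
/-- Euler's inequality for the number of vertex-facet incidences of a 3-polytope. -/
theorem euler_ineq [Fintype ι] [Fintype κ] [Nontrivial ι] (h : DualPair x y)
    (hx : Function.Injective x) (hy : Function.Injective y)
    (hext : ∀ i, x i ∈ (convexHull ℝ (range x)).extremePoints ℝ) :
    ∑ j, (Finset.univ.filter fun i => y j ⬝ᵥ x i = 1).card + 4 ≤
      2 * Fintype.card ι + 2 * Fintype.card κ := by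
  obtain ⟨l, hl⟩ := exists_generic hx
  obtain ⟨imin, hmin⟩ := Finite.exists_min fun i => l ⬝ᵥ x i
  obtain ⟨imax, hmax⟩ := Finite.exists_max fun i => l ⬝ᵥ x i
  have hne : imin ≠ imax := by
    rintro rfl
    obtain ⟨k, hk⟩ := exists_ne imin
    exact hk (hl (le_antisymm (hmax k) (hmin k)))
  have h1 : ∑ j, (Finset.univ.filter fun i => y j ⬝ᵥ x i = 1).card ≤
      ∑ j, ((Finset.univ.filter fun i => IsMid x y l i j).card + 2) :=
    Finset.sum_le_sum fun j _ => card_inc_le_mid hl j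
  rw [Finset.sum_add_distrib, Finset.sum_const, Finset.card_univ, smul_eq_mul] at h1
  have h2 : ∑ j, (Finset.univ.filter fun i => IsMid x y l i j).card =
      ∑ i, (Finset.univ.filter fun j => IsMid x y l i j).card := by
    simp only [Finset.card_filter]
    exact Finset.sum_comm
  have h3 : ∑ i, (Finset.univ.filter fun j => IsMid x y l i j).card ≤
      ∑ i ∈ (Finset.univ.erase imin).erase imax, 2 := by
    rw [← Finset.sum_subset (s₁ := (Finset.univ.erase imin).erase imax) (Finset.subset_univ _)]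
    · exact Finset.sum_le_sum fun i _ => card_mid_le_two h hy (hext i)
    · intro i _ hi
      rw [Finset.card_eq_zero, Finset.filter_eq_empty_iff]
      intro j _ hm
      simp only [Finset.mem_erase, Finset.mem_univ, and_true, not_and_or, not_not] at hi
      rcases hi with rfl | rfl
      · obtain ⟨_, _, q, _, hq⟩ := hm
        exact absurd (hmax q) (not_le.mpr hq)
      · obtain ⟨_, ⟨p, _, hp⟩, _⟩ := hm
        exact absurd (hmin p) (not_le.mpr hp)
  rw [Finset.sum_const, Finset.card_erase_of_mem (by simp [hne.symm]),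
    Finset.card_erase_of_mem (by simp), Finset.card_univ, smul_eq_mul] at h3
  have h4 : 1 < Fintype.card ι := Fintype.one_lt_card
  omega

end Pool.Agent.MP_5f4cdd_gt
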