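import Pool.Agent.MP_5f4cdd_gt.FlowAdm
import Pool.Agent.MP_5f4cdd_gt.FlowEuler

set_option autoImplicit false
open Set Filter Topology

namespace Pool.Agent.MP_5f4cdd_gt

variable {ι κ : Type}

/-- At an extreme point of the polar body the incident points span the space. -/
theorem eq_zero_of_extreme {n : ℕ} [Finite ι] {x : ι → Fin n → ℝ} {y : κ → Fin n → ℝ}
    (h : DualPair x y) {j : κ} (hj : y j ∈ (convexHull ℝ (range y)).extremePoints ℝ)
    {u : Fin n → ℝ} (hu : ∀ i, y j ⬝ᵥ x i = 1 → u ⬝ᵥ x i = 0) : u = 0 := by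
  have hev : ∀ᶠ ε in 𝓝[>] (0 : ℝ), ∀ i, x i ⬝ᵥ (y j + ε • u) ≤ 1 ∧ x i ⬝ᵥ (y j - ε • u) ≤ 1 := by
    rw [eventually_all]
    intro i
    by_cases hi : y j ⬝ᵥ x i = 1
    · refine Eventually.of_forall fun ε => ?_
      have e1 : x i ⬝ᵥ u = 0 := by rw [dotProduct_comm]; exact hu i hi
      have e2 : x i ⬝ᵥ y j = 1 := by rw [dotProduct_comm]; exact hi
      simp [e1, e2]
    · have hlt : x i ⬝ᵥ y j < 1 := by
        rw [dotProduct_comm]; exact lt_of_le_of_ne (h.dot_le i j) hi
      have c1 : Continuous fun ε : ℝ => x i ⬝ᵥ (y j + ε • u) :=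
        (continuous_dot _).comp (by fun_prop)
      have c2 : Continuous fun ε : ℝ => x i ⬝ᵥ (y j - ε • u) :=
        (continuous_dot _).comp (by fun_prop)
      have e1 := (c1.tendsto 0).eventually (gt_mem_nhds (a := (1 : ℝ)) (by simpa using hlt))
      have e2 := (c2.tendsto 0).eventually (gt_mem_nhds (a := (1 : ℝ)) (by simpa using hlt))
      exact ((e1.and e2).filter_mono nhdsWithin_le_nhds).mono fun ε hε => ⟨hε.1.le, hε.2.le⟩
  obtain ⟨ε, hε1, hε2⟩ := (hev.and self_mem_nhdsWithin).exists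
  have hε : 0 < ε := hε2
  have m1 : y j + ε • u ∈ convexHull ℝ (range y) := by rw [h.2]; exact fun i => (hε1 i).1
  have m2 : y j - ε • u ∈ convexHull ℝ (range y) := by rw [h.2]; exact fun i => (hε1 i).2
  have := ((mem_extremePoints.mp hj).2 _ m1 _ m2
    ⟨1 / 2, 1 / 2, by norm_num, by norm_num, by norm_num, by module⟩).1
  have h0 : ε • u = 0 := by simpa using this
  exact (smul_eq_zero.mp h0).resolve_left hε.ne'

/-- Evaluation of a vector against a family of points. -/
def evalMap {n : ℕ} {α : Type} (p : α → Fin n → ℝ) : (Fin n → ℝ) →ₗ[ℝ] (α → ℝ) where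
  toFun u := fun i => u ⬝ᵥ p i
  map_add' u v := by ext i; simp
  map_smul' c u := by ext i; simp

open Classical in
theorem le_card_inc {n : ℕ} [Fintype ι] {x : ι → Fin n → ℝ} {y : κ → Fin n → ℝ}
    (h : DualPair x y) {j : κ} (hj : y j ∈ (convexHull ℝ (range y)).extremePoints ℝ) :
    n ≤ (Finset.univ.filter fun i => y j ⬝ᵥ x i = 1).card := by
  have hinj : Function.Injective (evalMap fun i : {i // y j ⬝ᵥ x i = 1} => x i.1) := by
    rw [injective_iff_map_eq_zero]
    intro u hu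
    exact eq_zero_of_extreme h hj fun i hi => congrFun hu ⟨i, hi⟩
  have := LinearMap.finrank_le_finrank_of_injective hinj
  rwa [Module.finrank_fintype_fun_eq_card, Module.finrank_fintype_fun_eq_card, Fintype.card_fin,
    Fintype.card_subtype] at this

theorem exists_orth (v : Fin 3 → ℝ) : ∃ θ : Fin 3 → ℝ, θ ≠ 0 ∧ v ⬝ᵥ θ = 0 := by
  by_cases h : v 0 = 0
  · refine ⟨![1, 0, 0], fun h0 => by simpa using congrFun h0 0, ?_⟩
    simp [dotProduct, Fin.sum_univ_three, h]
  · refine ⟨![-v 1, v 0, 0], fun h0 => h (by simpa using congrFun h0 1), ?_⟩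
    simp [dotProduct, Fin.sum_univ_three]; ring

/-- All admissible speeds are globally affine. -/
def Rigid {n : ℕ} (x : ι → Fin n → ℝ) (y : κ → Fin n → ℝ) : Prop :=
  ∀ (θ : Fin n → ℝ) (a : ι → ℝ), θ ≠ 0 →
    (∀ j, y j ⬝ᵥ θ ≠ 0 → ∃ u : Fin n → ℝ, ∀ i, y j ⬝ᵥ x i = 1 → a i = u ⬝ᵥ x i) → TrivSpeed x a

theorem rigid_of_not_hasFlow {n : ℕ} [Finite ι] [Finite κ] {x : ι → Fin n → ℝ}
    {y : κ → Fin n → ℝ} (h : DualPair x y) (hno : ¬ HasFlow x y) : Rigid x y :=
  fun _ _ hθ hadm => by_contra fun ha => hno (hasFlow_of_admissible h hθ hadm ha)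

theorem Rigid.of_comp {n : ℕ} {ι' κ' : Type} {x : ι → Fin n → ℝ} {y : κ → Fin n → ℝ}
    {f : ι' → ι} {g : κ' → κ} (hf : Function.Surjective f) (h : Rigid (x ∘ f) (y ∘ g)) :
    Rigid x y := by
  intro θ a hθ hadm
  obtain ⟨u, c, hu⟩ := h θ (a ∘ f) hθ fun j hj => by
    obtain ⟨u, hu⟩ := hadm (g j) hj
    exact ⟨u, fun i hi => hu (f i) hi⟩
  refine ⟨u, c, fun i => ?_⟩
  obtain ⟨k, rfl⟩ := hf i
  exact hu k

variable {x : ι → Fin 3 → ℝ} {y : κ → Fin 3 → ℝ}

open Classical in
theorem count_le [Fintype ι] [Fintype κ] (h : DualPair x y)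
    (hext : ∀ j, y j ∈ (convexHull ℝ (range y)).extremePoints ℝ) (hno : Rigid x y) (G : κ) :
    Fintype.card ι + 3 * Fintype.card κ + (Finset.univ.filter fun i => y G ⬝ᵥ x i = 1).card ≤
      7 + ∑ j, (Finset.univ.filter fun i => y j ⬝ᵥ x i = 1).card := by
  obtain ⟨θ, hθ, hG⟩ := exists_orth (y G)
  let Φ : ((ι → ℝ) × (κ → Fin 3 → ℝ)) →ₗ[ℝ]
      ((∀ j : κ, {i // y j ⬝ᵥ x i = 1 ∧ j ≠ G} → ℝ) × (Fin 3 → ℝ)) :=
    { toFun := fun p => (fun j i => p.1 i.1 - p.2 j ⬝ᵥ x i.1, p.2 G)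
      map_add' := fun p q => by
        ext j i
        · simp; ring
        · simp
      map_smul' := fun c p => by
        ext j i
        · simp; ring
        · simp }
  let Ψ : ((Fin 3 → ℝ) × ℝ) →ₗ[ℝ] (ι → ℝ) :=
    { toFun := fun p i => p.1 ⬝ᵥ x i + p.2
      map_add' := fun p q => by ext i; simp; ring
      map_smul' := fun c p => by ext i; simp; ring }
  have hker : ∀ p ∈ LinearMap.ker Φ,
      (∀ j i, y j ⬝ᵥ x i = 1 → j ≠ G → p.1 i = p.2 j ⬝ᵥ x i) ∧ p.2 G = 0 := by
    intro p hp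
    rw [LinearMap.mem_ker] at hp
    refine ⟨fun j i h1 h2 => ?_, congrArg Prod.snd hp⟩
    have := congrFun (congrFun (congrArg Prod.fst hp) j) ⟨i, h1, h2⟩
    exact sub_eq_zero.mp this
  have hmem : ∀ p : LinearMap.ker Φ,
      ((LinearMap.fst ℝ _ _).comp (LinearMap.ker Φ).subtype) p ∈ LinearMap.range Ψ := by
    intro p
    obtain ⟨u, c, hu⟩ := hno θ p.1.1 hθ (fun j hj => ⟨p.1.2 j, fun i hi =>
      (hker p.1 p.2).1 j i hi (fun e => hj (e ▸ hG))⟩)
    exact ⟨(u, c), funext fun i => (hu i).symm⟩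
  have hinj : Function.Injective (LinearMap.codRestrict _ _ hmem) := by
    rw [injective_iff_map_eq_zero]
    intro p hp
    have h1 : p.1.1 = 0 := congrArg Subtype.val hp
    have h2 : p.1.2 = 0 := by
      funext j
      by_cases hj : j = G
      · rw [hj]; exact (hker p.1 p.2).2
      · refine eq_zero_of_extreme h (hext j) fun i hi => ?_
        rw [← (hker p.1 p.2).1 j i hi hj, h1]; rfl
    exact Subtype.ext (Prod.ext h1 h2)
  have e1 := LinearMap.finrank_le_finrank_of_injective hinj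
  have e2 : Module.finrank ℝ (LinearMap.range Ψ) ≤ 4 := by
    have := LinearMap.finrank_range_le Ψ
    simpa using this
  have e3 := LinearMap.finrank_range_add_finrank_ker Φ
  have e4 := Submodule.finrank_le (LinearMap.range Φ)
  rw [Module.finrank_prod, Module.finrank_pi_fintype, Module.finrank_pi_fintype ℝ (ι := κ)] at e3
  rw [Module.finrank_prod, Module.finrank_pi_fintype] at e4
  simp only [Module.finrank_fintype_fun_eq_card, Fintype.card_fin, Finset.sum_const,
    Finset.card_univ, smul_eq_mul, Module.finrank_self, mul_one, Fintype.card_subtype] at e3 e4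
  have e5 : ∑ j, (Finset.univ.filter fun i => y j ⬝ᵥ x i = 1 ∧ j ≠ G).card +
      (Finset.univ.filter fun i => y G ⬝ᵥ x i = 1).card =
      ∑ j, (Finset.univ.filter fun i => y j ⬝ᵥ x i = 1).card := by
    rw [← Finset.add_sum_erase _ _ (Finset.mem_univ G),
      ← Finset.add_sum_erase (s := Finset.univ) _ (Finset.mem_univ G)]
    have : ∑ j ∈ Finset.univ.erase G, (Finset.univ.filter fun i => y j ⬝ᵥ x i = 1 ∧ j ≠ G).card =
        ∑ j ∈ Finset.univ.erase G, (Finset.univ.filter fun i => y j ⬝ᵥ x i = 1).card :=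
      Finset.sum_congr rfl fun j hj => by simp [Finset.ne_of_mem_erase hj]
    rw [this]
    simp [add_comm]
  omega

open Classical in
theorem card_le_four [Fintype ι] [Fintype κ] (h : DualPair x y)
    (hx : Function.Injective x) (hy : Function.Injective y)
    (hextx : ∀ i, x i ∈ (convexHull ℝ (range x)).extremePoints ℝ)
    (hexty : ∀ j, y j ∈ (convexHull ℝ (range y)).extremePoints ℝ)
    (hno : Rigid x y) (hno' : Rigid y x) : Fintype.card ι ≤ 4 := by
  obtain ⟨v⟩ := h.nonempty_left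
  obtain ⟨G0⟩ := h.symm.nonempty_left
  have hm3 := fun G => le_card_inc h (hexty G)
  have hd3 := le_card_inc h.symm (hextx v)
  have : Nontrivial ι := by
    rw [← Fintype.one_lt_card_iff_nontrivial]
    have := (hm3 G0).trans (Finset.card_le_univ _)
    omega
  have hE := euler_ineq h hx hy hextx
  have hD := count_le h.symm hextx hno' v
  have hswap : ∑ i, (Finset.univ.filter fun j => x i ⬝ᵥ y j = 1).card =
      ∑ j, (Finset.univ.filter fun i => y j ⬝ᵥ x i = 1).card := by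
    simp only [Finset.card_filter]
    rw [Finset.sum_comm]
    simp only [dotProduct_comm]
  rw [hswap] at hD
  have hm : ∀ G, (Finset.univ.filter fun i => y G ⬝ᵥ x i = 1).card ≤ 3 := fun G => by
    have := count_le h hexty hno G
    omega
  have hI : ∑ j, (Finset.univ.filter fun i => y j ⬝ᵥ x i = 1).card ≤ ∑ _j : κ, 3 :=
    Finset.sum_le_sum fun j _ => hm j
  rw [Finset.sum_const, Finset.card_univ, smul_eq_mul] at hI
  have h1 := count_le h hexty hno G0
  have h2 := hm3 G0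
  omega

end Pool.Agent.MP_5f4cdd_gt
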