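import Pool.Agent.MP_5f4cdd_gt.Defs

set_option autoImplicit false
open MeasureTheory Set

namespace Pool.Agent.MP_5f4cdd_gt

/-- `x` generates a polytope `P` containing `0` in its interior, `y` generates its polar body,
and each is cut out by the inequalities given by the points of the other. -/
def DualPair {n : ℕ} {ι κ : Type} (x : ι → Fin n → ℝ) (y : κ → Fin n → ℝ) : Prop :=
  convexHull ℝ (range x) = {z | ∀ j, y j ⬝ᵥ z ≤ 1} ∧
  convexHull ℝ (range y) = {w | ∀ i, x i ⬝ᵥ w ≤ 1}

/-- Number of incident pairs. -/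
noncomputable def nInc {n : ℕ} {ι κ : Type} (x : ι → Fin n → ℝ) (y : κ → Fin n → ℝ) : ℕ :=
  Set.ncard {p : ι × κ | x p.1 ⬝ᵥ y p.2 = 1}

/-- The points of the shadow system with speeds `a` in direction `θ`, at time `t`. -/
def shadowPts {n : ℕ} {ι : Type} (x : ι → Fin n → ℝ) (a : ι → ℝ) (θ : Fin n → ℝ) (t : ℝ) :
    ι → Fin n → ℝ := fun i => x i + (t * a i) • θ

/-- The pair `(x, y)` has a useful shadow flow: on a time interval `[-δ, τ]` the volume is affine,
the number of generators and of inequalities does not grow, and at time `τ` there are more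
incidences than at the start. -/
def HasFlow {n : ℕ} {ι κ : Type} (x : ι → Fin n → ℝ) (y : κ → Fin n → ℝ) : Prop :=
  ∃ (x' : ι → Fin n → ℝ) (a : ι → ℝ) (θ : Fin n → ℝ) (δ τ α β : ℝ),
    0 < δ ∧ 0 < τ ∧ θ ≠ 0 ∧ convexHull ℝ (range x') = convexHull ℝ (range x) ∧
    ∀ t ∈ Icc (-δ) τ,
      (volume (convexHull ℝ (range (shadowPts x' a θ t)))).toReal = α + β * t ∧
      (interior (convexHull ℝ (range (shadowPts x' a θ t)))).Nonempty ∧
      ∀ c ∈ interior (convexHull ℝ (range (shadowPts x' a θ t))),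
        ∃ y' : κ → Fin n → ℝ, DualPair (fun i => shadowPts x' a θ t i - c) y' ∧
          (t = τ → nInc x y < nInc (fun i => shadowPts x' a θ t i - c) y')

end Pool.Agent.MP_5f4cdd_gt
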