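import Pool.Agent.MP_5f4cdd_gt.FlowDefs

set_option autoImplicit false
open MeasureTheory Set

namespace Pool.Agent.MP_5f4cdd_gt

section hull
variable {E : Type*} [AddCommGroup E] [Module ℝ E] {ι : Type} [Fintype ι]

theorem mem_hull_iff (x : ι → E) (z : E) :
    z ∈ convexHull ℝ (range x) ↔
      ∃ w : ι → ℝ, (∀ i, 0 ≤ w i) ∧ ∑ i, w i = 1 ∧ ∑ i, w i • x i = z := by
  classical
  constructor
  · intro hz
    have hconv : Convex ℝ {z : E | ∃ w : ι → ℝ, (∀ i, 0 ≤ w i) ∧ ∑ i, w i = 1 ∧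
        ∑ i, w i • x i = z} := by
      rintro p ⟨w, hw0, hw1, rfl⟩ q ⟨v, hv0, hv1, rfl⟩ s t hs ht hst
      refine ⟨fun i => s * w i + t * v i, fun i => by have := hw0 i; have := hv0 i; positivity,
        ?_, ?_⟩
      · rw [Finset.sum_add_distrib, ← Finset.mul_sum, ← Finset.mul_sum, hw1, hv1]; linarith
      · simp only [add_smul, mul_smul, Finset.sum_add_distrib, Finset.smul_sum]
    refine convexHull_min ?_ hconv hz
    rintro _ ⟨i, rfl⟩
    refine ⟨Pi.single i 1, fun j => ?_, by simp, ?_⟩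
    · by_cases h : j = i
      · subst h; simp
      · simp [Pi.single_eq_of_ne h]
    · rw [Finset.sum_eq_single i]
      · simp
      · intro b _ hb; simp [Pi.single_eq_of_ne hb]
      · simp
  · rintro ⟨w, hw0, hw1, rfl⟩
    exact (convex_convexHull ℝ _).sum_mem (fun i _ => hw0 i) hw1
      (fun i _ => subset_convexHull ℝ _ (mem_range_self i))

end hull

variable {n : ℕ} {ι κ : Type}

theorem convex_dot_le (v : Fin n → ℝ) (b : ℝ) : Convex ℝ {z : Fin n → ℝ | v ⬝ᵥ z ≤ b} := by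
  intro p hp q hq s t hs ht hst
  simp only [mem_ofPred_eq, dotProduct_add, dotProduct_smul, smul_eq_mul] at *
  have h1 := mul_le_mul_of_nonneg_left hp hs
  have h2 := mul_le_mul_of_nonneg_left hq ht
  have h3 : s * b + t * b = b := by rw [← add_mul, hst, one_mul]
  linarith

theorem dot_le_of_mem_hull {x : ι → Fin n → ℝ} {v : Fin n → ℝ} {b : ℝ}
    (h : ∀ i, v ⬝ᵥ x i ≤ b) {z : Fin n → ℝ} (hz : z ∈ convexHull ℝ (range x)) : v ⬝ᵥ z ≤ b := by
  have : convexHull ℝ (range x) ⊆ {z : Fin n → ℝ | v ⬝ᵥ z ≤ b} :=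
    convexHull_min (by rintro _ ⟨i, rfl⟩; exact h i) (convex_dot_le v b)
  exact this hz

theorem exists_dot_eq (f : (Fin n → ℝ) →ₗ[ℝ] ℝ) : ∃ v : Fin n → ℝ, ∀ z, f z = v ⬝ᵥ z := by
  classical
  refine ⟨fun i => f (Pi.single i 1), fun z => ?_⟩
  rw [LinearMap.pi_apply_eq_sum_univ f z]
  unfold dotProduct
  refine Finset.sum_congr rfl fun i _ => ?_
  rw [smul_eq_mul, mul_comm]
  congr 2
  ext j
  simp [Pi.single_apply, eq_comm]

theorem eq_zero_of_ray_mem {S : Set (Fin n → ℝ)} (hS : Bornology.IsBounded S)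
    {z v : Fin n → ℝ} (h : ∀ s : ℝ, 0 ≤ s → z + s • v ∈ S) : v = 0 := by
  by_contra hv
  obtain ⟨R, hR⟩ := hS.exists_norm_le
  have hvpos : 0 < ‖v‖ := norm_pos_iff.mpr hv
  have hz : ‖z‖ ≤ R := by simpa using hR _ (h 0 le_rfl)
  have hR0 : 0 ≤ R := (norm_nonneg _).trans hz
  have h1 := hR _ (h ((2 * R + 1) / ‖v‖) (by positivity))
  have h2 : ‖((2 * R + 1) / ‖v‖) • v‖ = 2 * R + 1 := by
    rw [norm_smul, Real.norm_of_nonneg (by positivity)]; field_simp
  have h3 : ‖((2 * R + 1) / ‖v‖) • v‖ ≤ ‖z + ((2 * R + 1) / ‖v‖) • v‖ + ‖z‖ := by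
    calc _ = ‖(z + ((2 * R + 1) / ‖v‖) • v) - z‖ := by congr 1; abel
      _ ≤ _ := norm_sub_le _ _
  linarith

theorem isCompact_hull [Finite ι] (x : ι → Fin n → ℝ) : IsCompact (convexHull ℝ (range x)) :=
  (finite_range x).isCompact_convexHull ℝ

theorem DualPair.symm {x : ι → Fin n → ℝ} {y : κ → Fin n → ℝ} (h : DualPair x y) :
    DualPair y x := ⟨h.2, h.1⟩

theorem DualPair.dot_le {x : ι → Fin n → ℝ} {y : κ → Fin n → ℝ} (h : DualPair x y) (i : ι)
    (j : κ) : y j ⬝ᵥ x i ≤ 1 := by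
  have : x i ∈ convexHull ℝ (range x) := subset_convexHull ℝ _ (mem_range_self i)
  rw [h.1] at this
  exact this j

theorem dualPair_of_eq [Finite ι] [Finite κ] [Nonempty κ] {x : ι → Fin n → ℝ}
    {y : κ → Fin n → ℝ} (h : convexHull ℝ (range x) = {z | ∀ j, y j ⬝ᵥ z ≤ 1}) :
    DualPair x y := by
  refine ⟨h, Subset.antisymm ?_ ?_⟩
  · intro w hw i
    refine dot_le_of_mem_hull (fun j => ?_) hw
    have : x i ∈ convexHull ℝ (range x) := subset_convexHull ℝ _ (mem_range_self i)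
    rw [h] at this
    rw [dotProduct_comm]; exact this j
  · intro w hw
    by_contra hnot
    obtain ⟨f, u, hf, hu⟩ := geometric_hahn_banach_closed_point (convex_convexHull ℝ (range y))
      (isCompact_hull y).isClosed hnot
    obtain ⟨v, hv⟩ := exists_dot_eq (f : (Fin n → ℝ) →ₗ[ℝ] ℝ)
    have hv' : ∀ z, f z = v ⬝ᵥ z := hv
    have hy : ∀ j, v ⬝ᵥ y j < u := fun j => by
      rw [← hv']; exact hf _ (subset_convexHull ℝ _ (mem_range_self j))
    rw [hv'] at hu
    rcases lt_or_ge 0 u with hu0 | hu0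
    · have hz : u⁻¹ • v ∈ convexHull ℝ (range x) := by
        rw [h]; intro j
        rw [dotProduct_smul, smul_eq_mul, dotProduct_comm, inv_mul_le_iff₀ hu0]
        linarith [hy j]
      have := dot_le_of_mem_hull (v := w) (b := 1) (fun i => by rw [dotProduct_comm]; exact hw i) hz
      rw [dotProduct_smul, smul_eq_mul, dotProduct_comm, inv_mul_le_iff₀ hu0] at this
      linarith
    · have hv0 : v = 0 := by
        refine eq_zero_of_ray_mem (isCompact_hull x).isBounded (z := 0) fun s hs => ?_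
        rw [h]; intro j
        rw [zero_add, dotProduct_smul, smul_eq_mul, dotProduct_comm]
        nlinarith [hy j]
      obtain ⟨j⟩ := ‹Nonempty κ›
      have := hy j
      rw [hv0, zero_dotProduct] at this
      linarith

theorem continuous_dot (v : Fin n → ℝ) : Continuous fun z : Fin n → ℝ => v ⬝ᵥ z := by
  unfold dotProduct; fun_prop

theorem mem_interior_of_lt [Finite κ] {y : κ → Fin n → ℝ} {b : κ → ℝ} {c : Fin n → ℝ}
    (h : ∀ j, y j ⬝ᵥ c < b j) : c ∈ interior {z | ∀ j, y j ⬝ᵥ z ≤ b j} := by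
  have hopen : IsOpen {z : Fin n → ℝ | ∀ j, y j ⬝ᵥ z < b j} := by
    rw [ofPred_forall]
    exact isOpen_iInter_of_finite fun j => isOpen_lt (continuous_dot _) continuous_const
  exact interior_maximal (fun z hz j => (hz j).le) hopen h

theorem DualPair.zero_mem_interior [Finite κ] {x : ι → Fin n → ℝ} {y : κ → Fin n → ℝ}
    (h : DualPair x y) : (0 : Fin n → ℝ) ∈ interior (convexHull ℝ (range x)) := by
  rw [h.1]
  exact mem_interior_of_lt (b := fun _ => 1) fun j => by simp

theorem DualPair.nonempty_left {x : ι → Fin n → ℝ} {y : κ → Fin n → ℝ}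
    (h : DualPair x y) : Nonempty ι := by
  have : (0 : Fin n → ℝ) ∈ convexHull ℝ (range x) := by rw [h.1]; intro j; simp
  by_contra hne
  rw [not_nonempty_iff] at hne
  rw [range_eq_empty, convexHull_empty] at this
  exact this

/-- The second polytope of a dual pair is the polar body of the first one. -/
theorem DualPair.polar_eq {x : ι → Fin n → ℝ} {y : κ → Fin n → ℝ} (h : DualPair x y) :
    {w | ∀ z ∈ convexHull ℝ (range x), z ⬝ᵥ w ≤ 1} = convexHull ℝ (range y) := by
  rw [h.2]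
  ext w
  constructor
  · intro hw i
    exact hw _ (subset_convexHull ℝ _ (mem_range_self i))
  · intro hw z hz
    rw [dotProduct_comm]
    exact dot_le_of_mem_hull (fun i => by rw [dotProduct_comm]; exact hw i) hz

/-- A point in the interior of a half-space satisfies the inequality strictly. -/
theorem lt_of_mem_interior {S : Set (Fin n → ℝ)} {v c : Fin n → ℝ} {b : ℝ}
    (hS : ∀ z ∈ S, v ⬝ᵥ z ≤ b) (hc : c ∈ interior S) (hvb : v ≠ 0 ∨ b ≠ 0) : v ⬝ᵥ c < b := by
  have hle := hS c (interior_subset hc)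
  by_cases hv : v = 0
  · subst hv
    rw [zero_dotProduct] at hle ⊢
    rcases hvb with h | h
    · exact absurd rfl h
    · exact lt_of_le_of_ne hle (Ne.symm h)
  · have hcont : Continuous fun s : ℝ => c + s • v := by fun_prop
    have hmem : (fun s : ℝ => c + s • v) ⁻¹' interior S ∈ nhds (0 : ℝ) :=
      hcont.continuousAt.preimage_mem_nhds (by simpa using isOpen_interior.mem_nhds hc)
    obtain ⟨ε, hε, hball⟩ := Metric.mem_nhds_iff.mp hmem
    have h1 : c + (ε / 2) • v ∈ interior S := hball (by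
      rw [Metric.mem_ball, dist_zero_right, Real.norm_of_nonneg (by positivity)]; linarith)
    have h2 := hS _ (interior_subset h1)
    rw [dotProduct_add, dotProduct_smul, smul_eq_mul] at h2
    have h3 : 0 < v ⬝ᵥ v := by
      rcases (dotProduct_self_star_nonneg v).lt_or_eq with h | h
      · simpa using h
      · exact absurd (dotProduct_self_eq_zero.mp (by simpa using h.symm)) hv
    nlinarith

theorem hull_sub (x : ι → Fin n → ℝ) (c : Fin n → ℝ) :
    convexHull ℝ (range fun i => x i - c) = (fun z => z - c) '' convexHull ℝ (range x) := by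
  have h1 : (range fun i => x i - c) = (AffineEquiv.constVAdd ℝ (Fin n → ℝ) (-c)) '' range x := by
    rw [← range_comp]; congr 1; ext i; simp [sub_eq_neg_add]
  rw [h1]
  have := (AffineEquiv.constVAdd ℝ (Fin n → ℝ) (-c)).toAffineMap.image_convexHull (range x)
  simp only [AffineEquiv.coe_toAffineMap] at this
  rw [← this]
  congr 1; ext z; simp [sub_eq_neg_add]

/-- Recentering an inequality description at an interior point. -/
theorem exists_dualPair_sub [Finite ι] [Finite κ] [Nonempty κ] {x : ι → Fin n → ℝ}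
    {y : κ → Fin n → ℝ} {b : κ → ℝ} (h : convexHull ℝ (range x) = {z | ∀ j, y j ⬝ᵥ z ≤ b j})
    (hyb : ∀ j, y j ≠ 0 ∨ b j ≠ 0) {c : Fin n → ℝ} (hc : c ∈ interior (convexHull ℝ (range x))) :
    ∃ y' : κ → Fin n → ℝ, DualPair (fun i => x i - c) y' ∧
      ∀ i j, (x i - c) ⬝ᵥ y' j = 1 ↔ y j ⬝ᵥ x i = b j := by
  have hlt : ∀ j, 0 < b j - y j ⬝ᵥ c := fun j => sub_pos.mpr <|
    lt_of_mem_interior (fun z hz => by rw [h] at hz; exact hz j) hc (hyb j)
  refine ⟨fun j => (b j - y j ⬝ᵥ c)⁻¹ • y j, dualPair_of_eq ?_, fun i j => ?_⟩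
  · rw [hull_sub, h]
    ext z
    simp only [mem_image, mem_ofPred_eq, smul_dotProduct, smul_eq_mul]
    constructor
    · rintro ⟨z, hz, rfl⟩ j
      rw [inv_mul_le_iff₀ (hlt j), dotProduct_sub]
      linarith [hz j]
    · intro hz
      refine ⟨z + c, fun j => ?_, by simp⟩
      have := hz j
      rw [inv_mul_le_iff₀ (hlt j)] at this
      rw [dotProduct_add]; linarith
  · rw [dotProduct_smul, smul_eq_mul, inv_mul_eq_iff_eq_mul₀ (hlt j).ne', dotProduct_comm,
      dotProduct_sub]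
    constructor <;> intro h <;> linarith

theorem DualPair.exists_sub [Finite ι] [Finite κ] {x : ι → Fin n → ℝ} {y : κ → Fin n → ℝ}
    (h : DualPair x y) {c : Fin n → ℝ} (hc : c ∈ interior (convexHull ℝ (range x))) :
    ∃ y' : κ → Fin n → ℝ, DualPair (fun i => x i - c) y' ∧
      ∀ i j, (x i - c) ⬝ᵥ y' j = 1 ↔ x i ⬝ᵥ y j = 1 := by
  have := h.symm.nonempty_left
  obtain ⟨y', h1, h2⟩ := exists_dualPair_sub (b := fun _ => 1) h.1 (fun j => Or.inr one_ne_zero) hc
  exact ⟨y', h1, fun i j => by rw [h2, dotProduct_comm]⟩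

theorem nInc_comm (x : ι → Fin n → ℝ) (y : κ → Fin n → ℝ) : nInc y x = nInc x y := by
  unfold nInc
  rw [← Set.ncard_image_of_injective _ (Prod.swap_injective (α := κ) (β := ι))]
  congr 1
  ext ⟨i, j⟩
  simp [dotProduct_comm]

theorem nInc_le [Finite ι] [Finite κ] (x : ι → Fin n → ℝ) (y : κ → Fin n → ℝ) :
    nInc x y ≤ Nat.card ι * Nat.card κ := by
  unfold nInc
  rw [← Nat.card_prod, ← Set.ncard_univ]
  exact Set.ncard_le_ncard (subset_univ _)

end Pool.Agent.MP_5f4cdd_gt
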