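import Pool.Agent.MP_5f4cdd_gt.FlowDual

set_option autoImplicit false
open MeasureTheory Set
open scoped ENNReal

namespace Pool.Agent.MP_5f4cdd_gt

variable {n : ℕ}

/-- Volume as an integral of chord lengths in a direction `θ`. -/
theorem exists_chord_formula {θ : Fin n → ℝ} (hθ : θ ≠ 0) :
    ∃ (H : Type) (_ : MeasurableSpace H) (ν : Measure H) (π : H → Fin n → ℝ),
      (∀ A : Set (Fin n → ℝ), MeasurableSet A →
        Measurable fun h => volume {s : ℝ | π h + s • θ ∈ A}) ∧
      ∀ A : Set (Fin n → ℝ), MeasurableSet A →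
        volume A = ∫⁻ h, volume {s : ℝ | π h + s • θ ∈ A} ∂ν := by
  obtain ⟨i0, hi0⟩ : ∃ i, θ i ≠ 0 := by
    by_contra h; push Not at h; exact hθ (funext h)
  let φ : (Fin n → ℝ) →ₗ[ℝ] ℝ := (θ i0)⁻¹ • LinearMap.proj i0
  have hφ : φ θ = 1 := by simp [φ, hi0]
  let H := LinearMap.ker φ
  let M : (H × ℝ) →ₗ[ℝ] (Fin n → ℝ) := H.subtype.coprod (LinearMap.toSpanSingleton ℝ _ θ)
  have hM : ∀ p : H × ℝ, M p = p.1.1 + p.2 • θ := fun p => by simp [M]
  have hbij : Function.Bijective M := by
    constructor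
    · rw [injective_iff_map_eq_zero]
      rintro ⟨h, s⟩ hs
      rw [hM] at hs
      have h1 : φ (h.1 + s • θ) = 0 := by rw [hs, map_zero]
      have h2 : φ h.1 = 0 := h.2
      rw [map_add, map_smul, h2, hφ] at h1
      have hs0 : s = 0 := by simpa using h1
      subst hs0
      have : h = 0 := by ext1; simpa using hs
      simp [this]
    · intro z
      refine ⟨(⟨z - φ z • θ, ?_⟩, φ z), ?_⟩
      · simp [H, hφ]
      · rw [hM]; simp
  let L : (H × ℝ) ≃L[ℝ] (Fin n → ℝ) := (LinearEquiv.ofBijective M hbij).toContinuousLinearEquiv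
  have hL : ∀ p : H × ℝ, L p = p.1.1 + p.2 • θ := hM
  let ν0 : Measure H := (Module.finBasis ℝ H).addHaar
  let μ : Measure (Fin n → ℝ) := Measure.map L (ν0.prod volume)
  have : μ.IsAddHaarMeasure := L.isAddHaarMeasure_map _
  have hvol : (volume : Measure (Fin n → ℝ)) = Measure.addHaarScalarFactor volume μ • μ :=
    Measure.isAddLeftInvariant_eq_smul _ _
  have hLm : Measurable L := L.continuous.measurable
  refine ⟨H, inferInstance, Measure.addHaarScalarFactor volume μ • ν0, fun h => h.1, ?_, ?_⟩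
  · intro A hA
    have := measurable_measure_prodMk_left (ν := (volume : Measure ℝ)) (hLm hA)
    convert this using 3 with h
    ext s
    simp [hL]
  · intro A hA
    conv_lhs => rw [hvol]
    rw [lintegral_smul_measure, Measure.smul_apply, Measure.map_apply hLm hA,
      Measure.prod_apply (hLm hA)]
    congr 1

theorem volume_eq_of_chords {θ : Fin n → ℝ} (hθ : θ ≠ 0) {A B C : Set (Fin n → ℝ)}
    (hA : MeasurableSet A) (hB : MeasurableSet B) (hC : MeasurableSet C) (p q : ℝ≥0∞)
    (h : ∀ z, volume {s : ℝ | z + s • θ ∈ C} =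
      p * volume {s : ℝ | z + s • θ ∈ A} + q * volume {s : ℝ | z + s • θ ∈ B}) :
    volume C = p * volume A + q * volume B := by
  obtain ⟨H, _, ν, π, hm, hf⟩ := exists_chord_formula hθ
  rw [hf A hA, hf B hB, hf C hC, ← lintegral_const_mul _ (hm A hA),
    ← lintegral_const_mul _ (hm B hB), ← lintegral_add_left ((hm A hA).const_mul _)]
  exact lintegral_congr fun z => h _

end Pool.Agent.MP_5f4cdd_gt
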