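import Pool.Agent.MP_5f4cdd_gt.FlowCount

set_option autoImplicit false
open Set Filter Topology

namespace Pool.Agent.MP_5f4cdd_gt

variable {ι κ : Type} {n : ℕ}

theorem simplex_of_affineIndep {p : Fin (n + 1) → Fin n → ℝ}
    (hint : (interior (convexHull ℝ (range p))).Nonempty) :
    ∃ e : AffineEquiv ℝ (Fin n → ℝ) (Fin n → ℝ), (∀ z, e z = p 0 + ∑ k, z k • (p k.succ - p 0)) ∧
      convexHull ℝ (range p) = e '' stdS n := by
  classical
  let M : Matrix (Fin n) (Fin n) ℝ := Matrix.of fun r k => p k.succ r - p 0 r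
  have hM : ∀ z : Fin n → ℝ, M.mulVec z = ∑ k, z k • (p k.succ - p 0) := fun z => by
    ext r
    simp [M, Matrix.mulVec, dotProduct, Finset.sum_apply, mul_comm]
  have hdet : M.det ≠ 0 := by
    intro h0
    obtain ⟨v, hv0, hv⟩ := Matrix.exists_vecMul_eq_zero_iff.mpr h0
    have hb : ∀ i, v ⬝ᵥ p i = v ⬝ᵥ p 0 := by
      intro i
      refine Fin.cases rfl (fun k => ?_) i
      have := congrFun hv k
      simp only [M, Matrix.vecMul, dotProduct, Matrix.of_apply, mul_sub, Finset.sum_sub_distrib,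
        Pi.zero_apply] at this
      exact sub_eq_zero.mp this
    obtain ⟨c, hc⟩ := hint
    have e1 := lt_of_mem_interior (v := v) (b := v ⬝ᵥ p 0)
      (fun z hz => dot_le_of_mem_hull (fun i => (hb i).le) hz) hc (Or.inl hv0)
    have e2 := lt_of_mem_interior (v := -v) (b := -(v ⬝ᵥ p 0))
      (fun z hz => dot_le_of_mem_hull (fun i => by simp [hb i]) hz) hc
      (Or.inl (neg_ne_zero.mpr hv0))
    rw [neg_dotProduct] at e2
    linarith
  let L : (Fin n → ℝ) ≃ₗ[ℝ] (Fin n → ℝ) :=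
    Matrix.toLinearEquiv' M (Matrix.invertibleOfIsUnitDet M (isUnit_iff_ne_zero.mpr hdet))
  have hL : ∀ z, L z = M.mulVec z := fun z => rfl
  let e : AffineEquiv ℝ (Fin n → ℝ) (Fin n → ℝ) :=
    L.toAffineEquiv.trans (AffineEquiv.constVAdd ℝ _ (p 0))
  have he : ∀ z, e z = p 0 + ∑ k, z k • (p k.succ - p 0) := fun z => by
    rw [← hM, ← hL]; rfl
  refine ⟨e, he, ?_⟩
  have key : ∀ z : Fin n → ℝ, e z = (1 - ∑ k, z k) • p 0 + ∑ k, z k • p k.succ := fun z => by
    rw [he]
    simp only [smul_sub, Finset.sum_sub_distrib, sub_smul, one_smul, Finset.sum_smul]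
    abel
  ext q
  rw [mem_hull_iff]
  constructor
  · rintro ⟨w, hw0, hw1, rfl⟩
    rw [Fin.sum_univ_succ] at hw1
    refine ⟨fun k => w k.succ, ⟨fun k => hw0 _, by linarith [hw0 0]⟩, ?_⟩
    rw [key, Fin.sum_univ_succ]
    congr 2
    linarith
  · rintro ⟨z, ⟨hz0, hz1⟩, rfl⟩
    refine ⟨Fin.cons (1 - ∑ k, z k) z, fun i => ?_, ?_, ?_⟩
    · refine Fin.cases ?_ (fun k => ?_) i
      · simpa using hz1
      · simpa using hz0 k
    · rw [Fin.sum_univ_succ]; simp
    · rw [Fin.sum_univ_succ, key]; simp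

theorem simplex_of_card_le [Fintype ι] {x : ι → Fin n → ℝ} (hc : Fintype.card ι ≤ n + 1)
    (hint : (interior (convexHull ℝ (range x))).Nonempty) :
    ∃ e : AffineEquiv ℝ (Fin n → ℝ) (Fin n → ℝ), convexHull ℝ (range x) = e '' stdS n := by
  have hι : Nonempty ι := by
    by_contra hne
    rw [not_nonempty_iff] at hne
    obtain ⟨c, hc⟩ := hint
    have := interior_subset hc
    rw [range_eq_empty, convexHull_empty] at this
    exact this
  obtain ⟨f⟩ : Nonempty (ι ↪ Fin (n + 1)) :=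
    Function.Embedding.nonempty_of_card_le (by simpa using hc)
  have hs : Function.Surjective (Function.invFun f) := Function.invFun_surjective f.injective
  have hr : range (x ∘ Function.invFun f) = range x := hs.range_comp x
  rw [← hr] at hint ⊢
  obtain ⟨e, _, he⟩ := simplex_of_affineIndep hint
  exact ⟨e, he⟩

theorem exists_extreme_repr [Finite ι] {x : ι → Fin n → ℝ} {y : κ → Fin n → ℝ}
    (h : ∀ i j, y j ⬝ᵥ x i ≤ 1) :
    ∃ ρ : ι → ι, (∀ i, x (ρ i) ∈ (convexHull ℝ (range x)).extremePoints ℝ) ∧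
      convexHull ℝ (range (x ∘ ρ)) = convexHull ℝ (range x) ∧
      ∀ i j, y j ⬝ᵥ x i = 1 → y j ⬝ᵥ x (ρ i) = 1 := by
  classical
  set Ex := (convexHull ℝ (range x)).extremePoints ℝ with hEx
  have hsub : Ex ⊆ range x := extremePoints_convexHull_subset
  have hfin : Ex.Finite := (finite_range x).subset hsub
  have hKM : convexHull ℝ Ex = convexHull ℝ (range x) := by
    rw [← closure_convexHull_extremePoints (isCompact_hull x) (convex_convexHull ℝ _)]
    exact (hfin.isCompact_convexHull ℝ).isClosed.closure_eq.symm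
  have hr : range (fun k : {k // x k ∈ Ex} => x k.1) = Ex := by
    ext z
    constructor
    · rintro ⟨k, rfl⟩; exact k.2
    · intro hz
      obtain ⟨k, rfl⟩ := hsub hz
      exact ⟨⟨k, hz⟩, rfl⟩
  have := Fintype.ofFinite {k // x k ∈ Ex}
  have hch : ∀ i, ∃ k, x k ∈ Ex ∧ (x i ∈ Ex → k = i) ∧ ∀ j, y j ⬝ᵥ x i = 1 → y j ⬝ᵥ x k = 1 := by
    intro i
    by_cases hi : x i ∈ Ex
    · exact ⟨i, hi, fun _ => rfl, fun _ h => h⟩
    · have hmem : x i ∈ convexHull ℝ (range fun k : {k // x k ∈ Ex} => x k.1) := by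
        rw [hr, hKM]; exact subset_convexHull ℝ _ (mem_range_self i)
      obtain ⟨l, hl0, hl1, hl⟩ := (mem_hull_iff _ _).mp hmem
      obtain ⟨k, hk⟩ : ∃ k, l k ≠ 0 := by
        by_contra hcon
        push Not at hcon
        simp [hcon] at hl1
      refine ⟨k.1, k.2, fun h => absurd h hi, fun j hj => ?_⟩
      exact dot_eq_of_weight_ne (x := fun k : {k // x k ∈ Ex} => x k.1) (fun k => h k.1 j) hl0 hl1
        (by rw [hl]; exact hj) k hk
  choose ρ h1 h2 h3 using hch
  refine ⟨ρ, h1, ?_, h3⟩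
  rw [← hKM]
  congr 1
  ext z
  constructor
  · rintro ⟨i, rfl⟩; exact h1 i
  · intro hz
    obtain ⟨k, rfl⟩ := hsub hz
    exact ⟨k, by simp [h2 k hz]⟩

theorem DualPair.of_hull_eq {ι' : Type} {x : ι → Fin n → ℝ} {y : κ → Fin n → ℝ}
    {x' : ι' → Fin n → ℝ} (h : DualPair x y)
    (hx : convexHull ℝ (range x') = convexHull ℝ (range x)) : DualPair x' y := by
  refine ⟨hx.trans h.1, ?_⟩
  rw [← h.polar_eq, ← hx]
  ext w
  constructor
  · intro hw i
    exact hw _ (subset_convexHull ℝ _ (mem_range_self i))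
  · intro hw z hz
    rw [dotProduct_comm]
    exact dot_le_of_mem_hull (fun i => by rw [dotProduct_comm]; exact hw i) hz

theorem exists_extreme_pair [Finite ι] [Finite κ] {x : ι → Fin n → ℝ} {y : κ → Fin n → ℝ}
    (h : DualPair x y) :
    ∃ (x' : ι → Fin n → ℝ) (y' : κ → Fin n → ℝ), DualPair x' y' ∧
      convexHull ℝ (range x') = convexHull ℝ (range x) ∧
      convexHull ℝ (range y') = convexHull ℝ (range y) ∧ nInc x y ≤ nInc x' y' ∧
      (∀ i, x' i ∈ (convexHull ℝ (range x')).extremePoints ℝ) ∧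
      (∀ j, y' j ∈ (convexHull ℝ (range y')).extremePoints ℝ) := by
  obtain ⟨ρ, r1, r2, r3⟩ := exists_extreme_repr h.dot_le
  have h' : DualPair (x ∘ ρ) y := h.of_hull_eq r2
  obtain ⟨σ, s1, s2, s3⟩ := exists_extreme_repr h'.symm.dot_le
  refine ⟨x ∘ ρ, y ∘ σ, (h'.symm.of_hull_eq s2).symm, r2, s2, ?_, fun i => r2 ▸ r1 i,
    fun j => s2 ▸ s1 j⟩
  unfold nInc
  refine Set.ncard_le_ncard (fun p hp => ?_)
  refine s3 p.2 p.1 ?_
  rw [dotProduct_comm]
  refine r3 p.1 p.2 ?_
  rw [dotProduct_comm]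
  exact hp

/-- A three-dimensional polytope is a simplex, or it or its polar body has a useful flow. -/
theorem flow_or_simplex [Finite ι] [Finite κ] {x : ι → Fin 3 → ℝ} {y : κ → Fin 3 → ℝ}
    (h : DualPair x y) :
    (∃ e : AffineEquiv ℝ (Fin 3 → ℝ) (Fin 3 → ℝ), convexHull ℝ (range x) = e '' stdS 3) ∨
      HasFlow x y ∨ HasFlow y x := by
  obtain ⟨x', y', h', hx, hy, hinc, ex, ey⟩ := exists_extreme_pair h
  by_cases f1 : HasFlow x' y'
  · exact Or.inr (Or.inl (f1.mono hx hinc))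
  by_cases f2 : HasFlow y' x'
  · exact Or.inr (Or.inr (f2.mono hy (by rwa [nInc_comm, nInc_comm x' y'])))
  left
  have r1 := rigid_of_not_hasFlow h' f1
  have r2 := rigid_of_not_hasFlow h'.symm f2
  have := (finite_range x').fintype
  have := (finite_range y').fintype
  have e1 : range (Subtype.val : range x' → Fin 3 → ℝ) = range x' := Subtype.range_coe
  have e2 : range (Subtype.val : range y' → Fin 3 → ℝ) = range y' := Subtype.range_coe
  have hd : DualPair (Subtype.val : range x' → Fin 3 → ℝ) (Subtype.val : range y' → Fin 3 → ℝ) :=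
    ((h'.of_hull_eq (by rw [e1])).symm.of_hull_eq (by rw [e2])).symm
  have hc := card_le_four hd Subtype.val_injective Subtype.val_injective
    (by rintro ⟨_, i, rfl⟩; rw [e1]; exact ex i) (by rintro ⟨_, j, rfl⟩; rw [e2]; exact ey j)
    (Rigid.of_comp (f := rangeFactorization x') (g := rangeFactorization y')
      rangeFactorization_surjective r1)
    (Rigid.of_comp (f := rangeFactorization y') (g := rangeFactorization x')
      rangeFactorization_surjective r2)
  obtain ⟨e, he⟩ := simplex_of_card_le (n := 3) hc ⟨0, hd.zero_mem_interior⟩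
  exact ⟨e, by rw [← hx, ← he, e1]⟩

/-- Abstract descent: a family of dual pairs in which every useful flow (of the pair or of the
swapped pair) leads to a member with more incidences contains a simplex. -/
theorem exists_simplex_of_descent [Finite ι] [Finite κ]
    (G : (ι → Fin 3 → ℝ) → (κ → Fin 3 → ℝ) → Prop) (hG : ∀ x y, G x y → DualPair x y)
    (hstep : ∀ x y, G x y → HasFlow x y ∨ HasFlow y x →
      ∃ x' y', G x' y' ∧ nInc x y < nInc x' y')
    {x : ι → Fin 3 → ℝ} {y : κ → Fin 3 → ℝ} (h : G x y) :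
    ∃ x' y', G x' y' ∧ ∃ e : AffineEquiv ℝ (Fin 3 → ℝ) (Fin 3 → ℝ),
      convexHull ℝ (range x') = e '' stdS 3 := by
  obtain ⟨p, hp, hmax⟩ := Set.Finite.exists_maximalFor' (fun p : (ι → Fin 3 → ℝ) × (κ → Fin 3 → ℝ)
    => nInc p.1 p.2) {p | G p.1 p.2}
    ((finite_le_nat (Nat.card ι * Nat.card κ)).subset (by
      rintro _ ⟨p, _, rfl⟩; exact nInc_le _ _)) ⟨(x, y), h⟩
  refine ⟨p.1, p.2, hp, ?_⟩
  rcases flow_or_simplex (hG _ _ hp) with hs | hf
  · exact hs
  · obtain ⟨x', y', h1, h2⟩ := hstep _ _ hp hf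
    exact absurd (hmax (j := (x', y')) h1 h2.le) (not_le.mpr h2)

end Pool.Agent.MP_5f4cdd_gt
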