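import Pool.Agent.MP_5f4cdd_gt.Corr

set_option autoImplicit false
open MeasureTheory ENNReal Set Matrix Topology

namespace Pool.Agent.MP_5f4cdd_gt

variable {m : ℕ}

lemma lintegral_radial' {h : E (m + 1) → ℝ≥0∞} (hh : Measurable h) :
    ∫⁻ z, h z = ∑ j, kap (m + 1) * ∫⁻ l, (∫⁻ s in Ioi (0 : ℝ),
      ENNReal.ofReal (s ^ m) * h (s • Pj (m + 1) j l)) ∂mu m := by
  rw [lintegral_radial hh]
  refine Finset.sum_congr rfl fun j _ => ?_
  congr 1
  have hm : Measurable fun q : ℝ × E (m + 1) => h (q.1 • Pj (m + 1) j q.2) :=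
    hh.comp (measurable_fst.smul ((measurable_lin _).comp measurable_snd))
  rw [← lintegral_lintegral_swap]
  · refine lintegral_congr fun s => ?_
    rw [lintegral_const_mul' _ _ ENNReal.ofReal_ne_top]
  · apply Measurable.aemeasurable
    exact Measurable.mul (f := fun q : ℝ × E (m + 1) => ENNReal.ofReal (q.1 ^ m)) (by fun_prop) hm

/-- the properties of the dual potential that the geometric part uses -/
structure Nice (m : ℕ) (R : ℝ) (Φ : E (m + 1) → ℝ) : Prop where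
  hR : 1 < R
  meas : Measurable Φ
  cont : ContinuousOn Φ (cS (m + 1) R)
  pos : ∀ z, z ∈ cS (m + 1) R → 0 < Φ z
  symm : ∀ σ z, Φ (Tp σ z) = Φ z
  sconv : StrictConvexOn ℝ (cS (m + 1) 1) Φ

lemma Pj_mem {k : ℕ} (j : Fin (k + 1)) {l : E k} (hl : l ∈ stdSimplex ℝ (Fin k)) :
    Pj k j l ∈ cS k 1 := by
  have := (smul_Pj_mem_cS j hl (s := 1) (r := 1) zero_le_one).2 le_rfl
  simpa using this

lemma A0_mem {k : ℕ} {l : E k} (hl : l ∈ stdSimplex ℝ (Fin k)) : A0 k l ∈ cS k 1 :=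
  (Tp_mem_cS (Equiv.swap 0 0)).1 (Pj_mem 0 hl)

lemma A0_perm {k : ℕ} (σ : Equiv.Perm (Fin k)) (l : E k) :
    A0 k (l ∘ σ) = Tp (Equiv.Perm.decomposeFin.symm (0, σ)) (A0 k l) := by
  apply bet_injective
  rw [bet_Tp, bet_A0, bet_A0]
  have : ∑ i, (l ∘ σ) i = ∑ i, l i := Equiv.sum_comp σ l
  rw [this]
  ext j
  refine Fin.cases ?_ (fun i => ?_) j
  · simp
  · simp

variable {R : ℝ} {Φ : E (m + 1) → ℝ}

lemma Nice.good (h : Nice m R Φ) : Good fun l => Φ (A0 (m + 1) l) := by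
  refine ⟨h.meas.comp (measurable_lin _), ⟨convex_stdSimplex ℝ _, ?_⟩, ?_⟩
  · intro x hx y hy a b ha hb hab
    simp only [map_add, map_smul]
    exact h.sconv.convexOn.2 (A0_mem hx) (A0_mem hy) ha hb hab
  · intro σ x _
    rw [A0_perm, h.symm]

lemma Nice.strict (h : Nice m R Φ) {x : E (m + 1)} (hx : x ∈ stdSimplex ℝ (Fin (m + 1)))
    (hne : x ≠ uu m) :
    StrictMonoOn (fun t : ℝ => Φ (A0 (m + 1) (uu m + t • (x - uu m)))) (Icc 0 1) := by
  have key : ∀ s r : ℝ, 0 < s → s < r → r ≤ 1 →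
      Φ (A0 (m + 1) (uu m + s • (x - uu m))) < Φ (A0 (m + 1) (uu m + r • (x - uu m))) := by
    intro s r hs hsr hr1
    have hr : 0 < r := hs.trans hsr
    have h1 : s / r < 1 := (div_lt_one hr).2 hsr
    have hne' : A0 (m + 1) (uu m) ≠ A0 (m + 1) (uu m + r • (x - uu m)) := by
      intro he
      have := A0_injective he
      rw [left_eq_add, smul_eq_zero, sub_eq_zero] at this
      rcases this with h | h
      · exact hr.ne' h
      · exact hne h
    have h2 := h.sconv.2 (A0_mem uu_mem) (A0_mem (ray_mem hx hr.le hr1)) hne'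
      (show 0 < 1 - s / r by linarith) (show 0 < s / r by positivity) (by ring)
    rw [← map_smul, ← map_smul, ← map_add, ← ray_split hr] at h2
    have h3 := h.good.min (ray_mem hx hr.le hr1)
    simp only [smul_eq_mul] at h2 h3
    nlinarith
  intro s hs r hr hsr
  rcases hs.1.eq_or_lt with h0 | h0
  · have h1 := key (r / 2) r (by linarith) (by linarith) hr.2
    have h2 := h.good.ray_mono hx hs.1 (show s ≤ r / 2 by linarith) (by linarith [hr.2])
    exact lt_of_le_of_lt h2 h1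
  · exact key s r h0 hsr hr.2

lemma Nice.unif (h : Nice m R Φ) {η : ℝ} (hη : 0 < η) :
    ∃ δ : ℝ, 0 < δ ∧ δ < 1 ∧ 1 + δ ≤ R ∧ ∀ z ∈ cS (m + 1) 1, ∀ s : ℝ, |s - 1| ≤ δ →
      |Φ (s • z) - Φ z| ≤ η := by
  have hR := h.hR
  have hu := (isCompact_cS (n := m + 1) (r := R) (by linarith)).uniformContinuousOn_of_continuous
    h.cont
  obtain ⟨d, hd, hd'⟩ := Metric.uniformContinuousOn_iff_le.1 hu η hη
  refine ⟨min d (min (1 / 2) (R - 1)), by simp [hd, hR], ?_, ?_, fun z hz s hs => ?_⟩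
  · exact (min_le_right _ _).trans_lt ((min_le_left _ _).trans_lt (by norm_num))
  · have := (min_le_right d _).trans (min_le_right (1 / 2) (R - 1)); linarith
  · have h1 : |s - 1| ≤ d := hs.trans (min_le_left _ _)
    have h2 : |s - 1| ≤ 1 / 2 := hs.trans ((min_le_right _ _).trans (min_le_left _ _))
    have h3 : |s - 1| ≤ R - 1 := hs.trans ((min_le_right _ _).trans (min_le_right _ _))
    have hs0 : 0 < s := by linarith [(abs_le.1 h2).1]
    have hsz : s • z ∈ cS (m + 1) R :=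
      cS_mono (by linarith [(abs_le.1 h3).2]) ((smul_mem_cS hs0).2 hz)
    have := hd' _ hsz _ (cS_mono hR.le hz) (by
      rw [dist_eq_norm]
      have : s • z - z = (s - 1) • z := by rw [sub_smul, one_smul]
      rw [this, norm_smul, Real.norm_eq_abs]
      have := norm_le_of_mem_cS zero_le_one hz
      nlinarith [abs_nonneg (s - 1), norm_nonneg z])
    rwa [Real.dist_eq] at this

lemma Nice.Pj (h : Nice m R Φ) (j : Fin (m + 2)) (l : E (m + 1)) :
    Φ (Pj (m + 1) j l) = Φ (A0 (m + 1) l) := h.symm (Equiv.swap 0 j) (A0 (m + 1) l)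

lemma Nice.F_ne_top (h : Nice m R Φ) :
    ∫⁻ l, ENNReal.ofReal (Φ (A0 (m + 1) l)) ∂mu m ≠ ∞ := by
  obtain ⟨B, hB⟩ := (isCompact_cS (n := m + 1) (r := R) (by linarith [h.hR])).bddAbove_image h.cont
  have : ∫⁻ l, ENNReal.ofReal (Φ (A0 (m + 1) l)) ∂mu m ≤ ∫⁻ _l, ENNReal.ofReal B ∂mu m := by
    refine lintegral_mono_ae ?_
    filter_upwards [ae_mu] with l hl
    exact ENNReal.ofReal_le_ofReal (hB ⟨_, cS_mono h.hR.le (A0_mem hl), rfl⟩)
  refine ne_top_of_le_ne_top ?_ this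
  rw [lintegral_const]; finiteness

/-- outer shells: the mean of `Φ` is close to the facet mean -/
lemma Nice.shell (h : Nice m R Φ) {η : ℝ} (hη : 0 < η) :
    ∃ r₀ : ℝ, 1 < r₀ ∧ r₀ ≤ R ∧ ∀ r, 1 < r → r ≤ r₀ →
      mu m univ * ∫⁻ z in cS (m + 1) r \ cS (m + 1) 1, ENNReal.ofReal (Φ z) ≤
      ((∫⁻ l, ENNReal.ofReal (Φ (A0 (m + 1) l)) ∂mu m) + ENNReal.ofReal η * mu m univ) *
        volume (cS (m + 1) r \ cS (m + 1) 1) := by
  obtain ⟨δ, hδ0, -, hδR, hδ⟩ := h.unif hη
  refine ⟨1 + δ, by linarith, hδR, fun r hr1 hr2 => ?_⟩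
  set D := cS (m + 1) r \ cS (m + 1) 1 with hD
  have hDm : MeasurableSet D := (measurableSet_cS r).diff (measurableSet_cS 1)
  have hmem : ∀ (j : Fin (m + 2)) (l : E (m + 1)), l ∈ stdSimplex ℝ (Fin (m + 1)) → ∀ s : ℝ, 0 < s →
      (s • Pool.Agent.MP_5f4cdd_gt.Pj (m + 1) j l ∈ D ↔ s ∈ Ioc 1 r) := by
    intro j l hl s hs
    simp only [hD, mem_sdiff, smul_Pj_mem_cS j hl hs.le, mem_Ioc, not_le]
    tauto
  set w : ℝ≥0∞ := ∫⁻ s in Ioi (0 : ℝ), ENNReal.ofReal (s ^ m) * (Ioc 1 r).indicator 1 s with hw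
  have hvol : volume D = ∑ _j : Fin (m + 2), kap (m + 1) * (w * mu m univ) := by
    rw [← lintegral_indicator_one hDm, lintegral_radial' (measurable_one.indicator hDm)]
    refine Finset.sum_congr rfl fun j _ => ?_
    congr 1
    rw [← lintegral_const]
    refine lintegral_congr_ae ?_
    filter_upwards [ae_mu] with l hl
    refine setLIntegral_congr_fun measurableSet_Ioi fun s hs => ?_
    congr 1
    by_cases hs' : s ∈ Ioc 1 r
    · rw [indicator_of_mem hs', indicator_of_mem ((hmem j l hl s hs).2 hs')]; rfl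
    · rw [indicator_of_notMem hs', indicator_of_notMem (fun h => hs' ((hmem j l hl s hs).1 h))]
  rw [hvol, ← lintegral_indicator hDm,
    lintegral_radial' (h.meas.ennreal_ofReal.indicator hDm), Finset.mul_sum, Finset.mul_sum]
  refine Finset.sum_le_sum fun j _ => ?_
  have key : ∫⁻ l, (∫⁻ s in Ioi (0 : ℝ), ENNReal.ofReal (s ^ m) *
      D.indicator (fun x => ENNReal.ofReal (Φ x)) (s • Pool.Agent.MP_5f4cdd_gt.Pj (m + 1) j l)) ∂mu m ≤
      ∫⁻ l, (ENNReal.ofReal (Φ (A0 (m + 1) l)) + ENNReal.ofReal η) * w ∂mu m := by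
    refine lintegral_mono_ae ?_
    filter_upwards [ae_mu] with l hl
    rw [hw, ← lintegral_const_mul' _ _ (by finiteness)]
    refine setLIntegral_mono' measurableSet_Ioi fun s hs => ?_
    by_cases hs' : s ∈ Ioc 1 r
    · rw [indicator_of_mem hs', indicator_of_mem ((hmem j l hl s hs).2 hs'), Pi.one_apply, mul_one,
        mul_comm]
      gcongr
      have h1 := hδ _ (Pj_mem j hl) s (abs_le.2 ⟨by linarith [hs'.1], by linarith [hs'.2]⟩)
      rw [h.Pj] at h1
      exact (ENNReal.ofReal_le_ofReal (by linarith [(abs_le.1 h1).2])).trans ENNReal.ofReal_add_le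
    · rw [indicator_of_notMem (fun h => hs' ((hmem j l hl s hs).1 h))]; simp
  rw [lintegral_mul_const _ (by have := h.good.meas.ennreal_ofReal; fun_prop),
    lintegral_add_right _ measurable_const, lintegral_const] at key
  calc _ ≤ mu m univ * (kap (m + 1) * (_ * w)) := by gcongr
    _ = _ := by ring

lemma convexOn_gauge {k : ℕ} {K : Set (E k)} (hK : Convex ℝ K) (h0 : K ∈ 𝓝 (0 : E k)) :
    ConvexOn ℝ univ (gauge K) := by
  refine ⟨convex_univ, fun x _ y _ a b ha hb _ => ?_⟩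
  have := gauge_add_le hK (absorbent_nhds_zero h0) (a • x) (b • y)
  rwa [gauge_smul_of_nonneg ha, gauge_smul_of_nonneg hb] at this

lemma cS_mem_nhds {k : ℕ} {r : ℝ} (hr : 0 < r) : cS k r ∈ 𝓝 (0 : E k) :=
  Filter.mem_of_superset (Metric.closedBall_mem_nhds (0 : E k) (ε := r / (k + 1) ^ 2)
    (by positivity)) fun z hz => mem_cS_of_norm_le (by simpa using hz)

/-- the key local inequality -/
lemma Nice.deficit (h : Nice m R Φ) :
    ∃ κ δ : ℝ, 0 < κ ∧ 0 < δ ∧ δ < 1 ∧ ∀ K : Set (E (m + 1)), Convex ℝ K → IsClosed K →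
      cS (m + 1) (1 - δ) ⊆ K → K ⊆ cS (m + 1) 1 →
      (∀ j, Pool.Agent.MP_5f4cdd_gt.Pj (m + 1) j (uu m) ∈ K) →
      ((∫⁻ l, ENNReal.ofReal (Φ (A0 (m + 1) l)) ∂mu m) + ENNReal.ofReal κ) *
        volume (cS (m + 1) 1 \ K) ≤
      mu m univ * ∫⁻ z in cS (m + 1) 1 \ K, ENNReal.ofReal (Φ z) := by
  obtain ⟨κ₀, hκ₀, hcorr⟩ := strict_corr m _ h.good
    (by
      obtain ⟨B, hB⟩ :=
        (isCompact_cS (n := m + 1) (r := R) (by linarith [h.hR])).bddAbove_image h.cont
      exact ⟨B, fun x hx => hB ⟨_, cS_mono h.hR.le (A0_mem hx), rfl⟩⟩)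
    (fun x hx => h.pos _ (cS_mono h.hR.le (A0_mem hx))) (fun x hx hne => h.strict hx hne)
  set F := ∫⁻ l, ENNReal.ofReal (Φ (A0 (m + 1) l)) ∂mu m with hF
  have hFt : F ≠ ∞ := h.F_ne_top
  set V := mu m univ with hV
  have hVt : V ≠ ∞ := measure_ne_top _ _
  have hV0 : 0 < V.toReal := ENNReal.toReal_pos mu_univ_pos.ne' hVt
  have hF0 : 0 ≤ F.toReal := ENNReal.toReal_nonneg
  obtain ⟨δ₁, hδ₁0, hδ₁1, -, hδ₁⟩ := h.unif (η := κ₀ / (3 * V.toReal)) (by positivity)
  set η := κ₀ / (3 * V.toReal) with hη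
  set δ := min δ₁ (κ₀ / (3 * (m + 1) * (F.toReal + κ₀))) with hδ
  have hδ0 : 0 < δ := lt_min hδ₁0 (by positivity)
  have hδle : δ ≤ δ₁ := min_le_left _ _
  have hδ1 : δ < 1 := hδle.trans_lt hδ₁1
  have hnum : F.toReal + κ₀ / 3 + η * V.toReal ≤ (1 - δ) ^ (m + 1) * (F.toReal + κ₀) := by
    have h1 : 1 + ((m + 1 : ℕ) : ℝ) * (-δ) ≤ (1 + -δ) ^ (m + 1) :=
      one_add_mul_le_pow (by linarith) _
    have h2 : δ ≤ κ₀ / (3 * (m + 1) * (F.toReal + κ₀)) := min_le_right _ _
    rw [le_div_iff₀ (by positivity)] at h2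
    have h3 : η * V.toReal = κ₀ / 3 := by rw [hη]; field_simp
    rw [h3, sub_eq_add_neg]
    push_cast at h1
    nlinarith [mul_le_mul_of_nonneg_right h1 (show 0 ≤ F.toReal + κ₀ by positivity)]
  refine ⟨κ₀ / 3, δ, by positivity, hδ0, hδ1, fun K hKc hKcl hK1 hK2 hKcen => ?_⟩
  have hK0 : K ∈ 𝓝 (0 : E (m + 1)) := Filter.mem_of_superset (cS_mem_nhds (by linarith)) hK1
  have hmemK : ∀ x, x ∈ K ↔ gauge K x ≤ 1 := fun x => by
    rw [gauge_le_one_iff_mem_closure hKc hK0, hKcl.closure_eq]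
  set D := cS (m + 1) 1 \ K with hD
  have hDm : MeasurableSet D := (measurableSet_cS 1).diff hKcl.measurableSet
  set g : Fin (m + 2) → E (m + 1) → ℝ :=
    fun j l => gauge K (Pool.Agent.MP_5f4cdd_gt.Pj (m + 1) j l) with hg
  have hg1 : ∀ j, ∀ l ∈ stdSimplex ℝ (Fin (m + 1)), 1 ≤ g j l := by
    intro j l hl
    by_contra hc
    push Not at hc
    have h0 : 0 ≤ g j l := gauge_nonneg _
    have h1 : (2 / (1 + g j l)) • Pool.Agent.MP_5f4cdd_gt.Pj (m + 1) j l ∈ K := by
      rw [hmemK, gauge_smul_of_nonneg (by positivity), smul_eq_mul, div_mul_eq_mul_div,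
        div_le_one (by positivity)]
      change 2 * g j l ≤ _
      linarith
    have h2 := (smul_Pj_mem_cS j hl (by positivity)).1 (hK2 h1)
    rw [div_le_one (by positivity)] at h2
    linarith
  have hg2 : ∀ j, ∀ l ∈ stdSimplex ℝ (Fin (m + 1)), (1 - δ) * g j l ≤ 1 := by
    intro j l hl
    have h1 := hK1 ((smul_Pj_mem_cS j hl (s := 1 - δ) (by linarith)).2 le_rfl)
    rwa [hmemK, gauge_smul_of_nonneg (by linarith), smul_eq_mul] at h1
  have hmem : ∀ (j : Fin (m + 2)) (l : E (m + 1)), l ∈ stdSimplex ℝ (Fin (m + 1)) → ∀ s : ℝ, 0 < s →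
      (s • Pool.Agent.MP_5f4cdd_gt.Pj (m + 1) j l ∈ D ↔ s ∈ Ioc (g j l)⁻¹ 1) := by
    intro j l hl s hs
    have h0 : 0 < g j l := lt_of_lt_of_le one_pos (hg1 j l hl)
    simp only [hD, mem_sdiff, smul_Pj_mem_cS j hl hs.le, mem_Ioc, hmemK, not_le,
      gauge_smul_of_nonneg hs.le, smul_eq_mul]
    rw [inv_lt_iff_one_lt_mul₀ h0]
    tauto
  set ℓ : Fin (m + 2) → E (m + 1) → ℝ≥0∞ := fun j l => ∫⁻ s in Ioi (0 : ℝ),
    ENNReal.ofReal (s ^ m) * D.indicator 1 (s • Pool.Agent.MP_5f4cdd_gt.Pj (m + 1) j l) with hℓ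
  have hvol : volume D = ∑ j, kap (m + 1) * ∫⁻ l, ℓ j l ∂mu m := by
    rw [← lintegral_indicator_one hDm, lintegral_radial' (measurable_one.indicator hDm)]
  have hℓ1 : ∀ j, ∀ l ∈ stdSimplex ℝ (Fin (m + 1)), ℓ j l ≤ ENNReal.ofReal (g j l - 1) := by
    intro j l hl
    have h1 := hg1 j l hl
    calc ℓ j l ≤ ∫⁻ s in Ioi (0 : ℝ), (Ioc (g j l)⁻¹ 1).indicator 1 s := by
          refine setLIntegral_mono' measurableSet_Ioi fun s hs => ?_
          by_cases hs' : s ∈ Ioc (g j l)⁻¹ 1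
          · rw [indicator_of_mem hs', indicator_of_mem ((hmem j l hl s hs).2 hs')]
            simpa using pow_le_one₀ (le_of_lt hs) hs'.2
          · rw [indicator_of_notMem (fun h => hs' ((hmem j l hl s hs).1 h))]; simp
      _ ≤ ∫⁻ s, (Ioc (g j l)⁻¹ 1).indicator 1 s := setLIntegral_le_lintegral _ _
      _ = ENNReal.ofReal (1 - (g j l)⁻¹) := by
          rw [lintegral_indicator_one measurableSet_Ioc, Real.volume_Ioc]
      _ ≤ _ := by
          refine ENNReal.ofReal_le_ofReal ?_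
          have h2 : (g j l)⁻¹ * g j l = 1 := inv_mul_cancel₀ (by linarith)
          have h3 : 0 < (g j l)⁻¹ := by positivity
          nlinarith [sq_nonneg (g j l - 1), mul_nonneg h3.le (sq_nonneg (g j l - 1))]
  have hinv : ∀ j, ∀ l ∈ stdSimplex ℝ (Fin (m + 1)), 1 - δ ≤ (g j l)⁻¹ := by
    intro j l hl
    have h0 : 0 < g j l := lt_of_lt_of_le one_pos (hg1 j l hl)
    rw [le_inv_comm₀ (by linarith) h0, ← one_div, le_div_iff₀ (by linarith), mul_comm]
    exact hg2 j l hl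
  have hℓ2 : ∀ j, ∀ l ∈ stdSimplex ℝ (Fin (m + 1)),
      ENNReal.ofReal ((1 - δ) ^ (m + 1)) * ENNReal.ofReal (g j l - 1) ≤ ℓ j l := by
    intro j l hl
    have h1 := hg1 j l hl
    have h0 : 0 < g j l := lt_of_lt_of_le one_pos h1
    have h4 := hinv j l hl
    have hsub : Ioc (g j l)⁻¹ 1 ⊆ Ioi 0 := fun s hs => lt_trans (by positivity) hs.1
    calc _ ≤ ENNReal.ofReal ((1 - δ) ^ m) * ENNReal.ofReal (1 - (g j l)⁻¹) := by
          rw [← ENNReal.ofReal_mul (pow_nonneg (by linarith) _),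
            ← ENNReal.ofReal_mul (pow_nonneg (by linarith) _), pow_succ, mul_assoc]
          refine ENNReal.ofReal_le_ofReal (mul_le_mul_of_nonneg_left ?_ (pow_nonneg (by linarith) _))
          have h2 : (g j l)⁻¹ * g j l = 1 := inv_mul_cancel₀ h0.ne'
          nlinarith [mul_le_mul_of_nonneg_right h4 (sub_nonneg.2 h1)]
      _ = ∫⁻ _s in Ioc (g j l)⁻¹ 1, ENNReal.ofReal ((1 - δ) ^ m) := by
          rw [setLIntegral_const, Real.volume_Ioc]
      _ ≤ ∫⁻ s in Ioc (g j l)⁻¹ 1, ENNReal.ofReal (s ^ m) *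
            D.indicator 1 (s • Pool.Agent.MP_5f4cdd_gt.Pj (m + 1) j l) := by
          refine setLIntegral_mono' measurableSet_Ioc fun s hs => ?_
          rw [indicator_of_mem ((hmem j l hl s (hsub hs)).2 hs), Pi.one_apply, mul_one]
          exact ENNReal.ofReal_le_ofReal (pow_le_pow_left₀ (by linarith) (h4.trans hs.1.le) _)
      _ ≤ ℓ j l := lintegral_mono_set hsub
  have hℓm : ∀ j, Measurable (ℓ j) := by
    intro j
    refine Measurable.lintegral_prod_right' (f := fun q : E (m + 1) × ℝ => ENNReal.ofReal (q.2 ^ m) *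
      D.indicator 1 (q.2 • Pool.Agent.MP_5f4cdd_gt.Pj (m + 1) j q.1)) ?_
    exact Measurable.mul (f := fun q : E (m + 1) × ℝ => ENNReal.ofReal (q.2 ^ m)) (by fun_prop)
      ((measurable_one.indicator hDm).comp
        (measurable_snd.smul ((measurable_lin _).comp measurable_fst)))
  have hvt : volume D ≠ ∞ :=
    ne_top_of_le_ne_top (volume_cS_lt_top zero_le_one).ne (measure_mono sdiff_subset)
  have main : ENNReal.ofReal ((1 - δ) ^ (m + 1)) * (F + ENNReal.ofReal κ₀) * volume D ≤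
      V * (∫⁻ z in D, ENNReal.ofReal (Φ z)) + ENNReal.ofReal η * V * volume D := by
    rw [hvol, ← lintegral_indicator hDm,
      lintegral_radial' (h.meas.ennreal_ofReal.indicator hDm), Finset.mul_sum, Finset.mul_sum,
      Finset.mul_sum, ← Finset.sum_add_distrib]
    refine Finset.sum_le_sum fun j _ => ?_
    have hgm : Measurable fun l => g j l - 1 :=
      (((continuous_gauge hKc hK0).measurable).comp (measurable_lin _)).sub_const 1
    have c1 := hcorr (fun l => g j l - 1) hgm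
      (by
        refine ⟨convex_stdSimplex ℝ _, fun x _ y _ a b ha hb hab => ?_⟩
        have := (convexOn_gauge hKc hK0).2 (mem_univ (Pool.Agent.MP_5f4cdd_gt.Pj (m + 1) j x))
          (mem_univ (Pool.Agent.MP_5f4cdd_gt.Pj (m + 1) j y)) ha hb hab
        simp only [hg, map_add, map_smul, smul_eq_mul] at this ⊢
        nlinarith)
      (fun x hx => sub_nonneg.2 (hg1 j x hx))
      (sub_eq_zero.2 (le_antisymm ((hmemK _).1 (hKcen j)) (hg1 j _ uu_mem)))
    have c2 : ∫⁻ l, ℓ j l ∂mu m ≤ ∫⁻ l, ENNReal.ofReal (g j l - 1) ∂mu m := by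
      refine lintegral_mono_ae ?_
      filter_upwards [ae_mu] with l hl using hℓ1 j l hl
    have c3 : ENNReal.ofReal ((1 - δ) ^ (m + 1)) *
        ∫⁻ l, ENNReal.ofReal (Φ (A0 (m + 1) l)) * ENNReal.ofReal (g j l - 1) ∂mu m ≤
        (∫⁻ l, (∫⁻ s in Ioi (0 : ℝ), ENNReal.ofReal (s ^ m) *
          D.indicator (fun x => ENNReal.ofReal (Φ x))
            (s • Pool.Agent.MP_5f4cdd_gt.Pj (m + 1) j l)) ∂mu m) +
        ENNReal.ofReal η * ∫⁻ l, ℓ j l ∂mu m := by
      rw [← lintegral_const_mul' _ _ ENNReal.ofReal_ne_top,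
        ← lintegral_const_mul' _ _ ENNReal.ofReal_ne_top,
        ← lintegral_add_right _ ((hℓm j).const_mul _)]
      refine lintegral_mono_ae ?_
      filter_upwards [ae_mu] with l hl
      calc _ = ENNReal.ofReal (Φ (A0 (m + 1) l)) *
            (ENNReal.ofReal ((1 - δ) ^ (m + 1)) * ENNReal.ofReal (g j l - 1)) := by ring
        _ ≤ ENNReal.ofReal (Φ (A0 (m + 1) l)) * ℓ j l := by gcongr; exact hℓ2 j l hl
        _ ≤ _ := by
          simp only [hℓ]
          rw [← lintegral_const_mul' _ _ ENNReal.ofReal_ne_top,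
            ← lintegral_const_mul' _ _ ENNReal.ofReal_ne_top, ← lintegral_add_right]
          · refine setLIntegral_mono' measurableSet_Ioi fun s hs => ?_
            by_cases hs' : s • Pool.Agent.MP_5f4cdd_gt.Pj (m + 1) j l ∈ D
            · rw [indicator_of_mem hs', indicator_of_mem hs', Pi.one_apply, mul_one,
                mul_comm (ENNReal.ofReal (s ^ m)), ← add_mul]
              gcongr
              have h5 := (hmem j l hl s hs).1 hs'
              have h1 := hδ₁ _ (Pj_mem j hl) s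
                (abs_le.2 ⟨by linarith [h5.1, hinv j l hl], by linarith [h5.2]⟩)
              rw [h.Pj] at h1
              exact (ENNReal.ofReal_le_ofReal (by linarith [(abs_le.1 h1).1])).trans
                ENNReal.ofReal_add_le
            · rw [indicator_of_notMem hs']; simp
          · refine Measurable.const_mul ?_ _
            exact Measurable.mul (f := fun s : ℝ => ENNReal.ofReal (s ^ m)) (by fun_prop)
              ((measurable_one.indicator hDm).comp (measurable_id.smul measurable_const))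
    calc _ ≤ ENNReal.ofReal ((1 - δ) ^ (m + 1)) * (F + ENNReal.ofReal κ₀) *
          (kap (m + 1) * ∫⁻ l, ENNReal.ofReal (g j l - 1) ∂mu m) := by gcongr
      _ = kap (m + 1) * ENNReal.ofReal ((1 - δ) ^ (m + 1)) * ((F + ENNReal.ofReal κ₀) *
          ∫⁻ l, ENNReal.ofReal (g j l - 1) ∂mu m) := by ring
      _ ≤ kap (m + 1) * ENNReal.ofReal ((1 - δ) ^ (m + 1)) * (V * _) := by gcongr
      _ = kap (m + 1) * V * (ENNReal.ofReal ((1 - δ) ^ (m + 1)) * _) := by ring
      _ ≤ kap (m + 1) * V * _ := mul_le_mul_right c3 _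
      _ = _ := by ring
  have hnum' : F + ENNReal.ofReal (κ₀ / 3) + ENNReal.ofReal η * V ≤
      ENNReal.ofReal ((1 - δ) ^ (m + 1)) * (F + ENNReal.ofReal κ₀) := by
    rw [← ENNReal.ofReal_toReal hFt, ← ENNReal.ofReal_toReal hVt,
      ← ENNReal.ofReal_mul (by positivity), ← ENNReal.ofReal_add hF0 (by positivity),
      ← ENNReal.ofReal_add (by positivity) (by positivity), ← ENNReal.ofReal_add hF0 hκ₀.le,
      ← ENNReal.ofReal_mul (pow_nonneg (by linarith) _)]
    exact ENNReal.ofReal_le_ofReal hnum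
  have fin : (F + ENNReal.ofReal (κ₀ / 3)) * volume D + ENNReal.ofReal η * V * volume D ≤
      V * (∫⁻ z in D, ENNReal.ofReal (Φ z)) + ENNReal.ofReal η * V * volume D := by
    rw [← add_mul]
    exact (mul_le_mul_left hnum' _).trans main
  exact ENNReal.le_of_add_le_add_right (by finiteness) fin

end Pool.Agent.MP_5f4cdd_gt
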