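import Pool.Agent.MP_5f4cdd_gt.DefsInf
import Pool.Agent.MP_5f4cdd_gt.Dim3Main

set_option autoImplicit false
open MeasureTheory ENNReal Pool.Agent.MP_5f4cdd_gt

namespace Pool.Agent.MP_5f4cdd_gt.KeptDim3

theorem kept : ∃ p₀ κ : ℝ, 0 < p₀ ∧ 0 < κ ∧ ∀ K : Set (Fin 3 → ℝ),
    Convex ℝ K → IsCompact K → (interior K).Nonempty →
      ∃ e : AffineEquiv ℝ (Fin 3 → ℝ) (Fin 3 → ℝ), K ⊆ e '' stdS 3 ∧
        (∀ p : ℝ, p₀ ≤ p →
          ENNReal.ofReal (1 + κ * (1 - (volume K).toReal / (volume (e '' stdS 3)).toReal)) *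
            (⨅ x ∈ stdS 3, mahler p ((fun z => z - x) '' stdS 3)) ≤ mahler p K) ∧
        ENNReal.ofReal (1 + κ * (1 - (volume K).toReal / (volume (e '' stdS 3)).toReal)) *
          (⨅ x ∈ stdS 3, mahlerInf ((fun z => z - x) '' stdS 3)) ≤ mahlerInf K :=
  dim3_main

end Pool.Agent.MP_5f4cdd_gt.KeptDim3
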