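import Pool.Agent.Mg.F5f4cdda.G4f8e1f

set_option autoImplicit false
open MeasureTheory ENNReal

namespace Pool.Agent.MP_5f4cdd_gt.KeptExpBound

theorem kept (n : ℕ) (K : Set (Fin n → ℝ)) (hc : Convex ℝ K) (hK : IsCompact K)
    (hi : (interior K).Nonempty) :
    (∀ p : ℝ, 0 < p → ENNReal.ofReal ((5 * Real.pi / 8) ^ n) ≤ volume K *
      ∫⁻ y : Fin n → ℝ, ENNReal.ofReal
        (((∫ x in K, Real.exp (p * ∑ i, x i * y i)) / (volume K).toReal) ^ (-(1 / p)))) ∧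
    ENNReal.ofReal ((5 * Real.pi / 8) ^ n) ≤ volume K *
      ∫⁻ y : Fin n → ℝ, ENNReal.ofReal
        (Real.exp (-(sSup ((fun x : Fin n → ℝ => ∑ i, x i * y i) '' K)))) := by
  have h := Pool.Agent.MP_5f4cdd_gt.T4.mahler_inf_pi n K hc hK hi
  refine ⟨fun p hp => h.trans (mul_le_mul' le_rfl (lintegral_mono fun y => ?_)), h⟩
  exact ENNReal.ofReal_le_ofReal (Pool.Agent.MP_5f4cdd_gt.T4.mahler_p_ge n K hK hi hp y)

end Pool.Agent.MP_5f4cdd_gt.KeptExpBound
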