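import Pool.Agent.MP_5f4cdd_gt.DefsInf

set_option autoImplicit false

namespace Pool.Agent.MP_5f4cdd_gt

/-- Iterated free sums and joins of compact convex sets of dimension at most two and of
polytopes with at most dimension plus two vertices. -/
inductive FreeSum {n : ℕ} : Set (Fin n → ℝ) → Prop
  | plane (K : Set (Fin n → ℝ)) : Convex ℝ K → IsCompact K →
      Module.finrank ℝ (vectorSpan ℝ K) ≤ 2 → FreeSum K
  | few (V : Finset (Fin n → ℝ)) :
      V.card ≤ Module.finrank ℝ (vectorSpan ℝ (V : Set (Fin n → ℝ))) + 2 →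
      FreeSum (convexHull ℝ (V : Set (Fin n → ℝ)))
  | sum (K L : Set (Fin n → ℝ)) : FreeSum K → FreeSum L → K.Nonempty → L.Nonempty →
      vectorSpan ℝ K ⊓ vectorSpan ℝ L = ⊥ →
      ((K ∩ L).Nonempty ∨ affineSpan ℝ K ⊓ affineSpan ℝ L = ⊥) →
      FreeSum (convexHull ℝ (K ∪ L))

end Pool.Agent.MP_5f4cdd_gt
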