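import Pool.Agent.MP_5f4cdd_gt.SumPlane
import Pool.Agent.MP_5f4cdd_gt.SumDefs

set_option autoImplicit false
open MeasureTheory ENNReal Set Filter Topology Matrix Module Metric

namespace Pool.Agent.MP_5f4cdd_gt.PL

variable {n : ℕ}

lemma freeSum_convex {K : Set (E n)} (h : FreeSum K) : Convex ℝ K := by
  cases h with
  | plane _ h => exact h
  | few => exact convex_convexHull ℝ _
  | sum => exact convex_convexHull ℝ _

lemma freeSum_isCompact {K : Set (E n)} (h : FreeSum K) : IsCompact K := by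
  induction h with
  | plane _ _ h => exact h
  | few V _ => exact V.finite_toSet.isCompact_convexHull ℝ
  | sum K L hK hL hn hn' _ _ ihK ihL =>
    exact isCompact_hull_union (freeSum_convex hK) (freeSum_convex hL) hn hn' ihK ihL

lemma approx_plane {K : Set (E n)} (hK : Convex ℝ K) (cK : IsCompact K)
    (hd : finrank ℝ (vectorSpan ℝ K) ≤ 2) {ε : ℝ} (hε : 0 < ε) :
    ∃ Q, Red (vectorSpan ℝ K) False Q ∧ K ⊆ Q ∧ Q ⊆ cthickening ε K := by
  classical
  rcases K.eq_empty_or_nonempty with rfl | ⟨o, ho⟩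
  · exact ⟨_, red_plane hd 0 ∅ le_rfl (by simp), empty_subset _, by simp⟩
  obtain ⟨W', hW'⟩ := Submodule.exists_isCompl (vectorSpan ℝ K)
  set π := (vectorSpan ℝ K).projection W' hW' with hπ
  let P : E n →ᵃ[ℝ] E n := AffineMap.mk' (fun z => o + π (z - o)) π o (fun z => by
    simp [add_comm])
  have hP : ∀ z, P z = o + π (z - o) := fun z => rfl
  have PK : ∀ k ∈ K, P k = k := fun k hk => by
    rw [hP, hπ, Submodule.projection_apply_of_mem_left hW'
      (show k - o ∈ _ from vsub_mem_vectorSpan ℝ hk ho)]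
    simp
  have cP : Continuous P := P.continuous_of_finiteDimensional
  obtain ⟨u, h1, h2⟩ := hK.exists_subset_interior_convexHull_finset_of_isCompact cK
    (t := P ⁻¹' thickening ε K) ((isOpen_thickening.preimage cP).mem_nhdsSet.2 fun k hk => by
      rw [mem_preimage, PK k hk]; exact self_subset_thickening hε K hk)
  have e : convexHull ℝ ((u.image P : Finset (E n)) : Set (E n)) =
      P '' convexHull ℝ (u : Set (E n)) := by
    rw [Finset.coe_image, P.image_convexHull]
  refine ⟨_, red_plane hd _ (u.image P) le_rfl ?_, ?_, ?_⟩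
  · intro x hx y hy
    obtain ⟨x, -, rfl⟩ := Finset.mem_image.1 hx
    obtain ⟨y, -, rfl⟩ := Finset.mem_image.1 hy
    rw [hP, hP, add_sub_add_left_eq_sub, ← map_sub]
    exact Submodule.projection_apply_mem hW' _
  · rw [e]
    exact fun k hk => ⟨k, interior_subset (h1 hk), PK k hk⟩
  · rw [e]
    rintro _ ⟨z, hz, rfl⟩
    exact thickening_subset_cthickening ε K (h2 hz)

lemma vectorSpan_hull (V : Set (E n)) : vectorSpan ℝ (convexHull ℝ V) = vectorSpan ℝ V := by
  rw [← direction_affineSpan, affineSpan_convexHull, direction_affineSpan]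

lemma red_of_indep {V : Set (E n)} (hV : V.Finite) (h : AffineIndependent ℝ ((↑) : V → E n)) :
    Red (vectorSpan ℝ V) False (convexHull ℝ V) :=
  Red.base V ⟨hV, h, fun _ hu _ hv => vsub_mem_vectorSpan ℝ hu hv⟩ False.elim

lemma rank_le_card {V : Finset (E n)} (h : V.Nonempty) :
    finrank ℝ (vectorSpan ℝ (V : Set (E n))) + 1 ≤ V.card := by
  have : Nonempty V := h.to_subtype
  have h1 := finrank_vectorSpan_range_add_one_le ℝ (Subtype.val : V → E n)
  rwa [Fintype.card_coe, Subtype.range_coe_subtype, Finset.setOfPred_mem] at h1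

lemma indep_of_card {V : Finset (E n)} (h : V.card = finrank ℝ (vectorSpan ℝ (V : Set (E n))) + 1) :
    AffineIndependent ℝ (Subtype.val : ↥(V : Set (E n)) → E n) := by
  refine (affineIndependent_iff_le_finrank_vectorSpan ℝ _
    (n := finrank ℝ (vectorSpan ℝ (V : Set (E n)))) (by simpa using h)).2 ?_
  rw [Subtype.range_coe]

/-- polytopes with few vertices are reducible -/
lemma red_few {V : Finset (E n)} (h : V.card ≤ finrank ℝ (vectorSpan ℝ (V : Set (E n))) + 2) :
    Red (vectorSpan ℝ (V : Set (E n))) False (convexHull ℝ (V : Set (E n))) := by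
  classical
  by_cases hi : AffineIndependent ℝ (Subtype.val : ↥(V : Set (E n)) → E n)
  · exact red_of_indep V.finite_toSet hi
  obtain ⟨I, o, oA, oB⟩ := Convex.radon_partition hi
  set A := V.filter fun x => x ∈ Subtype.val '' I with hA
  set B := V.filter fun x => x ∉ Subtype.val '' I with hB
  have eA : (A : Set (E n)) = Subtype.val '' I := by
    ext x
    simp only [hA, Finset.coe_filter, mem_ofPred_eq, and_iff_right_iff_imp]
    rintro ⟨y, -, rfl⟩
    exact y.2
  have eB : (B : Set (E n)) = Subtype.val '' Iᶜ := by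
    ext x
    simp only [hB, Finset.coe_filter, mem_ofPred_eq]
    constructor
    · rintro ⟨h1, h2⟩
      exact ⟨⟨x, h1⟩, fun h3 => h2 ⟨_, h3, rfl⟩, rfl⟩
    · rintro ⟨y, h1, rfl⟩
      exact ⟨y.2, fun ⟨z, h2, h3⟩ => h1 (Subtype.ext h3 ▸ h2)⟩
  rw [← eA] at oA
  rw [← eB] at oB
  have cAB : A.card + B.card = V.card := Finset.card_filter_add_card_filter_not _
  have uAB : (A : Set (E n)) ∪ B = V := by
    rw [← Finset.coe_union, hA, hB, Finset.filter_union_filter_not_eq]
  have nA : A.Nonempty := by simpa using convexHull_nonempty_iff.1 ⟨o, oA⟩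
  have nB : B.Nonempty := by simpa using convexHull_nonempty_iff.1 ⟨o, oB⟩
  have rA := rank_le_card nA
  have rB := rank_le_card nB
  have hle : vectorSpan ℝ (V : Set (E n)) ≤
      vectorSpan ℝ (A : Set (E n)) ⊔ vectorSpan ℝ (B : Set (E n)) := by
    have key : ∀ x ∈ (V : Set (E n)), x - o ∈
        vectorSpan ℝ (A : Set (E n)) ⊔ vectorSpan ℝ (B : Set (E n)) := by
      intro x hx
      rw [← uAB] at hx
      rcases hx with hx | hx
      · refine Submodule.mem_sup_left ?_
        rw [← vectorSpan_hull]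
        exact vsub_mem_vectorSpan ℝ (subset_convexHull ℝ _ hx) oA
      · refine Submodule.mem_sup_right ?_
        rw [← vectorSpan_hull]
        exact vsub_mem_vectorSpan ℝ (subset_convexHull ℝ _ hx) oB
    rw [vectorSpan_def, Submodule.span_le]
    rintro _ ⟨x, hx, y, hy, rfl⟩
    simpa using Submodule.sub_mem _ (key x hx) (key y hy)
  have h1 := Submodule.finrank_mono hle
  have h2 := Submodule.finrank_sup_add_finrank_inf_eq (vectorSpan ℝ (A : Set (E n)))
    (vectorSpan ℝ (B : Set (E n)))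
  have hd : Disjoint (vectorSpan ℝ (A : Set (E n))) (vectorSpan ℝ (B : Set (E n))) := by
    rw [disjoint_iff, ← Submodule.finrank_eq_zero]
    omega
  have := Red.sum hd (red_of_indep A.finite_toSet (indep_of_card (by omega)))
    (red_of_indep B.finite_toSet (indep_of_card (by omega))) oA oB
  rw [convexHull_convexHull_union_left, convexHull_convexHull_union_right, uAB] at this
  exact this.mono (sup_le (vectorSpan_mono ℝ (uAB ▸ subset_union_left))
    (vectorSpan_mono ℝ (uAB ▸ subset_union_right)))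

/-- reducible sets are closed under joins -/
lemma Red.join {W₁ W₂ : Submodule ℝ (E n)} (h : Disjoint W₁ W₂) {K L : Set (E n)}
    (hK : Red W₁ False K) (hL : Red W₂ False L) {k l : E n} (hk : k ∈ K) (hl : l ∈ L)
    (hkl : k - l ∉ W₁ ⊔ W₂) :
    Red ((W₁ ⊔ vectorSpan ℝ {k, l}) ⊔ W₂) False (convexHull ℝ (K ∪ L)) := by
  have hne : k ≠ l := fun e => hkl (by simp [e])
  have hs : Red (vectorSpan ℝ ({k, l} : Set (E n))) False (convexHull ℝ {k, l}) := by
    refine red_of_indep (toFinite _) ?_
    have := (affineIndependent_of_ne ℝ hne).range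
    rwa [Matrix.range_cons_cons_empty] at this
  have e : vectorSpan ℝ ({k, l} : Set (E n)) = ℝ ∙ (k - l) := vectorSpan_pair ℝ k l
  have d1 : Disjoint W₁ (vectorSpan ℝ ({k, l} : Set (E n))) := by
    rw [e, Submodule.disjoint_span_singleton' (sub_ne_zero.2 hne)]
    exact fun h => hkl (Submodule.mem_sup_left h)
  have d2 : Disjoint (W₁ ⊔ vectorSpan ℝ ({k, l} : Set (E n))) W₂ := by
    rw [e, Submodule.disjoint_def]
    intro x hx hx2
    obtain ⟨y, hy, z, hz, rfl⟩ := Submodule.mem_sup.1 hx
    obtain ⟨c, rfl⟩ := Submodule.mem_span_singleton.1 hz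
    by_cases hc : c = 0
    · subst hc
      simp only [zero_smul, add_zero] at hx2 ⊢
      exact Submodule.disjoint_def.1 h y hy hx2
    · exfalso
      refine hkl ?_
      have := Submodule.smul_mem _ c⁻¹ (Submodule.sub_mem (W₁ ⊔ W₂) (Submodule.mem_sup_right hx2)
        (Submodule.mem_sup_left hy))
      rwa [add_sub_cancel_left, smul_smul, inv_mul_cancel₀ hc, one_smul] at this
  have r1 := Red.sum d1 hK hs hk (subset_convexHull ℝ _ (by simp))
  have r2 := Red.sum d2 r1 hL (subset_convexHull ℝ _ (Or.inr (subset_convexHull ℝ _ (by simp)))) hl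
  rw [convexHull_convexHull_union_left, union_right_comm, convexHull_convexHull_union_right,
    union_eq_self_of_subset_right] at r2
  · exact r2
  · rintro x (rfl | rfl)
    · exact Or.inl hk
    · exact Or.inr hl

lemma approx {K : Set (E n)} (h : FreeSum K) {ε : ℝ} (hε : 0 < ε) :
    ∃ Q, Red (vectorSpan ℝ K) False Q ∧ K ⊆ Q ∧ Q ⊆ cthickening ε K := by
  induction h with
  | plane K hK cK hd => exact approx_plane hK cK hd hε
  | few V hV =>
    exact ⟨_, by rw [vectorSpan_hull]; exact red_few hV, Subset.rfl, self_subset_cthickening _⟩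
  | sum K L _ _ nK nL hd hn ihK ihL =>
    obtain ⟨Q₁, r₁, s₁, t₁⟩ := ihK
    obtain ⟨Q₂, r₂, s₂, t₂⟩ := ihL
    have sK : K ⊆ convexHull ℝ (K ∪ L) := subset_union_left.trans (subset_convexHull ℝ _)
    have sL : L ⊆ convexHull ℝ (K ∪ L) := subset_union_right.trans (subset_convexHull ℝ _)
    refine ⟨convexHull ℝ (Q₁ ∪ Q₂), ?_, convexHull_mono (union_subset_union s₁ s₂),
      convexHull_min (union_subset (t₁.trans (cthickening_subset_of_subset ε sK))
        (t₂.trans (cthickening_subset_of_subset ε sL))) ((convex_convexHull ℝ _).cthickening ε)⟩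
    rcases hn with ⟨o, oK, oL⟩ | hn
    · exact (Red.sum (disjoint_iff.2 hd) r₁ r₂ (s₁ oK) (s₂ oL)).mono
        (sup_le (vectorSpan_mono ℝ sK) (vectorSpan_mono ℝ sL))
    · obtain ⟨k, hk⟩ := nK
      obtain ⟨l, hl⟩ := nL
      refine (Red.join (disjoint_iff.2 hd) r₁ r₂ (s₁ hk) (s₂ hl) fun h => ?_).mono
        (sup_le (sup_le (vectorSpan_mono ℝ sK) (vectorSpan_mono ℝ ?_)) (vectorSpan_mono ℝ sL))
      · obtain ⟨y, hy, z, hz, e⟩ := Submodule.mem_sup.1 h
        have h1 : (-y) +ᵥ k ∈ affineSpan ℝ K :=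
          vadd_mem_affineSpan_of_mem_affineSpan_of_mem_vectorSpan (mem_affineSpan ℝ hk)
            (Submodule.neg_mem _ hy)
        have h2 : z +ᵥ l ∈ affineSpan ℝ L :=
          vadd_mem_affineSpan_of_mem_affineSpan_of_mem_vectorSpan (mem_affineSpan ℝ hl) hz
        have e2 : (-y) +ᵥ k = z +ᵥ l := by
          simp only [vadd_eq_add]
          rw [← sub_add_cancel k l, ← e]
          abel
        have h3 : z +ᵥ l ∈ affineSpan ℝ K ⊓ affineSpan ℝ L := ⟨e2 ▸ h1, h2⟩
        rw [hn] at h3
        exact AffineSubspace.notMem_bot ℝ _ _ h3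
      · rintro x (rfl | rfl)
        · exact sK hk
        · exact sL hl

lemma le_of_approx {p : ℝ} (hp : 0 < p) {K : Set (E n)} (cK : IsCompact K) (hv : volume K ≠ 0)
    {m : ℝ≥0∞} (h : ∀ ε > 0, ∃ Q, IsCompact Q ∧ K ⊆ Q ∧ Q ⊆ cthickening ε K ∧ m ≤ mstar p Q)
    (c : E n) : m ≤ mahler p ((fun z => z - c) '' K) := by
  have pK := vol_pos cK hv
  have h1 : Tendsto (fun ε => ENNReal.ofReal (((volume K).toReal /
      (volume (cthickening ε K)).toReal) ^ (1 + 1 / p)) * m) (𝓝[>] 0) (𝓝 m) := by
    have h2 := (ENNReal.tendsto_toReal cK.measure_lt_top.ne).comp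
      (tendsto_measure_cthickening_of_isCompact (μ := volume) cK)
    have h3 := ((tendsto_const_nhds (x := (volume K).toReal)).div h2 pK.ne').rpow_const
      (p := 1 + 1 / p) (Or.inr (by positivity))
    rw [div_self pK.ne', Real.one_rpow] at h3
    have h4 := ENNReal.Tendsto.mul_const (b := m) (ENNReal.tendsto_ofReal h3) (Or.inl (by simp))
    rw [ENNReal.ofReal_one, one_mul] at h4
    exact h4.mono_left nhdsWithin_le_nhds
  refine le_of_tendsto h1 ?_
  filter_upwards [self_mem_nhdsWithin] with ε hε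
  obtain ⟨Q, cQ, s, t, hm⟩ := h ε hε
  have := mahler_mono hp (isCompact_image_sub cK c) (isCompact_image_sub cQ c) (image_mono s)
    (by rwa [volume_image_sub])
  rw [volume_image_sub, volume_image_sub] at this
  refine le_trans (mul_le_mul' (ENNReal.ofReal_le_ofReal ?_) (hm.trans (iInf_le _ c))) this
  have pQ := vol_pos cQ fun h => hv (measure_mono_null s h)
  refine Real.rpow_le_rpow (by positivity) (div_le_div_of_nonneg_left pK.le pQ ?_) (by positivity)
  exact ENNReal.toReal_mono (cK.cthickening.measure_lt_top.ne) (measure_mono t)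

theorem freeSum_le {p : ℝ} (hp : 0 < p) {K : Set (E n)} (h : FreeSum K) (hv : volume K ≠ 0)
    (c : E n) : mahler p (cS n 1) ≤ mahler p ((fun z => z - c) '' K) := by
  refine le_of_approx hp (freeSum_isCompact h) hv (fun ε hε => ?_) c
  obtain ⟨Q, r, s, t⟩ := approx h hε
  exact ⟨Q, r.isCompact, s, t, r.le_mstar hp fun h => hv (measure_mono_null s h)⟩

theorem both_of_le {K : Set (E n)} (hK : Convex ℝ K) (cK : IsCompact K)
    (hi : (interior K).Nonempty)
    (h : ∀ p : ℝ, 0 < p → ∀ c, mahler p (cS n 1) ≤ mahler p ((fun z => z - c) '' K)) :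
    (∀ p : ℝ, 0 < p → (⨅ x ∈ stdS n, mahler p ((fun z => z - x) '' stdS n)) ≤ mahler p K) ∧
      (⨅ x ∈ stdS n, mahlerInf ((fun z => z - x) '' stdS n)) ≤ mahlerInf K := by
  refine ⟨fun p hp => ?_, ?_⟩
  · rw [iInf_eq hp]
    simpa using h p hp 0
  · refine le_trans (iInf₂_le (cen n) cen_mem_stdS) ?_
    rw [image_sub_cen]
    refine le_mahlerInf cK hK hi ?_
    filter_upwards [eventually_gt_atTop 0] with p hp a
    exact (mahlerInf_cS_le_mahler hp).trans (h p hp a)

theorem freeSum_main (n : ℕ) (K : Set (E n)) (h : FreeSum K) (hi : (interior K).Nonempty) :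
    (∀ p : ℝ, 0 < p → (⨅ x ∈ stdS n, mahler p ((fun z => z - x) '' stdS n)) ≤ mahler p K) ∧
      (⨅ x ∈ stdS n, mahlerInf ((fun z => z - x) '' stdS n)) ≤ mahlerInf K :=
  both_of_le (freeSum_convex h) (freeSum_isCompact h) hi fun _ hp c =>
    freeSum_le hp h (Measure.measure_pos_of_nonempty_interior _ hi).ne' c

end Pool.Agent.MP_5f4cdd_gt.PL
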