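import Pool.Agent.MP_5f4cdd_gt.SumDefs
import Pool.Agent.MP_5f4cdd_gt.SumMain

set_option autoImplicit false
open MeasureTheory ENNReal Pool.Agent.MP_5f4cdd_gt

namespace Pool.Agent.MP_5f4cdd_gt.KeptFreeSums

theorem kept (n : ℕ) (K : Set (Fin n → ℝ)) (h : FreeSum K) (hi : (interior K).Nonempty) :
    (∀ p : ℝ, 0 < p → (⨅ x ∈ stdS n, mahler p ((fun z => z - x) '' stdS n)) ≤ mahler p K) ∧
      (⨅ x ∈ stdS n, mahlerInf ((fun z => z - x) '' stdS n)) ≤ mahlerInf K :=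
  PL.freeSum_main n K h hi

end Pool.Agent.MP_5f4cdd_gt.KeptFreeSums
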