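import Pool.Agent.MP_5f4cdd_gt.Geom

set_option autoImplicit false
open MeasureTheory ENNReal Set Matrix Topology Filter

namespace Pool.Agent.MP_5f4cdd_gt

variable {n m : ℕ}

lemma half_ball {x : E n} {r : ℝ} {A : Set (E n)} (hA : MeasurableSet A)
    (h : ∀ z ∈ Metric.closedBall x r, z ∈ A ∨ (x + x) - z ∈ A) :
    volume (Metric.closedBall x r) ≤ 2 * volume A := by
  have h1 : volume ((fun z => (x + x) - z) ⁻¹' A) = volume A :=
    (Measure.measurePreserving_sub_left volume (x + x)).measure_preimage hA.nullMeasurableSet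
  calc volume (Metric.closedBall x r) ≤ volume (A ∪ (fun z => (x + x) - z) ⁻¹' A) :=
        measure_mono h
    _ ≤ volume A + volume ((fun z => (x + x) - z) ⁻¹' A) := measure_union_le _ _
    _ = 2 * volume A := by rw [h1, two_mul]

lemma cap {δ : ℝ} {K : Set (E n)} (hK : Convex ℝ K) (hKm : MeasurableSet K)
    (hv : 2 * volume (cS n 1 \ K) < volume (Metric.closedBall (0 : E n) (δ / (n + 1) ^ 2))) :
    cS n (1 - δ) ⊆ K := by
  intro x hx
  by_contra hxK
  refine absurd hv (not_lt.2 ?_)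
  rw [← Measure.addHaar_closedBall_center volume x]
  refine half_ball ((measurableSet_cS 1).diff hKm) fun z hz => ?_
  have hin : ∀ w ∈ Metric.closedBall x (δ / (n + 1) ^ 2), w ∈ cS n 1 := by
    intro w hw
    have := add_mem_cS hx (mem_cS_of_norm_le (r := δ) (z := w - x)
      (by simpa [dist_eq_norm] using hw))
    simpa using this
  have hz' : x + x - z ∈ Metric.closedBall x (δ / (n + 1) ^ 2) := by
    rw [Metric.mem_closedBall, dist_eq_norm] at hz ⊢
    have : x + x - z - x = -(z - x) := by abel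
    rwa [this, norm_neg]
  by_contra hc
  push Not at hc
  have h1 : z ∈ K := by by_contra h; exact hc.1 ⟨hin z hz, h⟩
  have h2 : x + x - z ∈ K := by by_contra h; exact hc.2 ⟨hin _ hz', h⟩
  have h3 := hK h1 h2 (a := 1 / 2) (b := 1 / 2) (by norm_num) (by norm_num) (by norm_num)
  refine hxK ?_
  convert h3 using 1
  ext i; simp; ring

lemma exists_max {K : Set (E n)} (hKi : (interior K).Nonempty) (B₀ : E n →ₗ[ℝ] E n) (b₀ : E n)
    (h₀ : ∀ x ∈ K, B₀ x + b₀ ∈ cS n 1) :
    ∃ (B : E n →ₗ[ℝ] E n) (b : E n), (∀ x ∈ K, B x + b ∈ cS n 1) ∧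
      ∀ (B' : E n →ₗ[ℝ] E n) (b' : E n), (∀ x ∈ K, B' x + b' ∈ cS n 1) →
        |LinearMap.det B'| ≤ |LinearMap.det B| := by
  obtain ⟨x₀, hx₀⟩ := hKi
  obtain ⟨ρ, hρ, hball⟩ := Metric.nhds_basis_closedBall.mem_iff.1 (mem_interior_iff_mem_nhds.1 hx₀)
  set C : Set ((E n →L[ℝ] E n) × E n) := {q | ∀ x ∈ K, q.1 x + q.2 ∈ cS n 1} with hC
  have hcl : IsClosed C := by
    have : C = ⋂ x ∈ K, (fun q : (E n →L[ℝ] E n) × E n => q.1 x + q.2) ⁻¹' cS n 1 := by
      ext; simp [hC]
    rw [this]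
    exact isClosed_biInter fun x _ => (isClosed_cS 1).preimage (by fun_prop)
  have hbd : Bornology.IsBounded C := by
    refine (Metric.isBounded_closedBall (x := 0) (r := 2 / ρ + (1 + 2 / ρ * ‖x₀‖))).subset ?_
    rintro ⟨T, b⟩ hq
    have h1 : ‖T x₀ + b‖ ≤ 1 :=
      norm_le_of_mem_cS zero_le_one (hq x₀ (hball (Metric.mem_closedBall_self hρ.le)))
    have h2 : ‖T‖ ≤ 2 / ρ := by
      refine ContinuousLinearMap.opNorm_le_of_unit_norm (by positivity) fun v hv => ?_
      have h3 : ‖T (x₀ + ρ • v) + b‖ ≤ 1 := norm_le_of_mem_cS zero_le_one (hq _ (hball (by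
        simp [norm_smul, hv, abs_of_pos hρ])))
      have h4 : ρ • T v = (T (x₀ + ρ • v) + b) - (T x₀ + b) := by simp
      have h5 : ‖ρ • T v‖ ≤ 2 := by
        rw [h4]; exact (norm_sub_le _ _).trans (by linarith)
      rw [norm_smul, Real.norm_eq_abs, abs_of_pos hρ] at h5
      rw [le_div_iff₀ hρ]; linarith
    have h6 : ‖b‖ ≤ 1 + 2 / ρ * ‖x₀‖ := by
      have h7 : b = (T x₀ + b) - T x₀ := by simp
      have h8 : ‖T x₀‖ ≤ 2 / ρ * ‖x₀‖ := (T.le_opNorm _).trans (by gcongr)
      rw [h7]; exact (norm_sub_le _ _).trans (by linarith)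
    rw [Metric.mem_closedBall, dist_zero_right, Prod.norm_def]
    have : 0 ≤ 2 / ρ := by positivity
    have : 0 ≤ 1 + 2 / ρ * ‖x₀‖ := by positivity
    exact max_le (by linarith) (by linarith)
  have hcomp : IsCompact C := Metric.isCompact_of_isClosed_isBounded hcl hbd
  obtain ⟨q, hq, hmax⟩ := hcomp.exists_isMaxOn (f := fun q => |q.1.det|)
    ⟨(LinearMap.toContinuousLinearMap B₀, b₀), h₀⟩
    (ContinuousLinearMap.continuous_det.comp continuous_fst).abs.continuousOn
  refine ⟨q.1, q.2, hq, fun B' b' h' => ?_⟩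
  exact hmax (a := (LinearMap.toContinuousLinearMap B', b')) h'

/-- `K` is not contained in a simplex smaller than the centred one -/
def Maxi (K : Set (E n)) : Prop :=
  ∀ (T : E n →ₗ[ℝ] E n) (b : E n), (∀ x ∈ K, T x + b ∈ cS n 1) → |LinearMap.det T| ≤ 1

lemma klee0 {K : Set (E (m + 1))} (hK : Convex ℝ K) (hcl : IsClosed K) (hs : K ⊆ cS (m + 1) 1)
    (hM : Maxi K) : A0 (m + 1) (uu m) ∈ K := by
  by_contra hc
  obtain ⟨f, u, hf, hu⟩ := geometric_hahn_banach_closed_point hK hcl hc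
  have hA : A0 (m + 1) (uu m) = uu m - cen (m + 1) := by
    ext i
    change uu m i - (∑ i, uu m i) / _ = _
    rw [uu_mem.2]; rfl
  have hrep : ∀ X : E (m + 1), f X = ∑ i, X i * f (Pi.single i 1) := by
    intro X
    conv_lhs => rw [← Finset.univ_sum_single X, map_sum]
    refine Finset.sum_congr rfl fun i _ => ?_
    rw [← smul_eq_mul, ← map_smul, ← Pi.single_smul, smul_eq_mul, mul_one]
  set γ := u + f (cen (m + 1)) with hγ
  set b : E (m + 1) := fun i => f (Pi.single i 1) - γ with hb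
  have hsum : ∀ X : E (m + 1), ∑ i, b i * X i = f X - γ * ∑ i, X i := by
    intro X
    rw [hrep X, Finset.mul_sum, ← Finset.sum_sub_distrib]
    exact Finset.sum_congr rfl fun i _ => by simp only [hb]; ring
  have hpos : 0 < ∑ i, b i := by
    have h1 := hsum (uu m)
    rw [uu_mem.2] at h1
    rw [hA, map_sub] at hu
    have h2 : ∑ i, b i * uu m i = (∑ i, b i) * (1 / (m + 1)) := by
      rw [Finset.sum_mul]; rfl
    have h3 : 0 < (∑ i, b i) * (1 / (m + 1) : ℝ) := by rw [← h2, h1]; linarith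
    exact (mul_pos_iff_of_pos_right (by positivity)).1 h3
  have hd : HasDerivAt (fun t : ℝ => ∏ i, (1 + t * b i)) (∑ i, b i) 0 := by
    have := HasDerivAt.fun_finsetProd (u := Finset.univ) (x := (0 : ℝ))
      (f := fun i (t : ℝ) => 1 + t * b i) (f' := fun i => b i)
      (fun i _ => by simpa using ((hasDerivAt_id (0 : ℝ)).mul_const (b i)).const_add 1)
    simpa using this
  have e1 : ∀ᶠ t in 𝓝[>] (0 : ℝ), 1 < ∏ i, (1 + t * b i) := by
    filter_upwards [hd.tendsto_slope_zero_right.eventually (lt_mem_nhds hpos),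
      self_mem_nhdsWithin] with t ht ht0
    simp only [zero_add, zero_mul, add_zero, Finset.prod_const_one, smul_eq_mul] at ht
    have := (mul_pos_iff_of_pos_left (inv_pos.2 ht0)).1 ht
    linarith
  have e2 : ∀ᶠ t in 𝓝[>] (0 : ℝ), ∀ i, 0 < 1 + t * b i := by
    refine eventually_all.2 fun i => nhdsWithin_le_nhds ?_
    have : ContinuousAt (fun t : ℝ => 1 + t * b i) 0 := by fun_prop
    exact this.eventually (lt_mem_nhds (by simp))
  have e3 : ∀ᶠ t in 𝓝[>] (0 : ℝ), t * γ < 1 := by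
    refine nhdsWithin_le_nhds ?_
    have : ContinuousAt (fun t : ℝ => t * γ) 0 := by fun_prop
    exact this.eventually (gt_mem_nhds (by simp))
  obtain ⟨t, ⟨⟨h1, h2⟩, h3⟩, ht⟩ := (((e1.and e2).and e3).and self_mem_nhdsWithin).exists
  have ht0 : 0 < t := ht
  have := hM (Matrix.toLin' (Matrix.diagonal fun i => 1 + t * b i))
    ((fun i => (1 + t * b i) * cen (m + 1) i) - cen (m + 1)) (by
      intro z hz
      have hX : z + cen (m + 1) ∈ stdS (m + 1) := mem_stdS_iff.2 (by simpa using hs hz)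
      have hY : (fun i => (1 + t * b i) * (z + cen (m + 1)) i) ∈ stdS (m + 1) := by
        refine ⟨fun i => mul_nonneg (h2 i).le (hX.1 i), ?_⟩
        have h4 : ∑ i, (1 + t * b i) * (z + cen (m + 1)) i =
            ∑ i, (z + cen (m + 1)) i + t * ∑ i, b i * (z + cen (m + 1)) i := by
          rw [Finset.mul_sum, ← Finset.sum_add_distrib]
          exact Finset.sum_congr rfl fun i _ => by ring
        rw [h4, hsum, map_add]
        have h5 := hf z hz
        have h6 := hX.2
        set s := ∑ i, (z + cen (m + 1)) i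
        have h7 : f z + f (cen (m + 1)) - γ * s ≤ γ * (1 - s) := by rw [hγ]; nlinarith
        nlinarith [mul_le_mul_of_nonneg_left h7 ht0.le,
          mul_le_mul_of_nonneg_right h3.le (sub_nonneg.2 h6)]
      have := mem_stdS_iff.1 hY
      convert this using 1
      ext i
      simp [Matrix.mulVec_diagonal]; ring)
  rw [LinearMap.det_toLin', Matrix.det_diagonal] at this
  linarith [le_abs_self (∏ i, (1 + t * b i))]

lemma klee {K : Set (E (m + 1))} (hK : Convex ℝ K) (hcl : IsCompact K) (hs : K ⊆ cS (m + 1) 1)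
    (hM : Maxi K) (j : Fin (m + 2)) : Pj (m + 1) j (uu m) ∈ K := by
  set σ := Equiv.swap (0 : Fin (m + 2)) j
  have h := klee0 (K := Tp σ '' K) (hK.linear_image _)
    (hcl.image (Tp σ).continuous_of_finiteDimensional).isClosed
    (by rintro _ ⟨x, hx, rfl⟩; exact (Tp_mem_cS σ).2 (hs hx))
    (by
      intro T b hT
      have := hM (T ∘ₗ Tp σ) b fun x hx => hT _ ⟨x, hx, rfl⟩
      rwa [LinearMap.det_comp, abs_mul, abs_det_Tp, mul_one] at this)
  obtain ⟨x, hx, he⟩ := h
  have : Pj (m + 1) j (uu m) = x := by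
    rw [Pj, LinearMap.comp_apply, ← he, Tp_Tp, Equiv.swap_mul_self, Tp_one]
  rwa [this]

end Pool.Agent.MP_5f4cdd_gt
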