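import Pool.Agent.MP_5f4cdd_gt.Defs

set_option autoImplicit false
open MeasureTheory ENNReal Set Matrix

namespace Pool.Agent.MP_5f4cdd_gt

abbrev E (n : ℕ) := Fin n → ℝ

variable {n : ℕ}

/-- transpose of a linear map -/
noncomputable def adj (T : E n →ₗ[ℝ] E n) : E n →ₗ[ℝ] E n :=
  Matrix.toLin' (LinearMap.toMatrix' T)ᵀ

lemma dot_adj (T : E n →ₗ[ℝ] E n) (x y : E n) : T x ⬝ᵥ y = x ⬝ᵥ adj T y := by
  have h : T x = (LinearMap.toMatrix' T) *ᵥ x := by
    rw [← Matrix.toLin'_apply, Matrix.toLin'_toMatrix']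
  rw [h, adj, Matrix.toLin'_apply, Matrix.mulVec_transpose, dotProduct_comm,
    Matrix.dotProduct_mulVec, dotProduct_comm]

lemma det_adj (T : E n →ₗ[ℝ] E n) : LinearMap.det (adj T) = LinearMap.det T := by
  rw [adj, LinearMap.det_toLin', Matrix.det_transpose, LinearMap.det_toMatrix']

lemma measurable_lin (T : E n →ₗ[ℝ] E n) : Measurable T :=
  T.continuous_of_finiteDimensional.measurable

lemma lintegral_comp_lin (T : E n →ₗ[ℝ] E n) (hT : LinearMap.det T ≠ 0) {f : E n → ℝ≥0∞}
    (hf : Measurable f) :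
    ∫⁻ x, f (T x) = ENNReal.ofReal |(LinearMap.det T)⁻¹| * ∫⁻ x, f x := by
  rw [← lintegral_map hf (measurable_lin T),
    Measure.map_linearMap_addHaar_eq_smul_addHaar volume hT, lintegral_smul_measure, smul_eq_mul]

lemma measurePreserving_lin (T : E n →ₗ[ℝ] E n) (hT : |LinearMap.det T| = 1) :
    MeasurePreserving T (volume : Measure (E n)) volume := by
  refine ⟨measurable_lin T, ?_⟩
  have h0 : LinearMap.det T ≠ 0 := by
    intro h; rw [h] at hT; simp at hT
  rw [Measure.map_linearMap_addHaar_eq_smul_addHaar volume h0, abs_inv, hT]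
  simp

lemma injective_lin (T : E n →ₗ[ℝ] E n) (hT : LinearMap.det T ≠ 0) : Function.Injective T := by
  have := (LinearMap.isUnit_iff_isUnit_det T).2 (isUnit_iff_ne_zero.2 hT)
  exact (LinearMap.isUnit_iff_ker_eq_bot T).1 this |> LinearMap.ker_eq_bot.1

lemma measurableEmbedding_lin (T : E n →ₗ[ℝ] E n) (hT : LinearMap.det T ≠ 0) :
    MeasurableEmbedding T :=
  (T.isClosedEmbedding_of_injective
    (LinearMap.ker_eq_bot.2 (injective_lin T hT))).measurableEmbedding

lemma setIntegral_image_lin (T : E n →ₗ[ℝ] E n) (hT : LinearMap.det T ≠ 0) (L : Set (E n))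
    (f : E n → ℝ) :
    ∫ x in T '' L, f x = |LinearMap.det T| * ∫ x in L, f (T x) := by
  have h1 := (measurableEmbedding_lin T hT).setIntegral_map (μ := volume) f (T '' L)
  rw [Measure.map_linearMap_addHaar_eq_smul_addHaar volume hT,
    preimage_image_eq _ (injective_lin T hT), Measure.restrict_smul, integral_smul_measure,
    ENNReal.toReal_ofReal (abs_nonneg _), smul_eq_mul] at h1
  rw [← h1, ← mul_assoc, ← abs_mul, mul_inv_cancel₀ hT, abs_one, one_mul]

lemma measurable_laplace (p : ℝ) (L : Set (E n)) :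
    Measurable fun y : E n => ∫ x in L, Real.exp (p * ∑ i, x i * y i) := by
  have : StronglyMeasurable (Function.uncurry fun (y : E n) (x : E n) =>
      Real.exp (p * ∑ i, x i * y i)) := by
    apply Continuous.stronglyMeasurable
    unfold Function.uncurry
    fun_prop
  exact (this.integral_prod_right (ν := volume.restrict L)).measurable

lemma mahler_image_lin (p : ℝ) (T : E n →ₗ[ℝ] E n) (hT : LinearMap.det T ≠ 0) (L : Set (E n)) :
    mahler p (T '' L) = mahler p L := by
  unfold mahler
  have hd : 0 < |LinearMap.det T| := abs_pos.2 hT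
  rw [Measure.addHaar_image_linearMap]
  have key : ∀ y : E n, ((∫ x in T '' L, Real.exp (p * ∑ i, x i * y i)) /
      (ENNReal.ofReal |LinearMap.det T| * volume L).toReal) =
      ((∫ x in L, Real.exp (p * ∑ i, x i * (adj T y) i)) / (volume L).toReal) := by
    intro y
    rw [setIntegral_image_lin T hT, ENNReal.toReal_mul, ENNReal.toReal_ofReal hd.le,
      mul_div_mul_left _ _ hd.ne']
    congr 2
    ext x
    congr 2
    exact dot_adj T x y
  simp_rw [key]
  have hm : Measurable fun y : E n => ENNReal.ofReal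
      (((∫ x in L, Real.exp (p * ∑ i, x i * y i)) / (volume L).toReal) ^ (-(1 / p))) :=
    (((measurable_laplace p L).div_const _).pow_const _).ennreal_ofReal
  have := lintegral_comp_lin (adj T) (by rwa [det_adj]) hm
  rw [this, det_adj, mul_comm (ENNReal.ofReal _) (volume L), mul_assoc, ← mul_assoc (ENNReal.ofReal _),
    ← ENNReal.ofReal_mul hd.le, ← abs_mul, mul_inv_cancel₀ hT]
  simp

end Pool.Agent.MP_5f4cdd_gt
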