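import Mathlib

set_option autoImplicit false
open Set Filter Topology
open scoped RealInnerProductSpace

namespace Pool.Agent.MP_5f4cdd_gt.T4

variable {E : Type*} [NormedAddCommGroup E] [InnerProductSpace ℝ E]

/-- `p` is the proximal map of `v` restricted to `K`. -/
def IsProx (K : Set E) (v : E → ℝ) (p : E → E) : Prop :=
  ∀ w, p w ∈ K ∧ ∀ x ∈ K, ⟪x - p w, w - p w⟫ ≤ v x - v (p w)

theorem le_of_forall_small {a b c : ℝ} (hc : 0 ≤ c)
    (h : ∀ t : ℝ, 0 < t → t ≤ 1 → a ≤ b + t * c) : a ≤ b := by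
  refine le_of_forall_pos_le_add fun ε hε => ?_
  have h1 : 0 < min 1 (ε / (c + 1)) := lt_min one_pos (by positivity)
  have h2 := h _ h1 (min_le_left _ _)
  have h3 : min 1 (ε / (c + 1)) * c ≤ ε := by
    calc min 1 (ε / (c + 1)) * c ≤ ε / (c + 1) * (c + 1) :=
          mul_le_mul (min_le_right _ _) (by linarith) hc (by positivity)
      _ = ε := by field_simp
  linarith

theorem exists_isProx {K : Set E} {v : E → ℝ} (hK : IsCompact K) (hne : K.Nonempty)
    (hv : ConvexOn ℝ K v) (hc : ContinuousOn v K) : ∃ p, IsProx K v p := by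
  have key : ∀ w : E, ∃ q ∈ K, ∀ x ∈ K, ⟪x - q, w - q⟫ ≤ v x - v q := by
    intro w
    have hcont : ContinuousOn (fun x => ⟪x, w⟫ - v x - ‖x‖ ^ 2 / 2) K :=
      ((by fun_prop : Continuous fun x : E => ⟪x, w⟫).continuousOn.sub hc).sub
        (by fun_prop : Continuous fun x : E => ‖x‖ ^ 2 / 2).continuousOn
    obtain ⟨q, hq, hmax⟩ := hK.exists_isMaxOn hne hcont
    refine ⟨q, hq, fun x hx => ?_⟩
    refine le_of_forall_small (c := ‖x - q‖ ^ 2 / 2) (by positivity) fun t ht ht1 => ?_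
    have hmem : (1 - t) • q + t • x ∈ K := hv.1 hq hx (by linarith) ht.le (by ring)
    have h1 := hmax hmem
    have h2 := hv.2 hq hx (by linarith : 0 ≤ 1 - t) ht.le (by ring)
    simp only [mem_setOf_eq, smul_eq_mul] at h1 h2
    have e1 : (1 - t) • q + t • x = q + t • (x - q) := by
      rw [smul_sub, sub_smul, one_smul]; abel
    rw [e1] at h1 h2
    rw [norm_add_sq_real, inner_add_left, inner_smul_left, inner_smul_right, norm_smul,
      mul_pow, Real.norm_eq_abs, sq_abs] at h1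
    simp only [conj_trivial] at h1
    have e2 : ⟪x - q, w - q⟫ = ⟪x - q, w⟫ - ⟪q, x - q⟫ := by
      rw [inner_sub_right, real_inner_comm q]
    rw [e2]
    have h3 : t * (⟪x - q, w⟫ - ⟪q, x - q⟫) ≤ t * (v x - v q + t * (‖x - q‖ ^ 2 / 2)) := by
      nlinarith
    exact le_of_mul_le_mul_left h3 ht
  choose p hp hp' using key
  exact ⟨p, fun w => ⟨hp w, hp' w⟩⟩

namespace IsProx

variable {K : Set E} {v : E → ℝ} {p : E → E}

theorem mem (h : IsProx K v p) (w : E) : p w ∈ K := (h w).1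

theorem firm' (h : IsProx K v p) {w w' q : E} (hq : q ∈ K)
    (hq' : ∀ x ∈ K, ⟪x - q, w' - q⟫ ≤ v x - v q) : ‖p w - q‖ ^ 2 ≤ ⟪p w - q, w - w'⟫ := by
  have h1 := (h w).2 q hq
  have h2 := hq' (p w) (h w).1
  have e : ⟪p w - q, w - w'⟫ - ‖p w - q‖ ^ 2 =
      -(⟪q - p w, w - p w⟫ + ⟪p w - q, w' - q⟫) := by
    rw [← real_inner_self_eq_norm_sq]
    simp only [inner_sub_left, inner_sub_right]
    rw [real_inner_comm q (p w)]
    ring
  linarith

theorem firm (h : IsProx K v p) (w w' : E) : ‖p w - p w'‖ ^ 2 ≤ ⟪p w - p w', w - w'⟫ :=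
  h.firm' (h w').1 (h w').2

theorem eq_of (h : IsProx K v p) {w q : E} (hq : q ∈ K)
    (hq' : ∀ x ∈ K, ⟪x - q, w - q⟫ ≤ v x - v q) : p w = q := by
  have := h.firm' (w := w) hq hq'
  rw [sub_self, inner_zero_right] at this
  have h0 : ‖p w - q‖ = 0 := by nlinarith [norm_nonneg (p w - q)]
  exact sub_eq_zero.1 (norm_eq_zero.1 h0)

theorem norm_sub_le (h : IsProx K v p) (w w' : E) : ‖p w - p w'‖ ≤ ‖w - w'‖ := by
  have h1 := h.firm w w'
  have h2 := real_inner_le_norm (p w - p w') (w - w')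
  by_contra hc
  push Not at hc
  nlinarith [norm_nonneg (w - w'), norm_nonneg (p w - p w')]

theorem lipschitz (h : IsProx K v p) : LipschitzWith 1 p :=
  LipschitzWith.of_dist_le_mul fun w w' => by
    simpa [dist_eq_norm] using h.norm_sub_le w w'

theorem continuous (h : IsProx K v p) : Continuous p := h.lipschitz.continuous

theorem norm_refl_le (h : IsProx K v p) (w w' : E) :
    ‖(2 : ℝ) • (p w - p w') - (w - w')‖ ≤ ‖w - w'‖ := by
  have h1 := h.firm w w'
  have h2 : ‖(2 : ℝ) • (p w - p w') - (w - w')‖ ^ 2 ≤ ‖w - w'‖ ^ 2 := by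
    rw [norm_sub_sq_real, norm_smul, inner_smul_left, mul_pow]
    simp only [conj_trivial, Real.norm_ofNat]
    nlinarith
  exact (pow_le_pow_iff_left₀ (norm_nonneg _) (norm_nonneg _) two_ne_zero).1 h2

theorem norm_co_le (h : IsProx K v p) (w w' : E) :
    ‖(w - p w) - (w' - p w')‖ ≤ ‖w - w'‖ := by
  have h1 := h.firm w w'
  have e : (w - p w) - (w' - p w') = (w - w') - (p w - p w') := by abel
  have h2 : ‖(w - p w) - (w' - p w')‖ ^ 2 ≤ ‖w - w'‖ ^ 2 := by
    rw [e, norm_sub_sq_real, real_inner_comm]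
    nlinarith [sq_nonneg ‖p w - p w'‖]
  exact (pow_le_pow_iff_left₀ (norm_nonneg _) (norm_nonneg _) two_ne_zero).1 h2

theorem lipschitz_co (h : IsProx K v p) : LipschitzWith 1 (fun w => w - p w) :=
  LipschitzWith.of_dist_le_mul fun w w' => by
    simpa [dist_eq_norm] using h.norm_co_le w w'

/-- fibres of a proximal map are convex -/
theorem fibre (h : IsProx K v p) {w w' : E} (he : p w = p w') {t : ℝ} (ht : 0 ≤ t) (ht1 : t ≤ 1) :
    p (w + t • (w' - w)) = p w := by
  refine h.eq_of (h w).1 fun x hx => ?_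
  have h1 := (h w).2 x hx
  have h2 := (h w').2 x hx
  rw [← he] at h2
  have e : w + t • (w' - w) - p w = (1 - t) • (w - p w) + t • (w' - p w) := by
    simp only [smul_sub, sub_smul, one_smul]; abel
  rw [e, inner_add_right, inner_smul_right, inner_smul_right]
  nlinarith

theorem max_le (h : IsProx K v p) (w : E) {x : E} (hx : x ∈ K) :
    ⟪x, w⟫ - v x - ‖x‖ ^ 2 / 2 ≤ ⟪p w, w⟫ - v (p w) - ‖p w‖ ^ 2 / 2 := by
  have h1 := (h w).2 x hx
  have h2 : 0 ≤ ‖x - p w‖ ^ 2 := by positivity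
  rw [norm_sub_sq_real] at h2
  simp only [inner_sub_left, inner_sub_right, real_inner_self_eq_norm_sq] at h1
  nlinarith

theorem hasFDerivAt_pot (h : IsProx K v p) (w : E) :
    HasFDerivAt (fun w => ⟪p w, w⟫ - v (p w) - ‖p w‖ ^ 2 / 2) (innerSL ℝ (p w)) w := by
  rw [hasFDerivAt_iff_isLittleO_nhds_zero]
  refine Asymptotics.IsBigO.trans_isLittleO (g := fun d : E => ‖d‖ ^ 2) ?_ ?_
  · refine Asymptotics.IsBigO.of_bound 1 (Eventually.of_forall fun d => ?_)
    have h1 := h.max_le (w + d) (h w).1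
    have h2 := h.max_le w (h (w + d)).1
    have h3 := h.norm_sub_le (w + d) w
    have h4 := real_inner_le_norm (p (w + d) - p w) d
    rw [add_sub_cancel_left] at h3
    simp only [inner_add_right, inner_sub_left] at h1 h2 h4
    simp only [innerSL_apply_apply, inner_add_right, Real.norm_eq_abs, one_mul]
    rw [abs_of_nonneg (by positivity : (0 : ℝ) ≤ ‖d‖ ^ 2), abs_le]
    have h5 : ‖p (w + d) - p w‖ * ‖d‖ ≤ ‖d‖ ^ 2 := by
      rw [sq]; exact mul_le_mul_of_nonneg_right h3 (norm_nonneg _)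
    constructor <;> nlinarith [sq_nonneg ‖d‖]
  · simpa using (Asymptotics.isLittleO_norm_pow_id (E' := E) one_lt_two)

theorem symm (h : IsProx K v p) {w : E} {P : E →L[ℝ] E} (hP : HasFDerivAt p P w) (a b : E) :
    ⟪P a, b⟫ = ⟪P b, a⟫ := by
  have h1 : HasFDerivAt (fun y => innerSL ℝ (p y)) ((innerSL ℝ (E := E)).comp P) w :=
    (innerSL ℝ (E := E)).hasFDerivAt.comp w hP
  have := second_derivative_symmetric_of_eventually_of_real
    (Eventually.of_forall fun y => h.hasFDerivAt_pot y) h1 a b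
  simpa using this

theorem firm_deriv (h : IsProx K v p) {w : E} {P : E →L[ℝ] E} (hP : HasFDerivAt p P w) (a : E) :
    ‖P a‖ ^ 2 ≤ ⟪P a, a⟫ := by
  have h1 : HasDerivAt (fun t : ℝ => p (w + t • a)) (P a) 0 := by
    have h2 : HasDerivAt (fun t : ℝ => w + t • a) a 0 := by
      simpa using ((hasDerivAt_id (0 : ℝ)).smul_const a).const_add w
    have h3 : HasFDerivAt p P (w + (0 : ℝ) • a) := by simpa using hP
    exact h3.comp_hasDerivAt (0 : ℝ) h2
  have h2 := h1.tendsto_slope_zero_right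
  have h3 : Tendsto (fun t : ℝ => ‖t⁻¹ • (p (w + (0 + t) • a) - p (w + (0 : ℝ) • a))‖ ^ 2)
      (𝓝[>] 0) (𝓝 (‖P a‖ ^ 2)) := (h2.norm).pow 2
  have h4 : Tendsto (fun t : ℝ => ⟪t⁻¹ • (p (w + (0 + t) • a) - p (w + (0 : ℝ) • a)), a⟫)
      (𝓝[>] 0) (𝓝 ⟪P a, a⟫) := h2.inner tendsto_const_nhds
  refine le_of_tendsto_of_tendsto h3 h4 ?_
  filter_upwards [self_mem_nhdsWithin] with t ht
  have ht : 0 < t := ht
  have h5 := h.firm (w + t • a) w
  rw [add_sub_cancel_left, inner_smul_right] at h5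
  simp only [zero_add, zero_smul, add_zero]
  rw [norm_smul, inner_smul_left, mul_pow, Real.norm_eq_abs, sq_abs]
  simp only [conj_trivial]
  have : t⁻¹ ^ 2 * (t * ⟪p (w + t • a) - p w, a⟫) = t⁻¹ * ⟪p (w + t • a) - p w, a⟫ := by
    field_simp
  rw [← this]
  exact mul_le_mul_of_nonneg_left h5 (by positivity)

theorem isPositive (h : IsProx K v p) {w : E} {P : E →L[ℝ] E} (hP : HasFDerivAt p P w) :
    (P : E →ₗ[ℝ] E).IsPositive := by
  refine ⟨fun a b => ?_, fun a => ?_⟩
  · simp only [ContinuousLinearMap.coe_coe]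
    rw [h.symm hP a b, real_inner_comm]
  · have := h.firm_deriv hP a
    simp only [ContinuousLinearMap.coe_coe, RCLike.re_to_real]
    nlinarith [sq_nonneg ‖P a‖]

theorem isPositive_co (h : IsProx K v p) {w : E} {P : E →L[ℝ] E} (hP : HasFDerivAt p P w) :
    (1 - (P : E →ₗ[ℝ] E)).IsPositive := by
  refine ⟨fun a b => ?_, fun a => ?_⟩
  · simp only [LinearMap.sub_apply, Module.End.one_apply, ContinuousLinearMap.coe_coe,
      inner_sub_left, inner_sub_right]
    rw [h.symm hP a b, real_inner_comm a (P b)]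
  · have h1 := h.firm_deriv hP a
    have h2 := real_inner_le_norm (P a) a
    simp only [LinearMap.sub_apply, Module.End.one_apply, ContinuousLinearMap.coe_coe,
      inner_sub_left, RCLike.re_to_real, real_inner_self_eq_norm_sq]
    have h3 : ‖P a‖ ≤ ‖a‖ := by
      by_contra hc
      push Not at hc
      nlinarith [norm_nonneg a, norm_nonneg (P a)]
    nlinarith [norm_nonneg a, norm_nonneg (P a)]

end IsProx

end Pool.Agent.MP_5f4cdd_gt.T4
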