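import Pool.Agent.MP_5f4cdd_gt.T4Contour
import Pool.Agent.MP_5f4cdd_gt.T4Prox

set_option autoImplicit false
set_option linter.unusedSectionVars false
open Set Filter Topology MeasureTheory Metric
open scoped RealInnerProductSpace NNReal ENNReal

namespace Pool.Agent.MP_5f4cdd_gt.T4

variable {E : Type*} [NormedAddCommGroup E] [InnerProductSpace ℝ E] [FiniteDimensional ℝ E]
  [MeasurableSpace E] [BorelSpace E]

theorem integrable_exp_neg_norm {c : ℝ} (hc : 0 < c) :
    Integrable fun w : E => Real.exp (-c * ‖w‖) := by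
  set k := Module.finrank ℝ E + 1 with hk
  have h1 := (integrable_one_add_norm (E := E) (μ := volume) (r := (k : ℝ))
    (by rw [hk]; push_cast; linarith)).const_mul (Real.exp c * k.factorial / c ^ k)
  refine h1.mono' (Continuous.aestronglyMeasurable (by fun_prop)) (Eventually.of_forall fun w => ?_)
  have h2 := Real.pow_div_factorial_le_exp (c * (1 + ‖w‖)) (by positivity) k
  have h3 : (0 : ℝ) < 1 + ‖w‖ := by positivity
  rw [Real.norm_eq_abs, abs_of_pos (Real.exp_pos _), Real.rpow_neg h3.le, Real.rpow_natCast,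
    ← div_eq_mul_inv, div_div, le_div_iff₀ (by positivity), ← mul_pow]
  rw [div_le_iff₀ (by positivity)] at h2
  calc Real.exp (-c * ‖w‖) * (c * (1 + ‖w‖)) ^ k
      ≤ Real.exp (-c * ‖w‖) * (Real.exp (c * (1 + ‖w‖)) * k.factorial) := by gcongr
    _ = Real.exp c * k.factorial := by
      rw [← mul_assoc, ← Real.exp_add]; congr 2; ring

theorem IsProx.para {A : Set E} {a : E → E} (h : IsProx A (fun _ => 0) a) (hA : Convex ℝ A)
    {w w' : E} (h0 : ⟪a w' - a w, (w' - a w') - (w - a w)⟫ = 0) {t : ℝ} (ht : 0 ≤ t)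
    (ht1 : t ≤ 1) : a (w + t • (w' - w)) = a w + t • (a w' - a w) := by
  refine h.eq_of (hA.add_smul_sub_mem (h.mem w) (h.mem w') ⟨ht, ht1⟩) fun x hx => ?_
  have a1 := (h w).2 x hx
  have a2 := (h w').2 x hx
  have a3 := (h w).2 _ (h.mem w')
  have a4 := (h w').2 _ (h.mem w)
  have e : w + t • (w' - w) - (a w + t • (a w' - a w)) =
      (1 - t) • (w - a w) + t • (w' - a w') := by
    simp only [smul_sub, sub_smul, one_smul]; abel
  rw [e]
  generalize w - a w = τ at *
  generalize w' - a w' = τ' at *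
  have e1 : x - (a w + t • (a w' - a w)) = (x - a w) - t • (a w' - a w) := by abel
  have e2 : x - a w' = (x - a w) - (a w' - a w) := by abel
  have e3 : a w - a w' = -(a w' - a w) := by abel
  rw [e1]
  rw [e2] at a2
  rw [e3] at a4
  generalize a w' - a w = d at *
  generalize x - a w = y at *
  simp only [inner_add_right, inner_sub_left, inner_sub_right, inner_smul_left, inner_smul_right,
    inner_neg_left, conj_trivial, sub_self] at *
  have b1 : ⟪d, τ⟫ = 0 := by linarith
  have b2 : ⟪d, τ'⟫ = 0 := by linarith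
  rw [b1, b2]
  nlinarith

theorem kuperberg {A : Set E} (hAc : IsCompact A) (hA : Convex ℝ A) (hsymm : ∀ x ∈ A, -x ∈ A)
    {ρ : ℝ} (hρ : 0 < ρ) (hball : closedBall 0 ρ ⊆ A) {h : E → ℝ} (hm : Measurable h)
    (hh : ∀ y, ∃ x ∈ A, h y ≤ ⟪x, y⟫) :
    ENNReal.ofReal (Real.pi ^ Module.finrank ℝ E) ≤
      volume A * ∫⁻ y, ENNReal.ofReal (Real.exp (-h y)) := by
  have h0A : (0 : E) ∈ A := hball (mem_closedBall_self hρ.le)
  obtain ⟨a, ha⟩ := exists_isProx (v := fun _ => 0) hAc ⟨0, h0A⟩ (convexOn_const 0 hA)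
    continuousOn_const
  set r : E → E := fun w => (2 : ℝ) • a w - w with hr
  have hrl : LipschitzWith 1 r := LipschitzWith.of_dist_le_mul fun w w' => by
    have := ha.norm_refl_le w w'
    rw [NNReal.coe_one, one_mul, dist_eq_norm, dist_eq_norm]
    have e : r w - r w' = (2 : ℝ) • (a w - a w') - (w - w') := by
      simp only [hr, smul_sub]; abel
    rwa [e]
  have ha0 : a 0 = 0 := ha.eq_of h0A fun x _ => by simp
  have hr0 : ∀ w, ‖r w‖ ≤ ‖w‖ := fun w => by
    have := hrl.dist_le_mul w 0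
    simpa [hr, ha0] using this
  have hsq : ∀ w, -(‖w‖ ^ 2 - ‖r w‖ ^ 2) / 8 = -⟪a w, w - a w⟫ / 2 := fun w => by
    simp only [hr]
    rw [norm_sub_sq_real, norm_smul, inner_smul_left, inner_sub_right, real_inner_self_eq_norm_sq]
    simp only [conj_trivial, Real.norm_ofNat]
    ring
  obtain ⟨R, hR⟩ := hAc.isBounded.exists_norm_le
  have hint : Integrable fun w : E => Real.exp (-(‖w‖ ^ 2 - ‖r w‖ ^ 2) / 8) := by
    refine ((integrable_exp_neg_norm (E := E) (c := ρ / 2) (by positivity)).const_mul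
      (Real.exp (ρ * R / 2))).mono' (Continuous.aestronglyMeasurable ?_)
      (Eventually.of_forall fun w => ?_)
    · have := hrl.continuous
      fun_prop
    · rw [Real.norm_eq_abs, abs_of_pos (Real.exp_pos _), ← Real.exp_add, Real.exp_le_exp, hsq]
      have b1 : ρ * ‖w - a w‖ ≤ ⟪a w, w - a w⟫ := by
        rcases eq_or_ne (w - a w) 0 with h0 | h0
        · simp [h0]
        have hn : 0 < ‖w - a w‖ := norm_pos_iff.2 h0
        have hx : (ρ / ‖w - a w‖) • (w - a w) ∈ A := hball (by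
          rw [mem_closedBall_zero_iff, norm_smul, Real.norm_eq_abs, abs_of_pos (by positivity),
            div_mul_cancel₀ _ hn.ne'])
        have := (ha w).2 _ hx
        rw [inner_sub_left, inner_smul_left, real_inner_self_eq_norm_sq] at this
        simp only [conj_trivial, sub_self] at this
        have e : ρ / ‖w - a w‖ * ‖w - a w‖ ^ 2 = ρ * ‖w - a w‖ := by field_simp
        linarith
      have b2 : ‖w‖ - R ≤ ‖w - a w‖ := by
        linarith [norm_sub_norm_le w (a w), hR _ (ha.mem w)]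
      nlinarith
  have hcont := contour hrl hr0 hint
  simp_rw [hsq] at hcont
  set n := Module.finrank ℝ E with hn
  set L : (E × E) →L[ℝ] (E × E) := (1 / 4 : ℝ) • blk 1 (-1) with hL
  have hLdet : L.det = (1 / 8) ^ n := by
    have e1 : (blk (1 : E →L[ℝ] E) (-1)).det = 2 ^ n := by
      rw [det_blk]
      have : (1 : E →L[ℝ] E) - (-1 : E →L[ℝ] E).comp (1 : E →L[ℝ] E) =
          (2 : ℝ) • (1 : E →L[ℝ] E) := by
        ext v; simp [two_smul]
      rw [this]
      exact (LinearMap.det_smul (2 : ℝ) (LinearMap.id : E →ₗ[ℝ] E)).trans (by simp [hn])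
    have e2 : L.det = (1 / 4 : ℝ) ^ Module.finrank ℝ (E × E) * (blk (1 : E →L[ℝ] E) (-1)).det :=
      LinearMap.det_smul (1 / 4 : ℝ) _
    rw [e2, e1, Module.finrank_prod, ← hn, pow_add, ← mul_pow, ← mul_pow]
    norm_num
  set Θ : E × E → E × E := fun X => L (shear r 1 1 X) with hΘ
  have hΘ1 : ∀ X : E × E, Θ X = ((1 / 2 : ℝ) • (a X.1 + a X.2),
      (1 / 2 : ℝ) • ((X.2 - a X.2) - (X.1 - a X.1))) := by
    intro X
    simp only [hΘ, hL, shear, blk, hr]
    ext1
    · simp; module
    · simp; module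
  set U : Set (E × E) := {w | DifferentiableAt ℝ r w} ×ˢ {w | DifferentiableAt ℝ r w} with hU
  have hUm : MeasurableSet U :=
    (measurableSet_of_differentiableAt ℝ r).prod (measurableSet_of_differentiableAt ℝ r)
  have hU0 : volume Uᶜ = 0 := ae_diff_prod hrl
  have hder : ∀ X ∈ U, HasFDerivAt Θ
      (L.comp (blk ((1 : ℝ) • fderiv ℝ r X.2) ((1 : ℝ) • fderiv ℝ r X.1))) X := fun X hX =>
    L.hasFDerivAt.comp X (hasFDerivAt_blk hX.1 hX.2 1 1)
  have hjac : ∀ X ∈ U, jac Θ X = ENNReal.ofReal ((1 / 8) ^ n *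
      |(1 - (fderiv ℝ r X.1).comp (fderiv ℝ r X.2)).det|) := by
    intro X hX
    unfold jac
    rw [(hder X hX).fderiv]
    have : (L.comp (blk ((1 : ℝ) • fderiv ℝ r X.2) ((1 : ℝ) • fderiv ℝ r X.1))).det =
        L.det * (blk ((1 : ℝ) • fderiv ℝ r X.2) ((1 : ℝ) • fderiv ℝ r X.1)).det :=
      LinearMap.det_comp _ _
    rw [this, hLdet, det_blk, one_smul, one_smul, abs_mul, abs_of_pos (by positivity)]
  set g : E × E → ℝ≥0∞ := fun X => A.indicator 1 X.1 * ENNReal.ofReal (Real.exp (-h X.2)) with hg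
  have hlow := area_lower volume (f := Θ) hUm (fun X hX => (hder X hX).differentiableAt) ?_ g
  · have e1 : ∫⁻ X, g X = volume A * ∫⁻ y, ENNReal.ofReal (Real.exp (-h y)) := by
      rw [Measure.volume_eq_prod, ← lintegral_indicator_one hAc.measurableSet]
      exact lintegral_prod_mul (f := A.indicator 1)
        (g := fun y => ENNReal.ofReal (Real.exp (-h y)))
        ((measurable_one.indicator hAc.measurableSet).aemeasurable)
        (Measurable.aemeasurable (by fun_prop))
    rw [e1] at hlow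
    refine le_trans ?_ hlow
    set G : E × E → ℝ := fun X => |(1 - (fderiv ℝ r X.1).comp (fderiv ℝ r X.2)).det| *
        (Real.exp (-⟪a X.1, X.1 - a X.1⟫ / 2) * Real.exp (-⟪a X.2, X.2 - a X.2⟫ / 2)) with hG
    have e2 : ENNReal.ofReal (Real.pi ^ n) ≤ ∫⁻ X, ENNReal.ofReal ((1 / 8) ^ n * G X) := by
      have b1 : Real.pi ^ n ≤ ∫ X, (1 / 8) ^ n * G X := by
        rw [integral_const_mul]
        calc Real.pi ^ n = (1 / 8) ^ n * (8 * Real.pi) ^ n := by
              rw [← mul_pow]; congr 1; ring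
          _ ≤ _ := by gcongr
      refine (ENNReal.ofReal_le_ofReal b1).trans ?_
      refine (ENNReal.ofReal_le_ofReal (le_abs_self _)).trans ?_
      rw [← Real.norm_eq_abs, ofReal_norm]
      refine (enorm_integral_le_lintegral_enorm _).trans (le_of_eq (lintegral_congr fun X => ?_))
      rw [← ofReal_norm, Real.norm_eq_abs, abs_of_nonneg (by positivity)]
    refine e2.trans ?_
    rw [← Measure.restrict_eq_self_of_ae_mem (s := U) hU0]
    conv_rhs => rw [Measure.restrict_restrict hUm, inter_self]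
    refine setLIntegral_mono' hUm fun X hX => ?_
    rw [hjac X hX, hΘ1]
    have hmem : (1 / 2 : ℝ) • (a X.1 + a X.2) ∈ A := by
      rw [smul_add]
      exact hA (ha.mem _) (ha.mem _) (by norm_num) (by norm_num) (by norm_num)
    simp only [hg, indicator_of_mem hmem, Pi.one_apply, one_mul]
    rw [← ENNReal.ofReal_mul (by positivity), hG, ← mul_assoc]
    refine ENNReal.ofReal_le_ofReal (mul_le_mul_of_nonneg_left ?_ (by positivity))
    rw [← Real.exp_add, Real.exp_le_exp]
    obtain ⟨x, hx, hx'⟩ := hh ((1 / 2 : ℝ) • ((X.2 - a X.2) - (X.1 - a X.1)))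
    have c1 := (ha X.2).2 x hx
    have c2 := (ha X.1).2 (-x) (hsymm x hx)
    rw [inner_smul_right, inner_sub_right] at hx'
    rw [inner_sub_left] at c1 c2
    rw [inner_neg_left] at c2
    simp only [sub_self] at c1 c2
    linarith
  · intro X hX Y _ hXY hne
    rw [hΘ1, hΘ1, Prod.mk.injEq] at hXY
    have i1 : a X.1 + a X.2 = a Y.1 + a Y.2 := smul_right_injective E (by norm_num) hXY.1
    have i2 : (X.2 - a X.2) - (X.1 - a X.1) = (Y.2 - a Y.2) - (Y.1 - a Y.1) :=
      smul_right_injective E (by norm_num) hXY.2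
    have j1 : a Y.2 - a X.2 = -(a Y.1 - a X.1) := by
      rw [eq_neg_iff_add_eq_zero, ← sub_eq_zero.2 i1.symm]; abel
    have j2 : (Y.2 - a Y.2) - (X.2 - a X.2) = (Y.1 - a Y.1) - (X.1 - a X.1) := by
      rw [← sub_eq_zero, ← sub_eq_zero.2 i2.symm]; abel
    have k : ∀ w w' : E, 0 ≤ ⟪a w' - a w, (w' - a w') - (w - a w)⟫ := by
      intro w w'
      have := ha.firm w' w
      have e : (w' - a w') - (w - a w) = (w' - w) - (a w' - a w) := by abel
      rw [e, inner_sub_right, real_inner_self_eq_norm_sq]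
      linarith
    have k1 := k X.1 Y.1
    have k2 := k X.2 Y.2
    have k3 : ⟪a Y.1 - a X.1, (Y.1 - a Y.1) - (X.1 - a X.1)⟫ = 0 := by
      rw [j1, j2, inner_neg_left] at k2
      linarith
    have k4 : ⟪a Y.2 - a X.2, (Y.2 - a Y.2) - (X.2 - a X.2)⟫ = 0 := by
      rw [j1, j2, inner_neg_left, k3, neg_zero]
    refine det_eq_zero_of_segment (d := Y - X) (hder X hX).differentiableAt
      (sub_ne_zero.2 hne.symm) fun t ht ht1 => ?_
    rw [hΘ1, hΘ1]
    simp only [Prod.fst_add, Prod.snd_add, Prod.smul_fst, Prod.smul_snd, Prod.fst_sub,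
      Prod.snd_sub]
    rw [ha.para hA k3 ht ht1, ha.para hA k4 ht ht1, j1]
    have j3 : Y.2 - X.2 = (Y.1 - X.1) - (2 : ℝ) • (a Y.1 - a X.1) := by
      have : Y.2 - X.2 = ((Y.2 - a Y.2) - (X.2 - a X.2)) + (a Y.2 - a X.2) := by abel
      rw [this, j1, j2]; module
    rw [j3]
    congr 2 <;> module

end Pool.Agent.MP_5f4cdd_gt.T4
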