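import Pool.Agent.MP_5f4cdd_gt.T4Main

set_option autoImplicit false
open Set Filter Topology MeasureTheory Metric
open scoped RealInnerProductSpace NNReal ENNReal

namespace Pool.Agent.MP_5f4cdd_gt.T4

theorem mahler_inf_pi (n : ℕ) (K : Set (Fin n → ℝ)) (hc : Convex ℝ K) (hK : IsCompact K)
    (hi : (interior K).Nonempty) :
    ENNReal.ofReal ((5 * Real.pi / 8) ^ n) ≤ volume K * ∫⁻ y : Fin n → ℝ, ENNReal.ofReal
      (Real.exp (-(sSup ((fun x : Fin n → ℝ => ∑ i, x i * y i) '' K)))) := by
  set e := EuclideanSpace.equiv (Fin n) ℝ with he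
  have hmp : MeasurePreserving e := PiLp.volume_preserving_ofLp (Fin n)
  have hemb : MeasurableEmbedding e := e.toHomeomorph.measurableEmbedding
  have h1 : IsCompact (e ⁻¹' K) := e.toHomeomorph.isCompact_preimage.2 hK
  have h2 : Convex ℝ (e ⁻¹' K) := hc.linear_preimage (e : EuclideanSpace ℝ (Fin n) →ₗ[ℝ] _)
  have h3 : (interior (e ⁻¹' K)).Nonempty := by
    have := e.toHomeomorph.preimage_interior K
    simp only [ContinuousLinearEquiv.coe_toHomeomorph] at this
    rw [← this]
    exact hi.preimage e.surjective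
  have h4 := mahler_bound h1 h2 h3
  rw [finrank_euclideanSpace_fin, hmp.measure_preimage hK.measurableSet.nullMeasurableSet] at h4
  rw [← hmp.lintegral_comp_emb hemb]
  refine h4.trans (le_of_eq ?_)
  congr 1
  refine lintegral_congr fun y => ?_
  congr 3
  unfold supp lconj
  congr 1
  ext t
  constructor
  · rintro ⟨x, hx, rfl⟩
    exact ⟨e x, hx, by simp [he, PiLp.inner_apply, mul_comm]⟩
  · rintro ⟨x, hx, rfl⟩
    exact ⟨e.symm x, by simpa using hx, by simp [he, PiLp.inner_apply, mul_comm]⟩

theorem mahler_p_ge (n : ℕ) (K : Set (Fin n → ℝ)) (hK : IsCompact K)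
    (hi : (interior K).Nonempty) {p : ℝ} (hp : 0 < p) (y : Fin n → ℝ) :
    Real.exp (-(sSup ((fun x : Fin n → ℝ => ∑ i, x i * y i) '' K))) ≤
      ((∫ x in K, Real.exp (p * ∑ i, x i * y i)) / (volume K).toReal) ^ (-(1 / p)) := by
  set h := sSup ((fun x : Fin n → ℝ => ∑ i, x i * y i) '' K) with hh
  have hV0 : 0 < volume K := Measure.measure_pos_of_nonempty_interior _ hi
  have hVt : volume K ≠ ⊤ := hK.measure_lt_top.ne
  have hV : 0 < (volume K).toReal := ENNReal.toReal_pos hV0.ne' hVt
  have hcont : Continuous fun x : Fin n → ℝ => Real.exp (p * ∑ i, x i * y i) := by fun_prop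
  have hint := hcont.continuousOn.integrableOn_compact (μ := volume) hK
  have hpos : 0 < ∫ x in K, Real.exp (p * ∑ i, x i * y i) := by
    rw [setIntegral_pos_iff_support_of_nonneg_ae
      (Eventually.of_forall fun x => (Real.exp_pos _).le) hint]
    have : (Function.support fun x : Fin n → ℝ => Real.exp (p * ∑ i, x i * y i)) = univ := by
      ext x; simp
    rwa [this, univ_inter]
  have hle : (∫ x in K, Real.exp (p * ∑ i, x i * y i)) / (volume K).toReal ≤ Real.exp (p * h) := by
    rw [div_le_iff₀ hV]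
    have : ∫ x in K, Real.exp (p * ∑ i, x i * y i) ≤ ∫ _ in K, Real.exp (p * h) := by
      refine setIntegral_mono_on hint (integrableOn_const hVt) hK.measurableSet fun x hx => ?_
      refine Real.exp_le_exp.2 (mul_le_mul_of_nonneg_left ?_ hp.le)
      exact le_csSup (hK.bddAbove_image (Continuous.continuousOn (by fun_prop)))
        (mem_image_of_mem _ hx)
    rwa [setIntegral_const, smul_eq_mul, mul_comm] at this
  have := Real.rpow_le_rpow_of_nonpos (div_pos hpos hV) hle
    (by rw [neg_nonpos]; positivity : -(1 / p) ≤ 0)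
  rwa [← Real.exp_mul, show p * h * -(1 / p) = -h by field_simp] at this

end Pool.Agent.MP_5f4cdd_gt.T4
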