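import Pool.Agent.MP_5f4cdd_gt.WDefs

set_option autoImplicit false
open MeasureTheory Filter Topology

namespace Pool.Agent.MP_5f4cdd_gt

/-- compact convex sets with interior points -/
def IsCB {n : ℕ} (K : Set (Fin n → ℝ)) : Prop :=
  Convex ℝ K ∧ IsCompact K ∧ (interior K).Nonempty

/-- The class of the hand-in.
`perm`: bodies invariant under all permutations of the coordinates that fix one coordinate.
`face`: bodies invariant under all permutations of the barycentric coordinates
`(1 - ∑ x, x 0, ..., x (n-1))` of the standard simplex that preserve a set `J` of vertices.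
In `wedge` and `refl` the coordinates are grouped into three nonempty blocks by `g`, block `0` being
one coordinate. `wedge`: bodies in the positive orthant described by the three block sums.
`refl`: every block is one coordinate, or the body is invariant under the reflections replacing one
coordinate of the block by minus the block sum, or it is invariant under sign changes and
transpositions of the coordinates of the block. The other rules are closure properties. -/
inductive RCls {n : ℕ} : Set (Fin n → ℝ) → Prop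
  | perm (K : Set (Fin n → ℝ)) (I : Fin n) : 3 ≤ n → IsCB K →
      (∀ x ∈ K, ∀ σ : Equiv.Perm (Fin n), σ I = I → x ∘ σ ∈ K) → RCls K
  | face (K : Set (Fin n → ℝ)) (J : Set (Fin (n + 1))) : 3 ≤ n → IsCB K →
      (∀ x ∈ K, ∀ σ : Equiv.Perm (Fin (n + 1)), (∀ i, σ i ∈ J ↔ i ∈ J) →
        (fun i => (Fin.cons (1 - ∑ l, x l) x : Fin (n + 1) → ℝ) (σ i.succ)) ∈ K) → RCls K
  | wedge (K : Set (Fin n → ℝ)) (g : Fin n → Fin 3) (C : Set (Fin 3 → ℝ)) : IsCB K →
      Function.Surjective g → (∀ i i', g i = 0 → g i' = 0 → i = i') →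
      K = {x | (∀ i, 0 ≤ x i) ∧ (fun j => ∑ i with g i = j, x i) ∈ C} → RCls K
  | refl (K : Set (Fin n → ℝ)) (g : Fin n → Fin 3) : IsCB K →
      Function.Surjective g → (∀ i i', g i = 0 → g i' = 0 → i = i') →
      (∀ j, (∀ i i', g i = j → g i' = j → i = i') ∨
        (∀ x ∈ K, ∀ i, g i = j → Function.update x i (-∑ l with g l = j, x l) ∈ K) ∨
        ((∀ x ∈ K, ∀ i, g i = j → Function.update x i (-x i) ∈ K) ∧
          ∀ x ∈ K, ∀ i i', g i = j → g i' = j → x ∘ Equiv.swap i i' ∈ K)) → RCls K
  | norm (k m : ℕ) (e : Fin k ⊕ Fin (m + 1) ≃ Fin n) (B : Set (Fin k → ℝ))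
      (τ : (Fin k → ℝ) → ℝ) (S : Set (Fin (m + 1) → ℝ)) : IsCB (fibS e B τ S) → IsCB S →
      (∀ y ∈ S, ∀ j, Function.update y j (-y j) ∈ S) → (∀ u ∈ B, 0 ≤ τ u) →
      RCls (fibS e B τ (stdS (m + 1))) → RCls (fibS e B τ S)
  | image (K : Set (Fin n → ℝ)) (e : AffineEquiv ℝ (Fin n → ℝ) (Fin n → ℝ)) :
      RCls K → RCls (e '' K)
  | fibre (K L : Set (Fin n → ℝ)) (i : Fin n) : RCls K → RCls L →
      (fun x => Function.update x i 0) '' K = (fun x => Function.update x i 0) '' L →
      RCls {x | ∃ s t : ℝ, Function.update x i s ∈ K ∧ Function.update x i t ∈ L ∧ x i = s + t}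
  | polar (K : Set (Fin n → ℝ)) : RCls K → ∫ x in K, x = 0 →
      RCls {y | ∀ x ∈ K, ∑ i, x i * y i ≤ 1}
  | limit (K : Set (Fin n → ℝ)) (L : ℕ → Set (Fin n → ℝ)) : IsCB K → (∀ j, RCls (L j)) →
      Tendsto (fun j => Metric.hausdorffDist K (L j)) atTop (𝓝 0) → RCls K

end Pool.Agent.MP_5f4cdd_gt
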