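import Mathlib

set_option autoImplicit false
open MeasureTheory ENNReal Set Filter Topology Pointwise

namespace Pool.Agent.MP_5f4cdd_gt.PL

lemma add_le_of_lt {a b c : ℝ≥0∞} (h : ∀ a' < a, ∀ b' < b, a' + b' ≤ c) (ha : ∀ a' < a, a' ≤ c)
    (hb : ∀ b' < b, b' ≤ c) : a + b ≤ c := by
  rcases eq_or_ne a 0 with rfl | ha0
  · rw [zero_add]; exact le_of_forall_lt_imp_le_of_dense hb
  rcases eq_or_ne b 0 with rfl | hb0
  · rw [add_zero]; exact le_of_forall_lt_imp_le_of_dense ha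
  have e1 : a = ⨆ a' : Iio a, (a' : ℝ≥0∞) := by
    refine le_antisymm (le_of_forall_lt_imp_le_of_dense fun x hx => le_iSup_of_le ⟨x, hx⟩ le_rfl)
      (iSup_le fun x => x.2.le)
  have e2 : b = ⨆ b' : Iio b, (b' : ℝ≥0∞) := by
    refine le_antisymm (le_of_forall_lt_imp_le_of_dense fun x hx => le_iSup_of_le ⟨x, hx⟩ le_rfl)
      (iSup_le fun x => x.2.le)
  have : Nonempty (Iio a) := ⟨⟨0, pos_iff_ne_zero.2 ha0⟩⟩
  have : Nonempty (Iio b) := ⟨⟨0, pos_iff_ne_zero.2 hb0⟩⟩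
  rw [e1, e2]
  exact ENNReal.iSup_add_iSup_le fun x y => h x x.2 y y.2

lemma bm_compact {A B C : Set ℝ} (hA : IsCompact A) (hB : IsCompact B) (hAn : A.Nonempty)
    (hBn : B.Nonempty) (h : ∀ x ∈ A, ∀ y ∈ B, x + y ∈ C) : volume A + volume B ≤ volume C := by
  obtain ⟨a, ha, hmax⟩ := hA.exists_isMaxOn hAn continuousOn_id
  obtain ⟨b, hb, hmin⟩ := hB.exists_isMinOn hBn continuousOn_id
  set A' := (fun x => x - b) ⁻¹' A with hA'
  set B' := (fun x => x - a) ⁻¹' B with hB'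
  have hAm : MeasurableSet A' := hA.measurableSet.preimage (measurable_id.sub_const b)
  have hBm : MeasurableSet B' := hB.measurableSet.preimage (measurable_id.sub_const a)
  have vA : volume A' = volume A :=
    (measurePreserving_sub_right volume b).measure_preimage hA.measurableSet.nullMeasurableSet
  have vB : volume B' = volume B :=
    (measurePreserving_sub_right volume a).measure_preimage hB.measurableSet.nullMeasurableSet
  have hint : volume (A' ∩ B') = 0 := by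
    refine measure_mono_null (t := {a + b}) ?_ (measure_singleton _)
    rintro z ⟨h1, h2⟩
    have e1 : z - b ≤ a := hmax h1
    have e2 : b ≤ z - a := hmin h2
    simp only [mem_singleton_iff]
    linarith
  have hun := measure_union_add_inter A' hBm (μ := volume)
  rw [hint, add_zero, vA, vB] at hun
  rw [← hun]
  refine measure_mono ?_
  rintro z (h1 | h2)
  · have := h _ h1 _ hb
    simpa using this
  · have := h _ ha _ h2
    simpa using this

lemma bm_add {A B C : Set ℝ} (hA : MeasurableSet A) (hB : MeasurableSet B) (hAn : A.Nonempty)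
    (hBn : B.Nonempty) (h : ∀ x ∈ A, ∀ y ∈ B, x + y ∈ C) : volume A + volume B ≤ volume C := by
  obtain ⟨a, ha⟩ := hAn
  obtain ⟨b, hb⟩ := hBn
  have key : ∀ K ⊆ A, ∀ L ⊆ B, IsCompact K → IsCompact L → volume K + volume L ≤ volume C := by
    intro K hK L hL cK cL
    refine le_trans (add_le_add (measure_mono (subset_insert a K)) (measure_mono (subset_insert b L)))
      (bm_compact (cK.insert a) (cL.insert b) (insert_nonempty _ _) (insert_nonempty _ _) ?_)
    intro x hx y hy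
    exact h x (insert_subset ha hK hx) y (insert_subset hb hL hy)
  refine add_le_of_lt (fun a' ha' b' hb' => ?_) (fun a' ha' => ?_) (fun b' hb' => ?_)
  · obtain ⟨K, hK, cK, lK⟩ := hA.exists_lt_isCompact ha'
    obtain ⟨L, hL, cL, lL⟩ := hB.exists_lt_isCompact hb'
    exact (add_le_add lK.le lL.le).trans (key K hK L hL cK cL)
  · obtain ⟨K, hK, cK, lK⟩ := hA.exists_lt_isCompact ha'
    exact lK.le.trans (le_self_add.trans (key K hK ∅ (empty_subset _) cK isCompact_empty))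
  · obtain ⟨L, hL, cL, lL⟩ := hB.exists_lt_isCompact hb'
    exact lL.le.trans (le_add_self.trans (key ∅ (empty_subset _) L hL isCompact_empty cL))

/-- one-dimensional Brunn-Minkowski -/
lemma bm1 {α β : ℝ} (hα : 0 < α) (hβ : 0 < β) {A B C : Set ℝ} (hA : MeasurableSet A)
    (hB : MeasurableSet B) (hAn : A.Nonempty) (hBn : B.Nonempty)
    (h : ∀ x ∈ A, ∀ y ∈ B, α * x + β * y ∈ C) :
    ENNReal.ofReal α * volume A + ENNReal.ofReal β * volume B ≤ volume C := by
  have e : ∀ {γ : ℝ}, 0 < γ → ∀ S : Set ℝ, ENNReal.ofReal γ * volume S = volume (γ • S) := by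
    intro γ hγ S
    rw [Measure.addHaar_smul]
    simp [abs_of_pos hγ]
  rw [e hα, e hβ]
  refine bm_add (hA.const_smul₀ α) (hB.const_smul₀ β) hAn.smul_set hBn.smul_set ?_
  rintro _ ⟨x, hx, rfl⟩ _ ⟨y, hy, rfl⟩
  exact h x hx y hy

lemma vol_lt (c : ℝ≥0∞) : volume {t : ℝ | 0 < t ∧ ENNReal.ofReal t < c} = c := by
  rcases eq_or_ne c ∞ with rfl | hc
  · have : {t : ℝ | 0 < t ∧ ENNReal.ofReal t < ∞} = Ioi 0 := by ext t; simp
    rw [this, Real.volume_Ioi]
  · have : {t : ℝ | 0 < t ∧ ENNReal.ofReal t < c} = Ioo 0 c.toReal := by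
      ext t
      simp only [mem_ofPred_eq, mem_Ioo]
      refine and_congr_right fun ht => ?_
      exact ENNReal.ofReal_lt_iff_lt_toReal ht.le hc
    rw [this, Real.volume_Ioo, sub_zero, ENNReal.ofReal_toReal hc]

/-- layer cake formula -/
lemma layer {X : Type*} [MeasurableSpace X] (μ : Measure X) [SFinite μ] {F : X → ℝ≥0∞}
    (hF : Measurable F) :
    ∫⁻ x, F x ∂μ = ∫⁻ t in Ioi (0 : ℝ), μ {x | ENNReal.ofReal t < F x} := by
  have hS : MeasurableSet {q : X × ℝ | ENNReal.ofReal q.2 < F q.1} :=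
    measurableSet_lt (measurable_snd.ennreal_ofReal) (hF.comp measurable_fst)
  have h1 := Measure.prod_apply (μ := μ) (ν := (volume : Measure ℝ).restrict (Ioi 0)) hS
  have h2 := Measure.prod_apply_symm (μ := μ) (ν := (volume : Measure ℝ).restrict (Ioi 0)) hS
  rw [h1] at h2
  refine Eq.trans (lintegral_congr fun x => ?_) h2
  rw [Measure.restrict_apply' measurableSet_Ioi]
  refine (vol_lt (F x)).symm.trans ?_
  congr 1
  ext t
  simp [and_comm]

lemma measurable_level {X : Type*} [MeasurableSpace X] (μ : Measure X) {F : X → ℝ≥0∞} :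
    Measurable fun t : ℝ => μ {x | ENNReal.ofReal t < F x} := by
  refine Antitone.measurable fun s t hst => measure_mono fun x hx => ?_
  exact lt_of_le_of_lt (ENNReal.ofReal_le_ofReal hst) hx

/-- the minimum form of the one-dimensional inequality -/
lemma min_form {α β : ℝ} (hα : 0 < α) (hβ : 0 < β) {F G H : ℝ → ℝ≥0∞} (hF : Measurable F)
    (hG : Measurable G) (hH : Measurable H) (hs : ⨆ x, F x = ⨆ y, G y)
    (h : ∀ x y, min (F x) (G y) ≤ H (α * x + β * y)) :
    ENNReal.ofReal α * (∫⁻ x, F x) + ENNReal.ofReal β * (∫⁻ x, G x) ≤ ∫⁻ x, H x := by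
  rw [layer volume hF, layer volume hG, layer volume hH,
    ← lintegral_const_mul _ (measurable_level volume),
    ← lintegral_const_mul _ (measurable_level volume),
    ← lintegral_add_left ((measurable_level volume).const_mul _)]
  refine lintegral_mono fun t => ?_
  by_cases ht : ENNReal.ofReal t < ⨆ x, F x
  · have ht' := ht
    rw [hs] at ht'
    rw [lt_iSup_iff] at ht ht'
    refine bm1 hα hβ (measurableSet_lt measurable_const hF) (measurableSet_lt measurable_const hG)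
      ht ht' ?_
    intro x hx y hy
    exact lt_of_lt_of_le (lt_min hx hy) (h x y)
  · have ht' := ht
    rw [hs] at ht'
    have e1 : {x | ENNReal.ofReal t < F x} = ∅ := by
      ext x
      simp only [mem_ofPred_eq, mem_empty_iff_false, iff_false]
      exact fun hx => ht (hx.trans_le (le_iSup F x))
    have e2 : {x | ENNReal.ofReal t < G x} = ∅ := by
      ext x
      simp only [mem_ofPred_eq, mem_empty_iff_false, iff_false]
      exact fun hx => ht' (hx.trans_le (le_iSup G x))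
    simp [e1, e2]

lemma trunc {f : ℝ → ℝ≥0∞} (hf : Measurable f) {A : ℝ} (hA0 : 0 < A)
    (hA : ENNReal.ofReal A < ∫⁻ x, f x) :
    ∃ (f' : ℝ → ℝ≥0∞) (M : ℝ), Measurable f' ∧ 0 < M ∧ (⨆ x, f' x) = 1 ∧
      (∀ x, f' x * ENNReal.ofReal M ≤ f x) ∧ ENNReal.ofReal (A / M) ≤ ∫⁻ x, f' x := by
  have h1 : ∫⁻ x, f x = ⨆ k : ℕ, ∫⁻ x, min (f x) k := by
    rw [← lintegral_iSup (fun k => hf.min measurable_const)
      (fun k l hkl x => min_le_min le_rfl (by exact_mod_cast hkl))]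
    refine lintegral_congr fun x => ?_
    rw [← inf_iSup_eq, ENNReal.iSup_natCast]
    simp
  rw [h1, lt_iSup_iff] at hA
  obtain ⟨k, hk⟩ := hA
  set M := ⨆ x, min (f x) (k : ℝ≥0∞) with hM
  have hMt : M ≠ ∞ := ne_top_of_le_ne_top (ENNReal.natCast_ne_top k)
    (iSup_le fun x => min_le_right _ _)
  have hM0 : M ≠ 0 := by
    intro h0
    have : ∀ x, min (f x) (k : ℝ≥0∞) = 0 := fun x =>
      le_antisymm ((le_iSup (fun x => min (f x) (k : ℝ≥0∞)) x).trans h0.le) (zero_le)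
    simp [this] at hk
  refine ⟨fun x => min (f x) k / M, M.toReal, (hf.min measurable_const).div_const _,
    ENNReal.toReal_pos hM0 hMt, ?_, fun x => ?_, ?_⟩
  · rw [← ENNReal.iSup_div, ENNReal.div_self hM0 hMt]
  · rw [ENNReal.ofReal_toReal hMt, ENNReal.div_mul_cancel hM0 hMt]
    exact min_le_left _ _
  · simp only [div_eq_mul_inv]
    rw [lintegral_mul_const _ (hf.min measurable_const), ENNReal.ofReal_mul hA0.le,
      ENNReal.ofReal_inv_of_pos (ENNReal.toReal_pos hM0 hMt), ENNReal.ofReal_toReal hMt]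
    exact mul_le_mul_left hk.le _

/-- general one-dimensional Borell-Brascamp-Lieb scheme -/
lemma bbl1 {α β : ℝ} (hα : 0 < α) (hβ : 0 < β) {f g h : ℝ → ℝ≥0∞} (hf : Measurable f)
    (hg : Measurable g) (hh : Measurable h) (c : ℝ → ℝ → ℝ)
    (hc : ∀ M N, 0 < M → 0 < N → 0 < c M N)
    (H : ∀ M N, 0 < M → 0 < N → ∀ (m : ℝ≥0∞) x y, m * ENNReal.ofReal M ≤ f x →
      m * ENNReal.ofReal N ≤ g y → m * ENNReal.ofReal (c M N) ≤ h (α * x + β * y))
    {A B d : ℝ} (hA0 : 0 < A) (hB0 : 0 < B) (hA : ENNReal.ofReal A < ∫⁻ x, f x)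
    (hB : ENNReal.ofReal B < ∫⁻ x, g x)
    (hd : ∀ M N, 0 < M → 0 < N → d ≤ (α * (A / M) + β * (B / N)) * c M N) :
    ENNReal.ofReal d ≤ ∫⁻ x, h x := by
  obtain ⟨f', M, hf', hM, sf, lf, If⟩ := trunc hf hA0 hA
  obtain ⟨g', N, hg', hN, sg, lg, Ig⟩ := trunc hg hB0 hB
  have c0 : ENNReal.ofReal (c M N) ≠ 0 := by simpa using hc M N hM hN
  have key := min_form hα hβ hf' hg' (hh.div_const (ENNReal.ofReal (c M N))) (sf.trans sg.symm)
    (fun x y => by
      rw [ENNReal.le_div_iff_mul_le (Or.inl c0) (Or.inl ENNReal.ofReal_ne_top)]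
      exact H M N hM hN _ x y ((mul_le_mul_left (min_le_left _ _) _).trans (lf x))
        ((mul_le_mul_left (min_le_right _ _) _).trans (lg y)))
  simp only [div_eq_mul_inv] at key
  rw [lintegral_mul_const _ hh, ← div_eq_mul_inv,
    ENNReal.le_div_iff_mul_le (Or.inl c0) (Or.inl ENNReal.ofReal_ne_top)] at key
  refine le_trans ?_ key
  refine (ENNReal.ofReal_le_ofReal (hd M N hM hN)).trans ?_
  rw [ENNReal.ofReal_mul (by positivity), ENNReal.ofReal_add (by positivity) (by positivity),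
    ENNReal.ofReal_mul hα.le, ENNReal.ofReal_mul hβ.le]
  gcongr

lemma eq_iSup_ofReal {a : ℝ≥0∞} (ha : a ≠ 0) :
    a = ⨆ A : {A : ℝ // 0 < A ∧ ENNReal.ofReal A < a}, ENNReal.ofReal A := by
  refine le_antisymm (le_of_forall_lt_imp_le_of_dense fun x hx => ?_) (iSup_le fun x => x.2.2.le)
  obtain ⟨y, hy1, hy2⟩ := exists_between (max_lt hx (pos_iff_ne_zero.2 ha))
  have hyt : y ≠ ∞ := ne_top_of_lt hy2
  have hy0 : y ≠ 0 := (lt_of_le_of_lt (le_max_right _ _) hy1).ne'
  refine le_iSup_of_le ⟨y.toReal, ENNReal.toReal_pos hy0 hyt, by rwa [ENNReal.ofReal_toReal hyt]⟩ ?_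
  rw [ENNReal.ofReal_toReal hyt]
  exact (le_max_left _ _).trans hy1.le

lemma nonempty_below {a : ℝ≥0∞} (ha : a ≠ 0) :
    Nonempty {A : ℝ // 0 < A ∧ ENNReal.ofReal A < a} := by
  obtain ⟨y, hy1, hy2⟩ := exists_between (pos_iff_ne_zero.2 ha)
  have hyt : y ≠ ∞ := ne_top_of_lt hy2
  exact ⟨⟨y.toReal, ENNReal.toReal_pos hy1.ne' hyt, by rwa [ENNReal.ofReal_toReal hyt]⟩⟩

lemma rpow_mul_le_of_lt {α β : ℝ} (hα : 0 < α) (hβ : 0 < β) {a b c : ℝ≥0∞}
    (h : ∀ A B : ℝ, 0 < A → 0 < B → ENNReal.ofReal A < a → ENNReal.ofReal B < b →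
      ENNReal.ofReal (A ^ α * B ^ β) ≤ c) : a ^ α * b ^ β ≤ c := by
  rcases eq_or_ne a 0 with rfl | ha
  · simp [ENNReal.zero_rpow_of_pos hα]
  rcases eq_or_ne b 0 with rfl | hb
  · simp [ENNReal.zero_rpow_of_pos hβ]
  have e : ∀ {γ : ℝ} (_ : 0 < γ) {ι : Type} (u : ι → ℝ≥0∞), (⨆ i, u i) ^ γ = ⨆ i, u i ^ γ :=
    fun hγ _ u => (ENNReal.orderIsoRpow _ hγ).map_iSup u
  rw [eq_iSup_ofReal ha, eq_iSup_ofReal hb, e hα, e hβ, ENNReal.iSup_mul]
  refine iSup_le fun A => ?_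
  rw [ENNReal.mul_iSup]
  refine iSup_le fun B => ?_
  have := h A B A.2.1 B.2.1 A.2.2 B.2.2
  rwa [ENNReal.ofReal_mul (Real.rpow_nonneg A.2.1.le _), ← ENNReal.ofReal_rpow_of_pos A.2.1,
    ← ENNReal.ofReal_rpow_of_pos B.2.1] at this

lemma inv_le_of_lt {α β : ℝ} (hα : 0 < α) (hβ : 0 < β) {a b c : ℝ≥0∞}
    (h : ∀ A B : ℝ, 0 < A → 0 < B → ENNReal.ofReal A < a → ENNReal.ofReal B < b →
      ENNReal.ofReal ((α / A + β / B)⁻¹) ≤ c) :
    c⁻¹ ≤ ENNReal.ofReal α * a⁻¹ + ENNReal.ofReal β * b⁻¹ := by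
  have hα' : ENNReal.ofReal α ≠ 0 := by simpa using hα
  have hβ' : ENNReal.ofReal β ≠ 0 := by simpa using hβ
  rcases eq_or_ne a 0 with rfl | ha
  · simp [ENNReal.mul_top hα']
  rcases eq_or_ne b 0 with rfl | hb
  · simp [ENNReal.mul_top hβ']
  have := nonempty_below ha
  have := nonempty_below hb
  rw [eq_iSup_ofReal ha, eq_iSup_ofReal hb, ENNReal.inv_iSup, ENNReal.inv_iSup,
    ENNReal.mul_iInf_of_ne hα' ENNReal.ofReal_ne_top, ENNReal.mul_iInf_of_ne hβ' ENNReal.ofReal_ne_top,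
    ENNReal.iInf_add]
  refine le_iInf fun A => ?_
  rw [ENNReal.add_iInf]
  refine le_iInf fun B => ?_
  have h1 := h A B A.2.1 B.2.1 A.2.2 B.2.2
  have hA := A.2.1
  have hB := B.2.1
  rw [ENNReal.ofReal_inv_of_pos (by positivity), ENNReal.inv_le_iff_inv_le,
    ENNReal.ofReal_add (by positivity) (by positivity), ENNReal.ofReal_div_of_pos hA,
    ENNReal.ofReal_div_of_pos hB] at h1
  simpa only [div_eq_mul_inv] using h1

/-- one-dimensional Prekopa-Leindler -/
theorem pl1 {α β : ℝ} (hα : 0 < α) (hβ : 0 < β) (hαβ : α + β = 1) {f g h : ℝ → ℝ≥0∞}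
    (hf : Measurable f) (hg : Measurable g) (hh : Measurable h)
    (H : ∀ x y, f x ^ α * g y ^ β ≤ h (α * x + β * y)) :
    (∫⁻ x, f x) ^ α * (∫⁻ x, g x) ^ β ≤ ∫⁻ x, h x := by
  refine rpow_mul_le_of_lt hα hβ fun A B hA0 hB0 hA hB => ?_
  refine bbl1 hα hβ hf hg hh (fun M N => M ^ α * N ^ β) (fun M N hM hN => by positivity)
    (fun M N hM hN m x y h1 h2 => ?_) hA0 hB0 hA hB (fun M N hM hN => ?_)
  · refine le_trans (le_of_eq ?_) ((mul_le_mul' (ENNReal.rpow_le_rpow h1 hα.le)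
      (ENNReal.rpow_le_rpow h2 hβ.le)).trans (H x y))
    rw [ENNReal.mul_rpow_of_nonneg _ _ hα.le, ENNReal.mul_rpow_of_nonneg _ _ hβ.le,
      ENNReal.ofReal_mul (by positivity), ← ENNReal.ofReal_rpow_of_pos hM,
      ← ENNReal.ofReal_rpow_of_pos hN, mul_mul_mul_comm,
      ← ENNReal.rpow_add_of_nonneg _ _ hα.le hβ.le, hαβ, ENNReal.rpow_one]
  · have := Real.geom_mean_le_arith_mean2_weighted hα.le hβ.le (div_pos hA0 hM).le
      (div_pos hB0 hN).le hαβ
    refine le_trans (le_of_eq ?_) (mul_le_mul_of_nonneg_right this (by positivity))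
    rw [Real.div_rpow hA0.le hM.le, Real.div_rpow hB0.le hN.le]
    have := Real.rpow_pos_of_pos hM α
    have := Real.rpow_pos_of_pos hN β
    field_simp

end Pool.Agent.MP_5f4cdd_gt.PL
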