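import Pool.Agent.MP_5f4cdd_gt.Klee

set_option autoImplicit false
open MeasureTheory ENNReal Set Matrix Topology Filter

namespace Pool.Agent.MP_5f4cdd_gt

variable {n : ℕ}

/-- Laplace transform of a set -/
noncomputable def Lap (p : ℝ) (L : Set (E n)) (y : E n) : ℝ := ∫ x in L, Real.exp (p * (x ⬝ᵥ y))

lemma measurable_Lap (p : ℝ) (L : Set (E n)) : Measurable (Lap p L) := measurable_laplace p L

lemma continuous_exp_dot (p : ℝ) (y : E n) : Continuous fun x : E n => Real.exp (p * (x ⬝ᵥ y)) := by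
  unfold dotProduct; fun_prop

lemma integrableOn_exp_dot (p : ℝ) (y : E n) {L : Set (E n)} {r : ℝ} (hr : 0 ≤ r)
    (hL : L ⊆ cS n r) : IntegrableOn (fun x : E n => Real.exp (p * (x ⬝ᵥ y))) L :=
  ((continuous_exp_dot p y).continuousOn.integrableOn_compact (isCompact_cS hr)).mono_set hL

lemma Lap_pos (p : ℝ) (y : E n) {L : Set (E n)} {r : ℝ} (hr : 0 ≤ r)
    (hL : L ⊆ cS n r) (h0 : volume L ≠ 0) : 0 < Lap p L y := by
  have : NeZero (volume.restrict L) := ⟨by simpa using h0⟩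
  exact integral_exp_pos (integrableOn_exp_dot p y hr hL)

lemma Lap_lower {p : ℝ} (hp : 0 < p) {t : ℝ} (ht0 : 0 < t) (ht1 : t < 1) :
    ∃ c : ℝ, ∀ x₀ ∈ cS n 1, ∀ y : E n,
      c + p * (1 - t) * (x₀ ⬝ᵥ y) ≤ Real.log (Lap p (cS n 1) y) := by
  set v := volume (Metric.closedBall (0 : E n) (t / (n + 1) ^ 2)) with hv
  have hv0 : 0 < v := Metric.measure_closedBall_pos _ _ (by positivity)
  have hvt : v ≠ ∞ := measure_closedBall_lt_top.ne
  have hvr : 0 < v.toReal := ENNReal.toReal_pos hv0.ne' hvt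
  refine ⟨Real.log (v.toReal / 2), fun x₀ hx₀ y => ?_⟩
  set x := (1 - t) • x₀ with hx
  have hxm : x ∈ cS n (1 - t) := by
    have := (smul_mem_cS (a := 1 - t) (r := 1) (by linarith)).2 hx₀
    simpa using this
  set A := Metric.closedBall x (t / (n + 1) ^ 2) ∩ {z | x ⬝ᵥ y ≤ z ⬝ᵥ y} with hA
  have hAm : MeasurableSet A := by
    refine measurableSet_closedBall.inter (measurableSet_le measurable_const ?_)
    unfold dotProduct; fun_prop
  have hAs : A ⊆ cS n 1 := by
    intro w hw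
    have := add_mem_cS hxm (mem_cS_of_norm_le (r := t) (z := w - x)
      (by simpa [dist_eq_norm] using hw.1))
    simpa using this
  have h1 : v ≤ 2 * volume A := by
    rw [hv, ← Measure.addHaar_closedBall_center volume x]
    refine half_ball hAm fun z hz => ?_
    rcases le_total (x ⬝ᵥ y) (z ⬝ᵥ y) with h | h
    · exact Or.inl ⟨hz, h⟩
    · refine Or.inr ⟨?_, ?_⟩
      · rw [Metric.mem_closedBall, dist_eq_norm] at hz ⊢
        have : x + x - z - x = -(z - x) := by abel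
        rwa [this, norm_neg]
      · simp only [mem_ofPred_eq, sub_dotProduct, add_dotProduct]; linarith
  have hAt : volume A ≠ ∞ :=
    ne_top_of_le_ne_top (volume_cS_lt_top zero_le_one).ne (measure_mono hAs)
  have h2 : v.toReal / 2 ≤ volume.real A := by
    have := ENNReal.toReal_mono (by finiteness) h1
    rw [ENNReal.toReal_mul] at this
    simp only [toReal_ofNat] at this
    rw [measureReal_def]; linarith
  have h3 : Real.exp (p * (x ⬝ᵥ y)) * volume.real A ≤ Lap p (cS n 1) y := by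
    refine (setIntegral_ge_of_const_le_real hAm hAt (f := fun z => Real.exp (p * (z ⬝ᵥ y)))
      (fun z hz => Real.exp_le_exp.2 (mul_le_mul_of_nonneg_left hz.2 hp.le))
      (integrableOn_exp_dot p y zero_le_one hAs)).trans ?_
    exact setIntegral_mono_set (integrableOn_exp_dot p y zero_le_one subset_rfl)
      (Eventually.of_forall fun z => (Real.exp_pos _).le) hAs.eventuallyLE
  have h4 : v.toReal / 2 * Real.exp (p * (x ⬝ᵥ y)) ≤ Lap p (cS n 1) y := by
    nlinarith [Real.exp_pos (p * (x ⬝ᵥ y))]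
  have h5 := Real.log_le_log (by positivity) h4
  rw [Real.log_mul (by positivity) (by positivity), Real.log_exp, hx, smul_dotProduct,
    smul_eq_mul, ← mul_assoc] at h5
  exact h5

lemma exists_sign (y : E n) : ∃ x₁ ∈ cS n 1, x₁ ⬝ᵥ y = (1 / (n + 1) ^ 2) * ∑ i, |y i| := by
  refine ⟨fun i => (1 / (n + 1) ^ 2) * (if 0 ≤ y i then 1 else -1), mem_cS_of_norm_le ?_, ?_⟩
  · rw [pi_norm_le_iff_of_nonneg (by positivity)]
    intro i
    split_ifs <;> simp
  · rw [dotProduct, Finset.mul_sum]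
    refine Finset.sum_congr rfl fun i _ => ?_
    split_ifs with h
    · rw [abs_of_nonneg h]; ring
    · rw [abs_of_neg (not_le.1 h)]; ring

lemma integrable_exp_neg_sum {κ : ℝ} (hκ : 0 < κ) :
    Integrable fun y : E n => Real.exp (-κ * ∑ i, |y i|) := by
  have h1 : Integrable fun x : ℝ => Real.exp (-κ * |x|) := by
    rw [← integrableOn_univ, ← Iic_union_Ioi (a := (0 : ℝ)), integrableOn_union]
    constructor
    · refine (integrableOn_exp_mul_Iic hκ 0).congr_fun (fun x hx => ?_) measurableSet_Iic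
      simp only; rw [abs_of_nonpos hx]; ring_nf
    · refine (exp_neg_integrableOn_Ioi 0 hκ).congr_fun (fun x hx => ?_) measurableSet_Ioi
      simp only; rw [abs_of_pos hx]
  have := Integrable.fintype_prod (ι := Fin n) (f := fun _ x => Real.exp (-κ * |x|))
    (μ := fun _ => volume) fun _ => h1
  refine this.congr (Eventually.of_forall fun y => ?_)
  simp only
  rw [Finset.mul_sum, Real.exp_sum]

/-- Laplace transform of the centred simplex -/
noncomputable def Zs (p : ℝ) (y : E n) : ℝ := Lap p (cS n 1) y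

lemma Zs_pos (p : ℝ) (y : E n) : 0 < Zs p y :=
  Lap_pos p y zero_le_one subset_rfl (volume_cS_pos one_pos).ne'

lemma measurable_Zs (p : ℝ) : Measurable (Zs (n := n) p) := measurable_Lap _ _

lemma decay0 {p : ℝ} (hp : 0 < p) : ∃ C κ : ℝ, 0 < κ ∧ ∀ y : E n,
    Zs p y ^ (-(1 / p)) ≤ C * Real.exp (-κ * ∑ i, |y i|) := by
  obtain ⟨c, hc⟩ := Lap_lower (n := n) hp (t := 1 / 2) (by norm_num) (by norm_num)
  refine ⟨Real.exp (-(1 / p) * c), 1 / 2 * (1 / (n + 1) ^ 2), by positivity, fun y => ?_⟩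
  obtain ⟨x₁, hx₁, he⟩ := exists_sign y
  have h1 := hc x₁ hx₁ y
  rw [Real.rpow_def_of_pos (Zs_pos p y), ← Real.exp_add, Real.exp_le_exp]
  rw [he] at h1
  have h2 := mul_le_mul_of_nonneg_left h1 (show 0 ≤ 1 / p by positivity)
  have h3 : 1 / p * (c + p * (1 - 1 / 2) * (1 / (n + 1) ^ 2 * ∑ i, |y i|)) =
      1 / p * c + 1 / 2 * (1 / (n + 1) ^ 2) * ∑ i, |y i| := by field_simp; ring
  rw [h3] at h2
  unfold Zs
  linarith

lemma decay {p : ℝ} (hp : 0 < p) : ∃ C κ : ℝ, 0 < κ ∧ ∀ x ∈ cS n (1 + 1 / p / 4), ∀ y : E n,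
    Real.exp (p * (x ⬝ᵥ y)) * Zs p y ^ (-(1 / p) - 1) ≤ C * Real.exp (-κ * ∑ i, |y i|) := by
  set q := 1 / p with hq
  have hq0 : 0 < q := by positivity
  have hpq : p * q = 1 := by rw [hq]; field_simp
  set τ := (1 + q / 4) / (1 + q / 2) with hτ
  have hτ0 : 0 < τ := by positivity
  have hτ1 : τ < 1 := by rw [hτ, div_lt_one (by positivity)]; linarith
  have hτe : τ * (1 + q / 2) = 1 + q / 4 := by rw [hτ]; field_simp
  obtain ⟨c, hc⟩ := Lap_lower (n := n) hp (t := 1 - τ) (by linarith) (by linarith)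
  refine ⟨Real.exp (-(q + 1) * c), τ / 2 * (1 / (n + 1) ^ 2), by positivity, fun x hx y => ?_⟩
  obtain ⟨x₁, hx₁, he⟩ := exists_sign y
  have h1 := hc x₁ hx₁ y
  have hx₀ : (1 + q / 4)⁻¹ • x ∈ cS n 1 := by
    have := (smul_mem_cS (a := (1 + q / 4)⁻¹) (by positivity)).2 hx
    rwa [inv_mul_cancel₀ (by positivity)] at this
  have h2 := hc _ hx₀ y
  rw [Real.rpow_def_of_pos (Zs_pos p y), ← Real.exp_add, ← Real.exp_add, Real.exp_le_exp]
  have h7 : (1 : ℝ) - (1 - τ) = τ := by ring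
  rw [he, h7] at h1
  rw [smul_dotProduct, smul_eq_mul, h7] at h2
  have h3 := mul_le_mul_of_nonneg_left h1 (show 0 ≤ q / 2 by positivity)
  have h4 := mul_le_mul_of_nonneg_left h2 (show 0 ≤ 1 + q / 2 by positivity)
  have h5 : q / 2 * (c + p * τ * (1 / (n + 1) ^ 2 * ∑ i, |y i|)) =
      q / 2 * c + (p * q) * (τ / 2 * (1 / (n + 1) ^ 2) * ∑ i, |y i|) := by ring
  have h6 : (1 + q / 2) * (c + p * τ * ((1 + q / 4)⁻¹ * x ⬝ᵥ y)) =
      (1 + q / 2) * c + p * (x ⬝ᵥ y) := by
    have : (1 + q / 2) * (p * τ * ((1 + q / 4)⁻¹ * x ⬝ᵥ y)) =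
        p * ((τ * (1 + q / 2)) * (1 + q / 4)⁻¹) * x ⬝ᵥ y := by ring
    rw [mul_add, this, hτe, mul_inv_cancel₀ (by positivity), mul_one]
  rw [h5, hpq] at h3
  rw [h6] at h4
  unfold Zs
  linarith

lemma measurable_wt (p a : ℝ) : Measurable fun y : E n => Zs p y ^ a :=
  (measurable_Zs p).pow_const _

lemma integrable_wt {p : ℝ} (hp : 0 < p) : Integrable fun y : E n => Zs p y ^ (-(1 / p)) := by
  obtain ⟨C, κ, hκ, h⟩ := decay0 (n := n) hp
  refine ((integrable_exp_neg_sum hκ).const_mul C).mono' (measurable_wt p _).aestronglyMeasurable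
    (Eventually.of_forall fun y => ?_)
  rw [Real.norm_eq_abs, abs_of_pos (Real.rpow_pos_of_pos (Zs_pos p y) _)]
  exact h y

lemma integrable_coord_wt {p : ℝ} (hp : 0 < p) (i : Fin n) :
    Integrable fun y : E n => y i * Zs p y ^ (-(1 / p)) := by
  obtain ⟨C, κ, hκ, h⟩ := decay0 (n := n) hp
  refine ((integrable_exp_neg_sum (half_pos hκ)).const_mul (2 / κ * C)).mono'
    ((measurable_pi_apply i).mul (measurable_wt p _)).aestronglyMeasurable
    (Eventually.of_forall fun y => ?_)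
  rw [Real.norm_eq_abs, abs_mul, abs_of_pos (Real.rpow_pos_of_pos (Zs_pos p y) _)]
  have h1 : |y i| ≤ ∑ j, |y j| :=
    Finset.single_le_sum (f := fun j => |y j|) (fun j _ => abs_nonneg _) (Finset.mem_univ i)
  have h2 : κ / 2 * ∑ j, |y j| ≤ Real.exp (κ / 2 * ∑ j, |y j|) := by
    linarith [Real.add_one_le_exp (κ / 2 * ∑ j, |y j|)]
  have h3 : |y i| ≤ 2 / κ * Real.exp (κ / 2 * ∑ j, |y j|) := by
    rw [div_mul_eq_mul_div, le_div_iff₀ hκ]; nlinarith
  calc _ ≤ (2 / κ * Real.exp (κ / 2 * ∑ j, |y j|)) * (C * Real.exp (-κ * ∑ i, |y i|)) :=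
        mul_le_mul h3 (h y) (Real.rpow_pos_of_pos (Zs_pos p y) _).le (by positivity)
    _ = 2 / κ * C * (Real.exp (κ / 2 * ∑ j, |y j|) * Real.exp (-κ * ∑ i, |y i|)) := by ring
    _ = _ := by rw [← Real.exp_add]; ring_nf

lemma integrable_dot_wt {p : ℝ} (hp : 0 < p) (b : E n) :
    Integrable fun y : E n => (b ⬝ᵥ y) * Zs p y ^ (-(1 / p)) := by
  have := integrable_finsetSum Finset.univ fun i _ => (integrable_coord_wt hp i).const_mul (b i)
  refine this.congr (Eventually.of_forall fun y => ?_)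
  simp only
  rw [dotProduct, Finset.sum_mul]
  exact Finset.sum_congr rfl fun i _ => by ring

lemma Zs_adj (p : ℝ) (σ : Equiv.Perm (Fin (n + 1))) (y : E n) :
    Zs p (adj (Tp σ) y) = Zs p y := by
  have h1 := setIntegral_image_lin (Tp σ) (det_Tp_ne σ) (cS n 1) fun x => Real.exp (p * (x ⬝ᵥ y))
  have h2 : Tp σ '' cS n 1 = cS n 1 := by
    ext z
    constructor
    · rintro ⟨x, hx, rfl⟩; exact (Tp_mem_cS σ).2 hx
    · intro hz
      exact ⟨Tp σ⁻¹ z, (Tp_mem_cS _).2 hz, by rw [Tp_Tp, inv_mul_cancel, Tp_one]⟩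
  rw [h2, abs_det_Tp, one_mul] at h1
  simp only [Zs, Lap, ← dot_adj, h1]

lemma integral_comp_adj (σ : Equiv.Perm (Fin (n + 1))) (f : E n → ℝ) :
    ∫ y, f (adj (Tp σ) y) = ∫ y, f y :=
  (measurePreserving_lin _ (by rw [det_adj, abs_det_Tp])).integral_comp
    (measurableEmbedding_lin _ (by rw [det_adj]; exact det_Tp_ne σ)) f

lemma integral_dot_wt {p : ℝ} (hp : 0 < p) (b : E n) :
    ∫ y : E n, (b ⬝ᵥ y) * Zs p y ^ (-(1 / p)) = 0 := by
  have h1 : ∀ i : Fin n, ∫ y : E n, y i * Zs p y ^ (-(1 / p)) = 0 := by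
    intro i
    have h2 := integral_comp_adj (Equiv.swap 0 i.succ)
      fun y : E n => ((Pi.single i 1 : E n) ⬝ᵥ y) * Zs p y ^ (-(1 / p))
    have h3 : Tp (Equiv.swap 0 i.succ) (Pi.single i 1 : E n) = -Pi.single i 1 := by
      ext j
      change bet n _ (Equiv.swap 0 i.succ j.succ) = _
      by_cases hj : j = i
      · subst hj; simp
      · rw [Equiv.swap_apply_of_ne_of_ne (Fin.succ_ne_zero j) (by simpa using hj)]
        simp [hj]
    simp only [Zs_adj, ← dot_adj, h3] at h2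
    simp only [neg_dotProduct, single_dotProduct, one_mul, neg_mul, integral_neg] at h2
    linarith
  have h4 : ∀ y : E n, (b ⬝ᵥ y) * Zs p y ^ (-(1 / p)) = ∑ i, b i * (y i * Zs p y ^ (-(1 / p))) := by
    intro y
    rw [dotProduct, Finset.sum_mul]
    exact Finset.sum_congr rfl fun i _ => by ring
  simp_rw [h4]
  rw [integral_finsetSum _ fun i _ => (integrable_coord_wt hp i).const_mul (b i)]
  simp [integral_const_mul, h1, -one_div]

/-- the dual potential -/
noncomputable def Psi (p : ℝ) (x : E n) : ℝ :=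
  ∫ y : E n, Real.exp (p * (x ⬝ᵥ y)) * Zs p y ^ (-(1 / p) - 1)

lemma measurable_ker (p : ℝ) : Measurable fun q : E n × E n =>
    Real.exp (p * (q.1 ⬝ᵥ q.2)) * Zs p q.2 ^ (-(1 / p) - 1) := by
  refine Measurable.mul ?_ ((measurable_wt p _).comp measurable_snd)
  unfold dotProduct; fun_prop

lemma ker_pos (p : ℝ) (x y : E n) : 0 < Real.exp (p * (x ⬝ᵥ y)) * Zs p y ^ (-(1 / p) - 1) :=
  mul_pos (Real.exp_pos _) (Real.rpow_pos_of_pos (Zs_pos p y) _)

lemma measurable_Psi (p : ℝ) : Measurable (Psi (n := n) p) :=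
  ((measurable_ker p).stronglyMeasurable.integral_prod_right' (ν := volume)).measurable

lemma integrable_ker {p : ℝ} (hp : 0 < p) {x : E n} (hx : x ∈ cS n (1 + 1 / p / 4)) :
    Integrable fun y : E n => Real.exp (p * (x ⬝ᵥ y)) * Zs p y ^ (-(1 / p) - 1) := by
  obtain ⟨C, κ, hκ, h⟩ := decay (n := n) hp
  refine ((integrable_exp_neg_sum hκ).const_mul C).mono'
    ((measurable_ker p).comp (measurable_const.prodMk measurable_id)).aestronglyMeasurable
    (Eventually.of_forall fun y => ?_)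
  rw [Real.norm_eq_abs, abs_of_pos (ker_pos p x y)]
  exact h x hx y

lemma Psi_pos {p : ℝ} (hp : 0 < p) {x : E n} (hx : x ∈ cS n (1 + 1 / p / 4)) : 0 < Psi p x := by
  refine (integral_pos_iff_support_of_nonneg (fun y => (ker_pos p x y).le)
    (integrable_ker hp hx)).2 ?_
  have : Function.support (fun y : E n => Real.exp (p * (x ⬝ᵥ y)) * Zs p y ^ (-(1 / p) - 1)) =
    univ := eq_univ_of_forall fun y => (ker_pos p x y).ne'
  rw [this]
  exact isOpen_univ.measure_pos _ univ_nonempty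

lemma continuousOn_Psi {p : ℝ} (hp : 0 < p) : ContinuousOn (Psi p) (cS n (1 + 1 / p / 4)) := by
  obtain ⟨C, κ, hκ, h⟩ := decay (n := n) hp
  refine continuousOn_of_dominated (bound := fun y => C * Real.exp (-κ * ∑ i, |y i|))
    (fun x _ => ((measurable_ker p).comp
      (measurable_const.prodMk measurable_id)).aestronglyMeasurable)
    (fun x hx => Eventually.of_forall fun y => ?_) ((integrable_exp_neg_sum hκ).const_mul C)
    (Eventually.of_forall fun y => ?_)
  · rw [Real.norm_eq_abs, abs_of_pos (ker_pos p x y)]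
    exact h x hx y
  · exact ((continuous_exp_dot p y).mul continuous_const).continuousOn

lemma Psi_Tp (p : ℝ) (σ : Equiv.Perm (Fin (n + 1))) (x : E n) : Psi p (Tp σ x) = Psi p x := by
  have := integral_comp_adj σ fun y : E n => Real.exp (p * (x ⬝ᵥ y)) * Zs p y ^ (-(1 / p) - 1)
  simp only [Zs_adj, ← dot_adj] at this
  exact this

lemma volume_dot_eq_zero {v : E n} (hv : v ≠ 0) : volume {y : E n | v ⬝ᵥ y = 0} = 0 := by
  let f : E n →ₗ[ℝ] ℝ := ⟨⟨fun y => v ⬝ᵥ y, dotProduct_add v⟩, fun a y => by simp⟩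
  have h1 : {y : E n | v ⬝ᵥ y = 0} = (LinearMap.ker f : Set (E n)) := rfl
  rw [h1]
  refine Measure.addHaar_submodule volume _ fun h => hv ?_
  have h2 : v ∈ LinearMap.ker f := by rw [h]; trivial
  exact dotProduct_self_eq_zero.1 h2

lemma strictConvexOn_Psi {p : ℝ} (hp : 0 < p) : StrictConvexOn ℝ (cS n 1) (Psi p) := by
  have hR : (1 : ℝ) ≤ 1 + 1 / p / 4 := le_add_of_nonneg_right (by positivity)
  refine ⟨convex_cS 1, fun x hx z hz hne a b ha hb hab => ?_⟩
  have ix := integrable_ker hp (cS_mono hR hx)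
  have iz := integrable_ker hp (cS_mono hR hz)
  have ixz := integrable_ker hp (cS_mono hR (convex_cS 1 hx hz ha.le hb.le hab))
  rw [← sub_pos, smul_eq_mul, smul_eq_mul, Psi, Psi, Psi, ← integral_const_mul,
    ← integral_const_mul, ← integral_add (ix.const_mul a) (iz.const_mul b),
    ← integral_sub (f := fun y => a * (Real.exp (p * (x ⬝ᵥ y)) * Zs p y ^ (-(1 / p) - 1)) +
      b * (Real.exp (p * (z ⬝ᵥ y)) * Zs p y ^ (-(1 / p) - 1)))
      ((ix.const_mul a).add (iz.const_mul b)) ixz]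
  have he : ∀ y : E n, p * ((a • x + b • z) ⬝ᵥ y) = a • (p * (x ⬝ᵥ y)) + b • (p * (z ⬝ᵥ y)) := by
    intro y; simp [add_dotProduct, smul_dotProduct]; ring
  have hpos : ∀ y : E n, (x - z) ⬝ᵥ y ≠ 0 → 0 <
      a * (Real.exp (p * (x ⬝ᵥ y)) * Zs p y ^ (-(1 / p) - 1)) +
      b * (Real.exp (p * (z ⬝ᵥ y)) * Zs p y ^ (-(1 / p) - 1)) -
      Real.exp (p * ((a • x + b • z) ⬝ᵥ y)) * Zs p y ^ (-(1 / p) - 1) := by
    intro y hy
    have h1 := strictConvexOn_exp.2 (mem_univ (p * (x ⬝ᵥ y))) (mem_univ (p * (z ⬝ᵥ y)))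
      (fun h => hy (by rw [sub_dotProduct, sub_eq_zero]; exact mul_left_cancel₀ hp.ne' h))
      ha hb hab
    rw [← he] at h1
    have h2 := Real.rpow_pos_of_pos (Zs_pos p y) (-(1 / p) - 1)
    simp only [smul_eq_mul] at h1
    nlinarith
  have hae : ∀ᵐ y : E n, (x - z) ⬝ᵥ y ≠ 0 := by
    rw [ae_iff]; simpa using volume_dot_eq_zero (sub_ne_zero.2 hne)
  refine (integral_pos_iff_support_of_nonneg_ae ?_
    (((ix.const_mul a).add (iz.const_mul b)).sub ixz)).2 ?_
  · filter_upwards [hae] with y hy using (hpos y hy).le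
  · rw [pos_iff_ne_zero]
    intro h0
    have h1 : ∀ᵐ y : E n, False := by
      filter_upwards [hae, measure_eq_zero_iff_ae_notMem.1 h0] with y hy hy'
      exact hy' (hpos y hy).ne'
    exact NeZero.ne (volume : Measure (E n)) (by simpa using h1)

lemma nice_Psi {m : ℕ} {p : ℝ} (hp : 0 < p) : Nice m (1 + 1 / p / 4) (Psi p) :=
  ⟨lt_add_of_pos_right _ (by positivity), measurable_Psi p, continuousOn_Psi hp,
    fun _ hz => Psi_pos hp hz, Psi_Tp p, strictConvexOn_Psi hp⟩

lemma integrable_ker_prod {p : ℝ} (hp : 0 < p) {L : Set (E n)} (hLm : MeasurableSet L)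
    (hL : L ⊆ cS n (1 + 1 / p / 4)) :
    Integrable (fun q : E n × E n => Real.exp (p * (q.1 ⬝ᵥ q.2)) * Zs p q.2 ^ (-(1 / p) - 1))
      ((volume.restrict L).prod volume) := by
  obtain ⟨C, κ, hκ, h⟩ := decay (n := n) hp
  have hfin : volume L ≠ ∞ :=
    ne_top_of_le_ne_top (volume_cS_lt_top (by positivity)).ne (measure_mono hL)
  have h1 : Integrable (fun q : E n × E n => (fun _ : E n => C) q.1 *
      (fun y : E n => Real.exp (-κ * ∑ i, |y i|)) q.2) ((volume.restrict L).prod volume) :=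
    Integrable.mul_prod (integrableOn_const (C := C) hfin) (integrable_exp_neg_sum hκ)
  refine h1.mono' (measurable_ker p).aestronglyMeasurable ?_
  filter_upwards [Measure.quasiMeasurePreserving_fst.ae (ae_restrict_mem hLm)] with q hq
  rw [Real.norm_eq_abs, abs_of_pos (ker_pos p _ _)]
  exact h _ (hL hq) _

lemma integrable_Lap_wt {p : ℝ} (hp : 0 < p) {L : Set (E n)} (hLm : MeasurableSet L)
    (hL : L ⊆ cS n (1 + 1 / p / 4)) :
    Integrable fun y => Lap p L y * Zs p y ^ (-(1 / p) - 1) := by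
  have := (integrable_ker_prod hp hLm hL).integral_prod_right
  simp only [integral_mul_const] at this
  exact this

lemma integral_Lap_wt {p : ℝ} (hp : 0 < p) {L : Set (E n)} (hLm : MeasurableSet L)
    (hL : L ⊆ cS n (1 + 1 / p / 4)) :
    ∫ y, Lap p L y * Zs p y ^ (-(1 / p) - 1) = ∫ x in L, Psi p x := by
  have := integral_integral_swap (f := fun x y : E n =>
    Real.exp (p * (x ⬝ᵥ y)) * Zs p y ^ (-(1 / p) - 1)) (integrable_ker_prod hp hLm hL)
  simp only [integral_mul_const] at this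
  exact this.symm

end Pool.Agent.MP_5f4cdd_gt
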