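import Pool.Agent.MP_5f4cdd_gt.RZero

set_option autoImplicit false
open MeasureTheory ENNReal Set Function Filter Topology Pointwise

namespace Pool.Agent.MP_5f4cdd_gt.W

open PL EF AB

variable {n k m : ℕ}

lemma rbf_sym (x y : E m) : x ⬝ᵥ Gam m y = y ⬝ᵥ Gam m x := by
  rw [dot_Gam, dot_Gam, dotProduct_comm]

lemma rbf_comb (v t : E m) : v ⬝ᵥ Gam m (comb (om m) t) = ∑ j, t j * (v ⬝ᵥ Gam m (om m j)) := by
  simp only [comb, map_sum, map_smul, dotProduct_sum, dotProduct_smul, smul_eq_mul]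

lemma rbf_pos (i j : Fin m) : 0 < om m i ⬝ᵥ Gam m (om m j) := by
  rw [om_dot]
  have h : ((max (i : ℕ) j : ℕ) : ℝ) < m := by exact_mod_cast max_lt i.2 j.2
  exact div_pos (mul_pos (by positivity) (sub_pos.2 h)) (by positivity)

lemma rbf_inv (σ : Equiv.Perm (Fin (m + 1))) (v : E m) : Tp σ (Tp σ⁻¹ v) = v := by
  rw [Tp_Tp, inv_mul_cancel, Tp_one]

lemma rbf_rad {F : Set (E m)} (cF : IsCompact F) (h0 : (0 : E m) ∈ interior F) {w : E m}
    (hw : w ≠ 0) : ∃ r : ℝ, 0 < r ∧ r • w ∈ F ∧ ∀ s : ℝ, s • w ∈ F → s ≤ r := by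
  have he := isClosedEmbedding_smul_left (𝕜 := ℝ) hw
  have h1 : (fun s : ℝ => s • w) ⁻¹' F ∈ 𝓝 (0 : ℝ) :=
    he.continuous.continuousAt.preimage_mem_nhds (by
      simpa only [zero_smul] using mem_interior_iff_mem_nhds.1 h0)
  obtain ⟨s, hs, s0⟩ := (Eventually.and (mem_nhdsWithin_of_mem_nhds h1)
    (self_mem_nhdsWithin (s := Ioi (0 : ℝ)))).exists
  obtain ⟨r, hr, hm⟩ := (he.isCompact_preimage cF).exists_isGreatest ⟨s, hs⟩
  exact ⟨r, s0.trans_le (hm hs), hr, fun s hs => hm hs⟩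

lemma rbf_swap (x : E m) (j : Fin m) : Tp (Equiv.swap j.castSucc j.succ) x ⬝ᵥ Gam m (om m j) =
    x ⬝ᵥ Gam m (om m j) - (bet m x j.castSucc - bet m x j.succ) := by
  have h : j.castSucc ∈ Finset.univ.filter fun s : Fin (m + 1) => s ≤ j.castSucc := by simp
  rw [dot_Gam_om, dot_Gam_om, ← Finset.add_sum_erase _ _ h, ← Finset.add_sum_erase _ _ h,
    bet_Tp_apply, Equiv.swap_apply_left, Finset.sum_congr rfl fun s hs => ?_]
  · ring
  rw [Finset.mem_erase, Finset.mem_filter] at hs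
  rw [bet_Tp_apply, Equiv.swap_apply_of_ne_of_ne hs.1 (hs.2.2.trans_lt j.castSucc_lt_succ).ne]

lemma rbf_pair {F G : Set (E (m + 1))} (cF : IsCompact F) (h : TInv F) {r s : E (m + 1)}
    (hr : ∀ j, 0 < r j) (hs : ∀ j, 0 < s j) (mF : ∀ j, r j • om _ j ∈ F)
    (mG : ∀ j, s j • om _ j ∈ G)
    (eF : ∀ t : E (m + 1), (∀ j, 0 ≤ t j) → comb (om _) t ∈ F → ∑ j, t j / r j ≤ 1)
    (eG : ∀ t : E (m + 1), (∀ j, 0 ≤ t j) → comb (om _) t ∈ G → ∑ j, t j / s j ≤ 1)
    (hG : ∀ z, z ∈ G ↔ ∀ v ∈ F, v ⬝ᵥ Gam _ z ≤ 1) :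
    ∃ i, ∀ j, r i * (om _ i ⬝ᵥ Gam _ (om _ j)) * s j = 1 := by
  have hle : ∀ v ∈ F, ∀ j, v ⬝ᵥ Gam _ (om _ j) * s j ≤ 1 := fun v hv j => by
    have := (hG _).1 (mG j) v hv
    rwa [map_smul, dotProduct_smul, smul_eq_mul, mul_comm] at this
  obtain ⟨x, hx, hmax⟩ := cF.exists_isMaxOn ⟨_, mF 0⟩
    (f := fun v => ∑ j, v ⬝ᵥ Gam _ (om _ j)) (by fun_prop)
  have h0 : 0 < ∑ j, x ⬝ᵥ Gam _ (om _ j) := lt_of_lt_of_le (Finset.sum_pos (fun j _ => by
    rw [smul_dotProduct]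
    exact mul_pos (hr 0) (rbf_pos 0 j)) Finset.univ_nonempty) (hmax (mF 0))
  have h1 := eG (fun _ => (∑ j, x ⬝ᵥ Gam _ (om _ j))⁻¹) (fun _ => (inv_pos.2 h0).le)
    ((hG _).2 fun v hv => by
      rw [rbf_comb, ← Finset.mul_sum, inv_mul_le_one₀ h0]
      exact hmax hv)
  simp only [div_eq_mul_inv] at h1
  rw [← Finset.mul_sum, inv_mul_le_one₀ h0] at h1
  have h2 : ∀ j ∈ Finset.univ, x ⬝ᵥ Gam _ (om _ j) ≤ (s j)⁻¹ := fun j _ => by
    rw [← one_div, le_div_iff₀ (hs j)]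
    exact hle x hx j
  have h3 : ∀ j, x ⬝ᵥ Gam _ (om _ j) * s j = 1 := fun j => by
    rw [(Finset.sum_eq_sum_iff_of_le h2).1 ((Finset.sum_le_sum h2).antisymm h1) j
      (Finset.mem_univ j), inv_mul_cancel₀ (hs j).ne']
  have ht : ∀ j : Fin (m + 1), 0 ≤ bet _ x j.castSucc - bet _ x j.succ := fun j => by
    have := hle _ (h (Equiv.swap j.castSucc j.succ) x hx) j
    rw [rbf_swap, sub_mul, h3, sub_le_self_iff] at this
    exact nonneg_of_mul_nonneg_left this (hs j)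
  obtain ⟨t, ht', rfl⟩ : ∃ t : E (m + 1), (∀ j, 0 ≤ t j) ∧ comb (om _) t = x :=
    ⟨_, ht, comb_om_diff x⟩
  have h4 := eF t ht' hx
  obtain ⟨i, hi⟩ : ∃ i, t i ≠ 0 := by
    by_contra! hc
    have := h3 0
    simp only [rbf_sym (comb _ _), rbf_comb, hc, zero_mul, Finset.sum_const_zero] at this
    exact zero_ne_one this
  refine ⟨i, fun j => ?_⟩
  have h5 : ∀ i ∈ Finset.univ, t i * (om _ j ⬝ᵥ Gam _ (om _ i)) * s j ≤ t i / r i := fun i _ => by
    have := hle _ (mF i) j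
    rw [smul_dotProduct, smul_eq_mul, rbf_sym] at this
    rw [le_div_iff₀ (hr i)]
    nlinarith [mul_le_mul_of_nonneg_left this (ht' i)]
  have h6 := h3 j
  rw [rbf_sym, rbf_comb, Finset.sum_mul] at h6
  have h7 := (Finset.sum_eq_sum_iff_of_le h5).1 ((Finset.sum_le_sum h5).antisymm (h6 ▸ h4)) i
    (Finset.mem_univ i)
  rw [eq_div_iff (hr i).ne', rbf_sym] at h7
  exact mul_left_cancel₀ hi (by linear_combination h7)

lemma rbf_end {i i1 : Fin (m + 1)} (h : ∀ j, om _ i ⬝ᵥ Gam _ (om _ j) *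
    (om _ i1 ⬝ᵥ Gam _ (om _ j)) = om _ i ⬝ᵥ Gam _ (om _ i1) * cA _ j) :
    i1 = 0 ∨ i1 = Fin.last m := by
  have h0 := h 0
  have h1 := h (Fin.last m)
  have hi : (i : ℝ) ≤ m := by exact_mod_cast i.is_le
  have hi1 : (i1 : ℝ) ≤ m := by exact_mod_cast i1.is_le
  have n0 : (0 : ℝ) ≤ i := Nat.cast_nonneg _
  have n1 : (0 : ℝ) ≤ i1 := Nat.cast_nonneg _
  simp only [om_dot, cA, Fin.val_zero, Fin.val_last, Nat.min_zero, Nat.max_zero,
    min_eq_left i.is_le, min_eq_left i1.is_le, max_eq_right i.is_le, max_eq_right i1.is_le] at h0 h1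
  rcases le_total (i : ℕ) i1 with e | e
  · right
    rw [min_eq_left e] at h1
    rw [max_eq_right e] at h1
    push_cast at h1
    field_simp at h1
    have : (i1 : ℝ) = m := by nlinarith
    exact Fin.ext (by exact_mod_cast this)
  · left
    rw [min_eq_right e] at h0
    rw [max_eq_left e] at h0
    push_cast at h0
    have hp : (m + 1 - i : ℝ) ≠ 0 := by linarith
    field_simp at h0
    have : (i1 : ℝ) = 0 := by nlinarith
    exact_mod_cast this

lemma rbf_cS {F : Set (E m)} {b : ℝ} (hb : b ≠ 0) (h : ∀ v, v ∈ F ↔ ∀ l, b * bet m v l ≤ 1) :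
    ∃ a : ℝ, a ≠ 0 ∧ F = a • cS m 1 := by
  have hm : (0 : ℝ) < m + 1 := by positivity
  have ha : -(m + 1) / b ≠ 0 := div_ne_zero (neg_ne_zero.2 hm.ne') hb
  refine ⟨_, ha, Set.ext fun v => ?_⟩
  rw [h, mem_smul_set_iff_inv_smul_mem₀ ha]
  refine forall_congr' fun l => ?_
  rw [map_smul, Pi.smul_apply, smul_eq_mul, inv_div, div_neg, neg_mul, neg_le_neg_iff,
    div_mul_eq_mul_div, div_le_div_iff_of_pos_right hm]

/-- the equality case for bodies with all the symmetries of the simplex -/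
theorem bf_eq {F : Set (E (m + 1))} (hF : Body F) (h : TInv F)
    (hM : mahlerInf F ≤ mahlerInf (cS (m + 1) 1)) : ∃ a : ℝ, a ≠ 0 ∧ F = a • cS (m + 1) 1 := by
  have h0 : (0 : E (m + 1)) ∈ interior F := by
    obtain ⟨v, hv⟩ := hF.int
    refine zero_mem_T hF.conv.interior (fun σ v hv => ?_) hv
    exact interior_maximal (image_subset_iff.2 fun z hz => h σ z (interior_subset hz))
      ((Tp σ).isOpenMap_of_finiteDimensional (fun z => ⟨_, rbf_inv σ z⟩) _ isOpen_interior)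
      (mem_image_of_mem _ hv)
  have hd : LinearMap.det (Gam (m + 1)) ≠ 0 := by
    rw [det_Gam]
    positivity
  have hk : LinearMap.ker (Gam (m + 1)) = ⊥ :=
    by_contra fun e => hd (LinearMap.det_eq_zero_iff_ker_ne_bot.2 e)
  have hP := body_polar hF h0
  obtain ⟨G, hGd⟩ : ∃ G, G = Gam (m + 1) ⁻¹' polarS F := ⟨_, rfl⟩
  have hG : ∀ z, z ∈ G ↔ ∀ v ∈ F, v ⬝ᵥ Gam _ z ≤ 1 := fun z => by rw [hGd]; rfl
  have vG : Convex ℝ G := hGd ▸ hP.conv.linear_preimage _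
  have cG : IsCompact G :=
    hGd ▸ (LinearMap.isClosedEmbedding_of_injective hk).isCompact_preimage hP.comp
  have tG : TInv G := fun σ z hz => (hG _).2 fun v hv => by
    rw [← rbf_inv σ v, dot_Gam_Tp]
    exact (hG z).1 hz _ (h _ v hv)
  have hF' : ∀ v, v ∈ F ↔ ∀ z ∈ G, z ⬝ᵥ Gam _ v ≤ 1 := fun v => by
    refine ⟨fun hv z hz => rbf_sym v z ▸ (hG z).1 hz v hv, fun hv => ?_⟩
    rw [← bipolar hF.conv hF.comp.isClosed (interior_subset h0)]
    intro w hw
    obtain ⟨z, rfl⟩ := LinearMap.injective_iff_surjective.1 (LinearMap.ker_eq_bot.1 hk) w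
    rw [dotProduct_comm, rbf_sym]
    exact hv z (hGd ▸ hw)
  choose r hr mF hmax using fun j => rbf_rad hF.comp h0 (om_ne j)
  obtain ⟨s, hsd⟩ : ∃ s : E (m + 1), ∀ j, s j = (r j * cA _ j)⁻¹ := ⟨_, fun _ => rfl⟩
  have hs : ∀ j, 0 < s j := fun j => hsd j ▸ inv_pos.2 (mul_pos (hr j) (cA_pos j))
  have mG : ∀ j, s j • om _ j ∈ G := fun j => (hG _).2 fun v hv => by
    rw [map_smul, dotProduct_smul, smul_eq_mul, hsd, inv_mul_le_one₀ (mul_pos (hr j) (cA_pos j)),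
      ← div_le_iff₀ (cA_pos j)]
    exact hmax j _ (proj_mem_T hF.conv h hv j)
  have nF : F.Nonempty := ⟨_, mF 0⟩
  have nG : G.Nonempty := ⟨_, mG 0⟩
  have fF := hF.comp.measure_lt_top (μ := volume).ne
  have fG := cG.measure_lt_top (μ := volume).ne
  have pr : 0 < ∏ j, r j := Finset.prod_pos fun j _ => hr j
  have ps : 0 < ∏ j, s j := Finset.prod_pos fun j _ => hs j
  have v1 := (ENNReal.ofReal_le_iff_le_toReal fF).1 (vol_ge_T hF.conv hF.comp nF h hr mF)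
  have v2 := (ENNReal.ofReal_le_iff_le_toReal fG).1 (vol_ge_T vG cG nG tG hs mG)
  have v3 : (volume F).toReal * (volume G).toReal ≤ (∏ j, r j) * ∏ j, s j := by
    have e1 : (∏ j, r j) * ∏ j, s j = (∏ j, cA (m + 1) j)⁻¹ := by
      rw [← Finset.prod_mul_distrib, ← Finset.prod_inv_distrib]
      exact Finset.prod_congr rfl fun j _ => by rw [hsd, mul_inv, mul_inv_cancel_left₀ (hr j).ne']
    have e2 := ENNReal.toReal_mono (mahlerInf_cS_lt_top (n := m + 1)).ne hM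
    have e3 := AB.mahlerInf_cS_le (n := m + 1)
    rw [mahlerInf_polar hF.comp.isBounded (interior_subset h0), ENNReal.toReal_mul,
      ENNReal.toReal_mul, ENNReal.toReal_natCast] at e2
    have hf : (0 : ℝ) < (m + 1).factorial := Nat.cast_pos.2 (Nat.factorial_pos _)
    rw [e1, prod_cA, hGd, Measure.addHaar_preimage_linearMap _ hd, det_Gam, ENNReal.toReal_mul,
      ENNReal.toReal_ofReal (abs_nonneg _), abs_of_pos (by positivity), inv_div, mul_left_comm,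
      le_div_iff₀ (by positivity), mul_assoc, inv_mul_le_iff₀ (by positivity), ← pow_succ']
    nlinarith [mul_le_mul_of_nonneg_left e2 hf.le]
  have eF := fun t ht => eq_T hF.conv hF.comp nF h hr mF
    ((ENNReal.le_ofReal_iff_toReal_le fF pr.le).2 (by nlinarith)) (t := t) ht
  have eG := fun t ht => eq_T vG cG nG tG hs mG
    ((ENNReal.le_ofReal_iff_toReal_le fG ps.le).2 (by nlinarith)) (t := t) ht
  obtain ⟨i, hi⟩ := rbf_pair hF.comp h hr hs mF mG eF eG hG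
  obtain ⟨i1, hi1⟩ := rbf_pair cG tG hs hr mG mF eG eF hF'
  have key : ∀ v, v ∈ F ↔ ∀ σ, s i1 * (Tp σ v ⬝ᵥ Gam _ (om _ i1)) ≤ 1 := fun v => by
    refine ⟨fun hv σ => ?_, fun hv => ?_⟩
    · have := (hG _).1 (mG i1) _ (h σ v hv)
      rwa [map_smul, dotProduct_smul] at this
    obtain ⟨σ, t, ht, e⟩ := sort_T v
    have h1 := hv σ
    rw [e, rbf_sym, rbf_comb, Finset.mul_sum, Finset.sum_congr rfl fun j _ =>
      show _ = t j / r j by rw [eq_div_iff (hr j).ne']; linear_combination t j * hi1 j] at h1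
    have h2 := hF.conv.sum_mem (t := Finset.univ)
      (w := fun o : Option (Fin (m + 1)) => o.elim (1 - ∑ j, t j / r j) fun j => t j / r j)
      (z := fun o => o.elim 0 fun j => r j • om _ j)
      (fun o _ => by cases o; exacts [sub_nonneg.2 h1, div_nonneg (ht _) (hr _).le])
      (by simp [Fintype.sum_option])
      fun o _ => by cases o; exacts [interior_subset h0, mF _]
    simp only [Fintype.sum_option, Option.elim, smul_zero, zero_add, smul_smul,
      div_mul_cancel₀ _ (hr _).ne'] at h2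
    rw [← rbf_inv σ⁻¹ v, inv_inv, e]
    exact h _ _ h2
  have hp : ∀ (l : Fin (m + 2)) (P : Fin (m + 2) → Prop),
      (∀ σ : Equiv.Perm (Fin (m + 2)), P (σ l)) ↔ ∀ l, P l := fun l P =>
    ⟨fun e l' => by simpa using e (Equiv.swap l l'), fun e _ => e _⟩
  rcases rbf_end (i := i) (i1 := i1) (fun j => by
    have e := hsd j
    rw [inv_eq_one_div, eq_div_iff (mul_pos (hr j) (cA_pos j)).ne'] at e
    refine mul_left_cancel₀ (mul_pos (hr i) (hs i1)).ne' ?_
    linear_combination (s i1 * (om _ i1 ⬝ᵥ Gam _ (om _ j)) * r j * cA _ j) * hi j +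
      cA _ j * hi1 j - cA _ j * hi i1 -
      (r i * s i1 * (om _ i ⬝ᵥ Gam _ (om _ j)) * (om _ i1 ⬝ᵥ Gam _ (om _ j))) * e) with rfl | rfl
  · refine rbf_cS (hs 0).ne' fun v => ?_
    rw [key, ← hp 0]
    refine forall_congr' fun σ => ?_
    rw [dot_Gam_om, ← bet_Tp_apply, Finset.sum_eq_single_of_mem 0 (by simp) fun l hl h => ?_]
    exact absurd (by simpa using hl) h
  · refine rbf_cS (neg_ne_zero.2 (hs (Fin.last m)).ne') fun v => ?_
    rw [key, ← hp (Fin.last _)]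
    refine forall_congr' fun σ => ?_
    have e := sum_bet (Tp σ v)
    rw [← Finset.add_sum_erase _ _ (Finset.mem_univ (Fin.last _)), add_eq_zero_iff_neg_eq] at e
    rw [dot_Gam_om, ← bet_Tp_apply, neg_mul_comm, e]
    congr! 3
    ext l
    simp only [Finset.mem_filter, Finset.mem_univ, true_and, Finset.mem_erase, and_true,
      Fin.le_def, Fin.val_castSucc, Fin.val_last, ne_eq, Fin.ext_iff]
    omega

end Pool.Agent.MP_5f4cdd_gt.W
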