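import Pool.Agent.MP_5f4cdd_gt.RDef

set_option autoImplicit false
open MeasureTheory ENNReal Set Function Filter Topology Pointwise

namespace Pool.Agent.MP_5f4cdd_gt.W

open PL EF AB

variable {n k m : ℕ}

lemma rball_holder (m : ℕ) {α β A B p q : ℝ} (hα : 0 < α) (hβ : 0 < β) (hA : 0 < A) (hB : 0 < B)
    (hp : 0 < p) (hq : 0 < q) :
    ((α / A + β / B)⁻¹) ^ (m + 1) ≤
      (α * (A ^ (m + 1) * p ^ (m + 2)) + β * (B ^ (m + 1) * q ^ (m + 2))) *
        ((α * p + β * q)⁻¹) ^ (m + 2) := by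
  set S := α / A + β / B with hS
  have hS0 : 0 < S := by positivity
  have hw : α / A / S + β / B / S = 1 := by rw [← add_div, div_self hS0.ne']
  have h := (convexOn_pow (𝕜 := ℝ) (m + 2)).2 (mem_Ici.2 (mul_pos hp hA).le)
    (mem_Ici.2 (mul_pos hq hB).le) (div_pos (div_pos hα hA) hS0).le
    (div_pos (div_pos hβ hB) hS0).le hw
  simp only [smul_eq_mul] at h
  have e1 : α / A / S * (p * A) + β / B / S * (q * B) = (α * p + β * q) / S := by
    field_simp
  have e2 : α / A / S * (p * A) ^ (m + 2) + β / B / S * (q * B) ^ (m + 2) =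
      (α * (A ^ (m + 1) * p ^ (m + 2)) + β * (B ^ (m + 1) * q ^ (m + 2))) / S := by
    rw [mul_pow, mul_pow, pow_succ A (m + 1), pow_succ B (m + 1)]
    field_simp
  rw [e1, e2, div_pow, div_le_div_iff₀ (by positivity) hS0, pow_succ S (m + 1), ← mul_assoc] at h
  have h' := le_of_mul_le_mul_right h hS0
  rw [inv_pow, inv_pow, ← div_eq_mul_inv, le_div_iff₀ (by positivity),
    inv_mul_le_iff₀ (by positivity), mul_comm (S ^ (m + 1))]
  exact h'

lemma rball_geo (k : ℕ) {a b P Q w : ℝ} (hab : a + b = 1) (hP : 0 < P) (hQ : 0 < Q) (hw : 0 < w) :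
    ((P / w) ^ a * (Q / w) ^ b) ^ k = (w ^ k)⁻¹ * ((P ^ k) ^ a * (Q ^ k) ^ b) := by
  have e2 : w ^ a * w ^ b = w := by rw [← Real.rpow_add hw, hab, Real.rpow_one]
  rw [Real.div_rpow hP.le hw.le, Real.div_rpow hQ.le hw.le, div_mul_div_comm, e2,
    ← Real.rpow_natCast P, ← Real.rpow_natCast Q, ← Real.rpow_mul hP.le, ← Real.rpow_mul hQ.le,
    mul_comm _ a, mul_comm _ b, Real.rpow_mul hP.le, Real.rpow_mul hQ.le, Real.rpow_natCast,
    Real.rpow_natCast, div_pow, mul_pow, div_eq_inv_mul]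

lemma rball_sub (m : ℕ) (f : ℝ → ℝ≥0∞) :
    ∫⁻ x in Ioi (0 : ℝ), ENNReal.ofReal (x ^ m) * f x = ∫⁻ u, (Ioi (0 : ℝ)).indicator
      (fun u => ENNReal.ofReal ((u ^ (m + 2))⁻¹) * f u⁻¹) u := by
  rw [lintegral_inv_Ioi]
  refine lintegral_congr fun u => ?_
  by_cases hu : u ∈ Ioi (0 : ℝ)
  · have hu0 : 0 < u := hu
    rw [indicator_of_mem hu, indicator_of_mem hu, ← mul_assoc,
      ← ENNReal.ofReal_mul (by positivity), inv_pow, ← mul_inv, ← pow_add, add_comm 2 m]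
  · rw [indicator_of_notMem hu, indicator_of_notMem hu]

lemma rball_core (m : ℕ) {α β : ℝ} (hα : 0 < α) (hβ : 0 < β) (hαβ : α + β = 1)
    {f g h : ℝ → ℝ≥0∞} (hf : Measurable f) (hg : Measurable g) (hh : Measurable h)
    (H : ∀ r s a b : ℝ, 0 < r → 0 < s → 0 < a → 0 < b → a + b = 1 → a * β * r = b * α * s →
      f r ^ a * g s ^ b ≤ h (a * r + b * s)) {A B : ℝ} (hA0 : 0 < A) (hB0 : 0 < B)
    (hA : ENNReal.ofReal (A ^ (m + 1)) < ∫⁻ x in Ioi (0 : ℝ), ENNReal.ofReal (x ^ m) * f x)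
    (hB : ENNReal.ofReal (B ^ (m + 1)) < ∫⁻ x in Ioi (0 : ℝ), ENNReal.ofReal (x ^ m) * g x) :
    ENNReal.ofReal (((α / A + β / B)⁻¹) ^ (m + 1)) ≤
      ∫⁻ x in Ioi (0 : ℝ), ENNReal.ofReal (x ^ m) * h x := by
  obtain ⟨R, hR0, hR⟩ : ∃ R : ℝ → ℝ, (∀ M, 0 < M → 0 < R M) ∧ ∀ M, 0 < M → R M ^ (m + 2) = M :=
    ⟨fun M => M ^ (((m + 2 : ℕ) : ℝ)⁻¹), fun M hM => Real.rpow_pos_of_pos hM _,
      fun M hM => Real.rpow_inv_natCast_pow hM.le (by omega)⟩
  have hm : ∀ {f : ℝ → ℝ≥0∞}, Measurable f → Measurable ((Ioi (0 : ℝ)).indicator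
      (fun u => ENNReal.ofReal ((u ^ (m + 2))⁻¹) * f u⁻¹)) := fun hf =>
    Measurable.indicator (((measurable_id.pow_const (m + 2)).inv.ennreal_ofReal).mul
      (hf.comp measurable_inv)) measurableSet_Ioi
  have hlow : ∀ {f : ℝ → ℝ≥0∞} {c : ℝ≥0∞} {M u : ℝ}, c ≠ 0 → 0 < M →
      c * ENNReal.ofReal M ≤ (Ioi (0 : ℝ)).indicator
        (fun u => ENNReal.ofReal ((u ^ (m + 2))⁻¹) * f u⁻¹) u →
      0 < u ∧ c * ENNReal.ofReal ((R M * u) ^ (m + 2)) ≤ f u⁻¹ := by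
    intro f c M u hm0 hM h1
    have hu : 0 < u := by
      by_contra hu
      rw [indicator_of_notMem (by simpa using hu)] at h1
      simp only [nonpos_iff_eq_zero, mul_eq_zero, ENNReal.ofReal_eq_zero] at h1
      rcases h1 with h1 | h1
      · exact hm0 h1
      · linarith
    refine ⟨hu, ?_⟩
    rw [indicator_of_mem (mem_Ioi.2 hu)] at h1
    have h2 := mul_le_mul_left h1 (ENNReal.ofReal (u ^ (m + 2)))
    rw [mul_right_comm (ENNReal.ofReal _), ← ENNReal.ofReal_mul (by positivity),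
      inv_mul_cancel₀ (by positivity), ENNReal.ofReal_one, one_mul, mul_assoc,
      ← ENNReal.ofReal_mul hM.le] at h2
    rwa [mul_pow, hR M hM]
  rw [rball_sub] at hA hB ⊢
  refine bbl1 hα hβ (hm hf) (hm hg) (hm hh) (fun M N => ((α / R M + β / R N)⁻¹) ^ (m + 2))
    (fun M N hM hN => by have := hR0 M hM; have := hR0 N hN; positivity)
    (fun M N hM hN c u v h1 h2 => ?_) (pow_pos hA0 _) (pow_pos hB0 _) hA hB
    (fun M N hM hN => ?_)
  · rcases eq_or_ne c 0 with rfl | hm0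
    · simp
    obtain ⟨hu, h1⟩ := hlow hm0 hM h1
    obtain ⟨hv, h2⟩ := hlow hm0 hN h2
    set w := α * u + β * v with hw
    have hw0 : 0 < w := by positivity
    set a := α * u / w with ha
    set b := β * v / w with hb
    have ha0 : 0 < a := by positivity
    have hb0 : 0 < b := by positivity
    have hab : a + b = 1 := by rw [ha, hb, ← add_div, div_self hw0.ne']
    have key := H u⁻¹ v⁻¹ a b (inv_pos.2 hu) (inv_pos.2 hv) ha0 hb0 hab (by
      rw [ha, hb]; field_simp)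
    have e : a * u⁻¹ + b * v⁻¹ = w⁻¹ := by
      rw [ha, hb]; field_simp; linarith
    rw [e] at key
    rw [indicator_of_mem (mem_Ioi.2 hw0)]
    have key2 := (mul_le_mul' (ENNReal.rpow_le_rpow h1 ha0.le)
      (ENNReal.rpow_le_rpow h2 hb0.le)).trans key
    have sM := hR0 M hM
    have sN := hR0 N hN
    rw [ENNReal.mul_rpow_of_nonneg _ _ ha0.le, ENNReal.mul_rpow_of_nonneg _ _ hb0.le,
      mul_mul_mul_comm, ← ENNReal.rpow_add_of_nonneg _ _ ha0.le hb0.le, hab, ENNReal.rpow_one,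
      ENNReal.ofReal_rpow_of_pos (by positivity), ENNReal.ofReal_rpow_of_pos (by positivity),
      ← ENNReal.ofReal_mul (by positivity)] at key2
    refine le_trans ?_ (mul_le_mul_right key2 _)
    rw [mul_left_comm, ← ENNReal.ofReal_mul (by positivity)]
    refine mul_le_mul_right (ENNReal.ofReal_le_ofReal ?_) _
    have g1 := hm_le_gm ha0 hb0 hab (P := R M * u / w) (Q := R N * v / w) (by positivity)
      (by positivity)
    have e1 : a / (R M * u / w) + b / (R N * v / w) = α / R M + β / R N := by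
      rw [ha, hb]; field_simp
    rw [e1] at g1
    exact (pow_le_pow_left₀ (by positivity) g1 (m + 2)).trans
      (rball_geo (m + 2) hab (by positivity) (by positivity) hw0).le
  · have sM := hR0 M hM
    have sN := hR0 N hN
    have eM : A ^ (m + 1) / M = A ^ (m + 1) * (R M)⁻¹ ^ (m + 2) := by
      rw [inv_pow, hR M hM, div_eq_mul_inv]
    have eN : B ^ (m + 1) / N = B ^ (m + 1) * (R N)⁻¹ ^ (m + 2) := by
      rw [inv_pow, hR N hN, div_eq_mul_inv]
    rw [eM, eN, div_eq_mul_inv α (R M), div_eq_mul_inv β (R N)]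
    exact rball_holder m hα hβ hA0 hB0 (inv_pos.2 sM) (inv_pos.2 sN)

lemma rball_pow (m : ℕ) {A : ℝ} (hA : 0 < A) :
    ENNReal.ofReal (A ^ (m + 1)) ^ (1 / (m + 1 : ℝ)) = ENNReal.ofReal A := by
  rw [ENNReal.ofReal_rpow_of_pos (pow_pos hA _), one_div]
  congr 1
  have := Real.pow_rpow_inv_natCast hA.le (n := m + 1) (by omega)
  rwa [Nat.cast_add, Nat.cast_one] at this

/-- Ball's lemma with a power weight -/
theorem ball_gen (m : ℕ) {α β : ℝ} (hα : 0 < α) (hβ : 0 < β) (hαβ : α + β = 1)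
    {f g h : ℝ → ℝ≥0∞} (hf : Measurable f) (hg : Measurable g) (hh : Measurable h)
    (H : ∀ r s a b : ℝ, 0 < r → 0 < s → 0 < a → 0 < b → a + b = 1 → a * β * r = b * α * s →
      f r ^ a * g s ^ b ≤ h (a * r + b * s)) :
    (∫⁻ x in Ioi (0 : ℝ), ENNReal.ofReal (x ^ m) * h x) ^ (-(1 / (m + 1 : ℝ))) ≤
      ENNReal.ofReal α *
        (∫⁻ x in Ioi (0 : ℝ), ENNReal.ofReal (x ^ m) * f x) ^ (-(1 / (m + 1 : ℝ))) +
      ENNReal.ofReal β *
        (∫⁻ x in Ioi (0 : ℝ), ENNReal.ofReal (x ^ m) * g x) ^ (-(1 / (m + 1 : ℝ))) := by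
  have ht : (0 : ℝ) < 1 / (m + 1 : ℝ) := by positivity
  rw [ENNReal.rpow_neg, ENNReal.rpow_neg, ENNReal.rpow_neg]
  refine inv_le_of_lt hα hβ fun A B hA0 hB0 hA hB => ?_
  rw [← rball_pow m hA0, ENNReal.rpow_lt_rpow_iff ht] at hA
  rw [← rball_pow m hB0, ENNReal.rpow_lt_rpow_iff ht] at hB
  rw [← rball_pow m (A := (α / A + β / B)⁻¹) (by positivity)]
  exact ENNReal.rpow_le_rpow (rball_core m hα hβ hαβ hf hg hh H hA0 hB0 hA hB) ht.le

end Pool.Agent.MP_5f4cdd_gt.W
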