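import Pool.Agent.MP_5f4cdd_gt.RDef

set_option autoImplicit false
open MeasureTheory ENNReal Set Function Filter Topology Pointwise

namespace Pool.Agent.MP_5f4cdd_gt.W

open PL EF AB

variable {n k m : ℕ}

lemma rbasic_count (m j : ℕ) (h : j ≤ m) :
    ∑ i : Fin m, (if (i : ℕ) < j then (1 : ℝ) else 0) = j := by
  rw [Fin.sum_univ_eq_sum_range (fun i => if i < j then (1 : ℝ) else 0) m, Finset.sum_ite]
  have : (Finset.range m).filter (fun i => i < j) = Finset.range j := by
    ext i; simp only [Finset.mem_filter, Finset.mem_range]; omega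
  simp [this]

theorem bet_om (j : Fin m) (s : Fin (m + 1)) :
    bet m (om m j) s = (if (s : ℕ) ≤ (j : ℕ) then 1 else 0) - ((j : ℕ) + 1 : ℝ) / (m + 1) := by
  refine Fin.cases ?_ (fun i => ?_) s
  · have h := rbasic_count m j j.2.le
    have hm : (0 : ℝ) < m + 1 := by positivity
    simp only [bet_zero, om, Finset.sum_sub_distrib, h, Finset.sum_const, Finset.card_univ,
      Fintype.card_fin, nsmul_eq_mul, Fin.val_zero, zero_le, if_true]
    field_simp
    ring
  · simp only [bet_succ, om, Fin.val_succ, Nat.succ_le_iff]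

theorem dot_Gam (v z : E m) : v ⬝ᵥ Gam m z = bet m v ⬝ᵥ bet m z := by
  simp only [dotProduct, Fin.sum_univ_succ, bet_zero, bet_succ, Gam, LinearMap.coe_mk,
    AddHom.coe_mk, mul_add, Finset.sum_add_distrib, ← Finset.sum_mul]
  ring

theorem det_Gam : LinearMap.det (Gam m) = m + 1 := by
  have h : Gam m = Matrix.toLin' (1 + Matrix.replicateCol Unit (fun _ : Fin m => (1 : ℝ)) *
      Matrix.replicateRow Unit (fun _ : Fin m => (1 : ℝ))) := by
    refine LinearMap.ext fun z => ?_
    ext i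
    simp [Gam, Matrix.mulVec, dotProduct, Matrix.mul_apply]
  rw [h, LinearMap.det_toLin', Matrix.det_one_add_replicateCol_mul_replicateRow]
  simp [dotProduct, add_comm]

theorem dot_Gam_om (v : E m) (j : Fin m) :
    v ⬝ᵥ Gam m (om m j) = ∑ s : Fin (m + 1) with s ≤ j.castSucc, bet m v s := by
  rw [dot_Gam, Finset.sum_filter]
  simp only [dotProduct, bet_om, mul_sub, Finset.sum_sub_distrib, ← Finset.sum_mul, sum_bet,
    zero_mul, sub_zero]
  refine Finset.sum_congr rfl fun s _ => ?_
  have : s ≤ j.castSucc ↔ (s : ℕ) ≤ (j : ℕ) := by rw [Fin.le_def]; simp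
  simp only [this]
  split_ifs <;> simp

theorem om_dot (i j : Fin m) : om m i ⬝ᵥ Gam m (om m j) =
    ((min (i : ℕ) j : ℕ) + 1 : ℝ) * (m - (max (i : ℕ) j : ℕ)) / (m + 1) := by
  rw [dot_Gam_om, Finset.sum_filter]
  have hm : (0 : ℝ) < m + 1 := by positivity
  have e : ∀ s : Fin (m + 1), (if s ≤ j.castSucc then bet m (om m i) s else 0) =
      (if (s : ℕ) < min (i : ℕ) j + 1 then (1 : ℝ) else 0) -
        (if (s : ℕ) < (j : ℕ) + 1 then (1 : ℝ) else 0) * (((i : ℕ) + 1 : ℝ) / (m + 1)) := by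
    intro s
    have h1 : s ≤ j.castSucc ↔ (s : ℕ) ≤ (j : ℕ) := by rw [Fin.le_def]; simp
    simp only [h1, bet_om]
    split_ifs <;> first | omega | simp
  have hi := i.2
  have hj := j.2
  simp only [e, Finset.sum_sub_distrib, ← Finset.sum_mul]
  rw [rbasic_count (m + 1) _ (by omega), rbasic_count (m + 1) _ (by omega)]
  rcases le_total (i : ℕ) j with h | h
  · rw [min_eq_left h, max_eq_right h]; push_cast; field_simp; ring
  · rw [min_eq_right h, max_eq_left h]; push_cast; field_simp; ring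

theorem om_dot_self (j : Fin m) : om m j ⬝ᵥ Gam m (om m j) = cA m j := by
  rw [om_dot, min_self, max_self, cA]

theorem cA_pos (j : Fin m) : 0 < cA m j := by
  have h : ((j : ℕ) : ℝ) < m := by exact_mod_cast j.2
  have h2 : (0 : ℝ) < m - (j : ℕ) := by linarith
  unfold cA
  positivity

theorem om_ne (j : Fin m) : om m j ≠ 0 := by
  intro h
  have h1 := om_dot_self j
  have h2 := cA_pos j
  rw [h] at h1
  simp at h1
  linarith

lemma rbasic_fact : ∏ j : Fin m, ((j : ℕ) + 1 : ℝ) = m.factorial := by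
  rw [Fin.prod_univ_eq_prod_range (fun j => ((j : ℕ) + 1 : ℝ)) m,
    ← Finset.prod_range_add_one_eq_factorial]
  push_cast
  rfl

theorem prod_cA : ∏ j, cA m j = (m.factorial : ℝ) ^ 2 / (m + 1) ^ m := by
  have h1 : ∏ j : Fin m, ((m : ℝ) - (j : ℕ)) = m.factorial := by
    rw [← rbasic_fact, ← Equiv.prod_comp Fin.revPerm]
    refine Finset.prod_congr rfl fun j _ => ?_
    have := j.2
    simp only [Fin.revPerm_apply, Fin.val_rev]
    rw [Nat.cast_sub (by omega)]
    push_cast
    ring
  simp only [cA, Finset.prod_div_distrib, Finset.prod_mul_distrib, rbasic_fact, h1,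
    Finset.prod_const, Finset.card_univ, Fintype.card_fin, sq]

theorem bet_comb_sub (r : E m) (j : Fin m) :
    bet m (comb (om m) r) j.castSucc - bet m (comb (om m) r) j.succ = r j := by
  simp only [comb, map_sum, map_smul, Finset.sum_apply, Pi.smul_apply, smul_eq_mul, bet_om,
    ← Finset.sum_sub_distrib, Fin.val_castSucc, Fin.val_succ]
  rw [Finset.sum_eq_single j]
  · simp; ring
  · intro b _ hb
    have : (b : ℕ) ≠ j := fun h => hb (Fin.ext h)
    split_ifs <;> first | omega | ring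
  · simp

theorem comb_om_diff (v : E m) :
    comb (om m) (fun j => bet m v j.castSucc - bet m v j.succ) = v := by
  apply bet_injective
  set a := bet m (comb (om m) (fun j => bet m v j.castSucc - bet m v j.succ)) with ha
  have hd : ∀ s : Fin (m + 1), a s - bet m v s = a 0 - bet m v 0 := by
    intro s
    induction s using Fin.induction with
    | zero => rfl
    | succ i ih =>
      have := bet_comb_sub (fun j => bet m v j.castSucc - bet m v j.succ) i
      rw [← ha] at this
      linarith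
  have hs : ∑ s, (a s - bet m v s) = 0 := by
    rw [Finset.sum_sub_distrib, ha, sum_bet, sum_bet, sub_zero]
  simp only [hd, Finset.sum_const, Finset.card_univ, Fintype.card_fin, nsmul_eq_mul] at hs
  have hm : ((m + 1 : ℕ) : ℝ) ≠ 0 := by positivity
  have h0 := (mul_eq_zero.1 hs).resolve_left hm
  ext s
  have := hd s
  linarith

theorem dot_Gam_Tp (σ : Equiv.Perm (Fin (m + 1))) (v z : E m) :
    Tp σ v ⬝ᵥ Gam m (Tp σ z) = v ⬝ᵥ Gam m z := by
  rw [dot_Gam, dot_Gam, bet_Tp, bet_Tp]
  exact Equiv.sum_comp σ (fun s => bet m v s * bet m z s)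

theorem sort_T (v : E m) : ∃ (σ : Equiv.Perm (Fin (m + 1))) (t : E m),
    (∀ j, 0 ≤ t j) ∧ Tp σ v = comb (om m) t := by
  refine ⟨Tuple.sort (fun s => -bet m v s), _, fun j => ?_, (comb_om_diff _).symm⟩
  have := Tuple.monotone_sort (fun s => -bet m v s) (Fin.castSucc_lt_succ (i := j)).le
  simp only [Function.comp] at this
  rw [bet_Tp_apply, bet_Tp_apply]
  linarith

lemma rbasic_swap (v : E m) (i : Fin m) :
    Tp (Equiv.swap 0 i.succ) v = update v i (-∑ l, v l) := by
  ext l
  change bet m v (Equiv.swap 0 i.succ l.succ) = _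
  by_cases h : l = i
  · subst h; simp
  · rw [Equiv.swap_apply_of_ne_of_ne (Fin.succ_ne_zero l)
      (fun h' => h (Fin.succ_injective _ h')), update_of_ne h, bet_succ]

theorem tinv_of_gen {F : Set (E m)} (h : ∀ v ∈ F, ∀ i, update v i (-∑ l, v l) ∈ F) : TInv F := by
  have h0 : ∀ a : Fin (m + 1), ∀ v ∈ F, Tp (Equiv.swap 0 a) v ∈ F := by
    intro a v hv
    refine Fin.cases ?_ (fun i => ?_) a
    · rw [Equiv.swap_self]
      exact (Tp_one v).symm ▸ hv
    · rw [rbasic_swap]; exact h v hv i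
  have h1 : ∀ a b : Fin (m + 1), a ≠ b → ∀ v ∈ F, Tp (Equiv.swap a b) v ∈ F := by
    intro a b hab v hv
    by_cases ha : a = 0
    · rw [ha]; exact h0 b v hv
    by_cases hb : b = 0
    · rw [hb, Equiv.swap_comm]; exact h0 a v hv
    have e : Equiv.swap a b = Equiv.swap 0 a * Equiv.swap 0 b * Equiv.swap 0 a := by
      rw [Equiv.swap_comm 0 b, Equiv.swap_mul_swap_mul_swap hb hab.symm]
    rw [e, ← Tp_Tp, ← Tp_Tp]
    exact h0 _ _ (h0 _ _ (h0 _ _ hv))
  intro σ
  induction σ using Equiv.Perm.swap_induction_on with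
  | one => intro v hv; rwa [Tp_one]
  | swap_mul f x y hxy ih =>
    intro v hv
    rw [← Tp_Tp]
    exact ih _ (h1 x y hxy v hv)

theorem sinv_of_gen {F : Set (E m)} (h1 : ∀ v ∈ F, ∀ i, update v i (-v i) ∈ F)
    (h2 : ∀ v ∈ F, ∀ i i', v ∘ Equiv.swap i i' ∈ F) : SInv F := by
  refine ⟨h1, fun σ => ?_⟩
  induction σ using Equiv.Perm.swap_induction_on with
  | one => intro v hv; exact hv
  | swap_mul f x y _ ih =>
    intro v hv
    exact ih _ (h2 v hv x y)

theorem omB_dot_self (j : Fin m) : omB m j ⬝ᵥ omB m j = ((j : ℕ) + 1 : ℝ) := by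
  have h := rbasic_count m ((j : ℕ) + 1) j.2
  push_cast at h
  rw [← h]
  refine Finset.sum_congr rfl fun i _ => ?_
  have : i ≤ j ↔ (i : ℕ) < (j : ℕ) + 1 := by rw [Fin.le_def]; omega
  simp only [omB, this]
  split_ifs <;> simp

theorem omB_ne (j : Fin m) : omB m j ≠ 0 := by
  intro h
  have := congrFun h j
  simp [omB] at this

theorem prod_cB : ∏ j : Fin m, ((j : ℕ) + 1 : ℝ) = m.factorial := by
  exact rbasic_fact

end Pool.Agent.MP_5f4cdd_gt.W
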