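import Pool.Agent.MP_5f4cdd_gt.RFix

set_option autoImplicit false
open MeasureTheory ENNReal Set Function Filter Topology Pointwise

namespace Pool.Agent.MP_5f4cdd_gt.W

open PL EF AB

variable {n k m : ℕ}

lemma rzb_update (e : Fin k ⊕ Fin m ≃ Fin n) (u : E k) (v : E m) (b : Fin m) (t : ℝ) :
    wpf_j e (u, update v b t) = update (wpf_j e (u, v)) (e (Sum.inr b)) t := by
  ext i
  obtain ⟨c, rfl⟩ := e.surjective i
  rcases c with a | c
  · rw [update_of_ne (by simp), wpf_j_inl, wpf_j_inl]
  · rcases eq_or_ne c b with rfl | hc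
    · rw [update_self, wpf_j_inr]
      exact update_self _ _ _
    · rw [update_of_ne (by simpa using hc), wpf_j_inr, wpf_j_inr]
      exact update_of_ne hc _ _

lemma rzb_swap (e : Fin k ⊕ Fin m ≃ Fin n) (u : E k) (v : E m) (b b' : Fin m) :
    wpf_j e (u, v ∘ Equiv.swap b b') =
      wpf_j e (u, v) ∘ Equiv.swap (e (Sum.inr b)) (e (Sum.inr b')) := by
  ext i
  obtain ⟨c, rfl⟩ := e.surjective i
  rcases c with a | c
  · rw [comp_apply, Equiv.swap_apply_of_ne_of_ne (by simp) (by simp), wpf_j_inl, wpf_j_inl]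
  · have h : Equiv.swap (e (Sum.inr b)) (e (Sum.inr b')) (e (Sum.inr c)) =
        e (Sum.inr (Equiv.swap b b' c)) :=
      (Function.Injective.swap_apply (f := fun x : Fin m => e (Sum.inr x))
        (e.injective.comp Sum.inr_injective) b b' c)
    rw [comp_apply, h, wpf_j_inr, wpf_j_inr]
    rfl

lemma rzb_interior {K : Set (E n)} {f : E n → E n} (hf : Continuous f)
    (hi : ∀ x, f (f x) = x) (hK : ∀ x ∈ K, f x ∈ K) {x : E n} (hx : x ∈ interior K) :
    f x ∈ interior K := by
  have h : f ⁻¹' interior K ⊆ interior K :=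
    interior_maximal (fun y hy => by
      have := hK _ (interior_subset hy)
      rwa [hi] at this) (isOpen_interior.preimage hf)
  exact h (by simpa [hi] using hx)

theorem tinv_of_ainv {g : Fin n → Fin 3} {j : Fin 3} {e : Fin k ⊕ Fin m ≃ Fin n}
    (h1 : ∀ a, g (e (Sum.inl a)) ≠ j) (h2 : ∀ b, g (e (Sum.inr b)) = j) {K : Set (E n)}
    (h : AInv g j K) (u : E k) : TInv (fibr e K u) := by
  refine tinv_of_gen fun v hv b => ?_
  have := h _ hv _ (h2 b)
  rw [bs_apply, sum_block h1 h2] at this
  simp only [wpf_j_inr] at this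
  change wpf_j e _ ∈ K
  rwa [rzb_update]

theorem sinv_of_binv {g : Fin n → Fin 3} {j : Fin 3} {e : Fin k ⊕ Fin m ≃ Fin n}
    (h1 : ∀ a, g (e (Sum.inl a)) ≠ j) (h2 : ∀ b, g (e (Sum.inr b)) = j) {K : Set (E n)}
    (h : BInv g j K) (u : E k) : SInv (fibr e K u) := by
  refine sinv_of_gen (fun v hv b => ?_) fun v hv b b' => ?_
  · have := h.1 _ hv _ (h2 b)
    rw [wpf_j_inr] at this
    change wpf_j e _ ∈ K
    rwa [rzb_update]
  · have := h.2 _ hv _ _ (h2 b) (h2 b')
    change wpf_j e _ ∈ K
    rwa [rzb_swap]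

theorem zero_block {g : Fin n → Fin 3} {j : Fin 3} {K : Set (E n)} (hK : Convex ℝ K)
    (h : AInv g j K ∨ BInv g j K) {x : E n} (hx : x ∈ K) :
    (fun i => if g i = j then 0 else x i) ∈ K := by
  by_cases hj : ∃ i, g i = j
  · obtain ⟨k, m, e, e1, e2⟩ := exists_split hj
    obtain ⟨⟨u, v⟩, rfl⟩ := wpf_surj e x
    have h0 : (0 : E (m + 1)) ∈ fibr e K u := by
      rcases h with h | h
      · exact zero_mem_T (convex_fibr e hK u) (tinv_of_ainv e1 e2 h u) hx
      · exact zero_mem_S (convex_fibr e hK u) (sinv_of_binv e1 e2 h u) hx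
    change wpf_j e _ ∈ K at h0
    convert h0 using 1
    ext i
    obtain ⟨c, rfl⟩ := e.surjective i
    rcases c with a | b
    · rw [if_neg (e1 a), wpf_j_inl, wpf_j_inl]
    · rw [if_pos (e2 b), wpf_j_inr]
      rfl
  · convert hx using 1
    ext i
    exact if_neg fun hi => hj ⟨i, hi⟩

lemma rzb_bs_update {g : Fin n → Fin 3} {j : Fin 3} {i : Fin n} (hi : g i = j) (x : E n) (t : ℝ) :
    bs g (update x i t) j = bs g x j - x i + t := by
  have hm : i ∈ Finset.univ.filter fun l => g l = j := by simpa using hi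
  rw [bs_apply, bs_apply, Finset.sum_update_of_mem hm, ← Finset.add_sum_erase _ _ hm,
    Finset.sdiff_singleton_eq_erase]
  ring

theorem AInv.interior {g : Fin n → Fin 3} {j : Fin 3} {K : Set (E n)} (h : AInv g j K) :
    AInv g j (interior K) := by
  intro x hx i hi
  refine rzb_interior (f := fun y : E n => update y i (-bs g y j)) ?_ (fun y => ?_)
    (fun y hy => h y hy i hi) hx
  · refine continuous_id.update i ?_
    simp only [bs_apply]
    fun_prop
  · rw [rzb_bs_update hi, update_idem]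
    simp

theorem BInv.interior {g : Fin n → Fin 3} {j : Fin 3} {K : Set (E n)} (h : BInv g j K) :
    BInv g j (interior K) := by
  refine ⟨fun x hx i hi => ?_, fun x hx i i' hi hi' => ?_⟩
  · refine rzb_interior (f := fun y : E n => update y i (-y i)) ?_ (fun y => ?_)
      (fun y hy => h.1 y hy i hi) hx
    · exact continuous_id.update i (by fun_prop)
    · simp
  · refine rzb_interior (f := fun y : E n => y ∘ Equiv.swap i i') ?_ (fun y => ?_)
      (fun y hy => h.2 y hy i i' hi hi') hx
    · exact continuous_pi fun l => continuous_apply _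
    · ext l
      simp

end Pool.Agent.MP_5f4cdd_gt.W
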