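import Pool.Agent.MP_5f4cdd_gt.ROne
import Pool.Agent.MP_5f4cdd_gt.RZb

set_option autoImplicit false
open MeasureTheory ENNReal Set Function Filter Topology Pointwise

namespace Pool.Agent.MP_5f4cdd_gt.W

open PL EF AB

variable {n k m : ℕ}

section

variable {g : Fin n → Fin 3}

/-- put the sum of the block `j` on the direction `w` -/
noncomputable def rblock_col (g : Fin n → Fin 3) (j : Fin 3) (w : E n) : E n →ₗ[ℝ] E n where
  toFun x := fun i => if g i = j then bs g x j * w i else x i
  map_add' u v := by
    ext i; simp only [map_add, Pi.add_apply]; split_ifs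
    · ring
    · rfl
  map_smul' c u := by
    ext i; simp only [map_smul, Pi.smul_apply, RingHom.id_apply, smul_eq_mul]; split_ifs
    · ring
    · rfl

lemma rblock_col_apply (j : Fin 3) (w x : E n) (i : Fin n) :
    rblock_col g j w x i = if g i = j then bs g x j * w i else x i := rfl

/-- the body with simplex fibres attached to the direction `w` -/
def rblock_flat (g : Fin n → Fin 3) (j : Fin 3) (w : E n) (K : Set (E n)) : Set (E n) :=
  {x | (∀ i, g i = j → 0 ≤ x i) ∧ rblock_col g j w x ∈ K}

lemma rblock_sumInv (j : Fin 3) (w : E n) (K : Set (E n)) : SumInv g j (rblock_flat g j w K) := by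
  refine fun x hx => ⟨hx.1, fun y h1 h2 h3 => ⟨h2, ?_⟩⟩
  have : rblock_col g j w y = rblock_col g j w x := by
    ext i
    rw [rblock_col_apply, rblock_col_apply, h3]
    split_ifs with h
    · rfl
    · exact h1 i h
  rw [this]; exact hx.2

lemma rblock_sum {j j' : Fin 3} (hj : j' ≠ j) (w : E n) {K : Set (E n)} (h : SumInv g j' K) :
    SumInv g j' (rblock_flat g j w K) := by
  have hne : ∀ i, g i = j' → g i ≠ j := fun i hi => hi ▸ hj
  have hne' : ∀ i, g i = j → g i ≠ j' := fun i hi => hi ▸ hj.symm
  refine fun x hx => ⟨fun i hi => ?_, fun y h1 h2 h3 => ⟨fun i hi => ?_, ?_⟩⟩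
  · have := (h _ hx.2).1 i hi
    rwa [rblock_col_apply, if_neg (hne i hi)] at this
  · rw [h1 i (hne' i hi)]; exact hx.1 i hi
  · refine (h _ hx.2).2 _ (fun i hi => ?_) (fun i hi => ?_) ?_
    · rw [rblock_col_apply, rblock_col_apply, bs_congr fun i hi => h1 i (hne' i hi), h1 i hi]
    · rw [rblock_col_apply, if_neg (hne i hi)]; exact h2 i hi
    · exact (bs_congr (x := y) fun i hi => by rw [rblock_col_apply, if_neg (hne i hi)]).trans
        (h3.trans (bs_congr (x := x) fun i hi => by
          rw [rblock_col_apply, if_neg (hne i hi)]).symm)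

lemma rblock_update {j : Fin 3} (w x : E n) {i : Fin n} (hi : g i ≠ j) (c : ℝ) :
    rblock_col g j w (update x i c) = update (rblock_col g j w x) i c := by
  have hb : bs g (update x i c) j = bs g x j :=
    bs_congr fun i' hi' => update_of_ne (fun (e : i' = i) => hi (e ▸ hi')) _ _
  ext i'
  rcases eq_or_ne i' i with rfl | hne
  · rw [rblock_col_apply, if_neg hi, update_self, update_self]
  · rw [rblock_col_apply, update_of_ne hne, update_of_ne hne, rblock_col_apply, hb]

lemma rblock_A {j j' : Fin 3} (hj : j' ≠ j) (w : E n) {K : Set (E n)} (h : AInv g j' K) :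
    AInv g j' (rblock_flat g j w K) := by
  have hne : ∀ i, g i = j' → g i ≠ j := fun i hi => hi ▸ hj
  refine fun x hx i hi => ⟨fun i' hi' => ?_, ?_⟩
  · rw [update_of_ne fun (e : i' = i) => hne i hi (e ▸ hi')]; exact hx.1 i' hi'
  · have h1 := h _ hx.2 i hi
    rw [bs_congr (x := x) fun i hi => by rw [rblock_col_apply, if_neg (hne i hi)]] at h1
    rwa [rblock_update w x (hne i hi)]

lemma rblock_B {j j' : Fin 3} (hj : j' ≠ j) (w : E n) {K : Set (E n)} (h : BInv g j' K) :
    BInv g j' (rblock_flat g j w K) := by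
  have hne : ∀ i, g i = j' → g i ≠ j := fun i hi => hi ▸ hj
  refine ⟨fun x hx i hi => ⟨fun i' hi' => ?_, ?_⟩, fun x hx i i' hi hi' => ?_⟩
  · rw [update_of_ne fun (e : i' = i) => hne i hi (e ▸ hi')]; exact hx.1 i' hi'
  · have h1 := h.1 _ hx.2 i hi
    rw [rblock_col_apply, if_neg (hne i hi)] at h1
    rwa [rblock_update w x (hne i hi)]
  · have hs : ∀ l, g l = j → Equiv.swap i i' l = l := fun l hl =>
      Equiv.swap_apply_of_ne_of_ne (fun e => hne i hi (e ▸ hl)) fun e => hne i' hi' (e ▸ hl)
    have hs' : ∀ l, g l ≠ j → g (Equiv.swap i i' l) ≠ j := fun l hl e => by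
      have := hs _ e
      rw [Equiv.swap_apply_self] at this
      exact hl (this ▸ e)
    refine ⟨fun l hl => ?_, ?_⟩
    · rw [comp_apply, hs l hl]; exact hx.1 l hl
    · have h1 := h.2 _ hx.2 i i' hi hi'
      convert h1 using 1
      have hb : bs g (x ∘ Equiv.swap i i') j = bs g x j :=
        bs_congr fun l hl => by rw [comp_apply, hs l hl]
      ext l
      by_cases hl : g l = j
      · rw [comp_apply, hs l hl, rblock_col_apply, rblock_col_apply, if_pos hl, if_pos hl, hb]
      · rw [comp_apply, rblock_col_apply, rblock_col_apply, if_neg hl, if_neg (hs' l hl),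
          comp_apply]

lemma rblock_body {j : Fin 3} {i₀ : Fin n} (h0 : g i₀ = j) {w : E n} (hw : w i₀ ≠ 0)
    {K : Set (E n)} (hK : Body K) (h : AInv g j K ∨ BInv g j K) : Body (rblock_flat g j w K) := by
  have hc := (rblock_col g j w).continuous_of_finiteDimensional
  refine ⟨?_, ?_, ?_⟩
  · intro x hx y hy a b ha hb hab
    refine ⟨fun i hi => add_nonneg (mul_nonneg ha (hx.1 i hi)) (mul_nonneg hb (hy.1 i hi)), ?_⟩
    rw [map_add, map_smul, map_smul]
    exact hK.conv hx.2 hy.2 ha hb hab
  · obtain ⟨R, hR0, hR⟩ := hK.comp.isBounded.subset_closedBall_lt 0 0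
    have hw' : 0 < |w i₀| := abs_pos.2 hw
    have hq : 0 ≤ R / |w i₀| := by positivity
    refine Metric.isCompact_of_isClosed_isBounded ?_
      ((Metric.isBounded_closedBall (x := (0 : E n)) (r := R + R / |w i₀|)).subset fun x hx => ?_)
    · refine IsClosed.inter (s₁ := {x : E n | ∀ i, g i = j → 0 ≤ x i}) ?_
        (hK.comp.isClosed.preimage hc)
      simp only [ofPred_forall]
      exact isClosed_iInter fun i => isClosed_iInter fun _ =>
        isClosed_le continuous_const (continuous_apply i)
    · have hb := hR hx.2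
      rw [mem_closedBall_zero_iff, pi_norm_le_iff_of_nonneg hR0.le] at hb
      rw [mem_closedBall_zero_iff, pi_norm_le_iff_of_nonneg (by positivity)]
      intro i
      by_cases hi : g i = j
      · have h1 := hb i₀
        rw [rblock_col_apply, if_pos h0, Real.norm_eq_abs, abs_mul, ← le_div_iff₀ hw'] at h1
        have h2 : x i ≤ bs g x j := by
          rw [bs_apply]
          exact Finset.single_le_sum (f := x)
            (fun i hi => hx.1 i (Finset.mem_filter.1 hi).2) (by simpa using hi)
        rw [Real.norm_eq_abs, abs_of_nonneg (hx.1 i hi)]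
        linarith [le_abs_self (bs g x j)]
      · have h1 := hb i
        rw [rblock_col_apply, if_neg hi] at h1
        linarith
  · obtain ⟨x, hx⟩ := hK.int
    have h2 := zero_block (g := g) (j := j) hK.conv.interior
      (h.imp AInv.interior BInv.interior) hx
    set z : E n := fun i => if g i = j then 0 else x i with hz
    have h3 : rblock_col g j w z = z := by
      ext i
      have : bs g z j = 0 := by
        rw [bs_apply]
        exact Finset.sum_eq_zero fun i hi => if_pos (Finset.mem_filter.1 hi).2
      rw [rblock_col_apply, this, zero_mul]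
      simp only [hz]
      split_ifs <;> rfl
    rw [← h3] at h2
    have h4 : ContinuousAt (fun s : ℝ => rblock_col g j w (z + fun _ => s)) 0 :=
      (hc.comp (by fun_prop)).continuousAt
    have h5 : ∀ᶠ s in 𝓝 (0 : ℝ), rblock_col g j w (z + fun _ => s) ∈ interior K :=
      h4.preimage_mem_nhds (t := interior K) (isOpen_interior.mem_nhds (by
        rw [show (z + fun _ => (0 : ℝ)) = z from by ext; simp]; exact h2))
    obtain ⟨s, hs1, hs2⟩ := ((h5.filter_mono nhdsWithin_le_nhds).and
      (self_mem_nhdsWithin (a := (0 : ℝ)) (s := Ioi 0))).exists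
    have ho : IsOpen ({x : E n | ∀ i, g i = j → 0 < x i} ∩ rblock_col g j w ⁻¹' interior K) := by
      refine IsOpen.inter ?_ (isOpen_interior.preimage hc)
      simp only [ofPred_forall]
      exact isOpen_iInter_of_finite fun i => isOpen_iInter_of_finite fun _ =>
        isOpen_lt continuous_const (continuous_apply i)
    have hsub : ({x : E n | ∀ i, g i = j → 0 < x i} ∩ rblock_col g j w ⁻¹' interior K) ⊆
        rblock_flat g j w K := fun y hy => ⟨fun i hi => (hy.1 i hi).le, interior_subset hy.2⟩
    refine ⟨z + fun _ => s, interior_maximal hsub ho ⟨fun i hi => ?_, hs1⟩⟩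
    simpa [hz, hi] using hs2

lemma rblock_eq {j : Fin 3} {e : Fin k ⊕ Fin m ≃ Fin n} (h1 : ∀ a, g (e (Sum.inl a)) ≠ j)
    (h2 : ∀ b, g (e (Sum.inr b)) = j) {K : Set (E n)} (hK : Body K)
    (h : AInv g j K ∨ BInv g j K) {v : E m} (hv : v ≠ 0) :
    rblock_flat g j (wpf_j e (0, v)) K = Wg e K v (stdS m) := by
  ext x
  have hcol : rblock_col g j (wpf_j e (0, v)) x =
      wpf_j e (fun a => x (e (Sum.inl a)), (∑ b, x (e (Sum.inr b))) • v) := by
    ext i
    obtain ⟨c, rfl⟩ := e.surjective i
    rcases c with c | c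
    · rw [rblock_col_apply, if_neg (h1 c), wpf_j_inl]
    · rw [rblock_col_apply, if_pos (h2 c), wpf_j_inr, wpf_j_inr, bs_apply, sum_block h1 h2]
      rfl
  constructor
  · rintro ⟨hx0, hx⟩
    have hu : (fun a => x (e (Sum.inl a))) ∈ base e K := by
      have := zero_block hK.conv h hx
      change wpf_j e _ ∈ K
      convert this using 1
      ext i
      obtain ⟨c, rfl⟩ := e.surjective i
      rcases c with c | c
      · rw [wpf_j_inl, if_neg (h1 c), rblock_col_apply, if_neg (h1 c)]
      · rw [wpf_j_inr, if_pos (h2 c)]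
        rfl
    obtain ⟨r0, r1, -⟩ := rad_spec e hK.conv hK.comp hv hu
    rw [hcol] at hx
    exact ⟨hu, (mem_smul_stdS r0).2 ⟨fun b => hx0 _ (h2 b), r1 _ hx⟩⟩
  · rintro ⟨hu, hx⟩
    obtain ⟨r0, -, r2⟩ := rad_spec e hK.conv hK.comp hv hu
    rw [mem_smul_stdS r0] at hx
    refine ⟨fun i hi => ?_, ?_⟩
    · obtain ⟨c, rfl⟩ := e.surjective i
      rcases c with c | c
      · exact absurd hi (h1 c)
      · exact hx.1 c
    · rw [hcol]
      exact r2 _ (Finset.sum_nonneg fun b _ => hx.1 b) hx.2

lemma rblock_ind (hg : Blk g) (s : Finset (Fin 3)) : ∀ K : Set (E n), Body K →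
    (∀ j ∈ s, AInv g j K ∨ BInv g j K) → (∀ j, j ∉ s → SumInv g j K) → Sharp K := by
  induction s using Finset.induction_on with
  | empty =>
    exact fun K hK _ h => sharp_of_wgen (wgen_of_sumInv hg hK fun j => h j (Finset.notMem_empty j))
  | insert j s hj ih =>
    intro K hK h1 h2
    obtain ⟨k, m, e, e1, e2⟩ := exists_split (hg.surj j)
    have hR := h1 j (Finset.mem_insert_self _ _)
    have key : ∀ v : E (m + 1), v ≠ 0 → Sharp (Wg e K v (cS (m + 1) 1)) := by
      intro v hv
      refine Sharp.cent e (fun u hu => (rad_spec e hK.conv hK.comp hv hu).1) ?_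
      change Sharp (Wg e K v (stdS (m + 1)))
      rw [← rblock_eq e1 e2 hK hR hv]
      obtain ⟨b, hb⟩ := Function.ne_iff.1 hv
      refine ih _ (rblock_body (e2 b) (by rwa [wpf_j_inr]) hK hR) (fun j' hj' => ?_)
        fun j' hj' => ?_
      · have hne : j' ≠ j := fun h => hj (by rwa [h] at hj')
        exact (h1 j' (Finset.mem_insert_of_mem hj')).imp (rblock_A hne _) (rblock_B hne _)
      · rcases eq_or_ne j' j with rfl | hne
        · exact rblock_sumInv _ _ _
        · exact rblock_sum hne _ (h2 j' (by simp [hne, hj']))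
    have hA : AInv g j K → Sharp K := fun hA =>
      sharp_T e hK (tinv_of_ainv e1 e2 hA) fun i => key _ (om_ne i)
    rcases hR with hR | hR
    · exact hA hR
    · rcases Nat.eq_zero_or_pos m with rfl | hm
      · refine hA fun x hx i hi => ?_
        have : bs g x j = x i := by
          obtain ⟨c, rfl⟩ := e.surjective i
          rcases c with c | c
          · exact absurd hi (e1 c)
          · rw [bs_apply, sum_block e1 e2, Fin.sum_univ_succ, Fin.sum_univ_zero, add_zero,
              Subsingleton.elim (α := Fin 1) c 0]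
        rw [this]
        exact hR.1 x hx i hi
      · exact sharp_S hm e hK (sinv_of_binv e1 e2 hR) fun i => key _ (omB_ne i)

end

theorem sharp_refl {g : Fin n → Fin 3} {A B : Set (Fin 3)} (hg : BlkR g A B) {K : Set (E n)}
    (hK : Refl g A B K) : Sharp K := by
  classical
  obtain ⟨hK, hA, hB⟩ := hK
  have hg' : Blk g := ⟨hg.surj, fun i i' hi hi' =>
    hg.one i i' (hi.trans hi'.symm) (hi ▸ hg.zA) (hi ▸ hg.zB)⟩
  obtain ⟨M, hM0, hM⟩ := hK.comp.isBounded.subset_closedBall_lt 0 0
  set c : E n := fun i => if g i ∈ A ∪ B then 0 else -M with hc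
  have hmem : ∀ x, x ∈ (fun z => z - c) '' K ↔ x + c ∈ K := fun x =>
    ⟨by rintro ⟨z, hz, rfl⟩; simpa using hz, fun hx => ⟨_, hx, by simp⟩⟩
  have hup : ∀ (x : E n) (i : Fin n) (t : ℝ), g i ∈ A ∪ B →
      update x i t + c = update (x + c) i t := fun x i t hi => by
    ext l
    rcases eq_or_ne l i with rfl | hne
    · simp only [Pi.add_apply, update_self, hc, if_pos hi, add_zero]
    · simp only [Pi.add_apply, update_of_ne hne]
  have hW : Sharp ((fun z => z - c) '' K) := by
    refine rblock_ind hg' (Finset.univ.filter (· ∈ A ∪ B)) _ ⟨convex_image_sub hK.conv c,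
      isCompact_image_sub hK.comp c, interior_image_sub hK.int c⟩ (fun j hj => ?_) fun j hj => ?_
    · have hj' : j ∈ A ∪ B := (Finset.mem_filter.1 hj).2
      have h0 : ∀ (x : E n) (i : Fin n), g i = j → (x + c) i = x i := fun x i hi => by
        simp only [Pi.add_apply, hc, hi, if_pos hj', add_zero]
      rcases hj' with hj'' | hj''
      · refine Or.inl fun x hx i hi => ?_
        rw [hmem] at hx ⊢
        have := hA j hj'' _ hx i hi
        rw [bs_congr (h0 x)] at this
        rwa [hup x i _ (hi ▸ Or.inl hj'')]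
      · refine Or.inr ⟨fun x hx i hi => ?_, fun x hx i i' hi hi' => ?_⟩
        · rw [hmem] at hx ⊢
          have := (hB j hj'').1 _ hx i hi
          rw [h0 x i hi] at this
          rwa [hup x i _ (hi ▸ Or.inr hj'')]
        · rw [hmem] at hx ⊢
          have := (hB j hj'').2 _ hx i i' hi hi'
          convert this using 1
          ext l
          have hgl : g (Equiv.swap i i' l) = g l := by
            rcases eq_or_ne l i with rfl | n1
            · rw [Equiv.swap_apply_left, hi, hi']
            · rcases eq_or_ne l i' with rfl | n2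
              · rw [Equiv.swap_apply_right, hi, hi']
              · rw [Equiv.swap_apply_of_ne_of_ne n1 n2]
          simp only [Pi.add_apply, comp_apply, hc, hgl]
    · have hj' : j ∉ A ∪ B := by simpa using hj
      refine fun x hx => ⟨fun i hi => ?_, fun y e1 _ e3 => ?_⟩
      · have hb := hM ((hmem x).1 hx)
        rw [mem_closedBall_zero_iff, pi_norm_le_iff_of_nonneg hM0.le] at hb
        have := (abs_le.1 (hb i)).1
        simp only [Pi.add_apply, hc, hi, hj', if_false] at this
        linarith
      · convert hx using 1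
        ext i
        by_cases hi : g i = j
        · have t : (Finset.univ.filter fun i => g i = j) = {i} := by
            ext i'
            simp only [Finset.mem_filter, Finset.mem_univ, true_and, Finset.mem_singleton]
            exact ⟨fun e => hg.one i' i (e.trans hi.symm) (fun h => hj' (Or.inl (e ▸ h)))
              (fun h => hj' (Or.inr (e ▸ h))), fun e => e ▸ hi⟩
          simpa [bs_apply, t] using e3
        · exact e1 i hi
  have := hW.image (AffineEquiv.constVAdd ℝ (E n) c)
  rw [image_image] at this
  simpa using this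

end Pool.Agent.MP_5f4cdd_gt.W
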