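import Pool.Agent.MP_5f4cdd_gt.RBasic

set_option autoImplicit false
open MeasureTheory ENNReal Set Function Filter Topology Pointwise

namespace Pool.Agent.MP_5f4cdd_gt.W

open PL EF AB

variable {n k m : ℕ}

/-- combinations of the weights as a linear map -/
noncomputable def rchama_L (m : ℕ) : E m →ₗ[ℝ] E m where
  toFun r := comb (om m) r
  map_add' x y := by simp [comb, add_smul, Finset.sum_add_distrib]
  map_smul' a x := by simp [comb, Finset.smul_sum, smul_smul]

lemma rchama_det : |LinearMap.det (rchama_L m)| * (m + 1) = 1 := by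
  have h1 : (Gam m).comp (rchama_L m) =
      Matrix.toLin' (Matrix.of fun i j : Fin m => if j ≤ i then (-1 : ℝ) else 0) := by
    refine LinearMap.ext fun r => funext fun i => ?_
    have h2 : Gam m (rchama_L m r) i = bet m (comb (om m) r) i.succ - bet m (comb (om m) r) 0 := by
      rw [bet_succ, bet_zero, sub_neg_eq_add]
      rfl
    rw [LinearMap.comp_apply, h2, comb, map_sum, Finset.sum_apply, Finset.sum_apply,
      ← Finset.sum_sub_distrib, Matrix.toLin'_apply, Matrix.mulVec, dotProduct]
    refine Finset.sum_congr rfl fun j _ => ?_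
    simp only [map_smul, Pi.smul_apply, smul_eq_mul, bet_om, Fin.val_succ, Fin.val_zero,
      zero_le, if_true, Matrix.of_apply, Fin.le_def]
    split_ifs with h3 h4 h4
    · omega
    · ring
    · ring
    · omega
  have h2 := congrArg LinearMap.det h1
  have h4 : (Matrix.of fun i j : Fin m => if j ≤ i then (-1 : ℝ) else 0).BlockTriangular
      OrderDual.toDual := fun i j hij => if_neg (not_le.2 (OrderDual.toDual_lt_toDual.1 hij))
  rw [LinearMap.det_comp, det_Gam, LinearMap.det_toLin',
    Matrix.det_of_isLowerTriangular _ h4] at h2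
  have h3 := congrArg abs h2
  rw [abs_mul, abs_of_pos (by positivity : (0 : ℝ) < m + 1), Finset.abs_prod] at h3
  rw [mul_comm, h3]
  simp

lemma rchama_meas : MeasurableSet {z : E m | StrictAnti (bet m z)} := by
  have : {z : E m | StrictAnti (bet m z)} = ⋂ j : Fin m, {z | bet m z j.succ < bet m z j.castSucc} := by
    ext z
    simp only [mem_ofPred_eq, Fin.strictAnti_iff_succ_lt, mem_iInter]
  rw [this]
  exact MeasurableSet.iInter fun j => measurableSet_lt
    ((continuous_apply _).comp continuous_bet).measurable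
    ((continuous_apply _).comp continuous_bet).measurable

lemma rchama_sum {f : E m → ℝ≥0∞}
    (h : ∀ (σ : Equiv.Perm (Fin (m + 1))) z, f (Tp σ z) = f z) (hf : Measurable f) :
    ((m + 1).factorial : ℝ≥0∞) * ∫⁻ z in {z : E m | StrictAnti (bet m z)}, f z ≤ ∫⁻ z, f z := by
  have h1 : ∀ σ : Equiv.Perm (Fin (m + 1)),
      ∫⁻ z in Tp σ ⁻¹' {z : E m | StrictAnti (bet m z)}, f z =
        ∫⁻ z in {z : E m | StrictAnti (bet m z)}, f z := fun σ => by
    rw [← (measurePreserving_Tp σ).setLIntegral_comp_preimage rchama_meas hf]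
    simp only [h]
  have h2 : Pairwise (Disjoint on fun σ : Equiv.Perm (Fin (m + 1)) =>
      Tp σ ⁻¹' {z : E m | StrictAnti (bet m z)}) := fun σ τ hst => by
    refine Set.disjoint_left.2 fun z h3 h4 => hst ?_
    simp only [mem_preimage, mem_ofPred_eq, bet_Tp] at h3 h4
    have h5 := Tuple.unique_antitone h3.antitone h4.antitone
    have h6 : Injective (bet m z) := by
      have := h3.injective.comp σ.symm.injective
      rwa [comp_assoc, σ.self_comp_symm, comp_id] at this
    exact Equiv.ext fun i => h6 (congrFun h5 i)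
  have h3 := lintegral_iUnion (μ := volume) (fun σ => (measurePreserving_Tp σ).measurable
    (rchama_meas (m := m))) h2 f
  simp only [h1, tsum_fintype, Finset.sum_const, Finset.card_univ, Fintype.card_perm,
    Fintype.card_fin, nsmul_eq_mul] at h3
  rw [← h3]
  exact setLIntegral_le_lintegral _ _

theorem cham_A {f : E m → ℝ≥0∞} (hf : Measurable f)
    (h : ∀ (σ : Equiv.Perm (Fin (m + 1))) z, f (Tp σ z) = f z) :
    (m.factorial : ℝ≥0∞) * ∫⁻ r in orth m, f (comb (om m) r) ≤ ∫⁻ z, f z := by
  have h0 := rchama_det (m := m)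
  have hd : LinearMap.det (rchama_L m) ≠ 0 := fun e => by
    rw [e, abs_zero, zero_mul] at h0
    exact zero_ne_one h0
  have h1 := lintegral_comp_lin' _ hd ({z : E m | StrictAnti (bet m z)}.indicator f)
  have h2 : ∀ r, {z : E m | StrictAnti (bet m z)}.indicator f (rchama_L m r) =
      (orth m).indicator (fun r => f (comb (om m) r)) r := fun r => by
    have : rchama_L m r ∈ {z : E m | StrictAnti (bet m z)} ↔ r ∈ orth m := by
      rw [mem_ofPred_eq, Fin.strictAnti_iff_succ_lt]
      refine forall_congr' fun j => ?_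
      rw [← bet_comb_sub r j, sub_pos]
      rfl
    by_cases hr : r ∈ orth m
    · rw [indicator_of_mem hr, indicator_of_mem (this.2 hr)]
      rfl
    · rw [indicator_of_notMem hr, indicator_of_notMem fun e => hr (this.1 e)]
  simp only [h2] at h1
  rw [lintegral_indicator measurableSet_orth, lintegral_indicator rchama_meas, abs_inv,
    inv_eq_of_mul_eq_one_right h0, ← Nat.cast_succ, ENNReal.ofReal_natCast] at h1
  rw [h1, ← mul_assoc, ← Nat.cast_mul, mul_comm m.factorial, ← Nat.factorial_succ]
  exact rchama_sum h hf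

theorem cham_A' {f : E m → ℝ≥0∞} (hf : Measurable f)
    (h : ∀ (σ : Equiv.Perm (Fin (m + 1))) z, f (Gam m (Tp σ z)) = f (Gam m z)) :
    ((m + 1).factorial : ℝ≥0∞) * ∫⁻ r in orth m, f (comb (fun j => Gam m (om m j)) r) ≤
      ∫⁻ z, f z := by
  have hm : (0 : ℝ) < m + 1 := by positivity
  have h1 := cham_A (f := fun z => f (Gam m z))
    (hf.comp (Gam m).continuous_of_finiteDimensional.measurable) h
  have h2 : ∀ r, Gam m (comb (om m) r) = comb (fun j => Gam m (om m j)) r := fun r => by
    simp only [comb, map_sum, map_smul]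
  simp only [h2] at h1
  rw [lintegral_comp_lin' _ (by rw [det_Gam]; exact hm.ne'), det_Gam, abs_inv, abs_of_pos hm,
    ENNReal.ofReal_inv_of_pos hm, ← Nat.cast_succ, ENNReal.ofReal_natCast] at h1
  rw [Nat.factorial_succ, Nat.cast_mul, mul_assoc]
  refine (mul_le_mul_right h1 _).trans_eq ?_
  rw [← mul_assoc, ENNReal.mul_inv_cancel (by simp) (by simp), one_mul]

end Pool.Agent.MP_5f4cdd_gt.W
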