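import Pool.Agent.MP_5f4cdd_gt.RBasic

set_option autoImplicit false
open MeasureTheory ENNReal Set Function Filter Topology Pointwise

namespace Pool.Agent.MP_5f4cdd_gt.W

open PL EF AB

variable {n k m : ℕ}

lemma rchamb_gen {ι : Type} [Fintype ι] {f : E m → ℝ≥0∞} (hf : Measurable f) {C : Set (E m)}
    (hC : MeasurableSet C) (T : ι → E m → E m) (hT : ∀ a, MeasurePreserving (T a) volume volume)
    (hfT : ∀ a z, f (T a z) = f z) (hd : Pairwise (Disjoint on fun a => T a ⁻¹' C)) :
    (Fintype.card ι : ℝ≥0∞) * ∫⁻ z in C, f z ≤ ∫⁻ z, f z := by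
  have h1 : ∀ a, ∫⁻ z in T a ⁻¹' C, f z = ∫⁻ z in C, f z := fun a => by
    rw [← (hT a).setLIntegral_comp_preimage hC hf]
    simp only [hfT]
  refine le_trans (le_of_eq ?_) (setLIntegral_le_lintegral (⋃ a, T a ⁻¹' C) f)
  rw [lintegral_iUnion (fun a => (hT a).measurable hC) hd, tsum_fintype]
  simp only [h1, Finset.sum_const, Finset.card_univ, nsmul_eq_mul]

/-- signed permutations -/
def rchamb_T (a : Finset (Fin m) × Equiv.Perm (Fin m)) (z : E m) : E m :=
  fun i => if i ∈ a.1 then -z (a.2 i) else z (a.2 i)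

lemma rchamb_mp (a : Finset (Fin m) × Equiv.Perm (Fin m)) :
    MeasurePreserving (rchamb_T a) volume volume := by
  have h1 : MeasurePreserving (fun (z : E m) i => z (a.2 i)) volume volume :=
    (volume_measurePreserving_piCongrLeft (fun _ : Fin m => ℝ) a.2).symm _
  have h2 := volume_preserving_pi (f := fun (i : Fin m) (x : ℝ) => if i ∈ a.1 then -x else x)
    fun i => by
      split_ifs
      · exact Measure.measurePreserving_neg volume
      · exact MeasurePreserving.id volume
  exact h2.comp h1

lemma rchamb_flip {f : E m → ℝ≥0∞} (h1 : ∀ z i, f (update z i (-z i)) = f z) (S : Finset (Fin m))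
    (w : E m) : f (fun i => if i ∈ S then -w i else w i) = f w := by
  induction S using Finset.induction_on with
  | empty => simp
  | insert a S ha ih =>
    rw [← ih, ← h1 (fun i => if i ∈ S then -w i else w i) a]
    congr 1
    funext i
    by_cases h : i = a
    · subst h
      simp [ha]
    · simp [h]

lemma rchamb_abs {a : Finset (Fin m) × Equiv.Perm (Fin m)} {z : E m}
    (h : ∀ i, 0 < rchamb_T a z i) : rchamb_T a z = (fun j => |z j|) ∘ a.2 := by
  funext i
  rw [← abs_of_pos (h i), rchamb_T, comp_apply]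
  split_ifs
  · exact abs_neg _
  · rfl

lemma rchamb_disj : Pairwise (Disjoint on fun a : Finset (Fin m) × Equiv.Perm (Fin m) =>
    rchamb_T a ⁻¹' {z : E m | StrictAnti z ∧ ∀ i, 0 < z i}) := by
  intro a b hab
  refine Set.disjoint_left.2 fun z ha hb => hab ?_
  obtain ⟨a1, a2⟩ := ha
  obtain ⟨b1, b2⟩ := hb
  have e : rchamb_T a z = rchamb_T b z := (a1.range_inj b1).1 (by
    rw [rchamb_abs a2, rchamb_abs b2, a.2.surjective.range_comp, b.2.surjective.range_comp])
  have hi : Injective fun j => |z j| := by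
    have := a1.injective
    rw [rchamb_abs a2] at this
    exact (Function.Injective.of_comp_right this a.2.surjective)
  have hσ : a.2 = b.2 := by
    rw [rchamb_abs a2, rchamb_abs b2] at e
    exact Equiv.ext fun i => hi (congrFun e i)
  refine Prod.ext (Finset.ext fun i => ?_) hσ
  have p1 := a2 i
  have p2 := b2 i
  simp only [rchamb_T, hσ] at p1 p2
  by_cases k1 : i ∈ a.1 <;> by_cases k2 : i ∈ b.1
  · exact iff_of_true k1 k2
  · rw [if_pos k1] at p1
    rw [if_neg k2] at p2
    linarith
  · rw [if_neg k1] at p1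
    rw [if_pos k2] at p2
    linarith
  · exact iff_of_false k1 k2

lemma rchamb_meas : MeasurableSet {z : E m | StrictAnti z ∧ ∀ i, 0 < z i} := by
  have : {z : E m | StrictAnti z ∧ ∀ i, 0 < z i} =
      (⋂ i, ⋂ j, ⋂ (_ : i < j), {z : E m | z j < z i}) ∩ orth m := by
    ext z
    simp [orth, StrictAnti]
  rw [this]
  exact (MeasurableSet.iInter fun i => MeasurableSet.iInter fun j => MeasurableSet.iInter fun _ =>
    measurableSet_lt (measurable_pi_apply j) (measurable_pi_apply i)).inter measurableSet_orth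

lemma rchamb_comb (r : E m) (i : Fin m) : comb (omB m) r i = ∑ j, if i ≤ j then r j else 0 := by
  simp [comb, omB, Finset.sum_apply]

lemma rchamb_L : MeasurePreserving (comb (omB m)) volume volume := by
  have h := measurePreserving_lin
    (Matrix.toLin' (Matrix.of fun i j : Fin m => if i ≤ j then (1 : ℝ) else 0)) (by
      rw [LinearMap.det_toLin', Matrix.det_of_isUpperTriangular]
      · simp
      · intro i j hij
        exact if_neg (not_le.2 hij))
  convert h using 1
  funext r i
  simp [rchamb_comb, Matrix.mulVec, dotProduct]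

lemma rchamb_mem {r : E m} (hr : r ∈ orth m) :
    StrictAnti (comb (omB m) r) ∧ ∀ i, 0 < comb (omB m) r i := by
  refine ⟨fun i i' h => ?_, fun i => ?_⟩
  · rw [rchamb_comb, rchamb_comb]
    refine Finset.sum_lt_sum (fun j _ => ?_) ⟨i, Finset.mem_univ _, ?_⟩
    · by_cases h1 : i' ≤ j
      · rw [if_pos h1, if_pos (h.le.trans h1)]
      · rw [if_neg h1]
        split_ifs
        · exact (hr j).le
        · exact le_rfl
    · rw [if_neg (not_le.2 h), if_pos le_rfl]
      exact hr i
  · rw [rchamb_comb]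
    refine Finset.sum_pos' (fun j _ => ?_) ⟨i, Finset.mem_univ _, ?_⟩
    · split_ifs
      · exact (hr j).le
      · exact le_rfl
    · rw [if_pos le_rfl]
      exact hr i

theorem cham_B {f : E m → ℝ≥0∞} (hf : Measurable f)
    (h1 : ∀ z i, f (update z i (-z i)) = f z)
    (h2 : ∀ (σ : Equiv.Perm (Fin m)) z, f (z ∘ σ) = f z) :
    (2 ^ m * m.factorial : ℝ≥0∞) * ∫⁻ r in orth m, f (comb (omB m) r) ≤ ∫⁻ z, f z := by
  have h := rchamb_gen hf rchamb_meas rchamb_T rchamb_mp
    (fun a z => (rchamb_flip h1 a.1 (z ∘ a.2)).trans (h2 a.2 z)) rchamb_disj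
  rw [Fintype.card_prod, Fintype.card_finset, Fintype.card_perm, Fintype.card_fin] at h
  push_cast at h
  refine le_trans (mul_le_mul' le_rfl ?_) h
  rw [← rchamb_L.setLIntegral_comp_preimage rchamb_meas hf]
  exact lintegral_mono_set fun r hr => rchamb_mem hr

end Pool.Agent.MP_5f4cdd_gt.W
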