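import Pool.Agent.MP_5f4cdd_gt.RBasic

set_option autoImplicit false
open MeasureTheory ENNReal Set Function Filter Topology Pointwise

namespace Pool.Agent.MP_5f4cdd_gt.W

open PL EF AB

variable {n k m : ℕ}

section

variable {P ι : Type} [AddCommGroup P] [Module ℝ P] [Fintype ι] [DecidableEq ι]

omit [DecidableEq ι] in
lemma rcone_aff (φ : P →ᵃ[ℝ] ℝ) {c : ι → ℝ} (hc : ∑ l, c l = 1) (z : ι → P) :
    φ (∑ l, c l • z l) = ∑ l, c l * φ (z l) := by
  have h : ∀ x, φ x = φ.linear x + φ 0 := fun x => congrFun φ.decomp x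
  rw [h, map_sum, Finset.sum_congr rfl fun l _ => congrArg (c l * ·) (h (z l))]
  simp only [map_smul, smul_eq_mul, mul_add, Finset.sum_add_distrib, ← Finset.sum_mul, hc,
    one_mul]

omit [Fintype ι] in
lemma rcone_sum (s : Finset ι) (g : ι → P →ᵃ[ℝ] ℝ) (x : P) :
    (∑ i ∈ s, g i) x = ∑ i ∈ s, g i x := by
  induction s using Finset.induction_on with
  | empty => simp
  | insert a s ha ih => simp [Finset.sum_insert ha, ih]

/-- barycentric coordinates -/
structure rcone_Bary (β : ι → P →ᵃ[ℝ] ℝ) (p : ι → P) : Prop where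
  h1 : ∀ o o', β o (p o') = if o = o' then 1 else 0
  h2 : ∀ x, ∑ o, β o x = 1
  h3 : ∀ x, ∑ o, β o x • p o = x

variable {β : ι → P →ᵃ[ℝ] ℝ} {p : ι → P}

lemma rcone_coord (h : rcone_Bary β p) {c : ι → ℝ} (hc : ∑ l, c l = 1) (o : ι) :
    β o (∑ l, c l • p l) = c o := by
  rw [rcone_aff _ hc]
  simp [h.h1]

lemma rcone_pos (h : rcone_Bary β p) (l o : ι) : 0 ≤ β o (p l) := by
  rw [h.h1]; split_ifs <;> norm_num

lemma rcone_vert (h : rcone_Bary β p) (R : P →ₗ[ℝ] P) (hR : ∀ x, R (R x) = x)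
    (hS : ∀ x, (∀ o, 0 ≤ β o x) → ∀ o, 0 ≤ β o (R x)) (i : ι) : ∃ l, R (p i) = p l := by
  have hq := hS _ (rcone_pos h i)
  have hle : ∀ l, β i (R (p l)) ≤ 1 := fun l => by
    rw [← h.h2 (R (p l))]
    exact Finset.single_le_sum (fun o _ => hS _ (rcone_pos h l) o) (Finset.mem_univ i)
  have e1 : p i = ∑ l, β l (R (p i)) • R (p l) := by
    conv_lhs => rw [← hR (p i), ← h.h3 (R (p i))]
    simp only [map_sum, map_smul]
  have e2 : ∑ l, β l (R (p i)) * (1 - β i (R (p l))) = 0 := by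
    have := rcone_aff (β i) (h.h2 (R (p i))) fun l => R (p l)
    rw [← e1, h.h1, if_pos rfl] at this
    simp only [mul_sub, mul_one, Finset.sum_sub_distrib, h.h2, ← this, sub_self]
  rw [Finset.sum_eq_zero_iff_of_nonneg fun l _ => mul_nonneg (hq l) (sub_nonneg.2 (hle l))] at e2
  obtain ⟨l, -, hl⟩ := Finset.exists_ne_zero_of_sum_ne_zero
    (s := Finset.univ) (f := fun l => β l (R (p i))) (by rw [h.h2]; exact one_ne_zero)
  have e3 : β i (R (p l)) = 1 := by
    have := (mul_eq_zero.1 (e2 l (Finset.mem_univ l))).resolve_left hl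
    linarith
  have e4 : ∀ o ∈ Finset.univ.erase i, β o (R (p l)) = 0 := by
    rw [← Finset.sum_eq_zero_iff_of_nonneg fun o _ => hS _ (rcone_pos h l) o]
    have := h.h2 (R (p l))
    rw [← Finset.add_sum_erase _ _ (Finset.mem_univ i)] at this
    linarith
  refine ⟨l, ?_⟩
  have e5 : R (p l) = p i := by
    rw [← h.h3 (R (p l)), ← Finset.add_sum_erase _ _ (Finset.mem_univ i), e3, one_smul,
      Finset.sum_eq_zero fun o ho => by rw [e4 o ho, zero_smul], add_zero]
  rw [← e5, hR]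

lemma rcone_bary (F : E n ≃ᵃ[ℝ] P) : ∃ (β : Option (Fin n) → P →ᵃ[ℝ] ℝ) (p : Option (Fin n) → P),
    rcone_Bary β p ∧ ∀ x, x ∈ F '' stdS n ↔ ∀ o, 0 ≤ β o x := by
  let g : Fin n → P →ᵃ[ℝ] ℝ := fun i => (AffineMap.proj i).comp F.symm.toAffineMap
  have hg : ∀ i x, g i x = F.symm x i := fun i x => rfl
  have hs : ∀ x, (AffineMap.const ℝ P (1 : ℝ) - ∑ i, g i) x = 1 - ∑ i, F.symm x i := fun x => by
    simp [hg, AffineMap.coe_sub, rcone_sum]
  refine ⟨fun o => o.elim (AffineMap.const ℝ P (1 : ℝ) - ∑ i, g i) g,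
    fun o => o.elim (F 0) fun i => F (Pi.single i 1), ⟨?_, ?_, ?_⟩, ?_⟩
  · rintro (_ | i) (_ | j) <;> simp [hs, hg, Pi.single_apply]
  · intro x
    simp [Fintype.sum_option, hs, hg]
  · intro x
    obtain ⟨z, rfl⟩ := F.surjective x
    have hF : ∀ y, F y = F.linear y + F 0 := fun y => congrFun F.toAffineMap.decomp y
    have hz : F.linear z = ∑ i, z i • F.linear (Pi.single i 1) := by
      simp only [← map_smul, ← map_sum]
      congr 1
      ext j
      simp [Pi.single_apply]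
    simp only [Fintype.sum_option, Option.elim, hs, hg, AffineEquiv.symm_apply_apply]
    rw [hF z, hz, Finset.sum_congr rfl fun i _ => congrArg (z i • ·) (hF (Pi.single i 1))]
    simp only [smul_add, Finset.sum_add_distrib, ← Finset.sum_smul, sub_smul, one_smul]
    abel
  · intro x
    obtain ⟨z, rfl⟩ := F.surjective x
    rw [F.injective.mem_set_image]
    simp [Option.forall, hs, hg, stdS, and_comm]

end

lemma rcone_smul {c : ℝ} (hc : 0 ≤ c) (v : E m) : v ∈ c • cS m 1 ↔ v ∈ cS m c := by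
  constructor
  · rintro ⟨w, hw, rfl⟩ j
    have := mul_le_mul_of_nonneg_left (hw j) hc
    simp only [map_smul, Pi.smul_apply, smul_eq_mul]
    refine le_trans (le_of_eq ?_) this
    ring
  · intro h
    rcases hc.eq_or_lt with rfl | hc
    · have h0 : v = 0 := by simpa using norm_le_of_mem_cS le_rfl h
      exact ⟨0, mem_cS_of_norm_le (by simp; positivity), by simp [h0]⟩
    · refine ⟨c⁻¹ • v, ?_, smul_inv_smul₀ hc.ne' v⟩
      rw [← smul_mem_cS hc, smul_inv_smul₀ hc.ne', mul_one]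
      exact h

/-- the vertices of the centred simplex -/
noncomputable def rcone_w (s : Fin (m + 1)) : E m :=
  fun i => (if i.succ = s then 1 else 0) - 1 / (m + 1)

lemma rcone_bet_w (s j : Fin (m + 1)) :
    bet m (rcone_w s) j = (if j = s then 1 else 0) - 1 / (m + 1) := by
  have h : ∑ j : Fin (m + 1), ((if j = s then 1 else 0) - 1 / (m + 1) : ℝ) = 0 := by
    rw [Finset.sum_sub_distrib]
    simp
    field_simp
    ring
  exact congrFun (bet_tail (w := fun j => (if j = s then 1 else 0) - 1 / (m + 1)) h) j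

lemma rcone_w_mem (s : Fin (m + 1)) {c : ℝ} (hc : 0 ≤ c) : c • rcone_w s ∈ cS m c := by
  rw [← rcone_smul hc]
  refine smul_mem_smul_set fun j => ?_
  rw [rcone_bet_w]
  split_ifs <;> simp

lemma rcone_w_le (s : Fin (m + 2)) {c d : ℝ} (h : c • rcone_w s ∈ cS (m + 1) d) : c ≤ d := by
  obtain ⟨j, hj⟩ := exists_ne s
  have := h j
  rw [map_smul, Pi.smul_apply, rcone_bet_w, if_neg hj, smul_eq_mul, zero_sub, mul_neg,
    neg_le_neg_iff, mul_one_div, div_le_div_iff_of_pos_right (by positivity)] at this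
  exact this

lemma rcone_w_sum : ∑ s : Fin (m + 1), rcone_w s = 0 := by
  ext i
  simp only [Finset.sum_apply, rcone_w, Finset.sum_sub_distrib]
  simp
  field_simp
  ring

lemma rcone_nc {y : E m} (hy : y ≠ 0) : ∃ s t, bet m y s ≠ bet m y t := by
  by_contra h
  push Not at h
  have h0 := sum_bet y
  rw [Finset.sum_congr rfl fun j _ => h j 0] at h0
  simp only [Finset.sum_const, Finset.card_univ, Fintype.card_fin, nsmul_eq_mul, mul_eq_zero,
    Nat.cast_eq_zero, Nat.add_eq_zero_iff, one_ne_zero, and_false, false_or] at h0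
  refine hy (funext fun i => ?_)
  rw [← bet_succ y i, h i.succ 0, h0]
  rfl

lemma rcone_nc2 {y z : E m} (hy : y ≠ 0) (hz : z ≠ 0) :
    ∃ s t, bet m y s ≠ bet m y t ∧ bet m z s ≠ bet m z t := by
  obtain ⟨s, t, h⟩ := rcone_nc hy
  by_cases hst : bet m z s = bet m z t
  · obtain ⟨a, b, hab⟩ := rcone_nc hz
    obtain ⟨r, hr⟩ : ∃ r, bet m z r ≠ bet m z s := by
      by_contra hn
      push Not at hn
      exact hab ((hn a).trans (hn b).symm)
    by_cases hrs : bet m y r = bet m y s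
    · exact ⟨r, t, hrs ▸ h, hst ▸ hr⟩
    · exact ⟨r, s, hrs, hr⟩
  · exact ⟨s, t, h, hst⟩

section

variable {ι : Type} [Fintype ι] [DecidableEq ι] {β : ι → E k × E m →ᵃ[ℝ] ℝ}
  {p : ι → E k × E m} {B : Set (E k)} {τ : E k → ℝ}

lemma rcone_same (h : rcone_Bary β p)
    (hS : ∀ x : E k × E m, x.1 ∈ B ∧ x.2 ∈ cS m (τ x.1) ↔ ∀ o, 0 ≤ β o x) {i j : ι}
    (hi : (p i).2 ≠ 0) (hj : (p j).2 ≠ 0) : (p i).1 = (p j).1 := by
  obtain ⟨s, t, h1, h2⟩ := rcone_nc2 hi hj
  let R : E k × E m →ₗ[ℝ] E k × E m := LinearMap.prodMap LinearMap.id (Tp (Equiv.swap s t))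
  have hR : ∀ x, R x = (x.1, Tp (Equiv.swap s t) x.2) := fun x => rfl
  have hRR : ∀ x, R (R x) = x := fun x => by
    simp only [hR, Tp_Tp, Equiv.swap_mul_self, Tp_one]
  have hRS : ∀ x, (∀ o, 0 ≤ β o x) → ∀ o, 0 ≤ β o (R x) := fun x hx => by
    rw [← hS] at hx ⊢
    rw [hR]
    exact ⟨hx.1, (Tp_mem_cS _).2 hx.2⟩
  obtain ⟨l, hl⟩ := rcone_vert h R hRR hRS i
  obtain ⟨l', hl'⟩ := rcone_vert h R hRR hRS j
  have hli : i ≠ l := by
    rintro rfl
    have := congrArg (fun x => bet m x.2 s) hl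
    simp only [hR, bet_Tp_apply, Equiv.swap_apply_left] at this
    exact h1 this.symm
  have key : (bet m (p j).2 t - bet m (p j).2 s) • (p l - p i) =
      (bet m (p i).2 t - bet m (p i).2 s) • (p l' - p j) := by
    rw [← hl, ← hl']
    refine Prod.ext (by simp [hR]) (bet_injective (funext fun r => ?_))
    simp only [hR, Prod.smul_snd, Prod.snd_sub, map_smul, map_sub, Pi.smul_apply, Pi.sub_apply,
      bet_Tp_apply, smul_eq_mul]
    by_cases hr : r = s
    · rw [hr, Equiv.swap_apply_left]; ring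
    by_cases hr' : r = t
    · rw [hr', Equiv.swap_apply_right]; ring
    rw [Equiv.swap_apply_of_ne_of_ne hr hr']; ring
  have hlin : ∀ x y, (β i).linear (x - y) = β i x - β i y := fun x y => (β i).linearMap_vsub x y
  have k2 := congrArg (β i).linear key
  simp only [map_smul, hlin, h.h1, smul_eq_mul, if_neg hli, if_true] at k2
  by_cases hij : i = j
  · rw [hij]
  by_cases hil : i = l'
  · rw [hil, ← hl']; rfl
  rw [if_neg hij, if_neg hil] at k2
  exact absurd (by linarith) h2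

end

lemma rcone_main {ι : Type} [Fintype ι] [DecidableEq ι] {β : ι → E k × E (m + 1) →ᵃ[ℝ] ℝ}
    {p : ι → E k × E (m + 1)} {B : Set (E k)} {τ : E k → ℝ} (hτ : ∀ u ∈ B, 0 ≤ τ u)
    (h : rcone_Bary β p)
    (hS : ∀ x : E k × E (m + 1), x.1 ∈ B ∧ x.2 ∈ cS (m + 1) (τ x.1) ↔ ∀ o, 0 ≤ β o x) :
    ∃ (b : E k) (l : E k →ᵃ[ℝ] ℝ), b ∈ B ∧ 0 < τ b ∧ (∀ u ∈ B, τ u = l u * τ b) ∧
      ∀ u ∈ B, 0 ≤ l u ∧ l u ≤ 1 ∧
        ∃ u' ∈ B, (1 - l u) * l u' = 0 ∧ u = l u • b + (1 - l u) • u' := by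
  classical
  obtain ⟨o₀, h₀⟩ : ∃ o, (p o).2 ≠ 0 := by
    by_contra hn
    push Not at hn
    have := congrArg (fun x => x.2 0) (h.h3 (0, fun _ => 1))
    simp [Prod.snd_sum, hn] at this
  have hp : ∀ o, (p o).1 ∈ B ∧ (p o).2 ∈ cS (m + 1) (τ (p o).1) := fun o =>
    (hS _).2 (rcone_pos h o)
  set b := (p o₀).1 with hb
  have hB : b ∈ B := (hp o₀).1
  have hab : ∀ o, (p o).2 ≠ 0 → (p o).1 = b := fun o ho => rcone_same h hS ho h₀
  have hτb : 0 < τ b := by
    refine (hτ b hB).lt_of_ne fun h0 => h₀ ?_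
    simpa [← hb, ← h0] using norm_le_of_mem_cS (hτ b hB) (hp o₀).2
  set T : Finset ι := Finset.univ.filter fun o => (p o).2 ≠ 0 with hT
  have hT' : ∀ o, o ∈ T ↔ (p o).2 ≠ 0 := fun o => by simp [hT]
  let lam : E k × E (m + 1) →ᵃ[ℝ] ℝ := ∑ o ∈ T, β o
  have hlam : ∀ x, lam x = ∑ o ∈ T, β o x := fun x => rcone_sum T β x
  have hc : ∀ x, ∑ o ∈ Tᶜ, β o x = 1 - lam x := fun x => by
    rw [hlam, ← h.h2 x, ← Finset.sum_add_sum_compl T]; ring
  have h0 : ∀ u ∈ B, ∀ o, 0 ≤ β o (u, 0) := fun u hu => (hS (u, 0)).1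
    ⟨hu, mem_cS_of_norm_le (by have := hτ u hu; simp; positivity)⟩
  have hfst : ∀ x : E k × E (m + 1), x.1 = lam x • b + ∑ o ∈ Tᶜ, β o x • (p o).1 := fun x => by
    conv_lhs => rw [← h.h3 x]
    rw [Prod.fst_sum, ← Finset.sum_add_sum_compl T, hlam, Finset.sum_smul]
    congr 1
    exact Finset.sum_congr rfl fun o ho => by rw [Prod.smul_fst, hab o ((hT' o).1 ho)]
  have hsnd : ∀ x : E k × E (m + 1), (∀ o, 0 ≤ β o x) → x.2 ∈ cS (m + 1) (lam x * τ b) := by
    intro x hx j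
    conv_rhs => rw [← h.h3 x]
    rw [Prod.snd_sum, ← Finset.sum_add_sum_compl T, Finset.sum_eq_zero (s := Tᶜ) fun o ho => by
      have : (p o).2 = 0 := by simpa [hT'] using ho
      simp [this], add_zero, map_sum, Finset.sum_apply, hlam, Finset.sum_mul, Finset.sum_div,
      ← Finset.sum_neg_distrib]
    refine Finset.sum_le_sum fun o ho => ?_
    have h1 := (hp o).2 j
    rw [hab o ((hT' o).1 ho)] at h1
    have := mul_le_mul_of_nonneg_left h1 (hx o)
    simp only [Prod.smul_snd, map_smul, Pi.smul_apply, smul_eq_mul]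
    refine le_trans (le_of_eq ?_) this
    ring
  refine ⟨b, lam.comp (LinearMap.inl ℝ (E k) (E (m + 1))).toAffineMap, hB, hτb, fun u hu => ?_,
    fun u hu => ?_⟩
  · change τ u = lam (u, 0) * τ b
    refine le_antisymm ?_ ?_
    · have hN : (0 : ℝ) < m + 2 := by positivity
      have h1 : ∀ s : Fin (m + 2), τ u ≤ lam (u, τ u • rcone_w s) * τ b := fun s =>
        rcone_w_le s (hsnd (u, τ u • rcone_w s) ((hS _).1 ⟨hu, rcone_w_mem s (hτ u hu)⟩))
      have h2 := rcone_aff lam (c := fun _ : Fin (m + 2) => 1 / (m + 2 : ℝ))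
        (by simp; field_simp) fun s => (u, τ u • rcone_w s)
      have h3 : ∑ s : Fin (m + 2), (1 / (m + 2 : ℝ)) • ((u, τ u • rcone_w s) : E k × E (m + 1)) =
          (u, 0) := by
        rw [← Finset.smul_sum, ← prod_mk_sum, ← Finset.smul_sum, rcone_w_sum]
        ext i
        · simp; field_simp
        · simp
      rw [h3] at h2
      rw [h2, Finset.sum_mul]
      refine le_trans (le_of_eq ?_) (Finset.sum_le_sum fun s _ =>
        (mul_le_mul_of_nonneg_left (h1 s) (one_div_pos.2 hN).le).trans_eq (mul_assoc _ _ _).symm)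
      simp
      field_simp
    · let q : ι → E k × E (m + 1) := fun o => if o ∈ T then (b, τ b • rcone_w 0) else p o
      have hq : ∀ o o', 0 ≤ β o' (q o) := fun o => by
        by_cases ho : o ∈ T
        · simp only [q, if_pos ho]
          exact (hS _).1 ⟨hB, rcone_w_mem 0 hτb.le⟩
        · simp only [q, if_neg ho]
          exact rcone_pos h o
      have h1 : ∑ o, β o (u, 0) • q o = (u, (lam (u, 0) * τ b) • rcone_w 0) := by
        rw [← Finset.sum_add_sum_compl T,
          Finset.sum_congr rfl (g := fun o => β o (u, 0) • (b, τ b • rcone_w 0))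
            fun o ho => by simp only [q, if_pos ho],
          Finset.sum_congr rfl (s₁ := Tᶜ) (g := fun o => β o (u, 0) • ((p o).1, 0))
            fun o ho => by
              have : (p o).2 = 0 := by simpa [hT'] using ho
              simp only [q, if_neg (Finset.mem_compl.1 ho), ← this],
          ← Finset.sum_smul, ← hlam]
        refine Prod.ext ?_ ?_
        · simpa [Prod.fst_sum] using (hfst (u, 0)).symm
        · simp [Prod.snd_sum, smul_smul]
      refine rcone_w_le 0 ((hS (u, (lam (u, 0) * τ b) • rcone_w 0)).2 fun o => ?_).2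
      rw [← h1, rcone_aff _ (h.h2 _)]
      exact Finset.sum_nonneg fun l _ => mul_nonneg (h0 u hu l) (hq l o)
  · change 0 ≤ lam (u, 0) ∧ lam (u, 0) ≤ 1 ∧ ∃ u' ∈ B, (1 - lam (u, 0)) * lam (u', 0) = 0 ∧
      u = lam (u, 0) • b + (1 - lam (u, 0)) • u'
    have h1 : 0 ≤ 1 - lam (u, 0) := by
      rw [← hc]; exact Finset.sum_nonneg fun o _ => h0 u hu o
    refine ⟨by rw [hlam]; exact Finset.sum_nonneg fun o _ => h0 u hu o, by linarith, ?_⟩
    rcases h1.eq_or_lt with h1 | h1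
    · refine ⟨b, hB, by rw [← h1, zero_mul], ?_⟩
      have h2 := (Finset.sum_eq_zero_iff_of_nonneg fun o _ => h0 u hu o).1
        ((hc (u, 0)).trans h1.symm)
      have h3 := hfst (u, 0)
      rw [Finset.sum_eq_zero fun o ho => by rw [h2 o ho, zero_smul]] at h3
      rw [← h1, zero_smul]
      exact h3
    · let c : ι → ℝ := fun o => if o ∈ Tᶜ then β o (u, 0) / (1 - lam (u, 0)) else 0
      have hc1 : ∑ o, c o = 1 := by
        rw [Finset.sum_ite_mem, Finset.univ_inter, ← Finset.sum_div, hc, div_self h1.ne']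
      have hz : ∑ o, c o • p o =
          ((1 - lam (u, 0))⁻¹ • ∑ o ∈ Tᶜ, β o (u, 0) • (p o).1, 0) := by
        rw [← Finset.sum_add_sum_compl T, Finset.sum_eq_zero fun o ho => by simp [c, ho],
          zero_add]
        refine Prod.ext ?_ ?_
        · rw [Prod.fst_sum, Finset.smul_sum]
          exact Finset.sum_congr rfl fun o ho => by
            simp only [c, if_pos ho, Prod.smul_fst, smul_smul, div_eq_inv_mul]
        · rw [Prod.snd_sum]
          exact Finset.sum_eq_zero fun o ho => by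
            have : (p o).2 = 0 := by simpa [hT'] using ho
            simp [this]
      have hco := rcone_coord h hc1
      rw [hz] at hco
      set u' := (1 - lam (u, 0))⁻¹ • ∑ o ∈ Tᶜ, β o (u, 0) • (p o).1 with hu'
      refine ⟨u', ((hS (u', 0)).2 fun o => ?_).1, ?_, ?_⟩
      · rw [hco]
        simp only [c]
        split_ifs
        · exact div_nonneg (h0 u hu o) h1.le
        · exact le_rfl
      · rw [hlam (u', 0), Finset.sum_eq_zero (s := T) fun o ho => by rw [hco]; simp [c, ho],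
          mul_zero]
      · rw [hu', smul_inv_smul₀ h1.ne']
        exact hfst (u, 0)

/-- the gluing map as a linear equivalence -/
noncomputable def rcone_J {a : ℕ} (e : Fin k ⊕ Fin a ≃ Fin n) : (E k × E a) ≃ₗ[ℝ] E n where
  toFun := wpf_j e
  invFun x := (fun i => x (e (Sum.inl i)), fun j => x (e (Sum.inr j)))
  map_add' x y := by simpa using wpf_j_combo e 1 1 x y
  map_smul' c x := by
    ext i
    obtain ⟨i, rfl⟩ := e.surjective i
    cases i <;> simp [wpf_j]
  left_inv x := by ext <;> simp [wpf_j]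
  right_inv x := by
    ext i
    obtain ⟨i, rfl⟩ := e.surjective i
    cases i <;> simp [wpf_j]

theorem cone_of_simplex (e : Fin k ⊕ Fin (m + 1) ≃ Fin n) {B : Set (E k)} {τ : E k → ℝ}
    (hτ : ∀ u ∈ B, 0 ≤ τ u) (f : E n ≃ᵃ[ℝ] E n)
    (h : fibS e B τ (cS (m + 1) 1) = f '' stdS n) :
    ∃ (b : E k) (l : E k →ᵃ[ℝ] ℝ), b ∈ B ∧ 0 < τ b ∧ (∀ u ∈ B, τ u = l u * τ b) ∧
      ∀ u ∈ B, 0 ≤ l u ∧ l u ≤ 1 ∧
        ∃ u' ∈ B, (1 - l u) * l u' = 0 ∧ u = l u • b + (1 - l u) • u' := by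
  obtain ⟨β, p, hb, hS⟩ := rcone_bary (f.trans (rcone_J e).symm.toAffineEquiv)
  refine rcone_main hτ hb fun x => ?_
  have h1 : x ∈ f.trans (rcone_J e).symm.toAffineEquiv '' stdS n ↔ wpf_j e x ∈ f '' stdS n := by
    constructor
    · rintro ⟨z, hz, rfl⟩
      exact ⟨z, hz, ((rcone_J e).apply_symm_apply (f z)).symm⟩
    · rintro ⟨z, hz, hx⟩
      exact ⟨z, hz, (rcone_J e).symm_apply_eq.2 hx⟩
  rw [← hS, h1, ← h, wpf_mem]
  exact and_congr_right fun hx => (rcone_smul (hτ _ hx) _).symm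

end Pool.Agent.MP_5f4cdd_gt.W
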