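import Pool.Agent.MP_5f4cdd_gt.WBase

set_option autoImplicit false
open MeasureTheory ENNReal Set Function Filter Topology Pointwise

namespace Pool.Agent.MP_5f4cdd_gt.W

open PL EF AB

variable {n k m : ℕ}

lemma wcs_body_image {K : Set (E n)} (h : Body K) (e : E n ≃ᵃ[ℝ] E n) : Body (e '' K) :=
  ⟨h.conv.affine_image e.toAffineMap, h.comp.image e.toAffineMap.continuous_of_finiteDimensional,
    (interior_affine e K).2 h.int⟩

/-- sets whose fibres are intervals -/
def wcsG (I : Fin n) (P : E n → Prop) (c L : E n → ℝ) : Set (E n) :=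
  {x | P x ∧ c x ≤ x I ∧ x I ≤ c x + L x}

lemma wcs_mem_sc {I : Fin n} {P : E n → Prop} {c L : E n → ℝ}
    (hP : ∀ x s, P (update x I s) ↔ P x) (hc : ∀ x s, c (update x I s) = c x)
    (hL : ∀ x s, L (update x I s) = L x) {β : ℝ} (hβ : 0 < β) (y : E n) :
    y ∈ sc I β '' wcsG I P c L ↔ P y ∧ β * c y ≤ y I ∧ y I ≤ β * (c y + L y) := by
  constructor
  · rintro ⟨x, ⟨h1, h2, h3⟩, rfl⟩
    rw [sc_apply, hP, hc, hL, update_self]
    exact ⟨h1, by gcongr, by gcongr⟩
  · rintro ⟨h1, h2, h3⟩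
    refine ⟨update y I (y I / β), ⟨(hP _ _).2 h1, ?_, ?_⟩, ?_⟩
    · rw [hc, update_self, le_div_iff₀ hβ]; linarith
    · rw [hc, hL, update_self, div_le_iff₀ hβ]; linarith
    · rw [sc_apply, update_self, update_idem, mul_div_cancel₀ _ hβ.ne', update_eq_self]

lemma wcs_shadow {I : Fin n} {P : E n → Prop} {c L : E n → ℝ}
    (hP : ∀ x s, P (update x I s) ↔ P x) (hc : ∀ x s, c (update x I s) = c x)
    (hL : ∀ x s, L (update x I s) = L x) {β : ℝ} (hβ : 0 < β) :
    sc I 0 '' (sc I β '' wcsG I P c L) = {y | y I = 0 ∧ P y ∧ 0 ≤ L y} := by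
  ext y
  constructor
  · rintro ⟨x, hx, rfl⟩
    obtain ⟨h1, h2, h3⟩ := (wcs_mem_sc hP hc hL hβ x).1 hx
    rw [sc_apply, mem_ofPred_eq, hP, hL, update_self]
    refine ⟨zero_mul _, h1, ?_⟩
    have : 0 ≤ β * L x := by linarith
    exact (mul_nonneg_iff_of_pos_left hβ).1 this
  · rintro ⟨h0, h1, h2⟩
    refine ⟨update y I (β * c y), (wcs_mem_sc hP hc hL hβ _).2 ?_, ?_⟩
    · rw [hP, hc, hL, update_self]
      exact ⟨h1, le_rfl, by nlinarith⟩
    · rw [sc_apply, update_idem, zero_mul, ← h0, update_eq_self]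

lemma wcs_step {ε ε' : ℝ} {μ : ℝ≥0∞} (hεε' : ε < ε') (hε' : ε' < 1) (moat : Moat n ε ε' μ)
    {I : Fin n} {P : E n → Prop} {L : E n → ℝ} (ψ : E n →ₗ[ℝ] ℝ)
    (hP : ∀ x s, P (update x I s) ↔ P x) (hψ : ∀ x s, ψ (update x I s) = ψ x)
    (hL : ∀ x s, L (update x I s) = L x)
    (h0 : Body (wcsG I P (fun _ => 0) L) ∧ AB.Good ε μ (wcsG I P (fun _ => 0) L))
    {t : ℝ} (t0 : 0 ≤ t) (t1 : t ≤ 1) :
    Body (wcsG I P (fun x => t * (ψ x - L x)) L) ∧
      AB.Good ε μ (wcsG I P (fun x => t * (ψ x - L x)) L) := by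
  have hε : ε < 1 := hεε'.trans hε'
  let R : E n →ₗ[ℝ] E n :=
    { toFun := fun x => update x I (ψ x - x I)
      map_add' := fun x y => by
        ext j
        rcases eq_or_ne j I with rfl | hj
        · simp; ring
        · simp [hj]
      map_smul' := fun a x => by
        ext j
        rcases eq_or_ne j I with rfl | hj
        · simp; ring
        · simp [hj] }
  have hR : ∀ x, R x = update x I (ψ x - x I) := fun _ => rfl
  have hinv : Involutive R := fun x => by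
    rw [hR, hR, hψ, update_idem, update_self, _root_.sub_sub_cancel, update_eq_self]
  have e1 : (LinearEquiv.ofInvolutive R hinv).toAffineEquiv '' wcsG I P (fun _ => 0) L =
      wcsG I P (fun x => ψ x - L x) L := by
    ext y
    constructor
    · rintro ⟨x, ⟨h1, h2, h3⟩, rfl⟩
      change update x I (ψ x - x I) ∈ _
      simp only [wcsG, mem_ofPred_eq, hP, hψ, hL, update_self]
      exact ⟨h1, by linarith, by linarith⟩
    · rintro ⟨h1, h2, h3⟩
      refine ⟨R y, ?_, hinv y⟩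
      simp only [hR, wcsG, mem_ofPred_eq, hP, hL, update_self]
      exact ⟨h1, by linarith, by linarith⟩
  have h1 : Body (wcsG I P (fun x => ψ x - L x) L) ∧
      AB.Good ε μ (wcsG I P (fun x => ψ x - L x) L) := by
    rw [← e1]
    exact ⟨wcs_body_image h0.1 _, h0.2.image hε _⟩
  rcases t0.eq_or_lt with rfl | t0
  · simpa using h0
  rcases t1.eq_or_lt with rfl | t1
  · simpa using h1
  have t2 : 0 < 1 - t := by linarith
  have hc : ∀ x s, (fun x => ψ x - L x) (update x I s) = (fun x => ψ x - L x) x := fun x s => by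
    simp only [hψ, hL]
  have hc0 : ∀ (x : E n) (s : ℝ), (fun _ : E n => (0 : ℝ)) (update x I s) =
      (fun _ : E n => (0 : ℝ)) x := fun _ _ => rfl
  have e2 : φ I 1 1 '' AB.Zs I (sc I (1 - t) '' wcsG I P (fun _ => 0) L)
      (sc I t '' wcsG I P (fun x => ψ x - L x) L) =
      wcsG I P (fun x => t * (ψ x - L x)) L := by
    ext x
    rw [mem_fib]
    simp only [wcs_mem_sc (c := fun _ => 0) hP hc0 hL t2,
      wcs_mem_sc (c := fun x => ψ x - L x) hP hc hL t0, hP, hψ, hL, update_self]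
    constructor
    · rintro ⟨s, s', ⟨a1, a2, a3⟩, ⟨-, a4, a5⟩, a6⟩
      exact ⟨a1, by linarith, by linarith⟩
    · rintro ⟨a1, a2, a3⟩
      have a4 : 0 ≤ x I - t * (ψ x - L x) := by linarith
      have a5 : x I - t * (ψ x - L x) ≤ L x := by linarith
      refine ⟨(1 - t) * (x I - t * (ψ x - L x)), t * (ψ x - L x + (x I - t * (ψ x - L x))),
        ⟨a1, by gcongr, by rw [zero_add]; gcongr⟩, ⟨a1, by gcongr; linarith, by gcongr⟩, by ring⟩
  have b0 := wcs_body_image h0.1 (dgE _ (sc_ne I t2.ne'))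
  have b1 := wcs_body_image h1.1 (dgE _ (sc_ne I t0.ne'))
  have g0 := h0.2.image hε (dgE _ (sc_ne I t2.ne'))
  have g1 := h1.2.image hε (dgE _ (sc_ne I t0.ne'))
  have hs := (wcs_shadow (c := fun _ => 0) hP hc0 hL t2).trans
    (wcs_shadow (c := fun x => ψ x - L x) hP hc hL t0).symm
  rw [← e2]
  exact ⟨body_fib b0 b1 hs zero_le_one zero_le_one (Or.inl one_pos),
    Good.fib hεε' hε' moat b0 b1 hs g0 g1⟩

lemma wcs_mem {σ v : E m} {τ : ℝ} (hτ : 0 ≤ τ) : v ∈ τ • ((fun z => z - σ) '' stdS m) ↔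
    (∀ j, -(σ j * τ) ≤ v j) ∧ ∑ j, v j ≤ (1 - ∑ j, σ j) * τ := by
  constructor
  · rintro ⟨_, ⟨z, ⟨h1, h2⟩, rfl⟩, rfl⟩
    refine ⟨fun j => ?_, ?_⟩
    · have := mul_nonneg hτ (h1 j)
      simp only [Pi.smul_apply, Pi.sub_apply, smul_eq_mul]
      linarith
    · simp only [Pi.smul_apply, Pi.sub_apply, smul_eq_mul, ← Finset.mul_sum,
        Finset.sum_sub_distrib]
      rw [mul_comm]
      gcongr
  · rintro ⟨h1, h2⟩
    rcases hτ.eq_or_lt with rfl | hτ
    · simp only [mul_zero, neg_zero] at h1 h2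
      have := (Finset.sum_eq_zero_iff_of_nonneg fun j _ => h1 j).1
        (le_antisymm h2 (Finset.sum_nonneg fun j _ => h1 j))
      refine ⟨0 - σ, ⟨0, ⟨fun _ => le_rfl, by simp⟩, rfl⟩, ?_⟩
      ext j
      simp [this j (Finset.mem_univ j)]
    · refine ⟨τ⁻¹ • v, ⟨τ⁻¹ • v + σ, ⟨fun j => ?_, ?_⟩, by simp⟩, by simp [smul_smul, hτ.ne']⟩
      · have := h1 j
        simp only [Pi.add_apply, Pi.smul_apply, smul_eq_mul]
        rw [← neg_le_iff_add_nonneg, le_inv_mul_iff₀ hτ]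
        linarith
      · simp only [Pi.add_apply, Pi.smul_apply, smul_eq_mul, Finset.sum_add_distrib,
          ← Finset.mul_sum]
        rw [← le_sub_iff_add_le, inv_mul_le_iff₀ hτ]
        linarith

/-- the shifted simplex bundles -/
def wcsK (e : Fin k ⊕ Fin m ≃ Fin n) (B : Set (E k)) (τ : E k → ℝ) (σ : E m) : Set (E n) :=
  {x | (fun i => x (e (Sum.inl i))) ∈ B ∧
    (∀ j, -(σ j * τ fun i => x (e (Sum.inl i))) ≤ x (e (Sum.inr j))) ∧
      ∑ j, x (e (Sum.inr j)) ≤ (1 - ∑ j, σ j) * τ fun i => x (e (Sum.inl i))}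

lemma wcsK_eq (e : Fin k ⊕ Fin m ≃ Fin n) {B : Set (E k)} {τ : E k → ℝ} (hτ : ∀ u ∈ B, 0 ≤ τ u)
    (σ : E m) : fibS e B τ ((fun z => z - σ) '' stdS m) = wcsK e B τ σ := by
  ext x
  exact and_congr_right fun h => wcs_mem (hτ _ h)

lemma wcsK_G (e : Fin k ⊕ Fin m ≃ Fin n) (B : Set (E k)) (τ : E k → ℝ) (σ : E m) (i : Fin m)
    (a : ℝ) : wcsK e B τ (update σ i a) = wcsG (e (Sum.inr i))
      (fun x => (fun i => x (e (Sum.inl i))) ∈ B ∧
        ∀ j, j ≠ i → -(σ j * τ fun i => x (e (Sum.inl i))) ≤ x (e (Sum.inr j)))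
      (fun x => -(a * τ fun i => x (e (Sum.inl i))))
      (fun x => (1 - ∑ j ∈ Finset.univ.erase i, σ j) * τ (fun i => x (e (Sum.inl i))) -
        ∑ j ∈ Finset.univ.erase i, x (e (Sum.inr j))) := by
  ext x
  have h1 : ∑ j, update σ i a j = a + ∑ j ∈ Finset.univ.erase i, σ j := by
    rw [Finset.sum_update_of_mem (Finset.mem_univ i), Finset.sdiff_singleton_eq_erase]
  have h2 := Finset.add_sum_erase Finset.univ (fun j => x (e (Sum.inr j))) (Finset.mem_univ i)
  simp only [wcsK, wcsG, mem_ofPred_eq, h1, ← h2]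
  constructor
  · rintro ⟨a1, a2, a3⟩
    refine ⟨⟨a1, fun j hj => by simpa [hj] using a2 j⟩, by simpa using a2 i, by linarith⟩
  · rintro ⟨⟨a1, a2⟩, a3, a4⟩
    refine ⟨a1, fun j => ?_, by linarith⟩
    rcases eq_or_ne j i with rfl | hj
    · simpa using a3
    · simpa [hj] using a2 j hj

lemma wcsK_step {ε ε' : ℝ} {μ : ℝ≥0∞} (hεε' : ε < ε') (hε' : ε' < 1) (moat : Moat n ε ε' μ)
    (e : Fin k ⊕ Fin m ≃ Fin n) (B : Set (E k)) (τ : E k → ℝ) {σ : E m} (i : Fin m)
    (h0 : 0 ≤ σ i) (h1 : ∑ j, σ j ≤ 1)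
    (h : Body (wcsK e B τ (update σ i 0)) ∧ AB.Good ε μ (wcsK e B τ (update σ i 0))) :
    Body (wcsK e B τ σ) ∧ AB.Good ε μ (wcsK e B τ σ) := by
  set b := 1 - ∑ j ∈ Finset.univ.erase i, σ j with hb
  have h2 : σ i ≤ b := by
    have := Finset.add_sum_erase Finset.univ σ (Finset.mem_univ i)
    linarith
  have h3 : σ i / b * b = σ i := by
    rcases eq_or_ne b 0 with h | h
    · rw [h, mul_zero]; linarith
    · exact div_mul_cancel₀ _ h
  have hu : ∀ (x : E n) (s : ℝ), (fun l => update x (e (Sum.inr i)) s (e (Sum.inl l))) =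
      fun l => x (e (Sum.inl l)) := fun x s => by
    ext l
    rw [update_of_ne (by simp)]
  have hv : ∀ (x : E n) (s : ℝ) j, j ≠ i → update x (e (Sum.inr i)) s (e (Sum.inr j)) =
      x (e (Sum.inr j)) := fun x s j hj => update_of_ne (by simpa using hj) _ _
  have hS : ∀ (x : E n) (s : ℝ), ∑ j ∈ Finset.univ.erase i,
      update x (e (Sum.inr i)) s (e (Sum.inr j)) =
        ∑ j ∈ Finset.univ.erase i, x (e (Sum.inr j)) := fun x s =>
    Finset.sum_congr rfl fun j hj => hv x s j (Finset.ne_of_mem_erase hj)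
  let ψ : E n →ₗ[ℝ] ℝ := -∑ j ∈ Finset.univ.erase i, LinearMap.proj (e (Sum.inr j))
  have hψ : ∀ x, ψ x = -∑ j ∈ Finset.univ.erase i, x (e (Sum.inr j)) := fun x => by
    simp [ψ]
  rw [wcsK_G] at h
  simp only [zero_mul, neg_zero] at h
  have := wcs_step hεε' hε' moat ψ (fun x s => ?_) (fun x s => by rw [hψ, hψ, hS])
    (fun x s => by simp only [hu, hS]) h (div_nonneg h0 (h0.trans h2))
    (div_le_one_of_le₀ h2 (h0.trans h2))
  · rw [← update_eq_self i σ, wcsK_G]
    convert this using 4 with x x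
    all_goals
      rw [hψ, ← hb]
      linear_combination (τ fun i => x (e (Sum.inl i))) * h3
  · simp only [hu]
    exact and_congr_right fun _ => forall₂_congr fun j hj => by rw [hv x s j hj]

theorem good_centred {ε ε' : ℝ} {μ : ℝ≥0∞} (hεε' : ε < ε') (hε' : ε' < 1) (moat : Moat n ε ε' μ)
    (e : Fin k ⊕ Fin m ≃ Fin n) {B : Set (E k)} {τ : E k → ℝ} (hτ : ∀ u ∈ B, 0 ≤ τ u)
    (hB : Body (fibS e B τ (stdS m))) (hG : AB.Good ε μ (fibS e B τ (stdS m))) :
    Body (fibS e B τ (cS m 1)) ∧ AB.Good ε μ (fibS e B τ (cS m 1)) := by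
  have key : ∀ s : Finset (Fin m), ∀ σ : E m, (∀ j, 0 ≤ σ j) → ∑ j, σ j ≤ 1 →
      (∀ j, j ∉ s → σ j = 0) → Body (wcsK e B τ σ) ∧ AB.Good ε μ (wcsK e B τ σ) := by
    intro s
    induction s using Finset.induction_on with
    | empty =>
      intro σ _ _ h
      have : σ = 0 := funext fun j => h j (by simp)
      rw [this, ← wcsK_eq e hτ]
      simpa using And.intro hB hG
    | insert i s _ ih =>
      intro σ h0 h1 h2
      refine wcsK_step hεε' hε' moat e B τ i (h0 i) h1 (ih _ (fun j => ?_) ?_ fun j hj => ?_)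
      · rcases eq_or_ne j i with rfl | hj
        · simp
        · simpa [hj] using h0 j
      · refine le_trans (Finset.sum_le_sum fun j _ => ?_) h1
        rcases eq_or_ne j i with rfl | hj
        · simpa using h0 j
        · simp [hj]
      · rcases eq_or_ne j i with rfl | hj'
        · simp
        · rw [update_of_ne hj']
          exact h2 j (by simp [hj, hj'])
  rw [← image_sub_cen, wcsK_eq e hτ]
  exact key Finset.univ _ cen_mem_stdS.1 cen_mem_stdS.2 (by simp)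

end Pool.Agent.MP_5f4cdd_gt.W
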