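import Pool.Agent.MP_5f4cdd_gt.RDef
import Pool.Agent.MP_5f4cdd_gt.WCS

set_option autoImplicit false
open MeasureTheory ENNReal Set Function Filter Topology Pointwise

namespace Pool.Agent.MP_5f4cdd_gt.W

open PL EF AB

variable {n k m : ℕ}

/-- the linear part of the change of coordinates -/
def rconv_lin (P : Finset (Fin n)) (I0 : Fin n) (w : Fin n → ℝ) : E n →ₗ[ℝ] E n where
  toFun x := fun i => if i = I0 then ∑ l ∈ P, x l else x i + w i * ∑ l ∈ P, x l
  map_add' x y := by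
    ext i
    by_cases h : i = I0
    · simp [h, Finset.sum_add_distrib]
    · simp [h, Finset.sum_add_distrib]; ring
  map_smul' a x := by
    ext i
    by_cases h : i = I0
    · simp [h, Finset.mul_sum]
    · simp only [h, if_false, Pi.smul_apply, smul_eq_mul, RingHom.id_apply, ← Finset.mul_sum]
      ring

lemma rconv_lin_apply (P : Finset (Fin n)) (I0 : Fin n) (w : Fin n → ℝ) (x : E n) (i : Fin n) :
    rconv_lin P I0 w x i = if i = I0 then ∑ l ∈ P, x l else x i + w i * ∑ l ∈ P, x l := rfl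

lemma rconv_lin_inj {P : Finset (Fin n)} {I0 : Fin n} (h0 : I0 ∈ P) (w : Fin n → ℝ) :
    Injective (rconv_lin P I0 w) := by
  rw [← LinearMap.ker_eq_bot, LinearMap.ker_eq_bot']
  intro x hx
  have hs : ∑ l ∈ P, x l = 0 := by
    have := congrFun hx I0
    simpa [rconv_lin_apply] using this
  have h1 : ∀ i, i ≠ I0 → x i = 0 := fun i hi => by
    have := congrFun hx i
    simpa [rconv_lin_apply, hi, hs] using this
  have h2 : x I0 = 0 := by
    rw [Finset.sum_eq_single_of_mem I0 h0 fun b _ hb => h1 b hb] at hs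
    exact hs
  ext i
  by_cases hi : i = I0
  · rw [hi, h2]; rfl
  · exact h1 i hi

lemma rconv_aff {P : Finset (Fin n)} {I0 : Fin n} (h0 : I0 ∈ P) (w kk : Fin n → ℝ) :
    ∃ f : E n ≃ᵃ[ℝ] E n, ∀ x i, f x i =
      if i = I0 then ∑ l ∈ P, x l else x i + w i * ∑ l ∈ P, x l + kk i := by
  have hi := rconv_lin_inj h0 w
  let L : E n ≃ₗ[ℝ] E n := LinearEquiv.ofBijective (rconv_lin P I0 w)
    ⟨hi, LinearMap.injective_iff_surjective.1 hi⟩
  let c : E n := fun i => if i = I0 then 0 else kk i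
  refine ⟨L.toAffineEquiv.trans (AffineEquiv.constVAdd ℝ (E n) c), fun x i => ?_⟩
  change c i + rconv_lin P I0 w x i = _
  rw [rconv_lin_apply]
  by_cases h : i = I0
  · simp [c, h]
  · simp only [c, h, if_false]; ring

lemma rconv_sum_swap {P : Finset (Fin n)} {i i' : Fin n} (hi : i ∈ P) (hi' : i' ∈ P) (x : E n) :
    ∑ l ∈ P, (x ∘ Equiv.swap i i') l = ∑ l ∈ P, x l := by
  refine Finset.sum_equiv (Equiv.swap i i') (fun l => ?_) fun l _ => rfl
  rw [Equiv.swap_apply_def]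
  split_ifs with h1 h2
  · simp [h1, hi, hi']
  · simp [h2, hi, hi']
  · rfl

/-- the block inside `P` -/
lemma rconv_in {P : Finset (Fin n)} {I0 : Fin n} (h0 : I0 ∈ P) {w kk : Fin n → ℝ}
    {f : E n ≃ᵃ[ℝ] E n} (hf : ∀ x i, f x i =
      if i = I0 then ∑ l ∈ P, x l else x i + w i * ∑ l ∈ P, x l + kk i)
    {g : Fin n → Fin 3} {j : Fin 3} (hg : ∀ i, g i = j ↔ i ∈ P.erase I0)
    (hw : ∀ i ∈ P.erase I0, w i = -1 / (P.card : ℝ) ∧ kk i = 0) {K : Set (E n)}
    (hK : ∀ x ∈ K, ∀ i ∈ P, x ∘ Equiv.swap i I0 ∈ K) : AInv g j (f '' K) := by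
  rintro _ ⟨x, hx, rfl⟩ i hi
  have hiP := (hg i).1 hi
  obtain ⟨hne, hiP'⟩ := Finset.mem_erase.1 hiP
  refine ⟨x ∘ Equiv.swap i I0, hK x hx i hiP', ?_⟩
  have hc : (0 : ℝ) < P.card := by exact_mod_cast Finset.card_pos.2 ⟨I0, h0⟩
  have hb : bs g (f x) j = (∑ l ∈ P, x l) / (P.card : ℝ) - x I0 := by
    change ∑ l with g l = j, f x l = _
    have e1 : (Finset.univ.filter fun l => g l = j) = P.erase I0 := by
      ext l; simp only [Finset.mem_filter, Finset.mem_univ, true_and, hg]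
    rw [e1, Finset.sum_congr rfl (g := fun l => x l + -1 / (P.card : ℝ) * ∑ l ∈ P, x l)
      fun l hl => by rw [hf, if_neg (Finset.mem_erase.1 hl).1, (hw l hl).1, (hw l hl).2, add_zero],
      Finset.sum_add_distrib, Finset.sum_const, Finset.card_erase_of_mem h0, nsmul_eq_mul,
      Nat.cast_sub (Finset.card_pos.2 ⟨I0, h0⟩), ← Finset.add_sum_erase P x h0]
    field_simp
    ring
  ext l
  rw [hf, rconv_sum_swap hiP' h0]
  by_cases hl : l = i
  · subst hl
    rw [update_self, if_neg hne, hb, (hw l hiP).1, (hw l hiP).2]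
    simp only [comp_apply, Equiv.swap_apply_left]
    ring
  · rw [update_of_ne hl, hf]
    by_cases hl0 : l = I0
    · simp [hl0]
    · simp only [hl0, if_false, comp_apply, Equiv.swap_apply_of_ne_of_ne hl hl0]

/-- the block outside `P` -/
lemma rconv_out {P : Finset (Fin n)} {I0 : Fin n} (h0 : I0 ∈ P) {w kk : Fin n → ℝ}
    {f : E n ≃ᵃ[ℝ] E n} (hf : ∀ x i, f x i =
      if i = I0 then ∑ l ∈ P, x l else x i + w i * ∑ l ∈ P, x l + kk i)
    {g : Fin n → Fin 3} {j : Fin 3} (hg : ∀ i, g i = j ↔ i ∉ P)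
    (hw : ∀ i, i ∉ P → w i = 1 / ((Pᶜ.card : ℝ) + 1) ∧ kk i = -1 / ((Pᶜ.card : ℝ) + 1))
    {K : Set (E n)} (hK : ∀ x ∈ K, ∀ i, i ∉ P → update x i (1 - ∑ l, x l) ∈ K) :
    AInv g j (f '' K) := by
  rintro _ ⟨x, hx, rfl⟩ i hi
  have hiP := (hg i).1 hi
  have hne : ∀ l, l ∉ P → l ≠ I0 := fun l hl e => hl (e ▸ h0)
  refine ⟨update x i (1 - ∑ l, x l), hK x hx i hiP, ?_⟩
  have hc : (0 : ℝ) < (Pᶜ.card : ℝ) + 1 := by positivity
  have hb : bs g (f x) j = ∑ l ∈ Pᶜ, x l +
      (Pᶜ.card : ℝ) * ((∑ l ∈ P, x l - 1) / ((Pᶜ.card : ℝ) + 1)) := by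
    change ∑ l with g l = j, f x l = _
    have e1 : (Finset.univ.filter fun l => g l = j) = Pᶜ := by
      ext l; simp only [Finset.mem_filter, Finset.mem_univ, true_and, hg, Finset.mem_compl]
    rw [e1, Finset.sum_congr rfl
      (g := fun l => x l + (∑ l ∈ P, x l - 1) / ((Pᶜ.card : ℝ) + 1)) fun l hl => by
        have hl' := Finset.mem_compl.1 hl
        rw [hf, if_neg (hne l hl'), (hw l hl').1, (hw l hl').2]
        ring,
      Finset.sum_add_distrib, Finset.sum_const, nsmul_eq_mul]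
  have hs : ∑ l ∈ P, update x i (1 - ∑ l, x l) l = ∑ l ∈ P, x l :=
    Finset.sum_congr rfl fun l hl => update_of_ne (fun e : l = i => hiP (e ▸ hl)) _ _
  ext l
  rw [hf, hs]
  by_cases hl : l = i
  · subst hl
    rw [update_self, update_self, if_neg (hne l hiP), hb, (hw l hiP).1, (hw l hiP).2,
      ← Finset.sum_add_sum_compl P x]
    field_simp
    ring
  · rw [update_of_ne hl, update_of_ne hl, hf]

theorem refl_of_perm (hn : 3 ≤ n) {K : Set (E n)} (hK : Body K) (I : Fin n)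
    (h : ∀ x ∈ K, ∀ σ : Equiv.Perm (Fin n), σ I = I → x ∘ σ ∈ K) :
    ∃ (g : Fin n → Fin 3) (A B : Set (Fin 3)) (f : E n ≃ᵃ[ℝ] E n),
      BlkR g A B ∧ Refl g A B (f '' K) := by
  classical
  set P : Finset (Fin n) := Finset.univ.erase I with hP
  have hc : 1 < P.card := by
    rw [hP, Finset.card_erase_of_mem (Finset.mem_univ _), Finset.card_univ, Fintype.card_fin]
    omega
  obtain ⟨I0, h0, I2, h2, h02⟩ := Finset.one_lt_card.1 hc
  have h0I : I0 ≠ I := (Finset.mem_erase.1 h0).1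
  have h2I : I2 ≠ I := (Finset.mem_erase.1 h2).1
  obtain ⟨f, hf⟩ := rconv_aff h0 (fun _ => -1 / (P.card : ℝ)) (fun _ => 0)
  let g : Fin n → Fin 3 := fun i => if i = I0 then 0 else if i = I then 1 else 2
  have hg : ∀ i, g i = 2 ↔ i ∈ P.erase I0 := fun i => by
    simp only [g, hP, Finset.mem_erase, Finset.mem_univ, and_true]
    split_ifs with h1 h3
    · simp [h1]
    · simp [h3]
    · simp [h1, h3]
  refine ⟨g, {2}, ∅, f, ⟨fun j => ?_, by simp, by simp, fun i i' e hA _ => ?_⟩,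
    wcs_body_image hK f, fun j hj => ?_, by simp⟩
  · fin_cases j
    · exact ⟨I0, by simp [g]⟩
    · exact ⟨I, by simp [g, h0I.symm]⟩
    · exact ⟨I2, by simp [g, h02.symm, h2I]⟩
  · simp only [g, mem_singleton_iff] at e hA
    split_ifs at e hA <;> simp_all
  · rw [mem_singleton_iff.1 hj]
    refine rconv_in h0 hf hg (fun _ _ => ⟨rfl, rfl⟩) fun x hx i hi => h x hx _ ?_
    exact Equiv.swap_apply_of_ne_of_ne (Finset.mem_erase.1 hi).1.symm h0I.symm

lemma rconv_face0 (hn : 3 ≤ n) {K : Set (E n)} (hK : Body K) (J : Set (Fin (n + 1)))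
    (hJ : 0 ∉ J)
    (h : ∀ x ∈ K, ∀ σ : Equiv.Perm (Fin (n + 1)), (∀ i, σ i ∈ J ↔ i ∈ J) →
      (fun i => (Fin.cons (1 - ∑ l, x l) x : Fin (n + 1) → ℝ) (σ i.succ)) ∈ K) :
    ∃ (g : Fin n → Fin 3) (A B : Set (Fin 3)) (f : E n ≃ᵃ[ℝ] E n),
      BlkR g A B ∧ Refl g A B (f '' K) := by
  classical
  set P : Finset (Fin n) := Finset.univ.filter fun i => i.succ ∈ J with hP
  have hmem : ∀ i, i ∈ P ↔ i.succ ∈ J := fun i => by simp [hP]
  have hperm : ∀ x ∈ K, ∀ σ : Equiv.Perm (Fin n), (∀ i, σ i ∈ P ↔ i ∈ P) → x ∘ σ ∈ K := by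
    intro x hx σ hσ
    have := h x hx (Equiv.Perm.decomposeFin.symm (0, σ)) fun i => by
      refine Fin.cases ?_ (fun i => ?_) i
      · rw [Equiv.Perm.decomposeFin_symm_apply_zero]
      · rw [Equiv.Perm.decomposeFin_symm_apply_succ, Equiv.swap_self, Equiv.refl_apply,
          ← hmem, ← hmem, hσ]
    convert this using 1
    ext i
    rw [Equiv.Perm.decomposeFin_symm_apply_succ, Equiv.swap_self, Equiv.refl_apply,
      Fin.cons_succ, comp_apply]
  by_cases h1 : P.card ≤ 1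
  · obtain ⟨I, hI⟩ : ∃ I : Fin n, P ⊆ {I} := by
      have : Nonempty (Fin n) := ⟨⟨0, by omega⟩⟩
      exact Finset.card_le_one_iff_subset_singleton.1 h1
    refine refl_of_perm hn hK I fun x hx σ hσ => hperm x hx σ fun i => ⟨fun hi => ?_, fun hi => ?_⟩
    · have e := Finset.mem_singleton.1 (hI hi)
      have e' : i = I := σ.injective (e.trans hσ.symm)
      rw [e', ← e]; exact hi
    · have e := Finset.mem_singleton.1 (hI hi)
      rw [e, hσ, ← e]; exact hi
  by_cases h2 : ∀ i, i ∈ P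
  · exact refl_of_perm hn hK ⟨0, by omega⟩ fun x hx σ _ => hperm x hx σ fun i => by simp [h2]
  obtain ⟨I2, h2⟩ := not_forall.1 h2
  obtain ⟨I0, h0, I1, h1', h01⟩ := Finset.one_lt_card.1 (not_le.1 h1)
  obtain ⟨f, hf⟩ := rconv_aff h0
    (fun i => if i ∈ P then -1 / (P.card : ℝ) else 1 / ((Pᶜ.card : ℝ) + 1))
    (fun i => if i ∈ P then 0 else -1 / ((Pᶜ.card : ℝ) + 1))
  let g : Fin n → Fin 3 := fun i => if i = I0 then 0 else if i ∈ P then 1 else 2
  have hg1 : ∀ i, g i = 1 ↔ i ∈ P.erase I0 := fun i => by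
    simp only [g, Finset.mem_erase]
    split_ifs with a b
    · simp [a]
    · simp [a, b]
    · simp [b]
  have hg2 : ∀ i, g i = 2 ↔ i ∉ P := fun i => by
    simp only [g]
    split_ifs with a b
    · simp [a, h0]
    · simp [b]
    · simp [b]
  refine ⟨g, {1, 2}, ∅, f, ⟨fun j => ?_, by simp, by simp, fun i i' e hA _ => ?_⟩,
    wcs_body_image hK f, fun j hj => ?_, by simp⟩
  · fin_cases j
    · exact ⟨I0, by simp [g]⟩
    · exact ⟨I1, (hg1 I1).2 (Finset.mem_erase.2 ⟨h01.symm, h1'⟩)⟩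
    · exact ⟨I2, (hg2 I2).2 h2⟩
  · simp only [g, mem_insert_iff, mem_singleton_iff] at e hA
    split_ifs at e hA <;> simp_all
  · rcases hj with rfl | hj
    · refine rconv_in h0 hf hg1 (fun i hi => by simp [(Finset.mem_erase.1 hi).2])
        fun x hx i hi => hperm x hx _ fun l => ?_
      rw [Equiv.swap_apply_def]
      split_ifs with a b
      · simp [a, hi, h0]
      · simp [b, hi, h0]
      · rfl
    · rw [mem_singleton_iff.1 hj]
      refine rconv_out h0 hf hg2 (fun i hi => by simp [hi]) fun x hx i hi => ?_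
      have hiJ : i.succ ∉ J := fun e => hi ((hmem i).2 e)
      have := h x hx (Equiv.swap 0 i.succ) fun l => by
        rw [Equiv.swap_apply_def]
        split_ifs with a b
        · simp [a, hiJ, hJ]
        · simp [b, hiJ, hJ]
        · rfl
      convert this using 1
      ext l
      by_cases hl : l = i
      · subst hl
        rw [update_self, Equiv.swap_apply_right, Fin.cons_zero]
      · rw [update_of_ne hl, Equiv.swap_apply_of_ne_of_ne (Fin.succ_ne_zero l)
          (fun e => hl (Fin.succ_injective _ e)), Fin.cons_succ]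

theorem refl_of_face (hn : 3 ≤ n) {K : Set (E n)} (hK : Body K) (J : Set (Fin (n + 1)))
    (h : ∀ x ∈ K, ∀ σ : Equiv.Perm (Fin (n + 1)), (∀ i, σ i ∈ J ↔ i ∈ J) →
      (fun i => (Fin.cons (1 - ∑ l, x l) x : Fin (n + 1) → ℝ) (σ i.succ)) ∈ K) :
    ∃ (g : Fin n → Fin 3) (A B : Set (Fin 3)) (f : E n ≃ᵃ[ℝ] E n),
      BlkR g A B ∧ Refl g A B (f '' K) := by
  by_cases hJ : 0 ∈ J
  · exact rconv_face0 hn hK Jᶜ (fun e => e hJ) fun x hx σ hσ =>
      h x hx σ fun i => not_iff_not.1 (hσ i)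
  · exact rconv_face0 hn hK J hJ h

end Pool.Agent.MP_5f4cdd_gt.W
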