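import Pool.Agent.MP_5f4cdd_gt.ROrth

set_option autoImplicit false
open MeasureTheory ENNReal Set Function Filter Topology Pointwise

namespace Pool.Agent.MP_5f4cdd_gt.W

open PL EF AB

variable {n k m : ℕ}

lemma rcorep_comb_combo (ω : Fin m → E m) (a b : ℝ) (x y : E m) :
    comb ω (a • x + b • y) = a • comb ω x + b • comb ω y := by
  simp only [comb, Finset.smul_sum, ← Finset.sum_add_distrib, Pi.add_apply, Pi.smul_apply,
    smul_eq_mul, add_smul, mul_smul]

lemma rcorep_comb_single (ω : Fin m → E m) (j : Fin m) (s : ℝ) :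
    comb ω (Pi.single j s) = s • ω j := by
  unfold comb
  rw [Finset.sum_eq_single j]
  · simp
  · intro i _ hi
    simp [hi]
  · simp

lemma rcorep_cont_comb (ω : Fin m → E m) : Continuous (comb ω) := by
  unfold comb
  fun_prop

lemma rcorep_meas_sec (e : Fin k ⊕ Fin m ≃ Fin n) {K : Set (E n)} (cK : IsClosed K) (v : E m) :
    MeasurableSet {u : E k | wpf_j e (u, v) ∈ K} :=
  (cK.preimage ((continuous_wpf_j e).comp (f := fun u : E k => (u, v))
    (by fun_prop))).measurableSet

lemma rcorep_meas (e : Fin k ⊕ Fin m ≃ Fin n) {K : Set (E n)} (cK : IsClosed K)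
    (ω : Fin m → E m) :
    Measurable fun r : E m => volume {u : E k | wpf_j e (u, comb ω r) ∈ K} := by
  have hc := rcorep_cont_comb ω
  have h : MeasurableSet {p : E m × E k | wpf_j e (p.2, comb ω p.1) ∈ K} :=
    (cK.preimage ((continuous_wpf_j e).comp
      (f := fun p : E m × E k => (p.2, comb ω p.1)) (by fun_prop))).measurableSet
  exact measurable_measure_prodMk_left h

lemma rcorep_lc (e : Fin k ⊕ Fin m ≃ Fin n) {K : Set (E n)} (hK : Convex ℝ K) (cK : IsClosed K)
    (v w : E m) {a b : ℝ} (ha : 0 < a) (hb : 0 < b) (hab : a + b = 1) :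
    volume {u : E k | wpf_j e (u, v) ∈ K} ^ a * volume {u : E k | wpf_j e (u, w) ∈ K} ^ b ≤
      volume {u : E k | wpf_j e (u, a • v + b • w) ∈ K} := by
  have m1 := rcorep_meas_sec e cK v
  have m2 := rcorep_meas_sec e cK w
  have m3 := rcorep_meas_sec e cK (a • v + b • w)
  rw [← lintegral_indicator_one m1, ← lintegral_indicator_one m2, ← lintegral_indicator_one m3]
  refine PL.pl ha hb hab k (measurable_one.indicator m1) (measurable_one.indicator m2)
    (measurable_one.indicator m3) fun x y => ?_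
  by_cases hx : x ∈ {u : E k | wpf_j e (u, v) ∈ K}
  · by_cases hy : y ∈ {u : E k | wpf_j e (u, w) ∈ K}
    · have hz : a • x + b • y ∈ {u : E k | wpf_j e (u, a • v + b • w) ∈ K} := by
        have := hK hx hy ha.le hb.le hab
        rw [← wpf_j_combo] at this
        exact this
      simp [indicator_of_mem hx, indicator_of_mem hy, indicator_of_mem hz]
    · simp [indicator_of_notMem hy, hb]
  · simp [indicator_of_notMem hx, ha]

lemma rcorep_pow (m : ℕ) {t : ℝ} (ht : 0 ≤ t) :
    ((m + 1 : ℕ) : ℝ≥0∞) * ∫⁻ s in Ioc (0 : ℝ) t, ENNReal.ofReal (s ^ m) =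
      ENNReal.ofReal (t ^ (m + 1)) := by
  have hi : IntegrableOn (fun s : ℝ => s ^ m) (Ioc 0 t) :=
    (continuous_pow m).integrableOn_Ioc
  rw [← ofReal_integral_eq_lintegral_ofReal hi, ← intervalIntegral.integral_of_le ht,
    integral_pow, ← ENNReal.ofReal_natCast, ← ENNReal.ofReal_mul (by positivity)]
  · congr 1
    push_cast
    field_simp
    simp
  · filter_upwards [ae_restrict_mem measurableSet_Ioc] with s hs
    exact pow_nonneg hs.1.le _

lemma rcorep_axis (e : Fin k ⊕ Fin (m + 1) ≃ Fin n) {K : Set (E n)} (hK : Body K)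
    {w : E (m + 1)} (hw : w ≠ 0) (h0 : ∀ u v, wpf_j e (u, v) ∈ K → wpf_j e (u, 0) ∈ K) :
    ∫⁻ u, (base e K).indicator (fun u => ENNReal.ofReal (rad e K w u ^ (m + 1))) u =
      ((m + 1 : ℕ) : ℝ≥0∞) * ∫⁻ s in Ioi (0 : ℝ),
        ENNReal.ofReal (s ^ m) * volume {u : E k | wpf_j e (u, s • w) ∈ K} := by
  have cK := hK.comp.isClosed
  have hT : MeasurableSet {p : ℝ × E k | wpf_j e (p.2, p.1 • w) ∈ K} :=
    (cK.preimage ((continuous_wpf_j e).comp
      (f := fun p : ℝ × E k => (p.2, p.1 • w)) (by fun_prop))).measurableSet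
  have hF : Measurable fun p : ℝ × E k =>
      {p : ℝ × E k | wpf_j e (p.2, p.1 • w) ∈ K}.indicator
        (fun p => ENNReal.ofReal (p.1 ^ m)) p :=
    Measurable.indicator (by fun_prop) hT
  have h1 : ∀ s : ℝ, ENNReal.ofReal (s ^ m) * volume {u : E k | wpf_j e (u, s • w) ∈ K} =
      ∫⁻ u : E k, {p : ℝ × E k | wpf_j e (p.2, p.1 • w) ∈ K}.indicator
        (fun p => ENNReal.ofReal (p.1 ^ m)) (s, u) := by
    intro s
    rw [← lintegral_indicator_const (rcorep_meas_sec e cK (s • w))]
    refine lintegral_congr fun u => ?_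
    by_cases h : wpf_j e (u, s • w) ∈ K <;> simp [indicator, h]
  simp_rw [h1]
  rw [lintegral_lintegral_swap hF.aemeasurable,
    ← lintegral_const_mul' _ _ (ENNReal.natCast_ne_top _)]
  refine lintegral_congr fun u => ?_
  by_cases hu : u ∈ base e K
  · obtain ⟨r0, r1, r2⟩ := rad_spec e hK.conv hK.comp hw hu
    rw [indicator_of_mem hu, ← rcorep_pow m r0, ← lintegral_indicator measurableSet_Ioc,
      ← lintegral_indicator measurableSet_Ioi]
    congr 1
    refine lintegral_congr fun s => ?_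
    by_cases hs : 0 < s
    · by_cases hs' : s ≤ rad e K w u
      · have := r2 s hs.le hs'
        simp [indicator, hs, hs', this]
      · have : wpf_j e (u, s • w) ∉ K := fun h => hs' (r1 s h)
        simp [indicator, hs, hs', this]
    · simp [indicator, hs]
  · have : ∀ s : ℝ, wpf_j e (u, s • w) ∉ K := fun s h => hu (h0 _ _ h)
    simp [indicator, hu, this]

theorem core_P (e : Fin k ⊕ Fin (m + 1) ≃ Fin n) {K : Set (E n)} (hK : Body K)
    (ω : Fin (m + 1) → E (m + 1)) (hω : ∀ j, ω j ≠ 0)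
    (h0 : ∀ u v, wpf_j e (u, v) ∈ K → wpf_j e (u, 0) ∈ K) {S : Set (E (m + 1))}
    (cS : IsCompact S) (hW : ∀ j, IsCompact (Wg e K (ω j) S)) :
    ∏ j, volume (Wg e K (ω j) S) ≤ (((m + 1).factorial : ℝ≥0∞) *
      (∫⁻ r in orth (m + 1), volume {u | wpf_j e (u, comb ω r) ∈ K}) * volume S) ^ (m + 1) := by
  have cK := hK.comp.isClosed
  have hb := ball_orth (g := fun r => volume {u : E k | wpf_j e (u, comb ω r) ∈ K})
    (rcorep_meas e cK ω) fun x y _ _ a b ha hb hab => by
      simp only [rcorep_comb_combo]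
      exact rcorep_lc e hK.conv cK _ _ ha hb hab
  simp only [rcorep_comb_single] at hb
  have hv : ∀ j, volume (Wg e K (ω j) S) = ((m + 1 : ℕ) : ℝ≥0∞) * volume S *
      ∫⁻ s in Ioi (0 : ℝ),
        ENNReal.ofReal (s ^ m) * volume {u : E k | wpf_j e (u, s • ω j) ∈ K} := by
    intro j
    have := wpf_vol e (B := base e K) (τ := rad e K (ω j))
      (fun u hu => (rad_spec e hK.conv hK.comp (hω j) hu).1) cS (hW j)
    rw [rcorep_axis e hK (hω j) h0] at this
    rw [Wg, this]
    ring
  simp only [hv]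
  rw [Finset.prod_mul_distrib, Finset.prod_const, Finset.card_univ, Fintype.card_fin]
  refine (mul_le_mul_right hb _).trans (le_of_eq ?_)
  rw [← mul_pow, Nat.factorial_succ]
  congr 1
  push_cast
  ring

end Pool.Agent.MP_5f4cdd_gt.W
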