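import Pool.Agent.MP_5f4cdd_gt.WBase

set_option autoImplicit false
open MeasureTheory ENNReal Set Function Filter Topology Pointwise

namespace Pool.Agent.MP_5f4cdd_gt.W

open PL EF AB

variable {m : ℕ}

lemma wlaw_level {S : Set (E (m + 1))} (c : IsCompact S) (z : 0 ∈ interior S) (r : ℝ) :
    volume {y | suppF S y ≤ r} = ENNReal.ofReal (max r 0 ^ (m + 1)) * volume (polarS S) := by
  have hn : S.Nonempty := ⟨0, interior_subset z⟩
  rcases lt_or_ge 0 r with hr | hr
  · rw [level_eq_smul c.isBounded hn hr, Measure.addHaar_smul_of_nonneg _ hr.le,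
      max_eq_left hr.le]
    simp
  · rw [max_eq_right hr, zero_pow (Nat.succ_ne_zero m), ENNReal.ofReal_zero, zero_mul]
    refine measure_mono_null (t := {0}) (fun y hy => ?_) (measure_singleton _)
    obtain ⟨C, hC⟩ := (isBounded_polarS z).exists_norm_le
    by_contra h0
    have hy0 : 0 < ‖y‖ := norm_pos_iff.2 h0
    have ht : 0 ≤ (|C| + 1) / ‖y‖ := by positivity
    have hm : ((|C| + 1) / ‖y‖) • y ∈ polarS S := by
      intro x hx
      rw [dotProduct_smul, smul_eq_mul]
      have h1 : x ⬝ᵥ y ≤ 0 := ((dot_le_suppF c.isBounded hx y).trans hy).trans hr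
      exact (mul_nonpos_of_nonneg_of_nonpos ht h1).trans zero_le_one
    have h2 := hC _ hm
    rw [norm_smul, Real.norm_of_nonneg ht, div_mul_cancel₀ _ hy0.ne'] at h2
    linarith [le_abs_self C]

lemma wlaw_Iic {S T : Set (E (m + 1))} (c : IsCompact S) (z : 0 ∈ interior S) (r : ℝ) :
    (volume (polarS T) • (volume : Measure (E (m + 1))).map (suppF S)) (Iic r) =
      ENNReal.ofReal (max r 0 ^ (m + 1)) * (volume (polarS S) * volume (polarS T)) := by
  rw [Measure.smul_apply, Measure.map_apply (continuous_suppF c.isBounded).measurable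
    measurableSet_Iic, smul_eq_mul]
  have : suppF S ⁻¹' Iic r = {y | suppF S y ≤ r} := rfl
  rw [this, wlaw_level c z]
  ring

theorem gauge_law {S₁ S₂ : Set (E (m + 1))} (c₁ : IsCompact S₁) (c₂ : IsCompact S₂)
    (z₁ : 0 ∈ interior S₁) (z₂ : 0 ∈ interior S₂) {G : ℝ → ℝ≥0∞} (hG : Measurable G) :
    (∫⁻ ζ, G (suppF S₁ ζ)) * volume (polarS S₂) = (∫⁻ ζ, G (suppF S₂ ζ)) * volume (polarS S₁) := by
  have f₁ : volume (polarS S₁) ≠ ⊤ := (isBounded_polarS z₁).measure_lt_top.ne
  have f₂ : volume (polarS S₂) ≠ ⊤ := (isBounded_polarS z₂).measure_lt_top.ne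
  have fin : ∀ r : ℝ, (volume (polarS S₂) • (volume : Measure (E (m + 1))).map (suppF S₁))
      (Iic r) ≠ ⊤ := fun r => by
    rw [wlaw_Iic c₁ z₁]
    exact ENNReal.mul_ne_top ENNReal.ofReal_ne_top (ENNReal.mul_ne_top f₁ f₂)
  have eq : ∀ r : ℝ, (volume (polarS S₂) • (volume : Measure (E (m + 1))).map (suppF S₁))
      (Iic r) = (volume (polarS S₁) • (volume : Measure (E (m + 1))).map (suppF S₂))
      (Iic r) := fun r => by
    rw [wlaw_Iic c₁ z₁, wlaw_Iic c₂ z₂, mul_comm (volume (polarS S₁))]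
  have key : volume (polarS S₂) • (volume : Measure (E (m + 1))).map (suppF S₁) =
      volume (polarS S₁) • (volume : Measure (E (m + 1))).map (suppF S₂) := by
    refine Measure.ext_of_Ioc' _ _ (fun a b _ => ?_) (fun a b hab => ?_)
    · exact ne_top_of_le_ne_top (fin b) (measure_mono Ioc_subset_Iic_self)
    · rw [← Iic_sdiff_Iic, measure_diff (Iic_subset_Iic.2 hab.le)
        measurableSet_Iic.nullMeasurableSet (fin a), measure_diff (Iic_subset_Iic.2 hab.le)
        measurableSet_Iic.nullMeasurableSet (eq a ▸ fin a), eq a, eq b]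
  rw [← lintegral_map hG (continuous_suppF c₁.isBounded).measurable,
    ← lintegral_map hG (continuous_suppF c₂.isBounded).measurable, mul_comm, mul_comm _ (volume _),
    ← smul_eq_mul, ← smul_eq_mul, ← lintegral_smul_measure, ← lintegral_smul_measure, key]

end Pool.Agent.MP_5f4cdd_gt.W
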