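import Pool.Agent.MP_5f4cdd_gt.RDef
import Pool.Agent.MP_5f4cdd_gt.WLaw

set_option autoImplicit false
open MeasureTheory ENNReal Set Function Filter Topology Pointwise

namespace Pool.Agent.MP_5f4cdd_gt.W

open PL EF AB

variable {n k m : ℕ}

lemma rrad_pow (m : ℕ) (r : ℝ) :
    ((m + 1 : ℕ) : ℝ≥0∞) * ((volume.restrict (Ioi (0 : ℝ))).withDensity
      fun t => ENNReal.ofReal (t ^ m)) (Iic r) = ENNReal.ofReal (max r 0 ^ (m + 1)) := by
  rw [withDensity_apply _ measurableSet_Iic, Measure.restrict_restrict measurableSet_Iic,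
    Iic_inter_Ioi]
  rcases lt_or_ge 0 r with hr | hr
  · have hi : IntegrableOn (fun t : ℝ => t ^ m) (Ioc 0 r) :=
      (continuous_pow m).integrableOn_Ioc
    rw [← ofReal_integral_eq_lintegral_ofReal hi
      ((ae_restrict_iff' measurableSet_Ioc).2 (ae_of_all _ fun t ht => pow_nonneg ht.1.le m)),
      ← intervalIntegral.integral_of_le hr.le, integral_pow, max_eq_left hr.le,
      ← ENNReal.ofReal_natCast, ← ENNReal.ofReal_mul (Nat.cast_nonneg _)]
    congr 1
    push_cast
    field_simp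
    simp
  · rw [Ioc_eq_empty (not_lt.2 hr), max_eq_right hr]
    simp

theorem radial_law {S : Set (E (m + 1))} (c : IsCompact S) (z : 0 ∈ interior S)
    {G : ℝ → ℝ≥0∞} (hG : Measurable G) :
    ∫⁻ ζ, G (suppF S ζ) = ((m + 1 : ℕ) : ℝ≥0∞) * volume (polarS S) *
      ∫⁻ t in Ioi (0 : ℝ), ENNReal.ofReal (t ^ m) * G t := by
  have f₁ : volume (polarS S) ≠ ⊤ := (isBounded_polarS z).measure_lt_top.ne
  have hm := (continuous_suppF c.isBounded).measurable
  have h1 : ∀ r : ℝ, ((volume : Measure (E (m + 1))).map (suppF S)) (Iic r) =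
      ENNReal.ofReal (max r 0 ^ (m + 1)) * volume (polarS S) := fun r => by
    rw [Measure.map_apply hm measurableSet_Iic]
    exact wlaw_level c z r
  have hfin : ∀ r : ℝ, ((volume : Measure (E (m + 1))).map (suppF S)) (Iic r) ≠ ⊤ := fun r => by
    rw [h1]
    exact ENNReal.mul_ne_top ENNReal.ofReal_ne_top f₁
  have eq : ∀ r : ℝ, ((volume : Measure (E (m + 1))).map (suppF S)) (Iic r) =
      ((((m + 1 : ℕ) : ℝ≥0∞) * volume (polarS S)) • (volume.restrict (Ioi (0 : ℝ))).withDensity
        fun t => ENNReal.ofReal (t ^ m)) (Iic r) := fun r => by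
    rw [h1, Measure.smul_apply, smul_eq_mul, ← rrad_pow, mul_right_comm]
  have key : (volume : Measure (E (m + 1))).map (suppF S) =
      (((m + 1 : ℕ) : ℝ≥0∞) * volume (polarS S)) • (volume.restrict (Ioi (0 : ℝ))).withDensity
        fun t => ENNReal.ofReal (t ^ m) := by
    refine Measure.ext_of_Ioc' _ _ (fun a b _ => ?_) (fun a b hab => ?_)
    · exact ne_top_of_le_ne_top (hfin b) (measure_mono Ioc_subset_Iic_self)
    · rw [← Iic_sdiff_Iic, measure_sdiff (Iic_subset_Iic.2 hab.le)
        measurableSet_Iic.nullMeasurableSet (hfin a), measure_sdiff (Iic_subset_Iic.2 hab.le)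
        measurableSet_Iic.nullMeasurableSet (eq a ▸ hfin a), eq a, eq b]
  rw [← lintegral_map hG hm, key, lintegral_smul_measure, smul_eq_mul,
    lintegral_withDensity_eq_lintegral_mul _ (by fun_prop) hG]
  rfl

end Pool.Agent.MP_5f4cdd_gt.W
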