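import Pool.Agent.MP_5f4cdd_gt.ROrth
import Pool.Agent.MP_5f4cdd_gt.RRad

set_option autoImplicit false
open MeasureTheory ENNReal Set Function Filter Topology Pointwise

namespace Pool.Agent.MP_5f4cdd_gt.W

open PL EF AB

variable {n k m : ℕ}

lemma rcoreq_logc {L : Set (E n)} (hL : Bornology.IsBounded L) (hn : L.Nonempty) (p q : E n)
    {a b : ℝ} (ha : 0 < a) (hb : 0 < b) (hab : a + b = 1) :
    expS L p ^ a * expS L q ^ b ≤ expS L (a • p + b • q) := by
  have h := (convexOn_suppF hL hn).2 (mem_univ p) (mem_univ q) ha.le hb.le hab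
  simp only [smul_eq_mul] at h
  simp only [expS]
  rw [ENNReal.ofReal_rpow_of_pos (Real.exp_pos _), ENNReal.ofReal_rpow_of_pos (Real.exp_pos _),
    ← ENNReal.ofReal_mul (by positivity), ← Real.exp_mul, ← Real.exp_mul, ← Real.exp_add]
  exact ENNReal.ofReal_le_ofReal (Real.exp_le_exp.2 (by linarith))

lemma rcoreq_comb_lin (ω : Fin m → E m) (x y : E m) (a b : ℝ) :
    comb ω (a • x + b • y) = a • comb ω x + b • comb ω y := by
  simp only [comb, Pi.add_apply, Pi.smul_apply, smul_eq_mul, add_smul, mul_smul,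
    Finset.sum_add_distrib, Finset.smul_sum]

lemma rcoreq_comb_single (ω : Fin m → E m) (j : Fin m) (s : ℝ) :
    comb ω (Pi.single j s) = s • ω j := by
  unfold comb
  rw [Finset.sum_eq_single j]
  · simp
  · intro i _ hi
    simp [hi]
  · simp

lemma rcoreq_cont (ω : Fin m → E m) : Continuous (comb ω) := by
  unfold comb
  fun_prop

lemma rcoreq_subst {c : ℝ} (hc : 0 < c) (Ψ : ℝ → ℝ≥0∞) :
    ∫⁻ t in Ioi (0 : ℝ), ENNReal.ofReal (t ^ m) * Ψ (t / c) =
      ENNReal.ofReal c ^ (m + 1) * ∫⁻ s in Ioi (0 : ℝ), ENNReal.ofReal (s ^ m) * Ψ s := by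
  have him : (fun s : ℝ => c * s) '' Ioi 0 = Ioi 0 := by
    ext t
    constructor
    · rintro ⟨s, hs, rfl⟩
      exact mul_pos hc hs
    · intro ht
      exact ⟨t / c, div_pos ht hc, mul_div_cancel₀ _ hc.ne'⟩
  have h := lintegral_image_eq_lintegral_abs_deriv_mul (s := Ioi (0 : ℝ))
    (f := fun s : ℝ => c * s) (f' := fun _ => c) measurableSet_Ioi
    (fun x _ => by simpa using ((hasDerivAt_id x).const_mul c).hasDerivWithinAt)
    (fun x _ y _ h => mul_left_cancel₀ hc.ne' h)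
    (fun t => ENNReal.ofReal (t ^ m) * Ψ (t / c))
  rw [him] at h
  rw [h, ← lintegral_const_mul' _ _ (ENNReal.pow_ne_top ENNReal.ofReal_ne_top)]
  refine lintegral_congr fun s => ?_
  rw [abs_of_pos hc, mul_div_cancel_left₀ _ hc.ne', mul_pow,
    ENNReal.ofReal_mul (by positivity), ENNReal.ofReal_pow hc.le]
  ring

lemma rcoreq_supp (e : Fin k ⊕ Fin m ≃ Fin n) {K : Set (E n)} (hK : Body K)
    {w w' : E m} {c : ℝ} (hc : 0 < c) (hdot : w ⬝ᵥ w' = c)
    (h0 : ∀ u v, wpf_j e (u, v) ∈ K → wpf_j e (u, 0) ∈ K)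
    (hproj : ∀ u v, wpf_j e (u, v) ∈ K → wpf_j e (u, ((v ⬝ᵥ w') / c) • w) ∈ K)
    (hB : (base e K).Nonempty) (a ξ : E k) {t : ℝ} (ht : 0 ≤ t) :
    sSup ((fun u => (u - a) ⬝ᵥ ξ + rad e K w u * t) '' base e K) =
      suppF (shift e a K) (wpf_j e (ξ, (t / c) • w')) := by
  have hw : w ≠ 0 := by
    rintro rfl
    rw [zero_dotProduct] at hdot
    exact hc.ne hdot
  have hb : Bornology.IsBounded (shift e a K) := isBounded_image_sub hK.comp.isBounded _
  refine IsLUB.csSup_eq ⟨?_, fun C hC => ?_⟩ (hB.image _)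
  · rintro _ ⟨u, hu, rfl⟩
    obtain ⟨r0, -, r2⟩ := rad_spec e hK.conv hK.comp hw hu
    have h := dot_le_suppF hb ⟨_, r2 _ r0 le_rfl, rfl⟩ (wpf_j e (ξ, (t / c) • w'))
    simp only [wpf_dot, smul_dotProduct, dotProduct_smul, smul_eq_mul, hdot] at h
    refine le_trans (le_of_eq ?_) h
    field_simp
  · obtain ⟨u, hu⟩ := hB
    have hn : (shift e a K).Nonempty := Nonempty.image _ ⟨wpf_j e (u, 0), hu⟩
    refine suppF_le hn ?_
    rintro _ ⟨x, hx, rfl⟩
    obtain ⟨⟨v, z⟩, rfl⟩ := wpf_surj e x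
    have hv : v ∈ base e K := h0 v z hx
    refine le_trans ?_ (hC ⟨v, hv, rfl⟩)
    have h1 := (rad_spec e hK.conv hK.comp hw hv).2.1 _ (hproj v z hx)
    have h2 := mul_le_mul_of_nonneg_right h1 ht
    simp only [wpf_dot, dotProduct_smul, smul_eq_mul]
    have : t / c * (z ⬝ᵥ w') = z ⬝ᵥ w' / c * t := by ring
    linarith

theorem core_Q (e : Fin k ⊕ Fin (m + 1) ≃ Fin n) {K : Set (E n)} (hK : Body K)
    (ω ω' : Fin (m + 1) → E (m + 1)) (c : Fin (m + 1) → ℝ) (hc : ∀ j, 0 < c j)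
    (hdot : ∀ j, ω j ⬝ᵥ ω' j = c j)
    (h0 : ∀ u v, wpf_j e (u, v) ∈ K → wpf_j e (u, 0) ∈ K)
    (hproj : ∀ j u v, wpf_j e (u, v) ∈ K → wpf_j e (u, ((v ⬝ᵥ ω' j) / c j) • ω j) ∈ K)
    {S : Set (E (m + 1))} (cS : IsCompact S) (zS : 0 ∈ interior S)
    (hW : ∀ j, IsCompact (Wg e K (ω j) S)) (a : E k) :
    ∏ j, ∫⁻ y, expS (shift e a (Wg e K (ω j) S)) y ≤ (((m + 1).factorial : ℝ≥0∞) *
      (∫⁻ r in orth (m + 1), ∫⁻ ξ, expS (shift e a K) (wpf_j e (ξ, comb ω' r))) *
        volume (polarS S) * ENNReal.ofReal (∏ j, c j)) ^ (m + 1) := by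
  obtain ⟨x0, hx0⟩ := hK.int
  have hx0' : x0 ∈ K := interior_subset hx0
  have hb : Bornology.IsBounded (shift e a K) := isBounded_image_sub hK.comp.isBounded _
  have hn : (shift e a K).Nonempty := ⟨_, x0, hx0', rfl⟩
  have hB : (base e K).Nonempty := by
    obtain ⟨⟨u, v⟩, rfl⟩ := wpf_surj e x0
    exact ⟨u, h0 u v hx0'⟩
  have mF : Measurable fun p : E k × E (m + 1) => expS (shift e a K) (wpf_j e p) :=
    (measurable_expS hb).comp (continuous_wpf_j e).measurable
  set G : E (m + 1) → ℝ≥0∞ := fun r => ∫⁻ ξ, expS (shift e a K) (wpf_j e (ξ, comb ω' r)) with hG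
  have mG : Measurable G := by
    refine Measurable.lintegral_prod_right'
      (f := fun p : E (m + 1) × E k => expS (shift e a K) (wpf_j e (p.2, comb ω' p.1))) ?_
    exact mF.comp (measurable_snd.prodMk ((rcoreq_cont ω').measurable.comp measurable_fst))
  have mS : ∀ v : E (m + 1), Measurable fun ξ : E k => expS (shift e a K) (wpf_j e (ξ, v)) :=
    fun v => mF.comp (measurable_id.prodMk measurable_const)
  have key := ball_orth mG (fun x y _ _ α β hα hβ hαβ => by
    refine pl hα hβ hαβ k (mS _) (mS _) (mS _) fun ξ η => ?_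
    refine (rcoreq_logc hb hn _ _ hα hβ hαβ).trans (le_of_eq ?_)
    rw [← wpf_j_combo, rcoreq_comb_lin]
    rfl)
  have y0 : (0 : E (m + 1)) ∈ S := interior_subset zS
  have hQ : ∀ j, ∫⁻ y, expS (shift e a (Wg e K (ω j) S)) y =
      ((m + 1 : ℕ) : ℝ≥0∞) * volume (polarS S) * (ENNReal.ofReal (c j) ^ (m + 1) *
        ∫⁻ s in Ioi (0 : ℝ), ENNReal.ofReal (s ^ m) * G (Pi.single j s)) := by
    intro j
    have hw : ω j ≠ 0 := by
      intro h
      have := hdot j
      rw [h, zero_dotProduct] at this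
      exact (hc j).ne this
    have h1 := wpf_int e (B := base e K) (τ := rad e K (ω j)) (S := S)
      (fun u hu => (rad_spec e hK.conv hK.comp hw hu).1) hB cS ⟨0, y0⟩ (hW j) a
    have hs : ∀ ζ, 0 ≤ suppF S ζ := fun ζ => by simpa using dot_le_suppF cS.isBounded y0 ζ
    have mP : Measurable fun t : ℝ => G (Pi.single j (t / c j)) := by
      refine mG.comp (Continuous.measurable ?_)
      exact (continuous_single j).comp (continuous_id.div_const _)
    have h2 : ∫⁻ ξ, ∫⁻ ζ, ENNReal.ofReal (Real.exp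
        (-sSup ((fun u => (u - a) ⬝ᵥ ξ + rad e K (ω j) u * suppF S ζ) '' base e K))) =
        ∫⁻ ζ, G (Pi.single j (suppF S ζ / c j)) := by
      simp only [rcoreq_supp e hK (hc j) (hdot j) h0 (hproj j) hB a _ (hs _), hG,
        rcoreq_comb_single]
      refine lintegral_lintegral_swap (Measurable.aemeasurable ?_)
      exact mF.comp (measurable_fst.prodMk
        ((((continuous_suppF cS.isBounded).div_const _).smul continuous_const).measurable.comp
          measurable_snd))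
    refine h1.trans (h2.trans ?_)
    rw [radial_law cS zS mP, rcoreq_subst (hc j) fun s => G (Pi.single j s)]
  simp only [hQ]
  rw [Finset.prod_mul_distrib, Finset.prod_mul_distrib, Finset.prod_mul_distrib, Finset.prod_const,
    Finset.prod_const, Finset.prod_pow, ← ENNReal.ofReal_prod_of_nonneg fun j _ => (hc j).le,
    Finset.card_univ, Fintype.card_fin]
  refine le_trans (mul_le_mul_right (mul_le_mul_right key _) _) (le_of_eq ?_)
  rw [Nat.factorial_succ, Nat.cast_mul]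
  simp only [mul_pow]
  ring

end Pool.Agent.MP_5f4cdd_gt.W
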