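import Pool.Agent.MP_5f4cdd_gt.WBase

set_option autoImplicit false
open MeasureTheory ENNReal Set Function Filter Topology Pointwise

namespace Pool.Agent.MP_5f4cdd_gt.W

open PL EF AB

variable {n k m : ℕ} {g : Fin n → Fin 3}

/-- invariance under the rotations of the block `j` -/
def RotInv (g : Fin n → Fin 3) (j : Fin 3) (K : Set (E n)) : Prop :=
  ∀ x ∈ K, ∀ y : E n, (∀ i, g i ≠ j → y i = x i) →
    ∑ i with g i = j, y i ^ 2 = ∑ i with g i = j, x i ^ 2 → y ∈ K

/-- in the block `j` only the sum of the nonnegative coordinates matters -/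
def SumInv (g : Fin n → Fin 3) (j : Fin 3) (K : Set (E n)) : Prop :=
  ∀ x ∈ K, (∀ i, g i = j → 0 ≤ x i) ∧ ∀ y : E n, (∀ i, g i ≠ j → y i = x i) →
    (∀ i, g i = j → 0 ≤ y i) → bs g y j = bs g x j → y ∈ K

/-- collect the block `j` in the coordinate `i₀` -/
noncomputable def col (g : Fin n → Fin 3) (j : Fin 3) (i₀ : Fin n) : E n →ₗ[ℝ] E n where
  toFun x := fun i => if g i = j then (if i = i₀ then bs g x j else 0) else x i
  map_add' u v := by ext i; simp only [map_add, Pi.add_apply]; split_ifs <;> simp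
  map_smul' c u := by
    ext i; simp only [map_smul, Pi.smul_apply, RingHom.id_apply]; split_ifs <;> simp

lemma col_apply (j : Fin 3) (i₀ : Fin n) (x : E n) (i : Fin n) :
    col g j i₀ x i = if g i = j then (if i = i₀ then bs g x j else 0) else x i := rfl

/-- the body with simplex fibres attached to a rotation invariant body -/
def flat (g : Fin n → Fin 3) (j : Fin 3) (i₀ : Fin n) (K : Set (E n)) : Set (E n) :=
  {x | (∀ i, g i = j → 0 ≤ x i) ∧ col g j i₀ x ∈ K}

lemma bs_congr {x y : E n} {j : Fin 3} (h : ∀ i, g i = j → y i = x i) : bs g y j = bs g x j := by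
  rw [bs_apply, bs_apply]
  exact Finset.sum_congr rfl fun i hi => h i (Finset.mem_filter.1 hi).2

lemma wgen_of_sumInv (hg : Blk g) {K : Set (E n)} (hK : Body K) (h : ∀ j, SumInv g j K) :
    WGen K := by
  refine WGen.wedge K g (bs g '' K) hK.conv hK.comp hK.int hg.surj hg.one ?_
  ext x
  refine ⟨fun hx => ⟨fun i => (h (g i) x hx).1 i rfl, x, hx, rfl⟩, ?_⟩
  rintro ⟨h0, z, hz, hzx⟩
  have hb : ∀ j, bs g z j = bs g x j := fun j => congrFun hzx j
  have key : ∀ s : Finset (Fin 3), (fun i => if g i ∈ s then x i else z i) ∈ K := by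
    intro s
    induction s using Finset.induction_on with
    | empty => simpa using hz
    | insert j s hj ih =>
      refine (h j _ ih).2 _ (fun i hi => by simp [hi]) (fun i hi => by simpa [hi] using h0 i) ?_
      exact (bs_congr (x := x) fun i hi => by simp [hi]).trans ((hb j).symm.trans
        (bs_congr (x := z) fun i hi => by simp [hi, hj]).symm)
  simpa using key Finset.univ

lemma sumInv_flat (j : Fin 3) (i₀ : Fin n) (K : Set (E n)) : SumInv g j (flat g j i₀ K) := by
  refine fun x hx => ⟨hx.1, fun y h1 h2 h3 => ⟨h2, ?_⟩⟩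
  have : col g j i₀ y = col g j i₀ x := by
    ext i
    rw [col_apply, col_apply, h3]
    split_ifs with h h'
    · rfl
    · rfl
    · exact h1 i h
  rw [this]; exact hx.2

lemma SumInv.flat {j j' : Fin 3} (hj : j' ≠ j) (i₀ : Fin n) {K : Set (E n)} (h : SumInv g j' K) :
    SumInv g j' (flat g j i₀ K) := by
  have hne : ∀ i, g i = j' → g i ≠ j := fun i hi => hi ▸ hj
  have hne' : ∀ i, g i = j → g i ≠ j' := fun i hi => hi ▸ hj.symm
  refine fun x hx => ⟨fun i hi => ?_, fun y h1 h2 h3 => ⟨fun i hi => ?_, ?_⟩⟩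
  · have := (h _ hx.2).1 i hi
    rwa [col_apply, if_neg (hne i hi)] at this
  · rw [h1 i (hne' i hi)]; exact hx.1 i hi
  · refine (h _ hx.2).2 _ (fun i hi => ?_) (fun i hi => ?_) ?_
    · rw [col_apply, col_apply, bs_congr fun i hi => h1 i (hne' i hi), h1 i hi]
    · rw [col_apply, if_neg (hne i hi)]; exact h2 i hi
    · exact (bs_congr (x := y) fun i hi => by rw [col_apply, if_neg (hne i hi)]).trans (h3.trans
        (bs_congr (x := x) fun i hi => by rw [col_apply, if_neg (hne i hi)]).symm)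

lemma RotInv.flat {j j' : Fin 3} (hj : j' ≠ j) (i₀ : Fin n) {K : Set (E n)} (h : RotInv g j' K) :
    RotInv g j' (flat g j i₀ K) := by
  have hne : ∀ i, g i = j' → g i ≠ j := fun i hi => hi ▸ hj
  have hne' : ∀ i, g i = j → g i ≠ j' := fun i hi => hi ▸ hj.symm
  refine fun x hx y h1 h2 => ⟨fun i hi => ?_, h _ hx.2 _ (fun i hi => ?_) ?_⟩
  · rw [h1 i (hne' i hi)]; exact hx.1 i hi
  · rw [col_apply, col_apply, bs_congr fun i hi => h1 i (hne' i hi), h1 i hi]
  · rw [Finset.sum_congr rfl (g := fun i => y i ^ 2) fun i hi => by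
      rw [col_apply, if_neg (hne i (Finset.mem_filter.1 hi).2)], h2]
    exact Finset.sum_congr rfl fun i hi => by
      rw [col_apply, if_neg (hne i (Finset.mem_filter.1 hi).2)]

lemma body_flat {j : Fin 3} {i₀ : Fin n} (h0 : g i₀ = j) {K : Set (E n)} (hK : Body K)
    (h : RotInv g j K) : Body (flat g j i₀ K) := by
  have hc := (col g j i₀).continuous_of_finiteDimensional
  refine ⟨?_, ?_, ?_⟩
  · intro x hx y hy a b ha hb hab
    refine ⟨fun i hi => add_nonneg (mul_nonneg ha (hx.1 i hi)) (mul_nonneg hb (hy.1 i hi)), ?_⟩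
    rw [map_add, map_smul, map_smul]
    exact hK.conv hx.2 hy.2 ha hb hab
  · obtain ⟨R, hR0, hR⟩ := hK.comp.isBounded.subset_closedBall_lt 0 0
    refine Metric.isCompact_of_isClosed_isBounded ?_
      ((Metric.isBounded_closedBall (x := (0 : E n)) (r := R)).subset fun x hx => ?_)
    · refine IsClosed.inter (s₁ := {x : E n | ∀ i, g i = j → 0 ≤ x i}) ?_
        (hK.comp.isClosed.preimage hc)
      simp only [ofPred_forall]
      exact isClosed_iInter fun i => isClosed_iInter fun _ =>
        isClosed_le continuous_const (continuous_apply i)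
    · have hb := hR hx.2
      rw [mem_closedBall_zero_iff, pi_norm_le_iff_of_nonneg hR0.le] at hb ⊢
      intro i
      by_cases hi : g i = j
      · have h1 := hb i₀
        rw [col_apply, if_pos h0, if_pos rfl] at h1
        have h2 : x i ≤ bs g x j := by
          rw [bs_apply]
          exact Finset.single_le_sum (f := x)
            (fun i hi => hx.1 i (Finset.mem_filter.1 hi).2) (by simpa using hi)
        rw [Real.norm_eq_abs, abs_of_nonneg (hx.1 i hi)]
        exact h2.trans ((le_abs_self _).trans h1)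
      · have h1 := hb i
        rwa [col_apply, if_neg hi] at h1
  · obtain ⟨x, hx⟩ := hK.int
    have h1 : (fun i => if g i = j then -x i else x i) ∈ K :=
      h x (interior_subset hx) _ (fun i hi => if_neg hi) (Finset.sum_congr rfl fun i hi => by
        simp [(Finset.mem_filter.1 hi).2])
    have h2 := hK.conv.combo_interior_self_mem_interior hx h1 (a := 1 / 2) (b := 1 / 2)
      (by norm_num) (by norm_num) (by norm_num)
    set z : E n := fun i => if g i = j then 0 else x i with hz
    have h3 : col g j i₀ z = (1 / 2 : ℝ) • x + (1 / 2 : ℝ) •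
        (fun i => if g i = j then -x i else x i : E n) := by
      ext i
      have : bs g z j = 0 := by
        rw [bs_apply]
        exact Finset.sum_eq_zero fun i hi => if_pos (Finset.mem_filter.1 hi).2
      rw [col_apply, this]
      simp only [ite_self, Pi.add_apply, Pi.smul_apply, smul_eq_mul, hz]
      split_ifs <;> ring
    rw [← h3] at h2
    have h4 : ContinuousAt (fun s : ℝ => col g j i₀ (z + fun _ => s)) 0 :=
      (hc.comp (by fun_prop)).continuousAt
    have h5 : ∀ᶠ s in 𝓝 (0 : ℝ), col g j i₀ (z + fun _ => s) ∈ interior K :=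
      h4.preimage_mem_nhds (t := interior K) (isOpen_interior.mem_nhds (by
        rw [show (z + fun _ => (0 : ℝ)) = z from by ext; simp]; exact h2))
    obtain ⟨s, hs1, hs2⟩ := ((h5.filter_mono nhdsWithin_le_nhds).and
      (self_mem_nhdsWithin (a := (0 : ℝ)) (s := Ioi 0))).exists
    have ho : IsOpen ({x : E n | ∀ i, g i = j → 0 < x i} ∩ col g j i₀ ⁻¹' interior K) := by
      refine IsOpen.inter ?_ (isOpen_interior.preimage hc)
      simp only [ofPred_forall]
      exact isOpen_iInter_of_finite fun i => isOpen_iInter_of_finite fun _ =>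
        isOpen_lt continuous_const (continuous_apply i)
    have hsub : ({x : E n | ∀ i, g i = j → 0 < x i} ∩ col g j i₀ ⁻¹' interior K) ⊆
        flat g j i₀ K := fun y hy => ⟨fun i hi => (hy.1 i hi).le, interior_subset hy.2⟩
    refine ⟨z + fun _ => s, interior_maximal hsub ho ⟨fun i hi => ?_, hs1⟩⟩
    simpa [hz, hi] using hs2

lemma mem_smul_stdS {t : ℝ} (ht : 0 ≤ t) {v : E m} :
    v ∈ t • stdS m ↔ (∀ i, 0 ≤ v i) ∧ ∑ i, v i ≤ t := by
  constructor
  · rintro ⟨w, ⟨h1, h2⟩, rfl⟩
    refine ⟨fun i => mul_nonneg ht (h1 i), ?_⟩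
    simp only [Pi.smul_apply, smul_eq_mul, ← Finset.mul_sum]
    nlinarith
  · rintro ⟨h1, h2⟩
    rcases ht.eq_or_lt with rfl | ht
    · refine ⟨0, ⟨fun _ => le_rfl, by simp⟩, ?_⟩
      ext i
      have := (Finset.sum_eq_zero_iff_of_nonneg fun i _ => h1 i).1
        (le_antisymm h2 (Finset.sum_nonneg fun i _ => h1 i)) i (Finset.mem_univ i)
      simp [this]
    · refine ⟨t⁻¹ • v, ⟨fun i => mul_nonneg (inv_pos.2 ht).le (h1 i), ?_⟩, ?_⟩
      · simp only [Pi.smul_apply, smul_eq_mul, ← Finset.mul_sum]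
        rwa [inv_mul_le_iff₀ ht, mul_one]
      · simp [smul_smul, ht.ne']

/-- the Euclidean unit ball -/
def ballE (m : ℕ) : Set (E m) := {v | ∑ i, v i ^ 2 ≤ 1}

lemma mem_smul_ballE {t : ℝ} (ht : 0 ≤ t) {v : E m} :
    v ∈ t • ballE m ↔ √(∑ i, v i ^ 2) ≤ t := by
  rw [Real.sqrt_le_left ht]
  constructor
  · rintro ⟨w, h2, rfl⟩
    simp only [Pi.smul_apply, smul_eq_mul, mul_pow, ← Finset.mul_sum]
    have h3 : ∑ i, w i ^ 2 ≤ 1 := h2
    nlinarith [sq_nonneg t]
  · intro h2
    rcases ht.eq_or_lt with rfl | ht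
    · refine ⟨0, by simp [ballE], ?_⟩
      ext i
      have := (Finset.sum_eq_zero_iff_of_nonneg fun i _ => sq_nonneg (v i)).1
        (le_antisymm (by simpa using h2) (Finset.sum_nonneg fun i _ => sq_nonneg _)) i
        (Finset.mem_univ i)
      simp [pow_eq_zero_iff] at this
      simp [this]
    · refine ⟨t⁻¹ • v, ?_, by simp [smul_smul, ht.ne']⟩
      change ∑ i, (t⁻¹ * v i) ^ 2 ≤ 1
      simp only [mul_pow, ← Finset.mul_sum]
      rwa [inv_pow, inv_mul_le_iff₀ (by positivity), mul_one]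

lemma body_ballE : Body (ballE m) := by
  have hc : Continuous fun v : E m => ∑ i, v i ^ 2 := by fun_prop
  refine ⟨?_, ?_, 0, ?_⟩
  · intro x hx y hy a b ha hb hab
    change ∑ i, (a * x i + b * y i) ^ 2 ≤ 1
    have h1 : ∑ i, (a * x i + b * y i) ^ 2 ≤ ∑ i, (a * x i ^ 2 + b * y i ^ 2) :=
      Finset.sum_le_sum fun i _ => by
        have : b = 1 - a := by linarith
        subst this
        nlinarith [mul_nonneg (mul_nonneg ha hb) (sq_nonneg (x i - y i))]
    rw [Finset.sum_add_distrib, ← Finset.mul_sum, ← Finset.mul_sum] at h1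
    have h2 : ∑ i, x i ^ 2 ≤ 1 := hx
    have h3 : ∑ i, y i ^ 2 ≤ 1 := hy
    nlinarith
  · refine Metric.isCompact_of_isClosed_isBounded (isClosed_le hc continuous_const)
      ((Metric.isBounded_closedBall (x := (0 : E m)) (r := 1)).subset fun x hx => ?_)
    rw [mem_closedBall_zero_iff, pi_norm_le_iff_of_nonneg zero_le_one]
    intro i
    have h1 : x i ^ 2 ≤ 1 := (Finset.single_le_sum (f := fun i => x i ^ 2)
      (fun i _ => sq_nonneg _) (Finset.mem_univ i)).trans hx
    exact (sq_le_one_iff_abs_le_one _).1 h1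
  · refine interior_maximal (t := {v : E m | ∑ i, v i ^ 2 < 1}) (fun v hv => ?_)
      (isOpen_lt hc continuous_const) (by simp)
    exact le_of_lt (show ∑ i, v i ^ 2 < 1 from hv)

lemma exists_split {j : Fin 3} (hj : ∃ i, g i = j) : ∃ (k m : ℕ) (e : Fin k ⊕ Fin (m + 1) ≃ Fin n),
    (∀ a, g (e (Sum.inl a)) ≠ j) ∧ ∀ b, g (e (Sum.inr b)) = j := by
  obtain ⟨i, hi⟩ := hj
  have hpos : 0 < Fintype.card {i // ¬ g i ≠ j} := Fintype.card_pos_iff.2 ⟨⟨i, by simpa using hi⟩⟩
  obtain ⟨m, hm⟩ := Nat.exists_eq_succ_of_ne_zero hpos.ne'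
  refine ⟨_, m, ((Fintype.equivFin {i // g i ≠ j}).symm.sumCongr
    (Fintype.equivFinOfCardEq hm).symm).trans (Equiv.sumCompl fun i => g i ≠ j), fun a => ?_,
    fun b => ?_⟩
  · exact ((Fintype.equivFin {i // g i ≠ j}).symm a).2
  · exact not_not.1 ((Fintype.equivFinOfCardEq hm).symm b).2

lemma sum_block {j : Fin 3} {e : Fin k ⊕ Fin m ≃ Fin n} (h1 : ∀ a, g (e (Sum.inl a)) ≠ j)
    (h2 : ∀ b, g (e (Sum.inr b)) = j) (f : Fin n → ℝ) :
    ∑ i with g i = j, f i = ∑ b, f (e (Sum.inr b)) := by
  rw [Finset.sum_filter, ← e.sum_comp, Fintype.sum_sum_type]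
  simp [h1, h2]

lemma wgen_of_flat {j : Fin 3} {e : Fin k ⊕ Fin (m + 1) ≃ Fin n} (h1 : ∀ a, g (e (Sum.inl a)) ≠ j)
    (h2 : ∀ b, g (e (Sum.inr b)) = j) {K : Set (E n)} (hK : Body K) (h : RotInv g j K)
    (hW : WGen (flat g j (e (Sum.inr 0)) K)) : WGen K := by
  set mk : E k → ℝ → E n := fun u r i => Sum.elim u (Pi.single 0 r) (e.symm i) with hmk
  set A : E k → Set ℝ := fun u => {r | mk u r ∈ K} with hA
  set B : Set (E k) := {u | (A u).Nonempty} with hB
  have hsq : ∀ u r, ∑ i with g i = j, mk u r i ^ 2 = r ^ 2 := fun u r => by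
    rw [sum_block h1 h2]
    simp [hmk, Fin.sum_univ_succ]
  have hoff : ∀ (x : E n) r i, g i ≠ j → mk (fun a => x (e (Sum.inl a))) r i = x i := by
    intro x r i hi
    obtain ⟨c, rfl⟩ := e.surjective i
    rcases c with a | b
    · simp [hmk]
    · exact absurd (h2 b) hi
  have hneg : ∀ u r, r ∈ A u → -r ∈ A u := fun u r hr =>
    h _ hr _ (fun i hi => by
      obtain ⟨c, rfl⟩ := e.surjective i
      rcases c with a | b
      · simp [hmk]
      · exact absurd (h2 b) hi) (by rw [hsq, hsq]; ring)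
  have hconv : ∀ u, Convex ℝ (A u) := fun u r hr s hs a b ha hb hab => by
    have := hK.conv hr hs ha hb hab
    change mk u _ ∈ K
    convert this using 1
    ext i
    obtain ⟨c, rfl⟩ := e.surjective i
    rcases c with c | c
    · simp [hmk, ← add_mul, hab]
    · by_cases hc : c = 0 <;> simp [hmk, hc]
  have hcomp : ∀ u, IsCompact (A u) := fun u => by
    obtain ⟨R, hR0, hR⟩ := hK.comp.isBounded.subset_closedBall_lt 0 0
    refine Metric.isCompact_of_isClosed_isBounded (hK.comp.isClosed.preimage ?_)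
      ((Metric.isBounded_closedBall (x := (0 : ℝ)) (r := R)).subset fun r hr => ?_)
    · refine continuous_pi fun i => ?_
      obtain ⟨c, rfl⟩ := e.surjective i
      rcases c with c | c
      · simpa [hmk] using continuous_const
      · by_cases hc : c = 0
        · simpa [hmk, hc] using continuous_id'
        · simpa [hmk, hc] using continuous_const
    · have hb := hR hr
      rw [mem_closedBall_zero_iff, pi_norm_le_iff_of_nonneg hR0.le] at hb
      simpa [hmk] using hb (e (Sum.inr 0))
  have hmem : ∀ u ∈ B, 0 ≤ sSup (A u) ∧ ∀ r, 0 ≤ r → (r ∈ A u ↔ r ≤ sSup (A u)) := by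
    intro u hu
    have t1 := (hcomp u).sSup_mem hu
    have t2 := le_csSup (hcomp u).bddAbove (hneg u _ t1)
    refine ⟨by linarith, fun r hr => ⟨fun h => le_csSup (hcomp u).bddAbove h, fun h => ?_⟩⟩
    exact (hconv u).ordConnected.out (hneg u _ t1) t1 ⟨by linarith, h⟩
  refine WGen.norm K k m e B (fun u => sSup (A u)) (ballE (m + 1)) hK.conv hK.comp hK.int
    body_ballE.conv body_ballE.comp body_ballE.int (fun y hy b => ?_) (fun u hu => (hmem u hu).1)
    ?_ ?_
  · change ∑ i, update y b (-y b) i ^ 2 ≤ 1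
    rw [Finset.sum_congr rfl (g := fun i => y i ^ 2) fun i _ => by
      rcases eq_or_ne i b with rfl | hi
      · simp
      · simp [hi]]
    exact hy
  · convert hW using 1
    ext x
    have hcol : col g j (e (Sum.inr 0)) x =
        mk (fun a => x (e (Sum.inl a))) (∑ b, x (e (Sum.inr b))) := by
      ext i
      obtain ⟨c, rfl⟩ := e.surjective i
      rcases c with c | c
      · simp [hmk, col_apply, h1]
      · by_cases hc : c = 0 <;> simp [hmk, hc, col_apply, h2, bs_apply, sum_block h1 h2]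
    constructor
    · rintro ⟨hu, hv⟩
      rw [mem_smul_stdS (hmem _ hu).1] at hv
      refine ⟨fun i hi => ?_, ?_⟩
      · obtain ⟨c, rfl⟩ := e.surjective i
        rcases c with c | c
        · exact absurd hi (h1 c)
        · exact hv.1 c
      · rw [hcol]
        exact ((hmem _ hu).2 _ (Finset.sum_nonneg fun b _ => hv.1 b)).2 hv.2
    · rintro ⟨hx0, hx⟩
      rw [hcol] at hx
      have hu : (fun a => x (e (Sum.inl a))) ∈ B := ⟨_, hx⟩
      refine ⟨hu, (mem_smul_stdS (hmem _ hu).1).2 ⟨fun b => hx0 _ (h2 b), ?_⟩⟩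
      exact ((hmem _ hu).2 _ (Finset.sum_nonneg fun b _ => hx0 _ (h2 b))).1 hx
  · ext x
    have hs : √(∑ b, x (e (Sum.inr b)) ^ 2) ^ 2 = ∑ i with g i = j, x i ^ 2 := by
      rw [Real.sq_sqrt (Finset.sum_nonneg fun b _ => sq_nonneg _),
        sum_block h1 h2 fun i => x i ^ 2]
    constructor
    · intro hx
      have hr : √(∑ b, x (e (Sum.inr b)) ^ 2) ∈ A fun a => x (e (Sum.inl a)) :=
        h x hx _ (hoff x _) (by rw [hsq, hs])
      have hu : (fun a => x (e (Sum.inl a))) ∈ B := ⟨_, hr⟩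
      exact ⟨hu, (mem_smul_ballE (hmem _ hu).1).2 (((hmem _ hu).2 _ (Real.sqrt_nonneg _)).1 hr)⟩
    · rintro ⟨hu, hv⟩
      rw [mem_smul_ballE (hmem _ hu).1] at hv
      exact h _ (((hmem _ hu).2 _ (Real.sqrt_nonneg _)).2 hv) x (fun i hi => (hoff x _ i hi).symm)
        (by rw [hsq, hs])

lemma wgen_of_inv (hg : Blk g) (s : Finset (Fin 3)) : ∀ K : Set (E n), Body K →
    (∀ j ∈ s, RotInv g j K) → (∀ j, j ∉ s → SumInv g j K) → WGen K := by
  induction s using Finset.induction_on with
  | empty => exact fun K hK _ h => wgen_of_sumInv hg hK fun j => h j (Finset.notMem_empty j)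
  | insert j s hj ih =>
    intro K hK h1 h2
    obtain ⟨k, m, e, e1, e2⟩ := exists_split (hg.surj j)
    have hR := h1 j (Finset.mem_insert_self _ _)
    refine wgen_of_flat e1 e2 hK hR (ih _ (body_flat (e2 0) hK hR) (fun j' hj' => ?_)
      fun j' hj' => ?_)
    · exact (h1 j' (Finset.mem_insert_of_mem hj')).flat (fun h => hj (by rwa [h] at hj')) _
    · rcases eq_or_ne j' j with rfl | hne
      · exact sumInv_flat _ _ _
      · exact (h2 j' (by simp [hne, hj'])).flat hne _

theorem wgen_of_rot {K : Set (E n)} (hK : Body K) (R : Set (Fin 3)) (hs : Surjective g)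
    (h0 : 0 ∉ R) (h1 : ∀ i i', g i = g i' → g i ∉ R → i = i')
    (h : ∀ x ∈ K, ∀ y : E n, (∀ i, g i ∉ R → y i = x i) →
      (∀ j ∈ R, ∑ i with g i = j, y i ^ 2 = ∑ i with g i = j, x i ^ 2) → y ∈ K) : WGen K := by
  classical
  have hg : Blk g := ⟨hs, fun i i' hi hi' => h1 i i' (hi.trans hi'.symm) (hi ▸ h0)⟩
  obtain ⟨M, hM0, hM⟩ := hK.comp.isBounded.subset_closedBall_lt 0 0
  set c : E n := fun i => if g i ∈ R then 0 else -M with hc
  have hmem : ∀ x, x ∈ (fun z => z - c) '' K ↔ x + c ∈ K := fun x =>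
    ⟨by rintro ⟨z, hz, rfl⟩; simpa using hz, fun hx => ⟨_, hx, by simp⟩⟩
  have hW : WGen ((fun z => z - c) '' K) := by
    refine wgen_of_inv hg (Finset.univ.filter (· ∈ R)) _ ⟨convex_image_sub hK.conv c,
      isCompact_image_sub hK.comp c, interior_image_sub hK.int c⟩ (fun j hj => ?_) fun j hj => ?_
    · have hj' : j ∈ R := (Finset.mem_filter.1 hj).2
      intro x hx y e1 e2
      rw [hmem] at hx ⊢
      refine h _ hx _ (fun i hi => ?_) fun j' hj'' => ?_
      · simp [e1 i fun e => hi (e ▸ hj')]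
      · have t : ∀ z : E n, ∑ i with g i = j', (z + c) i ^ 2 = ∑ i with g i = j', z i ^ 2 :=
          fun z => Finset.sum_congr rfl fun i hi => by
            simp [hc, (Finset.mem_filter.1 hi).2, hj'']
        rw [t, t]
        rcases eq_or_ne j' j with rfl | hne
        · exact e2
        · exact Finset.sum_congr rfl fun i hi => by
            rw [e1 i ((Finset.mem_filter.1 hi).2 ▸ hne)]
    · have hj' : j ∉ R := by simpa using hj
      refine fun x hx => ⟨fun i hi => ?_, fun y e1 _ e3 => ?_⟩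
      · have hb := hM ((hmem x).1 hx)
        rw [mem_closedBall_zero_iff, pi_norm_le_iff_of_nonneg hM0.le] at hb
        have := (abs_le.1 (hb i)).1
        simp only [Pi.add_apply, hc, hi, hj', if_false] at this
        linarith
      · convert hx using 1
        ext i
        by_cases hi : g i = j
        · have t : (Finset.univ.filter fun i => g i = j) = {i} := by
            ext i'
            simp only [Finset.mem_filter, Finset.mem_univ, true_and, Finset.mem_singleton]
            exact ⟨fun e => h1 i' i (e.trans hi.symm) (e ▸ hj'), fun e => e ▸ hi⟩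
          simpa [bs_apply, t] using e3
        · exact e1 i hi
  have := WGen.image _ (AffineEquiv.constVAdd ℝ (E n) c) hW
  rw [image_image] at this
  simpa using this

end Pool.Agent.MP_5f4cdd_gt.W
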