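import Pool.Agent.MP_5f4cdd_gt.WPF
import Pool.Agent.MP_5f4cdd_gt.WRot

set_option autoImplicit false
open MeasureTheory ENNReal Set Function Filter Topology Pointwise

namespace Pool.Agent.MP_5f4cdd_gt.W

open PL EF AB

variable {n k m : ℕ}

/-- fundamental weights of type A, in the coordinates of `bet` -/
noncomputable def om (m : ℕ) (j : Fin m) : E m :=
  fun i => (if (i : ℕ) < (j : ℕ) then 1 else 0) - ((j : ℕ) + 1 : ℝ) / (m + 1)

/-- the Gram map of `bet` -/
noncomputable def Gam (m : ℕ) : E m →ₗ[ℝ] E m where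
  toFun z := fun i => z i + ∑ l, z l
  map_add' x y := by ext i; simp [Finset.sum_add_distrib]; ring
  map_smul' a x := by ext i; simp [Finset.mul_sum, mul_add]

/-- squared lengths of the weights of type A -/
noncomputable def cA (m : ℕ) (j : Fin m) : ℝ := ((j : ℕ) + 1) * (m - (j : ℕ)) / (m + 1)

/-- fundamental weights of type B -/
def omB (m : ℕ) (j : Fin m) : E m := fun i => if i ≤ j then 1 else 0

/-- linear combination of `m` vectors -/
def comb (ω : Fin m → E m) (r : E m) : E m := ∑ j, r j • ω j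

/-- the open orthant -/
def orth (m : ℕ) : Set (E m) := {r | ∀ i, 0 < r i}

/-- invariance under the symmetries of the centred simplex -/
def TInv (F : Set (E m)) : Prop := ∀ σ : Equiv.Perm (Fin (m + 1)), ∀ v ∈ F, Tp σ v ∈ F

/-- invariance under signed permutations -/
def SInv (F : Set (E m)) : Prop :=
  (∀ v ∈ F, ∀ i, update v i (-v i) ∈ F) ∧ ∀ σ : Equiv.Perm (Fin m), ∀ v ∈ F, v ∘ σ ∈ F

/-- the fibre over `u` -/
def fibr (e : Fin k ⊕ Fin m ≃ Fin n) (K : Set (E n)) (u : E k) : Set (E m) :=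
  {v | wpf_j e (u, v) ∈ K}

/-- the section with zero fibre coordinates -/
def base (e : Fin k ⊕ Fin m ≃ Fin n) (K : Set (E n)) : Set (E k) := {u | wpf_j e (u, 0) ∈ K}

/-- the radial function of the fibres in the direction `w` -/
noncomputable def rad (e : Fin k ⊕ Fin m ≃ Fin n) (K : Set (E n)) (w : E m) (u : E k) : ℝ :=
  sSup {s : ℝ | wpf_j e (u, s • w) ∈ K}

/-- the wedge with fibres homothetic to `S` attached to the direction `w` -/
def Wg (e : Fin k ⊕ Fin m ≃ Fin n) (K : Set (E n)) (w : E m) (S : Set (E m)) : Set (E n) :=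
  fibS e (base e K) (rad e K w) S

/-- translation by a vector of the base -/
def shift (e : Fin k ⊕ Fin m ≃ Fin n) (a : E k) (K : Set (E n)) : Set (E n) :=
  (fun z => z - fun i => Sum.elim a 0 (e.symm i)) '' K

/-- the sharp inequality with its equality case -/
def Sharp (K : Set (E n)) : Prop :=
  Body K ∧ mahlerInf (cS n 1) ≤ mstarInf K ∧
    (mstarInf K ≤ mahlerInf (cS n 1) → ∃ f : E n ≃ᵃ[ℝ] E n, K = f '' stdS n)

/-- a class of bodies with uniform stability -/
def Far (n : ℕ) (C : Set (E n) → Prop) : Prop :=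
  ∀ ε : ℝ, 0 < ε → ∃ c : ℝ, 0 < c ∧ ∀ K, C K →
    Body K ∧ AB.Good ε (ENNReal.ofReal (1 + c) * mahlerInf (cS n 1)) K

/-- type A invariance in the block `j` -/
def AInv (g : Fin n → Fin 3) (j : Fin 3) (K : Set (E n)) : Prop :=
  ∀ x ∈ K, ∀ i, g i = j → update x i (-bs g x j) ∈ K

/-- type B invariance in the block `j` -/
def BInv (g : Fin n → Fin 3) (j : Fin 3) (K : Set (E n)) : Prop :=
  (∀ x ∈ K, ∀ i, g i = j → update x i (-x i) ∈ K) ∧
    ∀ x ∈ K, ∀ i i', g i = j → g i' = j → x ∘ Equiv.swap i i' ∈ K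

/-- admissible block data -/
structure BlkR (g : Fin n → Fin 3) (A B : Set (Fin 3)) : Prop where
  surj : Surjective g
  zA : 0 ∉ A
  zB : 0 ∉ B
  one : ∀ i i', g i = g i' → g i ∉ A → g i ∉ B → i = i'

/-- bodies with the symmetries prescribed by the block data -/
def Refl (g : Fin n → Fin 3) (A B : Set (Fin 3)) (K : Set (E n)) : Prop :=
  Body K ∧ (∀ j ∈ A, AInv g j K) ∧ ∀ j ∈ B, BInv g j K

/-- normal position -/
def Nrm (g : Fin n → Fin 3) (K : Set (E n)) : Prop :=
  K ⊆ Metric.closedBall 0 1 ∧ (0 : E n) ∈ K ∧ (∀ i, g i = 0 → (Pi.single i 1 : E n) ∈ K) ∧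
    ∀ j, ∃ x ∈ K, ∃ i, g i = j ∧ 1 ≤ |x i|

lemma measurableSet_orth : MeasurableSet (orth m) := by
  have : orth m = ⋂ i, {r : E m | 0 < r i} := by ext; simp [orth]
  rw [this]
  exact MeasurableSet.iInter fun i => measurableSet_lt measurable_const (measurable_pi_apply i)

lemma wpf_j_inl (e : Fin k ⊕ Fin m ≃ Fin n) (p : E k × E m) (i : Fin k) :
    wpf_j e p (e (Sum.inl i)) = p.1 i := by simp [wpf_j]

lemma wpf_j_inr (e : Fin k ⊕ Fin m ≃ Fin n) (p : E k × E m) (i : Fin m) :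
    wpf_j e p (e (Sum.inr i)) = p.2 i := by simp [wpf_j]

lemma wpf_j_combo (e : Fin k ⊕ Fin m ≃ Fin n) (a b : ℝ) (p q : E k × E m) :
    wpf_j e (a • p + b • q) = a • wpf_j e p + b • wpf_j e q := by
  ext i
  obtain ⟨c, rfl⟩ := e.surjective i
  cases c <;> simp [wpf_j]

lemma continuous_wpf_j (e : Fin k ⊕ Fin m ≃ Fin n) : Continuous (wpf_j e) := by
  refine continuous_pi fun i => ?_
  obtain ⟨c, rfl⟩ := e.surjective i
  cases c with
  | inl a => simp only [wpf_j_inl]; fun_prop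
  | inr a => simp only [wpf_j_inr]; fun_prop

lemma convex_fibr (e : Fin k ⊕ Fin m ≃ Fin n) {K : Set (E n)} (hK : Convex ℝ K) (u : E k) :
    Convex ℝ (fibr e K u) := by
  intro x hx y hy a b ha hb hab
  have := hK hx hy ha hb hab
  rw [← wpf_j_combo] at this
  change wpf_j e _ ∈ K
  convert this using 2
  ext i
  · simp [← add_mul, hab]
  · simp

/-- the radial segment of a fibre -/
lemma rad_spec (e : Fin k ⊕ Fin m ≃ Fin n) {K : Set (E n)} (hK : Convex ℝ K) (cK : IsCompact K)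
    {w : E m} (hw : w ≠ 0) {u : E k} (hu : u ∈ base e K) :
    0 ≤ rad e K w u ∧ (∀ s : ℝ, wpf_j e (u, s • w) ∈ K → s ≤ rad e K w u) ∧
      ∀ s : ℝ, 0 ≤ s → s ≤ rad e K w u → wpf_j e (u, s • w) ∈ K := by
  set A : Set ℝ := {s : ℝ | wpf_j e (u, s • w) ∈ K} with hA
  have h0 : (0 : ℝ) ∈ A := by simpa [hA, base] using hu
  obtain ⟨i, hi⟩ := Function.ne_iff.1 hw
  have hi' : 0 < |w i| := abs_pos.2 hi
  have hc : IsCompact A := by
    obtain ⟨R, hR0, hR⟩ := cK.isBounded.subset_closedBall_lt 0 0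
    refine Metric.isCompact_of_isClosed_isBounded (cK.isClosed.preimage
      ((continuous_wpf_j e).comp (f := fun s : ℝ => (u, s • w)) (by fun_prop)))
      ((Metric.isBounded_closedBall (x := (0 : ℝ)) (r := R / |w i|)).subset fun s hs => ?_)
    have hb := hR hs
    rw [mem_closedBall_zero_iff, pi_norm_le_iff_of_nonneg hR0.le] at hb
    have := hb (e (Sum.inr i))
    rw [wpf_j_inr] at this
    rw [mem_closedBall_zero_iff, le_div_iff₀ hi', Real.norm_eq_abs, ← abs_mul]
    simpa using this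
  have hconv : Convex ℝ A := fun r hr s hs a b ha hb hab => by
    have := convex_fibr e hK u hr hs ha hb hab
    rwa [smul_smul, smul_smul, ← add_smul] at this
  have t1 := hc.sSup_mem ⟨0, h0⟩
  exact ⟨le_csSup hc.bddAbove h0, fun s hs => le_csSup hc.bddAbove hs,
    fun s hs h => hconv.ordConnected.out h0 t1 ⟨hs, h⟩⟩

end Pool.Agent.MP_5f4cdd_gt.W
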