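import Pool.Agent.MP_5f4cdd_gt.RDef

set_option autoImplicit false
open MeasureTheory ENNReal Set Function Filter Topology Pointwise

namespace Pool.Agent.MP_5f4cdd_gt.W

open PL EF AB

variable {n k m : ℕ}

open TopologicalSpace in
lemma rlim_mem {K : ℕ → NonemptyCompacts (E n)} {L : NonemptyCompacts (E n)}
    (h : Tendsto K atTop (𝓝 L)) {y : ℕ → E n} {x : E n} (hy : ∀ i, y i ∈ (K i : Set (E n)))
    (hx : Tendsto y atTop (𝓝 x)) : x ∈ (L : Set (E n)) := by
  have h1 := (Metric.uniformContinuous_infDist_Hausdorff_dist.continuous.tendsto (x, L)).comp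
    (hx.prodMk_nhds h)
  have h2 : ((fun p : E n × NonemptyCompacts (E n) => Metric.infDist p.1 p.2) ∘
      fun i => (y i, K i)) = fun _ => 0 := funext fun i => Metric.infDist_zero_of_mem (hy i)
  rw [h2] at h1
  exact (L.isCompact.isClosed.mem_iff_infDist_zero L.nonempty).2
    (tendsto_nhds_unique h1 tendsto_const_nhds)

open TopologicalSpace in
lemma rlim_seq {K : ℕ → NonemptyCompacts (E n)} {L : NonemptyCompacts (E n)}
    (h : Tendsto K atTop (𝓝 L)) {x : E n} (hx : x ∈ (L : Set (E n))) :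
    ∃ y : ℕ → E n, (∀ i, y i ∈ (K i : Set (E n))) ∧ Tendsto y atTop (𝓝 x) := by
  choose y hy hd using fun i => (K i).isCompact.exists_infDist_eq_dist (K i).nonempty x
  refine ⟨y, hy, ?_⟩
  have h1 := ((Metric.lipschitz_infDist_set x).continuous.tendsto L).comp h
  rw [Metric.infDist_zero_of_mem hx] at h1
  rw [tendsto_iff_dist_tendsto_zero]
  refine h1.congr fun i => ?_
  rw [dist_comm, ← hd i]
  rfl

open TopologicalSpace in
lemma rlim_map {K : ℕ → NonemptyCompacts (E n)} {L : NonemptyCompacts (E n)}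
    (h : Tendsto K atTop (𝓝 L)) {f : E n → E n} (hf : Continuous f)
    (hK : ∀ i, ∀ x ∈ (K i : Set (E n)), f x ∈ (K i : Set (E n))) {x : E n}
    (hx : x ∈ (L : Set (E n))) : f x ∈ (L : Set (E n)) := by
  obtain ⟨y, hy, ht⟩ := rlim_seq h hx
  exact rlim_mem h (fun i => hK i _ (hy i)) ((hf.tendsto x).comp ht)

lemma rlim_single {V : Submodule ℝ (E n)} {y : E n} {i : Fin n} {c : ℝ} (hy : y ∈ V)
    (hu : update y i c ∈ V) (hc : y i ≠ c) : (Pi.single i 1 : E n) ∈ V := by
  have h1 : y - update y i c = (y i - c) • (Pi.single i 1 : E n) := by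
    ext l
    by_cases hl : l = i
    · subst hl
      simp
    · simp [hl]
  have h2 := V.sub_mem hy hu
  rwa [h1, V.smul_mem_iff (sub_ne_zero.2 hc)] at h2

lemma rlim_sum {V : Submodule ℝ (E n)} {y : E n}
    (h : ∀ i, y i ≠ 0 → (Pi.single i 1 : E n) ∈ V) : y ∈ V := by
  rw [pi_eq_sum_univ' y]
  refine V.sum_mem fun i _ => ?_
  by_cases hi : y i = 0
  · rw [hi, zero_smul]
    exact V.zero_mem
  · exact V.smul_mem _ (h i hi)

lemma rlim_bs_update {g : Fin n → Fin 3} {j : Fin 3} {i : Fin n} (hi : g i = j) (x : E n)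
    (c : ℝ) : bs g (update x i c) j = bs g x j - x i + c := by
  have h1 : update x i c = x + (c - x i) • (Pi.single i 1 : E n) := by
    ext l
    by_cases hl : l = i
    · subst hl
      simp
    · simp [hl]
  have h2 : bs g (Pi.single i 1 : E n) j = 1 := by
    change ∑ l with g l = j, (Pi.single i 1 : E n) l = 1
    rw [Finset.sum_eq_single i (fun l _ hl => by simp [hl]) fun hl => absurd (by simpa) hl]
    simp
  rw [h1, map_add, map_smul, Pi.add_apply, Pi.smul_apply, h2, smul_eq_mul]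
  ring

lemma rlim_A {g : Fin n → Fin 3} {j : Fin 3} {L : Set (E n)} (hL : AInv g j L) {x : E n}
    (hx : x ∈ L) {i : Fin n} (hi : g i = j) (h0 : x i ≠ 0) {l : Fin n} (hl : g l = j) :
    (Pi.single l 1 : E n) ∈ Submodule.span ℝ L := by
  by_cases h : x l = -bs g x j
  swap
  · exact rlim_single (Submodule.subset_span hx) (Submodule.subset_span (hL x hx l hl)) h
  obtain ⟨a, ha, hne⟩ : ∃ a, g a = j ∧ x a ≠ -bs g x j := by
    by_contra hcon
    push Not at hcon
    have h1 : ∑ a with g a = j, x a = ∑ a with g a = j, -bs g x j :=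
      Finset.sum_congr rfl fun a ha => hcon a (Finset.mem_filter.1 ha).2
    rw [Finset.sum_const, nsmul_eq_mul] at h1
    change bs g x j = _ at h1
    have h2 : (((Finset.univ.filter fun a => g a = j).card : ℝ) + 1) * bs g x j = 0 := by
      linarith
    rcases mul_eq_zero.1 h2 with h3 | h3
    · exact absurd h3 (Nat.cast_add_one_ne_zero _)
    · exact h0 (by rw [hcon i hi, h3, neg_zero])
  have hla : l ≠ a := fun e => hne (e ▸ h)
  have hx' := hL x hx a ha
  refine rlim_single (Submodule.subset_span hx') (Submodule.subset_span (hL _ hx' l hl)) ?_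
  rw [update_of_ne hla, rlim_bs_update ha, h]
  intro e
  exact hne (by linarith)

lemma rlim_B {g : Fin n → Fin 3} {j : Fin 3} {L : Set (E n)} (hL : BInv g j L) {x : E n}
    (hx : x ∈ L) {i : Fin n} (hi : g i = j) (h0 : x i ≠ 0) {l : Fin n} (hl : g l = j) :
    (Pi.single l 1 : E n) ∈ Submodule.span ℝ L := by
  have hy := hL.2 x hx i l hi hl
  refine rlim_single (Submodule.subset_span hy) (Submodule.subset_span (hL.1 _ hy l hl)) ?_
  simp only [comp_apply, Equiv.swap_apply_right]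
  intro e
  exact h0 (by linarith)

lemma rlim_span {g : Fin n → Fin 3} {A B : Set (Fin 3)} (hg : BlkR g A B)
    (hAB : (A ∪ B).Nonempty) {L : Set (E n)} (hA : ∀ j ∈ A, AInv g j L)
    (hB : ∀ j ∈ B, BInv g j L) (h0 : ∀ i, g i = 0 → (Pi.single i 1 : E n) ∈ L)
    (hx : ∀ j, ∃ x ∈ L, ∃ i, g i = j ∧ x i ≠ 0) : Submodule.span ℝ L = ⊤ := by
  have h1 : ∀ l, g l = 0 ∨ g l ∈ A ∨ g l ∈ B → (Pi.single l 1 : E n) ∈ Submodule.span ℝ L := by
    intro l hl
    obtain ⟨x, hxL, i, hi, hx0⟩ := hx (g l)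
    rcases hl with hl | hl | hl
    · exact Submodule.subset_span (h0 l hl)
    · exact rlim_A (hA _ hl) hxL hi hx0 rfl
    · exact rlim_B (hB _ hl) hxL hi hx0 rfl
  refine eq_top_iff.2 fun y _ => rlim_sum fun l _ => ?_
  by_cases hl : g l = 0 ∨ g l ∈ A ∨ g l ∈ B
  · exact h1 l hl
  push Not at hl
  obtain ⟨x, hxL, i, hi, hx0⟩ := hx (g l)
  obtain rfl : l = i := hg.one l i hi.symm hl.2.1 hl.2.2
  refine rlim_single (c := 0) (Submodule.subset_span hxL) (rlim_sum fun a ha => h1 a ?_) hx0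
  by_contra hcon
  push Not at hcon
  obtain ⟨j, hj⟩ := hAB
  have e0 : j ≠ 0 := by
    rintro rfl
    exact hj.elim hg.zA hg.zB
  have e1 : g l ≠ j := by
    rintro rfl
    exact hj.elim hl.2.1 hl.2.2
  have e2 : g a ≠ j := by
    rintro rfl
    exact hj.elim hcon.2.1 hcon.2.2
  have e3 : ∀ p q r : Fin 3, r ≠ 0 → p ≠ 0 → q ≠ 0 → p ≠ r → q ≠ r → p = q := by
    intro p q r
    omega
  obtain rfl : a = l := hg.one a l (e3 _ _ j e0 hcon.1 hl.1 e2 e1) hcon.2.1 hcon.2.2
  exact ha (update_self ..)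

theorem exists_limit {g : Fin n → Fin 3} {A B : Set (Fin 3)} (hg : BlkR g A B)
    (hAB : (A ∪ B).Nonempty) {K : ℕ → Set (E n)} (hK : ∀ i, Refl g A B (K i))
    (hN : ∀ i, Nrm g (K i)) : ∃ (L : Set (E n)) (φ : ℕ → ℕ), Refl g A B L ∧ StrictMono φ ∧
      Tendsto (fun i => Metric.hausdorffDist L (K (φ i))) atTop (𝓝 0) := by
  let K' : ℕ → TopologicalSpace.NonemptyCompacts (E n) := fun i =>
    ⟨⟨K i, (hK i).1.comp⟩, ⟨0, (hN i).2.1⟩⟩
  have hb : IsCompact (Metric.closedBall (0 : E n) 1) := isCompact_closedBall 0 1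
  obtain ⟨L, -, φ, hφ, ht⟩ :=
    (TopologicalSpace.NonemptyCompacts.isCompact_subsets_of_isCompact hb).tendsto_subseq
      (x := K') fun i => (hN i).1
  have hconv : Convex ℝ (L : Set (E n)) := by
    intro x hx y hy a b ha hb hab
    obtain ⟨u, hu, hux⟩ := rlim_seq ht hx
    obtain ⟨v, hv, hvy⟩ := rlim_seq ht hy
    exact rlim_mem ht (fun i => (hK (φ i)).1.conv (hu i) (hv i) ha hb hab)
      ((hux.const_smul a).add (hvy.const_smul b))
  have hA : ∀ j ∈ A, AInv g j (L : Set (E n)) := fun j hj x hx i hi =>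
    rlim_map ht (f := fun x => update x i (-bs g x j))
      (continuous_id.update i
        ((continuous_apply j).comp (bs g).continuous_of_finiteDimensional).neg)
      (fun a y hy => (hK (φ a)).2.1 j hj y hy i hi) hx
  have hB : ∀ j ∈ B, BInv g j (L : Set (E n)) := fun j hj =>
    ⟨fun x hx i hi => rlim_map ht (f := fun x => update x i (-x i))
      (continuous_id.update i (continuous_apply i).neg)
      (fun a y hy => ((hK (φ a)).2.2 j hj).1 y hy i hi) hx,
    fun x hx i i' hi hi' => rlim_map ht (f := fun x => x ∘ Equiv.swap i i')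
      (continuous_pi fun l => continuous_apply _)
      (fun a y hy => ((hK (φ a)).2.2 j hj).2 y hy i i' hi hi') hx⟩
  have hz : (0 : E n) ∈ (L : Set (E n)) :=
    rlim_mem ht (fun i => (hN (φ i)).2.1) tendsto_const_nhds
  have h0 : ∀ i, g i = 0 → (Pi.single i 1 : E n) ∈ (L : Set (E n)) := fun i hi =>
    rlim_mem ht (fun a => (hN (φ a)).2.2.1 i hi) tendsto_const_nhds
  have hx : ∀ j, ∃ x ∈ (L : Set (E n)), ∃ i, g i = j ∧ x i ≠ 0 := by
    intro j
    choose y hy hC using fun a => (hN (φ a)).2.2.2 j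
    obtain ⟨x, -, ψ, hψ, hx⟩ := hb.tendsto_subseq (x := y) fun a => (hN (φ a)).1 (hy a)
    have hcl : IsClosed {x : E n | ∃ i, g i = j ∧ 1 ≤ |x i|} := by
      rw [ofPred_exists]
      refine isClosed_iUnion_of_finite fun i => ?_
      exact isClosed_const.inter (isClosed_le continuous_const (continuous_apply i).abs)
    obtain ⟨i, hi, h1⟩ := hcl.mem_of_tendsto hx (Eventually.of_forall fun a => hC (ψ a))
    exact ⟨x, rlim_mem (ht.comp hψ.tendsto_atTop) (fun a => hy (ψ a)) hx, i, hi,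
      abs_pos.1 (one_pos.trans_le h1)⟩
  refine ⟨L, φ, ⟨⟨hconv, L.isCompact, ?_⟩, hA, hB⟩, hφ, ?_⟩
  · rw [hconv.interior_nonempty_iff_affineSpan_eq_top]
    have h1 := affineSpan_insert_zero (k := ℝ) (L : Set (E n))
    rw [insert_eq_of_mem hz, rlim_span hg hAB hA hB h0 hx] at h1
    exact SetLike.coe_injective h1
  · refine (tendsto_iff_dist_tendsto_zero.1 ht).congr fun i => ?_
    rw [dist_comm]
    rfl

end Pool.Agent.MP_5f4cdd_gt.W
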