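import Pool.Agent.MP_5f4cdd_gt.RZb
import Pool.Agent.MP_5f4cdd_gt.WCS

set_option autoImplicit false
open MeasureTheory ENNReal Set Function Filter Topology Pointwise

namespace Pool.Agent.MP_5f4cdd_gt.W

open PL EF AB

variable {n k m : ℕ}

/-- maps that act on the block `j` by a scalar and whose other coordinates do not read it -/
def rnrm_Ok (g : Fin n → Fin 3) (j : Fin 3) (f : E n → E n) : Prop :=
  (∃ c : ℝ, ∀ x i, g i = j → f x i = c * x i) ∧
    ∀ x y : E n, (∀ i, g i ≠ j → x i = y i) → ∀ i, g i ≠ j → f x i = f y i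

lemma rnrm_upd {g : Fin n → Fin 3} {j : Fin 3} {f : E n → E n} {c : ℝ}
    (h1 : ∀ x i, g i = j → f x i = c * x i)
    (h2 : ∀ x y : E n, (∀ i, g i ≠ j → x i = y i) → ∀ i, g i ≠ j → f x i = f y i)
    (x : E n) {i : Fin n} (hi : g i = j) (s : ℝ) :
    update (f x) i (c * s) = f (update x i s) := by
  ext i'
  by_cases e : i' = i
  · subst e
    rw [h1 _ _ hi, update_self, update_self]
  · rw [update_of_ne e]
    by_cases e' : g i' = j
    · rw [h1 _ _ e', h1 _ _ e', update_of_ne e]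
    · refine h2 _ _ (fun l hl => ?_) _ e'
      rw [update_of_ne]
      rintro rfl
      exact hl hi

lemma rnrm_ainv {g : Fin n → Fin 3} {j : Fin 3} {f : E n → E n} (hf : rnrm_Ok g j f)
    {K : Set (E n)} (h : AInv g j K) : AInv g j (f '' K) := by
  obtain ⟨⟨c, h1⟩, h2⟩ := hf
  rintro _ ⟨x, hx, rfl⟩ i hi
  refine ⟨_, h x hx i hi, ?_⟩
  rw [← rnrm_upd h1 h2 x hi]
  congr 1
  change c * -(∑ l with g l = j, x l) = -(∑ l with g l = j, f x l)
  rw [mul_neg, Finset.mul_sum]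
  congr 1
  exact Finset.sum_congr rfl fun l hl => (h1 _ _ (Finset.mem_filter.1 hl).2).symm

lemma rnrm_binv {g : Fin n → Fin 3} {j : Fin 3} {f : E n → E n} (hf : rnrm_Ok g j f)
    {K : Set (E n)} (h : BInv g j K) : BInv g j (f '' K) := by
  obtain ⟨⟨c, h1⟩, h2⟩ := hf
  refine ⟨?_, ?_⟩
  · rintro _ ⟨x, hx, rfl⟩ i hi
    refine ⟨_, h.1 x hx i hi, ?_⟩
    rw [← rnrm_upd h1 h2 x hi, h1 _ _ hi, mul_neg]
  · rintro _ ⟨x, hx, rfl⟩ i i' hi hi'
    refine ⟨_, h.2 x hx i i' hi hi', ?_⟩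
    have hs : ∀ l, g l ≠ j → Equiv.swap i i' l = l := fun l hl =>
      Equiv.swap_apply_of_ne_of_ne (by rintro rfl; exact hl hi) (by rintro rfl; exact hl hi')
    have hs' : ∀ l, g l = j → g (Equiv.swap i i' l) = j := fun l hl => by
      rw [Equiv.swap_apply_def]
      split_ifs <;> assumption
    ext l
    by_cases e : g l = j
    · rw [h1 _ _ e, comp_apply, comp_apply, h1 _ _ (hs' l e)]
    · rw [comp_apply, hs l e]
      exact h2 _ _ (fun l' hl' => by rw [comp_apply, hs l' hl']) _ e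

lemma rnrm_refl {g : Fin n → Fin 3} {A B : Set (Fin 3)} {K : Set (E n)} (hK : Refl g A B K)
    (f : E n ≃ᵃ[ℝ] E n) (hf : ∀ j, j ∈ A ∨ j ∈ B → rnrm_Ok g j f) : Refl g A B (f '' K) :=
  ⟨wcs_body_image hK.1 f, fun j hj => rnrm_ainv (hf j (Or.inl hj)) (hK.2.1 j hj),
    fun j hj => rnrm_binv (hf j (Or.inr hj)) (hK.2.2 j hj)⟩

lemma rnrm_two {K : Set (E n)} (hK : Body K) (i : Fin n) : ∃ x ∈ K, ∃ y ∈ K, x i < y i := by
  obtain ⟨z, hz⟩ := hK.int
  obtain ⟨t, ht, hb⟩ := Metric.isOpen_iff.1 isOpen_interior z hz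
  refine ⟨z, interior_subset hz, z + Pi.single i (t / 2), interior_subset (hb ?_), ?_⟩
  · rw [mem_ball_iff_norm, add_sub_cancel_left, Pi.norm_single, Real.norm_eq_abs,
      abs_of_pos (by linarith)]
    linarith
  · simp only [Pi.add_apply, Pi.single_eq_same]
    linarith

lemma rnrm_zero {g : Fin n → Fin 3} {A B : Set (Fin 3)} (hg : BlkR g A B) {K : Set (E n)}
    (hK : Refl g A B K) {i0 : Fin n} (h0 : g i0 = 0) {x : E n} (hx : x ∈ K) :
    ∃ y ∈ K, y i0 = x i0 ∧ ∀ i, g i ∈ A ∨ g i ∈ B → y i = 0 := by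
  classical
  have key : ∀ S : Finset (Fin 3),
      ∃ y ∈ K, y i0 = x i0 ∧ ∀ i, g i ∈ S → g i ∈ A ∨ g i ∈ B → y i = 0 := by
    intro S
    induction S using Finset.induction_on with
    | empty => exact ⟨x, hx, rfl, fun i hi => absurd hi (Finset.notMem_empty _)⟩
    | insert j S _ ih =>
      obtain ⟨y, hy, e, hz⟩ := ih
      by_cases hj : j ∈ A ∨ j ∈ B
      · have hj0 : g i0 ≠ j := by
          rw [h0]
          rintro rfl
          exact hj.elim hg.zA hg.zB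
        refine ⟨_, zero_block hK.1.conv (hj.imp (hK.2.1 j) (hK.2.2 j)) hy, ?_, fun i hi hi' => ?_⟩
        · simp only [if_neg hj0, e]
        · by_cases e' : g i = j
          · simp only [if_pos e']
          · simp only [if_neg e']
            exact hz i ((Finset.mem_insert.1 hi).resolve_left e') hi'
      · refine ⟨y, hy, e, fun i hi hi' => hz i ((Finset.mem_insert.1 hi).resolve_left ?_) hi'⟩
        rintro rfl
        exact hj hi'
  obtain ⟨y, hy, e, hz⟩ := key Finset.univ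
  exact ⟨y, hy, e, fun i => hz i (Finset.mem_univ _)⟩

/-- the shear sending `w` to a unit vector -/
noncomputable def rnrm_T (i0 : Fin n) (w : E n) (hw : w i0 ≠ 0) : E n ≃ₗ[ℝ] E n where
  toFun x := x + (x i0 / w i0) • (Pi.single i0 1 - w)
  invFun y := y + y i0 • (w - Pi.single i0 1)
  map_add' x y := by
    simp only [Pi.add_apply, add_div, add_smul]
    abel
  map_smul' a x := by
    simp only [Pi.smul_apply, smul_eq_mul, RingHom.id_apply, smul_add, smul_smul, mul_div_assoc]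
  left_inv x := by
    have e : (x + (x i0 / w i0) • (Pi.single i0 1 - w) : E n) i0 = x i0 / w i0 := by
      simp only [Pi.add_apply, Pi.smul_apply, Pi.sub_apply, Pi.single_eq_same, smul_eq_mul]
      field_simp
      ring
    change _ + (x + (x i0 / w i0) • (Pi.single i0 1 - w) : E n) i0 • _ = x
    rw [e, add_assoc, ← smul_add]
    simp
  right_inv y := by
    have e : (y + y i0 • (w - Pi.single i0 1) : E n) i0 / w i0 = y i0 := by
      simp only [Pi.add_apply, Pi.smul_apply, Pi.sub_apply, Pi.single_eq_same, smul_eq_mul]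
      field_simp
      ring
    change _ + ((y + y i0 • (w - Pi.single i0 1) : E n) i0 / w i0) • _ = y
    rw [e, add_assoc, ← smul_add]
    simp

lemma rnrm_first {g : Fin n → Fin 3} {A B : Set (Fin 3)} (hg : BlkR g A B) {K : Set (E n)}
    (hK : Refl g A B K) {i0 : Fin n} (h0 : g i0 = 0) :
    ∃ f : E n ≃ᵃ[ℝ] E n, Refl g A B (f '' K) ∧ (0 : E n) ∈ f '' K ∧
      (Pi.single i0 1 : E n) ∈ f '' K ∧ ∀ x ∈ f '' K, |x i0| ≤ 1 := by
  obtain ⟨a, ha, b, hb, hab⟩ := rnrm_two hK.1 i0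
  obtain ⟨p', hp', hmin⟩ := hK.1.comp.exists_isMinOn ⟨a, ha⟩
    (continuous_apply i0 : Continuous fun x : E n => x i0).continuousOn
  obtain ⟨q', hq', hmax⟩ := hK.1.comp.exists_isMaxOn ⟨a, ha⟩
    (continuous_apply i0 : Continuous fun x : E n => x i0).continuousOn
  obtain ⟨p, hp, ep, zp⟩ := rnrm_zero hg hK h0 hp'
  obtain ⟨q, hq, eq, zq⟩ := rnrm_zero hg hK h0 hq'
  have m1 : ∀ x ∈ K, p i0 ≤ x i0 := fun x hx => ep ▸ hmin hx
  have m2 : ∀ x ∈ K, x i0 ≤ q i0 := fun x hx => eq ▸ hmax hx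
  have hw : 0 < (q - p) i0 := by
    have := m1 a ha
    have := m2 b hb
    simp only [Pi.sub_apply]
    linarith
  let f : E n ≃ᵃ[ℝ] E n :=
    (AffineEquiv.constVAdd ℝ (E n) (-p)).trans (rnrm_T i0 (q - p) hw.ne').toAffineEquiv
  have hf : ∀ x, f x = (-p + x) + ((-p + x) i0 / (q - p) i0) • (Pi.single i0 1 - (q - p)) :=
    fun x => rfl
  refine ⟨f, rnrm_refl hK f fun j hj => ?_, ⟨p, hp, ?_⟩, ⟨q, hq, ?_⟩, ?_⟩
  · have hj0 : g i0 ≠ j := by
      rw [h0]
      rintro rfl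
      exact hj.elim hg.zA hg.zB
    refine ⟨⟨1, fun x i hi => ?_⟩, fun x y hxy i hi => ?_⟩
    · have hi0 : i ≠ i0 := by
        rintro rfl
        exact hj0 hi
      have e1 := zp i (hi ▸ hj)
      have e2 := zq i (hi ▸ hj)
      simp [hf, e1, e2, Pi.single_eq_of_ne hi0]
    · simp only [hf, Pi.add_apply, Pi.smul_apply, hxy i hi, hxy i0 hj0]
  · rw [hf]
    simp
  · rw [hf, neg_add_eq_sub, div_self hw.ne']
    simp
  · rintro _ ⟨x, hx, rfl⟩
    have e : f x i0 = (x i0 - p i0) / (q - p) i0 := by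
      have := hw.ne'
      rw [hf]
      simp only [Pi.add_apply, Pi.smul_apply, Pi.neg_apply, smul_eq_mul]
      rw [Pi.sub_apply (Pi.single i0 1), Pi.single_eq_same]
      field_simp
      ring
    have t1 := m1 x hx
    have t2 := m2 x hx
    rw [e, abs_of_nonneg (div_nonneg (by linarith) hw.le), div_le_one hw, Pi.sub_apply]
    linarith

lemma rnrm_rho {g : Fin n → Fin 3} (hg : Surjective g) {K : Set (E n)} (hK : Body K) (j : Fin 3) :
    ∃ r : ℝ, 0 < r ∧ (∀ x ∈ K, ∀ i, g i = j → |x i| ≤ r) ∧ ∃ x ∈ K, ∃ i, g i = j ∧ |x i| = r := by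
  obtain ⟨i1, hi1⟩ := hg j
  obtain ⟨a, ha, b, hb, hab⟩ := rnrm_two hK i1
  have h : ∀ i : Fin n, ∃ z ∈ K, ∀ x ∈ K, |x i| ≤ |z i| := fun i =>
    hK.comp.exists_isMaxOn ⟨a, ha⟩
      (continuous_apply i : Continuous fun x : E n => x i).abs.continuousOn
  choose z hz hm using h
  obtain ⟨i, hi, hmax⟩ := (Finset.univ.filter fun i => g i = j).exists_max_image
    (fun i => |z i i|) ⟨i1, by simp [hi1]⟩
  have hb' : ∀ x ∈ K, ∀ l, g l = j → |x l| ≤ |z i i| := fun x hx l hl =>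
    (hm l x hx).trans (hmax l (by simp [hl]))
  refine ⟨|z i i|, ?_, hb', z i, hz i, i, (Finset.mem_filter.1 hi).2, rfl⟩
  have t1 := abs_le.1 (hb' a ha i1 hi1)
  have t2 := abs_le.1 (hb' b hb i1 hi1)
  linarith [t1.1, t2.2]

theorem exists_nrm {g : Fin n → Fin 3} {A B : Set (Fin 3)} (hg : BlkR g A B) {K : Set (E n)}
    (hK : Refl g A B K) : ∃ f : E n ≃ᵃ[ℝ] E n, Refl g A B (f '' K) ∧ Nrm g (f '' K) := by
  obtain ⟨i0, h0⟩ := hg.surj 0
  have uq : ∀ i, g i = 0 → i = i0 := fun i hi =>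
    hg.one i i0 (hi.trans h0.symm) (hi ▸ hg.zA) (hi ▸ hg.zB)
  obtain ⟨f1, hR, hz, h1, hb⟩ := rnrm_first hg hK h0
  choose ρ hρ hle hex using rnrm_rho hg.surj hR.1
  have ρ0 : ρ 0 = 1 := by
    apply le_antisymm
    · obtain ⟨x, hx, i, hi, e⟩ := hex 0
      rw [← e, uq i hi]
      exact hb x hx
    · simpa using hle 0 _ h1 i0 h0
  let f2 : E n ≃ᵃ[ℝ] E n := dgE (fun i => (ρ (g i))⁻¹) fun i => inv_ne_zero (hρ _).ne'
  have hf : ∀ x i, f2 x i = (ρ (g i))⁻¹ * x i := fun x i => by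
    simp only [f2, coe_dgE, dg_apply]
  have e : (f1.trans f2) '' K = f2 '' (f1 '' K) := by
    rw [image_image]
    rfl
  refine ⟨f1.trans f2, ?_⟩
  rw [e]
  refine ⟨rnrm_refl hR f2 fun j _ => ⟨⟨(ρ j)⁻¹, fun x i hi => by rw [hf, hi]⟩,
    fun x y hxy i hi => by rw [hf, hf, hxy i hi]⟩, ?_, ⟨0, hz, ?_⟩, fun i hi => ⟨_, h1, ?_⟩,
    fun j => ?_⟩
  · rintro _ ⟨x, hx, rfl⟩
    rw [mem_closedBall_zero_iff, pi_norm_le_iff_of_nonneg zero_le_one]
    intro i
    rw [hf, Real.norm_eq_abs, abs_mul, abs_of_pos (inv_pos.2 (hρ _)), inv_mul_le_iff₀ (hρ _),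
      mul_one]
    exact hle _ x hx i rfl
  · ext i
    simp [hf]
  · rw [uq i hi]
    ext l
    rw [hf]
    by_cases el : l = i0
    · subst el
      simp [h0, ρ0]
    · simp [Pi.single_eq_of_ne el]
  · obtain ⟨x, hx, i, hi, ex⟩ := hex j
    refine ⟨f2 x, mem_image_of_mem _ hx, i, hi, ?_⟩
    rw [hf, abs_mul, hi, abs_of_pos (inv_pos.2 (hρ _)), ex, inv_mul_cancel₀ (hρ _).ne']

end Pool.Agent.MP_5f4cdd_gt.W
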