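import Pool.Agent.MP_5f4cdd_gt.RBlock
import Pool.Agent.MP_5f4cdd_gt.RNrm
import Pool.Agent.MP_5f4cdd_gt.RLim

set_option autoImplicit false
open MeasureTheory ENNReal Set Function Filter Topology Pointwise

namespace Pool.Agent.MP_5f4cdd_gt.W

open PL EF AB

variable {n k m : ℕ}

lemma rfar_close {L : Set (E n)} (hL : Body L) {K : ℕ → Set (E n)} (hK : ∀ i, Body (K i))
    (ht : Tendsto (fun i => Metric.hausdorffDist L (K i)) atTop (𝓝 0)) {η : ℝ} (hη : 0 < η) :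
    ∀ᶠ i in atTop, (∀ a ∈ L, ∃ b ∈ K i, ‖a - b‖ ≤ η) ∧ ∀ b ∈ K i, ∃ a ∈ L, ‖b - a‖ ≤ η := by
  filter_upwards [ht.eventually_lt_const hη] with j hj
  have hne := Metric.hausdorffEDist_ne_top_of_nonempty_of_bounded (hL.int.mono interior_subset)
    ((hK j).int.mono interior_subset) hL.comp.isBounded (hK j).comp.isBounded
  refine ⟨fun a ha => ?_, fun b hb => ?_⟩
  · obtain ⟨b, hb, h'⟩ := Metric.exists_dist_lt_of_hausdorffDist_lt ha hj hne
    exact ⟨b, hb, by rw [← dist_eq_norm]; exact h'.le⟩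
  · obtain ⟨a, ha, h'⟩ := Metric.exists_dist_lt_of_hausdorffDist_lt' hb hj hne
    exact ⟨a, ha, by rw [← dist_eq_norm, dist_comm]; exact h'.le⟩

lemma rfar_of_compact {C : Set (E n) → Prop} (hS : ∀ K, C K → Sharp K)
    (hC : ∀ K : ℕ → Set (E n), (∀ i, C (K i)) → ∃ (f : ℕ → E n ≃ᵃ[ℝ] E n) (L : Set (E n))
      (φ : ℕ → ℕ), (∀ i, C (f i '' K i)) ∧ C L ∧ StrictMono φ ∧
      Tendsto (fun i => Metric.hausdorffDist L (f (φ i) '' K (φ i))) atTop (𝓝 0)) :
    Far n C := by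
  intro ε hε
  by_contra hcon
  have h0 : ∀ i : ℕ, ∃ K, C K ∧
      mstarInf K < ENNReal.ofReal (1 + 1 / ((i : ℝ) + 1)) * mahlerInf (cS n 1) ∧
      ¬ EF.Near ε K := by
    intro i
    by_contra h
    refine hcon ⟨1 / ((i : ℝ) + 1), by positivity, fun K hK => ⟨(hS K hK).1, fun _ hM => ?_⟩⟩
    by_contra hN
    exact h ⟨K, hK, hM, hN⟩
  choose K hK hM hN using h0
  obtain ⟨f, L, φ, hf, hL, hφ, ht⟩ := hC K hK
  set ε' := min ε (1 / 2) with hε'
  have hε'0 : 0 < ε' := by positivity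
  have hε'1 : ε' < 1 := (min_le_right _ _).trans_lt (by norm_num)
  have hB : ∀ i, Body (f (φ i) '' K (φ i)) := fun i => (hS _ (hf _)).1
  have hLB : Body L := (hS L hL).1
  have hle : mstarInf L ≤ mahlerInf (cS n 1) := by
    by_contra hlt
    obtain ⟨v, hv1, hv2⟩ := exists_between (not_le.1 hlt)
    obtain ⟨η, hη, h⟩ := hLB.cont hε'0 hε'1 hv2
    have e1 : ∀ᶠ i : ℕ in atTop,
        ENNReal.ofReal (1 + 1 / ((i : ℝ) + 1)) * mahlerInf (cS n 1) < v := by
      have : Tendsto (fun i : ℕ => ENNReal.ofReal (1 + 1 / ((i : ℝ) + 1)) * mahlerInf (cS n 1))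
          atTop (𝓝 (ENNReal.ofReal (1 + 0) * mahlerInf (cS n 1))) :=
        ENNReal.Tendsto.mul_const (ENNReal.tendsto_ofReal
          (tendsto_const_nhds.add tendsto_one_div_add_atTop_nhds_zero_nat))
          (Or.inr mahlerInf_cS_lt_top.ne)
      exact this.eventually_lt_const (by simpa using hv1)
    obtain ⟨i, h1, h2⟩ :=
      ((rfar_close hLB hB ht hη).and (hφ.tendsto_atTop.eventually e1)).exists
    refine lt_irrefl _ ((h _ (hB i) h1.1 h1.2).2.2.2 ?_)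
    rw [mstarInf_affine]
    exact ((hM _).trans h2).le
  obtain ⟨e, he⟩ := (hS L hL).2.2 hle
  obtain ⟨η, hη, h⟩ := hLB.cont hε'0 hε'1 (μ := 1) (v := 0) zero_lt_one
  obtain ⟨i, h1⟩ := (rfar_close hLB hB ht hη).exists
  have h2 := ((h _ (hB i) h1.1 h1.2).1 (he ▸ near_simplex e)).image (f (φ i)).symm hε'1
  rw [image_image] at h2
  simp only [AffineEquiv.symm_apply_apply, image_id'] at h2
  exact hN _ (h2.mono (min_le_left _ _))

lemma rfar_one (g : Fin n → Fin 3) (A B : Set (Fin 3)) :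
    Far n fun K => BlkR g A B ∧ Refl g A B K := by
  by_cases hg : BlkR g A B
  swap
  · exact fun ε _ => ⟨1, one_pos, fun K hK => absurd hK.1 hg⟩
  rcases (A ∪ B).eq_empty_or_nonempty with hAB | hAB
  · obtain ⟨rfl, rfl⟩ := union_empty_iff.1 hAB
    intro ε hε
    obtain ⟨c, hc, h⟩ := far_w n hε
    refine ⟨c, hc, fun K hK => h K (wgen_of_rot hK.2.1 ∅ hg.surj (notMem_empty _)
      (fun i i' hi h' => hg.one i i' hi h' h') fun x hx y hy _ => ?_)⟩
    rwa [show y = x from funext fun i => hy i (notMem_empty _)]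
  · refine rfar_of_compact (fun K hK => sharp_refl hg hK.2) fun K hK => ?_
    choose f hf hN using fun i => exists_nrm hg (hK i).2
    obtain ⟨L, φ, hL, hφ, ht⟩ := exists_limit hg hAB hf hN
    exact ⟨f, L, φ, fun i => ⟨hg, hf i⟩, ⟨hg, hL⟩, hφ, ht⟩

theorem far_refl : Far n fun K => ∃ g A B, BlkR g A B ∧ Refl g A B K := by
  intro ε hε
  choose c hc h using fun p : (Fin n → Fin 3) × Set (Fin 3) × Set (Fin 3) =>
    rfar_one p.1 p.2.1 p.2.2 ε hε
  obtain ⟨p, hp⟩ := Finite.exists_min c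
  refine ⟨c p, hc p, ?_⟩
  rintro K ⟨g, A, B, hK⟩
  obtain ⟨h1, h2⟩ := h (g, A, B) K hK
  exact ⟨h1, fun hi hM => h2 hi (hM.trans_le (mul_le_mul_left
    (ENNReal.ofReal_le_ofReal (by linarith [hp (g, A, B)])) _))⟩

end Pool.Agent.MP_5f4cdd_gt.W
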