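import Pool.Agent.MP_5f4cdd_gt.RBasic

set_option autoImplicit false
open MeasureTheory ENNReal Set Function Filter Topology Pointwise

namespace Pool.Agent.MP_5f4cdd_gt.W

open PL EF AB

variable {n k m : ℕ}

lemma rfix_avg {ι : Type} [Fintype ι] [DecidableEq ι] (p : ι → Prop) [DecidablePred p]
    (x : ι → ℝ) : ∃ H : Finset (Equiv.Perm ι), H.Nonempty ∧ (∀ σ ∈ H, ∀ s, p (σ s) ↔ p s) ∧
      (∀ s t, (p s ↔ p t) → ∑ σ ∈ H, x (σ s) = ∑ σ ∈ H, x (σ t)) ∧
      ∑ s with p s, ∑ σ ∈ H, x (σ s) = H.card * ∑ s with p s, x s := by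
  classical
  refine ⟨Finset.univ.filter fun σ => ∀ s, p (σ s) ↔ p s, ⟨1, by simp⟩,
    fun σ hσ => (Finset.mem_filter.1 hσ).2, fun s t hst => ?_, ?_⟩
  · have hsw : ∀ u, p (Equiv.swap s t u) ↔ p u := by
      intro u
      by_cases h1 : u = s
      · subst h1; rw [Equiv.swap_apply_left]; exact hst.symm
      · by_cases h2 : u = t
        · subst h2; rw [Equiv.swap_apply_right]; exact hst
        · rw [Equiv.swap_apply_of_ne_of_ne h1 h2]
    refine Finset.sum_equiv (Equiv.mulRight (Equiv.swap s t)) (fun σ => ?_) (fun σ _ => ?_)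
    · simp only [Finset.mem_filter, Finset.mem_univ, true_and, Equiv.coe_mulRight,
        Equiv.Perm.coe_mul, Function.comp]
      constructor
      · intro h u
        rw [h, hsw]
      · intro h u
        have := h (Equiv.swap s t u)
        rwa [Equiv.swap_apply_self, hsw] at this
    · simp
  · rw [Finset.sum_comm, ← nsmul_eq_mul, ← Finset.sum_const]
    refine Finset.sum_congr rfl fun σ hσ => ?_
    have h := (Finset.mem_filter.1 hσ).2
    refine Finset.sum_equiv σ (fun u => ?_) (fun u _ => rfl)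
    simp only [Finset.mem_filter, Finset.mem_univ, true_and]
    exact (h u).symm

lemma rfix_mem {α : Type} {F : Set (E m)} (hF : Convex ℝ F) {H : Finset α} (hH : H.Nonempty)
    (f : α → E m) (hf : ∀ a ∈ H, f a ∈ F) : ((H.card : ℝ))⁻¹ • ∑ a ∈ H, f a ∈ F := by
  have hc : (0 : ℝ) < H.card := by exact_mod_cast hH.card_pos
  rw [Finset.smul_sum]
  refine hF.sum_mem (fun _ _ => (inv_pos.2 hc).le) ?_ hf
  rw [Finset.sum_const, nsmul_eq_mul, mul_inv_cancel₀ hc.ne']

/-- a point of `F` whose coordinates are constant on both sides of `p` -/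
lemma rfix_T {F : Set (E m)} (hF : Convex ℝ F) (h : TInv F) {v : E m} (hv : v ∈ F)
    (p : Fin (m + 1) → Prop) [DecidablePred p] : ∃ w ∈ F,
      (∀ s t, (p s ↔ p t) → bet m w s = bet m w t) ∧
      ∑ s with p s, bet m w s = ∑ s with p s, bet m v s := by
  obtain ⟨H, hne, -, h2, h3⟩ := rfix_avg p (bet m v)
  have hc : (0 : ℝ) < H.card := by exact_mod_cast hne.card_pos
  have hb : ∀ s, bet m (((H.card : ℝ))⁻¹ • ∑ σ ∈ H, Tp σ v) s =
      ((H.card : ℝ))⁻¹ * ∑ σ ∈ H, bet m v (σ s) := by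
    intro s
    rw [map_smul, map_sum, Pi.smul_apply, Finset.sum_apply, smul_eq_mul]
    simp only [bet_Tp_apply]
  refine ⟨_, rfix_mem hF hne (fun σ => Tp σ v) fun σ _ => h σ v hv, fun s t hst => ?_, ?_⟩
  · rw [hb, hb, h2 s t hst]
  · simp only [hb]
    rw [← Finset.mul_sum, h3, ← mul_assoc, inv_mul_cancel₀ hc.ne', one_mul]

lemma rfix_flip {F : Set (E m)} (h : SInv F) {v : E m} (hv : v ∈ F) (T : Finset (Fin m)) :
    (fun i => if i ∈ T then -v i else v i) ∈ F := by
  induction T using Finset.induction_on with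
  | empty => simpa using hv
  | insert j T hj ih =>
    have h1 := h.1 _ ih j
    convert h1 using 1
    ext i
    by_cases hi : i = j
    · subst hi; simp [hj]
    · simp [hi]

lemma rfix_cut {F : Set (E m)} (hF : Convex ℝ F) (h : SInv F) {v : E m} (hv : v ∈ F)
    (T : Finset (Fin m)) : (fun i => if i ∈ T then 0 else v i) ∈ F := by
  have := hF hv (rfix_flip h hv T) (a := 1 / 2) (b := 1 / 2) (by norm_num) (by norm_num)
    (by norm_num)
  convert this using 1
  ext i
  by_cases hi : i ∈ T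
  · simp [hi]
  · simp only [hi, if_false, Pi.add_apply, Pi.smul_apply, smul_eq_mul]; ring

lemma rfix_card (j : Fin m) :
    (Finset.univ.filter fun i : Fin m => i ≤ j).card = (j : ℕ) + 1 := by
  have : (Finset.univ.filter fun i : Fin m => i ≤ j) = Finset.Iic j := by ext; simp
  rw [this, Fin.card_Iic]

theorem zero_mem_T {F : Set (E m)} (hF : Convex ℝ F) (h : TInv F) {v : E m} (hv : v ∈ F) :
    (0 : E m) ∈ F := by
  obtain ⟨w, hw, h1, -⟩ := rfix_T hF h hv (fun _ => True)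
  have h2 : ∑ s, bet m w s = ∑ _s : Fin (m + 1), bet m w 0 :=
    Finset.sum_congr rfl fun s _ => h1 s 0 Iff.rfl
  rw [sum_bet, Finset.sum_const, Finset.card_univ, Fintype.card_fin, nsmul_eq_mul] at h2
  have h3 : bet m w 0 = 0 := by
    rcases mul_eq_zero.1 h2.symm with h4 | h4
    · exact absurd h4 (by positivity)
    · exact h4
  have h4 : w = 0 := by
    ext i
    have := h1 i.succ 0 Iff.rfl
    rw [h3, bet_succ] at this
    exact this
  exact h4 ▸ hw

theorem proj_mem_T {F : Set (E m)} (hF : Convex ℝ F) (h : TInv F) {v : E m} (hv : v ∈ F)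
    (j : Fin m) : ((v ⬝ᵥ Gam m (om m j)) / cA m j) • om m j ∈ F := by
  obtain ⟨w, hw, h1, h2⟩ := rfix_T hF h hv (fun s => s ≤ j.castSucc)
  rw [← dot_Gam_om v] at h2
  generalize v ⬝ᵥ Gam m (om m j) = S at h2 ⊢
  have hjm : ((j : ℕ) : ℝ) + 1 ≤ m := by exact_mod_cast j.isLt
  have hj0 : (0 : ℝ) ≤ (j : ℕ) := Nat.cast_nonneg _
  have hlt : ¬ (j.succ ≤ j.castSucc) := not_le.2 Fin.castSucc_lt_succ
  have ha : ∀ s, s ≤ j.castSucc → bet m w s = bet m w j.castSucc :=
    fun s hs => h1 s _ (iff_of_true hs le_rfl)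
  have hb : ∀ s, ¬ s ≤ j.castSucc → bet m w s = bet m w j.succ :=
    fun s hs => h1 s _ (iff_of_false hs hlt)
  have hc1 := rfix_card (m := m + 1) j.castSucc
  have hc2 : (Finset.univ.filter fun s : Fin (m + 1) => ¬ s ≤ j.castSucc).card =
      m - (j : ℕ) := by
    have := Finset.card_filter_add_card_filter_not (s := Finset.univ)
      (fun s : Fin (m + 1) => s ≤ j.castSucc)
    rw [hc1, Finset.card_univ, Fintype.card_fin, Fin.val_castSucc] at this
    omega
  have e1 : ∑ s with s ≤ j.castSucc, bet m w s = ((j : ℕ) + 1 : ℝ) * bet m w j.castSucc := by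
    rw [Finset.sum_congr rfl fun s hs => ha s (Finset.mem_filter.1 hs).2, Finset.sum_const,
      hc1, nsmul_eq_mul, Fin.val_castSucc]
    push_cast; ring
  have e2 : ∑ s with ¬ s ≤ j.castSucc, bet m w s = (m - (j : ℕ) : ℝ) * bet m w j.succ := by
    rw [Finset.sum_congr rfl fun s hs => hb s (Finset.mem_filter.1 hs).2, Finset.sum_const,
      hc2, nsmul_eq_mul, Nat.cast_sub j.isLt.le]
  have e3 := Finset.sum_filter_add_sum_filter_not Finset.univ
    (fun s : Fin (m + 1) => s ≤ j.castSucc) (bet m w)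
  rw [sum_bet, e2, h2] at e3
  rw [e1] at h2
  have p1 : ((j : ℕ) + 1 : ℝ) ≠ 0 := by positivity
  have p2 : (m - (j : ℕ) : ℝ) ≠ 0 := by
    have : (0 : ℝ) < m - (j : ℕ) := by linarith
    exact this.ne'
  have p3 : (m + 1 : ℝ) ≠ 0 := by positivity
  have key : (S / cA m j) • om m j = w := by
    apply bet_injective
    ext s
    rw [map_smul, Pi.smul_apply, smul_eq_mul, bet_om]
    by_cases hs : s ≤ j.castSucc
    · have hs' : (s : ℕ) ≤ (j : ℕ) := hs
      rw [if_pos hs', ha s hs, ← h2, cA]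
      field_simp
      ring
    · have hs' : ¬ (s : ℕ) ≤ (j : ℕ) := hs
      have e4 : S = -((m - (j : ℕ) : ℝ) * bet m w j.succ) := by linarith
      rw [if_neg hs', hb s hs, e4, cA]
      field_simp
      ring
  rw [key]
  exact hw

theorem zero_mem_S {F : Set (E m)} (hF : Convex ℝ F) (h : SInv F) {v : E m} (hv : v ∈ F) :
    (0 : E m) ∈ F := by
  have := rfix_cut hF h hv Finset.univ
  simpa [← Pi.zero_def] using this

theorem proj_mem_S {F : Set (E m)} (hF : Convex ℝ F) (h : SInv F) {v : E m} (hv : v ∈ F)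
    (j : Fin m) : ((v ⬝ᵥ omB m j) / ((j : ℕ) + 1 : ℝ)) • omB m j ∈ F := by
  have hx := rfix_cut hF h hv (Finset.univ.filter fun i => ¬ i ≤ j)
  obtain ⟨x, hxd⟩ : ∃ x : E m, x = fun i =>
    if i ∈ (Finset.univ.filter fun i : Fin m => ¬ i ≤ j) then 0 else v i := ⟨_, rfl⟩
  rw [← hxd] at hx
  have hx0 : ∀ i, ¬ i ≤ j → x i = 0 := fun i hi => by
    rw [hxd]; simp [not_le.1 hi]
  have hx1 : ∀ i, i ≤ j → x i = v i := fun i hi => by
    rw [hxd]; simp [not_lt.2 hi]
  obtain ⟨H, hne, h1, h2, h3⟩ := rfix_avg (fun i : Fin m => i ≤ j) x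
  have hc : (0 : ℝ) < H.card := by exact_mod_cast hne.card_pos
  have hw := rfix_mem hF hne (fun σ => x ∘ σ) fun σ _ => h.2 σ x hx
  have hS : v ⬝ᵥ omB m j = ∑ s with s ≤ j, x s := by
    rw [Finset.sum_filter, dotProduct]
    refine Finset.sum_congr rfl fun i _ => ?_
    by_cases hi : i ≤ j
    · simp [omB, hi, hx1 i hi]
    · simp [omB, hi]
  have e1 : ∑ s with s ≤ j, ∑ σ ∈ H, x (σ s) = ((j : ℕ) + 1 : ℝ) * ∑ σ ∈ H, x (σ j) := by
    rw [Finset.sum_congr rfl fun s hs => h2 s j (iff_of_true (Finset.mem_filter.1 hs).2 le_rfl),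
      Finset.sum_const, rfix_card, nsmul_eq_mul]
    push_cast; ring
  rw [e1, ← hS] at h3
  have p1 : ((j : ℕ) + 1 : ℝ) ≠ 0 := by positivity
  convert hw using 1
  ext i
  rw [Pi.smul_apply, Pi.smul_apply, Finset.sum_apply, smul_eq_mul, smul_eq_mul]
  simp only [Function.comp]
  by_cases hi : i ≤ j
  · rw [h2 i j (iff_of_true hi le_rfl)]
    simp only [omB, hi, if_true]
    field_simp
    linarith
  · rw [Finset.sum_eq_zero fun σ hσ => hx0 _ fun hh => hi ((h1 σ hσ i).1 hh)]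
    simp [omB, hi]

end Pool.Agent.MP_5f4cdd_gt.W
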