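import Pool.Agent.MP_5f4cdd_gt.RChamA
import Pool.Agent.MP_5f4cdd_gt.RChamB

set_option autoImplicit false
open MeasureTheory ENNReal Set Function Filter Topology Pointwise

namespace Pool.Agent.MP_5f4cdd_gt.W

open PL EF AB

variable {n k m : ℕ}

lemma rfub_vol (e : Fin k ⊕ Fin m ≃ Fin n) {K : Set (E n)} (cK : IsCompact K) :
    Measurable (fun v : E m => volume {u | wpf_j e (u, v) ∈ K}) ∧
      ∫⁻ v : E m, volume {u | wpf_j e (u, v) ∈ K} = volume K := by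
  have hm := (wpf_mp e).measurable cK.measurableSet
  refine ⟨measurable_measure_prodMk_right hm, ?_⟩
  rw [← (wpf_mp e).measure_preimage cK.measurableSet.nullMeasurableSet,
    Measure.prod_apply_symm hm]
  rfl

lemma rfub_exp (e : Fin k ⊕ Fin m ≃ Fin n) {K : Set (E n)} (cK : IsCompact K) (a : E k) :
    Measurable (fun ζ : E m => ∫⁻ ξ, expS (shift e a K) (wpf_j e (ξ, ζ))) ∧
      ∫⁻ ζ : E m, ∫⁻ ξ, expS (shift e a K) (wpf_j e (ξ, ζ)) = ∫⁻ y, expS (shift e a K) y := by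
  have hm : Measurable (expS (shift e a K)) :=
    measurable_expS (isBounded_image_sub cK.isBounded fun i => Sum.elim a 0 (e.symm i))
  have h2 := hm.comp (wpf_mp e).measurable
  refine ⟨h2.lintegral_prod_left', ?_⟩
  rw [← (wpf_mp e).lintegral_comp hm]
  exact (lintegral_prod_symm _ h2.aemeasurable).symm

lemma rfub_le (e : Fin k ⊕ Fin m ≃ Fin n) {K : Set (E n)} (cK : IsCompact K) (hn : K.Nonempty)
    (a ξ : E k) {ζ ζ' : E m}
    (h : ∀ u, ∀ v ∈ fibr e K u, ∃ v' ∈ fibr e K u, v ⬝ᵥ ζ = v' ⬝ᵥ ζ') :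
    suppF (shift e a K) (wpf_j e (ξ, ζ)) ≤ suppF (shift e a K) (wpf_j e (ξ, ζ')) := by
  refine suppF_le (hn.image _) ?_
  rintro _ ⟨x, hx, rfl⟩
  obtain ⟨⟨u, v⟩, rfl⟩ := wpf_surj e x
  obtain ⟨v', hv', hd⟩ := h u v hx
  have h1 := dot_le_suppF (isBounded_image_sub cK.isBounded fun i => Sum.elim a 0 (e.symm i))
    ⟨_, hv', rfl⟩ (wpf_j e (ξ, ζ'))
  simp only [wpf_dot] at h1 ⊢
  rw [hd]
  exact h1

lemma rfub_eq (e : Fin k ⊕ Fin m ≃ Fin n) {K : Set (E n)} (cK : IsCompact K) (hn : K.Nonempty)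
    (a : E k) {ζ ζ' : E m}
    (h : ∀ u, ∀ v ∈ fibr e K u, ∃ v' ∈ fibr e K u, v ⬝ᵥ ζ = v' ⬝ᵥ ζ')
    (h' : ∀ u, ∀ v ∈ fibr e K u, ∃ v' ∈ fibr e K u, v ⬝ᵥ ζ' = v' ⬝ᵥ ζ) :
    ∫⁻ ξ, expS (shift e a K) (wpf_j e (ξ, ζ)) = ∫⁻ ξ, expS (shift e a K) (wpf_j e (ξ, ζ')) := by
  refine lintegral_congr fun ξ => ?_
  rw [expS, expS, le_antisymm (rfub_le e cK hn a ξ h) (rfub_le e cK hn a ξ h')]

lemma rfub_flip (z : E m) (i : Fin m) :
    update (update z i (-z i)) i (-(update z i (-z i)) i) = z := by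
  simp

lemma rfub_flip_dot (v z : E m) (i : Fin m) :
    update v i (-v i) ⬝ᵥ update z i (-z i) = v ⬝ᵥ z := by
  refine Finset.sum_congr rfl fun j _ => ?_
  by_cases hj : j = i
  · subst hj
    simp
  · simp [hj]

lemma rfub_perm_dot (σ : Equiv.Perm (Fin m)) (v z : E m) : (v ∘ σ) ⬝ᵥ (z ∘ σ) = v ⬝ᵥ z :=
  Equiv.sum_comp σ fun i => v i * z i

lemma rfub_perm_inv (σ : Equiv.Perm (Fin m)) (v : E m) : (v ∘ σ) ∘ σ.symm = v := by
  ext i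
  simp

theorem vol_T (e : Fin k ⊕ Fin m ≃ Fin n) {K : Set (E n)} (cK : IsCompact K)
    (h : ∀ u, TInv (fibr e K u)) :
    (m.factorial : ℝ≥0∞) * ∫⁻ r in orth m, volume {u | wpf_j e (u, comb (om m) r) ∈ K} ≤
      volume K := by
  obtain ⟨h1, h2⟩ := rfub_vol e cK
  rw [← h2]
  refine cham_A h1 fun σ z => ?_
  congr 1
  ext u
  refine ⟨fun hu => ?_, fun hu => h u σ z hu⟩
  have := h u σ⁻¹ _ hu
  rwa [Tp_Tp, mul_inv_cancel, Tp_one] at this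

theorem exp_T (e : Fin k ⊕ Fin m ≃ Fin n) {K : Set (E n)} (cK : IsCompact K) (hn : K.Nonempty)
    (h : ∀ u, TInv (fibr e K u)) (a : E k) :
    ((m + 1).factorial : ℝ≥0∞) * ∫⁻ r in orth m, ∫⁻ ξ, expS (shift e a K)
      (wpf_j e (ξ, comb (fun j => Gam m (om m j)) r)) ≤ ∫⁻ y, expS (shift e a K) y := by
  obtain ⟨h1, h2⟩ := rfub_exp e cK a
  rw [← h2]
  refine cham_A' h1 fun σ z => rfub_eq e cK hn a (fun u v hv => ?_) fun u v hv => ?_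
  · refine ⟨_, h u σ⁻¹ v hv, ?_⟩
    rw [← dot_Gam_Tp σ (Tp σ⁻¹ v) z, Tp_Tp, inv_mul_cancel, Tp_one]
  · exact ⟨_, h u σ v hv, (dot_Gam_Tp σ v z).symm⟩

theorem vol_S (e : Fin k ⊕ Fin m ≃ Fin n) {K : Set (E n)} (cK : IsCompact K)
    (h : ∀ u, SInv (fibr e K u)) :
    (2 ^ m * m.factorial : ℝ≥0∞) * ∫⁻ r in orth m,
      volume {u | wpf_j e (u, comb (omB m) r) ∈ K} ≤ volume K := by
  obtain ⟨h1, h2⟩ := rfub_vol e cK
  rw [← h2]
  refine cham_B h1 (fun z i => ?_) fun σ z => ?_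
  · congr 1
    ext u
    refine ⟨fun hu => ?_, fun hu => (h u).1 z hu i⟩
    have := (h u).1 _ hu i
    rwa [rfub_flip] at this
  · congr 1
    ext u
    refine ⟨fun hu => ?_, fun hu => (h u).2 σ z hu⟩
    have := (h u).2 σ.symm _ hu
    rwa [rfub_perm_inv] at this

theorem exp_S (e : Fin k ⊕ Fin m ≃ Fin n) {K : Set (E n)} (cK : IsCompact K) (hn : K.Nonempty)
    (h : ∀ u, SInv (fibr e K u)) (a : E k) :
    (2 ^ m * m.factorial : ℝ≥0∞) * ∫⁻ r in orth m, ∫⁻ ξ, expS (shift e a K)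
      (wpf_j e (ξ, comb (omB m) r)) ≤ ∫⁻ y, expS (shift e a K) y := by
  obtain ⟨h1, h2⟩ := rfub_exp e cK a
  rw [← h2]
  refine cham_B h1 (fun z i => rfub_eq e cK hn a (fun u v hv => ?_) fun u v hv => ?_)
    fun σ z => rfub_eq e cK hn a (fun u v hv => ?_) fun u v hv => ?_
  · refine ⟨_, (h u).1 v hv i, ?_⟩
    rw [← rfub_flip_dot v _ i, rfub_flip]
  · exact ⟨_, (h u).1 v hv i, (rfub_flip_dot v z i).symm⟩
  · refine ⟨_, (h u).2 σ.symm v hv, ?_⟩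
    rw [← rfub_perm_dot σ.symm v, rfub_perm_inv]
  · exact ⟨_, (h u).2 σ v hv, (rfub_perm_dot σ v z).symm⟩

end Pool.Agent.MP_5f4cdd_gt.W
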