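import Pool.Agent.MP_5f4cdd_gt.RClass
import Pool.Agent.MP_5f4cdd_gt.RFar
import Pool.Agent.MP_5f4cdd_gt.RConv

set_option autoImplicit false
open MeasureTheory ENNReal Set Function Filter Topology Pointwise

namespace Pool.Agent.MP_5f4cdd_gt.W

open PL EF AB

theorem far_r (n : ℕ) {ε : ℝ} (hε : 0 < ε) : ∃ c : ℝ, 0 < c ∧ ∀ K : Set (E n), RCls K →
    Body K ∧ AB.Good ε (ENNReal.ofReal (1 + c) * mahlerInf (cS n 1)) K := by
  obtain ⟨εA, κ, hεA, hκ, hA⟩ := local_inf n
  obtain ⟨c₀, hc₀, hgap⟩ := gap_all n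
  set m := mahlerInf (cS n 1) with hm
  have hmt : m ≠ ∞ := mahlerInf_cS_lt_top.ne
  set ε' := min εA (1 / 2) with hε'
  have hε'0 : 0 < ε' := by positivity
  have hε'1 : ε' < 1 := (min_le_right _ _).trans_lt (by norm_num)
  obtain ⟨ε₁, hε₁, hpol⟩ := polar_near' n (C := (1 + κ) * m.toReal + 1) (by positivity) hε'0 hε'1
  set ε₃ := min (min ε (ε' / 2)) ε₁ with hε₃
  have hε₃0 : 0 < ε₃ := by positivity
  have h3' : ε₃ < ε' := ((min_le_left _ _).trans (min_le_right _ _)).trans_lt (by linarith)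
  have h31 := h3'.trans hε'1
  obtain ⟨c₂, hc₂, hw⟩ := far_w n hε₃0
  obtain ⟨c₄, hc₄, hr⟩ := far_refl (n := n) ε₃ hε₃0
  set c₁ := min c₂ c₄ with hc₁def
  have hc₁ : 0 < c₁ := by positivity
  set c := min (min c₁ c₀) (κ * ε₃) with hc
  have hc0 : 0 < c := by positivity
  have hc1 : c ≤ c₁ := (min_le_left _ _).trans (min_le_left _ _)
  have hc3 : c ≤ c₀ := (min_le_left _ _).trans (min_le_right _ _)
  have hc2 : c ≤ κ * ε₃ := min_le_right _ _
  set μ := ENNReal.ofReal (1 + c) * m with hμ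
  have moat : Moat n ε₃ ε' μ := by
    intro K hK hKc hKi hM hN
    obtain ⟨a, ha⟩ := iInf_lt_iff.1 hM
    rw [← near_sub_iff h31 K a]
    rw [← near_sub_iff hε'1 K a] at hN
    obtain ⟨e, he1, he2⟩ := hN.mono (min_le_left _ _)
    obtain ⟨e', h1, h2⟩ := hA _ (convex_image_sub hK a) (isCompact_image_sub hKc a)
      (interior_image_sub hKi a) e he1 he2
    refine ⟨e', h1, ?_⟩
    by_contra hc
    push Not at hc
    rw [← div_lt_iff₀ (toReal_simplex_pos e')] at hc
    refine absurd ha (not_lt.2 (le_trans ?_ h2))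
    exact mul_le_mul_left (ENNReal.ofReal_le_ofReal (by nlinarith)) _
  have hpol' : ∀ K : Set (E n), Convex ℝ K → IsCompact K → 0 ∈ interior K →
      mahlerInf K < μ → EF.Near ε₃ K → EF.Near ε' (polarS K) := by
    intro K hK hKc h0 h1 hN
    refine hpol K hK hKc h0 (hN.mono (min_le_right _ _)) ?_
    have h2 : volume K * volume (polarS K) ≤ ENNReal.ofReal (1 + κ) * m := by
      refine le_trans ?_ (h1.le.trans
        (mul_le_mul_left (ENNReal.ofReal_le_ofReal (by nlinarith)) _))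
      rw [mahlerInf_polar hKc.isBounded (interior_subset h0)]
      exact le_mul_of_one_le_left' (by exact_mod_cast n.factorial_pos)
    have h3 := ENNReal.toReal_mono (ENNReal.mul_ne_top ENNReal.ofReal_ne_top hmt) h2
    rw [ENNReal.toReal_mul, ENNReal.toReal_mul, ENNReal.toReal_ofReal (by positivity)] at h3
    linarith
  have hw' : ∀ L : Set (E n), WGen L → Body L ∧ AB.Good ε₃ μ L := fun L hL =>
    ⟨(hw L hL).1, fun hi hM => (hw L hL).2 hi (hM.trans_le (mul_le_mul_left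
      (ENNReal.ofReal_le_ofReal (by linarith [min_le_left c₂ c₄])) _))⟩
  have hr' : ∀ L : Set (E n), (∃ g A B, BlkR g A B ∧ Refl g A B L) →
      Body L ∧ AB.Good ε₃ μ L := fun L hL =>
    ⟨(hr L hL).1, fun hi hM => (hr L hL).2 hi (hM.trans_le (mul_le_mul_left
      (ENNReal.ofReal_le_ofReal (by linarith [min_le_right c₂ c₄])) _))⟩
  have hr'' : ∀ L : Set (E n), Body L → (∃ (g : Fin n → Fin 3) (A B : Set (Fin 3))
      (f : E n ≃ᵃ[ℝ] E n), BlkR g A B ∧ Refl g A B (f '' L)) → Body L ∧ AB.Good ε₃ μ L := by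
    rintro L hL ⟨g, A, B, f, h1, h2⟩
    have := (hr' _ ⟨g, A, B, h1, h2⟩).2.image h31 f.symm
    rw [image_image] at this
    exact ⟨hL, by simpa using this⟩
  have hlow : ∀ K : Set (E n), Body K → AB.Good ε₃ μ K → m ≤ mstarInf K := by
    intro K hK hG
    by_cases hM : mstarInf K < μ
    · refine le_iInf fun a => ?_
      have hN := (hG hK.int hM).mono (h3'.le.trans (min_le_left _ _))
      have hN' : EF.Near ε' ((fun z => z - a) '' K) :=
        (near_sub_iff hε'1 K a).2 ((hG hK.int hM).mono h3'.le)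
      obtain ⟨e, he1, he2⟩ := hN'.mono (min_le_left _ _)
      obtain ⟨e', h1, h2⟩ := hA _ (convex_image_sub hK.conv a) (isCompact_image_sub hK.comp a)
        (interior_image_sub hK.int a) e he1 he2
      refine le_trans (le_mul_of_one_le_left' ?_) h2
      have hSt : volume (e' '' stdS n) ≠ ∞ := by
        rw [volume_image_affine, volume_stdS]
        exact ENNReal.mul_ne_top ENNReal.ofReal_ne_top (volume_cS_lt_top zero_le_one).ne
      have hw : 0 ≤ 1 - (volume ((fun z => z - a) '' K)).toReal /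
          (volume (e' '' stdS n)).toReal := sub_nonneg.2
        (div_le_one_of_le₀ (ENNReal.toReal_mono hSt (measure_mono h1)) ENNReal.toReal_nonneg)
      rw [← ENNReal.ofReal_one]
      exact ENNReal.ofReal_le_ofReal (by nlinarith)
    · refine le_trans (le_mul_of_one_le_left' ?_) (not_lt.1 hM)
      rw [← ENNReal.ofReal_one]
      exact ENNReal.ofReal_le_ofReal (by linarith)
  suffices h : ∀ K : Set (E n), RCls K → Body K ∧ AB.Good ε₃ μ K from
    ⟨c, hc0, fun K hK => ⟨(h K hK).1, fun hi hM => ((h K hK).2 hi hM).mono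
      ((min_le_left _ _).trans (min_le_left _ _))⟩⟩
  intro K hK
  induction hK with
  | perm K I hn hK h => exact hr'' K ⟨hK.1, hK.2.1, hK.2.2⟩ (refl_of_perm hn ⟨hK.1, hK.2.1, hK.2.2⟩ I h)
  | face K J hn hK h => exact hr'' K ⟨hK.1, hK.2.1, hK.2.2⟩ (refl_of_face hn ⟨hK.1, hK.2.1, hK.2.2⟩ J h)
  | wedge K g C hK hs ho hKC => exact hw' K (WGen.wedge K g C hK.1 hK.2.1 hK.2.2 hs ho hKC)
  | refl K g hK hs ho h =>
    refine hr' K ⟨g, {j | j ≠ 0 ∧ AInv g j K}, {j | j ≠ 0 ∧ BInv g j K},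
      ⟨hs, fun h => h.1 rfl, fun h => h.1 rfl, fun i i' e h1 h2 => ?_⟩,
      ⟨hK.1, hK.2.1, hK.2.2⟩, fun j hj => hj.2, fun j hj => hj.2⟩
    by_cases h0 : g i = 0
    · exact ho i i' h0 (e ▸ h0)
    · rcases h (g i) with h | h | h
      · exact h i i' rfl e.symm
      · exact absurd ⟨h0, h⟩ h1
      · exact absurd ⟨h0, h⟩ h2
  | norm k m' e B τ S hK hS hu hτ _ ih =>
    refine ⟨⟨hK.1, hK.2.1, hK.2.2⟩, good_norm (c₀ := c₀) h3' hε'1 moat
      (mul_le_mul_left (ENNReal.ofReal_le_ofReal (by linarith)) _) hlow e hτ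
      ⟨hS.1, hS.2.1, hS.2.2⟩ hu
      (fun h1 => hgap (m' + 1) (by omega) ?_ S ⟨hS.1, hS.2.1, hS.2.2⟩ hu) ih.1 ih.2
      ⟨hK.1, hK.2.1, hK.2.2⟩⟩
    have := Fintype.card_congr e
    simp only [Fintype.card_sum, Fintype.card_fin] at this
    omega
  | image K e _ ih =>
    exact ⟨⟨ih.1.conv.affine_image e.toAffineMap, ih.1.comp.image e.continuous_of_finiteDimensional,
      (interior_affine e K).2 ih.1.int⟩, ih.2.image h31 e⟩
  | fibre K L i _ _ hs ihK ihL =>
    have hs' : sc i 0 '' K = sc i 0 '' L := by simpa [sc_apply] using hs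
    have e : {x : E n | ∃ s t : ℝ, update x i s ∈ K ∧ update x i t ∈ L ∧ x i = s + t} =
        AB.φ i 1 1 '' AB.Zs i K L := by ext x; simp only [mem_fib, one_mul, mem_ofPred_eq]
    rw [e]
    exact ⟨body_fib ihK.1 ihL.1 hs' zero_le_one zero_le_one (Or.inl one_pos),
      Good.fib h3' hε'1 moat ihK.1 ihL.1 hs' ihK.2 ihL.2⟩
  | polar K _ hc ih =>
    have h0 := zero_mem_of_centroid ih.1 hc
    have hB := body_polar ih.1 h0
    refine ⟨hB, fun hi hM => moat _ hB.conv hB.comp hi hM ?_⟩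
    have h1 := (mahlerInf_le_mstarInf_polar ih.1 hc).trans_lt hM
    exact hpol' K ih.1.conv ih.1.comp h0 h1 (ih.2 ih.1.int (lt_of_le_of_lt
      ((iInf_le _ 0).trans (by simp)) h1))
  | limit K L hK _ ht ih =>
    exact ⟨⟨hK.1, hK.2.1, hK.2.2⟩, Good.lim h3' hε'1 moat ⟨hK.1, hK.2.1, hK.2.2⟩
      (fun j => (ih j).1) (fun j => (ih j).2) ht⟩

theorem r_main (n : ℕ) : ∃ p₀ κ : ℝ, 0 < p₀ ∧ 0 < κ ∧ ∀ K : Set (Fin n → ℝ), RCls K →
      ∃ e : AffineEquiv ℝ (Fin n → ℝ) (Fin n → ℝ), K ⊆ e '' stdS n ∧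
        (∀ p : ℝ, p₀ ≤ p →
          ENNReal.ofReal (1 + κ * (1 - (volume K).toReal / (volume (e '' stdS n)).toReal)) *
            (⨅ x ∈ stdS n, mahler p ((fun z => z - x) '' stdS n)) ≤ mahler p K) ∧
        ENNReal.ofReal (1 + κ * (1 - (volume K).toReal / (volume (e '' stdS n)).toReal)) *
          (⨅ x ∈ stdS n, mahlerInf ((fun z => z - x) '' stdS n)) ≤ mahlerInf K := by
  obtain ⟨p₁, ε, κ, hp₁, hε, hκ, h⟩ := local_unif_both n
  obtain ⟨c, hc, hfar⟩ := far_r n hε
  obtain ⟨p₂, hp₂⟩ := eventually_atTop.1 (mahler_cS_le_inf (n := n) (η := c / (2 + c))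
    (by positivity))
  refine ⟨max p₁ p₂, min κ (c / 2), lt_max_of_lt_left hp₁, by positivity, fun K hK => ?_⟩
  obtain ⟨⟨hKc, hKk, hKi⟩, hG⟩ := hfar K hK
  rw [iInfInf_eq]
  have hw : ∀ e : AffineEquiv ℝ (E n) (E n), K ⊆ e '' stdS n →
      0 ≤ 1 - (volume K).toReal / (volume (e '' stdS n)).toReal := by
    intro e he
    have hSt : volume (e '' stdS n) ≠ ∞ := by
      rw [volume_image_affine, volume_stdS]
      exact ENNReal.mul_ne_top ENNReal.ofReal_ne_top (volume_cS_lt_top zero_le_one).ne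
    exact sub_nonneg.2
      (div_le_one_of_le₀ (ENNReal.toReal_mono hSt (measure_mono he)) ENNReal.toReal_nonneg)
  by_cases hn : EF.Near ε K
  · obtain ⟨e, hKe, hv⟩ := hn
    obtain ⟨e', h1, h2, h3⟩ := h K hKc hKk hKi e hKe hv
    have h4 : ENNReal.ofReal
        (1 + min κ (c / 2) * (1 - (volume K).toReal / (volume (e' '' stdS n)).toReal)) ≤
        ENNReal.ofReal (1 + κ * (1 - (volume K).toReal / (volume (e' '' stdS n)).toReal)) :=
      ENNReal.ofReal_le_ofReal (by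
        linarith [mul_le_mul_of_nonneg_right (min_le_left κ (c / 2)) (hw e' h1)])
    refine ⟨e', h1, fun p hp => ?_, (mul_le_mul_left h4 _).trans h3⟩
    have hp1 := (le_max_left _ _).trans hp
    rw [iInf_eq (hp₁.trans_le hp1)]
    exact (mul_le_mul_left h4 _).trans (h2 p hp1)
  · have h1 : ENNReal.ofReal (1 + c) * mahlerInf (cS n 1) ≤ mahlerInf K :=
      (not_lt.1 fun hM => hn (hG hKi hM)).trans ((iInf_le _ 0).trans (by simp))
    obtain ⟨e, he⟩ := exists_simplex_superset hKk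
    have h2 : 1 + min κ (c / 2) * (1 - (volume K).toReal / (volume (e '' stdS n)).toReal) ≤
        1 + c / 2 := by
      have h3 : 0 ≤ (volume K).toReal / (volume (e '' stdS n)).toReal := by positivity
      nlinarith [mul_le_mul_of_nonneg_right (min_le_right κ (c / 2)) (hw e he)]
    refine ⟨e, he, fun p hp => ?_,
      (mul_le_mul_left (ENNReal.ofReal_le_ofReal (by linarith)) _).trans h1⟩
    have hp0 := hp₁.trans_le ((le_max_left _ _).trans hp)
    rw [iInf_eq hp0]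
    refine le_trans (mul_le_mul' (ENNReal.ofReal_le_ofReal h2)
      (hp₂ p ((le_max_right _ _).trans hp))) (le_trans (le_of_eq ?_)
        (h1.trans (mahlerInf_le_mahler hKk hKi hp0)))
    rw [← mul_assoc, ← ENNReal.ofReal_mul (by positivity)]
    congr 2
    field_simp
    ring

end Pool.Agent.MP_5f4cdd_gt.W
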