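import Pool.Agent.MP_5f4cdd_gt.WBase

set_option autoImplicit false
open MeasureTheory ENNReal Set Function Filter Topology Pointwise

namespace Pool.Agent.MP_5f4cdd_gt.W

open PL EF AB

variable {n : ℕ} {ι κ : Type} {g : Fin n → Fin 3}

lemma wsym_bs_comp {σ : Equiv.Perm (Fin n)} (hσ : g ∘ σ = g) (u : E n) :
    bs g (u ∘ σ) = bs g u := by
  ext j
  rw [bs_apply, bs_apply]
  refine Finset.sum_equiv σ (fun i => ?_) fun i _ => rfl
  simp only [Finset.mem_filter, Finset.mem_univ, true_and]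
  rw [show g (σ i) = g i from congrFun hσ i]

lemma wsym_symm {σ : Equiv.Perm (Fin n)} (hσ : g ∘ σ = g) : g ∘ σ.symm = g := by
  ext i
  have := congrFun hσ (σ.symm i)
  simp only [comp_apply, Equiv.apply_symm_apply] at this ⊢
  rw [this]

lemma wsym_pb_comp {σ : Equiv.Perm (Fin n)} (hσ : g ∘ σ = g) (w : E 3) :
    pb g w ∘ σ = pb g w := by
  ext i
  simp only [comp_apply, pb_apply]
  rw [show g (σ i) = g i from congrFun hσ i]

lemma wsym_dv_comp {σ : Equiv.Perm (Fin n)} (hσ : g ∘ σ = g) (k : Fin n) :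
    dv g k ∘ σ = dv g (σ.symm k) := by
  ext i
  simp only [comp_apply, dv]
  rw [show g (σ i) = g i from congrFun hσ i,
    show g (σ.symm k) = g k from congrFun (wsym_symm hσ) k]
  simp only [Equiv.eq_symm_apply]

lemma wsym_const (hg : Surjective g) {v : E n} (h : ∀ k k', g k = g k' → v k = v k') :
    up g (bs g v) = v := by
  ext k
  rw [up_apply, bs_apply, Finset.sum_congr rfl (g := fun _ => v k) fun i hi =>
    h i k (Finset.mem_filter.1 hi).2, Finset.sum_const, nsmul_eq_mul]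
  exact mul_div_cancel_left₀ _ (bN_pos hg _).ne'

theorem convex_sublevel {K : Set (E n)} (hb : Bornology.IsBounded K) (hn : K.Nonempty)
    (v : ℝ≥0∞) : Convex ℝ {c : E n | mahlerInf ((fun z => z - c) '' K) ≤ v} := by
  intro c1 h1 c2 h2 a b ha hb' hab
  simp only [mem_ofPred_eq, PL.mahlerInf_eq, volume_sub, expS_image_sub hb hn] at h1 h2 ⊢
  have hm : ∀ c : E n, Measurable fun y => expS K y * ENNReal.ofReal (Real.exp (c ⬝ᵥ y)) :=
    fun c => (measurable_expS hb).mul (ENNReal.measurable_ofReal.comp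
      (Real.continuous_exp.comp (continuous_const.dotProduct continuous_id)).measurable)
  have key : ∫⁻ y, expS K y * ENNReal.ofReal (Real.exp ((a • c1 + b • c2) ⬝ᵥ y)) ≤
      ENNReal.ofReal a * (∫⁻ y, expS K y * ENNReal.ofReal (Real.exp (c1 ⬝ᵥ y))) +
        ENNReal.ofReal b * ∫⁻ y, expS K y * ENNReal.ofReal (Real.exp (c2 ⬝ᵥ y)) := by
    rw [← lintegral_const_mul _ (hm c1), ← lintegral_const_mul _ (hm c2),
      ← lintegral_add_left ((hm c1).const_mul _)]
    refine lintegral_mono fun y => ?_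
    have h := convexOn_exp.2 (mem_univ (c1 ⬝ᵥ y)) (mem_univ (c2 ⬝ᵥ y)) ha hb' hab
    simp only [smul_eq_mul] at h
    rw [mul_left_comm, mul_left_comm (ENNReal.ofReal b), ← mul_add, ← ENNReal.ofReal_mul ha,
      ← ENNReal.ofReal_mul hb', ← ENNReal.ofReal_add (by positivity) (by positivity),
      add_dotProduct, smul_dotProduct, smul_dotProduct, smul_eq_mul, smul_eq_mul]
    exact mul_le_mul_right (ENNReal.ofReal_le_ofReal h) _
  refine (mul_le_mul_right key _).trans ?_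
  rw [mul_add, mul_left_comm, mul_left_comm _ (ENNReal.ofReal b)]
  refine (add_le_add (mul_le_mul_right h1 _) (mul_le_mul_right h2 _)).trans_eq ?_
  rw [← add_mul, ← ENNReal.ofReal_add ha hb', hab, ENNReal.ofReal_one, one_mul]

theorem mahlerInf_avg_le (hg : Surjective g) {K : Set (E n)} (hb : Bornology.IsBounded K)
    (hn : K.Nonempty) (hσ : ∀ σ : Equiv.Perm (Fin n), g ∘ σ = g → ∀ u ∈ K, u ∘ σ ∈ K) (c : E n) :
    mahlerInf ((fun z => z - up g (bs g c)) '' K) ≤ mahlerInf ((fun z => z - c) '' K) := by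
  classical
  have h1 : ∀ σ : Equiv.Perm (Fin n), g ∘ σ = g →
      mahlerInf ((fun z => z - c ∘ σ) '' K) = mahlerInf ((fun z => z - c) '' K) := by
    intro σ h
    let T : E n ≃ₗ[ℝ] E n := LinearEquiv.funCongrLeft ℝ ℝ σ
    rw [← mahlerInf_image_lin (T : E n →ₗ[ℝ] E n) T.isUnit_det'.ne_zero ((fun z => z - c) '' K)]
    congr 1
    ext w
    constructor
    · rintro ⟨u, hu, rfl⟩
      refine ⟨u ∘ σ.symm - c, ⟨u ∘ σ.symm, hσ _ (wsym_symm h) u hu, rfl⟩, ?_⟩
      ext i
      simp [T]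
    · rintro ⟨_, ⟨u, hu, rfl⟩, rfl⟩
      exact ⟨u ∘ σ, hσ σ h u hu, rfl⟩
  set G := Finset.univ.filter fun σ : Equiv.Perm (Fin n) => g ∘ σ = g with hG
  have hGm : ∀ σ, σ ∈ G ↔ g ∘ σ = g := fun σ => by simp [hG]
  have hc : (G.card : ℝ) ≠ 0 :=
    Nat.cast_ne_zero.2 (Finset.card_pos.2 ⟨1, (hGm 1).2 rfl⟩).ne'
  have h2 := (convex_sublevel hb hn (mahlerInf ((fun z => z - c) '' K))).sum_mem (t := G)
    (w := fun _ => (G.card : ℝ)⁻¹) (z := fun σ => c ∘ σ) (fun _ _ => by positivity)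
    (by rw [Finset.sum_const, nsmul_eq_mul, mul_inv_cancel₀ hc])
    (fun σ h => (h1 σ ((hGm σ).1 h)).le)
  have h3 : bs g (∑ σ ∈ G, (G.card : ℝ)⁻¹ • c ∘ σ) = bs g c := by
    rw [map_sum, Finset.sum_congr rfl (g := fun _ => (G.card : ℝ)⁻¹ • bs g c) fun σ h => by
      rw [map_smul, wsym_bs_comp ((hGm σ).1 h)]]
    rw [Finset.sum_const, ← Nat.cast_smul_eq_nsmul ℝ, smul_smul, mul_inv_cancel₀ hc, one_smul]
  have h4 := wsym_const hg (v := ∑ σ ∈ G, (G.card : ℝ)⁻¹ • c ∘ σ) fun k k' hk => by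
    have hs : g ∘ Equiv.swap k k' = g := by
      ext i
      simp only [comp_apply, Equiv.swap_apply_def]
      split_ifs with e1 e2
      · rw [e1, hk]
      · rw [e2, hk]
      · rfl
    simp only [Finset.sum_apply, Pi.smul_apply, comp_apply]
    refine Finset.sum_equiv (Equiv.mulRight (Equiv.swap k k')) (fun σ => ?_) fun σ _ => by simp
    rw [hGm, hGm, Equiv.coe_mulRight, Equiv.Perm.coe_mul, ← comp_assoc]
    refine ⟨fun h => by rw [h, hs], fun h => ?_⟩
    funext i
    have h' := (congrFun h (Equiv.swap k k' i)).trans (congrFun hs i)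
    simpa using h'
  rw [h3] at h4
  rw [h4]
  exact h2

lemma wsym_centre {τ : Type} [Finite τ] (hg : Surjective g) (L : τ → E n)
    (hL : ∀ σ : Equiv.Perm (Fin n), g ∘ σ = g → ∀ t, ∃ t', L t' = L t ∘ σ) {μ : ℝ≥0∞}
    (hi : (interior (convexHull ℝ (range L))).Nonempty)
    (hM : mstarInf (convexHull ℝ (range L)) < μ) :
    ∃ z : E 3, up g z ∈ interior (convexHull ℝ (range L)) ∧
      mahlerInf ((fun u => u - up g z) '' convexHull ℝ (range L)) < μ := by
  obtain ⟨c, hc⟩ := iInf_lt_iff.1 hM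
  have hb : Bornology.IsBounded (convexHull ℝ (range L)) :=
    isBounded_convexHull.2 (finite_range L).isBounded
  have h := (mahlerInf_avg_le hg hb (hi.mono interior_subset) (fun σ hσ u hu => by
    refine convexHull_min (t := (LinearMap.funLeft ℝ ℝ σ) ⁻¹' convexHull ℝ (range L)) ?_
      ((convex_convexHull ℝ _).linear_preimage _) hu
    rintro _ ⟨t, rfl⟩
    exact subset_convexHull ℝ _ (hL σ hσ t)) c).trans_lt hc
  exact ⟨bs g c, mem_interior_of_ne_top (convex_convexHull ℝ _) hb hi h.ne_top, h⟩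

lemma wsym_int {τ : Type} (L : τ → E n) (x : ι → E 3) (A : E 3 →ₗ[ℝ] E n) (B : E n →ₗ[ℝ] E 3)
    (hAB : ∀ c, B (A c) = c) (hB : ∀ t, ∃ i, x i = B (L t)) {c : E 3}
    (hc : A c ∈ interior (convexHull ℝ (range L))) : c ∈ interior (convexHull ℝ (range x)) := by
  have h1 : convexHull ℝ (range L) ⊆ B ⁻¹' convexHull ℝ (range x) := by
    refine convexHull_min ?_ ((convex_convexHull ℝ _).linear_preimage _)
    rintro _ ⟨t, rfl⟩
    exact subset_convexHull ℝ _ (hB t)
  rw [mem_interior_iff_mem_nhds] at hc ⊢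
  refine mem_of_superset (A.continuous_of_finiteDimensional.continuousAt.preimage_mem_nhds hc)
    fun z hz => ?_
  have := h1 hz
  rwa [mem_preimage, hAB] at this

theorem centre_LXc [Finite ι] (hg : Surjective g) (x : ι → E 3) (s : ι → Fin 3 → ℝ) {μ : ℝ≥0∞}
    (hi : (interior (convexHull ℝ (range (LXc g x s)))).Nonempty)
    (hM : mstarInf (convexHull ℝ (range (LXc g x s))) < μ) :
    ∃ c ∈ interior (convexHull ℝ (range x)),
      mahlerInf ((fun z => z - up g c) '' convexHull ℝ (range (LXc g x s))) < μ := by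
  obtain ⟨z, h1, h2⟩ := wsym_centre hg _ (fun σ hσ t => by
    refine ⟨(t.1, fun j => ⟨σ.symm (t.2 j), (congrFun (wsym_symm hσ) _).trans (t.2 j).2⟩), ?_⟩
    ext i
    simp only [LXc, comp_apply, Pi.add_apply, Finset.sum_apply, Pi.smul_apply,
      ← wsym_dv_comp hσ, up_eq_pb]
    rw [← wsym_pb_comp hσ, comp_apply, wsym_pb_comp hσ]) hi hM
  exact ⟨z, wsym_int _ x (up g) (bs g) (bs_up hg) (fun t => ⟨t.1, (bs_LXc hg x s t).symm⟩) h1, h2⟩

theorem centre_LY [Finite κ] (hg : Surjective g) (y : κ → E 3) (m : Fin 3 → κ) (ρ : Fin 3 → ℝ)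
    {μ : ℝ≥0∞} (hi : (interior (convexHull ℝ (range (LY g y m ρ)))).Nonempty)
    (hM : mstarInf (convexHull ℝ (range (LY g y m ρ))) < μ) :
    ∃ c ∈ interior (convexHull ℝ (range y)),
      mahlerInf ((fun z => z - pb g c) '' convexHull ℝ (range (LY g y m ρ))) < μ := by
  obtain ⟨z, h1, h2⟩ := wsym_centre hg _ (fun σ hσ t => by
    rcases t with j | k
    · exact ⟨.inl j, (wsym_pb_comp hσ _).symm⟩
    · refine ⟨.inr (σ.symm k), ?_⟩
      ext i
      simp only [LY, Sum.elim_inr, comp_apply, Pi.sub_apply, Pi.smul_apply,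
        ← wsym_dv_comp hσ, show g (σ.symm k) = g k from congrFun (wsym_symm hσ) k]
      rw [← wsym_pb_comp hσ, comp_apply, wsym_pb_comp hσ]) hi hM
  let B : E n →ₗ[ℝ] E 3 :=
    { toFun := fun V j => bs g V j / bN g j
      map_add' := fun u v => by ext j; simp [add_div]
      map_smul' := fun c u => by ext j; simp [mul_div_assoc] }
  have hB : ∀ c, B (pb g c) = c := fun c => by
    ext j
    change bs g (pb g c) j / bN g j = c j
    rw [bs_pb, mul_div_cancel_left₀ _ (bN_pos hg j).ne']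
  have hd : ∀ k, B (dv g k) = 0 := fun k => by
    ext j
    change bs g (dv g k) j / bN g j = 0
    rw [bs_dv, Pi.zero_apply, zero_div]
  refine ⟨fun j => z j / bN g j, wsym_int _ y (pb g) B hB (fun t => ?_) h1, h2⟩
  rcases t with j | k
  · exact ⟨j, (hB _).symm⟩
  · exact ⟨m (g k), by simp [LY, hB, hd]⟩

end Pool.Agent.MP_5f4cdd_gt.W
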