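import Pool.Agent.MP_5f4cdd_gt.RFix
import Pool.Agent.MP_5f4cdd_gt.WSym

set_option autoImplicit false
open MeasureTheory ENNReal Set Function Filter Topology Pointwise

namespace Pool.Agent.MP_5f4cdd_gt.W

open PL EF AB

variable {n k m : ℕ}

/-- the lift of a linear map of the fibre coordinates -/
noncomputable def rmid_lift (e : Fin k ⊕ Fin m ≃ Fin n) (T : E m →ₗ[ℝ] E m) : E n →ₗ[ℝ] E n where
  toFun x := wpf_j e (fun i => x (e (Sum.inl i)), T fun j => x (e (Sum.inr j)))
  map_add' x y := by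
    ext i
    obtain ⟨c, rfl⟩ := e.surjective i
    have : (fun j => (x + y) (e (Sum.inr j))) =
        (fun j => x (e (Sum.inr j))) + fun j => y (e (Sum.inr j)) := rfl
    cases c with
    | inl a => simp [wpf_j]
    | inr a => rw [this, map_add]; simp [wpf_j]
  map_smul' a x := by
    ext i
    obtain ⟨c, rfl⟩ := e.surjective i
    have : (fun j => (a • x) (e (Sum.inr j))) = a • fun j => x (e (Sum.inr j)) := rfl
    cases c with
    | inl b => simp [wpf_j]
    | inr b => rw [this, map_smul]; simp [wpf_j]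

lemma rmid_lift_wpf (e : Fin k ⊕ Fin m ≃ Fin n) (T : E m →ₗ[ℝ] E m) (u : E k) (v : E m) :
    rmid_lift e T (wpf_j e (u, v)) = wpf_j e (u, T v) := by
  change wpf_j e (fun i => wpf_j e (u, v) (e (Sum.inl i)),
    T fun j => wpf_j e (u, v) (e (Sum.inr j))) = _
  simp only [wpf_j_inl, wpf_j_inr]

lemma rmid_step (e : Fin k ⊕ Fin m ≃ Fin n) {K : Set (E n)} (T T' : E m →ₗ[ℝ] E m)
    (h1 : ∀ v, T (T' v) = v) (hT : ∀ u, ∀ v ∈ fibr e K u, T v ∈ fibr e K u)
    (hT' : ∀ u, ∀ v ∈ fibr e K u, T' v ∈ fibr e K u) (u : E k) (v : E m) :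
    mahlerInf ((fun z => z - wpf_j e (u, T v)) '' K) =
      mahlerInf ((fun z => z - wpf_j e (u, v)) '' K) := by
  have hs : Surjective (rmid_lift e T) := fun x => by
    obtain ⟨⟨a, b⟩, rfl⟩ := wpf_surj e x
    exact ⟨wpf_j e (a, T' b), by rw [rmid_lift_wpf, h1]⟩
  have hd : LinearMap.det (rmid_lift e T) ≠ 0 := by
    have hi : Injective (rmid_lift e T) := LinearMap.injective_iff_surjective.2 hs
    exact (LinearEquiv.ofBijective _ ⟨hi, hs⟩).isUnit_det'.ne_zero
  have hK : rmid_lift e T '' K = K := by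
    ext x
    constructor
    · rintro ⟨y, hy, rfl⟩
      obtain ⟨⟨a, b⟩, rfl⟩ := wpf_surj e y
      rw [rmid_lift_wpf]
      exact hT a b hy
    · intro hx
      obtain ⟨⟨a, b⟩, rfl⟩ := wpf_surj e x
      exact ⟨wpf_j e (a, T' b), hT' a b hx, by rw [rmid_lift_wpf, h1]⟩
  rw [← mahlerInf_image_lin (rmid_lift e T) hd ((fun z => z - wpf_j e (u, v)) '' K), image_image]
  conv_lhs => rw [← hK, image_image]
  simp only [map_sub, rmid_lift_wpf]

/-- the sublevel set in the fibre direction -/
def rmid_D (e : Fin k ⊕ Fin m ≃ Fin n) (K : Set (E n)) (c : E n) : Set (E m) :=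
  {v | mahlerInf ((fun z => z - wpf_j e (fun j => c (e (Sum.inl j)), v)) '' K) ≤
    mahlerInf ((fun z => z - c) '' K)}

lemma rmid_convex (e : Fin k ⊕ Fin m ≃ Fin n) {K : Set (E n)} (hK : Body K) (c : E n) :
    Convex ℝ (rmid_D e K c) :=
  convex_fibr e (convex_sublevel hK.comp.isBounded (hK.int.mono interior_subset)
    (mahlerInf ((fun z => z - c) '' K))) fun j => c (e (Sum.inl j))

lemma rmid_mem (e : Fin k ⊕ Fin m ≃ Fin n) (K : Set (E n)) (c : E n) :
    (fun j => c (e (Sum.inr j))) ∈ rmid_D e K c := by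
  have : wpf_j e (fun j => c (e (Sum.inl j)), fun j => c (e (Sum.inr j))) = c := by
    funext i
    obtain ⟨i, rfl⟩ := e.surjective i
    cases i <;> simp [wpf_j]
  simp only [rmid_D, mem_ofPred_eq, this, le_refl]

/-- a sign change of one coordinate -/
def rmid_flip (i : Fin m) : E m →ₗ[ℝ] E m where
  toFun v := update v i (-v i)
  map_add' x y := by
    ext j
    by_cases h : j = i
    · subst h; simp [add_comm]
    · simp [h]
  map_smul' a x := by
    ext j
    by_cases h : j = i
    · subst h; simp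
    · simp [h]

lemma rmid_flip_flip (i : Fin m) (v : E m) : rmid_flip i (rmid_flip i v) = v := by
  ext j
  by_cases h : j = i
  · subst h; simp [rmid_flip]
  · simp [rmid_flip, h]

theorem mid_T (e : Fin k ⊕ Fin m ≃ Fin n) {K : Set (E n)} (hK : Body K)
    (h : ∀ u, TInv (fibr e K u)) (c : E n) :
    mahlerInf (shift e (fun j => c (e (Sum.inl j))) K) ≤ mahlerInf ((fun z => z - c) '' K) := by
  have hD : TInv (rmid_D e K c) := fun σ v hv => by
    have := rmid_step e (K := K) (Tp σ) (Tp σ⁻¹)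
      (fun w => by rw [Tp_Tp, inv_mul_cancel, Tp_one]) (fun u => h u σ) (fun u => h u σ⁻¹)
      (fun j => c (e (Sum.inl j))) v
    exact this.le.trans hv
  exact zero_mem_T (rmid_convex e hK c) hD (rmid_mem e K c)

theorem mid_S (e : Fin k ⊕ Fin m ≃ Fin n) {K : Set (E n)} (hK : Body K)
    (h : ∀ u, SInv (fibr e K u)) (c : E n) :
    mahlerInf (shift e (fun j => c (e (Sum.inl j))) K) ≤ mahlerInf ((fun z => z - c) '' K) := by
  have hD : SInv (rmid_D e K c) := by
    refine ⟨fun v hv i => ?_, fun σ v hv => ?_⟩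
    · have := rmid_step e (K := K) (rmid_flip i) (rmid_flip i) (rmid_flip_flip i)
        (fun u w hw => (h u).1 w hw i) (fun u w hw => (h u).1 w hw i)
        (fun j => c (e (Sum.inl j))) v
      exact this.le.trans hv
    · have := rmid_step e (K := K) (LinearMap.funLeft ℝ ℝ σ) (LinearMap.funLeft ℝ ℝ σ.symm)
        (fun w => by ext j; simp [LinearMap.funLeft_apply]) (fun u => (h u).2 σ)
        (fun u => (h u).2 σ.symm) (fun j => c (e (Sum.inl j))) v
      exact this.le.trans hv
  exact zero_mem_S (rmid_convex e hK c) hD (rmid_mem e K c)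

end Pool.Agent.MP_5f4cdd_gt.W
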