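import Pool.Agent.MP_5f4cdd_gt.WBase

set_option autoImplicit false
open MeasureTheory ENNReal Set Function Filter Topology Pointwise

namespace Pool.Agent.MP_5f4cdd_gt.W

open PL EF AB

variable {m : ℕ}

theorem wgap_hom (v z : E m) (i : Fin m) :
    AffineMap.homothety v (1 / 4 : ℝ) z i = 1 / 4 * z i + 3 / 4 * v i := by
  simp only [AffineMap.homothety_apply, vsub_eq_sub, vadd_eq_add, Pi.add_apply, Pi.smul_apply,
    Pi.sub_apply, smul_eq_mul]
  ring

theorem wgap_cut {v : E m} (hv : v ∈ stdS m) {H S : Set (E m)} (hH : MeasurableSet H)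
    (hD : ∀ z ∈ stdS m, AffineMap.homothety v (1 / 4 : ℝ) z ∈ H) (hS : S ⊆ stdS m \ H) :
    (volume S).toReal ≤ (1 - (1 / 4) ^ m) * (volume (stdS m)).toReal := by
  have h1 : AffineMap.homothety v (1 / 4 : ℝ) '' stdS m ⊆ stdS m ∩ H := by
    rintro _ ⟨z, hz, rfl⟩
    refine ⟨⟨fun i => ?_, ?_⟩, hD z hz⟩
    · rw [wgap_hom]
      have := hz.1 i
      have := hv.1 i
      positivity
    · simp only [wgap_hom, Finset.sum_add_distrib, ← Finset.mul_sum]
      linarith [hz.2, hv.2]
  have h2 : volume (AffineMap.homothety v (1 / 4 : ℝ) '' stdS m) + volume S ≤ volume (stdS m) :=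
    (add_le_add (measure_mono h1) (measure_mono hS)).trans (measure_inter_add_sdiff _ hH).le
  have h3 := ENNReal.toReal_mono volume_stdS_ne_top h2
  have h4 := ENNReal.add_ne_top.1 (ne_top_of_le_ne_top volume_stdS_ne_top h2)
  rw [ENNReal.toReal_add h4.1 h4.2, toReal_homothety v (by norm_num)] at h3
  linarith

theorem wgap_symm (hm : 2 ≤ m) {S : Set (E m)} (hS : S ⊆ stdS m) (c : E m)
    (hc : ∀ z ∈ S, ∃ z' ∈ stdS m, ∀ i, z i + z' i = 2 * c i) :
    (volume S).toReal ≤ (1 - (1 / 4) ^ m) * (volume (stdS m)).toReal := by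
  by_cases h : ∃ i, c i ≤ 1 / 3
  · obtain ⟨i, hi⟩ := h
    refine wgap_cut (v := Pi.single i 1) (H := {z | 3 / 4 ≤ z i}) ⟨fun j => ?_, by simp⟩
      (measurableSet_le measurable_const (measurable_pi_apply i)) (fun z hz => ?_)
      fun z hz => ⟨hS hz, fun h1 => ?_⟩
    · rw [Pi.single_apply]
      split_ifs <;> norm_num
    · change 3 / 4 ≤ AffineMap.homothety _ (1 / 4 : ℝ) z i
      rw [wgap_hom, Pi.single_eq_same]
      linarith [hz.1 i]
    · obtain ⟨z', h2, h3⟩ := hc z hz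
      have h4 : 3 / 4 ≤ z i := h1
      linarith [h3 i, h2.1 i]
  · push Not at h
    have h0 : 2 / 3 ≤ ∑ i, c i := by
      have h1 : ∑ _i : Fin m, (1 / 3 : ℝ) ≤ ∑ i, c i := Finset.sum_le_sum fun i _ => (h i).le
      have h2 : (2 : ℝ) ≤ m := by exact_mod_cast hm
      rw [Finset.sum_const, Finset.card_univ, Fintype.card_fin, nsmul_eq_mul] at h1
      linarith
    refine wgap_cut (v := 0) (H := {z | ∑ i, z i ≤ 1 / 4}) ⟨fun j => le_rfl, by simp⟩
      (measurableSet_le (by fun_prop) measurable_const) (fun z hz => ?_)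
      fun z hz => ⟨hS hz, fun h1 => ?_⟩
    · change ∑ i, AffineMap.homothety _ (1 / 4 : ℝ) z i ≤ 1 / 4
      simp only [wgap_hom, Pi.zero_apply, mul_zero, add_zero, ← Finset.mul_sum]
      linarith [hz.2]
    · obtain ⟨z', h2, h3⟩ := hc z hz
      have h4 : ∑ i, z i ≤ 1 / 4 := h1
      have h5 : ∑ i, z i + ∑ i, z' i = 2 * ∑ i, c i := by
        rw [← Finset.sum_add_distrib, Finset.mul_sum]
        exact Finset.sum_congr rfl fun i _ => h3 i
      linarith [h2.2]

theorem neg_mem_of_unc {S : Set (E m)} (hS : ∀ y ∈ S, ∀ j, update y j (-y j) ∈ S) {y : E m}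
    (hy : y ∈ S) : -y ∈ S := by
  have h : ∀ T : Finset (Fin m), (fun i => if i ∈ T then -y i else y i) ∈ S := by
    intro T
    induction T using Finset.induction_on with
    | empty => simpa using hy
    | insert j T hj ih =>
      have h1 := hS _ ih j
      convert h1 using 1
      funext i
      by_cases hi : i = j
      · subst hi
        simp [hj]
      · simp [hi]
  have h1 := h Finset.univ
  simp only [Finset.mem_univ, if_true] at h1
  exact h1

theorem zero_mem_of_unc {S : Set (E m)} (hB : Body S)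
    (hS : ∀ y ∈ S, ∀ j, update y j (-y j) ∈ S) : (0 : E m) ∈ interior S := by
  obtain ⟨y, hy⟩ := hB.int
  have h := hB.conv.combo_interior_self_mem_interior hy (neg_mem_of_unc hS (interior_subset hy))
    (a := 1 / 2) (b := 1 / 2) (by norm_num) (by norm_num) (by norm_num)
  rwa [smul_neg, add_neg_cancel] at h

theorem not_near_symm (hm : 2 ≤ m) : ∃ ε : ℝ, 0 < ε ∧ ∀ S : Set (E m), (∀ y ∈ S, -y ∈ S) →
    ¬ EF.Near ε S := by
  have hq : (0 : ℝ) < (1 / 4) ^ m := by positivity
  refine ⟨(1 / 4) ^ m / 2, by positivity, fun S hS ⟨e, h1, h2⟩ => ?_⟩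
  have h3 : ∀ z, e z ∈ S → z ∈ stdS m := fun z hz => by
    obtain ⟨z', h4, h5⟩ := h1 hz
    rwa [← e.injective h5]
  have h4 := wgap_symm hm (S := e ⁻¹' S) h3 (e.symm 0) fun z hz => by
    obtain ⟨z', h5, h6⟩ := h1 (hS _ hz)
    refine ⟨z', h5, fun i => ?_⟩
    have h7 : e.symm 0 = midpoint ℝ z z' := by
      rw [AffineEquiv.symm_apply_eq, AffineEquiv.map_midpoint, h6, midpoint_self_neg]
    rw [h7, midpoint_eq_smul_add]
    simp
  rw [← image_preimage_eq S e.surjective, toReal_image_affine, toReal_image_affine] at h2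
  have h5 := det_linear_pos e
  have h6 := toReal_stdS_pos (n := m)
  have h7 := mul_le_mul_of_nonneg_left h4 h5.le
  have h8 := mul_pos hq (mul_pos h5 h6)
  nlinarith

theorem gap_unc (hm : 2 ≤ m) : ∃ c : ℝ, 0 < c ∧ ∀ S : Set (E m), Body S →
    (∀ y ∈ S, ∀ j, update y j (-y j) ∈ S) →
    ENNReal.ofReal (1 + c) * mahlerInf (cS m 1) ≤ mahlerInf S := by
  obtain ⟨ε, hε, h1⟩ := not_near_symm hm
  obtain ⟨c, hc, h2⟩ := AB.far_gen m hε
  refine ⟨c, hc, fun S hB hS => ?_⟩
  have h3 : ABGen S := ABGen.lab S hB.conv hB.comp hB.int fun y hy j => by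
    have h4 := hB.conv hy (hS y hy j) (a := 1 / 2) (b := 1 / 2) (by norm_num) (by norm_num)
      (by norm_num)
    convert h4 using 1
    funext i
    by_cases hi : i = j
    · subst hi
      simp
    · simp only [update_of_ne hi, Pi.add_apply, Pi.smul_apply, smul_eq_mul]
      ring
  have h4 : mstarInf S ≤ mahlerInf S := (iInf_le _ 0).trans (by simp)
  exact (not_lt.1 fun h => h1 S (fun y hy => neg_mem_of_unc hS hy) ((h2 S h3).2 hB.int h)).trans h4

end Pool.Agent.MP_5f4cdd_gt.W
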