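import Pool.Agent.MP_5f4cdd_gt.WLaw

set_option autoImplicit false
open MeasureTheory ENNReal Set Function Filter Topology Pointwise

namespace Pool.Agent.MP_5f4cdd_gt.W

open PL EF AB

variable {n k m : ℕ}

/-- glue two blocks of coordinates -/
def wpf_j {a : ℕ} (e : Fin k ⊕ Fin a ≃ Fin n) (p : E k × E a) : E n :=
  fun i => Sum.elim p.1 p.2 (e.symm i)

section

variable {a : ℕ} (e : Fin k ⊕ Fin a ≃ Fin n)

lemma wpf_mp : MeasurePreserving (wpf_j e) (volume.prod volume) volume := by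
  have h := (volume_measurePreserving_piCongrLeft (fun _ : Fin n => ℝ) e).comp
    (volume_measurePreserving_sumPiEquivProdPi_symm fun _ : Fin k ⊕ Fin a => ℝ)
  have h' : wpf_j e = MeasurableEquiv.piCongrLeft (fun _ : Fin n => ℝ) e ∘
      (MeasurableEquiv.sumPiEquivProdPi fun _ : Fin k ⊕ Fin a => ℝ).symm := by
    funext p i
    obtain ⟨i, rfl⟩ := e.surjective i
    rw [comp_apply, MeasurableEquiv.piCongrLeft_apply_apply]
    cases i <;> simp [wpf_j, MeasurableEquiv.sumPiEquivProdPi]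
  rw [h']
  exact h

lemma wpf_mem {B : Set (E k)} {τ : E k → ℝ} {S : Set (E a)} (p : E k × E a) :
    wpf_j e p ∈ fibS e B τ S ↔ p.1 ∈ B ∧ p.2 ∈ τ p.1 • S := by
  simp [fibS, wpf_j]

lemma wpf_surj (x : E n) : ∃ p, wpf_j e p = x :=
  ⟨(fun i => x (e (Sum.inl i)), fun j => x (e (Sum.inr j))), funext fun i => by
    obtain ⟨i, rfl⟩ := e.surjective i
    cases i <;> simp [wpf_j]⟩

lemma wpf_dot (c : E k) (p q : E k × E a) :
    (wpf_j e p - fun i => Sum.elim c 0 (e.symm i)) ⬝ᵥ wpf_j e q =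
      (p.1 - c) ⬝ᵥ q.1 + p.2 ⬝ᵥ q.2 := by
  simp only [dotProduct, ← e.sum_comp, Fintype.sum_sum_type]
  simp [wpf_j]

variable {B : Set (E k)} {τ : E k → ℝ} {S : Set (E a)}

lemma wpf_vol (hτ : ∀ u ∈ B, 0 ≤ τ u) (cS : IsCompact S) (kS : IsCompact (fibS e B τ S)) :
    volume (fibS e B τ S) =
      (∫⁻ u, B.indicator (fun u => ENNReal.ofReal (τ u ^ a)) u) * volume S := by
  rw [← (wpf_mp e).measure_preimage kS.measurableSet.nullMeasurableSet,
    Measure.prod_apply ((wpf_mp e).measurable kS.measurableSet),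
    ← lintegral_mul_const' _ _ cS.measure_lt_top.ne]
  refine lintegral_congr fun u => ?_
  by_cases hu : u ∈ B
  · have : Prod.mk u ⁻¹' (wpf_j e ⁻¹' fibS e B τ S) = τ u • S := by
      ext v
      simp [wpf_mem, hu]
    rw [this, Measure.addHaar_smul_of_nonneg _ (hτ u hu), indicator_of_mem hu]
    simp
  · have : Prod.mk u ⁻¹' (wpf_j e ⁻¹' fibS e B τ S) = ∅ := by
      ext v
      simp [wpf_mem, hu]
    simp [this, hu]

lemma wpf_le (kS : IsCompact (fibS e B τ S)) (c ξ : E k) (ζ : E a) {u : E k} (hu : u ∈ B)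
    {s : E a} (hs : s ∈ S) : (u - c) ⬝ᵥ ξ + τ u * (s ⬝ᵥ ζ) ≤
      suppF ((fun z => z - fun i => Sum.elim c 0 (e.symm i)) '' fibS e B τ S)
        (wpf_j e (ξ, ζ)) := by
  have h := dot_le_suppF (isBounded_image_sub kS.isBounded fun i => Sum.elim c 0 (e.symm i))
    ⟨_, (wpf_mem e (u, τ u • s)).2 ⟨hu, smul_mem_smul_set hs⟩, rfl⟩ (wpf_j e (ξ, ζ))
  simp only [wpf_dot] at h
  simpa using h

lemma wpf_supp (hτ : ∀ u ∈ B, 0 ≤ τ u) (hB : B.Nonempty) (cS : IsCompact S) (hS : S.Nonempty)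
    (kS : IsCompact (fibS e B τ S)) (c ξ : E k) (ζ : E a) :
    suppF ((fun z => z - fun i => Sum.elim c 0 (e.symm i)) '' fibS e B τ S) (wpf_j e (ξ, ζ)) =
      sSup ((fun u => (u - c) ⬝ᵥ ξ + τ u * suppF S ζ) '' B) := by
  obtain ⟨s, hs, h⟩ := cS.exists_sSup_image_eq hS (f := fun x : E a => ∑ i, x i * ζ i)
    (by fun_prop)
  have h' : suppF S ζ = s ⬝ᵥ ζ := h
  refine (IsLUB.csSup_eq ⟨?_, fun C hC => ?_⟩ (hB.image _)).symm
  · rintro _ ⟨u, hu, rfl⟩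
    rw [h']
    exact wpf_le e kS c ξ ζ hu hs
  · obtain ⟨u, hu⟩ := hB
    refine suppF_le (Nonempty.image _
      ⟨_, (wpf_mem e (u, τ u • s)).2 ⟨hu, smul_mem_smul_set hs⟩⟩) ?_
    rintro _ ⟨x, hx, rfl⟩
    obtain ⟨⟨v, w⟩, rfl⟩ := wpf_surj e x
    obtain ⟨hv, t, ht, rfl⟩ : v ∈ B ∧ w ∈ τ v • S := (wpf_mem e _).1 hx
    refine le_trans ?_ (hC ⟨v, hv, rfl⟩)
    have := mul_le_mul_of_nonneg_left (dot_le_suppF cS.isBounded ht ζ) (hτ v hv)
    simp only [wpf_dot]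
    simpa using this

lemma wpf_int (hτ : ∀ u ∈ B, 0 ≤ τ u) (hB : B.Nonempty) (cS : IsCompact S) (hS : S.Nonempty)
    (kS : IsCompact (fibS e B τ S)) (c : E k) :
    ∫⁻ y, expS ((fun z => z - fun i => Sum.elim c 0 (e.symm i)) '' fibS e B τ S) y =
      ∫⁻ ξ, ∫⁻ ζ, ENNReal.ofReal
        (Real.exp (-sSup ((fun u => (u - c) ⬝ᵥ ξ + τ u * suppF S ζ) '' B))) := by
  have hm := measurable_expS (isBounded_image_sub kS.isBounded fun i => Sum.elim c 0 (e.symm i))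
  rw [← (wpf_mp e).lintegral_comp hm]
  refine (lintegral_prod _ (hm.comp (wpf_mp e).measurable).aemeasurable).trans ?_
  simp only [comp_apply, expS, wpf_supp e hτ hB cS hS kS]

end

theorem prod_formula (e : Fin k ⊕ Fin (m + 1) ≃ Fin n) {B : Set (E k)} {τ : E k → ℝ}
    (hτ : ∀ u ∈ B, 0 ≤ τ u) {S₁ S₂ : Set (E (m + 1))} (c₁ : IsCompact S₁) (c₂ : IsCompact S₂)
    (z₁ : 0 ∈ interior S₁) (z₂ : 0 ∈ interior S₂) (k₁ : IsCompact (fibS e B τ S₁))
    (k₂ : IsCompact (fibS e B τ S₂)) (c : E k) :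
    mahlerInf ((fun z => z - fun i => Sum.elim c 0 (e.symm i)) '' fibS e B τ S₁) * mahlerInf S₂ =
    mahlerInf ((fun z => z - fun i => Sum.elim c 0 (e.symm i)) '' fibS e B τ S₂) *
      mahlerInf S₁ := by
  rcases B.eq_empty_or_nonempty with rfl | hB
  · simp [fibS, mahlerInf]
  obtain ⟨ρ, hρ, hb⟩ := Metric.mem_nhds_iff.1 (mem_interior_iff_mem_nhds.1 z₁)
  have hs : (fun _ => ρ / 2 : E (m + 1)) ∈ S₁ := hb (by
    rw [mem_ball_zero_iff, pi_norm_const, Real.norm_of_nonneg (by positivity)]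
    linarith)
  have hbd : ∀ (ξ : E k) (r : ℝ), BddAbove ((fun u => (u - c) ⬝ᵥ ξ + τ u * r) '' B) := by
    intro ξ r
    refine ⟨_, forall_mem_image.2 fun u hu =>
      le_trans (le_of_eq ?_) (wpf_le e k₁ c ξ (Pi.single 0 (2 * r / ρ)) hu hs)⟩
    rw [dotProduct_single]
    field_simp
  have hG : ∀ ξ : E k, Measurable fun r : ℝ => ENNReal.ofReal
      (Real.exp (-sSup ((fun u => (u - c) ⬝ᵥ ξ + τ u * r) '' B))) := by
    intro ξ
    have : Monotone fun r : ℝ => sSup ((fun u => (u - c) ⬝ᵥ ξ + τ u * r) '' B) := fun r r' h =>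
      csSup_le (hB.image _) (forall_mem_image.2 fun u hu => le_csSup_of_le (hbd ξ r') ⟨u, hu, rfl⟩
        (add_le_add le_rfl (mul_le_mul_of_nonneg_left h (hτ u hu))))
    exact (Real.measurable_exp.comp this.measurable.neg).ennreal_ofReal
  have y₁ := interior_subset z₁
  have y₂ := interior_subset z₂
  have key : (∫⁻ y, expS ((fun z => z - fun i => Sum.elim c 0 (e.symm i)) '' fibS e B τ S₁) y) *
      volume (polarS S₂) =
      (∫⁻ y, expS ((fun z => z - fun i => Sum.elim c 0 (e.symm i)) '' fibS e B τ S₂) y) *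
      volume (polarS S₁) := by
    rw [wpf_int e hτ hB c₁ ⟨0, y₁⟩ k₁, wpf_int e hτ hB c₂ ⟨0, y₂⟩ k₂,
      ← lintegral_mul_const' _ _ (isBounded_polarS z₂).measure_lt_top.ne,
      ← lintegral_mul_const' _ _ (isBounded_polarS z₁).measure_lt_top.ne]
    exact lintegral_congr fun ξ => gauge_law c₁ c₂ z₁ z₂ (hG ξ)
  rw [mahlerInf_polar c₁.isBounded y₁, mahlerInf_polar c₂.isBounded y₂, PL.mahlerInf_eq,
    PL.mahlerInf_eq, volume_sub, volume_sub, wpf_vol e hτ c₁ k₁, wpf_vol e hτ c₂ k₂]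
  have h : ∀ a b c d j₁ j₂ p₁ p₂ : ℝ≥0∞, j₁ * p₂ = j₂ * p₁ →
      a * b * j₁ * (d * (c * p₂)) = a * c * j₂ * (d * (b * p₁)) := fun a b c d j₁ j₂ p₁ p₂ h => by
    calc _ = a * b * c * d * (j₁ * p₂) := by ring
      _ = _ := by rw [h]; ring
  exact h _ _ _ _ _ _ _ _ key

end Pool.Agent.MP_5f4cdd_gt.W
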