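import Pool.Agent.MP_5f4cdd_gt.WSym
import Pool.Agent.MP_5f4cdd_gt.WCS
import Pool.Agent.MP_5f4cdd_gt.WPF
import Pool.Agent.MP_5f4cdd_gt.WGap

set_option autoImplicit false
open MeasureTheory ENNReal Set Function Filter Topology Pointwise

namespace Pool.Agent.MP_5f4cdd_gt.W

open PL EF AB

variable {n k m : ℕ}

/-- the diagonal that scales the fibre coordinates -/
def wnorm_d (e : Fin k ⊕ Fin m ≃ Fin n) (a : ℝ) : E n :=
  fun i => Sum.elim (fun _ => 1) (fun _ => a) (e.symm i)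

lemma wnorm_ne (e : Fin k ⊕ Fin m ≃ Fin n) {a : ℝ} (ha : a ≠ 0) (i : Fin n) :
    wnorm_d e a i ≠ 0 := by
  unfold wnorm_d
  cases e.symm i <;> simp [ha]

lemma wnorm_scale (e : Fin k ⊕ Fin m ≃ Fin n) (B : Set (E k)) (τ : E k → ℝ) (S : Set (E m))
    {a : ℝ} (ha : a ≠ 0) : dg (wnorm_d e a) '' fibS e B τ S = fibS e B τ (a • S) := by
  have key : ∀ x, dg (wnorm_d e a) x ∈ fibS e B τ (a • S) ↔ x ∈ fibS e B τ S := fun x => by
    have h1 : (fun i => dg (wnorm_d e a) x (e (Sum.inl i))) = fun i => x (e (Sum.inl i)) := by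
      funext i; simp [dg_apply, wnorm_d]
    have h2 : (fun j => dg (wnorm_d e a) x (e (Sum.inr j))) = a • fun j => x (e (Sum.inr j)) := by
      funext j; simp [dg_apply, wnorm_d]
    simp only [fibS, mem_ofPred_eq]
    rw [h1, h2, smul_comm _ a S, smul_mem_smul_set_iff₀ ha]
  ext y
  obtain ⟨x, rfl⟩ := (dgE _ (wnorm_ne e ha)).surjective y
  rw [coe_dgE, key]
  exact (dgE _ (wnorm_ne e ha)).injective.mem_set_image

lemma wnorm_one {S : Set (E 1)} (hS : Body S) (hu : ∀ y ∈ S, ∀ j, update y j (-y j) ∈ S) :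
    ∃ a : ℝ, a ≠ 0 ∧ S = a • cS 1 1 := by
  obtain ⟨y₀, h0, hy⟩ := hS.comp.exists_isMaxOn (hS.int.mono interior_subset)
    (continuous_apply (0 : Fin 1)).continuousOn
  obtain ⟨δ, hδ, hb⟩ := Metric.mem_nhds_iff.1
    (mem_interior_iff_mem_nhds.1 (zero_mem_of_unc hS hu))
  have hr : 0 < y₀ 0 := by
    have h1 : (fun _ => δ / 2 : E 1) ∈ S := hb (by
      rw [mem_ball_zero_iff, pi_norm_const, Real.norm_of_nonneg (by positivity)]
      linarith)
    exact (half_pos hδ).trans_le (hy h1)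
  refine ⟨2 * y₀ 0, by positivity, Set.ext fun y => ?_⟩
  have h2 : y ∈ (2 * y₀ 0) • cS 1 1 ↔ y 0 ≤ y₀ 0 ∧ -y₀ 0 ≤ y 0 := by
    rw [mem_smul_set_iff_inv_smul_mem₀ (by positivity)]
    simp only [cS, mem_ofPred_eq, Fin.forall_fin_succ, bet_zero, bet_succ, Finset.univ_unique,
      Finset.sum_singleton, Pi.smul_apply, smul_eq_mul, Fin.default_eq_zero, IsEmpty.forall_iff,
      and_true, Nat.cast_one, neg_le_neg_iff]
    rw [inv_mul_le_iff₀ (by positivity), le_inv_mul_iff₀ (by positivity)]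
    constructor <;> rintro ⟨a, b⟩ <;> constructor <;> linarith
  rw [h2]
  refine ⟨fun h => ⟨hy h, neg_le.1 (hy (neg_mem_of_unc hu h))⟩, fun h => ?_⟩
  have h3 := hS.conv h0 (neg_mem_of_unc hu h0) (a := (y₀ 0 + y 0) / (2 * y₀ 0))
    (b := (y₀ 0 - y 0) / (2 * y₀ 0)) (div_nonneg (by linarith [h.2]) (by positivity))
    (div_nonneg (by linarith [h.1]) (by positivity)) (by field_simp; ring)
  convert h3 using 1
  funext i
  rw [Subsingleton.elim i 0]
  simp only [Pi.add_apply, Pi.smul_apply, Pi.neg_apply, smul_eq_mul]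
  field_simp
  ring

lemma wnorm_mid (e : Fin k ⊕ Fin m ≃ Fin n) (B : Set (E k)) (τ : E k → ℝ) {S : Set (E m)}
    (hu : ∀ y ∈ S, ∀ j, update y j (-y j) ∈ S) (hK : Body (fibS e B τ S)) (c : E n) :
    mahlerInf ((fun z => z - fun i => Sum.elim (fun j => c (e (Sum.inl j))) 0 (e.symm i)) ''
      fibS e B τ S) ≤ mahlerInf ((fun z => z - c) '' fibS e B τ S) := by
  have h0 : (-1 : ℝ) ≠ 0 := by norm_num
  have h1 : (-1 : ℝ) • S = S := by
    ext y
    rw [mem_smul_set_iff_inv_smul_mem₀ h0, inv_neg_one, neg_one_smul]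
    exact ⟨fun h => neg_neg y ▸ neg_mem_of_unc hu h, neg_mem_of_unc hu⟩
  have h2 := wnorm_scale e B τ S h0
  rw [h1] at h2
  have h3 : mahlerInf ((fun z => z - dg (wnorm_d e (-1)) c) '' fibS e B τ S) ≤
      mahlerInf ((fun z => z - c) '' fibS e B τ S) := by
    rw [← mahlerInf_image_lin (dg (wnorm_d e (-1))) (det_dg_ne (wnorm_ne e h0))
      ((fun z => z - c) '' fibS e B τ S), image_image]
    conv_lhs => rw [← h2, image_image]
    simp only [map_sub, le_refl]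
  have h4 := convex_sublevel hK.comp.isBounded (hK.int.mono interior_subset) _
    (x := c) (mem_setOf.2 le_rfl) h3
    (a := 1 / 2) (b := 1 / 2) (by norm_num) (by norm_num) (by norm_num)
  convert h4.out using 4
  funext i
  obtain ⟨s, rfl⟩ := e.surjective i
  cases s <;> simp [dg_apply, wnorm_d]
  ring

theorem good_norm {ε ε' c₀ : ℝ} {μ : ℝ≥0∞} (hεε' : ε < ε') (hε' : ε' < 1) (moat : Moat n ε ε' μ)
    (hμ : μ ≤ ENNReal.ofReal (1 + c₀) * mahlerInf (cS n 1))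
    (hlow : ∀ K : Set (E n), Body K → AB.Good ε μ K → mahlerInf (cS n 1) ≤ mstarInf K)
    (e : Fin k ⊕ Fin (m + 1) ≃ Fin n) {B : Set (E k)} {τ : E k → ℝ} (hτ : ∀ u ∈ B, 0 ≤ τ u)
    {S : Set (E (m + 1))} (hS : Body S) (hu : ∀ y ∈ S, ∀ j, update y j (-y j) ∈ S)
    (hgap : 1 ≤ m → ENNReal.ofReal (1 + c₀) * mahlerInf (cS (m + 1) 1) ≤ mahlerInf S)
    (hB : Body (fibS e B τ (stdS (m + 1)))) (hG : AB.Good ε μ (fibS e B τ (stdS (m + 1))))
    (hK : Body (fibS e B τ S)) : AB.Good ε μ (fibS e B τ S) := by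
  obtain ⟨tB, tG⟩ := good_centred hεε' hε' moat e hτ hB hG
  rcases Nat.eq_zero_or_pos m with rfl | hm
  · obtain ⟨a, ha, rfl⟩ := wnorm_one hS hu
    rw [← wnorm_scale e B τ _ ha]
    exact tG.image (hεε'.trans hε') (dgE _ (wnorm_ne e ha))
  intro _ hM
  exfalso
  obtain ⟨c, hc⟩ := iInf_lt_iff.1 hM
  have h1 := (wnorm_mid e B τ hu hK c).trans_lt hc
  have h2 := prod_formula e hτ hS.comp (isCompact_cS zero_le_one) (zero_mem_of_unc hS hu)
    (zero_mem_interior_cS one_pos) hK.comp tB.comp fun j => c (e (Sum.inl j))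
  have h3 := mul_le_mul' ((hlow _ tB tG).trans (iInf_le _
    fun i => Sum.elim (fun j => c (e (Sum.inl j))) 0 (e.symm i))) (hgap hm)
  rw [← h2, ← mul_assoc, ENNReal.mul_le_mul_iff_left mahlerInf_cS_pos.ne' mahlerInf_cS_lt_top.ne,
    mul_comm] at h3
  exact (h1.trans_le (hμ.trans h3)).false

end Pool.Agent.MP_5f4cdd_gt.W
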