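import Pool.Agent.MP_5f4cdd_gt.RPQ
import Pool.Agent.MP_5f4cdd_gt.RMid
import Pool.Agent.MP_5f4cdd_gt.RCone
import Pool.Agent.MP_5f4cdd_gt.RBF
import Pool.Agent.MP_5f4cdd_gt.WNorm

set_option autoImplicit false
open MeasureTheory ENNReal Set Function Filter Topology Pointwise

namespace Pool.Agent.MP_5f4cdd_gt.W

open PL EF AB

variable {n k m : ℕ}

lemma rone_pow_le {x y : ℝ≥0∞} (h : x ^ (m + 1) ≤ y ^ (m + 1)) : x ≤ y :=
  (ENNReal.pow_le_pow_left_iff m.succ_ne_zero).1 h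

lemma rone_low {W : Set (E n)} (h : Sharp W) (e : Fin k ⊕ Fin m ≃ Fin n) (a : E k) :
    mahlerInf (cS n 1) ≤ mahlerInf (shift e a W) :=
  h.2.1.trans (iInf_le _ _)

lemma rone_prod_low {μ : Fin m → ℝ≥0∞} {x : ℝ≥0∞} (h : ∀ j, x ≤ μ j) : x ^ m ≤ ∏ j, μ j := by
  simpa using Finset.prod_le_prod' (s := Finset.univ) (f := fun _ : Fin m => x) fun j _ => h j

lemma rone_each {μ : Fin (m + 1) → ℝ≥0∞} {x : ℝ≥0∞} (h0 : x ≠ 0) (ht : x ≠ ∞)
    (h : ∀ j, x ≤ μ j) (hp : ∏ j, μ j ≤ x ^ (m + 1)) (j : Fin (m + 1)) : μ j ≤ x := by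
  rw [Fin.prod_univ_succAbove μ j, pow_succ'] at hp
  have h1 := (mul_le_mul' le_rfl (rone_prod_low fun i => h (j.succAbove i))).trans hp
  exact (ENNReal.mul_le_mul_iff_left (pow_ne_zero _ h0) (pow_ne_top ht)).1 h1

lemma rone_compact_pre (e : Fin k ⊕ Fin m ≃ Fin n) {K : Set (E n)} (cK : IsCompact K) :
    IsCompact (wpf_j e ⁻¹' K) := by
  have : wpf_j e ⁻¹' K = (fun x : E n =>
      ((fun i => x (e (Sum.inl i)), fun j => x (e (Sum.inr j))) : E k × E m)) '' K := by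
    ext p
    constructor
    · intro hp
      exact ⟨_, hp, Prod.ext (funext fun i => wpf_j_inl e p i) (funext fun i => wpf_j_inr e p i)⟩
    · rintro ⟨x, hx, rfl⟩
      have : wpf_j e (fun i => x (e (Sum.inl i)), fun j => x (e (Sum.inr j))) = x := by
        funext i
        obtain ⟨i, rfl⟩ := e.surjective i
        cases i <;> simp [wpf_j]
      rw [mem_preimage, this]
      exact hx
  rw [this]
  exact cK.image (by fun_prop)

lemma rone_compact_fibr (e : Fin k ⊕ Fin m ≃ Fin n) {K : Set (E n)} (cK : IsCompact K)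
    (u : E k) : IsCompact (fibr e K u) := by
  refine ((rone_compact_pre e cK).image continuous_snd).of_isClosed_subset
    (cK.isClosed.preimage ((continuous_wpf_j e).comp (f := fun v : E m => (u, v)) (by fun_prop)))
    fun v hv => ⟨(u, v), hv, rfl⟩

lemma rone_compact_base (e : Fin k ⊕ Fin m ≃ Fin n) {K : Set (E n)} (cK : IsCompact K) :
    IsCompact (base e K) := by
  refine ((rone_compact_pre e cK).image continuous_fst).of_isClosed_subset
    (cK.isClosed.preimage ((continuous_wpf_j e).comp (f := fun u : E k => (u, (0 : E m)))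
      (by fun_prop))) fun u hu => ⟨(u, 0), hu, rfl⟩

lemma rone_congr (e : Fin k ⊕ Fin m ≃ Fin n) {B : Set (E k)} {τ τ' : E k → ℝ}
    {S S' : Set (E m)} (h : ∀ u ∈ B, τ u • S = τ' u • S') : fibS e B τ S = fibS e B τ' S' := by
  ext x
  exact and_congr_right fun hx => by rw [h _ hx]

lemma rone_zero (e : Fin k ⊕ Fin m ≃ Fin n) {K : Set (E n)} (hK : Body K)
    (h : ∀ u, TInv (fibr e K u)) {u : E k} (hu : u ∈ base e K) (i j : Fin m)
    (hi : rad e K (om m i) u = 0) : rad e K (om m j) u = 0 := by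
  obtain ⟨a1, -, a3⟩ := rad_spec e hK.conv hK.comp (om_ne j) hu
  obtain ⟨-, b2, -⟩ := rad_spec e hK.conv hK.comp (om_ne i) hu
  have h1 := b2 _ (proj_mem_T (convex_fibr e hK.conv u) (h u) (a3 _ a1 le_rfl) i)
  rw [hi, smul_dotProduct, smul_eq_mul, div_le_iff₀ (cA_pos i), zero_mul] at h1
  have h2 : 0 < om m j ⬝ᵥ Gam m (om m i) := by
    rw [om_dot]
    have : ((max (j : ℕ) i : ℕ) : ℝ) < m := by exact_mod_cast max_lt j.2 i.2
    have : (0 : ℝ) < m - (max (j : ℕ) i : ℕ) := by linarith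
    positivity
  exact le_antisymm (by nlinarith) a1

lemma rone_tinv_int {F : Set (E m)} (h : TInv F) : TInv (interior F) := by
  intro σ v hv
  have ho : IsOpenMap (Tp σ) := (Tp σ).isOpenMap_of_finiteDimensional fun z =>
    ⟨Tp σ⁻¹ z, by rw [Tp_Tp, inv_mul_cancel, Tp_one]⟩
  refine interior_mono ?_ (ho.image_interior_subset F ⟨v, hv, rfl⟩)
  rintro _ ⟨w, hw, rfl⟩
  exact h σ w hw

lemma rone_int {F : Set (E m)} (hF : Convex ℝ F) (hv : volume F ≠ 0) :
    (interior F).Nonempty := by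
  by_contra hn
  rw [not_nonempty_iff_eq_empty] at hn
  refine hv (measure_mono_null ?_ (hF.addHaar_frontier volume))
  rw [frontier, hn, sdiff_empty]
  exact subset_closure

lemma rone_struct (e : Fin k ⊕ Fin (m + 1) ≃ Fin n) {K : Set (E n)} (hK : Body K)
    (h : ∀ u, TInv (fibr e K u))
    (hc : ∀ j, IsCompact (Wg e K (om (m + 1) j) (cS (m + 1) 1)))
    (hf : ∀ j, ∃ f : E n ≃ᵃ[ℝ] E n, Wg e K (om (m + 1) j) (cS (m + 1) 1) = f '' stdS n)
    (hv : (volume K * volume (cS (m + 1) 1)) ^ (m + 1) ≤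
      ∏ j, volume (Wg e K (om (m + 1) j) (cS (m + 1) 1))) :
    ∃ F : Set (E (m + 1)), Body F ∧ TInv F ∧ 0 ∈ interior F ∧
      K = fibS e (base e K) (rad e K (om (m + 1) 0)) F := by
  have hτ : ∀ j, ∀ u ∈ base e K, 0 ≤ rad e K (om (m + 1) j) u := fun j u hu =>
    (rad_spec e hK.conv hK.comp (om_ne j) hu).1
  have hcone := fun j => (hf j).elim fun f hf => cone_of_simplex e (hτ j) f hf
  obtain ⟨b, l, hb, hb0, hl0, hl⟩ := hcone 0
  have hlj : ∀ j, ∀ u ∈ base e K,
      rad e K (om (m + 1) j) u = l u * rad e K (om (m + 1) j) b := by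
    intro j u hu
    obtain ⟨b', l', -, -, hl', -⟩ := hcone j
    obtain ⟨-, -, u', hu', h1, h2⟩ := hl u hu
    have h3 : l' u = l u * l' b + (1 - l u) * l' u' := by
      have := l'.apply_lineMap u' b (l u)
      rw [AffineMap.lineMap_apply_module, AffineMap.lineMap_apply_module, add_comm, ← h2] at this
      rw [this, smul_eq_mul, smul_eq_mul, add_comm]
    have h4 : (1 - l u) * rad e K (om (m + 1) j) u' = 0 := by
      rcases mul_eq_zero.1 h1 with h1 | h1
      · rw [h1, zero_mul]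
      · rw [rone_zero e hK h hu' 0 j (by rw [hl0 u' hu', h1, zero_mul]), mul_zero]
    rw [hl' u' hu'] at h4
    rw [hl' u hu, hl' b hb, h3]
    linear_combination h4
  have hbj : ∀ j, 0 < rad e K (om (m + 1) j) b := fun j =>
    (hτ j b hb).lt_of_ne' fun h0 => hb0.ne' (rone_zero e hK h hb j 0 h0)
  set Λ := ∫⁻ u, (base e K).indicator (fun u => ENNReal.ofReal (l u ^ (m + 1))) u with hΛ
  have hW : ∀ j, volume (Wg e K (om (m + 1) j) (cS (m + 1) 1)) =
      ENNReal.ofReal (rad e K (om (m + 1) j) b) ^ (m + 1) * (Λ * volume (cS (m + 1) 1)) := by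
    intro j
    rw [Wg, wpf_vol e (hτ j) (isCompact_cS zero_le_one) (hc j), ← mul_assoc, hΛ,
      ← lintegral_const_mul' _ _ (pow_ne_top ofReal_ne_top)]
    congr 1
    refine lintegral_congr fun u => ?_
    by_cases hu : u ∈ base e K
    · rw [indicator_of_mem hu, indicator_of_mem hu, hlj j u hu, mul_pow,
        ENNReal.ofReal_mul (pow_nonneg (hl u hu).1 _), ENNReal.ofReal_pow (hbj j).le, mul_comm]
    · simp [hu]
  simp only [hW, Finset.prod_mul_distrib, Finset.prod_pow, Finset.prod_const, Finset.card_univ,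
    Fintype.card_fin] at hv
  rw [← mul_pow, ← mul_pow, ← mul_assoc] at hv
  have hv1 := (ENNReal.mul_le_mul_iff_left (volume_cS_pos one_pos).ne'
    (volume_cS_lt_top zero_le_one).ne).1 (rone_pow_le hv)
  rw [← ENNReal.ofReal_prod_of_nonneg fun j _ => (hbj j).le] at hv1
  have cF := rone_compact_fibr e hK.comp b
  have vF := convex_fibr e hK.conv b
  have hP := vol_ge_T vF cF ⟨0, hb⟩ (h b) hbj fun j =>
    (rad_spec e hK.conv hK.comp (om_ne j) hb).2.2 _ (hbj j).le le_rfl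
  have cK1 : IsCompact (fibS e (base e K) l (fibr e K b)) := by
    have : fibS e (base e K) l (fibr e K b) =
        (fun p : E k × E (m + 1) => wpf_j e (p.1, l p.1 • p.2)) '' (base e K ×ˢ fibr e K b) := by
      ext x
      obtain ⟨⟨u, v⟩, rfl⟩ := wpf_surj e x
      constructor
      · intro hx
        obtain ⟨hu, w, hw, rfl⟩ : u ∈ base e K ∧ v ∈ l u • fibr e K b := (wpf_mem e _).1 hx
        exact ⟨(u, w), ⟨hu, hw⟩, rfl⟩
      · rintro ⟨⟨u', w⟩, ⟨hu, hw⟩, hx⟩
        rw [← hx, wpf_mem]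
        exact ⟨hu, smul_mem_smul_set hw⟩
    rw [this]
    have hlc : Continuous l := l.continuous_of_finiteDimensional
    exact ((rone_compact_base e hK.comp).prod cF).image
      ((continuous_wpf_j e).comp (by fun_prop))
  have sK1 : fibS e (base e K) l (fibr e K b) ⊆ K := by
    intro x hx
    obtain ⟨⟨u, v⟩, rfl⟩ := wpf_surj e x
    obtain ⟨hu, w, hw, rfl⟩ : u ∈ base e K ∧ v ∈ l u • fibr e K b := (wpf_mem e _).1 hx
    obtain ⟨l0, l1, u', hu', -, h2⟩ := hl u hu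
    have := hK.conv hw hu' l0 (sub_nonneg.2 l1) (by ring)
    rw [← wpf_j_combo] at this
    convert this using 2
    exact Prod.ext h2 (by simp)
  have hK1 : K = fibS e (base e K) l (fibr e K b) := by
    refine Subset.antisymm (eq_of_vol hK.conv hK.int cK1.isClosed sK1 ?_ cK1.measure_lt_top.ne) sK1
    rw [wpf_vol e (fun u hu => (hl u hu).1) cF cK1, mul_comm]
    exact hv1.trans (mul_le_mul' hP le_rfl)
  have iF : (interior (fibr e K b)).Nonempty := rone_int vF
    ((ENNReal.ofReal_pos.2 (Finset.prod_pos fun j _ => hbj j)).trans_le hP).ne'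
  have zF : (0 : E (m + 1)) ∈ interior (fibr e K b) :=
    zero_mem_T vF.interior (rone_tinv_int (h b)) iF.some_mem
  have hne : (rad e K (om (m + 1) 0) b)⁻¹ ≠ 0 := inv_ne_zero hb0.ne'
  have zF1 : (0 : E (m + 1)) ∈ interior ((rad e K (om (m + 1) 0) b)⁻¹ • fibr e K b) := by
    rw [interior_smul₀ hne]
    exact ⟨0, zF, smul_zero _⟩
  refine ⟨(rad e K (om (m + 1) 0) b)⁻¹ • fibr e K b, ⟨vF.smul _, cF.smul _, ⟨0, zF1⟩⟩, ?_, zF1,
    hK1.trans (rone_congr e fun u hu => ?_)⟩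
  · rintro σ _ ⟨w, hw, rfl⟩
    exact ⟨_, h b σ w hw, (map_smul _ _ _).symm⟩
  · rw [smul_smul, hl0 u hu, mul_assoc, mul_inv_cancel₀ hb0.ne', mul_one]

theorem sharp_S (hm : 1 ≤ m) (e : Fin k ⊕ Fin (m + 1) ≃ Fin n) {K : Set (E n)} (hK : Body K)
    (h : ∀ u, SInv (fibr e K u))
    (hW : ∀ j, Sharp (Wg e K (omB (m + 1) j) (cS (m + 1) 1))) : Sharp K := by
  obtain ⟨c, hc⟩ := exists_centre hK
  have h1 := mid_S e hK h c
  rw [hc] at h1
  have h2 := pq_S e hK h (fun j => (hW j).1.comp) fun j => c (e (Sum.inl j))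
  have h3 := (mul_le_mul' (rone_prod_low fun j =>
    rone_low (hW j) e fun j => c (e (Sum.inl j))) le_rfl).trans h2
  rw [← mul_pow] at h3
  have h4 := rone_pow_le h3
  have h5 : mahlerInf (cS n 1) < mstarInf K := by
    by_contra hle
    have h6 := h4.trans (mul_le_mul' (h1.trans (not_lt.1 hle)) le_rfl)
    rw [ENNReal.mul_le_mul_iff_right mahlerInf_cS_pos.ne' mahlerInf_cS_lt_top.ne] at h6
    exact (mahler_cS_lt hm).not_ge h6
  exact ⟨hK, h5.le, fun h6 => absurd h6 h5.not_ge⟩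

theorem sharp_T (e : Fin k ⊕ Fin (m + 1) ≃ Fin n) {K : Set (E n)} (hK : Body K)
    (h : ∀ u, TInv (fibr e K u))
    (hW : ∀ j, Sharp (Wg e K (om (m + 1) j) (cS (m + 1) 1))) : Sharp K := by
  obtain ⟨c, hc⟩ := exists_centre hK
  have h1 := mid_T e hK h c
  rw [hc] at h1
  set a : E k := fun j => c (e (Sum.inl j))
  obtain ⟨h2, h3⟩ := pq_T e hK h (fun j => (hW j).1.comp) a
  have hX : ∀ L : Set (E n), mahlerInf (shift e a L) = volume L * ∫⁻ y, expS (shift e a L) y :=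
    fun L => by rw [PL.mahlerInf_eq, shift, volume_sub]
  have hV0 := pow_ne_zero (m + 1) (volume_cS_pos (n := m + 1) one_pos).ne'
  have hVt : volume (cS (m + 1) 1) ^ (m + 1) ≠ ∞ := pow_ne_top (volume_cS_lt_top zero_le_one).ne
  have h4 : ∏ j, mahlerInf (shift e a (Wg e K (om (m + 1) j) (cS (m + 1) 1))) ≤
      mahlerInf (shift e a K) ^ (m + 1) := by
    rw [← ENNReal.mul_le_mul_iff_left hV0 hVt]
    simp only [hX, Finset.prod_mul_distrib]
    refine (le_of_eq (mul_assoc _ _ _)).trans ((mul_le_mul' h2 h3).trans (le_of_eq ?_))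
    ring
  have h5 := rone_prod_low fun j => rone_low (hW j) e a
  have h6 := rone_pow_le (h5.trans h4)
  refine ⟨hK, h6.trans h1, fun hle => ?_⟩
  have h7 := h1.trans hle
  have m0 := (mahlerInf_cS_pos (n := n)).ne'
  have mt := (mahlerInf_cS_lt_top (n := n)).ne
  have h8 := rone_each m0 mt (fun j => rone_low (hW j) e a) (h4.trans (pow_le_pow_left' h7 _))
  have hf := fun j => (hW j).2.2 ((iInf_le _ _).trans (h8 j))
  have hQt : (∫⁻ y, expS (shift e a K) y) ≠ ∞ := by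
    intro ht
    rw [hX, ht, ENNReal.mul_top (Measure.measure_pos_of_nonempty_interior _ hK.int).ne'] at h7
    exact mt (top_le_iff.1 h7)
  have h9 := (pow_le_pow_left' h7 (m + 1)).trans h5
  simp only [hX, Finset.prod_mul_distrib] at h9 h5
  set Q := ∏ j, ∫⁻ y, expS (shift e a (Wg e K (om (m + 1) j) (cS (m + 1) 1))) y
  have Q0 : Q ≠ 0 := by
    intro h0
    rw [h0, mul_zero] at h5
    exact pow_ne_zero _ m0 (le_zero_iff.1 h5)
  have Qt : Q ≠ ∞ := by
    intro ht
    rw [ht, ENNReal.top_mul hV0] at h3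
    exact pow_ne_top hQt (top_le_iff.1 h3)
  obtain ⟨F, bF, tF, zF, hF⟩ := rone_struct e hK h (fun j => (hW j).1.comp) hf (by
    rw [← ENNReal.mul_le_mul_iff_left Q0 Qt]
    refine le_trans ?_ h9
    rw [mul_pow, mul_pow, mul_assoc, mul_comm _ Q]
    exact mul_le_mul' le_rfl h3)
  have hτ : ∀ u ∈ base e K, 0 ≤ rad e K (om (m + 1) 0) u := fun u hu =>
    (rad_spec e hK.conv hK.comp (om_ne 0) hu).1
  have h10 := prod_formula e hτ bF.comp (isCompact_cS zero_le_one) zF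
    (zero_mem_interior_cS one_pos) (hF ▸ hK.comp) (hW 0).1.comp a
  rw [← hF] at h10
  have h11 : mahlerInf (cS n 1) * mahlerInf F ≤ mahlerInf (cS n 1) * mahlerInf (cS (m + 1) 1) :=
    (mul_le_mul' (rone_low (hW 0) e a) le_rfl).trans (h10.symm.le.trans (mul_le_mul' h7 le_rfl))
  obtain ⟨t, ht, rfl⟩ := bf_eq bF tF ((ENNReal.mul_le_mul_iff_right m0 mt).1 h11)
  obtain ⟨f, hf0⟩ := hf 0
  refine ⟨f.trans (dgE _ (wnorm_ne e ht)), ?_⟩
  rw [AffineEquiv.coe_trans, image_comp, ← hf0, coe_dgE, Wg, wnorm_scale e _ _ _ ht]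
  exact hF

end Pool.Agent.MP_5f4cdd_gt.W
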