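import Pool.Agent.MP_5f4cdd_gt.RBall

set_option autoImplicit false
open MeasureTheory ENNReal Set Function Filter Topology Pointwise

namespace Pool.Agent.MP_5f4cdd_gt.W

open PL EF AB

variable {n k m : ℕ}

/-- the weighted integral along a ray -/
noncomputable def rorth_I (m : ℕ) (g : E n → ℝ≥0∞) (x : E n) : ℝ≥0∞ :=
  ∫⁻ s in Ioi (0 : ℝ), ENNReal.ofReal (s ^ m) * g (s • x)

lemma rorth_scale (g : E n → ℝ≥0∞) (x : E n) {t : ℝ} (ht : 0 < t) :
    rorth_I m g x = ENNReal.ofReal (t ^ (m + 1)) * rorth_I m g (t • x) := by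
  have him : (fun s : ℝ => s * t) '' Ioi 0 = Ioi 0 := by
    ext u
    constructor
    · rintro ⟨s, hs, rfl⟩
      exact mul_pos hs ht
    · intro hu
      exact ⟨u / t, div_pos hu ht, div_mul_cancel₀ u ht.ne'⟩
  have h := lintegral_image_eq_lintegral_abs_deriv_mul (f := fun s : ℝ => s * t)
    (f' := fun _ => t) (s := Ioi 0) measurableSet_Ioi
    (fun s _ => (by simpa using (hasDerivAt_id s).mul_const t : HasDerivAt (fun s : ℝ => s * t) t s)
      |>.hasDerivWithinAt)
    (fun a _ b _ hab => mul_right_cancel₀ ht.ne' hab)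
    (fun u => ENNReal.ofReal (u ^ m) * g (u • x))
  rw [him] at h
  rw [rorth_I, h, rorth_I, ← lintegral_const_mul' _ _ ENNReal.ofReal_ne_top]
  refine setLIntegral_congr_fun measurableSet_Ioi fun s hs => ?_
  have hs' : 0 < s := hs
  rw [smul_smul, ← mul_assoc, ← mul_assoc, ← ENNReal.ofReal_mul (abs_nonneg _),
    ← ENNReal.ofReal_mul (by positivity), abs_of_pos ht]
  congr 2
  ring

lemma rorth_convex {g : E n → ℝ≥0∞} (hg : Measurable g)
    (H : ∀ x y : E n, (∀ i, 0 ≤ x i) → (∀ i, 0 ≤ y i) → ∀ a b : ℝ, 0 < a → 0 < b →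
      a + b = 1 → g x ^ a * g y ^ b ≤ g (a • x + b • y)) :
    Convex ℝ {x : E n | (∀ i, 0 ≤ x i) ∧ 1 ≤ rorth_I m g x} := by
  refine convex_iff_forall_pos.2 fun x hx y hy α β hα hβ hαβ => ⟨fun i => ?_, ?_⟩
  · exact add_nonneg (mul_nonneg hα.le (hx.1 i)) (mul_nonneg hβ.le (hy.1 i))
  have hm : ∀ z : E n, Measurable fun r : ℝ => g (r • z) := fun z => hg.comp (by fun_prop)
  have h := ball_gen m hα hβ hαβ (hm x) (hm y) (hm (α • x + β • y))
    fun r s a b hr hs ha hb hab e => by
      refine (H (r • x) (s • y) (fun i => mul_nonneg hr.le (hx.1 i))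
        (fun i => mul_nonneg hs.le (hy.1 i)) a b ha hb hab).trans (le_of_eq ?_)
      have e1 : (a * r + b * s) * α = a * r := by linear_combination a * r * hαβ - e
      have e2 : (a * r + b * s) * β = b * s := by linear_combination b * s * hαβ + e
      simp only [smul_add, smul_smul, e1, e2]
  have hc : (0 : ℝ) < 1 / (m + 1 : ℝ) := by positivity
  have h1 : ∀ z : E n, 1 ≤ rorth_I m g z → rorth_I m g z ^ (-(1 / (m + 1 : ℝ))) ≤ 1 :=
    fun z hz => ENNReal.rpow_le_one_of_one_le_of_neg hz (by linarith)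
  have h2 : rorth_I m g (α • x + β • y) ^ (-(1 / (m + 1 : ℝ))) ≤ 1 := by
    refine h.trans ((add_le_add (mul_le_mul_right (h1 x hx.2) _)
      (mul_le_mul_right (h1 y hy.2) _)).trans (le_of_eq ?_))
    rw [mul_one, mul_one, ← ENNReal.ofReal_add hα.le hβ.le, hαβ, ENNReal.ofReal_one]
  by_contra hlt
  rw [not_le] at hlt
  by_cases h0 : rorth_I m g (α • x + β • y) = 0
  · rw [h0, ENNReal.zero_rpow_of_neg (by linarith)] at h2
    exact absurd h2 (by simp)
  · exact absurd h2 (not_le.2 (ENNReal.one_lt_rpow_of_pos_of_lt_one_of_neg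
      (pos_iff_ne_zero.2 h0) hlt (by linarith)))

lemma rorth_gamma {c : ℝ} (hc : 0 < c) :
    ∫⁻ s in Ioi (0 : ℝ), ENNReal.ofReal (c / s ^ 2 * ((c / s) ^ m * Real.exp (-(c / s)))) =
      m.factorial := by
  have him : (fun s : ℝ => c / s) '' Ioi 0 = Ioi 0 := by
    ext u
    constructor
    · rintro ⟨s, hs, rfl⟩
      exact div_pos hc hs
    · intro hu
      exact ⟨c / u, div_pos hc hu, div_div_cancel₀ hc.ne'⟩
  have h := lintegral_image_eq_lintegral_abs_deriv_mul (f := fun s : ℝ => c / s)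
    (f' := fun s => -(c / s ^ 2)) (s := Ioi 0) measurableSet_Ioi
    (fun s hs => by
      have h1 := (hasDerivAt_inv (ne_of_gt hs)).const_mul c
      refine HasDerivAt.hasDerivWithinAt ?_
      simpa only [div_eq_mul_inv, mul_neg] using h1)
    (fun a ha b hb hab => by
      have ha' : 0 < a := ha
      have hb' : 0 < b := hb
      simp only at hab
      field_simp at hab
      linarith)
    (fun u => ENNReal.ofReal (u ^ m * Real.exp (-u)))
  rw [him] at h
  have h2 : ∫⁻ u in Ioi (0 : ℝ), ENNReal.ofReal (u ^ m * Real.exp (-u)) = m.factorial := by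
    have hp : (0 : ℝ) < m + 1 := by positivity
    have hi := Real.GammaIntegral_convergent hp
    have he := Real.Gamma_eq_integral hp
    simp only [add_sub_cancel_right, Real.rpow_natCast] at hi he
    simp only [mul_comm (_ ^ m)]
    rw [← ofReal_integral_eq_lintegral_ofReal hi
      ((ae_restrict_iff' measurableSet_Ioi).2 (ae_of_all _ fun u (hu : 0 < u) => by positivity)),
      ← he, Real.Gamma_nat_eq_factorial, ENNReal.ofReal_natCast]
  rw [← h2, h]
  refine setLIntegral_congr_fun measurableSet_Ioi fun s hs => ?_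
  have hs' : 0 < s := hs
  rw [abs_neg, abs_of_pos (by positivity), ← ENNReal.ofReal_mul (by positivity)]

lemma rorth_exp (A : Fin n → ℝ) (hA : ∀ j, 0 < A j) :
    ∫⁻ x in orth n, ENNReal.ofReal (Real.exp (-∑ j, x j / A j)) = ∏ j, ENNReal.ofReal (A j) := by
  have ho : orth n = Set.univ.pi fun _ => Ioi (0 : ℝ) := by
    ext x
    simp [orth]
  have hn : ∀ j, -(A j)⁻¹ < 0 := fun j => neg_lt_zero.2 (inv_pos.2 (hA j))
  have he : ∀ x : E n, Real.exp (-∑ j, x j / A j) = ∏ j, Real.exp (-(A j)⁻¹ * x j) := by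
    intro x
    rw [← Real.exp_sum, ← Finset.sum_neg_distrib]
    exact congrArg _ (Finset.sum_congr rfl fun j _ => by ring)
  simp only [he]
  rw [ho, volume_pi, Measure.restrict_pi_pi, ← ofReal_integral_eq_lintegral_ofReal
    (Integrable.fintype_prod_dep (f := fun j (t : ℝ) => Real.exp (-(A j)⁻¹ * t))
      fun j => integrableOn_exp_mul_Ioi (hn j) 0)
    (ae_of_all _ fun x => Finset.prod_nonneg fun j _ => (Real.exp_pos _).le),
    integral_fintype_prod_eq_prod (fun j (t : ℝ) => Real.exp (-(A j)⁻¹ * t)),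
    ← ENNReal.ofReal_prod_of_nonneg fun j _ => (hA j).le]
  refine congrArg _ (Finset.prod_congr rfl fun j _ => ?_)
  rw [integral_exp_mul_Ioi (hn j) 0]
  simp

lemma rorth_dil (F : E n → ℝ≥0∞) {s : ℝ} (hs : 0 < s) :
    ∫⁻ x in orth n, F (s • x) = ENNReal.ofReal (s ^ n)⁻¹ * ∫⁻ y in orth n, F y := by
  have hd : LinearMap.det (s • (LinearMap.id : E n →ₗ[ℝ] E n)) = s ^ n := by
    rw [LinearMap.det_smul]
    simp
  have h := lintegral_comp_lin' (s • (LinearMap.id : E n →ₗ[ℝ] E n))
    (by rw [hd]; positivity) ((orth n).indicator F)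
  rw [hd, abs_of_pos (by positivity), lintegral_indicator measurableSet_orth] at h
  rw [← h, ← lintegral_indicator measurableSet_orth]
  refine lintegral_congr fun x => ?_
  have hx : s • x ∈ orth n ↔ x ∈ orth n :=
    forall_congr' fun i => mul_pos_iff_of_pos_left hs
  by_cases h1 : x ∈ orth n
  · rw [indicator_of_mem h1]
    exact (indicator_of_mem (hx.2 h1) F).symm
  · rw [indicator_of_notMem h1]
    exact (indicator_of_notMem (fun h2 => h1 (hx.1 h2)) F).symm

lemma rorth_swap {g : E (m + 1) → ℝ≥0∞} (hg : Measurable g) (A : Fin (m + 1) → ℝ)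
    (hA : ∀ j, 0 < A j) :
    ∫⁻ x in orth (m + 1), ENNReal.ofReal ((∑ j, x j / A j) ^ (m + 1) *
      Real.exp (-∑ j, x j / A j)) * rorth_I m g x =
      (m.factorial : ℝ≥0∞) * ∫⁻ r in orth (m + 1), g r := by
  set L : E (m + 1) → ℝ := fun x => ∑ j, x j / A j with hL
  have mL : Measurable L := by fun_prop
  have Ls : ∀ (s : ℝ) (x : E (m + 1)), L (s • x) = s * L x := fun s x => by
    simp only [hL, Finset.mul_sum, Pi.smul_apply, smul_eq_mul, mul_div_assoc]
  have Lp : ∀ x ∈ orth (m + 1), 0 < L x := fun x hx =>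
    Finset.sum_pos (fun j _ => div_pos (hx j) (hA j)) Finset.univ_nonempty
  set F : ℝ → E (m + 1) → ℝ≥0∞ := fun s y =>
    ENNReal.ofReal (L y / s ^ 2 * ((L y / s) ^ m * Real.exp (-(L y / s)))) * g y with hF
  have h1 : ∀ s ∈ Ioi (0 : ℝ), ∫⁻ x in orth (m + 1),
      ENNReal.ofReal (L x ^ (m + 1) * Real.exp (-L x)) * (ENNReal.ofReal (s ^ m) * g (s • x)) =
      ∫⁻ y in orth (m + 1), F s y := by
    intro s hs
    have hs' : 0 < s := hs
    have h2 := rorth_dil (fun y => ENNReal.ofReal (s ^ (m + 1)) * F s y) hs'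
    rw [lintegral_const_mul' (ENNReal.ofReal (s ^ (m + 1))) (F s) ENNReal.ofReal_ne_top,
      ← mul_assoc, ← ENNReal.ofReal_mul (by positivity), inv_mul_cancel₀ (by positivity),
      ENNReal.ofReal_one, one_mul] at h2
    rw [← h2]
    refine setLIntegral_congr_fun measurableSet_orth fun x hx => ?_
    have := Lp x hx
    simp only [hF, Ls]
    rw [← mul_assoc, ← mul_assoc, ← ENNReal.ofReal_mul (by positivity),
      ← ENNReal.ofReal_mul (by positivity), mul_div_cancel_left₀ _ hs'.ne']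
    congr 2
    field_simp
    ring
  calc ∫⁻ x in orth (m + 1), ENNReal.ofReal (L x ^ (m + 1) * Real.exp (-L x)) * rorth_I m g x
      = ∫⁻ x in orth (m + 1), ∫⁻ s in Ioi (0 : ℝ),
          ENNReal.ofReal (L x ^ (m + 1) * Real.exp (-L x)) *
            (ENNReal.ofReal (s ^ m) * g (s • x)) :=
        lintegral_congr fun x => (lintegral_const_mul' _ _ ENNReal.ofReal_ne_top).symm
    _ = ∫⁻ s in Ioi (0 : ℝ), ∫⁻ y in orth (m + 1), F s y := by
        rw [lintegral_lintegral_swap]
        · exact setLIntegral_congr_fun measurableSet_Ioi h1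
        · refine Measurable.aemeasurable ?_
          have : Measurable fun p : E (m + 1) × ℝ => g (p.2 • p.1) := hg.comp (by fun_prop)
          unfold uncurry
          fun_prop
    _ = ∫⁻ y in orth (m + 1), (m.factorial : ℝ≥0∞) * g y := by
        rw [lintegral_lintegral_swap]
        · refine setLIntegral_congr_fun measurableSet_orth fun y hy => ?_
          simp only [hF]
          rw [lintegral_mul_const _ (by fun_prop), rorth_gamma (Lp y hy)]
        · refine Measurable.aemeasurable ?_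
          unfold uncurry
          simp only [hF]
          fun_prop
    _ = _ := lintegral_const_mul _ hg

lemma rorth_lim {ι : Type} [Fintype ι] (I : ι → ℝ≥0∞) (T : ℝ≥0∞)
    (h : ∀ B : ι → ℝ≥0∞, (∀ j, B j ≠ 0 ∧ B j ≠ ⊤ ∧ B j ≤ I j) → ∏ j, B j ≤ T) :
    ∏ j, I j ≤ T := by
  classical
  by_cases h0 : ∃ j, I j = 0
  · obtain ⟨j, hj⟩ := h0
    rw [Finset.prod_eq_zero (Finset.mem_univ j) hj]
    exact zero_le
  push Not at h0
  by_cases ht : ∃ j, I j = ⊤
  swap
  · push Not at ht
    exact h I fun j => ⟨h0 j, ht j, le_rfl⟩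
  obtain ⟨j, hj⟩ := ht
  by_contra hT
  have hT' : T ≠ ⊤ := fun e => hT (e ▸ le_top)
  have hc : ∏ i ∈ Finset.univ.erase j, min (I i) 1 ≠ 0 :=
    Finset.prod_ne_zero_iff.2 fun i _ => (lt_min (pos_iff_ne_zero.2 (h0 i)) one_pos).ne'
  obtain ⟨N, hN⟩ := ENNReal.exists_nat_mul_gt hc hT'
  have h1 := h (fun i => min (I i) (N + 1)) fun i =>
    ⟨(lt_min (pos_iff_ne_zero.2 (h0 i)) (by positivity)).ne',
      ne_top_of_le_ne_top (by simp) (min_le_right _ _), min_le_left _ _⟩
  rw [← Finset.mul_prod_erase _ _ (Finset.mem_univ j), hj, min_eq_right le_top] at h1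
  refine absurd (hN.trans_le (le_trans ?_ h1)) (lt_irrefl _)
  exact mul_le_mul' le_self_add
    (Finset.prod_le_prod' fun i _ => min_le_min_left _ le_add_self)

/-- integrals of log-concave functions over the orthant versus weighted integrals on the axes -/
theorem ball_orth {g : E (m + 1) → ℝ≥0∞} (hg : Measurable g)
    (H : ∀ x y : E (m + 1), (∀ i, 0 ≤ x i) → (∀ i, 0 ≤ y i) → ∀ a b : ℝ, 0 < a → 0 < b →
      a + b = 1 → g x ^ a * g y ^ b ≤ g (a • x + b • y)) :
    ∏ j, ∫⁻ s in Ioi (0 : ℝ), ENNReal.ofReal (s ^ m) * g (Pi.single j s) ≤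
      ((m.factorial : ℝ≥0∞) * ∫⁻ r in orth (m + 1), g r) ^ (m + 1) := by
  refine rorth_lim _ _ fun B hB => ?_
  have hB0 : ∀ j, 0 < (B j).toReal := fun j => ENNReal.toReal_pos (hB j).1 (hB j).2.1
  set A : Fin (m + 1) → ℝ := fun j => (B j).toReal ^ (((m + 1 : ℕ) : ℝ)⁻¹) with hAd
  have hA : ∀ j, 0 < A j := fun j => Real.rpow_pos_of_pos (hB0 j) _
  have hAB : ∀ j, ENNReal.ofReal (A j ^ (m + 1)) = B j := fun j => by
    rw [hAd, Real.rpow_inv_natCast_pow (hB0 j).le (Nat.succ_ne_zero m),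
      ENNReal.ofReal_toReal (hB j).2.1]
  have hK : ∀ j, (Pi.single j (A j) : E (m + 1)) ∈
      {x : E (m + 1) | (∀ i, 0 ≤ x i) ∧ 1 ≤ rorth_I m g x} := by
    intro j
    refine ⟨fun i => ?_, ?_⟩
    · rw [Pi.single_apply]
      split_ifs
      · exact (hA j).le
      · exact le_rfl
    have e : ∀ s : ℝ, (Pi.single j s : E (m + 1)) = s • Pi.single j 1 := fun s => by
      rw [← Pi.single_smul, smul_eq_mul, mul_one]
    have h1 : B j ≤ rorth_I m g (Pi.single j 1) := by
      refine (hB j).2.2.trans (le_of_eq ?_)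
      simp only [rorth_I, ← e]
    rw [rorth_scale g _ (hA j), hAB, ← e] at h1
    exact (ENNReal.mul_le_mul_iff_right (hB j).1 (hB j).2.1).1 ((mul_one _).trans_le h1)
  have key : ∏ j, ENNReal.ofReal (A j) ≤ (m.factorial : ℝ≥0∞) * ∫⁻ r in orth (m + 1), g r := by
    rw [← rorth_exp A hA, ← rorth_swap hg A hA]
    refine setLIntegral_mono' measurableSet_orth fun x hx => ?_
    have Lp : 0 < ∑ j, x j / A j :=
      Finset.sum_pos (fun j _ => div_pos (hx j) (hA j)) Finset.univ_nonempty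
    set L := ∑ j, x j / A j with hL
    have h1 := (rorth_convex (m := m) hg H).sum_mem (t := Finset.univ)
      (w := fun j => x j / A j / L) (fun j _ => (div_pos (div_pos (hx j) (hA j)) Lp).le)
      (by rw [← Finset.sum_div, ← hL, div_self Lp.ne']) fun j _ => hK j
    have e : ∑ j, (x j / A j / L) • (Pi.single j (A j) : E (m + 1)) = L⁻¹ • x := by
      ext i
      simp only [Finset.sum_apply, Pi.smul_apply, Pi.single_apply, smul_eq_mul, mul_ite,
        mul_zero, Finset.sum_ite_eq, Finset.mem_univ, if_true]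
      have := (hA i).ne'
      field_simp
    rw [e] at h1
    have h2 := h1.2
    rw [rorth_scale g _ Lp, smul_smul, mul_inv_cancel₀ Lp.ne', one_smul] at h2
    rw [mul_comm (L ^ (m + 1)), ENNReal.ofReal_mul (Real.exp_pos _).le, mul_assoc]
    exact (mul_one _).symm.trans_le (mul_le_mul_right h2 _)
  calc ∏ j, B j = (∏ j, ENNReal.ofReal (A j)) ^ (m + 1) := by
        rw [← Finset.prod_pow]
        exact Finset.prod_congr rfl fun j _ => by
          rw [← hAB j, ENNReal.ofReal_pow (hA j).le]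
    _ ≤ _ := pow_le_pow_left' key _

end Pool.Agent.MP_5f4cdd_gt.W
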