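import Pool.Agent.MP_5f4cdd_gt.RCoreP
import Pool.Agent.MP_5f4cdd_gt.RCoreQ
import Pool.Agent.MP_5f4cdd_gt.RFub
import Pool.Agent.MP_5f4cdd_gt.RFix

set_option autoImplicit false
open MeasureTheory ENNReal Set Function Filter Topology Pointwise

namespace Pool.Agent.MP_5f4cdd_gt.W

open PL EF AB

variable {n k m : ℕ}

lemma rpq_polar : mahlerInf (cS m 1) =
    (m.factorial : ℝ≥0∞) * (volume (cS m 1) * volume (polarS (cS m 1))) :=
  EF.mahlerInf_polar (isCompact_cS zero_le_one).isBounded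
    (interior_subset (zero_mem_interior_cS one_pos))

lemma rpq_const : volume (cS m 1) * volume (polarS (cS m 1)) * ENNReal.ofReal (∏ j, cA m j) ≤
    ((m + 1 : ℕ) : ℝ≥0∞) := by
  have h1 := AB.mahlerInf_cS_le (n := m)
  have h2 := (mahlerInf_cS_lt_top (n := m)).ne
  rw [rpq_polar] at h1 h2
  have h3 : volume (cS m 1) * volume (polarS (cS m 1)) ≠ ∞ := fun h => h2 (by
    rw [h, ENNReal.mul_top (Nat.cast_ne_zero.2 m.factorial_ne_zero)])
  rw [ENNReal.toReal_mul, ENNReal.toReal_natCast] at h1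
  rw [← ENNReal.ofReal_toReal h3, ← ENNReal.ofReal_mul ENNReal.toReal_nonneg,
    ← ENNReal.ofReal_natCast, prod_cA]
  refine ENNReal.ofReal_le_ofReal ?_
  rw [← mul_div_assoc, div_le_iff₀ (by positivity)]
  push_cast
  rw [pow_succ] at h1
  linarith

lemma rpq_step {x : ℕ} (hx : 3 ≤ x) : ((x : ℝ) + 1) ^ (x + 1) ≤ 4 * (x : ℝ) ^ (x + 1) := by
  have h0 : (3 : ℝ) ≤ x := by exact_mod_cast hx
  have h1 : (0 : ℝ) < x := by linarith
  have h2 : (x : ℝ) + 1 ≤ x * Real.exp (1 / x) := by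
    have h := mul_le_mul_of_nonneg_left (Real.add_one_le_exp (1 / (x : ℝ))) h1.le
    rw [mul_add, mul_one_div_cancel h1.ne'] at h
    linarith
  have h3 : ((x : ℝ) + 1) ^ x ≤ (x : ℝ) ^ x * 3 := by
    refine (pow_le_pow_left₀ (by positivity) h2 x).trans ?_
    rw [mul_pow, ← Real.exp_nat_mul, mul_one_div_cancel h1.ne']
    exact mul_le_mul_of_nonneg_left (by linarith [Real.exp_one_lt_d9]) (by positivity)
  have h4 : (0 : ℝ) ≤ (x : ℝ) ^ x := by positivity
  have h5 := mul_le_mul_of_nonneg_right h3 (show (0 : ℝ) ≤ x + 1 by linarith)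
  have h6 := mul_le_mul_of_nonneg_left h0 h4
  rw [pow_succ, pow_succ]
  linarith

lemma rpq_num {M : ℕ} (hM : 2 ≤ M) : ((M : ℝ) + 1) ^ (M + 1) < 4 ^ M * M.factorial := by
  induction M, hM using Nat.le_induction with
  | base => norm_num
  | succ M hM ih =>
    have h1 := rpq_step (x := M + 1) (by omega)
    have h2 := mul_lt_mul_of_pos_left ih (show (0 : ℝ) < 4 * (M + 1) by positivity)
    rw [Nat.factorial_succ]
    push_cast at h1 ⊢
    refine h1.trans_lt (lt_of_eq_of_lt ?_ (h2.trans_eq ?_))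
    · ring
    · ring

theorem pq_T (e : Fin k ⊕ Fin (m + 1) ≃ Fin n) {K : Set (E n)} (hK : Body K)
    (h : ∀ u, TInv (fibr e K u))
    (hW : ∀ j, IsCompact (Wg e K (om (m + 1) j) (cS (m + 1) 1))) (a : E k) :
    ∏ j, volume (Wg e K (om (m + 1) j) (cS (m + 1) 1)) ≤
      (volume K * volume (cS (m + 1) 1)) ^ (m + 1) ∧
    (∏ j, ∫⁻ y, expS (shift e a (Wg e K (om (m + 1) j) (cS (m + 1) 1))) y) *
      volume (cS (m + 1) 1) ^ (m + 1) ≤ (∫⁻ y, expS (shift e a K) y) ^ (m + 1) := by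
  have h0 : ∀ u v, wpf_j e (u, v) ∈ K → wpf_j e (u, 0) ∈ K := fun u v hv =>
    zero_mem_T (convex_fibr e hK.conv u) (h u) (v := v) hv
  refine ⟨(core_P e hK _ om_ne h0 (isCompact_cS zero_le_one) hW).trans ?_, ?_⟩
  · exact pow_le_pow_left' (mul_le_mul_left (vol_T e hK.comp h) _) _
  have h1 := core_Q e hK (om (m + 1)) (fun j => Gam (m + 1) (om (m + 1) j)) (cA (m + 1)) cA_pos
    om_dot_self h0 (fun j u v hv => proj_mem_T (convex_fibr e hK.conv u) (h u) (v := v) hv j)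
    (isCompact_cS zero_le_one) (zero_mem_interior_cS one_pos) hW a
  refine (mul_le_mul_left h1 _).trans ?_
  rw [← mul_pow]
  refine pow_le_pow_left' (le_trans ?_ (exp_T e hK.comp (hK.int.mono interior_subset) h a)) _
  have h2 := mul_le_mul_right (rpq_const (m := m + 1)) (((m + 1).factorial : ℝ≥0∞) *
    ∫⁻ r in orth (m + 1), ∫⁻ ξ, expS (shift e a K)
      (wpf_j e (ξ, comb (fun j => Gam (m + 1) (om (m + 1) j)) r)))
  refine le_trans (le_of_eq ?_) (h2.trans (le_of_eq ?_))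
  · ring
  · rw [Nat.factorial_succ (m + 1), Nat.cast_mul]
    ring

theorem pq_S (e : Fin k ⊕ Fin (m + 1) ≃ Fin n) {K : Set (E n)} (hK : Body K)
    (h : ∀ u, SInv (fibr e K u))
    (hW : ∀ j, IsCompact (Wg e K (omB (m + 1) j) (cS (m + 1) 1))) (a : E k) :
    (∏ j, mahlerInf (shift e a (Wg e K (omB (m + 1) j) (cS (m + 1) 1)))) *
      (4 ^ (m + 1)) ^ (m + 1) ≤
      (mahlerInf (shift e a K) * mahlerInf (cS (m + 1) 1)) ^ (m + 1) := by
  have h0 : ∀ u v, wpf_j e (u, v) ∈ K → wpf_j e (u, 0) ∈ K := fun u v hv =>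
    zero_mem_S (convex_fibr e hK.conv u) (h u) (v := v) hv
  have h1 := core_P e hK _ omB_ne h0 (isCompact_cS zero_le_one) hW
  have h2 := core_Q e hK (omB (m + 1)) (omB (m + 1)) (fun j => ((j : ℕ) + 1 : ℝ))
    (fun j => by positivity) omB_dot_self h0
    (fun j u v hv => proj_mem_S (convex_fibr e hK.conv u) (h u) (v := v) hv j)
    (isCompact_cS zero_le_one) (zero_mem_interior_cS one_pos) hW a
  have h3 := mul_le_mul' (vol_S e hK.comp h) (exp_S e hK.comp (hK.int.mono interior_subset) h a)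
  have h4 : ∀ L : Set (E n), mahlerInf (shift e a L) = volume L * ∫⁻ y, expS (shift e a L) y :=
    fun L => by rw [PL.mahlerInf_eq, shift, volume_sub]
  rw [prod_cB, ENNReal.ofReal_natCast] at h2
  simp only [h4]
  rw [Finset.prod_mul_distrib]
  refine (mul_le_mul_left (mul_le_mul' h1 h2) _).trans ?_
  rw [← mul_pow, ← mul_pow]
  refine pow_le_pow_left' (le_trans (le_of_eq ?_) (mul_le_mul_left h3 _)) _
  rw [rpq_polar, show (4 : ℝ≥0∞) = 2 * 2 by norm_num, mul_pow]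
  ring

theorem mahler_cS_lt (hm : 1 ≤ m) : mahlerInf (cS (m + 1) 1) < 4 ^ (m + 1) := by
  have h1 := (AB.mahlerInf_cS_le (n := m + 1)).trans_lt (rpq_num (by omega))
  rw [mul_comm] at h1
  have h2 := lt_of_mul_lt_mul_right h1 (Nat.cast_nonneg _)
  rw [← ENNReal.toReal_lt_toReal mahlerInf_cS_lt_top.ne (by finiteness)]
  simpa using h2

end Pool.Agent.MP_5f4cdd_gt.W
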