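import Pool.Agent.MP_5f4cdd_gt.WLift

set_option autoImplicit false
open MeasureTheory ENNReal Set Function Filter Topology Pointwise

namespace Pool.Agent.MP_5f4cdd_gt.W

open PL EF AB

variable {n : ℕ} {g : Fin n → Fin 3}

lemma wapprox_pos {K : Set (E n)} (hK : ∀ z ∈ K, ∀ i, 0 ≤ z i) {x : E n} (hx : x ∈ interior K)
    (i : Fin n) : 0 < x i := by
  have h : ∀ᶠ t in 𝓝 (0 : ℝ), x - t • (Pi.single i 1 : E n) ∈ K :=
    ContinuousAt.preimage_mem_nhds (by fun_prop) (by simpa using mem_interior_iff_mem_nhds.1 hx)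
  obtain ⟨t, h1, h2⟩ := ((h.filter_mono nhdsWithin_le_nhds).and
    (self_mem_nhdsWithin (a := (0 : ℝ)) (s := Ioi 0))).exists
  have := hK _ h1 i
  simp only [Pi.sub_apply, Pi.smul_apply, Pi.single_eq_same, smul_eq_mul, mul_one] at this
  exact h2.trans_le (sub_nonneg.1 this)

lemma wapprox_marks (hg : Surjective g) {ι κ : Type} [Finite ι] [Finite κ] {x : ι → E 3}
    {y : κ → E 3} (h : DualPair x y) {c : E 3} (hc : ∀ j, 0 < c j)
    (hx : ∀ z ∈ convexHull ℝ (range x), ∀ j, 0 ≤ z j + c j) :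
    ∃ (y' : κ ⊕ Fin 3 → E 3) (ρ : Fin 3 → ℝ), DualPair x y' ∧ (∀ j, 0 < ρ j) ∧
      ∀ Z, Z ∈ convexHull ℝ (range (LX g x y' Sum.inr ρ)) ↔
        bs g Z ∈ convexHull ℝ (range x) ∧ ∀ k, 0 ≤ up g c k + Z k := by
  set y' : κ ⊕ Fin 3 → E 3 := Sum.elim y fun j => -(c j)⁻¹ • Pi.single j 1 with hy'
  have hd : ∀ j z, y' (Sum.inr j) ⬝ᵥ z = -(z j / c j) := fun j z => by
    simp [hy', div_eq_inv_mul]
  have h' : DualPair x y' := dualPair_of_eq (Subset.antisymm (fun z hz j => ?_) fun z hz => ?_)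
  · have hρ : ∀ j, 0 < c j / bN g j := fun j => div_pos (hc j) (bN_pos hg j)
    refine ⟨y', _, h', hρ, fun Z => ?_⟩
    rw [(dualPair_lift hg h' Sum.inr hρ).1, h'.1]
    refine Sum.forall.trans (and_congr (forall_congr' fun j => by rw [LY_inl_dot])
      (forall_congr' fun k => ?_))
    have h1 := hc (g k)
    have h2 := bN_pos hg (g k)
    have : (1 : ℝ) - (-(bs g Z (g k) / c (g k)) - (c (g k) / bN g (g k))⁻¹ *
        (Z k - bs g Z (g k) / bN g (g k))) =
        (c (g k) / bN g (g k))⁻¹ * (c (g k) / bN g (g k) + Z k) := by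
      field_simp
      ring
    rw [LY_inr_dot, hd, up_apply, ← sub_nonneg, this, mul_nonneg_iff_of_pos_left (inv_pos.2 (hρ _))]
  · rcases j with j | j
    · exact (h.1 ▸ hz :) j
    · rw [hd, neg_le, le_div_iff₀ (hc j)]
      linarith [hx z hz j]
  · rw [h.1]
    exact fun j => hz (Sum.inl j)

theorem good_wedge {ε ε' : ℝ} {μ : ℝ≥0∞} (hεε' : ε < ε') (hε' : ε' < 1) (moat : Moat n ε ε' μ)
    (hg : Surjective g)
    (hP : ∀ (ι κ : Type) [Finite ι] [Finite κ] (x : ι → E 3) (y : κ → E 3) (m : Fin 3 → κ)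
      (ρ : Fin 3 → ℝ), DualPair x y → (∀ j, 0 < ρ j) →
      AB.Good ε μ (convexHull ℝ (range (LX g x y m ρ))))
    {K : Set (E n)} {C : Set (E 3)} (hK : Body K)
    (hKC : K = {x | (∀ i, 0 ≤ x i) ∧ bs g x ∈ C}) : AB.Good ε μ K := by
  intro hi hM
  obtain ⟨δ, hδ, H⟩ := hK.cont hεε' hε' hM
  have hnn : ∀ z ∈ K, ∀ i, 0 ≤ z i := fun z hz => (hKC ▸ hz :).1
  have hmem : ∀ z, (∀ i, 0 ≤ z i) → bs g z ∈ bs g '' K → z ∈ K := by
    rintro z h1 ⟨w, hw, h2⟩
    rw [hKC] at hw ⊢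
    exact ⟨h1, h2 ▸ hw.2⟩
  obtain ⟨x0, hx0⟩ := hK.int
  set c := bs g x0 with hcd
  have hc : ∀ j, 0 < c j := fun j => by
    rw [hcd, bs_apply]
    exact Finset.sum_pos (fun i _ => wapprox_pos hnn hx0 i)
      ((hg j).imp fun k hk => by simpa using hk)
  have hu0 : ∀ k, 0 ≤ up g c k := fun k => (div_pos (hc _) (bN_pos hg _)).le
  set D : Set (E 3) := (fun z => z + c) ⁻¹' (bs g '' K) with hD
  have hDv : Convex ℝ D := (hK.conv.linear_image _).translate_preimage_left c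
  have hDc : IsCompact D := (Homeomorph.addRight c).isCompact_preimage.2
    (hK.comp.image (bs g).continuous_of_finiteDimensional)
  have hD0 : D ∈ 𝓝 (0 : E 3) := by
    have h1 : (fun z => up g z + x0) ⁻¹' K ∈ 𝓝 (0 : E 3) := ContinuousAt.preimage_mem_nhds
      ((up g).continuous_of_finiteDimensional.add continuous_const).continuousAt
      (by simpa using mem_interior_iff_mem_nhds.1 hx0)
    exact mem_of_superset h1 fun z hz => ⟨_, hz, by rw [map_add, bs_up hg]⟩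
  obtain ⟨R, hR, hKR⟩ := hK.comp.isBounded.subset_closedBall_lt 0 (up g c)
  set η := min (1 / 2) (δ / R) with hη
  have hη0 : 0 < η := by positivity
  have hη1 : η < 1 := (min_le_left _ _).trans_lt (by norm_num)
  have hηR : η * R ≤ δ := (le_div_iff₀ hR).1 (min_le_right _ _)
  have hs : 0 < 1 - η := by linarith
  obtain ⟨ι, _, x, hx1, hx2⟩ := exists_polytope hDv hDc (mem_interior_iff_mem_nhds.2 hD0) hη0 hη1.le
  have hP0 : (0 : E 3) ∈ interior (convexHull ℝ (range x)) := by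
    rw [mem_interior_iff_mem_nhds]
    have h1 : (fun z : E 3 => (1 - η)⁻¹ • z) ⁻¹' D ∈ 𝓝 (0 : E 3) :=
      ContinuousAt.preimage_mem_nhds (by fun_prop) (by simpa using hD0)
    refine mem_of_superset h1 fun z hz => hx1 ⟨_, hz, ?_⟩
    simp [AffineMap.homothety_apply, smul_smul, mul_inv_cancel₀ hs.ne']
  obtain ⟨κ, _, y, hxy⟩ := exists_dual x hP0
  obtain ⟨y', ρ, hxy', hρ, hZ⟩ := wapprox_marks hg hxy hc fun z hz j => by
    obtain ⟨w, hw, e⟩ := hx2 hz
    have : z j + c j = bs g w j := (congrFun e j).symm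
    rw [this, bs_apply]
    exact Finset.sum_nonneg fun i _ => hnn w hw i
  set e := AffineEquiv.constVAdd ℝ (E n) (up g c)
  have he : ∀ Z, e Z = up g c + Z := fun _ => rfl
  have hB : Body (e '' convexHull ℝ (range (LX g x y' Sum.inr ρ))) :=
    ⟨(convex_convexHull ℝ _).affine_image e.toAffineMap,
      (isCompact_hull _).image (continuous_const.add continuous_id),
      (interior_affine e _).2 ⟨0, (dualPair_lift hg hxy' Sum.inr hρ).zero_mem_interior⟩⟩
  obtain ⟨-, h2, h3, -⟩ := H _ hB (fun a ha => by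
      refine ⟨_, ⟨(1 - η) • (a - up g c), (hZ _).2 ⟨hx1 ⟨bs g a - c, ⟨a, ha, by simp⟩, ?_⟩,
        fun k => ?_⟩, rfl⟩, ?_⟩
      · simp [AffineMap.homothety_apply, bs_up hg]
      · simp only [Pi.smul_apply, Pi.sub_apply, smul_eq_mul]
        nlinarith [mul_nonneg hs.le (hnn a ha k), mul_nonneg hη0.le (hu0 k)]
      · rw [he, show a - (up g c + (1 - η) • (a - up g c)) = η • (a - up g c) by module,
          norm_smul, Real.norm_of_nonneg hη0.le]
        exact (mul_le_mul_of_nonneg_left (mem_closedBall_iff_norm.1 (hKR ha)) hη0.le).trans hηR)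
    (by
      rintro _ ⟨Z, h, rfl⟩
      obtain ⟨h1, h2⟩ := (hZ Z).1 h
      refine ⟨_, hmem (e Z) h2 ?_, by simpa using hδ.le⟩
      rw [he, map_add, bs_up hg, add_comm]
      exact hx2 h1)
  exact moat K hK.conv hK.comp hi hM
    (h2 ((hP _ _ x y' Sum.inr ρ hxy' hρ).image (hεε'.trans hε') e hB.int (h3 le_rfl)))

end Pool.Agent.MP_5f4cdd_gt.W
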