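import Pool.Agent.MP_5f4cdd_gt.RDef
import Pool.Agent.MP_5f4cdd_gt.WMain

set_option autoImplicit false
open MeasureTheory ENNReal Set Function Filter Topology Pointwise

namespace Pool.Agent.MP_5f4cdd_gt.W

open PL EF AB

variable {n k m : ℕ}

theorem rsharp_lt {c : ℝ} (hc : 0 < c) :
    mahlerInf (cS n 1) < ENNReal.ofReal (1 + c) * mahlerInf (cS n 1) := by
  have h : (1 : ℝ≥0∞) < ENNReal.ofReal (1 + c) := ENNReal.one_lt_ofReal.2 (by linarith)
  simpa using (ENNReal.mul_lt_mul_iff_left mahlerInf_cS_pos.ne' mahlerInf_cS_lt_top.ne).2 h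

theorem eq_of_vol {A C : Set (E n)} (hC : Convex ℝ C) (hi : (interior C).Nonempty)
    (hA : IsClosed A) (hAC : A ⊆ C) (hv : volume C ≤ volume A) (ht : volume A ≠ ∞) : C ⊆ A := by
  intro x hx
  by_contra hxA
  have h1 : x ∈ closure (interior C) := by
    rw [hC.closure_interior_eq_closure_of_nonempty_interior hi]
    exact subset_closure hx
  have h2 : (Aᶜ ∩ interior C).Nonempty := mem_closure_iff.1 h1 _ hA.isOpen_compl hxA
  have h3 : IsOpen (Aᶜ ∩ interior C) := hA.isOpen_compl.inter isOpen_interior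
  have h4 := h3.measure_pos volume h2
  have h5 : volume (A ∪ (Aᶜ ∩ interior C)) ≤ volume A :=
    (measure_mono (union_subset hAC fun y hy => interior_subset hy.2)).trans hv
  rw [measure_union (disjoint_compl_right.mono_right inter_subset_left) h3.measurableSet] at h5
  exact absurd (ENNReal.lt_add_right ht h4.ne') (not_lt.2 h5)

theorem exists_centre {K : Set (E n)} (hK : Body K) :
    ∃ c : E n, mahlerInf ((fun z => z - c) '' K) = mstarInf K := by
  obtain ⟨c, hc, h⟩ := exists_santalo hK.conv hK.comp.isBounded hK.int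
  refine ⟨c, ?_⟩
  rw [mstarInf_eq hK.comp.isBounded (hK.int.mono interior_subset), h, PL.mahlerInf_eq, volume_sub,
    lintegral_expS_sub hK.comp.isBounded (interior_subset hc)]

theorem Sharp.image {K : Set (E n)} (h : Sharp K) (f : E n ≃ᵃ[ℝ] E n) : Sharp (f '' K) := by
  refine ⟨wcs_body_image h.1 f, ?_, fun hle => ?_⟩
  · rw [mstarInf_affine]
    exact h.2.1
  · rw [mstarInf_affine] at hle
    obtain ⟨g, hg⟩ := h.2.2 hle
    exact ⟨g.trans f, by rw [AffineEquiv.coe_trans, image_comp, hg]⟩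

theorem Sharp.good {K : Set (E n)} (h : Sharp K) {ε : ℝ} (hε : 0 < ε) :
    ∃ μ, mahlerInf (cS n 1) < μ ∧ AB.Good ε μ K := by
  by_cases hle : mstarInf K ≤ mahlerInf (cS n 1)
  · obtain ⟨g, hg⟩ := h.2.2 hle
    exact ⟨∞, mahlerInf_cS_lt_top, fun _ _ => hg ▸ (near_simplex g).mono hε.le⟩
  · exact ⟨mstarInf K, not_le.1 hle, fun _ h' => absurd h' (lt_irrefl _)⟩

theorem sharp_of_good {K : Set (E n)} (hK : Body K)
    (h : ∀ ε : ℝ, 0 < ε → ∃ μ, mahlerInf (cS n 1) < μ ∧ AB.Good ε μ K) : Sharp K := by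
  obtain ⟨ε, κ, hε, hκ, hA⟩ := local_inf n
  obtain ⟨μ, hμ, hG⟩ := h (min ε (1 / 2)) (by positivity)
  have key : mstarInf K ≤ mahlerInf (cS n 1) →
      mahlerInf (cS n 1) ≤ mstarInf K ∧ ∃ f : E n ≃ᵃ[ℝ] E n, K = f '' stdS n := by
    intro hle
    obtain ⟨c, hc⟩ := exists_centre hK
    obtain ⟨e, he1, he2⟩ := ((near_sub_iff ((min_le_right _ _).trans_lt (by norm_num)) K c).2
      (hG hK.int (hle.trans_lt hμ))).mono (min_le_left _ _)
    have cA := isCompact_image_sub hK.comp c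
    have iA := interior_image_sub hK.int c
    obtain ⟨e', h1, h2⟩ := hA _ (convex_image_sub hK.conv c) cA iA e he1 he2
    rw [hc] at h2
    have hSt : volume (e' '' stdS n) ≠ ∞ := by
      rw [volume_image_affine]
      exact ENNReal.mul_ne_top ENNReal.ofReal_ne_top volume_stdS_ne_top
    have hw : 0 ≤ 1 - (volume ((fun z => z - c) '' K)).toReal /
        (volume (e' '' stdS n)).toReal := sub_nonneg.2
      (div_le_one_of_le₀ (ENNReal.toReal_mono hSt (measure_mono h1)) ENNReal.toReal_nonneg)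
    constructor
    · refine le_trans (le_mul_of_one_le_left' ?_) h2
      rw [← ENNReal.ofReal_one]
      exact ENNReal.ofReal_le_ofReal (by nlinarith)
    · have h3 : (volume (e' '' stdS n)).toReal ≤ (volume ((fun z => z - c) '' K)).toReal := by
        by_contra h3
        rw [not_le, ← div_lt_one (toReal_simplex_pos e'), ← sub_pos] at h3
        exact absurd (rsharp_lt (mul_pos hκ h3)) (not_lt.2 (h2.trans hle))
      rw [ENNReal.toReal_le_toReal hSt cA.measure_lt_top.ne] at h3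
      have h4 := eq_of_vol (convex_stdS.affine_image e'.toAffineMap) (iA.mono (interior_mono h1))
        cA.isClosed h1 h3 cA.measure_lt_top.ne
      have h5 : e' '' stdS n = (fun z => z - c) '' K := Subset.antisymm h4 h1
      refine ⟨e'.trans (AffineEquiv.constVAdd ℝ (E n) c), ?_⟩
      rw [AffineEquiv.coe_trans, image_comp, h5, image_image]
      simp
  exact ⟨hK, (le_total _ _).elim (fun h' => (key h').1) id, fun h' => (key h').2⟩

theorem sharp_of_wgen {K : Set (E n)} (h : WGen K) : Sharp K := by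
  obtain ⟨_, -, h1⟩ := far_w n one_pos
  refine sharp_of_good (h1 K h).1 fun ε hε => ?_
  obtain ⟨c, hc, h2⟩ := far_w n hε
  exact ⟨_, rsharp_lt hc, (h2 K h).2⟩

theorem Sharp.cent (e : Fin k ⊕ Fin m ≃ Fin n) {B : Set (E k)} {τ : E k → ℝ}
    (hτ : ∀ u ∈ B, 0 ≤ τ u) (h : Sharp (fibS e B τ (stdS m))) :
    Sharp (fibS e B τ (cS m 1)) := by
  obtain ⟨εA, κ, hεA, hκ, hA⟩ := local_inf n
  have key : ∀ ε : ℝ, 0 < ε → ∃ μ, mahlerInf (cS n 1) < μ ∧ Body (fibS e B τ (cS m 1)) ∧
      AB.Good ε μ (fibS e B τ (cS m 1)) := by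
    intro ε hε
    set ε' := min εA (1 / 2) with hε'
    have hε'0 : 0 < ε' := by positivity
    have hε'1 : ε' < 1 := (min_le_right _ _).trans_lt (by norm_num)
    set ε₃ := min ε (ε' / 2) with hε₃
    have hε₃0 : 0 < ε₃ := by positivity
    have h3' : ε₃ < ε' := (min_le_right _ _).trans_lt (by linarith)
    obtain ⟨μ₀, hμ₀, hG⟩ := h.good hε₃0
    have moat : Moat n ε₃ ε' (min μ₀ (ENNReal.ofReal (1 + κ * ε₃) * mahlerInf (cS n 1))) := by
      intro K hK hKc hKi hM hN
      obtain ⟨a, ha⟩ := iInf_lt_iff.1 (hM.trans_le (min_le_right _ _))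
      rw [← near_sub_iff (h3'.trans hε'1) K a]
      rw [← near_sub_iff hε'1 K a] at hN
      obtain ⟨e, he1, he2⟩ := hN.mono (min_le_left _ _)
      obtain ⟨e', h1, h2⟩ := hA _ (convex_image_sub hK a) (isCompact_image_sub hKc a)
        (interior_image_sub hKi a) e he1 he2
      refine ⟨e', h1, ?_⟩
      by_contra hc
      push Not at hc
      rw [← div_lt_iff₀ (toReal_simplex_pos e')] at hc
      refine absurd ha (not_lt.2 (le_trans ?_ h2))
      exact mul_le_mul_left (ENNReal.ofReal_le_ofReal (by nlinarith)) _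
    obtain ⟨h1, h2⟩ := good_centred h3' hε'1 moat e hτ h.1
      fun hi hM => hG hi (hM.trans_le (min_le_left _ _))
    exact ⟨_, lt_min hμ₀ (rsharp_lt (mul_pos hκ hε₃0)), h1,
      fun hi hM => (h2 hi hM).mono (min_le_left _ _)⟩
  obtain ⟨_, -, h1, -⟩ := key 1 one_pos
  exact sharp_of_good h1 fun ε hε => (key ε hε).imp fun _ h' => ⟨h'.1, h'.2.2⟩

end Pool.Agent.MP_5f4cdd_gt.W
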