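import Pool.Agent.MP_5f4cdd_gt.RChamA
import Pool.Agent.MP_5f4cdd_gt.RFix
import Pool.Agent.MP_5f4cdd_gt.RSharp

set_option autoImplicit false
open MeasureTheory ENNReal Set Function Filter Topology Pointwise

namespace Pool.Agent.MP_5f4cdd_gt.W

open PL EF AB

variable {n k m : ℕ}

/-- the simplex with intercepts `r` -/
def rzero_A (r : E m) : Set (E m) := {t | (∀ j, 0 ≤ t j) ∧ ∑ j, t j / r j ≤ 1}

/-- the part of `F` in the chamber -/
def rzero_C (F : Set (E m)) : Set (E m) := {t | (∀ j, 0 ≤ t j) ∧ comb (om m) t ∈ F}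

lemma rzero_img {r : E m} (hr : ∀ j, 0 < r j) : rzero_A r = dg r '' stdS m := by
  ext t
  constructor
  · rintro ⟨h1, h2⟩
    refine ⟨fun j => t j / r j, ⟨fun j => div_nonneg (h1 j) (hr j).le, h2⟩, funext fun j => ?_⟩
    rw [dg_apply, mul_div_cancel₀ _ (hr j).ne']
  · rintro ⟨x, ⟨h1, h2⟩, rfl⟩
    refine ⟨fun j => ?_, ?_⟩
    · rw [dg_apply]
      exact mul_nonneg (hr j).le (h1 j)
    · simpa only [dg_apply, mul_div_cancel_left₀ _ (hr _).ne'] using h2

lemma rzero_std : (m.factorial : ℝ≥0∞) * volume (stdS m) = 1 := by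
  have h := volume_simplex (n := m)
  have ht : volume (stdS m) ≠ ∞ := fun e => by simp [e] at h
  rw [← ENNReal.ofReal_toReal ht, ← ENNReal.ofReal_natCast,
    ← ENNReal.ofReal_mul (Nat.cast_nonneg _), h, ENNReal.ofReal_one]

lemma rzero_volA {r : E m} (hr : ∀ j, 0 < r j) :
    (m.factorial : ℝ≥0∞) * volume (rzero_A r) = ENNReal.ofReal (∏ j, r j) := by
  rw [rzero_img hr, Measure.addHaar_image_linearMap, det_dg,
    abs_of_pos (Finset.prod_pos fun j _ => hr j), mul_left_comm, rzero_std, mul_one]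

lemma rzero_sub {F : Set (E m)} (hF : Convex ℝ F) (h0 : (0 : E m) ∈ F) {r : E m}
    (hr : ∀ j, 0 < r j) (hm : ∀ j, r j • om m j ∈ F) : rzero_A r ⊆ rzero_C F := by
  rintro t ⟨h1, h2⟩
  refine ⟨h1, ?_⟩
  have h := hF.sum_mem (t := Finset.univ)
    (w := fun o : Option (Fin m) => o.elim (1 - ∑ j, t j / r j) fun j => t j / r j)
    (z := fun o : Option (Fin m) => o.elim 0 fun j => r j • om m j)
    (fun o _ => by
      cases o with
      | none => exact sub_nonneg.2 h2
      | some j => exact div_nonneg (h1 j) (hr j).le)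
    (by simp [Fintype.sum_option])
    (fun o _ => by
      cases o with
      | none => exact h0
      | some j => exact hm j)
  simp only [Fintype.sum_option, Option.elim, smul_zero, zero_add, smul_smul,
    div_mul_cancel₀ _ (hr _).ne'] at h
  exact h

lemma rzero_convex {F : Set (E m)} (hF : Convex ℝ F) : Convex ℝ (rzero_C F) := by
  intro x hx y hy a b ha hb hab
  refine ⟨fun j => add_nonneg (mul_nonneg ha (hx.1 j)) (mul_nonneg hb (hy.1 j)), ?_⟩
  have e : comb (om m) (a • x + b • y) = a • comb (om m) x + b • comb (om m) y := by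
    simp only [comb, Pi.add_apply, Pi.smul_apply, smul_eq_mul, add_smul, Finset.sum_add_distrib,
      Finset.smul_sum, smul_smul]
  rw [e]
  exact hF hx.2 hy.2 ha hb hab

lemma rzero_volC {F : Set (E m)} (cF : IsCompact F) (h : TInv F) :
    (m.factorial : ℝ≥0∞) * volume (rzero_C F) ≤ volume F := by
  have mF := cF.isClosed.measurableSet
  have hc : Continuous (comb (om m)) := by
    unfold comb
    fun_prop
  have h1 := cham_A (f := F.indicator 1) (measurable_one.indicator mF) fun σ z => by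
    refine Set.indicator_eq_indicator (s := F) (t := F) ⟨fun hz => ?_, h σ z⟩ rfl
    have := h σ⁻¹ _ hz
    rwa [Tp_Tp, mul_inv_cancel, Tp_one] at this
  have h2 : ∀ r, F.indicator (1 : E m → ℝ≥0∞) (comb (om m) r) =
      (comb (om m) ⁻¹' F).indicator 1 r := fun r => rfl
  simp only [h2] at h1
  rw [lintegral_indicator_one mF, lintegral_indicator_one (mF.preimage hc.measurable),
    Measure.restrict_apply (mF.preimage hc.measurable)] at h1
  refine le_trans (mul_le_mul_right (measure_mono_ae ?_) _) h1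
  have h3 : ∀ᵐ t : E m, ∀ j, t j ≠ 0 :=
    ae_all_iff.2 fun j => Measure.ae_eval_ne (fun _ => volume) j 0
  filter_upwards [h3] with t ht htC
  exact ⟨htC.2, fun j => lt_of_le_of_ne (htC.1 j) (ht j).symm⟩

theorem vol_ge_T {F : Set (E m)} (hF : Convex ℝ F) (cF : IsCompact F) (hn : F.Nonempty)
    (h : TInv F) {r : E m} (hr : ∀ j, 0 < r j) (hm : ∀ j, r j • om m j ∈ F) :
    ENNReal.ofReal (∏ j, r j) ≤ volume F := by
  obtain ⟨v, hv⟩ := hn
  rw [← rzero_volA hr]
  exact (mul_le_mul_right (measure_mono (rzero_sub hF (zero_mem_T hF h hv) hr hm)) _).trans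
    (rzero_volC cF h)

theorem eq_T {F : Set (E m)} (hF : Convex ℝ F) (cF : IsCompact F) (hn : F.Nonempty)
    (h : TInv F) {r : E m} (hr : ∀ j, 0 < r j) (hm : ∀ j, r j • om m j ∈ F)
    (hv : volume F ≤ ENNReal.ofReal (∏ j, r j)) {t : E m} (ht : ∀ j, 0 ≤ t j)
    (htF : comb (om m) t ∈ F) : ∑ j, t j / r j ≤ 1 := by
  obtain ⟨v, hvF⟩ := hn
  have h1 := rzero_sub hF (zero_mem_T hF h hvF) hr hm
  have h2 := rzero_volA hr
  have f0 : (m.factorial : ℝ≥0∞) ≠ 0 := Nat.cast_ne_zero.2 m.factorial_ne_zero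
  have h3 : volume (rzero_C F) ≤ volume (rzero_A r) := by
    rw [← ENNReal.mul_le_mul_iff_right f0 (ENNReal.natCast_ne_top _), h2]
    exact (rzero_volC cF h).trans hv
  have h4 : volume (rzero_A r) ≠ ∞ := fun e => by
    rw [e, ENNReal.mul_top f0] at h2
    exact ENNReal.ofReal_ne_top h2.symm
  have h5 : volume (rzero_C F) ≠ 0 := fun e => by
    rw [measure_mono_null h1 e, mul_zero, eq_comm, ENNReal.ofReal_eq_zero] at h2
    exact (Finset.prod_pos fun j _ => hr j).not_ge h2
  have h6 : IsClosed (rzero_A r) := by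
    have : rzero_A r = (⋂ j, {t : E m | 0 ≤ t j}) ∩ {t | ∑ j, t j / r j ≤ 1} := by
      ext; simp [rzero_A]
    rw [this]
    exact (isClosed_iInter fun j => isClosed_le continuous_const (continuous_apply j)).inter
      (isClosed_le (by fun_prop) continuous_const)
  have h7 : (interior (rzero_C F)).Nonempty := by
    by_contra e
    rw [not_nonempty_iff_eq_empty] at e
    refine h5 (measure_mono_null (fun x hx => ?_) ((rzero_convex hF).addHaar_frontier volume))
    rw [frontier, e, diff_empty]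
    exact subset_closure hx
  exact (eq_of_vol (rzero_convex hF) h7 h6 h1 h3 h4 ⟨ht, htF⟩).2

end Pool.Agent.MP_5f4cdd_gt.W
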