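import Pool.Agent.MP_5f4cdd_gt.Sym

set_option autoImplicit false
open MeasureTheory ENNReal Set Matrix

namespace Pool.Agent.MP_5f4cdd_gt

variable {m : ℕ}

/-- centre of the probability simplex -/
noncomputable def uu (m : ℕ) : E (m + 1) := fun _ => 1 / (m + 1)

/-- surface measure on the probability simplex -/
noncomputable def mu (m : ℕ) : Measure (E (m + 1)) :=
  Measure.map (fun z => uu m + bet m z) (volume.restrict (cS m 1))

lemma continuous_ubet : Continuous fun z : E m => uu m + bet m z :=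
  continuous_const.add continuous_bet

lemma lintegral_mu {f : E (m + 1) → ℝ≥0∞} (hf : Measurable f) :
    ∫⁻ l, f l ∂mu m = ∫⁻ z in cS m 1, f (uu m + bet m z) := by
  rw [mu, lintegral_map hf continuous_ubet.measurable]

lemma mu_univ : mu m univ = volume (cS m 1) := by
  rw [mu, Measure.map_apply continuous_ubet.measurable MeasurableSet.univ]
  simp

instance : IsFiniteMeasure (mu m) := ⟨by rw [mu_univ]; exact volume_cS_lt_top zero_le_one⟩

lemma mu_univ_pos : 0 < mu m univ := by rw [mu_univ]; exact volume_cS_pos one_pos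

lemma mu_ne_zero : mu m ≠ 0 := by
  intro h; have := mu_univ_pos (m := m); rw [h] at this; simp at this

lemma ubet_mem {z : E m} (hz : z ∈ cS m 1) : uu m + bet m z ∈ stdSimplex ℝ (Fin (m + 1)) := by
  refine ⟨fun j => ?_, ?_⟩
  · have := hz j
    simp only [Pi.add_apply, uu]; linarith
  · simp only [Pi.add_apply, Finset.sum_add_distrib, sum_bet, uu, Finset.sum_const,
      Finset.card_univ, Fintype.card_fin, nsmul_eq_mul]
    push_cast; field_simp; simp

lemma uu_mem : uu m ∈ stdSimplex ℝ (Fin (m + 1)) := by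
  have := ubet_mem (m := m) (z := 0) (mem_cS_of_norm_le (by simp; positivity))
  simpa using this

lemma ae_mu : ∀ᵐ l ∂mu m, l ∈ stdSimplex ℝ (Fin (m + 1)) := by
  rw [mu]
  refine (ae_map_iff (p := fun l => l ∈ stdSimplex ℝ (Fin (m + 1)))
    continuous_ubet.measurable.aemeasurable (isClosed_stdSimplex ℝ _).measurableSet).2 ?_
  filter_upwards [ae_restrict_mem (measurableSet_cS 1)] with z hz using ubet_mem hz

lemma measurable_perm {k : ℕ} (σ : Equiv.Perm (Fin k)) : Measurable fun l : E k => l ∘ σ :=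
  measurable_pi_iff.2 fun i => measurable_pi_apply (σ i)

lemma lintegral_mu_perm (σ : Equiv.Perm (Fin (m + 1))) {f : E (m + 1) → ℝ≥0∞}
    (hf : Measurable f) : ∫⁻ l, f (l ∘ σ) ∂mu m = ∫⁻ l, f l ∂mu m := by
  rw [lintegral_mu (f := fun l => f (l ∘ σ)) (hf.comp (measurable_perm σ)), lintegral_mu hf]
  have h1 := (measurePreserving_Tp σ).setLIntegral_comp_preimage (measurableSet_cS (n := m) 1)
    (f := fun z => f (uu m + bet m z)) (hf.comp continuous_ubet.measurable)
  have h2 : Tp σ ⁻¹' cS m 1 = cS m 1 := by ext z; exact Tp_mem_cS σ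
  rw [h2] at h1
  rw [← h1]
  refine lintegral_congr fun z => ?_
  rw [bet_Tp]; rfl

lemma measurable_cons : Measurable fun q : ℝ × E m => (Fin.cons q.1 q.2 : E (m + 1)) := by
  refine measurable_pi_iff.2 fun j => ?_
  refine Fin.cases ?_ (fun i => ?_) j
  · simpa using measurable_fst
  · simp only [Fin.cons_succ]; fun_prop

lemma measurableSet_stdS : MeasurableSet (stdS m) := by
  have : stdS m = (fun x => x - cen m) ⁻¹' cS m 1 := by ext x; exact mem_stdS_iff
  rw [this]
  exact (measurableSet_cS 1).preimage (measurable_id.sub_const _)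

lemma lintegral_mu_std {f : E (m + 1) → ℝ≥0∞} (hf : Measurable f) :
    ∫⁻ l, f l ∂mu m = ∫⁻ X in stdS m, f (Fin.cons (1 - ∑ i, X i) X) := by
  rw [lintegral_mu hf]
  have h1 := (measurePreserving_sub_right (volume : Measure (E m)) (cen m)).setLIntegral_comp_preimage
    (measurableSet_cS (n := m) 1)
    (f := fun z => f (uu m + bet m z)) (hf.comp continuous_ubet.measurable)
  have h2 : (fun x => x - cen m) ⁻¹' cS m 1 = stdS m := by ext x; exact mem_stdS_iff.symm
  rw [h2] at h1
  rw [← h1]
  refine lintegral_congr fun z => ?_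
  congr 1
  ext j
  refine Fin.cases ?_ (fun i => ?_) j
  · simp [uu, cen]
    field_simp; ring
  · simp [uu, cen]

lemma lintegral_cons {g : E (m + 1) → ℝ≥0∞} (hg : Measurable g) :
    ∫⁻ Y, g Y = ∫⁻ X : E m, ∫⁻ a : ℝ, g (Fin.cons a X) := by
  have h := (volume_preserving_piFinSuccAbove (fun _ : Fin (m + 1) => ℝ) 0).symm
  rw [← h.lintegral_comp hg, Measure.volume_eq_prod, lintegral_prod_symm']
  · refine lintegral_congr fun X => lintegral_congr fun a => ?_
    simp [MeasurableEquiv.piFinSuccAbove_symm_apply, Fin.insertNthEquiv, Fin.insertNth_zero']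
  · exact hg.comp (MeasurableEquiv.measurable _)

lemma lintegral_slice {g : E (m + 1) → ℝ≥0∞} (hg : Measurable g) :
    ∫⁻ Y, g Y = ∫⁻ s : ℝ, ∫⁻ X : E m, g (Fin.cons (s - ∑ i, X i) X) := by
  rw [lintegral_cons hg, lintegral_lintegral_swap
    (f := fun (s : ℝ) (X : E m) => g (Fin.cons (s - ∑ i, X i) X))]
  · refine lintegral_congr fun X => ?_
    exact (lintegral_sub_right_eq_self (fun a => g (Fin.cons a X)) (∑ i, X i)).symm
  · apply Measurable.aemeasurable
    refine hg.comp (measurable_cons.comp (f := fun q : ℝ × E m => (q.1 - ∑ i, q.2 i, q.2)) ?_)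
    fun_prop

lemma lintegral_smul_E {k : ℕ} {s : ℝ} (hs : 0 < s) {g : E k → ℝ≥0∞} (hg : Measurable g) :
    ∫⁻ X, g X = ENNReal.ofReal (s ^ k) * ∫⁻ X, g (s • X) := by
  rw [← lintegral_map hg (measurable_const_smul s), Measure.map_addHaar_smul volume hs.ne',
    lintegral_smul_measure, smul_eq_mul, ← mul_assoc, ← ENNReal.ofReal_mul (by positivity)]
  simp only [Module.finrank_fintype_fun_eq_card, Fintype.card_fin]
  rw [abs_of_pos (by positivity), mul_inv_cancel₀ (by positivity)]
  simp

/-- the nonnegative orthant -/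
def orth (k : ℕ) : Set (E k) := {Y | ∀ i, 0 ≤ Y i}

lemma measurableSet_orth {k : ℕ} : MeasurableSet (orth k) := by
  have : orth k = ⋂ i, {Y | 0 ≤ Y i} := by ext; simp [orth]
  rw [this]
  exact MeasurableSet.iInter fun i => measurableSet_le measurable_const (measurable_pi_apply i)

lemma lintegral_orth {h : E (m + 1) → ℝ≥0∞} (hh : Measurable h) :
    ∫⁻ Y in orth (m + 1), h Y =
      ∫⁻ s in Ioi (0 : ℝ), ENNReal.ofReal (s ^ m) * ∫⁻ l, h (s • l) ∂mu m := by
  rw [← lintegral_indicator measurableSet_orth,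
    lintegral_slice (hh.indicator measurableSet_orth), ← lintegral_indicator measurableSet_Ioi]
  refine lintegral_congr_ae ?_
  have h0 : ∀ᵐ s : ℝ, s ≠ 0 := by simp [ae_iff]
  filter_upwards [h0] with s hs
  rcases lt_or_gt_of_ne hs with hs | hs
  · rw [indicator_of_notMem (by simpa using hs.le)]
    rw [← lintegral_zero (μ := (volume : Measure (E m)))]
    refine lintegral_congr fun X => indicator_of_notMem (fun hX => ?_) _
    have h1 : 0 ≤ s - ∑ i, X i := hX 0
    have h2 : 0 ≤ ∑ i, X i := Finset.sum_nonneg fun i _ => hX i.succ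
    linarith
  · rw [indicator_of_mem (by simpa using hs),
      lintegral_mu_std (f := fun l => h (s • l)) (hh.comp (measurable_const_smul s)),
      lintegral_smul_E hs, ← lintegral_indicator measurableSet_stdS]
    · congr 1
      refine lintegral_congr fun X => ?_
      have he : (Fin.cons (s - ∑ i, (s • X) i) (s • X) : E (m + 1)) =
          s • (Fin.cons (1 - ∑ i, X i) X : E (m + 1)) := by
        ext j
        refine Fin.cases ?_ (fun i => ?_) j
        · simp [Finset.mul_sum, mul_sub]
        · simp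
      rw [he]
      by_cases hX : X ∈ stdS m
      · rw [indicator_of_mem hX, indicator_of_mem]
        intro j
        refine Fin.cases ?_ (fun i => ?_) j
        · simpa using mul_nonneg hs.le (sub_nonneg.2 hX.2)
        · simpa using mul_nonneg hs.le (hX.1 i)
      · rw [indicator_of_notMem hX, indicator_of_notMem]
        intro hY
        refine hX ⟨fun i => ?_, ?_⟩
        · have := hY i.succ
          simp only [Pi.smul_apply, Fin.cons_succ, smul_eq_mul] at this
          exact nonneg_of_mul_nonneg_right this hs |> fun h => by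
            rcases le_total 0 (X i) with h' | h'
            · exact h'
            · nlinarith
        · have := hY 0
          simp only [Pi.smul_apply, Fin.cons_zero, smul_eq_mul] at this
          by_contra hc
          push Not at hc
          nlinarith
    · refine (hh.indicator measurableSet_orth).comp
        (measurable_cons.comp (f := fun X : E m => (s - ∑ i, X i, X)) ?_)
      fun_prop

/-- the linear map of the orthant onto the cone over the facet -/
noncomputable def A0 (k : ℕ) : E k →ₗ[ℝ] E k where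
  toFun Y := fun i => Y i - (∑ i, Y i) / (k + 1)
  map_add' x y := by ext i; simp [Finset.sum_add_distrib]; ring
  map_smul' a x := by ext i; simp [← Finset.mul_sum]; ring

lemma bet_A0 {k : ℕ} (Y : E k) :
    bet k (A0 k Y) = (Fin.cons 0 Y : E (k + 1)) - fun _ => (∑ i, Y i) / (k + 1) := by
  ext j
  refine Fin.cases ?_ (fun i => ?_) j
  · simp [A0, Finset.sum_sub_distrib]; field_simp; ring
  · simp [A0]

lemma A0_injective {k : ℕ} : Function.Injective (A0 k) := by
  intro x y h
  have h1 := congrArg (bet k) h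
  rw [bet_A0, bet_A0] at h1
  ext i
  have h2 := congrFun h1 0
  have h3 := congrFun h1 i.succ
  simp only [Pi.sub_apply, Fin.cons_zero, Fin.cons_succ] at h2 h3
  linarith

lemma det_A0_ne {k : ℕ} : LinearMap.det (A0 k) ≠ 0 := by
  have := (LinearMap.isUnit_iff_ker_eq_bot (A0 k)).2 (LinearMap.ker_eq_bot.2 A0_injective)
  exact ((LinearMap.isUnit_iff_isUnit_det _).1 this).ne_zero

/-- cone over the facet `j` -/
def Cj (k : ℕ) (j : Fin (k + 1)) : Set (E k) := {z | ∀ i, bet k z j ≤ bet k z i}

lemma measurableSet_Cj {k : ℕ} (j : Fin (k + 1)) : MeasurableSet (Cj k j) := by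
  have : Cj k j = ⋂ i, {z | bet k z j ≤ bet k z i} := by ext; simp [Cj]
  rw [this]
  exact MeasurableSet.iInter fun i => measurableSet_le
    ((measurable_pi_apply j).comp continuous_bet.measurable)
    ((measurable_pi_apply i).comp continuous_bet.measurable)

lemma preimage_A0_C0 {k : ℕ} : A0 k ⁻¹' Cj k 0 = orth k := by
  ext Y
  simp only [mem_preimage, Cj, mem_ofPred_eq, bet_A0, orth, Fin.forall_fin_succ]
  simp

lemma volume_bet_eq {k : ℕ} {i j : Fin (k + 1)} (hij : i ≠ j) :
    volume {z : E k | bet k z i = bet k z j} = 0 := by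
  let f : E k →ₗ[ℝ] ℝ := ((LinearMap.proj i : E (k + 1) →ₗ[ℝ] ℝ) -
    (LinearMap.proj j : E (k + 1) →ₗ[ℝ] ℝ)) ∘ₗ bet k
  have h1 : {z : E k | bet k z i = bet k z j} = (LinearMap.ker f : Set (E k)) := by
    ext z; simp [f, sub_eq_zero]
  rw [h1]
  refine Measure.addHaar_submodule volume _ fun h => ?_
  have hw : ∑ l, (Pi.single i 1 - Pi.single j 1 : E (k + 1)) l = 0 := by
    simp [Finset.sum_sub_distrib]
  have h2 : (fun l : Fin k => (Pi.single i 1 - Pi.single j 1 : E (k + 1)) l.succ) ∈
      LinearMap.ker f := by rw [h]; trivial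
  simp only [f, LinearMap.mem_ker, LinearMap.comp_apply, bet_tail hw] at h2
  simp [hij, hij.symm] at h2

lemma lintegral_eq_sum_Cj {k : ℕ} (h : E k → ℝ≥0∞) :
    ∫⁻ z, h z = ∑ j, ∫⁻ z in Cj k j, h z := by
  have hU : (⋃ j, Cj k j) = univ := by
    refine eq_univ_of_forall fun z => ?_
    obtain ⟨j, -, hj⟩ := Finset.exists_min_image Finset.univ (bet k z) Finset.univ_nonempty
    exact mem_iUnion.2 ⟨j, fun i => hj i (Finset.mem_univ i)⟩
  rw [← setLIntegral_univ, ← hU, lintegral_iUnion₀ (fun j => (measurableSet_Cj j).nullMeasurableSet),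
    tsum_fintype]
  intro i j hij
  refine measure_mono_null (fun z hz => ?_) (volume_bet_eq hij)
  exact le_antisymm (hz.1 j) (hz.2 i)

/-- parametrisation of the cone over facet `j` -/
noncomputable def Pj (k : ℕ) (j : Fin (k + 1)) : E k →ₗ[ℝ] E k := Tp (Equiv.swap 0 j) ∘ₗ A0 k

/-- the Jacobian constant -/
noncomputable def kap (k : ℕ) : ℝ≥0∞ := ENNReal.ofReal |LinearMap.det (A0 k)|

lemma kap_ne_zero {k : ℕ} : kap k ≠ 0 := by
  simp [kap, det_A0_ne]

lemma kap_ne_top {k : ℕ} : kap k ≠ ∞ := ENNReal.ofReal_ne_top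

lemma lintegral_Cj {k : ℕ} (j : Fin (k + 1)) {h : E k → ℝ≥0∞} (hh : Measurable h) :
    ∫⁻ z in Cj k j, h z = kap k * ∫⁻ Y in orth k, h (Pj k j Y) := by
  have h1 := (measurePreserving_Tp (Equiv.swap 0 j)).setLIntegral_comp_preimage
    (measurableSet_Cj j) hh
  have h2 : Tp (Equiv.swap 0 j) ⁻¹' Cj k j = Cj k 0 := by
    ext z
    simp only [mem_preimage, Cj, mem_ofPred_eq, bet_Tp_apply, Equiv.swap_apply_right]
    exact ⟨fun H i => by simpa using H (Equiv.swap 0 j i), fun H i => H _⟩
  rw [h2] at h1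
  rw [← h1, ← lintegral_indicator (measurableSet_Cj 0), ← lintegral_indicator measurableSet_orth]
  have h3 := lintegral_comp_lin (A0 k) det_A0_ne
    ((hh.comp (measurable_lin (Tp (Equiv.swap 0 j)))).indicator (measurableSet_Cj 0))
  have h4 : ∀ Y, (Cj k 0).indicator (h ∘ Tp (Equiv.swap 0 j)) (A0 k Y) =
      (orth k).indicator (fun Y => h (Pj k j Y)) Y := by
    intro Y
    rw [← preimage_A0_C0]
    rfl
  simp_rw [h4] at h3
  rw [h3, ← mul_assoc, kap, ← ENNReal.ofReal_mul (abs_nonneg _), ← abs_mul,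
    mul_inv_cancel₀ det_A0_ne]
  simp [Function.comp_def]

/-- radial decomposition of Lebesgue measure over the facets of the centred simplex -/
lemma lintegral_radial {h : E (m + 1) → ℝ≥0∞} (hh : Measurable h) :
    ∫⁻ z, h z = ∑ j, kap (m + 1) * ∫⁻ s in Ioi (0 : ℝ),
      ENNReal.ofReal (s ^ m) * ∫⁻ l, h (s • Pj (m + 1) j l) ∂mu m := by
  rw [lintegral_eq_sum_Cj]
  refine Finset.sum_congr rfl fun j _ => ?_
  rw [lintegral_Cj j hh, lintegral_orth (h := fun Y => h (Pj (m + 1) j Y))
    (hh.comp (measurable_lin _))]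
  simp only [map_smul]

lemma bet_Pj {k : ℕ} (j : Fin (k + 1)) {l : E k} (hl : ∑ i, l i = 1) :
    bet k (Pj k j l) = ((Fin.cons 0 l : E (k + 1)) - uu k) ∘ Equiv.swap 0 j := by
  rw [Pj, LinearMap.comp_apply, bet_Tp, bet_A0, hl]; rfl

lemma smul_Pj_mem_cS {k : ℕ} (j : Fin (k + 1)) {l : E k} (hl : l ∈ stdSimplex ℝ (Fin k))
    {s r : ℝ} (hs : 0 ≤ s) : s • Pj k j l ∈ cS k r ↔ s ≤ r := by
  have hk : (0 : ℝ) < k + 1 := by positivity
  simp only [cS, mem_ofPred_eq, map_smul, bet_Pj j hl.2, Pi.smul_apply, Function.comp_apply,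
    Pi.sub_apply, uu, smul_eq_mul]
  constructor
  · intro H
    have := H j
    rw [Equiv.swap_apply_right, Fin.cons_zero, zero_sub, mul_neg, neg_le_neg_iff, mul_one_div,
      div_le_div_iff_of_pos_right hk] at this
    exact this
  · intro H i
    have h1 : 0 ≤ (Fin.cons 0 l : E (k + 1)) (Equiv.swap 0 j i) := by
      refine Fin.cases ?_ (fun i => ?_) (Equiv.swap 0 j i)
      · simp
      · simpa using hl.1 i
    have h2 := div_le_div_of_nonneg_right H hk.le
    have h3 := mul_nonneg hs h1
    rw [mul_sub, mul_one_div]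
    linarith

end Pool.Agent.MP_5f4cdd_gt
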