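import Pool.Agent.MP_5f4cdd_gt.PL
import Pool.Agent.MP_5f4cdd_gt.Linear

set_option autoImplicit false
open MeasureTheory ENNReal Set Filter Topology Matrix

namespace Pool.Agent.MP_5f4cdd_gt.PL

variable {n : ℕ}

/-- the functional form of a shadow system in direction `θ` at three times -/
def ShadowHyp (θ : E n) (α β : ℝ) (F₀ F₁ F : E n → ℝ≥0∞) : Prop :=
  ∀ (y₀ y₁ : E n) (a b : ℝ), 0 < a → 0 < b → a + b = 1 → a * β * (θ ⬝ᵥ y₀) = b * α * (θ ⬝ᵥ y₁) →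
    F₀ y₀ ^ a * F₁ y₁ ^ b ≤ F (a • y₀ + b • y₁)

lemma ShadowHyp.neg {θ : E n} {α β : ℝ} {F₀ F₁ F : E n → ℝ≥0∞} (H : ShadowHyp θ α β F₀ F₁ F) :
    ShadowHyp (-θ) α β F₀ F₁ F := by
  intro y₀ y₁ a b ha hb hab h
  refine H y₀ y₁ a b ha hb hab ?_
  simp only [neg_dotProduct] at h
  linarith

lemma measurable_dot (θ : E n) : Measurable fun y : E n => θ ⬝ᵥ y := by
  have : Continuous fun y : E n => θ ⬝ᵥ y := by fun_prop
  exact this.measurable

lemma measurableSet_pos (θ : E n) : MeasurableSet {y : E n | 0 < θ ⬝ᵥ y} :=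
  measurableSet_lt measurable_const (measurable_dot θ)

lemma lintegral_half0 {m : ℕ} {F : E (m + 1) → ℝ≥0∞} (hF : Measurable F) :
    ∫⁻ y in {y : E (m + 1) | 0 < y 0}, F y =
      ∫⁻ r in Ioi (0 : ℝ), ∫⁻ X : E m, F (Fin.cons r X) := by
  have hs : MeasurableSet {y : E (m + 1) | 0 < y 0} :=
    measurableSet_lt measurable_const (measurable_pi_apply 0)
  rw [← lintegral_indicator hs, ← lintegral_indicator measurableSet_Ioi,
    lintegral_cons (hF.indicator hs)]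
  refine lintegral_congr fun r => ?_
  by_cases hr : 0 < r
  · rw [indicator_of_mem (mem_Ioi.2 hr)]
    refine lintegral_congr fun X => ?_
    rw [indicator_of_mem (by simpa using hr)]
  · rw [indicator_of_notMem (by simpa using hr)]
    refine (lintegral_congr fun X => ?_).trans lintegral_zero
    rw [indicator_of_notMem (by simpa using hr)]

lemma exists_coord {m : ℕ} {θ : E (m + 1)} (hθ : θ ≠ 0) :
    ∃ T : E (m + 1) ≃ₗ[ℝ] E (m + 1), ∀ z, θ ⬝ᵥ T z = z 0 := by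
  obtain ⟨j, hj⟩ := Function.ne_iff.1 hθ
  let S : E (m + 1) →ₗ[ℝ] E (m + 1) :=
    { toFun := fun y => Fin.cons (θ ⬝ᵥ y) (fun i => y (j.succAbove i))
      map_add' := fun x y => by
        ext k
        refine Fin.cases ?_ (fun i => ?_) k <;> simp
      map_smul' := fun c x => by
        ext k
        refine Fin.cases ?_ (fun i => ?_) k <;> simp }
  have hS : Function.Injective S := by
    rw [injective_iff_map_eq_zero]
    intro y hy
    have h0 : θ ⬝ᵥ y = 0 := congrFun hy 0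
    have h1 : ∀ i, y (j.succAbove i) = 0 := fun i => congrFun hy i.succ
    rw [dotProduct, Fin.sum_univ_succAbove _ j] at h0
    simp only [h1, mul_zero, Finset.sum_const_zero, add_zero, mul_eq_zero] at h0
    ext k
    refine Fin.succAboveCases j ?_ (fun i => h1 i) k
    exact h0.resolve_left hj
  refine ⟨(LinearEquiv.ofInjectiveEndo S hS).symm, fun z => ?_⟩
  have := (LinearEquiv.ofInjectiveEndo S hS).apply_symm_apply z
  exact congrFun this 0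

lemma half_le {θ : E n} (hθ : θ ≠ 0) {α β : ℝ} (hα : 0 < α) (hβ : 0 < β) (hαβ : α + β = 1)
    {F₀ F₁ F : E n → ℝ≥0∞} (h₀ : Measurable F₀) (h₁ : Measurable F₁) (h : Measurable F)
    (H : ShadowHyp θ α β F₀ F₁ F) :
    (∫⁻ y in {y | 0 < θ ⬝ᵥ y}, F y)⁻¹ ≤ ENNReal.ofReal α * (∫⁻ y in {y | 0 < θ ⬝ᵥ y}, F₀ y)⁻¹ +
      ENNReal.ofReal β * (∫⁻ y in {y | 0 < θ ⬝ᵥ y}, F₁ y)⁻¹ := by
  obtain rfl | ⟨m, rfl⟩ : n = 0 ∨ ∃ m, n = m + 1 := by
    cases n with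
    | zero => exact Or.inl rfl
    | succ m => exact Or.inr ⟨m, rfl⟩
  · exact absurd (Subsingleton.elim _ _) hθ
  obtain ⟨T, hT⟩ := exists_coord hθ
  have hdet : LinearMap.det (T : E (m + 1) →ₗ[ℝ] E (m + 1)) ≠ 0 := T.isUnit_det'.ne_zero
  have mT : Measurable T := measurable_lin (T : E (m + 1) →ₗ[ℝ] E (m + 1))
  set c := ENNReal.ofReal |(LinearMap.det (T : E (m + 1) →ₗ[ℝ] E (m + 1)))⁻¹| with hc
  have c0 : c ≠ 0 := by
    rw [hc]; simpa using hdet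
  have ct : c ≠ ∞ := ENNReal.ofReal_ne_top
  have hs : MeasurableSet {y : E (m + 1) | 0 < y 0} :=
    measurableSet_lt measurable_const (measurable_pi_apply 0)
  have e : ∀ {G : E (m + 1) → ℝ≥0∞}, Measurable G →
      ∫⁻ r in Ioi (0 : ℝ), ∫⁻ X : E m, G (T (Fin.cons r X)) =
        c * ∫⁻ y in {y | 0 < θ ⬝ᵥ y}, G y := by
    intro G hG
    rw [← lintegral_half0 (F := fun z => G (T z)) (hG.comp mT),
      ← lintegral_indicator (measurableSet_pos θ), ← lintegral_indicator hs, hc,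
      ← lintegral_comp_lin _ hdet (hG.indicator (measurableSet_pos θ))]
    refine lintegral_congr fun z => ?_
    simp only [indicator, mem_ofPred_eq, LinearEquiv.coe_coe, hT]
  have key := ball hα hβ hαβ (measurable_slice (h₀.comp mT)) (measurable_slice (h₁.comp mT))
    (measurable_slice (h.comp mT)) (by
      intro r s a b _ _ ha hb hab hrs
      refine pl ha hb hab m ((h₀.comp mT).comp (measurable_cons' r))
        ((h₁.comp mT).comp (measurable_cons' s)) ((h.comp mT).comp (measurable_cons' _))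
        fun X Y => ?_
      have := H (T (Fin.cons r X)) (T (Fin.cons s Y)) a b ha hb hab (by simpa [hT] using hrs)
      rw [← map_smul, ← map_smul, ← map_add, cons_combo] at this
      exact this)
  simp only [Function.comp_apply] at key
  rw [e h₀, e h₁, e h, ENNReal.mul_inv (Or.inl c0) (Or.inl ct),
    ENNReal.mul_inv (Or.inl c0) (Or.inl ct), ENNReal.mul_inv (Or.inl c0) (Or.inl ct),
    mul_left_comm, mul_left_comm (ENNReal.ofReal β), ← mul_add] at key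
  exact (ENNReal.mul_le_mul_iff_right (ENNReal.inv_ne_zero.2 ct) (ENNReal.inv_ne_top.2 c0)).1 key

lemma cover {α β A B σ : ℝ} (hα : 0 < α) (hβ : 0 < β) (hA : 0 < A) (hB : 0 < B) (hσ : 0 < σ)
    {P P₀ P₁ : ℝ≥0∞} (h : P⁻¹ ≤ ENNReal.ofReal α * P₀⁻¹ + ENNReal.ofReal β * P₁⁻¹)
    (hP : P < ENNReal.ofReal (σ * (α / A + β / B)⁻¹)) :
    P₀ ≤ ENNReal.ofReal (σ * A) ∨ P₁ ≤ ENNReal.ofReal (σ * B) := by
  by_contra hc
  push Not at hc
  refine absurd hP (not_lt.2 ?_)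
  rw [← ENNReal.inv_le_inv]
  refine h.trans ?_
  refine (add_le_add (mul_le_mul_right (ENNReal.inv_le_inv.2 hc.1.le) _)
    (mul_le_mul_right (ENNReal.inv_le_inv.2 hc.2.le) _)).trans (le_of_eq ?_)
  rw [← ENNReal.ofReal_inv_of_pos (by positivity), ← ENNReal.ofReal_inv_of_pos (by positivity),
    ← ENNReal.ofReal_inv_of_pos (by positivity), ← ENNReal.ofReal_mul hα.le,
    ← ENNReal.ofReal_mul hβ.le, ← ENNReal.ofReal_add (by positivity) (by positivity)]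
  congr 1
  field_simp

/-- the connectedness argument that replaces the choice of balanced translations -/
lemma balance {α β : ℝ} (hα : 0 < α) (hβ : 0 < β) {P₀ P₁ N₀ N₁ : ℝ → ℝ≥0∞} {P N m₀ m₁ : ℝ≥0∞}
    (c₀ : ∀ K, IsClosed {τ | P₀ τ ≤ K}) (c₁ : ∀ K, IsClosed {τ | P₁ τ ≤ K})
    (u₀ : ∀ K, K ≠ ∞ → ∃ τ, K < P₀ τ) (u₁ : ∀ K, K ≠ ∞ → ∃ τ, K < P₁ τ)
    (hP : ∀ τ, P⁻¹ ≤ ENNReal.ofReal α * (P₀ τ)⁻¹ + ENNReal.ofReal β * (P₁ τ)⁻¹)
    (hN : ∀ τ, N⁻¹ ≤ ENNReal.ofReal α * (N₀ τ)⁻¹ + ENNReal.ofReal β * (N₁ τ)⁻¹)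
    (h₀ : ∀ τ, m₀ ≤ P₀ τ + N₀ τ) (h₁ : ∀ τ, m₁ ≤ P₁ τ + N₁ τ) :
    (P + N)⁻¹ ≤ ENNReal.ofReal α * m₀⁻¹ + ENNReal.ofReal β * m₁⁻¹ := by
  refine inv_le_of_lt hα hβ fun A B hA hB hA' hB' => ?_
  by_contra hc
  rw [not_le] at hc
  set d := (α / A + β / B)⁻¹ with hd
  have hd0 : 0 < d := by positivity
  have hPt : P ≠ ∞ := ne_top_of_lt (le_self_add.trans_lt hc)
  have hNt : N ≠ ∞ := ne_top_of_lt (le_add_self.trans_lt hc)
  lift P to NNReal using hPt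
  lift N to NNReal using hNt
  have hc' : (P : ℝ) + N < d := by
    rw [← ENNReal.coe_add, ← ENNReal.ofReal_coe_nnreal, ENNReal.ofReal_lt_ofReal_iff hd0] at hc
    simpa using hc
  have hP0 : (0 : ℝ) ≤ P := P.2
  have hN0 : (0 : ℝ) ≤ N := N.2
  set σ := (d + P - N) / (2 * d) with hσ
  have hσ0 : 0 < σ := div_pos (by linarith) (by positivity)
  have hσd : σ * d = (d + P - N) / 2 := by rw [hσ]; field_simp
  have hσ1 : 0 < 1 - σ := by
    have : 0 < (1 - σ) * d := by rw [sub_mul, hσd]; linarith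
    exact (mul_pos_iff_of_pos_right hd0).1 this
  have l1 : (P : ℝ≥0∞) < ENNReal.ofReal (σ * d) := by
    rw [← ENNReal.ofReal_coe_nnreal, ENNReal.ofReal_lt_ofReal_iff (by positivity), hσd]
    linarith
  have l2 : (N : ℝ≥0∞) < ENNReal.ofReal ((1 - σ) * d) := by
    rw [← ENNReal.ofReal_coe_nnreal, ENNReal.ofReal_lt_ofReal_iff (by positivity), sub_mul, hσd]
    linarith
  have sum : ∀ {C : ℝ}, 0 < C →
      ENNReal.ofReal (σ * C) + ENNReal.ofReal ((1 - σ) * C) = ENNReal.ofReal C := by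
    intro C hC
    rw [← ENNReal.ofReal_add (by positivity) (by positivity)]
    congr 1; ring
  have hUV : {τ | P₀ τ ≤ ENNReal.ofReal (σ * A)}ᶜ = {τ | P₁ τ ≤ ENNReal.ofReal (σ * B)} := by
    ext τ
    simp only [mem_compl_iff, mem_ofPred_eq]
    constructor
    · intro h; exact (cover hα hβ hA hB hσ0 (hP τ) l1).resolve_left h
    · intro h h'
      rcases cover hα hβ hA hB hσ1 (hN τ) l2 with h2 | h2
      · exact absurd ((h₀ τ).trans ((add_le_add h' h2).trans (sum hA).le)) (not_le.2 hA')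
      · exact absurd ((h₁ τ).trans ((add_le_add h h2).trans (sum hB).le)) (not_le.2 hB')
  have hcl : IsClopen {τ | P₀ τ ≤ ENNReal.ofReal (σ * A)} :=
    ⟨c₀ _, by rw [← isClosed_compl_iff, hUV]; exact c₁ _⟩
  rcases isClopen_iff.1 hcl with h | h
  · rw [h, compl_empty] at hUV
    obtain ⟨τ, hτ⟩ := u₁ _ (ENNReal.ofReal_ne_top (r := σ * B))
    exact absurd (hUV.le (mem_univ τ)) (not_le.2 hτ)
  · obtain ⟨τ, hτ⟩ := u₀ _ (ENNReal.ofReal_ne_top (r := σ * A))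
    exact absurd (h.ge (mem_univ τ)) (not_le.2 hτ)

lemma fatou_mul {X : Type*} [MeasurableSpace X] {μ : Measure X} {F : X → ℝ≥0∞} (hF : Measurable F)
    {u : ℕ → X → ℝ≥0∞} {v : X → ℝ≥0∞} (hu : ∀ k, Measurable (u k))
    (hv : ∀ᵐ x ∂μ, v x ≠ 0 ∧ Tendsto (fun k => u k x) atTop (𝓝 (v x))) {K : ℝ≥0∞}
    (hK : ∀ k, ∫⁻ x, F x * u k x ∂μ ≤ K) : ∫⁻ x, F x * v x ∂μ ≤ K := by
  have h1 := lintegral_liminf_le (μ := μ) (u := atTop) (f := fun k x => F x * u k x)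
    (fun k => hF.mul (hu k))
  refine le_trans (le_of_eq (lintegral_congr_ae ?_)) (h1.trans ?_)
  · filter_upwards [hv] with x hx
    exact (ENNReal.Tendsto.const_mul hx.2 (Or.inl hx.1)).liminf_eq.symm
  · exact liminf_le_of_frequently_le' (Frequently.of_forall hK)

lemma measurable_exp_mul {X : Type*} [MeasurableSpace X] {η : X → ℝ} (hη : Measurable η) (c : ℝ) :
    Measurable fun x => ENNReal.ofReal (Real.exp (c * η x)) :=
  (Real.measurable_exp.comp (hη.const_mul c)).ennreal_ofReal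

lemma isClosed_sub {X : Type*} [MeasurableSpace X] {μ : Measure X} {F : X → ℝ≥0∞}
    (hF : Measurable F) {η : X → ℝ} (hη : Measurable η) (γ : ℝ) (K : ℝ≥0∞) :
    IsClosed {τ : ℝ | ∫⁻ x, F x * ENNReal.ofReal (Real.exp (γ * τ * η x)) ∂μ ≤ K} := by
  refine IsSeqClosed.isClosed fun s τ hs hτ => ?_
  refine fatou_mul hF (u := fun k x => ENNReal.ofReal (Real.exp (γ * s k * η x)))
    (fun k => measurable_exp_mul hη _) (Eventually.of_forall fun x => ⟨?_, ?_⟩) hs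
  · simpa using Real.exp_pos _
  · exact ENNReal.tendsto_ofReal (Real.continuous_exp.continuousAt.tendsto.comp
      ((hτ.const_mul γ).mul_const _))

lemma unbounded {X : Type*} [MeasurableSpace X] {μ : Measure X} {F : X → ℝ≥0∞}
    (hF : Measurable F) {η : X → ℝ} (hη : Measurable η) (hpos : ∀ᵐ x ∂μ, 0 < η x)
    (h0 : ∫⁻ x, F x ∂μ ≠ 0) {γ : ℝ} (hγ : γ ≠ 0) (K : ℝ≥0∞) (hK : K ≠ ∞) :
    ∃ τ : ℝ, K < ∫⁻ x, F x * ENNReal.ofReal (Real.exp (γ * τ * η x)) ∂μ := by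
  by_contra hc
  push Not at hc
  have := fatou_mul hF (u := fun k x => ENNReal.ofReal (Real.exp (γ * (k / γ) * η x)))
    (v := fun _ => ∞) (fun k => measurable_exp_mul hη _) (by
      filter_upwards [hpos] with x hx
      refine ⟨ENNReal.top_ne_zero, ENNReal.tendsto_ofReal_atTop.comp
        (Real.tendsto_exp_atTop.comp ?_)⟩
      simp only [mul_div_cancel₀ _ hγ]
      exact tendsto_natCast_atTop_atTop.atTop_mul_const hx) (fun k => hc _)
  rw [lintegral_mul_const _ hF, ENNReal.mul_top h0] at this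
  exact hK (top_le_iff.1 this)

lemma volume_dot_zero {v : E n} (hv : v ≠ 0) : volume {y : E n | v ⬝ᵥ y = 0} = 0 := by
  let f : E n →ₗ[ℝ] ℝ := ⟨⟨fun y => v ⬝ᵥ y, dotProduct_add v⟩, fun a y => by simp⟩
  have h1 : {y : E n | v ⬝ᵥ y = 0} = (LinearMap.ker f : Set (E n)) := rfl
  rw [h1]
  refine Measure.addHaar_submodule volume _ fun h => hv ?_
  have h2 : v ∈ LinearMap.ker f := by rw [h]; trivial
  exact dotProduct_self_eq_zero.1 h2

lemma lintegral_split {θ : E n} (hθ : θ ≠ 0) (F : E n → ℝ≥0∞) :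
    ∫⁻ y, F y = (∫⁻ y in {y | 0 < θ ⬝ᵥ y}, F y) + ∫⁻ y in {y | 0 < (-θ) ⬝ᵥ y}, F y := by
  rw [← lintegral_add_compl F (measurableSet_pos θ)]
  congr 1
  refine setLIntegral_congr ?_
  have : ∀ᵐ y : E n, θ ⬝ᵥ y ≠ 0 := by
    rw [ae_iff]; simpa using volume_dot_zero hθ
  filter_upwards [this] with y hy
  refine propext ?_
  change ¬ (0 < θ ⬝ᵥ y) ↔ 0 < (-θ) ⬝ᵥ y
  rw [neg_dotProduct, neg_pos, not_lt]
  exact ⟨fun h => lt_of_le_of_ne h hy, le_of_lt⟩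

lemma half_ne_zero {θ : E n} (hθ : θ ≠ 0) {F : E n → ℝ≥0∞} (hF : Measurable F)
    (h0 : ∀ y, F y ≠ 0) : ∫⁻ y in {y | 0 < θ ⬝ᵥ y}, F y ≠ 0 := by
  rw [ne_eq, lintegral_eq_zero_iff hF]
  intro h
  have h1 : (volume : Measure (E n)).restrict {y | 0 < θ ⬝ᵥ y} = 0 := by
    rw [← ae_eq_bot, ← eventually_false_iff_eq_bot]
    filter_upwards [h] with y hy using h0 y hy
  rw [Measure.restrict_eq_zero] at h1
  have ho : IsOpen {y : E n | 0 < θ ⬝ᵥ y} := isOpen_lt continuous_const (by fun_prop)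
  refine (ho.measure_pos volume ⟨θ, ?_⟩).ne' h1
  exact lt_of_le_of_ne (Finset.sum_nonneg fun i _ => mul_self_nonneg _)
    (fun h => hθ (dotProduct_self_eq_zero.1 h.symm))

lemma exp_combo {u v w a b : ℝ} (ha : 0 < a) (hb : 0 < b) (h : w = a * u + b * v)
    (x y : ℝ≥0∞) : (x * ENNReal.ofReal (Real.exp u)) ^ a * (y * ENNReal.ofReal (Real.exp v)) ^ b =
      x ^ a * y ^ b * ENNReal.ofReal (Real.exp w) := by
  rw [ENNReal.mul_rpow_of_nonneg _ _ ha.le, ENNReal.mul_rpow_of_nonneg _ _ hb.le, mul_mul_mul_comm,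
    ENNReal.ofReal_rpow_of_pos (Real.exp_pos _), ENNReal.ofReal_rpow_of_pos (Real.exp_pos _),
    ← ENNReal.ofReal_mul (by positivity), ← Real.exp_mul, ← Real.exp_mul, ← Real.exp_add, h,
    mul_comm u, mul_comm v]

theorem shadow_inv_le {θ : E n} (hθ : θ ≠ 0) {α β : ℝ} (hα : 0 < α) (hβ : 0 < β) (hαβ : α + β = 1)
    {F₀ F₁ F : E n → ℝ≥0∞} (h₀ : Measurable F₀) (h₁ : Measurable F₁) (h : Measurable F)
    (p₀ : ∀ y, F₀ y ≠ 0) (p₁ : ∀ y, F₁ y ≠ 0) (H : ShadowHyp θ α β F₀ F₁ F) {m₀ m₁ : ℝ≥0∞}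
    (hm₀ : ∀ c : ℝ, m₀ ≤ ∫⁻ y, F₀ y * ENNReal.ofReal (Real.exp (c * (θ ⬝ᵥ y))))
    (hm₁ : ∀ c : ℝ, m₁ ≤ ∫⁻ y, F₁ y * ENNReal.ofReal (Real.exp (c * (θ ⬝ᵥ y)))) :
    (∫⁻ y, F y)⁻¹ ≤ ENNReal.ofReal α * m₀⁻¹ + ENNReal.ofReal β * m₁⁻¹ := by
  have H' : ∀ τ : ℝ, ShadowHyp θ α β
      (fun y => F₀ y * ENNReal.ofReal (Real.exp (β * τ * (θ ⬝ᵥ y))))
      (fun y => F₁ y * ENNReal.ofReal (Real.exp (-α * τ * (θ ⬝ᵥ y)))) F := by
    intro τ y₀ y₁ a b ha hb hab he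
    rw [exp_combo (w := 0) ha hb (by linear_combination (-τ) * he)]
    simpa using H y₀ y₁ a b ha hb hab he
  have g₀ : ∀ c : ℝ, Measurable fun y => F₀ y * ENNReal.ofReal (Real.exp (c * (θ ⬝ᵥ y))) :=
    fun c => h₀.mul (measurable_exp_mul (measurable_dot θ) c)
  have g₁ : ∀ c : ℝ, Measurable fun y => F₁ y * ENNReal.ofReal (Real.exp (c * (θ ⬝ᵥ y))) :=
    fun c => h₁.mul (measurable_exp_mul (measurable_dot θ) c)
  have hpos : ∀ᵐ y ∂(volume : Measure (E n)).restrict {y | 0 < θ ⬝ᵥ y}, 0 < θ ⬝ᵥ y :=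
    ae_restrict_mem (measurableSet_pos θ)
  rw [lintegral_split hθ F]
  refine balance hα hβ
    (P₀ := fun τ => ∫⁻ y in {y | 0 < θ ⬝ᵥ y}, F₀ y * ENNReal.ofReal (Real.exp (β * τ * (θ ⬝ᵥ y))))
    (P₁ := fun τ => ∫⁻ y in {y | 0 < θ ⬝ᵥ y}, F₁ y * ENNReal.ofReal (Real.exp (-α * τ * (θ ⬝ᵥ y))))
    (N₀ := fun τ => ∫⁻ y in {y | 0 < (-θ) ⬝ᵥ y},
      F₀ y * ENNReal.ofReal (Real.exp (β * τ * (θ ⬝ᵥ y))))
    (N₁ := fun τ => ∫⁻ y in {y | 0 < (-θ) ⬝ᵥ y},
      F₁ y * ENNReal.ofReal (Real.exp (-α * τ * (θ ⬝ᵥ y))))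
    (isClosed_sub h₀ (measurable_dot θ) β) (isClosed_sub h₁ (measurable_dot θ) (-α))
    (unbounded h₀ (measurable_dot θ) hpos (half_ne_zero hθ h₀ p₀) hβ.ne')
    (unbounded h₁ (measurable_dot θ) hpos (half_ne_zero hθ h₁ p₁) (neg_ne_zero.2 hα.ne'))
    (fun τ => half_le hθ hα hβ hαβ (g₀ _) (g₁ _) h (H' τ))
    (fun τ => half_le (neg_ne_zero.2 hθ) hα hβ hαβ (g₀ _) (g₁ _) h (H' τ).neg)
    (fun τ => (hm₀ _).trans (lintegral_split hθ _).le)
    (fun τ => (hm₁ _).trans (lintegral_split hθ _).le)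

/-- the infimum over all translations of the Laplace transform -/
noncomputable def lstar (F : E n → ℝ≥0∞) : ℝ≥0∞ :=
  ⨅ c : E n, ∫⁻ y, F y * ENNReal.ofReal (Real.exp (c ⬝ᵥ y))

/-- functional Meyer-Reisner theorem -/
theorem lstar_inv_le {θ : E n} (hθ : θ ≠ 0) {α β : ℝ} (hα : 0 < α) (hβ : 0 < β) (hαβ : α + β = 1)
    {F₀ F₁ F : E n → ℝ≥0∞} (h₀ : Measurable F₀) (h₁ : Measurable F₁) (h : Measurable F)
    (p₀ : ∀ y, F₀ y ≠ 0) (p₁ : ∀ y, F₁ y ≠ 0) (H : ShadowHyp θ α β F₀ F₁ F) :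
    (lstar F)⁻¹ ≤ ENNReal.ofReal α * (lstar F₀)⁻¹ + ENNReal.ofReal β * (lstar F₁)⁻¹ := by
  conv_lhs => rw [lstar, ENNReal.inv_iInf]
  refine iSup_le fun c => ?_
  have me : Measurable fun y : E n => ENNReal.ofReal (Real.exp (c ⬝ᵥ y)) :=
    (Real.measurable_exp.comp (measurable_dot c)).ennreal_ofReal
  have pe : ∀ y : E n, ENNReal.ofReal (Real.exp (c ⬝ᵥ y)) ≠ 0 := fun y => by
    simpa using Real.exp_pos _
  have low : ∀ (G : E n → ℝ≥0∞) (s : ℝ), lstar G ≤ ∫⁻ y, G y * ENNReal.ofReal (Real.exp (c ⬝ᵥ y)) *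
      ENNReal.ofReal (Real.exp (s * (θ ⬝ᵥ y))) := by
    intro G s
    refine (iInf_le _ (c + s • θ)).trans (le_of_eq (lintegral_congr fun y => ?_))
    rw [mul_assoc, ← ENNReal.ofReal_mul (Real.exp_pos _).le, ← Real.exp_add, add_dotProduct,
      smul_dotProduct, smul_eq_mul]
  refine shadow_inv_le hθ hα hβ hαβ (h₀.mul me) (h₁.mul me) (h.mul me)
    (fun y => mul_ne_zero (p₀ y) (pe y)) (fun y => mul_ne_zero (p₁ y) (pe y)) ?_ (low F₀) (low F₁)
  intro y₀ y₁ a b ha hb hab he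
  simp only [Pi.mul_apply]
  rw [exp_combo (w := c ⬝ᵥ (a • y₀ + b • y₁)) ha hb (by simp)]
  exact mul_le_mul_left (H y₀ y₁ a b ha hb hab he) _

lemma lstar_ne_zero {F : E n → ℝ≥0∞} (h : Measurable F) (p : ∀ y, F y ≠ 0) : lstar F ≠ 0 := by
  have hm : Measurable fun y => min (F y) (F (-y)) := h.min (h.comp measurable_neg)
  have h0 : ∫⁻ y, min (F y) (F (-y)) ≠ 0 := by
    rw [ne_eq, lintegral_eq_zero_iff hm]
    intro h
    obtain ⟨y, hy⟩ := h.exists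
    rcases min_choice (F y) (F (-y)) with e | e
    · exact p _ (e.symm.trans hy)
    · exact p _ (e.symm.trans hy)
  have h2 : ∫⁻ y, min (F y) (F (-y)) ≤ 2 * lstar F := by
    rw [lstar, ENNReal.mul_iInf_of_ne two_ne_zero ENNReal.ofNat_ne_top]
    refine le_iInf fun c => ?_
    have me : Measurable fun y : E n => F y * ENNReal.ofReal (Real.exp (c ⬝ᵥ y)) :=
      h.mul (Real.measurable_exp.comp (measurable_dot c)).ennreal_ofReal
    rw [two_mul]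
    nth_rewrite 2 [← lintegral_neg_eq_self (fun y => F y * ENNReal.ofReal (Real.exp (c ⬝ᵥ y)))]
    rw [← lintegral_add_left me]
    refine lintegral_mono fun y => ?_
    rcases le_total 0 (c ⬝ᵥ y) with hy | hy
    · refine (min_le_left _ _).trans (le_trans ?_ le_self_add)
      exact le_mul_of_one_le_right' (ENNReal.one_le_ofReal.2 (Real.one_le_exp hy))
    · refine (min_le_right _ _).trans (le_trans ?_ le_add_self)
      refine le_mul_of_one_le_right' (ENNReal.one_le_ofReal.2 (Real.one_le_exp ?_))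
      rw [dotProduct_neg]; linarith
  intro h3
  rw [h3, mul_zero] at h2
  exact h0 (le_antisymm h2 zero_le)

end Pool.Agent.MP_5f4cdd_gt.PL
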