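import Pool.Agent.MP_5f4cdd_gt.Shadow
import Pool.Agent.MP_5f4cdd_gt.DefsInf
import Pool.Agent.MP_5f4cdd_gt.FlowDefs

set_option autoImplicit false
open MeasureTheory ENNReal Set Filter Topology Matrix Bornology

namespace Pool.Agent.MP_5f4cdd_gt.PL

variable {n : ℕ}

/-- support function -/
noncomputable def suppF (L : Set (E n)) (y : E n) : ℝ :=
  sSup ((fun x : E n => ∑ i, x i * y i) '' L)

/-- `exp (-h_L)` -/
noncomputable def expS (L : Set (E n)) (y : E n) : ℝ≥0∞ := ENNReal.ofReal (Real.exp (-(suppF L y)))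

/-- `inf_c ∫ exp (-h_{L-c})` -/
noncomputable def Jstar (L : Set (E n)) : ℝ≥0∞ := lstar (expS L)

/-- the classical Mahler volume minimised over all positions of the origin -/
noncomputable def mstarInf (L : Set (E n)) : ℝ≥0∞ := ⨅ c : E n, mahlerInf ((fun z => z - c) '' L)

lemma mahlerInf_eq (L : Set (E n)) : mahlerInf L = volume L * ∫⁻ y, expS L y := rfl

lemma bddAbove_dot {L : Set (E n)} (hL : IsBounded L) (y : E n) :
    BddAbove ((fun x : E n => ∑ i, x i * y i) '' L) := by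
  have hc : Continuous fun x : E n => ∑ i, x i * y i := by fun_prop
  exact ((hL.isCompact_closure.image hc).bddAbove).mono (image_mono subset_closure)

lemma dot_le_suppF {L : Set (E n)} (hL : IsBounded L) {x : E n} (hx : x ∈ L) (y : E n) :
    x ⬝ᵥ y ≤ suppF L y := le_csSup (bddAbove_dot hL y) ⟨x, hx, rfl⟩

lemma suppF_le {L : Set (E n)} (hL : L.Nonempty) {y : E n} {C : ℝ} (h : ∀ x ∈ L, x ⬝ᵥ y ≤ C) :
    suppF L y ≤ C := by
  refine csSup_le (hL.image _) ?_
  rintro _ ⟨x, hx, rfl⟩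
  exact h x hx

lemma convex_dot_le (y : E n) (C : ℝ) : Convex ℝ {x : E n | x ⬝ᵥ y ≤ C} := by
  intro u hu v hv a b ha hb hab
  simp only [mem_ofPred_eq, add_dotProduct, smul_dotProduct, smul_eq_mul] at hu hv ⊢
  calc a * (u ⬝ᵥ y) + b * (v ⬝ᵥ y) ≤ a * C + b * C := by gcongr
    _ = C := by rw [← add_mul, hab, one_mul]

lemma suppF_convexHull {L : Set (E n)} (hL : IsBounded L) (hn : L.Nonempty) (y : E n) :
    suppF (convexHull ℝ L) y = suppF L y := by
  refine le_antisymm (suppF_le (hn.mono (subset_convexHull ℝ L)) fun x hx => ?_)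
    (suppF_le hn fun x hx =>
      dot_le_suppF (isBounded_convexHull.2 hL) (subset_convexHull ℝ L hx) y)
  exact convexHull_min (fun z hz => dot_le_suppF hL hz y) (convex_dot_le y _) hx

lemma convexOn_suppF {L : Set (E n)} (hL : IsBounded L) (hn : L.Nonempty) :
    ConvexOn ℝ univ (suppF L) := by
  refine ⟨convex_univ, fun u _ v _ a b ha hb _ => suppF_le hn fun x hx => ?_⟩
  simp only [dotProduct_add, dotProduct_smul, smul_eq_mul]
  exact add_le_add (mul_le_mul_of_nonneg_left (dot_le_suppF hL hx u) ha)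
    (mul_le_mul_of_nonneg_left (dot_le_suppF hL hx v) hb)

lemma continuous_suppF {L : Set (E n)} (hL : IsBounded L) : Continuous (suppF L) := by
  rcases L.eq_empty_or_nonempty with rfl | hn
  · have : suppF (∅ : Set (E n)) = fun _ => 0 := by ext y; simp [suppF]
    rw [this]; exact continuous_const
  · exact continuousOn_univ.1 ((convexOn_suppF hL hn).continuousOn isOpen_univ)

lemma measurable_expS {L : Set (E n)} (hL : IsBounded L) : Measurable (expS L) :=
  (Real.continuous_exp.comp (continuous_suppF hL).neg).measurable.ennreal_ofReal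

lemma expS_ne_zero (L : Set (E n)) (y : E n) : expS L y ≠ 0 := by
  simpa [expS] using Real.exp_pos _

lemma isBounded_image_sub {L : Set (E n)} (hL : IsBounded L) (c : E n) :
    IsBounded ((fun z => z - c) '' L) :=
  (Isometry.of_dist_eq (f := fun z : E n => z - c)
    (fun x y => dist_sub_right x y c)).lipschitz.isBounded_image hL

lemma suppF_image_sub {L : Set (E n)} (hL : IsBounded L) (hn : L.Nonempty) (c y : E n) :
    suppF ((fun z => z - c) '' L) y = suppF L y - c ⬝ᵥ y := by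
  refine le_antisymm (suppF_le (hn.image _) ?_) ?_
  · rintro _ ⟨x, hx, rfl⟩
    rw [sub_dotProduct]
    exact sub_le_sub_right (dot_le_suppF hL hx y) _
  · rw [sub_le_iff_le_add]
    refine suppF_le hn fun x hx => ?_
    have := dot_le_suppF (isBounded_image_sub hL c) (mem_image_of_mem _ hx) y
    rw [sub_dotProduct] at this
    linarith

lemma expS_image_sub {L : Set (E n)} (hL : IsBounded L) (hn : L.Nonempty) (c y : E n) :
    expS ((fun z => z - c) '' L) y = expS L y * ENNReal.ofReal (Real.exp (c ⬝ᵥ y)) := by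
  rw [expS, expS, suppF_image_sub hL hn, ← ENNReal.ofReal_mul (Real.exp_pos _).le, ← Real.exp_add]
  congr 2; ring

lemma volume_sub (c : E n) (L : Set (E n)) : volume ((fun z => z - c) '' L) = volume L := by
  have : (fun z => z - c) '' L = (fun z => z + c) ⁻¹' L := by
    ext z; constructor
    · rintro ⟨x, hx, rfl⟩; simpa using hx
    · intro h; exact ⟨z + c, h, by simp⟩
  rw [this, measure_preimage_add_right]

lemma Jstar_eq {L : Set (E n)} (hL : IsBounded L) (hn : L.Nonempty) :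
    Jstar L = ⨅ c : E n, ∫⁻ y, expS ((fun z => z - c) '' L) y := by
  simp only [Jstar, lstar, expS_image_sub hL hn]

lemma Jstar_ne_zero {L : Set (E n)} (hL : IsBounded L) : Jstar L ≠ 0 :=
  lstar_ne_zero (measurable_expS hL) (expS_ne_zero L)

lemma mstarInf_eq {L : Set (E n)} (hL : IsBounded L) (hn : L.Nonempty) :
    mstarInf L = volume L * Jstar L := by
  rw [Jstar_eq hL hn, ENNReal.mul_iInf (fun h => absurd h hL.measure_lt_top.ne)]
  simp only [mstarInf, mahlerInf_eq, volume_sub]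

lemma shadowHyp_expS {ι : Type} [Nonempty ι] (x : ι → E n) (s : ι → ℝ) (θ : E n)
    (hb : ∀ t, IsBounded (range (shadowPts x s θ t))) {α β : ℝ} (hαβ : α + β = 1) (t₀ t₁ : ℝ) :
    ShadowHyp θ α β (expS (convexHull ℝ (range (shadowPts x s θ t₀))))
      (expS (convexHull ℝ (range (shadowPts x s θ t₁))))
      (expS (convexHull ℝ (range (shadowPts x s θ (α * t₀ + β * t₁))))) := by
  intro y₀ y₁ a b ha hb' hab he
  have := exp_combo (u := -(suppF (convexHull ℝ (range (shadowPts x s θ t₀))) y₀))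
    (v := -(suppF (convexHull ℝ (range (shadowPts x s θ t₁))) y₁)) ha hb' rfl 1 1
  simp only [one_mul, ENNReal.one_rpow] at this
  unfold expS
  rw [this]
  refine ENNReal.ofReal_le_ofReal (Real.exp_le_exp.2 ?_)
  simp only [suppF_convexHull (hb _) (range_nonempty _)]
  have key : suppF (range (shadowPts x s θ (α * t₀ + β * t₁))) (a • y₀ + b • y₁) ≤
      a * suppF (range (shadowPts x s θ t₀)) y₀ + b * suppF (range (shadowPts x s θ t₁)) y₁ := by
    refine suppF_le (range_nonempty _) ?_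
    rintro _ ⟨i, rfl⟩
    have e : shadowPts x s θ (α * t₀ + β * t₁) i ⬝ᵥ (a • y₀ + b • y₁) =
        a * (shadowPts x s θ t₀ i ⬝ᵥ y₀) + b * (shadowPts x s θ t₁ i ⬝ᵥ y₁) := by
      simp only [shadowPts, add_dotProduct, dotProduct_add, dotProduct_smul, smul_dotProduct,
        smul_eq_mul]
      have hβ : β = 1 - α := by linarith
      subst hβ
      linear_combination (s i * (t₁ - t₀)) * he
    rw [e]
    exact add_le_add (mul_le_mul_of_nonneg_left (dot_le_suppF (hb _) (mem_range_self i) _) ha.le)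
      (mul_le_mul_of_nonneg_left (dot_le_suppF (hb _) (mem_range_self i) _) hb'.le)
  linarith

/-- Meyer-Reisner: along a shadow system the inverse of the minimal polar volume is convex -/
theorem meyer_reisner' {ι : Type} [Nonempty ι] (x : ι → E n) (s : ι → ℝ) {θ : E n} (hθ : θ ≠ 0)
    (hb : ∀ t, IsBounded (range (shadowPts x s θ t))) {α β : ℝ} (hα : 0 < α) (hβ : 0 < β)
    (hαβ : α + β = 1) (t₀ t₁ : ℝ) :
    (Jstar (convexHull ℝ (range (shadowPts x s θ (α * t₀ + β * t₁)))))⁻¹ ≤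
      ENNReal.ofReal α * (Jstar (convexHull ℝ (range (shadowPts x s θ t₀))))⁻¹ +
      ENNReal.ofReal β * (Jstar (convexHull ℝ (range (shadowPts x s θ t₁))))⁻¹ :=
  lstar_inv_le hθ hα hβ hαβ (measurable_expS (isBounded_convexHull.2 (hb _)))
    (measurable_expS (isBounded_convexHull.2 (hb _)))
    (measurable_expS (isBounded_convexHull.2 (hb _))) (expS_ne_zero _) (expS_ne_zero _)
    (shadowHyp_expS x s θ hb hαβ t₀ t₁)

theorem meyer_reisner {ι : Type} [Finite ι] [Nonempty ι] (x : ι → E n) (s : ι → ℝ) {θ : E n}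
    (hθ : θ ≠ 0) {α β : ℝ} (hα : 0 < α) (hβ : 0 < β) (hαβ : α + β = 1) (t₀ t₁ : ℝ) :
    (Jstar (convexHull ℝ (range (shadowPts x s θ (α * t₀ + β * t₁)))))⁻¹ ≤
      ENNReal.ofReal α * (Jstar (convexHull ℝ (range (shadowPts x s θ t₀))))⁻¹ +
      ENNReal.ofReal β * (Jstar (convexHull ℝ (range (shadowPts x s θ t₁))))⁻¹ :=
  meyer_reisner' x s hθ (fun _ => (finite_range _).isBounded) hα hβ hαβ t₀ t₁

lemma mul_inv_le_of_le {m V J : ℝ≥0∞} (hJ : J ≠ 0) (h : m ≤ V * J) : m * J⁻¹ ≤ V := by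
  rcases eq_or_ne J ∞ with rfl | hJt
  · simp
  · calc m * J⁻¹ ≤ V * J * J⁻¹ := mul_le_mul_left h _
      _ = V := by rw [mul_assoc, ENNReal.mul_inv_cancel hJ hJt, mul_one]

lemma quasi_aux {α β m V₀ V₁ V J₀ J₁ J : ℝ≥0∞} (hα : α ≠ 0) (hJ₀ : J₀ ≠ 0) (hJ₁ : J₁ ≠ 0)
    (hJ : J ≠ 0) (h : J⁻¹ ≤ α * J₀⁻¹ + β * J₁⁻¹) (hV : α * V₀ + β * V₁ ≤ V) (h₀ : m ≤ V₀ * J₀)
    (h₁ : m ≤ V₁ * J₁) : m ≤ V * J := by
  rcases eq_or_ne J ∞ with rfl | hJt
  · rcases eq_or_ne V 0 with rfl | hV0
    · have : α * V₀ = 0 := le_antisymm (le_self_add.trans hV) zero_le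
      rw [(mul_eq_zero.1 this).resolve_left hα, zero_mul] at h₀
      exact h₀.trans zero_le
    · simp [ENNReal.mul_top hV0]
  · have : m * J⁻¹ ≤ V := by
      refine (mul_le_mul_right h m).trans (le_trans ?_ hV)
      rw [mul_add, mul_left_comm, mul_left_comm m β]
      exact add_le_add (mul_le_mul_right (mul_inv_le_of_le hJ₀ h₀) _)
        (mul_le_mul_right (mul_inv_le_of_le hJ₁ h₁) _)
    calc m = m * J⁻¹ * J := by rw [mul_assoc, ENNReal.inv_mul_cancel hJ hJt, mul_one]
      _ ≤ V * J := mul_le_mul_left this _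

lemma const_aux {α β m V₀ V₁ V J₀ J₁ J : ℝ≥0∞} (hαt : α ≠ ∞) (hβ : β ≠ 0) (hβt : β ≠ ∞)
    (hV₀ : V₀ ≠ ∞) (hJ₀ : J₀ ≠ 0) (hJ₁ : J₁ ≠ 0) (hJ : J ≠ 0) (hm : m ≠ ∞)
    (h : J⁻¹ ≤ α * J₀⁻¹ + β * J₁⁻¹) (hV : α * V₀ + β * V₁ ≤ V) (h₀ : m ≤ V₀ * J₀)
    (h₁ : V * J ≤ m) : V₁ * J₁ ≤ m := by
  rcases eq_or_ne V₁ 0 with rfl | hV₁
  · simp
  have hV0 : V ≠ 0 := fun h0 => by
    rw [h0] at hV
    exact mul_ne_zero hβ hV₁ (le_antisymm (le_add_self.trans hV) zero_le)
  have hJt : J ≠ ∞ := fun h0 => by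
    rw [h0, ENNReal.mul_top hV0] at h₁
    exact hm (top_le_iff.1 h₁)
  have e1 : V ≤ m * J⁻¹ := by
    calc V = V * J * J⁻¹ := by rw [mul_assoc, ENNReal.mul_inv_cancel hJ hJt, mul_one]
      _ ≤ m * J⁻¹ := mul_le_mul_left h₁ _
  have e2 : α * V₀ + β * V₁ ≤ α * V₀ + β * (m * J₁⁻¹) := by
    refine hV.trans (e1.trans ((mul_le_mul_right h m).trans ?_))
    rw [mul_add, mul_left_comm, mul_left_comm m β]
    exact add_le_add (mul_le_mul_right (mul_inv_le_of_le hJ₀ h₀) _) le_rfl
  have e3 := (ENNReal.mul_le_mul_iff_right hβ hβt).1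
    ((ENNReal.add_le_add_iff_left (ENNReal.mul_ne_top hαt hV₀)).1 e2)
  have hJ₁t : J₁ ≠ ∞ := fun h0 => by
    rw [h0, ENNReal.inv_top, mul_zero] at e3
    exact hV₁ (le_antisymm e3 zero_le)
  calc V₁ * J₁ ≤ m * J₁⁻¹ * J₁ := mul_le_mul_left e3 _
    _ = m := by rw [mul_assoc, ENNReal.inv_mul_cancel hJ₁ hJ₁t, mul_one]

/-- quasi-concavity of the volume product along a shadow system whose volume is affine -/
theorem mstarInf_quasi {ι : Type} [Nonempty ι] (x : ι → E n) (s : ι → ℝ) {θ : E n} (hθ : θ ≠ 0)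
    (hb : ∀ t, IsBounded (range (shadowPts x s θ t))) {α β : ℝ} (hα : 0 < α) (hβ : 0 < β)
    (hαβ : α + β = 1) (t₀ t₁ : ℝ)
    (hV : ENNReal.ofReal α * volume (convexHull ℝ (range (shadowPts x s θ t₀))) +
      ENNReal.ofReal β * volume (convexHull ℝ (range (shadowPts x s θ t₁))) ≤
      volume (convexHull ℝ (range (shadowPts x s θ (α * t₀ + β * t₁))))) :
    min (mstarInf (convexHull ℝ (range (shadowPts x s θ t₀))))
      (mstarInf (convexHull ℝ (range (shadowPts x s θ t₁)))) ≤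
      mstarInf (convexHull ℝ (range (shadowPts x s θ (α * t₀ + β * t₁)))) := by
  have hb' := fun t => isBounded_convexHull.2 (hb t)
  have hn : ∀ t, (convexHull ℝ (range (shadowPts x s θ t))).Nonempty := fun t =>
    (range_nonempty _).mono (subset_convexHull ℝ _)
  simp only [mstarInf_eq (hb' _) (hn _)]
  exact quasi_aux (by simpa using hα) (Jstar_ne_zero (hb' _)) (Jstar_ne_zero (hb' _))
    (Jstar_ne_zero (hb' _)) (meyer_reisner' x s hθ hb hα hβ hαβ t₀ t₁) hV (min_le_left _ _)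
    (min_le_right _ _)

/-- if the volume is affine, the volume product is at most `m` at an intermediate time and
at least `m` at one end, then it is at most `m` at the other end -/
theorem mstarInf_le_of_mid {ι : Type} [Nonempty ι] (x : ι → E n) (s : ι → ℝ) {θ : E n}
    (hθ : θ ≠ 0) (hb : ∀ t, IsBounded (range (shadowPts x s θ t))) {α β : ℝ} (hα : 0 < α)
    (hβ : 0 < β) (hαβ : α + β = 1) (t₀ t₁ : ℝ)
    (hV : ENNReal.ofReal α * volume (convexHull ℝ (range (shadowPts x s θ t₀))) +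
      ENNReal.ofReal β * volume (convexHull ℝ (range (shadowPts x s θ t₁))) ≤
      volume (convexHull ℝ (range (shadowPts x s θ (α * t₀ + β * t₁)))))
    {m : ℝ≥0∞} (hm : m ≠ ∞) (h₀ : m ≤ mstarInf (convexHull ℝ (range (shadowPts x s θ t₀))))
    (h : mstarInf (convexHull ℝ (range (shadowPts x s θ (α * t₀ + β * t₁)))) ≤ m) :
    mstarInf (convexHull ℝ (range (shadowPts x s θ t₁))) ≤ m := by
  have hb' := fun t => isBounded_convexHull.2 (hb t)
  have hn : ∀ t, (convexHull ℝ (range (shadowPts x s θ t))).Nonempty := fun t =>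
    (range_nonempty _).mono (subset_convexHull ℝ _)
  simp only [mstarInf_eq (hb' _) (hn _)] at h₀ h ⊢
  exact const_aux ENNReal.ofReal_ne_top (by simpa using hβ) ENNReal.ofReal_ne_top
    (hb' _).measure_lt_top.ne (Jstar_ne_zero (hb' _)) (Jstar_ne_zero (hb' _))
    (Jstar_ne_zero (hb' _)) hm (meyer_reisner' x s hθ hb hα hβ hαβ t₀ t₁) hV h₀ h

/-- version for the flows of `HasFlow`: the value at any time `t > 0` is at most `m`, if it is at
most `m` at time `0` and at least `m` at some negative time `-δ` -/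
theorem flow_le {ι : Type} [Finite ι] [Nonempty ι] (x : ι → E n) (s : ι → ℝ) {θ : E n}
    (hθ : θ ≠ 0) {δ t A B : ℝ} (hδ : 0 < δ) (ht : 0 < t)
    (hV : ∀ r ∈ ({-δ, 0, t} : Set ℝ),
      (volume (convexHull ℝ (range (shadowPts x s θ r)))).toReal = A + B * r)
    {m : ℝ≥0∞} (hm : m ≠ ∞) (h₀ : m ≤ mstarInf (convexHull ℝ (range (shadowPts x s θ (-δ)))))
    (h : mstarInf (convexHull ℝ (range (shadowPts x s θ 0))) ≤ m) :
    mstarInf (convexHull ℝ (range (shadowPts x s θ t))) ≤ m := by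
  have hb : ∀ t, IsBounded (range (shadowPts x s θ t)) := fun _ => (finite_range _).isBounded
  have hfin := fun t => (isBounded_convexHull.2 (hb t)).measure_lt_top (μ := volume) |>.ne
  have e0 : t / (δ + t) * (-δ) + δ / (δ + t) * t = 0 := by field_simp; ring
  refine mstarInf_le_of_mid x s hθ hb (α := t / (δ + t)) (β := δ / (δ + t)) (by positivity)
    (by positivity) (by field_simp; ring) (-δ) t ?_ hm h₀ (by rwa [e0])
  rw [e0, ← ENNReal.ofReal_toReal (hfin (-δ)), ← ENNReal.ofReal_toReal (hfin t),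
    ← ENNReal.ofReal_toReal (hfin 0), ← ENNReal.ofReal_mul (by positivity),
    ← ENNReal.ofReal_mul (by positivity), ← ENNReal.ofReal_add (by positivity) (by positivity),
    hV (-δ) (by simp), hV t (by simp), hV 0 (by simp)]
  refine ENNReal.ofReal_le_ofReal (le_of_eq ?_)
  field_simp; ring

end Pool.Agent.MP_5f4cdd_gt.PL
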