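import Pool.Agent.MP_5f4cdd_gt.SumRed

set_option autoImplicit false
open MeasureTheory Set Filter Topology Matrix Module

namespace Pool.Agent.MP_5f4cdd_gt.PL

variable {n : ℕ}

lemma cap_move {P : Set (E n)} (hP : Convex ℝ P) (hn : P.Nonempty) (φ : E n →ₗ[ℝ] ℝ)
    {v : E n} (v' : E n) (hc : ∀ q ∈ P, 1 ≤ φ (q - v) ∧ v + (φ (q - v))⁻¹ • (q - v) ∈ P)
    {z : E n} (hz : z ∈ convexHull ℝ (insert v P)) :
    z + max (1 - φ (z - v)) 0 • (v' - v) ∈ convexHull ℝ (insert v' P) := by
  rw [convexHull_insert hn, hP.convexHull_eq, mem_convexJoin] at hz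
  obtain ⟨v₁, hv₁, q, hq, a, r, ha, hr, har, rfl⟩ := hz
  rw [mem_singleton_iff.1 hv₁]
  obtain ⟨h1, h2⟩ := hc q hq
  set σ := φ (q - v) with hσ
  have hσ0 : 0 < σ := by linarith
  have ha' : a = 1 - r := by linarith
  subst ha'
  have e : φ ((1 - r) • v + r • q - v) = r * σ := by
    have : (1 - r) • v + r • q - v = r • (q - v) := by module
    rw [this, map_smul, smul_eq_mul]
  rw [e]
  have sub : P ⊆ convexHull ℝ (insert v' P) := (subset_insert _ _).trans (subset_convexHull ℝ _)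
  rcases le_total (r * σ) 1 with h | h
  · rw [max_eq_left (sub_nonneg.2 h)]
    have := convex_convexHull ℝ (insert v' P) (subset_convexHull ℝ _ (mem_insert _ _)) (sub h2)
      (sub_nonneg.2 h) (mul_nonneg hr hσ0.le) (by ring)
    convert this using 1
    have e2 : r * σ * σ⁻¹ = r := by field_simp
    rw [smul_add, smul_smul, e2]
    module
  · rw [max_eq_right (sub_nonpos.2 h), zero_smul, add_zero]
    refine sub ?_
    rcases eq_or_lt_of_le h1 with h3 | h3
    · have : r = 1 := by rw [← h3] at h; linarith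
      simpa [this] using hq
    · have hd : 0 < σ - 1 := by linarith
      have := hP h2 hq (a := (1 - r) * σ / (σ - 1)) (b := (r * σ - 1) / (σ - 1))
        (by positivity) (div_nonneg (by linarith) hd.le) (by field_simp; ring)
      convert this using 1
      rw [smul_add, smul_smul]
      have e1 : (1 - r) * σ / (σ - 1) * σ⁻¹ = (1 - r) / (σ - 1) := by field_simp
      have e2 : (1 - r) * σ / (σ - 1) = (1 - r) + (1 - r) / (σ - 1) := by field_simp; ring
      have e3 : (r * σ - 1) / (σ - 1) = r - (1 - r) / (σ - 1) := by field_simp; ring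
      rw [e1, e2, e3]
      module

lemma shift_cap {P : Set (E n)} (hP : Convex ℝ P) (hn : P.Nonempty) (φ : E n →ₗ[ℝ] ℝ)
    {v θ : E n} (hθ : φ θ = 0) (t : ℝ)
    (hc : ∀ q ∈ P, 1 ≤ φ (q - v) ∧ v + (φ (q - v))⁻¹ • (q - v) ∈ P)
    (hc' : ∀ q ∈ P, 1 ≤ φ (q - (v + t • θ)) ∧
      (v + t • θ) + (φ (q - (v + t • θ)))⁻¹ • (q - (v + t • θ)) ∈ P) :
    Shift θ (fun z => max (1 - φ (z - v)) 0) t (convexHull ℝ (insert v P))
      (convexHull ℝ (insert (v + t • θ) P)) := by
  intro z
  constructor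
  · intro hz
    have := cap_move hP hn φ (v + t • θ) hc hz
    rwa [add_sub_cancel_left, smul_smul, mul_comm] at this
  · intro hz
    have := cap_move hP hn φ v hc' hz
    have e : φ (z + (t * max (1 - φ (z - v)) 0) • θ - (v + t • θ)) = φ (z - v) := by
      simp [hθ]
    rw [e] at this
    convert this using 1
    module

lemma cross {V : Set (E n)} (φ : E n →ₗ[ℝ] ℝ) {v a b : E n} (ha : a ∈ V) (hb : b ∈ V)
    (φa : φ (a - v) = 1) (φb : φ (b - v) = 1)
    (h : ∀ w ∈ V, ∃ l m : ℝ, 0 ≤ l ∧ 0 ≤ m ∧ 1 ≤ l + m ∧ w - v = l • (a - v) + m • (b - v)) :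
    ∀ q ∈ convexHull ℝ V, 1 ≤ φ (q - v) ∧ v + (φ (q - v))⁻¹ • (q - v) ∈ convexHull ℝ V := by
  have hc : Convex ℝ {w : E n | ∃ l m : ℝ, 0 ≤ l ∧ 0 ≤ m ∧ 1 ≤ l + m ∧
      w - v = l • (a - v) + m • (b - v)} := by
    rintro x ⟨l, m, l0, m0, h1, e⟩ y ⟨l', m', l0', m0', h1', e'⟩ s t hs ht hst
    refine ⟨s * l + t * l', s * m + t * m', by positivity, by positivity, by nlinarith, ?_⟩
    have : s • x + t • y - v = s • (x - v) + t • (y - v) := by
      have : t = 1 - s := by linarith
      subst this; module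
    rw [this, e, e']
    module
  intro q hq
  obtain ⟨l, m, l0, m0, h1, e⟩ := convexHull_min h hc hq
  have e1 : φ (q - v) = l + m := by rw [e]; simp only [map_add, map_smul, φa, φb]; simp
  rw [e1]
  refine ⟨h1, ?_⟩
  have hp : 0 < l + m := by linarith
  have := convex_convexHull ℝ V (subset_convexHull ℝ V ha) (subset_convexHull ℝ V hb)
    (a := l / (l + m)) (b := m / (l + m)) (by positivity) (by positivity) (by field_simp)
  convert this using 1
  have e2 : m / (l + m) = 1 - l / (l + m) := by field_simp; ring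
  rw [e, smul_add, smul_smul, smul_smul, ← div_eq_inv_mul, ← div_eq_inv_mul, e2]
  module

lemma hull_insert_hull (v : E n) (V : Set (E n)) :
    convexHull ℝ (insert v (convexHull ℝ V)) = convexHull ℝ (insert v V) := by
  rw [insert_eq, insert_eq, convexHull_convexHull_union_right]

lemma hull_erase [DecidableEq (E n)] {V : Finset (E n)} {v : E n}
    (h : v ∈ convexHull ℝ (V.erase v : Set (E n))) :
    convexHull ℝ (V : Set (E n)) = convexHull ℝ (V.erase v : Set (E n)) := by
  refine Subset.antisymm (convexHull_min (fun w hw => ?_) (convex_convexHull ℝ _))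
    (convexHull_mono (Finset.coe_subset.2 (Finset.erase_subset v V)))
  by_cases hwv : w = v
  · rwa [hwv]
  · exact subset_convexHull ℝ _ (by simpa using ⟨hw, hwv⟩)

lemma small_indep [DecidableEq (E n)] {V : Finset (E n)} (hc : V.card ≤ 3)
    (hr : ∀ v ∈ V, v ∉ convexHull ℝ (V.erase v : Set (E n))) :
    AffineIndependent ℝ (Subtype.val : ↥(V : Set (E n)) → E n) := by
  have seg : ∀ x ∈ V, ∀ y ∈ V, ∀ z ∈ V, y ≠ x → y ≠ z → ¬ Wbtw ℝ x y z := by
    intro x hx y hy z hz h1 h2 h
    refine hr y hy ?_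
    refine (convex_convexHull ℝ _).segment_subset (subset_convexHull ℝ _ ?_)
      (subset_convexHull ℝ _ ?_) h.mem_segment
    · simpa using ⟨hx, h1.symm⟩
    · simpa using ⟨hz, h2.symm⟩
  by_cases h1 : V.card ≤ 1
  · have : Subsingleton ↥(V : Set (E n)) :=
      (Finset.card_le_one_iff_subsingleton.1 h1).coe_sort
    exact affineIndependent_of_subsingleton ℝ _
  by_cases h2 : V.card = 2
  · obtain ⟨x, y, hxy, rfl⟩ := Finset.card_eq_two.1 h2
    have := (affineIndependent_of_ne ℝ hxy).range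
    rwa [Matrix.range_cons_cons_empty, ← Finset.coe_pair] at this
  obtain ⟨x, y, z, hxy, hxz, hyz, rfl⟩ := Finset.card_eq_three.1 (show V.card = 3 by omega)
  have hnc : ¬ Collinear ℝ {x, y, z} := by
    intro h
    rcases h.wbtw_or_wbtw_or_wbtw with h | h | h
    · exact seg x (by simp) y (by simp) z (by simp) hxy.symm hyz h
    · exact seg y (by simp) z (by simp) x (by simp) hyz.symm hxz.symm h
    · exact seg z (by simp) x (by simp) y (by simp) hxz hxy h
  have := (affineIndependent_iff_not_collinear_set.2 hnc).range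
  have e : range ![x, y, z] = (({x, y, z} : Finset (E n)) : Set (E n)) := by
    ext w; simp [eq_comm, or_comm, or_left_comm]
  rwa [e] at this

lemma exists_coords {W : Submodule ℝ (E n)} (hW : finrank ℝ W ≤ 2) {v : E n} {S : Finset (E n)}
    (hS : ∀ w ∈ S, w - v ∈ W) (hv : v ∉ convexHull ℝ (S : Set (E n))) (hc : 2 ≤ S.card)
    (ray : ∀ w ∈ S, ∀ w' ∈ S, ∀ c : ℝ, 0 < c → w - v = c • (w' - v) → w = w') :
    ∃ a ∈ S, ∃ b ∈ S, a ≠ b ∧ (∃ φ : E n →ₗ[ℝ] ℝ, φ (a - v) = 1 ∧ φ (b - v) = 1) ∧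
      ∀ w ∈ S, ∃ l m : ℝ, 0 ≤ l ∧ 0 ≤ m ∧ w - v = l • (a - v) + m • (b - v) := by
  obtain ⟨f, u, hfv, hf⟩ := geometric_hahn_banach_point_closed (convex_convexHull ℝ _)
    (S.finite_toSet.isCompact_convexHull ℝ).isClosed hv
  have fpos : ∀ w ∈ S, 0 < f (w - v) := fun w hw => by
    have := hf w (subset_convexHull ℝ _ hw)
    rw [map_sub]; linarith
  set N : E n → E n := fun w => (f (w - v))⁻¹ • (w - v) with hN
  have fN : ∀ w ∈ S, f (N w) = 1 := fun w hw => by
    simp only [hN, map_smul, smul_eq_mul]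
    exact inv_mul_cancel₀ (fpos w hw).ne'
  have NW : ∀ w ∈ S, N w ∈ W := fun w hw => W.smul_mem _ (hS w hw)
  have eN : ∀ w ∈ S, w - v = f (w - v) • N w := fun w hw => by
    simp only [hN, smul_smul]
    rw [mul_inv_cancel₀ (fpos w hw).ne', one_smul]
  have Ninj : ∀ w ∈ S, ∀ w' ∈ S, N w = N w' → w = w' := by
    intro w hw w' hw' h
    refine ray w hw w' hw' (f (w - v) * (f (w' - v))⁻¹)
      (mul_pos (fpos w hw) (inv_pos.2 (fpos w' hw'))) ?_
    conv_lhs => rw [eN w hw, h]
    simp only [hN, smul_smul]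
  have hne : S.Nonempty := Finset.card_pos.1 (by omega)
  obtain ⟨w₀, hw₀⟩ := hne
  have hU : finrank ℝ (W ⊓ LinearMap.ker (f : E n →ₗ[ℝ] ℝ) : Submodule ℝ (E n)) ≤ 1 := by
    have : W ⊓ LinearMap.ker (f : E n →ₗ[ℝ] ℝ) < W := by
      refine lt_of_le_of_ne inf_le_left fun h => ?_
      have h1 : N w₀ ∈ W ⊓ LinearMap.ker (f : E n →ₗ[ℝ] ℝ) := by rw [h]; exact NW w₀ hw₀
      have h2 : f (N w₀) = 0 := h1.2
      rw [fN w₀ hw₀] at h2
      exact one_ne_zero h2
    have := Submodule.finrank_lt_finrank_of_lt this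
    omega
  obtain ⟨θ, hθ⟩ := finrank_le_one_iff.1 hU
  have hσ : ∀ w, ∃ c : ℝ, w ∈ S → N w = N w₀ + c • (θ : E n) := by
    intro w
    by_cases hw : w ∈ S
    · obtain ⟨c, hc⟩ := hθ ⟨N w - N w₀, W.sub_mem (NW w hw) (NW w₀ hw₀), by
        change f (N w - N w₀) = 0
        rw [map_sub, fN w hw, fN w₀ hw₀, sub_self]⟩
      refine ⟨c, fun _ => ?_⟩
      have := congrArg Subtype.val hc
      simp only [SetLike.val_smul] at this
      rw [this]; abel
    · exact ⟨0, fun h => absurd h hw⟩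
  choose σ hσ using hσ
  obtain ⟨a, ha, mina⟩ := S.exists_min_image σ ⟨w₀, hw₀⟩
  obtain ⟨b, hb, maxb⟩ := S.exists_max_image σ ⟨w₀, hw₀⟩
  have hab : σ a < σ b := by
    refine lt_of_le_of_ne (mina b hb) fun h => ?_
    obtain ⟨x, hx, y, hy, hxy⟩ := Finset.one_lt_card.1 hc
    refine hxy (Ninj x hx y hy ?_)
    rw [hσ x hx, hσ y hy, le_antisymm ((maxb x hx).trans h.ge) (mina x hx),
      le_antisymm ((maxb y hy).trans h.ge) (mina y hy)]
  have hne : a ≠ b := fun h => by rw [h] at hab; exact lt_irrefl _ hab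
  have pa := fpos a ha
  have pb := fpos b hb
  refine ⟨a, ha, b, hb, hne, ?_, fun w hw => ?_⟩
  · set d := N b - N a with hd
    have hd0 : d ≠ 0 := fun h => hne (Ninj a ha b hb (sub_eq_zero.1 h).symm)
    have hdd : d ⬝ᵥ d ≠ 0 := fun h => hd0 (dotProduct_self_eq_zero.1 h)
    let g : E n →ₗ[ℝ] ℝ := ⟨⟨fun y => d ⬝ᵥ y / (d ⬝ᵥ d), fun x y => by
      rw [dotProduct_add, add_div]⟩, fun a y => by simp [mul_div_assoc]⟩
    have gd : g (N b) = g (N a) + 1 := by
      have : g d = 1 := div_self hdd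
      rw [hd, map_sub] at this
      linarith
    set y := (f (b - v))⁻¹ - (f (a - v))⁻¹ with hy
    refine ⟨((f (a - v))⁻¹ - y * g (N a)) • (f : E n →ₗ[ℝ] ℝ) + y • g, ?_, ?_⟩
    · rw [eN a ha, map_smul]
      simp only [LinearMap.add_apply, LinearMap.smul_apply, ContinuousLinearMap.coe_coe, fN a ha,
        smul_eq_mul, ← eN a ha]
      field_simp
      ring
    · rw [eN b hb, map_smul]
      simp only [LinearMap.add_apply, LinearMap.smul_apply, ContinuousLinearMap.coe_coe, fN b hb,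
        smul_eq_mul, gd]
      rw [hy]
      field_simp
      ring
  · have pw := fpos w hw
    have hd : 0 < σ b - σ a := sub_pos.2 hab
    set τ := (σ w - σ a) / (σ b - σ a) with hτ
    have τ0 : 0 ≤ τ := div_nonneg (sub_nonneg.2 (mina w hw)) hd.le
    have τ1 : 0 ≤ 1 - τ := sub_nonneg.2 ((div_le_one hd).2 (by linarith [maxb w hw]))
    refine ⟨f (w - v) * (1 - τ) * (f (a - v))⁻¹, f (w - v) * τ * (f (b - v))⁻¹, by positivity,
      by positivity, ?_⟩
    have e : N w = (1 - τ) • N a + τ • N b := by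
      have : σ w = (1 - τ) * σ a + τ * σ b := by rw [hτ]; field_simp; ring
      rw [hσ w hw, hσ a ha, hσ b hb, this]
      module
    conv_lhs => rw [eN w hw, e]
    simp only [hN, smul_add, smul_smul, mul_assoc]

/-- polygons are reducible -/
theorem red_plane {W : Submodule ℝ (E n)} (hW : finrank ℝ W ≤ 2) (k : ℕ) :
    ∀ V : Finset (E n), V.card ≤ k → (∀ u ∈ V, ∀ v ∈ V, u - v ∈ W) →
      Red W False (convexHull ℝ (V : Set (E n))) := by
  classical
  induction k with
  | zero =>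
    intro V hV h
    exact Red.base _ ⟨V.finite_toSet, small_indep (by omega) (by
      simp [Finset.card_eq_zero.1 (Nat.le_zero.1 hV)]), h⟩ False.elim
  | succ k ih =>
  intro V hV h
  by_cases hr : ∃ v ∈ V, v ∈ convexHull ℝ (V.erase v : Set (E n))
  · obtain ⟨v, hv, hv'⟩ := hr
    rw [hull_erase hv']
    refine ih _ (by rw [Finset.card_erase_of_mem hv]; omega) fun x hx y hy =>
      h x (Finset.mem_of_mem_erase hx) y (Finset.mem_of_mem_erase hy)
  push Not at hr
  by_cases h3 : V.card ≤ 3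
  · exact Red.base _ ⟨V.finite_toSet, small_indep h3 hr, h⟩ False.elim
  obtain ⟨v, hv⟩ : V.Nonempty := Finset.card_pos.1 (by omega)
  set S := V.erase v with hS
  have cS : S.card = V.card - 1 := Finset.card_erase_of_mem hv
  have SV : ∀ w ∈ S, w ∈ V := fun w hw => Finset.mem_of_mem_erase hw
  have Sv : ∀ w ∈ S, w ≠ v := fun w hw => Finset.ne_of_mem_erase hw
  have tri : ∀ w ∈ S, ∀ x ∈ S, ∀ y ∈ S, w ≠ x → w ≠ y → ∀ l m : ℝ, 0 ≤ l → 0 ≤ m →
      w - v = l • (x - v) + m • (y - v) → 1 < l + m := by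
    intro w hw x hx y hy h1 h2 l m l0 m0 e
    by_contra hc
    refine hr w (SV w hw) ?_
    have mem : ∀ z ∈ V, w ≠ z → z ∈ convexHull ℝ (V.erase w : Set (E n)) := fun z hz hwz =>
      subset_convexHull ℝ _ (by simpa using ⟨hz, hwz.symm⟩)
    have := (convex_convexHull ℝ (V.erase w : Set (E n))).sum_mem (t := Finset.univ)
      (w := ![1 - l - m, l, m]) (z := ![v, x, y])
      (fun i _ => by fin_cases i <;> simp <;> linarith) (by simp [Fin.sum_univ_three]; ring)
      (fun i _ => by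
        fin_cases i
        · exact mem v hv (Sv w hw)
        · exact mem x (SV x hx) h1
        · exact mem y (SV y hy) h2)
    convert this using 1
    simp only [Fin.sum_univ_three, Matrix.cons_val]
    rw [← sub_add_cancel w v, e]
    module
  have ray : ∀ w ∈ S, ∀ w' ∈ S, ∀ c : ℝ, 0 < c → w - v = c • (w' - v) → w = w' := by
    intro w hw w' hw' c hc e
    by_contra hne
    have h1 := tri w hw w' hw' w' hw' hne hne c 0 hc.le le_rfl (by simpa using e)
    have h2 := tri w' hw' w hw w hw (Ne.symm hne) (Ne.symm hne) c⁻¹ 0 (inv_pos.2 hc).le le_rfl (by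
      rw [e, smul_smul, inv_mul_cancel₀ hc.ne']; simp)
    rw [add_zero] at h1 h2
    exact absurd (inv_lt_one_of_one_lt₀ h1) (not_lt.2 h2.le)
  obtain ⟨a, ha, b, hb, hab, ⟨φ, φa, φb⟩, hco⟩ := exists_coords hW
    (fun w hw => h w (SV w hw) v hv) (hr v hv) (by omega) ray
  have hco' : ∀ w, ∃ l m : ℝ, w ∈ S → w ≠ a → w ≠ b →
      0 < l ∧ 0 < m ∧ 1 < l + m ∧ w - v = l • (a - v) + m • (b - v) := by
    intro w
    by_cases hw : w ∈ S
    · obtain ⟨l, m, l0, m0, e⟩ := hco w hw
      refine ⟨l, m, fun _ h1 h2 => ?_⟩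
      have h4 := tri w hw a ha b hb h1 h2 l m l0 m0 e
      refine ⟨lt_of_le_of_ne l0 fun h0 => ?_, lt_of_le_of_ne m0 fun h0 => ?_, h4, e⟩
      · subst h0
        exact h2 (ray w hw b hb m (by linarith) (by simpa using e))
      · subst h0
        exact h1 (ray w hw a ha l (by linarith) (by simpa using e))
    · exact ⟨0, 0, fun h => absurd h hw⟩
  choose l m hlm using hco'
  set T := (S.erase a).erase b with hT
  have memT : ∀ w, w ∈ T ↔ w ∈ S ∧ w ≠ a ∧ w ≠ b := fun w => by
    simp only [hT, Finset.mem_erase]; tauto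
  have Tne : T.Nonempty := by
    refine Finset.card_pos.1 ?_
    have h1 := Finset.pred_card_le_card_erase (s := S) (a := a)
    have h2 := Finset.pred_card_le_card_erase (s := S.erase a) (a := b)
    rw [hT]
    omega
  have hT' : ∀ w ∈ T, 0 < l w ∧ 0 < m w ∧ 1 < l w + m w ∧
      w - v = l w • (a - v) + m w • (b - v) := fun w hw =>
    hlm w ((memT w).1 hw).1 ((memT w).1 hw).2.1 ((memT w).1 hw).2.2
  obtain ⟨w₁, hw₁, min₁⟩ := T.exists_min_image (fun w => l w / (l w + m w - 1)) Tne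
  obtain ⟨w₀, hw₀, min₀⟩ := T.exists_min_image (fun w => m w / (l w + m w - 1)) Tne
  set t₁ := l w₁ / (l w₁ + m w₁ - 1) with ht₁
  set t₀ := -(m w₀ / (l w₀ + m w₀ - 1)) with ht₀
  have t₁pos : 0 < t₁ := div_pos (hT' w₁ hw₁).1 (by linarith [(hT' w₁ hw₁).2.2.1])
  have t₀neg : t₀ < 0 := neg_lt_zero.2 (div_pos (hT' w₀ hw₀).2.1 (by linarith [(hT' w₀ hw₀).2.2.1]))
  have φθ : φ (b - a) = 0 := by
    have : b - a = (b - v) - (a - v) := by abel
    rw [this, map_sub, φa, φb, sub_self]
  have moved : ∀ (t : ℝ), ∀ w ∈ T, w - (v + t • (b - a)) =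
      (l w - (l w + m w - 1) * t) • (a - (v + t • (b - a))) +
      (m w + (l w + m w - 1) * t) • (b - (v + t • (b - a))) := by
    intro t w hw
    rw [← sub_sub, (hT' w hw).2.2.2]
    module
  have crs : ∀ t : ℝ, t₀ ≤ t → t ≤ t₁ → ∀ q ∈ convexHull ℝ (S : Set (E n)),
      1 ≤ φ (q - (v + t • (b - a))) ∧ (v + t • (b - a)) + (φ (q - (v + t • (b - a))))⁻¹ •
        (q - (v + t • (b - a))) ∈ convexHull ℝ (S : Set (E n)) := by
    intro t h0 h1
    refine cross φ (a := a) (b := b) ha hb (by rw [← sub_sub, map_sub, φa]; simp [φθ, -map_sub])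
      (by rw [← sub_sub, map_sub, φb]; simp [φθ, -map_sub]) fun w hw => ?_
    by_cases hwa : w = a
    · exact ⟨1, 0, zero_le_one, le_rfl, by simp, by simp [hwa]⟩
    by_cases hwb : w = b
    · exact ⟨0, 1, le_rfl, zero_le_one, by simp, by simp [hwb]⟩
    have hw' : w ∈ T := (memT w).2 ⟨hw, hwa, hwb⟩
    have hd : 0 < l w + m w - 1 := by linarith [(hT' w hw').2.2.1]
    refine ⟨_, _, ?_, ?_, by linarith, moved t w hw'⟩
    · have := (le_div_iff₀ hd).1 (h1.trans (min₁ w hw'))
      linarith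
    · have : -t ≤ m w / (l w + m w - 1) := le_trans (by linarith) (min₀ w hw')
      have := (le_div_iff₀ hd).1 this
      linarith
  have Sne : (convexHull ℝ (S : Set (E n))).Nonempty := ⟨a, subset_convexHull ℝ _ ha⟩
  have crs0 := crs 0 t₀neg.le t₁pos.le
  simp only [zero_smul, add_zero] at crs0
  have θW : b - a ∈ W := h b (SV b hb) a (SV a ha)
  have fin : ∀ (t : ℝ) (c w : E n) (σ : ℝ), c ∈ S → w ∈ S → w ≠ c → 1 ≤ σ →
      w - (v + t • (b - a)) = σ • (c - (v + t • (b - a))) →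
      Red W False (convexHull ℝ (insert (v + t • (b - a)) (convexHull ℝ (S : Set (E n))))) := by
    intro t c w σ hc hw hwc hσ e
    have hσ0 : 0 < σ := by linarith
    have e1 : convexHull ℝ (insert (v + t • (b - a)) (convexHull ℝ (S : Set (E n)))) =
        convexHull ℝ ((insert (v + t • (b - a)) (S.erase c) : Finset (E n)) : Set (E n)) := by
      rw [hull_insert_hull]
      refine Subset.antisymm (convexHull_min ?_ (convex_convexHull ℝ _)) (convexHull_mono ?_)
      · intro x hx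
        by_cases hxc : x = c
        · have := convex_convexHull ℝ
            ((insert (v + t • (b - a)) (S.erase c) : Finset (E n)) : Set (E n))
            (subset_convexHull ℝ _ (show v + t • (b - a) ∈ _ by simp))
            (subset_convexHull ℝ _ (show w ∈ _ by simp [hw, hwc]))
            (sub_nonneg.2 (inv_le_one_of_one_le₀ hσ)) (inv_pos.2 hσ0).le (by ring)
          convert this using 1
          rw [hxc, ← sub_add_cancel w (v + t • (b - a)), e, smul_add σ⁻¹, smul_smul,
            inv_mul_cancel₀ hσ0.ne']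
          module
        · refine subset_convexHull ℝ _ ?_
          rcases hx with hx | hx
          · simp [hx]
          · simp [hxc, Finset.mem_coe.1 hx]
      · rw [Finset.coe_insert]
        exact insert_subset_insert (Finset.coe_subset.2 (Finset.erase_subset _ _))
    rw [e1]
    refine ih _ ?_ ?_
    · have h1 := Finset.card_insert_le (v + t • (b - a)) (S.erase c)
      have h2 := Finset.card_erase_of_mem hc
      omega
    · have : ∀ u ∈ insert (v + t • (b - a)) (S.erase c), u - v ∈ W := by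
        intro u hu
        rcases Finset.mem_insert.1 hu with rfl | hu
        · simpa using W.smul_mem t θW
        · exact h u (SV u (Finset.mem_of_mem_erase hu)) v hv
      intro x hx y hy
      simpa using W.sub_mem (this x hx) (this y hy)
  have eV : convexHull ℝ (V : Set (E n)) =
      convexHull ℝ (insert v (convexHull ℝ (S : Set (E n)))) := by
    rw [hull_insert_hull, ← Finset.coe_insert, hS, Finset.insert_erase hv]
  refine Red.move _ _ _ (b - a) (fun z => max (1 - φ (z - v)) 0) t₀ t₁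
    (V.finite_toSet.isCompact_convexHull ℝ) (convex_convexHull ℝ _) False.elim
    (sub_ne_zero.2 hab.symm) θW ?_ t₀neg t₁pos
    (by rw [eV]; exact shift_cap (convex_convexHull ℝ _) Sne φ φθ t₀ crs0 (crs t₀ le_rfl (by linarith)))
    (by rw [eV]; exact shift_cap (convex_convexHull ℝ _) Sne φ φθ t₁ crs0 (crs t₁ (by linarith) le_rfl))
    ?_ ?_
  · intro x s
    simp only
    rw [add_sub_right_comm, map_add, map_smul, φθ, smul_zero, add_zero]
  · have hd : 0 < l w₀ + m w₀ - 1 := by linarith [(hT' w₀ hw₀).2.2.1]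
    refine fin t₀ a w₀ (l w₀ + m w₀) ha ((memT _).1 hw₀).1 ((memT _).1 hw₀).2.1 (by linarith) ?_
    have e1 : (l w₀ + m w₀ - 1) * t₀ = -m w₀ := by rw [ht₀]; field_simp
    rw [moved t₀ w₀ hw₀, e1]
    simp
  · have hd : 0 < l w₁ + m w₁ - 1 := by linarith [(hT' w₁ hw₁).2.2.1]
    refine fin t₁ b w₁ (l w₁ + m w₁) hb ((memT _).1 hw₁).1 ((memT _).1 hw₁).2.2 (by linarith) ?_
    have e1 : (l w₁ + m w₁ - 1) * t₁ = l w₁ := by rw [ht₁]; field_simp
    rw [moved t₁ w₁ hw₁, e1]
    simp [add_comm]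

end Pool.Agent.MP_5f4cdd_gt.PL
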