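import Pool.Agent.MP_5f4cdd_gt.SumChord

set_option autoImplicit false
open MeasureTheory ENNReal Set Filter Topology Matrix Pointwise

namespace Pool.Agent.MP_5f4cdd_gt.PL

variable {n : ℕ}

/-- vertex set of a simplex with directions in `W` -/
def IsSimp (W : Submodule ℝ (E n)) (V : Set (E n)) : Prop :=
  V.Finite ∧ AffineIndependent ℝ ((↑) : V → E n) ∧ ∀ u ∈ V, ∀ v ∈ V, u - v ∈ W

/-- sets that can be reduced to simplices by parallel chord movements with directions in `W`;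
if the flag `f` holds, the origin is kept in the set and ends as a vertex -/
inductive Red (W : Submodule ℝ (E n)) (f : Prop) : Set (E n) → Prop
  | base (V : Set (E n)) : IsSimp W V → (f → (0 : E n) ∈ V) → Red W f (convexHull ℝ V)
  | move (K K₀ K₁ : Set (E n)) (θ : E n) (b : E n → ℝ) (t₀ t₁ : ℝ) : IsCompact K → Convex ℝ K →
      (f → (0 : E n) ∈ K) → θ ≠ 0 → θ ∈ W → Inv θ b → t₀ < 0 → 0 < t₁ → Shift θ b t₀ K K₀ →
      Shift θ b t₁ K K₁ → Red W f K₀ → Red W f K₁ → Red W f K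

variable {W : Submodule ℝ (E n)} {f : Prop}

lemma Red.isCompact {K : Set (E n)} (h : Red W f K) : IsCompact K := by
  cases h with
  | base V hV _ => exact hV.1.isCompact_convexHull ℝ
  | move _ _ _ _ _ _ _ h => exact h

lemma Red.convex {K : Set (E n)} (h : Red W f K) : Convex ℝ K := by
  cases h with
  | base V hV _ => exact convex_convexHull ℝ V
  | move _ _ _ _ _ _ _ _ h => exact h

lemma Red.zero_mem {K : Set (E n)} (h : Red W True K) : (0 : E n) ∈ K := by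
  cases h with
  | base V _ hV => exact subset_convexHull ℝ V (hV trivial)
  | move _ _ _ _ _ _ _ _ _ h => exact h trivial

lemma Red.subset {K : Set (E n)} (h : Red W True K) : K ⊆ W := by
  induction h with
  | base V hV h0 =>
    refine convexHull_min (fun v hv => ?_) W.convex
    simpa using hV.2.2 v hv 0 (h0 trivial)
  | move K K₀ K₁ θ b t₀ t₁ _ _ _ _ hθ _ _ _ h₀ _ _ _ ih _ =>
    intro x hx
    have := W.sub_mem (ih ((h₀ x).1 hx)) (W.smul_mem (t₀ * b x) hθ)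
    simpa using this

lemma Red.mono {W' : Submodule ℝ (E n)} (hW : W ≤ W') {K : Set (E n)} (h : Red W f K) :
    Red W' f K := by
  induction h with
  | base V hV h0 => exact Red.base V ⟨hV.1, hV.2.1, fun u hu v hv => hW (hV.2.2 u hu v hv)⟩ h0
  | move K K₀ K₁ θ b t₀ t₁ a1 a2 a3 a4 a5 a6 a7 a8 a9 a10 _ _ ih₀ ih₁ =>
    exact Red.move K K₀ K₁ θ b t₀ t₁ a1 a2 a3 a4 (hW a5) a6 a7 a8 a9 a10 ih₀ ih₁

lemma mem_sub {K : Set (E n)} {c x : E n} : x ∈ (fun z => z - c) '' K ↔ x + c ∈ K := by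
  rw [image_sub_eq]; rfl

lemma hull_sub (V : Set (E n)) (c : E n) :
    (fun z => z - c) '' convexHull ℝ V = convexHull ℝ ((fun z => z - c) '' V) := by
  have := (AffineEquiv.constVAdd ℝ (E n) (-c)).toAffineMap.image_convexHull V
  have e : ⇑(AffineEquiv.constVAdd ℝ (E n) (-c)).toAffineMap = fun z => z - c := by
    ext z; simp [sub_eq_neg_add]
  rwa [e] at this

lemma IsSimp.sub {V : Set (E n)} (h : IsSimp W V) (c : E n) : IsSimp W ((fun z => z - c) '' V) := by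
  refine ⟨h.1.image _, ?_, ?_⟩
  · have := (AffineEquiv.constVAdd ℝ (E n) (-c)).affineIndependent_set_of_eq_iff (s := V)
    have e : ⇑(AffineEquiv.constVAdd ℝ (E n) (-c)) = fun z => z - c := by
      ext z; simp [sub_eq_neg_add]
    rw [e] at this
    exact this.2 h.2.1
  · rintro _ ⟨u, hu, rfl⟩ _ ⟨v, hv, rfl⟩
    simpa using h.2.2 u hu v hv

lemma Inv.sub {θ : E n} {b : E n → ℝ} (h : Inv θ b) (c : E n) (a : ℝ) :
    Inv θ fun x => b (x + c) - a := by
  intro x s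
  simp only
  rw [add_right_comm, h]

lemma Shift.sub {θ : E n} {b : E n → ℝ} {t : ℝ} {K K' : Set (E n)} (h : Shift θ b t K K')
    (c : E n) (a : ℝ) : Shift θ (fun x => b (x + c) - a) t ((fun z => z - c) '' K)
      ((fun z => z - (c + (t * a) • θ)) '' K') := by
  intro x
  rw [mem_sub, mem_sub, h]
  congr! 1
  module

lemma Red.sub {K : Set (E n)} (h : Red W False K) (c : E n) :
    Red W False ((fun z => z - c) '' K) := by
  induction h with
  | base V hV _ => rw [hull_sub]; exact Red.base _ (hV.sub c) False.elim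
  | move K K₀ K₁ θ b t₀ t₁ a1 a2 _ a4 a5 a6 a7 a8 a9 a10 _ _ ih₀ ih₁ =>
    refine Red.move _ _ _ θ _ t₀ t₁ (isCompact_image_sub a1 c) (convex_image_sub a2 c) False.elim
      a4 a5 (a6.sub c 0) a7 a8 (a9.sub c 0) (a10.sub c 0) ?_ ?_
    · simpa using ih₀
    · simpa using ih₁

lemma red_simp {V : Set (E n)} (hV : IsSimp W V) (s : Finset (E n)) :
    (s : Set (E n)) ⊆ V → ∀ o ∈ convexHull ℝ (s : Set (E n)),
      Red W True ((fun z => z - o) '' convexHull ℝ V) := by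
  classical
  induction s using Finset.strongInduction with
  | H s ih =>
  intro hs o ho
  by_cases hoV : o ∈ V
  · rw [hull_sub]
    exact Red.base _ (hV.sub o) fun _ => ⟨o, hoV, sub_self o⟩
  obtain ⟨w, w0, w1, wo⟩ := Finset.mem_convexHull'.1 ho
  have erase : ∀ v ∈ s, ∀ w' : E n → ℝ, (∀ y ∈ s, 0 ≤ w' y) → ∑ y ∈ s, w' y = 1 → w' v = 0 →
      Red W True ((fun z => z - ∑ y ∈ s, w' y • y) '' convexHull ℝ V) := by
    intro v hv w' h0 h1 hv0
    refine ih (s.erase v) (Finset.erase_ssubset hv)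
      ((Finset.coe_subset.2 (Finset.erase_subset v s)).trans hs) _
      (Finset.mem_convexHull'.2 ⟨w', fun y hy => h0 y (Finset.mem_of_mem_erase hy), ?_, ?_⟩)
    · rw [Finset.sum_erase _ hv0, h1]
    · exact Finset.sum_erase _ (by simp [hv0])
  by_cases hz : ∃ v ∈ s, w v = 0
  · obtain ⟨v, hv, hv0⟩ := hz
    rw [← wo]
    exact erase v hv w w0 w1 hv0
  push Not at hz
  have wpos : ∀ v ∈ s, 0 < w v := fun v hv => lt_of_le_of_ne (w0 v hv) (hz v hv).symm
  obtain ⟨u, hu, v, hv, huv⟩ : ∃ u ∈ s, ∃ v ∈ s, u ≠ v := by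
    rw [← Finset.one_lt_card]
    by_contra hc
    rcases Finset.card_le_one_iff_subset_singleton.1 (not_lt.1 hc) with ⟨x, hx⟩
    rcases Finset.subset_singleton_iff.1 hx with rfl | rfl
    · simp at w1
    · simp only [Finset.coe_singleton, convexHull_singleton, mem_singleton_iff] at ho
      exact hoV (hs (by simp [ho]))
  have key : ∀ t : ℝ, -w u ≤ t → t ≤ w v → (t = -w u ∨ t = w v) →
      Red W True ((fun z => z - (o + (t * 1) • (u - v))) '' convexHull ℝ V) := by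
    intro t h1 h2 h3
    set w' : E n → ℝ := fun y => w y + (if y = u then t else 0) - (if y = v then t else 0) with hw'
    have e1 : ∑ y ∈ s, w' y = 1 := by
      simp [hw', Finset.sum_add_distrib, Finset.sum_sub_distrib, hu, hv, w1]
    have e2 : ∑ y ∈ s, w' y • y = o + (t * 1) • (u - v) := by
      simp only [hw', sub_smul, add_smul, Finset.sum_add_distrib, Finset.sum_sub_distrib, wo,
        ite_smul, zero_smul, Finset.sum_ite_eq', hu, hv, if_true]
      module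
    have e0 : ∀ y ∈ s, 0 ≤ w' y := by
      intro y hy
      simp only [hw']
      by_cases hyu : y = u
      · subst hyu; simp [huv]; linarith
      · by_cases hyv : y = v
        · subst hyv; simp [hyu]; linarith
        · simp [hyu, hyv, w0 y hy]
    rw [← e2]
    rcases h3 with rfl | rfl
    · exact erase u hu w' e0 e1 (by simp [hw', huv])
    · exact erase v hv w' e0 e1 (by simp [hw', huv.symm])
  have hsh : ∀ t : ℝ, Shift (u - v) (fun _ => 0) t (convexHull ℝ V) (convexHull ℝ V) := by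
    intro t x; simp
  have pu := wpos u hu
  have pv := wpos v hv
  exact Red.move _ _ _ (u - v) _ (-w u) (w v)
    (isCompact_image_sub (hV.1.isCompact_convexHull ℝ) o)
    (convex_image_sub (convex_convexHull ℝ V) o)
    (fun _ => ⟨o, convexHull_mono hs ho, sub_self o⟩) (sub_ne_zero.2 huv)
    (hV.2.2 u (hs hu) v (hs hv)) (Inv.sub (b := fun _ => 0) (fun _ _ => rfl) o 1) (by linarith) pv
    ((hsh _).sub o 1) ((hsh _).sub o 1) (key _ le_rfl (by linarith) (Or.inl rfl))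
    (key _ (by linarith) le_rfl (Or.inr rfl))

/-- any point of a reducible set can be marked -/
lemma Red.mark {K : Set (E n)} (h : Red W False K) :
    ∀ o ∈ K, Red W True ((fun z => z - o) '' K) := by
  induction h with
  | base V hV _ =>
    intro o ho
    exact red_simp hV hV.1.toFinset (by simp) o (by simpa using ho)
  | move K K₀ K₁ θ b t₀ t₁ a1 a2 _ a4 a5 a6 a7 a8 a9 a10 _ _ ih₀ ih₁ =>
    intro o ho
    exact Red.move _ _ _ θ _ t₀ t₁ (isCompact_image_sub a1 o) (convex_image_sub a2 o)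
      (fun _ => ⟨o, ho, sub_self o⟩) a4 a5 (a6.sub o (b o)) a7 a8 (a9.sub o (b o))
      (a10.sub o (b o)) (ih₀ _ ((a9 o).1 ho)) (ih₁ _ ((a10 o).1 ho))

lemma mem_hull_union {K L : Set (E n)} (hK : Convex ℝ K) (hL : Convex ℝ L) (hKn : K.Nonempty)
    (hLn : L.Nonempty) {z : E n} : z ∈ convexHull ℝ (K ∪ L) ↔
      ∃ s ∈ Icc (0 : ℝ) 1, ∃ k ∈ K, ∃ l ∈ L, s • k + (1 - s) • l = z := by
  rw [hK.convexHull_union hL hKn hLn, mem_convexJoin]
  constructor
  · rintro ⟨k, hk, l, hl, a, b, ha, hb, hab, rfl⟩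
    exact ⟨a, ⟨ha, by linarith⟩, k, hk, l, hl, by rw [← hab, add_sub_cancel_left]⟩
  · rintro ⟨s, hs, k, hk, l, hl, rfl⟩
    exact ⟨k, hk, l, hl, s, 1 - s, hs.1, sub_nonneg.2 hs.2, by ring, rfl⟩

lemma isCompact_hull_union {K L : Set (E n)} (hK : Convex ℝ K) (hL : Convex ℝ L)
    (hKn : K.Nonempty) (hLn : L.Nonempty) (cK : IsCompact K) (cL : IsCompact L) :
    IsCompact (convexHull ℝ (K ∪ L)) := by
  have : convexHull ℝ (K ∪ L) = (fun q : ℝ × E n × E n => q.1 • q.2.1 + (1 - q.1) • q.2.2) ''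
      (Icc (0 : ℝ) 1 ×ˢ K ×ˢ L) := by
    ext z
    rw [mem_hull_union hK hL hKn hLn]
    constructor
    · rintro ⟨s, hs, k, hk, l, hl, rfl⟩
      exact ⟨(s, k, l), ⟨hs, hk, hl⟩, rfl⟩
    · rintro ⟨⟨s, k, l⟩, ⟨hs, hk, hl⟩, rfl⟩
      exact ⟨s, hs, k, hk, l, hl, rfl⟩
  rw [this]
  exact (isCompact_Icc.prod (cK.prod cL)).image (by fun_prop)

/-- the scale of the section of a free sum -/
noncomputable def rad (L : Set (E n)) (w : E n) : ℝ :=
  sSup {r | r ∈ Icc (0 : ℝ) 1 ∧ ∃ l ∈ L, (1 - r) • l = w}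

lemma isGreatest_rad {L : Set (E n)} (cL : IsCompact L) {w : E n} (hw : w ∈ L) :
    IsGreatest {r | r ∈ Icc (0 : ℝ) 1 ∧ ∃ l ∈ L, (1 - r) • l = w} (rad L w) := by
  have hc : IsCompact {r | r ∈ Icc (0 : ℝ) 1 ∧ ∃ l ∈ L, (1 - r) • l = w} := by
    have : {r | r ∈ Icc (0 : ℝ) 1 ∧ ∃ l ∈ L, (1 - r) • l = w} = Prod.fst ''
        ((Icc (0 : ℝ) 1 ×ˢ L) ∩ {q : ℝ × E n | (1 - q.1) • q.2 = w}) := by
      ext r
      constructor
      · rintro ⟨hr, l, hl, h⟩; exact ⟨(r, l), ⟨⟨hr, hl⟩, h⟩, rfl⟩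
      · rintro ⟨⟨r, l⟩, ⟨⟨hr, hl⟩, h⟩, rfl⟩; exact ⟨hr, l, hl, h⟩
    rw [this]
    exact ((isCompact_Icc.prod cL).inter_right (isClosed_eq (by fun_prop) continuous_const)).image
      continuous_fst
  obtain ⟨r, hr⟩ := hc.exists_isGreatest ⟨0, ⟨le_rfl, zero_le_one⟩, w, hw, by simp⟩
  rwa [rad, hr.csSup_eq]

lemma mem_free_sum {K L : Set (E n)} (hK : Convex ℝ K) (hL : Convex ℝ L) (K0 : (0 : E n) ∈ K)
    (L0 : (0 : E n) ∈ L) (cL : IsCompact L) {π : E n →ₗ[ℝ] E n} (πK : ∀ k ∈ K, π k = 0)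
    (πL : ∀ l ∈ L, π l = l) {z : E n} :
    z ∈ convexHull ℝ (K ∪ L) ↔ π z ∈ L ∧ z - π z ∈ rad L (π z) • K := by
  rw [mem_hull_union hK hL ⟨0, K0⟩ ⟨0, L0⟩]
  constructor
  · rintro ⟨s, hs, k, hk, l, hl, rfl⟩
    have e : π (s • k + (1 - s) • l) = (1 - s) • l := by simp [πK k hk, πL l hl]
    have h1 : (1 - s) • l ∈ L := hL.smul_mem_of_zero_mem L0 hl ⟨by linarith [hs.2], by linarith [hs.1]⟩
    rw [e, add_sub_cancel_right]
    refine ⟨h1, ?_⟩
    have h2 : s ≤ rad L ((1 - s) • l) := (isGreatest_rad cL h1).2 ⟨hs, l, hl, rfl⟩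
    rcases eq_or_lt_of_le (hs.1.trans h2) with h3 | h3
    · have : s = 0 := le_antisymm (h2.trans h3.ge) hs.1
      exact ⟨0, K0, by simp [this]⟩
    · refine ⟨(s / rad L ((1 - s) • l)) • k, hK.smul_mem_of_zero_mem K0 hk
        ⟨div_nonneg hs.1 h3.le, (div_le_one h3).2 h2⟩, ?_⟩
      simp only [smul_smul]
      rw [mul_div_cancel₀ _ h3.ne']
  · rintro ⟨h1, k, hk, h2⟩
    obtain ⟨hr, l, hl, h3⟩ := (isGreatest_rad cL h1).1
    refine ⟨_, hr, k, hk, l, hl, ?_⟩
    simp only at h2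
    rw [h2, h3, sub_add_cancel]

/-- the lifted speed -/
noncomputable def liftb (π : E n →ₗ[ℝ] E n) (L : Set (E n)) (b : E n → ℝ) (z : E n) : ℝ :=
  rad L (π z) * b ((rad L (π z))⁻¹ • (z - π z))

lemma Inv.lift {θ : E n} {b : E n → ℝ} (h : Inv θ b) {π : E n →ₗ[ℝ] E n} (hπ : π θ = 0)
    (L : Set (E n)) : Inv θ (liftb π L b) := by
  intro x s
  have e : π (x + s • θ) = π x := by simp [hπ]
  simp only [liftb, e]
  rw [add_sub_right_comm, smul_add, smul_smul, h]

lemma Shift.lift {θ : E n} {b : E n → ℝ} {t : ℝ} {K K' L : Set (E n)} (h : Shift θ b t K K')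
    (hK : Convex ℝ K) (hK' : Convex ℝ K') (hL : Convex ℝ L) (K0 : (0 : E n) ∈ K)
    (K0' : (0 : E n) ∈ K') (L0 : (0 : E n) ∈ L) (cL : IsCompact L) {π : E n →ₗ[ℝ] E n}
    (πK : ∀ k ∈ K, π k = 0) (πK' : ∀ k ∈ K', π k = 0) (πL : ∀ l ∈ L, π l = l) (hπ : π θ = 0) :
    Shift θ (liftb π L b) t (convexHull ℝ (K ∪ L)) (convexHull ℝ (K' ∪ L)) := by
  intro z
  rw [mem_free_sum hK hL K0 L0 cL πK πL, mem_free_sum hK' hL K0' L0 cL πK' πL]
  have e : π (z + (t * liftb π L b z) • θ) = π z := by simp [hπ]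
  rw [e]
  refine and_congr_right fun _ => ?_
  rcases eq_or_ne (rad L (π z)) 0 with h0 | h0
  · simp [liftb, h0, zero_smul_set ⟨0, K0⟩, zero_smul_set ⟨0, K0'⟩]
  · rw [mem_smul_set_iff_inv_smul_mem₀ h0, mem_smul_set_iff_inv_smul_mem₀ h0, h,
      add_sub_right_comm, smul_add, smul_smul, liftb]
    congr! 3
    field_simp

lemma exists_proj {W₁ W₂ : Submodule ℝ (E n)} (h : Disjoint W₁ W₂) :
    ∃ π : E n →ₗ[ℝ] E n, (∀ k ∈ W₁, π k = 0) ∧ ∀ l ∈ W₂, π l = l := by
  obtain ⟨W', h1, h2⟩ := h.exists_isCompl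
  exact ⟨W₂.projection W' h2.symm,
    fun k hk => (Submodule.projection_apply_eq_zero_iff h2.symm).2 (h1 hk),
    fun l hl => Submodule.projection_apply_of_mem_left h2.symm hl⟩

lemma affineIndependent_iff_zero {V : Set (E n)} (h0 : (0 : E n) ∈ V) :
    AffineIndependent ℝ ((↑) : V → E n) ↔ LinearIndepOn ℝ id (V \ {0}) := by
  have := affineIndependent_set_iff_linearIndependent_vsub ℝ h0
  have e : (fun p : E n => p -ᵥ (0 : E n)) '' (V \ {0}) = V \ {0} := by simp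
  rw [e] at this
  exact this

lemma IsSimp.union {W₁ W₂ : Submodule ℝ (E n)} (h : Disjoint W₁ W₂) {V₁ V₂ : Set (E n)}
    (h₁ : IsSimp W₁ V₁) (h₂ : IsSimp W₂ V₂) (z₁ : (0 : E n) ∈ V₁) (z₂ : (0 : E n) ∈ V₂) :
    IsSimp (W₁ ⊔ W₂) (V₁ ∪ V₂) := by
  have s₁ : V₁ ⊆ W₁ := fun v hv => by simpa using h₁.2.2 v hv 0 z₁
  have s₂ : V₂ ⊆ W₂ := fun v hv => by simpa using h₂.2.2 v hv 0 z₂
  refine ⟨h₁.1.union h₂.1, ?_, ?_⟩
  · rw [affineIndependent_iff_zero (Or.inl z₁), union_sdiff_distrib]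
    refine ((affineIndependent_iff_zero z₁).1 h₁.2.1).id_union
      ((affineIndependent_iff_zero z₂).1 h₂.2.1) (h.mono ?_ ?_)
    · exact Submodule.span_le.2 (sdiff_subset.trans s₁)
    · exact Submodule.span_le.2 (sdiff_subset.trans s₂)
  · have : ∀ u ∈ V₁ ∪ V₂, u ∈ W₁ ⊔ W₂ := by
      rintro u (hu | hu)
      · exact Submodule.mem_sup_left (s₁ hu)
      · exact Submodule.mem_sup_right (s₂ hu)
    exact fun u hu v hv => Submodule.sub_mem _ (this u hu) (this v hv)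

lemma lift_move {W₁ W₂ W : Submodule ℝ (E n)} (h : Disjoint W₁ W₂) (hW : W₁ ≤ W)
    {K K₀ K₁ L : Set (E n)} {θ : E n} {b : E n → ℝ} {t₀ t₁ : ℝ} (hK : Red W₁ True K)
    (hK₀ : Red W₁ True K₀) (hK₁ : Red W₁ True K₁) (hL : Red W₂ True L) (a4 : θ ≠ 0) (a5 : θ ∈ W₁)
    (a6 : Inv θ b) (a7 : t₀ < 0) (a8 : 0 < t₁) (a9 : Shift θ b t₀ K K₀) (a10 : Shift θ b t₁ K K₁)
    (r₀ : Red W False (convexHull ℝ (K₀ ∪ L))) (r₁ : Red W False (convexHull ℝ (K₁ ∪ L))) :
    Red W False (convexHull ℝ (K ∪ L)) := by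
  obtain ⟨π, π1, π2⟩ := exists_proj h
  exact Red.move _ _ _ θ (liftb π L b) t₀ t₁
    (isCompact_hull_union hK.convex hL.convex ⟨0, hK.zero_mem⟩ ⟨0, hL.zero_mem⟩ hK.isCompact
      hL.isCompact) (convex_convexHull ℝ _) False.elim a4 (hW a5) (a6.lift (π1 θ a5) L) a7 a8
    (a9.lift hK.convex hK₀.convex hL.convex hK.zero_mem hK₀.zero_mem hL.zero_mem hL.isCompact
      (fun k hk => π1 k (hK.subset hk)) (fun k hk => π1 k (hK₀.subset hk))
      (fun k hk => π2 k (hL.subset hk)) (π1 θ a5))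
    (a10.lift hK.convex hK₁.convex hL.convex hK.zero_mem hK₁.zero_mem hL.zero_mem hL.isCompact
      (fun k hk => π1 k (hK.subset hk)) (fun k hk => π1 k (hK₁.subset hk))
      (fun k hk => π2 k (hL.subset hk)) (π1 θ a5)) r₀ r₁

lemma Red.sum0 {W₁ W₂ : Submodule ℝ (E n)} (h : Disjoint W₁ W₂) {K L : Set (E n)}
    (hK : Red W₁ True K) (hL : Red W₂ True L) : Red (W₁ ⊔ W₂) False (convexHull ℝ (K ∪ L)) := by
  induction hK with
  | base V hV h0 =>
    induction hL with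
    | base V' hV' h0' =>
      rw [convexHull_convexHull_union_left, convexHull_convexHull_union_right]
      exact Red.base _ (IsSimp.union h hV hV' (h0 trivial) (h0' trivial)) False.elim
    | move L L₀ L₁ θ b t₀ t₁ a1 a2 a3 a4 a5 a6 a7 a8 a9 a10 r₀ r₁ ih₀ ih₁ =>
      rw [union_comm] at ih₀ ih₁ ⊢
      exact lift_move h.symm le_sup_right
        (Red.move L L₀ L₁ θ b t₀ t₁ a1 a2 a3 a4 a5 a6 a7 a8 a9 a10 r₀ r₁) r₀ r₁
        (Red.base V hV h0) a4 a5 a6 a7 a8 a9 a10 ih₀ ih₁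
  | move K K₀ K₁ θ b t₀ t₁ a1 a2 a3 a4 a5 a6 a7 a8 a9 a10 r₀ r₁ ih₀ ih₁ =>
    exact lift_move h le_sup_left
      (Red.move K K₀ K₁ θ b t₀ t₁ a1 a2 a3 a4 a5 a6 a7 a8 a9 a10 r₀ r₁) r₀ r₁ hL
      a4 a5 a6 a7 a8 a9 a10 ih₀ ih₁

/-- reducible sets are closed under free sums -/
theorem Red.sum {W₁ W₂ : Submodule ℝ (E n)} (h : Disjoint W₁ W₂) {K L : Set (E n)}
    (hK : Red W₁ False K) (hL : Red W₂ False L) {o : E n} (oK : o ∈ K) (oL : o ∈ L) :
    Red (W₁ ⊔ W₂) False (convexHull ℝ (K ∪ L)) := by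
  have := (Red.sum0 h (hK.mark o oK) (hL.mark o oL)).sub (-o)
  rw [← image_union, ← hull_sub, image_image] at this
  simpa using this

lemma stdS_eq_hull : stdS n = convexHull ℝ (range
    (Fin.cons 0 (fun k => Pi.single k 1) : Fin (n + 1) → E n)) := by
  refine Subset.antisymm (fun z hz => ?_) (convexHull_min ?_ convex_stdS)
  · have h := (convex_convexHull ℝ (range
      (Fin.cons 0 (fun k => Pi.single k 1) : Fin (n + 1) → E n))).sum_mem (t := Finset.univ)
      (w := (Fin.cons (1 - ∑ k, z k) z : Fin (n + 1) → ℝ))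
      (z := (Fin.cons 0 (fun k => Pi.single k 1) : Fin (n + 1) → E n))
      (fun i _ => by
        refine Fin.cases ?_ (fun k => ?_) i
        · simpa using hz.2
        · simpa using hz.1 k)
      (by simp [Fin.sum_univ_succ]) (fun i _ => subset_convexHull ℝ _ (mem_range_self i))
    convert h using 1
    ext j
    simp [Fin.sum_univ_succ, Finset.sum_apply, Pi.single_apply]
  · rintro _ ⟨i, rfl⟩
    refine Fin.cases ?_ (fun k => ?_) i
    · simp [stdS]
    · refine ⟨fun j => ?_, by simp⟩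
      simp only [Fin.cons_succ, Pi.single_apply]
      split_ifs <;> simp

lemma exists_affine_of_simp {V : Set (E n)} (hV : V.Finite)
    (hi : AffineIndependent ℝ ((↑) : V → E n)) (hv : volume (convexHull ℝ V) ≠ 0) :
    ∃ e : E n ≃ᵃ[ℝ] E n, convexHull ℝ V = e '' stdS n := by
  have := hV.fintype
  have h1 : affineSpan ℝ (range ((↑) : V → E n)) = ⊤ := by
    rw [Subtype.range_coe]
    by_contra h
    exact hv (measure_mono_null (convexHull_subset_affineSpan V)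
      (Measure.addHaar_affineSubspace _ _ h))
  have h2 := hi.affineSpan_eq_top_iff_card_eq_finrank_add_one.1 h1
  simp only [Module.finrank_fintype_fun_eq_card, Fintype.card_fin] at h2
  let σ : Fin (n + 1) ≃ V := (Fintype.equivFinOfCardEq h2).symm
  set p : Fin (n + 1) → E n := ((↑) : V → E n) ∘ σ with hp
  have hpi : AffineIndependent ℝ p := (affineIndependent_equiv σ).2 hi
  have hpr : range p = V := by rw [hp, σ.surjective.range_comp, Subtype.range_coe]
  have hl : LinearIndependent ℝ fun k : Fin n => p k.succ - p 0 := by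
    have := (affineIndependent_iff_linearIndependent_vsub ℝ p 0).1 hpi
    exact this.comp (fun k : Fin n => (⟨k.succ, Fin.succ_ne_zero k⟩ : {x : Fin (n + 1) // x ≠ 0}))
      (fun a b h => Fin.succ_injective _ (congrArg Subtype.val h))
  let B := basisOfLinearIndependentOfCardEqFinrank' _ hl (by simp)
  let e : E n ≃ᵃ[ℝ] E n := B.equivFun.symm.toAffineEquiv.trans (AffineEquiv.constVAdd ℝ _ (p 0))
  have he : ∀ z, e z = p 0 + B.equivFun.symm z := fun z => rfl
  refine ⟨e, ?_⟩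
  have h3 := e.toAffineMap.image_convexHull (range
    (Fin.cons 0 (fun k => Pi.single k 1) : Fin (n + 1) → E n))
  rw [AffineEquiv.coe_toAffineMap] at h3
  rw [stdS_eq_hull, h3, ← range_comp, ← hpr]
  congr 2
  ext1 i
  refine Fin.cases ?_ (fun k => ?_) i
  · simp [he]
  · simp [he, B, Pi.single_apply]

/-- reducible bodies satisfy the conjectured inequality -/
theorem Red.le_mstar {p : ℝ} (hp : 0 < p) {K : Set (E n)} (h : Red W f K) :
    volume K ≠ 0 → mahler p (cS n 1) ≤ mstar p K := by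
  induction h with
  | base V hV _ =>
    intro hv
    obtain ⟨e, he⟩ := exists_affine_of_simp hV.1 hV.2.1 hv
    rw [he]
    exact (mstar_stdS hp).trans (mstar_affine p e _)
  | move K K₀ K₁ θ b t₀ t₁ a1 a2 a3 a4 a5 a6 a7 a8 a9 a10 r₀ r₁ ih₀ ih₁ =>
    intro hv
    have v₀ := a9.volume_eq a4 a6 a1.measurableSet r₀.isCompact.measurableSet
    have v₁ := a10.volume_eq a4 a6 a1.measurableSet r₁.isCompact.measurableSet
    exact mstar_quasi a4 a6 a7 a8 a9 a10 a1 r₀.isCompact r₁.isCompact hv hp (ih₀ (by rwa [v₀]))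
      (ih₁ (by rwa [v₁]))

end Pool.Agent.MP_5f4cdd_gt.PL
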