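import Mathlib

set_option autoImplicit false
open Set Filter Topology MeasureTheory
open scoped ENNReal NNReal

namespace Pool.Agent.MP_5f4cdd_gt.T4

variable {E : Type*} [NormedAddCommGroup E] [NormedSpace ℝ E] [FiniteDimensional ℝ E]
  [MeasurableSpace E] [BorelSpace E] (μ : Measure E) [μ.IsAddHaarMeasure]

theorem lip_image_null {C : ℝ≥0} {f : E → E} (hf : LipschitzWith C f) {N : Set E}
    (hN : μ N = 0) : μ (f '' N) = 0 := by
  have h1 : μ ≪ μH[Module.finrank ℝ E] := Measure.absolutelyContinuous_isAddHaarMeasure _ _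
  have h2 : (μH[Module.finrank ℝ E] : Measure E) ≪ μ :=
    Measure.absolutelyContinuous_isAddHaarMeasure _ _
  apply h1
  have h3 := hf.hausdorffMeasure_image_le (d := Module.finrank ℝ E) (by positivity) N
  rw [h2 hN, mul_zero] at h3
  exact le_antisymm h3 zero_le

/-- The absolute Jacobian as an extended nonnegative real. -/
noncomputable def jac (f : E → E) (x : E) : ℝ≥0∞ := ENNReal.ofReal |(fderiv ℝ f x).det|

theorem measurable_jac (f : E → E) : Measurable (jac f) := by
  unfold jac
  exact ENNReal.measurable_ofReal.comp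
    (continuous_abs.measurable.comp
      (ContinuousLinearMap.continuous_det.measurable.comp (measurable_fderiv ℝ f)))

theorem area_upper {f : E → E} (hf : Measurable f) {U : Set E} (hU : MeasurableSet U)
    (hd : ∀ x ∈ U, DifferentiableAt ℝ f x) {g : E → ℝ≥0∞} (hg : Measurable g) :
    ∫⁻ y in f '' U, g y ∂μ ≤ ∫⁻ x in U, jac f x * g (f x) ∂μ := by
  refine Measurable.ennreal_induction
    (motive := fun g => ∫⁻ y in f '' U, g y ∂μ ≤ ∫⁻ x in U, jac f x * g (f x) ∂μ) ?_ ?_ ?_ hg
  · intro c s hs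
    rw [lintegral_indicator hs, setLIntegral_const, Measure.restrict_apply hs]
    have hm : MeasurableSet (f ⁻¹' s ∩ U) := (hf hs).inter hU
    have h1 : μ (s ∩ f '' U) ≤ ∫⁻ x in f ⁻¹' s ∩ U, jac f x ∂μ := by
      rw [← image_preimage_inter]
      exact addHaar_image_le_lintegral_abs_det_fderiv μ hm
        fun x hx => (hd x hx.2).hasFDerivAt.hasFDerivWithinAt
    have h2 : ∀ x, jac f x * s.indicator (fun _ => c) (f x) =
        (f ⁻¹' s).indicator (fun x => c * jac f x) x := by
      intro x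
      by_cases hx : f x ∈ s
      · rw [indicator_of_mem hx, indicator_of_mem (by exact hx), mul_comm]
      · rw [indicator_of_notMem hx, indicator_of_notMem (by exact hx), mul_zero]
    simp_rw [h2]
    rw [lintegral_indicator (hf hs), Measure.restrict_restrict (hf hs),
      lintegral_const_mul _ (measurable_jac f)]
    gcongr
  · intro g₁ g₂ _ h₁ h₂ i₁ i₂
    simp only [Pi.add_apply, mul_add]
    rw [lintegral_add_left h₁, lintegral_add_left (f := fun x => jac f x * g₁ (f x))
      ((measurable_jac f).mul (h₁.comp hf))]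
    exact add_le_add i₁ i₂
  · intro g hg hmono ih
    simp only [ENNReal.mul_iSup]
    rw [lintegral_iSup hg hmono, lintegral_iSup (f := fun n x => jac f x * g n (f x))
      (fun n => (measurable_jac f).mul ((hg n).comp hf))
      (fun a b hab x => by dsimp only; gcongr; exact hmono hab _)]
    exact iSup_mono ih

omit [MeasurableSpace E] [BorelSpace E] in
theorem det_eq_zero_of_segment {f : E → E} {x d : E} (hf : DifferentiableAt ℝ f x) (hd : d ≠ 0)
    (h : ∀ t : ℝ, 0 ≤ t → t ≤ 1 → f (x + t • d) = f x) : (fderiv ℝ f x).det = 0 := by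
  have h1 : HasDerivAt (fun t : ℝ => f (x + t • d)) (fderiv ℝ f x d) 0 := by
    have h2 : HasDerivAt (fun t : ℝ => x + t • d) d 0 := by
      simpa using ((hasDerivAt_id (0 : ℝ)).smul_const d).const_add x
    have h3 : HasFDerivAt f (fderiv ℝ f x) (x + (0 : ℝ) • d) := by simpa using hf.hasFDerivAt
    exact h3.comp_hasDerivAt (0 : ℝ) h2
  have h2 := h1.tendsto_slope_zero_right
  have h3 : Tendsto (fun t : ℝ => t⁻¹ • (f (x + (0 + t) • d) - f (x + (0 : ℝ) • d))) (𝓝[>] 0)
      (𝓝 0) := by
    refine tendsto_const_nhds.congr' ?_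
    filter_upwards [Ioo_mem_nhdsGT (zero_lt_one' ℝ)] with t ht
    rw [zero_add, h t ht.1.le ht.2.le, zero_smul, add_zero, sub_self, smul_zero]
  have h4 : fderiv ℝ f x d = 0 := tendsto_nhds_unique h2 h3
  refine LinearMap.det_eq_zero_iff_ker_ne_bot.2 fun hk => hd ?_
  have : d ∈ LinearMap.ker ((fderiv ℝ f x : E →L[ℝ] E) : E →ₗ[ℝ] E) := h4
  rw [hk] at this
  exact this

theorem area_lower {f : E → E} {U : Set E} (hU : MeasurableSet U)
    (hd : ∀ x ∈ U, DifferentiableAt ℝ f x)
    (hi : ∀ x ∈ U, ∀ y ∈ U, f x = f y → x ≠ y → (fderiv ℝ f x).det = 0) (g : E → ℝ≥0∞) :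
    ∫⁻ x in U, jac f x * g (f x) ∂μ ≤ ∫⁻ y, g y ∂μ := by
  set Z : Set E := {x | jac f x ≠ 0} with hZ
  have hZm : MeasurableSet Z := (measurable_jac f (measurableSet_singleton 0)).compl
  have h1 : ∫⁻ x in U, jac f x * g (f x) ∂μ = ∫⁻ x in Z ∩ U, jac f x * g (f x) ∂μ := by
    rw [← Measure.restrict_restrict hZm, ← lintegral_indicator hZm]
    refine lintegral_congr fun x => ?_
    by_cases hx : x ∈ Z
    · rw [indicator_of_mem hx]
    · rw [indicator_of_notMem hx]
      have : jac f x = 0 := by simpa [hZ] using hx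
      rw [this, zero_mul]
  have h2 : InjOn f (Z ∩ U) := by
    intro x hx y hy hxy
    by_contra hne
    have := hi x hx.2 y hy.2 hxy hne
    apply hx.1
    simp [jac, this]
  have h3 := lintegral_image_eq_lintegral_abs_det_fderiv_mul μ (hZm.inter hU)
    (fun x hx => (hd x hx.2).hasFDerivAt.hasFDerivWithinAt) h2 g
  rw [h1]
  unfold jac
  rw [← h3]
  exact setLIntegral_le_lintegral _ _

omit [MeasurableSpace E] [BorelSpace E] in
theorem exists_det_bound (C : ℝ) : ∃ B : ℝ, ∀ A : E →L[ℝ] E, ‖A‖ ≤ C → |A.det| ≤ B := by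
  have hc : IsCompact (Metric.closedBall (0 : E →L[ℝ] E) C) := isCompact_closedBall _ _
  obtain ⟨B, hB⟩ := hc.exists_bound_of_continuousOn
    (ContinuousLinearMap.continuous_det (𝕜 := ℝ) (E := E)).continuousOn
  exact ⟨B, fun A hA => hB A (by simpa using hA)⟩

end Pool.Agent.MP_5f4cdd_gt.T4
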