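import Pool.Agent.MP_5f4cdd_gt.T4Holo
import Pool.Agent.MP_5f4cdd_gt.T4Area

set_option autoImplicit false
set_option linter.unusedSectionVars false
open Set Filter Topology MeasureTheory Metric
open scoped RealInnerProductSpace NNReal

namespace Pool.Agent.MP_5f4cdd_gt.T4

variable {E : Type*} [NormedAddCommGroup E] [InnerProductSpace ℝ E] [FiniteDimensional ℝ E]
  [MeasurableSpace E] [BorelSpace E]

instance volProdHaar : (volume : Measure (E × E)).IsAddHaarMeasure :=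
  Measure.prod.instIsAddHaarMeasure _ _

theorem ae_diff_prod {r : E → E} {C : ℝ≥0} (hr : LipschitzWith C r) :
    (volume : Measure (E × E))
      ({w | DifferentiableAt ℝ r w} ×ˢ {w | DifferentiableAt ℝ r w})ᶜ = 0 := by
  have h0 : (volume : Measure E) {w | DifferentiableAt ℝ r w}ᶜ = 0 := hr.ae_differentiableAt
  rw [compl_prod_eq_union, Measure.volume_eq_prod]
  refine measure_union_null ?_ ?_ <;> simp [Measure.prod_prod, h0]

theorem gauss_prod : ∫ X : E × E, Real.exp (-(‖X.1‖ ^ 2 + ‖X.2‖ ^ 2) / 8) =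
    (8 * Real.pi) ^ Module.finrank ℝ E := by
  have h1 : ∀ X : E × E, Real.exp (-(‖X.1‖ ^ 2 + ‖X.2‖ ^ 2) / 8) =
      Real.exp (-(1 / 8) * ‖X.1‖ ^ 2) * Real.exp (-(1 / 8) * ‖X.2‖ ^ 2) := by
    intro X; rw [← Real.exp_add]; congr 1; ring
  simp_rw [h1]
  rw [Measure.volume_eq_prod, integral_prod_mul (fun x : E => Real.exp (-(1 / 8) * ‖x‖ ^ 2))
    (fun x : E => Real.exp (-(1 / 8) * ‖x‖ ^ 2)),
    GaussianFourier.integral_rexp_neg_mul_sq_norm (by norm_num : (0 : ℝ) < 1 / 8),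
    ← Real.rpow_add (by positivity), add_halves, Real.rpow_natCast]
  congr 1; ring

theorem integrable_gauss {b : ℝ} (hb : 0 < b) :
    Integrable fun X : E × E => Real.exp (-b * (‖X.1‖ ^ 2 + ‖X.2‖ ^ 2)) := by
  have h0 : Integrable fun x : E => Real.exp (-b * ‖x‖ ^ 2) := by
    refine Integrable.of_integral_ne_zero ?_
    rw [GaussianFourier.integral_rexp_neg_mul_sq_norm hb]
    positivity
  have h1 := h0.mul_prod h0
  rw [Measure.volume_eq_prod]
  refine h1.congr (Eventually.of_forall fun X => ?_)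
  dsimp only
  rw [← Real.exp_add]; congr 1; ring

/-- The shear map. -/
def shear (r : E → E) (l m : ℝ) (X : E × E) : E × E := (X.1 + l • r X.2, X.2 + m • r X.1)

theorem shear_aux {r : E → E} (hr : LipschitzWith 1 r) {l m : ℝ} (hl : |l| ≤ 1 / 2)
    (hm : |m| ≤ 1 / 2) :
    LipschitzWith (1 / 2) fun X : E × E => ((l • r X.2, m • r X.1) : E × E) := by
  refine LipschitzWith.of_dist_le_mul fun X Y => ?_
  rw [Prod.dist_eq, Prod.dist_eq]
  have h1 := hr.dist_le_mul X.1 Y.1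
  have h2 := hr.dist_le_mul X.2 Y.2
  simp only [NNReal.coe_one, one_mul] at h1 h2
  simp only [dist_smul₀, Real.norm_eq_abs]
  have h3 := le_max_left (dist X.1 Y.1) (dist X.2 Y.2)
  have h4 := le_max_right (dist X.1 Y.1) (dist X.2 Y.2)
  have h5 := dist_nonneg (x := r X.1) (y := r Y.1)
  have h6 := dist_nonneg (x := r X.2) (y := r Y.2)
  push_cast
  refine max_le ?_ ?_ <;> nlinarith [abs_nonneg l, abs_nonneg m]

theorem shear_bij {r : E → E} (hr : LipschitzWith 1 r) {l m : ℝ} (hl : |l| ≤ 1 / 2)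
    (hm : |m| ≤ 1 / 2) : Function.Bijective (shear r l m) := by
  have h := shear_aux hr hl hm
  set R := fun X : E × E => ((l • r X.2, m • r X.1) : E × E) with hR
  have e : ∀ X, shear r l m X = X + R X := fun X => rfl
  constructor
  · intro X Y hXY
    rw [e, e] at hXY
    have h1 := h.dist_le_mul X Y
    have h2 : dist X Y = dist (R X) (R Y) := by
      rw [dist_eq_norm, dist_eq_norm, ← norm_neg]
      congr 1
      rw [neg_sub, sub_eq_sub_iff_add_eq_add, add_comm (R X), ← hXY]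
    rw [← h2] at h1
    push_cast at h1
    have : dist X Y = 0 := by linarith [dist_nonneg (x := X) (y := Y)]
    exact dist_eq_zero.1 this
  · intro Y
    have hc : ContractingWith (1 / 2) fun X : E × E => Y - R X := by
      refine ⟨by norm_num, LipschitzWith.of_dist_le_mul fun X X' => ?_⟩
      rw [dist_sub_left]
      exact h.dist_le_mul X X'
    refine ⟨hc.fixedPoint, ?_⟩
    have := hc.fixedPoint_isFixedPt
    rw [e]
    exact eq_sub_iff_add_eq.1 this.symm

theorem real_case {r : E → E} (hr : LipschitzWith 1 r) {l : ℝ} (hl : |l| ≤ 1 / 2) :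
    ∫ X : E × E, (1 + l ^ 2 • (fderiv ℝ r X.1).comp (fderiv ℝ r X.2)).det *
      Real.exp (-(‖X.1 + l • r X.2‖ ^ 2 + ‖X.2 - l • r X.1‖ ^ 2) / 8) =
    (8 * Real.pi) ^ Module.finrank ℝ E := by
  set U : Set (E × E) := {w | DifferentiableAt ℝ r w} ×ˢ {w | DifferentiableAt ℝ r w} with hU
  have hUm : MeasurableSet U :=
    (measurableSet_of_differentiableAt ℝ r).prod (measurableSet_of_differentiableAt ℝ r)
  have hU0 : volume Uᶜ = 0 := ae_diff_prod hr
  have hl' : |-l| ≤ 1 / 2 := by rwa [abs_neg]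
  have hbij := shear_bij hr hl hl'
  have hlip : LipschitzWith (1 + 1 / 2) (shear r l (-l)) :=
    LipschitzWith.id.add (shear_aux hr hl hl')
  have him : volume (shear r l (-l) '' U)ᶜ = 0 := by
    rw [← image_compl_eq hbij]
    exact lip_image_null volume hlip hU0
  have h1 := integral_image_eq_integral_abs_det_fderiv_smul volume hUm
    (f := shear r l (-l))
    (f' := fun X => blk (l • fderiv ℝ r X.2) ((-l) • fderiv ℝ r X.1))
    (fun X hX => (hasFDerivAt_blk hX.1 hX.2 l (-l)).hasFDerivWithinAt) hbij.1.injOn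
    (fun X : E × E => Real.exp (-(‖X.1‖ ^ 2 + ‖X.2‖ ^ 2) / 8))
  rw [Measure.restrict_eq_self_of_ae_mem (s := shear r l (-l) '' U) him,
    Measure.restrict_eq_self_of_ae_mem (s := U) hU0, gauss_prod] at h1
  rw [h1]
  refine integral_congr_ae (Eventually.of_forall fun X => ?_)
  have e : (1 : E →L[ℝ] E) - ((-l) • fderiv ℝ r X.1).comp (l • fderiv ℝ r X.2) =
      1 + l ^ 2 • (fderiv ℝ r X.1).comp (fderiv ℝ r X.2) := by
    ext v; simp [sq, smul_smul]
  have hpos : 0 < (1 + l ^ 2 • (fderiv ℝ r X.1).comp (fderiv ℝ r X.2)).det := by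
    refine det_one_add_pos ?_
    have a1 : ‖fderiv ℝ r X.1‖ ≤ 1 := norm_fderiv_le_of_lipschitz ℝ hr
    have a2 : ‖fderiv ℝ r X.2‖ ≤ 1 := norm_fderiv_le_of_lipschitz ℝ hr
    have a3 := (fderiv ℝ r X.1).opNorm_comp_le (fderiv ℝ r X.2)
    have a4 : ‖(fderiv ℝ r X.1).comp (fderiv ℝ r X.2)‖ ≤ 1 :=
      a3.trans (mul_le_one₀ a1 (norm_nonneg _) a2)
    have a5 : l ^ 2 ≤ 1 / 4 := by rw [← sq_abs]; nlinarith [abs_nonneg l]
    rw [norm_smul, Real.norm_eq_abs, abs_of_nonneg (sq_nonneg l)]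
    nlinarith [norm_nonneg ((fderiv ℝ r X.1).comp (fderiv ℝ r X.2)), sq_nonneg l]
  dsimp only
  rw [det_blk, e, abs_of_pos hpos, smul_eq_mul]
  simp only [shear, neg_smul, ← sub_eq_add_neg]

/-- complexified determinant -/
noncomputable def cdet (z : ℂ) (A : E →L[ℝ] E) : ℂ :=
  (1 + z • (LinearMap.toMatrix (Module.finBasis ℝ E) (Module.finBasis ℝ E)
    (A : E →ₗ[ℝ] E)).map Complex.ofReal).det

theorem cdet_ofReal (t : ℝ) (A : E →L[ℝ] E) : cdet (t : ℂ) A = ((1 + t • A).det : ℝ) := by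
  set b := Module.finBasis ℝ E
  have h3 : (1 + t • A).det = (LinearMap.toMatrix b b
      ((1 + t • A : E →L[ℝ] E) : E →ₗ[ℝ] E)).det := (LinearMap.det_toMatrix _ _).symm
  have h4 : LinearMap.toMatrix b b ((1 + t • A : E →L[ℝ] E) : E →ₗ[ℝ] E) =
      1 + t • LinearMap.toMatrix b b (A : E →ₗ[ℝ] E) := by
    rw [← LinearMap.toMatrix_id b, ← map_smul, ← map_add]; rfl
  rw [h3, h4]
  have := (Complex.ofRealHom).map_det (1 + t • LinearMap.toMatrix b b (A : E →ₗ[ℝ] E))
  simp only [Complex.ofRealHom_eq_coe] at this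
  rw [this, cdet]
  congr 1
  ext i j
  simp [Matrix.one_apply, b]
  split_ifs <;> simp

theorem continuous_cdet : Continuous fun p : ℂ × (E →L[ℝ] E) => cdet p.1 p.2 := by
  unfold cdet
  refine Continuous.matrix_det (continuous_const.add (continuous_fst.smul ?_))
  refine continuous_matrix fun i j => ?_
  simp only [Matrix.map_apply, LinearMap.toMatrix_apply]
  refine Complex.continuous_ofReal.comp ?_
  exact ((Module.finBasis ℝ E).coord i).continuous_of_finiteDimensional.comp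
    (by fun_prop : Continuous fun p : ℂ × (E →L[ℝ] E) => p.2 (Module.finBasis ℝ E j))

theorem differentiable_cdet (A : E →L[ℝ] E) : Differentiable ℂ fun z => cdet z A := by
  unfold cdet
  simp only [Matrix.det_apply', Matrix.add_apply, Matrix.smul_apply, smul_eq_mul]
  fun_prop

theorem cdet_bound : ∃ B : ℝ, 0 ≤ B ∧ ∀ (z : ℂ) (A : E →L[ℝ] E), ‖z‖ ≤ 4 → ‖A‖ ≤ 1 →
    ‖cdet z A‖ ≤ B := by
  have hc : IsCompact (closedBall (0 : ℂ) 4 ×ˢ closedBall (0 : E →L[ℝ] E) 1) :=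
    (isCompact_closedBall _ _).prod (isCompact_closedBall _ _)
  obtain ⟨B, hB⟩ := hc.exists_bound_of_continuousOn (continuous_cdet (E := E)).continuousOn
  refine ⟨max B 0, le_max_right _ _, fun z A hz hA => le_trans ?_ (le_max_left _ _)⟩
  exact hB (z, A) ⟨by simpa using hz, by simpa using hA⟩

/-- the holomorphic integrand -/
noncomputable def cint (r : E → E) (z : ℂ) (X : E × E) : ℂ :=
  cdet (z ^ 2) ((fderiv ℝ r X.1).comp (fderiv ℝ r X.2)) *
    Complex.exp (-(((‖X.1‖ ^ 2 + ‖X.2‖ ^ 2 : ℝ) : ℂ) +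
      2 * z * ((⟪X.1, r X.2⟫ - ⟪X.2, r X.1⟫ : ℝ) : ℂ) +
      z ^ 2 * ((‖r X.1‖ ^ 2 + ‖r X.2‖ ^ 2 : ℝ) : ℂ)) / 8)

theorem measurable_QQ (r : E → E) :
    Measurable fun X : E × E => (fderiv ℝ r X.1).comp (fderiv ℝ r X.2) := by
  have h1 : Continuous fun p : (E →L[ℝ] E) × (E →L[ℝ] E) => p.1.comp p.2 := by fun_prop
  exact h1.measurable.comp (((measurable_fderiv ℝ r).comp measurable_fst).prodMk
    ((measurable_fderiv ℝ r).comp measurable_snd))

theorem norm_QQ_le {r : E → E} (hr : LipschitzWith 1 r) (X : E × E) :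
    ‖(fderiv ℝ r X.1).comp (fderiv ℝ r X.2)‖ ≤ 1 := by
  have a1 : ‖fderiv ℝ r X.1‖ ≤ 1 := norm_fderiv_le_of_lipschitz ℝ hr
  have a2 : ‖fderiv ℝ r X.2‖ ≤ 1 := norm_fderiv_le_of_lipschitz ℝ hr
  exact ((fderiv ℝ r X.1).opNorm_comp_le (fderiv ℝ r X.2)).trans
    (mul_le_one₀ a1 (norm_nonneg _) a2)

theorem measurable_cint {r : E → E} (hr : Continuous r) (z : ℂ) : Measurable (cint r z) := by
  unfold cint
  refine Measurable.mul ?_ (Continuous.measurable (by fun_prop))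
  exact (continuous_cdet.comp (Continuous.prodMk_right (z ^ 2))).measurable.comp (measurable_QQ r)

theorem cint_real (r : E → E) (l : ℝ) (X : E × E) : cint r l X =
    (((1 + l ^ 2 • (fderiv ℝ r X.1).comp (fderiv ℝ r X.2)).det *
      Real.exp (-(‖X.1 + l • r X.2‖ ^ 2 + ‖X.2 - l • r X.1‖ ^ 2) / 8) : ℝ) : ℂ) := by
  unfold cint
  rw [← Complex.ofReal_pow, cdet_ofReal, Complex.ofReal_mul, Complex.ofReal_exp]
  congr 2
  rw [norm_add_sq_real, norm_sub_sq_real, inner_smul_right, inner_smul_right, norm_smul, norm_smul,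
    mul_pow, mul_pow, Real.norm_eq_abs, sq_abs]
  push_cast
  ring

theorem norm_cint (r : E → E) (z : ℂ) (X : E × E) : ‖cint r z X‖ =
    ‖cdet (z ^ 2) ((fderiv ℝ r X.1).comp (fderiv ℝ r X.2))‖ *
      Real.exp (-((‖X.1‖ ^ 2 + ‖X.2‖ ^ 2) + 2 * z.re * (⟪X.1, r X.2⟫ - ⟪X.2, r X.1⟫) +
        (z.re ^ 2 - z.im ^ 2) * (‖r X.1‖ ^ 2 + ‖r X.2‖ ^ 2)) / 8) := by
  unfold cint
  rw [norm_mul, Complex.norm_exp]
  congr 2
  generalize (‖X.1‖ ^ 2 + ‖X.2‖ ^ 2) = a
  generalize (⟪X.1, r X.2⟫ - ⟪X.2, r X.1⟫) = b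
  generalize (‖r X.1‖ ^ 2 + ‖r X.2‖ ^ 2) = c
  simp [sq]

theorem contour_lt {r : E → E} (hr : LipschitzWith 1 r) (h0 : ∀ w, ‖r w‖ ≤ ‖w‖) {b : ℝ}
    (hb0 : 0 ≤ b) (hb : b < 1) :
    ∫ X : E × E, cint r (b * Complex.I) X = (((8 * Real.pi) ^ Module.finrank ℝ E : ℝ) : ℂ) := by
  set c := (1 + b) / 2 with hc
  have hc0 : 0 < c := by positivity
  have hc1 : c < 1 := by linarith
  have hbc : b < c := by linarith
  set δ := (1 - c ^ 2) / 4 with hδ
  have hcc : c ^ 2 < 1 := by nlinarith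
  have hδ0 : 0 < δ := by linarith
  have hδ1 : δ ≤ 1 / 4 := by nlinarith
  set U : Set ℂ := ({z | -δ < z.re} ∩ {z | z.re < δ}) ∩ ({z | -c < z.im} ∩ {z | z.im < c}) with hU
  have hUo : IsOpen U :=
    ((isOpen_lt continuous_const Complex.continuous_re).inter
      (isOpen_lt Complex.continuous_re continuous_const)).inter
    ((isOpen_lt continuous_const Complex.continuous_im).inter
      (isOpen_lt Complex.continuous_im continuous_const))
  have hUc : Convex ℝ U :=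
    ((convex_halfSpace_re_gt _).inter (convex_halfSpace_re_lt _)).inter
      ((convex_halfSpace_im_gt _).inter (convex_halfSpace_im_lt _))
  obtain ⟨B, hB0, hB⟩ := cdet_bound (E := E)
  have hdiff : DifferentiableOn ℂ (fun z => ∫ X : E × E, cint r z X) U := by
    refine holo_integral hUo (fun X => ?_)
      (fun z => (measurable_cint hr.continuous z).aestronglyMeasurable)
      ((integrable_gauss (b := δ / 4) (by positivity)).const_mul B) fun z hz X => ?_
    · unfold cint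
      refine Differentiable.mul ((differentiable_cdet _).comp (differentiable_pow 2)) ?_
      fun_prop
    · obtain ⟨⟨a1, a2⟩, a3, a4⟩ := hz
      simp only [mem_ofPred_eq] at a1 a2 a3 a4
      have b1 : |z.re| ≤ δ := abs_le.2 ⟨a1.le, a2.le⟩
      have b2 : z.im ^ 2 ≤ c ^ 2 := sq_le_sq' a3.le a4.le
      rw [norm_cint]
      refine mul_le_mul (hB _ _ ?_ (norm_QQ_le hr X)) (Real.exp_le_exp.2 ?_) (by positivity) hB0
      · rw [norm_pow, Complex.sq_norm, Complex.normSq_apply]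
        nlinarith
      · have c1 := abs_real_inner_le_norm X.1 (r X.2)
        have c2 := abs_real_inner_le_norm X.2 (r X.1)
        have c3 := h0 X.1
        have c4 := h0 X.2
        have n1 := norm_nonneg (r X.1)
        have n2 := norm_nonneg (r X.2)
        have d1 : ‖X.1‖ * ‖r X.2‖ ≤ ‖X.1‖ * ‖X.2‖ := by gcongr
        have d2 : ‖X.2‖ * ‖r X.1‖ ≤ ‖X.2‖ * ‖X.1‖ := by gcongr
        have d3 : |⟪X.1, r X.2⟫ - ⟪X.2, r X.1⟫| ≤ ‖X.1‖ ^ 2 + ‖X.2‖ ^ 2 := by
          refine (abs_sub _ _).trans ?_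
          nlinarith [sq_nonneg (‖X.1‖ - ‖X.2‖)]
        have d4 : ‖r X.1‖ ^ 2 + ‖r X.2‖ ^ 2 ≤ ‖X.1‖ ^ 2 + ‖X.2‖ ^ 2 := by gcongr
        have d5 : 0 ≤ ‖r X.1‖ ^ 2 + ‖r X.2‖ ^ 2 := by positivity
        generalize (‖X.1‖ ^ 2 + ‖X.2‖ ^ 2) = s0 at *
        generalize (⟪X.1, r X.2⟫ - ⟪X.2, r X.1⟫) = s1 at *
        generalize (‖r X.1‖ ^ 2 + ‖r X.2‖ ^ 2) = s2 at *
        have e1 : |z.re * s1| ≤ δ * s0 := by
          rw [abs_mul]; exact mul_le_mul b1 d3 (abs_nonneg _) hδ0.le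
        have e2 := neg_abs_le (z.re * s1)
        have e3 : z.im ^ 2 * s2 ≤ c ^ 2 * s0 := mul_le_mul b2 d4 d5 (by positivity)
        have e4 : 0 ≤ z.re ^ 2 * s2 := by positivity
        have e5 : c ^ 2 = 1 - 4 * δ := by rw [hδ]; ring
        rw [e5] at e3
        nlinarith
  have han := hdiff.analyticOnNhd hUo
  have hfreq : ∃ᶠ z in 𝓝[≠] (0 : ℂ), (fun z => ∫ X : E × E, cint r z X) z =
      (fun _ => (((8 * Real.pi) ^ Module.finrank ℝ E : ℝ) : ℂ)) z := by
    have ht : Tendsto (fun t : ℝ => (t : ℂ)) (𝓝[>] 0) (𝓝[≠] 0) := by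
      refine tendsto_nhdsWithin_iff.2 ⟨?_, ?_⟩
      · exact (Complex.continuous_ofReal.tendsto' 0 0 (by simp)).mono_left nhdsWithin_le_nhds
      · filter_upwards [self_mem_nhdsWithin] with t ht
        exact Complex.ofReal_ne_zero.2 (ne_of_gt ht)
    refine ht.frequently (Eventually.frequently ?_)
    filter_upwards [Ioo_mem_nhdsGT (by norm_num : (0 : ℝ) < 1 / 2)] with t ht
    simp_rw [cint_real]
    rw [integral_complex_ofReal, real_case hr (by rw [abs_of_pos ht.1]; exact ht.2.le)]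
  have h0U : (0 : ℂ) ∈ U := by simp [hU, hδ0, hc0]
  have := han.eqOn_of_preconnected_of_frequently_eq analyticOnNhd_const hUc.isPreconnected h0U hfreq
  refine this (x := b * Complex.I) ?_
  simp [hU, hδ0, hbc]
  linarith

theorem contour {r : E → E} (hr : LipschitzWith 1 r) (h0 : ∀ w, ‖r w‖ ≤ ‖w‖)
    (hint : Integrable fun w : E => Real.exp (-(‖w‖ ^ 2 - ‖r w‖ ^ 2) / 8)) :
    (8 * Real.pi) ^ Module.finrank ℝ E ≤
      ∫ X : E × E, |(1 - (fderiv ℝ r X.1).comp (fderiv ℝ r X.2)).det| *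
        (Real.exp (-(‖X.1‖ ^ 2 - ‖r X.1‖ ^ 2) / 8) * Real.exp (-(‖X.2‖ ^ 2 - ‖r X.2‖ ^ 2) / 8)) := by
  obtain ⟨B, hB0, hB⟩ := cdet_bound (E := E)
  have hnorm : ∀ (b : ℝ) (X : E × E), ‖cint r (b * Complex.I) X‖ =
      |(1 - b ^ 2 • (fderiv ℝ r X.1).comp (fderiv ℝ r X.2)).det| *
      (Real.exp (-(‖X.1‖ ^ 2 - b ^ 2 * ‖r X.1‖ ^ 2) / 8) *
        Real.exp (-(‖X.2‖ ^ 2 - b ^ 2 * ‖r X.2‖ ^ 2) / 8)) := by
    intro b X
    have e : ((b : ℂ) * Complex.I) ^ 2 = ((-b ^ 2 : ℝ) : ℂ) := by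
      rw [mul_pow, Complex.I_sq]; push_cast; ring
    rw [norm_cint, e, cdet_ofReal, Complex.norm_real, Real.norm_eq_abs, ← Real.exp_add, neg_smul,
      ← sub_eq_add_neg]
    congr 2
    simp
    ring
  have hI : Integrable fun X : E × E => B *
      (Real.exp (-(‖X.1‖ ^ 2 - ‖r X.1‖ ^ 2) / 8) * Real.exp (-(‖X.2‖ ^ 2 - ‖r X.2‖ ^ 2) / 8)) := by
    rw [Measure.volume_eq_prod]
    exact (hint.mul_prod hint).const_mul B
  have hlim : Tendsto (fun b : ℝ => ∫ X : E × E, ‖cint r (b * Complex.I) X‖) (𝓝[<] 1)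
      (𝓝 (∫ X : E × E, ‖cint r ((1 : ℝ) * Complex.I) X‖)) := by
    refine tendsto_integral_filter_of_dominated_convergence _
      (Eventually.of_forall fun b =>
        (measurable_cint hr.continuous _).norm.aestronglyMeasurable) ?_ hI
      (Eventually.of_forall fun X => ?_)
    · filter_upwards [Ioo_mem_nhdsLT (zero_lt_one' ℝ)] with b hb
      refine Eventually.of_forall fun X => ?_
      have hb2 : b ^ 2 ≤ 1 := by nlinarith [hb.1, hb.2]
      rw [norm_norm, hnorm]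
      refine mul_le_mul ?_ ?_ (by positivity) hB0
      · have := hB ((-b ^ 2 : ℝ) : ℂ) _ (by
          rw [Complex.norm_real, norm_neg, Real.norm_eq_abs, abs_of_nonneg (sq_nonneg b)]
          linarith) (norm_QQ_le hr X)
        rwa [cdet_ofReal, Complex.norm_real, Real.norm_eq_abs, neg_smul, ← sub_eq_add_neg] at this
      · refine mul_le_mul (Real.exp_le_exp.2 ?_) (Real.exp_le_exp.2 ?_) (by positivity)
          (by positivity)
        · nlinarith [sq_nonneg ‖r X.1‖]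
        · nlinarith [sq_nonneg ‖r X.2‖]
    · refine Tendsto.mono_left (Continuous.tendsto ?_ 1) nhdsWithin_le_nhds
      simp_rw [hnorm]
      refine Continuous.mul (Continuous.abs ?_) (by fun_prop)
      exact ContinuousLinearMap.continuous_det.comp (by fun_prop)
  have hge : (8 * Real.pi) ^ Module.finrank ℝ E ≤
      ∫ X : E × E, ‖cint r ((1 : ℝ) * Complex.I) X‖ := by
    refine ge_of_tendsto hlim ?_
    filter_upwards [Ioo_mem_nhdsLT (zero_lt_one' ℝ)] with b hb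
    have h1 := norm_integral_le_integral_norm (μ := volume) (cint r (b * Complex.I))
    rw [contour_lt hr h0 hb.1.le hb.2, Complex.norm_real, Real.norm_eq_abs,
      abs_of_nonneg (by positivity)] at h1
    exact h1
  simp_rw [hnorm] at hge
  simpa using hge

end Pool.Agent.MP_5f4cdd_gt.T4
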