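import Mathlib

set_option autoImplicit false
open Set Filter Topology MeasureTheory Metric

namespace Pool.Agent.MP_5f4cdd_gt.T4

theorem holo_integral {α : Type*} [MeasurableSpace α] {μ : Measure α} {F : ℂ → α → ℂ}
    {U : Set ℂ} (hU : IsOpen U) (hF : ∀ a, Differentiable ℂ fun z => F z a)
    (hm : ∀ z, AEStronglyMeasurable (F z) μ) {bound : α → ℝ} (hb : Integrable bound μ)
    (hle : ∀ z ∈ U, ∀ a, ‖F z a‖ ≤ bound a) :
    DifferentiableOn ℂ (fun z => ∫ a, F z a ∂μ) U := by
  intro z₀ hz₀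
  obtain ⟨ε, hε, hball⟩ := Metric.isOpen_iff.1 hU z₀ hz₀
  have hint : Integrable (F z₀) μ := hb.mono' (hm z₀) (Eventually.of_forall (hle z₀ hz₀))
  have hm' : AEStronglyMeasurable (fun a => deriv (fun z => F z a) z₀) μ := by
    refine aestronglyMeasurable_of_tendsto_ae (𝓝[≠] (0 : ℂ))
      (f := fun t a => t⁻¹ • (F (z₀ + t) a - F z₀ a))
      (fun t => ((hm (z₀ + t)).sub (hm z₀)).const_smul t⁻¹) (Eventually.of_forall fun a => ?_)
    exact (hF a z₀).hasDerivAt.tendsto_slope_zero
  have key := hasDerivAt_integral_of_dominated_loc_of_deriv_le (μ := μ) (F := F) (x₀ := z₀)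
    (s := ball z₀ (ε / 2)) (bound := fun a => bound a / (ε / 4))
    (F' := fun z a => deriv (fun z => F z a) z)
    (ball_mem_nhds z₀ (by positivity)) (Eventually.of_forall hm) hint hm'
    (Eventually.of_forall fun a z hz => ?_) (hb.div_const _)
    (Eventually.of_forall fun a z _ => (hF a z).hasDerivAt)
  · exact key.2.differentiableAt.differentiableWithinAt
  · refine Complex.norm_deriv_le_of_forall_mem_sphere_norm_le (by positivity)
      (hF a).diffContOnCl fun y hy => hle y (hball ?_) a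
    rw [mem_sphere] at hy
    rw [mem_ball] at hz ⊢
    linarith [dist_triangle y z z₀]

section

variable {E : Type*} [NormedAddCommGroup E] [NormedSpace ℝ E] [FiniteDimensional ℝ E]

theorem det_one_add_ne_zero {A : E →L[ℝ] E} (hA : ‖A‖ < 1) : (1 + A).det ≠ 0 := by
  intro h
  have h1 := LinearMap.det_eq_zero_iff_ker_ne_bot.1 h
  apply h1
  rw [eq_bot_iff]
  intro x hx
  have h2 : x + A x = 0 := hx
  have h3 : ‖x‖ = ‖A x‖ := by
    conv_lhs => rw [eq_neg_of_add_eq_zero_left h2, norm_neg]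
  have h4 := A.le_opNorm x
  have h5 : ‖x‖ = 0 := by nlinarith [norm_nonneg x]
  exact norm_eq_zero.1 h5

theorem det_one_add_pos {A : E →L[ℝ] E} (hA : ‖A‖ < 1) : 0 < (1 + A).det := by
  have hc : Continuous fun t : ℝ => (1 + t • A).det :=
    ContinuousLinearMap.continuous_det.comp (by fun_prop)
  by_contra hn
  push Not at hn
  have h0 : (0 : ℝ) ∈ Icc ((fun t : ℝ => (1 + t • A).det) 1) ((fun t : ℝ => (1 + t • A).det) 0) := by
    constructor
    · simpa using hn
    · have : (1 : E →L[ℝ] E).det = 1 := LinearMap.det_id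
      simp [this]
  obtain ⟨t, ht, ht0⟩ := intermediate_value_Icc' zero_le_one hc.continuousOn h0
  refine det_one_add_ne_zero (A := t • A) ?_ ht0
  rw [norm_smul, Real.norm_eq_abs, abs_of_nonneg ht.1]
  nlinarith [ht.1, ht.2, norm_nonneg A]

/-- The block operator with identity diagonal blocks. -/
noncomputable def blk (B C : E →L[ℝ] E) : (E × E) →L[ℝ] (E × E) :=
  (ContinuousLinearMap.fst ℝ E E + B.comp (ContinuousLinearMap.snd ℝ E E)).prod
    (ContinuousLinearMap.snd ℝ E E + C.comp (ContinuousLinearMap.fst ℝ E E))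

theorem det_blk (B C : E →L[ℝ] E) : (blk B C).det = (1 - C.comp B).det := by
  set b := Module.finBasis ℝ E
  have h1 : LinearMap.toMatrix (b.prod b) (b.prod b) (blk B C : (E × E) →ₗ[ℝ] (E × E)) =
      Matrix.fromBlocks 1 (LinearMap.toMatrix b b B) (LinearMap.toMatrix b b C) 1 := by
    ext i j
    rcases i with i | i <;> rcases j with j | j <;>
      simp [LinearMap.toMatrix_apply, blk, Matrix.one_apply, Finsupp.single_apply, eq_comm]
  have h2 : (blk B C).det = (LinearMap.toMatrix (b.prod b) (b.prod b)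
      (blk B C : (E × E) →ₗ[ℝ] (E × E))).det := (LinearMap.det_toMatrix _ _).symm
  have h3 : (1 - C.comp B).det = (LinearMap.toMatrix b b
      ((1 - C.comp B : E →L[ℝ] E) : E →ₗ[ℝ] E)).det := (LinearMap.det_toMatrix _ _).symm
  rw [h2, h1, Matrix.det_fromBlocks_one₁₁, h3, ← LinearMap.toMatrix_comp, ← LinearMap.toMatrix_id b,
    ← map_sub]
  rfl

theorem hasFDerivAt_blk {r : E → E} {X : E × E} (h₁ : DifferentiableAt ℝ r X.1)
    (h₂ : DifferentiableAt ℝ r X.2) (l m : ℝ) :
    HasFDerivAt (fun X : E × E => (X.1 + l • r X.2, X.2 + m • r X.1))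
      (blk (l • fderiv ℝ r X.2) (m • fderiv ℝ r X.1)) X := by
  have a1 : HasFDerivAt (fun X : E × E => r X.2)
      ((fderiv ℝ r X.2).comp (ContinuousLinearMap.snd ℝ E E)) X :=
    h₂.hasFDerivAt.comp X hasFDerivAt_snd
  have a2 : HasFDerivAt (fun X : E × E => r X.1)
      ((fderiv ℝ r X.1).comp (ContinuousLinearMap.fst ℝ E E)) X :=
    h₁.hasFDerivAt.comp X hasFDerivAt_fst
  have := (hasFDerivAt_fst.add (a1.const_smul l)).prodMk (hasFDerivAt_snd.add (a2.const_smul m))
  exact this

end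

end Pool.Agent.MP_5f4cdd_gt.T4
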