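import Mathlib

set_option autoImplicit false
open Matrix
open scoped MatrixOrder

namespace Pool.Agent.MP_5f4cdd_gt.T4

variable {ι : Type*} [Fintype ι] [DecidableEq ι]

theorem det_one_add_eq {X : Matrix ι ι ℝ} (hX : X.IsHermitian) :
    (1 + X).det = ∏ i, (1 + hX.eigenvalues i) := by
  have h := hX.spectral_theorem
  set U := hX.eigenvectorUnitary with hU
  rw [Unitary.conjStarAlgAut_apply] at h
  have h1 : (U : Matrix ι ι ℝ) * star (U : Matrix ι ι ℝ) = 1 := Unitary.coe_mul_star_self U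
  have h2 : 1 + X = (U : Matrix ι ι ℝ) * (diagonal fun i => 1 + hX.eigenvalues i) *
      star (U : Matrix ι ι ℝ) := by
    have : (diagonal fun i => 1 + hX.eigenvalues i) =
        1 + diagonal (RCLike.ofReal ∘ hX.eigenvalues) := by
      rw [← diagonal_one, diagonal_add]; rfl
    rw [this, mul_add, add_mul, mul_one, h1, ← h]
  rw [h2, det_mul, det_mul, mul_comm (det (U : Matrix ι ι ℝ)), mul_assoc, ← det_mul, h1, det_one,
    mul_one, det_diagonal]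

theorem one_le_det_one_add {X : Matrix ι ι ℝ} (hX : X.PosSemidef) : 1 ≤ (1 + X).det := by
  rw [det_one_add_eq hX.1]
  calc (1 : ℝ) = ∏ _i : ι, (1 : ℝ) := by simp
    _ ≤ _ := Finset.prod_le_prod (fun _ _ => zero_le_one)
      fun i _ => by linarith [hX.eigenvalues_nonneg i]

theorem det_amgm {X : Matrix ι ι ℝ} (hX : X.PosSemidef) :
    (256 / 27 : ℝ) ^ Fintype.card ι * X.det ^ 3 ≤ (1 + X).det ^ 4 := by
  rw [det_one_add_eq hX.1, hX.1.det_eq_prod_eigenvalues, ← Finset.prod_pow, ← Finset.prod_pow,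
    ← Finset.card_univ, ← Finset.prod_const, ← Finset.prod_mul_distrib]
  refine Finset.prod_le_prod (fun i _ => ?_) fun i _ => ?_
  · have := hX.eigenvalues_nonneg i
    simp only [RCLike.ofReal_real_eq_id, id]
    positivity
  · have := hX.eigenvalues_nonneg i
    simp only [RCLike.ofReal_real_eq_id, id]
    set y := hX.1.eigenvalues i
    have e : (1 + y) ^ 4 - 256 / 27 * y ^ 3 = (y - 3) ^ 2 * (27 * y ^ 2 + 14 * y + 3) / 27 := by
      ring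
    have : 0 ≤ (y - 3) ^ 2 * (27 * y ^ 2 + 14 * y + 3) / 27 := by positivity
    linarith

theorem exists_normalizer {G : Matrix ι ι ℝ} (hG : G.PosDef) :
    ∃ N : Matrix ι ι ℝ, N * G * Nᴴ = 1 := by
  obtain ⟨B, hB⟩ := CStarAlgebra.nonneg_iff_eq_star_mul_self.mp hG.posSemidef.nonneg
  have hdet : B.det ≠ 0 := by
    intro h0
    have := hG.det_pos
    rw [hB, det_mul, h0, mul_zero] at this
    exact lt_irrefl _ this
  have hu : IsUnit B.det := isUnit_iff_ne_zero.2 hdet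
  refine ⟨(B⁻¹)ᴴ, ?_⟩
  rw [hB, conjTranspose_conjTranspose, star_eq_conjTranspose, ← mul_assoc, ← conjTranspose_mul,
    mul_nonsing_inv _ hu, conjTranspose_one, one_mul, mul_nonsing_inv _ hu]

theorem det_conj (N X : Matrix ι ι ℝ) : (N * X * Nᴴ).det = N.det ^ 2 * X.det := by
  rw [det_mul, det_mul, det_conjTranspose, star_trivial]; ring

theorem det_le_det_add {X Z : Matrix ι ι ℝ} (hX : X.PosDef) (hZ : Z.PosSemidef) :
    X.det ≤ (X + Z).det := by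
  obtain ⟨N, hN⟩ := exists_normalizer hX
  have h1 : N.det ^ 2 * X.det = 1 := by rw [← det_conj, hN, det_one]
  have h2 : N.det ^ 2 * (X + Z).det = (1 + N * Z * Nᴴ).det := by
    rw [← det_conj, mul_add, add_mul, hN]
  have h3 := one_le_det_one_add (hZ.mul_mul_conjTranspose_same N)
  have h4 : 0 < N.det ^ 2 := by
    rcases (sq_nonneg N.det).lt_or_eq with h | h
    · exact h
    · rw [← h, zero_mul] at h1; exact absurd h1 zero_ne_one
  exact le_of_mul_le_mul_left (by rw [h1, h2]; exact h3) h4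

theorem det_submod {Y Z : Matrix ι ι ℝ} (hY : Y.PosSemidef) (hZ : Z.PosSemidef) :
    (1 + (Y + Z)).det ≤ (1 + Y).det * (1 + Z).det := by
  obtain ⟨B, hB⟩ := CStarAlgebra.nonneg_iff_eq_star_mul_self.mp hZ.nonneg
  rw [star_eq_conjTranspose] at hB
  set T := 1 + Y with hT
  have hTd : T.PosDef := PosDef.one.add_posSemidef hY
  have hu : IsUnit T.det := isUnit_iff_ne_zero.2 hTd.det_pos.ne'
  have e1 : 1 + (Y + Z) = T * (1 + (T⁻¹ * Bᴴ) * B) := by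
    rw [mul_add, mul_one, ← mul_assoc, ← mul_assoc, mul_nonsing_inv _ hu, one_mul, hB, hT,
      add_assoc]
  rw [e1, det_mul, det_one_add_mul_comm, hB, det_one_add_mul_comm Bᴴ B]
  refine mul_le_mul_of_nonneg_left ?_ hTd.det_pos.le
  have hinv : (T⁻¹).PosSemidef := hTd.inv.posSemidef
  have hherm : (T⁻¹)ᴴ = T⁻¹ := hinv.1
  have h1 : (1 - T⁻¹).PosSemidef := by
    have h2 : (Y + Yᴴ * Y).PosSemidef := hY.add (posSemidef_conjTranspose_mul_self Y)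
    have h3 := h2.mul_mul_conjTranspose_same T⁻¹
    have hYY : Yᴴ = Y := hY.1
    have e2 : Y + Y * Y = T * (T - 1) := by rw [hT]; noncomm_ring
    rw [hherm, hYY, e2, ← mul_assoc, nonsing_inv_mul _ hu, one_mul, sub_mul,
      mul_nonsing_inv _ hu, one_mul] at h3
    exact h3
  have h4 := h1.mul_mul_conjTranspose_same B
  have h5 : (1 + B * T⁻¹ * Bᴴ).PosDef :=
    PosDef.one.add_posSemidef (hinv.mul_mul_conjTranspose_same B)
  have h6 := det_le_det_add h5 h4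
  have e3 : 1 + B * T⁻¹ * Bᴴ + B * (1 - T⁻¹) * Bᴴ = 1 + B * Bᴴ := by noncomm_ring
  rw [e3] at h6
  rw [← mul_assoc]
  exact h6

theorem det_key0 {X₁ X₂ : Matrix ι ι ℝ} (h₁ : X₁.PosSemidef) (h₂ : X₂.PosSemidef) :
    (3125 / 8192 : ℝ) ^ Fintype.card ι * ((1 / 2 : ℝ) • (X₁ + X₂)).det ^ 3 ≤
      (((3 / 8 : ℝ) • X₁ + (5 / 8 : ℝ) • 1).det * ((3 / 8 : ℝ) • X₂ + (5 / 8 : ℝ) • 1).det) ^ 4 := by
  have hY₁ : ((3 / 5 : ℝ) • X₁).PosSemidef := h₁.smul (by norm_num)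
  have hY₂ : ((3 / 5 : ℝ) • X₂).PosSemidef := h₂.smul (by norm_num)
  have e : ∀ X : Matrix ι ι ℝ, (3 / 8 : ℝ) • X + (5 / 8 : ℝ) • (1 : Matrix ι ι ℝ) =
      (5 / 8 : ℝ) • (1 + (3 / 5 : ℝ) • X) := by
    intro X; rw [smul_add, smul_smul, add_comm]; norm_num
  have e' : (3 / 5 : ℝ) • X₁ + (3 / 5 : ℝ) • X₂ = (6 / 5 : ℝ) • ((1 / 2 : ℝ) • (X₁ + X₂)) := by
    rw [smul_smul, smul_add]; norm_num
  have h3 := det_submod hY₁ hY₂
  have h4 := det_amgm (hY₁.add hY₂)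
  have h5 : 0 ≤ (1 + ((3 / 5 : ℝ) • X₁ + (3 / 5 : ℝ) • X₂)).det :=
    zero_le_one.trans (one_le_det_one_add (hY₁.add hY₂))
  have h6 := pow_le_pow_left₀ h5 h3 4
  rw [e, e, det_smul (1 + (3 / 5 : ℝ) • X₁), det_smul (1 + (3 / 5 : ℝ) • X₂)]
  have e'' : ((3 / 5 : ℝ) • X₁ + (3 / 5 : ℝ) • X₂).det =
      (6 / 5 : ℝ) ^ Fintype.card ι * ((1 / 2 : ℝ) • (X₁ + X₂)).det := by
    rw [e', det_smul]
  rw [e''] at h4
  set m := Fintype.card ι
  set a := (1 + (3 / 5 : ℝ) • X₁).det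
  set b := (1 + (3 / 5 : ℝ) • X₂).det
  set d := ((1 / 2 : ℝ) • (X₁ + X₂)).det
  have h7 := h4.trans h6
  have e1 : ((5 / 8 : ℝ) ^ m * a * ((5 / 8) ^ m * b)) ^ 4 = ((5 / 8 : ℝ) ^ m) ^ 8 * (a * b) ^ 4 := by
    ring
  have e2 : (3125 / 8192 : ℝ) ^ m * d ^ 3 =
      ((5 / 8 : ℝ) ^ m) ^ 8 * ((256 / 27) ^ m * ((6 / 5) ^ m * d) ^ 3) := by
    have : (3125 / 8192 : ℝ) = (5 / 8) ^ 8 * (256 / 27) * (6 / 5) ^ 3 := by norm_num
    rw [this, mul_pow, mul_pow, ← pow_mul, ← pow_mul, mul_comm 8 m, mul_comm 3 m, pow_mul, pow_mul]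
    ring
  rw [e1, e2]
  exact mul_le_mul_of_nonneg_left h7 (by positivity)

theorem det_key1 {G A₁ A₂ : Matrix ι ι ℝ} (hG : G.PosDef) (h₁ : A₁.PosSemidef)
    (h₂ : A₂.PosSemidef) :
    (3125 / 8192 : ℝ) ^ Fintype.card ι * ((1 / 2 : ℝ) • (A₁ + A₂)).det ^ 3 * G.det ^ 5 ≤
      (((3 / 8 : ℝ) • A₁ + (5 / 8 : ℝ) • G).det * ((3 / 8 : ℝ) • A₂ + (5 / 8 : ℝ) • G).det) ^ 4 := by
  obtain ⟨N, hN⟩ := exists_normalizer hG
  have h0 := det_key0 (h₁.mul_mul_conjTranspose_same N) (h₂.mul_mul_conjTranspose_same N)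
  have e1 : ∀ A : Matrix ι ι ℝ, (3 / 8 : ℝ) • (N * A * Nᴴ) + (5 / 8 : ℝ) • (1 : Matrix ι ι ℝ) =
      N * ((3 / 8 : ℝ) • A + (5 / 8 : ℝ) • G) * Nᴴ := by
    intro A
    rw [← hN, mul_add, add_mul, Matrix.mul_smul, Matrix.mul_smul, Matrix.smul_mul, Matrix.smul_mul]
  have e2 : (1 / 2 : ℝ) • (N * A₁ * Nᴴ + N * A₂ * Nᴴ) = N * ((1 / 2 : ℝ) • (A₁ + A₂)) * Nᴴ := by
    rw [Matrix.mul_smul, Matrix.smul_mul, mul_add, add_mul]
  have h1 : N.det ^ 2 * G.det = 1 := by rw [← det_conj, hN, det_one]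
  rw [e1, e1, e2, det_conj, det_conj, det_conj] at h0
  set c := (3125 / 8192 : ℝ) ^ Fintype.card ι
  set a := ((3 / 8 : ℝ) • A₁ + (5 / 8 : ℝ) • G).det
  set b := ((3 / 8 : ℝ) • A₂ + (5 / 8 : ℝ) • G).det
  set d := ((1 / 2 : ℝ) • (A₁ + A₂)).det
  set u := N.det ^ 2
  set g := G.det
  have hg : 0 < g := hG.det_pos
  have h3 := mul_le_mul_of_nonneg_right h0 (by positivity : 0 ≤ g ^ 8)
  have e3 : c * (u * d) ^ 3 * g ^ 8 = c * d ^ 3 * g ^ 5 * (u * g) ^ 3 := by ring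
  have e4 : (u * a * (u * b)) ^ 4 * g ^ 8 = (a * b) ^ 4 * (u * g) ^ 8 := by ring
  rw [e3, e4, h1] at h3
  simpa using h3

theorem det_key2 {P H₁ H₂ : Matrix ι ι ℝ} (hP : P.PosSemidef) (hR : (1 - P).PosSemidef)
    (h₁ : H₁.PosSemidef) (h₂ : H₂.PosSemidef) :
    (3125 / 8192 : ℝ) ^ Fintype.card ι * (((1 / 2 : ℝ) • (H₁ + H₂)).det * P.det) ^ 3 *
        (1 - P).det ^ 5 ≤
      (((3 / 8 : ℝ) • (H₁ * P) + (5 / 8 : ℝ) • (1 - P)).det *
        ((3 / 8 : ℝ) • (H₂ * P) + (5 / 8 : ℝ) • (1 - P)).det) ^ 4 := by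
  rcases hP.det_nonneg.eq_or_lt with h0 | hp
  · rw [← h0]
    simp only [mul_zero, ne_eq, OfNat.ofNat_ne_zero, not_false_eq_true, zero_pow, zero_mul]
    positivity
  rcases hR.det_nonneg.eq_or_lt with h0 | hr
  · rw [← h0]
    simp only [mul_zero, ne_eq, OfNat.ofNat_ne_zero, not_false_eq_true, zero_pow]
    positivity
  have hPP : Pᴴ = P := hP.1
  have hRR : (1 - P)ᴴ = 1 - P := hR.1
  have hG0 : (P * (1 - P)).PosSemidef := by
    have h3 := (hR.mul_mul_conjTranspose_same P).add (hP.mul_mul_conjTranspose_same (1 - P))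
    rw [hPP, hRR] at h3
    have e : P * (1 - P) * P + (1 - P) * P * (1 - P) = P * (1 - P) := by noncomm_ring
    rwa [e] at h3
  have hG : (P * (1 - P)).PosDef :=
    hG0.posDef_iff_det_ne_zero.2 (by rw [det_mul]; positivity)
  have h3 := det_key1 hG (h₁.mul_mul_conjTranspose_same P) (h₂.mul_mul_conjTranspose_same P)
  have e1 : ∀ H : Matrix ι ι ℝ, (3 / 8 : ℝ) • (P * H * Pᴴ) + (5 / 8 : ℝ) • (P * (1 - P)) =
      P * ((3 / 8 : ℝ) • (H * P) + (5 / 8 : ℝ) • (1 - P)) := by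
    intro H
    rw [hPP, mul_add, Matrix.mul_smul, Matrix.mul_smul, mul_assoc]
  have e2 : (1 / 2 : ℝ) • (P * H₁ * Pᴴ + P * H₂ * Pᴴ) = P * ((1 / 2 : ℝ) • (H₁ + H₂)) * Pᴴ := by
    rw [Matrix.mul_smul, Matrix.smul_mul, mul_add, add_mul]
  rw [e1, e1, e2, det_conj, det_mul, det_mul, det_mul] at h3
  set c := (3125 / 8192 : ℝ) ^ Fintype.card ι
  set a := ((3 / 8 : ℝ) • (H₁ * P) + (5 / 8 : ℝ) • (1 - P)).det
  set b := ((3 / 8 : ℝ) • (H₂ * P) + (5 / 8 : ℝ) • (1 - P)).det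
  set d := ((1 / 2 : ℝ) • (H₁ + H₂)).det
  set u := P.det
  set g := (1 - P).det
  have e3 : c * (u ^ 2 * d) ^ 3 * (u * g) ^ 5 = u ^ 8 * (c * (d * u) ^ 3 * g ^ 5) := by ring
  have e4 : (u * a * (u * b)) ^ 4 = u ^ 8 * (a * b) ^ 4 := by ring
  rw [e3, e4] at h3
  exact le_of_mul_le_mul_left h3 (by positivity)

section CLM

variable {E : Type*} [NormedAddCommGroup E] [InnerProductSpace ℝ E] [FiniteDimensional ℝ E]

theorem det_key_clm {S H₁ H₂ : E →L[ℝ] E} (hS : (S : E →ₗ[ℝ] E).IsPositive)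
    (hS' : (1 - (S : E →ₗ[ℝ] E)).IsPositive) (h₁ : (H₁ : E →ₗ[ℝ] E).IsPositive)
    (h₂ : (H₂ : E →ₗ[ℝ] E).IsPositive) :
    (3125 / 8192 : ℝ) ^ Module.finrank ℝ E *
        (|((1 / 2 : ℝ) • (H₁ + H₂)).det| * |(1 - S).det|) ^ 3 * |S.det| ^ 5 ≤
      (|((3 / 8 : ℝ) • (H₁.comp (1 - S)) + (5 / 8 : ℝ) • S).det| *
        |((3 / 8 : ℝ) • (H₂.comp (1 - S)) + (5 / 8 : ℝ) • S).det|) ^ 4 := by
  set b := stdOrthonormalBasis ℝ E
  set M : (E →ₗ[ℝ] E) ≃ₐ[ℝ] Matrix _ _ ℝ := LinearMap.toMatrixAlgEquiv b.toBasis with hM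
  have hpos : ∀ A : E →ₗ[ℝ] E, A.IsPositive → (M A).PosSemidef := fun A hA =>
    (LinearMap.posSemidef_toMatrix_iff b).2 hA
  have hdet : ∀ A : E →L[ℝ] E, A.det = (M (A : E →ₗ[ℝ] E)).det := fun A =>
    (LinearMap.det_toMatrix b.toBasis _).symm
  have hP := hpos _ hS'
  have hR : (1 - M (1 - (S : E →ₗ[ℝ] E))).PosSemidef := by
    rw [map_sub, map_one, sub_sub_cancel]; exact hpos _ hS
  have h := det_key2 hP hR (hpos _ h₁) (hpos _ h₂)
  have e0 : 1 - M (1 - (S : E →ₗ[ℝ] E)) = M S := by rw [map_sub, map_one, sub_sub_cancel]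
  rw [e0, Fintype.card_fin] at h
  have e1 : ((1 / 2 : ℝ) • (H₁ + H₂)).det = ((1 / 2 : ℝ) • (M H₁ + M H₂)).det := by
    rw [hdet, ← map_add, ← map_smul]; rfl
  have e2 : (1 - S).det = (M (1 - (S : E →ₗ[ℝ] E))).det := by rw [hdet]; rfl
  have e3 : ∀ H : E →L[ℝ] E, ((3 / 8 : ℝ) • (H.comp (1 - S)) + (5 / 8 : ℝ) • S).det =
      ((3 / 8 : ℝ) • (M H * M (1 - (S : E →ₗ[ℝ] E))) + (5 / 8 : ℝ) • M S).det := by
    intro H
    rw [hdet, ← map_mul, ← map_smul, ← map_smul, ← map_add]; rfl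
  have n1 : 0 ≤ ((1 / 2 : ℝ) • (M H₁ + M H₂)).det :=
    (((hpos _ h₁).add (hpos _ h₂)).smul (by norm_num : (0 : ℝ) ≤ 1 / 2)).det_nonneg
  rw [e1, e2, e3, e3, hdet S, abs_of_nonneg n1, abs_of_nonneg hP.det_nonneg,
    abs_of_nonneg (hpos _ hS).det_nonneg, ← abs_mul, Even.pow_abs (by norm_num)]
  exact h

end CLM

end Pool.Agent.MP_5f4cdd_gt.T4
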