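import Pool.Agent.MP_5f4cdd_gt.T4OT
import Pool.Agent.MP_5f4cdd_gt.T4Prox
import Pool.Agent.MP_5f4cdd_gt.T4Area
import Pool.Agent.MP_5f4cdd_gt.T4Matrix

set_option autoImplicit false
set_option linter.unusedSectionVars false
open Set Filter Topology MeasureTheory Metric
open scoped RealInnerProductSpace NNReal ENNReal

namespace Pool.Agent.MP_5f4cdd_gt.T4

theorem enn_amgm (a b : ℝ≥0∞) : 4 * (a * b) ≤ (a + b) ^ 2 := by
  rcases eq_or_ne a ⊤ with rfl | ha
  · simp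
  rcases eq_or_ne b ⊤ with rfl | hb
  · simp
  lift a to ℝ≥0 using ha
  lift b to ℝ≥0 using hb
  norm_cast
  rw [← NNReal.coe_le_coe]
  push_cast
  nlinarith [sq_nonneg ((a : ℝ) - b)]

variable {E : Type*} [NormedAddCommGroup E] [InnerProductSpace ℝ E] [FiniteDimensional ℝ E]
  [MeasurableSpace E] [BorelSpace E]

theorem comb_lower {K S : Set E} {u v : E → ℝ} {k s : E → E} (hk : IsProx K u k)
    (hs : IsProx S v s) {U : Set E} (hU : MeasurableSet U)
    (hd : ∀ w ∈ U, DifferentiableAt ℝ s w ∧ DifferentiableAt ℝ k (w - s w)) (F : E → ℝ≥0∞) :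
    ∫⁻ w in U, jac (fun w => (3 / 8 : ℝ) • k (w - s w) + (5 / 8 : ℝ) • s w) w *
      F ((3 / 8 : ℝ) • k (w - s w) + (5 / 8 : ℝ) • s w) ≤ ∫⁻ y, F y := by
  have hdiff : ∀ w ∈ U, DifferentiableAt ℝ
      (fun w => (3 / 8 : ℝ) • k (w - s w) + (5 / 8 : ℝ) • s w) w := fun w hw =>
    (((hd w hw).2.comp w (differentiableAt_id.sub (hd w hw).1)).const_smul (3 / 8 : ℝ)).add
      ((hd w hw).1.const_smul (5 / 8 : ℝ))
  refine area_lower volume hU hdiff (fun w hw w' _ he hne => ?_) F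
  have a1 := hk.firm (w - s w) (w' - s w')
  have a2 := hs.firm w w'
  have a3 : s w - s w' = -((3 / 5 : ℝ) • (k (w - s w) - k (w' - s w'))) := by
    have : (5 / 8 : ℝ) • (s w - s w') = (5 / 8 : ℝ) • -((3 / 5 : ℝ) •
        (k (w - s w) - k (w' - s w'))) := by
      have h := sub_eq_zero.2 he
      rw [← sub_eq_zero, ← h]
      module
    exact smul_right_injective E (by norm_num) this
  have a4 : (w - s w) - (w' - s w') = (w - w') - (s w - s w') := by abel
  have a5 : 0 ≤ ⟪s w - s w', (w - s w) - (w' - s w')⟫ := by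
    rw [a4, inner_sub_right, real_inner_self_eq_norm_sq]; linarith
  rw [a3, inner_neg_left, inner_smul_left] at a5
  simp only [conj_trivial] at a5
  have a6 : ‖k (w - s w) - k (w' - s w')‖ ^ 2 = 0 :=
    le_antisymm (by linarith) (by positivity)
  have a7 : k (w - s w) - k (w' - s w') = 0 := by simpa using a6
  have a8 : s w = s w' := by rw [← sub_eq_zero, a3, a7]; simp
  have a9 : k (w - s w) = k (w' - s w') := sub_eq_zero.1 a7
  refine det_eq_zero_of_segment (d := w' - w) (hdiff w hw) (sub_ne_zero.2 hne.symm)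
    fun t ht ht1 => ?_
  have b1 := hs.fibre a8 ht ht1
  have b2 := hk.fibre a9 ht ht1
  have b3 : w + t • (w' - w) - s w = w - s w + t • (w' - s w' - (w - s w)) := by
    rw [← a8]; module
  simp only [b1, b3, b2]

theorem jac_key {K₁ K₂ S : Set E} {u₁ u₂ v : E → ℝ} {k₁ k₂ s : E → E} (h₁ : IsProx K₁ u₁ k₁)
    (h₂ : IsProx K₂ u₂ k₂) (hs : IsProx S v s) {w : E} (ds : DifferentiableAt ℝ s w)
    (d₁ : DifferentiableAt ℝ k₁ (w - s w)) (d₂ : DifferentiableAt ℝ k₂ (w - s w)) :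
    ENNReal.ofReal ((3125 / 8192 : ℝ) ^ Module.finrank ℝ E) *
      (jac (fun θ => (1 / 2 : ℝ) • (k₁ θ + k₂ θ)) (w - s w) * jac (fun w => w - s w) w) ^ 3 *
        jac s w ^ 5 ≤
      (jac (fun w => (3 / 8 : ℝ) • k₁ (w - s w) + (5 / 8 : ℝ) • s w) w *
        jac (fun w => (3 / 8 : ℝ) • k₂ (w - s w) + (5 / 8 : ℝ) • s w) w) ^ 4 := by
  have hJ : HasFDerivAt (fun w => w - s w) (1 - fderiv ℝ s w) w :=
    (hasFDerivAt_id w).sub ds.hasFDerivAt
  have hz : HasFDerivAt (fun θ => (1 / 2 : ℝ) • (k₁ θ + k₂ θ))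
      ((1 / 2 : ℝ) • (fderiv ℝ k₁ (w - s w) + fderiv ℝ k₂ (w - s w))) (w - s w) :=
    (d₁.hasFDerivAt.add d₂.hasFDerivAt).const_smul (1 / 2 : ℝ)
  have hG : ∀ k : E → E, DifferentiableAt ℝ k (w - s w) →
      HasFDerivAt (fun w => (3 / 8 : ℝ) • k (w - s w) + (5 / 8 : ℝ) • s w)
        ((3 / 8 : ℝ) • ((fderiv ℝ k (w - s w)).comp (1 - fderiv ℝ s w)) +
          (5 / 8 : ℝ) • fderiv ℝ s w) w := fun k d =>
    ((d.hasFDerivAt.comp w hJ).const_smul (3 / 8 : ℝ)).add (ds.hasFDerivAt.const_smul (5 / 8 : ℝ))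
  have key := det_key_clm (hs.isPositive ds.hasFDerivAt) (hs.isPositive_co ds.hasFDerivAt)
    (h₁.isPositive d₁.hasFDerivAt) (h₂.isPositive d₂.hasFDerivAt)
  unfold jac
  rw [hJ.fderiv, hz.fderiv, (hG k₁ d₁).fderiv, (hG k₂ d₂).fderiv,
    ← ENNReal.ofReal_mul (abs_nonneg _), ← ENNReal.ofReal_mul (abs_nonneg _),
    ← ENNReal.ofReal_pow (by positivity), ← ENNReal.ofReal_pow (by positivity),
    ← ENNReal.ofReal_pow (by positivity), ← ENNReal.ofReal_mul (by positivity),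
    ← ENNReal.ofReal_mul (by positivity)]
  exact ENNReal.ofReal_le_ofReal key

theorem coupling {S : Set E} (hS : IsCompact S) (hSc : Convex ℝ S) (hne : S.Nonempty)
    {d g : E → ℝ≥0∞} (hd : Measurable d) (hg : Measurable g) {ρ : ℝ≥0}
    (hd0 : ∀ θ ∉ closedBall (0 : E) ρ, d θ = 0) (hg0 : ∀ x ∉ S, g x = 0)
    (hd1 : ∫⁻ θ, d θ = 1) (hg1 : ∫⁻ x, g x = 1) {D : Set E} (hD : MeasurableSet D)
    (hD0 : volume Dᶜ = 0) :
    ∃ (v : E → ℝ) (s : E → E), IsProx S v s ∧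
      1 ≤ ∫⁻ w in {w | DifferentiableAt ℝ s w} ∩ (fun w => w - s w) ⁻¹' D,
        min (jac (fun w => w - s w) w * d (w - s w)) (jac s w * g (s w)) := by
  set π : Measure E := volume.withDensity d with hπ
  set μ : Measure E := volume.withDensity g with hμ
  have : IsProbabilityMeasure π := ⟨by rw [hπ, withDensity_apply', Measure.restrict_univ, hd1]⟩
  have : IsProbabilityMeasure μ := ⟨by rw [hμ, withDensity_apply', Measure.restrict_univ, hg1]⟩
  have hac : π ≪ volume := withDensity_absolutelyContinuous _ _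
  have hπ0 : π (closedBall 0 ρ)ᶜ = 0 := by
    rw [hπ, withDensity_apply',
      setLIntegral_congr_fun measurableSet_closedBall.compl (g := fun _ => 0) hd0]
    simp
  have hμ0 : μ Sᶜ = 0 := by
    rw [hμ, withDensity_apply',
      setLIntegral_congr_fun hS.measurableSet.compl (g := fun _ => 0) hg0]
    simp
  obtain ⟨v, hvc, hv, T, hT, hmap, hae⟩ := exists_brenier hS hne hμ0 hπ0 hac
  obtain ⟨s, hs⟩ := exists_isProx hS hne (hvc.subset (subset_univ S) hSc) hv.continuousOn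
  refine ⟨v, s, hs, ?_⟩
  set J : E → E := fun w => w - s w with hJ
  have hJc : Continuous J := hs.lipschitz_co.continuous
  have h1 : ∀ᵐ θ ∂π, s (θ + T θ) = T θ ∧ J (θ + T θ) = θ := by
    filter_upwards [hae] with θ hθ
    have : s (θ + T θ) = T θ := hs.eq_of hθ.1 fun x hx => by
      rw [add_sub_cancel_right]; exact hθ.2 x hx
    exact ⟨this, by simp [hJ, this]⟩
  set U₀ : Set E := {w | DifferentiableAt ℝ s w} ∩ J ⁻¹' D with hU₀
  have hU₀m : MeasurableSet U₀ :=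
    (measurableSet_of_differentiableAt ℝ s).inter (hJc.measurable hD)
  have h2 : ∀ᵐ θ ∂π, θ + T θ ∈ U₀ := by
    have n1 : volume (J '' {w | DifferentiableAt ℝ s w}ᶜ) = 0 :=
      lip_image_null volume hs.lipschitz_co hs.lipschitz.ae_differentiableAt
    have n2 : ∀ᵐ θ ∂π, θ ∉ J '' {w | DifferentiableAt ℝ s w}ᶜ :=
      measure_eq_zero_iff_ae_notMem.1 (hac n1)
    have n3 : ∀ᵐ θ ∂π, θ ∈ D := hac hD0
    filter_upwards [h1, n2, n3] with θ a1 a2 a3
    refine ⟨?_, ?_⟩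
    · by_contra hc
      exact a2 ⟨_, hc, a1.2⟩
    · rw [mem_preimage, a1.2]; exact a3
  set p : E → ℝ≥0∞ := fun w => jac J w * d (J w) with hp
  set q : E → ℝ≥0∞ := fun w => jac s w * g (s w) with hq
  have hpm : Measurable p := (measurable_jac J).mul (hd.comp hJc.measurable)
  have hqm : Measurable q := (measurable_jac s).mul (hg.comp hs.continuous.measurable)
  have hP : ∀ U : Set E, MeasurableSet U → U ⊆ U₀ → π {θ | θ + T θ ∈ U} ≤ ∫⁻ w in U, p w := by
    intro U hU hUU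
    calc π {θ | θ + T θ ∈ U} ≤ π (J '' U) := by
          refine measure_mono_ae ?_
          filter_upwards [h1] with θ a1 a2
          exact ⟨_, a2, a1.2⟩
      _ = ∫⁻ θ in J '' U, d θ := withDensity_apply' _ _
      _ ≤ _ := area_upper volume hJc.measurable hU
          (fun w hw => differentiableAt_id.sub (hUU hw).1) hd
  have hQ : ∀ U : Set E, MeasurableSet U → U ⊆ U₀ → π {θ | θ + T θ ∈ U} ≤ ∫⁻ w in U, q w := by
    intro U hU hUU
    calc π {θ | θ + T θ ∈ U} ≤ π (T ⁻¹' (s '' U)) := by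
          refine measure_mono_ae ?_
          filter_upwards [h1] with θ a1 a2
          exact ⟨_, a2, a1.1⟩
      _ ≤ π.map T (s '' U) := Measure.le_map_apply hT.aemeasurable _
      _ = ∫⁻ θ in s '' U, g θ := by rw [hmap]; exact withDensity_apply' _ _
      _ ≤ _ := area_upper volume hs.continuous.measurable hU (fun w hw => (hUU hw).1) hg
  have hA : MeasurableSet {w | p w ≤ q w} := measurableSet_le hpm hqm
  calc (1 : ℝ≥0∞) = π univ := measure_univ.symm
    _ ≤ π ({θ | θ + T θ ∈ U₀ ∩ {w | p w ≤ q w}} ∪ {θ | θ + T θ ∈ U₀ \ {w | p w ≤ q w}}) := by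
        refine measure_mono_ae ?_
        filter_upwards [h2] with θ a1 _
        by_cases hc : θ + T θ ∈ {w | p w ≤ q w}
        · exact Or.inl ⟨a1, hc⟩
        · exact Or.inr ⟨a1, hc⟩
    _ ≤ π {θ | θ + T θ ∈ U₀ ∩ {w | p w ≤ q w}} + π {θ | θ + T θ ∈ U₀ \ {w | p w ≤ q w}} :=
        measure_union_le _ _
    _ ≤ (∫⁻ w in U₀ ∩ {w | p w ≤ q w}, p w) + ∫⁻ w in U₀ \ {w | p w ≤ q w}, q w :=
        add_le_add (hP _ (hU₀m.inter hA) inter_subset_left) (hQ _ (hU₀m.diff hA) sdiff_subset)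
    _ = (∫⁻ w in U₀ ∩ {w | p w ≤ q w}, min (p w) (q w)) +
          ∫⁻ w in U₀ \ {w | p w ≤ q w}, min (p w) (q w) := by
        congr 1
        · exact setLIntegral_congr_fun (hU₀m.inter hA) fun w hw => (min_eq_left hw.2).symm
        · exact setLIntegral_congr_fun (hU₀m.diff hA) fun w hw =>
            (min_eq_right (le_of_not_ge hw.2)).symm
    _ = ∫⁻ w in U₀, min (p w) (q w) := lintegral_inter_add_sdiff _ _ hA

theorem key_core {K₁ K₂ S : Set E} {u₁ u₂ : E → ℝ} {k₁ k₂ : E → E} (h₁ : IsProx K₁ u₁ k₁)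
    (h₂ : IsProx K₂ u₂ k₂) (hS : IsCompact S) (hSc : Convex ℝ S) (hne : S.Nonempty)
    {ω g F₁ F₂ : E → ℝ≥0∞} (hω : Measurable ω) (hg : Measurable g) (hF₁ : Measurable F₁)
    {M : ℝ≥0∞} (hM : M ≠ ⊤) (hωM : ∀ θ, ω θ ≤ M) (hY : ∫⁻ x in S, g x ≠ ⊤)
    (hF : ∀ θ, ∀ x ∈ S, ω θ ^ 3 * g x ^ 5 ≤
      (F₁ ((3 / 8 : ℝ) • k₁ θ + (5 / 8 : ℝ) • x) * F₂ ((3 / 8 : ℝ) • k₂ θ + (5 / 8 : ℝ) • x)) ^ 4)
    (ρ : ℝ≥0) :
    2 ^ 8 * (ENNReal.ofReal ((3125 / 8192 : ℝ) ^ Module.finrank ℝ E) *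
      (∫⁻ θ in closedBall 0 ρ, jac (fun θ => (1 / 2 : ℝ) • (k₁ θ + k₂ θ)) θ * ω θ) ^ 3 *
      (∫⁻ x in S, g x) ^ 5) ≤ ((∫⁻ y, F₁ y) + ∫⁻ y, F₂ y) ^ 8 := by
  set z : E → E := fun θ => (1 / 2 : ℝ) • (k₁ θ + k₂ θ) with hz
  set Z := ∫⁻ θ in closedBall 0 ρ, jac z θ * ω θ with hZ
  set Y := ∫⁻ x in S, g x with hYd
  set C := ENNReal.ofReal ((3125 / 8192 : ℝ) ^ Module.finrank ℝ E) with hC
  rcases eq_or_ne Z 0 with hZ0 | hZ0
  · simp [hZ0]
  rcases eq_or_ne Y 0 with hY0 | hY0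
  · simp [hY0]
  have hZt : Z ≠ ⊤ := by
    obtain ⟨B, hB⟩ := exists_det_bound (E := E) (‖(1 / 2 : ℝ)‖₊ * (1 + 1) : ℝ≥0)
    have hzl : LipschitzWith (‖(1 / 2 : ℝ)‖₊ * (1 + 1)) z :=
      (lipschitzWith_smul (1 / 2 : ℝ)).comp (h₁.lipschitz.add h₂.lipschitz)
    have : Z ≤ ∫⁻ _ in closedBall (0 : E) ρ, ENNReal.ofReal B * M :=
      lintegral_mono fun θ => mul_le_mul'
        (ENNReal.ofReal_le_ofReal (hB _ (norm_fderiv_le_of_lipschitz ℝ hzl))) (hωM θ)
    refine ne_top_of_le_ne_top ?_ this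
    rw [setLIntegral_const]
    exact ENNReal.mul_ne_top (ENNReal.mul_ne_top ENNReal.ofReal_ne_top hM)
      measure_closedBall_lt_top.ne
  set d : E → ℝ≥0∞ := fun θ => Z⁻¹ * (closedBall 0 ρ).indicator (fun θ => jac z θ * ω θ) θ with hd
  set g' : E → ℝ≥0∞ := fun x => Y⁻¹ * S.indicator g x with hg'
  have hdm0 : Measurable ((closedBall (0 : E) ρ).indicator fun θ => jac z θ * ω θ) :=
    ((measurable_jac z).mul hω).indicator measurableSet_closedBall
  have hgm0 : Measurable (S.indicator g) := hg.indicator hS.measurableSet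
  obtain ⟨v, s, hs, hone⟩ := coupling hS hSc hne (d := d) (g := g') (hdm0.const_mul _)
    (hgm0.const_mul _) (ρ := ρ) (fun θ hθ => by simp [hd, indicator_of_notMem hθ])
    (fun x hx => by simp [hg', indicator_of_notMem hx])
    (by rw [hd, lintegral_const_mul _ hdm0, lintegral_indicator measurableSet_closedBall,
      ENNReal.inv_mul_cancel hZ0 hZt])
    (by rw [hg', lintegral_const_mul _ hgm0, lintegral_indicator hS.measurableSet,
      ENNReal.inv_mul_cancel hY0 hY])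
    (D := {θ | DifferentiableAt ℝ k₁ θ} ∩ {θ | DifferentiableAt ℝ k₂ θ})
    ((measurableSet_of_differentiableAt ℝ k₁).inter (measurableSet_of_differentiableAt ℝ k₂))
    (by
      rw [compl_inter]
      exact measure_union_null h₁.lipschitz.ae_differentiableAt h₂.lipschitz.ae_differentiableAt)
  set U := {w | DifferentiableAt ℝ s w} ∩ (fun w => w - s w) ⁻¹'
    ({θ | DifferentiableAt ℝ k₁ θ} ∩ {θ | DifferentiableAt ℝ k₂ θ}) with hU
  have hJc : Continuous fun w => w - s w := hs.lipschitz_co.continuous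
  have hUm : MeasurableSet U := (measurableSet_of_differentiableAt ℝ s).inter (hJc.measurable
    ((measurableSet_of_differentiableAt ℝ k₁).inter (measurableSet_of_differentiableAt ℝ k₂)))
  set κ : ℝ≥0∞ := (2 ^ 8 * (C * Z ^ 3 * Y ^ 5)) ^ ((8 : ℕ) : ℝ)⁻¹ with hκ
  have hκ8 : κ ^ 8 = 2 ^ 8 * (C * Z ^ 3 * Y ^ 5) := ENNReal.rpow_inv_natCast_pow (by norm_num) _
  have hκt : κ ≠ ⊤ := by
    intro h
    rw [h] at hκ8
    have : 2 ^ 8 * (C * Z ^ 3 * Y ^ 5) ≠ ⊤ := by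
      have : C ≠ ⊤ := ENNReal.ofReal_ne_top
      finiteness
    exact this (by rw [← hκ8]; simp)
  rw [← hκ8]
  refine pow_le_pow_left' ?_ 8
  set G₁ : E → E := fun w => (3 / 8 : ℝ) • k₁ (w - s w) + (5 / 8 : ℝ) • s w with hG₁
  set G₂ : E → E := fun w => (3 / 8 : ℝ) • k₂ (w - s w) + (5 / 8 : ℝ) • s w with hG₂
  have hG₁c : Continuous G₁ :=
    ((h₁.continuous.comp hJc).const_smul (3 / 8 : ℝ)).add (hs.continuous.const_smul (5 / 8 : ℝ))
  have l₁ := comb_lower h₁ hs hUm (fun w hw => ⟨hw.1, hw.2.1⟩) F₁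
  have l₂ := comb_lower h₂ hs hUm (fun w hw => ⟨hw.1, hw.2.2⟩) F₂
  calc κ = κ * 1 := (mul_one κ).symm
    _ ≤ κ * ∫⁻ w in U, min (jac (fun w => w - s w) w * d (w - s w)) (jac s w * g' (s w)) := by
        gcongr
    _ = ∫⁻ w in U, κ * min (jac (fun w => w - s w) w * d (w - s w)) (jac s w * g' (s w)) :=
        (lintegral_const_mul' _ _ hκt).symm
    _ ≤ ∫⁻ w in U, (jac G₁ w * F₁ (G₁ w) + jac G₂ w * F₂ (G₂ w)) := by
        refine setLIntegral_mono' hUm fun w hw => ?_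
        refine (ENNReal.pow_le_pow_left_iff (by norm_num : (8 : ℕ) ≠ 0)).1 ?_
        set m := min (jac (fun w => w - s w) w * d (w - s w)) (jac s w * g' (s w)) with hm
        have m1 : Z * m ≤ jac z (w - s w) * jac (fun w => w - s w) w * ω (w - s w) := by
          calc Z * m ≤ Z * (jac (fun w => w - s w) w * (Z⁻¹ * (jac z (w - s w) * ω (w - s w)))) := by
                gcongr
                refine (min_le_left _ _).trans ?_
                simp only [hd]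
                gcongr
                exact indicator_le_self _ _ _
            _ = (Z * Z⁻¹) * (jac z (w - s w) * jac (fun w => w - s w) w * ω (w - s w)) := by ring
            _ = _ := by rw [ENNReal.mul_inv_cancel hZ0 hZt, one_mul]
        have m2 : Y * m ≤ jac s w * g (s w) := by
          calc Y * m ≤ Y * (jac s w * (Y⁻¹ * g (s w))) := by
                gcongr
                refine (min_le_right _ _).trans ?_
                simp only [hg']
                gcongr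
                exact indicator_le_self _ _ _
            _ = (Y * Y⁻¹) * (jac s w * g (s w)) := by ring
            _ = _ := by rw [ENNReal.mul_inv_cancel hY0 hY, one_mul]
        have m3 := jac_key h₁ h₂ hs hw.1 hw.2.1 hw.2.2
        have m4 := hF (w - s w) (s w) (hs.mem w)
        calc (κ * m) ^ 8 = 2 ^ 8 * (C * (Z * m) ^ 3 * (Y * m) ^ 5) := by rw [mul_pow, hκ8]; ring
          _ ≤ 2 ^ 8 * (C * (jac z (w - s w) * jac (fun w => w - s w) w * ω (w - s w)) ^ 3 *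
              (jac s w * g (s w)) ^ 5) := by gcongr
          _ = 2 ^ 8 * ((C * (jac z (w - s w) * jac (fun w => w - s w) w) ^ 3 * jac s w ^ 5) *
              (ω (w - s w) ^ 3 * g (s w) ^ 5)) := by ring
          _ ≤ 2 ^ 8 * ((jac G₁ w * jac G₂ w) ^ 4 * (F₁ (G₁ w) * F₂ (G₂ w)) ^ 4) := by gcongr
          _ = (4 * ((jac G₁ w * F₁ (G₁ w)) * (jac G₂ w * F₂ (G₂ w)))) ^ 4 := by ring
          _ ≤ ((jac G₁ w * F₁ (G₁ w) + jac G₂ w * F₂ (G₂ w)) ^ 2) ^ 4 :=
              pow_le_pow_left' (enn_amgm _ _) 4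
          _ = _ := by ring
    _ = (∫⁻ w in U, jac G₁ w * F₁ (G₁ w)) + ∫⁻ w in U, jac G₂ w * F₂ (G₂ w) :=
        lintegral_add_left ((measurable_jac G₁).mul (hF₁.comp hG₁c.measurable)) _
    _ ≤ _ := add_le_add l₁ l₂

end Pool.Agent.MP_5f4cdd_gt.T4
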