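import Mathlib

set_option autoImplicit false
set_option linter.unusedSectionVars false
open Set Filter Topology MeasureTheory Metric
open scoped RealInnerProductSpace NNReal ENNReal BoundedContinuousFunction

namespace Pool.Agent.MP_5f4cdd_gt.T4

variable {E : Type*} [NormedAddCommGroup E] [InnerProductSpace ℝ E]

/-- Legendre transform over a set. -/
noncomputable def lconj (K : Set E) (ψ : E → ℝ) (θ : E) : ℝ :=
  sSup ((fun x => ⟪x, θ⟫ - ψ x) '' K)

section conj

variable {K : Set E} {ψ : E → ℝ}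

theorem lconj_attained (hK : IsCompact K) (hne : K.Nonempty) (hψ : Continuous ψ) (θ : E) :
    ∃ x ∈ K, lconj K ψ θ = ⟪x, θ⟫ - ψ x := by
  obtain ⟨x, hx, h⟩ := hK.exists_sSup_image_eq hne
    (f := fun x => ⟪x, θ⟫ - ψ x) (Continuous.continuousOn (by fun_prop))
  exact ⟨x, hx, h⟩

theorem le_lconj (hK : IsCompact K) (hψ : Continuous ψ) (θ : E) {x : E} (hx : x ∈ K) :
    ⟪x, θ⟫ - ψ x ≤ lconj K ψ θ :=
  le_csSup (hK.bddAbove_image (Continuous.continuousOn (by fun_prop))) (mem_image_of_mem _ hx)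

theorem lconj_le (hne : K.Nonempty) {θ : E} {c : ℝ} (h : ∀ x ∈ K, ⟪x, θ⟫ - ψ x ≤ c) :
    lconj K ψ θ ≤ c :=
  csSup_le (hne.image _) (by rintro _ ⟨x, hx, rfl⟩; exact h x hx)

theorem lconj_lipschitz (hK : IsCompact K) (hne : K.Nonempty) (hψ : Continuous ψ) {R : ℝ≥0}
    (hR : ∀ x ∈ K, ‖x‖ ≤ R) : LipschitzWith R (lconj K ψ) := by
  refine LipschitzWith.of_le_add_mul R fun θ θ' => lconj_le hne fun x hx => ?_
  have h1 := le_lconj hK hψ θ' hx
  have h2 := real_inner_le_norm x (θ - θ')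
  have h3 : ‖x‖ * ‖θ - θ'‖ ≤ R * ‖θ - θ'‖ := mul_le_mul_of_nonneg_right (hR x hx) (norm_nonneg _)
  rw [inner_sub_right] at h2
  rw [dist_eq_norm]
  linarith

theorem lconj_continuous (hK : IsCompact K) (hne : K.Nonempty) (hψ : Continuous ψ) :
    Continuous (lconj K ψ) := by
  obtain ⟨R, hR⟩ := hK.isBounded.exists_norm_le
  exact (lconj_lipschitz hK hne hψ (R := R.toNNReal)
    fun x hx => (hR x hx).trans (Real.le_coe_toNNReal R)).continuous

theorem lconj_convex (hK : IsCompact K) (hne : K.Nonempty) (hψ : Continuous ψ) :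
    ConvexOn ℝ univ (lconj K ψ) := by
  refine ⟨convex_univ, fun θ _ θ' _ a b ha hb hab => lconj_le hne fun x hx => ?_⟩
  have h1 := mul_le_mul_of_nonneg_left (le_lconj hK hψ θ hx) ha
  have h2 := mul_le_mul_of_nonneg_left (le_lconj hK hψ θ' hx) hb
  rw [inner_add_right, inner_smul_right, inner_smul_right, smul_eq_mul, smul_eq_mul]
  have : ψ x = a * ψ x + b * ψ x := by rw [← add_mul, hab, one_mul]
  linarith

theorem lconj_mono (hK : IsCompact K) (hne : K.Nonempty) {ψ' : E → ℝ} (hψ' : Continuous ψ')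
    {ε : ℝ} (h : ∀ x ∈ K, ψ' x ≤ ψ x + ε) (θ : E) : lconj K ψ θ ≤ lconj K ψ' θ + ε :=
  lconj_le hne fun x hx => by linarith [le_lconj hK hψ' θ hx, h x hx]

theorem lconj_envelope (hK : IsCompact K) (hne : K.Nonempty) (hψ : Continuous ψ) {θ q : E}
    (hq : q ∈ K) (hq' : lconj K ψ θ = ⟪q, θ⟫ - ψ q)
    (huniq : ∀ x ∈ K, lconj K ψ θ = ⟪x, θ⟫ - ψ x → x = q) (η : E →ᵇ ℝ) :
    Tendsto (fun t : ℝ => (lconj K (fun x => ψ x + t * η x) θ - lconj K ψ θ) / t) (𝓝[>] 0)
      (𝓝 (-η q)) := by
  rw [Metric.tendsto_nhds]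
  intro ε hε
  have hgap : ∃ γ > 0, ∀ x ∈ K, η x ≤ η q - ε / 2 → ⟪x, θ⟫ - ψ x ≤ lconj K ψ θ - γ := by
    set N := K ∩ {x | η x ≤ η q - ε / 2} with hN
    have hNc : IsCompact N := hK.inter_right (isClosed_le η.continuous continuous_const)
    rcases N.eq_empty_or_nonempty with h0 | h0
    · refine ⟨1, one_pos, fun x hx hx' => ?_⟩
      have : x ∈ N := ⟨hx, hx'⟩
      rw [h0] at this
      exact this.elim
    · obtain ⟨y, hy, hy'⟩ := hNc.exists_isMaxOn h0
        (f := fun x => ⟪x, θ⟫ - ψ x) (Continuous.continuousOn (by fun_prop))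
      have h1 := le_lconj hK hψ θ hy.1
      have h2 : lconj K ψ θ ≠ ⟪y, θ⟫ - ψ y := by
        intro h
        have h3 := huniq y hy.1 h
        have h4 : η y ≤ η q - ε / 2 := hy.2
        rw [h3] at h4
        linarith
      refine ⟨lconj K ψ θ - (⟪y, θ⟫ - ψ y), sub_pos.2 (lt_of_le_of_ne h1 h2.symm),
        fun x hx hx' => ?_⟩
      have := hy' (a := x) ⟨hx, hx'⟩
      simp only [mem_ofPred_eq] at this
      linarith
  obtain ⟨γ, hγ, hgap⟩ := hgap
  have hM : 0 ≤ ‖η‖ := norm_nonneg _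
  filter_upwards [Ioo_mem_nhdsGT (by positivity : 0 < γ / (2 * ‖η‖ + 1))] with t ht
  have ht0 := ht.1
  have ht1 : t * (2 * ‖η‖ + 1) < γ := by
    have := ht.2
    rwa [lt_div_iff₀ (by positivity)] at this
  have hc : Continuous fun x => ψ x + t * η x := by fun_prop
  have lo := le_lconj hK hc θ hq
  have bq := abs_le.1 (η.norm_coe_le_norm q)
  have hi : lconj K (fun x => ψ x + t * η x) θ ≤ lconj K ψ θ + t * (-η q + ε / 2) := by
    refine lconj_le hne fun x hx => ?_
    have bx := abs_le.1 (η.norm_coe_le_norm x)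
    by_cases hx' : η x ≤ η q - ε / 2
    · have := hgap x hx hx'
      nlinarith [mul_le_mul_of_nonneg_left bx.1 ht0.le, mul_le_mul_of_nonneg_left bq.2 ht0.le]
    · push Not at hx'
      have := le_lconj hK hψ θ hx
      nlinarith [mul_le_mul_of_nonneg_left hx'.le ht0.le]
  rw [Real.dist_eq, abs_lt]
  constructor
  · have : -η q ≤ (lconj K (fun x => ψ x + t * η x) θ - lconj K ψ θ) / t := by
      rw [le_div_iff₀ ht0]; linarith
    linarith
  · have : (lconj K (fun x => ψ x + t * η x) θ - lconj K ψ θ) / t ≤ -η q + ε / 2 := by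
      rw [div_le_iff₀ ht0]; linarith
    linarith

end conj

variable [FiniteDimensional ℝ E] [MeasurableSpace E] [BorelSpace E]

theorem integrable_of_compact {ν : Measure E} [IsFiniteMeasure ν] {K : Set E} (hK : IsCompact K)
    (h0 : ν Kᶜ = 0) {f : E → ℝ} (hf : Continuous f) : Integrable f ν := by
  have := hf.continuousOn.integrableOn_compact (μ := ν) hK
  rwa [IntegrableOn, Measure.restrict_eq_self_of_ae_mem (s := K) h0] at this

theorem integral_le_add {ν : Measure E} [IsProbabilityMeasure ν] {K : Set E} (hK : IsCompact K)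
    (h0 : ν Kᶜ = 0) {f g : E → ℝ} (hf : Continuous f) (hg : Continuous g) {c : ℝ}
    (h : ∀ x ∈ K, f x ≤ g x + c) : ∫ x, f x ∂ν ≤ ∫ x, g x ∂ν + c := by
  have h1 : ∫ x, g x ∂ν + c = ∫ x, (g x + c) ∂ν := by
    rw [integral_add (integrable_of_compact hK h0 hg) (integrable_const c)]; simp
  rw [h1]
  refine integral_mono_ae (integrable_of_compact hK h0 hf)
    (integrable_of_compact hK h0 (by fun_prop)) ?_
  have : ∀ᵐ x ∂ν, x ∈ K := h0
  filter_upwards [this] with x hx using h x hx

theorem exists_dual_min {π μ : Measure E} [IsProbabilityMeasure π] [IsProbabilityMeasure μ]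
    {S : Set E} (hS : IsCompact S) (hne : S.Nonempty) (hμ : μ Sᶜ = 0) {ρ : ℝ≥0}
    (hπ : π (closedBall 0 ρ)ᶜ = 0) :
    ∃ v : E → ℝ, ConvexOn ℝ univ v ∧ Continuous v ∧ ∀ ψ : E → ℝ, Continuous ψ →
      ∫ θ, lconj S v θ ∂π + ∫ x, v x ∂μ ≤ ∫ θ, lconj S ψ θ ∂π + ∫ x, ψ x ∂μ := by
  set B := closedBall (0 : E) ρ with hB
  have hBc : IsCompact B := isCompact_closedBall _ _
  have hBne : B.Nonempty := ⟨0, mem_closedBall_self ρ.2⟩
  set Φ : (E → ℝ) → ℝ := fun ψ => ∫ θ, lconj S ψ θ ∂π + ∫ x, ψ x ∂μ with hΦ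
  set V : Set (E → ℝ) := {v | LipschitzWith ρ v} ∩ {v | v 0 = 0} with hV
  have hVc : IsCompact V := by
    refine (isCompact_univ_pi (s := fun x : E => Icc (-(ρ * ‖x‖)) (ρ * ‖x‖))
      fun x => isCompact_Icc).of_isClosed_subset ?_ ?_
    · exact (isClosed_setOfPred_lipschitzWith ρ).inter
        (isClosed_eq (continuous_apply 0) continuous_const)
    · rintro v ⟨h1, h2⟩ x -
      have := h1.dist_le_mul x 0
      rw [show v 0 = 0 from h2, Real.dist_eq, sub_zero, dist_zero_right] at this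
      exact abs_le.1 this
  have hclose : ∀ v v' : E → ℝ, Continuous v → Continuous v' → ∀ ε : ℝ,
      (∀ x ∈ S, |v x - v' x| ≤ ε) → Φ v ≤ Φ v' + 2 * ε := by
    intro v v' hv hv' ε h
    have a1 := integral_le_add hBc hπ (lconj_continuous hS hne hv) (lconj_continuous hS hne hv')
      (c := ε) fun θ _ => lconj_mono hS hne hv' (fun x hx => by linarith [abs_le.1 (h x hx)]) θ
    have a2 := integral_le_add hS hμ hv hv' (c := ε) fun x hx => by linarith [abs_le.1 (h x hx)]
    simp only [hΦ]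
    linarith
  have hΦc : ContinuousOn Φ V := by
    intro v₀ hv₀
    rw [ContinuousWithinAt, Metric.tendsto_nhds]
    intro ε hε
    set δ := ε / (3 * (1 + 2 * ρ)) with hδ
    have hδ0 : 0 < δ := by positivity
    obtain ⟨t, ht, hcov⟩ := Metric.totallyBounded_iff.1 hS.totallyBounded δ hδ0
    have hev : ∀ᶠ v in 𝓝 v₀, ∀ y ∈ t, dist (v y) (v₀ y) < δ :=
      (ht.eventually_all).2 fun y _ =>
        Metric.tendsto_nhds.1 ((continuous_apply y).tendsto v₀) δ hδ0
    filter_upwards [nhdsWithin_le_nhds hev, self_mem_nhdsWithin] with v hv hvV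
    have hb : ∀ x ∈ S, |v x - v₀ x| ≤ ε / 3 := by
      intro x hx
      obtain ⟨y, hy, hxy⟩ := mem_iUnion₂.1 (hcov hx)
      rw [mem_ball] at hxy
      have b1 := hvV.1.dist_le_mul x y
      have b2 := hv₀.1.dist_le_mul x y
      have b3 := hv y hy
      have b4 : (ρ : ℝ) * dist x y ≤ ρ * δ := mul_le_mul_of_nonneg_left hxy.le ρ.2
      have b5 : δ * (1 + 2 * ρ) = ε / 3 := by rw [hδ]; field_simp
      rw [Real.dist_eq] at b1 b2 b3
      rw [abs_le] at b1 b2 ⊢
      rw [abs_lt] at b3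
      constructor <;> nlinarith
    have c1 := hclose v v₀ hvV.1.continuous hv₀.1.continuous _ hb
    have c2 := hclose v₀ v hv₀.1.continuous hvV.1.continuous _
      fun x hx => by rw [abs_sub_comm]; exact hb x hx
    rw [Real.dist_eq, abs_lt]
    constructor <;> linarith
  have hhat : ∀ ψ : E → ℝ, Continuous ψ → ∀ c : ℝ,
      Φ (fun x => lconj B (lconj S ψ) x - c) ≤ Φ ψ := by
    intro ψ hψ c
    have h1 := lconj_continuous hS hne hψ
    have h2 := lconj_continuous hBc hBne h1
    have h3 : Continuous fun x => lconj B (lconj S ψ) x - c := h2.sub continuous_const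
    have a1 := integral_le_add hBc hπ (lconj_continuous hS hne h3) h1 (c := c) fun θ hθ =>
      lconj_le hne fun x _ => by
        have := le_lconj hBc h1 x hθ
        rw [real_inner_comm] at this
        linarith
    have a2 := integral_le_add hS hμ h3 hψ (c := -c) fun x hx => by
      have : lconj B (lconj S ψ) x ≤ ψ x := lconj_le hBne fun θ _ => by
        have := le_lconj hS hψ θ hx
        rw [real_inner_comm] at this
        linarith
      linarith
    simp only [hΦ]
    linarith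
  have hmem : ∀ ψ : E → ℝ, Continuous ψ →
      (fun x => lconj B (lconj S ψ) x - lconj B (lconj S ψ) 0) ∈ V := by
    intro ψ hψ
    have h1 := lconj_lipschitz hBc hBne (lconj_continuous hS hne hψ) (R := ρ)
      fun x hx => by simpa [hB] using hx
    refine ⟨LipschitzWith.of_dist_le_mul fun x y => ?_, sub_self _⟩
    rw [dist_sub_right]
    exact h1.dist_le_mul x y
  obtain ⟨v₀, hv₀, hmin⟩ := hVc.exists_isMinOn ⟨_, hmem 0 continuous_const⟩ hΦc
  have hc₀ := hv₀.1.continuous
  refine ⟨lconj B (lconj S v₀), lconj_convex hBc hBne (lconj_continuous hS hne hc₀),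
    lconj_continuous hBc hBne (lconj_continuous hS hne hc₀), fun ψ hψ => ?_⟩
  have a1 := hhat v₀ hc₀ 0
  have a2 : Φ v₀ ≤ _ := hmin (hmem ψ hψ)
  have a3 := hhat ψ hψ (lconj B (lconj S ψ) 0)
  simp only [sub_zero] at a1
  exact a1.trans (a2.trans a3)

theorem exists_brenier {π μ : Measure E} [IsProbabilityMeasure π] [IsProbabilityMeasure μ]
    {S : Set E} (hS : IsCompact S) (hne : S.Nonempty) (hμ : μ Sᶜ = 0) {ρ : ℝ≥0}
    (hπ : π (closedBall 0 ρ)ᶜ = 0) (hac : π ≪ volume) :
    ∃ v : E → ℝ, ConvexOn ℝ univ v ∧ Continuous v ∧ ∃ T : E → E, Measurable T ∧ π.map T = μ ∧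
      ∀ᵐ θ ∂π, T θ ∈ S ∧ ∀ x ∈ S, ⟪x - T θ, θ⟫ ≤ v x - v (T θ) := by
  obtain ⟨v, hvc, hv, hmin⟩ := exists_dual_min hS hne hμ hπ
  have hBc : IsCompact (closedBall (0 : E) ρ) := isCompact_closedBall _ _
  set f := lconj S v with hf
  obtain ⟨R, hR⟩ := hS.isBounded.exists_norm_le
  have hfl : LipschitzWith R.toNNReal f := lconj_lipschitz hS hne hv
    fun x hx => (hR x hx).trans (Real.le_coe_toNNReal R)
  set T : E → E := fun θ => (InnerProductSpace.toDual ℝ E).symm (fderiv ℝ f θ) with hT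
  have hTm : Measurable T :=
    (InnerProductSpace.toDual ℝ E).symm.continuous.measurable.comp (measurable_fderiv ℝ f)
  have huniq : ∀ θ, DifferentiableAt ℝ f θ → ∀ x ∈ S, f θ = ⟪x, θ⟫ - v x → x = T θ := by
    intro θ hθ x hx hx'
    have h1 : IsLocalMin (fun θ' => f θ' - ⟪x, θ'⟫) θ := by
      refine Eventually.of_forall fun θ' => ?_
      have := le_lconj hS hv θ' hx
      simp only [hx']
      linarith
    have h2 : HasFDerivAt (fun θ' => f θ' - ⟪x, θ'⟫) (fderiv ℝ f θ - innerSL ℝ x) θ :=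
      hθ.hasFDerivAt.sub (innerSL ℝ x).hasFDerivAt
    have h3 := sub_eq_zero.1 (h1.hasFDerivAt_eq_zero h2)
    simp only [hT, h3]
    exact ((InnerProductSpace.toDual ℝ E).symm_apply_apply x).symm
  have hae : ∀ᵐ θ ∂π, DifferentiableAt ℝ f θ := hac.ae_le hfl.ae_differentiableAt
  have hmax : ∀ θ, DifferentiableAt ℝ f θ → T θ ∈ S ∧ f θ = ⟪T θ, θ⟫ - v (T θ) := by
    intro θ hθ
    obtain ⟨x, hx, hx'⟩ := lconj_attained hS hne hv θ
    rw [← huniq θ hθ x hx hx']
    exact ⟨hx, hx'⟩
  have hvar : ∀ η : E →ᵇ ℝ, ∫ θ, η (T θ) ∂π ≤ ∫ x, η x ∂μ := by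
    intro η
    have hlim : Tendsto (fun t : ℝ => ∫ θ, (lconj S (fun x => v x + t * η x) θ - f θ) / t ∂π)
        (𝓝[>] 0) (𝓝 (∫ θ, -η (T θ) ∂π)) := by
      refine tendsto_integral_filter_of_dominated_convergence (fun _ => ‖η‖)
        (Eventually.of_forall fun t => Continuous.aestronglyMeasurable ?_) ?_
        (integrable_const _) ?_
      · exact ((lconj_continuous hS hne (by fun_prop)).sub hfl.continuous).div_const t
      · filter_upwards [self_mem_nhdsWithin] with t ht
        have ht : 0 < t := ht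
        refine Eventually.of_forall fun θ => ?_
        have a1 := lconj_mono (ψ := fun x => v x + t * η x) hS hne hv (ε := t * ‖η‖)
          (fun x _ => by
            nlinarith [mul_le_mul_of_nonneg_left (abs_le.1 (η.norm_coe_le_norm x)).1 ht.le]) θ
        have a2 := lconj_mono (ψ := v) (ψ' := fun x => v x + t * η x) hS hne (by fun_prop)
          (ε := t * ‖η‖) (fun x _ => by
            nlinarith [mul_le_mul_of_nonneg_left (abs_le.1 (η.norm_coe_le_norm x)).2 ht.le]) θ
        rw [Real.norm_eq_abs, abs_div, abs_of_pos ht, div_le_iff₀ ht, abs_le]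
        constructor <;> linarith
      · filter_upwards [hae] with θ hθ
        exact lconj_envelope hS hne hv (hmax θ hθ).1 (hmax θ hθ).2 (huniq θ hθ) η
    have hge : -∫ x, η x ∂μ ≤ ∫ θ, -η (T θ) ∂π := by
      refine ge_of_tendsto hlim ?_
      filter_upwards [self_mem_nhdsWithin] with t ht
      have ht : 0 < t := ht
      have hc : Continuous fun x => v x + t * η x := by fun_prop
      have a1 := hmin _ hc
      rw [integral_add (integrable_of_compact hS hμ hv)
        ((integrable_of_compact hS hμ η.continuous).const_mul t), integral_const_mul] at a1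
      rw [integral_div, integral_sub (integrable_of_compact hBc hπ (lconj_continuous hS hne hc))
        (integrable_of_compact hBc hπ hfl.continuous), le_div_iff₀ ht]
      linarith
    rw [integral_neg] at hge
    linarith
  refine ⟨v, hvc, hv, T, hTm, ?_, ?_⟩
  · have := Measure.isProbabilityMeasure_map (μ := π) hTm.aemeasurable
    refine ext_of_forall_integral_eq_of_IsFiniteMeasure fun η => ?_
    rw [integral_map hTm.aemeasurable η.continuous.aestronglyMeasurable]
    have a1 := hvar η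
    have a2 := hvar (-η)
    simp only [BoundedContinuousFunction.coe_neg, Pi.neg_apply, integral_neg] at a2
    linarith
  · filter_upwards [hae] with θ hθ
    refine ⟨(hmax θ hθ).1, fun x hx => ?_⟩
    have a1 := le_lconj hS hv θ hx
    have a2 := (hmax θ hθ).2
    rw [inner_sub_left]
    linarith

end Pool.Agent.MP_5f4cdd_gt.T4
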