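import Pool.Agent.MP_5f4cdd_gt.T4Key

set_option autoImplicit false
set_option linter.unusedSectionVars false
open Set Filter Topology MeasureTheory Metric
open scoped RealInnerProductSpace NNReal ENNReal Pointwise

namespace Pool.Agent.MP_5f4cdd_gt.T4

variable {E : Type*} [NormedAddCommGroup E] [InnerProductSpace ℝ E] [FiniteDimensional ℝ E]
  [MeasurableSpace E] [BorelSpace E]

/-- the log-concave density -/
noncomputable def dens (K : Set E) (φ : E → ℝ) : E → ℝ≥0∞ :=
  K.indicator fun x => ENNReal.ofReal (Real.exp (-φ x))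

theorem measurable_dens {K : Set E} (hK : IsCompact K) {φ : E → ℝ} (hφ : Continuous φ) :
    Measurable (dens K φ) :=
  Measurable.indicator (by fun_prop) hK.measurableSet

theorem dens_of_mem {K : Set E} {φ : E → ℝ} {x : E} (hx : x ∈ K) :
    dens K φ x = ENNReal.ofReal (Real.exp (-φ x)) := indicator_of_mem hx _

theorem lintegral_dens_ne_top {K : Set E} (hK : IsCompact K) {φ : E → ℝ} (hφ : Continuous φ) :
    ∫⁻ x, dens K φ x ≠ ⊤ := by
  obtain ⟨B, hB⟩ := hK.exists_bound_of_continuousOn hφ.continuousOn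
  rw [dens, lintegral_indicator hK.measurableSet]
  have : ∫⁻ x in K, ENNReal.ofReal (Real.exp (-φ x)) ≤ ∫⁻ _ in K, ENNReal.ofReal (Real.exp B) :=
    setLIntegral_mono' hK.measurableSet fun x hx => ENNReal.ofReal_le_ofReal
      (Real.exp_le_exp.2 (by linarith [abs_le.1 (hB x hx)]))
  refine ne_top_of_le_ne_top ?_ this
  rw [setLIntegral_const]
  exact ENNReal.mul_ne_top ENNReal.ofReal_ne_top hK.measure_lt_top.ne

theorem IsProx.neg {K : Set E} {v : E → ℝ} {p : E → E} (h : IsProx K v p) :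
    IsProx (-K) (fun x => v (-x)) (fun w => -p (-w)) := by
  intro w
  refine ⟨by simpa using h.mem (-w), fun x hx => ?_⟩
  have := (h (-w)).2 (-x) hx
  have e1 : x - -p (-w) = -(-x - p (-w)) := by abel
  have e2 : w - -p (-w) = -(-w - p (-w)) := by abel
  simp only [neg_neg]
  rw [e1, e2, inner_neg_neg]
  exact this

theorem prox_surj {K : Set E} {v : E → ℝ} {k : E → E} (hk : IsProx K v k) (hK : IsCompact K)
    (hv : Continuous v) {z : E} (hz : z ∈ interior ((1 / 2 : ℝ) • (K - K))) :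
    ∃ θ, (1 / 2 : ℝ) • (k θ + -k (-θ)) = z := by
  obtain ⟨δ, hδ, hball⟩ := Metric.mem_nhds_iff.1 (mem_interior_iff_mem_nhds.1 hz)
  obtain ⟨C, hC⟩ := hK.exists_bound_of_continuousOn (f := fun x => v x + ‖x‖ ^ 2 / 2)
    (Continuous.continuousOn (by fun_prop))
  set g : E → ℝ := fun w => ⟪k w, w⟫ - v (k w) - ‖k w‖ ^ 2 / 2 with hg
  set G : E → ℝ := fun θ => g θ + g (-θ) - 2 * ⟪z, θ⟫ with hG
  have hder : ∀ θ, HasFDerivAt G (innerSL ℝ (k θ) + (innerSL ℝ (k (-θ))).comp (-1) -
      (2 : ℝ) • innerSL ℝ z) θ := fun θ =>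
    ((hk.hasFDerivAt_pot θ).add ((hk.hasFDerivAt_pot (-θ)).comp θ (hasFDerivAt_id θ).neg)).sub
      ((innerSL ℝ z).hasFDerivAt.const_smul (2 : ℝ))
  have hcont : Continuous G := continuous_iff_continuousAt.2 fun θ => (hder θ).continuousAt
  have hlow : ∀ θ, δ * ‖θ‖ - 2 * C ≤ G θ := by
    intro θ
    have hm : z + (δ / 2 / ‖θ‖) • θ ∈ (1 / 2 : ℝ) • (K - K) := by
      apply hball
      rw [mem_ball, dist_eq_norm, add_sub_cancel_left, norm_smul, Real.norm_eq_abs,
        abs_of_nonneg (by positivity)]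
      rcases eq_or_ne ‖θ‖ 0 with h0 | h0
      · rw [h0, mul_zero]; exact hδ
      · rw [div_mul_cancel₀ _ h0]; linarith
    obtain ⟨_, ⟨a, ha, b, hb, rfl⟩, hab⟩ := hm
    have a1 := hk.max_le θ ha
    have a2 := hk.max_le (-θ) hb
    have a3 := (abs_le.1 (hC a ha)).2
    have a4 := (abs_le.1 (hC b hb)).2
    have a5 := congrArg (fun y => ⟪y, θ⟫) hab
    simp only [inner_smul_left, inner_sub_left, inner_add_left, conj_trivial,
      real_inner_self_eq_norm_sq] at a5
    have a6 : δ / 2 / ‖θ‖ * ‖θ‖ ^ 2 = δ / 2 * ‖θ‖ := by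
      rcases eq_or_ne ‖θ‖ 0 with h0 | h0
      · simp [h0]
      · field_simp
    rw [inner_neg_right] at a2
    simp only [hG, hg]
    linarith
  obtain ⟨θ, hθ⟩ := hcont.exists_forall_le_of_isBounded 0 (by
    refine (isBounded_closedBall (x := (0 : E)) (r := (G 0 + 2 * C) / δ)).subset fun θ hθ => ?_
    rw [mem_closedBall_zero_iff, le_div_iff₀ hδ]
    have : G θ ≤ G 0 := hθ
    linarith [hlow θ])
  have h0 := (show IsLocalMin G θ from Eventually.of_forall hθ).hasFDerivAt_eq_zero (hder θ)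
  refine ⟨θ, ext_inner_right ℝ fun y => ?_⟩
  have := congrArg (fun L : E →L[ℝ] ℝ => L y) h0
  simp only [sub_apply, add_apply, innerSL_apply_apply,
    ContinuousLinearMap.comp_apply, neg_apply, one_apply_eq_self,
    inner_neg_right, smul_apply, smul_eq_mul,
    zero_apply] at this
  rw [inner_smul_left, inner_add_left, inner_neg_left]
  simp only [conj_trivial]
  linarith

theorem key_lc {K : Set E} (hK : IsCompact K) (hKc : Convex ℝ K) (h0 : (0 : E) ∈ K) {φ : E → ℝ}
    (hφc : ConvexOn ℝ K φ) (hφ : Continuous φ) {W : E → ℝ≥0∞} (hW : Measurable W)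
    (hWle : ∀ z, W z = 0 ∨ ∃ a ∈ K, ∃ b ∈ K, a - b = (2 : ℝ) • z ∧
      W z ≤ ENNReal.ofReal (Real.exp (-(φ a + φ b) / 2))) :
    ENNReal.ofReal ((3125 / 8192 : ℝ) ^ Module.finrank ℝ E) * (∫⁻ z, W z) ^ 3 *
      (∫⁻ x in K ∩ -K, ENNReal.ofReal (Real.exp (-(φ x + φ (-x)) / 2))) ^ 5 ≤
      (∫⁻ x, dens K φ x) ^ 8 := by
  set C := ENNReal.ofReal ((3125 / 8192 : ℝ) ^ Module.finrank ℝ E) with hC
  set Y := ∫⁻ x in K ∩ -K, ENNReal.ofReal (Real.exp (-(φ x + φ (-x)) / 2)) with hY
  set I := ∫⁻ x, dens K φ x with hI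
  have hIt : I ≠ ⊤ := lintegral_dens_ne_top hK hφ
  have hS : IsCompact (K ∩ -K) := hK.inter hK.neg
  have hYt : Y ≠ ⊤ := by
    have := lintegral_dens_ne_top hS (φ := fun x => (φ x + φ (-x)) / 2) (by fun_prop)
    rw [dens, lintegral_indicator hS.measurableSet] at this
    simpa only [hY, neg_div] using this
  obtain ⟨R, hR⟩ := hK.isBounded.exists_norm_le
  obtain ⟨B, hB⟩ := hK.exists_bound_of_continuousOn hφ.continuousOn
  have main : ∀ ε : ℝ, 0 < ε → C * (∫⁻ z, W z) ^ 3 * Y ^ 5 ≤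
      ENNReal.ofReal (Real.exp (ε * R ^ 2 / 2)) ^ 3 * I ^ 8 := by
    intro ε hε
    obtain ⟨k, hk⟩ := exists_isProx (v := fun x => ε⁻¹ * φ x) hK ⟨0, h0⟩
      (hφc.smul (inv_pos.2 hε).le) (Continuous.continuousOn (by fun_prop))
    have hkc := hk.continuous
    set ω : E → ℝ≥0∞ := fun θ => ENNReal.ofReal (Real.exp (-(φ (k θ) + φ (k (-θ))) / 2)) with hω
    set z : E → E := fun θ => (1 / 2 : ℝ) • (k θ + -k (-θ)) with hz
    have hcore := key_core hk hk.neg hS (hKc.inter hKc.neg) ⟨0, h0, by simpa using h0⟩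
      (ω := ω) (g := fun x => ENNReal.ofReal (Real.exp (-(φ x + φ (-x)) / 2)))
      (F₁ := dens K φ) (F₂ := fun x => dens K φ (-x)) (by fun_prop) (by fun_prop)
      (measurable_dens hK hφ) (M := ENNReal.ofReal (Real.exp B)) ENNReal.ofReal_ne_top
      (fun θ => ENNReal.ofReal_le_ofReal (Real.exp_le_exp.2 (by
        linarith [abs_le.1 (hB _ (hk.mem θ)), abs_le.1 (hB _ (hk.mem (-θ)))]))) hYt
      (fun θ x hx => by
        have hx2 : -x ∈ K := hx.2
        have e : -((3 / 8 : ℝ) • -k (-θ) + (5 / 8 : ℝ) • x) =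
            (3 / 8 : ℝ) • k (-θ) + (5 / 8 : ℝ) • -x := by module
        have c1 := hφc.2 (hk.mem θ) hx.1 (by norm_num : (0 : ℝ) ≤ 3 / 8)
          (by norm_num : (0 : ℝ) ≤ 5 / 8) (by norm_num)
        have c2 := hφc.2 (hk.mem (-θ)) hx2 (by norm_num : (0 : ℝ) ≤ 3 / 8)
          (by norm_num : (0 : ℝ) ≤ 5 / 8) (by norm_num)
        rw [e, dens_of_mem (hKc (hk.mem θ) hx.1 (by norm_num) (by norm_num) (by norm_num)),
          dens_of_mem (hKc (hk.mem (-θ)) hx2 (by norm_num) (by norm_num) (by norm_num))]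
        simp only [hω]
        rw [← ENNReal.ofReal_mul (by positivity), ← ENNReal.ofReal_pow (by positivity),
          ← ENNReal.ofReal_pow (by positivity), ← ENNReal.ofReal_pow (by positivity),
          ← ENNReal.ofReal_mul (by positivity), ← Real.exp_add, ← Real.exp_nat_mul,
          ← Real.exp_nat_mul, ← Real.exp_nat_mul, ← Real.exp_add]
        refine ENNReal.ofReal_le_ofReal (Real.exp_le_exp.2 ?_)
        simp only [smul_eq_mul] at c1 c2
        push_cast
        linarith)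
    rw [lintegral_neg_eq_self (dens K φ), ← hI, ← two_mul] at hcore
    set Z := ∫⁻ θ, jac z θ * ω θ with hZ
    have hZ1 : C * Z ^ 3 * Y ^ 5 ≤ I ^ 8 := by
      have t1 : Tendsto (fun m : ℕ => ∫⁻ θ in closedBall 0 m, jac z θ * ω θ) atTop (𝓝 Z) := by
        have hmono : Monotone fun m : ℕ => closedBall (0 : E) m := fun a b hab =>
          closedBall_subset_closedBall (by exact_mod_cast hab)
        have : Z = ⨆ m : ℕ, ∫⁻ θ in closedBall 0 m, jac z θ * ω θ := by
          rw [← setLIntegral_iUnion_of_directed _ hmono.directed_le, iUnion_closedBall_nat,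
            Measure.restrict_univ]
        rw [this]
        exact tendsto_atTop_iSup fun a b hab => lintegral_mono_set (hmono hab)
      have hCY : C * Y ^ 5 ≠ ⊤ := ENNReal.mul_ne_top ENNReal.ofReal_ne_top (ENNReal.pow_ne_top hYt)
      have t2 := ((ENNReal.continuous_const_mul hCY).tendsto _).comp
        (((ENNReal.continuous_pow 3).tendsto _).comp t1)
      rw [mul_right_comm]
      refine le_of_tendsto' t2 fun m => ?_
      have := hcore (m : ℝ≥0)
      rw [mul_pow] at this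
      have := (ENNReal.mul_le_mul_iff_right (by norm_num) (by norm_num)).1 this
      rw [mul_right_comm] at this
      exact this
    have hZ2 : ∫⁻ y, W y ≤ ENNReal.ofReal (Real.exp (ε * R ^ 2 / 2)) * Z := by
      have hzl : LipschitzWith (‖(1 / 2 : ℝ)‖₊ * (1 + 1)) z :=
        (lipschitzWith_smul (1 / 2 : ℝ)).comp (hk.lipschitz.add hk.neg.lipschitz)
      set D := {θ | DifferentiableAt ℝ z θ} with hD
      have hDm : MeasurableSet D := measurableSet_of_differentiableAt ℝ z
      have n1 : volume (z '' Dᶜ) = 0 := lip_image_null volume hzl hzl.ae_differentiableAt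
      have n2 : volume (frontier ((1 / 2 : ℝ) • (K - K))) = 0 :=
        ((hKc.sub hKc).smul _).addHaar_frontier volume
      have n3 : ∀ᵐ y, y ∉ z '' Dᶜ := measure_eq_zero_iff_ae_notMem.1 n1
      have n4 : ∀ᵐ y, y ∉ frontier ((1 / 2 : ℝ) • (K - K)) := measure_eq_zero_iff_ae_notMem.1 n2
      calc ∫⁻ y, W y = ∫⁻ y, {y | W y ≠ 0}.indicator W y := by
            refine lintegral_congr fun y => ?_
            by_cases hy : W y = 0
            · rw [indicator_of_notMem (by simpa using hy), hy]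
            · rw [indicator_of_mem (by simpa using hy)]
        _ = ∫⁻ y in {y | W y ≠ 0}, W y :=
            lintegral_indicator (hW (measurableSet_singleton 0)).compl _
        _ ≤ ∫⁻ y in z '' D, W y := by
            refine lintegral_mono' (Measure.restrict_mono_ae ?_) le_rfl
            filter_upwards [n3, n4] with y a1 a2 a3
            rcases hWle y with a4 | ⟨a, ha, b, hb, hab, -⟩
            · exact absurd a4 a3
            have a5 : y ∈ (1 / 2 : ℝ) • (K - K) :=
              ⟨a - b, ⟨a, ha, b, hb, rfl⟩, by simp only [hab, smul_smul]; norm_num⟩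
            have a6 : y ∈ interior ((1 / 2 : ℝ) • (K - K)) := by
              by_contra hc
              exact a2 ⟨subset_closure a5, hc⟩
            obtain ⟨θ, hθ⟩ := prox_surj hk hK (by fun_prop) a6
            refine ⟨θ, ?_, hθ⟩
            by_contra hc
            exact a1 ⟨θ, hc, hθ⟩
        _ ≤ ∫⁻ θ in D, jac z θ * W (z θ) :=
            area_upper volume hzl.continuous.measurable hDm (fun θ hθ => hθ) hW
        _ ≤ ∫⁻ θ, jac z θ * W (z θ) := setLIntegral_le_lintegral _ _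
        _ ≤ ∫⁻ θ, ENNReal.ofReal (Real.exp (ε * R ^ 2 / 2)) * (jac z θ * ω θ) := by
            refine lintegral_mono fun θ => ?_
            rw [mul_left_comm]
            refine mul_le_mul' le_rfl ?_
            rcases hWle (z θ) with a4 | ⟨a, ha, b, hb, hab, hle⟩
            · rw [a4]; exact zero_le
            refine hle.trans ?_
            simp only [hω]
            rw [← ENNReal.ofReal_mul (by positivity), ← Real.exp_add]
            refine ENNReal.ofReal_le_ofReal (Real.exp_le_exp.2 ?_)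
            have a1 := hk.max_le θ ha
            have a2 := hk.max_le (-θ) hb
            have a5 := congrArg (fun y => ⟪y, θ⟫) hab
            simp only [hz, smul_smul, inner_smul_left, inner_sub_left, inner_add_left,
              inner_neg_left, conj_trivial] at a5
            rw [inner_neg_right, inner_neg_right] at a2
            have b1 : ‖a‖ ^ 2 ≤ R ^ 2 := pow_le_pow_left₀ (norm_nonneg _) (hR a ha) 2
            have b2 : ‖b‖ ^ 2 ≤ R ^ 2 := pow_le_pow_left₀ (norm_nonneg _) (hR b hb) 2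
            have b3 : ε⁻¹ * (φ (k θ) + φ (k (-θ))) ≤ ε⁻¹ * (φ a + φ b) + R ^ 2 := by
              nlinarith [sq_nonneg ‖k θ‖, sq_nonneg ‖k (-θ)‖]
            have b4 := mul_le_mul_of_nonneg_left b3 hε.le
            rw [mul_add ε, ← mul_assoc, ← mul_assoc, mul_inv_cancel₀ hε.ne'] at b4
            linarith
        _ = _ := lintegral_const_mul' _ _ ENNReal.ofReal_ne_top
    calc C * (∫⁻ z, W z) ^ 3 * Y ^ 5
        ≤ C * (ENNReal.ofReal (Real.exp (ε * R ^ 2 / 2)) * Z) ^ 3 * Y ^ 5 := by gcongr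
      _ = ENNReal.ofReal (Real.exp (ε * R ^ 2 / 2)) ^ 3 * (C * Z ^ 3 * Y ^ 5) := by ring
      _ ≤ _ := by gcongr
  have t1 : Tendsto (fun ε : ℝ => ENNReal.ofReal (Real.exp (ε * R ^ 2 / 2)) ^ 3 * I ^ 8) (𝓝[>] 0)
      (𝓝 (ENNReal.ofReal (Real.exp (0 * R ^ 2 / 2)) ^ 3 * I ^ 8)) := by
    refine Tendsto.mono_left (Continuous.tendsto ?_ 0) nhdsWithin_le_nhds
    exact (ENNReal.continuous_mul_const (ENNReal.pow_ne_top hIt)).comp
      ((ENNReal.continuous_pow 3).comp (ENNReal.continuous_ofReal.comp (by fun_prop)))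
  simp only [zero_mul, zero_div, Real.exp_zero, ENNReal.ofReal_one, one_pow, one_mul] at t1
  refine ge_of_tendsto t1 ?_
  filter_upwards [self_mem_nhdsWithin] with ε hε using main ε hε

theorem rogers_shephard {K : Set E} (hK : IsCompact K) (hKc : Convex ℝ K) {φ : E → ℝ}
    (hφc : ConvexOn ℝ K φ) (hφ : Continuous φ) {W : E → ℝ≥0∞} (hW : Measurable W)
    (hWle : ∀ z, W z = 0 ∨ ∃ a ∈ K, ∃ b ∈ K, a - b = (2 : ℝ) • z ∧
      W z ≤ ENNReal.ofReal (Real.exp (-(φ a + φ b) / 2))) (hI0 : ∫⁻ x, dens K φ x ≠ 0) :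
    ∫⁻ z, W z ≤ 2 ^ Module.finrank ℝ E * ∫⁻ x, dens K φ x := by
  set f := dens K φ with hf
  have hfm : Measurable f := measurable_dens hK hφ
  set I := ∫⁻ x, f x with hI
  have hIt : I ≠ ⊤ := lintegral_dens_ne_top hK hφ
  set n := Module.finrank ℝ E
  have h1 : ∀ a : E, 2 ^ n * ∫⁻ x, f ((2 : ℝ) • x - a) = I := by
    intro a
    have hm : Measurable fun y => f (y - a) := hfm.comp (measurable_sub_const a)
    have := lintegral_map (μ := (volume : Measure E)) hm (measurable_const_smul (2 : ℝ))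
    rw [Measure.map_addHaar_smul _ (two_ne_zero), lintegral_smul_measure,
      lintegral_sub_right_eq_self f a] at this
    rw [← this, smul_eq_mul, ← mul_assoc, abs_of_pos (by positivity),
      ENNReal.ofReal_inv_of_pos (by positivity), ENNReal.ofReal_pow (by norm_num),
      ENNReal.ofReal_ofNat, ENNReal.mul_inv_cancel (by positivity) (by finiteness), one_mul]
  have h2 : ∀ z, W z * I ≤ 2 ^ n * ∫⁻ x, f x * f (x - z) := by
    intro z
    rcases hWle z with a4 | ⟨a, ha, b, hb, hab, hle⟩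
    · rw [a4, zero_mul]; exact zero_le
    rw [← h1 a, mul_left_comm]
    refine mul_le_mul' le_rfl ?_
    rw [← lintegral_const_mul' _ _ (ne_top_of_le_ne_top ENNReal.ofReal_ne_top hle)]
    refine lintegral_mono fun x => ?_
    by_cases hy : (2 : ℝ) • x - a ∈ K
    · have e1 : x = (1 / 2 : ℝ) • a + (1 / 2 : ℝ) • ((2 : ℝ) • x - a) := by module
      have e2 : x - z = (1 / 2 : ℝ) • b + (1 / 2 : ℝ) • ((2 : ℝ) • x - a) := by
        have : b = a - (2 : ℝ) • z := by rw [← hab]; abel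
        rw [this]; module
      have c1 := hφc.2 ha hy (by norm_num : (0 : ℝ) ≤ 1 / 2) (by norm_num : (0 : ℝ) ≤ 1 / 2)
        (by norm_num)
      have c2 := hφc.2 hb hy (by norm_num : (0 : ℝ) ≤ 1 / 2) (by norm_num : (0 : ℝ) ≤ 1 / 2)
        (by norm_num)
      have m1 := hKc ha hy (by norm_num : (0 : ℝ) ≤ 1 / 2) (by norm_num : (0 : ℝ) ≤ 1 / 2)
        (by norm_num)
      have m2 := hKc hb hy (by norm_num : (0 : ℝ) ≤ 1 / 2) (by norm_num : (0 : ℝ) ≤ 1 / 2)
        (by norm_num)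
      rw [← e1] at c1 m1
      rw [← e2] at c2 m2
      refine (mul_le_mul' hle le_rfl).trans ?_
      simp only [hf]
      rw [dens_of_mem hy, dens_of_mem m1, dens_of_mem m2, ← ENNReal.ofReal_mul (by positivity),
        ← ENNReal.ofReal_mul (by positivity), ← Real.exp_add, ← Real.exp_add]
      refine ENNReal.ofReal_le_ofReal (Real.exp_le_exp.2 ?_)
      simp only [smul_eq_mul] at c1 c2
      linarith
    · have : f ((2 : ℝ) • x - a) = 0 := indicator_of_notMem hy _
      rw [this, mul_zero]; exact zero_le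
  have h3 : ∫⁻ z, ∫⁻ x, f x * f (x - z) = I * I := by
    rw [lintegral_lintegral_swap (Measurable.aemeasurable
      ((hfm.comp measurable_snd).mul (hfm.comp (measurable_snd.sub measurable_fst))))]
    have : ∀ x, ∫⁻ z, f x * f (x - z) = f x * I := fun x => by
      rw [lintegral_const_mul (f := fun z => f (x - z)) _ (hfm.comp (measurable_const_sub x)),
        lintegral_sub_left_eq_self]
    simp_rw [this]
    rw [lintegral_mul_const _ hfm]
  have h4 : (∫⁻ z, W z) * I ≤ 2 ^ n * I * I := by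
    rw [← lintegral_mul_const _ hW, mul_assoc, ← h3, ← lintegral_const_mul' _ _ (by finiteness)]
    exact lintegral_mono h2
  exact (ENNReal.mul_le_mul_iff_left hI0 hIt).1 h4

theorem product_bound {K : Set E} (hK : IsCompact K) (hKc : Convex ℝ K) (h0 : (0 : E) ∈ K)
    {φ : E → ℝ} (hφc : ConvexOn ℝ K φ) (hφ : Continuous φ) {W : E → ℝ≥0∞} (hW : Measurable W)
    (hWle : ∀ z, W z = 0 ∨ ∃ a ∈ K, ∃ b ∈ K, a - b = (2 : ℝ) • z ∧
      W z ≤ ENNReal.ofReal (Real.exp (-(φ a + φ b) / 2))) (hI0 : ∫⁻ x, dens K φ x ≠ 0) :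
    ENNReal.ofReal ((5 / 8 : ℝ) ^ Module.finrank ℝ E) * (∫⁻ z, W z) *
      (∫⁻ x in K ∩ -K, ENNReal.ofReal (Real.exp (-(φ x + φ (-x)) / 2))) ≤
      (∫⁻ x, dens K φ x) ^ 2 := by
  have h1 := key_lc hK hKc h0 hφc hφ hW hWle
  have h2 := rogers_shephard hK hKc hφc hφ hW hWle hI0
  set n := Module.finrank ℝ E
  set A := ∫⁻ z, W z
  set Y := ∫⁻ x in K ∩ -K, ENNReal.ofReal (Real.exp (-(φ x + φ (-x)) / 2))
  set I := ∫⁻ x, dens K φ x
  set c := ENNReal.ofReal ((5 / 8 : ℝ) ^ n) with hc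
  have e : ENNReal.ofReal ((3125 / 8192 : ℝ) ^ n) = c ^ 5 * (2 ^ n) ^ 2 := by
    have : (2 : ℝ≥0∞) ^ n = ENNReal.ofReal (2 ^ n) := by
      rw [ENNReal.ofReal_pow (by norm_num), ENNReal.ofReal_ofNat]
    rw [hc, this, ← ENNReal.ofReal_pow (by positivity), ← ENNReal.ofReal_pow (by positivity),
      ← ENNReal.ofReal_mul (by positivity), ← pow_mul, ← pow_mul, mul_comm n 5, mul_comm n 2,
      pow_mul, pow_mul, ← mul_pow]
    norm_num
  rw [e] at h1
  refine (ENNReal.pow_le_pow_left_iff (by norm_num : (5 : ℕ) ≠ 0)).1 ?_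
  refine (ENNReal.mul_le_mul_iff_right (a := (2 ^ n) ^ 2) (by positivity) (by finiteness)).1 ?_
  calc (2 ^ n) ^ 2 * (c * A * Y) ^ 5 = (c ^ 5 * (2 ^ n) ^ 2 * A ^ 3 * Y ^ 5) * A ^ 2 := by ring
    _ ≤ I ^ 8 * (2 ^ n * I) ^ 2 := by gcongr
    _ = (2 ^ n) ^ 2 * (I ^ 2) ^ 5 := by ring

end Pool.Agent.MP_5f4cdd_gt.T4
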