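import Pool.Agent.MP_5f4cdd_gt.Potential

set_option autoImplicit false
open MeasureTheory ENNReal Set Matrix Topology Filter

namespace Pool.Agent.MP_5f4cdd_gt

variable {n : ℕ}

lemma image_sub_eq (a : E n) (L : Set (E n)) : (fun z => z - a) '' L = (fun z => z + a) ⁻¹' L := by
  ext z
  constructor
  · rintro ⟨x, hx, rfl⟩; simpa using hx
  · intro hz; exact ⟨z + a, hz, by simp⟩

lemma volume_image_sub (a : E n) (L : Set (E n)) : volume ((fun z => z - a) '' L) = volume L := by
  rw [image_sub_eq, measure_preimage_add_right]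

lemma Lap_image_sub (p : ℝ) (a y : E n) (L : Set (E n)) :
    Lap p ((fun z => z - a) '' L) y = Lap p L y * Real.exp (-(p * (a ⬝ᵥ y))) := by
  have := (measurePreserving_add_right (volume : Measure (E n)) a).setIntegral_preimage_emb
    (measurableEmbedding_addRight a) (fun x => Real.exp (p * ((x - a) ⬝ᵥ y))) L
  simp only [add_sub_cancel_right] at this
  rw [Lap, image_sub_eq, this, Lap, ← integral_mul_const]
  refine integral_congr_ae (Eventually.of_forall fun x => ?_)
  simp only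
  rw [← Real.exp_add, sub_dotProduct]; ring_nf

lemma mahler_eq (p : ℝ) (L : Set (E n)) : mahler p L = volume L * ∫⁻ y : E n, ENNReal.ofReal
    ((Lap p L y / (volume L).toReal) ^ (-(1 / p))) := rfl

/-- total mass of the dual weight -/
noncomputable def Jp (n : ℕ) (p : ℝ) : ℝ := ∫ y : E n, Zs p y ^ (-(1 / p))

lemma Jp_pos {p : ℝ} (hp : 0 < p) : 0 < Jp n p := by
  refine (integral_pos_iff_support_of_nonneg (fun y => (Real.rpow_pos_of_pos (Zs_pos p y) _).le)
    (integrable_wt hp)).2 ?_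
  have : Function.support (fun y : E n => Zs p y ^ (-(1 / p))) = univ :=
    eq_univ_of_forall fun y => (Real.rpow_pos_of_pos (Zs_pos p y) _).ne'
  rw [this]
  exact isOpen_univ.measure_pos _ univ_nonempty

lemma ofReal_integral_le {f g : E n → ℝ} (hf : Integrable f) (hfg : ∀ y, f y ≤ g y) :
    ENNReal.ofReal (∫ y, f y) ≤ ∫⁻ y, ENNReal.ofReal (g y) := by
  calc ENNReal.ofReal (∫ y, f y) ≤ ENNReal.ofReal (∫ y, max (f y) 0) :=
        ENNReal.ofReal_le_ofReal (integral_mono hf hf.pos_part fun y => le_max_left _ _)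
    _ = ∫⁻ y, ENNReal.ofReal (max (f y) 0) :=
        ofReal_integral_eq_lintegral_ofReal hf.pos_part
          (Eventually.of_forall fun y => le_max_right _ _)
    _ ≤ _ := lintegral_mono fun y => by
        rcases le_total (f y) 0 with h | h
        · simp [h]
        · rw [max_eq_left h]; exact ENNReal.ofReal_le_ofReal (hfg y)

lemma tangent_pt {l z q s : ℝ} (hl : 0 < l) (hz : 0 < z) (hq : 0 < q) :
    (1 + q) * z ^ (-q) - q * (l * z ^ (-q - 1)) + s * z ^ (-q) ≤ l ^ (-q) * Real.exp s := by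
  have h1 : l ^ (-q) * Real.exp s = z ^ (-q) * Real.exp (-q * Real.log (l / z) + s) := by
    rw [Real.rpow_def_of_pos hl, Real.rpow_def_of_pos hz, ← Real.exp_add, ← Real.exp_add,
      Real.log_div hl.ne' hz.ne']
    ring_nf
  have h2 : l * z ^ (-q - 1) = z ^ (-q) * (l / z) := by
    rw [Real.rpow_sub_one hz.ne']; ring
  have h3 := Real.add_one_le_exp (-q * Real.log (l / z) + s)
  have h4 := Real.log_le_sub_one_of_pos (div_pos hl hz)
  have h5 := Real.rpow_pos_of_pos hz (-q)
  rw [h1, h2]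
  have h6 : 1 + q - q * (l / z) + s ≤ Real.exp (-q * Real.log (l / z) + s) := by nlinarith
  nlinarith [mul_le_mul_of_nonneg_left h6 h5.le]

lemma tangent {p : ℝ} (hp : 0 < p) {L : Set (E n)} (hLm : MeasurableSet L)
    (hL : L ⊆ cS n (1 + 1 / p / 4)) (h0 : volume L ≠ 0) (a : E n) :
    ENNReal.ofReal ((volume L).toReal ^ (1 + 1 / p) *
      (Jp n p + 1 / p * (Jp n p - ∫ x in L, Psi p x))) ≤ mahler p ((fun z => z - a) '' L) := by
  have hfin : volume L ≠ ∞ :=
    ne_top_of_le_ne_top (volume_cS_lt_top (by positivity)).ne (measure_mono hL)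
  set v := (volume L).toReal with hv
  have hv0 : 0 < v := ENNReal.toReal_pos h0 hfin
  rw [mahler_eq, volume_image_sub, ← hv, Real.rpow_add hv0, Real.rpow_one, mul_assoc,
    ENNReal.ofReal_mul hv0.le, hv, ENNReal.ofReal_toReal hfin, ← hv]
  gcongr
  have i1 := (integrable_wt (n := n) hp).const_mul (1 + 1 / p)
  have i2 := (integrable_Lap_wt hp hLm hL).const_mul (1 / p)
  have i3 := integrable_dot_wt hp a
  have e : Jp n p + 1 / p * (Jp n p - ∫ x in L, Psi p x) =
      ∫ y : E n, ((1 + 1 / p) * Zs p y ^ (-(1 / p)) - 1 / p * (Lap p L y * Zs p y ^ (-(1 / p) - 1))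
        + (a ⬝ᵥ y) * Zs p y ^ (-(1 / p))) := by
    rw [integral_add (f := fun y => (1 + 1 / p) * Zs p y ^ (-(1 / p)) -
      1 / p * (Lap p L y * Zs p y ^ (-(1 / p) - 1))) (i1.sub i2) i3, integral_sub i1 i2, integral_const_mul, integral_const_mul,
      integral_dot_wt hp, integral_Lap_wt hp hLm hL, Jp]
    ring
  rw [e, ← integral_const_mul]
  refine ofReal_integral_le (((i1.sub i2).add i3).const_mul _) fun y => ?_
  have hl := Lap_pos p y (by positivity) hL h0
  have h1 := tangent_pt (s := a ⬝ᵥ y) hl (Zs_pos p y) (show 0 < 1 / p by positivity)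
  have h2 : (Lap p ((fun z => z - a) '' L) y / v) ^ (-(1 / p)) =
      v ^ (1 / p) * (Lap p L y ^ (-(1 / p)) * Real.exp (a ⬝ᵥ y)) := by
    rw [Lap_image_sub, Real.div_rpow (by positivity) hv0.le, Real.mul_rpow hl.le (by positivity),
      ← Real.exp_mul, Real.rpow_neg hv0.le, div_inv_eq_mul, mul_comm]
    congr 3
    field_simp
  rw [h2]
  exact mul_le_mul_of_nonneg_left h1 (by positivity)

lemma integral_Psi_cS {p : ℝ} (hp : 0 < p) : ∫ x in cS n 1, Psi p x = Jp n p := by
  rw [← integral_Lap_wt hp (measurableSet_cS 1)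
    (cS_mono (le_add_of_nonneg_right (by positivity))), Jp]
  refine integral_congr_ae (Eventually.of_forall fun y => ?_)
  simp only
  rw [Real.rpow_sub_one (Zs_pos p y).ne']
  exact mul_div_cancel₀ _ (Zs_pos p y).ne'

lemma mahler_cS {p : ℝ} (hp : 0 < p) : mahler p (cS n 1) =
    ENNReal.ofReal ((volume (cS n 1)).toReal ^ (1 + 1 / p) * Jp n p) := by
  have hfin : volume (cS n 1) ≠ ∞ := (volume_cS_lt_top zero_le_one).ne
  set v := (volume (cS n 1)).toReal with hv
  have hv0 : 0 < v := ENNReal.toReal_pos (volume_cS_pos one_pos).ne' hfin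
  rw [mahler_eq, ← hv, Real.rpow_add hv0, Real.rpow_one, mul_assoc,
    ENNReal.ofReal_mul hv0.le, hv, ENNReal.ofReal_toReal hfin, ← hv, Jp, ← integral_const_mul,
    ofReal_integral_eq_lintegral_ofReal ((integrable_wt hp).const_mul _)
      (Eventually.of_forall fun y => mul_nonneg (by positivity)
        (Real.rpow_pos_of_pos (Zs_pos p y) _).le)]
  congr 1
  refine lintegral_congr fun y => ?_
  congr 1
  change (Zs p y / v) ^ _ = _
  rw [Real.div_rpow (Zs_pos p y).le hv0.le, Real.rpow_neg hv0.le, div_inv_eq_mul, mul_comm]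

lemma integrableOn_Psi {p : ℝ} (hp : 0 < p) {L : Set (E n)} (hL : L ⊆ cS n (1 + 1 / p / 4)) :
    IntegrableOn (Psi p) L :=
  ((continuousOn_Psi hp).integrableOn_compact (isCompact_cS (by positivity))).mono_set hL

lemma lintegral_Psi {p : ℝ} (hp : 0 < p) {L : Set (E n)} (hLm : MeasurableSet L)
    (hL : L ⊆ cS n (1 + 1 / p / 4)) :
    (∫⁻ x in L, ENNReal.ofReal (Psi p x)).toReal = ∫ x in L, Psi p x := by
  have h0 : 0 ≤ᵐ[volume.restrict L] Psi p := by
    filter_upwards [ae_restrict_mem hLm] with x hx using (Psi_pos hp (hL hx)).le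
  rw [← ofReal_integral_eq_lintegral_ofReal (integrableOn_Psi hp hL) h0,
    ENNReal.toReal_ofReal (integral_nonneg_of_ae h0)]

lemma lintegral_Psi_ne_top {p : ℝ} (hp : 0 < p) {L : Set (E n)}
    (hL : L ⊆ cS n (1 + 1 / p / 4)) : ∫⁻ x in L, ENNReal.ofReal (Psi p x) ≠ ∞ :=
  (integrableOn_Psi hp hL).lintegral_lt_top.ne

lemma image_smul_cS {r : ℝ} (hr : 0 < r) : (r • LinearMap.id : E n →ₗ[ℝ] E n) '' cS n 1 = cS n r := by
  ext z
  constructor
  · rintro ⟨x, hx, rfl⟩
    have := (smul_mem_cS hr).2 hx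
    simpa using this
  · intro hz
    refine ⟨r⁻¹ • z, ?_, by simp [smul_smul, inv_mul_cancel₀ hr.ne']⟩
    have := (smul_mem_cS (inv_pos.2 hr)).2 hz
    rwa [inv_mul_cancel₀ hr.ne'] at this

lemma det_smul_id (r : ℝ) : LinearMap.det (r • LinearMap.id : E n →ₗ[ℝ] E n) = r ^ n := by
  simp

lemma facet_mean {m : ℕ} {p : ℝ} (hp : 0 < p) :
    (1 + 1 / p) * Jp (m + 1) p * (mu m univ).toReal ≤
      1 / p * (∫⁻ l, ENNReal.ofReal (Psi p (A0 (m + 1) l)) ∂mu m).toReal *
        (volume (cS (m + 1) 1)).toReal := by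
  have hN := nice_Psi (m := m) hp
  set F := ∫⁻ l, ENNReal.ofReal (Psi p (A0 (m + 1) l)) ∂mu m with hF
  have hFt : F ≠ ∞ := hN.F_ne_top
  set U := mu m univ with hU
  have hUt : U ≠ ∞ := measure_ne_top _ _
  have hU0 : 0 < U.toReal := ENNReal.toReal_pos mu_univ_pos.ne' hUt
  have hfin : volume (cS (m + 1) 1) ≠ ∞ := (volume_cS_lt_top zero_le_one).ne
  set V := (volume (cS (m + 1) 1)).toReal with hV
  have hV0 : 0 < V := ENNReal.toReal_pos (volume_cS_pos one_pos).ne' hfin
  set q := 1 / p with hq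
  have hq0 : 0 < q := by positivity
  have hJ := Jp_pos (n := m + 1) hp
  have step : ∀ η : ℝ, 0 < η → (1 + q) * Jp (m + 1) p * U.toReal ≤
      q * (F.toReal + η * U.toReal) * V := by
    intro η hη
    obtain ⟨r₀, hr₀, hr₀R, hsh⟩ := hN.shell hη
    have hlim : Tendsto (fun r : ℝ => (r ^ (m + 1)) ^ (1 + q) * (q * (F.toReal + η * U.toReal) * V))
        (𝓝[>] 1) (𝓝 (q * (F.toReal + η * U.toReal) * V)) := by
      refine Tendsto.mono_left ?_ nhdsWithin_le_nhds
      have : ContinuousAt (fun r : ℝ => (r ^ (m + 1)) ^ (1 + q) *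
          (q * (F.toReal + η * U.toReal) * V)) 1 :=
        (((continuous_pow (m + 1)).continuousAt).rpow_const (Or.inr (by positivity))).mul
          continuousAt_const
      simpa using this.tendsto
    refine ge_of_tendsto hlim ?_
    filter_upwards [Ioc_mem_nhdsGT hr₀] with r hr
    have hr0 : 0 < r := one_pos.trans hr.1
    have hsub : cS (m + 1) r ⊆ cS (m + 1) (1 + q / 4) := cS_mono (hr.2.trans hr₀R)
    set ρ := r ^ (m + 1) with hρ
    have hρ1 : 1 < ρ := one_lt_pow₀ hr.1 (Nat.succ_ne_zero m)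
    have hvol : (volume (cS (m + 1) r)).toReal = ρ * V := by
      rw [← image_smul_cS hr0, Measure.addHaar_image_linearMap, det_smul_id, ENNReal.toReal_mul,
        ENNReal.toReal_ofReal (abs_nonneg _), abs_of_pos (by positivity)]
    have hmah : mahler p ((fun z => z - 0) '' cS (m + 1) r) =
        ENNReal.ofReal (V ^ (1 + q) * Jp (m + 1) p) := by
      simp only [sub_zero, image_id']
      rw [← image_smul_cS hr0, mahler_image_lin _ _ (by rw [det_smul_id]; positivity), mahler_cS hp]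
    have h1 := tangent hp (measurableSet_cS r) hsub (volume_cS_pos hr0).ne' 0
    rw [hmah, ENNReal.ofReal_le_ofReal_iff (by positivity), hvol,
      Real.mul_rpow (by positivity) hV0.le] at h1
    have hsd : cS (m + 1) r \ cS (m + 1) 1 ⊆ cS (m + 1) (1 + q / 4) := sdiff_subset.trans hsub
    have h2 : ∫ x in cS (m + 1) r \ cS (m + 1) 1, Psi p x =
        (∫ x in cS (m + 1) r, Psi p x) - Jp (m + 1) p := by
      rw [setIntegral_sdiff (measurableSet_cS 1) (integrableOn_Psi hp hsub) (cS_mono hr.1.le),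
        integral_Psi_cS hp]
    have h3 := ENNReal.toReal_mono (by
      have : volume (cS (m + 1) r \ cS (m + 1) 1) ≠ ∞ :=
        ne_top_of_le_ne_top (volume_cS_lt_top hr0.le).ne (measure_mono sdiff_subset)
      finiteness) (hsh r hr.1 hr.2)
    rw [ENNReal.toReal_mul, ENNReal.toReal_mul,
      lintegral_Psi hp ((measurableSet_cS r).diff (measurableSet_cS 1)) hsd, h2,
      ENNReal.toReal_add hFt (by finiteness), ENNReal.toReal_mul, ENNReal.toReal_ofReal hη.le,
      measure_sdiff (cS_mono hr.1.le) (measurableSet_cS 1).nullMeasurableSet hfin,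
      ENNReal.toReal_sub_of_le (measure_mono (cS_mono hr.1.le)) (volume_cS_lt_top hr0.le).ne,
      hvol, ← hV, ← hU] at h3
    have h4 : 1 + (1 + q) * (ρ - 1) ≤ ρ ^ (1 + q) := by
      have := one_add_mul_self_le_rpow_one_add (s := ρ - 1) (by linarith) (p := 1 + q) (by linarith)
      simpa using this
    set X := (∫ x in cS (m + 1) r, Psi p x) - Jp (m + 1) p with hX
    have h5 : ρ ^ (1 + q) * (Jp (m + 1) p - q * X) ≤ Jp (m + 1) p := by
      have hp' : 0 < V ^ (1 + q) := by positivity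
      refine le_of_mul_le_mul_left ?_ hp'
      refine le_trans (le_of_eq ?_) h1
      rw [hX, ← hq]; ring
    have hρq : 0 < ρ ^ (1 + q) := by positivity
    have h6 : (1 + q) * (ρ - 1) * Jp (m + 1) p ≤ ρ ^ (1 + q) * q * X := by nlinarith
    have h7 := mul_le_mul_of_nonneg_right h6 hU0.le
    have h8 := mul_le_mul_of_nonneg_left h3 (show 0 ≤ ρ ^ (1 + q) * q by positivity)
    refine le_of_mul_le_mul_left ?_ (sub_pos.2 hρ1)
    nlinarith
  refine le_of_forall_pos_le_add fun ε hε => ?_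
  have := step (ε / (q * U.toReal * V)) (by positivity)
  have h2 : q * (F.toReal + ε / (q * U.toReal * V) * U.toReal) * V = q * F.toReal * V + ε := by
    field_simp
  rwa [h2] at this

lemma local_centred {m : ℕ} {p : ℝ} (hp : 0 < p) :
    ∃ ε κ : ℝ, 0 < ε ∧ 0 < κ ∧ ∀ K : Set (E (m + 1)), Convex ℝ K → IsCompact K →
      K ⊆ cS (m + 1) 1 → Maxi K →
      (1 - ε) * (volume (cS (m + 1) 1)).toReal ≤ (volume K).toReal → ∀ a,
      ENNReal.ofReal (1 + κ * (1 - (volume K).toReal / (volume (cS (m + 1) 1)).toReal)) *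
        mahler p (cS (m + 1) 1) ≤ mahler p ((fun z => z - a) '' K) := by
  have hN := nice_Psi (m := m) hp
  obtain ⟨κ₁, δ, hκ₁, hδ0, hδ1, hdef⟩ := hN.deficit
  have hfm := facet_mean (m := m) hp
  set F := ∫⁻ l, ENNReal.ofReal (Psi p (A0 (m + 1) l)) ∂mu m with hF
  have hFt : F ≠ ∞ := hN.F_ne_top
  set U := mu m univ with hU
  have hUt : U ≠ ∞ := measure_ne_top _ _
  have hU0 : 0 < U.toReal := ENNReal.toReal_pos mu_univ_pos.ne' hUt
  have hfin : volume (cS (m + 1) 1) ≠ ∞ := (volume_cS_lt_top zero_le_one).ne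
  rw [mahler_cS hp]
  set V := (volume (cS (m + 1) 1)).toReal with hV
  have hV0 : 0 < V := ENNReal.toReal_pos (volume_cS_pos one_pos).ne' hfin
  set q := 1 / p with hq
  have hq0 : 0 < q := by positivity
  have hJ := Jp_pos (n := m + 1) hp
  set J := Jp (m + 1) p with hJdef
  set b := volume (Metric.closedBall (0 : E (m + 1)) (δ / ((m + 1 : ℕ) + 1) ^ 2)) with hb
  have hb0 : 0 < b := Metric.measure_closedBall_pos _ _ (by positivity)
  have hbt : b ≠ ∞ := measure_closedBall_lt_top.ne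
  have hbr : 0 < b.toReal := ENNReal.toReal_pos hb0.ne' hbt
  set κ₂ := q * κ₁ * V / (U.toReal * J) with hκ₂
  have hκ₂0 : 0 < κ₂ := by positivity
  refine ⟨min (b.toReal / (4 * V)) (min (1 / (2 * (1 + q))) (κ₂ / (2 * (1 + q) * (1 + q + κ₂)))),
    κ₂ / 2, by positivity, by positivity, fun K hKc hKk hKs hKM hKv a => ?_⟩
  have hKm : MeasurableSet K := hKk.measurableSet
  set w := 1 - (volume K).toReal / V with hw
  have hvK : (volume K).toReal = (1 - w) * V := by rw [hw]; field_simp; ring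
  have hw0 : 0 ≤ w := by
    rw [hw, sub_nonneg, div_le_one hV0]
    exact ENNReal.toReal_mono hfin (measure_mono hKs)
  have hwε : w ≤ min (b.toReal / (4 * V))
      (min (1 / (2 * (1 + q))) (κ₂ / (2 * (1 + q) * (1 + q + κ₂)))) := by
    rw [hvK] at hKv
    have := le_of_mul_le_mul_right hKv hV0
    linarith
  have hw1 : w ≤ b.toReal / (4 * V) := hwε.trans (min_le_left _ _)
  have hw2 : w ≤ 1 / (2 * (1 + q)) := hwε.trans ((min_le_right _ _).trans (min_le_left _ _))
  have hw3 : w ≤ κ₂ / (2 * (1 + q) * (1 + q + κ₂)) :=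
    hwε.trans ((min_le_right _ _).trans (min_le_right _ _))
  rw [le_div_iff₀ (by positivity)] at hw1 hw2 hw3
  have hKt : volume K ≠ ∞ := hKk.measure_lt_top.ne
  have hDt : volume (cS (m + 1) 1 \ K) ≠ ∞ := ne_top_of_le_ne_top hfin (measure_mono sdiff_subset)
  have hD : (volume (cS (m + 1) 1 \ K)).toReal = w * V := by
    rw [measure_sdiff hKs hKm.nullMeasurableSet hKt,
      ENNReal.toReal_sub_of_le (measure_mono hKs) hfin, hvK, ← hV]; ring
  have hcap : cS (m + 1) (1 - δ) ⊆ K := by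
    refine cap hKc hKm ?_
    rw [← hb, ← ENNReal.toReal_lt_toReal (by finiteness) hbt, ENNReal.toReal_mul, hD]
    simp only [toReal_ofNat]
    linarith
  have h1 := ENNReal.toReal_mono (ENNReal.mul_ne_top hUt (lintegral_Psi_ne_top hp
      (sdiff_subset.trans (cS_mono (le_add_of_nonneg_right (by positivity))))))
    (hdef K hKc hKk.isClosed hcap hKs (klee hKc hKk hKs hKM))
  have hR : cS (m + 1) 1 ⊆ cS (m + 1) (1 + q / 4) := cS_mono (le_add_of_nonneg_right (by positivity))
  rw [ENNReal.toReal_mul, ENNReal.toReal_mul, hD,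
    lintegral_Psi hp ((measurableSet_cS 1).diff hKm) (sdiff_subset.trans hR),
    setIntegral_sdiff hKm (integrableOn_Psi hp hR) hKs, integral_Psi_cS hp,
    ENNReal.toReal_add hFt ENNReal.ofReal_ne_top, ENNReal.toReal_ofReal hκ₁.le] at h1
  have hw4 : 0 < 1 - w := by nlinarith
  have hK0 : volume K ≠ 0 := by
    intro h; rw [h] at hvK
    have : 0 < (1 - w) * V := by positivity
    simp only [toReal_zero] at hvK
    linarith
  refine le_trans ?_ (tangent hp hKm (hKs.trans hR) hK0 a)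
  rw [← ENNReal.ofReal_mul (by positivity)]
  refine ENNReal.ofReal_le_ofReal ?_
  rw [hvK, Real.mul_rpow hw4.le hV0.le, ← hq, ← hJdef]
  set X := J - ∫ x in K, Psi p x with hX
  have h2 : J * (1 + (1 + q + κ₂) * w) ≤ J + q * X := by
    have h3 : κ₂ * (U.toReal * J) = q * κ₁ * V := by rw [hκ₂]; field_simp
    refine le_of_mul_le_mul_left ?_ hU0
    nlinarith [mul_le_mul_of_nonneg_left h1 hq0.le, mul_le_mul_of_nonneg_right hfm hw0]
  have h4 : 1 + (1 + q) * (-w) ≤ (1 - w) ^ (1 + q) := by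
    have := one_add_mul_self_le_rpow_one_add (s := -w) (by linarith) (p := 1 + q) (by linarith)
    rwa [← sub_eq_add_neg 1 w] at this
  have h5 : 1 + κ₂ / 2 * w ≤ (1 + (1 + q) * (-w)) * (1 + (1 + q + κ₂) * w) := by
    nlinarith [mul_le_mul_of_nonneg_right hw3 hw0]
  have h6 : 0 < V ^ (1 + q) := by positivity
  calc (1 + κ₂ / 2 * w) * (V ^ (1 + q) * J)
      ≤ ((1 + (1 + q) * (-w)) * (1 + (1 + q + κ₂) * w)) * (V ^ (1 + q) * J) := by gcongr
    _ ≤ ((1 - w) ^ (1 + q) * (1 + (1 + q + κ₂) * w)) * (V ^ (1 + q) * J) := by gcongr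
    _ = (1 - w) ^ (1 + q) * V ^ (1 + q) * (J * (1 + (1 + q + κ₂) * w)) := by ring
    _ ≤ _ := by gcongr

end Pool.Agent.MP_5f4cdd_gt
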