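import Pool.Agent.MP_5f4cdd_gt.UnifThick

set_option autoImplicit false
open MeasureTheory ENNReal Set Matrix Topology Filter

namespace Pool.Agent.MP_5f4cdd_gt

variable {n m : ℕ}

lemma finish {V J q κ w : ℝ} (hV : 0 < V) (hJ : 0 < J) (hq0 : 0 < q) (hq1 : q ≤ 1) (hκ0 : 0 < κ)
    (hκ1 : κ ≤ 1) (hw0 : 0 ≤ w) (hw : w ≤ κ / 12) :
    (1 + κ / 2 * w) * (V ^ (1 + q) * J) ≤
      ((1 - w) * V) ^ (1 + q) * (J * (1 + (1 + q + κ) * w)) := by
  have hw4 : 0 < 1 - w := by linarith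
  have h4 : 1 + (1 + q) * (-w) ≤ (1 - w) ^ (1 + q) := by
    have := one_add_mul_self_le_rpow_one_add (s := -w) (by linarith) (p := 1 + q) (by linarith)
    rwa [← sub_eq_add_neg 1 w] at this
  have h3 : (1 + q) * (1 + q + κ) ≤ 6 := by nlinarith
  have h5 : 1 + κ / 2 * w ≤ (1 + (1 + q) * (-w)) * (1 + (1 + q + κ) * w) := by
    nlinarith [mul_le_mul_of_nonneg_right hw hw0, mul_le_mul_of_nonneg_right h3 (mul_nonneg hw0 hw0)]
  have h6 : 0 < V ^ (1 + q) := by positivity
  rw [Real.mul_rpow hw4.le hV.le]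
  calc (1 + κ / 2 * w) * (V ^ (1 + q) * J)
      ≤ ((1 + (1 + q) * (-w)) * (1 + (1 + q + κ) * w)) * (V ^ (1 + q) * J) := by gcongr
    _ ≤ ((1 - w) ^ (1 + q) * (1 + (1 + q + κ) * w)) * (V ^ (1 + q) * J) := by gcongr
    _ = _ := by ring

/-- small volume deficit forces the squeezed position -/
lemma near_of_vol (m : ℕ) {δ : ℝ} (hδ0 : 0 < δ) (hδ1 : δ < 1) : ∃ ε : ℝ, 0 < ε ∧
    ∀ K : Set (E (m + 1)), Convex ℝ K → IsCompact K → K ⊆ cS (m + 1) 1 → Maxi K →
      (1 - ε) * (volume (cS (m + 1) 1)).toReal ≤ (volume K).toReal → Near K δ := by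
  have hfin : volume (cS (m + 1) 1) ≠ ∞ := (volume_cS_lt_top zero_le_one).ne
  set V := (volume (cS (m + 1) 1)).toReal with hV
  have hV0 : 0 < V := ENNReal.toReal_pos (volume_cS_pos one_pos).ne' hfin
  set b := volume (Metric.closedBall (0 : E (m + 1)) (δ / ((m + 1 : ℕ) + 1) ^ 2)) with hb
  have hb0 : 0 < b := Metric.measure_closedBall_pos _ _ (by positivity)
  have hbt : b ≠ ∞ := measure_closedBall_lt_top.ne
  have hbr : 0 < b.toReal := ENNReal.toReal_pos hb0.ne' hbt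
  refine ⟨b.toReal / (4 * V), by positivity, fun K hKc hKk hKs hKM hKv =>
    ⟨hKc, hKk.isClosed, hδ1, cap hKc hKk.measurableSet ?_, hKs, klee hKc hKk hKs hKM⟩⟩
  have hDt : volume (cS (m + 1) 1 \ K) ≠ ∞ := ne_top_of_le_ne_top hfin (measure_mono sdiff_subset)
  rw [← hb, ← ENNReal.toReal_lt_toReal (by finiteness) hbt, ENNReal.toReal_mul,
    vol_sdiff_eq hKk.measurableSet hKs, ← hV]
  simp only [toReal_ofNat]
  have h1 : (1 - (volume K).toReal / V) * V = V - (volume K).toReal := by field_simp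
  have h2 : (1 - b.toReal / (4 * V)) * V = V - b.toReal / 4 := by field_simp
  linarith

lemma unif_centred (m : ℕ) : ∃ ε κ : ℝ, 0 < ε ∧ 0 < κ ∧ ∀ᶠ p in atTop,
    ∀ K : Set (E (m + 1)), Convex ℝ K → IsCompact K → K ⊆ cS (m + 1) 1 → Maxi K →
      (1 - ε) * (volume (cS (m + 1) 1)).toReal ≤ (volume K).toReal → ∀ a,
      ENNReal.ofReal (1 + κ * (1 - (volume K).toReal / (volume (cS (m + 1) 1)).toReal)) *
        mahler p (cS (m + 1) 1) ≤ mahler p ((fun z => z - a) '' K) := by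
  obtain ⟨θ, κ₁, hθ, hκ₁, hthin⟩ := thin m
  obtain ⟨δ₀, κ₂, hδ₀, hδ₁, hκ₂, hthick⟩ := thick m hθ
  obtain ⟨ε, hε, hnear⟩ := near_of_vol m (half_pos hδ₀) (by linarith)
  set κ := min 1 (min κ₁ κ₂) with hκ
  have hκ0 : 0 < κ := by positivity
  refine ⟨min ε (κ / 12), κ / 2, by positivity, by positivity, ?_⟩
  filter_upwards [hthin, hthick, eventually_ge_atTop 1, eventually_gt_atTop θ]
    with p h1 h2 hp1 hpθ K hKc hKk hKs hKM hKv a
  have hp : 0 < p := by linarith
  have hfin : volume (cS (m + 1) 1) ≠ ∞ := (volume_cS_lt_top zero_le_one).ne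
  rw [mahler_cS hp]
  set V := (volume (cS (m + 1) 1)).toReal with hV
  have hV0 : 0 < V := ENNReal.toReal_pos (volume_cS_pos one_pos).ne' hfin
  have hJ := Jp_pos (n := m + 1) hp
  have h := hnear K hKc hKk hKs hKM (le_trans (mul_le_mul_of_nonneg_right
    (by linarith [min_le_left ε (κ / 12)]) hV0.le) hKv)
  set w := 1 - (volume K).toReal / V with hw
  have hvK : (volume K).toReal = (1 - w) * V := by rw [hw]; field_simp; ring
  have hw0 : 0 ≤ w := by
    rw [hw, sub_nonneg, div_le_one hV0]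
    exact ENNReal.toReal_mono hfin (measure_mono hKs)
  have hw1 : w ≤ κ / 12 := by
    rw [hvK] at hKv
    linarith [le_of_mul_le_mul_right hKv hV0, min_le_right ε (κ / 12)]
  have key : ∀ k, κ ≤ k → ENNReal.ofReal (1 + κ / 2 * w) *
      ENNReal.ofReal (V ^ (1 + 1 / p) * Jp (m + 1) p) ≤ ENNReal.ofReal
      ((volume K).toReal ^ (1 + 1 / p) * (Jp (m + 1) p * (1 + (1 + 1 / p + k) * w))) := by
    intro k hk
    rw [← ENNReal.ofReal_mul (by positivity)]
    refine ENNReal.ofReal_le_ofReal ((finish hV0 hJ (by positivity) ((div_le_one hp).2 hp1) hκ0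
      (min_le_left _ _) hw0 hw1).trans ?_)
    rw [← hvK]
    gcongr
  by_cases hc : cS (m + 1) (1 - θ / p) ⊆ K
  · exact (key _ ((min_le_right _ _).trans (min_le_left _ _))).trans
      (h1 K ⟨h.conv, h.cl, (div_lt_one hp).2 hpθ, hc, h.outer, h.cen⟩ a)
  set T := {d : ℝ | cS (m + 1) (1 - d) ⊆ K} with hT
  have hT1 : ∀ d ∈ T, θ / p ≤ d := fun d hd => by
    by_contra h'
    exact hc ((cS_mono (by linarith [not_le.1 h'])).trans hd)
  have hT2 : δ₀ / 2 ∈ T := h.inner
  have h3 : θ / p ≤ sInf T := le_csInf ⟨_, hT2⟩ hT1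
  have h4 : sInf T ≤ δ₀ / 2 := csInf_le ⟨_, hT1⟩ hT2
  have h5 : 0 < sInf T := lt_of_lt_of_le (by positivity) h3
  obtain ⟨d, hd, hd'⟩ := exists_lt_of_csInf_lt ⟨_, hT2⟩ (show sInf T < 2 * sInf T by linarith)
  refine (key _ ((min_le_right _ _).trans (min_le_right _ _))).trans (h2 K (2 * sInf T)
    ⟨h.conv, h.cl, by linarith, (cS_mono (by linarith)).trans hd, h.outer, h.cen⟩ (by linarith)
    ?_ (fun h' => ?_) a)
  · rw [div_le_iff₀' hp] at h3
    nlinarith
  · have : sInf T ≤ 2 * sInf T / 4 := csInf_le ⟨_, hT1⟩ h'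
    linarith

/-- reduction to the centred simplex of minimal volume -/
lemma reduce {ε : ℝ} (hε : ε ≤ 1) {K : Set (E n)} (hKc : Convex ℝ K) (hKk : IsCompact K)
    (hKi : (interior K).Nonempty) (e : E n ≃ᵃ[ℝ] E n) (hKe : K ⊆ e '' stdS n)
    (hKv : (1 - ε) * (volume (e '' stdS n)).toReal ≤ (volume K).toReal) :
    ∃ (e' : E n ≃ᵃ[ℝ] E n) (K' : Set (E n)) (B : E n →ₗ[ℝ] E n) (b : E n),
      K ⊆ e' '' stdS n ∧ LinearMap.det B ≠ 0 ∧ (fun z => z - b) '' K' = B '' K ∧
      Convex ℝ K' ∧ IsCompact K' ∧ (interior K').Nonempty ∧ K' ⊆ cS n 1 ∧ Maxi K' ∧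
      (1 - ε) * (volume (cS n 1)).toReal ≤ (volume K').toReal ∧
      (volume K').toReal / (volume (cS n 1)).toReal =
        (volume K).toReal / (volume (e' '' stdS n)).toReal := by
  have hfin : volume (cS n 1) ≠ ∞ := (volume_cS_lt_top zero_le_one).ne
  set V := (volume (cS n 1)).toReal with hV
  have hV0 : 0 < V := ENNReal.toReal_pos (volume_cS_pos one_pos).ne' hfin
  set A := (e.linear : E n →ₗ[ℝ] E n) with hA
  set A' := (e.symm.linear : E n →ₗ[ℝ] E n) with hA'
  have hAA : LinearMap.det A * LinearMap.det A' = 1 := by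
    rw [← LinearMap.det_comp]
    have : A ∘ₗ A' = LinearMap.id := by
      ext1 x; simp [hA, hA']
    rw [this, LinearMap.det_id]
  have hA0 : 0 < |LinearMap.det A| := abs_pos.2 (left_ne_zero_of_mul_eq_one hAA)
  have hA'0 : 0 < |LinearMap.det A'| := abs_pos.2 (right_ne_zero_of_mul_eq_one hAA)
  have h₀ : ∀ x ∈ K, A' x + (e.symm 0 - cen n) ∈ cS n 1 := by
    intro x hx
    obtain ⟨y, hy, rfl⟩ := hKe hx
    have h1 := e.symm.map_vadd 0 (e y)
    simp only [vadd_eq_add, add_zero, AffineEquiv.symm_apply_apply] at h1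
    have h2 : A' (e y) + (e.symm 0 - cen n) = y - cen n := by
      rw [← add_sub_assoc]; congr 1; exact h1.symm
    rw [h2]; exact mem_stdS_iff.1 hy
  obtain ⟨B, b, hB, hmax⟩ := exists_max hKi A' (e.symm 0 - cen n) h₀
  have hle : |LinearMap.det A'| ≤ |LinearMap.det B| := hmax A' (e.symm 0 - cen n) h₀
  have hB0 : 0 < |LinearMap.det B| := hA'0.trans_le hle
  have hBne : LinearMap.det B ≠ 0 := abs_pos.1 hB0
  set K' := (fun z => z - (-b)) '' (B '' K) with hK'
  have hK'mem : ∀ x ∈ K, B x + b ∈ K' := fun x hx => ⟨B x, ⟨x, hx, rfl⟩, by simp⟩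
  have hK'v : (volume K').toReal = |LinearMap.det B| * (volume K).toReal := by
    rw [hK', volume_image_sub, Measure.addHaar_image_linearMap, ENNReal.toReal_mul,
      ENNReal.toReal_ofReal hB0.le]
  have hev : (volume (e '' stdS n)).toReal = |LinearMap.det A| * V := by
    rw [volume_image_affine, volume_stdS, ENNReal.toReal_mul, ENNReal.toReal_ofReal hA0.le]
  have hAA' : |LinearMap.det A| * |LinearMap.det A'| = 1 := by rw [← abs_mul, hAA, abs_one]
  set Be := LinearMap.equivOfDetNeZero B hBne with hBe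
  set e' : E n ≃ᵃ[ℝ] E n :=
    (AffineEquiv.constVAdd ℝ (E n) (-(cen n + b))).trans Be.symm.toAffineEquiv with he'
  have hBe' : ∀ x, Be x = B x := fun x => rfl
  refine ⟨e', K', B, b,
    fun x hx => ⟨B x + b + cen n, mem_stdS_iff.2 (by simpa using hB x hx), ?_⟩, hBne,
    by rw [hK', image_image]; simp, convex_image_sub (hKc.linear_image B) _,
    isCompact_image_sub (hKk.image B.continuous_of_finiteDimensional) _,
    interior_image_sub ?_ _, ?_, ?_, ?_, ?_⟩
  · simp only [he', AffineEquiv.trans_apply, AffineEquiv.constVAdd_apply, vadd_eq_add,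
      LinearEquiv.coe_toAffineEquiv]
    rw [LinearEquiv.symm_apply_eq, hBe']
    abel
  · have := Be.toContinuousLinearEquiv.toHomeomorph.image_interior K
    change B '' interior K = interior (B '' K) at this
    rw [← this]
    exact hKi.image _
  · rintro _ ⟨_, ⟨x, hx, rfl⟩, rfl⟩
    simpa using hB x hx
  · intro T c hT
    have := hmax (T ∘ₗ B) (T b + c) fun x hx => by
      have := hT _ (hK'mem x hx)
      simpa [add_assoc] using this
    rw [LinearMap.det_comp, abs_mul] at this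
    exact le_of_mul_le_mul_right (by simpa using this) hB0
  · rw [hK'v]
    rw [hev] at hKv
    have h1 : 0 ≤ 1 - ε := sub_nonneg.2 hε
    have h3 : 0 ≤ (volume K).toReal := ENNReal.toReal_nonneg
    calc (1 - ε) * V = |LinearMap.det A'| * ((1 - ε) * (|LinearMap.det A| * V)) := by
          linear_combination (-(1 - ε) * V) * hAA'
      _ ≤ |LinearMap.det A'| * (volume K).toReal := by gcongr
      _ ≤ _ := by gcongr
  · have hdet : LinearMap.det (e'.linear : E n →ₗ[ℝ] E n) * LinearMap.det B = 1 := by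
      rw [← LinearMap.det_comp]
      have : (e'.linear : E n →ₗ[ℝ] E n) ∘ₗ B = LinearMap.id := by
        refine LinearMap.ext fun x => ?_
        change Be.symm (B x) = x
        rw [LinearEquiv.symm_apply_eq, hBe']
      rw [this, LinearMap.det_id]
    have habs : |LinearMap.det (e'.linear : E n →ₗ[ℝ] E n)| = |LinearMap.det B|⁻¹ := by
      apply eq_inv_of_mul_eq_one_left
      rw [← abs_mul, hdet, abs_one]
    rw [volume_image_affine, volume_stdS, ENNReal.toReal_mul, ENNReal.toReal_ofReal (abs_nonneg _),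
      habs, ← hV, hK'v]
    field_simp

lemma unif_centred' (n : ℕ) : ∃ ε κ : ℝ, 0 < ε ∧ ε ≤ 1 ∧ 0 < κ ∧ ∀ᶠ p in atTop,
    ∀ K : Set (E n), Convex ℝ K → IsCompact K → (interior K).Nonempty → K ⊆ cS n 1 → Maxi K →
      (1 - ε) * (volume (cS n 1)).toReal ≤ (volume K).toReal → ∀ a,
      ENNReal.ofReal (1 + κ * (1 - (volume K).toReal / (volume (cS n 1)).toReal)) *
        mahler p (cS n 1) ≤ mahler p ((fun z => z - a) '' K) := by
  cases n with
  | zero =>
    refine ⟨1, 1, one_pos, le_rfl, one_pos, Eventually.of_forall fun p K _ _ hKi hKs _ _ a => ?_⟩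
    have h1 : K = univ := by
      obtain ⟨x, hx⟩ := hKi
      exact eq_univ_of_forall fun y => by rw [Subsingleton.elim y x]; exact interior_subset hx
    have h3 : cS 0 1 = univ := univ_subset_iff.1 (h1 ▸ hKs)
    have h4 : (volume (univ : Set (E 0))).toReal ≠ 0 := by
      rw [← h3]
      exact (ENNReal.toReal_pos (volume_cS_pos one_pos).ne'
        (volume_cS_lt_top zero_le_one).ne).ne'
    rw [h3, h1, div_self h4, Subsingleton.elim a 0]
    simp only [sub_zero, image_id']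
    simp
  | succ m =>
    obtain ⟨ε, κ, hε, hκ, h⟩ := unif_centred m
    refine ⟨min ε 1, κ, by positivity, min_le_right _ _, hκ, ?_⟩
    filter_upwards [h] with p hp K hKc hKk _ hKs hKM hKv
    exact hp K hKc hKk hKs hKM (le_trans (mul_le_mul_of_nonneg_right
      (by linarith [min_le_left ε 1]) ENNReal.toReal_nonneg) hKv)

/-- local stability at the simplex, uniformly for all large `p` including `p = ∞` -/
theorem local_unif_both (n : ℕ) : ∃ p₀ ε κ : ℝ, 0 < p₀ ∧ 0 < ε ∧ 0 < κ ∧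
    ∀ K : Set (E n), Convex ℝ K → IsCompact K → (interior K).Nonempty →
      ∀ e : AffineEquiv ℝ (E n) (E n), K ⊆ e '' stdS n →
      (1 - ε) * (volume (e '' stdS n)).toReal ≤ (volume K).toReal →
      ∃ e' : AffineEquiv ℝ (E n) (E n), K ⊆ e' '' stdS n ∧
        (∀ p, p₀ ≤ p →
          ENNReal.ofReal (1 + κ * (1 - (volume K).toReal / (volume (e' '' stdS n)).toReal)) *
            mahler p (cS n 1) ≤ mahler p K) ∧
        ENNReal.ofReal (1 + κ * (1 - (volume K).toReal / (volume (e' '' stdS n)).toReal)) *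
          mahlerInf (cS n 1) ≤ mahlerInf K := by
  obtain ⟨ε, κ, hε, hε1, hκ, h⟩ := unif_centred' n
  obtain ⟨p₀, hp₀⟩ := eventually_atTop.1 h
  refine ⟨max p₀ 1, ε, κ, by positivity, hε, hκ, fun K hKc hKk hKi e hKe hKv => ?_⟩
  obtain ⟨e', K', B, b, h1, hB, h2, hc, hk, hi, hs, hM, hv, he⟩ := reduce hε1 hKc hKk hKi e hKe hKv
  refine ⟨e', h1, fun p hp => ?_, ?_⟩
  · have := hp₀ p ((le_max_left _ _).trans hp) K' hc hk hi hs hM hv b
    rwa [h2, mahler_image_lin p B hB, he] at this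
  · rw [← mahlerInf_image_lin B hB K, ← h2, ← he]
    refine le_mahlerInf' hk hc hi ?_ b
    filter_upwards [h, eventually_gt_atTop 0] with p hp hp0 a
    exact (mul_le_mul_right (mahlerInf_cS_le_mahler hp0) _).trans (hp K' hc hk hi hs hM hv a)

theorem local_unif (n : ℕ) : ∃ p₀ ε κ : ℝ, 0 < p₀ ∧ 0 < ε ∧ 0 < κ ∧ ∀ p, p₀ ≤ p →
    ∀ K : Set (E n), Convex ℝ K → IsCompact K → (interior K).Nonempty →
      ∀ e : AffineEquiv ℝ (E n) (E n), K ⊆ e '' stdS n →
      (1 - ε) * (volume (e '' stdS n)).toReal ≤ (volume K).toReal →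
      ∃ e' : AffineEquiv ℝ (E n) (E n), K ⊆ e' '' stdS n ∧
        ENNReal.ofReal (1 + κ * (1 - (volume K).toReal / (volume (e' '' stdS n)).toReal)) *
          mahler p (cS n 1) ≤ mahler p K := by
  obtain ⟨p₀, ε, κ, h0, hε, hκ, h⟩ := local_unif_both n
  refine ⟨p₀, ε, κ, h0, hε, hκ, fun p hp K hKc hKk hKi e hKe hKv => ?_⟩
  obtain ⟨e', h1, h2, -⟩ := h K hKc hKk hKi e hKe hKv
  exact ⟨e', h1, h2 p hp⟩

theorem local_inf (n : ℕ) : ∃ ε κ : ℝ, 0 < ε ∧ 0 < κ ∧
    ∀ K : Set (E n), Convex ℝ K → IsCompact K → (interior K).Nonempty →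
      ∀ e : AffineEquiv ℝ (E n) (E n), K ⊆ e '' stdS n →
      (1 - ε) * (volume (e '' stdS n)).toReal ≤ (volume K).toReal →
      ∃ e' : AffineEquiv ℝ (E n) (E n), K ⊆ e' '' stdS n ∧
        ENNReal.ofReal (1 + κ * (1 - (volume K).toReal / (volume (e' '' stdS n)).toReal)) *
          mahlerInf (cS n 1) ≤ mahlerInf K := by
  obtain ⟨p₀, ε, κ, -, hε, hκ, h⟩ := local_unif_both n
  refine ⟨ε, κ, hε, hκ, fun K hKc hKk hKi e hKe hKv => ?_⟩
  obtain ⟨e', h1, -, h2⟩ := h K hKc hKk hKi e hKe hKv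
  exact ⟨e', h1, h2⟩

end Pool.Agent.MP_5f4cdd_gt
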