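import Pool.Agent.MP_5f4cdd_gt.UnifConv

set_option autoImplicit false
open MeasureTheory ENNReal Set Matrix Topology Filter

namespace Pool.Agent.MP_5f4cdd_gt

variable {n m : ℕ}

lemma integral_Theta {p : ℝ} (hp : 0 < p) {L : Set (E n)} (hL : L ⊆ cS n 1) :
    IntegrableOn (Theta p) L ∧ ∫ x in L, Theta p x =
      1 / p * (Vs n * (∫ x in L, Psi p x) / Jp n p - (volume L).toReal) := by
  have hR : L ⊆ cS n (1 + 1 / p / 4) := hL.trans (cS_mono (le_add_of_nonneg_right (by positivity)))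
  have hfin : volume L ≠ ∞ :=
    ne_top_of_le_ne_top (volume_cS_lt_top zero_le_one).ne (measure_mono hL)
  have i1 := ((integrableOn_Psi hp hR).const_mul (Vs n)).div_const (Jp n p)
  have i2 : IntegrableOn (fun _ : E n => (1 : ℝ)) L := integrableOn_const hfin
  refine ⟨(i1.sub i2).const_mul _, ?_⟩
  simp only [Theta]
  rw [integral_const_mul, integral_sub i1 i2, integral_div, integral_const_mul, setIntegral_const,
    smul_eq_mul, mul_one, measureReal_def]

lemma tangent' {p : ℝ} (hp : 0 < p) {L : Set (E n)} (hLm : MeasurableSet L)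
    (hL : L ⊆ cS n 1) (h0 : volume L ≠ 0) (a : E n) :
    ENNReal.ofReal (Vs n ^ (1 + 1 / p) * Jp n p *
      (((volume L).toReal + ∫ x in cS n 1 \ L, Theta p x) / Vs n)) ≤
      mahler p ((fun z => z - a) '' L) := by
  have hR : cS n 1 ⊆ cS n (1 + 1 / p / 4) := cS_mono (le_add_of_nonneg_right (by positivity))
  have hfin : volume L ≠ ∞ :=
    ne_top_of_le_ne_top (volume_cS_lt_top zero_le_one).ne (measure_mono hL)
  have hV := Vs_pos (n := n)
  have hJ := Jp_pos (n := n) hp
  rw [(integral_Theta hp sdiff_subset).2, setIntegral_sdiff hLm (integrableOn_Psi hp hR) hL,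
    integral_Psi_cS hp, vol_sdiff_eq hLm hL]
  set v := (volume L).toReal with hv
  have hv0 : 0 < v := ENNReal.toReal_pos h0 hfin
  have i1 := (integrable_wt (n := n) hp).const_mul (1 + 1 / p)
  have i2 := (integrable_Lap_wt hp hLm (hL.trans hR)).const_mul (1 / p * (Vs n / v))
  have i3 := integrable_dot_wt hp a
  have e : Vs n ^ (1 + 1 / p) * Jp n p * ((v + 1 / p * (Vs n * (Jp n p - ∫ x in L, Psi p x) /
      Jp n p - (1 - v / (volume (cS n 1)).toReal) * (volume (cS n 1)).toReal)) / Vs n) =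
      v * ∫ y : E n, Vs n ^ (1 / p) * ((1 + 1 / p) * Zs p y ^ (-(1 / p)) -
        1 / p * (Vs n / v) * (Lap p L y * Zs p y ^ (-(1 / p) - 1))
        + (a ⬝ᵥ y) * Zs p y ^ (-(1 / p))) := by
    rw [integral_const_mul, integral_add (f := fun y => (1 + 1 / p) * Zs p y ^ (-(1 / p)) -
      1 / p * (Vs n / v) * (Lap p L y * Zs p y ^ (-(1 / p) - 1))) (i1.sub i2) i3,
      integral_sub i1 i2, integral_const_mul, integral_const_mul,
      integral_dot_wt hp, integral_Lap_wt hp hLm (hL.trans hR), Real.rpow_add hV, Real.rpow_one]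
    change _ * _ * ((v + 1 / p * (_ - (1 - v / Vs n) * Vs n)) / _) =
      v * (_ * ((1 + 1 / p) * Jp n p - _ + 0))
    field_simp
    ring
  rw [e, mahler_eq, volume_image_sub, ← hv, ENNReal.ofReal_mul hv0.le, hv,
    ENNReal.ofReal_toReal hfin, ← hv]
  gcongr
  refine ofReal_integral_le (((i1.sub i2).add i3).const_mul _) fun y => ?_
  have hl := Lap_pos p y zero_le_one hL h0
  have hZ := Zs_pos p y
  have h1 := tangent_pt (s := a ⬝ᵥ y) hl (mul_pos (div_pos hv0 hV) hZ)
    (show 0 < 1 / p by positivity)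
  have h2 : (Lap p ((fun z => z - a) '' L) y / v) ^ (-(1 / p)) =
      v ^ (1 / p) * (Lap p L y ^ (-(1 / p)) * Real.exp (a ⬝ᵥ y)) := by
    rw [Lap_image_sub, Real.div_rpow (by positivity) hv0.le, Real.mul_rpow hl.le (by positivity),
      ← Real.exp_mul, Real.rpow_neg hv0.le, div_inv_eq_mul, mul_comm]
    congr 3
    field_simp
  rw [h2]
  refine le_trans (le_of_eq ?_) (mul_le_mul_of_nonneg_left h1 (by positivity))
  rw [Real.rpow_sub_one hZ.ne', Real.rpow_sub_one (by positivity),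
    Real.mul_rpow (by positivity) hZ.le, Real.div_rpow hv0.le hV.le, Real.rpow_neg hv0.le,
    Real.rpow_neg hV.le]
  field_simp

lemma good_comp {Φ : E (m + 1) → ℝ} (hm : Measurable Φ) (hc : ConvexOn ℝ (cS (m + 1) 1) Φ)
    (hs : ∀ σ z, Φ (Tp σ z) = Φ z) : Good fun l => Φ (A0 (m + 1) l) := by
  refine ⟨hm.comp (measurable_lin _), ⟨convex_stdSimplex ℝ _, ?_⟩, ?_⟩
  · intro x hx y hy a b ha hb hab
    simp only [map_add, map_smul]
    exact hc.2 (A0_mem hx) (A0_mem hy) ha hb hab
  · intro σ x _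
    rw [A0_perm, hs]

lemma Qf_Tp (σ : Equiv.Perm (Fin (n + 1))) (z : E n) : Qf (Tp σ z) = Qf z := by
  simp only [Qf, bet_Tp_apply]
  exact Equiv.sum_comp σ fun j => bet n z j ^ 2

lemma Qf_nonneg (z : E n) : 0 ≤ Qf z := Finset.sum_nonneg fun _ _ => sq_nonneg _

lemma continuous_Qf : Continuous (Qf (n := n)) :=
  continuous_finsetSum _ fun j _ => ((continuous_apply j).comp continuous_bet).pow 2

lemma Qf_le {z : E n} (hz : z ∈ cS n 1) : Qf z ≤ n + 1 := by
  refine (Finset.sum_le_sum fun j _ => (sq_le_one_iff_abs_le_one _).2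
    (abs_bet_le zero_le_one hz j)).trans (le_of_eq ?_)
  simp

lemma nice_Qf : Nice m 2 fun z => Qf z + 1 := by
  refine ⟨one_lt_two, (continuous_Qf.add continuous_const).measurable,
    (continuous_Qf.add continuous_const).continuousOn, fun z _ => by linarith [Qf_nonneg z],
    fun σ z => by rw [Qf_Tp], convex_cS 1, fun x _ z _ hne a b ha hb hab => ?_⟩
  have h1 : 0 < Qf (x - z) := by
    refine (Qf_nonneg _).lt_of_ne fun h => hne (sub_eq_zero.1 (bet_injective ?_))
    ext j
    have := (Finset.sum_eq_zero_iff_of_nonneg fun _ _ => sq_nonneg _).1 h.symm j (Finset.mem_univ j)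
    simpa using this
  simp only [smul_eq_mul, Qf_combo x z hab]
  nlinarith [mul_pos (mul_pos ha hb) h1]

lemma measurable_Theta (p : ℝ) : Measurable (Theta (n := n) p) :=
  ((((measurable_Psi p).const_mul _).div_const _).sub_const _).const_mul _

lemma Theta_Tp (p : ℝ) (σ : Equiv.Perm (Fin (n + 1))) (z : E n) :
    Theta p (Tp σ z) = Theta p z := by simp only [Theta, Psi_Tp]

lemma facet_Theta {p B : ℝ} (hp : 0 < p) (hB : 2 * 2 ^ (m + 1) ≤ B) :
    ENNReal.ofReal (1 + B) * mu m univ ≤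
      ∫⁻ l, ENNReal.ofReal (Theta p (A0 (m + 1) l) + B) ∂mu m := by
  have hN := nice_Psi (m := m) hp
  have hR : cS (m + 1) 1 ⊆ cS (m + 1) (1 + 1 / p / 4) :=
    cS_mono (le_add_of_nonneg_right (by positivity))
  have h0 : 0 ≤ᵐ[mu m] fun l => Psi p (A0 (m + 1) l) := by
    filter_upwards [ae_mu] with l hl using (Psi_pos hp (hR (A0_mem hl))).le
  have i0 := (lintegral_ofReal_ne_top_iff_integrable hN.good.meas.aestronglyMeasurable h0).1
    hN.F_ne_top
  have i1 := (i0.const_mul (Vs (m + 1))).div_const (Jp (m + 1) p)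
  have i2 := (i1.sub (integrable_const (1 : ℝ))).const_mul (1 / p)
  have h1 := facet_mean (m := m) hp
  rw [← integral_eq_lintegral_of_nonneg_ae h0 hN.good.meas.aestronglyMeasurable] at h1
  have hB0 : 0 ≤ B := le_trans (by positivity) hB
  rw [← ofReal_integral_eq_lintegral_ofReal (f := fun l => Theta p (A0 (m + 1) l) + B)
    (i2.add (integrable_const B))
    (by
      filter_upwards [ae_mu] with l hl
      have := le_Theta hp (hR (A0_mem hl))
      simp only [Pi.zero_apply]
      linarith),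
    ← ENNReal.ofReal_toReal (measure_ne_top (mu m) univ), ← ENNReal.ofReal_mul (by linarith)]
  refine ENNReal.ofReal_le_ofReal ?_
  simp only [Theta]
  rw [integral_add (f := fun l => 1 / p * (Vs (m + 1) * Psi p (A0 (m + 1) l) / Jp (m + 1) p - 1))
    i2 (integrable_const B), integral_const_mul, integral_sub i1 (integrable_const _),
    integral_div, integral_const_mul, integral_const, integral_const, measureReal_def]
  have hJ := Jp_pos (n := m + 1) hp
  have h2 : (1 + 1 / p) * (mu m univ).toReal ≤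
      1 / p * (Vs (m + 1) * (∫ l, Psi p (A0 (m + 1) l) ∂mu m) / Jp (m + 1) p) := by
    rw [← mul_div_assoc, le_div_iff₀ hJ]
    unfold Vs
    linarith
  simp only [smul_eq_mul]
  linarith

lemma small_deficit (m : ℕ) {P : ℝ} (hP : 1 ≤ P) : ∃ δ κ : ℝ, 0 < δ ∧ δ < 1 ∧ 0 < κ ∧
    ∀ p, 0 < p → p ≤ P → ∀ K : Set (E (m + 1)), Near K δ →
      (1 + κ) * (volume (cS (m + 1) 1 \ K)).toReal ≤ ∫ x in cS (m + 1) 1 \ K, Theta p x := by
  have hP0 : 0 < P := by linarith
  obtain ⟨c, hc, hconv⟩ := strong_convex m hP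
  obtain ⟨C, hC, hup⟩ := Theta_le (m + 1) hP
  have hQ := nice_Qf (m := m)
  obtain ⟨κ₀, hκ₀, hcorr⟩ := strict_corr m _ hQ.good
    ⟨_, fun x hx => add_le_add_left (Qf_le (A0_mem hx)) 1⟩
    (fun x hx => hQ.pos _ (cS_mono one_le_two (A0_mem hx))) (fun x hx hne => hQ.strict hx hne)
  set U := mu m univ with hU
  have hUt : U ≠ ∞ := measure_ne_top _ _
  have hU0 : 0 < U.toReal := ENNReal.toReal_pos mu_univ_pos.ne' hUt
  set B₁ : ℝ := 2 * 2 ^ (m + 1) + c * (((m + 1 : ℕ) : ℝ) + 1) with hB₁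
  set B : ℝ := B₁ + c with hB
  set L : ℝ := (C + 2 * 2 ^ (m + 1)) * (4 * P) / c with hL
  have hL0 : 0 < L := by positivity
  set κ := c * κ₀ / U.toReal / 2 with hκ
  have hκ0 : 0 < κ := by positivity
  have e1 : ∀ᶠ δ in 𝓝[>] (0 : ℝ),
      1 + B + κ < (1 - δ * L) * (1 - δ) ^ (m + 1) * (1 + B + 2 * κ) := by
    refine nhdsWithin_le_nhds ?_
    have : ContinuousAt (fun δ : ℝ => (1 - δ * L) * (1 - δ) ^ (m + 1) * (1 + B + 2 * κ)) 0 := by
      fun_prop
    exact this.eventually (lt_mem_nhds (by simp; linarith))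
  have e2 : ∀ᶠ δ in 𝓝[>] (0 : ℝ), δ * L < 1 := by
    refine nhdsWithin_le_nhds ?_
    have : ContinuousAt (fun δ : ℝ => δ * L) 0 := by fun_prop
    exact this.eventually (gt_mem_nhds (by simp))
  obtain ⟨δ, ⟨hδ, hδL⟩, hδ0, hδ1⟩ := ((e1.and e2).and (Ioo_mem_nhdsGT one_pos)).exists
  refine ⟨δ, κ, hδ0, hδ1, hκ0, fun p hp hpP K h => ?_⟩
  have hq : 1 / P ≤ 1 / p := one_div_le_one_div_of_le hp hpP
  have hR : cS (m + 1) 1 ⊆ cS (m + 1) (1 + 1 / p / 4) :=
    cS_mono (le_add_of_nonneg_right (by positivity))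
  have hcN : 0 ≤ c * (((m + 1 : ℕ) : ℝ) + 1) := by positivity
  have hlow : ∀ z ∈ cS (m + 1) 1, c ≤ Theta p z + B := fun z hz => by
    linarith [le_Theta hp (hR hz)]
  have hi := h.int_ge (Φ := fun z => Theta p z + B) ((measurable_Theta p).add_const _)
    (fun σ z => by rw [Theta_Tp]) (τ := 1 - δ * L) (by linarith) fun z hz s hs hs1 => by
      have hs0 : 0 < s := by linarith
      have hr : (0 : ℝ) < 1 / P / 4 := by positivity
      have hd : (0 : ℝ) < 1 + 1 / P / 4 - s := by linarith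
      have hsz : s • z ∈ cS (m + 1) 1 := cS_mono (by linarith) ((smul_mem_cS hs0).2 hz)
      have hrz : (1 + 1 / P / 4 : ℝ) • z ∈ cS (m + 1) (1 + 1 / P / 4) := by
        have := (smul_mem_cS (show (0 : ℝ) < 1 + 1 / P / 4 by linarith)).2 hz
        rwa [mul_one] at this
      have h1 := (convexOn_Theta hp).2 (hR hsz) (cS_mono (by linarith) hrz)
        (show 0 ≤ 1 - (1 - s) / (1 + 1 / P / 4 - s) by rw [sub_nonneg, div_le_one hd]; linarith)
        (show 0 ≤ (1 - s) / (1 + 1 / P / 4 - s) from div_nonneg (by linarith) hd.le) (by ring)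
      have h2 : (1 - (1 - s) / (1 + 1 / P / 4 - s)) * s +
          (1 - s) / (1 + 1 / P / 4 - s) * (1 + 1 / P / 4) = 1 := by
        have : (1 - s) / (1 + 1 / P / 4 - s) * (1 + 1 / P / 4 - s) = 1 - s :=
          div_mul_cancel₀ _ hd.ne'
        linarith
      rw [smul_smul, smul_smul, ← add_smul, h2, one_smul, smul_eq_mul, smul_eq_mul] at h1
      have h3 : (1 - s) / (1 + 1 / P / 4 - s) ≤ δ * (4 * P) := by
        rw [div_le_iff₀ hd]
        have : δ * (4 * P) * (1 / P / 4) = δ := by field_simp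
        nlinarith [mul_nonneg (show 0 ≤ δ * (4 * P) by positivity) (sub_nonneg.2 hs1)]
      have h4 := hup p hp hpP _ hrz
      have h5 := le_Theta hp (hR hsz)
      have h6 : 0 ≤ (1 - s) / (1 + 1 / P / 4 - s) := div_nonneg (by linarith) hd.le
      have h7 : δ * L * c = δ * (4 * P) * (C + 2 * 2 ^ (m + 1)) := by rw [hL]; field_simp
      nlinarith [mul_le_mul_of_nonneg_left h4 h6, mul_le_mul_of_nonneg_left h5 h6,
        mul_le_mul_of_nonneg_right h3 (show 0 ≤ C + 2 * 2 ^ (m + 1) by positivity),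
        mul_le_mul_of_nonneg_left (hlow z hz) (show 0 ≤ δ * L by positivity)]
  have hg1 : Good fun l => Theta p (A0 (m + 1) l) - c * Qf (A0 (m + 1) l) + B₁ :=
    good_comp (Φ := fun z => Theta p z - c * Qf z + B₁)
      (((measurable_Theta p).sub (continuous_Qf.measurable.const_mul c)).add_const _)
      ((hconv p hp hpP).add_const B₁) fun σ z => by rw [Theta_Tp, Qf_Tp]
  have hsplit : ∀ᵐ l ∂mu m, ENNReal.ofReal (Theta p (A0 (m + 1) l) + B) =
      ENNReal.ofReal (Theta p (A0 (m + 1) l) - c * Qf (A0 (m + 1) l) + B₁) +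
        ENNReal.ofReal c * ENNReal.ofReal (Qf (A0 (m + 1) l) + 1) := by
    filter_upwards [ae_mu] with l hl
    rw [← ENNReal.ofReal_mul hc.le, ← ENNReal.ofReal_add
      (by linarith [le_Theta hp (hR (A0_mem hl)),
        mul_le_mul_of_nonneg_left (Qf_le (A0_mem hl)) hc.le])
      (mul_nonneg hc.le (by linarith [Qf_nonneg (A0 (m + 1) l)]))]
    congr 1; ring
  have m1 := hg1.meas.ennreal_ofReal
  have m2 := hQ.good.meas.ennreal_ofReal
  have key : ∀ j, (ENNReal.ofReal (1 + B) * U + ENNReal.ofReal c * ENNReal.ofReal κ₀) *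
      ∫⁻ l, ENNReal.ofReal (gj K j l - 1) ∂mu m ≤ U * ∫⁻ l,
        ENNReal.ofReal (Theta p (A0 (m + 1) l) + B) * ENNReal.ofReal (gj K j l - 1) ∂mu m := by
    intro j
    have hgc := (h.convexOn j).subset (subset_univ _) (convex_stdSimplex ℝ _)
    have hg0 : ∀ x ∈ stdSimplex ℝ (Fin (m + 1)), 0 ≤ gj K j x - 1 :=
      fun x hx => sub_nonneg.2 (h.one_le j hx)
    have mg := (h.measurable j).ennreal_ofReal
    have c1 := hcorr _ (h.measurable j) hgc hg0 (h.gj_uu j)
    have c2 := corr m _ _ hg1 (good_symz (h.measurable j) hgc)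
    have s1 := lintegral_symz (f := fun _ => 1) measurable_const (fun _ _ _ => rfl)
      (h.measurable j) hg0
    have s2 := lintegral_symz m1 (fun σ x hx => by rw [hg1.symm σ x hx]) (h.measurable j) hg0
    simp only [one_mul] at s1
    rw [s1, s2, mul_left_comm, mul_left_comm (mu m univ),
      ENNReal.mul_le_mul_iff_right (by simp [Fintype.card_ne_zero]) (by simp)] at c2
    have c3 := facet_Theta (m := m) hp (B := B) (by linarith)
    rw [lintegral_congr_ae hsplit, lintegral_add_left m1,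
      lintegral_const_mul' _ _ ENNReal.ofReal_ne_top] at c3
    rw [lintegral_congr_ae (f := fun l =>
      ENNReal.ofReal (Theta p (A0 (m + 1) l) + B) * ENNReal.ofReal (gj K j l - 1)) (g := fun l =>
      ENNReal.ofReal (Theta p (A0 (m + 1) l) - c * Qf (A0 (m + 1) l) + B₁) *
        ENNReal.ofReal (gj K j l - 1) + ENNReal.ofReal c *
        (ENNReal.ofReal (Qf (A0 (m + 1) l) + 1) * ENNReal.ofReal (gj K j l - 1)))
      (by filter_upwards [hsplit] with l hl; rw [hl]; ring),
      lintegral_add_left (f := fun l =>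
        ENNReal.ofReal (Theta p (A0 (m + 1) l) - c * Qf (A0 (m + 1) l) + B₁) *
          ENNReal.ofReal (gj K j l - 1)) (m1.mul mg),
      lintegral_const_mul' _ _ ENNReal.ofReal_ne_top, mul_add,
      mul_left_comm U]
    refine le_trans ?_ (add_le_add c2 (mul_le_mul_right c1 _))
    refine (mul_le_mul_left (add_le_add_left c3 _) _).trans (le_of_eq ?_)
    ring
  have h1 : ENNReal.ofReal ((1 - δ * L) * (1 - δ) ^ (m + 1)) *
      ((ENNReal.ofReal (1 + B) * U + ENNReal.ofReal c * ENNReal.ofReal κ₀) *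
        volume (cS (m + 1) 1 \ K)) ≤
      U * ∫⁻ z in cS (m + 1) 1 \ K, ENNReal.ofReal (Theta p z + B) := by
    refine le_trans ?_ (mul_le_mul_right hi _)
    rw [mul_left_comm U]
    refine mul_le_mul_right ((mul_le_mul_right h.vol_le _).trans ?_) _
    rw [Finset.mul_sum, Finset.mul_sum]
    refine Finset.sum_le_sum fun j _ => ?_
    rw [mul_left_comm, mul_left_comm U]
    exact mul_le_mul_right (key j) _
  have hDt : volume (cS (m + 1) 1 \ K) ≠ ∞ :=
    ne_top_of_le_ne_top (volume_cS_lt_top zero_le_one).ne (measure_mono sdiff_subset)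
  have iT := (integral_Theta hp (L := cS (m + 1) 1 \ K) sdiff_subset).1
  have iB : IntegrableOn (fun _ : E (m + 1) => B) (cS (m + 1) 1 \ K) := integrableOn_const hDt
  have h0 : 0 ≤ᵐ[volume.restrict (cS (m + 1) 1 \ K)] fun z => Theta p z + B := by
    filter_upwards [ae_restrict_mem h.meas] with z hz using hc.le.trans (hlow z hz.1)
  rw [← ofReal_integral_eq_lintegral_ofReal (f := fun z => Theta p z + B) (iT.add iB) h0] at h1
  have hB0 : 0 ≤ 1 + B := by positivity
  have hτ : 0 ≤ (1 - δ * L) * (1 - δ) ^ (m + 1) :=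
    mul_nonneg (by linarith) (pow_nonneg (by linarith) _)
  have h2 := ENNReal.toReal_mono (ENNReal.mul_ne_top hUt ENNReal.ofReal_ne_top) h1
  rw [ENNReal.toReal_mul, ENNReal.toReal_mul, ENNReal.toReal_mul,
    ENNReal.toReal_add (by finiteness) (by finiteness), ENNReal.toReal_mul, ENNReal.toReal_mul,
    ENNReal.toReal_ofReal hτ, ENNReal.toReal_ofReal hB0, ENNReal.toReal_ofReal hc.le,
    ENNReal.toReal_ofReal hκ₀.le, ENNReal.toReal_ofReal (integral_nonneg_of_ae h0),
    integral_add iT iB, setIntegral_const, smul_eq_mul, measureReal_def] at h2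
  have h3 : c * κ₀ = 2 * κ * U.toReal := by rw [hκ]; field_simp
  rw [h3] at h2
  refine le_of_mul_le_mul_left ?_ hU0
  nlinarith [mul_le_mul_of_nonneg_right hδ.le
    (mul_nonneg hU0.le (ENNReal.toReal_nonneg (a := volume (cS (m + 1) 1 \ K))))]

lemma all_centred (n : ℕ) : ∃ ε κ : ℝ, 0 < ε ∧ ε ≤ 1 ∧ 0 < κ ∧ ∀ p, 0 < p →
    ∀ K : Set (E n), Convex ℝ K → IsCompact K → (interior K).Nonempty → K ⊆ cS n 1 → Maxi K →
      (1 - ε) * (volume (cS n 1)).toReal ≤ (volume K).toReal → ∀ a,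
      ENNReal.ofReal (1 + κ * (1 - (volume K).toReal / (volume (cS n 1)).toReal)) *
        mahler p (cS n 1) ≤ mahler p ((fun z => z - a) '' K) := by
  cases n with
  | zero =>
    refine ⟨1, 1, one_pos, le_rfl, one_pos, fun p _ K _ _ hKi hKs _ _ a => ?_⟩
    have h1 : K = univ := by
      obtain ⟨x, hx⟩ := hKi
      exact eq_univ_of_forall fun y => by rw [Subsingleton.elim y x]; exact interior_subset hx
    have h3 : cS 0 1 = univ := univ_subset_iff.1 (h1 ▸ hKs)
    have h4 : (volume (univ : Set (E 0))).toReal ≠ 0 := by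
      rw [← h3]
      exact (ENNReal.toReal_pos (volume_cS_pos one_pos).ne'
        (volume_cS_lt_top zero_le_one).ne).ne'
    rw [h3, h1, div_self h4, Subsingleton.elim a 0]
    simp only [sub_zero, image_id']
    simp
  | succ m =>
    obtain ⟨ε₁, κ₁, hε₁, hκ₁, h₁⟩ := unif_centred m
    obtain ⟨P, hP⟩ := eventually_atTop.1 h₁
    obtain ⟨δ, κ₂, hδ0, hδ1, hκ₂, h₂⟩ := small_deficit m (le_max_right P 1)
    obtain ⟨ε₂, hε₂, hnear⟩ := near_of_vol m hδ0 hδ1
    refine ⟨min 1 (min ε₁ ε₂), min κ₁ κ₂, by positivity, min_le_left _ _, by positivity,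
      fun p hp K hKc hKk _ hKs hKM hKv a => ?_⟩
    have hV := Vs_pos (n := m + 1)
    have hw0 : 0 ≤ 1 - (volume K).toReal / (volume (cS (m + 1) 1)).toReal :=
      sub_nonneg.2 ((div_le_one hV).2
        (ENNReal.toReal_mono (volume_cS_lt_top zero_le_one).ne (measure_mono hKs)))
    have e1 := (min_le_right 1 _).trans (min_le_left ε₁ ε₂)
    have e2 := (min_le_right 1 _).trans (min_le_right ε₁ ε₂)
    rcases le_total p (max P 1) with h | h
    · have hN := hnear K hKc hKk hKs hKM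
        (le_trans (mul_le_mul_of_nonneg_right (by linarith) ENNReal.toReal_nonneg) hKv)
      have h3 := h₂ p hp h K hN
      rw [vol_sdiff_eq hKk.measurableSet hKs] at h3
      refine le_trans ?_ (tangent' hp hKk.measurableSet hKs hN.vol_ne_zero a)
      rw [mahler_cS hp, ← ENNReal.ofReal_mul (by positivity), mul_comm]
      have hJ := Jp_pos (n := m + 1) hp
      refine ENNReal.ofReal_le_ofReal (mul_le_mul_of_nonneg_left ?_ (by positivity))
      rw [le_div_iff₀ hV]
      have h4 : (volume K).toReal / (volume (cS (m + 1) 1)).toReal * Vs (m + 1) =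
          (volume K).toReal := div_mul_cancel₀ _ hV.ne'
      have h5 := mul_le_mul_of_nonneg_right (mul_le_mul_of_nonneg_right (min_le_right κ₁ κ₂) hw0)
        hV.le
      unfold Vs at *
      nlinarith
    · refine le_trans (mul_le_mul_left (ENNReal.ofReal_le_ofReal ?_) _)
        (hP p ((le_max_left _ _).trans h) K hKc hKk hKs hKM
          (le_trans (mul_le_mul_of_nonneg_right (by linarith) ENNReal.toReal_nonneg) hKv) a)
      linarith [mul_le_mul_of_nonneg_right (min_le_left κ₁ κ₂) hw0]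

/-- local stability at the simplex, uniformly for all `p` including `p = ∞` -/
theorem local_all (n : ℕ) : ∃ ε κ : ℝ, 0 < ε ∧ 0 < κ ∧
    ∀ K : Set (Fin n → ℝ), Convex ℝ K → IsCompact K → (interior K).Nonempty →
      ∀ e : AffineEquiv ℝ (Fin n → ℝ) (Fin n → ℝ), K ⊆ e '' stdS n →
      (1 - ε) * (volume (e '' stdS n)).toReal ≤ (volume K).toReal →
      ∃ e' : AffineEquiv ℝ (Fin n → ℝ) (Fin n → ℝ), K ⊆ e' '' stdS n ∧
        (∀ p : ℝ, 0 < p →
          ENNReal.ofReal (1 + κ * (1 - (volume K).toReal / (volume (e' '' stdS n)).toReal)) *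
            (⨅ x ∈ stdS n, mahler p ((fun z => z - x) '' stdS n)) ≤ mahler p K) ∧
        ENNReal.ofReal (1 + κ * (1 - (volume K).toReal / (volume (e' '' stdS n)).toReal)) *
          (⨅ x ∈ stdS n, mahlerInf ((fun z => z - x) '' stdS n)) ≤ mahlerInf K := by
  obtain ⟨ε, κ, hε, hε1, hκ, h⟩ := all_centred n
  refine ⟨ε, κ, hε, hκ, fun K hKc hKk hKi e hKe hKv => ?_⟩
  obtain ⟨e', K', B, b, h1, hB, h2, hc, hk, hi, hs, hM, hv, he⟩ := reduce hε1 hKc hKk hKi e hKe hKv
  refine ⟨e', h1, fun p hp => ?_, ?_⟩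
  · have := h p hp K' hc hk hi hs hM hv b
    rwa [h2, mahler_image_lin p B hB, he, ← iInf_eq hp] at this
  · rw [iInfInf_eq, ← mahlerInf_image_lin B hB K, ← h2, ← he]
    refine le_mahlerInf' hk hc hi ?_ b
    filter_upwards [eventually_gt_atTop 0] with p hp a
    exact (mul_le_mul_right (mahlerInf_cS_le_mahler hp) _).trans (h p hp K' hc hk hi hs hM hv a)

end Pool.Agent.MP_5f4cdd_gt
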