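import Pool.Agent.MP_5f4cdd_gt.Local

set_option autoImplicit false
open MeasureTheory ENNReal Set Matrix Topology Filter

namespace Pool.Agent.MP_5f4cdd_gt

variable {n : ℕ}

/-- barycentric coordinates with respect to the centred simplex -/
noncomputable def lam (x : E n) (j : Fin (n + 1)) : ℝ := bet n x j + 1 / (n + 1)

/-- vertices of the centred simplex -/
noncomputable def vtx (n : ℕ) (j : Fin (n + 1)) : E n :=
  fun i => (Pi.single j 1 : E (n + 1)) i.succ - 1 / (n + 1)

/-- values of the functional `y` at the vertices -/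
noncomputable def eta (y : E n) (j : Fin (n + 1)) : ℝ := vtx n j ⬝ᵥ y

lemma sum_lam (x : E n) : ∑ j, lam x j = 1 := by
  simp only [lam, Finset.sum_add_distrib, sum_bet, Finset.sum_const, Finset.card_univ,
    Fintype.card_fin, nsmul_eq_mul]
  push_cast; field_simp; simp

lemma mem_cS_lam {r : ℝ} {x : E n} : x ∈ cS n r ↔ ∀ j, (1 - r) / (n + 1) ≤ lam x j := by
  refine forall_congr' fun j => ?_
  rw [lam, sub_div]
  constructor <;> intro h <;> linarith

lemma mem_cS_one {x : E n} : x ∈ cS n 1 ↔ ∀ j, 0 ≤ lam x j := by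
  rw [mem_cS_lam]; simp

lemma bet_vtx (j k : Fin (n + 1)) :
    bet n (vtx n j) k = (Pi.single j 1 : E (n + 1)) k - 1 / (n + 1) := by
  have : ∑ k, ((Pi.single j 1 : E (n + 1)) - fun _ => 1 / ((n : ℝ) + 1) : E (n + 1)) k = 0 := by
    simp only [Pi.sub_apply, Finset.sum_sub_distrib, Finset.sum_pi_single', Finset.mem_univ,
      if_true, Finset.sum_const, Finset.card_univ, Fintype.card_fin, nsmul_eq_mul]
    push_cast; field_simp; simp
  exact congrFun (bet_tail this) k

lemma lam_vtx (j k : Fin (n + 1)) : lam (vtx n j) k = (Pi.single j 1 : E (n + 1)) k := by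
  rw [lam, bet_vtx]; ring

lemma vtx_mem (j : Fin (n + 1)) : vtx n j ∈ cS n 1 :=
  mem_cS_one.2 fun k => by
    rw [lam_vtx, Pi.single_apply]; split_ifs <;> norm_num

lemma sum_lam_vtx (x : E n) : ∑ j, lam x j • vtx n j = x := by
  ext i
  simp only [Finset.sum_apply, Pi.smul_apply, vtx, smul_eq_mul, mul_sub, Finset.sum_sub_distrib,
    ← Finset.sum_mul, sum_lam, Pi.single_apply, mul_ite, mul_one, mul_zero,
    Finset.sum_ite_eq, Finset.mem_univ, if_true]
  simp [lam]

lemma lin_eq_sum (f : E n →ₗ[ℝ] ℝ) (x : E n) : f x = ∑ j, lam x j * f (vtx n j) := by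
  conv_lhs => rw [← sum_lam_vtx x, map_sum]
  simp

lemma dot_eq_sum (x y : E n) : x ⬝ᵥ y = ∑ j, lam x j * eta y j := by
  conv_lhs => rw [← sum_lam_vtx x, sum_dotProduct]
  simp [eta]

lemma eta_sub_dot (x y : E n) (j : Fin (n + 1)) :
    eta y j - x ⬝ᵥ y = ∑ i, lam x i * (eta y j - eta y i) := by
  simp only [mul_sub, Finset.sum_sub_distrib, ← Finset.sum_mul, sum_lam, one_mul, dot_eq_sum]

lemma lam_add (x u : E n) (j : Fin (n + 1)) : lam (x + u) j = lam x j + bet n u j := by
  simp only [lam, map_add, Pi.add_apply]; ring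

lemma lam_homo (x z : E n) (c : ℝ) (j : Fin (n + 1)) :
    lam (x + c • (z - x)) j = (1 - c) * lam x j + c * lam z j := by
  simp only [lam, map_add, map_smul, map_sub, Pi.add_apply, Pi.smul_apply, Pi.sub_apply,
    smul_eq_mul]
  ring

lemma lam_smul (x : E n) (c : ℝ) (j : Fin (n + 1)) :
    lam (c • x) j = c * lam x j + (1 - c) / (n + 1) := by
  simp only [lam, map_smul, Pi.smul_apply, smul_eq_mul]; ring

lemma lam_le {x : E n} (hx : x ∈ cS n 1) {j k : Fin (n + 1)} (h : k ≠ j) :
    lam x k ≤ 1 - lam x j := by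
  have h1 := sum_lam x
  rw [← Finset.add_sum_erase _ _ (Finset.mem_univ j)] at h1
  have h2 : lam x k ≤ ∑ i ∈ Finset.univ.erase j, lam x i :=
    Finset.single_le_sum (f := lam x) (fun i _ => mem_cS_one.1 hx i) (by simp [h])
  linarith

lemma lam_le_one {x : E n} (hx : x ∈ cS n 1) (j : Fin (n + 1)) : lam x j ≤ 1 := by
  rw [← sum_lam x]
  exact Finset.single_le_sum (f := lam x) (fun i _ => mem_cS_one.1 hx i) (Finset.mem_univ j)

lemma continuous_lam (j : Fin (n + 1)) : Continuous fun x : E n => lam x j :=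
  ((continuous_apply j).comp continuous_bet).add continuous_const

lemma continuous_eta (j : Fin (n + 1)) : Continuous fun y : E n => eta y j := by
  unfold eta dotProduct; fun_prop

lemma Tp_vtx (σ : Equiv.Perm (Fin (n + 1))) (j : Fin (n + 1)) :
    Tp σ (vtx n (σ j)) = vtx n j := by
  apply bet_injective
  ext k
  rw [bet_Tp_apply, bet_vtx, bet_vtx]
  simp [Pi.single_apply]

lemma eta_adj (σ : Equiv.Perm (Fin (n + 1))) (y : E n) (j : Fin (n + 1)) :
    eta (adj (Tp σ) y) (σ j) = eta y j := by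
  rw [eta, ← dot_adj, Tp_vtx, eta]

lemma eta_zero (y : E n) : eta y 0 = -(∑ i, y i) / (n + 1) := by
  simp only [eta, vtx, dotProduct, Pi.single_apply, Fin.succ_ne_zero, if_false, zero_sub]
  rw [← Finset.mul_sum]; ring

lemma eta_zero_sub (y : E n) (i : Fin n) : eta y 0 - eta y i.succ = -y i := by
  rw [eta, eta, ← sub_dotProduct]
  have : vtx n 0 - vtx n i.succ = -Pi.single i 1 := by
    ext k; simp [vtx, Pi.single_apply]; ring
  rw [this]; simp

/-- corner of the simplex at the vertex `j` -/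
def corner (n : ℕ) (j : Fin (n + 1)) (δ : ℝ) : Set (E n) := {x | x ∈ cS n 1 ∧ 1 - δ ≤ lam x j}

lemma isClosed_corner (j : Fin (n + 1)) (δ : ℝ) : IsClosed (corner n j δ) :=
  (isClosed_cS 1).inter (isClosed_le continuous_const (continuous_lam j))

lemma measurableSet_corner (j : Fin (n + 1)) (δ : ℝ) : MeasurableSet (corner n j δ) :=
  (isClosed_corner j δ).measurableSet

lemma corner_subset (j : Fin (n + 1)) (δ : ℝ) : corner n j δ ⊆ cS n 1 := fun _ h => h.1

/-- if a deep point of the simplex is missing from `K`, a whole corner is missing -/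
lemma corner_missing {K : Set (E n)} (hK : Convex ℝ K) (hcl : IsClosed K) {d : ℝ} {x : E n}
    (hx : x ∈ cS n (1 - d)) (hxK : x ∉ K) :
    ∃ j, ∀ z ∈ corner n j (d / (n + 1)), z ∉ K := by
  obtain ⟨f, u, hf, hu⟩ := geometric_hahn_banach_closed_point hK hcl hxK
  obtain ⟨j, -, hj⟩ := Finset.exists_max_image Finset.univ (fun j => f (vtx n j))
    Finset.univ_nonempty
  refine ⟨j, fun z hz hzK => ?_⟩
  have h1 := hf z hzK
  have key : ∀ w : E n, f (vtx n j) - f w = ∑ i, lam w i * (f (vtx n j) - f (vtx n i)) := by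
    intro w
    have := lin_eq_sum (f : E n →ₗ[ℝ] ℝ) w
    simp only [ContinuousLinearMap.coe_coe] at this
    simp only [mul_sub, Finset.sum_sub_distrib, ← Finset.sum_mul, sum_lam, one_mul, ← this]
  have h2 : ∑ i, lam z i * (f (vtx n j) - f (vtx n i)) ≤
      ∑ i, lam x i * (f (vtx n j) - f (vtx n i)) := by
    refine Finset.sum_le_sum fun i _ => ?_
    by_cases hi : i = j
    · simp [hi]
    · refine mul_le_mul_of_nonneg_right ?_ (sub_nonneg.2 (hj i (Finset.mem_univ i)))
      have h3 := lam_le hz.1 hi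
      have h4 := mem_cS_lam.1 hx i
      have h5 := hz.2
      rw [_root_.sub_sub_cancel] at h4
      linarith
  rw [← key, ← key] at h2
  linarith

end Pool.Agent.MP_5f4cdd_gt
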