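import Pool.Agent.MP_5f4cdd_gt.UnifTheta

set_option autoImplicit false
open MeasureTheory ENNReal Set Matrix Topology Filter

namespace Pool.Agent.MP_5f4cdd_gt

variable {n m : ℕ}

/-- damping factor -/
noncomputable def om (ξ : E n) : ℝ := Real.exp (-((3 * n + 4) * hs ξ))

lemma om_pos (ξ : E n) : 0 < om ξ := Real.exp_pos _

lemma continuous_om : Continuous (om (n := n)) :=
  Real.continuous_exp.comp (continuous_const.mul continuous_hs).neg

lemma sq_om_le (ξ : E n) : hs ξ ^ 2 * om ξ ≤ 2 := by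
  have h0 := hs_nonneg ξ
  have h1 := Real.quadratic_le_exp_of_nonneg h0
  have h2 : Real.exp (hs ξ) * om ξ ≤ 1 := by
    rw [om, ← Real.exp_add, Real.exp_le_one_iff]
    nlinarith [mul_nonneg (Nat.cast_nonneg n : (0 : ℝ) ≤ n) h0]
  nlinarith [mul_le_mul_of_nonneg_right h1 (om_pos ξ).le, om_pos ξ,
    mul_nonneg h0 (om_pos ξ).le]

lemma integrable_sq_om {p : ℝ} (hp : 0 < p) :
    Integrable fun y : E n => hs (p • y) ^ 2 * om (p • y) * Wt p y := by
  refine Integrable.bdd_mul (c := 2) (integrable_Wt hp) (Continuous.aestronglyMeasurable ?_)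
    (Eventually.of_forall fun y => ?_)
  · exact ((continuous_hs.pow 2).mul continuous_om).comp (continuous_const_smul p)
  · rw [Real.norm_eq_abs, abs_of_nonneg (mul_nonneg (sq_nonneg _) (om_pos _).le)]
    exact sq_om_le _

lemma second_moment (m : ℕ) {P : ℝ} (hP : 1 ≤ P) : ∃ c : ℝ, 0 < c ∧ ∀ p, 0 < p → p ≤ P →
    c * (p * Jp (m + 1) p) ≤ ∫ y : E (m + 1), hs (p • y) ^ 2 * om (p • y) * Wt p y := by
  have hP0 : 0 < P := by linarith
  obtain ⟨c, hc, hM⟩ := Mg_lower (m + 1)
  set N : ℝ := ((m + 1 : ℕ) : ℝ) + 1 with hN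
  have hN0 : 0 < N := by positivity
  set α : ℝ := 1 / (24 * P * N ^ 2) with hα
  have hα0 : 0 < α := by positivity
  set G : ℝ := 5 * 2 ^ (m + 1) with hG
  have hG0 : 0 < G := by positivity
  set T : ℝ := G ^ (2 * P) / (c * P) with hT
  have hT0 : 0 < T := by positivity
  set c₃ := α * Real.exp (-((3 * ((m + 1 : ℕ) : ℝ) + 4) * Real.sqrt (T * P))) with hc₃
  have hc₃0 : 0 < c₃ := by positivity
  refine ⟨c₃ / 5, by positivity, fun p hp hpP => ?_⟩
  have hJ := Jp_pos (n := m + 1) hp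
  obtain ⟨i1, h1⟩ := moment_half (n := m + 1) hp
  have i2 := (integrable_Wt (n := m + 1) hp).comp_smul (two_ne_zero (α := ℝ))
  have i3 := integrable_sq_om (n := m + 1) hp
  have i4 := ((i2.const_mul (6 / 5)).add (i1.const_mul (1 / G))).add (i3.const_mul (1 / (c₃ * p)))
  have h2 := integral_mono (integrable_Wt hp) i4 fun y => by
    have hW := Wt_pos p y
    have t1 := Wt_pos p ((2 : ℝ) • y)
    have t2 : 0 ≤ 1 / G * (Mg (p • y) ^ (1 / p / 2) * Wt p y) :=
      mul_nonneg (by positivity) (mul_nonneg (Real.rpow_pos_of_pos (Mg_pos _) _).le hW.le)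
    have t3 : 0 ≤ 1 / (c₃ * p) * (hs (p • y) ^ 2 * om (p • y) * Wt p y) :=
      mul_nonneg (by positivity) (mul_nonneg (mul_nonneg (sq_nonneg _) (om_pos _).le) hW.le)
    have hs0 := hs_nonneg (p • y)
    simp only [Pi.add_apply]
    rcases le_total (hs (p • y) ^ 2) (α * p) with h | h
    · have h3 : (N * hs ((2 : ℝ) • p • y)) ^ 2 ≤ p / 6 / P := by
        rw [hs_smul zero_le_two]
        have : 4 * N ^ 2 * (α * p) = p / 6 / P := by rw [hα]; field_simp; ring
        nlinarith [mul_le_mul_of_nonneg_left h (show 0 ≤ 4 * N ^ 2 by positivity)]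
      have h4 : p / 6 / P ≤ p / 6 := div_le_self (by positivity) hP
      have h5 : p / 6 / P ≤ 1 := by rw [div_le_one hP0]; linarith
      have h6 := Mg_le_quad (ξ := (2 : ℝ) • p • y) (by
        have := abs_le_one_iff_mul_self_le_one.2 (show N * hs ((2 : ℝ) • p • y) *
          (N * hs ((2 : ℝ) • p • y)) ≤ 1 by nlinarith)
        exact (le_abs_self _).trans this)
      have h7 : Mg ((2 : ℝ) • p • y) ≤ Real.exp (p / 6) := by
        linarith [Real.add_one_le_exp (p / 6)]
      have h8 := Real.rpow_le_rpow_of_nonpos (Mg_pos _) h7 (z := -(1 / p))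
        (neg_nonpos.2 (by positivity))
      have h9 : p / 6 * -(1 / p) = -(1 / 6) := by field_simp
      rw [← Real.exp_mul, h9] at h8
      have h10 := Real.add_one_le_exp (-(1 / 6) : ℝ)
      have h11 := Real.rpow_le_one_of_one_le_of_nonpos (one_le_Mg (p • y)) (z := -(1 / p))
        (neg_nonpos.2 (by positivity))
      have h12 : Wt p y ≤ 6 / 5 * Wt p ((2 : ℝ) • y) := by
        rw [Wt_eq, Wt_eq, smul_comm, mul_left_comm]
        exact mul_le_mul_of_nonneg_left (by linarith) (Real.rpow_pos_of_pos Vs_pos _).le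
      linarith
    rcases le_total (hs (p • y) ^ 2) (T * p) with h' | h'
    · have h3 : hs (p • y) ≤ Real.sqrt (T * P) :=
        Real.le_sqrt_of_sq_le (h'.trans (by gcongr))
      have h4 : c₃ * p ≤ hs (p • y) ^ 2 * om (p • y) := by
        rw [hc₃, mul_right_comm]
        refine mul_le_mul h (Real.exp_le_exp.2 (neg_le_neg ?_)) (Real.exp_pos _).le (sq_nonneg _)
        gcongr
      have h5 : Wt p y ≤ 1 / (c₃ * p) * (hs (p • y) ^ 2 * om (p • y) * Wt p y) := by
        rw [one_div, le_inv_mul_iff₀ (by positivity)]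
        gcongr
      linarith
    · have h3 := rpow_one_add_le_one_add_mul_self (s := c * T * P) (p := p / P)
        (by linarith [mul_pos (mul_pos hc hT0) hP0]) (by positivity) ((div_le_one hP0).2 hpP)
      have h4 : p / P * (c * T * P) = c * (T * p) := by field_simp
      have h5 : c * T * P = G ^ (2 * P) := by rw [hT]; field_simp
      have h6 : (G ^ (2 * P)) ^ (p / P) ≤ Mg (p • y) := by
        refine le_trans (Real.rpow_le_rpow (by positivity) (by linarith) (by positivity))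
          (h3.trans ?_)
        nlinarith [(hM (p • y)).1, mul_le_mul_of_nonneg_left h' hc.le]
      have h7 := Real.rpow_le_rpow (by positivity) h6 (show 0 ≤ 1 / p / 2 by positivity)
      have h8 : 2 * P * (p / P * (1 / p / 2)) = 1 := by field_simp
      rw [← Real.rpow_mul (by positivity), ← Real.rpow_mul hG0.le, h8, Real.rpow_one] at h7
      have h9 : Wt p y ≤ 1 / G * (Mg (p • y) ^ (1 / p / 2) * Wt p y) := by
        rw [one_div, le_inv_mul_iff₀ hG0]
        gcongr
      linarith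
  rw [integral_add' ((i2.const_mul _).add (i1.const_mul _)) (i3.const_mul _),
    integral_add' (i2.const_mul _) (i1.const_mul _), integral_const_mul, integral_const_mul,
    integral_const_mul, integral_Wt_smul p two_pos, integral_Wt] at h2
  have h3 : ((2 : ℝ) ^ (m + 1))⁻¹ ≤ 1 / 2 := by
    rw [one_div]
    exact inv_anti₀ two_pos (le_self_pow₀ one_le_two (Nat.succ_ne_zero m))
  have h4 : 1 / G * (2 ^ (m + 1) * Jp (m + 1) p) = Jp (m + 1) p / 5 := by rw [hG]; field_simp
  have h5 : Jp (m + 1) p / 5 ≤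
      1 / (c₃ * p) * ∫ y : E (m + 1), hs (p • y) ^ 2 * om (p • y) * Wt p y := by
    nlinarith [mul_le_mul_of_nonneg_left h1 (show 0 ≤ 1 / G by positivity),
      mul_le_mul_of_nonneg_right h3 hJ.le]
  rw [one_div, le_inv_mul_iff₀ (by positivity)] at h5
  linarith

/-- damped second moment in the direction `d` -/
noncomputable def Iq (p : ℝ) (d : E n) : ℝ := ∫ y : E n, (d ⬝ᵥ (p • y)) ^ 2 * om (p • y) * Wt p y

lemma Iq_nn (p : ℝ) (d y : E n) : 0 ≤ (d ⬝ᵥ (p • y)) ^ 2 * om (p • y) * Wt p y :=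
  mul_nonneg (mul_nonneg (sq_nonneg _) (om_pos _).le) (Wt_pos p y).le

lemma integrable_Iq {p : ℝ} (hp : 0 < p) (d : E n) :
    Integrable fun y : E n => (d ⬝ᵥ (p • y)) ^ 2 * om (p • y) * Wt p y := by
  have hd : d ∈ cS n (‖d‖ * (n + 1) ^ 2) :=
    mem_cS_of_norm_le (by rw [mul_div_cancel_right₀ _ (by positivity)])
  refine ((integrable_sq_om hp).const_mul ((‖d‖ * (n + 1) ^ 2 * (n + 1)) ^ 2)).mono'
    (Measurable.aestronglyMeasurable (Measurable.mul (Continuous.measurable ?_)
      (measurable_wt p _))) (Eventually.of_forall fun y => ?_)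
  · refine Continuous.mul ?_ (continuous_om.comp (continuous_const_smul p))
    unfold dotProduct; fun_prop
  · rw [Real.norm_eq_abs, abs_of_nonneg (Iq_nn p d y), ← mul_assoc, ← mul_assoc, ← mul_pow]
    have h1 := abs_le.1 (abs_dot_le (by positivity) hd (p • y))
    exact mul_le_mul_of_nonneg_right (mul_le_mul_of_nonneg_right (sq_le_sq' h1.1 h1.2)
      (om_pos _).le) (Wt_pos p y).le

lemma Iq_Tp (p : ℝ) (σ : Equiv.Perm (Fin (n + 1))) (d : E n) : Iq p (Tp σ d) = Iq p d := by
  have := integral_comp_adj σ fun y : E n => (d ⬝ᵥ (p • y)) ^ 2 * om (p • y) * Wt p y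
  simp only [Wt, Zs_adj, ← map_smul, ← dot_adj, om, hs_adj] at this
  exact this

lemma Iq_smul (p c : ℝ) (d : E n) : Iq p (c • d) = c ^ 2 * Iq p d := by
  simp only [Iq, smul_dotProduct, smul_eq_mul, mul_pow, mul_assoc, integral_const_mul]

lemma Iq_sub {p : ℝ} (hp : 0 < p) (u v : E n) : Iq p (u - v) ≤ 2 * Iq p u + 2 * Iq p v := by
  rw [Iq, Iq, Iq, ← integral_const_mul, ← integral_const_mul,
    ← integral_add ((integrable_Iq hp u).const_mul _) ((integrable_Iq hp v).const_mul _)]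
  refine integral_mono (integrable_Iq hp _)
    (((integrable_Iq hp u).const_mul _).add ((integrable_Iq hp v).const_mul _)) fun y => ?_
  have h := mul_pos (om_pos (p • y)) (Wt_pos p y)
  simp only [sub_dotProduct]
  nlinarith [mul_nonneg (sq_nonneg (u ⬝ᵥ (p • y) + v ⬝ᵥ (p • y))) h.le]

lemma hs_sq_le (ξ : E n) (i : Fin (n + 1)) : hs ξ ^ 2 ≤ 4 * ∑ t, (eta ξ i - eta ξ t) ^ 2 := by
  obtain ⟨j, he, hj⟩ := exists_hs ξ
  have h0 := hs_nonneg ξ
  have h1 : ∀ t, (eta ξ i - eta ξ t) ^ 2 ≤ ∑ t, (eta ξ i - eta ξ t) ^ 2 := fun t =>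
    Finset.single_le_sum (f := fun t => (eta ξ i - eta ξ t) ^ 2) (fun _ _ => sq_nonneg _)
      (Finset.mem_univ t)
  obtain ⟨k, -, hk⟩ := Finset.exists_le_of_sum_le (s := Finset.univ) (f := eta ξ)
    (g := fun _ => 0) Finset.univ_nonempty (by simp [sum_eta])
  have h2 : hs ξ ^ 2 ≤ (eta ξ j - eta ξ k) ^ 2 := pow_le_pow_left₀ h0 (by linarith) 2
  nlinarith [h1 j, h1 k, sq_nonneg (eta ξ i - eta ξ j + (eta ξ i - eta ξ k))]

lemma Iq_vtx {p : ℝ} (hp : 0 < p) {i k : Fin (n + 1)} (hik : k ≠ i) :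
    ∫ y : E n, hs (p • y) ^ 2 * om (p • y) * Wt p y ≤ 4 * (n + 1) * Iq p (vtx n i - vtx n k) := by
  have h1 : ∀ t, Iq p (vtx n i - vtx n t) ≤ Iq p (vtx n i - vtx n k) := by
    intro t
    by_cases ht : t = i
    · rw [ht, sub_self, ← zero_smul ℝ (0 : E n), Iq_smul]
      have : 0 ≤ Iq p (vtx n i - vtx n k) := integral_nonneg (Iq_nn p _)
      simpa using this
    · rw [← Iq_Tp p (Equiv.swap k t) (vtx n i - vtx n k), map_sub]
      have h2 := Tp_vtx (Equiv.swap k t) i
      have h3 := Tp_vtx (Equiv.swap k t) t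
      rw [Equiv.swap_apply_of_ne_of_ne hik.symm (Ne.symm ht)] at h2
      rw [Equiv.swap_apply_right] at h3
      rw [h2, h3]
  have i1 := integrable_finsetSum Finset.univ fun t _ => integrable_Iq hp (vtx n i - vtx n t)
  have h2 := integral_mono (integrable_sq_om hp) (i1.const_mul 4) fun y => by
    simp only [← Finset.sum_mul, ← mul_assoc, sub_dotProduct]
    exact mul_le_mul_of_nonneg_right (mul_le_mul_of_nonneg_right (hs_sq_le _ i) (om_pos _).le)
      (Wt_pos p y).le
  rw [integral_const_mul, integral_finsetSum _ fun t _ => integrable_Iq hp _] at h2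
  have h3 := Finset.sum_le_sum fun t (_ : t ∈ Finset.univ) => h1 t
  simp only [Finset.sum_const, Finset.card_univ, Fintype.card_fin, nsmul_eq_mul] at h3
  push_cast at h3
  unfold Iq at h3 ⊢
  linarith

/-- invariant quadratic form -/
noncomputable def Qf (x : E n) : ℝ := ∑ j, bet n x j ^ 2

lemma Qf_le_Iq {p : ℝ} (hp : 0 < p) (d : E n) :
    Qf d * ∫ y : E n, hs (p • y) ^ 2 * om (p • y) * Wt p y ≤ 16 * (n + 1) ^ 2 * Iq p d := by
  set M := ∫ y : E n, hs (p • y) ^ 2 * om (p • y) * Wt p y with hM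
  have hM0 : 0 ≤ M := integral_nonneg fun y =>
    mul_nonneg (mul_nonneg (sq_nonneg _) (om_pos _).le) (Wt_pos p y).le
  have hI0 : 0 ≤ Iq p d := integral_nonneg (Iq_nn p d)
  have h1 : ∀ i k, (bet n d i - bet n d k) ^ 2 * M ≤ 16 * (n + 1) * Iq p d := by
    intro i k
    by_cases hik : k = i
    · rw [hik, sub_self]; simp; positivity
    have h2 : d - Tp (Equiv.swap i k) d = (bet n d i - bet n d k) • (vtx n i - vtx n k) := by
      apply bet_injective
      ext t
      simp only [map_sub, map_smul, Pi.sub_apply, Pi.smul_apply, bet_Tp_apply, bet_vtx, smul_eq_mul]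
      by_cases hti : t = i
      · subst hti; simp [Ne.symm hik]
      by_cases htk : t = k
      · subst htk; simp [hik]; ring
      · simp [Equiv.swap_apply_of_ne_of_ne hti htk, hti, htk]
    have h3 := Iq_sub hp d (Tp (Equiv.swap i k) d)
    rw [h2, Iq_smul, Iq_Tp] at h3
    have h4 := mul_le_mul_of_nonneg_left (Iq_vtx hp hik) (sq_nonneg (bet n d i - bet n d k))
    nlinarith [mul_le_mul_of_nonneg_left h3 (show (0 : ℝ) ≤ 4 * (n + 1) by positivity)]
  have h2 : ∀ i, bet n d i ^ 2 * M ≤ 16 * (n + 1) * Iq p d := by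
    intro i
    obtain ⟨k, -, hk⟩ := Finset.exists_le_of_sum_le (s := Finset.univ)
      (f := fun k => bet n d i * bet n d k) (g := fun _ => 0) Finset.univ_nonempty
      (by simp [← Finset.mul_sum, sum_bet])
    refine le_trans (mul_le_mul_of_nonneg_right ?_ hM0) (h1 i k)
    nlinarith [sq_nonneg (bet n d k)]
  rw [Qf, Finset.sum_mul]
  refine (Finset.sum_le_sum fun i _ => h2 i).trans (le_of_eq ?_)
  simp only [Finset.sum_const, Finset.card_univ, Fintype.card_fin, nsmul_eq_mul]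
  push_cast; ring

lemma Qf_combo (x z : E n) {a b : ℝ} (hab : a + b = 1) :
    Qf (a • x + b • z) = a * Qf x + b * Qf z - a * b * Qf (x - z) := by
  obtain rfl : b = 1 - a := by linarith
  simp only [Qf, map_add, map_smul, map_sub, Pi.add_apply, Pi.smul_apply, Pi.sub_apply, smul_eq_mul,
    Finset.mul_sum, ← Finset.sum_add_distrib, ← Finset.sum_sub_distrib]
  exact Finset.sum_congr rfl fun j _ => by ring

/-- uniform strong convexity of the normalised potential -/
lemma strong_convex (m : ℕ) {P : ℝ} (hP : 1 ≤ P) : ∃ c : ℝ, 0 < c ∧ ∀ p, 0 < p → p ≤ P →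
    ConvexOn ℝ (cS (m + 1) 1) fun x => Theta p x - c * Qf x := by
  obtain ⟨c, hc, h⟩ := second_moment m hP
  set N : ℝ := ((m + 1 : ℕ) : ℝ) + 1 with hN
  have hN0 : 0 < N := by positivity
  refine ⟨c / (64 * N ^ 2), by positivity, fun p hp hpP =>
    ⟨convex_cS 1, fun x hx z hz a b ha hb hab => ?_⟩⟩
  have hJ := Jp_pos (n := m + 1) hp
  have hR : cS (m + 1) 1 ⊆ cS (m + 1) (1 + 1 / p / 4) :=
    cS_mono (le_add_of_nonneg_right (by positivity))
  have h1 := Theta_gap hp (hR hx) (hR hz) ha hb hab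
    (g := fun ξ => a * b / 4 * (((x - z) ⬝ᵥ ξ) ^ 2 * om ξ))
    (fun ξ => mul_nonneg (by positivity) (mul_nonneg (sq_nonneg _) (om_pos _).le)) fun ξ => by
      have h2 := exp_gap ha hb hab (abs_dot_le zero_le_one hx ξ) (abs_dot_le zero_le_one hz ξ)
      rw [le_div_iff₀ (Mg_pos ξ)]
      refine le_trans ?_ h2
      rw [mul_assoc, mul_assoc, sub_dotProduct]
      refine mul_le_mul_of_nonneg_left (mul_le_mul_of_nonneg_left ?_ (sq_nonneg _)) (by positivity)
      refine (mul_le_mul_of_nonneg_left (Mg_le_exp ξ) (om_pos ξ).le).trans (le_of_eq ?_)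
      rw [om, ← Real.exp_add]
      ring_nf
  simp only [mul_assoc (a * b / 4), integral_const_mul] at h1
  change _ + 1 / p * (a * b / 4 * Iq p (x - z) / _) ≤ _ at h1
  have h2 := Qf_le_Iq hp (x - z)
  have hQ : 0 ≤ Qf (x - z) := Finset.sum_nonneg fun _ _ => sq_nonneg _
  have h3 := (mul_le_mul_of_nonneg_left (h p hp hpP) hQ).trans h2
  have h4 : c / (64 * N ^ 2) * (a * b * Qf (x - z)) ≤
      1 / p * (a * b / 4 * Iq p (x - z) / Jp (m + 1) p) := by
    rw [one_div, le_inv_mul_iff₀ hp, le_div_iff₀ hJ, div_mul_eq_mul_div, ← mul_div_assoc,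
      div_mul_eq_mul_div, div_le_iff₀ (by positivity)]
    nlinarith [mul_le_mul_of_nonneg_left h3 (mul_nonneg ha hb)]
  simp only [smul_eq_mul, Qf_combo x z hab]
  linarith

end Pool.Agent.MP_5f4cdd_gt
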