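import Pool.Agent.MP_5f4cdd_gt.UnifNu

set_option autoImplicit false
open MeasureTheory ENNReal Set Matrix Topology Filter

namespace Pool.Agent.MP_5f4cdd_gt

variable {m : ℕ}

lemma lintegral_pow_Ioc (k : ℕ) :
    ∫⁻ s in Ioc (0 : ℝ) 1, ENNReal.ofReal (s ^ k) = ENNReal.ofReal (1 / (k + 1)) := by
  rw [← ofReal_integral_eq_lintegral_ofReal
    ((continuous_pow k).integrableOn_Icc.mono_set Ioc_subset_Icc_self),
    ← intervalIntegral.integral_of_le zero_le_one, integral_pow]
  · simp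
  · filter_upwards [ae_restrict_mem measurableSet_Ioc] with s hs using pow_nonneg hs.1.le k

/-- the part of the probability simplex away from the vertices -/
def offV (k : ℕ) (τ : ℝ) : Set (E k) := {l | ∀ i, l i ≤ 1 - τ}

lemma measurableSet_offV {k : ℕ} (τ : ℝ) : MeasurableSet (offV k τ) := by
  have : offV k τ = ⋂ i, {l | l i ≤ 1 - τ} := by ext; simp [offV]
  rw [this]
  exact MeasurableSet.iInter fun i => measurableSet_le (measurable_pi_apply i) measurable_const

theorem unif_corr (m : ℕ) : ∃ ρ γ τ : ℝ, 1 < ρ ∧ 0 < γ ∧ 0 < τ ∧ ∀ f : E (m + 1) → ℝ, Good f →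
    ∫⁻ l, ENNReal.ofReal (f l) ∂mu m ≠ ∞ →
    ∫⁻ l in offV (m + 1) τ, ENNReal.ofReal (f l) ∂mu m ≤
      ENNReal.ofReal γ * ∫⁻ l, ENNReal.ofReal (f l) ∂mu m →
    ∀ g : E (m + 1) → ℝ, Measurable g →
      ConvexOn ℝ (stdSimplex ℝ (Fin (m + 1))) g → (∀ x ∈ stdSimplex ℝ (Fin (m + 1)), 0 ≤ g x) →
      g (uu m) = 0 →
      ENNReal.ofReal ρ * ((∫⁻ l, ENNReal.ofReal (f l) ∂mu m) *
        (∫⁻ l, ENNReal.ofReal (g l) ∂mu m)) ≤
      mu m univ * ∫⁻ l, ENNReal.ofReal (f l) * ENNReal.ofReal (g l) ∂mu m := by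
  cases m with
  | zero =>
    refine ⟨2, 1, 1, by norm_num, one_pos, one_pos, fun f _ _ _ g _ _ _ hg0 => ?_⟩
    rw [lintegral_congr_ae (f := fun l => ENNReal.ofReal (g l)) (g := fun _ => 0)]
    · simp
    · filter_upwards [ae_mu_zero] with l hl; rw [hl, hg0]; simp
  | succ m =>
    set γ : ℝ := 1 / (4 * (m + 2)) with hγ
    have hm0 : (0 : ℝ) ≤ m := Nat.cast_nonneg m
    have hγ0 : 0 < γ := by positivity
    have hγe : γ * (4 * (m + 2)) = 1 := by rw [hγ]; field_simp
    have hγ1 : γ ≤ 1 / 2 := by nlinarith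
    refine ⟨(2 * m + 3) / (2 * m + 2), γ, γ / 2, by rw [one_lt_div (by positivity)]; linarith,
      hγ0, by positivity, fun f hf hfin hmass g hgm hgc hg0 hgu => ?_⟩
    have hfm := hf.meas.ennreal_ofReal
    set c : ℝ≥0∞ := ((m + 2 : ℕ) * kap (m + 1)) with hc
    have hc0 : c ≠ 0 := mul_ne_zero (by simp) kap_ne_zero
    have hct : c ≠ ∞ := ENNReal.mul_ne_top (by simp) kap_ne_top
    set F : ℝ → ℝ≥0∞ := fun s => ∫⁻ l, ENNReal.ofReal (f (Rs s l)) ∂mu m with hF
    have hFm : Measurable F := measurable_bar hfm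
    set a := ∫⁻ s in Ioc (0 : ℝ) 1, ENNReal.ofReal (s ^ m) with ha
    set b := ∫⁻ s in Ioc (0 : ℝ) 1, ENNReal.ofReal (s ^ m) * ENNReal.ofReal s with hb
    set A := ∫⁻ s in Ioc (0 : ℝ) 1, ENNReal.ofReal (s ^ m) * F s with hA
    set B := ∫⁻ s in Ioc (0 : ℝ) 1, F s * (ENNReal.ofReal (s ^ m) * ENNReal.ofReal s) with hB
    have hae : a = ENNReal.ofReal (1 / (m + 1)) := lintegral_pow_Ioc m
    have hbe : b = ENNReal.ofReal (1 / (m + 2)) := by
      have h := lintegral_pow_Ioc (m + 1)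
      push_cast at h
      rw [add_assoc, one_add_one_eq_two] at h
      rw [← h]
      refine setLIntegral_congr_fun measurableSet_Ioc fun s hs => ?_
      rw [pow_succ, ENNReal.ofReal_mul (pow_nonneg hs.1.le m)]
    have hfA : ∫⁻ l, ENNReal.ofReal (f l) ∂mu (m + 1) = c * A :=
      lintegral_mu_succ hfm (fun σ x hx => by rw [hf.symm σ x hx])
    have hAt : A ≠ ∞ := fun h => hfin (by rw [hfA, h, ENNReal.mul_top hc0])
    have h01 : Ioc (0 : ℝ) (1 - γ) ∪ Ioc (1 - γ) 1 = Ioc 0 1 :=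
      Ioc_union_Ioc_eq_Ioc (by linarith) (by linarith)
    have hA1 : ∫⁻ s in Ioc (0 : ℝ) (1 - γ), ENNReal.ofReal (s ^ m) * F s ≤ ENNReal.ofReal γ * A := by
      rw [← lintegral_indicator (measurableSet_offV _),
        lintegral_mu_succ (hfm.indicator (measurableSet_offV _)) (fun σ x hx => by
          by_cases h : x ∈ offV (m + 2) (γ / 2)
          · rw [indicator_of_mem h, indicator_of_mem (show x ∘ σ ∈ offV (m + 2) (γ / 2) from
              fun i => h _), hf.symm σ x hx]
          · rw [indicator_of_notMem h, indicator_of_notMem (fun h' => h fun i => by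
              simpa using h' (σ.symm i))]), hfA, mul_left_comm,
        ENNReal.mul_le_mul_iff_right hc0 hct] at hmass
      refine le_trans ?_ ((lintegral_mono_set
        (Ioc_subset_Ioc_right (show 1 - γ ≤ 1 by linarith))).trans hmass)
      refine setLIntegral_mono' measurableSet_Ioc fun s hs => mul_le_mul_right ?_ _
      refine lintegral_mono_ae ?_
      filter_upwards [ae_mu] with l hl
      rw [indicator_of_mem]
      intro i
      have h1 : (Fin.cons 0 l : E (m + 2)) i ≤ 1 := (mem_Icc_of_mem_stdSimplex (cons_mem hl) i).2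
      have h2 : (1 : ℝ) / ((m + 1 : ℕ) + 1) ≤ 1 / 2 := by
        push_cast
        exact one_div_le_one_div_of_le two_pos (by linarith)
      simp only [Rs, Pi.add_apply, Pi.smul_apply, Pi.sub_apply, uu, smul_eq_mul]
      nlinarith [mul_le_mul_of_nonneg_left h1 hs.1.le, hs.2]
    have hA2 : ENNReal.ofReal (1 - γ) * A ≤
        ∫⁻ s in Ioc (1 - γ) 1, ENNReal.ofReal (s ^ m) * F s := by
      have h1 : A ≤ ENNReal.ofReal γ * A + ∫⁻ s in Ioc (1 - γ) 1, ENNReal.ofReal (s ^ m) * F s := by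
        refine le_trans ?_ (add_le_add_left hA1 _)
        rw [hA, ← h01]
        exact lintegral_union_le _ _ _
      have h2 : ENNReal.ofReal γ * A + ENNReal.ofReal (1 - γ) * A = A := by
        rw [← add_mul, ← ENNReal.ofReal_add hγ0.le (by linarith)]; simp
      exact ENNReal.le_of_add_le_add_left (by finiteness) (h2.le.trans h1)
    have hB1 : ENNReal.ofReal (1 - γ) * (ENNReal.ofReal (1 - γ) * A) ≤ B := by
      refine (mul_le_mul_right hA2 _).trans ?_
      rw [← lintegral_const_mul' _ _ ENNReal.ofReal_ne_top]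
      refine le_trans ?_ (lintegral_mono_set (Ioc_subset_Ioc_left (show 0 ≤ 1 - γ by linarith)))
      refine setLIntegral_mono' measurableSet_Ioc fun s hs => ?_
      calc _ ≤ ENNReal.ofReal s * (ENNReal.ofReal (s ^ m) * F s) := by gcongr; exact hs.1.le
        _ = _ := by ring
    have hk : ENNReal.ofReal ((2 * m + 3) / (2 * m + 2)) * (A * b) ≤ a * B := by
      refine le_trans ?_ (mul_le_mul_right hB1 _)
      rw [hae, hbe, mul_comm A, ← mul_assoc, ← mul_assoc, ← mul_assoc,
        ← ENNReal.ofReal_mul (by positivity), ← ENNReal.ofReal_mul (by positivity),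
        ← ENNReal.ofReal_mul (mul_nonneg (by positivity) (by linarith))]
      refine mul_le_mul_left (ENNReal.ofReal_le_ofReal ?_) _
      have h1 : (2 * m + 3 : ℝ) / (2 * m + 2) * (1 / (m + 2)) = 1 / (m + 1) * (1 - 2 * γ) := by
        rw [hγ]; field_simp; ring
      rw [h1, mul_assoc]
      refine mul_le_mul_of_nonneg_left ?_ (by positivity)
      nlinarith
    have hb0 : b ≠ 0 := by rw [hbe]; simpa using (by positivity : (0 : ℝ) < m + 2)
    have hbt : b ≠ ∞ := by rw [hbe]; exact ENNReal.ofReal_ne_top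
    have hg := good_symz hgm hgc
    have hN0 : (Fintype.card (Equiv.Perm (Fin (m + 1 + 1))) : ℝ≥0∞) ≠ 0 := by
      simp [Fintype.card_ne_zero]
    have hNt : (Fintype.card (Equiv.Perm (Fin (m + 1 + 1))) : ℝ≥0∞) ≠ ∞ := by simp
    have s1 := lintegral_symz (f := fun _ => 1) measurable_const (fun _ _ _ => rfl) hgm hg0
    have s2 := lintegral_symz hfm (fun σ x hx => by rw [hf.symm σ x hx]) hgm hg0
    simp only [one_mul] at s1
    rw [← ENNReal.mul_le_mul_iff_right hN0 hNt, mul_left_comm, mul_left_comm _ (∫⁻ l, _ ∂_),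
      ← s1, mul_left_comm _ (mu (m + 1) univ), ← s2]
    have hgm' := hg.meas.ennreal_ofReal
    rw [hfA, lintegral_mu_succ hgm' (fun σ x hx => by rw [hg.symm σ x hx]),
      lintegral_mu_succ (H := fun l => ENNReal.ofReal (f l) * ENNReal.ofReal (symz g l))
        (hfm.mul hgm') (fun σ x hx => by rw [hf.symm σ x hx, hg.symm σ x hx]), mu_succ_univ]
    set G : ℝ → ℝ≥0∞ := fun s => ∫⁻ l, ENNReal.ofReal (symz g (Rs s l)) ∂mu m with hG
    have hGm : Measurable G := measurable_bar hgm'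
    have hW : Measurable fun s : ℝ => ENNReal.ofReal (s ^ m) := by fun_prop
    have hgu' : symz g (uu (m + 1)) = 0 := Finset.sum_eq_zero fun σ _ => hgu
    have h1 := cheb (ν := volume.restrict (Ioc (0 : ℝ) 1)) (F := F)
      (G := fun s => ENNReal.ofReal (s ^ m) * G s)
      (W := fun s => ENNReal.ofReal (s ^ m) * ENNReal.ofReal s)
      hFm (hW.mul hGm) (by fun_prop) (ae_restrict_mem measurableSet_Ioc) hf.bar_mono
      (fun r hr s hs hsr => by
        have : ENNReal.ofReal r * G s ≤ ENNReal.ofReal s * G r := by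
          rw [hG, ← lintegral_const_mul' _ _ ENNReal.ofReal_ne_top,
            ← lintegral_const_mul' _ _ ENNReal.ofReal_ne_top]
          refine lintegral_mono_ae ?_
          filter_upwards [ae_mu] with l hl
          rw [← ENNReal.ofReal_mul hr.1.le, ← ENNReal.ofReal_mul hs.1.le]
          refine ENNReal.ofReal_le_ofReal ?_
          have h3 := ray_le hg.conv (cons_mem hl) hs.1.le hsr hr.1 hr.2
          rw [hgu', mul_zero, zero_add, div_mul_eq_mul_div, le_div_iff₀ hr.1, mul_comm] at h3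
          exact h3
        calc _ = ENNReal.ofReal (s ^ m) * ENNReal.ofReal (r ^ m) * (ENNReal.ofReal r * G s) := by
              ring
          _ ≤ ENNReal.ofReal (s ^ m) * ENNReal.ofReal (r ^ m) * (ENNReal.ofReal s * G r) := by
              gcongr
          _ = _ := by ring)
    have h2 : ∫⁻ s in Ioc (0 : ℝ) 1, F s * (ENNReal.ofReal (s ^ m) * G s) ≤
        mu m univ * ∫⁻ s in Ioc (0 : ℝ) 1, ENNReal.ofReal (s ^ m) *
          ∫⁻ l, ENNReal.ofReal (f (Rs s l)) * ENNReal.ofReal (symz g (Rs s l)) ∂mu m := by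
      rw [← lintegral_const_mul' _ _ (measure_ne_top _ _)]
      refine setLIntegral_mono' measurableSet_Ioc fun s hs => ?_
      have := corr m _ _ (hf.restrict hs.1.le hs.2) (hg.restrict hs.1.le hs.2)
      calc _ = ENNReal.ofReal (s ^ m) * (F s * G s) := by ring
        _ ≤ ENNReal.ofReal (s ^ m) * (mu m univ * _) := by gcongr
        _ = _ := by ring
    set Γ := ∫⁻ s in Ioc (0 : ℝ) 1, ENNReal.ofReal (s ^ m) * G s with hΓ
    set X := ∫⁻ s in Ioc (0 : ℝ) 1, ENNReal.ofReal (s ^ m) *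
          ∫⁻ l, ENNReal.ofReal (f (Rs s l)) * ENNReal.ofReal (symz g (Rs s l)) ∂mu m with hX
    have h3 : B * Γ ≤ b * (mu m univ * X) := h1.trans (mul_le_mul_right h2 _)
    rw [← ENNReal.mul_le_mul_iff_right hb0 hbt]
    calc b * (ENNReal.ofReal ((2 * m + 3) / (2 * m + 2)) * (c * A * (c * Γ)))
        = c * c * Γ * (ENNReal.ofReal ((2 * m + 3) / (2 * m + 2)) * (A * b)) := by ring
      _ ≤ c * c * Γ * (a * B) := by gcongr
      _ = c * c * a * (B * Γ) := by ring
      _ ≤ c * c * a * (b * (mu m univ * X)) := by gcongr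
      _ = _ := by ring

lemma volume_cS_eq {n : ℕ} {r : ℝ} (hr : 0 < r) :
    volume (cS n r) = ENNReal.ofReal (r ^ n) * volume (cS n 1) := by
  rw [← image_smul_cS hr, Measure.addHaar_image_linearMap, det_smul_id, abs_of_pos (by positivity)]

/-- inner part of the probability simplex -/
def innr (m : ℕ) (r : ℝ) : Set (E (m + 1)) := {l | ∀ i, (1 - r) / (m + 1) ≤ l i}

lemma measurableSet_innr (r : ℝ) : MeasurableSet (innr m r) := by
  have : innr m r = ⋂ i, {l | (1 - r) / (m + 1) ≤ l i} := by ext; simp [innr]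
  rw [this]
  exact MeasurableSet.iInter fun i => measurableSet_le measurable_const (measurable_pi_apply i)

lemma mu_innr {r : ℝ} (hr : 0 < r) (hr1 : r ≤ 1) :
    (mu m).real (innr m r) = r ^ m * (mu m univ).toReal := by
  have h : (fun z : E m => uu m + bet m z) ⁻¹' innr m r = cS m r := by
    ext z
    rw [mem_cS_lam]
    simp only [mem_preimage, innr, mem_ofPred_eq, Pi.add_apply, uu, lam, add_comm]
  rw [measureReal_def, mu_univ, mu,
    Measure.map_apply continuous_ubet.measurable (measurableSet_innr r), h,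
    Measure.restrict_apply (measurableSet_cS r), inter_eq_left.2 (cS_mono hr1), volume_cS_eq hr,
    ENNReal.toReal_mul, ENNReal.toReal_ofReal (by positivity)]

lemma integrable_coord_mu (k : Fin (m + 1)) : Integrable (fun l : E (m + 1) => l k) (mu m) := by
  refine (integrable_const (1 : ℝ)).mono' (measurable_pi_apply k).aestronglyMeasurable ?_
  filter_upwards [ae_mu] with l hl
  rw [Real.norm_eq_abs, abs_of_nonneg (hl.1 k)]
  exact (mem_Icc_of_mem_stdSimplex hl k).2

lemma integral_coord_mu (k : Fin (m + 1)) :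
    ∫ l, l k ∂mu m = (mu m univ).toReal / (m + 1) := by
  have h1 : ∀ k : Fin (m + 1), ∫ l, l k ∂mu m = ∫ l, l 0 ∂mu m := by
    intro k
    have h0 : ∀ k : Fin (m + 1), 0 ≤ᵐ[mu m] fun l : E (m + 1) => l k := fun k => by
      filter_upwards [ae_mu] with l hl using hl.1 k
    rw [integral_eq_lintegral_of_nonneg_ae (h0 k) (measurable_pi_apply k).aestronglyMeasurable,
      integral_eq_lintegral_of_nonneg_ae (h0 0) (measurable_pi_apply 0).aestronglyMeasurable,
      ← lintegral_mu_perm (Equiv.swap 0 k) (measurable_pi_apply 0).ennreal_ofReal]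
    simp
  have h2 : ∑ k, ∫ l, l k ∂mu m = (mu m univ).toReal := by
    rw [← integral_finsetSum _ fun k _ => integrable_coord_mu k,
      integral_congr_ae (g := fun _ => (1 : ℝ))]
    · simp [measureReal_def]
    · filter_upwards [ae_mu] with l hl using hl.2
  rw [Finset.sum_congr rfl fun k _ => h1 k] at h2
  simp only [Finset.sum_const, Finset.card_univ, Fintype.card_fin, nsmul_eq_mul] at h2
  push_cast at h2
  rw [h1 k, ← h2]
  field_simp

lemma facet_pt {φ : E (m + 1) → ℝ} (hφ : ConvexOn ℝ univ φ) {M : ℝ}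
    (hM : ∀ l ∈ stdSimplex ℝ (Fin (m + 1)), φ l ≤ M) (hu : φ (uu m) ≤ 0)
    {z : Fin (m + 1) → E (m + 1)} (hz1 : ∀ k, ∑ i, z k i = 1) {d θ : ℝ} (hθ0 : 0 < θ)
    (hθ1 : θ ≤ 1) (hz2 : ∀ k i, |z k i - (Pi.single k 1 : E (m + 1)) i| ≤ θ * d)
    {ρ : Fin (m + 1) → ℝ} (hρ : ∀ k, φ (z k) ≤ ρ k) (hρ0 : ∀ k, 0 ≤ ρ k)
    {l : E (m + 1)} (hl : l ∈ stdSimplex ℝ (Fin (m + 1))) (hld : ∀ i, d ≤ l i)
    {μ : ℝ} (hμ0 : 0 ≤ μ) (hμ : ∀ i, μ ≤ l i) :
    φ l ≤ ∑ k, (l k - μ) * ρ k + θ * M := by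
  have hm : (0 : ℝ) < m + 1 := by positivity
  have hsum : ∑ k, (l k - μ) = 1 - (m + 1) * μ := by
    simp [Finset.sum_sub_distrib, hl.2]
  set z' : E (m + 1) := ((m + 1) * μ) • uu m + ∑ k, (l k - μ) • z k with hz'
  have h1 : φ z' ≤ ∑ k, (l k - μ) * ρ k := by
    have h := hφ.map_sum_le (t := Finset.univ)
      (w := fun o : Option (Fin (m + 1)) => o.elim ((m + 1) * μ) fun k => l k - μ)
      (p := fun o => o.elim (uu m) z)
      (fun o _ => by
        cases o
        · exact mul_nonneg hm.le hμ0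
        · exact sub_nonneg.2 (hμ _))
      (by rw [Fintype.sum_option]; simp only [Option.elim]; rw [hsum]; ring)
      (fun _ _ => mem_univ _)
    simp only [Fintype.sum_option, Option.elim, smul_eq_mul] at h
    have h2 : ∑ k, (l k - μ) * φ (z k) ≤ ∑ k, (l k - μ) * ρ k :=
      Finset.sum_le_sum fun k _ => mul_le_mul_of_nonneg_left (hρ k) (sub_nonneg.2 (hμ k))
    nlinarith [mul_nonneg (mul_nonneg hm.le hμ0) (neg_nonneg.2 hu)]
  have hd : ∀ i, (z' - l) i = ∑ k, (l k - μ) * (z k i - (Pi.single k 1 : E (m + 1)) i) := by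
    intro i
    simp only [hz', Pi.sub_apply, Pi.add_apply, Pi.smul_apply, Finset.sum_apply, smul_eq_mul, uu,
      mul_sub, Finset.sum_sub_distrib, Pi.single_apply, mul_ite, mul_one, mul_zero,
      Finset.sum_ite_eq, Finset.mem_univ, if_true]
    field_simp
    ring
  have hθd : 0 ≤ θ * d := (abs_nonneg _).trans (hz2 0 0)
  have hd2 : ∀ i, (z' - l) i ≤ θ * d := by
    intro i
    rw [hd]
    calc _ ≤ ∑ k, (l k - μ) * (θ * d) := Finset.sum_le_sum fun k _ =>
          mul_le_mul_of_nonneg_left ((le_abs_self _).trans (hz2 k i)) (sub_nonneg.2 (hμ k))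
      _ ≤ _ := by
          rw [← Finset.sum_mul, hsum]
          nlinarith [mul_nonneg (mul_nonneg hm.le hμ0) hθd]
  have hd3 : ∑ i, (z' - l) i = 0 := by
    simp only [hd]
    rw [Finset.sum_comm]
    refine Finset.sum_eq_zero fun k _ => ?_
    rw [← Finset.mul_sum, Finset.sum_sub_distrib, hz1]
    simp
  have h2 : l - ((1 - θ) / θ) • (z' - l) ∈ stdSimplex ℝ (Fin (m + 1)) := by
    refine ⟨fun i => ?_, ?_⟩
    · rw [Pi.sub_apply, Pi.smul_apply, smul_eq_mul, sub_nonneg]
      have h3 := mul_le_mul_of_nonneg_left (hd2 i) (div_nonneg (sub_nonneg.2 hθ1) hθ0.le)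
      have h4 : (1 - θ) / θ * (θ * d) = d - θ * d := by field_simp
      linarith [hld i]
    · simp only [Pi.sub_apply l, Pi.smul_apply, smul_eq_mul, Finset.sum_sub_distrib,
        ← Finset.mul_sum, hd3, hl.2]
      simp
  have h3 := hφ.2 (mem_univ z') (mem_univ (l - ((1 - θ) / θ) • (z' - l))) (sub_nonneg.2 hθ1) hθ0.le
    (by ring)
  have h4 : (1 - θ) • z' + θ • (l - ((1 - θ) / θ) • (z' - l)) = l := by
    ext i
    simp only [Pi.add_apply, Pi.smul_apply, Pi.sub_apply, smul_eq_mul]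
    field_simp
    ring
  rw [h4, smul_eq_mul, smul_eq_mul] at h3
  have h5 : 0 ≤ ∑ k, (l k - μ) * ρ k :=
    Finset.sum_nonneg fun k _ => mul_nonneg (sub_nonneg.2 (hμ k)) (hρ0 k)
  nlinarith [mul_le_mul_of_nonneg_left h1 (sub_nonneg.2 hθ1),
    mul_le_mul_of_nonneg_left (hM _ h2) hθ0.le]

lemma ofReal_integral_le_lintegral {α : Type*} [MeasurableSpace α] {ν : Measure α} {f g : α → ℝ}
    (hg : Integrable g ν) (h : f ≤ᵐ[ν] g) (h0 : 0 ≤ᵐ[ν] g) :
    ∫⁻ x, ENNReal.ofReal (f x) ∂ν ≤ ENNReal.ofReal (∫ x, g x ∂ν) := by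
  rw [ofReal_integral_eq_lintegral_ofReal hg h0]
  refine lintegral_mono_ae ?_
  filter_upwards [h] with x hx using ENNReal.ofReal_le_ofReal hx

/-- mean of a convex function over a facet in terms of its values near the vertices -/
lemma facet_bound (m : ℕ) : ∃ κ : ℝ, 0 < κ ∧ κ ≤ 1 ∧ ∀ e : ℝ, 0 < e → ∃ δ : ℝ, 0 < δ ∧
    ∀ (φ : E (m + 1) → ℝ) (M : ℝ) (z : Fin (m + 1) → E (m + 1)) (ρ : Fin (m + 1) → ℝ),
      ConvexOn ℝ univ φ → 0 ≤ M → (∀ l ∈ stdSimplex ℝ (Fin (m + 1)), φ l ≤ M) → φ (uu m) ≤ 0 →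
      (∀ k, ∑ i, z k i = 1) → (∀ k i, |z k i - (Pi.single k 1 : E (m + 1)) i| ≤ δ) →
      (∀ k, φ (z k) ≤ ρ k) → (∀ k, 0 ≤ ρ k) →
      ∫⁻ l, ENNReal.ofReal (φ l) ∂mu m ≤
        ENNReal.ofReal ((1 - κ) / (m + 1) * ∑ k, ρ k + e * M) * mu m univ := by
  have hm : (0 : ℝ) < m + 1 := by positivity
  refine ⟨(1 / 2) ^ (m + 1), by positivity, pow_le_one₀ (by norm_num) (by norm_num),
    fun e he => ?_⟩
  set θ := min (e / 2) 1 with hθ
  set ς := min (e / (2 * (m + 1))) (1 / 2) with hς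
  have hθ0 : 0 < θ := by positivity
  have hς0 : 0 < ς := by positivity
  have hς1 : ς ≤ 1 / 2 := min_le_right _ _
  have hς2 : ς * (2 * (m + 1)) ≤ e := (le_div_iff₀ (by positivity)).1 (min_le_left _ _)
  refine ⟨θ * (ς / (m + 1)), by positivity, fun φ M z ρ hφ hM0 hM hu hz1 hz2 hρ hρ0 => ?_⟩
  set U := (mu m univ).toReal with hU
  have hU0 : 0 ≤ U := ENNReal.toReal_nonneg
  set R := ∑ k, ρ k with hR
  have hR0 : 0 ≤ R := Finset.sum_nonneg fun k _ => hρ0 k
  have i1 : Integrable (fun l : E (m + 1) => ∑ k, l k * ρ k) (mu m) :=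
    integrable_finsetSum _ fun k _ => (integrable_coord_mu k).mul_const _
  have i2 : Integrable ((innr m (1 / 2)).indicator fun _ => (1 - 1 / 2) / (m + 1) * R) (mu m) :=
    (integrable_const _).indicator (measurableSet_innr _)
  have i3 : Integrable ((innr m (1 - ς)).indicator fun _ => M) (mu m) :=
    (integrable_const _).indicator (measurableSet_innr _)
  have key : ∀ l ∈ stdSimplex ℝ (Fin (m + 1)), φ l ≤ ∑ k, l k * ρ k -
      (innr m (1 / 2)).indicator (fun _ => (1 - 1 / 2) / (m + 1) * R) l + (θ * M + M) -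
      (innr m (1 - ς)).indicator (fun _ => M) l := by
    intro l hl
    obtain ⟨μ, hμ0, hμ, he⟩ : ∃ μ : ℝ, 0 ≤ μ ∧ (∀ i, μ ≤ l i) ∧
        (innr m (1 / 2)).indicator (fun _ => (1 - 1 / 2) / (m + 1) * R) l = μ * R := by
      by_cases h : l ∈ innr m (1 / 2)
      · exact ⟨_, by positivity, h, indicator_of_mem h _⟩
      · exact ⟨0, le_rfl, hl.1, by rw [indicator_of_notMem h, zero_mul]⟩
    have h1 : ∑ k, l k * ρ k - μ * R = ∑ k, (l k - μ) * ρ k := by
      simp only [hR, sub_mul, Finset.sum_sub_distrib, Finset.mul_sum]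
    rw [he, h1]
    by_cases h : l ∈ innr m (1 - ς)
    · rw [indicator_of_mem h]
      have := facet_pt hφ hM hu hz1 hθ0 (min_le_right _ _) hz2 hρ hρ0 hl
        (fun i => by simpa using h i) hμ0 hμ
      linarith
    · rw [indicator_of_notMem h]
      have h5 : 0 ≤ ∑ k, (l k - μ) * ρ k :=
        Finset.sum_nonneg fun k _ => mul_nonneg (sub_nonneg.2 (hμ k)) (hρ0 k)
      nlinarith [hM l hl, mul_nonneg hθ0.le hM0]
  have hI := ((i1.sub i2).add (integrable_const (θ * M + M))).sub i3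
  have h1 := ofReal_integral_le_lintegral hI (by filter_upwards [ae_mu] with l hl using key l hl)
    (by
      filter_upwards [ae_mu] with l hl
      have h2 : (innr m (1 / 2)).indicator (fun _ => (1 - 1 / 2) / (m + 1) * R) l ≤
          ∑ k, l k * ρ k := by
        by_cases h : l ∈ innr m (1 / 2)
        · rw [indicator_of_mem h, hR, Finset.mul_sum]
          exact Finset.sum_le_sum fun k _ => mul_le_mul_of_nonneg_right (h k) (hρ0 k)
        · rw [indicator_of_notMem h]
          exact Finset.sum_nonneg fun k _ => mul_nonneg (hl.1 k) (hρ0 k)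
      have h3 : (innr m (1 - ς)).indicator (fun _ => M) l ≤ M := indicator_le_self' (fun _ _ => hM0) l
      simp only [Pi.add_apply, Pi.sub_apply, Pi.zero_apply]
      nlinarith [mul_nonneg hθ0.le hM0])
  refine h1.trans ?_
  rw [← ENNReal.ofReal_toReal (measure_ne_top (mu m) univ), ← hU,
    ← ENNReal.ofReal_mul' hU0]
  refine ENNReal.ofReal_le_ofReal ?_
  rw [integral_sub' ((i1.sub i2).add (integrable_const _)) i3,
    integral_add' (i1.sub i2) (integrable_const _), integral_sub' i1 i2,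
    integral_finsetSum _ fun k _ => (integrable_coord_mu k).mul_const _,
    integral_indicator_const _ (measurableSet_innr _),
    integral_indicator_const _ (measurableSet_innr _), mu_innr (by norm_num) (by norm_num),
    mu_innr (by linarith) (by linarith), integral_const]
  simp only [integral_mul_const, integral_coord_mu, ← Finset.mul_sum, smul_eq_mul, measureReal_def]
  rw [← hU, ← hR]
  have h2 : 1 + (m : ℝ) * (-ς) ≤ (1 + -ς) ^ m := one_add_mul_le_pow (by linarith) m
  rw [← sub_eq_add_neg] at h2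
  have h3 : θ + 1 - (1 - ς) ^ m ≤ e := by nlinarith [min_le_left (e / 2) 1]
  have h4 := mul_le_mul_of_nonneg_right h3 (mul_nonneg hM0 hU0)
  have h5 : U / (m + 1) * R - (1 / 2) ^ m * U * ((1 - 1 / 2) / (m + 1) * R) =
      (1 - (1 / 2) ^ (m + 1)) / (m + 1) * R * U := by
    field_simp; ring
  rw [h5]
  linarith

end Pool.Agent.MP_5f4cdd_gt
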