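import Pool.Agent.MP_5f4cdd_gt.UnifCorr

set_option autoImplicit false
open MeasureTheory ENNReal Set Matrix Topology Filter

namespace Pool.Agent.MP_5f4cdd_gt

variable {m : ℕ}

/-- `K` is squeezed between two centred simplices and touches the facet centroids -/
structure Near (K : Set (E (m + 1))) (δ : ℝ) : Prop where
  conv : Convex ℝ K
  cl : IsClosed K
  lt : δ < 1
  inner : cS (m + 1) (1 - δ) ⊆ K
  outer : K ⊆ cS (m + 1) 1
  cen : ∀ j, Pj (m + 1) j (uu m) ∈ K

/-- gauge of `K` on the facet `j` -/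
noncomputable def gj (K : Set (E (m + 1))) (j : Fin (m + 2)) (l : E (m + 1)) : ℝ :=
  gauge K (Pj (m + 1) j l)

variable {K : Set (E (m + 1))} {δ : ℝ}

lemma Near.nhds (h : Near K δ) : K ∈ 𝓝 (0 : E (m + 1)) :=
  Filter.mem_of_superset (cS_mem_nhds (by linarith [h.lt])) h.inner

lemma Near.mem (h : Near K δ) (x : E (m + 1)) : x ∈ K ↔ gauge K x ≤ 1 := by
  rw [gauge_le_one_iff_mem_closure h.conv h.nhds, h.cl.closure_eq]

lemma Near.one_le (h : Near K δ) (j : Fin (m + 2)) {l : E (m + 1)}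
    (hl : l ∈ stdSimplex ℝ (Fin (m + 1))) : 1 ≤ gj K j l := by
  by_contra hc
  push Not at hc
  have h0 : 0 ≤ gj K j l := gauge_nonneg _
  have h1 : (2 / (1 + gj K j l)) • Pj (m + 1) j l ∈ K := by
    rw [h.mem, gauge_smul_of_nonneg (by positivity), smul_eq_mul, div_mul_eq_mul_div,
      div_le_one (by positivity)]
    change 2 * gj K j l ≤ _
    linarith
  have h2 := (smul_Pj_mem_cS j hl (by positivity)).1 (h.outer h1)
  rw [div_le_one (by positivity)] at h2
  linarith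

lemma Near.le (h : Near K δ) (j : Fin (m + 2)) {l : E (m + 1)}
    (hl : l ∈ stdSimplex ℝ (Fin (m + 1))) : (1 - δ) * gj K j l ≤ 1 := by
  have h1 := h.inner ((smul_Pj_mem_cS j hl (s := 1 - δ) (by linarith [h.lt])).2 le_rfl)
  rwa [h.mem, gauge_smul_of_nonneg (by linarith [h.lt]), smul_eq_mul] at h1

lemma Near.mem_iff (h : Near K δ) (j : Fin (m + 2)) {l : E (m + 1)}
    (hl : l ∈ stdSimplex ℝ (Fin (m + 1))) {s : ℝ} (hs : 0 < s) :
    s • Pj (m + 1) j l ∈ cS (m + 1) 1 \ K ↔ s ∈ Ioc (gj K j l)⁻¹ 1 := by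
  have h0 : 0 < gj K j l := lt_of_lt_of_le one_pos (h.one_le j hl)
  simp only [Set.mem_sdiff, smul_Pj_mem_cS j hl hs.le, mem_Ioc, h.mem, not_le,
    gauge_smul_of_nonneg hs.le, smul_eq_mul]
  rw [inv_lt_iff_one_lt_mul₀ h0]
  tauto

lemma Near.meas (h : Near K δ) : MeasurableSet (cS (m + 1) 1 \ K) :=
  (measurableSet_cS 1).diff h.cl.measurableSet

lemma Near.convexOn (h : Near K δ) (j : Fin (m + 2)) :
    ConvexOn ℝ univ fun l => gj K j l - 1 := by
  refine ⟨convex_univ, fun x _ y _ a b ha hb hab => ?_⟩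
  have := (convexOn_gauge h.conv h.nhds).2 (mem_univ (Pj (m + 1) j x))
    (mem_univ (Pj (m + 1) j y)) ha hb hab
  simp only [gj, map_add, map_smul, smul_eq_mul] at this ⊢
  nlinarith

lemma Near.measurable (h : Near K δ) (j : Fin (m + 2)) : Measurable fun l => gj K j l - 1 :=
  (((continuous_gauge h.conv h.nhds).measurable).comp (measurable_lin _)).sub_const 1

lemma Near.gj_uu (h : Near K δ) (j : Fin (m + 2)) : gj K j (uu m) - 1 = 0 :=
  sub_eq_zero.2 (le_antisymm ((h.mem _).1 (h.cen j)) (h.one_le j uu_mem))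

lemma Near.vol_le (h : Near K δ) : volume (cS (m + 1) 1 \ K) ≤
    ∑ j, kap (m + 1) * ∫⁻ l, ENNReal.ofReal (gj K j l - 1) ∂mu m := by
  rw [← lintegral_indicator_one h.meas, lintegral_radial' (measurable_one.indicator h.meas)]
  refine Finset.sum_le_sum fun j _ => mul_le_mul_right (lintegral_mono_ae ?_) _
  filter_upwards [ae_mu] with l hl
  have h1 := h.one_le j hl
  calc _ ≤ ∫⁻ s in Ioi (0 : ℝ), (Ioc (gj K j l)⁻¹ 1).indicator 1 s := by
        refine setLIntegral_mono' measurableSet_Ioi fun s hs => ?_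
        by_cases hs' : s ∈ Ioc (gj K j l)⁻¹ 1
        · rw [indicator_of_mem hs', indicator_of_mem ((h.mem_iff j hl hs).2 hs')]
          simpa using pow_le_one₀ (le_of_lt hs) hs'.2
        · rw [indicator_of_notMem (fun h' => hs' ((h.mem_iff j hl hs).1 h'))]; simp
    _ ≤ ∫⁻ s, (Ioc (gj K j l)⁻¹ 1).indicator 1 s := setLIntegral_le_lintegral _ _
    _ = ENNReal.ofReal (1 - (gj K j l)⁻¹) := by
        rw [lintegral_indicator_one measurableSet_Ioc, Real.volume_Ioc]
    _ ≤ _ := by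
        refine ENNReal.ofReal_le_ofReal ?_
        have h2 : (gj K j l)⁻¹ * gj K j l = 1 := inv_mul_cancel₀ (by linarith)
        have h3 : 0 < (gj K j l)⁻¹ := by positivity
        nlinarith [sq_nonneg (gj K j l - 1), mul_nonneg h3.le (sq_nonneg (gj K j l - 1))]

lemma Near.int_ge (h : Near K δ) {Φ : E (m + 1) → ℝ} (hΦ : Measurable Φ)
    (hsym : ∀ σ z, Φ (Tp σ z) = Φ z) {τ : ℝ} (hτ : 0 ≤ τ)
    (hH : ∀ z ∈ cS (m + 1) 1, ∀ s, 1 - δ ≤ s → s ≤ 1 → τ * Φ z ≤ Φ (s • z)) :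
    ENNReal.ofReal (τ * (1 - δ) ^ (m + 1)) * ∑ j, kap (m + 1) *
      ∫⁻ l, ENNReal.ofReal (Φ (A0 (m + 1) l)) * ENNReal.ofReal (gj K j l - 1) ∂mu m ≤
    ∫⁻ z in cS (m + 1) 1 \ K, ENNReal.ofReal (Φ z) := by
  have hδ : 0 < 1 - δ := by linarith [h.lt]
  rw [← lintegral_indicator h.meas,
    lintegral_radial' (hΦ.ennreal_ofReal.indicator h.meas), Finset.mul_sum]
  refine Finset.sum_le_sum fun j _ => ?_
  rw [mul_left_comm, ← lintegral_const_mul' _ _ ENNReal.ofReal_ne_top]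
  refine mul_le_mul_right (lintegral_mono_ae ?_) _
  filter_upwards [ae_mu] with l hl
  have h1 := h.one_le j hl
  have h0 : 0 < gj K j l := lt_of_lt_of_le one_pos h1
  have h4 : 1 - δ ≤ (gj K j l)⁻¹ := by
    rw [le_inv_comm₀ hδ h0, ← one_div, le_div_iff₀ hδ, mul_comm]
    exact h.le j hl
  have hsub : Ioc (gj K j l)⁻¹ 1 ⊆ Ioi 0 := fun s hs => lt_trans (by positivity) hs.1
  calc _ = (ENNReal.ofReal ((1 - δ) ^ m) * (ENNReal.ofReal τ *
          ENNReal.ofReal (Φ (A0 (m + 1) l)))) *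
          (ENNReal.ofReal (1 - δ) * ENNReal.ofReal (gj K j l - 1)) := by
        rw [ENNReal.ofReal_mul hτ, pow_succ, ENNReal.ofReal_mul (by positivity)]; ring
    _ ≤ (ENNReal.ofReal ((1 - δ) ^ m) * (ENNReal.ofReal τ *
          ENNReal.ofReal (Φ (A0 (m + 1) l)))) * ENNReal.ofReal (1 - (gj K j l)⁻¹) := by
        rw [← ENNReal.ofReal_mul hδ.le]
        refine mul_le_mul_right (ENNReal.ofReal_le_ofReal ?_) _
        have h2 : (gj K j l)⁻¹ * gj K j l = 1 := inv_mul_cancel₀ h0.ne'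
        nlinarith [mul_le_mul_of_nonneg_right h4 (sub_nonneg.2 h1)]
    _ = ∫⁻ _s in Ioc (gj K j l)⁻¹ 1, ENNReal.ofReal ((1 - δ) ^ m) * (ENNReal.ofReal τ *
          ENNReal.ofReal (Φ (A0 (m + 1) l))) := by
        rw [setLIntegral_const, Real.volume_Ioc]
    _ ≤ ∫⁻ s in Ioc (gj K j l)⁻¹ 1, ENNReal.ofReal (s ^ m) *
          (cS (m + 1) 1 \ K).indicator (fun z => ENNReal.ofReal (Φ z)) (s • Pj (m + 1) j l) := by
        refine setLIntegral_mono' measurableSet_Ioc fun s hs => ?_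
        rw [indicator_of_mem ((h.mem_iff j hl (hsub hs)).2 hs), ← ENNReal.ofReal_mul hτ]
        refine mul_le_mul' (ENNReal.ofReal_le_ofReal
          (pow_le_pow_left₀ hδ.le (h4.trans hs.1.le) _)) (ENNReal.ofReal_le_ofReal ?_)
        rw [← hsym (Equiv.swap 0 j)]
        exact hH _ (Pj_mem j hl) s (h4.trans hs.1.le) hs.2
    _ ≤ _ := lintegral_mono_set hsub

lemma kap_mul_mu : (kap (m + 1)).toReal * (mu m univ).toReal =
    (m + 1) / (m + 2) * (volume (cS (m + 1) 1)).toReal := by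
  rw [← mu_univ, mu_succ_univ, lintegral_pow_Ioc]
  simp only [ENNReal.toReal_mul, ENNReal.toReal_natCast]
  rw [ENNReal.toReal_ofReal (by positivity)]
  push_cast
  field_simp

lemma Pj_lam {k : ℕ} (i : Fin (k + 1)) {w : E k} (hw : lam w i = 0) :
    ∑ t : Fin k, lam w (Equiv.swap 0 i t.succ) = 1 ∧
      Pj k i (fun t => lam w (Equiv.swap 0 i t.succ)) = w := by
  have h1 : ∑ t : Fin k, lam w (Equiv.swap 0 i t.succ) = 1 := by
    have h := (Equiv.sum_comp (Equiv.swap 0 i) (lam w)).trans (sum_lam w)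
    rwa [Fin.sum_univ_succ, Equiv.swap_apply_left, hw, zero_add] at h
  refine ⟨h1, bet_injective ?_⟩
  rw [bet_Pj i h1]
  ext t
  have h2 : ∀ s, (Fin.cons 0 (fun t => lam w (Equiv.swap 0 i t.succ)) : E (k + 1)) s =
      lam w (Equiv.swap 0 i s) := fun s => by
    refine Fin.cases ?_ (fun _ => rfl) s
    rw [Equiv.swap_apply_left, hw]; rfl
  simp only [Function.comp_apply, Pi.sub_apply, h2, Equiv.swap_apply_self]
  simp only [uu, lam]
  ring

/-- the missing volume in terms of the margins of `K` near the vertices -/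
lemma vol_le_margins (m : ℕ) : ∃ κ : ℝ, 0 < κ ∧ κ ≤ 1 ∧ ∀ e : ℝ, 0 < e → ∃ c : ℝ, 0 < c ∧
    ∀ (K : Set (E (m + 1))) (δ : ℝ), Near K δ → 0 ≤ δ → δ ≤ 1 / 2 → δ ≤ c →
      ∃ r : Fin (m + 2) → Fin (m + 2) → ℝ, (∀ j i, 0 ≤ r j i) ∧ (∀ j, ∑ i, r j i ≤ δ) ∧
        (∀ j, r j j = 0) ∧
        (∀ j, ∀ x ∈ K, 1 - c ≤ lam x j → ∀ i, i ≠ j → r j i ≤ lam x i) ∧
        (volume (cS (m + 1) 1 \ K)).toReal ≤
          ((1 - κ) / (1 - δ) * ∑ j, ∑ i, r j i + e * δ) * (volume (cS (m + 1) 1)).toReal := by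
  obtain ⟨κ, hκ0, hκ1, hκ⟩ := facet_bound m
  have hm1 : (0 : ℝ) < m + 1 := by positivity
  have hm2 : (0 : ℝ) < m + 2 := by positivity
  have hcast : ((m + 1 : ℕ) : ℝ) + 1 = m + 2 := by push_cast; ring
  refine ⟨κ, hκ0, hκ1, fun e he => ?_⟩
  obtain ⟨d, hd, hfb⟩ := hκ (e / (2 * (m + 1))) (by positivity)
  refine ⟨d / 3, by positivity, fun K δ h hδ0 hδ1 hδc => ?_⟩
  have hδ : 0 < 1 - δ := by linarith
  have hKk : IsCompact K := (isCompact_cS zero_le_one).of_isClosed_subset h.cl h.outer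
  have hv : ∀ j, (1 - δ) • vtx (m + 1) j ∈ K ∩ corner (m + 1) j (d / 3) := by
    intro j
    have h1 : (1 - δ) • vtx (m + 1) j ∈ K := h.inner (by
      simpa using (smul_mem_cS (r := 1) hδ).2 (vtx_mem j))
    refine ⟨h1, h.outer h1, ?_⟩
    rw [lam_smul, lam_vtx, Pi.single_eq_same]
    have : 0 ≤ (1 - (1 - δ)) / (((m + 1 : ℕ) : ℝ) + 1) := div_nonneg (by linarith) (by positivity)
    linarith
  have hex : ∀ j i, ∃ x ∈ K ∩ corner (m + 1) j (d / 3),
      IsMinOn (fun x => lam x i) (K ∩ corner (m + 1) j (d / 3)) x := fun j i =>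
    (hKk.inter_right (isClosed_corner j _)).exists_isMinOn ⟨_, hv j⟩
      (continuous_lam i).continuousOn
  choose x hx hmin using hex
  set r : Fin (m + 2) → Fin (m + 2) → ℝ := fun j i => if i = j then 0 else lam (x j i) i with hr
  have hr0 : ∀ j i, 0 ≤ r j i := fun j i => by
    simp only [hr]; split_ifs
    · exact le_rfl
    · exact mem_cS_one.1 (hx j i).2.1 i
  have hr1 : ∀ j i, (m + 2) * r j i ≤ δ := fun j i => by
    simp only [hr]; split_ifs with hi
    · simpa using hδ0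
    · have h1 : lam (x j i) i ≤ lam ((1 - δ) • vtx (m + 1) j) i := hmin j i (hv j)
      rw [lam_smul, lam_vtx, Pi.single_eq_of_ne hi, hcast, mul_zero, zero_add,
        le_div_iff₀ hm2] at h1
      linarith
  refine ⟨r, hr0, fun j => ?_, fun j => by simp [hr], fun j y hy hyj i hi => ?_, ?_⟩
  · refine le_of_mul_le_mul_left ?_ hm2
    rw [Finset.mul_sum]
    refine (Finset.sum_le_sum fun i _ => hr1 j i).trans (le_of_eq ?_)
    simp
  · simp only [hr, if_neg hi]
    exact hmin j i ⟨hy, h.outer hy, hyj⟩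
  have key : ∀ i, ∫⁻ l, ENNReal.ofReal (gj K i l - 1) ∂mu m ≤ ENNReal.ofReal ((1 - κ) / (m + 1) *
      ((m + 2) / (1 - δ) * ∑ j, r j i) + e / (2 * (m + 1)) * (2 * δ)) * mu m univ := by
    intro i
    set σ := Equiv.swap 0 i with hσ
    have hne : ∀ k : Fin (m + 1), i ≠ σ k.succ := fun k hk => Fin.succ_ne_zero k
      (σ.injective (by rw [← hk, hσ, Equiv.swap_apply_left]))
    have hri : ∀ k : Fin (m + 1), r (σ k.succ) i = lam (x (σ k.succ) i) i := fun k => by
      simp only [hr, if_neg (hne k)]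
    set c : Fin (m + 1) → ℝ := fun k => 1 - (m + 2) * r (σ k.succ) i with hc
    have hc1 : ∀ k, 1 - δ ≤ c k := fun k => by simp only [hc]; linarith [hr1 (σ k.succ) i]
    have hc0 : ∀ k, 0 < c k := fun k => hδ.trans_le (hc1 k)
    have hc2 : ∀ k, (c k)⁻¹ - 1 = (m + 2) * r (σ k.succ) i / c k := fun k => by
      have := hc0 k
      field_simp
      simp only [hc]; ring
    have hw : ∀ k, lam ((c k)⁻¹ • x (σ k.succ) i) i = 0 := fun k => by
      have := hc0 k
      rw [lam_smul, ← hri, hcast]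
      field_simp
      simp only [hc]; ring
    have h1 := hfb (fun l => gj K i l - 1) (2 * δ)
      (fun k t => lam ((c k)⁻¹ • x (σ k.succ) i) (σ t.succ))
      (fun k => (m + 2) / (1 - δ) * r (σ k.succ) i) (h.convexOn i) (by positivity)
      (fun l hl => by nlinarith [h.le i hl, h.one_le i hl]) (h.gj_uu i).le
      (fun k => (Pj_lam i (hw k)).1)
      (fun k t => by
        have h2 := hx (σ k.succ) i
        have h3 : 0 ≤ (c k)⁻¹ - 1 := by
          rw [hc2]; exact div_nonneg (mul_nonneg hm2.le (hr0 _ _)) (hc0 k).le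
        have h4 : (c k)⁻¹ - 1 ≤ 2 * δ := by
          rw [hc2, div_le_iff₀ (hc0 k)]
          nlinarith [hr1 (σ k.succ) i, hc1 k]
        have h5 := mem_cS_one.1 h2.2.1 (σ t.succ)
        have h6 := lam_le_one h2.2.1 (σ t.succ)
        have h7 : (0 : ℝ) < 1 / (m + 2) := by positivity
        have h8 : (1 : ℝ) / (m + 2) ≤ 1 := by rw [div_le_one hm2]; linarith
        have h9 : lam ((c k)⁻¹ • x (σ k.succ) i) (σ t.succ) = lam (x (σ k.succ) i) (σ t.succ) +
            ((c k)⁻¹ - 1) * (lam (x (σ k.succ) i) (σ t.succ) - 1 / (m + 2)) := by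
          rw [lam_smul, hcast]; ring
        have h10 : |((c k)⁻¹ - 1) * (lam (x (σ k.succ) i) (σ t.succ) - 1 / (m + 2))| ≤ 2 * δ := by
          rw [abs_mul, abs_of_nonneg h3]
          exact (mul_le_of_le_one_right h3 (abs_le.2 ⟨by linarith, by linarith⟩)).trans h4
        have h11 := h2.2.2
        rw [h9, abs_le]
        rw [abs_le] at h10
        by_cases htk : t = k
        · subst htk
          rw [Pi.single_eq_same]
          constructor <;> linarith [h10.1, h10.2]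
        · have h12 := lam_le h2.2.1 (k := σ t.succ) (j := σ k.succ)
            (σ.injective.ne (fun h => htk (Fin.succ_injective _ h)))
          rw [Pi.single_eq_of_ne htk]
          constructor <;> linarith [h10.1, h10.2])
      (fun k => by
        rw [gj, (Pj_lam i (hw k)).2, gauge_smul_of_nonneg (inv_pos.2 (hc0 k)).le, smul_eq_mul]
        have h2 := mul_le_of_le_one_right (inv_pos.2 (hc0 k)).le ((h.mem _).1 (hx (σ k.succ) i).1)
        have h3 : (m + 2) * r (σ k.succ) i / c k ≤ (m + 2) / (1 - δ) * r (σ k.succ) i := by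
          rw [div_mul_eq_mul_div]
          exact div_le_div_of_nonneg_left (mul_nonneg hm2.le (hr0 _ _)) hδ (hc1 k)
        linarith [hc2 k])
      (fun k => mul_nonneg (by positivity) (hr0 _ _))
    have h2 : ∑ k : Fin (m + 1), r (σ k.succ) i = ∑ j, r j i := by
      rw [← Equiv.sum_comp σ (fun j => r j i), Fin.sum_univ_succ (n := m + 1), hσ,
        Equiv.swap_apply_left]
      simp [hr]
    rwa [← Finset.mul_sum, h2] at h1
  have hnn : ∀ i, 0 ≤ (1 - κ) / (m + 1) * ((m + 2) / (1 - δ) * ∑ j, r j i) +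
      e / (2 * (m + 1)) * (2 * δ) := fun i => by
    have := Finset.sum_nonneg fun j (_ : j ∈ Finset.univ) => hr0 j i
    have : 0 ≤ 1 - κ := by linarith
    positivity
  have h3 := ENNReal.toReal_mono (ENNReal.sum_ne_top.2 fun i _ => ENNReal.mul_ne_top kap_ne_top
      (ENNReal.mul_ne_top ENNReal.ofReal_ne_top (measure_ne_top _ _)))
    (h.vol_le.trans (Finset.sum_le_sum fun i _ => mul_le_mul_right (key i) _))
  rw [ENNReal.toReal_sum fun i _ => ENNReal.mul_ne_top kap_ne_top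
      (ENNReal.mul_ne_top ENNReal.ofReal_ne_top (measure_ne_top _ _))] at h3
  simp only [ENNReal.toReal_mul, ENNReal.toReal_ofReal (hnn _), mul_left_comm (kap (m + 1)).toReal,
    kap_mul_mu, ← Finset.sum_mul, Finset.sum_add_distrib, ← Finset.mul_sum, Finset.sum_const,
    Finset.card_univ, Fintype.card_fin, nsmul_eq_mul] at h3
  rw [Finset.sum_comm]
  refine h3.trans (le_of_eq ?_)
  push_cast
  field_simp

end Pool.Agent.MP_5f4cdd_gt
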