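import Pool.Agent.MP_5f4cdd_gt.UnifBary

set_option autoImplicit false
open MeasureTheory ENNReal Set Matrix Topology Filter

namespace Pool.Agent.MP_5f4cdd_gt

variable {n : ℕ}

lemma setIntegral_image_sub (a : E n) (L : Set (E n)) (f : E n → ℝ) :
    ∫ x in (fun z => z - a) '' L, f x = ∫ x in L, f (x - a) := by
  have := (measurePreserving_add_right (volume : Measure (E n)) a).setIntegral_preimage_emb
    (measurableEmbedding_addRight a) (fun x => f (x - a)) L
  simp only [add_sub_cancel_right] at this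
  rw [image_sub_eq, this]

lemma setIntegral_homo (x₀ : E n) {c : ℝ} (hc : 0 < c) (L : Set (E n)) (f : E n → ℝ) :
    ∫ x in (fun z => x₀ + c • (z - x₀)) '' L, f x = c ^ n * ∫ x in L, f (x₀ + c • (x - x₀)) := by
  have h : (fun z => x₀ + c • (z - x₀)) '' L = (fun z => z - (c • x₀ - x₀)) ''
      ((c • LinearMap.id : E n →ₗ[ℝ] E n) '' L) := by
    rw [image_image]
    refine image_congr fun z _ => ?_
    simp only [LinearMap.smul_apply, LinearMap.id_coe, id_eq, smul_sub]; abel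
  rw [h, setIntegral_image_sub, setIntegral_image_lin _ (by rw [det_smul_id]; positivity),
    det_smul_id, abs_of_pos (by positivity)]
  congr 1
  refine integral_congr_ae (Eventually.of_forall fun z => ?_)
  simp only [LinearMap.smul_apply, LinearMap.id_coe, id_eq, smul_sub]
  congr 1; abel

lemma Lap_nonneg (p : ℝ) (L : Set (E n)) (y : E n) : 0 ≤ Lap p L y :=
  integral_nonneg fun _ => (Real.exp_pos _).le

lemma Lap_mono (p : ℝ) (y : E n) {L L' : Set (E n)} (h : L ⊆ L') {r : ℝ} (hr : 0 ≤ r)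
    (h' : L' ⊆ cS n r) : Lap p L y ≤ Lap p L' y :=
  setIntegral_mono_set (integrableOn_exp_dot p y hr h')
    (Eventually.of_forall fun _ => (Real.exp_pos _).le) h.eventuallyLE

lemma Lap_sdiff (p : ℝ) (y : E n) {L : Set (E n)} (hm : MeasurableSet L) (h : L ⊆ cS n 1) :
    Lap p (cS n 1 \ L) y = Zs p y - Lap p L y :=
  setIntegral_sdiff hm (integrableOn_exp_dot p y zero_le_one subset_rfl) h

lemma Zs_smul (p : ℝ) {x₀ : E n} (hx : x₀ ∈ cS n 1) {t : ℝ} (ht : 1 ≤ t) (y : E n) :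
    Real.exp (p * ((t - 1) * (x₀ ⬝ᵥ y))) * Zs p y ≤ t ^ n * Zs p (t • y) := by
  have ht0 : 0 < t := by linarith
  have h1 := setIntegral_homo x₀ (inv_pos.2 ht0) (cS n 1) fun x => Real.exp (p * (x ⬝ᵥ (t • y)))
  have h2 : Lap p ((fun z => x₀ + t⁻¹ • (z - x₀)) '' cS n 1) (t • y) ≤ Zs p (t • y) := by
    refine Lap_mono p _ ?_ zero_le_one subset_rfl
    rintro _ ⟨z, hz, rfl⟩
    exact (convex_cS 1).add_smul_sub_mem hx hz ⟨by positivity, inv_le_one_of_one_le₀ ht⟩
  have h3 : ∫ x in cS n 1, Real.exp (p * ((x₀ + t⁻¹ • (x - x₀)) ⬝ᵥ (t • y))) =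
      Real.exp (p * ((t - 1) * (x₀ ⬝ᵥ y))) * Zs p y := by
    rw [Zs, Lap, ← integral_const_mul]
    refine integral_congr_ae (Eventually.of_forall fun z => ?_)
    simp only [← Real.exp_add, add_dotProduct, smul_dotProduct, dotProduct_smul, sub_dotProduct,
      smul_eq_mul]
    congr 1; field_simp; ring
  rw [Lap, h1, h3, inv_pow, inv_mul_le_iff₀ (by positivity)] at h2
  exact h2

/-- Harnack inequality for the dual potential along rays -/
lemma Psi_harnack {p : ℝ} (hp : 0 < p) {x : E n} (hx : x ∈ cS n 1) {s : ℝ} (hs0 : 0 < s)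
    (hs1 : s ≤ 1) :
    Psi p x ≤ (1 + p * (1 - s)) ^ ((n : ℝ) * (2 + 1 / p)) * Psi p (s • x) := by
  set t := 1 + p * (1 - s) with ht
  have ht1 : 1 ≤ t := le_add_of_nonneg_right (mul_nonneg hp.le (by linarith))
  have ht0 : 0 < t := by linarith
  have hR : (1 : ℝ) ≤ 1 + 1 / p / 4 := le_add_of_nonneg_right (by positivity)
  have hsx : s • x ∈ cS n 1 := cS_mono (by linarith) ((smul_mem_cS hs0).2 hx)
  have h1 := Measure.integral_comp_smul_of_nonneg volume
    (fun y : E n => Real.exp (p * (x ⬝ᵥ y)) * Zs p y ^ (-(1 / p) - 1)) t (hR := ht0.le)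
  simp only [Module.finrank_fintype_fun_eq_card, Fintype.card_fin, smul_eq_mul] at h1
  have h2 : Psi p x = t ^ n * ∫ y : E n,
      Real.exp (p * (x ⬝ᵥ (t • y))) * Zs p (t • y) ^ (-(1 / p) - 1) := by
    rw [h1, Psi, ← mul_assoc, mul_inv_cancel₀ (by positivity), one_mul]
  have h3 : ∀ y : E n, Real.exp (p * (x ⬝ᵥ (t • y))) * Zs p (t • y) ^ (-(1 / p) - 1) ≤
      t ^ ((n : ℝ) * (1 + 1 / p)) *
        (Real.exp (p * ((s • x) ⬝ᵥ y)) * Zs p y ^ (-(1 / p) - 1)) := by
    intro y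
    have h4 := Real.log_le_log (mul_pos (Real.exp_pos _) (Zs_pos p y)) (Zs_smul p hx ht1 y)
    rw [Real.log_mul (Real.exp_pos _).ne' (Zs_pos p y).ne', Real.log_exp,
      Real.log_mul (by positivity) (Zs_pos p _).ne', Real.log_pow] at h4
    rw [Real.rpow_def_of_pos (Zs_pos p _), Real.rpow_def_of_pos (Zs_pos p _),
      Real.rpow_def_of_pos ht0, ← Real.exp_add, ← Real.exp_add, ← Real.exp_add, Real.exp_le_exp]
    simp only [dotProduct_smul, smul_dotProduct, smul_eq_mul]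
    have h5 := mul_le_mul_of_nonneg_left h4 (show 0 ≤ 1 + 1 / p by positivity)
    have h6 : (1 + 1 / p) * (p * ((t - 1) * (x ⬝ᵥ y))) = p * (t * x ⬝ᵥ y) - p * (s * x ⬝ᵥ y) := by
      rw [ht]; field_simp; ring
    nlinarith
  have h4 : t ^ ((n : ℝ) * (2 + 1 / p)) = t ^ n * t ^ ((n : ℝ) * (1 + 1 / p)) := by
    rw [← Real.rpow_natCast, ← Real.rpow_add ht0]; ring_nf
  rw [h2, h4, mul_assoc, Psi, ← integral_const_mul (t ^ ((n : ℝ) * (1 + 1 / p)))]
  refine mul_le_mul_of_nonneg_left (integral_mono_of_nonneg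
    (Eventually.of_forall fun y => (ker_pos p x _).le)
    ((integrable_ker hp (cS_mono hR hsx)).const_mul _) (Eventually.of_forall h3)) (by positivity)

lemma Lap_off_corner {p a δ : ℝ} (hp : 0 ≤ p) (ha : 0 ≤ a) {y : E n} {j : Fin (n + 1)}
    (hy : ∀ i, i ≠ j → a ≤ eta y j - eta y i) :
    Lap p (cS n 1 \ corner n j δ) y ≤ 2 ^ n * Real.exp (-(p * a * δ / 2)) * Zs p y := by
  have h1 := Zs_smul p (vtx_mem j) (t := 2) (by norm_num) ((1 / 2 : ℝ) • y)
  rw [smul_smul] at h1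
  norm_num at h1
  have hm : MeasurableSet (cS n 1 \ corner n j δ) :=
    (measurableSet_cS 1).diff (measurableSet_corner j δ)
  have h2 : Lap p (cS n 1 \ corner n j δ) y ≤ Real.exp (-(p * a * δ / 2)) *
      (Real.exp (p * (1 / 2 * eta y j)) * Lap p (cS n 1 \ corner n j δ) ((1 / 2 : ℝ) • y)) := by
    rw [Lap, Lap, ← integral_const_mul, ← integral_const_mul]
    refine setIntegral_mono_on (integrableOn_exp_dot p y zero_le_one sdiff_subset)
      (((integrableOn_exp_dot p _ zero_le_one sdiff_subset).const_mul _).const_mul _) hm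
      fun x hx => ?_
    rw [← Real.exp_add, ← Real.exp_add, Real.exp_le_exp, dotProduct_smul, smul_eq_mul]
    have h3 : lam x j < 1 - δ := by
      by_contra hc
      exact hx.2 ⟨hx.1, not_lt.1 hc⟩
    have h4 : a * (1 - lam x j) ≤ eta y j - x ⬝ᵥ y := by
      rw [eta_sub_dot, ← sum_lam x, ← Finset.add_sum_erase _ _ (Finset.mem_univ j),
        ← Finset.add_sum_erase _ _ (Finset.mem_univ j), add_sub_cancel_left, sub_self, mul_zero,
        zero_add, Finset.mul_sum]
      refine Finset.sum_le_sum fun i hi => ?_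
      rw [mul_comm]
      exact mul_le_mul_of_nonneg_left (hy i (Finset.ne_of_mem_erase hi)) (mem_cS_one.1 hx.1 i)
    have h5 : a * δ ≤ eta y j - x ⬝ᵥ y := le_trans (by nlinarith) h4
    nlinarith [mul_le_mul_of_nonneg_left h5 hp]
  have h3 : Lap p (cS n 1 \ corner n j δ) ((1 / 2 : ℝ) • y) ≤ Zs p ((1 / 2 : ℝ) • y) :=
    Lap_mono p _ sdiff_subset zero_le_one subset_rfl
  calc _ ≤ _ := h2
    _ ≤ Real.exp (-(p * a * δ / 2)) *
      (Real.exp (p * (1 / 2 * eta y j)) * Zs p ((1 / 2 : ℝ) • y)) := by gcongr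
    _ ≤ Real.exp (-(p * a * δ / 2)) * (2 ^ n * Zs p y) :=
      mul_le_mul_of_nonneg_left h1 (Real.exp_pos _).le
    _ = _ := by ring

lemma Lap_corner_scale {p δ c : ℝ} (hp : 0 ≤ p) (hc0 : 0 < c) (hc1 : c ≤ 1) {y : E n}
    {j : Fin (n + 1)} (hy : ∀ i, eta y i ≤ eta y j) :
    c ^ n * Lap p (corner n j δ) y ≤ Lap p (corner n j (c * δ)) y := by
  have h1 := setIntegral_homo (vtx n j) hc0 (corner n j δ) fun x => Real.exp (p * (x ⬝ᵥ y))
  have hsub : (fun z => vtx n j + c • (z - vtx n j)) '' corner n j δ ⊆ corner n j (c * δ) := by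
    rintro _ ⟨z, hz, rfl⟩
    refine ⟨(convex_cS 1).add_smul_sub_mem (vtx_mem j) hz.1 ⟨hc0.le, hc1⟩, ?_⟩
    rw [lam_homo, lam_vtx, Pi.single_eq_same]
    nlinarith [hz.2]
  refine le_trans ?_ (Lap_mono p y hsub zero_le_one (corner_subset j _))
  rw [Lap, Lap, h1]
  refine mul_le_mul_of_nonneg_left (setIntegral_mono_on
    (integrableOn_exp_dot p y zero_le_one (corner_subset j δ)) ?_ (measurableSet_corner j δ)
    fun x hx => ?_) (by positivity)
  · refine (Continuous.continuousOn ?_).integrableOn_compact (isCompact_cS zero_le_one)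
      |>.mono_set (corner_subset j δ)
    exact (continuous_exp_dot p y).comp (by fun_prop)
  · rw [Real.exp_le_exp]
    refine mul_le_mul_of_nonneg_left ?_ hp
    have h4 : 0 ≤ eta y j - x ⬝ᵥ y := by
      rw [eta_sub_dot]
      exact Finset.sum_nonneg fun i _ => mul_nonneg (mem_cS_one.1 hx.1 i) (sub_nonneg.2 (hy i))
    simp only [add_dotProduct, smul_dotProduct, sub_dotProduct, smul_eq_mul]
    change _ ≤ eta y j + c * (x ⬝ᵥ y - eta y j)
    nlinarith

lemma two_pow_le_exp (k : ℕ) : (2 : ℝ) ^ k ≤ Real.exp k := by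
  rw [← Real.exp_one_pow]
  exact pow_le_pow_left₀ (by norm_num) (by linarith [Real.add_one_le_exp (1 : ℝ)]) k

/-- removing a corner of size at least `θ / p` costs an exponential factor -/
lemma Lap_off_corner' {a θ : ℝ} (ha : 0 < a) (hθ : 0 < θ) :
    ∃ c : ℝ, 0 < c ∧ ∀ p δ : ℝ, 0 < p → θ ≤ p * δ → ∀ (y : E n) (j : Fin (n + 1)),
      (∀ i, i ≠ j → a ≤ eta y j - eta y i) →
      Lap p (cS n 1 \ corner n j δ) y ≤ Real.exp (-(p * (c * δ))) * Zs p y := by
  set T : ℝ := 4 * (n + 1) / a with hT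
  have hT0 : 0 < T := by positivity
  have haT : a * T = 4 * (n + 1) := by rw [hT]; field_simp
  refine ⟨min (a / 4) ((θ / T) ^ n / (2 * T)), by positivity, fun p δ hp hδ y j hy => ?_⟩
  have hZ := Zs_pos p y
  have hpδ : 0 < p * δ := hθ.trans_le hδ
  have key : ∀ d : ℝ, T ≤ p * d →
      Lap p (cS n 1 \ corner n j d) y ≤ 1 / 2 * Real.exp (-(p * (a / 4 * d))) * Zs p y := by
    intro d hd
    refine (Lap_off_corner hp.le ha.le hy).trans (mul_le_mul_of_nonneg_right ?_ hZ.le)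
    have h1 := two_pow_le_exp (n + 1)
    have h2 : Real.exp ((n + 1 : ℕ) : ℝ) * Real.exp (-(p * a * d / 2)) ≤
        Real.exp (-(p * (a / 4 * d))) := by
      rw [← Real.exp_add, Real.exp_le_exp]
      push_cast
      nlinarith [mul_le_mul_of_nonneg_left hd ha.le]
    rw [pow_succ] at h1
    nlinarith [mul_le_mul_of_nonneg_right h1 (Real.exp_pos (-(p * a * d / 2))).le]
  rcases le_total T (p * δ) with h | h
  · refine (key δ h).trans (mul_le_mul_of_nonneg_right ?_ hZ.le)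
    have h1 : Real.exp (-(p * (a / 4 * δ))) ≤
        Real.exp (-(p * (min (a / 4) ((θ / T) ^ n / (2 * T)) * δ))) := by
      rw [Real.exp_le_exp]
      nlinarith [mul_le_mul_of_nonneg_right (min_le_left (a / 4) ((θ / T) ^ n / (2 * T))) hpδ.le]
    linarith [Real.exp_pos (-(p * (a / 4 * δ)))]
  · have hy' : ∀ i, eta y i ≤ eta y j := fun i => by
      by_cases hi : i = j
      · rw [hi]
      · linarith [hy i hi]
    have h1 := key (T / p) (by rw [mul_div_cancel₀ _ hp.ne'])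
    have h2 := Lap_corner_scale (δ := T / p) hp.le (div_pos hpδ hT0) ((div_le_one hT0).2 h) hy'
    have h3 : p * δ / T * (T / p) = δ := by field_simp
    rw [h3] at h2
    rw [Lap_sdiff p y (measurableSet_corner _ _) (corner_subset _ _)] at h1 ⊢
    have h4 : Real.exp (-(p * (a / 4 * (T / p)))) ≤ 1 :=
      Real.exp_le_one_iff.2 (neg_nonpos.2 (by positivity))
    have h5 : Zs p y / 2 ≤ Lap p (corner n j (T / p)) y := by nlinarith
    have h6 : (θ / T) ^ n ≤ (p * δ / T) ^ n := by gcongr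
    have h7 : (θ / T) ^ n * (Zs p y / 2) ≤ Lap p (corner n j δ) y :=
      le_trans (mul_le_mul h6 h5 (by positivity) (by positivity)) h2
    have h8 := Real.add_one_le_exp (-(p * (min (a / 4) ((θ / T) ^ n / (2 * T)) * δ)))
    have h9 : p * (min (a / 4) ((θ / T) ^ n / (2 * T)) * δ) ≤ (θ / T) ^ n / 2 := by
      calc _ = min (a / 4) ((θ / T) ^ n / (2 * T)) * (p * δ) := by ring
        _ ≤ (θ / T) ^ n / (2 * T) * T :=
          mul_le_mul (min_le_right _ _) h hpδ.le (by positivity)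
        _ = _ := by field_simp
    nlinarith

/-- if `K` avoids the facets near the vertex `j` by margins `r`, its transform drops -/
lemma Lap_shift {p δ : ℝ} {K : Set (E n)} (hK : K ⊆ cS n 1)
    {j : Fin (n + 1)} {r : Fin (n + 1) → ℝ} (hr : ∀ i, 0 ≤ r i)
    (hKr : ∀ x ∈ K, 1 - δ ≤ lam x j → ∀ i, i ≠ j → r i ≤ lam x i) (y : E n) :
    Lap p K y ≤ Lap p (cS n 1 \ corner n j δ) y +
      Real.exp (-(p * ∑ i, r i * (eta y j - eta y i))) * Lap p (corner n j δ) y := by
  set u : E n := ∑ i, r i • (vtx n j - vtx n i) with hu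
  have hub : ∀ k, bet n u k = (∑ i, r i) * (Pi.single j 1 : E (n + 1)) k - r k := by
    intro k
    simp only [hu, map_sum, map_smul, map_sub, Finset.sum_apply, Pi.smul_apply, Pi.sub_apply,
      bet_vtx, smul_eq_mul, sub_sub_sub_cancel_right, mul_sub, Finset.sum_sub_distrib,
      ← Finset.sum_mul]
    simp [Pi.single_apply]
  have huy : u ⬝ᵥ y = ∑ i, r i * (eta y j - eta y i) := by
    simp [hu, sum_dotProduct, eta, sub_dotProduct]
  have h1 : Lap p K y = Lap p (K ∩ corner n j δ) y + Lap p (K \ corner n j δ) y :=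
    (integral_inter_add_sdiff (measurableSet_corner j δ)
      (integrableOn_exp_dot p y zero_le_one hK)).symm
  have h2 : Lap p (K \ corner n j δ) y ≤ Lap p (cS n 1 \ corner n j δ) y :=
    Lap_mono p y (sdiff_subset_sdiff_left hK) zero_le_one sdiff_subset
  have h3 : Lap p ((fun z => z - (-u)) '' (K ∩ corner n j δ)) y ≤ Lap p (corner n j δ) y := by
    refine Lap_mono p y ?_ zero_le_one (corner_subset j δ)
    rintro _ ⟨x, ⟨hxK, hx⟩, rfl⟩
    have hj : 0 ≤ bet n u j := by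
      rw [hub, Pi.single_eq_same, mul_one, sub_nonneg]
      exact Finset.single_le_sum (fun i _ => hr i) (Finset.mem_univ j)
    simp only [sub_neg_eq_add]
    refine ⟨mem_cS_one.2 fun k => ?_, by rw [lam_add]; linarith [hx.2]⟩
    rw [lam_add]
    by_cases hk : k = j
    · rw [hk]; linarith [mem_cS_one.1 hx.1 j]
    · rw [hub, Pi.single_eq_of_ne hk]
      linarith [hKr x hxK hx.2 k hk]
  rw [Lap_image_sub, neg_dotProduct, huy] at h3
  have h4 := mul_le_mul_of_nonneg_left h3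
    (Real.exp_pos (-(p * ∑ i, r i * (eta y j - eta y i)))).le
  rw [mul_left_comm, ← Real.exp_add] at h4
  simp only [mul_neg, neg_neg, neg_add_cancel, Real.exp_zero, mul_one] at h4
  linarith

lemma exp_mix {β ρ η : ℝ} (hβ : 0 ≤ β) (hρ : 0 ≤ ρ) (h : β * Real.exp ρ ≤ η) :
    β + Real.exp (-ρ) * (1 - β) ≤ Real.exp (-((1 - η) * ρ)) := by
  have h1 : Real.exp (-((1 - η) * ρ)) = Real.exp (-ρ) * Real.exp (η * ρ) := by
    rw [← Real.exp_add]; ring_nf
  have h2 : Real.exp (-ρ) * Real.exp ρ = 1 := by rw [← Real.exp_add]; simp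
  have h3 := Real.add_one_le_exp (-ρ)
  have h4 := Real.add_one_le_exp (η * ρ)
  have h5 := Real.exp_pos (-ρ)
  have h6 : β ≤ Real.exp (-ρ) * η := by
    have := mul_le_mul_of_nonneg_left h h5.le
    nlinarith
  rw [h1]
  nlinarith [mul_le_mul_of_nonneg_left h4 h5.le, mul_le_mul_of_nonneg_right h6 hρ,
    mul_le_mul_of_nonneg_left h3 hβ]

lemma Lap_shift' {p δ a b η : ℝ} (hp : 0 ≤ p) (ha : 0 ≤ a) {K : Set (E n)}
    (hK : K ⊆ cS n 1)
    {j : Fin (n + 1)} {r : Fin (n + 1) → ℝ} (hr : ∀ i, 0 ≤ r i)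
    (hKr : ∀ x ∈ K, 1 - δ ≤ lam x j → ∀ i, i ≠ j → r i ≤ lam x i)
    (hb : (∑ i, r i) * b ≤ a * δ / 4) (hη : 2 ^ n * Real.exp (-(p * a * δ / 4)) ≤ η)
    {y : E n} (hy : ∀ i, i ≠ j → eta y j - eta y i ∈ Icc a b) (hab : a ≤ b) :
    Lap p K y ≤ Real.exp (-(p * ((1 - η) * ∑ i, r i * (eta y j - eta y i)))) * Zs p y := by
  have h1 := Lap_shift (p := p) hK hr hKr y
  have h2 := Lap_off_corner (δ := δ) hp ha (fun i hi => (hy i hi).1)
  have h3 := Lap_sdiff p y (measurableSet_corner j δ) (corner_subset j δ)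
  have hZ := Zs_pos p y
  set R := ∑ i, r i * (eta y j - eta y i) with hR
  have hR0 : 0 ≤ R := Finset.sum_nonneg fun i _ => by
    by_cases hi : i = j
    · simp [hi]
    · exact mul_nonneg (hr i) (ha.trans (hy i hi).1)
  have hRb : R ≤ (∑ i, r i) * b := by
    rw [Finset.sum_mul]
    refine Finset.sum_le_sum fun i _ => mul_le_mul_of_nonneg_left ?_ (hr i)
    by_cases hi : i = j
    · simp [hi, ha.trans hab]
    · exact (hy i hi).2
  set β := Lap p (cS n 1 \ corner n j δ) y / Zs p y with hβ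
  have hβ0 : 0 ≤ β := div_nonneg (Lap_nonneg _ _ _) hZ.le
  have hβ1 : Lap p (cS n 1 \ corner n j δ) y = β * Zs p y := by rw [hβ]; field_simp
  have h4 : β * Real.exp (p * R) ≤ η := by
    have h5 : β ≤ 2 ^ n * Real.exp (-(p * a * δ / 2)) := by rw [hβ, div_le_iff₀ hZ]; exact h2
    refine le_trans (mul_le_mul_of_nonneg_right h5 (Real.exp_pos _).le) (le_trans ?_ hη)
    rw [mul_assoc, ← Real.exp_add]
    gcongr
    nlinarith [mul_le_mul_of_nonneg_left (hRb.trans hb) hp]
  have h5 := mul_le_mul_of_nonneg_right (exp_mix hβ0 (mul_nonneg hp hR0) h4) hZ.le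
  have h6 : Lap p (corner n j δ) y = (1 - β) * Zs p y := by linarith
  rw [hβ1, h6] at h1
  rw [mul_left_comm]
  linarith

end Pool.Agent.MP_5f4cdd_gt
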