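import Pool.Agent.MP_5f4cdd_gt.Unif

set_option autoImplicit false
open MeasureTheory ENNReal Set Matrix Topology Filter

namespace Pool.Agent.MP_5f4cdd_gt

variable {n : ℕ}

/-- volume of the centred simplex -/
noncomputable def Vs (n : ℕ) : ℝ := (volume (cS n 1)).toReal

lemma Vs_pos : 0 < Vs n :=
  ENNReal.toReal_pos (volume_cS_pos one_pos).ne' (volume_cS_lt_top zero_le_one).ne

/-- moment generating function of the centred simplex -/
noncomputable def Mg (ξ : E n) : ℝ := Zs 1 ξ / Vs n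

/-- support function of the centred simplex -/
noncomputable def hs (ξ : E n) : ℝ := supp (cS n 1) ξ

lemma Zs_eq_Mg (p : ℝ) (y : E n) : Zs p y = Vs n * Mg (p • y) := by
  rw [Mg, mul_div_cancel₀ _ Vs_pos.ne']
  simp [Zs, Lap]

lemma Mg_pos (ξ : E n) : 0 < Mg ξ := div_pos (Zs_pos 1 ξ) Vs_pos

lemma measurable_Mg : Measurable (Mg (n := n)) := (measurable_Zs 1).div_const _

lemma continuous_hs : Continuous (hs (n := n)) := continuous_supp (isCompact_cS zero_le_one)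

lemma hs_smul {c : ℝ} (hc : 0 ≤ c) (ξ : E n) : hs (c • ξ) = c * hs ξ :=
  supp_smul (isCompact_cS zero_le_one) ⟨_, vtx_mem 0⟩ hc ξ

lemma dot_le_hs {x : E n} (hx : x ∈ cS n 1) (ξ : E n) : x ⬝ᵥ ξ ≤ hs ξ :=
  le_supp (isCompact_cS zero_le_one) hx ξ

lemma hs_nonneg (ξ : E n) : 0 ≤ hs ξ := by
  simpa using dot_le_hs (interior_subset (zero_mem_interior_cS one_pos)) ξ

lemma exists_hs (ξ : E n) : ∃ j, hs ξ = eta ξ j ∧ ∀ i, eta ξ i ≤ eta ξ j := by
  obtain ⟨j, -, hj⟩ := Finset.exists_max_image Finset.univ (eta ξ) Finset.univ_nonempty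
  refine ⟨j, le_antisymm ?_ (dot_le_hs (vtx_mem j) ξ), fun i => hj i (Finset.mem_univ i)⟩
  obtain ⟨x, hx, he⟩ := exists_supp (isCompact_cS (n := n) zero_le_one) ⟨_, vtx_mem 0⟩ ξ
  rw [hs, ← he, ← sub_nonneg, eta_sub_dot]
  exact Finset.sum_nonneg fun i _ =>
    mul_nonneg (mem_cS_one.1 hx i) (sub_nonneg.2 (hj i (Finset.mem_univ i)))

lemma image_Tp (σ : Equiv.Perm (Fin (n + 1))) : Tp σ '' cS n 1 = cS n 1 := by
  ext z
  constructor
  · rintro ⟨x, hx, rfl⟩; exact (Tp_mem_cS σ).2 hx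
  · intro hz
    exact ⟨Tp σ⁻¹ z, (Tp_mem_cS _).2 hz, by rw [Tp_Tp, inv_mul_cancel, Tp_one]⟩

lemma hs_adj (σ : Equiv.Perm (Fin (n + 1))) (ξ : E n) : hs (adj (Tp σ) ξ) = hs ξ := by
  rw [hs, ← supp_image_lin, image_Tp, hs]

lemma sum_gap (ξ : E n) (j : Fin (n + 1)) : ∑ i, (eta ξ j - eta ξ i) = (n + 1) * eta ξ j := by
  simp [Finset.sum_sub_distrib, sum_eta]

lemma dot_eq_bet (x ξ : E n) : x ⬝ᵥ ξ = ∑ i, bet n x i * eta ξ i := by
  simp only [dot_eq_sum, lam, add_mul, Finset.sum_add_distrib, ← Finset.mul_sum, sum_eta, mul_zero,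
    add_zero]

lemma abs_dot_le {r : ℝ} (hr : 0 ≤ r) {x : E n} (hx : x ∈ cS n r) (ξ : E n) :
    |x ⬝ᵥ ξ| ≤ r * (n + 1) * hs ξ := by
  obtain ⟨j, he, hj⟩ := exists_hs ξ
  have h1 : x ⬝ᵥ ξ = ∑ i, -(bet n x i * (eta ξ j - eta ξ i)) := by
    simp only [mul_sub, neg_sub, Finset.sum_sub_distrib, ← Finset.sum_mul, sum_bet, zero_mul,
      sub_zero, dot_eq_bet]
  rw [h1, he, mul_assoc, ← sum_gap, Finset.mul_sum]
  refine (Finset.abs_sum_le_sum_abs _ _).trans (Finset.sum_le_sum fun i _ => ?_)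
  rw [abs_neg, abs_mul, abs_of_nonneg (sub_nonneg.2 (hj i))]
  exact mul_le_mul_of_nonneg_right (abs_bet_le hr hx i) (sub_nonneg.2 (hj i))

lemma integrableOn_cS {f : E n → ℝ} (hf : Continuous f) : IntegrableOn f (cS n 1) :=
  hf.continuousOn.integrableOn_compact (isCompact_cS zero_le_one)

lemma integral_dot_cS (ξ : E n) : ∫ z in cS n 1, z ⬝ᵥ ξ = 0 := by
  have h1 : ∀ j, ∫ z in cS n 1, lam z j = (mu n univ).toReal / (n + 1) := by
    intro j
    rw [← integral_coord_mu j, mu, integral_map continuous_ubet.measurable.aemeasurable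
      (measurable_pi_apply j).aestronglyMeasurable]
    simp only [lam, Pi.add_apply, uu, add_comm]
  simp only [dot_eq_sum]
  rw [integral_finsetSum _ fun j _ => (integrableOn_cS (continuous_lam j)).mul_const _]
  simp only [integral_mul_const, h1, ← Finset.mul_sum, sum_eta, mul_zero]

lemma integral_affine_cS (c : ℝ) (ξ : E n) : ∫ z in cS n 1, (c + z ⬝ᵥ ξ) = Vs n * c := by
  rw [integral_add (integrableOn_cS continuous_const) (integrableOn_cS (continuous_dot_left ξ)),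
    integral_dot_cS, add_zero, setIntegral_const, smul_eq_mul]
  rfl

lemma Zs_one (ξ : E n) : Zs 1 ξ = ∫ z in cS n 1, Real.exp (z ⬝ᵥ ξ) := by simp [Zs, Lap]

lemma continuous_exp_dot' (ξ : E n) : Continuous fun z : E n => Real.exp (z ⬝ᵥ ξ) :=
  Real.continuous_exp.comp (continuous_dot_left ξ)

lemma Mg_le_exp (ξ : E n) : Mg ξ ≤ Real.exp (hs ξ) := by
  have := Lap_le_exp zero_le_one (isCompact_cS zero_le_one) fun x hx => dot_le_hs hx ξ
  rw [one_mul] at this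
  rw [Mg, div_le_iff₀' Vs_pos]
  exact this

lemma Mg_le_quad {ξ : E n} (h : (n + 1) * hs ξ ≤ 1) : Mg ξ ≤ 1 + ((n + 1) * hs ξ) ^ 2 := by
  rw [Mg, div_le_iff₀' Vs_pos, ← integral_affine_cS _ ξ, Zs_one]
  refine setIntegral_mono_on (integrableOn_cS (continuous_exp_dot' ξ))
    (integrableOn_cS (continuous_const.add (continuous_dot_left ξ))) (measurableSet_cS 1)
    fun z hz => ?_
  have h1 := abs_dot_le zero_le_one hz ξ
  rw [one_mul] at h1
  have h2 := (abs_le.1 (Real.abs_exp_sub_one_sub_id_le (h1.trans h))).2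
  have h3 : (z ⬝ᵥ ξ) ^ 2 ≤ ((n + 1) * hs ξ) ^ 2 := sq_le_sq' (abs_le.1 h1).1 (abs_le.1 h1).2
  linarith

lemma Mg_lower (n : ℕ) : ∃ c : ℝ, 0 < c ∧ ∀ ξ : E n,
    1 + c * hs ξ ^ 2 ≤ Mg ξ ∧ c * Real.exp (hs ξ / 2) ≤ Mg ξ := by
  set d : ℝ := 1 / (2 * (n + 1)) with hd
  have hd0 : 0 < d := by positivity
  have hde : d * (n + 1) = 1 / 2 := by rw [hd]; field_simp
  have hd1 : d ≤ 1 := by nlinarith [(Nat.cast_nonneg n : (0 : ℝ) ≤ n)]
  refine ⟨d ^ n / 8, by positivity, fun ξ => ?_⟩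
  obtain ⟨j, he, hj⟩ := exists_hs ξ
  have hs0 := hs_nonneg ξ
  have hV := Vs_pos (n := n)
  have hm := measurableSet_corner (n := n) j d
  have h1 : d ^ n * Vs n ≤ volume.real (corner n j d) := by
    have h2 := Lap_corner_scale (p := 0) (δ := 1) le_rfl hd0 hd1 hj
    have h3 : corner n j 1 = cS n 1 :=
      (corner_subset j 1).antisymm fun x hx => ⟨hx, by simpa using mem_cS_one.1 hx j⟩
    simpa [Lap, h3, Vs, measureReal_def] using h2
  have h2 : ∀ z ∈ corner n j d, hs ξ / 2 ≤ z ⬝ᵥ ξ := by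
    intro z hz
    have h3 : eta ξ j - z ⬝ᵥ ξ ≤ ∑ i, d * (eta ξ j - eta ξ i) := by
      rw [eta_sub_dot]
      refine Finset.sum_le_sum fun i _ => ?_
      by_cases hi : i = j
      · simp [hi]
      · exact mul_le_mul_of_nonneg_right (by linarith [lam_le hz.1 hi, hz.2]) (sub_nonneg.2 (hj i))
    rw [← Finset.mul_sum, sum_gap, ← mul_assoc, hde] at h3
    linarith
  have key : ∀ (g : E n → ℝ) (a : ℝ), Continuous g → 0 ≤ a → (∀ z, 0 ≤ g z) →
      (∀ z ∈ corner n j d, a ≤ g z) → d ^ n * Vs n * a ≤ ∫ z in cS n 1, g z := by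
    intro g a hg ha h0 h
    have h4 := setIntegral_ge_of_const_le_real hm (ne_top_of_le_ne_top
      (volume_cS_lt_top zero_le_one).ne (measure_mono (corner_subset j d))) h
      ((integrableOn_cS hg).mono_set (corner_subset j d))
    have h5 := setIntegral_mono_set (integrableOn_cS hg) (Eventually.of_forall h0)
      (corner_subset j d).eventuallyLE
    nlinarith [mul_le_mul_of_nonneg_right h1 ha]
  constructor
  · have h3 := key (fun z => Real.exp (z ⬝ᵥ ξ) - (1 + z ⬝ᵥ ξ)) (hs ξ ^ 2 / 8)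
      ((continuous_exp_dot' ξ).sub (continuous_const.add (continuous_dot_left ξ))) (by positivity)
      (fun z => by linarith [Real.add_one_le_exp (z ⬝ᵥ ξ)]) fun z hz => by
        have h4 := h2 z hz
        nlinarith [Real.quadratic_le_exp_of_nonneg (show 0 ≤ z ⬝ᵥ ξ by linarith)]
    rw [integral_sub (g := fun z => 1 + z ⬝ᵥ ξ) (integrableOn_cS (continuous_exp_dot' ξ))
      (integrableOn_cS (continuous_const.add (continuous_dot_left ξ))), integral_affine_cS,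
      ← Zs_one] at h3
    rw [Mg, le_div_iff₀ hV]
    linarith
  · have h3 := key (fun z => Real.exp (z ⬝ᵥ ξ)) (Real.exp (hs ξ / 2)) (continuous_exp_dot' ξ)
      (Real.exp_pos _).le (fun z => (Real.exp_pos _).le) fun z hz => Real.exp_le_exp.2 (h2 z hz)
    rw [← Zs_one] at h3
    rw [Mg, le_div_iff₀ hV]
    have : 0 < d ^ n * Vs n * Real.exp (hs ξ / 2) := by positivity
    linarith

lemma one_le_Mg (ξ : E n) : 1 ≤ Mg ξ := by
  obtain ⟨c, hc, h⟩ := Mg_lower n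
  nlinarith [(h ξ).1, sq_nonneg (hs ξ)]

lemma Mg_smul_le {t : ℝ} (h0 : 0 ≤ t) (h1 : t ≤ 1) (ξ : E n) : Mg (t • ξ) ≤ Mg ξ ^ t := by
  have hM := Mg_pos ξ
  have hV := Vs_pos (n := n)
  have h2 : Zs 1 (t • ξ) ≤ ∫ z in cS n 1,
      Mg ξ ^ t * ((1 - t) + t / Mg ξ * Real.exp (z ⬝ᵥ ξ)) := by
    rw [Zs_one]
    refine setIntegral_mono_on (integrableOn_cS (continuous_exp_dot' _)) (integrableOn_cS
      (continuous_const.mul (continuous_const.add (continuous_const.mul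
        (continuous_exp_dot' ξ))))) (measurableSet_cS 1) fun z _ => ?_
    have h3 := rpow_one_add_le_one_add_mul_self (s := Real.exp (z ⬝ᵥ ξ) / Mg ξ - 1)
      (by linarith [div_pos (Real.exp_pos (z ⬝ᵥ ξ)) hM]) h0 h1
    rw [add_sub_cancel, Real.div_rpow (Real.exp_pos _).le hM.le, ← Real.exp_mul,
      div_le_iff₀' (by positivity)] at h3
    rw [dotProduct_smul, smul_eq_mul, mul_comm t]
    refine h3.trans (le_of_eq ?_)
    ring
  rw [integral_const_mul, integral_add (integrableOn_cS continuous_const)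
    ((integrableOn_cS (continuous_exp_dot' ξ)).const_mul _), integral_const_mul (t / Mg ξ),
    ← Zs_one, setIntegral_const, smul_eq_mul] at h2
  have h3 : Zs 1 ξ = Vs n * Mg ξ := by rw [Zs_eq_Mg, one_smul]
  rw [Mg, div_le_iff₀ hV]
  refine h2.trans (le_of_eq ?_)
  rw [h3, measureReal_def]
  change _ * (Vs n * _ + _) = _
  field_simp
  ring

lemma exp_sub_le_Mg (n : ℕ) : ∃ k : ℝ, 1 ≤ k ∧ ∀ x ∈ cS n (5 / 4), ∀ ξ : E n,
    Real.exp (x ⬝ᵥ ξ) - x ⬝ᵥ ξ ≤ Mg ξ ^ k := by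
  obtain ⟨c, hc, h⟩ := Mg_lower n
  set A : ℝ := 5 / 4 * (n + 1) with hA
  have hA1 : 1 ≤ A := by rw [hA]; linarith [(Nat.cast_nonneg n : (0 : ℝ) ≤ n)]
  have hA0 : 0 < A := by linarith
  obtain ⟨k₁, hk₁⟩ := pow_unbounded_of_one_lt (1 / c) (show 1 < 1 + c / A ^ 2 from
    lt_add_of_pos_right _ (by positivity))
  refine ⟨max (A ^ 2 / c + 1) ((k₁ + 1) * (2 * A)), le_max_of_le_left
    (le_add_of_nonneg_left (by positivity)), fun x hx ξ => ?_⟩
  have h1 := abs_dot_le (by norm_num) hx ξ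
  rw [← hA] at h1
  have hM := one_le_Mg ξ
  have hs0 := hs_nonneg ξ
  set u := x ⬝ᵥ ξ with hu
  rcases le_total (A * hs ξ) 1 with h2 | h2
  · refine le_trans ?_ (Real.rpow_le_rpow_of_exponent_le hM (le_max_left _ _))
    have h3 := (abs_le.1 (Real.abs_exp_sub_one_sub_id_le (h1.trans h2))).2
    have h4 : u ^ 2 ≤ (A * hs ξ) ^ 2 := sq_le_sq' (abs_le.1 h1).1 (abs_le.1 h1).2
    have h5 := one_add_mul_self_le_rpow_one_add (s := Mg ξ - 1) (by linarith)
      (p := A ^ 2 / c + 1) (le_add_of_nonneg_left (by positivity))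
    rw [add_sub_cancel] at h5
    have h6 : A ^ 2 / c * (c * hs ξ ^ 2) ≤ A ^ 2 / c * (Mg ξ - 1) :=
      mul_le_mul_of_nonneg_left (by linarith [(h ξ).1]) (by positivity)
    have h7 : A ^ 2 / c * (c * hs ξ ^ 2) = (A * hs ξ) ^ 2 := by field_simp
    nlinarith
  · refine le_trans ?_ (Real.rpow_le_rpow_of_exponent_le hM (le_max_right _ _))
    have h3 : Real.exp u - u ≤ Real.exp (A * hs ξ) := by
      refine le_trans ?_ (Real.exp_le_exp.2 h1)
      rcases le_total 0 u with h | h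
      · rw [abs_of_nonneg h]; linarith
      · rw [abs_of_nonpos h]
        linarith [Real.add_one_le_exp (-u), Real.exp_le_one_iff.2 h]
    have h4 : 1 + c / A ^ 2 ≤ Mg ξ := by
      refine le_trans ?_ (h ξ).1
      have : c / A ^ 2 ≤ c * hs ξ ^ 2 := by
        rw [div_le_iff₀ (by positivity), mul_assoc]
        exact le_mul_of_one_le_right hc.le (by nlinarith)
      linarith
    have h5 : 1 / c ≤ Mg ξ ^ k₁ := hk₁.le.trans (pow_le_pow_left₀ (by positivity) h4 _)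
    have h6 : Real.exp (hs ξ / 2) ≤ Mg ξ ^ (k₁ + 1) := by
      have h7 := mul_le_mul h5 (h ξ).2 (by positivity) (by positivity)
      rw [← mul_assoc, one_div_mul_cancel hc.ne', one_mul] at h7
      rwa [pow_succ]
    have h7 := Real.rpow_le_rpow (Real.exp_pos _).le h6 (show 0 ≤ 2 * A by positivity)
    rw [← Real.exp_mul, ← Real.rpow_natCast, ← Real.rpow_mul (by linarith)] at h7
    push_cast at h7
    refine h3.trans (le_trans (le_of_eq ?_) h7)
    ring_nf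

lemma exp_le_Mg (n : ℕ) {a : ℝ} (ha : 0 < a) : ∃ C : ℝ, 0 < C ∧ ∀ x ∈ cS n (1 + a / 4), ∀ ξ : E n,
    Real.exp (x ⬝ᵥ ξ) ≤ C * Mg ξ ^ (1 + a / 2) := by
  set τ := (1 + a / 4) / (1 + a / 2) with hτ
  have hτ0 : 0 < τ := by positivity
  have hτ1 : τ < 1 := by rw [hτ, div_lt_one (by positivity)]; linarith
  have hτe : τ * (1 + a / 2) = 1 + a / 4 := by rw [hτ]; field_simp
  obtain ⟨c, hc⟩ := Lap_lower (n := n) one_pos (t := 1 - τ) (by linarith) (by linarith)
  refine ⟨Real.exp ((Real.log (Vs n) - c) * (1 + a / 2)), Real.exp_pos _, fun x hx ξ => ?_⟩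
  have hx₀ : (1 + a / 4)⁻¹ • x ∈ cS n 1 := by
    have := (smul_mem_cS (a := (1 + a / 4)⁻¹) (by positivity)).2 hx
    rwa [inv_mul_cancel₀ (by positivity)] at this
  have h2 := hc _ hx₀ ξ
  change _ ≤ Real.log (Zs 1 ξ) at h2
  rw [Zs_eq_Mg, one_smul, Real.log_mul Vs_pos.ne' (Mg_pos ξ).ne', smul_dotProduct, smul_eq_mul,
    _root_.sub_sub_cancel, one_mul] at h2
  rw [Real.rpow_def_of_pos (Mg_pos ξ), ← Real.exp_add, Real.exp_le_exp]
  have h3 := mul_le_mul_of_nonneg_right h2 (show 0 ≤ 1 + a / 2 by positivity)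
  have h4 : τ * ((1 + a / 4)⁻¹ * x ⬝ᵥ ξ) * (1 + a / 2) = x ⬝ᵥ ξ := by
    rw [mul_right_comm, hτe]; field_simp
  linarith

end Pool.Agent.MP_5f4cdd_gt
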