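import Pool.Agent.MP_5f4cdd_gt.Inf

set_option autoImplicit false
open MeasureTheory ENNReal Set Matrix Topology Filter

namespace Pool.Agent.MP_5f4cdd_gt

variable {n : ℕ}

/-- functionals whose gaps at the vertex `j` all lie in `B` -/
def box (n : ℕ) (j : Fin (n + 1)) (B : Set ℝ) : Set (E n) :=
  {y | ∀ i, i ≠ j → eta y j - eta y i ∈ B}

lemma measurableSet_box (j : Fin (n + 1)) {B : Set ℝ} (hB : MeasurableSet B) :
    MeasurableSet (box n j B) := by
  have : box n j B = ⋂ i, ⋂ (_ : i ≠ j), (fun y => eta y j - eta y i) ⁻¹' B := by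
    ext; simp [box]
  rw [this]
  exact MeasurableSet.iInter fun i => MeasurableSet.iInter fun _ =>
    hB.preimage ((continuous_eta j).sub (continuous_eta i)).measurable

lemma integral_prod_eta (σ : Equiv.Perm (Fin (n + 1))) (f : Fin n → ℝ → ℝ) :
    ∫ y : E n, ∏ i, f i (eta y (σ 0) - eta y (σ i.succ)) = ∏ i, ∫ t, f i t := by
  rw [← integral_comp_adj σ]
  simp only [eta_adj, eta_zero_sub]
  rw [integral_fintype_prod_volume_eq_prod (fun i t => f i (-t))]
  exact Finset.prod_congr rfl fun i _ => integral_neg_eq_self _ _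

lemma sum_eta (y : E n) : ∑ j, eta y j = 0 := by
  have h := dot_eq_sum 0 y
  simp only [zero_dotProduct, lam, map_zero, Pi.zero_apply, zero_add, ← Finset.mul_sum] at h
  exact (mul_eq_zero.1 h.symm).resolve_left (by positivity)

lemma exp_eta (σ : Equiv.Perm (Fin (n + 1))) (y : E n) : Real.exp (-eta y (σ 0)) =
    ∏ i : Fin n, Real.exp (-(eta y (σ 0) - eta y (σ i.succ)) / (n + 1)) := by
  rw [← Real.exp_sum, ← Finset.sum_div]
  congr 1
  have h := (Equiv.sum_comp σ (eta y)).trans (sum_eta y)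
  rw [Fin.sum_univ_succ] at h
  simp only [neg_sub, Finset.sum_sub_distrib, Finset.sum_const, Finset.card_univ,
    Fintype.card_fin, nsmul_eq_mul]
  field_simp
  linarith

lemma integral_box (σ : Equiv.Perm (Fin (n + 1))) {B : Set ℝ} (hB : MeasurableSet B)
    (g : Fin n → ℝ → ℝ) :
    ∫ y in box n (σ 0) B, ∏ i, g i (eta y (σ 0) - eta y (σ i.succ)) = ∏ i, ∫ t in B, g i t := by
  simp only [← integral_indicator hB, ← integral_indicator (measurableSet_box _ hB)]
  rw [← integral_prod_eta σ]
  refine integral_congr_ae (Eventually.of_forall fun y => ?_)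
  by_cases hy : y ∈ box n (σ 0) B
  · rw [indicator_of_mem hy]
    exact Finset.prod_congr rfl fun i _ =>
      (indicator_of_mem (hy _ (σ.injective.ne (Fin.succ_ne_zero i))) _).symm
  · rw [indicator_of_notMem hy]
    simp only [box, mem_ofPred_eq, not_forall] at hy
    obtain ⟨i, hi, hy⟩ := hy
    obtain ⟨k, hk⟩ := Fin.exists_succ_eq.2 (show σ.symm i ≠ 0 from fun h => hi (by
      rw [← h, Equiv.apply_symm_apply]))
    refine (Finset.prod_eq_zero (Finset.mem_univ k) ?_).symm
    rw [hk, Equiv.apply_symm_apply]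
    exact indicator_of_notMem hy _

lemma integral_box_exp (j : Fin (n + 1)) {B : Set ℝ} (hB : MeasurableSet B) :
    ∫ y in box n j B, Real.exp (-eta y j) = (∫ t in B, Real.exp (-t / (n + 1))) ^ n := by
  have h := integral_box (Equiv.swap 0 j) hB fun _ t => Real.exp (-t / (n + 1))
  simp only [← exp_eta (Equiv.swap 0 j)] at h
  simpa using h

lemma integral_box_lin {j i : Fin (n + 1)} (hij : i ≠ j) {B : Set ℝ} (hB : MeasurableSet B)
    {c : ℝ} (hc : 0 ≤ c) (h0 : c ≤ ∫ t in B, Real.exp (-t / (n + 1)))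
    (h1 : (n + 1) * c ≤ ∫ t in B, t * Real.exp (-t / (n + 1))) :
    (n + 1) * c ^ n ≤ ∫ y in box n j B, (eta y j - eta y i) * Real.exp (-eta y j) := by
  set σ := Equiv.swap 0 j with hσ
  have hσ0 : σ 0 = j := Equiv.swap_apply_left _ _
  obtain ⟨k, hk⟩ := Fin.exists_succ_eq.2 (show σ.symm i ≠ 0 from fun h => hij (by
    rw [← hσ0, ← h, Equiv.apply_symm_apply]))
  have hki : σ k.succ = i := by rw [hk, Equiv.apply_symm_apply]
  have h := integral_box σ hB fun l t => (if l = k then t else 1) * Real.exp (-t / (n + 1))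
  simp only [Finset.prod_mul_distrib, ← exp_eta σ] at h
  simp only [Finset.prod_ite_eq', Finset.mem_univ, if_true, hσ0, hki] at h
  rw [h]
  calc _ = ∏ l : Fin n, ((if l = k then (n + 1 : ℝ) else 1) * c) := by
        rw [Finset.prod_mul_distrib]; simp
    _ ≤ _ := Finset.prod_le_prod (fun l _ => by split_ifs <;> positivity) fun l _ => by
        split_ifs
        · exact h1
        · simpa using h0

lemma integral_exp_Ioi {N : ℝ} (hN : 0 < N) : ∫ t in Ioi (0 : ℝ), Real.exp (-t / N) = N := by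
  have := integral_exp_mul_Ioi (a := -N⁻¹) (by simpa using hN) 0
  simp only [mul_zero, Real.exp_zero] at this
  convert this using 4
  · ring
  · simp

lemma integral_mul_exp_Ioi {N : ℝ} (hN : 0 < N) :
    ∫ t in Ioi (0 : ℝ), t * Real.exp (-t / N) = N * N := by
  have := Real.integral_rpow_mul_exp_neg_mul_Ioi (a := 2) (r := N⁻¹) two_pos (by positivity)
  norm_num at this
  convert this using 5
  · ring
  · ring

lemma one_dim {N η : ℝ} (hN : 0 < N) (hη : 0 < η) : ∃ a b : ℝ, 0 < a ∧ a ≤ b ∧
    (1 - η) * N ≤ ∫ t in Icc a b, Real.exp (-t / N) ∧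
    N * ((1 - η) * N) ≤ ∫ t in Icc a b, t * Real.exp (-t / N) := by
  have hU : (⋃ k : ℕ, Icc (1 / ((k : ℝ) + 1)) ((k : ℝ) + 1)) = Ioi 0 := by
    ext t
    simp only [mem_iUnion, mem_Icc, mem_Ioi]
    constructor
    · rintro ⟨k, h, -⟩; exact lt_of_lt_of_le (by positivity) h
    · intro ht
      obtain ⟨k, hk⟩ := exists_nat_gt (max t (1 / t))
      refine ⟨k, ?_, by linarith [le_max_left t (1 / t)]⟩
      rw [one_div_le (by positivity) ht]
      linarith [le_max_right t (1 / t)]
  have hmono : Monotone fun k : ℕ => Icc (1 / ((k : ℝ) + 1)) ((k : ℝ) + 1) := by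
    intro k l hkl
    have : (k : ℝ) ≤ l := Nat.cast_le.2 hkl
    exact Icc_subset_Icc (one_div_le_one_div_of_le (by positivity) (by linarith)) (by linarith)
  have key : ∀ (f : ℝ → ℝ) (c : ℝ), 0 < c → ∫ t in Ioi (0 : ℝ), f t = c →
      ∀ᶠ k : ℕ in atTop, (1 - η) * c < ∫ t in Icc (1 / ((k : ℝ) + 1)) ((k : ℝ) + 1), f t := by
    intro f c hc hf
    have := tendsto_setIntegral_of_monotone (f := f) (μ := volume) (fun _ => measurableSet_Icc)
      hmono (by rw [hU]; exact Integrable.of_integral_ne_zero (by rw [hf]; exact hc.ne'))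
    rw [hU, hf] at this
    exact this.eventually (lt_mem_nhds (by nlinarith))
  obtain ⟨k, h1, h2⟩ := ((key _ _ hN (integral_exp_Ioi hN)).and
    (key _ _ (by positivity) (integral_mul_exp_Ioi hN))).exists
  refine ⟨_, _, by positivity, ?_, h1.le, by linarith⟩
  have : (0 : ℝ) ≤ k := Nat.cast_nonneg k
  rw [div_le_iff₀ (by positivity)]
  nlinarith

lemma mahlerInf_cS_le_pow :
    mahlerInf (cS n 1) ≤ volume (cS n 1) * ENNReal.ofReal ((n + 1) ^ (n + 1)) := by
  rw [mahlerInf_eq]
  gcongr
  have h1 : ∀ j, ∫⁻ y in box n j (Ici 0), ENNReal.ofReal (Real.exp (-eta y j)) =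
      ENNReal.ofReal ((n + 1) ^ n) := by
    intro j
    have h2 := integral_box_exp j (measurableSet_Ici (a := (0 : ℝ)))
    rw [integral_Ici_eq_integral_Ioi, integral_exp_Ioi (by positivity)] at h2
    rw [← h2, ofReal_integral_eq_lintegral_ofReal
      (Integrable.of_integral_ne_zero (by rw [h2]; positivity))
      (Eventually.of_forall fun _ => (Real.exp_pos _).le)]
  calc _ ≤ ∫⁻ y : E n, ∑ j, (box n j (Ici 0)).indicator
        (fun y => ENNReal.ofReal (Real.exp (-eta y j))) y := by
        refine lintegral_mono fun y => ?_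
        obtain ⟨j, -, hj⟩ := Finset.exists_max_image Finset.univ (eta y) Finset.univ_nonempty
        refine le_trans ?_ (Finset.single_le_sum (fun _ _ => zero_le) (Finset.mem_univ j))
        have hy : y ∈ box n j (Ici 0) := fun i _ => sub_nonneg.2 (hj i (Finset.mem_univ i))
        rw [indicator_of_mem hy]
        exact ENNReal.ofReal_le_ofReal (Real.exp_le_exp.2 (neg_le_neg
          (le_supp (isCompact_cS zero_le_one) (vtx_mem j) y)))
    _ = ∑ j, ∫⁻ y in box n j (Ici 0), ENNReal.ofReal (Real.exp (-eta y j)) := by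
        rw [lintegral_finsetSum]
        · exact Finset.sum_congr rfl fun j _ =>
            lintegral_indicator (measurableSet_box j measurableSet_Ici) _
        · exact fun j _ => ((Real.continuous_exp.comp
            (continuous_eta j).neg).measurable.ennreal_ofReal).indicator
            (measurableSet_box j measurableSet_Ici)
    _ = _ := by
        simp only [h1, Finset.sum_const, Finset.card_univ, Fintype.card_fin, nsmul_eq_mul]
        rw [pow_succ', ENNReal.ofReal_mul (by positivity)]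
        congr 1
        rw [← ENNReal.ofReal_natCast]; push_cast; rfl

lemma Jp_le {η : ℝ} (hη : 0 < η) : ∀ᶠ p in atTop,
    (volume (cS n 1)).toReal ^ (1 / p) * Jp n p ≤ (1 + η) * (n + 1) ^ (n + 1) := by
  filter_upwards [mahler_cS_le_inf (n := n) hη, eventually_gt_atTop 0] with p h hp
  have hfin : volume (cS n 1) ≠ ∞ := (volume_cS_lt_top zero_le_one).ne
  have hV : 0 < (volume (cS n 1)).toReal := ENNReal.toReal_pos (volume_cS_pos one_pos).ne' hfin
  have h2 := h.trans (mul_le_mul_right mahlerInf_cS_le_pow _)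
  rw [mahler_cS hp, ← ENNReal.ofReal_toReal hfin, ← ENNReal.ofReal_mul hV.le,
    ← ENNReal.ofReal_mul (by positivity), ENNReal.ofReal_le_ofReal_iff (by positivity),
    ENNReal.toReal_ofReal hV.le, Real.rpow_add hV, Real.rpow_one] at h2
  refine le_of_mul_le_mul_left ?_ hV
  linarith

lemma exp_le_wt {p : ℝ} (hp : 0 < p) {y : E n} {j : Fin (n + 1)} (hy : ∀ i, eta y i ≤ eta y j) :
    Real.exp (-eta y j) ≤ (volume (cS n 1)).toReal ^ (1 / p) * Zs p y ^ (-(1 / p)) := by
  have hfin : volume (cS n 1) ≠ ∞ := (volume_cS_lt_top zero_le_one).ne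
  have hV : 0 < (volume (cS n 1)).toReal := ENNReal.toReal_pos (volume_cS_pos one_pos).ne' hfin
  have h1 := Lap_le_exp hp.le (isCompact_cS (n := n) zero_le_one) (y := y) (h := eta y j)
    fun x hx => by
      rw [← sub_nonneg, eta_sub_dot]
      exact Finset.sum_nonneg fun i _ => mul_nonneg (mem_cS_one.1 hx i) (sub_nonneg.2 (hy i))
  have h2 := Real.rpow_le_rpow_of_nonpos (Zs_pos p y) h1 (z := -(1 / p))
    (neg_nonpos.2 (by positivity))
  rw [Real.mul_rpow hV.le (Real.exp_pos _).le, ← Real.exp_mul, Real.rpow_neg hV.le,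
    inv_mul_le_iff₀ (by positivity)] at h2
  have h3 : p * eta y j * -(1 / p) = -eta y j := by field_simp
  rwa [h3] at h2

lemma box_max {j : Fin (n + 1)} {a b : ℝ} (ha : 0 ≤ a) {y : E n} (hy : y ∈ box n j (Icc a b))
    (i : Fin (n + 1)) : eta y i ≤ eta y j := by
  by_cases hi : i = j
  · rw [hi]
  · linarith [(hy i hi).1]

lemma box_le {j : Fin (n + 1)} {a b : ℝ} (ha : 0 ≤ a) (hab : a ≤ b) {y : E n}
    (hy : y ∈ box n j (Icc a b)) (i : Fin (n + 1)) : eta y j - eta y i ≤ b := by
  by_cases hi : i = j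
  · rw [hi]; linarith
  · exact (hy i hi).2

lemma integrableOn_box_lin {p : ℝ} (hp : 0 < p) {a b : ℝ} (ha : 0 ≤ a) (hab : a ≤ b)
    (j i : Fin (n + 1)) : IntegrableOn (fun y => (eta y j - eta y i) * Zs p y ^ (-(1 / p)))
      (box n j (Icc a b)) := by
  refine Integrable.bdd_mul (c := b) (integrable_wt hp).integrableOn
    ((continuous_eta j).sub (continuous_eta i)).aestronglyMeasurable ?_
  filter_upwards [ae_restrict_mem (measurableSet_box j measurableSet_Icc)] with y hy
  rw [Real.norm_eq_abs, abs_of_nonneg (sub_nonneg.2 (box_max ha hy i))]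
  exact box_le ha hab hy i

/-- for large `p` the dual measure is almost a product of exponentials on each normal cone -/
lemma nu_mass {η : ℝ} (hη : 0 < η) (hη1 : η ≤ 1) : ∃ a b : ℝ, 0 < a ∧ a ≤ b ∧ ∀ᶠ p in atTop,
    ∀ j, (1 - η) * Jp n p ≤ (n + 1) * ∫ y in box n j (Icc a b), Zs p y ^ (-(1 / p)) ∧
      ∀ i, i ≠ j → (1 - η) * Jp n p ≤
        ∫ y in box n j (Icc a b), (eta y j - eta y i) * Zs p y ^ (-(1 / p)) := by
  set η' := η / (n + 1) with hη'
  have hn : (0 : ℝ) < n + 1 := by positivity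
  have hη'0 : 0 < η' := by positivity
  have hη'1 : η' ≤ 1 := by
    rw [hη', div_le_one hn]; linarith [(Nat.cast_nonneg n : (0 : ℝ) ≤ n)]
  have hηe : η = (n + 1) * η' := by rw [hη']; field_simp
  obtain ⟨a, b, ha, hab, h0, h1⟩ := one_dim hn hη'0
  refine ⟨a, b, ha, hab, ?_⟩
  filter_upwards [Jp_le (n := n) hη'0, eventually_gt_atTop 0] with p hJ hp j
  have hfin : volume (cS n 1) ≠ ∞ := (volume_cS_lt_top zero_le_one).ne
  have hV : 0 < (volume (cS n 1)).toReal := ENNReal.toReal_pos (volume_cS_pos one_pos).ne' hfin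
  set W := (volume (cS n 1)).toReal ^ (1 / p) with hW
  have hW0 : 0 < W := by positivity
  have hc : 0 ≤ (1 - η') * (n + 1) := mul_nonneg (by linarith) hn.le
  have hnum : W * ((1 - η) * Jp n p) ≤ (n + 1) * ((1 - η') * (n + 1)) ^ n := by
    have h2 : 1 + (n : ℝ) * (-η') ≤ (1 + -η') ^ n := one_add_mul_le_pow (by linarith) n
    have h3 : (1 - η) * (1 + η') ≤ (1 - η') ^ n := by
      rw [sub_eq_add_neg 1 η']; nlinarith
    calc _ = (1 - η) * (W * Jp n p) := by ring
      _ ≤ (1 - η) * ((1 + η') * (n + 1) ^ (n + 1)) := by gcongr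
      _ = (1 - η) * (1 + η') * (n + 1) ^ (n + 1) := by ring
      _ ≤ (1 - η') ^ n * (n + 1) ^ (n + 1) := by gcongr
      _ = _ := by rw [mul_pow]; ring
  have hm := measurableSet_box (n := n) j (measurableSet_Icc (a := a) (b := b))
  refine ⟨le_of_mul_le_mul_left (hnum.trans ?_) hW0, fun i hi =>
    le_of_mul_le_mul_left (hnum.trans ?_) hW0⟩
  · rw [mul_left_comm W]
    refine mul_le_mul_of_nonneg_left ((pow_le_pow_left₀ hc h0 n).trans ?_) hn.le
    rw [← integral_box_exp j measurableSet_Icc, ← integral_const_mul]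
    refine integral_mono_of_nonneg (Eventually.of_forall fun _ => (Real.exp_pos _).le)
      ((integrable_wt hp).integrableOn.const_mul _) ?_
    filter_upwards [ae_restrict_mem hm] with y hy using exp_le_wt hp (box_max ha.le hy)
  · refine (integral_box_lin hi measurableSet_Icc hc h0 h1).trans ?_
    rw [← integral_const_mul]
    refine integral_mono_of_nonneg ?_ ((integrableOn_box_lin hp ha.le hab j i).const_mul _) ?_
    · filter_upwards [ae_restrict_mem hm] with y hy using
        mul_nonneg (sub_nonneg.2 (box_max ha.le hy i)) (Real.exp_pos _).le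
    · filter_upwards [ae_restrict_mem hm] with y hy
      rw [mul_left_comm]
      exact mul_le_mul_of_nonneg_left (exp_le_wt hp (box_max ha.le hy))
        (sub_nonneg.2 (box_max ha.le hy i))

lemma box_disjoint {a b : ℝ} (ha : 0 < a) {i j : Fin (n + 1)} {y : E n}
    (hi : y ∈ box n i (Icc a b)) (hj : y ∈ box n j (Icc a b)) : i = j := by
  by_contra h
  linarith [(hi j (Ne.symm h)).1, (hj i h).1]

/-- the potential concentrates at the vertices -/
lemma Psi_conc {η δ : ℝ} (hη : 0 < η) (hδ : 0 < δ) : ∀ᶠ p in atTop,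
    ∀ L : Set (E n), MeasurableSet L → L ⊆ cS n 1 → (∀ x ∈ L, ∀ j, lam x j < 1 - δ) →
      ∫ x in L, Psi p x ≤ η * Jp n p := by
  obtain ⟨a, b, ha, hab, h⟩ := nu_mass (n := n) (η := min (η / 2) 1) (by positivity)
    (min_le_right _ _)
  have e1 : Tendsto (fun p : ℝ => 2 ^ n * Real.exp (-(p * a * δ / 2))) atTop (𝓝 (2 ^ n * 0)) := by
    refine Tendsto.const_mul _ (Real.tendsto_exp_neg_atTop_nhds_zero.comp ?_)
    exact ((tendsto_id.atTop_mul_const ha).atTop_mul_const hδ).atTop_div_const two_pos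
  rw [mul_zero] at e1
  filter_upwards [h, e1.eventually (gt_mem_nhds (half_pos hη)), eventually_gt_atTop 0]
    with p h1 h2 hp L hLm hL hLc
  have hR : cS n 1 ⊆ cS n (1 + 1 / p / 4) := cS_mono (le_add_of_nonneg_right (by positivity))
  have hm := fun j => measurableSet_box (n := n) j (measurableSet_Icc (a := a) (b := b))
  have iw := integrable_wt (n := n) hp
  have i2 : Integrable fun y : E n =>
      ∑ j, (box n j (Icc a b)).indicator (fun y => Zs p y ^ (-(1 / p))) y :=
    integrable_finsetSum _ fun j _ => iw.indicator (hm j)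
  rw [← integral_Lap_wt hp hLm (hL.trans hR)]
  have h3 : ∫ y, Lap p L y * Zs p y ^ (-(1 / p) - 1) ≤ ∫ y : E n,
      ((1 + η / 2) * Zs p y ^ (-(1 / p)) -
        ∑ j, (box n j (Icc a b)).indicator (fun y => Zs p y ^ (-(1 / p))) y) := by
    refine integral_mono (integrable_Lap_wt hp hLm (hL.trans hR)) ((iw.const_mul _).sub i2)
      fun y => ?_
    have hZ := Zs_pos p y
    have hw := Real.rpow_pos_of_pos hZ (-(1 / p))
    simp only
    rw [Real.rpow_sub_one hZ.ne', mul_div_left_comm, mul_comm, le_sub_iff_add_le]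
    by_cases hy : ∃ j, y ∈ box n j (Icc a b)
    · obtain ⟨j, hj⟩ := hy
      rw [Finset.sum_eq_single j (fun i _ hi => indicator_of_notMem
        (fun h => hi (box_disjoint ha h hj)) _) (by simp), indicator_of_mem hj]
      have h4 : Lap p L y ≤ Lap p (cS n 1 \ corner n j δ) y :=
        Lap_mono p y (fun x hx => ⟨hL hx, fun h => (hLc x hx j).not_ge h.2⟩) zero_le_one
          sdiff_subset
      have h5 := Lap_off_corner (δ := δ) hp.le ha.le (fun i hi => (hj i hi).1)
      have h6 : Lap p L y / Zs p y ≤ η / 2 := by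
        rw [div_le_iff₀ hZ]; nlinarith
      nlinarith
    · rw [Finset.sum_eq_zero fun i _ => indicator_of_notMem (fun h => hy ⟨i, h⟩) _]
      have h6 : Lap p L y / Zs p y ≤ 1 := by
        rw [div_le_one hZ]; exact Lap_mono p y hL zero_le_one subset_rfl
      nlinarith
  rw [integral_sub (iw.const_mul _) i2, integral_const_mul,
    integral_finsetSum _ fun j _ => iw.indicator (hm j)] at h3
  simp only [integral_indicator (hm _)] at h3
  have h4 := Finset.sum_le_sum fun j (_ : j ∈ Finset.univ) => (h1 j).1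
  rw [← Finset.mul_sum, ← Finset.mul_sum] at h4
  simp only [Finset.sum_const, Finset.card_univ, Fintype.card_fin, nsmul_eq_mul] at h4
  push_cast at h4
  rw [mul_left_comm] at h4
  have h5 := le_of_mul_le_mul_left h4 (by positivity)
  have hJ := Jp_pos (n := n) hp
  have h6 := mul_le_mul_of_nonneg_right (min_le_left (η / 2) 1) hJ.le
  change _ ≤ (1 + η / 2) * Jp n p - _ at h3
  linarith

end Pool.Agent.MP_5f4cdd_gt
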