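import Pool.Agent.MP_5f4cdd_gt.UnifMg

set_option autoImplicit false
open MeasureTheory ENNReal Set Matrix Topology Filter

namespace Pool.Agent.MP_5f4cdd_gt

variable {n : ℕ}

/-- the dual weight -/
noncomputable def Wt (p : ℝ) (y : E n) : ℝ := Zs p y ^ (-(1 / p))

lemma Wt_pos (p : ℝ) (y : E n) : 0 < Wt p y := Real.rpow_pos_of_pos (Zs_pos p y) _

lemma Wt_eq (p : ℝ) (y : E n) : Wt p y = Vs n ^ (-(1 / p)) * Mg (p • y) ^ (-(1 / p)) := by
  rw [Wt, Zs_eq_Mg, Real.mul_rpow Vs_pos.le (Mg_pos _).le]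

lemma integrable_Wt {p : ℝ} (hp : 0 < p) : Integrable (Wt (n := n) p) := integrable_wt hp

lemma integral_Wt (p : ℝ) : ∫ y : E n, Wt p y = Jp n p := rfl

lemma integral_Wt_smul (p : ℝ) {t : ℝ} (ht : 0 < t) :
    ∫ y : E n, Wt p (t • y) = (t ^ n)⁻¹ * Jp n p := by
  have h1 := Measure.integral_comp_smul_of_nonneg volume (Wt (n := n) p) t (hR := ht.le)
  simpa [integral_Wt] using h1

lemma measurable_Mg_smul (p : ℝ) : Measurable fun y : E n => Mg (p • y) :=
  measurable_Mg.comp (measurable_const_smul p)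

lemma moment {p k : ℝ} (hp : 0 < p) (hk : 0 ≤ k) (hkp : k * p < 1) :
    Integrable (fun y : E n => Mg (p • y) ^ k * Wt p y) ∧
      ∫ y : E n, Mg (p • y) ^ k * Wt p y ≤ ((1 - k * p) ^ n)⁻¹ * Jp n p := by
  have ht : 0 < 1 - k * p := by linarith
  have h1 : ∀ y : E n, Mg (p • y) ^ k * Wt p y ≤ Wt p ((1 - k * p) • y) := by
    intro y
    rw [Wt_eq, Wt_eq, mul_left_comm, ← Real.rpow_add (Mg_pos _), smul_comm]
    refine mul_le_mul_of_nonneg_left ?_ (Real.rpow_pos_of_pos Vs_pos _).le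
    refine le_trans (le_of_eq ?_) (Real.rpow_le_rpow_of_nonpos (Mg_pos _)
      (Mg_smul_le ht.le (by nlinarith) (p • y)) (neg_nonpos.2 (by positivity)))
    rw [← Real.rpow_mul (Mg_pos _).le]
    congr 1
    field_simp
    ring
  have h0 : ∀ y : E n, 0 ≤ Mg (p • y) ^ k * Wt p y := fun y =>
    mul_nonneg (Real.rpow_pos_of_pos (Mg_pos _) _).le (Wt_pos p y).le
  have hI := (integrable_Wt (n := n) hp).comp_smul ht.ne'
  refine ⟨hI.mono' (((measurable_Mg_smul p).pow_const _).mul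
    (measurable_wt p _)).aestronglyMeasurable (Eventually.of_forall fun y => ?_), ?_⟩
  · rw [Real.norm_eq_abs, abs_of_nonneg (h0 y)]; exact h1 y
  · rw [← integral_Wt_smul p ht]
    exact integral_mono_of_nonneg (Eventually.of_forall h0) hI (Eventually.of_forall h1)

lemma moment_half {p : ℝ} (hp : 0 < p) :
    Integrable (fun y : E n => Mg (p • y) ^ (1 / p / 2) * Wt p y) ∧
      ∫ y : E n, Mg (p • y) ^ (1 / p / 2) * Wt p y ≤ 2 ^ n * Jp n p := by
  have h1 : 1 / p / 2 * p = 1 / 2 := by field_simp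
  have h := moment (n := n) hp (k := 1 / p / 2) (by positivity) (by rw [h1]; norm_num)
  have h2 : (((1 : ℝ) - 1 / 2) ^ n)⁻¹ = 2 ^ n := by rw [← inv_pow]; norm_num
  rwa [h1, h2] at h

lemma ker_eq (p : ℝ) (x y : E n) :
    Vs n * (Real.exp (p * (x ⬝ᵥ y)) * Zs p y ^ (-(1 / p) - 1)) =
      Real.exp (x ⬝ᵥ (p • y)) / Mg (p • y) * Wt p y := by
  rw [Real.rpow_sub_one (Zs_pos p y).ne', Wt, dotProduct_smul, smul_eq_mul]
  nth_rewrite 2 [Zs_eq_Mg]
  have := Vs_pos (n := n)
  field_simp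

lemma Vs_Psi (p : ℝ) (x : E n) :
    Vs n * Psi p x = ∫ y : E n, Real.exp (x ⬝ᵥ (p • y)) / Mg (p • y) * Wt p y := by
  rw [Psi, ← integral_const_mul]
  simp only [ker_eq]

lemma integrable_ker' {p : ℝ} (hp : 0 < p) {x : E n} (hx : x ∈ cS n (1 + 1 / p / 4)) :
    Integrable fun y : E n => Real.exp (x ⬝ᵥ (p • y)) / Mg (p • y) * Wt p y := by
  simpa only [ker_eq] using (integrable_ker hp hx).const_mul (Vs n)

lemma integrable_dot_Wt {p : ℝ} (hp : 0 < p) (x : E n) :
    Integrable fun y : E n => (x ⬝ᵥ (p • y)) * Wt p y := by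
  simpa [Wt] using integrable_dot_wt hp (p • x)

lemma integral_dot_Wt {p : ℝ} (hp : 0 < p) (x : E n) :
    ∫ y : E n, (x ⬝ᵥ (p • y)) * Wt p y = 0 := by
  simpa [Wt] using integral_dot_wt hp (p • x)

/-- normalised potential -/
noncomputable def Theta (p : ℝ) (x : E n) : ℝ := 1 / p * (Vs n * Psi p x / Jp n p - 1)

lemma Theta_le (n : ℕ) {P : ℝ} (hP : 1 ≤ P) : ∃ C : ℝ, 0 ≤ C ∧ ∀ p, 0 < p → p ≤ P →
    ∀ x ∈ cS n (1 + 1 / P / 4), Theta p x ≤ C := by
  have hP0 : 0 < P := by linarith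
  obtain ⟨k, hk, h1⟩ := exp_sub_le_Mg n
  obtain ⟨C, hC, h2⟩ := exp_le_Mg n (a := 1 / P) (by positivity)
  refine ⟨max (n * k * 2 ^ n) (2 * k * (C * 2 ^ n)), le_max_of_le_left (by positivity),
    fun p hp hpP x hx => ?_⟩
  have hJ := Jp_pos (n := n) hp
  have hq : 1 / P ≤ 1 / p := one_div_le_one_div_of_le hp hpP
  have hI := integrable_ker' hp (cS_mono (by linarith) hx)
  rw [Theta, Vs_Psi]
  rcases le_total (k * p) (1 / 2) with h | h
  · refine le_max_of_le_left ?_
    obtain ⟨i1, h3⟩ := moment (n := n) hp (by linarith) (h.trans_lt (by norm_num))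
    have hx' : x ∈ cS n (5 / 4) := cS_mono (by linarith [(div_le_one hP0).2 hP]) hx
    have h4 := integral_mono hI (i1.add (integrable_dot_Wt hp x)) fun y => by
      have h5 := h1 x hx' (p • y)
      have h6 := div_le_self (Real.exp_pos (x ⬝ᵥ (p • y))).le (one_le_Mg (p • y))
      simp only [Pi.add_apply]
      nlinarith [Wt_pos p y]
    rw [integral_add' i1 (integrable_dot_Wt hp x), integral_dot_Wt hp, add_zero] at h4
    have h5 : 1 + (n : ℝ) * (-(k * p)) ≤ (1 + -(k * p)) ^ n := one_add_mul_le_pow (by linarith) n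
    rw [← sub_eq_add_neg 1] at h5
    have h6 : (1 / 2 : ℝ) ^ n ≤ (1 - k * p) ^ n := pow_le_pow_left₀ (by norm_num) (by linarith) n
    have h7 : 0 < (1 - k * p) ^ n := lt_of_lt_of_le (by positivity) h6
    have h8 : ((1 - k * p) ^ n)⁻¹ ≤ 1 + p * (n * k * 2 ^ n) := by
      rw [inv_le_iff_one_le_mul₀ h7]
      have h9 : (1 : ℝ) ≤ 2 ^ n * (1 - k * p) ^ n := by
        have := mul_le_mul_of_nonneg_left h6 (show (0 : ℝ) ≤ 2 ^ n by positivity)
        rwa [← mul_pow, mul_one_div_cancel two_ne_zero, one_pow] at this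
      nlinarith [mul_le_mul_of_nonneg_left h9 (show 0 ≤ p * n * k by positivity)]
    rw [one_div, inv_mul_le_iff₀ hp, sub_le_iff_le_add', div_le_iff₀ hJ]
    exact h4.trans (h3.trans (mul_le_mul_of_nonneg_right h8 hJ.le))
  · refine le_max_of_le_right ?_
    obtain ⟨i1, h3⟩ := moment_half (n := n) hp
    have h4 := integral_mono hI (i1.const_mul C) fun y => by
      have hM := one_le_Mg (p • y)
      have h5 := h2 x hx (p • y)
      rw [Real.rpow_add (by linarith), Real.rpow_one, mul_left_comm,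
        ← div_le_iff₀' (by linarith)] at h5
      have h6 := Real.rpow_le_rpow_of_exponent_le hM (show 1 / P / 2 ≤ 1 / p / 2 by linarith)
      simp only
      rw [← mul_assoc]
      exact mul_le_mul_of_nonneg_right (h5.trans (by gcongr)) (Wt_pos p y).le
    rw [integral_const_mul] at h4
    have h5 : (∫ y : E n, Real.exp (x ⬝ᵥ (p • y)) / Mg (p • y) * Wt p y) / Jp n p ≤ C * 2 ^ n := by
      rw [div_le_iff₀ hJ]
      nlinarith [mul_le_mul_of_nonneg_left h3 hC.le]
    have h6 : 1 / p ≤ 2 * k := by rw [div_le_iff₀ hp]; linarith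
    calc _ ≤ 1 / p * (C * 2 ^ n) := mul_le_mul_of_nonneg_left (by linarith) (by positivity)
      _ ≤ _ := by gcongr

lemma le_Theta {p : ℝ} (hp : 0 < p) {x : E n} (hx : x ∈ cS n (1 + 1 / p / 4)) :
    -(2 * 2 ^ n) ≤ Theta p x := by
  have hJ := Jp_pos (n := n) hp
  obtain ⟨i1, h3⟩ := moment_half (n := n) hp
  have i2 := (integrable_Wt hp).add (integrable_dot_Wt hp x)
  have h4 := integral_mono (i2.sub (i1.const_mul (2 * p))) (integrable_ker' hp hx) fun y => by
    have hM := Mg_pos (p • y)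
    have h5 := Real.add_one_le_exp (x ⬝ᵥ (p • y) - Real.log (Mg (p • y)))
    rw [Real.exp_sub, Real.exp_log hM] at h5
    have h6 := Real.add_one_le_exp (Real.log (Mg (p • y)) * (1 / p / 2))
    rw [← Real.rpow_def_of_pos hM] at h6
    have h7 := mul_le_mul_of_nonneg_left h6 (show 0 ≤ 2 * p by positivity)
    have h8 : 2 * p * (Real.log (Mg (p • y)) * (1 / p / 2) + 1) = Real.log (Mg (p • y)) + 2 * p := by
      field_simp
    simp only [Pi.add_apply, Pi.sub_apply]
    nlinarith [Wt_pos p y]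
  rw [integral_sub' i2 (i1.const_mul _), integral_add' (integrable_Wt hp) (integrable_dot_Wt hp x),
    integral_dot_Wt hp, integral_const_mul, integral_Wt, ← Vs_Psi] at h4
  rw [Theta, one_div, le_inv_mul_iff₀ hp, le_sub_iff_add_le, le_div_iff₀ hJ]
  nlinarith [mul_le_mul_of_nonneg_left h3 hp.le]

lemma exp_gap1 (t : ℝ) : t ^ 2 / 4 * Real.exp (-|t|) ≤ Real.exp t - 1 - t := by
  have h1 : Real.exp t = Real.exp (t / 2) ^ 2 := by rw [← Real.exp_nat_mul]; congr 1; push_cast; ring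
  have h2 := Real.add_one_le_exp (t / 2)
  have h3 : t ^ 2 / 4 * Real.exp (-|t|) ≤ (Real.exp (t / 2) - 1) ^ 2 := by
    rcases le_total 0 t with h | h
    · have h4 : Real.exp (-|t|) ≤ 1 := Real.exp_le_one_iff.2 (neg_nonpos.2 (abs_nonneg t))
      nlinarith [mul_le_mul_of_nonneg_left h4 (sq_nonneg t)]
    · rw [abs_of_nonpos h, neg_neg, h1]
      have h4 := mul_le_mul_of_nonneg_left (Real.add_one_le_exp (-(t / 2))) (Real.exp_pos (t / 2)).le
      rw [← Real.exp_add, add_neg_cancel, Real.exp_zero] at h4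
      have h5 : 0 ≤ -(t / 2) * Real.exp (t / 2) := mul_nonneg (by linarith) (Real.exp_pos _).le
      nlinarith [mul_self_le_mul_self h5 (show -(t / 2) * Real.exp (t / 2) ≤ 1 - Real.exp (t / 2) by
        linarith)]
  nlinarith

lemma exp_gap {a b u v m : ℝ} (ha : 0 ≤ a) (hb : 0 ≤ b) (hab : a + b = 1) (hu : |u| ≤ m)
    (hv : |v| ≤ m) : a * b / 4 * ((u - v) ^ 2 * Real.exp (-(3 * m))) ≤
      a * Real.exp u + b * Real.exp v - Real.exp (a * u + b * v) := by
  obtain rfl : b = 1 - a := by linarith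
  have hu' := abs_le.1 hu
  have hv' := abs_le.1 hv
  have hd : |u - v| ≤ 2 * m := abs_le.2 ⟨by linarith, by linarith⟩
  have h1 := exp_gap1 ((1 - a) * (u - v))
  have h2 := exp_gap1 (-(a * (u - v)))
  have h3 : Real.exp (-(2 * m)) ≤ Real.exp (-|(1 - a) * (u - v)|) := by
    rw [Real.exp_le_exp, abs_mul, abs_of_nonneg hb]
    nlinarith [abs_nonneg (u - v)]
  have h4 : Real.exp (-(2 * m)) ≤ Real.exp (-|-(a * (u - v))|) := by
    rw [Real.exp_le_exp, abs_neg, abs_mul, abs_of_nonneg ha]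
    nlinarith [abs_nonneg (u - v)]
  have h5 : Real.exp (-m) ≤ Real.exp (a * u + (1 - a) * v) := by
    rw [Real.exp_le_exp]; nlinarith
  have h6 : Real.exp u = Real.exp (a * u + (1 - a) * v) * Real.exp ((1 - a) * (u - v)) := by
    rw [← Real.exp_add]; ring_nf
  have h7 : Real.exp v = Real.exp (a * u + (1 - a) * v) * Real.exp (-(a * (u - v))) := by
    rw [← Real.exp_add]; ring_nf
  have h8 : Real.exp (-(3 * m)) = Real.exp (-m) * Real.exp (-(2 * m)) := by
    rw [← Real.exp_add]; ring_nf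
  have h9 : a * (1 - a) / 4 * ((u - v) ^ 2 * Real.exp (-(2 * m))) ≤
      a * Real.exp ((1 - a) * (u - v)) + (1 - a) * Real.exp (-(a * (u - v))) - 1 := by
    have h10 := mul_le_mul_of_nonneg_left ((mul_le_mul_of_nonneg_left h3 (by positivity)).trans h1) ha
    have h11 := mul_le_mul_of_nonneg_left ((mul_le_mul_of_nonneg_left h4 (by positivity)).trans h2) hb
    nlinarith
  rw [h6, h7, h8]
  have h10 : 0 ≤ a * (1 - a) / 4 * ((u - v) ^ 2 * Real.exp (-(2 * m))) := by positivity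
  nlinarith [mul_le_mul h5 h9 h10 (Real.exp_pos _).le]

lemma Theta_gap {p : ℝ} (hp : 0 < p) {x z : E n} (hx : x ∈ cS n (1 + 1 / p / 4))
    (hz : z ∈ cS n (1 + 1 / p / 4)) {a b : ℝ} (ha : 0 ≤ a) (hb : 0 ≤ b) (hab : a + b = 1)
    {g : E n → ℝ} (h0 : ∀ y, 0 ≤ g y) (hg : ∀ ξ : E n, g ξ ≤ (a * Real.exp (x ⬝ᵥ ξ) +
      b * Real.exp (z ⬝ᵥ ξ) - Real.exp (a * (x ⬝ᵥ ξ) + b * (z ⬝ᵥ ξ))) / Mg ξ) :
    Theta p (a • x + b • z) + 1 / p * ((∫ y, g (p • y) * Wt p y) / Jp n p) ≤
      a * Theta p x + b * Theta p z := by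
  have hJ := Jp_pos (n := n) hp
  have ix := (integrable_ker' hp hx).const_mul a
  have iz := (integrable_ker' hp hz).const_mul b
  have ixz := integrable_ker' hp (convex_cS _ hx hz ha hb hab)
  have h1 := integral_mono_of_nonneg
    (Eventually.of_forall fun y => mul_nonneg (h0 (p • y)) (Wt_pos p y).le) ((ix.add iz).sub ixz)
    (Eventually.of_forall fun y => by
      refine (mul_le_mul_of_nonneg_right (hg (p • y)) (Wt_pos p y).le).trans (le_of_eq ?_)
      simp only [Pi.add_apply, Pi.sub_apply, add_dotProduct, smul_dotProduct, smul_eq_mul]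
      ring)
  rw [integral_sub' (ix.add iz) ixz, integral_add' ix iz, integral_const_mul, integral_const_mul,
    ← Vs_Psi, ← Vs_Psi, ← Vs_Psi] at h1
  have h2 := mul_le_mul_of_nonneg_left (div_le_div_of_nonneg_right h1 hJ.le)
    (show 0 ≤ 1 / p by positivity)
  obtain rfl : b = 1 - a := by linarith
  simp only [Theta]
  refine le_trans (add_le_add_right h2 _) (le_of_eq ?_)
  ring

lemma convexOn_Theta {p : ℝ} (hp : 0 < p) : ConvexOn ℝ (cS n (1 + 1 / p / 4)) (Theta p) := by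
  refine ⟨convex_cS _, fun x hx z hz a b ha hb hab => ?_⟩
  have := Theta_gap hp hx hz ha hb hab (g := fun _ => 0) (fun _ => le_rfl) fun ξ =>
    div_nonneg (sub_nonneg.2 (convexOn_exp.2 (mem_univ _) (mem_univ _) ha hb hab)) (Mg_pos ξ).le
  simpa using this

end Pool.Agent.MP_5f4cdd_gt
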