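import Pool.Agent.MP_5f4cdd_gt.UnifThin

set_option autoImplicit false
open MeasureTheory ENNReal Set Matrix Topology Filter

namespace Pool.Agent.MP_5f4cdd_gt

variable {n m : ℕ}

lemma gibbs {p : ℝ} (hp : 0 < p) {L : Set (E n)} (hL : L ⊆ cS n 1) (h0 : volume L ≠ 0)
    {φ : E n → ℝ} (hφ : Integrable fun y => φ y * Zs p y ^ (-(1 / p)))
    (h : ∀ y, Lap p L y ≤ Real.exp (-(p * φ y)) * Zs p y) (a : E n) :
    ENNReal.ofReal ((volume L).toReal ^ (1 + 1 / p) *
      (Jp n p + ∫ y, φ y * Zs p y ^ (-(1 / p)))) ≤ mahler p ((fun z => z - a) '' L) := by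
  have hfin : volume L ≠ ∞ :=
    ne_top_of_le_ne_top (volume_cS_lt_top zero_le_one).ne (measure_mono hL)
  set v := (volume L).toReal with hv
  have hv0 : 0 < v := ENNReal.toReal_pos h0 hfin
  rw [mahler_eq, volume_image_sub, ← hv, Real.rpow_add hv0, Real.rpow_one, mul_assoc,
    ENNReal.ofReal_mul hv0.le, hv, ENNReal.ofReal_toReal hfin, ← hv]
  gcongr
  have i1 := integrable_wt (n := n) hp
  have i3 := integrable_dot_wt hp a
  have e : Jp n p + ∫ y, φ y * Zs p y ^ (-(1 / p)) =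
      ∫ y : E n, (Zs p y ^ (-(1 / p)) + φ y * Zs p y ^ (-(1 / p)) +
        (a ⬝ᵥ y) * Zs p y ^ (-(1 / p))) := by
    rw [integral_add (f := fun y => Zs p y ^ (-(1 / p)) + φ y * Zs p y ^ (-(1 / p)))
      (i1.add hφ) i3, integral_add i1 hφ, integral_dot_wt hp, Jp, add_zero]
  rw [e, ← integral_const_mul]
  refine ofReal_integral_le (((i1.add hφ).add i3).const_mul _) fun y => ?_
  have hl := Lap_pos p y zero_le_one hL h0
  have h2 : (Lap p ((fun z => z - a) '' L) y / v) ^ (-(1 / p)) =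
      v ^ (1 / p) * (Lap p L y ^ (-(1 / p)) * Real.exp (a ⬝ᵥ y)) := by
    rw [Lap_image_sub, Real.div_rpow (by positivity) hv0.le, Real.mul_rpow hl.le (by positivity),
      ← Real.exp_mul, Real.rpow_neg hv0.le, div_inv_eq_mul, mul_comm]
    congr 3
    field_simp
  rw [h2]
  refine mul_le_mul_of_nonneg_left ?_ (by positivity)
  have h3 := Real.rpow_le_rpow_of_nonpos hl (h y) (z := -(1 / p)) (neg_nonpos.2 (by positivity))
  have h4 : -(p * φ y) * -(1 / p) = φ y := by field_simp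
  rw [Real.mul_rpow (Real.exp_pos _).le (Zs_pos p y).le, ← Real.exp_mul, h4] at h3
  have h5 := Real.add_one_le_exp (φ y + a ⬝ᵥ y)
  have h6 := Real.rpow_pos_of_pos (Zs_pos p y) (-(1 / p))
  rw [Real.exp_add] at h5
  nlinarith [mul_le_mul_of_nonneg_right h3 (Real.exp_pos (a ⬝ᵥ y)).le,
    mul_le_mul_of_nonneg_right h5 h6.le]

/-- bodies that differ from the simplex in a layer of width at least `θ / p` -/
lemma thick (m : ℕ) {θ : ℝ} (hθ : 0 < θ) : ∃ δ₀ κ : ℝ, 0 < δ₀ ∧ δ₀ < 1 ∧ 0 < κ ∧ ∀ᶠ p in atTop,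
    ∀ (K : Set (E (m + 1))) (δ : ℝ), Near K δ → δ ≤ δ₀ → θ ≤ p * δ →
    ¬ cS (m + 1) (1 - δ / 4) ⊆ K → ∀ a,
      ENNReal.ofReal ((volume K).toReal ^ (1 + 1 / p) * (Jp (m + 1) p *
      (1 + (1 + 1 / p + κ) * (1 - (volume K).toReal / (volume (cS (m + 1) 1)).toReal)))) ≤
      mahler p ((fun z => z - a) '' K) := by
  obtain ⟨κ, hκ0, hκ1, hvol⟩ := vol_le_margins m
  set η := κ / 8 with hη
  have hη0 : 0 < η := by positivity
  have hη1 : η ≤ 1 / 8 := by linarith
  obtain ⟨a, b, ha, hab, hnu⟩ := nu_mass (n := m + 1) hη0 (by linarith)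
  have hb : 0 < b := ha.trans_le hab
  set N : ℝ := ((m + 1 : ℕ) : ℝ) + 1 with hN
  have hN0 : 0 < N := by positivity
  obtain ⟨c₀, hc₀, hoff⟩ := Lap_off_corner' (n := m + 1) (θ := θ / 4 / N) ha (by positivity)
  obtain ⟨c, hc, hvol⟩ := hvol (η * c₀ / (16 * N ^ 2)) (by positivity)
  have e1 : Tendsto (fun p : ℝ => 2 ^ (m + 1) * Real.exp (-(p * a * c / 4))) atTop
      (𝓝 (2 ^ (m + 1) * 0)) := by
    refine Tendsto.const_mul _ (Real.tendsto_exp_neg_atTop_nhds_zero.comp ?_)
    exact ((tendsto_id.atTop_mul_const ha).atTop_mul_const hc).atTop_div_const four_pos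
  rw [mul_zero] at e1
  refine ⟨min η (min c (a * c / (4 * b))), η, by positivity,
    (min_le_left _ _).trans_lt (by linarith), hη0, ?_⟩
  filter_upwards [hnu, e1.eventually (gt_mem_nhds hη0), eventually_ge_atTop (1 / η)]
    with p hnu hsm hpη K δ h hδ hθδ hns a₀
  have hp : 0 < p := lt_of_lt_of_le (by positivity) hpη
  have hq : 1 / p ≤ η := (one_div_le hη0 hp).1 hpη
  have hδ0 : 0 < δ := (mul_pos_iff_of_pos_left hp).1 (hθ.trans_le hθδ)
  have hδ1 : δ ≤ η := hδ.trans (min_le_left _ _)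
  have hδ2 : δ ≤ c := hδ.trans ((min_le_right _ _).trans (min_le_left _ _))
  have hδ3 : δ * (4 * b) ≤ a * c := (le_div_iff₀ (by positivity)).1
    (hδ.trans ((min_le_right _ _).trans (min_le_right _ _)))
  obtain ⟨r, hr0, hr1, hr2, hr3, hr4⟩ := hvol K δ h hδ0.le (by linarith) hδ2
  obtain ⟨x, hx, hxK⟩ := not_subset.1 hns
  obtain ⟨j₀, hj₀⟩ := corner_missing h.conv h.cl hx hxK
  rw [← hN] at hj₀
  set B := fun j => box (m + 1) j (Icc a b) with hB
  have hBm : ∀ j, MeasurableSet (B j) := fun j => measurableSet_box j measurableSet_Icc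
  set φ₁ : E (m + 1) → ℝ := fun y =>
    (1 - η) * ∑ j, ∑ i, r j i * (B j).indicator (fun y => eta y j - eta y i) y with hφ₁
  set φ₂ : E (m + 1) → ℝ := fun y => c₀ * (δ / 4 / N) * (B j₀).indicator 1 y with hφ₂
  have hle : ∀ y, Lap p K y ≤ Zs p y := fun y => Lap_mono p y h.outer zero_le_one subset_rfl
  have h1 : ∀ y, Lap p K y ≤ Real.exp (-(p * φ₁ y)) * Zs p y := by
    intro y
    by_cases hy : ∃ j, y ∈ B j
    · obtain ⟨j, hj⟩ := hy
      have h2 := Lap_shift' (δ := c) (η := η) hp.le ha.le h.outer (hr0 j) (hr3 j)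
        (by nlinarith [mul_le_mul_of_nonneg_right (hr1 j) hb.le]) hsm.le hj hab
      simp only [hφ₁]
      rw [Finset.sum_eq_single j (fun k _ hk => Finset.sum_eq_zero fun i _ => by
        rw [indicator_of_notMem (fun h => hk (box_disjoint ha h hj)), mul_zero]) (by simp)]
      simpa only [indicator_of_mem hj] using h2
    · have : φ₁ y = 0 := by
        simp only [hφ₁]
        rw [Finset.sum_eq_zero fun k _ => Finset.sum_eq_zero fun i _ => by
          rw [indicator_of_notMem (fun h => hy ⟨k, h⟩), mul_zero], mul_zero]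
      rw [this]
      simpa using hle y
  have h2 : ∀ y, Lap p K y ≤ Real.exp (-(p * φ₂ y)) * Zs p y := by
    intro y
    by_cases hy : y ∈ B j₀
    · simp only [hφ₂, indicator_of_mem hy, Pi.one_apply, mul_one]
      have hsub : K ⊆ cS (m + 1) 1 \ corner (m + 1) j₀ (δ / 4 / N) :=
        fun z hz => ⟨h.outer hz, fun h' => hj₀ z h' hz⟩
      refine le_trans (Lap_mono p y hsub
        zero_le_one sdiff_subset) (hoff p _ hp ?_ y j₀ fun i hi => (hy i hi).1)
      rw [← mul_div_assoc, ← mul_div_assoc]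
      gcongr
    · simpa [hφ₂, indicator_of_notMem hy] using hle y
  have e2 : ∀ y, ((1 - η) * φ₁ y + η * φ₂ y) * Zs p y ^ (-(1 / p)) =
      (1 - η) * (1 - η) * ∑ j, ∑ i, r j i *
        (B j).indicator (fun y => (eta y j - eta y i) * Zs p y ^ (-(1 / p))) y +
      η * (c₀ * (δ / 4 / N)) * (B j₀).indicator (fun y => Zs p y ^ (-(1 / p))) y := by
    intro y
    simp only [hφ₁, hφ₂, indicator_mul_left, ← mul_assoc, ← Finset.sum_mul]
    by_cases hy : y ∈ B j₀
    · simp only [indicator_of_mem hy, Pi.one_apply]; ring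
    · simp only [indicator_of_notMem hy]; ring
  have i1 : ∀ j i, Integrable fun y => r j i *
      (B j).indicator (fun y => (eta y j - eta y i) * Zs p y ^ (-(1 / p))) y := fun j i =>
    ((integrableOn_box_lin hp ha.le hab j i).integrable_indicator (hBm j)).const_mul _
  have i2 := integrable_finsetSum Finset.univ fun j _ =>
    integrable_finsetSum Finset.univ fun i _ => i1 j i
  have i3 := (integrable_wt (n := m + 1) hp).indicator (hBm j₀)
  have h3 := gibbs hp h.outer h.vol_ne_zero (φ := fun y => (1 - η) * φ₁ y + η * φ₂ y)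
    (by simp only [e2]; exact (i2.const_mul _).add (i3.const_mul _))
    (fun y => by
      have hZ := Zs_pos p y
      rcases le_total (φ₁ y) (φ₂ y) with h' | h'
      · refine (h2 y).trans (mul_le_mul_of_nonneg_right (Real.exp_le_exp.2 ?_) hZ.le)
        nlinarith [mul_le_mul_of_nonneg_left h' (mul_nonneg hp.le (show 0 ≤ 1 - η by linarith))]
      · refine (h1 y).trans (mul_le_mul_of_nonneg_right (Real.exp_le_exp.2 ?_) hZ.le)
        nlinarith [mul_le_mul_of_nonneg_left h' (mul_nonneg hp.le hη0.le)]) a₀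
  refine le_trans (ENNReal.ofReal_le_ofReal ?_) h3
  refine mul_le_mul_of_nonneg_left ?_ (by positivity)
  simp only [e2]
  rw [integral_add (i2.const_mul _) (i3.const_mul _), integral_const_mul, integral_const_mul,
    integral_finsetSum _ fun j _ => integrable_finsetSum Finset.univ fun i _ => i1 j i,
    integral_indicator (hBm j₀)]
  have hJ := Jp_pos (n := m + 1) hp
  set J := Jp (m + 1) p with hJdef
  set R := ∑ j, ∑ i, r j i with hR
  have hR0 : 0 ≤ R := Finset.sum_nonneg fun j _ => Finset.sum_nonneg fun i _ => hr0 j i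
  have h4 : R * ((1 - η) * J) ≤ ∑ j, ∫ y, ∑ i, r j i *
      (B j).indicator (fun y => (eta y j - eta y i) * Zs p y ^ (-(1 / p))) y := by
    rw [hR, Finset.sum_mul]
    refine Finset.sum_le_sum fun j _ => ?_
    rw [integral_finsetSum _ fun i _ => i1 j i, Finset.sum_mul]
    refine Finset.sum_le_sum fun i _ => ?_
    rw [integral_const_mul, integral_indicator (hBm j)]
    by_cases hi : i = j
    · rw [hi, hr2]; simp
    · exact mul_le_mul_of_nonneg_left ((hnu j).2 i hi) (hr0 j i)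
  have h5 : J / (2 * N) ≤ ∫ y in B j₀, Zs p y ^ (-(1 / p)) := by
    have := (hnu j₀).1
    rw [div_le_iff₀ (by positivity)]
    nlinarith
  have hfin : volume (cS (m + 1) 1) ≠ ∞ := (volume_cS_lt_top zero_le_one).ne
  have hV0 : 0 < (volume (cS (m + 1) 1)).toReal :=
    ENNReal.toReal_pos (volume_cS_pos one_pos).ne' hfin
  rw [vol_sdiff_eq h.cl.measurableSet h.outer] at hr4
  have h6 := le_of_mul_le_mul_right hr4 hV0
  set w := 1 - (volume K).toReal / (volume (cS (m + 1) 1)).toReal with hw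
  have hw0 : 0 ≤ w := by
    rw [hw, sub_nonneg, div_le_one hV0]
    exact ENNReal.toReal_mono hfin (measure_mono h.outer)
  have h7 : (1 + 2 * η) * ((1 - κ) / (1 - δ)) ≤ (1 - η) ^ 3 := by
    rw [← mul_div_assoc, div_le_iff₀ (by linarith)]
    have h8 : 1 - 3 * η ≤ (1 - η) ^ 3 := by nlinarith [mul_nonneg hη0.le hη0.le]
    have h9 : κ = 8 * η := by linarith
    nlinarith [mul_le_mul h8 (show 1 - η ≤ 1 - δ by linarith) (by linarith)
      (pow_nonneg (by linarith) 3)]
  have h8 : (1 + 1 / p + η) * w ≤ (1 - η) ^ 3 * R + η * c₀ * δ / (8 * N ^ 2) := by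
    have h9 : 0 ≤ η * c₀ / (16 * N ^ 2) * δ := by positivity
    calc _ ≤ (1 + 2 * η) * w := mul_le_mul_of_nonneg_right (by linarith) hw0
      _ ≤ (1 + 2 * η) * ((1 - κ) / (1 - δ) * R + η * c₀ / (16 * N ^ 2) * δ) := by gcongr
      _ = (1 + 2 * η) * ((1 - κ) / (1 - δ)) * R + (1 + 2 * η) * (η * c₀ / (16 * N ^ 2) * δ) := by
          ring
      _ ≤ (1 - η) ^ 3 * R + 2 * (η * c₀ / (16 * N ^ 2) * δ) := by gcongr; linarith
      _ = _ := by field_simp; ring
  have h9 := mul_le_mul_of_nonneg_left h4 (mul_self_nonneg (1 - η))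
  have h10 := mul_le_mul_of_nonneg_left h5 (show 0 ≤ η * (c₀ * (δ / 4 / N)) by positivity)
  have h11 : η * (c₀ * (δ / 4 / N)) * (J / (2 * N)) = J * (η * c₀ * δ / (8 * N ^ 2)) := by
    field_simp; ring
  nlinarith [mul_le_mul_of_nonneg_left h8 hJ.le]

end Pool.Agent.MP_5f4cdd_gt
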