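import Pool.Agent.MP_5f4cdd_gt.UnifGeom

set_option autoImplicit false
open MeasureTheory ENNReal Set Matrix Topology Filter

namespace Pool.Agent.MP_5f4cdd_gt

variable {n m : ℕ}

lemma Psi_harnack' {p θ : ℝ} (hp : 1 ≤ p) {x : E n} (hx : x ∈ cS n 1) {s : ℝ} (hs0 : 0 < s)
    (hs1 : s ≤ 1) (hθ : p * (1 - s) ≤ θ) : ((1 + θ) ^ (3 * n))⁻¹ * Psi p x ≤ Psi p (s • x) := by
  have hp0 : 0 < p := by linarith
  have h0 : 0 ≤ p * (1 - s) := mul_nonneg hp0.le (by linarith)
  have hθ0 : 0 ≤ θ := h0.trans hθ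
  have hsx : s • x ∈ cS n (1 + 1 / p / 4) :=
    cS_mono (by have : 0 < 1 / p / 4 := by positivity
                linarith) ((smul_mem_cS hs0).2 hx)
  rw [inv_mul_le_iff₀ (by positivity)]
  refine (Psi_harnack hp0 hx hs0 hs1).trans (mul_le_mul_of_nonneg_right ?_ (Psi_pos hp0 hsx).le)
  have h1 : 1 / p ≤ 1 := (div_le_one hp0).2 hp
  calc _ ≤ (1 + θ) ^ ((n : ℝ) * (2 + 1 / p)) :=
        Real.rpow_le_rpow (by linarith) (by linarith) (by positivity)
    _ ≤ (1 + θ) ^ ((3 * n : ℕ) : ℝ) := by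
        refine Real.rpow_le_rpow_of_exponent_le (by linarith) ?_
        push_cast
        nlinarith [(Nat.cast_nonneg n : (0 : ℝ) ≤ n)]
    _ = _ := Real.rpow_natCast _ _

lemma off_mass {γ τ : ℝ} (hγ : 0 < γ) (hτ : 0 < τ) : ∀ᶠ p in atTop,
    ∫⁻ l in offV (m + 1) τ, ENNReal.ofReal (Psi p (A0 (m + 1) l)) ∂mu m ≤
      ENNReal.ofReal γ * ∫⁻ l, ENNReal.ofReal (Psi p (A0 (m + 1) l)) ∂mu m := by
  set U := (mu m univ).toReal with hU
  have hU0 : 0 < U := ENNReal.toReal_pos mu_univ_pos.ne' (measure_ne_top _ _)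
  set V := (volume (cS (m + 1) 1)).toReal with hV
  have hV0 : 0 < V :=
    ENNReal.toReal_pos (volume_cS_pos one_pos).ne' (volume_cS_lt_top zero_le_one).ne
  set k := (kap (m + 1)).toReal with hk
  have hk0 : 0 < k := ENNReal.toReal_pos kap_ne_zero kap_ne_top
  set c : ℝ := (1 / 2) ^ m * ((1 + 1) ^ (3 * (m + 1)))⁻¹ with hc
  have hc0 : 0 < c := by positivity
  filter_upwards [Psi_conc (n := m + 1) (η := γ * U * k * c / V) (δ := τ / 2) (by positivity)
    (by positivity), eventually_ge_atTop 2, eventually_gt_atTop (2 / τ)] with p h1 hp2 hpτ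
  have hp : 0 < p := by linarith
  set q := 1 / p with hq
  have hq0 : 0 < q := by positivity
  have hpq : p * q = 1 := by rw [hq]; field_simp
  have hq1 : q ≤ 1 / 2 := one_div_le_one_div_of_le two_pos hp2
  have hq2 : q < τ / 2 := by
    rw [div_lt_iff₀ hτ] at hpτ
    nlinarith
  set L := cS (m + 1) 1 ∩ ⋂ j, {z | lam z j < 1 - τ / 2} with hL
  have hLm : MeasurableSet L := (measurableSet_cS 1).inter (MeasurableSet.iInter fun j =>
    measurableSet_lt (continuous_lam j).measurable measurable_const)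
  have hR : L ⊆ cS (m + 1) (1 + q / 4) :=
    inter_subset_left.trans (cS_mono (le_add_of_nonneg_right (by positivity)))
  have h2 := h1 L hLm inter_subset_left fun x hx j => mem_iInter.1 hx.2 j
  have hN := nice_Psi (m := m) hp
  have hfm := hN.good.meas.ennreal_ofReal
  set F := ∫⁻ l, ENNReal.ofReal (Psi p (A0 (m + 1) l)) ∂mu m with hF
  have hFt : F ≠ ∞ := hN.F_ne_top
  set G := ∫⁻ l in offV (m + 1) τ, ENNReal.ofReal (Psi p (A0 (m + 1) l)) ∂mu m with hG
  have hGt : G ≠ ∞ := ne_top_of_le_ne_top hFt (setLIntegral_le_lintegral _ _)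
  have h3 : kap (m + 1) * (ENNReal.ofReal (c * q) * G) ≤ ∫⁻ z in L, ENNReal.ofReal (Psi p z) := by
    rw [← lintegral_indicator hLm,
      lintegral_radial' ((measurable_Psi p).ennreal_ofReal.indicator hLm)]
    refine le_trans ?_ (Finset.single_le_sum (fun _ _ => zero_le) (Finset.mem_univ 0))
    rw [hG, ← lintegral_indicator (measurableSet_offV τ),
      ← lintegral_const_mul' _ _ ENNReal.ofReal_ne_top]
    refine mul_le_mul_right (lintegral_mono_ae ?_) _
    filter_upwards [ae_mu] with l hl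
    by_cases hl' : l ∈ offV (m + 1) τ
    swap
    · rw [indicator_of_notMem hl']; simp
    rw [indicator_of_mem hl']
    have hsub : Ioc (1 - q) 1 ⊆ Ioi 0 := fun s hs => lt_trans (by linarith) hs.1
    calc _ = ∫⁻ _s in Ioc (1 - q) 1, ENNReal.ofReal c * ENNReal.ofReal (Psi p (A0 (m + 1) l)) := by
          rw [setLIntegral_const, Real.volume_Ioc, ENNReal.ofReal_mul hc0.le, _root_.sub_sub_cancel]
          ring
      _ ≤ ∫⁻ s in Ioc (1 - q) 1, ENNReal.ofReal (s ^ m) *
            L.indicator (fun z => ENNReal.ofReal (Psi p z)) (s • Pj (m + 1) 0 l) := by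
          refine setLIntegral_mono' measurableSet_Ioc fun s hs => ?_
          have hs0 : 0 < s := hsub hs
          rw [indicator_of_mem, hc, ENNReal.ofReal_mul (by positivity), mul_assoc,
            ← ENNReal.ofReal_mul (by positivity)]
          · refine mul_le_mul' (ENNReal.ofReal_le_ofReal (pow_le_pow_left₀ (by norm_num)
              (by linarith [hs.1]) _)) (ENNReal.ofReal_le_ofReal ?_)
            rw [← hN.Pj 0]
            exact Psi_harnack' (by linarith) (Pj_mem 0 hl) hs0 hs.2 (by nlinarith [hs.1])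
          · refine ⟨(smul_Pj_mem_cS 0 hl hs0.le).2 hs.2, mem_iInter.2 fun j => ?_⟩
            have h4 : lam (Pj (m + 1) 0 l) j = (Fin.cons 0 l : E (m + 2)) j := by
              simp [lam, bet_Pj 0 hl.2, uu]
            have h5 : (Fin.cons 0 l : E (m + 2)) j ≤ 1 - τ := by
              refine Fin.cases ?_ (fun i => hl' i) j
              exact (hl.1 0).trans (hl' 0)
            have h6 : 0 ≤ (Fin.cons 0 l : E (m + 2)) j := (cons_mem hl).1 j
            have h7 : (1 - s) / (((m + 1 : ℕ) : ℝ) + 1) ≤ 1 - s :=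
              div_le_self (by linarith [hs.2]) (by linarith [(Nat.cast_nonneg (m + 1) : (0 : ℝ) ≤ _)])
            simp only [mem_ofPred_eq]
            rw [lam_smul, h4]
            nlinarith [hs.1, hs.2]
      _ ≤ _ := lintegral_mono_set hsub
  have h4 := ENNReal.toReal_mono (lintegral_Psi_ne_top hp hR) h3
  rw [lintegral_Psi hp hLm hR, ENNReal.toReal_mul, ENNReal.toReal_mul,
    ENNReal.toReal_ofReal (by positivity), ← hk] at h4
  have h5 := facet_mean (m := m) hp
  rw [← hF, ← hU, ← hV, ← hq] at h5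
  have hJ := Jp_pos (n := m + 1) hp
  rw [← ENNReal.toReal_le_toReal hGt (by finiteness), ENNReal.toReal_mul,
    ENNReal.toReal_ofReal hγ.le]
  have h6 : Jp (m + 1) p * U ≤ q * F.toReal * V := by nlinarith [mul_pos (mul_pos hq0 hJ) hU0]
  have h7 : γ * U * k * c / V * Jp (m + 1) p ≤ k * (c * q * (γ * F.toReal)) := by
    rw [div_mul_eq_mul_div, div_le_iff₀ hV0]
    nlinarith [mul_le_mul_of_nonneg_left h6 (show 0 ≤ γ * k * c by positivity)]
  exact le_of_mul_le_mul_left (le_of_mul_le_mul_left ((h4.trans h2).trans h7) hk0) (by positivity)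

lemma vol_sdiff_eq {K : Set (E n)} (hKm : MeasurableSet K) (hKs : K ⊆ cS n 1) :
    (volume (cS n 1 \ K)).toReal =
      (1 - (volume K).toReal / (volume (cS n 1)).toReal) * (volume (cS n 1)).toReal := by
  have hfin : volume (cS n 1) ≠ ∞ := (volume_cS_lt_top zero_le_one).ne
  have hV0 : 0 < (volume (cS n 1)).toReal := ENNReal.toReal_pos (volume_cS_pos one_pos).ne' hfin
  rw [measure_sdiff hKs hKm.nullMeasurableSet (ne_top_of_le_ne_top hfin (measure_mono hKs)),
    ENNReal.toReal_sub_of_le (measure_mono hKs) hfin]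
  field_simp

lemma Near.vol_ne_zero {K : Set (E (m + 1))} {δ : ℝ} (h : Near K δ) : volume K ≠ 0 :=
  ((volume_cS_pos (by linarith [h.lt])).trans_le (measure_mono h.inner)).ne'

/-- bodies that differ from the simplex in a layer of width `θ / p` -/
lemma thin (m : ℕ) : ∃ θ κ : ℝ, 0 < θ ∧ 0 < κ ∧ ∀ᶠ p in atTop, ∀ K : Set (E (m + 1)),
    Near K (θ / p) → ∀ a, ENNReal.ofReal ((volume K).toReal ^ (1 + 1 / p) * (Jp (m + 1) p *
      (1 + (1 + 1 / p + κ) * (1 - (volume K).toReal / (volume (cS (m + 1) 1)).toReal)))) ≤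
      mahler p ((fun z => z - a) '' K) := by
  obtain ⟨ρ, γ, τ, hρ, hγ, hτ, hcorr⟩ := unif_corr m
  have e1 : ∀ᶠ θ in 𝓝[>] (0 : ℝ),
      (1 + ρ) / 2 < ρ * (((1 + θ) ^ (3 * (m + 1)))⁻¹ * (1 - θ) ^ (m + 1)) := by
    refine nhdsWithin_le_nhds ?_
    have : ContinuousAt (fun θ : ℝ => ρ * (((1 + θ) ^ (3 * (m + 1)))⁻¹ * (1 - θ) ^ (m + 1))) 0 :=
      continuousAt_const.mul ((ContinuousAt.inv₀ (by fun_prop) (by simp)).mul (by fun_prop))
    exact this.eventually (lt_mem_nhds (by simp; linarith))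
  obtain ⟨θ, hθ, hθ0, hθ1⟩ := (e1.and (Ioo_mem_nhdsGT one_pos)).exists
  refine ⟨θ, (ρ - 1) / 2, hθ0, by linarith, ?_⟩
  filter_upwards [off_mass (m := m) hγ hτ, eventually_ge_atTop 1] with p hmass hp1 K h a
  have hp : 0 < p := by linarith
  have hN := nice_Psi (m := m) hp
  have hfm := facet_mean (m := m) hp
  have hc := hcorr _ hN.good hN.F_ne_top hmass
  set F := ∫⁻ l, ENNReal.ofReal (Psi p (A0 (m + 1) l)) ∂mu m with hF
  have hFt : F ≠ ∞ := hN.F_ne_top
  set U := mu m univ with hU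
  have hUt : U ≠ ∞ := measure_ne_top _ _
  have hU0 : 0 < U.toReal := ENNReal.toReal_pos mu_univ_pos.ne' hUt
  have hfin : volume (cS (m + 1) 1) ≠ ∞ := (volume_cS_lt_top zero_le_one).ne
  have hKm := h.cl.measurableSet
  have hD := vol_sdiff_eq hKm h.outer
  set V := (volume (cS (m + 1) 1)).toReal with hV
  have hV0 : 0 < V := ENNReal.toReal_pos (volume_cS_pos one_pos).ne' hfin
  set q := 1 / p with hq
  have hq0 : 0 < q := by positivity
  have hJ := Jp_pos (n := m + 1) hp
  set J := Jp (m + 1) p with hJdef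
  set w := 1 - (volume K).toReal / V with hw
  have hw0 : 0 ≤ w := by
    rw [hw, sub_nonneg, div_le_one hV0]
    exact ENNReal.toReal_mono hfin (measure_mono h.outer)
  have hδ : θ / p ≤ θ := div_le_self hθ0.le hp1
  have hi := h.int_ge (measurable_Psi p) (Psi_Tp p) (τ := ((1 + θ) ^ (3 * (m + 1)))⁻¹)
    (by positivity) fun z hz s hs hs1 => Psi_harnack' hp1 hz (by linarith) hs1 (by
      have : p * (θ / p) = θ := by field_simp
      nlinarith)
  set c := ((1 + θ) ^ (3 * (m + 1)))⁻¹ * (1 - θ / p) ^ (m + 1) with hcdef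
  have hc0 : 0 ≤ c := mul_nonneg (by positivity) (pow_nonneg (by linarith) _)
  have hc1 : (1 + ρ) / 2 ≤ ρ * c := hθ.le.trans (by
    rw [hcdef]
    gcongr)
  have h1 : ENNReal.ofReal ((1 + ρ) / 2) * (F * volume (cS (m + 1) 1 \ K)) ≤
      U * ∫⁻ z in cS (m + 1) 1 \ K, ENNReal.ofReal (Psi p z) := by
    refine le_trans ?_ (mul_le_mul_right hi _)
    refine (mul_le_mul' (ENNReal.ofReal_le_ofReal hc1) (mul_le_mul_right h.vol_le _)).trans ?_
    rw [ENNReal.ofReal_mul (by linarith), Finset.mul_sum, Finset.mul_sum, Finset.mul_sum,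
      Finset.mul_sum]
    refine Finset.sum_le_sum fun j _ => ?_
    have h2 := hc _ (h.measurable j) ((h.convexOn j).subset (subset_univ _) (convex_stdSimplex ℝ _))
      (fun x hx => sub_nonneg.2 (h.one_le j hx)) (h.gj_uu j)
    calc _ = ENNReal.ofReal c * kap (m + 1) * (ENNReal.ofReal ρ *
          (F * ∫⁻ l, ENNReal.ofReal (gj K j l - 1) ∂mu m)) := by ring
      _ ≤ ENNReal.ofReal c * kap (m + 1) * (U * _) := by gcongr
      _ = _ := by ring
  have hR : cS (m + 1) 1 ⊆ cS (m + 1) (1 + q / 4) := cS_mono (le_add_of_nonneg_right (by positivity))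
  have h2 := ENNReal.toReal_mono (ENNReal.mul_ne_top hUt (lintegral_Psi_ne_top hp
      (sdiff_subset.trans hR))) h1
  rw [ENNReal.toReal_mul, ENNReal.toReal_mul, ENNReal.toReal_mul, hD,
    lintegral_Psi hp h.meas (sdiff_subset.trans hR),
    setIntegral_sdiff hKm (integrableOn_Psi hp hR) h.outer, integral_Psi_cS hp,
    ENNReal.toReal_ofReal (by linarith)] at h2
  refine le_trans (ENNReal.ofReal_le_ofReal ?_) (tangent hp hKm (h.outer.trans hR) h.vol_ne_zero a)
  refine mul_le_mul_of_nonneg_left ?_ (by positivity)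
  rw [← hq, ← hJdef]
  set X := J - ∫ x in K, Psi p x with hX
  refine le_of_mul_le_mul_left ?_ hU0
  have h3 := mul_le_mul_of_nonneg_left h2 hq0.le
  have h4 := mul_le_mul_of_nonneg_left hfm (show 0 ≤ (1 + ρ) / 2 * w by positivity)
  have h5 : 0 ≤ (ρ - 1) * q * (J * U.toReal * w) := mul_nonneg (mul_nonneg (by linarith) hq0.le)
    (by positivity)
  nlinarith

end Pool.Agent.MP_5f4cdd_gt
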