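import Pool.Agent.MP_5f4cdd_gt.WDefs

set_option autoImplicit false
open MeasureTheory Filter Topology

namespace Pool.Agent.MP_5f4cdd_gt

/-- The smallest class of sets that contains the convex bodies in the positive orthant described by
the sums of the coordinates over three blocks, the first block being a single coordinate, and is
closed under replacing simplex fibres by unconditional fibres, affine bijections, fibre sums of two
members with the same shadow, polarity about the centroid and Hausdorff limits. -/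
inductive WGen {n : ℕ} : Set (Fin n → ℝ) → Prop
  | wedge (K : Set (Fin n → ℝ)) (g : Fin n → Fin 3) (C : Set (Fin 3 → ℝ)) :
      Convex ℝ K → IsCompact K → (interior K).Nonempty →
      Function.Surjective g → (∀ i i', g i = 0 → g i' = 0 → i = i') →
      K = {x | (∀ i, 0 ≤ x i) ∧ (fun j => ∑ i with g i = j, x i) ∈ C} → WGen K
  | norm (K : Set (Fin n → ℝ)) (k m : ℕ) (e : Fin k ⊕ Fin (m + 1) ≃ Fin n) (B : Set (Fin k → ℝ))
      (τ : (Fin k → ℝ) → ℝ) (S : Set (Fin (m + 1) → ℝ)) :
      Convex ℝ K → IsCompact K → (interior K).Nonempty →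
      Convex ℝ S → IsCompact S → (interior S).Nonempty →
      (∀ y ∈ S, ∀ j, Function.update y j (-y j) ∈ S) → (∀ u ∈ B, 0 ≤ τ u) →
      WGen (fibS e B τ (stdS (m + 1))) → K = fibS e B τ S → WGen K
  | image (K : Set (Fin n → ℝ)) (e : AffineEquiv ℝ (Fin n → ℝ) (Fin n → ℝ)) :
      WGen K → WGen (e '' K)
  | fibre (K L : Set (Fin n → ℝ)) (i : Fin n) : WGen K → WGen L →
      (fun x => Function.update x i 0) '' K = (fun x => Function.update x i 0) '' L →
      WGen {x | ∃ s t : ℝ, Function.update x i s ∈ K ∧ Function.update x i t ∈ L ∧ x i = s + t}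
  | polar (K : Set (Fin n → ℝ)) : WGen K → ∫ x in K, x = 0 →
      WGen {y | ∀ x ∈ K, ∑ i, x i * y i ≤ 1}
  | limit (K : Set (Fin n → ℝ)) (L : ℕ → Set (Fin n → ℝ)) : Convex ℝ K → IsCompact K →
      (interior K).Nonempty → (∀ j, WGen (L j)) →
      Tendsto (fun j => Metric.hausdorffDist K (L j)) atTop (𝓝 0) → WGen K

end Pool.Agent.MP_5f4cdd_gt
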