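import Pool.Agent.MP_5f4cdd_gt.ABMain
import Pool.Agent.MP_5f4cdd_gt.WGenDef

set_option autoImplicit false
open MeasureTheory ENNReal Set Function

namespace Pool.Agent.MP_5f4cdd_gt.W

variable {n : ℕ} {ι κ : Type}

/-- three nonempty blocks, the first one a single coordinate -/
structure Blk (g : Fin n → Fin 3) : Prop where
  surj : Surjective g
  one : ∀ i i', g i = 0 → g i' = 0 → i = i'

/-- block sums -/
def bs (g : Fin n → Fin 3) : E n →ₗ[ℝ] E 3 where
  toFun u := fun j => ∑ i with g i = j, u i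
  map_add' u v := by ext j; simp [Finset.sum_add_distrib]
  map_smul' c u := by ext j; simp [Finset.mul_sum]

/-- block sizes -/
def bN (g : Fin n → Fin 3) (j : Fin 3) : ℝ := ((Finset.univ.filter fun i => g i = j).card : ℝ)

/-- spread a base point evenly over the blocks -/
noncomputable def up (g : Fin n → Fin 3) : E 3 →ₗ[ℝ] E n where
  toFun z := fun k => z (g k) / bN g (g k)
  map_add' u v := by ext k; simp [add_div]
  map_smul' c u := by ext k; simp [mul_div_assoc]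

/-- pull a base functional back -/
def pb (g : Fin n → Fin 3) : E 3 →ₗ[ℝ] E n where
  toFun w := fun k => w (g k)
  map_add' u v := by ext k; simp
  map_smul' c u := by ext k; simp

/-- a choice of one coordinate in each block -/
abbrev Sec (g : Fin n → Fin 3) : Type := ∀ j : Fin 3, {k : Fin n // g k = j}

/-- the basis vector `k` minus the average of the basis vectors of its block -/
noncomputable def dv (g : Fin n → Fin 3) (k : Fin n) : E n :=
  fun k' => (if k' = k then 1 else 0) - if g k' = g k then 1 / bN g (g k) else 0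

/-- lifted points with prescribed fibre sizes -/
noncomputable def LXc (g : Fin n → Fin 3) (x : ι → E 3) (s : ι → Fin 3 → ℝ) : ι × Sec g → E n :=
  fun p => up g (x p.1) + ∑ j, (s p.1 j * bN g j) • dv g (p.2 j)

/-- the vertices of the wedge -/
noncomputable def LX (g : Fin n → Fin 3) (x : ι → E 3) (y : κ → E 3) (m : Fin 3 → κ)
    (ρ : Fin 3 → ℝ) : ι × Sec g → E n :=
  LXc g x fun i j => ρ j * (1 - y (m j) ⬝ᵥ x i)

/-- the facets of the wedge -/
noncomputable def LY (g : Fin n → Fin 3) (y : κ → E 3) (m : Fin 3 → κ) (ρ : Fin 3 → ℝ) :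
    κ ⊕ Fin n → E n :=
  Sum.elim (fun j => pb g (y j)) fun k => pb g (y (m (g k))) - (ρ (g k))⁻¹ • dv g k

variable {g : Fin n → Fin 3}

lemma bs_apply (u : E n) (j : Fin 3) : bs g u j = ∑ i with g i = j, u i := rfl

lemma up_apply (z : E 3) (k : Fin n) : up g z k = z (g k) / bN g (g k) := rfl

lemma pb_apply (w : E 3) (k : Fin n) : pb g w k = w (g k) := rfl

lemma bN_pos (hg : Surjective g) (j : Fin 3) : 0 < bN g j := by
  obtain ⟨k, hk⟩ := hg j
  exact Nat.cast_pos.2 (Finset.card_pos.2 ⟨k, by simpa using hk⟩)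

lemma Blk.bN_zero (hg : Blk g) : bN g 0 = 1 := by
  obtain ⟨k, hk⟩ := hg.surj 0
  have : (Finset.univ.filter fun i => g i = 0) = {k} := by
    ext i
    simp only [Finset.mem_filter, Finset.mem_univ, true_and, Finset.mem_singleton]
    exact ⟨fun h => hg.one i k h hk, fun h => h ▸ hk⟩
  simp [bN, this]

lemma nonempty_sec (hg : Surjective g) : Nonempty (Sec g) :=
  ⟨fun j => ⟨(hg j).choose, (hg j).choose_spec⟩⟩

lemma pb_dot (w : E 3) (u : E n) : pb g w ⬝ᵥ u = w ⬝ᵥ bs g u := by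
  simp only [dotProduct, pb_apply, bs_apply, Finset.mul_sum]
  rw [← Finset.sum_fiberwise (s := Finset.univ) (g := g)]
  refine Finset.sum_congr rfl fun j _ => Finset.sum_congr rfl fun i hi => ?_
  rw [(Finset.mem_filter.1 hi).2]

lemma bs_up (hg : Surjective g) (z : E 3) : bs g (up g z) = z := by
  ext j
  rw [bs_apply, Finset.sum_congr rfl (g := fun _ => z j / bN g j) fun i hi => by
    rw [up_apply, (Finset.mem_filter.1 hi).2]]
  rw [Finset.sum_const, nsmul_eq_mul]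
  exact mul_div_cancel₀ _ (bN_pos hg j).ne'

lemma bs_pb (w : E 3) (j : Fin 3) : bs g (pb g w) j = bN g j * w j := by
  rw [bs_apply, Finset.sum_congr rfl (g := fun _ => w j) fun i hi => by
    rw [pb_apply, (Finset.mem_filter.1 hi).2]]
  rw [Finset.sum_const, nsmul_eq_mul]
  rfl

lemma up_eq_pb (z : E 3) : up g z = pb g fun j => z j / bN g j := rfl

lemma pb_dot_up (hg : Surjective g) (w z : E 3) : pb g w ⬝ᵥ up g z = w ⬝ᵥ z := by
  rw [pb_dot, bs_up hg]

lemma up_dot_pb (hg : Surjective g) (z w : E 3) : up g z ⬝ᵥ pb g w = z ⬝ᵥ w := by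
  rw [dotProduct_comm, pb_dot_up hg, dotProduct_comm]

lemma dv_dot (k : Fin n) (u : E n) : dv g k ⬝ᵥ u = u k - bs g u (g k) / bN g (g k) := by
  simp only [dotProduct, dv, sub_mul, Finset.sum_sub_distrib, ite_mul, one_mul, zero_mul,
    Finset.sum_ite_eq', Finset.mem_univ, if_true, bs_apply, Finset.sum_div, Finset.sum_filter]
  congr 1
  refine Finset.sum_congr rfl fun i _ => ?_
  split_ifs <;> simp [div_eq_inv_mul]

lemma bs_dv (k : Fin n) : bs g (dv g k) = 0 := by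
  ext j
  have hk : 0 < bN g (g k) := Nat.cast_pos.2 (Finset.card_pos.2 ⟨k, by simp⟩)
  simp only [bs_apply, dv, Finset.sum_sub_distrib, Pi.zero_apply]
  by_cases h : g k = j
  · subst h
    rw [Finset.sum_ite_eq', if_pos (by simp), Finset.sum_congr rfl
      (g := fun _ => 1 / bN g (g k)) fun i hi => if_pos (Finset.mem_filter.1 hi).2,
      Finset.sum_const, nsmul_eq_mul]
    change 1 - bN g (g k) * _ = 0
    field_simp
    ring
  · rw [Finset.sum_ite_eq', if_neg (by simpa using h), Finset.sum_eq_zero fun i hi =>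
      if_neg fun e => h (e.symm.trans (Finset.mem_filter.1 hi).2)]
    simp

lemma pb_dot_dv (w : E 3) (k : Fin n) : pb g w ⬝ᵥ dv g k = 0 := by
  rw [pb_dot, bs_dv, dotProduct_zero]

lemma dv_dot_pb (k : Fin n) (w : E 3) : dv g k ⬝ᵥ pb g w = 0 := by
  rw [dotProduct_comm, pb_dot_dv]

lemma dv_dot_up (k : Fin n) (z : E 3) : dv g k ⬝ᵥ up g z = 0 := by
  rw [up_eq_pb, dv_dot_pb]

lemma up_dot_dv (z : E 3) (k : Fin n) : up g z ⬝ᵥ dv g k = 0 := by
  rw [dotProduct_comm, dv_dot_up]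

lemma dv_dot_dv (k k' : Fin n) : dv g k ⬝ᵥ dv g k' =
    (if k = k' then 1 else 0) - if g k = g k' then 1 / bN g (g k') else 0 := by
  rw [dv_dot, bs_dv]; simp [dv]

lemma Blk.dv_zero (hg : Blk g) {k : Fin n} (hk : g k = 0) : dv g k = 0 := by
  ext k'
  by_cases h : k' = k
  · simp [dv, h, hk, hg.bN_zero]
  · have : g k' ≠ 0 := fun e => h (hg.one _ _ e hk)
    simp [dv, h, hk, this]

lemma bs_LXc (hg : Surjective g) (x : ι → E 3) (s : ι → Fin 3 → ℝ) (p : ι × Sec g) :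
    bs g (LXc g x s p) = x p.1 := by
  simp [LXc, bs_up hg, bs_dv]

lemma pb_dot_LXc (hg : Surjective g) (w : E 3) (x : ι → E 3) (s : ι → Fin 3 → ℝ)
    (p : ι × Sec g) : pb g w ⬝ᵥ LXc g x s p = w ⬝ᵥ x p.1 := by
  rw [pb_dot, bs_LXc hg]

lemma dv_dot_LXc (hg : Surjective g) (k : Fin n) (x : ι → E 3) (s : ι → Fin 3 → ℝ)
    (p : ι × Sec g) : dv g k ⬝ᵥ LXc g x s p =
      s p.1 (g k) * ((if (p.2 (g k) : Fin n) = k then bN g (g k) else 0) - 1) := by
  have hN := (bN_pos hg (g k)).ne'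
  simp only [LXc, dotProduct_add, dv_dot_up, zero_add, dotProduct_sum, dotProduct_smul,
    smul_eq_mul, dv_dot_dv]
  rw [Finset.sum_eq_single (g k)]
  · rw [(p.2 (g k)).2, if_pos rfl]
    by_cases h : k = p.2 (g k)
    · rw [if_pos h, if_pos h.symm]; field_simp
    · rw [if_neg h, if_neg (Ne.symm h)]; field_simp; ring
  · intro j _ hj
    have h1 : g k ≠ g (p.2 j) := by rw [(p.2 j).2]; exact hj.symm
    rw [if_neg h1, if_neg fun e => h1 (congrArg g e)]
    simp
  · simp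

lemma LY_inl_dot (y : κ → E 3) (m : Fin 3 → κ) (ρ : Fin 3 → ℝ) (j : κ) (u : E n) :
    LY g y m ρ (Sum.inl j) ⬝ᵥ u = y j ⬝ᵥ bs g u := pb_dot _ _

lemma LY_inr_dot (y : κ → E 3) (m : Fin 3 → κ) (ρ : Fin 3 → ℝ) (k : Fin n) (u : E n) :
    LY g y m ρ (Sum.inr k) ⬝ᵥ u =
      y (m (g k)) ⬝ᵥ bs g u - (ρ (g k))⁻¹ * (u k - bs g u (g k) / bN g (g k)) := by
  simp [LY, sub_dotProduct, pb_dot, dv_dot]

lemma LY_inl_dot_LX (hg : Surjective g) (x : ι → E 3) (y : κ → E 3) (m : Fin 3 → κ)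
    (ρ : Fin 3 → ℝ) (j : κ) (p : ι × Sec g) :
    LY g y m ρ (Sum.inl j) ⬝ᵥ LX g x y m ρ p = y j ⬝ᵥ x p.1 := pb_dot_LXc hg _ _ _ _

lemma LY_inr_dot_LX (hg : Surjective g) (x : ι → E 3) (y : κ → E 3) (m : Fin 3 → κ)
    {ρ : Fin 3 → ℝ} (hρ : ∀ j, 0 < ρ j) (k : Fin n) (p : ι × Sec g) :
    LY g y m ρ (Sum.inr k) ⬝ᵥ LX g x y m ρ p =
      1 - (1 - y (m (g k)) ⬝ᵥ x p.1) * if (p.2 (g k) : Fin n) = k then bN g (g k) else 0 := by
  have := (hρ (g k)).ne'
  simp only [LY, LX, Sum.elim_inr, sub_dotProduct, smul_dotProduct, smul_eq_mul, pb_dot_LXc hg,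
    dv_dot_LXc hg]
  field_simp
  ring

/-- nearness to a simplex cannot be intermediate for bodies of small volume product -/
def Moat (n : ℕ) (ε ε' : ℝ) (μ : ℝ≥0∞) : Prop :=
  ∀ K : Set (E n), Convex ℝ K → IsCompact K → (interior K).Nonempty →
    PL.mstarInf K < μ → EF.Near ε' K → EF.Near ε K

/-- a two-sided admissible flow in the direction `θ` that gains an incidence at both ends -/
def Flow {d : ℕ} (x : ι → E d) (y : κ → E d) (θ : E d) : Prop :=
  ∃ (a : ι → ℝ) (w : κ → E d) (γ : κ → ℝ) (δ τ : ℝ), Adm x y θ a w γ ∧ ¬ TrivSpeed x a ∧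
    0 < δ ∧ 0 < τ ∧ (∀ t ∈ Icc (-δ) τ, t ∈ goodT x y θ a w γ) ∧
    ∀ T, T = τ ∨ T = -δ → ∃ i j, y j ⬝ᵥ x i ≠ 1 ∧
      (y j - T • w j) ⬝ᵥ shadowPts x a θ T i = 1 + T * γ j

end Pool.Agent.MP_5f4cdd_gt.W
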