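import Pool.Agent.MP_5f4cdd_gt.WDefs

set_option autoImplicit false
open MeasureTheory Filter Topology

namespace Pool.Agent.MP_5f4cdd_gt

/-- compact convex sets with interior points -/
def IsBody {n : ℕ} (K : Set (Fin n → ℝ)) : Prop :=
  Convex ℝ K ∧ IsCompact K ∧ (interior K).Nonempty

/-- The class of the hand-in. The coordinates are grouped into three nonempty blocks by `g`.
`wedge`: bodies in the positive orthant described by the three block sums, block `0` being one
coordinate. `rot`: bodies invariant under the orthogonal groups of the blocks in `R`, every other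
block (among them block `0`) being one coordinate. The other rules are closure properties. -/
inductive WCls {n : ℕ} : Set (Fin n → ℝ) → Prop
  | wedge (K : Set (Fin n → ℝ)) (g : Fin n → Fin 3) (C : Set (Fin 3 → ℝ)) : IsBody K →
      Function.Surjective g → (∀ i i', g i = 0 → g i' = 0 → i = i') →
      K = {x | (∀ i, 0 ≤ x i) ∧ (fun j => ∑ i with g i = j, x i) ∈ C} → WCls K
  | rot (K : Set (Fin n → ℝ)) (g : Fin n → Fin 3) (R : Set (Fin 3)) : IsBody K →
      Function.Surjective g → 0 ∉ R → (∀ i i', g i = g i' → g i ∉ R → i = i') →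
      (∀ x ∈ K, ∀ y : Fin n → ℝ, (∀ i, g i ∉ R → y i = x i) →
        (∀ j ∈ R, ∑ i with g i = j, y i ^ 2 = ∑ i with g i = j, x i ^ 2) → y ∈ K) → WCls K
  | norm (k m : ℕ) (e : Fin k ⊕ Fin (m + 1) ≃ Fin n) (B : Set (Fin k → ℝ))
      (τ : (Fin k → ℝ) → ℝ) (S : Set (Fin (m + 1) → ℝ)) : IsBody (fibS e B τ S) → IsBody S →
      (∀ y ∈ S, ∀ j, Function.update y j (-y j) ∈ S) → (∀ u ∈ B, 0 ≤ τ u) →
      WCls (fibS e B τ (stdS (m + 1))) → WCls (fibS e B τ S)
  | image (K : Set (Fin n → ℝ)) (e : AffineEquiv ℝ (Fin n → ℝ) (Fin n → ℝ)) :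
      WCls K → WCls (e '' K)
  | fibre (K L : Set (Fin n → ℝ)) (i : Fin n) : WCls K → WCls L →
      (fun x => Function.update x i 0) '' K = (fun x => Function.update x i 0) '' L →
      WCls {x | ∃ s t : ℝ, Function.update x i s ∈ K ∧ Function.update x i t ∈ L ∧ x i = s + t}
  | polar (K : Set (Fin n → ℝ)) : WCls K → ∫ x in K, x = 0 →
      WCls {y | ∀ x ∈ K, ∑ i, x i * y i ≤ 1}
  | limit (K : Set (Fin n → ℝ)) (L : ℕ → Set (Fin n → ℝ)) : IsBody K → (∀ j, WCls (L j)) →
      Tendsto (fun j => Metric.hausdorffDist K (L j)) atTop (𝓝 0) → WCls K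

end Pool.Agent.MP_5f4cdd_gt
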