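import Pool.Agent.MP_5f4cdd_gt.DefsInf

set_option autoImplicit false
open Pointwise

namespace Pool.Agent.MP_5f4cdd_gt

/-- The points `(u, v)` with `u ∈ B` and `v ∈ τ(u) S`; the coordinates are split by `e`. -/
def fibS {n k m : ℕ} (e : Fin k ⊕ Fin m ≃ Fin n) (B : Set (Fin k → ℝ)) (τ : (Fin k → ℝ) → ℝ)
    (S : Set (Fin m → ℝ)) : Set (Fin n → ℝ) :=
  {x | (fun i => x (e (Sum.inl i))) ∈ B ∧
    (fun j => x (e (Sum.inr j))) ∈ τ (fun i => x (e (Sum.inl i))) • S}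

end Pool.Agent.MP_5f4cdd_gt
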