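import Pool.Agent.MP_5f4cdd_gt.WBase

set_option autoImplicit false
open MeasureTheory ENNReal Set Function Filter Topology Pointwise

namespace Pool.Agent.MP_5f4cdd_gt.W

open PL EF AB

variable {n : ℕ} {ι κ : Type} {g : Fin n → Fin 3} {x : ι → E 3} {y : κ → E 3}

lemma wlift_one {μ : Fin n → ℝ} (hμ : ∀ j, ∑ a : {k : Fin n // g k = j}, μ a = 1) :
    ∑ φ : Sec g, ∏ j, μ (φ j) = 1 := by
  have h := Finset.prod_univ_sum (fun j : Fin 3 => (Finset.univ : Finset {k : Fin n // g k = j}))
    fun j a => μ a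
  rw [Fintype.piFinset_univ] at h
  rw [← h]
  exact Finset.prod_eq_one fun j _ => hμ j

lemma wlift_marg {μ : Fin n → ℝ} (hμ : ∀ j, ∑ a : {k : Fin n // g k = j}, μ a = 1)
    (F : Fin n → ℝ) (j₀ : Fin 3) :
    ∑ φ : Sec g, (∏ j, μ (φ j)) * F (φ j₀) = ∑ a : {k : Fin n // g k = j₀}, μ a * F a := by
  have h := Finset.prod_univ_sum (fun j : Fin 3 => (Finset.univ : Finset {k : Fin n // g k = j}))
    fun j a => μ a * if j = j₀ then F a else 1
  rw [Fintype.piFinset_univ] at h
  simp only [Finset.prod_mul_distrib, Finset.prod_ite_eq', Finset.mem_univ, if_true] at h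
  rw [← h, Finset.prod_eq_single j₀]
  · simp
  · intro j _ hj
    simpa [hj] using hμ j
  · simp

lemma wlift_sub (f : Fin n → ℝ) (j : Fin 3) :
    ∑ a : {k : Fin n // g k = j}, f a = ∑ k with g k = j, f k :=
  (Finset.sum_subtype _ (by simp) f).symm

lemma wlift_dv {μ : Fin n → ℝ} (hμ : ∀ j, ∑ a : {k : Fin n // g k = j}, μ a = 1) (j : Fin 3)
    (k : Fin n) : ∑ a : {k : Fin n // g k = j}, μ a * dv g a k =
      if g k = j then μ k - 1 / bN g j else 0 := by
  have h1 : ∀ a : {k : Fin n // g k = j}, μ a * dv g a k =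
      (if k = a then μ a else 0) - μ a * if g k = j then 1 / bN g j else 0 := by
    intro a
    simp only [dv, a.2, mul_sub, mul_ite, mul_one, mul_zero]
  rw [Finset.sum_congr rfl fun a _ => h1 a, Finset.sum_sub_distrib, ← Finset.sum_mul, hμ, one_mul,
    wlift_sub (fun a => if k = a then μ a else 0), Finset.sum_ite_eq]
  by_cases h : g k = j <;> simp [h]

lemma wlift_mu (hg : Surjective g) {f : Fin n → ℝ} {r : Fin 3 → ℝ} (hf : ∀ k, 0 ≤ f k)
    (hs : ∀ j, ∑ k with g k = j, f k = bN g j * r j) :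
    ∃ μ : Fin n → ℝ, (∀ k, 0 ≤ μ k) ∧ (∀ j, ∑ a : {k : Fin n // g k = j}, μ a = 1) ∧
      ∀ k, r (g k) * bN g (g k) * μ k = f k := by
  have hr : ∀ j, 0 ≤ r j := fun j =>
    nonneg_of_mul_nonneg_right (hs j ▸ Finset.sum_nonneg fun k _ => hf k) (bN_pos hg j)
  refine ⟨fun k => if r (g k) = 0 then 1 / bN g (g k) else f k / (bN g (g k) * r (g k)),
    fun k => ?_, fun j => ?_, fun k => ?_⟩
  · have := bN_pos hg (g k)
    have := hr (g k)
    have := hf k
    dsimp only
    split_ifs <;> positivity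
  · have hN := (bN_pos hg j).ne'
    rw [Finset.sum_congr rfl (g := fun a : {k : Fin n // g k = j} =>
      if r j = 0 then 1 / bN g j else f a / (bN g j * r j)) fun a _ => by simp only [a.2]]
    by_cases h : r j = 0
    · simp only [h, if_true]
      rw [wlift_sub fun _ => 1 / bN g j, Finset.sum_const, nsmul_eq_mul]
      exact mul_one_div_cancel hN
    · simp only [h, if_false]
      rw [← Finset.sum_div, wlift_sub, hs, div_self (mul_ne_zero hN h)]
  · have hN := (bN_pos hg (g k)).ne'
    dsimp only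
    split_ifs with h
    · have h1 := hs (g k)
      rw [h, mul_zero, Finset.sum_eq_zero_iff_of_nonneg fun k _ => hf k] at h1
      rw [h, h1 k (by simp), zero_mul, zero_mul]
    · field_simp

theorem dualPair_lift [Finite ι] [Finite κ] (hg : Surjective g) (h : DualPair x y)
    (m : Fin 3 → κ) {ρ : Fin 3 → ℝ} (hρ : ∀ j, 0 < ρ j) :
    DualPair (LX g x y m ρ) (LY g y m ρ) := by
  have : Nonempty (κ ⊕ Fin n) := ⟨Sum.inl (m 0)⟩
  have := Fintype.ofFinite ι
  refine dualPair_of_eq (Subset.antisymm (fun Z hZ J => dot_le_of_mem_hull (fun p => ?_) hZ)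
    fun Z hZ => ?_)
  · rcases J with j | k
    · rw [LY_inl_dot_LX hg]
      exact h.dot_le _ _
    · rw [LY_inr_dot_LX hg _ _ _ hρ]
      have h1 := h.dot_le p.1 (m (g k))
      have h2 : 0 ≤ if (p.2 (g k) : Fin n) = k then bN g (g k) else 0 := by
        split_ifs
        exacts [(bN_pos hg _).le, le_rfl]
      have := mul_nonneg (sub_nonneg.2 h1) h2
      linarith
  · have hz : bs g Z ∈ convexHull ℝ (range x) := by
      rw [h.1]
      intro j
      rw [← LY_inl_dot y m ρ]
      exact hZ _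
    obtain ⟨w, hw0, hw1, hw⟩ := (mem_hull_iff x _).1 hz
    obtain ⟨μ, hμ0, hμ1, hμ⟩ := wlift_mu hg
      (f := fun k => Z k - bs g Z (g k) / bN g (g k) + ρ (g k) * (1 - y (m (g k)) ⬝ᵥ bs g Z))
      (r := fun j => ρ j * (1 - y (m j) ⬝ᵥ bs g Z)) (fun k => by
        have h1 := hZ (Sum.inr k)
        rw [LY_inr_dot] at h1
        have h2 := mul_le_mul_of_nonneg_left h1 (hρ (g k)).le
        rw [mul_sub, mul_inv_cancel_left₀ (hρ (g k)).ne'] at h2
        linarith) (fun j => by
        rw [Finset.sum_congr rfl (g := fun k => Z k + (ρ j * (1 - y (m j) ⬝ᵥ bs g Z) -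
          bs g Z j / bN g j)) fun k hk => by rw [(Finset.mem_filter.1 hk).2]; ring,
          Finset.sum_add_distrib, Finset.sum_const, nsmul_eq_mul, ← bs_apply]
        change _ + bN g j * _ = _
        have := (bN_pos hg j).ne'
        field_simp
        ring)
    refine (mem_hull_iff _ _).2 ⟨fun p => w p.1 * ∏ j, μ (p.2 j),
      fun p => mul_nonneg (hw0 _) (Finset.prod_nonneg fun j _ => hμ0 _), ?_, ?_⟩
    · simp only [Fintype.sum_prod_type, ← Finset.mul_sum, wlift_one hμ1, mul_one, hw1]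
    · funext k
      have h1 : ∀ i, ∑ φ : Sec g, (w i * ∏ j, μ (φ j)) * LX g x y m ρ (i, φ) k =
          w i * (x i (g k) / bN g (g k) + ρ (g k) * (1 - y (m (g k)) ⬝ᵥ x i) * bN g (g k) *
            (μ k - 1 / bN g (g k))) := by
        intro i
        simp only [mul_assoc (w i), ← Finset.mul_sum]
        congr 1
        simp only [LX, LXc, Pi.add_apply, Finset.sum_apply, Pi.smul_apply, smul_eq_mul, mul_add,
          Finset.sum_add_distrib, ← Finset.sum_mul, wlift_one hμ1, one_mul, up_apply,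
          Finset.mul_sum]
        congr 1
        rw [Finset.sum_comm]
        simp only [mul_left_comm (∏ j, μ _), ← Finset.mul_sum]
        rw [Finset.sum_congr rfl fun j _ => by
          rw [wlift_marg hμ1 (fun a => dv g a k) j, wlift_dv hμ1]]
        simp only [mul_ite, mul_zero, Finset.sum_ite_eq, Finset.mem_univ, if_true]
      have h2 : ∑ i, w i * x i (g k) = bs g Z (g k) := by
        simpa using congrFun hw (g k)
      have h3 : ∑ i, w i * y (m (g k)) ⬝ᵥ x i = y (m (g k)) ⬝ᵥ bs g Z := by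
        rw [← hw, dotProduct_sum]
        simp
      simp only [Finset.sum_apply, Pi.smul_apply, smul_eq_mul, Fintype.sum_prod_type, h1]
      have h4 := hμ k
      have hN := (bN_pos hg (g k)).ne'
      rw [Finset.sum_congr rfl (g := fun i => w i * x i (g k) * (1 / bN g (g k)) +
        (w i - w i * y (m (g k)) ⬝ᵥ x i) * (ρ (g k) * bN g (g k) * (μ k - 1 / bN g (g k))))
        fun i _ => by ring, Finset.sum_add_distrib, ← Finset.sum_mul, ← Finset.sum_mul,
        Finset.sum_sub_distrib, h2, h3, hw1]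
      have h5 : bN g (g k) * (1 / bN g (g k)) = 1 := mul_one_div_cancel hN
      linear_combination h4 - ρ (g k) * (1 - y (m (g k)) ⬝ᵥ bs g Z) * h5

end Pool.Agent.MP_5f4cdd_gt.W
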