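import Pool.Agent.MP_5f4cdd_gt.WBase

set_option autoImplicit false
open MeasureTheory ENNReal Set Function Filter Topology Pointwise

namespace Pool.Agent.MP_5f4cdd_gt.W

open PL EF AB

variable {n : ℕ}

theorem mstarInf_sub (K : Set (E n)) (c : E n) : mstarInf ((fun z => z - c) '' K) = mstarInf K := by
  have := AB.mstarInf_affine (AffineEquiv.constVAdd ℝ (E n) (-c)) K
  simp only [sub_eq_neg_add]
  exact this

theorem stepS {ε ε' : ℝ} {μ : ℝ≥0∞} (hεε' : ε < ε') (hε' : ε' < 1) (moat : Moat n ε ε' μ)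
    {ι : Type} [Finite ι] [Nonempty ι] (z : ι → E n) (a : ι → ℝ) {θ : E n} (hθ : θ ≠ 0)
    {δ τ α β : ℝ} (hδ : 0 < δ) (hτ : 0 < τ)
    (hV : ∀ t ∈ Icc (-δ) τ,
      (volume (convexHull ℝ (range (shadowPts z a θ t)))).toReal = α + β * t)
    (hI : ∀ t ∈ Icc (-δ) τ, (interior (convexHull ℝ (range (shadowPts z a θ t)))).Nonempty)
    (hM : mstarInf (convexHull ℝ (range z)) < μ) (hN : ¬ EF.Near ε' (convexHull ℝ (range z))) :
    ∃ T, (T = τ ∨ T = -δ) ∧ mstarInf (convexHull ℝ (range (shadowPts z a θ T))) < μ ∧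
      ¬ EF.Near ε' (convexHull ℝ (range (shadowPts z a θ T))) := by
  have hP0 : convexHull ℝ (range (shadowPts z a θ 0)) = convexHull ℝ (range z) := by
    congr 2; ext i; simp [shadowPts]
  have hM0 : mstarInf (convexHull ℝ (range (shadowPts z a θ 0))) < μ := by rwa [hP0]
  have key : ∀ T, (T = τ ∨ T = -δ) → T ∈ Icc (-δ) τ →
      (∀ t ∈ uIcc 0 T, mstarInf (convexHull ℝ (range (shadowPts z a θ t))) < μ) →
      ∃ T, (T = τ ∨ T = -δ) ∧ mstarInf (convexHull ℝ (range (shadowPts z a θ T))) < μ ∧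
        ¬ EF.Near ε' (convexHull ℝ (range (shadowPts z a θ T))) := by
    intro T hT hT' hlt
    have hsub : uIcc 0 T ⊆ Icc (-δ) τ := uIcc_subset_Icc ⟨by linarith, hτ.le⟩ hT'
    refine ⟨T, hT, hlt T right_mem_uIcc, fun hn => hN ?_⟩
    rw [← hP0]
    exact near_flow z a θ isPreconnected_uIcc (fun t ht => hI t (hsub ht)) hεε' hε'.le
      (fun t ht h1 => moat _ (convex_convexHull ℝ _) (isCompact_hull _) (hI t (hsub ht))
        (hlt t ht) h1) right_mem_uIcc left_mem_uIcc hn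
  by_cases h1 : ∀ t ∈ uIcc 0 (-δ), mstarInf (convexHull ℝ (range (shadowPts z a θ t))) < μ
  · exact key _ (Or.inr rfl) ⟨le_rfl, by linarith⟩ h1
  · refine key _ (Or.inl rfl) ⟨by linarith, le_rfl⟩ fun t ht => ?_
    push Not at h1
    obtain ⟨s, hs, hs'⟩ := h1
    rw [uIcc_of_ge (by linarith)] at hs
    rw [uIcc_of_le hτ.le] at ht
    have hs0 : s < 0 := lt_of_le_of_ne hs.2 (by rintro rfl; exact absurd hM0 (not_lt.2 hs'))
    rcases ht.1.eq_or_lt with rfl | ht0
    · exact hM0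
    refine lt_of_le_of_lt (flow_le z a hθ (δ := -s) (A := α) (B := β) (by linarith) ht0 ?_
      hM0.ne_top ?_ le_rfl) hM0
    · intro r hr
      refine hV r ?_
      simp only [neg_neg, mem_insert_iff, mem_singleton_iff] at hr
      rcases hr with rfl | rfl | rfl
      · exact ⟨hs.1, by linarith⟩
      · exact ⟨by linarith, hτ.le⟩
      · exact ⟨by linarith, ht.2⟩
    · rw [neg_neg]; exact hM0.le.trans hs'

end Pool.Agent.MP_5f4cdd_gt.W
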