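import Pool.Agent.MP_5f4cdd_gt.WFlow
import Pool.Agent.MP_5f4cdd_gt.WLift
import Pool.Agent.MP_5f4cdd_gt.WStep
import Pool.Agent.MP_5f4cdd_gt.WSym

set_option autoImplicit false
open MeasureTheory ENNReal Set Function Filter Topology Pointwise

namespace Pool.Agent.MP_5f4cdd_gt.W

open PL EF AB

variable {n : ℕ} {ι κ : Type} {g : Fin n → Fin 3} {x : ι → E 3} {y : κ → E 3}

/-- the slope of the slack downstairs -/
def wdual_sig (x : ι → E 3) (y : κ → E 3) (η : E 3) (b : κ → ℝ) (w : ι → E 3) (γ : ι → ℝ)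
    (i : ι) (j : κ) : ℝ := γ i + w i ⬝ᵥ y j - b j * (x i ⬝ᵥ η)

/-- the lifted speeds -/
def wdual_bb (g : Fin n → Fin 3) (b : κ → ℝ) (m : Fin 3 → κ) : κ ⊕ Fin n → ℝ :=
  Sum.elim b fun k => b (m (g k))

/-- the lifted tilts -/
noncomputable def wdual_W (g : Fin n → Fin 3) (x : ι → E 3) (y : κ → E 3) (η : E 3) (b : κ → ℝ)
    (w : ι → E 3) (γ : ι → ℝ) (m : Fin 3 → κ) (ρ : Fin 3 → ℝ) : ι × Sec g → E n :=
  LXc g w fun i j => -(ρ j * wdual_sig x y η b w γ i (m j))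

lemma wdual_LX_pb (hg : Surjective g) (m : Fin 3 → κ) (ρ : Fin 3 → ℝ) (η : E 3)
    (p : ι × Sec g) : LX g x y m ρ p ⬝ᵥ pb g η = x p.1 ⬝ᵥ η := by
  rw [dotProduct_comm, LX, pb_dot_LXc hg, dotProduct_comm]

lemma wdual_key (hg : Surjective g) (m : Fin 3 → κ) {ρ : Fin 3 → ℝ} (hρ : ∀ j, 0 < ρ j)
    (η : E 3) (b : κ → ℝ) (w : ι → E 3) (γ : ι → ℝ) (J : κ ⊕ Fin n) (p : ι × Sec g) :
    ∃ (N : ℝ) (j : κ), 0 ≤ N ∧
      1 - LX g x y m ρ p ⬝ᵥ LY g y m ρ J = N * (1 - x p.1 ⬝ᵥ y j) ∧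
      γ p.1 + wdual_W g x y η b w γ m ρ p ⬝ᵥ LY g y m ρ J -
        wdual_bb g b m J * (LX g x y m ρ p ⬝ᵥ pb g η) = N * wdual_sig x y η b w γ p.1 j := by
  rcases J with j | k
  · refine ⟨1, j, zero_le_one, ?_, ?_⟩
    · rw [dotProduct_comm, LY_inl_dot_LX hg, dotProduct_comm, one_mul]
    · rw [wdual_LX_pb hg, dotProduct_comm (wdual_W g x y η b w γ m ρ p), LY_inl_dot, wdual_W,
        bs_LXc hg, one_mul, wdual_sig, dotProduct_comm (y j)]
      rfl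
  · refine ⟨if (p.2 (g k) : Fin n) = k then bN g (g k) else 0, m (g k), ?_, ?_, ?_⟩
    · split_ifs
      · exact (bN_pos hg _).le
      · exact le_rfl
    · rw [dotProduct_comm, LY_inr_dot_LX hg x y m hρ, dotProduct_comm (x p.1)]
      ring
    · have hr := (hρ (g k)).ne'
      rw [wdual_LX_pb hg, dotProduct_comm (wdual_W g x y η b w γ m ρ p)]
      have e : LY g y m ρ (Sum.inr k) = pb g (y (m (g k))) - (ρ (g k))⁻¹ • dv g k := rfl
      have e2 : wdual_bb g b m (Sum.inr k) = b (m (g k)) := rfl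
      rw [e, e2, sub_dotProduct, smul_dotProduct, smul_eq_mul, wdual_W, pb_dot_LXc hg,
        dv_dot_LXc hg, dotProduct_comm (y (m (g k)))]
      have e3 : γ p.1 = wdual_sig x y η b w γ p.1 (m (g k)) - w p.1 ⬝ᵥ y (m (g k)) +
          b (m (g k)) * (x p.1 ⬝ᵥ η) := by
        rw [wdual_sig]; ring
      rw [e3]
      generalize wdual_sig x y η b w γ p.1 (m (g k)) = s
      field_simp
      ring

lemma wdual_adm [Finite ι] [Finite κ] (hg : Surjective g) (h : DualPair x y) (m : Fin 3 → κ)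
    {ρ : Fin 3 → ℝ} (hρ : ∀ j, 0 < ρ j) {η : E 3} {b : κ → ℝ} {w : ι → E 3} {γ : ι → ℝ}
    (hA : Adm y x η b w γ) :
    Adm (LY g y m ρ) (LX g x y m ρ) (pb g η) (wdual_bb g b m) (wdual_W g x y η b w γ m ρ)
      (fun p => γ p.1) where
  hP := (dualPair_lift hg h m hρ).2
  hθ := by
    intro h0
    refine hA.hθ (funext fun j => ?_)
    obtain ⟨k, rfl⟩ := hg j
    exact congrFun h0 k
  hw := fun p => by
    rw [dotProduct_comm, wdual_W, pb_dot_LXc hg, dotProduct_comm, hA.hw]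
  hinc := fun J p hJ => by
    obtain ⟨N, j, -, e1, e2⟩ := wdual_key (x := x) (y := y) hg m hρ η b w γ J p
    rw [hJ, sub_self] at e1
    have e3 : N * wdual_sig x y η b w γ p.1 j = 0 := by
      rcases mul_eq_zero.1 e1.symm with h0 | h0
      · rw [h0, zero_mul]
      · have := hA.hinc j p.1 (by linarith)
        rw [wdual_sig]
        have e4 : γ p.1 + w p.1 ⬝ᵥ y j - b j * (x p.1 ⬝ᵥ η) = 0 := by linarith
        rw [e4, mul_zero]
    linarith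
  hpar := fun p hp => by
    rw [wdual_LX_pb hg] at hp
    obtain ⟨e1, e2⟩ := hA.hpar p.1 hp
    refine ⟨?_, e2⟩
    simp [wdual_W, LXc, wdual_sig, e1, e2, hp]

lemma wdual_good [Finite ι] [Finite κ] (hg : Surjective g) (h : DualPair x y) (m : Fin 3 → κ)
    {ρ : Fin 3 → ℝ} (hρ : ∀ j, 0 < ρ j) {η : E 3} {b : κ → ℝ} {w : ι → E 3} {γ : ι → ℝ}
    (hA : Adm y x η b w γ) {t : ℝ} (ht : t ∈ goodT y x η b w γ) :
    t ∈ goodT (LY g y m ρ) (LX g x y m ρ) (pb g η) (wdual_bb g b m) (wdual_W g x y η b w γ m ρ)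
      (fun p => γ p.1) := by
  intro J p
  obtain ⟨N, j, hN, e1, e2⟩ := wdual_key (x := x) (y := y) hg m hρ η b w γ J p
  have s1 := (wdual_adm hg h m hρ hA).slack t J p
  have s2 := hA.slack t j p.1
  have s3 := ht j p.1
  rw [e1, e2] at s1
  have s4 : 0 ≤ N * ((1 - x p.1 ⬝ᵥ y j) + t * wdual_sig x y η b w γ p.1 j) :=
    mul_nonneg hN (by rw [wdual_sig]; linarith)
  linarith

lemma wdual_notTriv (m : Fin 3 → κ) (ρ : Fin 3 → ℝ) {b : κ → ℝ} (hb : ¬ TrivSpeed y b) :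
    ¬ TrivSpeed (LY g y m ρ) (wdual_bb g b m) := by
  rintro ⟨U, c, hU⟩
  refine hb ⟨bs g U, c, fun j => ?_⟩
  have := hU (Sum.inl j)
  rw [dotProduct_comm, LY_inl_dot, dotProduct_comm] at this
  exact this

lemma wdual_shadow (m : Fin 3 → κ) (ρ : Fin 3 → ℝ) (b : κ → ℝ) (η : E 3) (t : ℝ) :
    shadowPts (LY g y m ρ) (wdual_bb g b m) (pb g η) t = LY g (shadowPts y b η t) m ρ := by
  funext J
  rcases J with j | k
  · simp [shadowPts, LY, wdual_bb]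
  · simp only [shadowPts, LY, wdual_bb, Sum.elim_inr, map_add, map_smul]
    abel

lemma wdual_sub (m : Fin 3 → κ) (ρ : Fin 3 → ℝ) (c : E 3) :
    LY g (fun j => y j - c) m ρ = fun J => LY g y m ρ J - pb g c := by
  funext J
  rcases J with j | k
  · simp [LY]
  · simp only [LY, Sum.elim_inr, map_sub]
    abel

theorem dual_step {ε ε' : ℝ} {μ : ℝ≥0∞} (hεε' : ε < ε') (hε' : ε' < 1) (moat : Moat n ε ε' μ)
    [Finite ι] [Finite κ] (hg : Surjective g) (h : DualPair x y) (m : Fin 3 → κ) {ρ : Fin 3 → ℝ}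
    (hρ : ∀ j, 0 < ρ j) {η : E 3} (hf : Flow y x η)
    (hM : mstarInf (convexHull ℝ (range (LY g y m ρ))) < μ)
    (hN : ¬ EF.Near ε' (convexHull ℝ (range (LY g y m ρ)))) :
    ∃ (x' : ι → E 3) (y' : κ → E 3), DualPair x' y' ∧ nInc x y < nInc x' y' ∧
      mahlerInf (convexHull ℝ (range (LY g y' m ρ))) < μ ∧
      ¬ EF.Near ε' (convexHull ℝ (range (LY g y' m ρ))) := by
  obtain ⟨b, w, γ, δ, τ, hA, hb, hδ, hτ, hgood, hnew⟩ := hf
  have hι : Nonempty ι := h.nonempty_left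
  have hκ : Nonempty (κ ⊕ Fin n) := ⟨Sum.inl (m 0)⟩
  have hA' := wdual_adm hg h m hρ hA
  obtain ⟨α, β, hV⟩ := vol_affine hA' hδ hτ fun t ht => wdual_good hg h m hρ hA (hgood t ht)
  have hi0 : (interior (convexHull ℝ (range (LY g y m ρ)))).Nonempty :=
    ⟨0, (dualPair_lift hg h m hρ).symm.zero_mem_interior⟩
  have hI := fun t => interior_shadow_nonempty hi0 (wdual_notTriv m ρ hb) (pb g η) t
  obtain ⟨T, hT, hM', hN'⟩ := stepS hεε' hε' moat (LY g y m ρ) (wdual_bb g b m) hA'.hθ hδ hτ hV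
    (fun t _ => hI t) hM hN
  have hIT := hI T
  rw [wdual_shadow] at hM' hN' hIT
  obtain ⟨c, hc, hMc⟩ := centre_LY hg (shadowPts y b η T) m ρ hIT hM'
  have hTm : T ∈ Icc (-δ) τ := by
    rcases hT with rfl | rfl
    · exact ⟨by linarith, le_rfl⟩
    · exact ⟨le_rfl, by linarith⟩
  obtain ⟨hpos, hD⟩ := recentre hA hδ hτ hgood hTm hc
  have hlt := nInc_lt hA hpos (hnew T hT)
  refine ⟨_, _, hD.symm, ?_, ?_, ?_⟩
  · exact (nInc_comm x y).symm.trans_lt (hlt.trans_eq (nInc_comm _ _))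
  · rw [wdual_sub, Pool.Agent.MP_5f4cdd_gt.hull_sub]
    exact hMc
  · rw [wdual_sub, Pool.Agent.MP_5f4cdd_gt.hull_sub, EF.near_sub_iff hε']
    exact hN'

end Pool.Agent.MP_5f4cdd_gt.W
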