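import Pool.Agent.MP_5f4cdd_gt.WLift

set_option autoImplicit false
open MeasureTheory ENNReal Set Function Filter Topology Pointwise

namespace Pool.Agent.MP_5f4cdd_gt.W

open PL EF AB

variable {n : ℕ} {ι κ : Type} {g : Fin n → Fin 3} {x : ι → E 3} {y : κ → E 3}

lemma wend_gen {K Q : Set (E n)} (hc : Convex ℝ K) (hK : IsCompact K) (hne : K.Nonempty)
    (c : Fin n → ℝ) (w : Fin n → E n)
    (h : ∀ Z, Z ∈ K ↔ (fun k => c k * (1 - w k ⬝ᵥ Z)) ∈ Q) (h0 : ∀ u ∈ Q, 0 ≤ u)
    (hd : ∀ u ∈ Q, ∀ v, 0 ≤ v → v ≤ u → v ∈ Q) : ∃ e : E n ≃ᵃ[ℝ] E n, AntiB (e '' K) := by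
  let L : E n →ₗ[ℝ] E n :=
    { toFun := fun Z k => -(c k * (w k ⬝ᵥ Z))
      map_add' := fun u v => by ext k; simp [mul_add, add_comm]
      map_smul' := fun r u => by ext k; simp [mul_left_comm] }
  let F : E n →ᵃ[ℝ] E n :=
    { toFun := fun Z k => c k * (1 - w k ⬝ᵥ Z)
      linear := L
      map_vadd' := fun u v => by
        ext k
        simp only [L, vadd_eq_add, dotProduct_add, LinearMap.coe_mk, AddHom.coe_mk, Pi.add_apply]
        ring }
  have hinj : Injective L := by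
    rw [injective_iff_map_eq_zero]
    intro v hv
    obtain ⟨z, hz⟩ := hne
    refine eq_zero_of_ray_mem hK.isBounded (z := z) fun s _ => ?_
    have e1 : F (z + s • v) = F z := by
      rw [add_comm, ← vadd_eq_add, F.map_vadd]
      change L (s • v) + F z = F z
      rw [map_smul, hv, smul_zero, zero_add]
    rw [h]
    change F (z + s • v) ∈ Q
    rw [e1]
    exact (h z).1 hz
  have hb : Bijective F :=
    F.linear_bijective_iff.1 ⟨hinj, LinearMap.injective_iff_surjective.1 hinj⟩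
  have hQ : F '' K = Q := by
    ext u
    constructor
    · rintro ⟨Z, hZ, rfl⟩
      exact (h Z).1 hZ
    · intro hu
      obtain ⟨Z, rfl⟩ := hb.2 u
      exact ⟨Z, (h Z).2 hu, rfl⟩
  refine ⟨AffineEquiv.ofBijective hb, ?_⟩
  change AntiB (F '' K)
  refine ⟨hc.affine_image F, hK.image F.continuous_of_finiteDimensional, ?_, ?_⟩
  · rw [hQ]
    exact h0
  · rw [hQ]
    exact hd

lemma wend_beta {p : Fin 4 → E 3} (h : (0 : E 3) ∈ interior (convexHull ℝ (range p))) :
    ∃ β : Fin 4 → ℝ, (∀ s, 0 < β s) ∧ ∑ s, β s = 1 ∧ ∑ s, β s • p s = 0 := by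
  obtain ⟨e, he, hs⟩ := simplex_of_affineIndep (n := 3) ⟨0, h⟩
  have h1 := e.toHomeomorphOfFiniteDimensional.image_interior (stdS 3)
  simp only [AffineEquiv.coe_toHomeomorphOfFiniteDimensional] at h1
  rw [hs, ← h1] at h
  obtain ⟨z, hz, hz0⟩ := h
  obtain ⟨h2, h3⟩ := interior_stdS (n := 2) hz
  refine ⟨Fin.cons (1 - ∑ k, z k) z, fun s => Fin.cases (by simpa using h3) (fun k => h2 k) s,
    ?_, ?_⟩
  · rw [Fin.sum_univ_succ]
    simp
  · rw [← hz0]
    dsimp only
    rw [he, Fin.sum_univ_succ]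
    simp only [Fin.cons_zero, Fin.cons_succ, smul_sub, Finset.sum_sub_distrib, sub_smul, one_smul,
      Finset.sum_smul]
    abel

lemma wend_zero (hg : Blk g) (f : Fin n → ℝ) {k : Fin n} (hk : g k = 0) :
    ∑ i with g i = 0, f i = f k := by
  refine Finset.sum_eq_single_of_mem k (by simpa using hk) fun i hi hik => ?_
  exact absurd (hg.one i k (Finset.mem_filter.1 hi).2 hk) hik

lemma wend_A (hg : Blk g) {σ : Fin 3 → Fin 4} {t t1 : Fin 4}
    (hall : ∀ s, s = σ 1 ∨ s = σ 2 ∨ s = t ∨ s = t1) {lam : Fin 4 → ℝ} {f : Fin n → ℝ}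
    (hs : lam (σ 1) + lam (σ 2) + lam t + lam t1 = 1)
    (hf : ∀ j, ∑ i with g i = j, f i = lam (σ j)) :
    ((∀ s, 0 ≤ lam s) ∧ ∀ k, 0 ≤ f k) ↔ (fun k => if g k = 0 then lam t else f k) ∈ stdS n := by
  obtain ⟨k0, hk0⟩ := hg.surj 0
  have hb : ∀ j, j ≠ 0 → ∑ i with g i = j, (if g i = 0 then lam t else f i) = lam (σ j) := by
    intro j hj
    rw [← hf j]
    refine Finset.sum_congr rfl fun i hi => if_neg ?_
    rw [(Finset.mem_filter.1 hi).2]
    exact hj
  have hsum : ∑ k, (if g k = 0 then lam t else f k) = lam t + lam (σ 1) + lam (σ 2) := by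
    rw [← Finset.sum_fiberwise (s := Finset.univ) (g := g), Fin.sum_univ_three, hb 1 (by decide),
      hb 2 (by decide), wend_zero hg _ hk0, if_pos hk0]
  constructor
  · rintro ⟨h1, h2⟩
    refine ⟨fun k => ?_, ?_⟩
    · dsimp only
      split_ifs
      · exact h1 t
      · exact h2 k
    · rw [hsum]
      linarith [h1 t1]
  · rintro ⟨h1, h2⟩
    rw [hsum] at h2
    have h3 : ∀ j, j ≠ 0 → 0 ≤ lam (σ j) := fun j hj => by
      rw [← hb j hj]
      exact Finset.sum_nonneg fun i _ => h1 i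
    have h4 : ∀ s, 0 ≤ lam s := by
      intro s
      rcases hall s with rfl | rfl | rfl | rfl
      · exact h3 1 (by decide)
      · exact h3 2 (by decide)
      · simpa [hk0] using h1 k0
      · linarith
    refine ⟨h4, fun k => ?_⟩
    by_cases hk : g k = 0
    · rw [← wend_zero hg f hk, hf]
      exact h4 _
    · simpa [hk] using h1 k

lemma wend_B (hg : Blk g) (φ : Sec g) {σ : Fin 3 → Fin 4} (h12 : σ 2 = σ 1) {lam : Fin 4 → ℝ}
    {f : Fin n → ℝ} (hs : ∑ s, lam s = 1) (hf : ∀ j, ∑ i with g i = j, f i = lam (σ j)) :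
    ((∀ s, 0 ≤ lam s) ∧ ∀ k, 0 ≤ f k) ↔
      (fun k => if k = φ (g k) then lam ((σ 1).succAbove (g k)) else f k) ∈
        {u : E n | 0 ≤ u ∧ ∀ j, j ≠ 0 →
          ∑ i ∈ (Finset.univ.filter fun i => g i = j).erase (φ j), u i + ∑ j, u (φ j) ≤ 1} := by
  have hσ : ∀ j, j ≠ 0 → σ j = σ 1 := by
    intro j hj
    fin_cases j
    · exact absurd rfl hj
    · rfl
    · exact h12
  have hφ : ∀ j, (if (φ j : Fin n) = φ (g (φ j)) then lam ((σ 1).succAbove (g (φ j)))
      else f (φ j)) = lam ((σ 1).succAbove j) := by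
    intro j
    rw [if_pos (by rw [(φ j).2]), (φ j).2]
  have hr : ∀ j, ∑ i ∈ (Finset.univ.filter fun i => g i = j).erase (φ j),
      (if i = φ (g i) then lam ((σ 1).succAbove (g i)) else f i) = lam (σ j) - f (φ j) := by
    intro j
    rw [← hf j, ← Finset.add_sum_erase _ f (a := (φ j : Fin n)) (by simpa using (φ j).2),
      add_sub_cancel_left]
    refine Finset.sum_congr rfl fun i hi => if_neg ?_
    rw [(Finset.mem_filter.1 (Finset.mem_erase.1 hi).2).2]
    exact (Finset.mem_erase.1 hi).1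
  rw [Fin.sum_univ_succAbove _ (σ 1)] at hs
  simp only [mem_ofPred_eq, hφ, hr]
  constructor
  · rintro ⟨h1, h2⟩
    refine ⟨fun k => ?_, fun j hj => ?_⟩
    · dsimp only
      split_ifs
      · exact h1 _
      · exact h2 k
    · rw [hσ j hj]
      linarith [h2 (φ j)]
  · rintro ⟨h1, h2⟩
    have h3 : ∀ j, j ≠ 0 → 0 ≤ f (φ j) := fun j hj => by
      have := h2 j hj
      rw [hσ j hj] at this
      linarith
    have h4 : ∀ s, 0 ≤ lam s := by
      intro s
      by_cases e : s = σ 1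
      · have h5 : 0 ≤ lam (σ 1) - f (φ 1) := by
          rw [← hr 1]
          exact Finset.sum_nonneg fun i _ => h1 i
        rw [e]
        linarith [h3 1 (by decide)]
      · obtain ⟨j, rfl⟩ := Fin.exists_succAbove_eq e
        rw [← hφ j]
        exact h1 (φ j)
    refine ⟨h4, fun k => ?_⟩
    by_cases hk : g k = 0
    · rw [← wend_zero hg f hk, hf]
      exact h4 _
    · by_cases e : k = φ (g k)
      · rw [e]
        exact h3 _ hk
      · have := h1 k
        simp only [Pi.zero_apply, if_neg e] at this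
        exact this

lemma wend_four (a b : Fin 4) (h : a ≠ b) : ∃ t t1 : Fin 4,
    (∀ s, s = a ∨ s = b ∨ s = t ∨ s = t1) ∧
      ∀ lam : Fin 4 → ℝ, lam a + lam b + lam t + lam t1 = ∑ s, lam s := by
  have h1 : ∃ t t1 : Fin 4, (∀ s, s = a ∨ s = b ∨ s = t ∨ s = t1) ∧ a ≠ t ∧ a ≠ t1 ∧ b ≠ t ∧
      b ≠ t1 ∧ t ≠ t1 := by
    revert a b
    decide
  obtain ⟨t, t1, h2, h3, h4, h5, h6, h7⟩ := h1
  refine ⟨t, t1, h2, fun lam => ?_⟩
  have : (Finset.univ : Finset (Fin 4)) = {a, b, t, t1} := by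
    ext s
    simpa using h2 s
  rw [this, Finset.sum_insert (by simp [h, h3, h4]), Finset.sum_insert (by simp [h5, h6]),
    Finset.sum_pair h7]
  ring

theorem end_case [Finite ι] [Finite κ] (hg : Blk g) (h : DualPair x y) (m : Fin 3 → κ)
    {ρ : Fin 3 → ℝ} (hρ : ∀ j, 0 < ρ j) {p : Fin 4 → E 3} (hp : range p = range y) :
    ∃ e : E n ≃ᵃ[ℝ] E n, AntiB (e '' convexHull ℝ (range (LX g x y m ρ))) := by
  have hD := dualPair_lift hg.surj h m hρ
  obtain ⟨β, hβ, hβ1, hβ0⟩ := wend_beta (p := p) (hp ▸ h.symm.zero_mem_interior)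
  have hσ : ∀ j, ∃ s, p s = y (m j) := fun j => by
    have : y (m j) ∈ range p := hp ▸ mem_range_self _
    exact this
  choose σ hσ using hσ
  let lam : E n → Fin 4 → ℝ := fun Z s => β s * (1 - pb g (p s) ⬝ᵥ Z)
  let f : E n → Fin n → ℝ := fun Z k =>
    β (σ (g k)) / bN g (g k) * (1 - LY g y m ρ (Sum.inr k) ⬝ᵥ Z)
  have hs : ∀ Z, ∑ s, lam Z s = 1 := by
    intro Z
    have e : ∑ s, β s * (p s ⬝ᵥ bs g Z) = 0 := by
      have := congrArg (fun v => v ⬝ᵥ bs g Z) hβ0
      simpa only [sum_dotProduct, smul_dotProduct, smul_eq_mul, zero_dotProduct] using this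
    simp only [lam, pb_dot, mul_sub, mul_one, Finset.sum_sub_distrib, hβ1, e, sub_zero]
  have hf : ∀ Z j, ∑ i with g i = j, f Z i = lam Z (σ j) := by
    intro Z j
    have hN := (bN_pos hg.surj j).ne'
    rw [Finset.sum_congr rfl (g := fun i => β (σ j) / bN g j * (1 - y (m j) ⬝ᵥ bs g Z -
      (ρ j)⁻¹ * (bs g Z j / bN g j)) + β (σ j) / bN g j * (ρ j)⁻¹ * Z i) fun i hi => by
        simp only [f, LY_inr_dot, (Finset.mem_filter.1 hi).2]
        ring]
    rw [Finset.sum_add_distrib, Finset.sum_const, nsmul_eq_mul, ← Finset.mul_sum, ← bs_apply]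
    change bN g j * _ + _ = _
    simp only [lam, pb_dot, hσ]
    field_simp
    ring
  have hK : ∀ Z, Z ∈ convexHull ℝ (range (LX g x y m ρ)) ↔
      (∀ s, 0 ≤ lam Z s) ∧ ∀ k, 0 ≤ f Z k := by
    intro Z
    rw [hD.1, mem_ofPred_eq, Sum.forall]
    refine and_congr ?_ (forall_congr' fun k => ?_)
    · simp only [LY_inl_dot, lam, pb_dot, mul_nonneg_iff_of_pos_left (hβ _), sub_nonneg]
      rw [← forall_mem_range (f := y) (p := fun w => w ⬝ᵥ bs g Z ≤ 1), ← hp, forall_mem_range]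
    · simp only [f]
      rw [mul_nonneg_iff_of_pos_left (div_pos (hβ _) (bN_pos hg.surj _)), sub_nonneg]
  have hne : (convexHull ℝ (range (LX g x y m ρ))).Nonempty :=
    ⟨0, by rw [hD.1]; intro j; simp⟩
  by_cases h12 : σ 2 = σ 1
  · obtain ⟨φ⟩ := nonempty_sec hg.surj
    refine wend_gen (convex_convexHull ℝ _) (isCompact_hull _) hne
      (fun k => if k = φ (g k) then β ((σ 1).succAbove (g k)) else β (σ (g k)) / bN g (g k))
      (fun k => if k = φ (g k) then pb g (p ((σ 1).succAbove (g k))) else LY g y m ρ (Sum.inr k))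
      (Q := {u : E n | 0 ≤ u ∧ ∀ j, j ≠ 0 →
          ∑ i ∈ (Finset.univ.filter fun i => g i = j).erase (φ j), u i + ∑ j, u (φ j) ≤ 1})
      (fun Z => ?_) (fun u hu => hu.1) fun u hu v hv hvu => ⟨hv, fun j hj => ?_⟩
    · rw [hK, wend_B hg φ h12 (hs Z) (hf Z)]
      refine iff_of_eq (congrArg (· ∈ _) (funext fun k => ?_))
      split_ifs <;> rfl
    · exact (add_le_add (Finset.sum_le_sum fun i _ => hvu i)
        (Finset.sum_le_sum fun i _ => hvu _)).trans (hu.2 j hj)
  · obtain ⟨t, t1, hall, hsum⟩ := wend_four (σ 1) (σ 2) (Ne.symm h12)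
    refine wend_gen (convex_convexHull ℝ _) (isCompact_hull _) hne
      (fun k => if g k = 0 then β t else β (σ (g k)) / bN g (g k))
      (fun k => if g k = 0 then pb g (p t) else LY g y m ρ (Sum.inr k)) (Q := stdS n)
      (fun Z => ?_) (fun u hu => hu.1) fun u hu v hv hvu =>
        ⟨hv, (Finset.sum_le_sum fun i _ => hvu i).trans hu.2⟩
    rw [hK, wend_A hg hall ((hsum _).trans (hs Z)) (hf Z)]
    refine iff_of_eq (congrArg (· ∈ _) (funext fun k => ?_))
    split_ifs <;> rfl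

end Pool.Agent.MP_5f4cdd_gt.W
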