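import Pool.Agent.MP_5f4cdd_gt.WFlow
import Pool.Agent.MP_5f4cdd_gt.WLift
import Pool.Agent.MP_5f4cdd_gt.WStep

set_option autoImplicit false
open MeasureTheory ENNReal Set Function Filter Topology Pointwise

namespace Pool.Agent.MP_5f4cdd_gt.W

open PL EF AB

variable {n : ℕ} {ι κ : Type} {g : Fin n → Fin 3} {x : ι → E 3} {y : κ → E 3}

/-- the base facet under a lifted facet -/
def wprimM (g : Fin n → Fin 3) (m : Fin 3 → κ) : κ ⊕ Fin n → κ := Sum.elim id fun k => m (g k)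

lemma wprim_Y_dot_up (hg : Surjective g) (y : κ → E 3) (m : Fin 3 → κ) (ρ : Fin 3 → ℝ)
    (J : κ ⊕ Fin n) (θ : E 3) : LY g y m ρ J ⬝ᵥ up g θ = y (wprimM g m J) ⬝ᵥ θ := by
  cases J with
  | inl j => exact pb_dot_up hg _ _
  | inr k =>
    simp only [LY, Sum.elim_inr, wprimM, sub_dotProduct, smul_dotProduct, dv_dot_up,
      pb_dot_up hg, smul_zero, sub_zero]

lemma wprim_dichotomy (hg : Blk g) (x : ι → E 3) (y : κ → E 3) (m : Fin 3 → κ) {ρ : Fin 3 → ℝ}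
    (hρ : ∀ j, 0 < ρ j) {θ : E 3} (h1 : y (m 1) ⬝ᵥ θ = 0) (h2 : y (m 2) ⬝ᵥ θ = 0)
    (J : κ ⊕ Fin n) (p : ι × Sec g) :
    LY g y m ρ J ⬝ᵥ LX g x y m ρ p = y (wprimM g m J) ⬝ᵥ x p.1 ∨ y (wprimM g m J) ⬝ᵥ θ = 0 := by
  cases J with
  | inl j => exact Or.inl (LY_inl_dot_LX hg.surj _ _ _ _ _ _)
  | inr k =>
    have hk : g k = 0 ∨ g k = 1 ∨ g k = 2 := by
      generalize g k = j
      fin_cases j <;> simp
    rcases hk with hk | hk | hk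
    · left
      have e : (p.2 (g k) : Fin n) = k := hg.one _ _ ((p.2 (g k)).2.trans hk) hk
      have e2 : bN g (g k) = 1 := by rw [hk, hg.bN_zero]
      rw [LY_inr_dot_LX hg.surj _ _ _ hρ, if_pos e, e2]
      simp [wprimM]
    · right
      simpa [wprimM, hk] using h1
    · right
      simpa [wprimM, hk] using h2

lemma wprim_adm [Finite ι] [Finite κ] (hg : Blk g) (h : DualPair x y) (m : Fin 3 → κ)
    {ρ : Fin 3 → ℝ} (hρ : ∀ j, 0 < ρ j) {θ : E 3} (h1 : y (m 1) ⬝ᵥ θ = 0)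
    (h2 : y (m 2) ⬝ᵥ θ = 0) {a : ι → ℝ} {w : κ → E 3} {γ : κ → ℝ} (hA : Adm x y θ a w γ) :
    Adm (LX g x y m ρ) (LY g y m ρ) (up g θ) (fun p => a p.1)
      (fun J => pb g (w (wprimM g m J))) (fun J => γ (wprimM g m J)) where
  hP := (dualPair_lift hg.surj h m hρ).1
  hθ := fun h0 => hA.hθ (by rw [← bs_up hg.surj θ, h0, map_zero])
  hw := fun J => by rw [pb_dot_up hg.surj, hA.hw]
  hinc := fun p J hpJ => by
    rw [wprim_Y_dot_up hg.surj, LX, pb_dot_LXc hg.surj]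
    rcases wprim_dichotomy hg x y m hρ h1 h2 J p with e | e
    · exact hA.hinc _ _ (e.symm.trans hpJ)
    · rw [e, (hA.hpar _ e).1, (hA.hpar _ e).2]
      simp
  hpar := fun J hJ => by
    rw [wprim_Y_dot_up hg.surj] at hJ
    exact ⟨by rw [(hA.hpar _ hJ).1, map_zero], (hA.hpar _ hJ).2⟩

lemma wprim_good [Finite ι] [Finite κ] (hg : Blk g) (h : DualPair x y) (m : Fin 3 → κ)
    {ρ : Fin 3 → ℝ} (hρ : ∀ j, 0 < ρ j) {θ : E 3} (h1 : y (m 1) ⬝ᵥ θ = 0)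
    (h2 : y (m 2) ⬝ᵥ θ = 0) {a : ι → ℝ} {w : κ → E 3} {γ : κ → ℝ} (hA : Adm x y θ a w γ)
    {t : ℝ} (ht : t ∈ goodT x y θ a w γ) :
    t ∈ goodT (LX g x y m ρ) (LY g y m ρ) (up g θ) (fun p => a p.1)
      (fun J => pb g (w (wprimM g m J))) (fun J => γ (wprimM g m J)) := by
  intro p J
  have hB := wprim_adm hg h m hρ h1 h2 hA
  have e1 := hB.slack t p J
  have e2 := hA.slack t p.1 (wprimM g m J)
  have e3 := ht p.1 (wprimM g m J)
  have e4 := hB.dot_le p J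
  have e5 : pb g (w (wprimM g m J)) ⬝ᵥ LX g x y m ρ p = w (wprimM g m J) ⬝ᵥ x p.1 :=
    pb_dot_LXc hg.surj _ _ _ _
  rw [wprim_Y_dot_up hg.surj, e5] at e1
  rcases wprim_dichotomy hg x y m hρ h1 h2 J p with e | e
  · rw [e] at e1
    linarith
  · have e6 : γ (wprimM g m J) + w (wprimM g m J) ⬝ᵥ x p.1
        - a p.1 * (y (wprimM g m J) ⬝ᵥ θ) = 0 := by
      rw [e, (hA.hpar _ e).1, (hA.hpar _ e).2]
      simp
    rw [e6] at e1
    linarith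

lemma wprim_not_triv (hg : Surjective g) (y : κ → E 3) (m : Fin 3 → κ) (ρ : Fin 3 → ℝ)
    {a : ι → ℝ} (ha : ¬ TrivSpeed x a) : ¬ TrivSpeed (LX g x y m ρ) (fun p => a p.1) := by
  rintro ⟨U, c, hU⟩
  obtain ⟨φ⟩ := nonempty_sec hg
  obtain ⟨u, hu⟩ : ∃ u : E 3, ∀ z, U ⬝ᵥ up g z = u ⬝ᵥ z := by
    refine ⟨fun j => bs g U j / bN g j, fun z => ?_⟩
    rw [dotProduct_comm, up_eq_pb, pb_dot]
    simp only [dotProduct]
    exact Finset.sum_congr rfl fun j _ => by ring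
  refine ha ⟨u - ∑ j, (ρ j * bN g j * (U ⬝ᵥ dv g (φ j))) • y (m j),
    c + ∑ j, ρ j * bN g j * (U ⬝ᵥ dv g (φ j)), fun i => ?_⟩
  have := hU (i, φ)
  simp only [LX, LXc, dotProduct_add, dotProduct_smul, smul_eq_mul, hu,
    Fin.sum_univ_three] at this
  simp only [sub_dotProduct, add_dotProduct, smul_dotProduct, smul_eq_mul, Fin.sum_univ_three]
  rw [this]
  ring

lemma wprim_LX_eq (hg : Blk g) (m : Fin 3 → κ) (ρ : Fin 3 → ℝ) {θ : E 3}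
    (h1 : y (m 1) ⬝ᵥ θ = 0) (h2 : y (m 2) ⬝ᵥ θ = 0) {a : ι → ℝ} {w : κ → E 3} {γ : κ → ℝ}
    (hA : Adm x y θ a w γ) {T : ℝ} {c : E 3}
    (hpos : ∀ j, 0 < 1 + T * γ j - (y j - T • w j) ⬝ᵥ c) :
    LX g (fun i => shadowPts x a θ T i - c)
      (fun j => (1 + T * γ j - (y j - T • w j) ⬝ᵥ c)⁻¹ • (y j - T • w j)) m
      (fun j => ρ j * (1 + T * γ (m j) - (y (m j) - T • w (m j)) ⬝ᵥ c)) =
      fun p => shadowPts (LX g x y m ρ) (fun p => a p.1) (up g θ) T p - up g c := by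
  funext p
  have key : ∀ j, y (m j) ⬝ᵥ θ = 0 →
      ρ j * (1 + T * γ (m j) - (y (m j) - T • w (m j)) ⬝ᵥ c) *
        (1 - ((1 + T * γ (m j) - (y (m j) - T • w (m j)) ⬝ᵥ c)⁻¹ • (y (m j) - T • w (m j))) ⬝ᵥ
          (shadowPts x a θ T p.1 - c)) = ρ j * (1 - y (m j) ⬝ᵥ x p.1) := by
    intro j hj
    have hp := (hpos (m j)).ne'
    rw [smul_dotProduct, smul_eq_mul, mul_assoc, mul_sub, mul_inv_cancel_left₀ hp]
    rw [(hA.hpar _ hj).1, (hA.hpar _ hj).2]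
    simp only [shadowPts, smul_zero, sub_zero, dotProduct_sub, dotProduct_add, dotProduct_smul,
      hj]
    ring
  have e0 : dv g (p.2 0 : Fin n) = 0 := hg.dv_zero (p.2 0).2
  simp only [LX, LXc, Fin.sum_univ_three, e0, smul_zero, key 1 h1, key 2 h2]
  simp only [shadowPts, map_sub, map_add, map_smul, LXc, Fin.sum_univ_three, e0, smul_zero]
  abel

theorem prim_step {ε ε' : ℝ} {μ : ℝ≥0∞} (hεε' : ε < ε') (hε' : ε' < 1) (moat : Moat n ε ε' μ)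
    [Finite ι] [Finite κ] (hg : Blk g) (h : DualPair x y) (m : Fin 3 → κ) {ρ : Fin 3 → ℝ}
    (hρ : ∀ j, 0 < ρ j) {θ : E 3} (h1 : y (m 1) ⬝ᵥ θ = 0) (h2 : y (m 2) ⬝ᵥ θ = 0)
    (hf : Flow x y θ) (hM : mstarInf (convexHull ℝ (range (LX g x y m ρ))) < μ)
    (hN : ¬ EF.Near ε' (convexHull ℝ (range (LX g x y m ρ)))) :
    ∃ (x' : ι → E 3) (y' : κ → E 3) (ρ' : Fin 3 → ℝ), DualPair x' y' ∧ (∀ j, 0 < ρ' j) ∧
      nInc x y < nInc x' y' ∧ mstarInf (convexHull ℝ (range (LX g x' y' m ρ'))) < μ ∧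
      ¬ EF.Near ε' (convexHull ℝ (range (LX g x' y' m ρ'))) := by
  obtain ⟨a, w, γ, δ, τ, hA, ha, hδ, hτ, hgood, hnew⟩ := hf
  have hι : Nonempty ι := h.nonempty_left
  have hκ : Nonempty κ := h.symm.nonempty_left
  have hS : Nonempty (Sec g) := nonempty_sec hg.surj
  have hB := wprim_adm hg h m hρ h1 h2 hA
  have hnt := wprim_not_triv hg.surj y m ρ ha
  obtain ⟨α, β, hV⟩ := vol_affine hB hδ hτ fun t ht =>
    wprim_good hg h m hρ h1 h2 hA (hgood t ht)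
  obtain ⟨T, hT, hM1, hN1⟩ := stepS hεε' hε' moat (LX g x y m ρ) (fun p => a p.1) hB.hθ hδ hτ hV
    (fun t _ => interior_shadow_nonempty
      ⟨0, (dualPair_lift hg.surj h m hρ).zero_mem_interior⟩ hnt _ t) hM hN
  have hTI : T ∈ Icc (-δ) τ := by
    rcases hT with rfl | rfl
    · exact ⟨by linarith, le_rfl⟩
    · exact ⟨le_rfl, by linarith⟩
  obtain ⟨c, hc⟩ := interior_shadow_nonempty ⟨0, h.zero_mem_interior⟩ ha θ T
  obtain ⟨hpos, hD⟩ := recentre hA hδ hτ hgood hTI hc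
  have hE := wprim_LX_eq hg m ρ h1 h2 hA hpos
  refine ⟨_, _, fun j => ρ j * (1 + T * γ (m j) - (y (m j) - T • w (m j)) ⬝ᵥ c), hD,
    fun j => mul_pos (hρ j) (hpos _), nInc_lt hA hpos (hnew T hT), ?_, ?_⟩
  · rw [hE, Pool.Agent.MP_5f4cdd_gt.hull_sub, mstarInf_sub]
    exact hM1
  · rw [hE, Pool.Agent.MP_5f4cdd_gt.hull_sub, EF.near_sub_iff hε']
    exact hN1

end Pool.Agent.MP_5f4cdd_gt.W
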