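import Pool.Agent.MP_5f4cdd_gt.WFlow
import Pool.Agent.MP_5f4cdd_gt.WLift
import Pool.Agent.MP_5f4cdd_gt.WSym

set_option autoImplicit false
open MeasureTheory ENNReal Set Function Filter Topology Pointwise

namespace Pool.Agent.MP_5f4cdd_gt.W

open PL EF AB

variable {n : ℕ} {ι κ : Type} {g : Fin n → Fin 3} {x : ι → E 3} {y : κ → E 3}

theorem wrec_LX_sub (x : ι → E 3) (y : κ → E 3) (m : Fin 3 → κ) (ρ : Fin 3 → ℝ) {c : E 3}
    (hc : ∀ j, 0 < 1 - y j ⬝ᵥ c) :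
    LX g (fun i => x i - c) (fun j => (1 - y j ⬝ᵥ c)⁻¹ • y j) m
      (fun j => ρ j * (1 - y (m j) ⬝ᵥ c)) = fun p => LX g x y m ρ p - up g c := by
  funext p
  have h : ∀ j, ρ j * (1 - y (m j) ⬝ᵥ c) *
      (1 - ((1 - y (m j) ⬝ᵥ c)⁻¹ • y (m j)) ⬝ᵥ (x p.1 - c)) = ρ j * (1 - y (m j) ⬝ᵥ x p.1) := by
    intro j
    have := (hc (m j)).ne'
    rw [smul_dotProduct, dotProduct_sub, smul_eq_mul]
    field_simp
    ring
  simp only [LX, LXc, h, map_sub]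
  abel

theorem exists_centred [Finite ι] [Finite κ] (hg : Surjective g) (h : DualPair x y)
    (m : Fin 3 → κ) {ρ : Fin 3 → ℝ} (hρ : ∀ j, 0 < ρ j) {μ : ℝ≥0∞}
    (hM : mstarInf (convexHull ℝ (range (LX g x y m ρ))) < μ) :
    ∃ (x' : ι → E 3) (y' : κ → E 3) (ρ' : Fin 3 → ℝ) (c : E n), DualPair x' y' ∧
      (∀ j, 0 < ρ' j) ∧ nInc x y ≤ nInc x' y' ∧
      (∀ i, x' i ∈ (convexHull ℝ (range x')).extremePoints ℝ) ∧
      convexHull ℝ (range (LX g x' y' m ρ')) =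
        (fun z => z - c) '' convexHull ℝ (range (LX g x y m ρ)) ∧
      mahlerInf (convexHull ℝ (range (LX g x' y' m ρ'))) < μ := by
  have hd := dualPair_lift hg h m hρ
  obtain ⟨c, hc, hμ⟩ := centre_LXc hg x _ ⟨0, hd.zero_mem_interior⟩ hM
  obtain ⟨hpos, h1, hinc⟩ := recentre0 h hc
  have hρ1 : ∀ j, 0 < ρ j * (1 - y (m j) ⬝ᵥ c) := fun j => mul_pos (hρ j) (hpos _)
  obtain ⟨r, r1, r2, r3⟩ := exists_extreme_repr h1.dot_le
  have h2 := h1.of_hull_eq r2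
  have e1 := (dualPair_lift hg h2 m hρ1).1.trans (dualPair_lift hg h1 m hρ1).1.symm
  rw [wrec_LX_sub x y m ρ hpos, Pool.Agent.MP_5f4cdd_gt.hull_sub] at e1
  refine ⟨_, _, _, up g c, h2, hρ1, ?_, fun i => r2 ▸ r1 i, e1, ?_⟩
  · rw [hinc]
    unfold nInc
    refine Set.ncard_le_ncard (fun p hp => ?_)
    have := r3 p.1 p.2 (by rw [dotProduct_comm]; exact hp)
    rw [dotProduct_comm] at this
    exact this
  · rw [e1]
    exact hμ

end Pool.Agent.MP_5f4cdd_gt.W
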