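import Pool.Agent.MP_5f4cdd_gt.WTri
import Pool.Agent.MP_5f4cdd_gt.WRec
import Pool.Agent.MP_5f4cdd_gt.WPrim
import Pool.Agent.MP_5f4cdd_gt.WDual
import Pool.Agent.MP_5f4cdd_gt.WEnd

set_option autoImplicit false
open MeasureTheory ENNReal Set Function Filter Topology Pointwise

namespace Pool.Agent.MP_5f4cdd_gt.W

open PL EF AB

variable {n : ℕ} {g : Fin n → Fin 3}

lemma wdesc_le (K : Set (E n)) : mstarInf K ≤ mahlerInf K :=
  (iInf_le _ 0).trans (le_of_eq (by simp))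

lemma wdesc_main {ε ε' : ℝ} {μ : ℝ≥0∞} (hεε' : ε < ε') (hε' : ε' < 1) (moat : Moat n ε ε' μ)
    (hpol : ∀ K : Set (E n), Convex ℝ K → IsCompact K → 0 ∈ interior K →
      mahlerInf K < μ → EF.Near ε K → EF.Near ε' (polarS K))
    (hA : ∀ L : Set (E n), AntiB L → AB.Good ε μ L) (hg : Blk g)
    (ι κ : Type) [Finite ι] [Finite κ] (m : Fin 3 → κ) (k : ℕ) :
    ∀ (x : ι → E 3) (y : κ → E 3) (ρ : Fin 3 → ℝ), Nat.card ι * Nat.card κ - nInc x y = k →
      DualPair x y → (∀ j, 0 < ρ j) → mstarInf (convexHull ℝ (range (LX g x y m ρ))) < μ →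
      EF.Near ε (convexHull ℝ (range (LX g x y m ρ))) := by
  induction k using Nat.strong_induction_on with
  | _ k ih =>
    intro x y ρ hk h hρ hM
    have : Finite (Sec g) := inferInstance
    refine moat _ (convex_convexHull ℝ _) (isCompact_hull _)
      ⟨0, (dualPair_lift hg.surj h m hρ).zero_mem_interior⟩ hM ?_
    by_contra hN
    obtain ⟨x1, y1, ρ1, c, h1, hρ1, hi1, hx1, he1, hM1⟩ := exists_centred hg.surj h m hρ hM
    have hN1 : ¬ EF.Near ε' (convexHull ℝ (range (LX g x1 y1 m ρ1))) := by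
      rwa [he1, EF.near_sub_iff hε']
    have hd1 := dualPair_lift hg.surj h1 m hρ1
    have hM1' := (wdesc_le _).trans_lt hM1
    rcases trichotomy h1 hx1 (y1 (m 1)) (y1 (m 2)) with ⟨p, hp⟩ | ⟨θ, a1, a2, hf⟩ | ⟨η, hf⟩
    · obtain ⟨e, he⟩ := end_case hg h1 m hρ1 hp
      have h2 := (hA _ he).image (hεε'.trans hε') e.symm
      rw [image_image] at h2
      simp only [AffineEquiv.symm_apply_apply, image_id'] at h2
      exact hN1 ((h2 ⟨0, hd1.zero_mem_interior⟩ hM1').mono hεε'.le)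
    · obtain ⟨x2, y2, ρ2, h2, hρ2, hi2, hM2, hN2⟩ :=
        prim_step hεε' hε' moat hg h1 m hρ1 a1 a2 hf hM1' hN1
      have := nInc_le x2 y2
      exact hN2 ((ih _ (by omega) x2 y2 ρ2 rfl h2 hρ2 hM2).mono hεε'.le)
    · have hM' : mahlerInf (convexHull ℝ (range (LY g y1 m ρ1))) < μ := by
        rwa [EF.mahler_symm hd1]
      have hN' : ¬ EF.Near ε' (convexHull ℝ (range (LY g y1 m ρ1))) := fun hn => hN1 (by
        have := hpol _ (convex_convexHull ℝ _) (isCompact_hull _) hd1.symm.zero_mem_interior hM'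
          (moat _ (convex_convexHull ℝ _) (isCompact_hull _) ⟨0, hd1.symm.zero_mem_interior⟩
            ((wdesc_le _).trans_lt hM') hn)
        rwa [polarS, hd1.symm.polar_eq] at this)
      obtain ⟨x2, y2, h2, hi2, hM2, hN2⟩ :=
        dual_step hεε' hε' moat hg.surj h1 m hρ1 hf ((wdesc_le _).trans_lt hM') hN'
      have hd2 := dualPair_lift hg.surj h2 m hρ1
      rw [EF.mahler_symm hd2] at hM2
      have := nInc_le x2 y2
      have h3 := ih _ (by omega) x2 y2 ρ1 rfl h2 hρ1 ((wdesc_le _).trans_lt hM2)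
      have h4 := hpol _ (convex_convexHull ℝ _) (isCompact_hull _) hd2.zero_mem_interior hM2 h3
      rw [polarS, hd2.polar_eq] at h4
      exact hN2 h4

theorem descent {ε ε' : ℝ} {μ : ℝ≥0∞} (hεε' : ε < ε') (hε' : ε' < 1) (moat : Moat n ε ε' μ)
    (hpol : ∀ K : Set (E n), Convex ℝ K → IsCompact K → 0 ∈ interior K →
      mahlerInf K < μ → EF.Near ε K → EF.Near ε' (polarS K))
    (hA : ∀ L : Set (E n), AntiB L → AB.Good ε μ L) (hg : Blk g)
    (ι κ : Type) [Finite ι] [Finite κ] (x : ι → E 3) (y : κ → E 3) (m : Fin 3 → κ)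
    (ρ : Fin 3 → ℝ) (h : DualPair x y) (hρ : ∀ j, 0 < ρ j) :
    AB.Good ε μ (convexHull ℝ (range (LX g x y m ρ))) := by
  exact fun _ hM => wdesc_main hεε' hε' moat hpol hA hg ι κ m _ x y ρ rfl h hρ hM

end Pool.Agent.MP_5f4cdd_gt.W
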