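import Pool.Agent.MP_5f4cdd_gt.WClass
import Pool.Agent.MP_5f4cdd_gt.WMain
import Pool.Agent.MP_5f4cdd_gt.WRot

set_option autoImplicit false

namespace Pool.Agent.MP_5f4cdd_gt.W

theorem wgen_of_wcls {n : ℕ} {K : Set (E n)} (h : WCls K) : WGen K := by
  induction h with
  | wedge K g C hK hs ho hKC => exact WGen.wedge K g C hK.1 hK.2.1 hK.2.2 hs ho hKC
  | rot K g R hK hs h0 h1 h => exact wgen_of_rot ⟨hK.1, hK.2.1, hK.2.2⟩ R hs h0 h1 h
  | norm k m e B τ S hK hS hu hτ _ ih =>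
    exact WGen.norm _ k m e B τ S hK.1 hK.2.1 hK.2.2 hS.1 hS.2.1 hS.2.2 hu hτ ih rfl
  | image K e _ ih => exact WGen.image K e ih
  | fibre K L i _ _ hs ihK ihL => exact WGen.fibre K L i ihK ihL hs
  | polar K _ hc ih => exact WGen.polar K ih hc
  | limit K L hK _ ht ih => exact WGen.limit K L hK.1 hK.2.1 hK.2.2 ih ht

end Pool.Agent.MP_5f4cdd_gt.W
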