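import Pool.Agent.MP_5f4cdd_gt.WBase

set_option autoImplicit false
open MeasureTheory ENNReal Set Function Filter Topology Pointwise

namespace Pool.Agent.MP_5f4cdd_gt.W

open PL EF AB

variable {d : ℕ} {ι κ : Type} {x : ι → E d} {y : κ → E d} {θ : E d} {a : ι → ℝ} {w : κ → E d}
  {γ : κ → ℝ}

theorem wflow_both [Fintype ι] [Finite κ] (h : Adm x y θ a w γ)
    (ha : ¬ TrivSpeed x a) (hneg : ∃ i j, γ j + w j ⬝ᵥ x i - a i * (y j ⬝ᵥ θ) < 0)
    (hpos : ∃ i j, 0 < γ j + w j ⬝ᵥ x i - a i * (y j ⬝ᵥ θ)) : Flow x y θ := by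
  classical
  set σ : ι × κ → ℝ := fun p => γ p.2 + w p.2 ⬝ᵥ x p.1 - a p.1 * (y p.2 ⬝ᵥ θ) with hσ
  set s : ι × κ → ℝ := fun p => 1 - y p.2 ⬝ᵥ x p.1 with hs
  have hs0 : ∀ p, 0 ≤ s p := fun p => sub_nonneg.mpr (h.dot_le p.1 p.2)
  have hsσ : ∀ p, s p = 0 → σ p = 0 := fun p hp => by
    have := h.hinc p.1 p.2 (by simp only [hs] at hp; linarith)
    simp only [hσ]; linarith
  have hspos : ∀ p, σ p ≠ 0 → 0 < s p := fun p hp =>
    lt_of_le_of_ne (hs0 p) fun h0 => hp (hsσ p h0.symm)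
  obtain ⟨p0, hp0, hmin⟩ := Set.exists_min_image {p | σ p < 0} (fun p => s p / -σ p)
    (toFinite _) (by obtain ⟨i, j, hij⟩ := hneg; exact ⟨(i, j), hij⟩)
  obtain ⟨p1, hp1, hmin1⟩ := Set.exists_min_image {p | 0 < σ p} (fun p => s p / σ p)
    (toFinite _) (by obtain ⟨i, j, hij⟩ := hpos; exact ⟨(i, j), hij⟩)
  have hp0' : σ p0 < 0 := hp0
  have hp1' : 0 < σ p1 := hp1
  set τ := s p0 / -σ p0 with hτ
  set δ := s p1 / σ p1 with hδdef
  have hτpos : 0 < τ := div_pos (hspos _ hp0'.ne) (by linarith)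
  have hδ : 0 < δ := div_pos (hspos _ hp1'.ne') hp1'
  have hslack : ∀ t ∈ Icc (-δ) τ, ∀ p, 0 ≤ s p + t * σ p := by
    intro t ht p
    rcases lt_trichotomy (σ p) 0 with hlt | heq | hgt
    · have e1 : τ ≤ s p / -σ p := hmin p hlt
      rw [le_div_iff₀ (by linarith)] at e1
      nlinarith [ht.2]
    · rw [heq]; simpa using hs0 p
    · have e1 : δ ≤ s p / σ p := hmin1 p hgt
      rw [le_div_iff₀ hgt] at e1
      nlinarith [ht.1]
  have hgood : ∀ t ∈ Icc (-δ) τ, t ∈ goodT x y θ a w γ := by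
    intro t ht i j
    have e1 := h.slack t i j
    have e2 := hslack t ht (i, j)
    simp only [hs, hσ] at e2
    linarith
  refine ⟨a, w, γ, δ, τ, h, ha, hδ, hτpos, hgood, fun t htτ => ?_⟩
  obtain ⟨q, hq1, hq2⟩ : ∃ q, s q + t * σ q = 0 ∧ σ q ≠ 0 := by
    rcases htτ with e | e
    · refine ⟨p0, ?_, hp0'.ne⟩
      rw [e, hτ]
      have := hp0'.ne
      field_simp
      ring
    · refine ⟨p1, ?_, hp1'.ne'⟩
      rw [e, hδdef]
      have := hp1'.ne'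
      field_simp
      ring
  have e1 := h.slack t q.1 q.2
  have e3 := hspos q hq2
  simp only [hs, hσ] at e3 hq1
  exact ⟨q.1, q.2, by linarith, by linarith⟩

theorem wflow_adm [Finite ι] [Finite κ] [Nonempty κ] (h : Adm x y θ a w γ)
    (ha : ¬ TrivSpeed x a) : Flow x y θ := by
  classical
  have := Fintype.ofFinite ι
  obtain ⟨v, hv⟩ : ∃ v : E d, v ⬝ᵥ θ = 1 := by
    have h3 : θ ⬝ᵥ θ ≠ 0 := fun h0 => h.hθ (dotProduct_self_eq_zero.mp h0)
    exact ⟨(θ ⬝ᵥ θ)⁻¹ • θ, by rw [smul_dotProduct, smul_eq_mul, inv_mul_cancel₀ h3]⟩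
  set σ : ι × κ → ℝ := fun p => γ p.2 + w p.2 ⬝ᵥ x p.1 - a p.1 * (y p.2 ⬝ᵥ θ) with hσ
  set s : ι × κ → ℝ := fun p => 1 - y p.2 ⬝ᵥ x p.1 with hs
  have hs0 : ∀ p, 0 ≤ s p := fun p => sub_nonneg.mpr (h.dot_le p.1 p.2)
  have hsσ : ∀ p, s p = 0 → σ p = 0 := fun p hp => by
    have := h.hinc p.1 p.2 (by simp only [hs] at hp; linarith)
    simp only [hσ]; linarith
  have hnt : ∀ c : ℝ, ¬ TrivSpeed x (fun i => a i + c * (v ⬝ᵥ x i)) := by
    rintro c ⟨u, d, hu⟩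
    refine ha ⟨u - c • v, d, fun i => ?_⟩
    have := hu i
    simp only [sub_dotProduct, smul_dotProduct, smul_eq_mul] at this ⊢
    linarith
  have hslope : ∀ (c : ℝ) (i : ι) (j : κ),
      (γ j + if y j ⬝ᵥ θ = 0 then 0 else c) +
        (w j + if y j ⬝ᵥ θ = 0 then 0 else c • ((y j ⬝ᵥ θ) • v - y j)) ⬝ᵥ x i -
        (a i + c * (v ⬝ᵥ x i)) * (y j ⬝ᵥ θ) =
      if y j ⬝ᵥ θ = 0 then 0 else σ (i, j) + c * s (i, j) := by
    intro c i j
    split_ifs with hj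
    · simp [hj, (h.hpar j hj).1, (h.hpar j hj).2]
    · simp only [hσ, hs, add_dotProduct, smul_dotProduct, sub_dotProduct, smul_eq_mul]
      ring
  have hex : ∀ c : ℝ, ∃ p : ι × κ, y p.2 ⬝ᵥ θ ≠ 0 ∧ 0 < s p ∧ σ p / s p ≠ c := by
    intro c
    obtain ⟨i, j, hij⟩ := (h.add_dil hv (-c)).exists_slope_ne (hnt _)
    rw [hslope] at hij
    split_ifs at hij with hj
    · exact absurd rfl hij
    · have hsp : 0 < s (i, j) := lt_of_le_of_ne (hs0 _) fun h0 => hij (by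
        rw [← h0, hsσ _ h0.symm]; simp)
      refine ⟨(i, j), hj, hsp, fun e => hij ?_⟩
      rw [div_eq_iff hsp.ne'] at e
      linarith
  obtain ⟨p, hp1, hp2, -⟩ := hex 0
  obtain ⟨q, hq1, hq2, hq3⟩ := hex (σ p / s p)
  have key : ∀ p q : ι × κ, y p.2 ⬝ᵥ θ ≠ 0 → 0 < s p → y q.2 ⬝ᵥ θ ≠ 0 → 0 < s q →
      σ p / s p < σ q / s q → Flow x y θ := by
    intro p q hp1 hp2 hq1 hq2 hlt
    refine wflow_both (h.add_dil hv (-((σ p / s p + σ q / s q) / 2))) (hnt _)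
      ⟨p.1, p.2, ?_⟩ ⟨q.1, q.2, ?_⟩
    · rw [hslope, if_neg hp1]
      have e : σ p = σ p / s p * s p := by field_simp
      change σ p + _ * s p < 0
      nlinarith
    · rw [hslope, if_neg hq1]
      have e : σ q = σ q / s q * s q := by field_simp
      change 0 < σ q + _ * s q
      nlinarith
  rcases lt_or_gt_of_ne hq3 with hlt | hgt
  · exact key q p hq1 hq2 hp1 hp2 hlt
  · exact key p q hp1 hp2 hq1 hq2 hgt

theorem wflow_sub [Finite ι] [Finite κ] [Nonempty κ] {b : κ → ℝ}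
    (h : convexHull ℝ (range x) = {z | ∀ j, y j ⬝ᵥ z ≤ b j})
    (hyb : ∀ j, y j ≠ 0 ∨ b j ≠ 0) {c : E d} (hc : c ∈ interior (convexHull ℝ (range x))) :
    (∀ j, 0 < b j - y j ⬝ᵥ c) ∧
      DualPair (fun i => x i - c) (fun j => (b j - y j ⬝ᵥ c)⁻¹ • y j) := by
  have hlt : ∀ j, 0 < b j - y j ⬝ᵥ c := fun j => sub_pos.mpr <|
    lt_of_mem_interior (fun z hz => by rw [h] at hz; exact hz j) hc (hyb j)
  refine ⟨hlt, dualPair_of_eq ?_⟩
  rw [hull_sub, h]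
  ext z
  simp only [mem_image, mem_ofPred_eq, smul_dotProduct, smul_eq_mul]
  constructor
  · rintro ⟨z, hz, rfl⟩ j
    rw [inv_mul_le_iff₀ (hlt j), dotProduct_sub]
    linarith [hz j]
  · intro hz
    refine ⟨z + c, fun j => ?_, by simp⟩
    have := hz j
    rw [inv_mul_le_iff₀ (hlt j)] at this
    rw [dotProduct_add]; linarith

theorem wflow_inc {u v c : E d} {b : ℝ} (h : 0 < b - v ⬝ᵥ c) :
    (u - c) ⬝ᵥ (b - v ⬝ᵥ c)⁻¹ • v = 1 ↔ v ⬝ᵥ u = b := by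
  rw [dotProduct_smul, smul_eq_mul, inv_mul_eq_iff_eq_mul₀ h.ne', dotProduct_comm,
    dotProduct_sub]
  constructor <;> intro h <;> linarith

theorem flow_of_admissible [Finite ι] [Finite κ] (h : DualPair x y) (hθ : θ ≠ 0)
    (hadm : ∀ j, y j ⬝ᵥ θ ≠ 0 → ∃ u : E d, ∀ i, y j ⬝ᵥ x i = 1 → a i = u ⬝ᵥ x i)
    (ha : ¬ TrivSpeed x a) : Flow x y θ := by
  classical
  have := h.symm.nonempty_left
  choose! u hu using hadm
  refine wflow_adm (θ := θ) (a := a)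
    (w := fun j => if y j ⬝ᵥ θ = 0 then 0 else (y j ⬝ᵥ θ) • u j - (u j ⬝ᵥ θ) • y j)
    (γ := fun j => if y j ⬝ᵥ θ = 0 then 0 else u j ⬝ᵥ θ) ⟨h.1, hθ, ?_, ?_, ?_⟩ ha
  · intro j
    split_ifs with hj
    · simp
    · simp only [sub_dotProduct, smul_dotProduct, smul_eq_mul]; ring
  · intro i j hij
    split_ifs with hj
    · simp [hj]
    · simp only [sub_dotProduct, smul_dotProduct, smul_eq_mul, hij, hu j hj i hij]; ring
  · intro j hj
    simp [hj]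

theorem vol_affine [Finite ι] [Finite κ] (h : Adm x y θ a w γ) {δ τ : ℝ} (hδ : 0 < δ)
    (hτ : 0 < τ) (hgood : ∀ t ∈ Icc (-δ) τ, t ∈ goodT x y θ a w γ) :
    ∃ α β : ℝ, ∀ t ∈ Icc (-δ) τ,
      (volume (convexHull ℝ (range (shadowPts x a θ t)))).toReal = α + β * t := by
  have := Fintype.ofFinite ι
  have hsum : 0 < τ + δ := by linarith
  set V0 := (volume (movA x a θ (-δ))).toReal
  set V1 := (volume (movA x a θ τ)).toReal
  refine ⟨V0 + δ * ((V1 - V0) / (τ + δ)), (V1 - V0) / (τ + δ), fun t ht => ?_⟩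
  have hp : 0 ≤ (τ - t) / (τ + δ) := div_nonneg (by linarith [ht.2]) hsum.le
  have hq : 0 ≤ (t + δ) / (τ + δ) := div_nonneg (by linarith [ht.1]) hsum.le
  have := h.volume_affine (hgood _ ⟨le_rfl, by linarith⟩) (hgood _ ⟨by linarith, le_rfl⟩)
    (hgood t ht) hp hq (by field_simp; ring) (by field_simp; ring)
  change (volume (movA x a θ t)).toReal = _
  have f0 : volume (movA x a θ (-δ)) ≠ ⊤ := (isCompact_hull _).measure_lt_top.ne
  have f1 : volume (movA x a θ τ) ≠ ⊤ := (isCompact_hull _).measure_lt_top.ne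
  rw [this, ENNReal.toReal_add (ENNReal.mul_ne_top ENNReal.ofReal_ne_top f0)
    (ENNReal.mul_ne_top ENNReal.ofReal_ne_top f1), ENNReal.toReal_mul, ENNReal.toReal_mul,
    ENNReal.toReal_ofReal hp, ENNReal.toReal_ofReal hq]
  change _ * V0 + _ * V1 = _
  field_simp
  ring

theorem recentre [Finite ι] [Finite κ] [Nonempty κ] (h : Adm x y θ a w γ) {δ τ : ℝ} (hδ : 0 < δ)
    (hτ : 0 < τ) (hgood : ∀ t ∈ Icc (-δ) τ, t ∈ goodT x y θ a w γ) {t : ℝ} (ht : t ∈ Icc (-δ) τ)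
    {c : E d} (hc : c ∈ interior (convexHull ℝ (range (shadowPts x a θ t)))) :
    (∀ j, 0 < 1 + t * γ j - (y j - t • w j) ⬝ᵥ c) ∧
    DualPair (fun i => shadowPts x a θ t i - c)
      (fun j => (1 + t * γ j - (y j - t • w j) ⬝ᵥ c)⁻¹ • (y j - t • w j)) := by
  have := Fintype.ofFinite ι
  have hsum : 0 < τ + δ := by linarith
  have hopp : ∃ r : ℝ, 0 < r ∧ -(r * t) ∈ goodT x y θ a w γ := by
    have hm : 0 < min δ τ := lt_min hδ hτ
    refine ⟨min δ τ / (τ + δ), div_pos hm hsum, hgood _ ⟨?_, ?_⟩⟩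
    · rw [neg_le_neg_iff, div_mul_eq_mul_div, div_le_iff₀ hsum]
      nlinarith [min_le_left δ τ, ht.2]
    · rw [neg_le, div_mul_eq_mul_div, le_div_iff₀ hsum]
      nlinarith [min_le_right δ τ, ht.1]
  have hAB := h.movA_eq_movB (hgood t ht) hopp ⟨c, hc⟩
  exact wflow_sub (x := shadowPts x a θ t) (y := fun j => y j - t • w j)
    (b := fun j => 1 + t * γ j) hAB (h.nondeg t) hc

theorem nInc_lt [Finite ι] [Finite κ] (h : Adm x y θ a w γ) {T : ℝ} {c : E d}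
    (hpos : ∀ j, 0 < 1 + T * γ j - (y j - T • w j) ⬝ᵥ c)
    (hnew : ∃ i j, y j ⬝ᵥ x i ≠ 1 ∧ (y j - T • w j) ⬝ᵥ shadowPts x a θ T i = 1 + T * γ j) :
    nInc x y < nInc (fun i => shadowPts x a θ T i - c)
      (fun j => (1 + T * γ j - (y j - T • w j) ⬝ᵥ c)⁻¹ • (y j - T • w j)) := by
  unfold nInc
  refine Set.ncard_lt_ncard ⟨fun p hp => ?_, fun hsub => ?_⟩
  · rw [mem_ofPred_eq, wflow_inc (hpos p.2)]
    rw [mem_ofPred_eq, dotProduct_comm] at hp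
    have e1 := h.slack T p.1 p.2
    have e2 := h.hinc p.1 p.2 hp
    rw [hp, e2] at e1
    linarith
  · obtain ⟨i, j, h1, h2⟩ := hnew
    have e2 := @hsub (i, j) ((wflow_inc (hpos j)).2 h2)
    rw [mem_ofPred_eq, dotProduct_comm] at e2
    exact h1 e2

theorem recentre0 [Finite ι] [Finite κ] (h : DualPair x y) {c : E d}
    (hc : c ∈ interior (convexHull ℝ (range x))) :
    (∀ j, 0 < 1 - y j ⬝ᵥ c) ∧
    DualPair (fun i => x i - c) (fun j => (1 - y j ⬝ᵥ c)⁻¹ • y j) ∧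
    nInc x y = nInc (fun i => x i - c) (fun j => (1 - y j ⬝ᵥ c)⁻¹ • y j) := by
  have := h.symm.nonempty_left
  obtain ⟨h1, h2⟩ := wflow_sub (b := fun _ => 1) h.1 (fun j => Or.inr one_ne_zero) hc
  refine ⟨h1, h2, ?_⟩
  unfold nInc
  congr 1
  ext p
  rw [mem_ofPred_eq, mem_ofPred_eq, wflow_inc (h1 p.2), dotProduct_comm]

end Pool.Agent.MP_5f4cdd_gt.W
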