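import Pool.Agent.MP_5f4cdd_gt.WFlow

set_option autoImplicit false
open MeasureTheory ENNReal Set Function Filter Topology Pointwise

namespace Pool.Agent.MP_5f4cdd_gt.W

open PL EF AB

variable {ι κ : Type} {x : ι → E 3} {y : κ → E 3}

/-- speeds that are linear on every facet are affine -/
def wtri_Rig (x : ι → E 3) (y : κ → E 3) : Prop :=
  ∀ a : ι → ℝ, (∀ j, ∃ u : E 3, ∀ i, y j ⬝ᵥ x i = 1 → a i = u ⬝ᵥ x i) → TrivSpeed x a

theorem wtri_of_comp {ι' κ' : Type} {f : ι' → ι} {g : κ' → κ} (hf : Surjective f)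
    (h : wtri_Rig (x ∘ f) (y ∘ g)) : wtri_Rig x y := by
  intro a hadm
  obtain ⟨u, c, hu⟩ := h (a ∘ f) fun j => by
    obtain ⟨u, hu⟩ := hadm (g j)
    exact ⟨u, fun i hi => hu (f i) hi⟩
  refine ⟨u, c, fun i => ?_⟩
  obtain ⟨k, rfl⟩ := hf i
  exact hu k

theorem wtri_extreme [Finite κ] (h : DualPair x y) (hr : Rigid y x) (j : κ) :
    y j ∈ (convexHull ℝ (range y)).extremePoints ℝ := by
  classical
  by_contra hj
  have hj' := hj
  rw [mem_extremePoints_iff_left] at hj'
  push Not at hj'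
  obtain ⟨w₁, h₁, w₂, h₂, ⟨s, t, hs, ht, hst, he⟩, hne⟩ :=
    hj' (subset_convexHull ℝ _ (mem_range_self j))
  have hη : w₁ - w₂ ≠ 0 := by
    intro h0
    apply hne
    rw [← he, ← sub_eq_zero.1 h0, ← add_smul, hst, one_smul]
  rw [h.2] at h₁ h₂
  have horth : ∀ i, x i ⬝ᵥ y j = 1 → x i ⬝ᵥ (w₁ - w₂) = 0 := by
    intro i hi
    have e1 : x i ⬝ᵥ w₁ ≤ 1 := h₁ i
    have e2 : x i ⬝ᵥ w₂ ≤ 1 := h₂ i
    rw [← he, dotProduct_add, dotProduct_smul, dotProduct_smul, smul_eq_mul, smul_eq_mul] at hi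
    have e3 : x i ⬝ᵥ w₁ = 1 := by nlinarith
    have e4 : x i ⬝ᵥ w₂ = 1 := by nlinarith
    rw [dotProduct_sub, e3, e4, sub_self]
  obtain ⟨u, c, hu⟩ := hr (w₁ - w₂) (fun j₁ => if j₁ = j then 1 else 0) hη fun i hi =>
    ⟨0, fun j₁ hj₁ => by
      rw [if_neg fun e : j₁ = j => hi (horth i (e ▸ hj₁)), zero_dotProduct]⟩
  obtain ⟨ρ, r1, r2, -⟩ := exists_extreme_repr h.symm.dot_le
  have e1 : u ⬝ᵥ y j ≤ -c := by
    refine dot_le_of_mem_hull (x := y ∘ ρ) (fun j₁ => ?_)
      (r2 ▸ subset_convexHull ℝ _ (mem_range_self j))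
    have e2 := hu (ρ j₁)
    have e3 : ρ j₁ ≠ j := fun e => hj (e ▸ r1 j₁)
    simp only [if_neg e3] at e2
    change u ⬝ᵥ y (ρ j₁) ≤ -c
    linarith
  have e4 := hu j
  simp only [if_true] at e4
  linarith

theorem wtri_orth (v₁ v₂ : E 3) : ∃ θ : E 3, θ ≠ 0 ∧ v₁ ⬝ᵥ θ = 0 ∧ v₂ ⬝ᵥ θ = 0 := by
  have h := LinearMap.ker_ne_bot_of_finrank_lt (f := evalMap (n := 3) ![v₁, v₂]) (by simp)
  obtain ⟨θ, h1, h2⟩ := Submodule.exists_mem_ne_zero_of_ne_bot h
  rw [LinearMap.mem_ker] at h1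
  refine ⟨θ, h2, ?_, ?_⟩
  · rw [dotProduct_comm]; exact congrFun h1 0
  · rw [dotProduct_comm]; exact congrFun h1 1

open Classical in
theorem wtri_count [Fintype ι] [Fintype κ] (h : DualPair x y)
    (hext : ∀ j, y j ∈ (convexHull ℝ (range y)).extremePoints ℝ) (hno : wtri_Rig x y) :
    Fintype.card ι + 3 * Fintype.card κ ≤
      4 + ∑ j, (Finset.univ.filter fun i => y j ⬝ᵥ x i = 1).card := by
  let Φ : ((ι → ℝ) × (κ → Fin 3 → ℝ)) →ₗ[ℝ] (∀ j : κ, {i // y j ⬝ᵥ x i = 1} → ℝ) :=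
    { toFun := fun p j i => p.1 i.1 - p.2 j ⬝ᵥ x i.1
      map_add' := fun p q => by ext j i; simp; ring
      map_smul' := fun c p => by ext j i; simp; ring }
  let Ψ : ((Fin 3 → ℝ) × ℝ) →ₗ[ℝ] (ι → ℝ) :=
    { toFun := fun p i => p.1 ⬝ᵥ x i + p.2
      map_add' := fun p q => by ext i; simp; ring
      map_smul' := fun c p => by ext i; simp; ring }
  have hker : ∀ p ∈ LinearMap.ker Φ, ∀ j i, y j ⬝ᵥ x i = 1 → p.1 i = p.2 j ⬝ᵥ x i := by
    intro p hp j i h1
    rw [LinearMap.mem_ker] at hp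
    exact sub_eq_zero.mp (congrFun (congrFun hp j) ⟨i, h1⟩)
  have hmem : ∀ p : LinearMap.ker Φ,
      ((LinearMap.fst ℝ _ _).comp (LinearMap.ker Φ).subtype) p ∈ LinearMap.range Ψ := by
    intro p
    obtain ⟨u, c, hu⟩ := hno p.1.1 fun j => ⟨p.1.2 j, fun i hi => hker p.1 p.2 j i hi⟩
    exact ⟨(u, c), funext fun i => (hu i).symm⟩
  have hinj : Function.Injective (LinearMap.codRestrict _ _ hmem) := by
    rw [injective_iff_map_eq_zero]
    intro p hp
    have h1 : p.1.1 = 0 := congrArg Subtype.val hp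
    have h2 : p.1.2 = 0 := by
      funext j
      refine eq_zero_of_extreme h (hext j) fun i hi => ?_
      rw [← hker p.1 p.2 j i hi, h1]; rfl
    exact Subtype.ext (Prod.ext h1 h2)
  have e1 := LinearMap.finrank_le_finrank_of_injective hinj
  have e2 : Module.finrank ℝ (LinearMap.range Ψ) ≤ 4 := by
    have := LinearMap.finrank_range_le Ψ
    simpa using this
  have e3 := LinearMap.finrank_range_add_finrank_ker Φ
  have e4 := Submodule.finrank_le (LinearMap.range Φ)
  rw [Module.finrank_prod, Module.finrank_pi_fintype, Module.finrank_pi_fintype ℝ (ι := κ)] at e3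
  rw [Module.finrank_pi_fintype] at e4
  simp only [Module.finrank_fintype_fun_eq_card, Fintype.card_fin, Finset.sum_const,
    Finset.card_univ, smul_eq_mul, Module.finrank_self, mul_one, Fintype.card_subtype] at e3 e4
  omega

open Classical in
theorem wtri_card [Fintype ι] [Fintype κ] (h : DualPair x y)
    (hx : Injective x) (hy : Injective y)
    (hextx : ∀ i, x i ∈ (convexHull ℝ (range x)).extremePoints ℝ)
    (hexty : ∀ j, y j ∈ (convexHull ℝ (range y)).extremePoints ℝ)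
    (hno : wtri_Rig x y) (hno' : Rigid y x) : Fintype.card κ ≤ 4 := by
  obtain ⟨v⟩ := h.nonempty_left
  obtain ⟨G0⟩ := h.symm.nonempty_left
  have hd3 := le_card_inc h.symm (hextx v)
  have : Nontrivial ι := by
    rw [← Fintype.one_lt_card_iff_nontrivial]
    have := (le_card_inc h (hexty G0)).trans (Finset.card_le_univ _)
    omega
  have hE := euler_ineq h hx hy hextx
  have hC := wtri_count h hexty hno
  have hswap : ∑ i, (Finset.univ.filter fun j => x i ⬝ᵥ y j = 1).card =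
      ∑ j, (Finset.univ.filter fun i => y j ⬝ᵥ x i = 1).card := by
    simp only [Finset.card_filter]
    rw [Finset.sum_comm]
    simp only [dotProduct_comm]
  have hm : ∀ v, (Finset.univ.filter fun j => x v ⬝ᵥ y j = 1).card ≤ 3 := fun v => by
    have := count_le h.symm hextx hno' v
    omega
  have hI : ∑ i, (Finset.univ.filter fun j => x i ⬝ᵥ y j = 1).card ≤ ∑ _i : ι, 3 :=
    Finset.sum_le_sum fun i _ => hm i
  rw [Finset.sum_const, Finset.card_univ, smul_eq_mul] at hI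
  have hD := count_le h.symm hextx hno' v
  omega

theorem trichotomy [Finite ι] [Finite κ] (h : DualPair x y)
    (hx : ∀ i, x i ∈ (convexHull ℝ (range x)).extremePoints ℝ) (v₁ v₂ : E 3) :
    (∃ p : Fin 4 → E 3, range p = range y) ∨
      (∃ θ : E 3, v₁ ⬝ᵥ θ = 0 ∧ v₂ ⬝ᵥ θ = 0 ∧ Flow x y θ) ∨ ∃ η : E 3, Flow y x η := by
  by_cases f2 : ∃ η : E 3, Flow y x η
  · exact Or.inr (Or.inr f2)
  obtain ⟨θ, hθ, h1, h2⟩ := wtri_orth v₁ v₂
  by_cases f1 : Flow x y θ
  · exact Or.inr (Or.inl ⟨θ, h1, h2, f1⟩)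
  left
  have r1 : wtri_Rig x y := fun a hadm =>
    by_contra fun ha => f1 (flow_of_admissible h hθ (fun j _ => hadm j) ha)
  have r2 : Rigid y x := fun η b hη hadm =>
    by_contra fun hb => f2 ⟨η, flow_of_admissible h.symm hη hadm hb⟩
  have hy := wtri_extreme h r2
  have := (finite_range x).fintype
  have := (finite_range y).fintype
  have e1 : range (Subtype.val : range x → E 3) = range x := Subtype.range_coe
  have e2 : range (Subtype.val : range y → E 3) = range y := Subtype.range_coe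
  have hd : DualPair (Subtype.val : range x → E 3) (Subtype.val : range y → E 3) :=
    ((h.of_hull_eq (by rw [e1])).symm.of_hull_eq (by rw [e2])).symm
  have hc := wtri_card hd Subtype.val_injective Subtype.val_injective
    (by rintro ⟨_, i, rfl⟩; rw [e1]; exact hx i) (by rintro ⟨_, j, rfl⟩; rw [e2]; exact hy j)
    (wtri_of_comp (f := rangeFactorization x) (g := rangeFactorization y)
      rangeFactorization_surjective r1)
    (Rigid.of_comp (f := rangeFactorization y) (g := rangeFactorization x)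
      rangeFactorization_surjective r2)
  have := hd.symm.nonempty_left
  obtain ⟨f⟩ : Nonempty (range y ↪ Fin 4) :=
    Function.Embedding.nonempty_of_card_le (by simpa using hc)
  have hs : Surjective (invFun f) := invFun_surjective f.injective
  exact ⟨Subtype.val ∘ invFun f, (hs.range_comp _).trans e2⟩

end Pool.Agent.MP_5f4cdd_gt.W
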